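import Pool.Agent.Lib.MP_7e4769_co.Hc.Defs

set_option autoImplicit false

namespace Pool.Agent.Hom2

variable {V : Type} {G : SimpleGraph V}

theorem ok4_sw1 {α : Type} {a x y z : α} (h : ok4 a x y z) : ok4 a y x z := by
  unfold ok4 at *; grind

theorem ok4_sw2 {α : Type} {a x y z : α} (h : ok4 a x y z) : ok4 a x z y := by
  unfold ok4 at *; grind

theorem ok4_map {α β : Type} {f : α → β} (hf : Function.Injective f) {a x y z : α}
    (h : ok4 a x y z) : ok4 (f a) (f x) (f y) (f z) := by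
  unfold ok4 at *; simpa only [ne_eq, hf.eq_iff] using h

theorem Nb.sw1 {v x y z : V} (h : Nb G v x y z) : Nb G v y x z := by
  obtain ⟨h1, h2, h3, h4⟩ := h
  exact ⟨h1.symm, h3, h2, fun w => by rw [h4]; tauto⟩

theorem Nb.sw2 {v x y z : V} (h : Nb G v x y z) : Nb G v x z y := by
  obtain ⟨h1, h2, h3, h4⟩ := h
  exact ⟨h2, h1, h3.symm, fun w => by rw [h4]; tauto⟩

theorem Nb.adj1 {v x y z : V} (h : Nb G v x y z) : G.Adj v x := (h.2.2.2 x).2 (Or.inl rfl)
theorem Nb.adj2 {v x y z : V} (h : Nb G v x y z) : G.Adj v y := (h.2.2.2 y).2 (Or.inr (Or.inl rfl))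
theorem Nb.adj3 {v x y z : V} (h : Nb G v x y z) : G.Adj v z := (h.2.2.2 z).2 (Or.inr (Or.inr rfl))

theorem Nb.cases {v x y z w : V} (h : Nb G v x y z) (hw : G.Adj v w) : w = x ∨ w = y ∨ w = z :=
  (h.2.2.2 w).1 hw

theorem Nb.of_adj {v x y z a b d : V} (h : Nb G v x y z) (ha : G.Adj v a) (hb : G.Adj v b)
    (hd : G.Adj v d) (hab : a ≠ b) (had : a ≠ d) (hbd : b ≠ d) : Nb G v a b d := by
  refine ⟨hab, had, hbd, fun w => ⟨fun hw => ?_, ?_⟩⟩
  · have h1 := h.cases ha; have h2 := h.cases hb; have h3 := h.cases hd; have h4 := h.cases hw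
    grind
  · rintro (rfl | rfl | rfl) <;> assumption

theorem OK.of_nb {α : Type} {c : V → α} {v x y z : V} (h : Nb G v x y z)
    (ho : ok4 (c v) (c x) (c y) (c z)) : OK G c v := by
  intro a b d hn
  have h1 := h.cases hn.adj1; have h2 := h.cases hn.adj2; have h3 := h.cases hn.adj3
  obtain ⟨e1, e2, e3, -⟩ := hn
  rcases h1 with rfl | rfl | rfl <;> rcases h2 with rfl | rfl | rfl <;>
    rcases h3 with rfl | rfl | rfl <;>
    first
      | exact absurd rfl e1
      | exact absurd rfl e2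
      | exact absurd rfl e3
      | exact ho
      | exact ok4_sw1 ho
      | exact ok4_sw2 ho
      | exact ok4_sw1 (ok4_sw2 ho)
      | exact ok4_sw2 (ok4_sw1 ho)
      | exact ok4_sw1 (ok4_sw2 (ok4_sw1 ho))

theorem Cub.first {X : Finset V} (hc : Cub G X) {v w : V} (hv : v ∈ X) (hw : G.Adj v w) :
    ∃ y z, Nb G v w y z := by
  obtain ⟨x, y, z, h⟩ := hc v hv
  rcases h.cases hw with rfl | rfl | rfl
  · exact ⟨y, z, h⟩
  · exact ⟨x, z, h.sw1⟩
  · exact ⟨x, y, h.sw2.sw1⟩

theorem Cub.second {X : Finset V} (hc : Cub G X) {v w u : V} (hv : v ∈ X) (hw : G.Adj v w)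
    (hu : G.Adj v u) (hne : w ≠ u) : ∃ z, Nb G v w u z := by
  obtain ⟨y, z, h⟩ := hc.first hv hw
  rcases h.cases hu with rfl | rfl | rfl
  · exact absurd rfl hne
  · exact ⟨z, h⟩
  · exact ⟨y, h.sw2⟩

theorem Cub.mono {X Y : Finset V} (hc : Cub G X) (h : Y ⊆ X) : Cub G Y := fun v hv => hc v (h hv)

theorem OK.congr {α : Type} {c c' : V → α} {v : V} (h : OK G c v) (hv : c' v = c v)
    (hn : ∀ w, G.Adj v w → c' w = c w) : OK G c' v := by
  intro x y z hb
  rw [hv, hn x hb.adj1, hn y hb.adj2, hn z hb.adj3]; exact h x y z hb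

theorem OK.map {α β : Type} {f : α → β} (hf : Function.Injective f) {c : V → α} {v : V}
    (h : OK G c v) : OK G (fun u => f (c u)) v := fun x y z hb => ok4_map hf (h x y z hb)

theorem OK.ne {α : Type} {X : Finset V} (hc : Cub G X) {c : V → α} {v w : V} (hv : v ∈ X)
    (h : OK G c v) (hw : G.Adj v w) : c v ≠ c w := by
  obtain ⟨y, z, hb⟩ := hc.first hv hw
  exact (h w y z hb).1

theorem Col.mono {X : Finset V} {T T' : Set V} (h : Col G X T) (hT : T ⊆ T') : Col G X T' := by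
  obtain ⟨c, h1, h2⟩ := h
  exact ⟨c, fun v hv hv' => h1 v hv (fun e => hv' (hT e)), h2⟩

theorem Good.goodF {X : Finset V} (h : Good G X) (u : V) : GoodF G X u :=
  Col.mono h (Set.empty_subset _)

theorem good_empty : Good G (∅ : Finset V) := ⟨fun _ => 3, fun _ _ _ => rfl, by simp⟩

/-- row of an infinity vertex -/
theorem ok4_row : ∀ x y z : Fin 4, ok4 3 x y z ↔
    x ≠ 3 ∧ y ≠ 3 ∧ z ≠ 3 ∧ (x.val + y.val + z.val) % 3 ≠ 0 := by decide

/-- a finite vertex that accepts infinity accepts one finite colour -/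
theorem ok4_third : ∀ a x y : Fin 4, ok4 a 3 x y → ∃ t : Fin 4, t ≠ 3 ∧ ok4 a t x y := by decide

variable [DecidableEq V]

/-- two parts without edges between them -/
theorem Col.union {A B : Finset V} {T : Set V} (hA : Col G A T) (hB : Good G B)
    (hd : ∀ x ∈ A, x ∉ B) (hne : ∀ x ∈ A, ∀ y ∈ B, ¬ G.Adj x y)
    (hT : ∀ t ∈ T, ∀ y ∈ B, ¬ G.Adj y t) : Col G (A ∪ B) T := by
  obtain ⟨c, h1, h2⟩ := hA
  obtain ⟨d, g1, g2⟩ := hB
  refine ⟨fun v => if v ∈ B then d v else c v, fun v hv hv' => ?_, fun v hv => ?_⟩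
  · rw [Finset.mem_union, not_or] at hv
    simp only [hv.2, if_false]; exact h1 v hv.1 hv'
  · rcases Finset.mem_union.1 hv with hv | hv
    · refine (h2 v hv).congr (by simp [hd v hv]) (fun w hw => ?_)
      have : w ∉ B := fun e => hne v hv w e hw
      simp [this]
    · refine (g2 v hv).congr (by simp [hv]) (fun w hw => ?_)
      by_cases e : w ∈ B
      · simp [e]
      · simp only [e, if_false]
        rw [g1 w e (by simp), h1 w (fun e' => hne w e' v hv hw.symm) (fun e' => hT w e' v hv hw)]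

/-- the six permutations of the finite colours -/
def s3 (i : Fin 6) (x : Fin 4) : Fin 4 :=
  (![![0, 1, 2, 3], ![1, 0, 2, 3], ![2, 1, 0, 3], ![0, 2, 1, 3], ![1, 2, 0, 3], ![2, 0, 1, 3]] :
    Fin 6 → Fin 4 → Fin 4) i x

omit [DecidableEq V] in
theorem s3_inj (i : Fin 6) : Function.Injective (s3 i) := by
  revert i; unfold Function.Injective; decide

omit [DecidableEq V] in
theorem s3_three : ∀ i : Fin 6, s3 i 3 = 3 := by decide

omit [DecidableEq V] in
theorem bridge_fin : ∀ a x y b z u v : Fin 4, ok4 a 3 x y → ok4 b z u v →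
    ∃ i : Fin 6, ok4 a (s3 i b) x y ∧ ok4 (s3 i b) a (s3 i u) (s3 i v) := by
  decide +kernel

/-- Bridge lemma. -/
theorem Col.bridge {A B : Finset V} {T : Set V} {a b : V} (hc : Cub G (A ∪ B))
    (hA : Col G A T) (hB : GoodF G B a) (ha : a ∈ A) (hb : b ∈ B) (hab : G.Adj a b)
    (hd : ∀ x ∈ A, x ∉ B) (he : ∀ x ∈ A, ∀ y ∈ B, G.Adj x y → x = a ∧ y = b)
    (hbT : b ∉ T) (hT : ∀ t ∈ T, ∀ y ∈ B, ¬ G.Adj y t) : Col G (A ∪ B) T := by
  obtain ⟨c, h1, h2⟩ := hA
  obtain ⟨d, g1, g2⟩ := hB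
  obtain ⟨x, y, hx⟩ := hc.first (Finset.mem_union_left _ ha) hab
  obtain ⟨u, v, hu⟩ := hc.first (Finset.mem_union_right _ hb) hab.symm
  have hbA : b ∉ A := fun e => hd b e hb
  have cb : c b = 3 := h1 b hbA hbT
  have o1 := h2 a ha b x y hx
  rw [cb] at o1
  obtain ⟨i, p1, p2⟩ := bridge_fin _ _ _ _ _ _ _ o1 (g2 b hb a u v hu)
  have out : ∀ w ∈ B, ∀ t, G.Adj w t → t ≠ a →
      (if t ∈ B then s3 i (d t) else c t) = s3 i (d t) := by
    intro w hw t ht hta
    by_cases e : t ∈ B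
    · simp [e]
    · simp only [e, if_false]
      rw [g1 t e (by simpa using hta), s3_three,
        h1 t (fun e' => hta (he t e' w hw ht.symm).1) (fun e' => hT t e' w hw ht)]
  refine ⟨fun w => if w ∈ B then s3 i (d w) else c w, fun w hw hw' => ?_, fun w hw => ?_⟩
  · rw [Finset.mem_union, not_or] at hw
    simp only [hw.2, if_false]; exact h1 w hw.1 hw'
  · rcases Finset.mem_union.1 hw with hw | hw
    · by_cases e : w = a
      · subst e
        refine OK.of_nb hx ?_
        have ex : x ∉ B := fun e' => hx.1 (he w hw x e' hx.adj2).2.symm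
        have ey : y ∉ B := fun e' => hx.2.1 (he w hw y e' hx.adj3).2.symm
        simpa [hd w hw, hb, ex, ey] using p1
      · refine (h2 w hw).congr (by simp [hd w hw]) (fun t ht => ?_)
        have : t ∉ B := fun e' => e (he w hw t e' ht).1
        simp [this]
    · by_cases e : w = b
      · subst e
        refine OK.of_nb hu ?_
        have e1 := out w hw u hu.adj2 hu.1.symm
        have e2 := out w hw v hu.adj3 hu.2.1.symm
        simp only [e1, e2, hw, if_true, hd a ha, if_false]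
        exact p2
      · refine ((g2 w hw).map (s3_inj i)).congr (by simp [hw]) (fun t ht => ?_)
        exact out w hw t ht (fun e' => e (he a ha w hw (e' ▸ ht.symm)).2)

omit [DecidableEq V] in
/-- a single vertex with one free stub -/
theorem goodF_single {v h : V} (hc : Cub G {v}) (hh : G.Adj v h) : GoodF G {v} h := by
  classical
  obtain ⟨y, z, hb⟩ := hc.first (Finset.mem_singleton_self v) hh
  refine ⟨fun w => if w = v then 0 else if w = h then 1 else 3, fun w hw hw' => ?_, fun w hw => ?_⟩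
  · simp only [Finset.mem_singleton, Set.mem_singleton_iff] at hw hw'
    simp [hw, hw']
  · rw [Finset.mem_singleton.1 hw]
    refine OK.of_nb hb ?_
    simp only [if_true, hb.adj1.ne', hb.adj2.ne', hb.adj3.ne', hb.1.symm, hb.2.1.symm, if_false]
    decide

/-- Move: `K` is coloured last, `S` is infinity, `R` is the remainder. -/
theorem Col.move {X R K : Finset V} {T : Set V} (hR : R ⊆ X) (hK : K ⊆ X)
    (hcl : ∀ x ∈ R, x ∉ K ∧ ∀ y ∈ K, ¬ G.Adj x y)
    (pay : ∀ c : V → Fin 4, (∀ v, v ∉ R → v ∉ T → c v = 3) → (∀ v ∈ R, OK G c v) →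
      ∃ d : V → Fin 4, ∀ v ∈ X, v ∉ R → OK G (fun w => if w ∈ K then d w else c w) v)
    (h : Col G R T) : Col G X T := by
  obtain ⟨c, h1, h2⟩ := h
  obtain ⟨d, hd⟩ := pay c h1 h2
  refine ⟨fun w => if w ∈ K then d w else c w, fun v hv hv' => ?_, fun v hv => ?_⟩
  · have : v ∉ K := fun e => hv (hK e)
    simp only [this, if_false]; exact h1 v (fun e => hv (hR e)) hv'
  · by_cases e : v ∈ R
    · refine (h2 v e).congr (by simp [(hcl v e).1]) (fun w hw => ?_)
      have : w ∉ K := fun e' => (hcl v e).2 w e' hw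
      simp [this]
    · exact hd v hv e

end Pool.Agent.Hom2
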