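import Pool.Agent.Lib.MP_7e4769_co.Hc.Chk

set_option autoImplicit false

namespace Pool.Agent.Hom2

@[simp] theorem fz_eq (x : ℕ) (k : ℕ → ℕ) : fz x k = k x := by cases x <;> rfl
@[simp] theorem fzb_eq (x : ℕ) (k : ℕ → Bool) : fzb x k = k x := by cases x <;> rfl

theorem sq_ne {x : ℕ} {k : ℕ → ℕ} (h : sq x k ≠ 0) : x ≠ 0 ∧ k x ≠ 0 := by
  cases x with
  | zero => exact absurd rfl h
  | succ m => exact ⟨by simp, h⟩

@[simp] theorem lt_iff (a b : ℕ) : lt a b = true ↔ a < b := by simp [lt, Nat.ble_eq]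
@[simp] theorem lt_false (a b : ℕ) : lt a b = false ↔ b ≤ a := by
  rw [← Bool.not_eq_true, lt_iff]; omega
@[simp] theorem ne_iff (a b : ℕ) : ne a b = true ↔ a ≠ b := by
  unfold ne; rw [Bool.not_eq_true', ← Bool.not_eq_true, Nat.beq_eq]
@[simp] theorem beq_false (a b : ℕ) : Nat.beq a b = false ↔ a ≠ b := by
  rw [← Bool.not_eq_true, Nat.beq_eq]
@[simp] theorem ble_false (a b : ℕ) : Nat.ble a b = false ↔ b < a := by
  rw [← Bool.not_eq_true, Nat.ble_eq]; omega

theorem allLt_iff (n : ℕ) (f : ℕ → Bool) : allLt n f = true ↔ ∀ i < n, f i = true := by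
  induction n with
  | zero => simp [allLt]
  | succ n ih =>
    have : allLt (n + 1) f = (f n && allLt n f) := rfl
    rw [this, Bool.and_eq_true, ih]
    constructor
    · rintro ⟨a, b⟩ i hi
      rcases Nat.lt_succ_iff_lt_or_eq.1 hi with h | rfl
      · exact b i h
      · exact a
    · exact fun h => ⟨h n (by omega), fun i hi => h i (by omega)⟩

theorem thr_succ (n : ℕ) (f : ℕ → ℕ → ℕ) (B : ℕ) : thr (n + 1) f B = sq (thr n f B) (f n) := rfl

theorem thr_ne {n : ℕ} {f : ℕ → ℕ → ℕ} {B : ℕ} (h : thr n f B ≠ 0) : ∀ i < n, ∃ B', f i B' ≠ 0 := by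
  induction n with
  | zero => intro i hi; omega
  | succ n ih =>
    rw [thr_succ] at h
    intro i hi
    rcases Nat.lt_succ_iff_lt_or_eq.1 hi with e | rfl
    · exact ih (sq_ne h).1 i e
    · exact ⟨_, (sq_ne h).2⟩

theorem all3_iff (f : ℕ → Bool) : all3 f = true ↔ ∀ k < 3, f k = true := by
  simp only [all3, Bool.and_eq_true]
  constructor
  · rintro ⟨a, b, c⟩ k hk
    interval_cases k <;> assumption
  · exact fun h => ⟨h 0 (by omega), h 1 (by omega), h 2 (by omega)⟩

theorem any3_iff (f : ℕ → Bool) : any3 f = true ↔ ∃ k < 3, f k = true := by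
  simp only [any3, Bool.or_eq_true]
  constructor
  · rintro (a | a | a)
    · exact ⟨0, by omega, a⟩
    · exact ⟨1, by omega, a⟩
    · exact ⟨2, by omega, a⟩
  · rintro ⟨k, hk, h⟩
    interval_cases k <;> simp [h]

theorem fld_eq (B p w : ℕ) : fld B p w = (B >>> p) % w := rfl
theorem shr_eq (B p : ℕ) : shr B p = B >>> p := rfl
theorem pos_eq (i k : ℕ) : pos i k = 18 * i + 6 * k := rfl

theorem tb_eq (m i : ℕ) : tb m i = m.testBit i := by
  unfold tb
  rw [fld_eq, Nat.testBit_eq_decide_div_mod_eq, Nat.shiftRight_eq_div_pow]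
  rw [Bool.eq_iff_iff, Nat.beq_eq, decide_eq_true_iff]

theorem tb_lor (a b i : ℕ) : tb (Nat.lor a b) i = (tb a i || tb b i) := by
  simp only [tb_eq]; exact Nat.testBit_or a b i

theorem tb_sb (m i j : ℕ) : tb (sb m i) j = true ↔ tb m j = true ∨ j = i := by
  unfold sb
  rw [tb_lor, Bool.or_eq_true, tb_eq (Nat.shiftLeft 1 i)]
  have : Nat.shiftLeft 1 i = 2 ^ i := by
    show 1 <<< i = _
    rw [Nat.shiftLeft_eq, one_mul]
  rw [this, Nat.testBit_two_pow, decide_eq_true_iff]
  tauto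

@[simp] theorem tb_zero (i : ℕ) : tb 0 i = false := by simp [tb_eq]

theorem tb_lt_of_shr {m n i : ℕ} (h : shr m n = 0) (hi : tb m i = true) : i < n := by
  by_contra e
  have : (m >>> n).testBit (i - n) = m.testBit i := by
    rw [Nat.testBit_shiftRight]; congr 1; omega
  rw [← shr_eq, h, ← tb_eq m, hi] at this
  simp at this

theorem tb_land {a b i : ℕ} (h : Nat.land a b = 0) (ha : tb a i = true) (hb : tb b i = true) : False := by
  have : (a &&& b).testBit i = (a.testBit i && b.testBit i) := Nat.testBit_and a b i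
  rw [show a &&& b = 0 from h, ← tb_eq a, ← tb_eq b, ha, hb] at this
  simp at this

theorem exists_tb {a : ℕ} (h : a ≠ 0) : ∃ i, tb a i = true := by
  simp only [tb_eq]; exact Nat.exists_testBit_of_ne_zero h

theorem tb_mod_pow (S s i : ℕ) : tb (Nat.mod S (Nat.pow 2 s)) i = true ↔ tb S i = true ∧ i < s := by
  simp only [tb_eq]
  rw [show Nat.mod S (Nat.pow 2 s) = S % 2 ^ s from rfl, Nat.testBit_mod_two_pow]
  simp [and_comm]

/-- a 6-bit field after an `or` -/
theorem fld_or (R c p q : ℕ) (hc : c < 64) (h : p = q ∨ p + 6 ≤ q ∨ q + 6 ≤ p) :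
    fld (Nat.lor R (Nat.shiftLeft c p)) q 64 = if p = q then fld R q 64 ||| c else fld R q 64 := by
  apply Nat.eq_of_testBit_eq
  intro t
  have hc' : ∀ u, 6 ≤ u → c.testBit u = false := fun u hu =>
    Nat.testBit_lt_two_pow (lt_of_lt_of_le hc (Nat.pow_le_pow_right (n := 2) (by omega) hu))
  have e : ∀ x, (fld x q 64).testBit t = (decide (t < 6) && x.testBit (q + t)) := fun x => by
    rw [fld_eq, show (64 : ℕ) = 2 ^ 6 from rfl, Nat.testBit_mod_two_pow, Nat.testBit_shiftRight]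
  have e2 : (Nat.lor R (Nat.shiftLeft c p)).testBit (q + t) =
      (R.testBit (q + t) || (decide (q + t ≥ p) && c.testBit (q + t - p))) := by
    rw [← Nat.testBit_shiftLeft]; exact Nat.testBit_or _ _ _
  rw [e, e2]
  by_cases ht : t < 6
  · split_ifs with a
    · subst a; simp [e, ht]
    · rw [e]
      rcases h with h | h | h
      · exact absurd h a
      · simp [hc' (q + t - p) (by omega)]
      · simp [show ¬ p ≤ q + t by omega]
  · split_ifs with a
    · simp [e, ht, hc' t (by omega)]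
    · simp [e, ht]

theorem sl_put {R i k c : ℕ} (hc : c < 64) (hk : k < 3) (h0 : sl R i k = 0) (i' k' : ℕ) (hk' : k' < 3) :
    sl (put R i k c) i' k' = if i' = i ∧ k' = k then c else sl R i' k' := by
  unfold sl put at *
  rw [fld_or _ _ _ _ hc (by simp only [pos_eq]; omega)]
  by_cases a : i' = i ∧ k' = k
  · obtain ⟨rfl, rfl⟩ := a; simp [h0]
  · rw [if_neg a, if_neg (by simp only [pos_eq]; omega)]

theorem sl_lt (R i k : ℕ) : sl R i k < 64 := Nat.mod_lt _ (by omega)

theorem sl_high {R n : ℕ} (h : shr R (Nat.mul 18 n) = 0) (k : ℕ) : sl R n k = 0 := by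
  unfold sl
  rw [fld_eq, pos_eq, Nat.shiftRight_add, show R >>> (18 * n) = 0 from h]
  simp

theorem lists_iff (R i j : ℕ) : lists R i j = true ↔ ∃ k < 3, sl R i k = j + 2 := by
  simp [lists, any3_iff]

theorem hasStub_iff (R i : ℕ) : hasStub R i = true ↔ ∃ k < 3, sl R i k = 1 := by
  simp [hasStub, any3_iff]

theorem noOpen_iff (R i : ℕ) : noOpen R i = true ↔ ∀ k < 3, sl R i k ≠ 0 := by
  simp [noOpen, all3_iff]

theorem fo_spec {R j k : ℕ} (hk : k < 3) (h : sl R j k = 0) : fo R j < 3 ∧ sl R j (fo R j) = 0 := by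
  unfold fo
  by_cases a : sl R j 0 = 0
  · simp [a]
  by_cases b : sl R j 1 = 0
  · simp [(beq_false _ _).2 a, b]
  by_cases c : sl R j 2 = 0
  · simp [(beq_false _ _).2 a, (beq_false _ _).2 b, c]
  interval_cases k <;> contradiction

theorem inM_iff (m c : ℕ) : inM m c = true ↔ ∃ y, c = y + 2 ∧ tb m y = true := by
  simp only [inM, Bool.and_eq_true, Nat.ble_eq]
  constructor
  · rintro ⟨a, b⟩; exact ⟨c - 2, by omega, b⟩
  · rintro ⟨y, rfl, b⟩; exact ⟨by omega, b⟩

theorem offM_iff (m c : ℕ) : offM m c = true ↔ ∃ y, c = y + 2 ∧ tb m y = false := by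
  simp only [offM, Bool.and_eq_true, Nat.ble_eq, Bool.not_eq_true']
  constructor
  · rintro ⟨a, b⟩; exact ⟨c - 2, by omega, b⟩
  · rintro ⟨y, rfl, b⟩; exact ⟨by omega, b⟩

theorem injM_spec {n : ℕ} {f : ℕ → ℕ} (h : injM n f ≠ 0) :
    (∀ i < n, ∀ j < n, f i = f j → i = j) ∧ ∀ i < n, tb (injM n f) (f i + 1) = true := by
  induction n with
  | zero => exact ⟨fun i hi => by omega, fun i hi => by omega⟩
  | succ n ih =>
    have e : injM (n + 1) f = sq (injM n f)
      (fun a => fz (Nat.succ (f n)) (fun j => bif tb a j then 0 else sb a j)) := rfl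
    obtain ⟨h1, h2⟩ := sq_ne (e ▸ h)
    obtain ⟨a, b⟩ := ih h1
    simp only [fz_eq] at h2
    have c : tb (injM n f) (f n + 1) = false := by
      by_contra r
      rw [Bool.not_eq_false] at r
      simp [r] at h2
    have e2 : injM (n + 1) f = sb (injM n f) (f n + 1) := by
      rw [e]
      obtain ⟨m, hm⟩ := Nat.exists_eq_succ_of_ne_zero h1
      rw [hm] at c ⊢
      show fz (Nat.succ (f n)) (fun j => bif tb m.succ j then 0 else sb m.succ j) = _
      rw [fz_eq, show Nat.succ (f n) = f n + 1 from rfl, c]; rfl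
    have d : ∀ i < n, f i ≠ f n := fun i hi r => by
      have := b i hi; rw [r, c] at this; simp at this
    refine ⟨fun i hi j hj r => ?_, fun i hi => ?_⟩
    · rcases Nat.lt_succ_iff_lt_or_eq.1 hi with u | rfl <;>
        rcases Nat.lt_succ_iff_lt_or_eq.1 hj with v | rfl
      · exact a i u j v r
      · exact absurd r (d i u)
      · exact absurd r.symm (d j v)
      · rfl
    · rw [e2, tb_sb]
      rcases Nat.lt_succ_iff_lt_or_eq.1 hi with u | rfl
      · exact Or.inl (b i u)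
      · exact Or.inr rfl

theorem prm_spec : ∀ p < 8, prm p 0 < 3 ∧ prm p 1 < 3 ∧ prm p 2 < 3 ∧ prm p 0 ≠ prm p 1 ∧
    prm p 0 ≠ prm p 2 ∧ prm p 1 ≠ prm p 2 := by decide

theorem cond_ne {b : Bool} {x : ℕ} (h : (bif b then x else 0) ≠ 0) : b = true ∧ x ≠ 0 := by
  cases b <;> simp_all

end Pool.Agent.Hom2
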