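import Pool.Agent.Lib.MP_7e4769_co.Hc.C3Fin

set_option autoImplicit false

namespace Pool.Agent.Hom2

variable {V : Type} {G : SimpleGraph V} {X P : Finset V} {a u b w e t : V}

theorem c3port : ∀ a y z : Fin 4, a ≠ y → a ≠ z →
    ∃ e : Fin 4, a ≠ e ∧ ∀ x : Fin 4, ok4 a x y z ↔ acc a e x := by
  decide +kernel

theorem Pole3.sw1 (h : Pole3 G X P a u b w e t) : Pole3 G X P b w a u e t :=
  ⟨h.sub, h.mb, h.ma, h.me, h.mw, h.mu, h.mt, h.nw, h.nu, h.nt, h.bw, h.au, h.et, h.uw.symm, h.wt,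
    h.ut, fun x hx y hy hy' k => by have := h.only x hx y hy hy' k; tauto⟩

theorem Pole3.sw2 (h : Pole3 G X P a u b w e t) : Pole3 G X P a u e t b w :=
  ⟨h.sub, h.ma, h.me, h.mb, h.mu, h.mt, h.mw, h.nu, h.nt, h.nw, h.au, h.et, h.bw, h.ut, h.uw,
    h.wt.symm, fun x hx y hy hy' k => by have := h.only x hx y hy hy' k; tauto⟩

/-- a neighbour of a vertex of the pole lies in the pole or is the outer end of a port -/
theorem Pole3.nbr (h : Pole3 G X P a u b w e t) (hcl : Closed G X) {v z : V} (hv : v ∈ P)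
    (k : G.Adj v z) : z ∈ P ∨ (v = a ∧ z = u) ∨ (v = b ∧ z = w) ∨ (v = e ∧ z = t) := by
  by_cases m : z ∈ P
  · exact Or.inl m
  · exact Or.inr (h.only v hv z (hcl v (h.sub hv) z k) m k)

/-- the state `s` is realised in the pole -/
def HasSt (G : SimpleGraph V) (P : Finset V) (a u b w e t : V) (s : PS) : Prop :=
  s.Val ∧ ∃ c : V → Fin 4, c a = s.c0 ∧ c b = s.c1 ∧ c e = s.c2 ∧
    ∀ d : V → Fin 4, (∀ v ∈ P, d v = c v) → acc s.c0 s.e0 (d u) → acc s.c1 s.e1 (d w) →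
      acc s.c2 s.e2 (d t) → ∀ v ∈ P, OK G d v

theorem HasSt.pset (G : SimpleGraph V) (P : Finset V) (a u b w e t : V) :
    PSet (HasSt G P a u b w e t) := by
  rintro s ⟨⟨v0, v1, v2⟩, c, h0, h1, h2, h3⟩
  refine ⟨⟨v0, v1, v2⟩, fun f hf => ⟨⟨hf.ne v0, hf.ne v1, hf.ne v2⟩, fun v => f (c v),
    congrArg f h0, congrArg f h1, congrArg f h2, fun d hd k0 k1 k2 v hv => ?_⟩⟩
  let F := Equiv.ofBijective f (Finite.injective_iff_bijective.1 hf)
  have l : ∀ x, F.symm (f x) = x := F.symm_apply_apply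
  have r : ∀ x, f (F.symm x) = x := F.apply_symm_apply
  have := h3 (fun v => F.symm (d v)) (fun v hv => by rw [hd v hv, l])
    (by simpa only [PS.map, l] using k0.map F.symm.injective)
    (by simpa only [PS.map, l] using k1.map F.symm.injective)
    (by simpa only [PS.map, l] using k2.map F.symm.injective) v hv
  simpa only [r] using this.map hf

theorem Pole3.port (h : Pole3 G X P a u b w e t) (hc : Cub G X) (hcl : Closed G X)
    (ab : a ≠ b) (ae : a ≠ e) {c : V → Fin 4} (pr : ∀ z ∈ P, G.Adj a z → c a ≠ c z) :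
    ∃ x : Fin 4, c a ≠ x ∧ (OK G c a → acc (c a) x (c u)) ∧
      ∀ d : V → Fin 4, (∀ v ∈ P, d v = c v) → acc (c a) x (d u) → OK G d a := by
  obtain ⟨y, z, nb⟩ := hc.first (h.sub h.ma) h.au
  have k : ∀ z, G.Adj a z → u ≠ z → z ∈ P := fun z k n => by
    rcases h.nbr hcl h.ma k with r | r | r | r
    · exact r
    · exact absurd r.2.symm n
    · exact absurd r.1 ab
    · exact absurd r.1 ae
  have my := k y nb.adj2 nb.1
  have mz := k z nb.adj3 nb.2.1
  obtain ⟨x, x1, x2⟩ := c3port _ _ _ (pr y my nb.adj2) (pr z mz nb.adj3)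
  refine ⟨x, x1, fun o => (x2 _).1 (o _ _ _ nb), fun d hd k => OK.of_nb nb ?_⟩
  rw [hd a h.ma, hd y my, hd z mz]
  exact (x2 _).2 k

/-- a colouring that is fine on the pole except on an independent set of ports gives a state -/
theorem Pole3.state (h : Pole3 G X P a u b w e t) (hc : Cub G X) (hcl : Closed G X)
    (ab : a ≠ b) (ae : a ≠ e) (be : b ≠ e) (c : V → Fin 4) (D : V → Prop)
    (hD : ∀ v, D v → v = a ∨ v = b ∨ v = e) (ind : ∀ x y, D x → D y → ¬ G.Adj x y)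
    (ok : ∀ v ∈ P, ¬ D v → OK G c v) :
    ∃ x y z : Fin 4, HasSt G P a u b w e t ⟨c a, x, c b, y, c e, z⟩ ∧
      (¬ D a → acc (c a) x (c u)) ∧ (¬ D b → acc (c b) y (c w)) ∧ (¬ D e → acc (c e) z (c t)) := by
  have pr : ∀ p ∈ P, ∀ z ∈ P, G.Adj p z → c p ≠ c z := fun p hp z hz k => by
    by_cases dp : D p
    · exact ((ok z hz (fun dz => ind p z dp dz k)).ne hc (h.sub hz) k.symm).symm
    · exact (ok p hp dp).ne hc (h.sub hp) k
  obtain ⟨x, x1, x2, x3⟩ := h.port hc hcl ab ae (pr a h.ma)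
  obtain ⟨y, y1, y2, y3⟩ := h.sw1.port hc hcl ab.symm be (pr b h.mb)
  obtain ⟨z, z1, z2, z3⟩ := h.sw2.sw1.port hc hcl ae.symm be.symm (pr e h.me)
  refine ⟨x, y, z, ⟨⟨x1, y1, z1⟩, c, rfl, rfl, rfl, fun d hd k0 k1 k2 v hv => ?_⟩,
    fun n => x2 (ok a h.ma n), fun n => y2 (ok b h.mb n), fun n => z2 (ok e h.me n)⟩
  by_cases va : v = a
  · exact va ▸ x3 d hd k0
  by_cases vb : v = b
  · exact vb ▸ y3 d hd k1
  by_cases ve : v = e
  · exact ve ▸ z3 d hd k2
  refine (ok v hv (fun n => by have := hD v n; tauto)).congr (hd v hv) (fun z k => hd z ?_)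
  have := h.nbr hcl hv k
  tauto

variable [DecidableEq V]

theorem Pole3.compl (h : Pole3 G X P a u b w e t) (ab : a ≠ b) (ae : a ≠ e) (be : b ≠ e) :
    Pole3 G X (X \ P) u a w b t e := by
  refine ⟨Finset.sdiff_subset, Finset.mem_sdiff.2 ⟨h.mu, h.nu⟩, Finset.mem_sdiff.2 ⟨h.mw, h.nw⟩,
    Finset.mem_sdiff.2 ⟨h.mt, h.nt⟩, h.sub h.ma, h.sub h.mb, h.sub h.me, by simp [h.ma],
    by simp [h.mb], by simp [h.me], h.au.symm, h.bw.symm, h.et.symm, ab, ae, be,
    fun x hx y hy hy' k => ?_⟩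
  rw [Finset.mem_sdiff] at hx hy'
  have := h.only y (by tauto) x hx.1 hx.2 k.symm
  tauto

/-- the three states with one port at infinity -/
theorem Pole3.ha (h : Pole3 G X P a u b w e t) (hc : Cub G X) (hcl : Closed G X)
    (ab : a ≠ b) (ae : a ≠ e) (be : b ≠ e) (pa : Good G (P.erase a)) (pb : Good G (P.erase b))
    (pe : Good G (P.erase e)) : (∃ s, HasSt G P a u b w e t s ∧ s.Ha0) ∧
      (∃ s, HasSt G P a u b w e t s ∧ s.Ha1) ∧ ∃ s, HasSt G P a u b w e t s ∧ s.Ha2 := by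
  have key : ∀ p, (p = a ∨ p = b ∨ p = e) → Good G (P.erase p) →
      ∃ c : V → Fin 4, ∃ x y z : Fin 4, HasSt G P a u b w e t ⟨c a, x, c b, y, c e, z⟩ ∧
        (a ≠ p → acc (c a) x (c p)) ∧ (b ≠ p → acc (c b) y (c p)) ∧ (e ≠ p → acc (c e) z (c p)) := by
    rintro p hp ⟨c, c1, c2⟩
    obtain ⟨x, y, z, s, k0, k1, k2⟩ := h.state hc hcl ab ae be c (fun v => v = p)
      (fun v n => n ▸ hp) (fun x y n m k => k.ne (n.trans m.symm))
      (fun v hv n => c2 v (Finset.mem_erase.2 ⟨n, hv⟩))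
    have o : ∀ v, v ∉ P → c v = c p := fun v hv => by
      rw [c1 v (fun m => hv (Finset.mem_of_mem_erase m)) (by simp), c1 p (by simp) (by simp)]
    exact ⟨c, x, y, z, s, o u h.nu ▸ k0, o w h.nw ▸ k1, o t h.nt ▸ k2⟩
  refine ⟨?_, ?_, ?_⟩
  · obtain ⟨c, x, y, z, s, -, k1, k2⟩ := key a (by simp) pa
    exact ⟨_, s, k1 ab.symm, k2 ae.symm⟩
  · obtain ⟨c, x, y, z, s, k0, -, k2⟩ := key b (by simp) pb
    exact ⟨_, s, k0 ab, k2 be.symm⟩
  · obtain ⟨c, x, y, z, s, k0, k1, -⟩ := key e (by simp) pe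
    exact ⟨_, s, k0 ae, k1 be⟩

/-- the three states with two ports at infinity -/
theorem Pole3.hf (h : Pole3 G X P a u b w e t) (hc : Cub G X) (hcl : Closed G X)
    (ab : a ≠ b) (ae : a ≠ e) (be : b ≠ e) (nab : ¬ G.Adj a b) (nae : ¬ G.Adj a e)
    (nbe : ¬ G.Adj b e) (fab : GoodF G ((P.erase a).erase b) t)
    (fae : GoodF G ((P.erase a).erase e) w) (fbe : GoodF G ((P.erase b).erase e) u) :
    (∃ s, HasSt G P a u b w e t s ∧ s.c1 = s.c2) ∧ (∃ s, HasSt G P a u b w e t s ∧ s.c0 = s.c2) ∧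
      ∃ s, HasSt G P a u b w e t s ∧ s.c0 = s.c1 := by
  have key : ∀ p q o, (p = a ∨ p = b ∨ p = e) → (q = a ∨ q = b ∨ q = e) → ¬ G.Adj p q → o ∉ P →
      GoodF G ((P.erase p).erase q) o →
      ∃ c : V → Fin 4, ∃ x y z : Fin 4, HasSt G P a u b w e t ⟨c a, x, c b, y, c e, z⟩ ∧ c p = c q := by
    rintro p q o hp hq n ho ⟨c, c1, c2⟩
    obtain ⟨x, y, z, s, -⟩ := h.state hc hcl ab ae be c (fun v => v = p ∨ v = q)
      (fun v n => by rcases n with rfl | rfl <;> assumption)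
      (fun x y m m' k => by
        rcases m with rfl | rfl <;> rcases m' with rfl | rfl
        · exact k.ne rfl
        · exact n k
        · exact n k.symm
        · exact k.ne rfl)
      (fun v hv n => c2 v (by simp only [Finset.mem_erase]; tauto))
    have mp : p ∈ P := by rcases hp with rfl | rfl | rfl <;> [exact h.ma; exact h.mb; exact h.me]
    have mq : q ∈ P := by rcases hq with rfl | rfl | rfl <;> [exact h.ma; exact h.mb; exact h.me]
    refine ⟨c, x, y, z, s, ?_⟩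
    rw [c1 p (by simp) (fun m => ho (Set.mem_singleton_iff.1 m ▸ mp)),
      c1 q (by simp) (fun m => ho (Set.mem_singleton_iff.1 m ▸ mq))]
  refine ⟨?_, ?_, ?_⟩
  · obtain ⟨c, x, y, z, s, k⟩ := key b e u (by simp) (by simp) nbe h.nu fbe
    exact ⟨_, s, k⟩
  · obtain ⟨c, x, y, z, s, k⟩ := key a e w (by simp) (by simp) nae h.nw fae
    exact ⟨_, s, k⟩
  · obtain ⟨c, x, y, z, s, k⟩ := key a b t (by simp) (by simp) nab h.nt fab
    exact ⟨_, s, k⟩

/-- the state of the other side from the contraction of `P` -/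
theorem Pole3.vx (h : Pole3 G X P a u b w e t) (hc : Cub G X) (hcl : Closed G X)
    (ab : a ≠ b) (ae : a ≠ e) (be : b ≠ e) {r : V} (hr : r ∈ P)
    (gQ : Good (starG G P r u w t) (insert r (X \ P))) :
    ∃ s, HasSt G (X \ P) u a w b t e s ∧ s.Vx := by
  obtain ⟨d, -, d2⟩ := gQ
  have hs := h.star hr
  let c : V → Fin 4 := fun v => if v ∈ P then d r else d v
  have c1 : ∀ v, v ∉ P → c v = d v := fun v hv => if_neg hv
  have c2 : ∀ v ∈ P, c v = d r := fun v hv => if_pos hv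
  have okQ : ∀ v ∈ X \ P, OK G c v := by
    intro v hv
    have hv' := Finset.mem_sdiff.1 hv
    by_cases p : ∃ x ∈ P, G.Adj v x
    · obtain ⟨x, hx, vx⟩ := p
      obtain ⟨y, z, nb⟩ := hc.first hv'.1 vx
      obtain ⟨n1, n2, n3⟩ := hs.nb_port hv'.1 hv'.2 hx nb
      refine OK.of_nb nb ?_
      rw [c1 v hv'.2, c2 x hx, c1 y n1, c1 z n2]
      exact d2 v (Finset.mem_insert_of_mem hv) _ _ _ n3
    · intro x y z nb
      have k : ∀ x, G.Adj v x → x ∉ P := fun x e e' => p ⟨x, e', e⟩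
      rw [c1 v hv'.2, c1 x (k x nb.adj1), c1 y (k y nb.adj2), c1 z (k z nb.adj3)]
      exact d2 v (Finset.mem_insert_of_mem hv) _ _ _ ((hs.nb_other hv'.1 hv'.2 p).2 nb)
  obtain ⟨x, y, z, s, k0, k1, k2⟩ := (h.compl ab ae be).state hc hcl h.uw h.ut h.wt c
    (fun _ => False) (fun _ n => n.elim) (fun _ _ n => n.elim) (fun v hv _ => okQ v hv)
  refine ⟨_, s, d r, c2 a h.ma ▸ k0 id, c2 b h.mb ▸ k1 id, c2 e h.me ▸ k2 id, ?_⟩
  show ok4 (d r) (c u) (c w) (c t)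
  rw [c1 u h.nu, c1 w h.nw, c1 t h.nt]
  exact d2 r (Finset.mem_insert_self _ _) _ _ _ hs.nb_r

theorem Pole3.glue (h : Pole3 G X P a u b w e t) {s s' : PS} (h1 : HasSt G P a u b w e t s)
    (h2 : HasSt G (X \ P) u a w b t e s') (k : s.Comp s') : Good G X := by
  obtain ⟨-, c, a0, a1, a2, a3⟩ := h1
  obtain ⟨-, c', b0, b1, b2, b3⟩ := h2
  obtain ⟨k0, k1, k2, k3, k4, k5⟩ := k
  let d : V → Fin 4 := fun v => if v ∈ P then c v else if v ∈ X then c' v else 3
  have d1 : ∀ v ∈ P, d v = c v := fun v hv => if_pos hv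
  have d2 : ∀ v ∈ X, v ∉ P → d v = c' v := fun v hv hv' => by simp only [d, hv, hv', if_true, if_false]
  refine ⟨d, fun v hv _ => ?_, fun v hv => ?_⟩
  · have : v ∉ P := fun m => hv (h.sub m)
    simp only [d, hv, this, if_false]
  by_cases m : v ∈ P
  · refine a3 d d1 ?_ ?_ ?_ v m
    · rwa [d2 u h.mu h.nu, b0]
    · rwa [d2 w h.mw h.nw, b1]
    · rwa [d2 t h.mt h.nt, b2]
  · refine b3 d (fun v hv => d2 v (Finset.mem_sdiff.1 hv).1 (Finset.mem_sdiff.1 hv).2) ?_ ?_ ?_ v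
      (Finset.mem_sdiff.2 ⟨hv, m⟩)
    · rwa [d1 a h.ma, a0]
    · rwa [d1 b h.mb, a1]
    · rwa [d1 e h.me, a2]

theorem Pole3.glueR (h : Pole3 G X P a u b w e t) (hc : Cub G X) (hab : G.Adj a b) {x y : V}
    (h' : Pole3 G X ((P.erase a).erase b) x a y b e t) {s s' : PS}
    (h1 : HasSt G ((P.erase a).erase b) x a y b e t s)
    (h2 : HasSt G (X \ P) u a w b t e s') (k : s.CompR s') : Good G X := by
  obtain ⟨-, c, a0, a1, a2, a3⟩ := h1
  obtain ⟨-, c', b0, b1, b2, b3⟩ := h2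
  obtain ⟨k0, k1, p, k2, k3, q, k4, k5, k6, k7⟩ := k
  have mP : ∀ v, v ∈ (P.erase a).erase b ↔ v ≠ b ∧ v ≠ a ∧ v ∈ P := fun v => by
    simp only [Finset.mem_erase]
  let d : V → Fin 4 := fun v =>
    if v = a then p else if v = b then q else if v ∈ P then c v else if v ∈ X then c' v else 3
  have da : d a = p := if_pos rfl
  have db : d b = q := by simp only [d, hab.ne', if_true, if_false]
  have d1 : ∀ v ∈ (P.erase a).erase b, d v = c v := fun v hv => by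
    obtain ⟨m1, m2, m3⟩ := (mP v).1 hv
    simp only [d, m1, m2, m3, if_true, if_false]
  have d0 : ∀ v, v ∉ P → d v = if v ∈ X then c' v else 3 := fun v hv => by
    have m1 : v ≠ a := fun m => hv (m ▸ h.ma)
    have m2 : v ≠ b := fun m => hv (m ▸ h.mb)
    simp only [d, m1, m2, hv, if_false]
  have d2 : ∀ v ∈ X, v ∉ P → d v = c' v := fun v hv hv' => by rw [d0 v hv', if_pos hv]
  refine ⟨d, fun v hv _ => by rw [d0 v (fun m => hv (h.sub m)), if_neg hv], fun v hv => ?_⟩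
  by_cases va : v = a
  · subst va
    obtain ⟨x1, x2, x3, nb⟩ := hc v hv
    refine OK.of_nb (nb.of_adj hab h'.au.symm h.au ((mP x).1 h'.ma).1.symm
      (fun m => h.nu (m ▸ h.mb)) (fun m => h.nu (m ▸ ((mP x).1 h'.ma).2.2))) ?_
    rwa [da, db, d1 x h'.ma, a0, d2 u h.mu h.nu, b0]
  by_cases vb : v = b
  · subst vb
    obtain ⟨x1, x2, x3, nb⟩ := hc v hv
    refine OK.of_nb (nb.of_adj hab.symm h'.bw.symm h.bw ((mP y).1 h'.mb).2.1.symm
      (fun m => h.nw (m ▸ h.ma)) (fun m => h.nw (m ▸ ((mP y).1 h'.mb).2.2))) ?_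
    rwa [da, db, d1 y h'.mb, a1, d2 w h.mw h.nw, b1]
  by_cases m : v ∈ P
  · refine a3 d d1 ?_ ?_ ?_ v ((mP v).2 ⟨vb, va, m⟩)
    · rwa [da]
    · rwa [db]
    · rwa [d2 t h.mt h.nt, b2]
  · refine b3 d (fun v hv => d2 v (Finset.mem_sdiff.1 hv).1 (Finset.mem_sdiff.1 hv).2) ?_ ?_ ?_ v
      (Finset.mem_sdiff.2 ⟨hv, m⟩)
    · rwa [da]
    · rwa [db]
    · rwa [d1 e h'.me, a2]

/-- case A of the three-edge cut: the ports are independent on both sides -/
theorem Pole3.glueA (h : Pole3 G X P a u b w e t) (hc : Cub G X) (hcl : Closed G X)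
    (ab : a ≠ b) (ae : a ≠ e) (be : b ≠ e) (nab : ¬ G.Adj a b) (nae : ¬ G.Adj a e)
    (nbe : ¬ G.Adj b e) (nuw : ¬ G.Adj u w) (nut : ¬ G.Adj u t) (nwt : ¬ G.Adj w t)
    (pa : Good G (P.erase a)) (pb : Good G (P.erase b)) (pe : Good G (P.erase e))
    (fab : GoodF G ((P.erase a).erase b) t) (fae : GoodF G ((P.erase a).erase e) w)
    (fbe : GoodF G ((P.erase b).erase e) u)
    (qu : Good G ((X \ P).erase u)) (qw : Good G ((X \ P).erase w)) (qt : Good G ((X \ P).erase t))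
    (fuw : GoodF G (((X \ P).erase u).erase w) e) (fut : GoodF G (((X \ P).erase u).erase t) b)
    (fwt : GoodF G (((X \ P).erase w).erase t) a) {r : V} (hr : r ∈ P)
    (gQ : Good (starG G P r u w t) (insert r (X \ P))) : Good G X := by
  have q := h.compl ab ae be
  obtain ⟨a0, a1, a2⟩ := h.ha hc hcl ab ae be pa pb pe
  obtain ⟨a3, a4, a5⟩ := h.hf hc hcl ab ae be nab nae nbe fab fae fbe
  obtain ⟨b0, b1, b2⟩ := q.ha hc hcl h.uw h.ut h.wt qu qw qt
  obtain ⟨b3, b4, b5⟩ := q.hf hc hcl h.uw h.ut h.wt nuw nut nwt fuw fut fwt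
  obtain ⟨s, s', h1, h2, k⟩ := c3finA (HasSt.pset G P a u b w e t)
    (HasSt.pset G (X \ P) u a w b t e) a0 a1 a2 a3 a4 a5 b0 b1 b2 b3 b4
    b5 (h.vx hc hcl ab ae be hr gQ)
  exact h.glue h1 h2 k

/-- case B of the three-edge cut: the ports `a b` are adjacent -/
theorem Pole3.glueB (h : Pole3 G X P a u b w e t) (hc : Cub G X) (hcl : Closed G X)
    (hab : G.Adj a b) {x y : V} (h' : Pole3 G X ((P.erase a).erase b) x a y b e t)
    (xy : x ≠ y) (xe : x ≠ e) (ye : y ≠ e)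
    (px : Good G (((P.erase a).erase b).erase x)) (py : Good G (((P.erase a).erase b).erase y))
    (pe : Good G (((P.erase a).erase b).erase e))
    (qu : Good G ((X \ P).erase u)) (qw : Good G ((X \ P).erase w)) (qt : Good G ((X \ P).erase t)) :
    Good G X := by
  have me := h'.me
  simp only [Finset.mem_erase] at me
  have q := h.compl hab.ne me.2.1.symm me.1.symm
  obtain ⟨a0, a1, a2⟩ := h'.ha hc hcl xy xe ye px py pe
  obtain ⟨b0, b1, b2⟩ := q.ha hc hcl h.uw h.ut h.wt qu qw qt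
  obtain ⟨s, s', h1, h2, k⟩ := c3finB (HasSt.pset G _ x a y b e t)
    (HasSt.pset G (X \ P) u a w b t e) a0 a1 a2 b0 b1 b2
  exact h.glueR hc hab h' h1 h2 k

end Pool.Agent.Hom2
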