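import Pool.Agent.Lib.MP_7e4769_co.Hc.TDefs

set_option autoImplicit false

namespace Pool.Agent.Hom2

variable {V : Type} {G : SimpleGraph V} {X : Finset V} {n : ℕ} {s : ℕ → ℕ → ℕ} {ph : ℕ → V}

theorem Emb.se {nu : ℕ → ℕ → V} (E : Emb G X n s ph nu) : SE G X n s ph :=
  ⟨E.mem, E.inj, fun i hi k hk e => ⟨_, E.stub i hi k hk e, E.adj hi hk⟩,
    fun i hi k hk y e => E.adj_of_code hi hk e⟩

theorem full_iff (s : ℕ → ℕ → ℕ) (i : ℕ) : full s i = true ↔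
    (∀ k < 3, s i k ≠ 0) ∧ s i 0 ≠ s i 1 ∧ s i 0 ≠ s i 2 ∧ s i 1 ≠ s i 2 := by
  simp only [full, fzb_eq, Bool.and_eq_true, ne_iff]
  constructor
  · rintro ⟨⟨⟨⟨⟨a, b⟩, c⟩, d⟩, e⟩, f⟩
    exact ⟨fun k hk => by interval_cases k <;> assumption, d, e, f⟩
  · rintro ⟨a, d, e, f⟩
    exact ⟨⟨⟨⟨⟨a 0 (by omega), a 1 (by omega)⟩, a 2 (by omega)⟩, d⟩, e⟩, f⟩

theorem vOK_iff (s : ℕ → ℕ → ℕ) (C f i : ℕ) : vOK s C f i = true ↔ full s i = true ∧
    ok4 (colv C i) (ccol C f (s i 0)) (ccol C f (s i 1)) (ccol C f (s i 2)) := by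
  simp only [vOK, full, fzb_eq, Bool.and_eq_true, okb_iff]

/-- the neighbour behind a code -/
noncomputable def SE.nu (_ : SE G X n s ph) (i k : ℕ) : V := by
  classical
  exact if s i k = 1 then (if e : ∃ y, y ∉ X ∧ G.Adj (ph i) y then e.choose else ph i)
    else ph (s i k - 2)

theorem SE.nu_stub (E : SE G X n s ph) {i k : ℕ} (hi : i < n) (hk : k < 3) (e : s i k = 1) :
    E.nu i k ∉ X ∧ G.Adj (ph i) (E.nu i k) := by
  have h := E.stub i hi k hk e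
  simp only [SE.nu, e, if_true, dif_pos h]
  exact h.choose_spec

theorem SE.nu_edge (E : SE G X n s ph) {i k y : ℕ} (e : s i k = y + 2) : E.nu i k = ph y := by
  simp [SE.nu, e]

theorem SE.nu_spec (E : SE G X n s ph) {i k : ℕ} (hi : i < n) (hk : k < 3) (e : s i k ≠ 0) :
    G.Adj (ph i) (E.nu i k) ∧ ((s i k = 1 ∧ E.nu i k ∉ X) ∨
      ∃ y < n, s i k = y + 2 ∧ E.nu i k = ph y) := by
  by_cases c : s i k = 1
  · exact ⟨(E.nu_stub hi hk c).2, Or.inl ⟨c, (E.nu_stub hi hk c).1⟩⟩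
  · have e' : s i k = s i k - 2 + 2 := by omega
    obtain ⟨r1, r2⟩ := E.edge i hi k hk _ e'
    exact ⟨E.nu_edge e' ▸ r2, Or.inr ⟨_, r1, e', E.nu_edge e'⟩⟩

theorem SE.nb (E : SE G X n s ph) (hc : Cub G X) {i : ℕ} (hi : i < n) (f : full s i = true) :
    Nb G (ph i) (E.nu i 0) (E.nu i 1) (E.nu i 2) := by
  obtain ⟨f0, f1, f2, f3⟩ := (full_iff s i).1 f
  have d : ∀ k < 3, ∀ k' < 3, s i k ≠ s i k' → E.nu i k ≠ E.nu i k' := by
    intro k hk k' hk' ne e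
    rcases (E.nu_spec hi hk (f0 k hk)).2 with ⟨a, b⟩ | ⟨y, hy, a, b⟩ <;>
      rcases (E.nu_spec hi hk' (f0 k' hk')).2 with ⟨a', b'⟩ | ⟨y', hy', a', b'⟩
    · exact ne (a.trans a'.symm)
    · exact b (e ▸ b' ▸ E.mem _ hy')
    · exact b' (e ▸ b ▸ E.mem _ hy)
    · exact ne (by rw [a, a', E.inj _ hy _ hy' (b.symm.trans (e.trans b'))])
  obtain ⟨x, y, z, h⟩ := hc _ (E.mem i hi)
  exact h.of_adj (E.nu_spec hi (by omega) (f0 0 (by omega))).1
    (E.nu_spec hi (by omega) (f0 1 (by omega))).1 (E.nu_spec hi (by omega) (f0 2 (by omega))).1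
    (d 0 (by omega) 1 (by omega) f1) (d 0 (by omega) 2 (by omega) f2) (d 1 (by omega) 2 (by omega) f3)

/-- every neighbour of a full vertex is behind one of its codes -/
theorem SE.cases (E : SE G X n s ph) (hc : Cub G X) {i : ℕ} (hi : i < n) (f : full s i = true)
    {v : V} (a : G.Adj (ph i) v) : ∃ k < 3, (s i k = 1 ∧ v ∉ X) ∨ ∃ y < n, s i k = y + 2 ∧ v = ph y := by
  have f0 := ((full_iff s i).1 f).1
  rcases (E.nb hc hi f).cases a with r | r | r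
  · exact ⟨0, by omega, r ▸ (E.nu_spec hi (by omega) (f0 0 (by omega))).2⟩
  · exact ⟨1, by omega, r ▸ (E.nu_spec hi (by omega) (f0 1 (by omega))).2⟩
  · exact ⟨2, by omega, r ▸ (E.nu_spec hi (by omega) (f0 2 (by omega))).2⟩

theorem SE.emb (E : SE G X n s ph) (hc : Cub G X) (f : ∀ i < n, full s i = true) :
    Emb G X n s ph E.nu :=
  ⟨E.mem, E.inj, fun i hi => E.nb hc hi (f i hi), fun _ hi _ hk e => (E.nu_stub hi hk e).1,
    fun i hi k hk y e => ⟨(E.edge i hi k hk y e).1, E.nu_edge e⟩⟩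

theorem SE.onto (E : SE G X n s ph) (hc : Cub G X) (hcon : Conn G X) (h0 : 0 < n)
    (f : ∀ i < n, full s i = true) : ∀ v ∈ X, ∃ i < n, ph i = v := by
  classical
  have hm : ∀ v, v ∈ (Finset.range n).image ph ↔ ∃ i < n, ph i = v := fun v => by simp
  have sub : (Finset.range n).image ph ⊆ X := fun v hv => by
    obtain ⟨i, hi, rfl⟩ := (hm v).1 hv
    exact E.mem i hi
  by_cases e : (Finset.range n).image ph = X
  · exact fun v hv => (hm v).1 (e ▸ hv)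
  · obtain ⟨x, hx, y, hy, hy', hxy⟩ := hcon _ sub ⟨_, (hm _).2 ⟨0, h0, rfl⟩⟩ e
    obtain ⟨i, hi, rfl⟩ := (hm x).1 hx
    obtain ⟨k, -, r | ⟨j, hj, -, r⟩⟩ := E.cases hc hi (f i hi) hxy
    · exact absurd hy r.2
    · exact absurd ((hm _).2 ⟨j, hj, r.symm⟩) hy'

/-- the colouring read from the word `C`, with the default `d` off the pattern -/
noncomputable def SE.mkC (_ : SE G X n s ph) (C : ℕ) (d : V → Fin 4) (v : V) : Fin 4 := by
  classical
  exact if e : ∃ i < n, ph i = v then ⟨colv C e.choose, Nat.mod_lt _ (by omega)⟩ else d v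

theorem SE.mkC_img (E : SE G X n s ph) (C : ℕ) (d : V → Fin 4) {i : ℕ} (hi : i < n) :
    (E.mkC C d (ph i)).val = colv C i := by
  have e : ∃ j < n, ph j = ph i := ⟨i, hi, rfl⟩
  simp only [SE.mkC, dif_pos e, E.inj _ e.choose_spec.1 _ hi e.choose_spec.2]

theorem SE.mkC_out (E : SE G X n s ph) (C : ℕ) (d : V → Fin 4) {v : V} (hv : v ∉ X) :
    E.mkC C d v = d v := by
  have e : ¬ ∃ j < n, ph j = v := fun ⟨j, hj, r⟩ => hv (r ▸ E.mem j hj)
  simp only [SE.mkC, dif_neg e]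

theorem SE.ok (E : SE G X n s ph) (hc : Cub G X) {C f i : ℕ} {d : V → Fin 4} (hi : i < n)
    (h : vOK s C f i = true) (hd : ∀ y, y ∉ X → G.Adj (ph i) y → (d y).val = f) :
    OK G (E.mkC C d) (ph i) := by
  obtain ⟨h1, h2⟩ := (vOK_iff s C f i).1 h
  have f0 := ((full_iff s i).1 h1).1
  have k : ∀ k < 3, (E.mkC C d (E.nu i k)).val = ccol C f (s i k) := by
    intro k hk
    obtain ⟨a, ⟨r1, r2⟩ | ⟨y, hy, r1, r2⟩⟩ := E.nu_spec hi hk (f0 k hk)
    · rw [E.mkC_out C d r2, hd _ r2 a, r1]; rfl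
    · rw [r2, E.mkC_img C d hy, r1]; rfl
  refine OK.of_nb (E.nb hc hi h1) (ok4_val ?_)
  rw [E.mkC_img C d hi, k 0 (by omega), k 1 (by omega), k 2 (by omega)]
  exact h2

theorem SE.good (E : SE G X n s ph) (hc : Cub G X) (hcon : Conn G X) {C : ℕ}
    (h : colF n s C = true) : Good G X := by
  simp only [colF, Bool.and_eq_true, lt_iff, allLt_iff] at h
  refine ⟨E.mkC C (fun _ => 3), fun v hv _ => E.mkC_out C _ hv, fun v hv => ?_⟩
  obtain ⟨i, hi, rfl⟩ := E.onto hc hcon h.1 (fun i hi => ((vOK_iff _ _ _ _).1 (h.2 i hi)).1) v hv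
  exact E.ok hc hi (h.2 i hi) (fun _ _ _ => rfl)

theorem hasC_iff (s : ℕ → ℕ → ℕ) (j c : ℕ) : hasC s j c = true ↔ ∃ k < 3, s j k = c := by
  simp only [hasC, Bool.or_eq_true, Nat.beq_eq]
  constructor
  · rintro ((a | a) | a)
    · exact ⟨0, by omega, a⟩
    · exact ⟨1, by omega, a⟩
    · exact ⟨2, by omega, a⟩
  · rintro ⟨k, hk, a⟩
    interval_cases k <;> tauto

theorem SE.sub (E : SE G X n s ph) {n0 R0 M : ℕ} (h : subF n0 R0 M n s = true) :
    SE G X n0 (sl R0) (fun i => ph (cv M i)) := by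
  simp only [subF, Bool.and_eq_true, ne_iff, allLt_iff, fzb_eq, lt_iff, all3_iff] at h
  obtain ⟨h1, h2⟩ := h
  refine ⟨fun i hi => E.mem _ (h2 i hi).1, fun i hi j hj e =>
    (injM_spec h1).1 i hi j hj (E.inj _ (h2 i hi).1 _ (h2 j hj).1 e), fun i hi k hk e => ?_,
    fun i hi k hk y e => ?_⟩
  · have := (h2 i hi).2 k hk
    rw [e] at this
    obtain ⟨k', hk', r⟩ := (hasC_iff _ _ _).1 this
    exact E.stub _ (h2 i hi).1 k' hk' r
  · have := (h2 i hi).2 k hk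
    rw [e] at this
    have t : (lt y n0 && hasC s (cv M i) (cv M y + 2)) = true := this
    rw [Bool.and_eq_true, lt_iff] at t
    obtain ⟨k', hk', r⟩ := (hasC_iff _ _ _).1 t.2
    exact ⟨t.1, (E.edge _ (h2 i hi).1 k' hk' _ r).2⟩

theorem SE.leaf (E : SE G X n s ph) (hc : Cub G X) (hcon : Conn G X) {B : ℕ}
    (h : leafT n s B ≠ 0) : TG G X := by
  unfold leafT at h
  cases t : Nat.beq (Nat.mod B 2) 0
  · rw [t, cond_false, fz_eq, fz_eq] at h
    obtain ⟨h1, -⟩ := cond_ne h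
    rw [Bool.and_eq_true, lt_iff] at h1
    exact Or.inr ⟨_, h1.1, _, E.sub h1.2⟩
  · rw [t, cond_true] at h
    exact Or.inl (E.good hc hcon (cond_ne h).1)

end Pool.Agent.Hom2
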