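import Pool.Agent.Lib.MP_7e4769_co.Hc.UDef
import Pool.Agent.Lib.MP_7e4769_co.Hc.TCol
import Pool.Agent.Lib.MP_7e4769_co.Hc.C3Glue

set_option autoImplicit false

namespace Pool.Agent.Hom2.UC

open Classical

variable {V : Type} {G : SimpleGraph V} {X A P : Finset V} {a u b w e t : V}

/-- the edges from `A` to the rest of `X` -/
noncomputable def c3cut (G : SimpleGraph V) (X A : Finset V) : Finset (V × V) :=
  (A ×ˢ X).filter (fun z => z.2 ∉ A ∧ G.Adj z.1 z.2)

theorem c3cut_mem {x y : V} : (x, y) ∈ c3cut G X A ↔ x ∈ A ∧ y ∈ X ∧ y ∉ A ∧ G.Adj x y := by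
  simp only [c3cut, Finset.mem_filter, Finset.mem_product, and_assoc]

theorem c3cut_card : (c3cut G X A).card = Sc.ecut G X A := by
  simp only [c3cut, Sc.ecut, Sc.out, Finset.card_filter, Finset.sum_product]

theorem c3cut_three (cx : Cx G X 2) (hA : A ⊆ X) (hne : A.Nonempty) (hne' : A ≠ X) :
    3 ≤ (c3cut G X A).card := by
  have cl := cx.cl le_rfl
  by_cases h1 : 2 ≤ A.card
  · by_cases h2 : A.card + 2 ≤ X.card
    · exact c3cut_card (G := G) ▸ cx.e3 (by omega) A hA h1 h2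
    obtain ⟨v, hv⟩ : (X \ A).Nonempty := by
      rw [Finset.sdiff_nonempty]; exact fun s => hne' (Finset.Subset.antisymm hA s)
    have c1 : (X \ A).card ≤ 1 := by rw [Finset.card_sdiff_of_subset hA]; omega
    have hv' := Finset.mem_sdiff.1 hv
    obtain ⟨x, y, z, nb⟩ := cx.cub v hv'.1
    have k : ∀ p, G.Adj v p → (p, v) ∈ c3cut G X A := fun p hp => c3cut_mem.2 ⟨by
      by_contra n
      exact hp.ne (Finset.card_le_one.1 c1 v hv p (Finset.mem_sdiff.2 ⟨cl v hv'.1 p hp, n⟩)),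
      hv'.1, hv'.2, hp.symm⟩
    exact Finset.two_lt_card_iff.2 ⟨_, _, _, k x nb.adj1, k y nb.adj2, k z nb.adj3,
      by simp [nb.1], by simp [nb.2.1], by simp [nb.2.2.1]⟩
  · obtain ⟨v, hv⟩ := hne
    obtain ⟨x, y, z, nb⟩ := cx.cub v (hA hv)
    have k : ∀ p, G.Adj v p → (v, p) ∈ c3cut G X A := fun p hp => c3cut_mem.2 ⟨hv,
      cl v (hA hv) p hp, fun n => hp.ne (Finset.card_le_one.1 (by omega) v hv p n), hp⟩
    exact Finset.two_lt_card_iff.2 ⟨_, _, _, k x nb.adj1, k y nb.adj2, k z nb.adj3,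
      by simp [nb.1], by simp [nb.2.1], by simp [nb.2.2.1]⟩

theorem c3three (cx : Cx G X 2) (hA : A ⊆ X) (hne : A.Nonempty) (hne' : A ≠ X) (S : Finset (V × V))
    (hS : ∀ x ∈ A, ∀ y ∈ X, y ∉ A → G.Adj x y → (x, y) ∈ S) : 3 ≤ S.card :=
  (c3cut_three cx hA hne hne').trans (Finset.card_le_card fun ⟨x, y⟩ h => by
    obtain ⟨h1, h2, h3, h4⟩ := c3cut_mem.1 h
    exact hS x h1 y h2 h3 h4)

/-- two of the three edges that leave `A` do not start at the same vertex -/
theorem c3ne (cx : Cx G X 2) (hA : A ⊆ X) (h2 : 2 ≤ A.card) (ma : a ∈ A) (nu : u ∉ A) (nw : w ∉ A)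
    (au : G.Adj a u) (bw : G.Adj b w) (d : (a, u) ≠ (b, w))
    (only : ∀ x ∈ A, ∀ y ∈ X, y ∉ A → G.Adj x y →
      (x = a ∧ y = u) ∨ (x = b ∧ y = w) ∨ (x = e ∧ y = t)) : a ≠ b := by
  rintro rfl
  obtain ⟨z, nb⟩ := cx.cub.second (hA ma) au bw (fun r => d (by rw [r]))
  have := c3three cx ((Finset.erase_subset a A).trans hA)
    (Finset.card_pos.1 (by rw [Finset.card_erase_of_mem ma]; omega))
    (fun r => by have : a ∈ A.erase a := r.symm ▸ hA ma
                 simp at this) {(z, a), (e, t)} (fun x hx y hy hy' k => by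
      rw [Finset.mem_erase] at hx hy'
      by_cases ya : y = a
      · subst ya
        rcases nb.cases k.symm with rfl | rfl | rfl
        · exact absurd hx.2 nu
        · exact absurd hx.2 nw
        · simp
      · have := only x hx.2 y hy (by tauto) k
        simp only [Finset.mem_insert, Finset.mem_singleton, Prod.mk.injEq]
        tauto)
  have := Finset.card_le_two (a := (z, a)) (b := (e, t))
  omega

theorem c3ne3 (cx : Cx G X 2) (h : Pole3 G X P a u b w e t) (h2 : 2 ≤ P.card) :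
    a ≠ b ∧ a ≠ e ∧ b ≠ e := by
  have k : ∀ {a u b w e t : V}, Pole3 G X P a u b w e t → a ≠ b := fun h =>
    c3ne cx h.sub h2 h.ma h.nu h.nw h.au h.bw (by simp [h.uw]) h.only
  exact ⟨k h, k h.sw2, k h.sw1.sw2⟩

theorem c3pole (cx : Cx G X 2) (hA : A ⊆ X) (h1 : 2 ≤ A.card) (h2 : 2 ≤ (X \ A).card)
    (h3 : Sc.ecut G X A ≤ 3) : ∃ a u b w e t, Pole3 G X A a u b w e t := by
  have h4 : (c3cut G X A).card = 3 := le_antisymm (c3cut_card (G := G) ▸ h3)
    (c3cut_three cx hA (Finset.card_pos.1 (by omega)) (fun r => by simp [r] at h2))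
  obtain ⟨⟨a, u⟩, ⟨b, w⟩, ⟨e, t⟩, d1, d2, d3, hs⟩ := Finset.card_eq_three.1 h4
  obtain ⟨a1, a2, a3, a4⟩ := (c3cut_mem (G := G) (X := X) (A := A) (x := a) (y := u)).1 (by simp [hs])
  obtain ⟨b1, b2, b3, b4⟩ := (c3cut_mem (G := G) (X := X) (A := A) (x := b) (y := w)).1 (by simp [hs])
  obtain ⟨e1, e2, e3, e4⟩ := (c3cut_mem (G := G) (X := X) (A := A) (x := e) (y := t)).1 (by simp [hs])
  have only : ∀ x ∈ A, ∀ y ∈ X, y ∉ A → G.Adj x y →
      (x = a ∧ y = u) ∨ (x = b ∧ y = w) ∨ (x = e ∧ y = t) := fun x hx y hy hy' k => by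
    have := c3cut_mem.2 ⟨hx, hy, hy', k⟩
    simpa only [hs, Finset.mem_insert, Finset.mem_singleton, Prod.mk.injEq] using this
  have only' : ∀ x ∈ X \ A, ∀ y ∈ X, y ∉ X \ A → G.Adj x y →
      (x = u ∧ y = a) ∨ (x = w ∧ y = b) ∨ (x = t ∧ y = e) := fun x hx y hy hy' k => by
    rw [Finset.mem_sdiff] at hx hy'
    have := only y (by tauto) x hx.1 hx.2 k.symm
    tauto
  have fl : ∀ {p q p' q' : V}, (p, q) ≠ (p', q') → (q, p) ≠ (q', p') := fun d k =>
    d (Prod.ext (congrArg Prod.snd k) (congrArg Prod.fst k))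
  refine ⟨a, u, b, w, e, t, hA, a1, b1, e1, a2, b2, e2, a3, b3, e3, a4, b4, e4, ?_, ?_, ?_, only⟩
  · exact c3ne cx Finset.sdiff_subset h2 (by simp [a2, a3]) (by simp [a1]) (by simp [b1]) a4.symm
      b4.symm (fl d1) only'
  · exact c3ne (e := w) (t := b) cx Finset.sdiff_subset h2 (by simp [a2, a3]) (by simp [a1])
      (by simp [e1]) a4.symm e4.symm (fl d2)
      (fun x hx y hy hy' k => (only' x hx y hy hy' k).imp_right Or.symm)
  · exact c3ne (e := u) (t := a) cx Finset.sdiff_subset h2 (by simp [b2, b3]) (by simp [b1])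
      (by simp [e1]) b4.symm e4.symm (fl d3)
      (fun x hx y hy hy' k => or_rotate.1 (only' x hx y hy hy' k))

/-- the pole without two ports is good with the third outer vertex free -/
theorem c3hf (cx : Cx G X 2) (h : Pole3 G X P a u b w e t) (ae : a ≠ e) (be : b ≠ e) :
    GoodF G ((P.erase a).erase b) t := by
  have mO : ∀ v, v ∈ (P.erase a).erase b ↔ v ≠ b ∧ v ≠ a ∧ v ∈ P := fun v => by
    simp only [Finset.mem_erase]
  generalize (P.erase a).erase b = O at mO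
  have sub : O ⊆ X := fun v hv => h.sub ((mO v).1 hv).2.2
  have nX : ∀ D ⊆ O, D ≠ X := fun D hD r => h.nu ((mO u).1 (hD (r ▸ h.mu))).2.2
  refine lemA (cx.cub.mono sub) (cx.hf O sub (nX O subset_rfl)) O subset_rfl ?_ t e
    ⟨fun m => h.nt ((mO t).1 m).2.2, (mO e).2 ⟨be.symm, ae.symm, h.me⟩, h.et, fun q hq k => by
      have := h.only q ((mO q).1 hq).2.2 t h.mt h.nt k
      have := (mO q).1 hq
      tauto⟩
  intro D hD hne hne'
  by_contra hn
  obtain ⟨x1, x2, na⟩ := cx.cub.first (h.sub h.ma) h.au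
  obtain ⟨y1, y2, nb⟩ := cx.cub.first (h.sub h.mb) h.bw
  let S : Finset (V × V) := {(x1, a), (x2, a), (y1, b), (y2, b), (e, t)}
  have hS : ∀ x ∈ O, ∀ y ∈ X, y ∉ O → G.Adj x y → (x, y) ∈ S := fun x hx y hy hy' k => by
    rw [mO] at hx hy'
    by_cases ya : y = a
    · subst ya
      rcases na.cases k.symm with rfl | rfl | rfl
      · exact absurd hx.2.2 h.nu
      · simp [S]
      · simp [S]
    by_cases yb : y = b
    · subst yb
      rcases nb.cases k.symm with rfl | rfl | rfl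
      · exact absurd hx.2.2 h.nw
      · simp [S]
      · simp [S]
    have := h.only x hx.2.2 y hy (by tauto) k
    simp only [S, Finset.mem_insert, Finset.mem_singleton, Prod.mk.injEq]
    tauto
  have k1 := c3three cx (hD.trans sub) hne (nX D hD) (S.filter fun z => z.1 ∈ D)
    (fun x hx y hy hy' k => Finset.mem_filter.2
      ⟨hS x (hD hx) y hy (fun m => hn ⟨x, hx, y, m, hy', k⟩) k, hx⟩)
  have k2 := c3three cx (A := O \ D) (Finset.sdiff_subset.trans sub)
    (by rw [Finset.sdiff_nonempty]; exact fun s => hne' (Finset.Subset.antisymm hD s))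
    (nX _ Finset.sdiff_subset) (S.filter fun z => ¬ z.1 ∈ D)
    (fun x hx y hy hy' k => by
      rw [Finset.mem_sdiff] at hx hy'
      exact Finset.mem_filter.2 ⟨hS x hx.1 y hy
        (fun m => hn ⟨y, by tauto, x, hx.1, hx.2, k.symm⟩) k, hx.2⟩)
  have k3 := Finset.card_filter_add_card_filter_not (s := S) (fun z => z.1 ∈ D)
  have k4 : S.card ≤ 5 := Finset.card_le_five
  omega

theorem c3mem : ∀ m < 70, (m < 7 ∧ 0 < mN m ∧ (∀ i < mN m, full (sl (mR m)) i = true) ∧
    (m = 0 → mN m = 4)) ∨ ∃ i < mN m, ∃ k < 3, sl (mR m) i k = 1 := by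
  decide +kernel

/-- the contraction of `P` is good, or one of the cubic exceptions without a vertex embeds -/
theorem c3star (cx : Cx G X 2)
    (hE : ∀ m, 1 ≤ m → m < 7 → ∀ r < mN m, ∀ ph, SE G X (mN m - 1) (sDel (sl (mR m)) r) ph → TG G X)
    (h : Pole3 G X P a u b w e t) (ab : a ≠ b) (h4 : 4 ≤ (X \ P).card) :
    Good (starG G P a u w t) (insert a (X \ P)) ∨ TG G X := by
  have hs := h.star h.ma
  have mu : u ∈ X \ P := Finset.mem_sdiff.2 ⟨h.mu, h.nu⟩
  have cub := hs.cub cx.cub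
  have two := hs.twoEC cx.two mu
  have cl := hs.closed (cx.cl le_rfl) mu (Finset.mem_sdiff.2 ⟨h.mw, h.nw⟩)
    (Finset.mem_sdiff.2 ⟨h.mt, h.nt⟩)
  rcases cx.below _ _ (hs.card_lt h.mb ab.symm) cub two with g | ⟨m, hm, ph, E⟩
  · exact Or.inl g
  have ns : ∀ i < mN m, ∀ k < 3, sl (mR m) i k ≠ 1 := fun i hi k hk r => by
    obtain ⟨y, hy, r⟩ := E.stub i hi k hk r
    exact hy (cl _ (E.mem i hi) y r)
  rcases c3mem m hm with ⟨m7, n0, fu, m0⟩ | ⟨i, hi, k, hk, r⟩
  swap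
  · exact absurd r (ns i hi k hk)
  have on := E.onto cub two.conn n0 fu
  have m1 : 1 ≤ m := by
    by_contra n
    have s : insert a (X \ P) ⊆ (Finset.range (mN m)).image ph := fun v hv => by
      simpa using on v hv
    have := (Finset.card_le_card s).trans Finset.card_image_le
    rw [Finset.card_insert_of_notMem (by simp [h.ma]), Finset.card_range, m0 (by omega)] at this
    omega
  obtain ⟨r, hr, er⟩ := on a (Finset.mem_insert_self _ _)
  have na : ∀ i < mN m, i ≠ r → ph i ≠ a := fun i hi n k => n (E.inj i hi r hr (k.trans er.symm))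
  have mQ : ∀ i < mN m, i ≠ r → ph i ∈ X ∧ ph i ∉ P := fun i hi n =>
    Finset.mem_sdiff.1 ((Finset.mem_insert.1 (E.mem i hi)).resolve_left (na i hi n))
  let sk : ℕ → ℕ := fun i => if i < r then i else i + 1
  have s1 : ∀ i < mN m - 1, sk i < mN m ∧ sk i ≠ r := fun i hi => by
    simp only [sk]; split_ifs <;> omega
  have sd : ∀ i k, sDel (sl (mR m)) r i k = if sl (mR m) (sk i) k < r + 2 then sl (mR m) (sk i) k
      else if sl (mR m) (sk i) k = r + 2 then 0 else sl (mR m) (sk i) k - 1 := fun i k => by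
    have : (bif lt i r then i else Nat.succ i) = sk i := by
      simp only [sk, Bool.cond_eq_ite, lt_iff]
    simp only [sDel, fz_eq, this, Bool.cond_eq_ite, lt_iff, Nat.beq_eq, Nat.add_eq, Nat.sub_eq]
  refine Or.inr (hE m m1 m7 r hr (fun i => ph (sk i)) ⟨fun i hi => (mQ _ (s1 i hi).1 (s1 i hi).2).1,
    fun i hi j hj k => ?_, fun i hi k hk c => ?_, fun i hi k hk y c => ?_⟩)
  · have := E.inj _ (s1 i hi).1 _ (s1 j hj).1 k
    simp only [sk] at this
    split_ifs at this <;> omega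
  · have := ns _ (s1 i hi).1 k hk
    rw [sd] at c
    split_ifs at c <;> omega
  · have c' : sl (mR m) (sk i) k = sk y + 2 := by
      rw [sd] at c
      simp only [sk] at c ⊢
      split_ifs at c ⊢ <;> omega
    obtain ⟨k1, k2⟩ := E.edge _ (s1 i hi).1 k hk _ c'
    have yr : sk y ≠ r := by simp only [sk]; split_ifs <;> omega
    refine ⟨by simp only [sk] at k1; split_ifs at k1 <;> omega, ?_⟩
    obtain ⟨q1, q2⟩ := mQ _ (s1 i hi).1 (s1 i hi).2
    rcases (hs.adj q1 q2 _).1 k2 with k3 | k3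
    · exact k3.1
    · exact absurd k3.1 (na _ k1 yr)

/-- every three-edge pole stays good without a port -/
def c3NR (G : SimpleGraph V) (X : Finset V) : Prop :=
  ∀ P a u b w e t, Pole3 G X P a u b w e t → a ≠ b → a ≠ e → b ≠ e → 2 ≤ (X \ P).card →
    Good G (P.erase a)

theorem c3NR.all (nr : c3NR G X) (cx : Cx G X 2) (h : Pole3 G X P a u b w e t) (h1 : 2 ≤ P.card)
    (h2 : 2 ≤ (X \ P).card) : Good G (P.erase a) ∧ Good G (P.erase b) ∧ Good G (P.erase e) := by
  obtain ⟨ab, ae, be⟩ := c3ne3 cx h h1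
  exact ⟨nr _ _ _ _ _ _ _ h ab ae be h2, nr _ _ _ _ _ _ _ h.sw1 ab.symm be ae h2,
    nr _ _ _ _ _ _ _ h.sw2.sw1 ae.symm be.symm ab h2⟩

theorem c3caseB (nr : c3NR G X) (cx : Cx G X 2) (h : Pole3 G X P a u b w e t) (h1 : 4 ≤ P.card)
    (h2 : 4 ≤ (X \ P).card) (hab : G.Adj a b) : Good G X := by
  obtain ⟨ab, ae, be⟩ := c3ne3 cx h (by omega)
  have cl := cx.cl le_rfl
  have mO : ∀ v, v ∈ (P.erase a).erase b ↔ v ≠ b ∧ v ≠ a ∧ v ∈ P := fun v => by
    simp only [Finset.mem_erase]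
  obtain ⟨x, na⟩ := cx.cub.second (h.sub h.ma) h.au hab (fun r => h.nu (r ▸ h.mb))
  obtain ⟨y, nb⟩ := cx.cub.second (h.sub h.mb) h.bw hab.symm (fun r => h.nw (r ▸ h.ma))
  have mx : x ∈ P := by
    have := h.nbr cl h.ma na.adj3
    have := na.2.1
    tauto
  have my : y ∈ P := by
    have := h.nbr cl h.mb nb.adj3
    have := nb.2.1
    tauto
  have h' : Pole3 G X ((P.erase a).erase b) x a y b e t := by
    refine ⟨fun v hv => h.sub ((mO v).1 hv).2.2, (mO x).2 ⟨na.2.2.1.symm, na.adj3.ne', mx⟩,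
      (mO y).2 ⟨nb.adj3.ne', nb.2.2.1.symm, my⟩, (mO e).2 ⟨be.symm, ae.symm, h.me⟩, h.sub h.ma,
      h.sub h.mb, h.mt, by simp, by simp, fun m => h.nt ((mO t).1 m).2.2, na.adj3.symm, nb.adj3.symm,
      h.et, ab, fun r => h.nt (r ▸ h.ma), fun r => h.nt (r ▸ h.mb), fun p hp q hq hq' k => ?_⟩
    rw [mO] at hp hq'
    by_cases qa : q = a
    · subst qa
      rcases na.cases k.symm with rfl | rfl | rfl
      · exact absurd hp.2.2 h.nu
      · exact absurd rfl hp.1
      · simp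
    by_cases qb : q = b
    · subst qb
      rcases nb.cases k.symm with rfl | rfl | rfl
      · exact absurd hp.2.2 h.nw
      · exact absurd rfl hp.2.1
      · simp
    have := h.only p hp.2.2 q hq (by tauto) k
    tauto
  have c1 : 2 ≤ ((P.erase a).erase b).card := by
    rw [Finset.card_erase_of_mem (Finset.mem_erase.2 ⟨ab.symm, h.mb⟩), Finset.card_erase_of_mem h.ma]
    omega
  obtain ⟨xy, xe, ye⟩ := c3ne3 cx h' c1
  obtain ⟨px, py, pe⟩ := nr.all cx h' c1 (le_trans (by omega) (h2.trans (Finset.card_le_card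
    (Finset.sdiff_subset_sdiff subset_rfl ((Finset.erase_subset _ _).trans (Finset.erase_subset _ _))))))
  obtain ⟨qu, qw, qt⟩ := nr.all cx (h.compl ab ae be) (by omega)
    (by rw [Finset.sdiff_sdiff_eq_self h.sub]; omega)
  exact h.glueB cx.cub cl hab h' xy xe ye px py pe qu qw qt

theorem c3main (cx : Cx G X 2)
    (hE : ∀ m, 1 ≤ m → m < 7 → ∀ r < mN m, ∀ ph, SE G X (mN m - 1) (sDel (sl (mR m)) r) ph → TG G X)
    (nr : ∀ P a u b w e t, Pole3 G X P a u b w e t → a ≠ b → a ≠ e → b ≠ e → 2 ≤ (X \ P).card →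
      Good G (P.erase a) ∨ TG G X) : TG G X ∨ Sc.C3 G X := by
  by_cases tg : TG G X
  · exact Or.inl tg
  have nr : c3NR G X := fun P a u b w e t h ab ae be h2 =>
    (nr P a u b w e t h ab ae be h2).resolve_right tg
  refine Or.inr fun P hP h1 h2 => ?_
  by_contra h3
  have h4 : 4 ≤ (X \ P).card := by rw [Finset.card_sdiff_of_subset hP]; omega
  obtain ⟨a, u, b, w, e, t, h⟩ := c3pole cx hP (by omega) (by omega) (by omega)
  obtain ⟨ab, ae, be⟩ := c3ne3 cx h (by omega)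
  have q := h.compl ab ae be
  have h5 : 4 ≤ (X \ (X \ P)).card := by rwa [Finset.sdiff_sdiff_eq_self hP]
  refine tg (Or.inl ?_)
  obtain ⟨pa, pb, pe⟩ := nr.all cx h (by omega) (by omega)
  obtain ⟨qu, qw, qt⟩ := nr.all cx q (by omega) (by omega)
  by_contra ng
  exact ng (h.glueA cx.cub (cx.cl le_rfl) ab ae be (fun k => ng (c3caseB nr cx h h1 h4 k))
    (fun k => ng (c3caseB nr cx h.sw2 h1 h4 k)) (fun k => ng (c3caseB nr cx h.sw1.sw2 h1 h4 k))
    (fun k => ng (c3caseB nr cx q h4 h5 k)) (fun k => ng (c3caseB nr cx q.sw2 h4 h5 k))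
    (fun k => ng (c3caseB nr cx q.sw1.sw2 h4 h5 k)) pa pb pe (c3hf cx h ae be)
    (c3hf cx h.sw2 ab be.symm) (c3hf cx h.sw1.sw2 ab.symm ae.symm) qu qw qt (c3hf cx q h.ut h.wt)
    (c3hf cx q.sw2 h.uw h.wt.symm) (c3hf cx q.sw1.sw2 h.uw.symm h.ut.symm) h.ma
    ((c3star cx hE h ab h4).resolve_right tg))

end Pool.Agent.Hom2.UC
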