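import Pool.Agent.Lib.MP_7e4769_co.Hc.LemA

set_option autoImplicit false

namespace Pool.Agent.Hom2

variable {V : Type}

/-- forget `D`, join `u w` -/
def joinG (G : SimpleGraph V) (D : Finset V) (u w : V) : SimpleGraph V where
  Adj x y := x ≠ y ∧ ((G.Adj x y ∧ x ∉ D ∧ y ∉ D) ∨ (x = u ∧ y = w) ∨ (x = w ∧ y = u))
  symm := ⟨by
    rintro x y ⟨h, h1 | h1 | h1⟩
    · exact ⟨h.symm, Or.inl ⟨h1.1.symm, h1.2.2, h1.2.1⟩⟩
    · exact ⟨h.symm, Or.inr (Or.inr ⟨h1.2, h1.1⟩)⟩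
    · exact ⟨h.symm, Or.inr (Or.inl ⟨h1.2, h1.1⟩)⟩⟩
  loopless := ⟨fun x h => h.1 rfl⟩

/-- forget `D`, keep the one vertex `r` with the neighbours `x y z` -/
def starG (G : SimpleGraph V) (D : Finset V) (r x y z : V) : SimpleGraph V where
  Adj a b := a ≠ b ∧ ((G.Adj a b ∧ a ∉ D ∧ b ∉ D) ∨ (a = r ∧ (b = x ∨ b = y ∨ b = z)) ∨
    (b = r ∧ (a = x ∨ a = y ∨ a = z)))
  symm := ⟨by
    rintro a b ⟨h, h1 | h1 | h1⟩
    · exact ⟨h.symm, Or.inl ⟨h1.1.symm, h1.2.2, h1.2.1⟩⟩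
    · exact ⟨h.symm, Or.inr (Or.inr h1)⟩
    · exact ⟨h.symm, Or.inr (Or.inl h1)⟩⟩
  loopless := ⟨fun x h => h.1 rfl⟩

/-- exactly the edges `a u` and `b w` leave `D` inside `X` -/
structure Pole2 (G : SimpleGraph V) (X D : Finset V) (a u b w : V) : Prop where
  sub : D ⊆ X
  ma : a ∈ D
  mb : b ∈ D
  mu : u ∈ X
  mw : w ∈ X
  nu : u ∉ D
  nw : w ∉ D
  au : G.Adj a u
  bw : G.Adj b w
  ne : u ≠ w
  only : ∀ x ∈ D, ∀ y ∈ X, y ∉ D → G.Adj x y → (x = a ∧ y = u) ∨ (x = b ∧ y = w)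

/-- exactly the edges `a u`, `b w` and `e t` leave `D` inside `X` -/
structure Pole3 (G : SimpleGraph V) (X D : Finset V) (a u b w e t : V) : Prop where
  sub : D ⊆ X
  ma : a ∈ D
  mb : b ∈ D
  me : e ∈ D
  mu : u ∈ X
  mw : w ∈ X
  mt : t ∈ X
  nu : u ∉ D
  nw : w ∉ D
  nt : t ∉ D
  au : G.Adj a u
  bw : G.Adj b w
  et : G.Adj e t
  uw : u ≠ w
  ut : u ≠ t
  wt : w ≠ t
  only : ∀ x ∈ D, ∀ y ∈ X, y ∉ D → G.Adj x y →
    (x = a ∧ y = u) ∨ (x = b ∧ y = w) ∨ (x = e ∧ y = t)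

/-- `D` may be replaced by the one vertex `r` with neighbours `x y z` -/
structure PStar (G : SimpleGraph V) (X D : Finset V) (r x y z : V) : Prop where
  sub : D ⊆ X
  mr : r ∈ D
  xy : x ≠ y
  xz : x ≠ z
  yz : y ≠ z
  rx : r ≠ x
  ry : r ≠ y
  rz : r ≠ z
  uniq : ∀ v ∈ X, v ∉ D → ∀ a ∈ D, ∀ a' ∈ D, G.Adj v a → G.Adj v a' → a = a'
  port : ∀ v ∈ X, v ∉ D → ((∃ a ∈ D, G.Adj v a) ↔ v = x ∨ v = y ∨ v = z)

variable {G : SimpleGraph V} {X D : Finset V}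

theorem ok4_state : ∀ a x y z : Fin 4, ok4 a x y z →
    ∃ e : Fin 4, a ≠ e ∧ x ≠ e ∧ ∀ t : Fin 4, t ≠ a → t ≠ e → ok4 a t y z := by
  decide +kernel

section star
variable {r x y z : V}

theorem PStar.nb_r (h : PStar G X D r x y z) : Nb (starG G D r x y z) r x y z := by
  refine ⟨h.xy, h.xz, h.yz, fun b => ⟨?_, fun e => ⟨?_, Or.inr (Or.inl ⟨rfl, e⟩)⟩⟩⟩
  · rintro ⟨n, e | e | e⟩
    · exact absurd h.mr e.2.1
    · exact e.2
    · exact absurd e.1.symm n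
  · rcases e with rfl | rfl | rfl
    · exact h.rx
    · exact h.ry
    · exact h.rz

theorem PStar.adj (h : PStar G X D r x y z) {v : V} (hv : v ∈ X) (hD : v ∉ D) (b : V) :
    (starG G D r x y z).Adj v b ↔ (G.Adj v b ∧ b ∉ D) ∨ (b = r ∧ ∃ a ∈ D, G.Adj v a) := by
  have vr : v ≠ r := fun e => hD (e ▸ h.mr)
  constructor
  · rintro ⟨-, e | e | e⟩
    · exact Or.inl ⟨e.1, e.2.2⟩
    · exact absurd e.1 vr
    · exact Or.inr ⟨e.1, (h.port v hv hD).2 e.2⟩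
  · rintro (e | e)
    · exact ⟨e.1.ne, Or.inl ⟨e.1, hD, e.2⟩⟩
    · exact ⟨e.1 ▸ vr, Or.inr (Or.inr ⟨e.1, (h.port v hv hD).1 e.2⟩)⟩

theorem PStar.nb_other (h : PStar G X D r x y z) {v a b c : V} (hv : v ∈ X) (hD : v ∉ D)
    (hp : ¬ ∃ a ∈ D, G.Adj v a) : Nb (starG G D r x y z) v a b c ↔ Nb G v a b c := by
  have : ∀ b, (starG G D r x y z).Adj v b ↔ G.Adj v b := fun b => by
    rw [h.adj hv hD]
    exact ⟨fun e => e.elim (fun e => e.1) (fun e => absurd e.2 hp),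
      fun e => Or.inl ⟨e, fun e' => hp ⟨b, e', e⟩⟩⟩
  simp only [Nb, this]

theorem PStar.nb_port (h : PStar G X D r x y z) {v a b c : V} (hv : v ∈ X) (hD : v ∉ D)
    (ha : a ∈ D) (hn : Nb G v a b c) : b ∉ D ∧ c ∉ D ∧ Nb (starG G D r x y z) v r b c := by
  have nb : b ∉ D := fun e => hn.1 (h.uniq v hv hD a ha b e hn.adj1 hn.adj2)
  have nc : c ∉ D := fun e => hn.2.1 (h.uniq v hv hD a ha c e hn.adj1 hn.adj3)
  refine ⟨nb, nc, fun e => nb (e ▸ h.mr), fun e => nc (e ▸ h.mr), hn.2.2.1, fun t => ?_⟩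
  rw [h.adj hv hD]
  constructor
  · rintro (e | e)
    · rcases hn.cases e.1 with k | k | k
      · exact absurd (k ▸ ha) e.2
      · exact Or.inr (Or.inl k)
      · exact Or.inr (Or.inr k)
    · exact Or.inl e.1
  · rintro (k | k | k)
    · exact Or.inr ⟨k, a, ha, hn.adj1⟩
    · exact Or.inl ⟨k ▸ hn.adj2, k ▸ nb⟩
    · exact Or.inl ⟨k ▸ hn.adj3, k ▸ nc⟩

variable [DecidableEq V]

theorem PStar.cub (h : PStar G X D r x y z) (hc : Cub G X) :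
    Cub (starG G D r x y z) (insert r (X \ D)) := by
  intro v hv
  rcases Finset.mem_insert.1 hv with rfl | hv
  · exact ⟨_, _, _, h.nb_r⟩
  rw [Finset.mem_sdiff] at hv
  by_cases p : ∃ a ∈ D, G.Adj v a
  · obtain ⟨a, ha, va⟩ := p
    obtain ⟨b, c, hn⟩ := hc.first hv.1 va
    exact ⟨_, _, _, (h.nb_port hv.1 hv.2 ha hn).2.2⟩
  · obtain ⟨a, b, c, hn⟩ := hc v hv.1
    exact ⟨a, b, c, (h.nb_other hv.1 hv.2 p).2 hn⟩

theorem PStar.sub' (h : PStar G X D r x y z) : insert r (X \ D) ⊆ X :=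
  Finset.insert_subset (h.sub h.mr) Finset.sdiff_subset

theorem PStar.card_lt (h : PStar G X D r x y z) {o : V} (ho : o ∈ D) (hor : o ≠ r) :
    (insert r (X \ D)).card < X.card := by
  refine Finset.card_lt_card (Finset.ssubset_iff_subset_ne.2 ⟨h.sub', fun e => ?_⟩)
  have : o ∈ insert r (X \ D) := e.symm ▸ h.sub ho
  simp [hor, ho] at this

theorem PStar.closed (h : PStar G X D r x y z) (hcl : Closed G X) (hx : x ∈ X \ D) (hy : y ∈ X \ D)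
    (hz : z ∈ X \ D) : Closed (starG G D r x y z) (insert r (X \ D)) := by
  intro v hv b e
  rcases Finset.mem_insert.1 hv with rfl | hv
  · rcases h.nb_r.cases e with rfl | rfl | rfl <;> exact Finset.mem_insert_of_mem ‹_›
  rw [Finset.mem_sdiff] at hv
  rcases (h.adj hv.1 hv.2 b).1 e with k | k
  · exact Finset.mem_insert_of_mem (Finset.mem_sdiff.2 ⟨hcl v hv.1 b k.1, k.2⟩)
  · exact k.1 ▸ Finset.mem_insert_self _ _

theorem PStar.twoEC (h : PStar G X D r x y z) (h2 : TwoEC G X) (hx : x ∈ X \ D) :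
    TwoEC (starG G D r x y z) (insert r (X \ D)) := by
  classical
  refine ⟨⟨r, Finset.mem_insert_self _ _, x, Finset.mem_insert_of_mem hx, h.rx⟩, ?_⟩
  have key : ∀ A ⊆ insert r (X \ D), A.Nonempty → r ∉ A → ∀ a b,
      ¬ Only (starG G D r x y z) (insert r (X \ D)) A a b := by
    intro A hA hne hr a b ho
    have hAD : ∀ v ∈ A, v ∈ X ∧ v ∉ D := fun v hv => by
      rcases Finset.mem_insert.1 (hA hv) with e | e
      · exact absurd (e ▸ hv) hr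
      · exact Finset.mem_sdiff.1 e
    refine h2.2 A (fun v hv => (hAD v hv).1) hne (fun e => hr (e ▸ h.sub h.mr)) a
      (if e : b = r ∧ ∃ t ∈ D, G.Adj a t then e.2.choose else b) ?_
    intro v hv t ht ht' vt
    obtain ⟨m1, m2⟩ := hAD v hv
    by_cases e : t ∈ D
    · obtain ⟨rfl, k⟩ := ho v hv r (Finset.mem_insert_self _ _) hr
        ((h.adj m1 m2 r).2 (Or.inr ⟨rfl, t, e, vt⟩))
      have k2 : b = r ∧ ∃ t ∈ D, G.Adj v t := ⟨k.symm, t, e, vt⟩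
      rw [dif_pos k2]
      exact ⟨rfl, h.uniq v m1 m2 t e _ k2.2.choose_spec.1 vt k2.2.choose_spec.2⟩
    · obtain ⟨rfl, k⟩ := ho v hv t (Finset.mem_insert_of_mem (Finset.mem_sdiff.2 ⟨ht, e⟩)) ht'
        ((h.adj m1 m2 t).2 (Or.inl ⟨vt, e⟩))
      have k2 : ¬ (b = r ∧ ∃ t ∈ D, G.Adj v t) := fun k2 => e (by rw [k, k2.1]; exact h.mr)
      rw [dif_neg k2]
      exact ⟨rfl, k⟩
  intro A hA hne hne' a b ho
  by_cases hr : r ∈ A
  · refine key (insert r (X \ D) \ A) Finset.sdiff_subset ?_ (by simp [hr]) b a (ho.compl hA)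
    rw [Finset.sdiff_nonempty]; exact fun e => hne' (Finset.Subset.antisymm hA e)
  · exact key A hA hne hr a b ho

omit [DecidableEq V] in
theorem PStar.port' (h : PStar G X D r x y z) [DecidableEq V] {o p : V} (hp : Port G X o p)
    (hD : p ∉ D) (ox : o ≠ x) (oy : o ≠ y) (oz : o ≠ z) :
    Port (starG G D r x y z) (insert r (X \ D)) o p := by
  have oD : o ∉ D := fun e => hp.1 (h.sub e)
  refine ⟨fun e => hp.1 (h.sub' e), Finset.mem_insert_of_mem (Finset.mem_sdiff.2 ⟨hp.2.1, hD⟩),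
    (h.adj hp.2.1 hD o).2 (Or.inl ⟨hp.2.2.1, oD⟩), fun q hq e => ?_⟩
  rcases Finset.mem_insert.1 hq with rfl | hq
  · rcases h.nb_r.cases e with k | k | k
    · exact absurd k ox
    · exact absurd k oy
    · exact absurd k oz
  · rw [Finset.mem_sdiff] at hq
    rcases (h.adj hq.1 hq.2 o).1 e with k | k
    · exact hp.2.2.2 q hq.1 k.1
    · exact absurd (k.1 ▸ h.mr) oD

end star

variable {a u b w e t r o : V}

theorem Pole2.symm (h : Pole2 G X D a u b w) : Pole2 G X D b w a u :=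
  ⟨h.sub, h.mb, h.ma, h.mw, h.mu, h.nw, h.nu, h.bw, h.au, h.ne.symm,
    fun x hx y hy hy' k => (h.only x hx y hy hy' k).symm⟩

theorem joinG_symm (G : SimpleGraph V) (D : Finset V) (u w : V) : joinG G D w u = joinG G D u w := by
  ext x y; simp only [joinG]; tauto

/-- the pole is replaced by the vertex `r` whose third neighbour `o` lies in `D` -/
theorem Pole2.star (h : Pole2 G X D a u b w) (hr : r ∈ D) (ho : o ∈ D) (hro : r ≠ o) :
    PStar G X D r u w o := by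
  refine ⟨h.sub, hr, h.ne, fun k => h.nu (k ▸ ho), fun k => h.nw (k ▸ ho), fun k => h.nu (k ▸ hr),
    fun k => h.nw (k ▸ hr), hro, fun v hv hD x hx x' hx' k k' => ?_, fun v hv hD => ⟨?_, ?_⟩⟩
  · have := h.only x hx v hv hD k.symm
    have := h.only x' hx' v hv hD k'.symm
    have := h.ne
    grind
  · rintro ⟨x, hx, k⟩
    have := h.only x hx v hv hD k.symm
    tauto
  · rintro (rfl | rfl | rfl)
    · exact ⟨a, h.ma, h.au.symm⟩
    · exact ⟨b, h.mb, h.bw.symm⟩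
    · exact absurd ho hD

theorem Pole3.star (h : Pole3 G X D a u b w e t) (hr : r ∈ D) : PStar G X D r u w t := by
  refine ⟨h.sub, hr, h.uw, h.ut, h.wt, fun k => h.nu (k ▸ hr), fun k => h.nw (k ▸ hr),
    fun k => h.nt (k ▸ hr), fun v hv hD x hx x' hx' k k' => ?_, fun v hv hD => ⟨?_, ?_⟩⟩
  · have := h.only x hx v hv hD k.symm
    have := h.only x' hx' v hv hD k'.symm
    have := h.uw; have := h.ut; have := h.wt
    grind
  · rintro ⟨x, hx, k⟩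
    have := h.only x hx v hv hD k.symm
    tauto
  · rintro (rfl | rfl | rfl)
    · exact ⟨a, h.ma, h.au.symm⟩
    · exact ⟨b, h.mb, h.bw.symm⟩
    · exact ⟨e, h.me, h.et.symm⟩

theorem Pole2.off (h : Pole2 G X D a u b w) {v x : V} (hv : v ∈ X) (hD : v ∉ D) (h1 : v ≠ u)
    (h2 : v ≠ w) (k : G.Adj v x) : x ∉ D := fun hx => by
  rcases h.only x hx v hv hD k.symm with k | k
  · exact h1 k.2
  · exact h2 k.2

theorem Pole2.off_u (h : Pole2 G X D a u b w) {x : V} (k : G.Adj u x) (hx : x ≠ a) : x ∉ D :=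
  fun hD => by
  rcases h.only x hD u h.mu h.nu k.symm with k | k
  · exact hx k.1
  · exact h.ne k.2

theorem Pole2.nbE_other (h : Pole2 G X D a u b w) {v x y z : V} (hv : v ∈ X) (hD : v ∉ D)
    (h1 : v ≠ u) (h2 : v ≠ w) : Nb (joinG G D u w) v x y z ↔ Nb G v x y z := by
  have : ∀ x, (joinG G D u w).Adj v x ↔ G.Adj v x := fun x => by
    constructor
    · rintro ⟨-, k | k | k⟩
      · exact k.1
      · exact absurd k.1 h1
      · exact absurd k.1 h2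
    · exact fun k => ⟨k.ne, Or.inl ⟨k, hD, h.off hv hD h1 h2 k⟩⟩
  simp only [Nb, this]

theorem Pole2.nbE_u (h : Pole2 G X D a u b w) (na : ¬ G.Adj u w) {y z : V} (hn : Nb G u a y z) :
    Nb (joinG G D u w) u w y z := by
  refine ⟨fun k => na (k ▸ hn.adj2), fun k => na (k ▸ hn.adj3), hn.2.2.1, fun x => ⟨?_, ?_⟩⟩
  · rintro ⟨-, k | k | k⟩
    · rcases hn.cases k.1 with j | j | j
      · exact absurd (j ▸ h.ma) k.2.2
      · exact Or.inr (Or.inl j)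
      · exact Or.inr (Or.inr j)
    · exact Or.inl k.2
    · exact absurd k.1 h.ne
  · rintro (rfl | rfl | rfl)
    · exact ⟨h.ne, Or.inr (Or.inl ⟨rfl, rfl⟩)⟩
    · exact ⟨hn.adj2.ne, Or.inl ⟨hn.adj2, h.nu, h.off_u hn.adj2 hn.1.symm⟩⟩
    · exact ⟨hn.adj3.ne, Or.inl ⟨hn.adj3, h.nu, h.off_u hn.adj3 hn.2.1.symm⟩⟩

theorem Pole2.nbE_w (h : Pole2 G X D a u b w) (na : ¬ G.Adj u w) {y z : V} (hn : Nb G w b y z) :
    Nb (joinG G D u w) w u y z :=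
  joinG_symm G D u w ▸ h.symm.nbE_u (fun k => na k.symm) hn

variable [DecidableEq V]

theorem Pole2.card_lt (h : Pole2 G X D a u b w) : (X \ D).card < X.card :=
  Finset.card_lt_card (Finset.sdiff_ssubset h.sub ⟨a, h.ma⟩)

theorem Pole2.cubE (h : Pole2 G X D a u b w) (na : ¬ G.Adj u w) (hc : Cub G X) :
    Cub (joinG G D u w) (X \ D) := by
  intro v hv
  rw [Finset.mem_sdiff] at hv
  by_cases e : v = u
  · subst e
    obtain ⟨y, z, hn⟩ := hc.first h.mu h.au.symm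
    exact ⟨_, _, _, h.nbE_u na hn⟩
  by_cases e' : v = w
  · subst e'
    obtain ⟨y, z, hn⟩ := hc.first h.mw h.bw.symm
    exact ⟨_, _, _, h.nbE_w na hn⟩
  obtain ⟨x, y, z, hn⟩ := hc v hv.1
  exact ⟨x, y, z, (h.nbE_other hv.1 hv.2 e e').2 hn⟩

theorem Pole2.closedE (h : Pole2 G X D a u b w) (hcl : Closed G X) :
    Closed (joinG G D u w) (X \ D) := by
  rintro v hv x ⟨-, k | k | k⟩
  · exact Finset.mem_sdiff.2 ⟨hcl v (Finset.mem_sdiff.1 hv).1 x k.1, k.2.2⟩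
  · exact k.2 ▸ Finset.mem_sdiff.2 ⟨h.mw, h.nw⟩
  · exact k.2 ▸ Finset.mem_sdiff.2 ⟨h.mu, h.nu⟩

theorem Pole2.twoE (h : Pole2 G X D a u b w) (na : ¬ G.Adj u w) (h2 : TwoEC G X) :
    TwoEC (joinG G D u w) (X \ D) := by
  have mu : u ∈ X \ D := Finset.mem_sdiff.2 ⟨h.mu, h.nu⟩
  have mw : w ∈ X \ D := Finset.mem_sdiff.2 ⟨h.mw, h.nw⟩
  refine ⟨⟨u, mu, w, mw, h.ne⟩, ?_⟩
  have key : ∀ A ⊆ X \ D, A.Nonempty → u ∉ A → ∀ p q, ¬ Only (joinG G D u w) (X \ D) A p q := by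
    intro A hA hne hu p q ho
    refine h2.2 A (hA.trans Finset.sdiff_subset) hne (fun k => hu (k ▸ h.mu)) p
      (if q = u ∧ p = w then b else q) ?_
    intro x hx y hy hy' xy
    have mx := Finset.mem_sdiff.1 (hA hx)
    by_cases k : y ∈ D
    · rcases h.only y k x mx.1 mx.2 xy.symm with j | j
      · exact absurd (j.2 ▸ hx) hu
      · obtain ⟨rfl, rfl⟩ := j
        obtain ⟨r1, r2⟩ := ho x hx u mu hu ⟨h.ne.symm, Or.inr (Or.inr ⟨rfl, rfl⟩)⟩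
        exact ⟨r1, by simp [← r1, ← r2]⟩
    · obtain ⟨r1, r2⟩ := ho x hx y (Finset.mem_sdiff.2 ⟨hy, k⟩) hy' ⟨xy.ne, Or.inl ⟨xy, mx.2, k⟩⟩
      refine ⟨r1, ?_⟩
      rw [if_neg]
      · exact r2
      · rintro ⟨r3, r4⟩
        exact na (r3 ▸ r4 ▸ r1 ▸ r2 ▸ xy.symm)
  intro A hA hne hne' p q ho
  by_cases hu : u ∈ A
  · refine key ((X \ D) \ A) Finset.sdiff_subset ?_ (by simp [hu]) q p (ho.compl hA)
    rw [Finset.sdiff_nonempty]; exact fun k => hne' (Finset.Subset.antisymm hA k)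
  · exact key A hA hne hu p q ho

theorem Pole2.portE (h : Pole2 G X D a u b w) {p : V} (hp : Port G X o p) (hD : p ∉ D) :
    Port (joinG G D u w) (X \ D) o p := by
  have oD : o ∉ D := fun k => hp.1 (h.sub k)
  refine ⟨fun k => hp.1 (Finset.mem_sdiff.1 k).1, Finset.mem_sdiff.2 ⟨hp.2.1, hD⟩,
    ⟨hp.2.2.1.ne, Or.inl ⟨hp.2.2.1, hD, oD⟩⟩, ?_⟩
  rintro x hx ⟨-, k | k | k⟩
  · exact hp.2.2.2 x (Finset.mem_sdiff.1 hx).1 k.1
  · exact absurd (k.2 ▸ h.mw) hp.1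
  · exact absurd (k.2 ▸ h.mu) hp.1

/-- fill the pole: `c` is fine away from `D`, the ports `u w` accept every colour except their own
and `eu`, `ew` -/
theorem Pole2.fill (h : Pole2 G X D a u b w) (hc : Cub G X) {T : Set V}
    (hT : ∀ t ∈ T, ∀ v ∈ D, ¬ G.Adj v t) {c d : V → Fin 4} {eu ew : Fin 4}
    (c1 : ∀ v, v ∉ X → v ∉ T → c v = 3)
    (c2 : ∀ v ∈ X, v ∉ D → v ≠ u → v ≠ w → OK G c v)
    (cu : ∀ y z, Nb G u a y z → ∀ s, s ≠ c u → s ≠ eu → ok4 (c u) s (c y) (c z))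
    (cw : ∀ y z, Nb G w b y z → ∀ s, s ≠ c w → s ≠ ew → ok4 (c w) s (c y) (c z))
    (du : d u = c u) (dw : d w = c w) (da : d a ≠ eu) (db : d b ≠ ew)
    (d3 : ∀ v, v ∉ X → d v = 3) (dD : ∀ v ∈ D, OK G d v) : Col G X T := by
  refine ⟨fun v => if v ∈ D then d v else c v, fun v hv hv' => ?_, fun v hv => ?_⟩
  · have : v ∉ D := fun k => hv (h.sub k)
    simp only [this, if_false]; exact c1 v hv hv'
  by_cases m : v ∈ D
  · refine (dD v m).congr (by simp [m]) (fun x k => ?_)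
    by_cases m' : x ∈ D
    · simp [m']
    simp only [m', if_false]
    by_cases m2 : x ∈ X
    · rcases h.only v m x m2 m' k with j | j
      · rw [j.2, du]
      · rw [j.2, dw]
    · rw [d3 x m2, c1 x m2 (fun j => hT x j v m k)]
  by_cases e1 : v = u
  · subst e1
    obtain ⟨y, z, hn⟩ := hc.first hv h.au.symm
    refine OK.of_nb hn ?_
    simp only [m, h.ma, h.off_u hn.adj2 hn.1.symm, h.off_u hn.adj3 hn.2.1.symm, if_true, if_false]
    exact cu y z hn _ (du ▸ (dD a h.ma).ne hc (h.sub h.ma) h.au) da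
  by_cases e2 : v = w
  · subst e2
    obtain ⟨y, z, hn⟩ := hc.first hv h.bw.symm
    refine OK.of_nb hn ?_
    simp only [m, h.mb, h.symm.off_u hn.adj2 hn.1.symm, h.symm.off_u hn.adj3 hn.2.1.symm, if_true,
      if_false]
    exact cw y z hn _ (dw ▸ (dD b h.mb).ne hc (h.sub h.mb) h.bw) db
  · refine (c2 v hv m e1 e2).congr (by simp [m]) (fun x k => ?_)
    simp [h.off hv m e1 e2 k]

omit [DecidableEq V] in
theorem Nb.state {c : V → Fin 4} {v p y z : V} {s ex : Fin 4} (hn : Nb G v p y z)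
    (k : ∀ s, s ≠ c v → s ≠ ex → ok4 (c v) s (c y) (c z)) {y' z' : V} (hn' : Nb G v p y' z')
    (h1 : s ≠ c v) (h2 : s ≠ ex) : ok4 (c v) s (c y') (c z') := by
  have a1 := hn.cases hn'.adj2
  have a2 := hn.cases hn'.adj3
  have a3 := hn'.1; have a4 := hn'.2.1; have a5 := hn'.2.2.1
  rcases a1 with j | j | j
  · exact absurd j.symm a3
  · rcases a2 with i | i | i
    · exact absurd i.symm a4
    · exact absurd (j.trans i.symm) a5
    · rw [j, i]; exact k s h1 h2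
  · rcases a2 with i | i | i
    · exact absurd i.symm a4
    · rw [j, i]; exact ok4_sw2 (k s h1 h2)
    · exact absurd (j.trans i.symm) a5

/-- rewiring pole -> edge -/
theorem Pole2.colE (h : Pole2 G X D a u b w) (na : ¬ G.Adj u w) (hc : Cub G X) {T : Set V}
    (hT : ∀ t ∈ T, ∀ v ∈ D, ¬ G.Adj v t)
    (dom : ∀ cu eu cw ew : Fin 4, cu ≠ cw → cu ≠ eu → cw ≠ ew → cw ≠ eu → cu ≠ ew →
      ∃ d : V → Fin 4, d u = cu ∧ d w = cw ∧ d a ≠ eu ∧ d b ≠ ew ∧ (∀ v, v ∉ X → d v = 3) ∧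
        ∀ v ∈ D, OK G d v)
    (g : Col (joinG G D u w) (X \ D) T) : Col G X T := by
  obtain ⟨c, c1, c2⟩ := g
  obtain ⟨y, z, hn⟩ := hc.first h.mu h.au.symm
  obtain ⟨y', z', hn'⟩ := hc.first h.mw h.bw.symm
  have o1 := c2 u (Finset.mem_sdiff.2 ⟨h.mu, h.nu⟩) _ _ _ (h.nbE_u na hn)
  have o2 := c2 w (Finset.mem_sdiff.2 ⟨h.mw, h.nw⟩) _ _ _ (h.nbE_w na hn')
  obtain ⟨eu, p1, p2, p3⟩ := ok4_state _ _ _ _ o1
  obtain ⟨ew, q1, q2, q3⟩ := ok4_state _ _ _ _ o2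
  obtain ⟨d, d1, d2, d3, d4, d5, d6⟩ := dom _ eu _ ew o1.1 p1 q1 p2 q2
  exact h.fill hc hT (fun v hv => c1 v (fun k => hv (Finset.mem_sdiff.1 k).1))
    (fun v hv hD e1 e2 x1 x2 x3 k => c2 v (Finset.mem_sdiff.2 ⟨hv, hD⟩) _ _ _
      ((h.nbE_other hv hD e1 e2).2 k))
    (fun _ _ k _ => hn.state p3 k) (fun _ _ k _ => hn'.state q3 k) d1 d2 d3 d4 d5 d6

/-- rewiring pole -> one vertex `r` with a stub `r o` -/
theorem Pole2.colT (h : Pole2 G X D a u b w) (hr : r ∈ D) (ho : o ∈ D) (hro : r ≠ o) (hc : Cub G X)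
    {T : Set V} (hT : ∀ t ∈ T, ∀ v ∈ D, ¬ G.Adj v t) (hoT : o ∉ T)
    (dom : ∀ cu eu cw ew cr : Fin 4, ok4 cr cu cw 3 → cu ≠ eu → cw ≠ ew → cr ≠ eu → cr ≠ ew →
      ∃ d : V → Fin 4, d u = cu ∧ d w = cw ∧ d a ≠ eu ∧ d b ≠ ew ∧ (∀ v, v ∉ X → d v = 3) ∧
        ∀ v ∈ D, OK G d v)
    (g : Col (starG G D r u w o) (insert r (X \ D)) T) : Col G X T := by
  obtain ⟨c, c1, c2⟩ := g
  have hs := h.star hr ho hro
  obtain ⟨y, z, hn⟩ := hc.first h.mu h.au.symm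
  obtain ⟨y', z', hn'⟩ := hc.first h.mw h.bw.symm
  have m : ∀ v ∈ X, v ∉ D → v ∈ insert r (X \ D) := fun v hv hD =>
    Finset.mem_insert_of_mem (Finset.mem_sdiff.2 ⟨hv, hD⟩)
  have o0 := c2 r (Finset.mem_insert_self _ _) _ _ _ hs.nb_r
  rw [c1 o (by simp [hro.symm, ho]) hoT] at o0
  obtain ⟨eu, p1, p2, p3⟩ := ok4_state _ _ _ _
    (c2 u (m u h.mu h.nu) _ _ _ (hs.nb_port h.mu h.nu h.ma hn).2.2)
  obtain ⟨ew, q1, q2, q3⟩ := ok4_state _ _ _ _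
    (c2 w (m w h.mw h.nw) _ _ _ (hs.nb_port h.mw h.nw h.mb hn').2.2)
  obtain ⟨d, d1, d2, d3, d4, d5, d6⟩ := dom _ eu _ ew _ o0 p1 q1 p2 q2
  exact h.fill hc hT (fun v hv => c1 v (fun k => hv (hs.sub' k)))
    (fun v hv hD e1 e2 x1 x2 x3 k => c2 v (m v hv hD) _ _ _
      ((hs.nb_other hv hD (fun ⟨x, hx, j⟩ => h.off hv hD e1 e2 j hx)).2 k))
    (fun _ _ k _ => hn.state p3 k) (fun _ _ k _ => hn'.state q3 k) d1 d2 d3 d4 d5 d6

end Pool.Agent.Hom2
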