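import Pool.Agent.Lib.MP_7e4769_co.Hc.C3Tab
import Pool.Agent.Lib.MP_7e4769_co.Hc.Rew

set_option autoImplicit false

namespace Pool.Agent.Hom2

theorem c3go_false {A B : ℕ → Prop} {N : ℕ} {Q : List ℕ}
    (hN : ∀ i < 74, ∀ j < 74, A i → B j → tb (c3row N i) j = true)
    (hQ : ∀ m ∈ Q, ∃ j < 74, B j ∧ tb m j = true) :
    ∀ Fs : List ℕ, (∀ F ∈ Fs, ∃ i < 74, A i ∧ tb F i = true) → ∀ al,
      (∀ j < 74, B j → tb al j = true) → c3go N Q Fs al = true → False := by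
  have hd : ∀ al, (∀ j < 74, B j → tb al j = true) → c3dead Q al = true → False := by
    intro al h e
    simp only [c3dead, List.any_eq_true, Nat.beq_eq] at e
    obtain ⟨m, hm, e⟩ := e
    obtain ⟨j, hj, b, k⟩ := hQ m hm
    exact tb_land e (h j hj b) k
  intro Fs
  induction Fs with
  | nil => exact fun _ al h e => hd al h e
  | cons F r ih =>
    intro hF al h e
    simp only [c3go, Bool.or_eq_true, allLt_iff, fzb_eq] at e
    rcases e with e | e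
    · exact hd al h e
    obtain ⟨i, hi, a, k⟩ := hF F (by simp)
    rcases e i hi with e | e
    · simp [k] at e
    refine ih (fun F' hF' => hF F' (by simp [hF'])) _ (fun j hj b => ?_) e
    have := Nat.testBit_and al (c3row N i) j
    rw [← tb_eq al, ← tb_eq (c3row N i), h j hj b, hN i hi j hj a b] at this
    rw [tb_eq]; exact this

theorem acc.map {f : Fin 4 → Fin 4} (hf : Function.Injective f) {c e x : Fin 4} (h : acc c e x) :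
    acc (f c) (f e) (f x) := ⟨fun k => h.1 (hf k), fun k => h.2 (hf k)⟩

/-- a set of states that is closed under permutations of the colours -/
def PSet (A : PS → Prop) : Prop :=
  ∀ s, A s → s.Val ∧ ∀ f : Fin 4 → Fin 4, Function.Injective f → A (s.map f)

theorem c3pm_injective {k : ℕ} (hk : k < 24) : Function.Injective (c3pm k) :=
  fun x y => c3pm_inj k hk x y

theorem PSet.rep {A : PS → Prop} (hA : PSet A) {s : PS} (h : A s) :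
    ∃ i < 74, A (c3rep i) ∧ ∃ f : Fin 4 → Fin 4, Function.Injective f ∧ c3rep i = s.map f := by
  obtain ⟨⟨v0, v1, v2⟩, hm⟩ := hA s h
  rcases c3nrm _ _ v0 _ _ v1 _ _ v2 with ⟨k1, k2, k3⟩ | ⟨k1, k2, k3⟩ <;>
    exact ⟨_, k2, k3 ▸ hm _ (c3pm_injective k1), _, c3pm_injective k1, k3.symm⟩

theorem PSet.ha0 {A : PS → Prop} (hA : PSet A) (h : ∃ s, A s ∧ s.Ha0) :
    ∃ i < 74, A (c3rep i) ∧ tb 16163292962078293229568 i = true := by
  obtain ⟨s, h1, h2⟩ := h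
  obtain ⟨i, hi, a, f, hf, e⟩ := hA.rep h1
  exact ⟨i, hi, a, (c3fam i hi).1 (e ▸ ⟨h2.1.map hf, h2.2.map hf⟩)⟩

theorem PSet.ha1 {A : PS → Prop} (hA : PSet A) (h : ∃ s, A s ∧ s.Ha1) :
    ∃ i < 74, A (c3rep i) ∧ tb 7292856077468389343232 i = true := by
  obtain ⟨s, h1, h2⟩ := h
  obtain ⟨i, hi, a, f, hf, e⟩ := hA.rep h1
  exact ⟨i, hi, a, (c3fam i hi).2.1 (e ▸ ⟨h2.1.map hf, h2.2.map hf⟩)⟩

theorem PSet.ha2 {A : PS → Prop} (hA : PSet A) (h : ∃ s, A s ∧ s.Ha2) :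
    ∃ i < 74, A (c3rep i) ∧ tb 4036210669119799408 i = true := by
  obtain ⟨s, h1, h2⟩ := h
  obtain ⟨i, hi, a, f, hf, e⟩ := hA.rep h1
  exact ⟨i, hi, a, (c3fam i hi).2.2.1 (e ▸ ⟨h2.1.map hf, h2.2.map hf⟩)⟩

theorem PSet.hf0 {A : PS → Prop} (hA : PSet A) (h : ∃ s, A s ∧ s.c1 = s.c2) :
    ∃ i < 74, A (c3rep i) ∧ tb 2066539862562801976195 i = true := by
  obtain ⟨s, h1, h2⟩ := h
  obtain ⟨i, hi, a, f, hf, e⟩ := hA.rep h1
  exact ⟨i, hi, a, (c3fam i hi).2.2.2.1 (e ▸ congrArg f h2)⟩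

theorem PSet.hf1 {A : PS → Prop} (hA : PSet A) (h : ∃ s, A s ∧ s.c0 = s.c2) :
    ∃ i < 74, A (c3rep i) ∧ tb 32289685352956298115 i = true := by
  obtain ⟨s, h1, h2⟩ := h
  obtain ⟨i, hi, a, f, hf, e⟩ := hA.rep h1
  exact ⟨i, hi, a, (c3fam i hi).2.2.2.2.1 (e ▸ congrArg f h2)⟩

theorem PSet.hf2 {A : PS → Prop} (hA : PSet A) (h : ∃ s, A s ∧ s.c0 = s.c1) :
    ∃ i < 74, A (c3rep i) ∧ tb 524287 i = true := by
  obtain ⟨s, h1, h2⟩ := h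
  obtain ⟨i, hi, a, f, hf, e⟩ := hA.rep h1
  exact ⟨i, hi, a, (c3fam i hi).2.2.2.2.2.1 (e ▸ congrArg f h2)⟩

theorem PSet.vx {A : PS → Prop} (hA : PSet A) (h : ∃ s, A s ∧ s.Vx) :
    ∃ i < 74, A (c3rep i) ∧ tb 219604084845997116 i = true := by
  obtain ⟨s, h1, r, h2, h3, h4, h5⟩ := h
  obtain ⟨i, hi, a, f, hf, e⟩ := hA.rep h1
  exact ⟨i, hi, a, (c3fam i hi).2.2.2.2.2.2
    (e ▸ ⟨f r, h2.map hf, h3.map hf, h4.map hf, ok4_map hf h5⟩)⟩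

theorem c3full : ∀ j < 74, tb 18889465931478580854783 j = true := by decide +kernel

/-- finite lemma A -/
theorem c3finA {A B : PS → Prop} (hA : PSet A) (hB : PSet B)
    (a0 : ∃ s, A s ∧ s.Ha0) (a1 : ∃ s, A s ∧ s.Ha1) (a2 : ∃ s, A s ∧ s.Ha2)
    (a3 : ∃ s, A s ∧ s.c1 = s.c2) (a4 : ∃ s, A s ∧ s.c0 = s.c2) (a5 : ∃ s, A s ∧ s.c0 = s.c1)
    (b0 : ∃ s, B s ∧ s.Ha0) (b1 : ∃ s, B s ∧ s.Ha1) (b2 : ∃ s, B s ∧ s.Ha2)
    (b3 : ∃ s, B s ∧ s.c1 = s.c2) (b4 : ∃ s, B s ∧ s.c0 = s.c2) (b5 : ∃ s, B s ∧ s.c0 = s.c1)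
    (b6 : ∃ s, B s ∧ s.Vx) : ∃ s t, A s ∧ B t ∧ s.Comp t := by
  by_contra hn
  refine c3go_false (A := fun i => A (c3rep i)) (B := fun i => B (c3rep i))
    (fun i hi j hj a b => ?_) ?_ _ ?_ _ (fun j hj _ => c3full j hj) c3goA
  · refine (c3tabA i hi j hj).resolve_right ?_
    rintro ⟨k, hk, e⟩
    exact hn ⟨_, _, a, (hB _ b).2 _ (c3pm_injective hk), e⟩
  · simp only [List.forall_mem_cons, List.not_mem_nil, false_imp_iff, implies_true, and_true]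
    exact ⟨hB.vx b6, hB.ha0 b0, hB.ha1 b1, hB.ha2 b2, hB.hf0 b3, hB.hf1 b4, hB.hf2 b5⟩
  · simp only [List.forall_mem_cons, List.not_mem_nil, false_imp_iff, implies_true, and_true]
    exact ⟨hA.hf0 a3, hA.hf1 a4, hA.hf2 a5, hA.ha0 a0, hA.ha1 a1, hA.ha2 a2⟩

/-- finite lemma B -/
theorem c3finB {A B : PS → Prop} (hA : PSet A) (hB : PSet B)
    (a0 : ∃ s, A s ∧ s.Ha0) (a1 : ∃ s, A s ∧ s.Ha1) (a2 : ∃ s, A s ∧ s.Ha2)
    (b0 : ∃ s, B s ∧ s.Ha0) (b1 : ∃ s, B s ∧ s.Ha1) (b2 : ∃ s, B s ∧ s.Ha2) :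
    ∃ s t, A s ∧ B t ∧ s.CompR t := by
  by_contra hn
  refine c3go_false (A := fun i => A (c3rep i)) (B := fun i => B (c3rep i))
    (fun i hi j hj a b => ?_) ?_ _ ?_ _ (fun j hj _ => c3full j hj) c3goB
  · refine (c3tabB i hi j hj).resolve_right ?_
    rintro ⟨k, hk, e⟩
    exact hn ⟨_, _, a, (hB _ b).2 _ (c3pm_injective hk), e⟩
  · simp only [List.forall_mem_cons, List.not_mem_nil, false_imp_iff, implies_true, and_true]
    exact ⟨hB.ha0 b0, hB.ha1 b1, hB.ha2 b2⟩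
  · simp only [List.forall_mem_cons, List.not_mem_nil, false_imp_iff, implies_true, and_true]
    exact ⟨hA.ha0 a0, hA.ha1 a1, hA.ha2 a2⟩

end Pool.Agent.Hom2
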