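import Pool.Agent.Lib.MP_7e4769_co.Hc.Rew

set_option autoImplicit false

namespace Pool.Agent.Hom2

variable {V : Type} {G : SimpleGraph V}

theorem cut2_fin : ∀ u v b a u' v' : Fin 4, (u ≠ 3 ∧ v ≠ 3 ∧ b ≠ 3) ∧ a ≠ 3 ∧ u' ≠ 3 ∧ v' ≠ 3 →
    ∃ i : Fin 6, ok4 3 b (s3 i u) (s3 i v) ∧ ok4 3 (s3 i a) u' v' := by
  decide +kernel

theorem row_red : ∀ u v : Fin 4, u ≠ 3 → v ≠ 3 → ∃ w : Fin 4, w ≠ 3 ∧
    ∀ (i : Fin 6) (q : Fin 4), ok4 3 q (s3 i w) (s3 i 0) → ok4 3 q (s3 i u) (s3 i v) := by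
  decide +kernel

theorem cut3_fin : ∀ q1 q2 q3 w1 w2 w3 : Fin 4, ok4 3 q1 q2 q3 → w1 ≠ 3 → w2 ≠ 3 → w3 ≠ 3 →
    ∃ i : Fin 6, ok4 3 q1 (s3 i w1) (s3 i 0) ∧ ok4 3 q2 (s3 i w2) (s3 i 0) ∧
      ok4 3 q3 (s3 i w3) (s3 i 0) := by
  decide +kernel

variable [DecidableEq V]

/-- `A` is recoloured by one of the six permutations of the finite colours, which pays the rows of
the vertices outside `A` and `B` -/
theorem Col.symPay {X A B : Finset V} {T : Set V} {c d : V → Fin 4} (hA : A ⊆ X) (hB : B ⊆ X)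
    (hne : ∀ x ∈ A, ∀ y ∈ B, ¬ G.Adj x y)
    (hT : ∀ t ∈ T, ∀ x ∈ A, ¬ G.Adj x t)
    (c1 : ∀ v, v ∉ A → c v = 3) (c2 : ∀ v ∈ A, OK G c v)
    (d1 : ∀ v, v ∉ B → v ∉ T → d v = 3) (d2 : ∀ v ∈ B, OK G d v) (i : Fin 6)
    (pay : ∀ s ∈ X, s ∉ A → s ∉ B → OK G (fun v => if v ∈ A then s3 i (c v) else d v) s) :
    Col G X T := by
  refine ⟨fun v => if v ∈ A then s3 i (c v) else d v, fun v hv hv' => ?_, fun v hv => ?_⟩
  · have : v ∉ A := fun e => hv (hA e)
    simp only [this, if_false]; exact d1 v (fun e => hv (hB e)) hv'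
  by_cases a : v ∈ A
  · refine ((c2 v a).map (s3_inj i)).congr (by simp [a]) (fun w hw => ?_)
    by_cases e : w ∈ A
    · simp [e]
    · simp only [e, if_false]
      rw [c1 w e, s3_three, d1 w (fun e' => hne v a w e' hw) (fun e' => hT w e' v a hw)]
  by_cases b : v ∈ B
  · refine (d2 v b).congr (by simp [a]) (fun w hw => ?_)
    have : w ∉ A := fun e => hne w e v b hw.symm
    simp [this]
  · exact pay v hv a b

/-- CUT2: the edges `a u` and `b w` cut `P` off; `b` and `u` have no stub and become infinity. -/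
theorem Pole2.cut2 {X P : Finset V} {T : Set V} {a u b w : V} (h : Pole2 G X P a u b w)
    (hc : Cub G X) (hab : a ≠ b) (kb : ∀ y, G.Adj b y → y ∈ X) (ku : ∀ y, G.Adj u y → y ∈ X)
    (hT : ∀ t ∈ T, t ∉ X ∧ ∀ x ∈ P, ¬ G.Adj x t)
    (gP : Good G (P.erase b)) (gQ : Col G ((X \ P).erase u) T) : Col G X T := by
  obtain ⟨c, c1, c2⟩ := gP
  obtain ⟨d, d1, d2⟩ := gQ
  obtain ⟨x, y, nb⟩ := hc.first (h.sub h.mb) h.bw
  obtain ⟨x', y', nu⟩ := hc.first h.mu h.au.symm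
  have inP : ∀ z, G.Adj b z → z ≠ w → z ∈ P.erase b := by
    intro z hz hzw
    refine Finset.mem_erase.2 ⟨hz.ne', ?_⟩
    by_contra e
    rcases h.only b h.mb z (kb z hz) e hz with r | r
    · exact hab r.1.symm
    · exact hzw r.2
  have inQ : ∀ z, G.Adj u z → z ≠ a → z ∈ (X \ P).erase u := by
    intro z hz hza
    refine Finset.mem_erase.2 ⟨hz.ne', Finset.mem_sdiff.2 ⟨ku z hz, fun e => ?_⟩⟩
    rcases h.only z e u h.mu h.nu hz.symm with r | r
    · exact hza r.1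
    · exact h.ne r.2
  have mx := inP x nb.adj2 nb.1.symm
  have my := inP y nb.adj3 nb.2.1.symm
  have mx' := inQ x' nu.adj2 nu.1.symm
  have my' := inQ y' nu.adj3 nu.2.1.symm
  have ma : a ∈ P.erase b := Finset.mem_erase.2 ⟨hab, h.ma⟩
  have mw : w ∈ (X \ P).erase u := Finset.mem_erase.2 ⟨h.ne.symm, Finset.mem_sdiff.2 ⟨h.mw, h.nw⟩⟩
  have sA : P.erase b ⊆ X := (Finset.erase_subset _ _).trans h.sub
  have sB : (X \ P).erase u ⊆ X := (Finset.erase_subset _ _).trans Finset.sdiff_subset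
  have bA : b ∉ P.erase b := by simp
  have uA : u ∉ P.erase b := fun e => h.nu (Finset.mem_of_mem_erase e)
  have bB : b ∉ (X \ P).erase u := by simp [h.mb]
  have uB : u ∉ (X \ P).erase u := by simp
  have db : d b = 3 := d1 b bB (fun e => (hT b e).1 (h.sub h.mb))
  have du : d u = 3 := d1 u uB (fun e => (hT u e).1 h.mu)
  have fc : ∀ z ∈ P.erase b, ∀ s, s ∉ P.erase b → G.Adj z s → c z ≠ 3 := fun z hz s hs e =>
    c1 s hs (by simp) ▸ (c2 z hz).ne hc (sA hz) e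
  have fd : ∀ z ∈ (X \ P).erase u, ∀ s, d s = 3 → G.Adj z s → d z ≠ 3 := fun z hz s hs e =>
    hs ▸ (d2 z hz).ne hc (sB hz) e
  obtain ⟨i, p1, p2⟩ := cut2_fin _ _ _ _ _ _ ⟨⟨fc x mx b bA nb.adj2.symm, fc y my b bA nb.adj3.symm,
    fd w mw b db h.bw.symm⟩, fc a ma u uA h.au, fd x' mx' u du nu.adj2.symm,
    fd y' my' u du nu.adj3.symm⟩
  have dj : ∀ x ∈ P.erase b, x ∉ (X \ P).erase u := fun x hx e =>
    (Finset.mem_sdiff.1 (Finset.mem_of_mem_erase e)).2 (Finset.mem_of_mem_erase hx)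
  have na : ∀ x ∈ P.erase b, ∀ y ∈ (X \ P).erase u, ¬ G.Adj x y := by
    intro x hx y hy e
    rw [Finset.mem_erase] at hx hy
    rw [Finset.mem_sdiff] at hy
    rcases h.only x hx.2 y hy.2.1 hy.2.2 e with r | r
    · exact hy.1 r.2
    · exact hx.1 r.1
  refine Col.symPay sA sB na (fun t ht x hx => (hT t ht).2 x (Finset.mem_of_mem_erase hx))
    (fun v hv => c1 v hv (by simp)) c2 d1 d2 i ?_
  intro s hs s1 s2
  have : s = b ∨ s = u := by
    simp only [Finset.mem_erase, Finset.mem_sdiff] at s1 s2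
    tauto
  rcases this with rfl | rfl
  · refine OK.of_nb nb ?_
    have : w ∉ P.erase s := fun e => dj w e mw
    simpa only [bA, this, mx, my, if_true, if_false, db] using p1
  · refine OK.of_nb nu ?_
    have e1 : x' ∉ P.erase b := fun e => dj x' e mx'
    have e2 : y' ∉ P.erase b := fun e => dj y' e my'
    simpa only [uA, ma, e1, e2, if_true, if_false, du] using p2

/-- CUT3: closed graph, the side `P` of a 3-cut with independent ends `a b c`; the contraction of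
`P` and `P` without the three ends are good. -/
theorem Pole3.cut3 {X P : Finset V} {a u b w e t r : V} (h : Pole3 G X P a u b w e t)
    (hc : Cub G X) (hcl : Closed G X) (hr : r ∈ P) (ab : a ≠ b) (ae : a ≠ e) (be : b ≠ e)
    (nab : ¬ G.Adj a b) (nae : ¬ G.Adj a e) (nbe : ¬ G.Adj b e)
    (gQ : Good (starG G P r u w t) (insert r (X \ P)))
    (gP : Good G (((P.erase a).erase b).erase e)) : Good G X := by
  obtain ⟨c, c1, c2⟩ := gP
  obtain ⟨d0, -, d2⟩ := gQ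
  have hs := h.star hr
  set A := ((P.erase a).erase b).erase e with hA
  have mA : ∀ v, v ∈ A ↔ v ≠ e ∧ v ≠ b ∧ v ≠ a ∧ v ∈ P := by
    intro v; simp only [hA, Finset.mem_erase]
  let d : V → Fin 4 := fun v => if v ∈ X \ P then Equiv.swap (d0 r) 3 (d0 v) else 3
  have o0 : ∀ v ∈ insert r (X \ P),
      OK (starG G P r u w t) (fun v => Equiv.swap (d0 r) 3 (d0 v)) v :=
    fun v hv => (d2 v hv).map (Equiv.swap (d0 r) 3).injective
  have okQ : ∀ v ∈ X \ P, OK G d v := by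
    intro v hv
    have hv' := Finset.mem_sdiff.1 hv
    have same : ∀ y, G.Adj v y → y ∉ P → d y = Equiv.swap (d0 r) 3 (d0 y) := fun y hy hp => by
      simp only [d, Finset.mem_sdiff.2 ⟨hcl v hv'.1 y hy, hp⟩, if_true]
    have dv : d v = Equiv.swap (d0 r) 3 (d0 v) := by simp only [d, hv, if_true]
    by_cases p : ∃ x ∈ P, G.Adj v x
    · obtain ⟨x, hx, vx⟩ := p
      obtain ⟨y, z, nb⟩ := hc.first hv'.1 vx
      obtain ⟨n1, n2, n3⟩ := hs.nb_port hv'.1 hv'.2 hx nb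
      have := o0 v (Finset.mem_insert_of_mem hv) _ _ _ n3
      refine OK.of_nb nb ?_
      have dx : d x = 3 := by simp [d, hx]
      rw [dv, dx, same y nb.adj2 n1, same z nb.adj3 n2]
      simpa only [Equiv.swap_apply_left] using this
    · intro x y z nb
      have k : ∀ x, G.Adj v x → x ∉ P := fun x e e' => p ⟨x, e', e⟩
      rw [dv, same x nb.adj1 (k x nb.adj1), same y nb.adj2 (k y nb.adj2), same z nb.adj3 (k z nb.adj3)]
      exact o0 v (Finset.mem_insert_of_mem hv) _ _ _ ((hs.nb_other hv'.1 hv'.2 p).2 nb)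
  have mu : u ∈ X \ P := Finset.mem_sdiff.2 ⟨h.mu, h.nu⟩
  have mw : w ∈ X \ P := Finset.mem_sdiff.2 ⟨h.mw, h.nw⟩
  have mt : t ∈ X \ P := Finset.mem_sdiff.2 ⟨h.mt, h.nt⟩
  have row : ok4 3 (d u) (d w) (d t) := by
    have := o0 r (Finset.mem_insert_self _ _) _ _ _ hs.nb_r
    simpa only [d, mu, mw, mt, if_true, Equiv.swap_apply_left] using this
  have sA : A ⊆ X := fun v hv => h.sub ((mA v).1 hv).2.2.2
  have key : ∀ p q, p ∈ P → p ∉ A → G.Adj p q →
      (∀ z, G.Adj p z → z ≠ q → z ∈ A) → ∃ x y, Nb G p q x y ∧ x ∈ A ∧ y ∈ A ∧ c x ≠ 3 ∧ c y ≠ 3 := by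
    intro p q hp hpA pq hz
    obtain ⟨x, y, nb⟩ := hc.first (h.sub hp) pq
    have m1 := hz x nb.adj2 nb.1.symm
    have m2 := hz y nb.adj3 nb.2.1.symm
    exact ⟨x, y, nb, m1, m2, c1 p hpA (by simp) ▸ (c2 x m1).ne hc (sA m1) nb.adj2.symm,
      c1 p hpA (by simp) ▸ (c2 y m2).ne hc (sA m2) nb.adj3.symm⟩
  have aA : a ∉ A := by simp [mA]
  have bA : b ∉ A := by simp [mA]
  have eA : e ∉ A := by simp [mA]
  obtain ⟨x1, y1, n1, mx1, my1, f1, g1⟩ := key a u h.ma aA h.au (fun z hz hzq => (mA z).2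
    ⟨fun r => nae (r ▸ hz), fun r => nab (r ▸ hz), hz.ne', by
      by_contra k
      rcases h.only a h.ma z (hcl a (h.sub h.ma) z hz) k hz with r | r | r
      · exact hzq r.2
      · exact ab r.1
      · exact ae r.1⟩)
  obtain ⟨x2, y2, n2, mx2, my2, f2, g2⟩ := key b w h.mb bA h.bw (fun z hz hzq => (mA z).2
    ⟨fun r => nbe (r ▸ hz), hz.ne', fun r => nab (r ▸ hz.symm), by
      by_contra k
      rcases h.only b h.mb z (hcl b (h.sub h.mb) z hz) k hz with r | r | r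
      · exact ab r.1.symm
      · exact hzq r.2
      · exact be r.1⟩)
  obtain ⟨x3, y3, n3, mx3, my3, f3, g3⟩ := key e t h.me eA h.et (fun z hz hzq => (mA z).2
    ⟨hz.ne', fun r => nbe (r ▸ hz.symm), fun r => nae (r ▸ hz.symm), by
      by_contra k
      rcases h.only e h.me z (hcl e (h.sub h.me) z hz) k hz with r | r | r
      · exact ae r.1.symm
      · exact be r.1.symm
      · exact hzq r.2⟩)
  obtain ⟨w1, a1, b1⟩ := row_red _ _ f1 g1
  obtain ⟨w2, a2, b2⟩ := row_red _ _ f2 g2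
  obtain ⟨w3, a3, b3⟩ := row_red _ _ f3 g3
  obtain ⟨i, p1, p2, p3⟩ := cut3_fin _ _ _ _ _ _ row a1 a2 a3
  have dj : ∀ x ∈ A, x ∉ X \ P := fun x hx k => (Finset.mem_sdiff.1 k).2 ((mA x).1 hx).2.2.2
  have na : ∀ x ∈ A, ∀ y ∈ X \ P, ¬ G.Adj x y := by
    intro x hx y hy k
    rw [mA] at hx
    rw [Finset.mem_sdiff] at hy
    rcases h.only x hx.2.2.2 y hy.1 hy.2 k with r | r | r
    · exact hx.2.2.1 r.1
    · exact hx.2.1 r.1
    · exact hx.1 r.1
  refine Col.symPay (T := ∅) (d := d) sA Finset.sdiff_subset na (by simp)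
    (fun v hv => c1 v hv (by simp)) c2 (fun v hv _ => by simp only [d, hv, if_false]) okQ i ?_
  intro s hs' s1 s2
  have sP : s ∈ P := by
    by_contra k; exact s2 (Finset.mem_sdiff.2 ⟨hs', k⟩)
  have ds : d s = 3 := by simp only [d, s2, if_false]
  have : s = a ∨ s = b ∨ s = e := by
    rw [mA] at s1; tauto
  rcases this with rfl | rfl | rfl
  · refine OK.of_nb n1 ?_
    have : u ∉ A := fun k => dj u k mu
    simpa only [s1, this, mx1, my1, if_true, if_false, ds] using b1 i _ p1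
  · refine OK.of_nb n2 ?_
    have : w ∉ A := fun k => dj w k mw
    simpa only [s1, this, mx2, my2, if_true, if_false, ds] using b2 i _ p2
  · refine OK.of_nb n3 ?_
    have : t ∉ A := fun k => dj t k mt
    simpa only [s1, this, mx3, my3, if_true, if_false, ds] using b3 i _ p3

end Pool.Agent.Hom2
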