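import Pool.Agent.Lib.MP_7e4769_co.Hc.TCol

set_option autoImplicit false

namespace Pool.Agent.Hom2

variable {V : Type} {G : SimpleGraph V} {X : Finset V} {n : ℕ} {s : ℕ → ℕ → ℕ} {ph : ℕ → V}

/-- every code of the pattern is backed by the edge list or the stub list -/
def patOK (n R : ℕ) (es : List (ℕ × ℕ)) (st : List ℕ) : Prop :=
  (∀ i < n, ∀ k < 3, sl R i k = 1 → i ∈ st) ∧ ∀ i < n, ∀ k < 3, sl R i k < 2 ∨
    (sl R i k - 2 < n ∧ (es.contains (i, sl R i k - 2) || es.contains (sl R i k - 2, i)) = true)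

instance (n R : ℕ) (es : List (ℕ × ℕ)) (st : List ℕ) : Decidable (patOK n R es st) := by
  unfold patOK; infer_instance

theorem SE.ofList (l : List V) (d : V) {R : ℕ} (es : List (ℕ × ℕ)) (st : List ℕ)
    (hl : l.length = n) (chk : patOK n R es st) (hm : ∀ v ∈ l, v ∈ X) (hn : l.Nodup)
    (he : ∀ e ∈ es, G.Adj (l.getD e.1 d) (l.getD e.2 d))
    (hs : ∀ i ∈ st, ∃ y, y ∉ X ∧ G.Adj (l.getD i d) y) :
    SE G X n (sl R) (fun i => l.getD i d) := by
  subst hl
  refine ⟨fun i hi => ?_, fun i hi j hj e => ?_, fun i hi k hk e => hs i (chk.1 i hi k hk e),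
    fun i hi k hk y e => ?_⟩
  · rw [List.getD_eq_getElem _ _ hi]; exact hm _ (List.getElem_mem hi)
  · rw [List.getD_eq_getElem _ _ hi, List.getD_eq_getElem _ _ hj] at e
    exact (hn.getElem_inj_iff).1 e
  · obtain ⟨a, b⟩ := (chk.2 i hi k hk).resolve_left (by omega)
    rw [e, Nat.add_sub_cancel] at a b
    rw [Bool.or_eq_true, List.contains_iff_mem, List.contains_iff_mem] at b
    exact ⟨a, b.elim (fun r => he _ r) (fun r => (he _ r).symm)⟩

theorem TwoEC.cut1 (h2 : TwoEC G X) {A : Finset V} {a z : V} (hA : A ⊆ X) (ha : a ∈ A) (hz : z ∈ X)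
    (hz' : z ∉ A) (ho : Only G X A a z) : False :=
  h2.2 A hA ⟨a, ha⟩ (fun e => hz' (e ▸ hz)) a z ho

/-- a vertex has at most one stub -/
theorem TwoEC.deg2 (h2 : TwoEC G X) {v x y t : V} (hv : v ∈ X) (hn : Nb G v x t y) (ht : t ∉ X) :
    y ∈ X := by
  by_contra hy
  obtain ⟨a, ha, b, hb, ab⟩ := h2.1
  refine h2.2 {v} (by simpa using hv) ⟨v, by simp⟩ (fun e => ?_) v x (fun c hc w hw _ r => ?_)
  · rw [← e, Finset.mem_singleton] at ha hb
    exact ab (ha.trans hb.symm)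
  · obtain rfl := Finset.mem_singleton.1 hc
    rcases hn.cases r with q | q | q
    · exact ⟨rfl, q⟩
    · exact absurd (q ▸ hw) ht
    · exact absurd (q ▸ hw) hy

theorem TwoEC.stub_eq (h2 : TwoEC G X) (hc : Cub G X) {v y t : V} (hv : v ∈ X) (ht : t ∉ X)
    (hy : y ∉ X) (a : G.Adj v t) (b : G.Adj v y) : y = t := by
  by_contra ne
  obtain ⟨z, hn⟩ := hc.second hv a b (Ne.symm ne)
  exact hy (h2.deg2 hv hn.sw2.sw1 ht)

/-- open half-edges become stubs -/
def cls (s : ℕ → ℕ → ℕ) (i k : ℕ) : ℕ := bif Nat.beq (s i k) 0 then 1 else s i k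

/-- only vertex `o` is not full; it has two pattern neighbours, and no other vertex lists it -/
def clsOK (n : ℕ) (s : ℕ → ℕ → ℕ) (o : ℕ) : Prop :=
  o < n ∧ 2 ≤ s o 0 ∧ 2 ≤ s o 1 ∧ s o 0 ≠ s o 1 ∧ ∀ i < n, (i = o ∨ full s i = true) ∧
    (hasC s i (o + 2) = true → i + 2 = s o 0 ∨ i + 2 = s o 1)

instance (n : ℕ) (s : ℕ → ℕ → ℕ) (o : ℕ) : Decidable (clsOK n s o) := by
  unfold clsOK; infer_instance

/-- the last open half-edge of a pattern is a stub -/
theorem SE.close (E : SE G X n s ph) (hc : Cub G X) (h2 : TwoEC G X) {o : ℕ} (h : clsOK n s o) :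
    SE G X n (cls s) ph := by
  classical
  obtain ⟨ho, a0, a1, a2, al⟩ := h
  obtain ⟨b0, c0⟩ := E.edge o ho 0 (by omega) (s o 0 - 2) (by omega)
  obtain ⟨b1, c1⟩ := E.edge o ho 1 (by omega) (s o 1 - 2) (by omega)
  obtain ⟨z, hn⟩ := hc.second (E.mem o ho) c0 c1 (fun e => by have := E.inj _ b0 _ b1 e; omega)
  have hm : ∀ v, v ∈ (Finset.range n).image ph ↔ ∃ i < n, ph i = v := fun v => by simp
  have zo : z ∉ (Finset.range n).image ph := fun r => by
    obtain ⟨i, hi, rfl⟩ := (hm z).1 r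
    rcases (al i hi).1 with q | q
    · exact hn.adj3.ne (q ▸ rfl)
    · obtain ⟨k, hk, r | ⟨y, hy, r1, r2⟩⟩ := E.cases hc hi q hn.adj3.symm
      · exact r.2 (E.mem o ho)
      · obtain rfl := E.inj _ ho _ hy r2
        rcases (al i hi).2 ((hasC_iff _ _ _).2 ⟨k, hk, r1⟩) with t | t
        · exact hn.2.1 (by rw [← t]; rfl)
        · exact hn.2.2.1 (by rw [← t]; rfl)
  have hz : z ∉ X := fun hz => h2.cut1 (A := (Finset.range n).image ph) (a := ph o)
    (fun v hv => by obtain ⟨i, hi, rfl⟩ := (hm v).1 hv; exact E.mem i hi) ((hm _).2 ⟨o, ho, rfl⟩) hz zo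
    (fun x hx y hy hy' r => by
      obtain ⟨i, hi, rfl⟩ := (hm x).1 hx
      rcases (al i hi).1 with q | q
      · subst q
        rcases hn.cases r with t | t | t
        · exact absurd ((hm _).2 ⟨_, b0, t.symm⟩) hy'
        · exact absurd ((hm _).2 ⟨_, b1, t.symm⟩) hy'
        · exact ⟨rfl, t⟩
      · obtain ⟨k, hk, t | ⟨j, hj, -, t⟩⟩ := E.cases hc hi q r
        · exact absurd hy t.2
        · exact absurd ((hm _).2 ⟨j, hj, t.symm⟩) hy')
  have ce : ∀ i k, cls s i k = if s i k = 0 then 1 else s i k := fun i k => by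
    simp only [cls, Bool.cond_eq_ite, Nat.beq_eq]
  refine ⟨E.mem, E.inj, fun i hi k hk e => ?_, fun i hi k hk y e => ?_⟩
  · rw [ce] at e
    split_ifs at e with c
    · rcases (al i hi).1 with q | q
      · exact ⟨z, hz, q ▸ hn.adj3⟩
      · exact absurd c (((full_iff _ _).1 q).1 k hk)
    · exact E.stub i hi k hk e
  · rw [ce] at e
    split_ifs at e with c
    · omega
    · exact E.edge i hi k hk y e

end Pool.Agent.Hom2
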