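import Pool.Agent.Lib.MP_7e4769_co.Hc.UW
import Pool.Agent.Lib.MP_7e4769_co.Hc.Cut
import Pool.Agent.Lib.MP_7e4769_co.Hc.TFF
import Pool.Agent.Lib.MP_7e4769_co.Hc.TMk

set_option autoImplicit false

namespace Pool.Agent.Hom2.UC

open Classical

variable {V : Type} {G : SimpleGraph V} {X : Finset V}

def house : ℕ := 78896878930792898575728963
def d7a : ℕ := 105144490470251122801013784721252611
def d7b : ℕ := 125913678059132347929997945694871811
def d7c : ℕ := 146723430157736456874295291151933699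
def f7 : ℕ := 8122050999896432225443545113971654915

/-- the edges that leave `A` inside `X` -/
noncomputable def ce (G : SimpleGraph V) (X A : Finset V) : Finset (V × V) :=
  (A ×ˢ X).filter (fun p => p.2 ∉ A ∧ G.Adj p.1 p.2)

theorem mem_ce {A : Finset V} {p : V × V} :
    p ∈ ce G X A ↔ p.1 ∈ A ∧ p.2 ∈ X ∧ p.2 ∉ A ∧ G.Adj p.1 p.2 := by
  simp only [ce, Finset.mem_filter, Finset.mem_product, and_assoc]

theorem ce_card (A : Finset V) : (ce G X A).card = Sc.ecut G X A := by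
  unfold ce Sc.ecut Sc.out
  rw [Finset.card_filter, Finset.sum_product]
  exact Finset.sum_congr rfl (fun x _ => (Finset.card_filter _ _).symm)

theorem ce_compl {A : Finset V} (hA : A ⊆ X) : (ce G X (X \ A)).card = (ce G X A).card := by
  refine Finset.card_bij (fun p _ => p.swap) (fun p hp => ?_) (fun p _ q _ e => Prod.swap_injective e)
    (fun q hq => ⟨q.swap, ?_, q.swap_swap⟩)
  · rw [mem_ce, Finset.mem_sdiff, Finset.mem_sdiff] at hp
    rw [mem_ce]
    exact ⟨by tauto, hp.1.1, hp.1.2, hp.2.2.2.symm⟩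
  · rw [mem_ce] at hq
    rw [mem_ce, Finset.mem_sdiff, Finset.mem_sdiff]
    exact ⟨⟨hq.2.1, hq.2.2.1⟩, hA hq.1, fun r => r.2 hq.1, hq.2.2.2.symm⟩

theorem ce_single (cx : Cx G X 2) {v : V} (hv : v ∈ X) : 3 ≤ (ce G X {v}).card := by
  obtain ⟨x, y, z, n⟩ := cx.cub v hv
  have m : ∀ s, G.Adj v s → (v, s) ∈ ce G X {v} := fun s a =>
    mem_ce.2 ⟨by simp, cx.cl le_rfl v hv s a, by simpa using a.ne', a⟩
  exact Finset.two_lt_card_iff.2 ⟨_, _, _, m x n.adj1, m y n.adj2, m z n.adj3, by simp [n.1],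
    by simp [n.2.1], by simp [n.2.2.1]⟩

/-- at least three edges leave every proper part -/
theorem ce_three (cx : Cx G X 2) {A : Finset V} (hA : A ⊆ X) (hne : A.Nonempty) (hne' : A ≠ X) :
    3 ≤ (ce G X A).card := by
  have c1 := Finset.card_pos.2 hne
  have c2 := Finset.card_lt_card (Finset.ssubset_iff_subset_ne.2 ⟨hA, hne'⟩)
  by_cases e : A.card = 1
  · obtain ⟨v, rfl⟩ := Finset.card_eq_one.1 e
    exact ce_single cx (hA (by simp))
  by_cases f : (X \ A).card = 1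
  · obtain ⟨v, hv⟩ := Finset.card_eq_one.1 f
    rw [← ce_compl hA, hv]
    exact ce_single cx (Finset.sdiff_subset (hv ▸ Finset.mem_singleton_self v : v ∈ X \ A))
  rw [Finset.card_sdiff_of_subset hA] at f
  rw [ce_card]
  exact cx.e3 (by omega) A hA (by omega) (by omega)

/-- the cuts of the two sides of `R`, if only the edges in `L` join them -/
theorem ce_split {R A : Finset V} (hA : A ⊆ R) (L : Finset (V × V))
    (h : ∀ x ∈ A, ∀ y ∈ R, y ∉ A → G.Adj x y → (x, y) ∈ L) :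
    (ce G X A).card + (ce G X (R \ A)).card ≤ (ce G X R).card + 2 * L.card := by
  have h1 : ce G X A ⊆ (ce G X R).filter (fun p => p.1 ∈ A) ∪ L := fun p hp => by
    rw [mem_ce] at hp
    rw [Finset.mem_union, Finset.mem_filter, mem_ce]
    by_cases e : p.2 ∈ R
    · exact Or.inr (h _ hp.1 _ e hp.2.2.1 hp.2.2.2)
    · exact Or.inl ⟨⟨hA hp.1, hp.2.1, e, hp.2.2.2⟩, hp.1⟩
  have h2 : ce G X (R \ A) ⊆ (ce G X R).filter (fun p => ¬ p.1 ∈ A) ∪ L.image Prod.swap := fun p hp => by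
    rw [mem_ce, Finset.mem_sdiff, Finset.mem_sdiff] at hp
    rw [Finset.mem_union, Finset.mem_filter, mem_ce]
    by_cases e : p.2 ∈ R
    · exact Or.inr (Finset.mem_image.2 ⟨_, h p.2 (by tauto) p.1 hp.1.1 hp.1.2 hp.2.2.2.symm, rfl⟩)
    · exact Or.inl ⟨⟨hp.1.1, hp.2.1, e, hp.2.2.2⟩, hp.1.2⟩
  have c1 := (Finset.card_le_card h1).trans (Finset.card_union_le _ _)
  have c2 := (Finset.card_le_card h2).trans (Finset.card_union_le _ _)
  have c3 := Finset.card_image_le (s := L) (f := Prod.swap)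
  have c4 := Finset.card_filter_add_card_filter_not (s := ce G X R) (fun p => p.1 ∈ A)
  omega

theorem ce_sides (cx : Cx G X 2) {R A : Finset V} (hR : R ⊆ X) (hA : A ⊆ R) (hne : A.Nonempty)
    (hne' : A ≠ R) : 3 ≤ (ce G X A).card ∧ 3 ≤ (ce G X (R \ A)).card := by
  have n1 : (R \ A).Nonempty :=
    Finset.sdiff_nonempty.2 (fun s => hne' (Finset.Subset.antisymm hA s))
  obtain ⟨v, hv⟩ := id hne
  exact ⟨ce_three cx (hA.trans hR) hne (fun e => hne' (Finset.Subset.antisymm hA (e ▸ hR))),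
    ce_three cx (Finset.sdiff_subset.trans hR) n1
      (fun e => (Finset.mem_sdiff.1 (e ▸ hR (hA hv) : v ∈ R \ A)).2 hv)⟩

/-- a part with a cut of at most five edges is connected -/
theorem ce_conn (cx : Cx G X 2) {R : Finset V} (hR : R ⊆ X) (h : (ce G X R).card ≤ 5) : Conn G R := by
  intro A hA hne hne'
  by_contra e
  have c := ce_split (G := G) (X := X) hA ∅
    (fun x hx y hy hy' a => absurd ⟨x, hx, y, hy, hy', a⟩ e)
  have := ce_sides cx hR hA hne hne'
  rw [Finset.card_empty] at c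
  omega

theorem ce_only {R A : Finset V} (hA : A ⊆ R) {x y : V} (h : Only G R A x y) :
    (ce G X A).card + (ce G X (R \ A)).card ≤ (ce G X R).card + 2 := by
  simpa using ce_split (G := G) (X := X) hA {(x, y)}
    (fun s hs t ht ht' a => by simpa using h s hs t ht ht' a)

/-- a part with two vertices and a cut of three edges is 2-edge-connected -/
theorem ce_two (cx : Cx G X 2) {R : Finset V} (hR : R ⊆ X) (h : (ce G X R).card ≤ 3)
    (h2 : ∃ a ∈ R, ∃ b ∈ R, a ≠ b) : TwoEC G R := by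
  refine ⟨h2, fun A hA hne hne' x y ho => ?_⟩
  have := ce_only (X := X) hA ho
  have := ce_sides cx hR hA hne hne'
  omega

theorem outs_le (W : Finset V) : (Outs G X W).card ≤ (ce G X W).card := by
  refine le_trans (Finset.card_le_card (fun y hy => ?_)) (Finset.card_image_le (f := Prod.fst))
  obtain ⟨h1, x, hx, h2, h3⟩ := Finset.mem_filter.1 hy
  exact Finset.mem_image.2 ⟨(y, x), mem_ce.2 ⟨h1, hx, h2, h3⟩, rfl⟩

/-- `W` is the triangle `x y z` -/
structure Tri (G : SimpleGraph V) (W : Finset V) (x y z : V) : Prop where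
  mem : ∀ v, v ∈ W ↔ v = x ∨ v = y ∨ v = z
  xy : G.Adj x y
  xz : G.Adj x z
  yz : G.Adj y z

theorem Tri.sw {W : Finset V} {x y z : V} (h : Tri G W x y z) : Tri G W x z y :=
  ⟨fun v => by rw [h.mem]; tauto, h.xz, h.xy, h.yz.symm⟩

theorem tri_of {W : Finset V} (hc : Cub G W) (h2 : TwoEC G W) (h : HasM G W 7) {x : V} (hx : x ∈ W) :
    ∃ y z, Tri G W x y z := by
  obtain ⟨ph, E⟩ := h
  have on := E.onto hc h2.conn (mem_full (by omega)).1 (mem_full (by omega)).2
  have n : mN 7 = 3 := by decide +kernel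
  rw [n] at E on
  have a01 := (E.edge 0 (by omega) 0 (by omega) 1 (by decide +kernel)).2
  have a02 := (E.edge 0 (by omega) 1 (by omega) 2 (by decide +kernel)).2
  have a12 := (E.edge 1 (by omega) 1 (by omega) 2 (by decide +kernel)).2
  have m : ∀ v, v ∈ W ↔ v = ph 0 ∨ v = ph 1 ∨ v = ph 2 := fun v => by
    constructor
    · intro hv
      obtain ⟨i, hi, rfl⟩ := on v hv
      interval_cases i <;> simp
    · rintro (rfl | rfl | rfl) <;> exact E.mem _ (by omega)
  rcases (m x).1 hx with rfl | rfl | rfl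
  · exact ⟨_, _, m, a01, a02, a12⟩
  · exact ⟨ph 0, ph 2, fun v => by rw [m]; tauto, a01.symm, a12, a02⟩
  · exact ⟨ph 0, ph 1, fun v => by rw [m]; tauto, a02.symm, a12.symm, a01⟩

/-- the domino: two squares on the edge `p0 p1` -/
structure Dom (G : SimpleGraph V) (W : Finset V) (p0 p1 p2 p3 p4 p5 : V) : Prop where
  nd : [p0, p1, p2, p3, p4, p5].Nodup
  mem : ∀ v, v ∈ W ↔ v ∈ [p0, p1, p2, p3, p4, p5]
  a01 : G.Adj p0 p1
  a02 : G.Adj p0 p2
  a04 : G.Adj p0 p4
  a13 : G.Adj p1 p3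
  a15 : G.Adj p1 p5
  a23 : G.Adj p2 p3
  a45 : G.Adj p4 p5

theorem Dom.s1 {W : Finset V} {p0 p1 p2 p3 p4 p5 : V} (h : Dom G W p0 p1 p2 p3 p4 p5) :
    Dom G W p1 p0 p3 p2 p5 p4 :=
  ⟨by have := h.nd; simp only [List.nodup_cons, List.mem_cons] at this ⊢; grind,
    fun v => by rw [h.mem]; simp only [List.mem_cons]; tauto,
    h.a01.symm, h.a13, h.a15, h.a02, h.a04, h.a23.symm, h.a45.symm⟩

theorem Dom.s2 {W : Finset V} {p0 p1 p2 p3 p4 p5 : V} (h : Dom G W p0 p1 p2 p3 p4 p5) :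
    Dom G W p0 p1 p4 p5 p2 p3 :=
  ⟨by have := h.nd; simp only [List.nodup_cons, List.mem_cons] at this ⊢; grind,
    fun v => by rw [h.mem]; simp only [List.mem_cons]; tauto,
    h.a01, h.a04, h.a02, h.a15, h.a13, h.a45, h.a23⟩

theorem dom_of {W : Finset V} (hc : Cub G W) (h2 : TwoEC G W) (h : HasM G W 14) :
    ∃ p0 p1 p2 p3 p4 p5, Dom G W p0 p1 p2 p3 p4 p5 ∧
      ∀ v ∈ [p2, p3, p4, p5], ∃ s, s ∉ W ∧ G.Adj v s := by
  obtain ⟨ph, E⟩ := h
  have on := E.onto hc h2.conn (mem_full (by omega)).1 (mem_full (by omega)).2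
  have n : mN 14 = 6 := by decide +kernel
  rw [n] at E on
  have ad : ∀ i k y : ℕ, i < 6 ∧ k < 3 ∧ sl (mR 14) i k = y + 2 → G.Adj (ph i) (ph y) :=
    fun i k y q => (E.edge i q.1 k q.2.1 y q.2.2).2
  have st : ∀ i : ℕ, i < 6 ∧ sl (mR 14) i 2 = 1 → ∃ s, s ∉ W ∧ G.Adj (ph i) s :=
    fun i q => E.stub i q.1 2 (by omega) q.2
  refine ⟨ph 0, ph 1, ph 2, ph 3, ph 4, ph 5, ⟨?_, fun v => ⟨fun hv => ?_, fun hv => ?_⟩,
    ad 0 0 1 (by decide +kernel), ad 0 1 2 (by decide +kernel), ad 0 2 4 (by decide +kernel),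
    ad 1 1 3 (by decide +kernel), ad 1 2 5 (by decide +kernel), ad 2 1 3 (by decide +kernel),
    ad 4 1 5 (by decide +kernel)⟩, fun v hv => ?_⟩
  · exact List.Nodup.map_on (l := List.range 6)
      (fun i hi j hj => E.inj i (List.mem_range.1 hi) j (List.mem_range.1 hj)) List.nodup_range
  · obtain ⟨i, hi, rfl⟩ := on v hv
    exact List.mem_map_of_mem (l := List.range 6) (List.mem_range.2 hi)
  · obtain ⟨i, hi, rfl⟩ := (List.mem_map (l := List.range 6)).1 hv
    exact E.mem i (List.mem_range.1 hi)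
  · simp only [List.mem_cons, List.not_mem_nil, or_false] at hv
    rcases hv with rfl | rfl | rfl | rfl <;> exact st _ (by decide +kernel)

/-- the domino and one more vertex -/
theorem Dom.se {W : Finset V} {p0 p1 p2 p3 p4 p5 a : V} (h : Dom G W p0 p1 p2 p3 p4 p5) (hW : W ⊆ X)
    (ha : a ∈ X) (na : a ∉ W) {R : ℕ} (i j : ℕ)
    (chk : patOK 7 R [(0, 1), (0, 2), (0, 4), (1, 3), (1, 5), (2, 3), (4, 5), (6, i), (6, j)] [])
    (ai : G.Adj a ([p0, p1, p2, p3, p4, p5, a].getD i a))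
    (aj : G.Adj a ([p0, p1, p2, p3, p4, p5, a].getD j a)) : ∃ ph, SE G X 7 (sl R) ph := by
  refine ⟨_, SE.ofList [p0, p1, p2, p3, p4, p5, a] a _ _ rfl chk (fun v hv => ?_) ?_ (fun e he => ?_)
    (by simp)⟩
  · rcases List.mem_append.1 (show v ∈ [p0, p1, p2, p3, p4, p5] ++ [a] from hv) with r | r
    · exact hW ((h.mem v).2 r)
    · rwa [List.mem_singleton.1 r]
  · show ([p0, p1, p2, p3, p4, p5] ++ [a]).Nodup
    rw [List.nodup_append]
    exact ⟨h.nd, List.nodup_singleton a, fun s hs t ht e =>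
      na (List.mem_singleton.1 ht ▸ e ▸ (h.mem s).2 hs)⟩
  · simp only [List.mem_cons, List.not_mem_nil, or_false] at he
    rcases he with rfl | rfl | rfl | rfl | rfl | rfl | rfl | rfl | rfl
    exacts [h.a01, h.a02, h.a04, h.a13, h.a15, h.a23, h.a45, ai, aj]

theorem Dom.port {W : Finset V} {p0 p1 p2 p3 p4 p5 a v : V} (h : Dom G W p0 p1 p2 p3 p4 p5)
    (hc : Cub G W) (na : a ∉ W) (hv : v ∈ W) (av : G.Adj a v) : v = p2 ∨ v = p3 ∨ v = p4 ∨ v = p5 := by
  have key : ∀ {q0 q1 q2 q3 q4 q5 : V}, Dom G W q0 q1 q2 q3 q4 q5 → ¬ G.Adj a q0 := by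
    intro q0 q1 q2 q3 q4 q5 d r
    obtain ⟨x, y, z, n⟩ := hc q0 ((d.mem _).2 (by simp))
    have nd := d.nd
    simp only [List.nodup_cons, List.mem_cons, not_or] at nd
    rcases (n.of_adj d.a01 d.a02 d.a04 nd.2.1.1 nd.2.1.2.2.1 nd.2.2.1.2.1).cases r.symm with q | q | q <;>
      exact na ((d.mem _).2 (by simp [q]))
  have := (h.mem v).1 hv
  simp only [List.mem_cons, List.not_mem_nil, or_false] at this
  rcases this with rfl | rfl | r
  · exact absurd av (key h)
  · exact absurd av (key h.s1)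
  · exact r

theorem Dom.tg {W : Finset V} {p0 p1 p2 p3 p4 p5 a s t : V} (h : Dom G W p0 p1 p2 p3 p4 p5)
    (hc : Cub G W) (hW : W ⊆ X) (ha : a ∈ X) (na : a ∉ W)
    (q1 : ∀ ph, SE G X 7 (sl d7a) ph → TG G X) (q2 : ∀ ph, SE G X 7 (sl d7b) ph → TG G X)
    (q3 : ∀ ph, SE G X 7 (sl d7c) ph → TG G X) (hs : s ∈ W) (ht : t ∈ W) (st : s ≠ t)
    (a1 : G.Adj a s) (a2 : G.Adj a t) : TG G X := by
  have k1 : ∀ {q0 q1 q2 q3 q4 q5 : V}, Dom G W q0 q1 q2 q3 q4 q5 → G.Adj a q2 → G.Adj a q3 → TG G X :=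
    fun d x y => (d.se hW ha na 2 3 (by decide +kernel) x y).elim q1
  have k2 : ∀ {q0 q1 q2 q3 q4 q5 : V}, Dom G W q0 q1 q2 q3 q4 q5 → G.Adj a q2 → G.Adj a q4 → TG G X :=
    fun d x y => (d.se hW ha na 2 4 (by decide +kernel) x y).elim q2
  have k3 : ∀ {q0 q1 q2 q3 q4 q5 : V}, Dom G W q0 q1 q2 q3 q4 q5 → G.Adj a q2 → G.Adj a q5 → TG G X :=
    fun d x y => (d.se hW ha na 2 5 (by decide +kernel) x y).elim q3
  rcases h.port hc na hs a1 with rfl | rfl | rfl | rfl <;>
    rcases h.port hc na ht a2 with rfl | rfl | rfl | rfl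
  exacts [absurd rfl st, k1 h a1 a2, k2 h a1 a2, k3 h a1 a2, k1 h a2 a1, absurd rfl st, k3 h.s1 a1 a2,
    k2 h.s1 a1 a2, k2 h a2 a1, k3 h.s1 a2 a1, absurd rfl st, k1 h.s2 a1 a2, k3 h a2 a1, k2 h.s1 a2 a1,
    k1 h.s2 a2 a1, absurd rfl st]

/-- a bad part with a cut of three edges is a vertex or a triangle -/
theorem side3 (cx : Cx G X 2)
    (h4 : ∀ W ⊆ X, TwoEC G W → ¬ Good G W → Two X W → (Outs G X W).card ≤ 4 →
      TG G X ∨ HasM G W 7 ∨ HasM G W 14) {W : Finset V} (hW : W ⊆ X) (h3 : (ce G X W).card ≤ 3)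
    (hb : ¬ Good G W) (tw : Two X W) {x : V} (hx : x ∈ W) :
    TG G X ∨ (∀ v ∈ W, v = x) ∨ (TwoEC G W ∧ ∃ y z, Tri G W x y z) := by
  by_cases e : ∀ v ∈ W, v = x
  · exact Or.inr (Or.inl e)
  push Not at e
  obtain ⟨v, hv, vx⟩ := e
  have h2 := ce_two cx hW h3 ⟨v, hv, x, hx, vx⟩
  rcases h4 W hW h2 hb tw ((outs_le W).trans (by omega)) with g | g | g
  · exact Or.inl g
  · exact Or.inr (Or.inr ⟨h2, tri_of (cx.cub.mono hW) h2 g hx⟩)
  · exfalso
    obtain ⟨p0, p1, p2, p3, p4, p5, d, st⟩ := dom_of (cx.cub.mono hW) h2 g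
    have nd : [p2, p3, p4, p5].Nodup := d.nd.of_cons.of_cons
    have sub : [p2, p3, p4, p5].toFinset ⊆ Outs G X W := fun s hs => by
      rw [List.mem_toFinset] at hs
      obtain ⟨t, t1, t2⟩ := st s hs
      have m : s ∈ W := (d.mem s).2 (List.mem_cons_of_mem _ (List.mem_cons_of_mem _ hs))
      exact Finset.mem_filter.2 ⟨m, t, cx.cl le_rfl s (hW m) t t2, t1, t2⟩
    have c := (Finset.card_le_card sub).trans (outs_le W)
    rw [List.toFinset_card_of_nodup nd] at c
    simp only [List.length_cons, List.length_nil] at c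
    omega

/-- the neighbour `s` of the outer vertex `a` in a triangle whose vertex `x` carries the edge `x y` -/
theorem Tri.pick {W : Finset V} {x p q y a s : V} (h : Tri G W x p q) (hc : Cub G W) (h2 : TwoEC G W)
    (ny : y ∉ W) (xy : G.Adj x y) (na : a ∉ W) (ya : y ≠ a) (hs : s ∈ W) (as' : G.Adj a s) :
    ∃ r, Tri G W x s r := by
  rcases (h.mem s).1 hs with rfl | rfl | rfl
  · exact absurd (out_unique hc h2 hs ny na xy as'.symm) ya
  · exact ⟨_, h⟩
  · exact ⟨_, h.sw⟩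

/-- a 3-pole without one of its ports is good -/
theorem nonreg (cx : Cx G X 2)
    (h4 : ∀ W ⊆ X, TwoEC G W → ¬ Good G W → Two X W → (Outs G X W).card ≤ 4 →
      TG G X ∨ HasM G W 7 ∨ HasM G W 14)
    (p0 : ∀ ph, SE G X 5 (sl house) ph → TG G X) (p1 : ∀ ph, SE G X 7 (sl d7a) ph → TG G X)
    (p2 : ∀ ph, SE G X 7 (sl d7b) ph → TG G X) (p3 : ∀ ph, SE G X 7 (sl d7c) ph → TG G X)
    (p4 : ∀ ph, SE G X 7 (sl f7) ph → TG G X) {P : Finset V} {a u b w e t : V}
    (h : Pole3 G X P a u b w e t) (ab : a ≠ b) (ae : a ≠ e) (be : b ≠ e) :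
    Good G (P.erase a) ∨ TG G X := by
  by_contra con
  rw [not_or] at con
  obtain ⟨hb, ng⟩ := con
  have aX := h.sub h.ma
  obtain ⟨s, s', na⟩ := cx.cub.first aX h.au
  generalize hR : P.erase a = R at hb
  have mR : ∀ v, v ∈ R ↔ v ≠ a ∧ v ∈ P := fun v => by rw [← hR, Finset.mem_erase]
  have RX : R ⊆ X := fun v hv => h.sub ((mR v).1 hv).2
  have aR : a ∉ R := fun r => ((mR a).1 r).1 rfl
  have uR : u ∉ R := fun r => h.nu ((mR u).1 r).2
  have wR : w ∉ R := fun r => h.nw ((mR w).1 r).2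
  have inR : ∀ v, G.Adj a v → v ≠ u → v ∈ R := fun v av vu => (mR v).2 ⟨av.ne', by
    by_contra r
    rcases h.only a h.ma v (cx.cl le_rfl a aX v av) r av with q | q | q
    · exact vu q.2
    · exact ab q.1
    · exact ae q.1⟩
  have sR := inR s na.adj2 na.1.symm
  have sR' := inR s' na.adj3 na.2.1.symm
  have bR : b ∈ R := (mR b).2 ⟨ab.symm, h.mb⟩
  have eR : e ∈ R := (mR e).2 ⟨ae.symm, h.me⟩
  have out : ∀ x ∈ R, ∀ y, y ∉ R → G.Adj x y → y = a ∨ (x = b ∧ y = w) ∨ (x = e ∧ y = t) := by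
    intro x hx y hy r
    by_cases q : y = a
    · exact Or.inl q
    · rcases h.only x ((mR x).1 hx).2 y (cx.cl le_rfl x (RX hx) y r) (fun m => hy ((mR y).2 ⟨q, m⟩)) r
        with o | o
      · exact absurd o.1 ((mR x).1 hx).1
      · exact Or.inr o
  have nbr : ∀ x ∈ R, G.Adj a x → x = s ∨ x = s' := fun x hx r =>
    (na.cases r).resolve_left (fun q => uR (q ▸ hx))
  have c4 : (ce G X R).card ≤ 4 := by
    refine le_trans (Finset.card_le_card (t := {(s, a), (s', a), (b, w), (e, t)}) (fun p hp => ?_))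
      Finset.card_le_four
    obtain ⟨x, y⟩ := p
    obtain ⟨m1, -, m3, m4⟩ := mem_ce.1 hp
    rcases out x m1 y m3 m4 with rfl | ⟨rfl, rfl⟩ | ⟨rfl, rfl⟩
    · rcases nbr x m1 m4.symm with rfl | rfl <;> simp
    · simp
    · simp
  have two : ∀ W ⊆ R, Two X W := fun W hW =>
    ⟨a, aX, u, h.mu, fun r => aR (hW r), fun r => uR (hW r), h.au.ne⟩
  have cR := cx.cub.mono RX
  by_cases h2 : TwoEC G R
  · rcases h4 R RX h2 hb (two R subset_rfl) ((outs_le R).trans c4) with g | g | g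
    · exact ng g
    · obtain ⟨y, z, T⟩ := tri_of cR h2 g sR
      have d : ∀ x ∈ R, G.Adj a x → x ≠ b ∧ x ≠ e := fun x hx r =>
        ⟨fun q => h.nw (out_unique cR h2 hx aR wR r.symm (q ▸ h.bw) ▸ h.ma),
          fun q => h.nt (out_unique cR h2 hx aR (fun m => h.nt ((mR t).1 m).2) r.symm (q ▸ h.et) ▸ h.ma)⟩
      have d1 := d s sR na.adj2
      have d2 := d s' sR' na.adj3
      have m1 := (T.mem s').1 sR'
      have m2 := (T.mem b).1 bR
      have m3 := (T.mem e).1 eR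
      have := na.2.2.1
      grind
    · obtain ⟨q0, q1, q2, q3, q4, q5, d, -⟩ := dom_of cR h2 g
      exact ng (d.tg cR RX aX aR p1 p2 p3 sR sR' na.2.2.1 na.adj2 na.adj3)
  have hcon := ce_conn cx RX (by omega)
  have hF := cx.hf R RX (fun q => aR (q ▸ aX))
  unfold TwoEC at h2
  rw [not_and_or] at h2
  rcases h2 with h2 | h2
  · exact h2 ⟨s, sR, s', sR', na.2.2.1⟩
  push Not at h2
  obtain ⟨A, hA, hne, hne', x, y, ho⟩ := h2
  obtain ⟨e1, e2, e3, e4⟩ := ho.edge hcon hA hne hne'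
  have c6 := ce_only (X := X) hA ho
  have c3 := ce_sides cx RX hA hne hne'
  have yB : y ∈ R \ A := Finset.mem_sdiff.2 ⟨e2, e3⟩
  have bA : ¬ Good G A := fun g => hb (root_one cR hF subset_rfl hcon hA hne ho g (by simp))
  have bB : ¬ Good G (R \ A) := fun g =>
    hb (root_one cR hF subset_rfl hcon Finset.sdiff_subset ⟨y, yB⟩ (ho.compl hA) g (by simp))
  -- a single vertex against a triangle
  have hou : ∀ {C : Finset V} {x y y1 y2 : V}, C ⊆ R → (∀ v ∈ R, v ∉ C → v = x) → x ∈ R → x ∉ C →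
      G.Adj x y → Only G R C y x → TwoEC G C → Tri G C y y1 y2 → False := by
    intro C x y y1 y2 hC one xR xC xy oc tC T
    have xa : x ≠ a := fun q => aR (q ▸ xR)
    have ax : G.Adj a x := by
      by_contra r
      obtain ⟨k, k', n⟩ := cR.first xR xy
      have o : ∀ v, G.Adj x v → v ≠ y → (x = b ∧ v = w) ∨ (x = e ∧ v = t) := fun v xv vy =>
        (out x xR v (fun m => by
          by_cases c : v ∈ C
          · exact vy (oc v c x xR xC xv.symm).1
          · exact xv.ne' (one v m c)) xv).resolve_left (fun q => r (q ▸ xv.symm))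
      have o1 := o k n.adj2 n.1.symm
      have o2 := o k' n.adj3 n.2.1.symm
      have := n.2.2.1
      grind
    obtain ⟨z, zC, az⟩ : ∃ z ∈ C, G.Adj a z := by
      by_cases c : s ∈ C
      · exact ⟨s, c, na.adj2⟩
      · refine ⟨s', ?_, na.adj3⟩
        by_contra c'
        exact na.2.2.1 ((one s sR c).trans (one s' sR' c').symm)
    obtain ⟨r, T'⟩ := T.pick (cR.mono hC) tC xC xy.symm (fun m => aR (hC m)) xa zC az
    have my := (T'.mem y).2 (by simp)
    have mr := (T'.mem r).2 (by simp)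
    refine ng (p0 _ (SE.ofList [x, a, r, y, z] a [(0, 1), (0, 3), (1, 4), (2, 3), (2, 4), (3, 4)] [] rfl
      (by decide +kernel) (fun v hv => ?_) ?_ (fun q hq => ?_) (by simp)))
    · simp only [List.mem_cons, List.not_mem_nil, or_false] at hv
      rcases hv with rfl | rfl | rfl | rfl | rfl
      exacts [RX xR, aX, RX (hC mr), RX (hC my), RX (hC zC)]
    · have n1 : ∀ v ∈ C, x ≠ v ∧ a ≠ v := fun v hv =>
        ⟨fun q => xC (q ▸ hv), fun q => aR (hC (q ▸ hv))⟩
      simp [xa, n1 r mr, n1 y my, n1 z zC, T'.xy.ne, T'.xz.ne', T'.yz.ne']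
    · simp only [List.mem_cons, List.not_mem_nil, or_false] at hq
      rcases hq with rfl | rfl | rfl | rfl | rfl | rfl
      exacts [ax.symm, xy, az, T'.xz.symm, T'.yz.symm, T'.xy]
  -- both neighbours of `a` in one triangle
  have same : ∀ {C : Finset V} {x y x1 x2 : V}, C ⊆ R → y ∈ R → y ∉ C → G.Adj x y → TwoEC G C →
      Tri G C x x1 x2 → s ∈ C → s' ∈ C → False := by
    intro C x y x1 x2 hC yR yC xy tC T m m'
    have aC : a ∉ C := fun q => aR (hC q)
    have ya : y ≠ a := fun q => aR (q ▸ yR)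
    have k := ce_three cx (A := insert a C) (Finset.insert_subset aX (hC.trans RX)) (by simp)
      (fun q => by
        have : u ∈ insert a C := q ▸ h.mu
        rcases Finset.mem_insert.1 this with r | r
        · exact h.au.ne' r
        · exact uR (hC r))
    have k2 : (ce G X (insert a C)).card ≤ 2 := by
      refine le_trans (Finset.card_le_card (t := {(a, u), (x, y)}) (fun p hp => ?_)) Finset.card_le_two
      obtain ⟨v, z⟩ := p
      obtain ⟨m1, -, m3, m4⟩ := mem_ce.1 hp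
      simp only [Finset.mem_insert, not_or] at m1 m3
      rcases m1 with rfl | m1
      · rcases na.cases m4 with rfl | rfl | rfl
        · simp
        · exact absurd m m3.2
        · exact absurd m' m3.2
      · have u1 : ∀ r ∈ C, G.Adj a r → v ≠ r := fun r hr ar q =>
          m3.1 (out_unique (cR.mono hC) tC m1 m3.2 aC m4 (q ▸ ar.symm))
        have u2 : ∀ r ∈ C, G.Adj a r → r ≠ x := fun r hr ar q =>
          ya (out_unique (cR.mono hC) tC hr yC aC (q ▸ xy) ar.symm)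
        have vx : v = x := by
          have := u1 s m na.adj2
          have := u1 s' m' na.adj3
          have := u2 s m na.adj2
          have := u2 s' m' na.adj3
          have := (T.mem v).1 m1
          have := (T.mem s).1 m
          have := (T.mem s').1 m'
          have := na.2.2.1
          grind
        subst vx
        rw [out_unique (cR.mono hC) tC m1 m3.2 yC m4 xy]
        simp
    omega
  -- one neighbour in each triangle
  have sev : ∀ {x1 x2 y1 y2 z z' : V}, TwoEC G A → TwoEC G (R \ A) → Tri G A x x1 x2 →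
      Tri G (R \ A) y y1 y2 → z ∈ A → z' ∈ R \ A → G.Adj a z → G.Adj a z' → False := by
    intro x1 x2 y1 y2 z z' tA tB T U m m' az az'
    have xB : x ∉ R \ A := fun q => (Finset.mem_sdiff.1 q).2 e1
    have aB : a ∉ R \ A := fun q => aR (Finset.mem_sdiff.1 q).1
    obtain ⟨r, T'⟩ := T.pick (cR.mono hA) tA e3 e4 (fun q => aR (hA q)) (fun q => aR (q ▸ e2)) m az
    obtain ⟨r', U'⟩ := U.pick (cR.mono Finset.sdiff_subset) tB xB e4.symm aB
      (fun q => aR (hA (q ▸ e1))) m' az'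
    have mr := (T'.mem r).2 (by simp)
    have mr' := (U'.mem r').2 (by simp)
    refine ng (p4 _ (SE.ofList [a, z, z', r, x, r', y] a
      [(0, 1), (0, 2), (1, 3), (1, 4), (2, 5), (2, 6), (3, 4), (4, 6), (5, 6)] [] rfl
      (by decide +kernel) (fun v hv => ?_) ?_ (fun q hq => ?_) (by simp)))
    · simp only [List.mem_cons, List.not_mem_nil, or_false] at hv
      rcases hv with rfl | rfl | rfl | rfl | rfl | rfl | rfl
      exacts [aX, RX (hA m), RX (Finset.mem_sdiff.1 m').1, RX (hA mr), RX (hA e1),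
        RX (Finset.mem_sdiff.1 mr').1, RX e2]
    · have n1 : ∀ v ∈ A, a ≠ v ∧ ∀ v' ∈ R \ A, v ≠ v' ∧ v' ≠ v ∧ a ≠ v' := fun v hv =>
        ⟨fun q => aR (hA (q ▸ hv)), fun v' hv' => ⟨fun q => (Finset.mem_sdiff.1 hv').2 (q ▸ hv),
          fun q => (Finset.mem_sdiff.1 hv').2 (q ▸ hv), fun q => aB (q ▸ hv')⟩⟩
      simp [(n1 z m).1, (n1 r mr).1, (n1 x e1).1, (n1 z m).2 z' m', (n1 z m).2 r' mr', (n1 z m).2 y yB,
        (n1 r mr).2 z' m', (n1 r mr).2 r' mr', (n1 r mr).2 y yB, (n1 x e1).2 z' m', (n1 x e1).2 r' mr',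
        (n1 x e1).2 y yB, T'.xy.ne', T'.xz.ne', T'.yz.ne, U'.xy.ne', U'.xz.ne', U'.yz.ne]
    · simp only [List.mem_cons, List.not_mem_nil, or_false] at hq
      rcases hq with rfl | rfl | rfl | rfl | rfl | rfl | rfl | rfl | rfl
      exacts [az, az', T'.yz, T'.xy.symm, U'.yz, U'.xy.symm, T'.xz.symm, e4, U'.xz.symm]
  rcases side3 cx h4 (hA.trans RX) (by omega) bA (two A hA) e1 with g | sA | ⟨tA, x1, x2, T⟩
  · exact ng g
  · rcases side3 cx h4 (Finset.sdiff_subset.trans RX) (by omega) bB (two _ Finset.sdiff_subset) yB with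
      g | sB | ⟨tB, y1, y2, U⟩
    · exact ng g
    · have : R = {x, y} := by
        ext v
        simp only [Finset.mem_insert, Finset.mem_singleton]
        refine ⟨fun hv => ?_, ?_⟩
        · by_cases c : v ∈ A
          · exact Or.inl (sA v c)
          · exact Or.inr (sB v (Finset.mem_sdiff.2 ⟨hv, c⟩))
        · rintro (rfl | rfl)
          exacts [hA e1, e2]
      exact hb (this ▸ good_pair (this ▸ cR) e4)
    · exact hou Finset.sdiff_subset (fun v hv c => sA v (by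
        by_contra q
        exact c (Finset.mem_sdiff.2 ⟨hv, q⟩))) (hA e1) (fun q => (Finset.mem_sdiff.1 q).2 e1) e4
        (ho.compl hA) tB U
  · rcases side3 cx h4 (Finset.sdiff_subset.trans RX) (by omega) bB (two _ Finset.sdiff_subset) yB with
      g | sB | ⟨tB, y1, y2, U⟩
    · exact ng g
    · exact hou hA (fun v hv c => sB v (Finset.mem_sdiff.2 ⟨hv, c⟩)) e2 e3 e4.symm ho tA T
    · by_cases c : s ∈ A <;> by_cases c' : s' ∈ A
      · exact same hA e2 e3 e4 tA T c c'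
      · exact sev tA tB T U c (Finset.mem_sdiff.2 ⟨sR', c'⟩) na.adj2 na.adj3
      · exact sev tA tB T U c' (Finset.mem_sdiff.2 ⟨sR, c⟩) na.adj3 na.adj2
      · exact same Finset.sdiff_subset (hA e1) (fun q => (Finset.mem_sdiff.1 q).2 e1) e4.symm tB U
          (Finset.mem_sdiff.2 ⟨sR, c⟩) (Finset.mem_sdiff.2 ⟨sR', c'⟩)

end Pool.Agent.Hom2.UC
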