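import Pool.Agent.Lib.MP_7e4769_co.Hc.Defs

set_option autoImplicit false

namespace Pool.Agent.Hom2

/-! primitive operations, written with the kernel-accelerated functions -/

def fld (B p w : ℕ) : ℕ := Nat.mod (Nat.shiftRight B p) w
def shr (B p : ℕ) : ℕ := Nat.shiftRight B p
def pos (i k : ℕ) : ℕ := Nat.add (Nat.mul 18 i) (Nat.mul 6 k)
def sl (R i k : ℕ) : ℕ := fld R (pos i k) 64
def put (R i k c : ℕ) : ℕ := Nat.lor R (Nat.shiftLeft c (pos i k))
def tb (m i : ℕ) : Bool := Nat.beq (fld m i 2) 1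
def sb (m i : ℕ) : ℕ := Nat.lor m (Nat.shiftLeft 1 i)
def lt (a b : ℕ) : Bool := Nat.ble (Nat.succ a) b
def ne (a b : ℕ) : Bool := !Nat.beq a b
/-- evaluate `x` first -/
def fz (x : ℕ) (k : ℕ → ℕ) : ℕ := Nat.casesOn x (k 0) (fun m => k (Nat.succ m))
def fzb (x : ℕ) (k : ℕ → Bool) : Bool := Nat.casesOn x (k 0) (fun m => k (Nat.succ m))
/-- continue with a nonzero stream -/
def sq (x : ℕ) (k : ℕ → ℕ) : ℕ := Nat.casesOn x 0 (fun m => k (Nat.succ m))
def allLt (n : ℕ) (f : ℕ → Bool) : Bool := Nat.rec true (fun i r => f i && r) n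
def thr (n : ℕ) (f : ℕ → ℕ → ℕ) (B : ℕ) : ℕ := Nat.rec B (fun i r => sq r (f i)) n
def all3 (f : ℕ → Bool) : Bool := f 0 && (f 1 && f 2)
def any3 (f : ℕ → Bool) : Bool := f 0 || (f 1 || f 2)

def lists (R i j : ℕ) : Bool := any3 (fun k => Nat.beq (sl R i k) (Nat.add j 2))
/-- first open half-edge, 3 if none -/
def fo (R j : ℕ) : ℕ :=
  bif Nat.beq (sl R j 0) 0 then 0 else bif Nat.beq (sl R j 1) 0 then 1 else
    bif Nat.beq (sl R j 2) 0 then 2 else 3
/-- the code names a vertex of the mask -/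
def inM (m c : ℕ) : Bool := Nat.ble 2 c && tb m (Nat.sub c 2)
/-- the code names a vertex outside the mask -/
def offM (m c : ℕ) : Bool := Nat.ble 2 c && !tb m (Nat.sub c 2)
def noOpen (R i : ℕ) : Bool := all3 (fun k => ne (sl R i k) 0)

/-- fact table; an entry is `kind + 4 * (n + 64 * R)` -/
inductive DB where
  | leaf (e : ℕ) : DB
  | node (l r : DB) : DB

def DB.get : DB → ℕ → ℕ
  | .leaf e, _ => e
  | .node l r, i => bif Nat.beq (Nat.mod i 2) 0 then l.get (Nat.div i 2) else r.get (Nat.div i 2)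

def eK (e : ℕ) : ℕ := Nat.mod e 4
def eN (e : ℕ) : ℕ := fld e 2 64
def eR (e : ℕ) : ℕ := shr e 8

/-- the six orders of three half-edges (6 and 7 repeat the identity) -/
def prm (p k : ℕ) : ℕ := fld 0x924489606864 (Nat.add (Nat.mul 6 p) (Nat.mul 2 k)) 4
def mv (M i : ℕ) : ℕ := fld M (Nat.mul 9 i) 64
def mp (M i : ℕ) : ℕ := fld M (Nat.add (Nat.mul 9 i) 6) 8

/-- mask of the images plus one, 0 if two images agree -/
def injM (n : ℕ) (f : ℕ → ℕ) : ℕ :=
  thr n (fun i a => fz (Nat.succ (f i)) (fun j => bif tb a j then 0 else sb a j)) 1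

def embChk (n0 R0 M : ℕ) (al : ℕ → Bool) (cls : ℕ → ℕ → ℕ) : Bool :=
  ne (injM n0 (mv M)) 0 && allLt n0 (fun i => fzb (mv M i) (fun j => al j && fzb (mp M i) (fun p =>
    all3 (fun k => fzb (sl R0 i k) (fun c =>
      bif Nat.beq c 0 then true else bif Nat.beq c 1 then Nat.beq (cls j (prm p k)) 1 else
        lt (Nat.sub c 2) n0 && Nat.beq (cls j (prm p k)) (Nat.add (mv M (Nat.sub c 2)) 2))))))

/-- witness part of the state -/
structure Ws where
  S : ℕ
  K : ℕ
  D : ℕ
  W : ℕ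
  L : ℕ
  fr : ℕ

def Ws.no : Ws := ⟨0, 0, 0, 0, 0, 0⟩
def Ws.sk (w : Ws) : ℕ := Nat.lor w.S w.K
/-- `fr = 0`: free edge unknown; `fr = 64 * i + j + 1`: it is `i j` -/
def frI (fr : ℕ) : ℕ := Nat.div (Nat.sub fr 1) 64
def frJ (fr : ℕ) : ℕ := Nat.mod (Nat.sub fr 1) 64

abbrev Rec := ℕ → ℕ → Ws → ℕ → ℕ

/-- the open half-edge `i k` goes to the old vertex `j` -/
def link (R i k j : ℕ) (go : ℕ → ℕ → ℕ) (B : ℕ) : ℕ :=
  bif Nat.beq i j || lists R i j then B else bif lists R j i then 0 else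
    fz (fo R j) (fun k' => bif Nat.beq k' 3 then B else
      fz (put (put R i k (Nat.add j 2)) j k' (Nat.add i 2)) (fun R' => go R' B))

def stubC (kd R i k : ℕ) (go : ℕ → ℕ → ℕ) (B : ℕ) : ℕ :=
  bif Nat.beq kd 1 then B else fz (put R i k 1) (fun R' => go R' B)

def newC (n R i k : ℕ) (go : ℕ → ℕ → ℕ) (B : ℕ) : ℕ :=
  bif lt n 62 && Nat.beq (shr R (Nat.mul 18 n)) 0 then
    fz (put (put R i k (Nat.add n 2)) n 0 (Nat.add i 2)) (fun R' => go R' B) else 0

/-- tag 0 -/
def rSplit (rec : Rec) (kd n R : ℕ) (w : Ws) (B : ℕ) : ℕ :=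
  fz (fld B 0 64) fun i => fz (fld B 6 4) fun k =>
  bif lt i n && lt k 3 && Nat.beq (sl R i k) 0 then
    sq (stubC kd R i k (fun R' => rec n R' w) (shr B 8)) fun B1 =>
    sq (newC n R i k (fun R' => rec (Nat.succ n) R' w) B1) fun B2 =>
    thr n (fun j => bif tb w.D j && tb (Nat.lor w.W w.L) i then fun B3 => B3 else
      link R i k j (fun R' => rec n R' w)) B2
  else 0

/-- tag 1 -/
def rRef (db : DB) (f kd n R B : ℕ) : ℕ :=
  fz (fld B 0 1048576) fun g => fz (db.get g) fun e => fz (shr B 20) fun M =>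
  bif lt g f && (Nat.beq (eK e) 0 || (Nat.beq (eK e) kd && (ne kd 2 || Nat.beq (mv M 0) 0 && lt 0 (eN e)))) &&
    embChk (eN e) (eR e) M (fun j => lt j n) (sl R) then shr M (Nat.mul 9 (eN e)) else 0

def cls2 (R u p q w i k : ℕ) : ℕ :=
  fz (sl R i k) fun c =>
    bif Nat.beq i u && Nat.beq c (Nat.add p 2) then Nat.add w 2 else
    bif Nat.beq i w && Nat.beq c (Nat.add q 2) then Nat.add u 2 else c

def hasStub (R i : ℕ) : Bool := any3 (fun k => Nat.beq (sl R i k) 1)

/-- tag 2 -/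
def rS2 (db : DB) (nf kd n R B : ℕ) : ℕ :=
  fz (fld B 0 64) fun u => fz (fld B 6 64) fun p => fz (fld B 12 64) fun q => fz (fld B 18 64) fun w =>
  fz (fld B 24 64) fun t => fz (fld B 30 1048576) fun g => fz (db.get g) fun e => fz (shr B 50) fun M =>
  bif lt u n && lt p n && lt q n && lt w n && ne u w && ne u q && ne p w &&
    lists R p u && lists R p q && hasStub R p && lists R q p && lists R q w && hasStub R q &&
    lists R u p && lists R w q && noOpen R u && !lists R u w && lt g nf &&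
    (Nat.beq (eK e) 0 || (Nat.beq (eK e) 2 && Nat.beq kd 2 && Nat.beq (mv M 0) 0 && lt 0 (eN e) &&
      lt t n && ne t 0 && ne t p && ne t q && hasStub R t)) &&
    embChk (eN e) (eR e) M (fun j => lt j n && ne j p && ne j q) (cls2 R u p q w)
  then shr M (Nat.mul 9 (eN e)) else 0

def okb (a x y z : ℕ) : Bool :=
  ne a x && ne a y && ne a z && !(Nat.beq x y && Nat.beq y z) &&
    (Nat.beq x y || Nat.beq y z || Nat.beq x z)

def colv (C i : ℕ) : ℕ := fld C (Nat.mul 2 i) 4
def colc (C c : ℕ) : ℕ := bif Nat.beq c 1 then 3 else colv C (Nat.sub c 2)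
def oneStub (R : ℕ) : Bool := Nat.beq (sl R 0 0) 1 && Nat.ble 2 (sl R 0 1) && Nat.ble 2 (sl R 0 2)

/-- tag 3: closed pattern with a colouring (2 bits per vertex, then the free colour) -/
def rCol (kd n R B : ℕ) : ℕ :=
  bif lt 0 n && (ne kd 2 || oneStub R) && allLt n (fun i => noOpen R i &&
    okb (colv B i) (bif Nat.beq kd 2 && Nat.beq i 0 then colv B n else colc B (sl R i 0))
      (colc B (sl R i 1)) (colc B (sl R i 2)))
  then shr B (Nat.mul 2 (Nat.succ n)) else 0

def cv (C i : ℕ) : ℕ := fld C (Nat.mul 6 i) 64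
/-- the code names a vertex below `t` -/
def low (t c : ℕ) : Bool := Nat.ble 2 c && lt (Nat.sub c 2) t
/-- the colours of the vertices below `t` already break the rule at `v` -/
def brk (R C t v : ℕ) : Bool :=
  (lt v t && any3 (fun k => low t (sl R v k) && Nat.beq (cv C v) (cv C (Nat.sub (sl R v k) 2)))) ||
  (all3 (fun k => low t (sl R v k)) &&
    !okb 63 (cv C (Nat.sub (sl R v 0) 2)) (cv C (Nat.sub (sl R v 1) 2)) (cv C (Nat.sub (sl R v 2) 2)))
/-- no colouring extends the restricted-growth word `C` on the first `t` vertices with `m` colours -/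
def unc (n R : ℕ) (fuel : ℕ) : ℕ → ℕ → ℕ → Bool :=
  Nat.rec (fun _ _ _ => false) (fun _ r t m C =>
    bif allLt n (fun v => !brk R C t v) then
      lt t n && allLt (Nat.succ m) (fun a => fzb (Nat.lor C (Nat.shiftLeft a (Nat.mul 6 t))) fun C' =>
        fzb (bif Nat.beq a m then Nat.succ m else m) fun m' => fzb (Nat.succ t) fun t' => r t' m' C')
    else true) fuel

/-- tag 4 -/
def rUnc (kd n R B : ℕ) : ℕ :=
  bif lt 0 n && lt n 62 && (Nat.beq kd 1 || Nat.beq kd 2 && oneStub R &&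
      allLt n (fun i => Nat.beq i 0 || all3 (fun k => Nat.ble 2 (sl R i k)))) &&
    unc n R (Nat.succ n) 0 0 0 then B else 0

/-! payment certificate: 6 bits `c0`, 6 bits `nv`, then 6 bits per pattern vertex (variable, 63 = late),
then 14 bits per variable (two slots: 0 none, `1 + b` edge to variable `b`, `64 + s` row of vertex `s`) -/

def vr (P i : ℕ) : ℕ := fld P (Nat.mul 6 i) 64
def tA (T v : ℕ) : ℕ := fld T (Nat.mul 14 v) 128
def tB (T v : ℕ) : ℕ := fld T (Nat.add (Nat.mul 14 v) 7) 128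
/-- variable behind a code, 63 if the code is not a vertex of `K` -/
def vc (K P c : ℕ) : ℕ := bif inM K c then vr P (Nat.sub c 2) else 63
def b2n (b : Bool) : ℕ := bif b then 1 else 0
def mul3 (f : ℕ → ℕ) (v : ℕ) : ℕ :=
  Nat.add (b2n (Nat.beq (f 0) v)) (Nat.add (b2n (Nat.beq (f 1) v)) (b2n (Nat.beq (f 2) v)))
def nxt (c0 nv v : ℕ) : ℕ := bif Nat.beq (Nat.succ v) nv then c0 else Nat.succ v
/-- a greedy slot of variable `v`: every other variable is below `lim` -/
def slotOK (R K P v lim d : ℕ) : Bool :=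
  bif Nat.beq d 0 then true else bif lt d 64 then lt (Nat.sub d 1) lim else
    fzb (Nat.sub d 64) fun s =>
      all3 (fun k => fzb (vc K P (sl R s k)) fun x => Nat.beq x 63 || Nat.beq x v || lt x lim) &&
      fzb (mul3 (fun k => vc K P (sl R s k)) v) fun m => Nat.beq m 1 || Nat.beq m 2
/-- sign bit of the cycle slot of `v` (0 plus, 1 minus), 2 if the slot is not valid -/
def cycS (R K P c0 v v' d : ℕ) : ℕ :=
  bif lt d 64 then (bif Nat.beq d (Nat.succ v') then 1 else 2) else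
    fz (Nat.sub d 64) fun s =>
      bif all3 (fun k => fzb (vc K P (sl R s k)) fun x =>
        Nat.beq x 63 || Nat.beq x v || Nat.beq x v' || lt x c0) then
      fz (mul3 (fun k => vc K P (sl R s k)) v) fun m => fz (mul3 (fun k => vc K P (sl R s k)) v') fun m' =>
        bif Nat.beq m 1 && Nat.beq m' 1 then 0 else
        bif Nat.beq (Nat.mul m m') 2 then 1 else 2
      else 2
/-- parity of the minus signs plus one, 0 on failure -/
def cycPar (R K P T c0 nv : ℕ) : ℕ :=
  thr (Nat.sub nv c0) (fun i a => fz (Nat.add c0 i) fun v =>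
    fz (cycS R K P c0 v (nxt c0 nv v) (tB T v)) fun s =>
      bif Nat.beq s 0 then a else bif Nat.beq s 1 then Nat.sub 3 a else 0) 1
def hasE (T nv a b : ℕ) : Bool :=
  lt a nv && lt b nv && (Nat.beq (tA T a) (Nat.succ b) || Nat.beq (tB T a) (Nat.succ b) ||
    Nat.beq (tA T b) (Nat.succ a) || Nat.beq (tB T b) (Nat.succ a))
def hasR (R K P T nv s : ℕ) : Bool :=
  any3 (fun k => fzb (vc K P (sl R s k)) fun v => lt v nv &&
    (Nat.beq (tA T v) (Nat.add s 64) || Nat.beq (tB T v) (Nat.add s 64)))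
/-- no neighbour in `K` is late -/
def noLate (R K P s : ℕ) : Bool := all3 (fun k => !inM K (sl R s k) || ne (vc K P (sl R s k)) 63)
def vK (R K P T nv i : ℕ) : Bool :=
  fzb (vr P i) fun a => fzb (sl R i 0) fun c0 => fzb (sl R i 1) fun c1 => fzb (sl R i 2) fun c2 =>
  bif Nat.beq a 63 then
    inM K c0 && inM K c1 && inM K c2 && noLate R K P i && hasR R K P T nv i
  else lt a nv &&
    bif inM K c0 then
      bif inM K c1 then
        bif inM K c2 then hasE T nv a (vc K P c0) && hasE T nv a (vc K P c1) && hasE T nv a (vc K P c2) &&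
          hasR R K P T nv i
        else Nat.beq (vc K P c0) (vc K P c1) && hasE T nv a (vc K P c0)
      else bif inM K c2 then Nat.beq (vc K P c0) (vc K P c2) && hasE T nv a (vc K P c0)
        else Nat.beq (vc K P c0) 63 || hasE T nv a (vc K P c0)
    else bif inM K c1 then
        bif inM K c2 then Nat.beq (vc K P c1) (vc K P c2) && hasE T nv a (vc K P c1)
        else Nat.beq (vc K P c1) 63 || hasE T nv a (vc K P c1)
      else inM K c2 && (Nat.beq (vc K P c2) 63 || hasE T nv a (vc K P c2))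
def payChk (n R S K c0 nv P T : ℕ) : Bool :=
  Nat.ble c0 nv && lt nv 63 && ne (Nat.succ c0) nv &&
  allLt nv (fun v => bif lt v c0 then slotOK R K P v v (tA T v) && slotOK R K P v v (tB T v)
    else slotOK R K P v c0 (tA T v)) &&
  Nat.beq (cycPar R K P T c0 nv) 1 &&
  allLt n (fun i => bif tb K i then vK R K P T nv i else
    bif tb S i then noLate R K P i && hasR R K P T nv i else true)

/-- shape of a move -/
def moveOK (n R S K : ℕ) : Bool :=
  Nat.beq (shr S n) 0 && Nat.beq (shr K n) 0 && Nat.beq (Nat.land S K) 0 && ne (Nat.lor S K) 0 &&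
  allLt n (fun i => bif tb K i then all3 (fun k => fzb (sl R i k) fun c =>
      Nat.beq c 1 || inM K c || (inM S c && lists R (Nat.sub c 2) i))
    else bif tb S i then all3 (fun k => fzb (sl R i k) fun c => ne c 1 && !inM S c) else true)

def dead (R D j : ℕ) : Bool := any3 (fun k => inM D (sl R j k))
/-- two known neighbours in the remainder -/
def twoIn (R sk j : ℕ) : Bool :=
  Nat.ble 2 (Nat.add (b2n (offM sk (sl R j 0))) (Nat.add (b2n (offM sk (sl R j 1))) (b2n (offM sk (sl R j 2)))))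

/-- `j` lies in `H`: in the block or a leaf -/
def inH (rec : Rec) (n R : ℕ) (w : Ws) (j B : ℕ) : ℕ :=
  bif dead R w.D j then B else
    sq (bif tb w.L j then B else fz (sb w.W j) fun W' => rec n R ⟨w.S, w.K, w.D, W', w.L, w.fr⟩ B) fun B1 =>
    bif tb w.W j || twoIn R w.sk j then B1 else
      fz (sb w.L j) fun L' => rec n R ⟨w.S, w.K, w.D, w.W, L', w.fr⟩ B1

def startK (rec : Rec) (n R : ℕ) (w : Ws) (s k B : ℕ) : ℕ :=
  fz (sl R s k) fun c =>
  bif Nat.beq c 0 then
    bif Nat.beq (fo R s) k then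
      sq (newC n R s k (fun R' => inH rec (Nat.succ n) R' w n) B) fun B1 =>
      thr n (fun j => bif tb w.sk j then fun B2 => B2 else link R s k j (fun R' => inH rec n R' w j)) B1
    else B
  else bif inM w.K c then B else inH rec n R w (Nat.sub c 2) B

/-- tag 5 -/
def rMove (rec : Rec) (kd n R B : ℕ) : ℕ :=
  fz (Nat.pow 2 n) fun N => fz (fld B 0 N) fun S => fz (fld B n N) fun K =>
  fz (shr B (Nat.mul 2 n)) fun B0 => fz (fld B0 0 64) fun c0 => fz (fld B0 6 64) fun nv =>
  fz (shr B0 12) fun P => fz (shr P (Nat.mul 6 n)) fun T =>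
  bif moveOK n R S K && payChk n R S K c0 nv P T then
    sq (thr n (fun s => bif tb S s then fun B1 => fz (fo R s) fun k => bif Nat.beq k 3 then B1 else
        sq (stubC kd R s k (fun R' => rec n R' Ws.no) B1) fun B2 =>
        thr s (fun j => bif tb S j then link R s k j (fun R' => rec n R' Ws.no) else fun B3 => B3) B2
      else fun B1 => B1) (shr T (Nat.mul 14 nv))) fun B4 =>
    thr n (fun s => bif tb S s then fun B5 => fz (Nat.mod S (Nat.pow 2 s)) fun D =>
        sq (startK rec n R ⟨S, K, D, 0, 0, 0⟩ s 0 B5) fun B6 =>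
        sq (startK rec n R ⟨S, K, D, 0, 0, 0⟩ s 1 B6) fun B7 => startK rec n R ⟨S, K, D, 0, 0, 0⟩ s 2 B7
      else fun B5 => B5) B4
  else 0

/-- tag 6 -/
def rClass (rec : Rec) (n R : ℕ) (w : Ws) (B : ℕ) : ℕ :=
  fz (fld B 0 64) fun i => fz (fld B 6 4) fun k => fz (sl R i k) fun c => fz (Nat.sub c 2) fun j =>
  bif tb w.W i && lt k 3 && offM w.sk c then
    bif Nat.beq w.fr 0 then
      sq (inH rec n R w j (shr B 8)) fun B1 =>
      bif tb (Nat.lor w.W w.L) j then B1 else
      fz (Nat.succ (Nat.add (Nat.mul 64 i) j)) fun fr => rec n R ⟨w.S, w.K, w.D, w.W, w.L, fr⟩ B1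
    else bif Nat.beq (frJ w.fr) j then (bif Nat.beq (frI w.fr) i then 0 else shr B 8)
    else inH rec n R w j (shr B 8)
  else 0

/-- tag 7 -/
def rLeafOut (rec : Rec) (kd n R : ℕ) (w : Ws) (B : ℕ) : ℕ :=
  fz (fld B 0 64) fun j => fz (fld B 6 4) fun k => fz (fld B 8 4) fun k2 =>
  bif tb w.L j && lt k 3 && lt k2 3 && ne k k2 && Nat.beq (sl R j k) 0 &&
      (Nat.beq (sl R j k2) 0 || offM w.sk (sl R j k2)) then
    sq (stubC kd R j k (fun R' => rec n R' w) (shr B 10)) fun B1 =>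
    thr n (fun s => bif tb w.S s && !tb w.D s then link R j k s (fun R' => rec n R' w)
      else fun B2 => B2) B1
  else 0

/-- tag 8 -/
def rParent (rec : Rec) (n R : ℕ) (w : Ws) (B : ℕ) : ℕ :=
  fz (fld B 0 64) fun j => fz (fld B 6 4) fun k => fz (sl R j k) fun c => fz (Nat.sub c 2) fun y =>
  bif tb w.L j && lt k 3 && offM w.sk c then
    bif dead R w.D y || tb w.L y || (ne w.fr 0 && Nat.beq (frJ w.fr) y) then shr B 8 else
      fz (sb w.W y) fun W' => rec n R ⟨w.S, w.K, w.D, W', w.L, w.fr⟩ (shr B 8)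
  else 0

/-- half-edge codes seen from the witness block -/
def clsW (R : ℕ) (w : Ws) (i k : ℕ) : ℕ :=
  fz (sl R i k) fun c =>
    bif inM (Nat.lor w.sk w.L) c || (ne w.fr 0 && Nat.beq c (Nat.add (frJ w.fr) 2)) then 1 else c

/-- tag 9 -/
def rWRef (db : DB) (nf R : ℕ) (w : Ws) (B : ℕ) : ℕ :=
  fz (fld B 0 1048576) fun g => fz (db.get g) fun e => fz (shr B 20) fun M =>
  bif lt g nf && Nat.beq (eK e) 0 && lt 0 (eN e) && embChk (eN e) (eR e) M (tb w.W) (clsW R w)
  then shr M (Nat.mul 9 (eN e)) else 0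

/-- tag 10: an even cycle with `m + 1 ≤ N1` vertices -/
def rEven (N1 kd n R B : ℕ) : ℕ :=
  fz (fld B 0 64) fun m => fz (shr B 6) fun C =>
  bif Nat.beq kd 3 && Nat.ble 2 m && lt m N1 && Nat.beq (Nat.mod m 2) 1 &&
    ne (injM (Nat.succ m) (cv C)) 0 &&
    allLt (Nat.succ m) (fun i => lt (cv C i) n &&
      lists R (cv C i) (bif Nat.beq i m then cv C 0 else cv C (Nat.succ i)))
  then shr C (Nat.mul 6 (Nat.succ m)) else 0

/-- at most the half-edge `i0 k0` leaves the set `A` -/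
def cutChk (n A i0 k0 t : ℕ) (al : ℕ → Bool) (cls : ℕ → ℕ → ℕ) : Bool :=
  tb A i0 && Nat.beq (shr A n) 0 &&
  (bif Nat.beq t 63 then Nat.beq A (sb 0 i0) else al t && !tb A t) &&
  allLt n (fun i => !tb A i || (al i && all3 (fun k => fzb (cls i k) fun c =>
    Nat.beq c 1 || inM A c || (Nat.beq i i0 && Nat.beq k k0))))

/-- tag 11 (bridge in `X`) and tag 12 (bridge in the witness block) -/
def rCut (n B : ℕ) (al : ℕ → Bool) (cls : ℕ → ℕ → ℕ) : ℕ :=
  bif cutChk n (fld B 14 (Nat.pow 2 n)) (fld B 0 64) (fld B 6 4) (fld B 8 64) al cls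
  then shr B (Nat.add 14 n) else 0

def step (db : DB) (N1 nf f kd : ℕ) (rec : Rec) (n R : ℕ) (w : Ws) (B : ℕ) : ℕ :=
  fz (Nat.mod B 16) fun t => fz (shr B 4) fun B' =>
  bif lt t 6 then
    bif lt t 3 then
      bif Nat.beq t 0 then rSplit rec kd n R w B' else
      bif Nat.beq t 1 then rRef db f kd n R B' else rS2 db nf kd n R B'
    else
      bif Nat.beq t 3 then rCol kd n R B' else
      bif Nat.beq t 4 then rUnc kd n R B' else rMove rec kd n R B'
  else bif lt t 10 then
      bif Nat.beq t 6 then rClass rec n R w B' else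
      bif Nat.beq t 7 then rLeafOut rec kd n R w B' else
      bif Nat.beq t 8 then rParent rec n R w B' else rWRef db nf R w B'
    else
      bif Nat.beq t 10 then rEven N1 kd n R B' else
      bif Nat.beq t 11 then rCut n B' (fun j => lt j n) (sl R) else
      bif Nat.beq t 12 then rCut n B' (tb w.W) (clsW R w) else 0

def run (db : DB) (N1 nf f kd fuel : ℕ) : Rec :=
  Nat.rec (fun _ _ _ _ => 0) (fun _ r => step db N1 nf f kd r) fuel

/-- the certificate `B` (ending with the sentinel 1) proves fact `f` -/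
def chkFact (db : DB) (N1 nf f B : ℕ) : Bool :=
  fzb (db.get f) fun e => lt (eN e) 63 && Nat.beq (run db N1 nf f (eK e) 200 (eN e) (eR e) Ws.no B) 1

end Pool.Agent.Hom2
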