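import Pool.Agent.Lib.MP_7e4769_co.Hc.Basic

set_option autoImplicit false

namespace Pool.Agent.Hom2

variable {V : Type} {G : SimpleGraph V} {X : Finset V}

/-- a path `w 0, ..., w n` in `X` -/
structure Pth (G : SimpleGraph V) (X : Finset V) (n : ℕ) (w : ℕ → V) : Prop where
  mem : ∀ i ≤ n, w i ∈ X
  inj : ∀ i ≤ n, ∀ j ≤ n, w i = w j → i = j
  adj : ∀ i < n, G.Adj (w i) (w (i + 1))

/-- a path with adjacent ends is a cycle -/
theorem Pth.cyc {n : ℕ} {w : ℕ → V} (h : Pth G X n w) (hn : 2 ≤ n) (e : G.Adj (w n) (w 0)) :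
    Cyc G X (n + 1) (fun i => w (i % (n + 1))) := by
  have lt : ∀ i, i % (n + 1) ≤ n := fun i => Nat.lt_succ_iff.1 (Nat.mod_lt _ (by omega))
  refine ⟨by omega, fun i => h.mem _ (lt i), fun i => ?_,
    fun i j => ⟨h.inj _ (lt i) _ (lt j), fun r => by simp only [r]⟩⟩
  have r : (i + 1) % (n + 1) = (i % (n + 1) + 1) % (n + 1) := by simp
  by_cases c : i % (n + 1) = n
  · simp only [r, c, Nat.mod_self]; exact e
  · have := lt i
    simp only [r, Nat.mod_eq_of_lt (show i % (n + 1) + 1 < n + 1 by omega)]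
    exact h.adj _ (by omega)

theorem Pth.cons {n : ℕ} {w : ℕ → V} (h : Pth G X n w) {v : V} (hv : v ∈ X)
    (hn : ∀ i ≤ n, w i ≠ v) (e : G.Adj v (w 0)) :
    Pth G X (n + 1) (fun i => if i = 0 then v else w (i - 1)) := by
  refine ⟨fun i hi => ?_, fun i hi j hj r => ?_, fun i hi => ?_⟩
  · split_ifs
    · exact hv
    · exact h.mem _ (by omega)
  · split_ifs at r with a b b
    · omega
    · exact absurd r.symm (hn _ (by omega))
    · exact absurd r (hn _ (by omega))
    · have := h.inj _ (by omega) _ (by omega) r; omega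
  · by_cases a : i = 0
    · subst a; simpa using e
    · simp only [a, if_false, Nat.add_eq_zero_iff, one_ne_zero, and_false, Nat.add_sub_cancel]
      have := h.adj (i - 1) (by omega)
      rwa [show i - 1 + 1 = i by omega] at this

theorem Pth.sub {n : ℕ} {w : ℕ → V} (h : Pth G X n w) (a m : ℕ) (hm : a + m ≤ n) :
    Pth G X m (fun i => w (a + i)) :=
  ⟨fun i hi => h.mem _ (by omega),
    fun i hi j hj r => by have := h.inj _ (by omega) _ (by omega) r; omega,
    fun i hi => h.adj (a + i) (by omega)⟩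

theorem Pth.lt_card {n : ℕ} {w : ℕ → V} (h : Pth G X n w) : n < X.card := by
  have := Finset.card_le_card_of_injOn (s := Finset.range (n + 1)) (t := X) w
    (fun i hi => h.mem i (by simpa [Nat.lt_succ_iff] using hi))
    (fun i hi j hj r => h.inj i (by simpa [Nat.lt_succ_iff] using hi) j
      (by simpa [Nat.lt_succ_iff] using hj) r)
  simpa [Nat.succ_le_iff] using this

/-- a nonempty cubic graph has an even cycle -/
theorem exists_even_cyc (hc : Cub G X) (hcl : Closed G X) (hne : X.Nonempty) :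
    ∃ L z, L % 2 = 0 ∧ Cyc G X L z := by
  classical
  obtain ⟨v, hv⟩ := hne
  have h0 : ∃ w, Pth G X 0 w :=
    ⟨fun _ => v, fun _ _ => hv, fun i hi j hj _ => by omega, fun i hi => by omega⟩
  obtain ⟨n, ⟨w, h⟩, hmax⟩ : ∃ n, (∃ w, Pth G X n w) ∧ ¬ ∃ w, Pth G X (n + 1) w := by
    by_contra e
    push Not at e
    have : ∀ n, ∃ w, Pth G X n w := fun n => Nat.rec h0 (fun k hw => e k hw) n
    obtain ⟨w, hw⟩ := this X.card
    exact lt_irrefl _ hw.lt_card
  have on : ∀ x, G.Adj (w 0) x → ∃ i, 1 ≤ i ∧ i ≤ n ∧ w i = x := by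
    intro x hx
    by_contra e
    push Not at e
    refine hmax ⟨_, h.cons (hcl _ (h.mem 0 (by omega)) x hx) (fun i hi => ?_) hx.symm⟩
    by_cases a : i = 0
    · subst a; exact hx.ne
    · exact e i (by omega) hi
  have odd : ∀ i, 3 ≤ i → i ≤ n → i % 2 = 1 → G.Adj (w 0) (w i) → ∃ L z, L % 2 = 0 ∧ Cyc G X L z :=
    fun i a b c d => ⟨i + 1, _, by omega,
      (h.sub 0 i (by omega)).cyc (by omega) (by simpa using d.symm)⟩
  have ev : ∀ i j, 1 ≤ i → i < j → j ≤ n → (j - i) % 2 = 0 → G.Adj (w 0) (w i) → G.Adj (w 0) (w j) →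
      ∃ L z, L % 2 = 0 ∧ Cyc G X L z := by
    intro i j a b c d e f
    have p := (h.sub i (j - i) (by omega)).cons (h.mem 0 (by omega))
      (fun k hk r => by have := h.inj _ (by omega) _ (by omega) r; omega) (by simpa using e)
    refine ⟨j - i + 1 + 1, _, by omega, p.cyc (by omega) ?_⟩
    simp only [Nat.add_eq_zero_iff, one_ne_zero, and_false, if_false, if_true, Nat.add_sub_cancel]
    rw [show i + (j - i) = j by omega]; exact f.symm
  obtain ⟨x, y, z, hn⟩ := hc _ (h.mem 0 (by omega))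
  obtain ⟨i, i1, i2, rfl⟩ := on x hn.adj1
  obtain ⟨j, j1, j2, rfl⟩ := on y hn.adj2
  obtain ⟨k, k1, k2, rfl⟩ := on z hn.adj3
  have ij : i ≠ j := fun r => hn.1 (r ▸ rfl)
  have ik : i ≠ k := fun r => hn.2.1 (r ▸ rfl)
  have jk : j ≠ k := fun r => hn.2.2.1 (r ▸ rfl)
  have two : ∀ i j, 1 ≤ i → 1 ≤ j → i ≠ j → i ≤ n → j ≤ n → i % 2 = j % 2 → G.Adj (w 0) (w i) →
      G.Adj (w 0) (w j) → ∃ L z, L % 2 = 0 ∧ Cyc G X L z := by
    intro i j a b c d e f g g'
    rcases lt_or_gt_of_ne c with r | r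
    · exact ev i j a r e (by omega) g g'
    · exact ev j i b r d (by omega) g' g
  by_cases a : i % 2 = j % 2
  · exact two i j i1 j1 ij i2 j2 a hn.adj1 hn.adj2
  by_cases b : i % 2 = k % 2
  · exact two i k i1 k1 ik i2 k2 b hn.adj1 hn.adj3
  · exact two j k j1 k1 jk j2 k2 (by omega) hn.adj2 hn.adj3

/-- a shortest even cycle -/
theorem exists_shortest_even (hc : Cub G X) (hcl : Closed G X) (hne : X.Nonempty) :
    ∃ L z, L % 2 = 0 ∧ Cyc G X L z ∧ ∀ L' z', L' % 2 = 0 → Cyc G X L' z' → L ≤ L' := by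
  classical
  have h : ∃ L, ∃ z, L % 2 = 0 ∧ Cyc G X L z := exists_even_cyc hc hcl hne
  obtain ⟨z, h1, h2⟩ := Nat.find_spec h
  exact ⟨Nat.find h, z, h1, h2, fun L' z' a b => Nat.find_min' h ⟨z', a, b⟩⟩

/-- root pattern of a cycle: half-edge 0 to the next vertex, 1 to the previous one, 2 open -/
def cycSl (L i k : ℕ) : ℕ :=
  if k = 0 then (i + 1) % L + 2 else if k = 1 then (i + (L - 1)) % L + 2 else 0

theorem Cyc.third (hc : Cub G X) {L : ℕ} {z : ℕ → V} (h : Cyc G X L z) (i : ℕ) :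
    ∃ o, Nb G (z i) (z (i + 1)) (z (i + (L - 1))) o := by
  have h3 := h.three
  have e : z (i + (L - 1) + 1) = z i := by
    rw [h.inj, show i + (L - 1) + 1 = i + L by omega, Nat.add_mod_right]
  refine hc.second (h.mem i) (h.adj i) (e ▸ (h.adj (i + (L - 1))).symm) (fun r => ?_)
  rw [h.inj] at r
  have := (Nat.modEq_iff_dvd' (show i + 1 ≤ i + (L - 1) by omega)).1 r
  have := Nat.le_of_dvd (by omega) this
  omega

theorem Cyc.emb (hc : Cub G X) {L : ℕ} {z : ℕ → V} (h : Cyc G X L z) :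
    ∃ nu, Emb G X L (cycSl L) z nu := by
  have h3 := h.three
  choose o ho using h.third hc
  refine ⟨fun i k => if k = 0 then z (i + 1) else if k = 1 then z (i + (L - 1)) else o i,
    fun i _ => h.mem i, fun i hi j hj r => ?_, fun i _ => by simpa using ho i,
    fun i _ k _ r => ?_, fun i _ k _ y r => ?_⟩
  · rwa [h.inj, Nat.mod_eq_of_lt hi, Nat.mod_eq_of_lt hj] at r
  · unfold cycSl at r; split_ifs at r <;> omega
  · unfold cycSl at r
    split_ifs at r with a b
    · obtain rfl : y = (i + 1) % L := by omega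
      exact ⟨Nat.mod_lt _ (by omega), by simp [a, h.inj]⟩
    · obtain rfl : y = (i + (L - 1)) % L := by omega
      exact ⟨Nat.mod_lt _ (by omega), by simp [b, h.inj]⟩

end Pool.Agent.Hom2
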