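import Mathlib

set_option autoImplicit false

namespace Pool.Agent.Hom2

theorem dp_loose : ∀ a b c f w' : ZMod 3, a ≠ 0 → ∃ w, w ≠ f ∧ a * w + b * w' + c ≠ 0 := by
  decide +kernel

set_option synthInstance.maxSize 2000 in
theorem dp_tight : ∀ a b c f f' e g : ZMod 3, a ≠ 0 → b ≠ 0 → e ≠ 0 →
    (∃ u, u ≠ g ∧ ∀ w, w - f = e * (u - g) → ∀ w', w' ≠ f' → a * w + b * w' + c ≠ 0) ∨
    (∀ u, u ≠ g → ∀ w, w - f = e * (u - g) →
      ∃ w', w' ≠ f' ∧ a * w + b * w' + c ≠ 0 ∧ w' - f' = e * (a * b) * (u - g)) := by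
  decide +kernel

theorem dp_close : ∀ a b c f e g : ZMod 3, e * (a * b) = 1 →
    ∃ u, u ≠ g ∧ ∀ w, w - f = e * (u - g) → a * w + b * u + c ≠ 0 := by
  decide +kernel

/-- DP lemma: a cycle of 2-lists with an even number of minus signs is colourable. -/
theorem cyc_pay (m : ℕ) (hm : 2 ≤ m) (f a b c : ℕ → ZMod 3) (ha : ∀ i < m, a i ≠ 0)
    (hb : ∀ i < m, b i ≠ 0) (hs : ∏ i ∈ Finset.range m, (a i * b i) = 1) :
    ∃ y : ℕ → ZMod 3, (∀ i < m, y i ≠ f i) ∧
      ∀ i < m, a i * y i + b i * y ((i + 1) % m) + c i ≠ 0 := by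
  let Re : ℕ → ZMod 3 → ZMod 3 → Prop := fun t u w => ∃ y : ℕ → ZMod 3, y 0 = u ∧ y t = w ∧
    (∀ i ≤ t, y i ≠ f i) ∧ ∀ i < t, a i * y i + b i * y (i + 1) + c i ≠ 0
  have ext : ∀ t u w w', Re t u w → w' ≠ f (t + 1) → a t * w + b t * w' + c t ≠ 0 →
      Re (t + 1) u w' := by
    rintro t u w w' ⟨y, h1, h2, h3, h4⟩ e1 e2
    refine ⟨Function.update y (t + 1) w', by simpa using h1, by simp, fun i hi => ?_, fun i hi => ?_⟩
    · by_cases r : i = t + 1
      · subst r; simpa using e1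
      · rw [Function.update_of_ne r]; exact h3 i (by omega)
    · rw [Function.update_of_ne (by omega)]
      by_cases r : i = t
      · subst r; simpa [h2] using e2
      · rw [Function.update_of_ne (by omega)]; exact h4 i (by omega)
  have nz : ∀ t ≤ m, ∏ i ∈ Finset.range t, (a i * b i) ≠ 0 := fun t ht =>
    Finset.prod_ne_zero_iff.2 fun i hi =>
      mul_ne_zero (ha i (by simp at hi; omega)) (hb i (by simp at hi; omega))
  have inv : ∀ t < m, (∃ u, ∀ w, w ≠ f t → Re t u w) ∨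
      (∀ u, u ≠ f 0 → ∃ w, Re t u w ∧ w - f t = (∏ i ∈ Finset.range t, (a i * b i)) * (u - f 0)) := by
    intro t
    induction t with
    | zero =>
      exact fun _ => Or.inr fun u hu => ⟨u, ⟨fun _ => u, rfl, rfl, fun i hi => by
        rw [Nat.le_zero.1 hi]; exact hu, fun i hi => by omega⟩, by simp⟩
    | succ t ih =>
      intro ht
      rcases ih (by omega) with ⟨u, h⟩ | h
      · refine Or.inl ⟨u, fun w' hw' => ?_⟩
        obtain ⟨w, e1, e2⟩ := dp_loose (a t) (b t) (c t) (f t) w' (ha t (by omega))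
        exact ext t u w w' (h w e1) hw' e2
      · rcases dp_tight (a t) (b t) (c t) (f t) (f (t + 1)) _ (f 0) (ha t (by omega))
          (hb t (by omega)) (nz t (by omega)) with ⟨u, hu, g⟩ | g
        · obtain ⟨w, r1, r2⟩ := h u hu
          exact Or.inl ⟨u, fun w' hw' => ext t u w w' r1 hw' (g w r2 w' hw')⟩
        · refine Or.inr fun u hu => ?_
          obtain ⟨w, r1, r2⟩ := h u hu
          obtain ⟨w', e1, e2, e3⟩ := g u hu w r2
          exact ⟨w', ext t u w w' r1 e1 e2, by rw [Finset.prod_range_succ]; exact e3⟩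
  obtain ⟨t, rfl⟩ : ∃ t, m = t + 1 := ⟨m - 1, by omega⟩
  have fin : ∀ u w, Re t u w → a t * w + b t * u + c t ≠ 0 → ∃ y : ℕ → ZMod 3,
      (∀ i < t + 1, y i ≠ f i) ∧
        ∀ i < t + 1, a i * y i + b i * y ((i + 1) % (t + 1)) + c i ≠ 0 := by
    rintro u w ⟨y, h1, h2, h3, h4⟩ e
    refine ⟨y, fun i hi => h3 i (by omega), fun i hi => ?_⟩
    by_cases r : i = t
    · subst r; rw [Nat.mod_self, h1, h2]; exact e
    · rw [Nat.mod_eq_of_lt (by omega)]; exact h4 i (by omega)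
  rcases inv t (by omega) with ⟨u, h⟩ | h
  · obtain ⟨w, e1, e2⟩ := dp_loose (a t) (b t) (c t) (f t) u (ha t (by omega))
    exact fin u w (h w e1) e2
  · rw [Finset.prod_range_succ] at hs
    obtain ⟨u, hu, g⟩ := dp_close (a t) (b t) (c t) (f t) _ (f 0) hs
    obtain ⟨w, r1, r2⟩ := h u hu
    exact fin u w r1 (g w r2)

end Pool.Agent.Hom2
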