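import Mathlib

set_option autoImplicit false

namespace Pool.Agent.Hom2

variable {V : Type}

/-- colour `a` at a vertex whose three neighbours carry `x y z`: proper, exactly two colours seen -/
def ok4 {α : Type} (a x y z : α) : Prop :=
  a ≠ x ∧ a ≠ y ∧ a ≠ z ∧ ¬ (x = y ∧ y = z) ∧ (x = y ∨ y = z ∨ x = z)

instance ok4Dec {α : Type} [DecidableEq α] (a x y z : α) : Decidable (ok4 a x y z) := by
  unfold ok4; infer_instance

/-- `x y z` are the three distinct neighbours of `v` -/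
def Nb (G : SimpleGraph V) (v x y z : V) : Prop :=
  x ≠ y ∧ x ≠ z ∧ y ≠ z ∧ ∀ w, G.Adj v w ↔ w = x ∨ w = y ∨ w = z

/-- every live vertex has exactly three neighbours in the ambient graph; an edge leaving `X` is a stub -/
def Cub (G : SimpleGraph V) (X : Finset V) : Prop := ∀ v ∈ X, ∃ x y z, Nb G v x y z

/-- the colouring is 2-homogeneous at `v` -/
def OK {α : Type} (G : SimpleGraph V) (c : V → α) (v : V) : Prop :=
  ∀ x y z, Nb G v x y z → ok4 (c v) (c x) (c y) (c z)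

/-- colour 3 (infinity) outside `X` except on the free set `T`, fine at every vertex of `X` -/
def Col (G : SimpleGraph V) (X : Finset V) (T : Set V) : Prop :=
  ∃ c : V → Fin 4, (∀ v, v ∉ X → v ∉ T → c v = 3) ∧ ∀ v ∈ X, OK G c v

def Good (G : SimpleGraph V) (X : Finset V) : Prop := Col G X ∅

/-- the outer vertex `h` has a free colour -/
def GoodF (G : SimpleGraph V) (X : Finset V) (h : V) : Prop := Col G X {h}

/-- no colouring with any number of colours is fine on all of `X` -/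
def Unc (G : SimpleGraph V) (X : Finset V) : Prop := ¬ ∃ c : V → ℕ, ∀ v ∈ X, OK G c v

/-- the only possible edge from `A` to `X \ A` is `a b` -/
def Only (G : SimpleGraph V) (X A : Finset V) (a b : V) : Prop :=
  ∀ x ∈ A, ∀ y ∈ X, y ∉ A → G.Adj x y → x = a ∧ y = b

/-- connected, bridgeless, at least two vertices -/
def TwoEC (G : SimpleGraph V) (X : Finset V) : Prop :=
  (∃ a ∈ X, ∃ b ∈ X, a ≠ b) ∧ ∀ A ⊆ X, A.Nonempty → A ≠ X → ∀ a b, ¬ Only G X A a b

def Conn (G : SimpleGraph V) (X : Finset V) : Prop :=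
  ∀ A ⊆ X, A.Nonempty → A ≠ X → ∃ x ∈ A, ∃ y ∈ X, y ∉ A ∧ G.Adj x y

/-- no stub -/
def Closed (G : SimpleGraph V) (X : Finset V) : Prop := ∀ x ∈ X, ∀ y, G.Adj x y → y ∈ X

/-- AAA vertex -/
def Iso (G : SimpleGraph V) (X : Finset V) (v : V) : Prop := v ∈ X ∧ ∀ u ∈ X, ¬ G.Adj v u

/-- AA leaf `v` hanging at `w` -/
def Leaf (G : SimpleGraph V) (X : Finset V) (v w : V) : Prop :=
  v ∈ X ∧ w ∈ X ∧ G.Adj v w ∧ ∀ u ∈ X, G.Adj v u → u = w

/-- the outer vertex `h` has exactly one neighbour `p` in `W` -/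
def Port (G : SimpleGraph V) (W : Finset V) (h p : V) : Prop :=
  h ∉ W ∧ p ∈ W ∧ G.Adj p h ∧ ∀ q ∈ W, G.Adj q h → q = p

/-- `p h` is the only possible stub of `W` -/
def Single (G : SimpleGraph V) (W : Finset V) (h p : V) : Prop :=
  ∀ q ∈ W, ∀ y, y ∉ W → G.Adj q y → q = p ∧ y = h

/-- conclusion of the free-stub facts -/
def FF (G : SimpleGraph V) (W : Finset V) : Prop :=
  ∀ h p, Port G W h p → GoodF G W h ∨ (Single G W h p ∧ Unc G W)

/-- every 2-edge-connected induced part of `X` is good with any one stub free -/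
def HF (G : SimpleGraph V) (X : Finset V) : Prop :=
  ∀ W ⊆ X, TwoEC G W → ∀ h p, Port G W h p → GoodF G W h

/-- witness of a bad remainder `X`: a bad block `W`, `H` = `W` with its AA leaves, at most one
further edge `a b` (the free port) -/
structure Wit (G : SimpleGraph V) (X W H : Finset V) (a b : V) : Prop where
  sub : W ⊆ H
  subX : H ⊆ X
  two : TwoEC G W
  badW : ¬ Good G W
  badH : ¬ Good G H
  leaf : ∀ y ∈ H, y ∉ W → ∃ x ∈ W, Leaf G X y x
  only : Only G X H a b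

/-- rewiring S2: forget `p q`, join `u w` -/
def rew (G : SimpleGraph V) (u p q w : V) : SimpleGraph V where
  Adj x y := x ≠ y ∧ ((G.Adj x y ∧ x ≠ p ∧ x ≠ q ∧ y ≠ p ∧ y ≠ q) ∨ (x = u ∧ y = w) ∨ (x = w ∧ y = u))
  symm := ⟨by
    rintro x y ⟨h, h1 | h1 | h1⟩
    · exact ⟨h.symm, Or.inl ⟨h1.1.symm, h1.2.2.2.1, h1.2.2.2.2, h1.2.1, h1.2.2.1⟩⟩
    · exact ⟨h.symm, Or.inr (Or.inr ⟨h1.2, h1.1⟩)⟩
    · exact ⟨h.symm, Or.inr (Or.inl ⟨h1.2, h1.1⟩)⟩⟩
  loopless := ⟨fun x h => h.1 rfl⟩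

/-- `u p q w` is a path in `X`, `p` and `q` carry the stubs `s` and `t`, `u` and `w` are distinct and
not adjacent -/
structure Thr (G : SimpleGraph V) (X : Finset V) (u p q w s t : V) : Prop where
  mu : u ∈ X
  mp : p ∈ X
  mq : q ∈ X
  mw : w ∈ X
  ms : s ∉ X
  mt : t ∉ X
  np : Nb G p u q s
  nq : Nb G q p w t
  ne : u ≠ w
  nadj : ¬ G.Adj u w

/-- a cycle of length `L` in `X`, read periodically -/
structure Cyc (G : SimpleGraph V) (X : Finset V) (L : ℕ) (z : ℕ → V) : Prop where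
  three : 3 ≤ L
  mem : ∀ i, z i ∈ X
  adj : ∀ i, G.Adj (z i) (z (i + 1))
  inj : ∀ i j, z i = z j ↔ i % L = j % L

/-- embedding of a pattern with `n` vertices; `sl i k` is the code of half-edge `k < 3` of vertex `i`:
0 open, 1 stub, `y + 2` the pattern vertex `y`; `nu i k` is the neighbour along that half-edge -/
structure Emb (G : SimpleGraph V) (X : Finset V) (n : ℕ) (sl : ℕ → ℕ → ℕ) (ph : ℕ → V)
    (nu : ℕ → ℕ → V) : Prop where
  mem : ∀ i < n, ph i ∈ X
  inj : ∀ i < n, ∀ j < n, ph i = ph j → i = j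
  nb : ∀ i < n, Nb G (ph i) (nu i 0) (nu i 1) (nu i 2)
  stub : ∀ i < n, ∀ k < 3, sl i k = 1 → nu i k ∉ X
  edge : ∀ i < n, ∀ k < 3, ∀ y, sl i k = y + 2 → y < n ∧ nu i k = ph y

end Pool.Agent.Hom2
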