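import Pool.Agent.Lib.MP_7e4769_co.Sp.YFinal
import Pool.Agent.Lib.MP_7e4769_co.Sp.YBr1
import Pool.Agent.Lib.MP_7e4769_co.Sp.YBr2

set_option autoImplicit false

namespace Pool.Agent.Hom2

open Pool.Agent.Lib.MP_7e4769_co

variable {V : Type} [DecidableEq V] {G : SimpleGraph V} {X : Finset V}

/-- The long cycle theorem. `Sp.Trip G W f`: three consecutive ports of `W`, or two ports on a
triangle, away from `f`. -/
theorem long_cycle (hc : Cub G X) (hcl : Closed G X) (h2 : TwoEC G X) {L : ℕ} {z : ℕ → V}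
    (hz : Cyc G X L z) (hev : L % 2 = 0) (h22 : 22 ≤ L)
    (hmin : ∀ L' z', L' % 2 = 0 → Cyc G X L' z' → L ≤ L')
    (hF : ∀ W ⊆ X, W ≠ X → TwoEC G W → FF G W)
    (hT : ∀ W ⊆ X, W ≠ X → TwoEC G W → ¬ Good G W → ∀ f, Sp.Trip G W f) : Good G X := by
  classical
  obtain ⟨x, l, h1, e⟩ := Sp.isCyc_of_cyc hz
  obtain ⟨c, k⟩ := Sp.long_good (Sp.sub_reg hc hcl)
    (fun P hP he hg f => Sp.trip_down hcl (hT _ (Sp.upS_sub P) (Sp.upS_ne hP) (Sp.ec2_up he)
      (fun q => hg ((Sp.good_up hc hcl P).2 q)) f.1))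
    (fun C P hC hn hPC hP hg h => by
      obtain ⟨a, b, ho⟩ := Sp.only_up hP h
      refine (Sp.good_up hc hcl C).2 (root_one (hc.mono (Sp.upS_sub C))
        (HF.of_two h2 (Sp.upS_sub C) (Sp.upS_ne hC) fun W hW => hF W (hW.trans (Sp.upS_sub C))
          fun q => Sp.upS_ne hC (Finset.Subset.antisymm (Sp.upS_sub C) (q ▸ hW)))
        Finset.Subset.rfl (Sp.conn_up hn) (Sp.upS_mono hPC) ?_ ho ((Sp.good_up hc hcl P).1 hg)
        fun t ht => absurd ht (Set.notMem_empty t))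
      obtain ⟨p, hp⟩ := hP
      exact ⟨p.1, Sp.val_mem_upS.2 hp⟩)
    h1 (by omega) (fun y m hm hl => by
      obtain ⟨w, hw⟩ := Sp.cyc_of_isCyc hm
      by_contra q
      have := hmin _ w (by omega) hw
      omega) (by omega)
  have g := (Sp.good_up hc hcl Finset.univ).1
    ⟨c, fun v hv => absurd (Finset.mem_univ v) hv, fun v _ => k v⟩
  have e2 : Sp.upS (Finset.univ : Finset X) = X :=
    Finset.Subset.antisymm (Sp.upS_sub _) fun v hv => Sp.mem_upS.2 ⟨hv, Finset.mem_univ _⟩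
  rwa [e2] at g

end Pool.Agent.Hom2
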