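import Pool.Agent.Lib.MP_7e4769_co.Hc.TDefs
import Pool.Agent.Lib.MP_7e4769_co.Hc.Long

set_option autoImplicit false

namespace Pool.Agent.Hom2

open Pool.Agent.Lib.MP_7e4769_co

variable {V : Type} {G : SimpleGraph V} {X W : Finset V}

/-- `c` lists an even cycle of the pattern with fewer than 22 vertices -/
def lmCyc (n R : ℕ) (c : List ℕ) : Prop :=
  c.length % 2 = 0 ∧ 3 ≤ c.length ∧ c.length < 22 ∧
    (∀ i < c.length, ∀ j < c.length, c.getD i 0 = c.getD j 0 → i = j) ∧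
    (∀ i < c.length, c.getD i 0 < n) ∧
    (∀ i < c.length - 1, lists R (c.getD i 0) (c.getD (i + 1) 0) = true) ∧
    lists R (c.getD (c.length - 1) 0) (c.getD 0 0) = true

instance (n R : ℕ) (c : List ℕ) : Decidable (lmCyc n R c) := by
  unfold lmCyc; infer_instance

/-- a triple of ports away from the pattern vertex `j` -/
def lmTri (n R j : ℕ) (t : ℕ × ℕ × ℕ) : Prop :=
  t.1 < n ∧ t.2.1 < n ∧ t.2.2 < n ∧ lists R t.1 t.2.1 = true ∧ lists R t.2.1 t.2.2 = true ∧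
    t.1 ≠ t.2.2 ∧ t.1 ≠ j ∧ t.2.1 ≠ j ∧ hasStub R t.1 = true ∧ hasStub R t.2.1 = true ∧
    (lists R t.2.2 t.1 = true ∨ (t.2.2 ≠ j ∧ hasStub R t.2.2 = true))

instance (n R j : ℕ) (t : ℕ × ℕ × ℕ) : Decidable (lmTri n R j t) := by
  unfold lmTri; infer_instance

def lmC : List (List ℕ) :=
  [[0, 1, 2, 3],
   [0, 2, 1, 3],
   [4, 6, 9, 7],
   [4, 6, 9, 7],
   [3, 6, 4, 7],
   [3, 6, 9, 7],
   [0, 1, 5, 11, 7, 2],
   [],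
   [],
   [],
   [],
   [],
   [],
   [],
   [0, 1, 3, 2],
   [0, 1, 3, 2],
   [0, 1, 3, 2],
   [0, 1, 3, 2],
   [0, 1, 3, 2],
   [0, 1, 3, 2],
   [0, 1, 3, 2],
   [0, 1, 5, 4, 3, 2],
   [0, 1, 5, 4, 3, 2],
   [0, 1, 5, 4, 3, 2],
   [0, 1, 5, 4, 3, 2],
   [0, 1, 5, 4, 3, 2],
   [0, 1, 5, 4, 3, 2],
   [0, 1, 7, 6, 5, 4, 3, 2],
   [0, 1, 7, 6, 5, 4, 3, 2],
   [0, 1, 7, 6, 5, 4, 3, 2],
   [0, 1, 7, 6, 5, 4, 3, 2],
   [0, 1, 7, 6, 5, 4, 3, 2],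
   [0, 1, 9, 8, 7, 6, 5, 4, 3, 2],
   [0, 1, 9, 8, 7, 6, 5, 4, 3, 2],
   [0, 1, 9, 8, 7, 6, 5, 4, 3, 2],
   [0, 1, 9, 8, 7, 6, 5, 4, 3, 2],
   [0, 1, 11, 10, 9, 8, 7, 6, 5, 4, 3, 2],
   [0, 1, 11, 10, 9, 8, 7, 6, 5, 4, 3, 2],
   [0, 1, 11, 10, 9, 8, 7, 6, 5, 4, 3, 2],
   [0, 1, 13, 12, 11, 10, 9, 8, 7, 6, 5, 4, 3, 2],
   [0, 1, 13, 12, 11, 10, 9, 8, 7, 6, 5, 4, 3, 2],
   [0, 1, 15, 14, 13, 12, 11, 10, 9, 8, 7, 6, 5, 4, 3, 2],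
   [0, 4, 1, 3],
   [0, 1, 5, 2, 3, 6],
   [8, 10, 13, 11],
   [8, 10, 13, 11],
   [0, 8, 4, 1, 5, 9],
   [0, 10, 4, 1, 5, 11],
   [0, 12, 4, 1, 5, 13],
   [0, 14, 4, 1, 5, 15],
   [0, 16, 4, 1, 5, 17],
   [0, 18, 4, 1, 5, 19],
   [0, 20, 4, 1, 5, 21],
   [0, 22, 4, 1, 5, 23],
   [0, 6, 1, 4],
   [0, 6, 1, 4],
   [0, 6, 1, 4],
   [0, 6, 1, 4],
   [0, 6, 1, 4],
   [0, 6, 1, 4],
   [0, 6, 1, 4],
   [0, 6, 1, 4],
   [0, 2, 5, 4],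
   [0, 2, 5, 4],
   [0, 2, 5, 4],
   [0, 2, 5, 4],
   [0, 2, 5, 4],
   [0, 2, 5, 4],
   [0, 2, 5, 4],
   []]

def lmT : List (List (ℕ × ℕ × ℕ)) :=
  [[], [], [], [], [], [], [], [(0, 1, 2), (0, 2, 1), (1, 2, 0)], [(0, 1, 2), (0, 4, 3), (1, 2, 3)], [(0, 1, 2), (3, 4, 5)], [(0, 1, 2), (3, 4, 5)], [(0, 1, 2), (3, 4, 5)], [(0, 1, 2), (3, 4, 5)], [(0, 1, 2), (3, 4, 5)], [], [], [], [], [], [], [], [], [], [], [], [], [], [], [], [], [], [], [], [], [], [], [], [], [], [], [], [], [], [], [], [], [], [], [], [], [], [], [], [], [], [], [], [], [], [], [], [], [], [], [], [], [], [], [], [(0, 1, 2), (3, 4, 5)]]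

theorem lm_all : ∀ m < 70, lmCyc (mN m) (mR m) (lmC.getD m []) ∨
    ∀ j < mN m + 1, ∃ t ∈ lmT.getD m [], lmTri (mN m) (mR m) j t := by
  decide +kernel

theorem SE.lm_adj {n R : ℕ} {ph : ℕ → V} (h : SE G W n (sl R) ph) {i j : ℕ} (hi : i < n)
    (e : lists R i j = true) : G.Adj (ph i) (ph j) := by
  obtain ⟨k, k3, q⟩ := (lists_iff R i j).1 e
  exact (h.edge i hi k k3 j q).2

theorem SE.lm_stub {n R : ℕ} {ph : ℕ → V} (h : SE G W n (sl R) ph) {i : ℕ} (hi : i < n)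
    (e : hasStub R i = true) : ∃ s, s ∉ W ∧ G.Adj (ph i) s := by
  obtain ⟨k, k3, q⟩ := (hasStub_iff R i).1 e
  exact h.stub i hi k k3 q

theorem SE.lm_cyc {n R : ℕ} {ph : ℕ → V} (h : SE G W n (sl R) ph) (hW : W ⊆ X) {c : List ℕ}
    (hc : lmCyc n R c) : ∃ L z, L % 2 = 0 ∧ L < 22 ∧ Cyc G X L z := by
  obtain ⟨h1, h2, h3, h4, h5, h6, h7⟩ := hc
  have p : Pth G X (c.length - 1) (fun i => ph (c.getD i 0)) :=
    ⟨fun i hi => hW (h.mem _ (h5 i (by omega))),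
      fun i hi j hj e => h4 i (by omega) j (by omega)
        (h.inj _ (h5 i (by omega)) _ (h5 j (by omega)) e),
      fun i hi => h.lm_adj (h5 i (by omega)) (h6 i hi)⟩
  exact ⟨_, _, by omega, by omega, p.cyc (by omega) (h.lm_adj (h5 _ (by omega)) h7)⟩

theorem SE.lm_trip {n R : ℕ} {ph : ℕ → V} (h : SE G W n (sl R) ph) {T : List (ℕ × ℕ × ℕ)}
    (hT : ∀ j < n + 1, ∃ t ∈ T, lmTri n R j t) (f : V) : Sp.Trip G W f := by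
  obtain ⟨j, hj, hf⟩ : ∃ j < n + 1, ∀ i < n, i ≠ j → ph i ≠ f := by
    by_cases e : ∃ j < n, ph j = f
    · obtain ⟨j, a, b⟩ := e
      exact ⟨j, by omega, fun i hi hij q => hij (h.inj i hi j a (q.trans b.symm))⟩
    · exact ⟨n, by omega, fun i hi _ q => e ⟨i, hi, q⟩⟩
  obtain ⟨⟨a, b, g⟩, -, a1, b1, g1, ab, bg, ag, aj, bj, sa, sb', o⟩ := hT j hj
  exact ⟨_, h.mem a a1, _, h.mem b b1, _, h.mem g g1, h.lm_adj a1 ab, h.lm_adj b1 bg,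
    fun e => ag (h.inj a a1 g g1 e), hf a a1 aj, hf b b1 bj, h.lm_stub a1 sa, h.lm_stub b1 sb',
    o.imp (h.lm_adj g1) fun q => ⟨hf g g1 q.1, h.lm_stub g1 q.2⟩⟩

/-- The long cycle theorem in the frame of the main theorem. -/
theorem long_cycle_T [DecidableEq V] (hc : Cub G X) (hcl : Closed G X) (h2 : TwoEC G X) {L : ℕ}
    {z : ℕ → V} (hz : Cyc G X L z) (hev : L % 2 = 0) (h22 : 22 ≤ L)
    (hmin : ∀ L' z', L' % 2 = 0 → Cyc G X L' z' → L ≤ L')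
    (hF : ∀ W ⊆ X, W ≠ X → TwoEC G W → FF G W) (hT : TBelow V X.card) : Good G X := by
  refine long_cycle hc hcl h2 hz hev h22 hmin hF fun W hW hne hw hg f => ?_
  obtain ⟨m, hm, ph, he⟩ := (hT G W (Finset.card_lt_card (Finset.ssubset_iff_subset_ne.2
    ⟨hW, hne⟩)) (hc.mono hW) hw).resolve_left hg
  rcases lm_all m hm with q | q
  · obtain ⟨L', z', a, b, d⟩ := he.lm_cyc hW q
    have := hmin L' z' a d
    omega
  · exact he.lm_trip q f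

end Pool.Agent.Hom2
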