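import Pool.Agent.Lib.MP_7e4769_co.Hc.ScA

set_option autoImplicit false

namespace Pool.Agent.Hom2.Sc.Dp

def fld (B p w : Nat) : Nat := Nat.mod (Nat.shiftRight B p) w
def shr (B p : Nat) : Nat := Nat.shiftRight B p
def pos (i k : Nat) : Nat := Nat.add (Nat.mul 18 i) (Nat.mul 6 k)
def sl (R i k : Nat) : Nat := fld R (pos i k) 64
def put (R i k c : Nat) : Nat := Nat.lor R (Nat.shiftLeft c (pos i k))
def tb (m i : Nat) : Bool := Nat.beq (fld m i 2) 1
def lt (a b : Nat) : Bool := Nat.ble (Nat.succ a) b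
def ne (a b : Nat) : Bool := !Nat.beq a b
def fz (x : Nat) (k : Nat → Nat) : Nat := Nat.casesOn x (k 0) (fun m => k (Nat.succ m))
def fzb (x : Nat) (k : Nat → Bool) : Bool := Nat.casesOn x (k 0) (fun m => k (Nat.succ m))
def sq (x : Nat) (k : Nat → Nat) : Nat := Nat.casesOn x 0 (fun m => k (Nat.succ m))
noncomputable def allLt (n : Nat) (f : Nat → Bool) : Bool := Nat.rec true (fun i r => f i && r) n
noncomputable def thr (n : Nat) (f : Nat → Nat → Nat) (B : Nat) : Nat := Nat.rec B (fun i r => sq r (f i)) n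
def all3 (f : Nat → Bool) : Bool := f 0 && (f 1 && f 2)
def inM (m c : Nat) : Bool := Nat.ble 2 c && tb m (Nat.sub c 2)
def vr (P i : Nat) : Nat := fld P (Nat.mul 6 i) 64
def vc (K P c : Nat) : Nat := bif inM K c then vr P (Nat.sub c 2) else 63
def b2n (b : Bool) : Nat := bif b then 1 else 0
def mul3 (f : Nat → Nat) (v : Nat) : Nat :=
  Nat.add (b2n (Nat.beq (f 0) v)) (Nat.add (b2n (Nat.beq (f 1) v)) (b2n (Nat.beq (f 2) v)))
def nxt (c0 nv v : Nat) : Nat := bif Nat.beq (Nat.succ v) nv then c0 else Nat.succ v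
def slotOK (R K P v lim d : Nat) : Bool :=
  bif Nat.beq d 0 then true else bif lt d 64 then lt (Nat.sub d 1) lim else
    fzb (Nat.sub d 64) fun s =>
      all3 (fun k => fzb (vc K P (sl R s k)) fun x => Nat.beq x 63 || Nat.beq x v || lt x lim) &&
      fzb (mul3 (fun k => vc K P (sl R s k)) v) fun m => Nat.beq m 1 || Nat.beq m 2
def cycS (R K P c0 v v' d : Nat) : Nat :=
  bif lt d 64 then (bif Nat.beq d (Nat.succ v') then 1 else 2) else
    fz (Nat.sub d 64) fun s =>
      bif all3 (fun k => fzb (vc K P (sl R s k)) fun x =>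
        Nat.beq x 63 || Nat.beq x v || Nat.beq x v' || lt x c0) then
      fz (mul3 (fun k => vc K P (sl R s k)) v) fun m => fz (mul3 (fun k => vc K P (sl R s k)) v') fun m' =>
        bif Nat.beq m 1 && Nat.beq m' 1 then 0 else
        bif Nat.beq (Nat.mul m m') 2 then 1 else 2
      else 2
def noLate (R K P s : Nat) : Bool := all3 (fun k => !inM K (sl R s k) || ne (vc K P (sl R s k)) 63)

/-- form code `j < 3` of variable `v` -/
def t3 (T v j : Nat) : Nat := fld T (Nat.add (Nat.mul 21 v) (Nat.mul 7 j)) 128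
/-- half-edge code of a column -/
def cdv (j : Nat) : Nat := Nat.xor (Nat.mod (Nat.add j 2) 64) (Nat.div j 62)
noncomputable def mkR (n A : Nat) : Nat :=
  Nat.rec 0 (fun i r => fz r fun R => fz (row A i) fun x =>
    put (put (put R i 0 (cdv (ix x))) i 1 (cdv (ix (clr x)))) i 2 (cdv (ix (clr (clr x))))) n
def cm (T v : Nat) : Nat := Nat.lor (pw (t3 T v 0)) (Nat.lor (pw (t3 T v 1)) (pw (t3 T v 2)))
noncomputable def mkE (w nv T : Nat) : Nat :=
  Nat.rec 0 (fun v r => fz r fun E => Nat.lor E (Nat.shiftLeft (cm T v) (Nat.mul w v))) nv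
def hasE (E a b : Nat) : Bool :=
  lt b 63 && (tb E (Nat.add (Nat.mul 128 a) (Nat.succ b)) || tb E (Nat.add (Nat.mul 128 b) (Nat.succ a)))
def hasR (M s : Nat) : Bool := tb M (Nat.add s 64)
noncomputable def cycPar (R K P T c0 c1 : Nat) : Nat :=
  thr (Nat.sub c1 c0) (fun i a => fz (Nat.add c0 i) fun v =>
    fz (cycS R K P c0 v (nxt c0 c1 v) (t3 T v 1)) fun s =>
      bif Nat.beq s 0 then a else bif Nat.beq s 1 then Nat.sub 3 a else 0) 1
def vK (R K P E M i : Nat) : Bool :=
  fzb (vr P i) fun a => fzb (sl R i 0) fun c0 => fzb (sl R i 1) fun c1 => fzb (sl R i 2) fun c2 =>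
  ne c2 0 && bif Nat.beq a 63 then
    inM K c0 && inM K c1 && inM K c2 && noLate R K P i && hasR M i
  else
    bif inM K c0 then
      bif inM K c1 then
        bif inM K c2 then hasE E a (vc K P c0) && hasE E a (vc K P c1) && hasE E a (vc K P c2) &&
          hasR M i
        else Nat.beq (vc K P c0) (vc K P c1) && hasE E a (vc K P c0)
      else bif inM K c2 then Nat.beq (vc K P c0) (vc K P c2) && hasE E a (vc K P c0)
        else Nat.beq (vc K P c0) 63 || hasE E a (vc K P c0)
    else bif inM K c1 then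
        bif inM K c2 then Nat.beq (vc K P c1) (vc K P c2) && hasE E a (vc K P c1)
        else Nat.beq (vc K P c1) 63 || hasE E a (vc K P c1)
      else inM K c2 && (Nat.beq (vc K P c2) 63 || hasE E a (vc K P c2))
/-- greedy variable, the equation variable `u` and its partner `w` -/
def gV (R K P T u w v : Nat) : Bool :=
  bif Nat.beq v u then Nat.beq (fld T (Nat.mul 21 v) 2097152) 0 && lt u w && lt w 63 &&
    ne (cycS R K P u w u (t3 T w 2)) 2 && slotOK R K P w u (t3 T w 0)
  else slotOK R K P v v (t3 T v 1) && bif Nat.beq v w then lt u w else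
    Nat.beq (t3 T v 2) 0 && slotOK R K P v v (t3 T v 0)
def cV (R K P T u c0 v : Nat) : Bool :=
  ne v u && Nat.beq (t3 T v 2) 0 && slotOK R K P v c0 (t3 T v 0)
noncomputable def varC (R K P T c0 c1 nv u w : Nat) : Bool :=
  Nat.ble c0 c1 && Nat.ble c1 nv && lt nv 63 && ne (Nat.succ c0) c1 &&
  allLt nv (fun v => bif Nat.ble c0 v && lt v c1 then cV R K P T u c0 v else gV R K P T u w v) &&
  Nat.beq (cycPar R K P T c0 c1) 1
noncomputable def verC (n A R S K P E M : Nat) : Bool :=
  Nat.beq (Nat.land S K) 0 && fzb (Nat.lor (Nat.lor S K) 4611686018427387904) fun Z =>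
  allLt n (fun i => bif tb K i then Nat.beq (an (row A i) Z) 0 && vK R K P E M i else
    bif tb S i then noLate R K P i && hasR M i else true)
/-- payment: `c0 c1 nv u w` (6 bits each), 6 bits per vertex, 21 bits per variable -/
noncomputable def dp (n A S K B : Nat) : Nat :=
  fz (fld B 12 64) fun nv => fz (mkR n A) fun R => fz (fld B 30 (pw (Nat.mul 6 n))) fun P =>
  fz (fld B (Nat.add 30 (Nat.mul 6 n)) (pw (Nat.mul 21 nv))) fun T =>
  fz (mkE 128 nv T) fun E => fz (mkE 0 nv T) fun M =>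
    bif varC R K P T (fld B 0 64) (fld B 6 64) nv (fld B 18 64) (fld B 24 64) && verC n A R S K P E M
    then shr B (Nat.add (Nat.add 30 (Nat.mul 6 n)) (Nat.mul 21 nv)) else 0

end Pool.Agent.Hom2.Sc.Dp
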