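import Pool.Agent.Lib.MP_7e4769_co.Hc.ScF
import Pool.Agent.Lib.MP_7e4769_co.Hc.ScPa

set_option autoImplicit false
set_option linter.unusedVariables false

namespace Pool.Agent.Hom2.St
open Pool.Agent.Hom2.Sc

def leaf (r : Nat) (T : Td) : Td := .inc 1 (.ns 0 r (.nb r (.sa 2 0 (.pop T))))
def lab (r : Nat) (T : Td) : Td := .or (.sa 1 r T) (leaf r T)
/-- registers `w x b a`: triangle, vertex `w` with one mark, triangle -/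
def d5 : Td := .sa 1 0 (.nb 0 (.nb 0 (.nb 1 (.ed 0 1 (.ask (lab 0 (.ask (lab 1 .done))))))))
/-- registers `z2 z1 w`: two more triangles at `w`, four direct marks -/
def t2 : Td := .nb 1 (.nb 2 (.ed 0 1 (.nb 2 (.nb 3 (.ed 0 1 (.sa 1 0 (.sa 1 1 (.sa 1 2 (.sa 1 3 .done)))))))))
/-- registers `z2 z1 w`: a 5-cycle through `w`, four direct marks -/
def c5 : Td := .nb 1 (.nb 1 (.ed 0 1 (.sa 1 0 (.sa 1 1 (.sa 1 2 (.sa 1 3 .done))))))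
def d6 : Td := .ns 0 0 (.nb 0 (.nb 1 (.ask (.or t2 c5))))
def lab0 (r : Nat) (T : Td) : Td := .or (.sa 1 r T) (.ns 0 r (.nb r (.sa 2 0 (.pop T))))
def pair2 : Td := .nb 0 (.ask (lab0 0 (.rs (.nb 1 (.ask (.or (.ed 0 1 .done) (.nb 1 (.ask (.or
  (lab0 1 (.ask (lab0 0 .done))) (.ed 0 1 .done))))))))))
/-- a second end block behind the free edge -/
def sec : Td := .st (.ask (.or pair2 (.sa 2 0 (.nb 0 pair2))))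
def free : Td := .or (.inc 2 sec) (.nb 0 (.ask (.or d5 (.inc 1 d6))))
/-- registers `x b a`: third vertex of the triangle -/
def third : Td := .or (.sa 1 0 .done) (.or (leaf 0 .done) (.inc 2 (.ns 0 0 free)))
def tri : Td := .ed 0 1 (.ask third)
/-- registers `b' a' b a`: 5-cycle, fifth vertex direct, leaf, or joined to a triangle with two direct marks -/
def c5w : Td := .nb 1 (.ed 0 1 (.ask (.or (.sa 1 0 .done) (.or (leaf 0 .done) (.inc 1 (.ns 0 0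
  (.nb 0 (.nb 0 (.nb 1 (.ed 0 1 (.sa 1 0 (.sa 1 1 .done))))))))))))
def p4 : Td := lab 1 (.ask (lab 0 (.ask (.or c5w (.or (.inc 1 (.nb 1 (.nb 1 (.ed 0 1 .done)))) (.inc 2 .done))))))
/-- registers `a' b a` -/
def rest : Td := .inc 2 (.nb 1 (.ask (.or p4 (.inc 2 (.ed 0 1 .done)))))
/-- register `a` -/
def pair : Td := .nb 0 (.ask (lab 0 (.rs (.nb 1 (.ask (.or tri rest))))))
def root : Td := .st (.ask (.or (.sa 3 0 .done) (.or pair (.inc 1 (.sa 2 0 (.nb 0 pair))))))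
/-- cores: g0 two triangles joined by an edge, g1 domino, g2 K44, g5 KD1, g3 KD-open -/
def prog (g0 g1 g2 g5 g3 : Nat) : Td := .or (.inc 3 root)
  (.inc 4 (.or (.core g0) (.or (.core g1) (.or (.core g2) (.or (.core g5) (.inc 2 (.core g3)))))))

def pr4 (g0 g1 g2 g5 g3 : Nat) : Td := (.or (.inc 3 (.st (.ask (.or (.sa 3 0 .done) (.or (.nb 0 (.ask (.or (.sa 1 0 (.rs (.nb 1 (.ask (.or (.ed 0 1 (.ask (.or (.sa 1 0 .done) (.or (.inc 1 (.ns 0 0 (.nb 0 (.sa 2 0 (.pop .done))))) (.inc 2 (.ns 0 0 (.or (.inc 2 (.st (.ask (.or (.nb 0 (.ask (.or (.sa 1 0 (.rs (.nb 1 (.ask (.or (.ed 0 1 .done) (.nb 1 (.ask (.or (.or (.sa 1 1 (.ask (.or (.sa 1 0 .done) (.ns 0 0 (.nb 0 (.sa 2 0 (.pop .done))))))) (.ns 0 1 (.nb 1 (.sa 2 0 (.pop (.ask (.or (.sa 1 0 .done) (.ns 0 0 (.nb 0 (.sa 2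 0 (.pop .done))))))))))) (.ed 0 1 .done))))))))) (.ns 0 0 (.nb 0 (.sa 2 0 (.pop (.rs (.nb 1 (.ask (.or (.ed 0 1 .done) (.nb 1 (.ask (.or (.or (.sa 1 1 (.ask (.or (.sa 1 0 .done) (.ns 0 0 (.nb 0 (.sa 2 0 (.pop .done))))))) (.ns 0 1 (.nb 1 (.sa 2 0 (.pop (.ask (.or (.sa 1 0 .done) (.ns 0 0 (.nb 0 (.sa 2 0 (.pop .done))))))))))) (.ed 0 1 .done))))))))))))))) (.sa 2 0 (.nb 0 (.nb 0 (.ask (.or (.sa 1 0 (.rs (.nb 1 (.ask (.or (.ed 0 1 .done) (.nb 1 (.ask (.or (.or (.sa 1 1 (.ask (.or (.sa 1 0 .done) (.ns 0 0 (.nb 0 (.sa 2 0 (.pop .done))))))) (.ns 0 1 (.nb 1 (.sa 2 0 (.pop (.ask (.or (.sa 1 0 .done) (.ns 0 0 (.nb 0 (.sa 2 0 (.pop .done))))))))))) (.ed 0 1 .done))))))))) (.ns 0 0 (.nb 0 (.sa 2 0 (.pop (.rs (.nb 1 (.ask (.or (.ed 0 1 .done) (.nb 1 (.ask (.or (.or (.sa 1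 1 (.ask (.or (.sa 1 0 .done) (.ns 0 0 (.nb 0 (.sa 2 0 (.pop .done))))))) (.ns 0 1 (.nb 1 (.sa 2 0 (.pop (.ask (.or (.sa 1 0 .done) (.ns 0 0 (.nb 0 (.sa 2 0 (.pop .done))))))))))) (.ed 0 1 .done))))))))))))))))))))) (.nb 0 (.ask (.or (.sa 1 0 (.nb 0 (.nb 0 (.nb 1 (.ed 0 1 (.ask (.or (.sa 1 0 (.ask (.or (.sa 1 1 .done) (.inc 1 (.ns 0 1 (.nb 1 (.sa 2 0 (.pop .done)))))))) (.inc 1 (.ns 0 0 (.nb 0 (.sa 2 0 (.pop (.ask (.or (.sa 1 1 .done) (.inc 1 (.ns 0 1 (.nb 1 (.sa 2 0 (.pop .done))))))))))))))))))) (.inc 1 (.ns 0 0 (.nb 0 (.nb 1 (.ask (.or (.nb 1 (.nb 2 (.ed 0 1 (.nb 2 (.nb 3 (.ed 0 1 (.sa 1 0 (.sa 1 1 (.sa 1 2 (.sa 1 3 .done)))))))))) (.nb 1 (.nb 1 (.ed 0 1 (.sa 1 0 (.sa 1 1 (.sa 1 2 (.sa 1 3 .done))))))))))))))))))))))) (.inc 2 (.nb 1 (.ask (.or (.or (.sa 1 1 (.ask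 (.or (.sa 1 0 (.ask (.or (.nb 1 (.ed 0 1 (.ask (.or (.sa 1 0 .done) (.or (.inc 1 (.ns 0 0 (.nb 0 (.sa 2 0 (.pop .done))))) (.inc 1 (.ns 0 0 (.nb 0 (.nb 0 (.nb 1 (.ed 0 1 (.sa 1 0 (.sa 1 1 .done))))))))))))) (.or (.inc 1 (.nb 1 (.nb 1 (.ed 0 1 .done)))) (.inc 2 .done))))) (.inc 1 (.ns 0 0 (.nb 0 (.sa 2 0 (.pop (.ask (.or (.nb 1 (.ed 0 1 (.ask (.or (.sa 1 0 .done) (.or (.inc 1 (.ns 0 0 (.nb 0 (.sa 2 0 (.pop .done))))) (.inc 1 (.ns 0 0 (.nb 0 (.nb 0 (.nb 1 (.ed 0 1 (.sa 1 0 (.sa 1 1 .done))))))))))))) (.or (.inc 1 (.nb 1 (.nb 1 (.ed 0 1 .done)))) (.inc 2 .done)))))))))))) (.inc 1 (.ns 0 1 (.nb 1 (.sa 2 0 (.pop (.ask (.or (.sa 1 0 (.ask (.or (.nb 1 (.ed 0 1 (.ask (.or (.sa 1 0 .done) (.or (.inc 1 (.ns 0 0 (.nb 0 (.sa 2 0 (.pop .done))))) (.inc 1 (.ns 0 0 (.nb 0 (.nb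 0 (.nb 1 (.ed 0 1 (.sa 1 0 (.sa 1 1 .done))))))))))))) (.or (.inc 1 (.nb 1 (.nb 1 (.ed 0 1 .done)))) (.inc 2 .done))))) (.inc 1 (.ns 0 0 (.nb 0 (.sa 2 0 (.pop (.ask (.or (.nb 1 (.ed 0 1 (.ask (.or (.sa 1 0 .done) (.or (.inc 1 (.ns 0 0 (.nb 0 (.sa 2 0 (.pop .done))))) (.inc 1 (.ns 0 0 (.nb 0 (.nb 0 (.nb 1 (.ed 0 1 (.sa 1 0 (.sa 1 1 .done))))))))))))) (.or (.inc 1 (.nb 1 (.nb 1 (.ed 0 1 .done)))) (.inc 2 .done))))))))))))))))) (.inc 2 (.ed 0 1 .done))))))))))) (.inc 1 (.ns 0 0 (.nb 0 (.sa 2 0 (.pop (.rs (.nb 1 (.ask (.or (.ed 0 1 (.ask (.or (.sa 1 0 .done) (.or (.inc 1 (.ns 0 0 (.nb 0 (.sa 2 0 (.pop .done))))) (.inc 2 (.ns 0 0 (.or (.inc 2 (.st (.ask (.or (.nb 0 (.ask (.or (.sa 1 0 (.rs (.nb 1 (.ask (.or (.ed 0 1 .done) (.nb 1 (.ask (.or (.or (.sa 1 1 (.ask (.or (.sa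 1 0 .done) (.ns 0 0 (.nb 0 (.sa 2 0 (.pop .done))))))) (.ns 0 1 (.nb 1 (.sa 2 0 (.pop (.ask (.or (.sa 1 0 .done) (.ns 0 0 (.nb 0 (.sa 2 0 (.pop .done))))))))))) (.ed 0 1 .done))))))))) (.ns 0 0 (.nb 0 (.sa 2 0 (.pop (.rs (.nb 1 (.ask (.or (.ed 0 1 .done) (.nb 1 (.ask (.or (.or (.sa 1 1 (.ask (.or (.sa 1 0 .done) (.ns 0 0 (.nb 0 (.sa 2 0 (.pop .done))))))) (.ns 0 1 (.nb 1 (.sa 2 0 (.pop (.ask (.or (.sa 1 0 .done) (.ns 0 0 (.nb 0 (.sa 2 0 (.pop .done))))))))))) (.ed 0 1 .done))))))))))))))) (.sa 2 0 (.nb 0 (.nb 0 (.ask (.or (.sa 1 0 (.rs (.nb 1 (.ask (.or (.ed 0 1 .done) (.nb 1 (.ask (.or (.or (.sa 1 1 (.ask (.or (.sa 1 0 .done) (.ns 0 0 (.nb 0 (.sa 2 0 (.pop .done))))))) (.ns 0 1 (.nb 1 (.sa 2 0 (.pop (.ask (.or (.sa 1 0 .done) (.ns 0 0 (.nb 0 (.sa 2 0 (.pop .done)))))))))))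 (.ed 0 1 .done))))))))) (.ns 0 0 (.nb 0 (.sa 2 0 (.pop (.rs (.nb 1 (.ask (.or (.ed 0 1 .done) (.nb 1 (.ask (.or (.or (.sa 1 1 (.ask (.or (.sa 1 0 .done) (.ns 0 0 (.nb 0 (.sa 2 0 (.pop .done))))))) (.ns 0 1 (.nb 1 (.sa 2 0 (.pop (.ask (.or (.sa 1 0 .done) (.ns 0 0 (.nb 0 (.sa 2 0 (.pop .done))))))))))) (.ed 0 1 .done))))))))))))))))))))) (.nb 0 (.ask (.or (.sa 1 0 (.nb 0 (.nb 0 (.nb 1 (.ed 0 1 (.ask (.or (.sa 1 0 (.ask (.or (.sa 1 1 .done) (.inc 1 (.ns 0 1 (.nb 1 (.sa 2 0 (.pop .done)))))))) (.inc 1 (.ns 0 0 (.nb 0 (.sa 2 0 (.pop (.ask (.or (.sa 1 1 .done) (.inc 1 (.ns 0 1 (.nb 1 (.sa 2 0 (.pop .done))))))))))))))))))) (.inc 1 (.ns 0 0 (.nb 0 (.nb 1 (.ask (.or (.nb 1 (.nb 2 (.ed 0 1 (.nb 2 (.nb 3 (.ed 0 1 (.sa 1 0 (.sa 1 1 (.sa 1 2 (.sa 1 3 .done)))))))))) (.nb 1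 (.nb 1 (.ed 0 1 (.sa 1 0 (.sa 1 1 (.sa 1 2 (.sa 1 3 .done))))))))))))))))))))))) (.inc 2 (.nb 1 (.ask (.or (.or (.sa 1 1 (.ask (.or (.sa 1 0 (.ask (.or (.nb 1 (.ed 0 1 (.ask (.or (.sa 1 0 .done) (.or (.inc 1 (.ns 0 0 (.nb 0 (.sa 2 0 (.pop .done))))) (.inc 1 (.ns 0 0 (.nb 0 (.nb 0 (.nb 1 (.ed 0 1 (.sa 1 0 (.sa 1 1 .done))))))))))))) (.or (.inc 1 (.nb 1 (.nb 1 (.ed 0 1 .done)))) (.inc 2 .done))))) (.inc 1 (.ns 0 0 (.nb 0 (.sa 2 0 (.pop (.ask (.or (.nb 1 (.ed 0 1 (.ask (.or (.sa 1 0 .done) (.or (.inc 1 (.ns 0 0 (.nb 0 (.sa 2 0 (.pop .done))))) (.inc 1 (.ns 0 0 (.nb 0 (.nb 0 (.nb 1 (.ed 0 1 (.sa 1 0 (.sa 1 1 .done))))))))))))) (.or (.inc 1 (.nb 1 (.nb 1 (.ed 0 1 .done)))) (.inc 2 .done)))))))))))) (.inc 1 (.ns 0 1 (.nb 1 (.sa 2 0 (.pop (.ask (.or (.sa 1 0 (.ask (.or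 (.nb 1 (.ed 0 1 (.ask (.or (.sa 1 0 .done) (.or (.inc 1 (.ns 0 0 (.nb 0 (.sa 2 0 (.pop .done))))) (.inc 1 (.ns 0 0 (.nb 0 (.nb 0 (.nb 1 (.ed 0 1 (.sa 1 0 (.sa 1 1 .done))))))))))))) (.or (.inc 1 (.nb 1 (.nb 1 (.ed 0 1 .done)))) (.inc 2 .done))))) (.inc 1 (.ns 0 0 (.nb 0 (.sa 2 0 (.pop (.ask (.or (.nb 1 (.ed 0 1 (.ask (.or (.sa 1 0 .done) (.or (.inc 1 (.ns 0 0 (.nb 0 (.sa 2 0 (.pop .done))))) (.inc 1 (.ns 0 0 (.nb 0 (.nb 0 (.nb 1 (.ed 0 1 (.sa 1 0 (.sa 1 1 .done))))))))))))) (.or (.inc 1 (.nb 1 (.nb 1 (.ed 0 1 .done)))) (.inc 2 .done))))))))))))))))) (.inc 2 (.ed 0 1 .done)))))))))))))))))) (.inc 1 (.sa 2 0 (.nb 0 (.nb 0 (.ask (.or (.sa 1 0 (.rs (.nb 1 (.ask (.or (.ed 0 1 (.ask (.or (.sa 1 0 .done) (.or (.inc 1 (.ns 0 0 (.nb 0 (.sa 2 0 (.pop .done))))) (.inc 2 (.ns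 0 0 (.or (.inc 2 (.st (.ask (.or (.nb 0 (.ask (.or (.sa 1 0 (.rs (.nb 1 (.ask (.or (.ed 0 1 .done) (.nb 1 (.ask (.or (.or (.sa 1 1 (.ask (.or (.sa 1 0 .done) (.ns 0 0 (.nb 0 (.sa 2 0 (.pop .done))))))) (.ns 0 1 (.nb 1 (.sa 2 0 (.pop (.ask (.or (.sa 1 0 .done) (.ns 0 0 (.nb 0 (.sa 2 0 (.pop .done))))))))))) (.ed 0 1 .done))))))))) (.ns 0 0 (.nb 0 (.sa 2 0 (.pop (.rs (.nb 1 (.ask (.or (.ed 0 1 .done) (.nb 1 (.ask (.or (.or (.sa 1 1 (.ask (.or (.sa 1 0 .done) (.ns 0 0 (.nb 0 (.sa 2 0 (.pop .done))))))) (.ns 0 1 (.nb 1 (.sa 2 0 (.pop (.ask (.or (.sa 1 0 .done) (.ns 0 0 (.nb 0 (.sa 2 0 (.pop .done))))))))))) (.ed 0 1 .done))))))))))))))) (.sa 2 0 (.nb 0 (.nb 0 (.ask (.or (.sa 1 0 (.rs (.nb 1 (.ask (.or (.ed 0 1 .done) (.nb 1 (.ask (.or (.or (.sa 1 1 (.ask (.or (.sa 1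 0 .done) (.ns 0 0 (.nb 0 (.sa 2 0 (.pop .done))))))) (.ns 0 1 (.nb 1 (.sa 2 0 (.pop (.ask (.or (.sa 1 0 .done) (.ns 0 0 (.nb 0 (.sa 2 0 (.pop .done))))))))))) (.ed 0 1 .done))))))))) (.ns 0 0 (.nb 0 (.sa 2 0 (.pop (.rs (.nb 1 (.ask (.or (.ed 0 1 .done) (.nb 1 (.ask (.or (.or (.sa 1 1 (.ask (.or (.sa 1 0 .done) (.ns 0 0 (.nb 0 (.sa 2 0 (.pop .done))))))) (.ns 0 1 (.nb 1 (.sa 2 0 (.pop (.ask (.or (.sa 1 0 .done) (.ns 0 0 (.nb 0 (.sa 2 0 (.pop .done))))))))))) (.ed 0 1 .done))))))))))))))))))))) (.nb 0 (.ask (.or (.sa 1 0 (.nb 0 (.nb 0 (.nb 1 (.ed 0 1 (.ask (.or (.sa 1 0 (.ask (.or (.sa 1 1 .done) (.inc 1 (.ns 0 1 (.nb 1 (.sa 2 0 (.pop .done)))))))) (.inc 1 (.ns 0 0 (.nb 0 (.sa 2 0 (.pop (.ask (.or (.sa 1 1 .done) (.inc 1 (.ns 0 1 (.nb 1 (.sa 2 0 (.pop .done)))))))))))))))))))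 (.inc 1 (.ns 0 0 (.nb 0 (.nb 1 (.ask (.or (.nb 1 (.nb 2 (.ed 0 1 (.nb 2 (.nb 3 (.ed 0 1 (.sa 1 0 (.sa 1 1 (.sa 1 2 (.sa 1 3 .done)))))))))) (.nb 1 (.nb 1 (.ed 0 1 (.sa 1 0 (.sa 1 1 (.sa 1 2 (.sa 1 3 .done))))))))))))))))))))))) (.inc 2 (.nb 1 (.ask (.or (.or (.sa 1 1 (.ask (.or (.sa 1 0 (.ask (.or (.nb 1 (.ed 0 1 (.ask (.or (.sa 1 0 .done) (.or (.inc 1 (.ns 0 0 (.nb 0 (.sa 2 0 (.pop .done))))) (.inc 1 (.ns 0 0 (.nb 0 (.nb 0 (.nb 1 (.ed 0 1 (.sa 1 0 (.sa 1 1 .done))))))))))))) (.or (.inc 1 (.nb 1 (.nb 1 (.ed 0 1 .done)))) (.inc 2 .done))))) (.inc 1 (.ns 0 0 (.nb 0 (.sa 2 0 (.pop (.ask (.or (.nb 1 (.ed 0 1 (.ask (.or (.sa 1 0 .done) (.or (.inc 1 (.ns 0 0 (.nb 0 (.sa 2 0 (.pop .done))))) (.inc 1 (.ns 0 0 (.nb 0 (.nb 0 (.nb 1 (.ed 0 1 (.sa 1 0 (.sa 1 1 .done)))))))))))))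 (.or (.inc 1 (.nb 1 (.nb 1 (.ed 0 1 .done)))) (.inc 2 .done)))))))))))) (.inc 1 (.ns 0 1 (.nb 1 (.sa 2 0 (.pop (.ask (.or (.sa 1 0 (.ask (.or (.nb 1 (.ed 0 1 (.ask (.or (.sa 1 0 .done) (.or (.inc 1 (.ns 0 0 (.nb 0 (.sa 2 0 (.pop .done))))) (.inc 1 (.ns 0 0 (.nb 0 (.nb 0 (.nb 1 (.ed 0 1 (.sa 1 0 (.sa 1 1 .done))))))))))))) (.or (.inc 1 (.nb 1 (.nb 1 (.ed 0 1 .done)))) (.inc 2 .done))))) (.inc 1 (.ns 0 0 (.nb 0 (.sa 2 0 (.pop (.ask (.or (.nb 1 (.ed 0 1 (.ask (.or (.sa 1 0 .done) (.or (.inc 1 (.ns 0 0 (.nb 0 (.sa 2 0 (.pop .done))))) (.inc 1 (.ns 0 0 (.nb 0 (.nb 0 (.nb 1 (.ed 0 1 (.sa 1 0 (.sa 1 1 .done))))))))))))) (.or (.inc 1 (.nb 1 (.nb 1 (.ed 0 1 .done)))) (.inc 2 .done))))))))))))))))) (.inc 2 (.ed 0 1 .done))))))))))) (.inc 1 (.ns 0 0 (.nb 0 (.sa 2 0 (.pop (.rs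 (.nb 1 (.ask (.or (.ed 0 1 (.ask (.or (.sa 1 0 .done) (.or (.inc 1 (.ns 0 0 (.nb 0 (.sa 2 0 (.pop .done))))) (.inc 2 (.ns 0 0 (.or (.inc 2 (.st (.ask (.or (.nb 0 (.ask (.or (.sa 1 0 (.rs (.nb 1 (.ask (.or (.ed 0 1 .done) (.nb 1 (.ask (.or (.or (.sa 1 1 (.ask (.or (.sa 1 0 .done) (.ns 0 0 (.nb 0 (.sa 2 0 (.pop .done))))))) (.ns 0 1 (.nb 1 (.sa 2 0 (.pop (.ask (.or (.sa 1 0 .done) (.ns 0 0 (.nb 0 (.sa 2 0 (.pop .done))))))))))) (.ed 0 1 .done))))))))) (.ns 0 0 (.nb 0 (.sa 2 0 (.pop (.rs (.nb 1 (.ask (.or (.ed 0 1 .done) (.nb 1 (.ask (.or (.or (.sa 1 1 (.ask (.or (.sa 1 0 .done) (.ns 0 0 (.nb 0 (.sa 2 0 (.pop .done))))))) (.ns 0 1 (.nb 1 (.sa 2 0 (.pop (.ask (.or (.sa 1 0 .done) (.ns 0 0 (.nb 0 (.sa 2 0 (.pop .done))))))))))) (.ed 0 1 .done))))))))))))))) (.sa 2 0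 (.nb 0 (.nb 0 (.ask (.or (.sa 1 0 (.rs (.nb 1 (.ask (.or (.ed 0 1 .done) (.nb 1 (.ask (.or (.or (.sa 1 1 (.ask (.or (.sa 1 0 .done) (.ns 0 0 (.nb 0 (.sa 2 0 (.pop .done))))))) (.ns 0 1 (.nb 1 (.sa 2 0 (.pop (.ask (.or (.sa 1 0 .done) (.ns 0 0 (.nb 0 (.sa 2 0 (.pop .done))))))))))) (.ed 0 1 .done))))))))) (.ns 0 0 (.nb 0 (.sa 2 0 (.pop (.rs (.nb 1 (.ask (.or (.ed 0 1 .done) (.nb 1 (.ask (.or (.or (.sa 1 1 (.ask (.or (.sa 1 0 .done) (.ns 0 0 (.nb 0 (.sa 2 0 (.pop .done))))))) (.ns 0 1 (.nb 1 (.sa 2 0 (.pop (.ask (.or (.sa 1 0 .done) (.ns 0 0 (.nb 0 (.sa 2 0 (.pop .done))))))))))) (.ed 0 1 .done))))))))))))))))))))) (.nb 0 (.ask (.or (.sa 1 0 (.nb 0 (.nb 0 (.nb 1 (.ed 0 1 (.ask (.or (.sa 1 0 (.ask (.or (.sa 1 1 .done) (.inc 1 (.ns 0 1 (.nb 1 (.sa 2 0 (.pop .done))))))))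 (.inc 1 (.ns 0 0 (.nb 0 (.sa 2 0 (.pop (.ask (.or (.sa 1 1 .done) (.inc 1 (.ns 0 1 (.nb 1 (.sa 2 0 (.pop .done))))))))))))))))))) (.inc 1 (.ns 0 0 (.nb 0 (.nb 1 (.ask (.or (.nb 1 (.nb 2 (.ed 0 1 (.nb 2 (.nb 3 (.ed 0 1 (.sa 1 0 (.sa 1 1 (.sa 1 2 (.sa 1 3 .done)))))))))) (.nb 1 (.nb 1 (.ed 0 1 (.sa 1 0 (.sa 1 1 (.sa 1 2 (.sa 1 3 .done))))))))))))))))))))))) (.inc 2 (.nb 1 (.ask (.or (.or (.sa 1 1 (.ask (.or (.sa 1 0 (.ask (.or (.nb 1 (.ed 0 1 (.ask (.or (.sa 1 0 .done) (.or (.inc 1 (.ns 0 0 (.nb 0 (.sa 2 0 (.pop .done))))) (.inc 1 (.ns 0 0 (.nb 0 (.nb 0 (.nb 1 (.ed 0 1 (.sa 1 0 (.sa 1 1 .done))))))))))))) (.or (.inc 1 (.nb 1 (.nb 1 (.ed 0 1 .done)))) (.inc 2 .done))))) (.inc 1 (.ns 0 0 (.nb 0 (.sa 2 0 (.pop (.ask (.or (.nb 1 (.ed 0 1 (.ask (.or (.sa 1 0 .done) (.or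 (.inc 1 (.ns 0 0 (.nb 0 (.sa 2 0 (.pop .done))))) (.inc 1 (.ns 0 0 (.nb 0 (.nb 0 (.nb 1 (.ed 0 1 (.sa 1 0 (.sa 1 1 .done))))))))))))) (.or (.inc 1 (.nb 1 (.nb 1 (.ed 0 1 .done)))) (.inc 2 .done)))))))))))) (.inc 1 (.ns 0 1 (.nb 1 (.sa 2 0 (.pop (.ask (.or (.sa 1 0 (.ask (.or (.nb 1 (.ed 0 1 (.ask (.or (.sa 1 0 .done) (.or (.inc 1 (.ns 0 0 (.nb 0 (.sa 2 0 (.pop .done))))) (.inc 1 (.ns 0 0 (.nb 0 (.nb 0 (.nb 1 (.ed 0 1 (.sa 1 0 (.sa 1 1 .done))))))))))))) (.or (.inc 1 (.nb 1 (.nb 1 (.ed 0 1 .done)))) (.inc 2 .done))))) (.inc 1 (.ns 0 0 (.nb 0 (.sa 2 0 (.pop (.ask (.or (.nb 1 (.ed 0 1 (.ask (.or (.sa 1 0 .done) (.or (.inc 1 (.ns 0 0 (.nb 0 (.sa 2 0 (.pop .done))))) (.inc 1 (.ns 0 0 (.nb 0 (.nb 0 (.nb 1 (.ed 0 1 (.sa 1 0 (.sa 1 1 .done))))))))))))) (.or (.inc 1 (.nb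 1 (.nb 1 (.ed 0 1 .done)))) (.inc 2 .done))))))))))))))))) (.inc 2 (.ed 0 1 .done)))))))))))))))))))))))))) (.inc 4 (.or (.core g0) (.or (.core g1) (.or (.core g2) (.or (.core g5) (.inc 2 (.core g3))))))))
theorem pr4_eq (g0 g1 g2 g5 g3 : Nat) : pr4 g0 g1 g2 g5 g3 = prog g0 g1 g2 g5 g3 := rfl

/-- continue in a separate chunk of the certificate -/
noncomputable def rSub (t : DT) (f : Nat) (rc : Kc → Kc) (k : Kc) : Kc :=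
  fun n A D1 D2 D3 Q B => @Nat.rec (fun _ => Nat) 0 (fun i _ =>
    Nat.mul (Nat.shiftRight B 14) (Nat.sub 1 (Nat.xor (rc k n A D1 D2 D3 Q (dtop t i)) 1)))
    (Nat.add (Nat.mod B 16384) 1)

noncomputable def pmOf (db dn : DT) (nt : Nat) (T : Td) (t : DT) : Pm := ⟨db, dn, nt, T, 1, 1, 1, Dp.dp, rSub t⟩

end Pool.Agent.Hom2.St
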