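import Pool.Agent.Lib.MP_7e4769_co.Hc.ScW

set_option autoImplicit false

namespace Pool.Agent.Hom2.Sc

variable {V : Type} {G : SimpleGraph V} {X : Finset V} {n A D1 D2 D3 Q : ℕ} {ph : ℕ → V}

theorem one_stub (hc : Cub G X) (h2 : TwoEC G X) {v y y' : V} (hv : v ∈ X) (hy : y ∉ X) (hy' : y' ∉ X)
    (a : G.Adj v y) (a' : G.Adj v y') : y = y' := by
  by_contra e
  obtain ⟨z, hz⟩ := hc.second hv a a' e
  obtain ⟨p, hp, q, hq, hpq⟩ := h2.1
  refine h2.2 {v} (by simpa using hv) (by simp) (fun r => ?_) v z (fun x hx w hw _ hxw => ?_)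
  · rw [← r] at hp hq; simp at hp hq; exact hpq (hp.trans hq.symm)
  · rw [Finset.mem_singleton] at hx; subst hx
    rcases hz.cases hxw with r | r | r
    · exact absurd (r ▸ hw) hy
    · exact absurd (r ▸ hw) hy'
    · exact ⟨rfl, r⟩

open Classical in
/-- index of a vertex, `n` if it is new -/
noncomputable def nx (n : ℕ) (ph : ℕ → V) (v : V) : ℕ := if h : ∃ j < n, ph j = v then h.choose else n

open Classical in
/-- column of a vertex: 62 outside `X`, 63 if it is new -/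
noncomputable def cd (X : Finset V) (n : ℕ) (ph : ℕ → V) (v : V) : ℕ :=
  if v ∈ X then (if nx n ph v < n then nx n ph v else 63) else 62

theorem nx_spec (n : ℕ) (ph : ℕ → V) (v : V) :
    (nx n ph v < n ∧ ph (nx n ph v) = v) ∨ (nx n ph v = n ∧ ∀ j < n, ph j ≠ v) := by
  unfold nx
  split
  · next h => exact Or.inl h.choose_spec
  · next h => exact Or.inr ⟨rfl, fun j hj e => h ⟨j, hj, e⟩⟩

section
variable (s : St G X n A D1 D2 D3 Q ph)
include s

theorem St.mx : Mx A := fun i j hj h => by have := s.rng i j hj h; have := s.le; omega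

theorem St.nx_ph {j : ℕ} (hj : j < n) : nx n ph (ph j) = j := by
  rcases nx_spec n ph (ph j) with h | h
  · exact s.inj _ h.1 _ hj h.2
  · exact absurd rfl (h.2 j hj)

theorem St.cd_ph {j : ℕ} (hj : j < n) : cd X n ph (ph j) = j := by
  unfold cd; rw [if_pos (s.mem j hj), s.nx_ph hj, if_pos hj]

theorem St.cd_spec (v : V) : (cd X n ph v < n ∧ ph (cd X n ph v) = v ∧ v ∈ X ∧ nx n ph v = cd X n ph v) ∨
    (cd X n ph v = 62 ∧ v ∉ X) ∨ (cd X n ph v = 63 ∧ v ∈ X ∧ nx n ph v = n ∧ ∀ j < n, ph j ≠ v) := by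
  unfold cd
  by_cases a : v ∈ X
  · rw [if_pos a]
    rcases nx_spec n ph v with h | h
    · rw [if_pos h.1]; exact Or.inl ⟨h.1, h.2, a, rfl⟩
    · rw [if_neg (by omega)]; exact Or.inr (Or.inr ⟨rfl, a, h⟩)
  · rw [if_neg a]; exact Or.inr (Or.inl ⟨rfl, a⟩)

/-- a known half-edge leads to a pattern vertex or out of `X` -/
theorem St.kn {i : ℕ} {v : V} (h : mb A i (cd X n ph v)) :
    (cd X n ph v < n ∧ ph (cd X n ph v) = v ∧ v ∈ X) ∨ (cd X n ph v = 62 ∧ v ∉ X) := by
  rcases s.cd_spec v with r | r | r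
  · exact Or.inl ⟨r.1, r.2.1, r.2.2.1⟩
  · exact Or.inr r
  · rw [r.1] at h; have := s.rng i 63 (by omega) h; have := s.le; omega

theorem St.row_lt {i j : ℕ} (h : (row A i).testBit j = true) : i < n ∧ (j < n ∨ j = 62) :=
  s.rng i j (by have := ((tb_row _ _ _).1 h).1; omega) ((tb_row _ _ _).1 h).2

theorem St.deg_lt {i : ℕ} (h : 1 ≤ (bs (row A i)).card) : i < n := by
  obtain ⟨j, hj⟩ := Finset.card_pos.1 h
  exact (s.row_lt (mem_bs.1 hj)).1

theorem St.d3_lt {i : ℕ} (h : D3.testBit i = true) : i < n := s.deg_lt (by have := (s.d3 i).1 h; omega)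
theorem St.d2_lt {i : ℕ} (h : D2.testBit i = true) : i < n := s.deg_lt (by have := (s.d2 i).1 h; omega)

/-- the neighbours that are not known members of the mask `m` -/
theorem St.split (hc : Cub G X) (h2 : TwoEC G X) {i : ℕ} (hi : i < n) (m : ℕ) :
    ∃ Z : Finset V, (∀ w, w ∈ Z ↔ G.Adj (ph i) w ∧ ¬ (mb A i (cd X n ph w) ∧ m.testBit (cd X n ph w) = true)) ∧
      Z.card + (bs (Nat.land (row A i) m)).card = 3 := by
  classical
  obtain ⟨x, y, z, hn⟩ := hc _ (s.mem i hi)
  have c3 : ({x, y, z} : Finset V).card = 3 := Finset.card_eq_three.2 ⟨x, y, z, hn.1, hn.2.1, hn.2.2.1, rfl⟩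
  have mN : ∀ w, w ∈ ({x, y, z} : Finset V) ↔ G.Adj (ph i) w := fun w => by rw [hn.2.2.2]; simp
  let p : V → Prop := fun w => mb A i (cd X n ph w) ∧ m.testBit (cd X n ph w) = true
  refine ⟨({x, y, z} : Finset V).filter (fun w => ¬ p w), fun w => by rw [Finset.mem_filter, mN], ?_⟩
  have e : bs (Nat.land (row A i) m) = (({x, y, z} : Finset V).filter p).image (cd X n ph) := by
    ext j
    rw [mem_bs, tb_land, Finset.mem_image]
    constructor
    · rintro ⟨a, b⟩
      have a' := ((tb_row _ _ _).1 a).2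
      rcases (s.row_lt a).2 with r | rfl
      · refine ⟨ph j, Finset.mem_filter.2 ⟨(mN _).2 (s.adj i j r a'), ?_⟩, s.cd_ph r⟩
        simp only [p, s.cd_ph r]; exact ⟨a', b⟩
      · obtain ⟨w, w1, w2⟩ := s.stb i a'
        have : cd X n ph w = 62 := by unfold cd; rw [if_neg w1]
        refine ⟨w, Finset.mem_filter.2 ⟨(mN _).2 w2, ?_⟩, this⟩
        simp only [p, this]; exact ⟨a', b⟩
    · rintro ⟨w, hw, rfl⟩
      have hp := (Finset.mem_filter.1 hw).2
      refine ⟨(tb_row _ _ _).2 ⟨?_, hp.1⟩, hp.2⟩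
      have := s.kn hp.1; have := s.le; omega
  rw [e, Finset.card_image_of_injOn, add_comm, Finset.card_filter_add_card_filter_not, c3]
  intro w hw w' hw' ee
  simp only [Finset.coe_filter, Set.mem_ofPred_eq, mN] at hw hw'
  rcases s.kn hw.2.1 with r | r <;> rcases s.kn hw'.2.1 with r' | r'
  · rw [← r.2.1, ← r'.2.1, ee]
  · have := s.le; omega
  · have := s.le; omega
  · exact one_stub hc h2 (s.mem i hi) r.2 r'.2 hw.1 hw'.1

theorem St.unk (hc : Cub G X) (h2 : TwoEC G X) {i : ℕ} (hi : i < n) :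
    ∃ Z : Finset V, (∀ w, w ∈ Z ↔ G.Adj (ph i) w ∧ ¬ mb A i (cd X n ph w)) ∧
      Z.card + (bs (row A i)).card = 3 := by
  obtain ⟨Z, a, b⟩ := s.split hc h2 hi (row A i)
  rw [e_land, Nat.and_self] at b
  refine ⟨Z, fun w => ?_, b⟩
  rw [a, tb_row]
  refine and_congr_right (fun _ => not_congr ⟨fun r => r.1, fun r => ⟨r, ?_, r⟩⟩)
  have := s.kn r; have := s.le; omega

theorem St.sat (hc : Cub G X) (h2 : TwoEC G X) {i : ℕ} (h : D3.testBit i = true) {w : V}
    (hw : G.Adj (ph i) w) : mb A i (cd X n ph w) := by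
  obtain ⟨Z, a, b⟩ := s.unk hc h2 (s.d3_lt h)
  have := (s.d3 i).1 h
  by_contra e
  have := Finset.card_pos.2 ⟨w, (a w).2 ⟨hw, e⟩⟩
  omega

theorem St.unsat (hc : Cub G X) (h2 : TwoEC G X) {i : ℕ} (hi : i < n) (h : ¬ D3.testBit i = true) :
    ∃ w, G.Adj (ph i) w ∧ ¬ mb A i (cd X n ph w) := by
  obtain ⟨Z, a, b⟩ := s.unk hc h2 hi
  rw [s.d3] at h
  obtain ⟨w, hw⟩ := Finset.card_pos.1 (show 0 < Z.card by omega)
  exact ⟨w, (a w).1 hw⟩

theorem St.sat2 (hc : Cub G X) (h2 : TwoEC G X) {i : ℕ} (h : D2.testBit i = true) {w w' : V}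
    (hw : G.Adj (ph i) w) (e : ¬ mb A i (cd X n ph w)) (hw' : G.Adj (ph i) w')
    (e' : ¬ mb A i (cd X n ph w')) : w = w' := by
  obtain ⟨Z, a, b⟩ := s.unk hc h2 (s.d2_lt h)
  have := (s.d2 i).1 h
  exact Finset.card_le_one.1 (by omega) w ((a w).2 ⟨hw, e⟩) w' ((a w').2 ⟨hw', e'⟩)

/-- an unknown edge joins two open vertices -/
theorem St.opn (hc : Cub G X) (h2 : TwoEC G X) {i j : ℕ} (hi : i < n) (hj : j < n)
    (a : G.Adj (ph i) (ph j)) (e : ¬ mb A i j) : ¬ D3.testBit i = true ∧ ¬ D3.testBit j = true := by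
  refine ⟨fun h => e ?_, fun h => e (s.sym j i hi ?_)⟩
  · have := s.sat hc h2 h a; rwa [s.cd_ph hj] at this
  · have := s.sat hc h2 h a.symm; rwa [s.cd_ph hi] at this

theorem St.av_lt {j i : ℕ} (h : (av n A D3 j).testBit i = true) : i < 64 := by
  unfold av at h
  have := s.le
  rcases (tb_lor _ _ _).1 h with r | r
  · have := ((tb_row _ _ _).1 r).1; omega
  · rw [tb_mul_bit (by simp [e_sub]), tb_xor,
      show Nat.shiftLeft 2 n = pw (n + 1) by rw [pw_eq, e_shl, Nat.shiftLeft_eq]; ring, tb_full] at r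
    by_contra e
    exact r.2 ⟨fun a => by omega, fun a => by have := s.d3_lt a; omega⟩

theorem St.av_spec (hc : Cub G X) (h2 : TwoEC G X) {j : ℕ} (hj : j < n) {v : V} (hv : v ∈ X)
    (a : G.Adj (ph j) v) : (av n A D3 j).testBit (nx n ph v) = true := by
  unfold av
  have := s.le
  rw [tb_lor, tb_row, tb_mul_bit (by simp [e_sub]), tb_xor,
    show Nat.shiftLeft 2 n = pw (n + 1) by rw [pw_eq, e_shl, Nat.shiftLeft_eq]; ring, tb_full, e_sub]
  rcases nx_spec n ph v with r | r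
  · by_cases e : mb A j (nx n ph v)
    · exact Or.inl ⟨by omega, e⟩
    · obtain ⟨b, c⟩ := s.opn hc h2 hj r.1 (r.2.symm ▸ a) e
      exact Or.inr ⟨by rw [bt_zero.2 b], fun d => c (d.1 (by omega))⟩
  · refine Or.inr ⟨by
      rw [bt_zero.2 (fun h => ?_)]
      rcases s.kn (s.sat hc h2 h a) with t | t
      · exact r.2 _ t.1 t.2.1
      · exact t.2 hv, fun d => ?_⟩
    have := s.d3_lt (d.1 (by omega)); omega

theorem St.deg_step {A' m : ℕ}
    (h : ∀ a, (bs (row A' a)).card = (bs (row A a)).card + if m.testBit a = true then 1 else 0) (a : ℕ) :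
    ((Nat.lor D1 m).testBit a = true ↔ 1 ≤ (bs (row A' a)).card) ∧
    ((Nat.lor D2 (Nat.land D1 m)).testBit a = true ↔ 2 ≤ (bs (row A' a)).card) ∧
    ((Nat.lor D3 (Nat.land D2 m)).testBit a = true ↔ 3 ≤ (bs (row A' a)).card) := by
  simp only [tb_lor, tb_land, s.d1, s.d2, s.d3, h]
  by_cases e : m.testBit a = true
  · simp only [e, if_true, and_true, or_true, true_iff]; omega
  · simp [e]

omit s in
theorem card_row_ins {A A' a b : ℕ} (hb : b < 63) (h : ∀ j < 63, mb A' a j ↔ mb A a j ∨ j = b) :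
    (bs (row A' a)).card = (bs (row A a)).card + if mb A a b then 0 else 1 := by
  have : bs (row A' a) = insert b (bs (row A a)) := by
    ext j
    rw [Finset.mem_insert, mem_bs, mem_bs, tb_row, tb_row]
    constructor
    · rintro ⟨p, q⟩; rcases (h j p).1 q with r | r
      · exact Or.inr ⟨p, r⟩
      · exact Or.inl r
    · rintro (rfl | ⟨p, q⟩)
      · exact ⟨hb, (h _ hb).2 (Or.inr rfl)⟩
      · exact ⟨p, (h j p).2 (Or.inl q)⟩
  rw [this, Finset.card_insert_eq_ite]
  simp only [mem_bs, tb_row, hb, true_and]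
  split <;> rfl

omit s in
theorem row_congr {A A' a : ℕ} (h : ∀ j < 63, mb A' a j ↔ mb A a j) : row A' a = row A a := by
  apply Nat.eq_of_testBit_eq
  intro j
  rw [Bool.eq_iff_iff, tb_row, tb_row]
  exact and_congr_right (h j)

omit s in
theorem mb_eA (A : ℕ) {i y : ℕ} (hi : i < 64) (hy : y < 64) (a : ℕ) {b : ℕ} (hb : b < 64) :
    mb (eA A i y) a b ↔ mb A a b ∨ (a = i ∧ b = y) ∨ (a = y ∧ b = i) := by
  unfold eA
  rw [mb_lor, mb_lor]
  unfold mb
  rw [tb_shl, tb_shl, tb_pw, tb_pw, e_mul, e_mul]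
  refine or_congr_right (or_congr ?_ ?_) <;> omega

theorem St.edge {i y : ℕ} (hi : i < n) (hy : y < n) (a : G.Adj (ph i) (ph y)) :
    St G X n (eA A i y) (Nat.lor D1 (eM A i y)) (Nat.lor D2 (Nat.land D1 (eM A i y)))
      (Nat.lor D3 (Nat.land D2 (eM A i y))) Q ph := by
  have hn := s.le
  have ne : i ≠ y := fun e => a.ne (by rw [e])
  have hb := fun a b hb => mb_eA A (i := i) (y := y) (by omega) (by omega) a (b := b) hb
  have hd := s.deg_step (A' := eA A i y) (m := eM A i y) (fun t => by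
    have hm : (eM A i y).testBit t = true ↔ ¬ mb A i y ∧ (t = i ∨ t = y) := by
      unfold eM
      rw [tb_mul_bit (by simp [e_sub]), tb_lor, tb_pw, tb_pw, one_sub_bt, tb_row]
      simp [show y < 63 by omega]
    simp only [hm]
    by_cases e1 : t = i
    · subst e1
      rw [card_row_ins (A := A) (b := y) (by omega) (fun j hj => by rw [hb _ _ (by omega)]; simp [ne])]
      by_cases e : mb A t y <;> simp [e]
    by_cases e2 : t = y
    · subst e2
      rw [card_row_ins (A := A) (b := i) (by omega) (fun j hj => by rw [hb _ _ (by omega)]; simp [e1])]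
      have : mb A t i ↔ mb A i t := ⟨s.sym t i hi, s.sym i t hy⟩
      by_cases e : mb A i t <;> simp [e, this]
    · rw [row_congr (A := A) (fun j hj => by rw [hb _ _ (by omega)]; simp [e1, e2])]
      simp [e1, e2])
  refine ⟨hn, s.mem, s.inj, fun p q hq h => ?_, fun p q hq h => ?_, fun p q hq h => ?_, fun p h => ?_,
    fun t => (hd t).1, fun t => (hd t).2.1, fun t => (hd t).2.2, s.ker⟩
  · rcases (hb p q hq).1 h with r | r | r
    · exact s.rng p q hq r
    · omega
    · omega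
  · rcases (hb p q (by omega)).1 h with r | ⟨rfl, rfl⟩ | ⟨rfl, rfl⟩
    · exact s.adj p q hq r
    · exact a
    · exact a.symm
  · rcases (hb p q (by omega)).1 h with r | ⟨rfl, rfl⟩ | ⟨rfl, rfl⟩
    · exact (hb q p (by have := s.rng p q (by omega) r; omega)).2 (Or.inl (s.sym p q hq r))
    · exact (hb q p (by omega)).2 (Or.inr (Or.inr ⟨rfl, rfl⟩))
    · exact (hb q p (by omega)).2 (Or.inr (Or.inl ⟨rfl, rfl⟩))
  · rcases (hb p 62 (by omega)).1 h with r | r | r
    · exact s.stb p r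
    · omega
    · omega

theorem St.grow (hn : n ≤ 61) {v : V} (hv : v ∈ X) (hnew : ∀ j < n, ph j ≠ v) :
    St G X (n + 1) A D1 D2 D3 Q (fun j => if j = n then v else ph j) := by
  have e : ∀ j < n, (if j = n then v else ph j) = ph j := fun j hj => if_neg (by omega)
  refine ⟨by omega, fun i hi => ?_, fun i hi j hj h => ?_, fun p q hq h => ?_, fun p q hq h => ?_,
    fun p q hq h => ?_, fun p h => ?_, s.d1, s.d2, s.d3, fun i h => ?_⟩
  · split
    · exact hv
    · exact s.mem i (by omega)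
  · by_cases a : i = n <;> by_cases b : j = n <;> simp only [a, b, if_true, if_false] at h
    · omega
    · exact absurd h.symm (hnew j (by omega))
    · exact absurd h (hnew i (by omega))
    · exact s.inj i (by omega) j (by omega) h
  · have := s.rng p q hq h; omega
  · have := s.rng p q (by omega) h
    simp only [e p this.1, e q (by omega)]; exact s.adj p q (by omega) h
  · have := s.rng p q (by omega) h
    exact s.sym p q (by omega) h
  · simp only [e p (s.rng p 62 (by omega) h).1]; exact s.stb p h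
  · obtain ⟨a, b⟩ := s.ker i h
    simp only [e i a]; exact ⟨by omega, b⟩

omit s in
theorem Ext.refl (n : ℕ) (ph : ℕ → V) : Ext n ph n ph := ⟨le_rfl, fun _ _ => rfl⟩

omit s in
theorem Ext.trans {n' n'' : ℕ} {ph' ph'' : ℕ → V} (a : Ext n ph n' ph') (b : Ext n' ph' n'' ph'') :
    Ext n ph n'' ph'' := ⟨a.1.trans b.1, fun i hi => (b.2 i (by have := a.1; omega)).trans (a.2 i hi)⟩

omit s in
theorem KS.ext {Gl : Prop} {k : Kc} {n' : ℕ} {ph' : ℕ → V} (h : KS G X Gl k n ph) (a : Ext n ph n' ph') :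
    KS G X Gl k n' ph' := fun _ _ _ _ _ _ _ _ b => h _ _ _ _ _ _ _ _ (a.trans b)

omit s in
theorem ks_k0 {Gl : Prop} : KS G X Gl k0 n ph := fun _ _ _ _ _ _ _ _ _ _ h => absurd rfl h

/-- the edge from `i` to the old vertex `y` -/
theorem St.adE_old {Gl : Prop} {k : Kc} {i y B : ℕ} (hi : i < n) (hy : y < n) (a : G.Adj (ph i) (ph y))
    (hk : KS G X Gl k n ph) (h : adE i y k n A D1 D2 D3 Q B ≠ 0) : Gl := by
  unfold adE at h
  rw [show eN n y = n by unfold eN; simp only [e_add, e_sub]; omega] at h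
  exact hk _ _ _ _ _ _ _ _ (Ext.refl _ _) (s.edge hi hy a) h

/-- the edge from `i` to the old or new vertex `v` -/
theorem St.adE_nx {Gl : Prop} {k : Kc} {i B : ℕ} (hn : n ≤ 61) (hi : i < n) {v : V} (hv : v ∈ X)
    (a : G.Adj (ph i) v)
    (hk : ∀ n' ph', Ext n ph n' ph' → nx n ph v < n' → ph' (nx n ph v) = v → KS G X Gl k n' ph')
    (h : adE i (nx n ph v) k n A D1 D2 D3 Q B ≠ 0) : Gl := by
  rcases nx_spec n ph v with r | r
  · exact s.adE_old hi r.1 (r.2.symm ▸ a) (hk _ _ (Ext.refl _ _) r.1 r.2) h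
  · rw [r.1] at h hk
    have s' := s.grow hn hv r.2
    have x : Ext n ph (n + 1) (fun j => if j = n then v else ph j) :=
      ⟨by omega, fun j hj => if_neg (by omega)⟩
    refine s'.adE_old (i := i) (y := n) (B := B) (by omega) (by omega) ?_ (hk _ _ x (by omega) (by simp)) ?_
    · simpa [show i ≠ n by omega] using a
    · unfold adE at *
      rwa [show eN (n + 1) n = eN n n by unfold eN; simp only [e_add, e_sub]; omega]

theorem St.adS {Gl : Prop} {k : Kc} {i B : ℕ} (hi : i < n) {y : V} (hy : y ∉ X) (a : G.Adj (ph i) y)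
    (hk : KS G X Gl k n ph) (h : adS i k n A D1 D2 D3 Q B ≠ 0) : Gl := by
  have hn := s.le
  have hb : ∀ p, ∀ q < 64, mb (Nat.lor A (pw (Nat.add (Nat.mul 64 i) 62))) p q ↔
      mb A p q ∨ (p = i ∧ q = 62) := by
    intro p q hq
    rw [mb_lor]; unfold mb; rw [tb_pw, e_add, e_mul]
    exact or_congr_right (by omega)
  have hd := s.deg_step (A' := Nat.lor A (pw (Nat.add (Nat.mul 64 i) 62)))
    (m := Nat.mul (Nat.sub 1 (bt (row A i) 62)) (pw i)) (fun t => by
    have hm : (Nat.mul (Nat.sub 1 (bt (row A i) 62)) (pw i)).testBit t = true ↔ ¬ mb A i 62 ∧ t = i := by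
      rw [tb_mul_bit (by simp [e_sub]), tb_pw, one_sub_bt, tb_row]
      simp
    simp only [hm]
    by_cases e1 : t = i
    · subst e1
      rw [card_row_ins (A := A) (b := 62) (by omega) (fun j hj => by rw [hb _ _ (by omega)]; simp)]
      by_cases e : mb A t 62 <;> simp [e]
    · rw [row_congr (A := A) (fun j hj => by rw [hb _ _ (by omega)]; simp [e1])]
      simp [e1])
  refine hk _ _ _ _ _ _ _ _ (Ext.refl _ _) ⟨hn, s.mem, s.inj, fun p q hq h => ?_, fun p q hq h => ?_,
    fun p q hq h => ?_, fun p h => ?_, fun t => (hd t).1, fun t => (hd t).2.1, fun t => (hd t).2.2,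
    s.ker⟩ h
  · rcases (hb p q hq).1 h with r | r
    · exact s.rng p q hq r
    · omega
  · rcases (hb p q (by omega)).1 h with r | r
    · exact s.adj p q hq r
    · omega
  · rcases (hb p q (by omega)).1 h with r | r
    · exact (hb q p (by have := s.rng p q (by omega) r; omega)).2 (Or.inl (s.sym p q hq r))
    · omega
  · rcases (hb p 62 (by omega)).1 h with r | ⟨rfl, -⟩
    · exact s.stb p r
    · exact ⟨y, hy, a⟩

theorem St.flag {i : ℕ} (hi : i < n) (h : ∀ y, G.Adj (ph i) y → y ∈ X) :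
    St G X n A D1 D2 D3 (Nat.lor Q (pw i)) ph :=
  ⟨s.le, s.mem, s.inj, s.rng, s.adj, s.sym, s.stb, s.d1, s.d2, s.d3, fun j hj => by
    rcases (tb_lor _ _ _).1 hj with r | r
    · exact s.ker j r
    · rw [(tb_pw _ _).1 r]; exact ⟨hi, h⟩⟩

end

theorem adE_str {k : Kc} (h : Str k) (i y : ℕ) : Str (adE i y k) := fun _ _ _ _ _ _ => h _ _ _ _ _ _
theorem adS_str {k : Kc} (h : Str k) (i : ℕ) : Str (adS i k) := fun _ _ _ _ _ _ => h _ _ _ _ _ _

end Pool.Agent.Hom2.Sc
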