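import Pool.Agent.Lib.MP_7e4769_co.Hc.ScP2
import Pool.Agent.Lib.MP_7e4769_co.Hc.ScS

set_option autoImplicit false

namespace Pool.Agent.Hom2

open Sc.Dp (cdv mkR mkE varC verC)
open Sc (row ix clr mb St)

variable {V : Type} {G : SimpleGraph V} {X : Finset V} {n A D1 D2 D3 Q : ℕ} {ph : ℕ → V}

/-- the row without its `k` lowest bits -/
def stg (x k : ℕ) : ℕ := if k = 0 then x else if k = 1 then clr x else clr (clr x)

theorem ix_lt (x : ℕ) : ix x < 64 := Nat.mod_lt _ (by omega)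

theorem cdv_tab : ∀ j < 64, cdv j = if j < 62 then j + 2 else 63 - j := by decide +kernel

theorem mkR_spec (n A : ℕ) : ∀ i, ∀ k < 3,
    sl (mkR n A) i k = if i < n then cdv (ix (stg (row A i) k)) else 0 := by
  induction n with
  | zero => intro i k _; simp [mkR, sl, fld]
  | succ n ih =>
    have e : mkR (n + 1) A = put (put (put (mkR n A) n 0 (cdv (ix (row A n)))) n 1
        (cdv (ix (clr (row A n))))) n 2 (cdv (ix (clr (clr (row A n))))) := by
      exact (fz_eq (mkR n A) (fun R => fz (row A n) fun x =>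
        put (put (put R n 0 (cdv (ix x))) n 1 (cdv (ix (clr x)))) n 2 (cdv (ix (clr (clr x)))))).trans
        (fz_eq _ _)
    have b : ∀ y, cdv (ix y) < 64 := fun y => by
      have := ix_lt y
      rw [cdv_tab _ this]; split_ifs <;> omega
    have z : ∀ k < 3, sl (mkR n A) n k = 0 := fun k hk => by rw [ih n k hk, if_neg (by omega)]
    have s0 := sl_put (b (row A n)) (by omega) (z 0 (by omega))
    have s1 := sl_put (b (clr (row A n))) (show 1 < 3 by omega)
      (by rw [s0 n 1 (by omega), if_neg (by omega), z 1 (by omega)])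
    have s2 := sl_put (b (clr (clr (row A n)))) (show 2 < 3 by omega)
      (by rw [s1 n 2 (by omega), if_neg (by omega), s0 n 2 (by omega), if_neg (by omega), z 2 (by omega)])
    intro i k hk
    rw [e, s2 i k hk, s1 i k hk, s0 i k hk, ih i k hk]
    by_cases c : i = n
    · subst c; interval_cases k <;> simp [stg]
    · simp only [c, false_and, if_false, show i < n + 1 ↔ i < n by omega]

theorem stg_spec {x : ℕ} (hx : ∀ j, x.testBit j = true → j < 63) (h3 : clr (clr (clr x)) = 0) :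
    (∀ k < 3, (stg x k = 0 ∧ ix (stg x k) = 63) ∨ (stg x k ≠ 0 ∧ x.testBit (ix (stg x k)) = true)) ∧
    (∀ j, x.testBit j = true → ∃ k < 3, ix (stg x k) = j) ∧
    (clr x ≠ 0 → x ≠ 0 ∧ ix x ≠ ix (clr x)) ∧
    (clr (clr x) ≠ 0 → clr x ≠ 0 ∧ ix x ≠ ix (clr (clr x)) ∧ ix (clr x) ≠ ix (clr (clr x))) := by
  have sp : ∀ y, (∀ j, y.testBit j = true → x.testBit j = true) → y ≠ 0 → y.testBit (ix y) = true ∧
      ∀ i, (clr y).testBit i = true ↔ y.testBit i = true ∧ i ≠ ix y := fun y h r =>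
    have := Sc.ix_spec r (fun i hi => by have := hx i (h i hi); omega)
    ⟨this.1, this.2.2⟩
  have u1 : ∀ j, (clr x).testBit j = true → x.testBit j = true := fun j => Sc.clr_sub
  have u2 : ∀ j, (clr (clr x)).testBit j = true → x.testBit j = true := fun j h => u1 j (Sc.clr_sub h)
  have n1 : ∀ y, clr y ≠ 0 → y ≠ 0 := fun y h r => h (r ▸ Sc.clr_zero)
  refine ⟨fun k hk => ?_, fun j hj => ?_, fun h => ?_, fun h => ?_⟩
  · have sub : ∀ j, (stg x k).testBit j = true → x.testBit j = true := by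
      interval_cases k
      · exact fun _ h => h
      · exact u1
      · exact u2
    by_cases c : stg x k = 0
    · exact Or.inl ⟨c, c ▸ Sc.ix_zero⟩
    · exact Or.inr ⟨c, sub _ (sp _ sub c).1⟩
  · by_contra c
    push Not at c
    have nz : ∀ y, y.testBit j = true → y ≠ 0 := fun y h r => by simp [r] at h
    have a1 := ((sp x (fun _ h => h) (nz _ hj)).2 j).2 ⟨hj, (c 0 (by omega)).symm⟩
    have a2 := ((sp _ u1 (nz _ a1)).2 j).2 ⟨a1, (c 1 (by omega)).symm⟩
    exact nz _ (((sp _ u2 (nz _ a2)).2 j).2 ⟨a2, (c 2 (by omega)).symm⟩) h3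
  · exact ⟨n1 _ h, (((sp x (fun _ h => h) (n1 _ h)).2 _).1 (sp _ u1 h).1).2.symm⟩
  · have a := ((sp _ u1 (n1 _ h)).2 _).1 (sp _ u2 h).1
    exact ⟨n1 _ h, (((sp x (fun _ h => h) (n1 _ (n1 _ h))).2 _).1 a.1).2.symm, a.2.symm⟩

theorem st_stg (s : St G X n A D1 D2 D3 Q ph) (hc : Cub G X) (h2 : TwoEC G X) {i : ℕ} (hi : i < n) :
    (∀ j, (row A i).testBit j = true → j < 63) ∧ clr (clr (clr (row A i))) = 0 := by
  obtain ⟨Z, -, h⟩ := s.unk hc h2 hi
  exact ⟨fun j hj => ((Sc.tb_row _ _ _).1 hj).1, (Sc.clr3 _).2 (by omega)⟩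

/-- meaning of the codes read from the matrix -/
theorem st_code (s : St G X n A D1 D2 D3 Q ph) (hc : Cub G X) (h2 : TwoEC G X) {i k : ℕ} (hi : i < n)
    (hk : k < 3) : (stg (row A i) k = 0 ∧ sl (mkR n A) i k = 0) ∨ (stg (row A i) k ≠ 0 ∧
      (row A i).testBit (ix (stg (row A i) k)) = true ∧
      ((ix (stg (row A i) k) = 62 ∧ sl (mkR n A) i k = 1) ∨
        (ix (stg (row A i) k) < n ∧ sl (mkR n A) i k = ix (stg (row A i) k) + 2))) := by
  obtain ⟨a, b⟩ := st_stg s hc h2 hi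
  have := s.le
  rw [mkR_spec n A i k hk, if_pos hi, cdv_tab _ (ix_lt _)]
  rcases (stg_spec a b).1 k hk with r | r
  · exact Or.inl ⟨r.1, by rw [r.2]; rfl⟩
  · refine Or.inr ⟨r.1, r.2, ?_⟩
    rcases (s.row_lt r.2).2 with q | q
    · exact Or.inr ⟨q, if_pos (by omega)⟩
    · exact Or.inl ⟨q, by rw [q]; rfl⟩

theorem st_emb (s : St G X n A D1 D2 D3 Q ph) (hc : Cub G X) (h2 : TwoEC G X) :
    ∃ nu, Emb G X n (sl (mkR n A)) ph nu := by
  have key : ∀ i, ∃ f : ℕ → V, i < n → Nb G (ph i) (f 0) (f 1) (f 2) ∧ ∀ k < 3, stg (row A i) k ≠ 0 →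
      (ix (stg (row A i) k) = 62 → f k ∉ X) ∧
        (ix (stg (row A i) k) < n → f k = ph (ix (stg (row A i) k))) := by
    intro i
    by_cases hi : i < n
    swap
    · exact ⟨ph, fun r => absurd r hi⟩
    obtain ⟨a, b⟩ := st_stg s hc h2 hi
    obtain ⟨t1, -, t3, t4⟩ := stg_spec a b
    have le := s.le
    have nb : ∀ j, ∃ v, (row A i).testBit j = true → G.Adj (ph i) v ∧ (j = 62 → v ∉ X) ∧
        (j < n → v = ph j) := fun j => by
      by_cases h : (row A i).testBit j = true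
      · have m := ((Sc.tb_row _ _ _).1 h).2
        rcases (s.row_lt h).2 with q | q
        · exact ⟨ph j, fun _ => ⟨s.adj i j q m, fun r => by omega, fun _ => rfl⟩⟩
        · obtain ⟨y, y1, y2⟩ := s.stb i (q ▸ m)
          exact ⟨y, fun _ => ⟨y2, fun _ => y1, fun r => by omega⟩⟩
      · exact ⟨ph 0, fun r => absurd r h⟩
    choose g hg using nb
    have gi : ∀ j j', (row A i).testBit j = true → (row A i).testBit j' = true → j ≠ j' → g j ≠ g j' := by
      intro j j' h h' ne e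
      rcases (s.row_lt h).2 with q | q <;> rcases (s.row_lt h').2 with q' | q'
      · exact ne (s.inj _ q _ q' (((hg j h).2.2 q).symm.trans (e.trans ((hg j' h').2.2 q'))))
      · exact (hg j' h').2.1 q' (e ▸ (hg j h).2.2 q ▸ s.mem _ q)
      · exact (hg j h).2.1 q (e ▸ (hg j' h').2.2 q' ▸ s.mem _ q')
      · omega
    have bt : ∀ k < 3, stg (row A i) k ≠ 0 → (row A i).testBit (ix (stg (row A i) k)) = true :=
      fun k hk r => ((t1 k hk).resolve_left (fun q => r q.1)).2
    have fin : ∀ x y z, Nb G (ph i) x y z → (row A i ≠ 0 → x = g (ix (row A i))) →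
        (clr (row A i) ≠ 0 → y = g (ix (clr (row A i)))) →
        (clr (clr (row A i)) ≠ 0 → z = g (ix (clr (clr (row A i))))) →
        ∃ f : ℕ → V, i < n → Nb G (ph i) (f 0) (f 1) (f 2) ∧ ∀ k < 3, stg (row A i) k ≠ 0 →
          (ix (stg (row A i) k) = 62 → f k ∉ X) ∧
            (ix (stg (row A i) k) < n → f k = ph (ix (stg (row A i) k))) := by
      intro x y z hn e0 e1 e2
      refine ⟨fun k => if k = 0 then x else if k = 1 then y else z, fun _ => ⟨hn, fun k hk r => ?_⟩⟩
      have := (hg _ (bt k hk r)).2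
      interval_cases k
      · obtain rfl := e0 r; exact this
      · obtain rfl := e1 r; exact this
      · obtain rfl := e2 r; exact this
    obtain ⟨x, y, z, hn⟩ := hc _ (s.mem i hi)
    by_cases c2 : clr (clr (row A i)) = 0
    · by_cases c1 : clr (row A i) = 0
      · by_cases c0 : row A i = 0
        · exact fin x y z hn (fun r => absurd c0 r) (fun r => absurd c1 r) (fun r => absurd c2 r)
        · obtain ⟨y, z, h⟩ := hc.first (s.mem i hi) (hg _ (bt 0 (by omega) c0)).1
          exact fin _ y z h (fun _ => rfl) (fun r => absurd c1 r) (fun r => absurd c2 r)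
      · have b0 := bt 0 (by omega) (t3 c1).1
        have b1 := bt 1 (by omega) c1
        obtain ⟨z, h⟩ := hc.second (s.mem i hi) (hg _ b0).1 (hg _ b1).1 (gi _ _ b0 b1 (t3 c1).2)
        exact fin _ _ z h (fun _ => rfl) (fun _ => rfl) (fun r => absurd c2 r)
    · obtain ⟨c1, d1, d2⟩ := t4 c2
      have b0 := bt 0 (by omega) (t3 c1).1
      have b1 := bt 1 (by omega) c1
      have b2 := bt 2 (by omega) c2
      exact fin _ _ _ (hn.of_adj (hg _ b0).1 (hg _ b1).1 (hg _ b2).1 (gi _ _ b0 b1 (t3 c1).2)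
        (gi _ _ b0 b2 d1) (gi _ _ b1 b2 d2)) (fun _ => rfl) (fun _ => rfl) (fun _ => rfl)
  choose nu hnu using key
  refine ⟨nu, s.mem, s.inj, fun i hi => (hnu i hi).1, fun i hi k hk e => ?_, fun i hi k hk y e => ?_⟩
  · rcases st_code s hc h2 hi hk with r | ⟨r, -, q | q⟩
    · omega
    · exact ((hnu i hi).2 k hk r).1 q.1
    · omega
  · rcases st_code s hc h2 hi hk with r | ⟨r, -, q | q⟩
    · omega
    · omega
    · obtain rfl : y = ix (stg (row A i) k) := by omega
      exact ⟨q.1, ((hnu i hi).2 k hk r).2 q.1⟩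

/-- the payment hook is sound -/
theorem dp_ok (hc : Cub G X) (h2 : TwoEC G X) : Sc.DpOK G X Sc.Dp.dp := by
  intro n A D1 D2 D3 Q ph S K B s rg h
  simp only [Sc.Dp.dp, p_fz, fz_eq, p_shr] at h
  obtain ⟨h1, h3⟩ := cond_ne h
  refine ⟨fun r => h3 (by simp [r, shr]), fun c c3 cS cf => ?_⟩
  rw [Bool.and_eq_true] at h1
  obtain ⟨nu, E⟩ := st_emb s hc h2
  obtain ⟨-, x, hx⟩ := var_exists h1.1 (fun s k => toZ (c (nu s k)))
  have h4 := h1.2
  simp only [verC, p_fzb, fzb_eq, p_allLt, p_tb, p_noLate, Bool.and_eq_true, allLt_iff,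
    Nat.beq_eq] at h4
  obtain ⟨dis, h4⟩ := h4
  have rS : ∀ i, tb S i = true → i < n := fun i hi => rg i (Or.inl (tb_eq S i ▸ hi))
  have rK : ∀ i, tb K i = true → i < n := fun i hi => rg i (Or.inr (tb_eq K i ▸ hi))
  have kk := fun i (hi : tb K i = true) => by
    have := h4 i (rK i hi)
    rw [hi, cond_true, Bool.and_eq_true, Nat.beq_eq] at this
    exact this
  have full : ∀ i, tb K i = true → ∀ k < 3, sl (mkR n A) i k ≠ 0 ∧
      (row A i).testBit (ix (stg (row A i) k)) = true := fun i hi k hk => by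
    have v := (kk i hi).2
    simp only [Sc.Dp.vK, p_fzb, fzb_eq, p_ne, p_sl, Bool.and_eq_true (ne _ _), ne_iff] at v
    have a : clr (clr (row A i)) ≠ 0 := by
      rcases st_code s hc h2 (rK i hi) (show 2 < 3 by omega) with r | r
      · exact absurd r.2 v.1
      · exact r.1
    obtain ⟨a1, a2⟩ := st_stg s hc h2 (rK i hi)
    obtain ⟨-, -, t3, t4⟩ := stg_spec a1 a2
    rcases st_code s hc h2 (rK i hi) hk with r | r
    · refine absurd r.1 ?_
      interval_cases k
      · exact (t3 (t4 a).1).1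
      · exact (t4 a).1
      · exact a
    · exact ⟨by omega, r.2.1⟩
  refine (pay3_sound E rS rK (fun i => tb_land dis) (fun i hi k hk => ?_)
    (fun i hi => (kk i hi).2) (fun i hi => ?_) c hx (fun v hv => ?_) (fun t ht k hk o => ?_)).imp
    (fun c' d => ⟨fun v hv => d.1 v (fun i hi => hv i (tb_eq K i ▸ hi)),
      fun i hi => d.2 i (by rwa [tb_eq, tb_eq])⟩)
  · have m := Sc.an_zero (kk i hi).1 (full i hi k hk).2
    rcases st_code s hc h2 (rK i hi) hk with r | ⟨-, -, r | r⟩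
    · exact absurd r.2 (full i hi k hk).1
    · exact Or.inl r.2
    · rw [Sc.tb_lor, Sc.tb_lor, show 4611686018427387904 = Sc.pw 62 from rfl, Sc.tb_pw] at m
      rcases m with (m | m) | m
      · exact Or.inr (Or.inr ⟨_, r.2, tb_eq _ _ ▸ m⟩)
      · exact Or.inr (Or.inl ((inM_iff _ _).2 ⟨_, r.2, tb_eq _ _ ▸ m⟩))
      · have := s.le; omega
  · have := h4 i (rS i hi)
    rwa [(Bool.not_eq_true _).mp (tb_land dis hi), hi, cond_false, cond_true, Bool.and_eq_true] at this
  · rcases hv with hv | ⟨i, hi, rfl⟩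
    · exact c3 v hv
    · exact cS i (tb_eq S i ▸ hi)
  · have ht' := rS t ht
    have off : ∀ i, tb K i = true → nu t k ≠ ph i := fun i hi e => by
      have hi' := rK i hi
      obtain ⟨k1, hk1, e1⟩ := E.slot hi' (e ▸ E.adj ht' hk).symm
      have m : mb A i t := by
        rcases st_code s hc h2 hi' hk1 with r | ⟨-, b, r | r⟩
        · exact absurd r.2 (full i hi k1 hk1).1
        · exact absurd (e1 ▸ s.mem t ht') (E.stub i hi' k1 hk1 r.2)
        · rw [s.inj _ r.1 _ ht' ((E.edge i hi' k1 hk1 _ r.2).2.symm.trans e1)] at b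
          exact ((Sc.tb_row _ _ _).1 b).2
      obtain ⟨a1, a2⟩ := st_stg s hc h2 ht'
      obtain ⟨k2, hk2, e2⟩ := (stg_spec a1 a2).2.1 i
        ((Sc.tb_row _ _ _).2 ⟨by have := s.le; omega, s.sym i t ht' m⟩)
      have e3 : sl (mkR n A) t k2 = i + 2 := by
        rw [mkR_spec n A t k2 hk2, if_pos ht', e2, cdv_tab _ (by have := s.le; omega),
          if_pos (by have := s.le; omega)]
      rw [E.ninj ht' hk hk2 (e.trans (E.edge t ht' k2 hk2 i e3).2.symm),
        (inM_iff _ _).2 ⟨i, e3, hi⟩] at o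
      exact absurd o (by decide)
    exact ⟨cf t (tb_eq S t ▸ ht) _ (E.adj ht' hk) (fun i hi => off i (tb_eq K i ▸ hi)), off⟩

end Pool.Agent.Hom2
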