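set_option autoImplicit false
set_option linter.unusedVariables false

namespace Pool.Agent.Hom2.Sc

def cR : Nat := nat_lit 0x1000000000000000100000000000000010000000000000001000000000000000100000000000000010000000000000001000000000000000100000000000000010000000000000001000000000000000100000000000000010000000000000001000000000000000100000000000000010000000000000001000000000000000100000000000000010000000000000001000000000000000100000000000000010000000000000001000000000000000100000000000000010000000000000001000000000000000100000000000000010000000000000001000000000000000100000000000000010000000000000001000000000000000100000000000000010000000000000001000000000000000100000000000000010000000000000001000000000000000100000000000000010000000000000001000000000000000100000000000000010000000000000001000000000000000100000000000000010000000000000001000000000000000100000000000000010000000000000001000000000000000100000000000000010000000000000001000000000000000100000000000000010000000000000001000000000000000100000000000000010000000000000001000000000000000100000000000000010000000000000001000000000000000100000000000000010000000000000001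

def cM : Nat := nat_lit 0x200000000000000040000000000000008000000000000001000000000000000200000000000000040000000000000008000000000000001000000000000000200000000000000040000000000000008000000000000001000000000000000200000000000000040000000000000008000000000000001000000000000000200000000000000040000000000000008000000000000001000000000000000200000000000000040000000000000008000000000000001000000000000000200000000000000040000000000000008000000000000001000000000000000200000000000000040000000000000008000000000000001000000000000000200000000000000040000000000000008000000000000001000000000000000200000000000000040000000000000008000000000000001000000000000000200000000000000040000000000000008000000000000001000000000000000200000000000000040000000000000008000000000000001000000000000000200000000000000040000000000000008000000000000001000000000000000200000000000000040000000000000008000000000000001000000000000000200000000000000040000000000000008000000000000001000000000000000200000000000000040000000000000008000000000000001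

def cK : Nat := nat_lit 0x7fffffffffffffff7fffffffffffffff7fffffffffffffff7fffffffffffffff7fffffffffffffff7fffffffffffffff7fffffffffffffff7fffffffffffffff7fffffffffffffff7fffffffffffffff7fffffffffffffff7fffffffffffffff7fffffffffffffff7fffffffffffffff7fffffffffffffff7fffffffffffffff7fffffffffffffff7fffffffffffffff7fffffffffffffff7fffffffffffffff7fffffffffffffff7fffffffffffffff7fffffffffffffff7fffffffffffffff7fffffffffffffff7fffffffffffffff7fffffffffffffff7fffffffffffffff7fffffffffffffff7fffffffffffffff7fffffffffffffff7fffffffffffffff7fffffffffffffff7fffffffffffffff7fffffffffffffff7fffffffffffffff7fffffffffffffff7fffffffffffffff7fffffffffffffff7fffffffffffffff7fffffffffffffff7fffffffffffffff7fffffffffffffff7fffffffffffffff7fffffffffffffff7fffffffffffffff7fffffffffffffff7fffffffffffffff7fffffffffffffff7fffffffffffffff7fffffffffffffff7fffffffffffffff7fffffffffffffff7fffffffffffffff7fffffffffffffff7fffffffffffffff7fffffffffffffff7fffffffffffffff7fffffffffffffff7fffffffffffffff7fffffffffffffff7fffffffffffffff7fffffffffffffff7fffffffffffffff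

def cH : Nat := nat_lit 0x8000000000000000800000000000000080000000000000008000000000000000800000000000000080000000000000008000000000000000800000000000000080000000000000008000000000000000800000000000000080000000000000008000000000000000800000000000000080000000000000008000000000000000800000000000000080000000000000008000000000000000800000000000000080000000000000008000000000000000800000000000000080000000000000008000000000000000800000000000000080000000000000008000000000000000800000000000000080000000000000008000000000000000800000000000000080000000000000008000000000000000800000000000000080000000000000008000000000000000800000000000000080000000000000008000000000000000800000000000000080000000000000008000000000000000800000000000000080000000000000008000000000000000800000000000000080000000000000008000000000000000800000000000000080000000000000008000000000000000800000000000000080000000000000008000000000000000800000000000000080000000000000008000000000000000800000000000000080000000000000008000000000000000800000000000000080000000000000008000000000000000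

def cT : Nat := nat_lit 0x218868f01f892dc5a234e5595fbabc9d6fd27fd52e8b58e980805bf7b19cd47aa73cf9128d004d984e9ed03035e83c29c103f

def cD : Nat := nat_lit 0x8000000000000000400000000000000020000000000000001000000000000000080000000000000004000000000000000200000000000000010000000000000000800000000000000040000000000000002000000000000000100000000000000008000000000000000400000000000000020000000000000001000000000000000080000000000000004000000000000000200000000000000010000000000000000800000000000000040000000000000002000000000000000100000000000000008000000000000000400000000000000020000000000000001000000000000000080000000000000004000000000000000200000000000000010000000000000000800000000000000040000000000000002000000000000000100000000000000008000000000000000400000000000000020000000000000001000000000000000080000000000000004000000000000000200000000000000010000000000000000800000000000000040000000000000002000000000000000100000000000000008000000000000000400000000000000020000000000000001000000000000000080000000000000004000000000000000200000000000000010000000000000000800000000000000040000000000000002000000000000000100000000000000008000000000000000400000000000000020000000000000001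

def cA : Nat := nat_lit 0x100000104000000000700003f0000471c7040000

def cW : Nat := nat_lit 0x1c41471c70c71c31c71c00471c70c71870471c71c71871471c31c71c71c71801c71841c71c00471871471841c71c30c71c41471c70c71c31c71c00471c70c71870471c71c71871471c31c71c71c71801c71841c71c00471871471841c71c30c71c41471c70c71c31c71c00471c70c71870471c71c71871471c31c71c71c71801c71841c71c00471871471841c71c30c71c41471c70c71c31c71c00471c70c71870471c71c71871471c31c71c71c71801c71841c71c00471871471841c71c30c7ffab57fffbdfffbff7ffef7ffffbdfc3ff770fffd733fb7fffbff70fffd733efdfc3afffffef7f33fb7fc3afff0fbbffffab57fffbdfffbff7ffef7ffffbdfc3ff770fffd733fb7fffbff70fffd733efdfc3afffffef7f33fb7fc3afff0fbbffffab57fffbdfffbff7ffef7ffffbdfc3ff770fffd733fb7fffbff70fffd733efdfc3afffffef7f33fb7fc3afff0fbbffffab57fffbdfffbff7ffef7ffffbdfc3ff770fffd733fb7fffbff70fffd733efdfc3afffffef7f33fb7fc3afff0fbbffffffffffffffffffffffffffffffffffffffffffffffffffffffffffffffffffffffffffffffffffffffffffffffffffffffffffffffffff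ffffffffffffff07ffff0bffff13ffffffffff0bffff13ffff07ffffffffff13ffff07ffff0bffffffffffffffffffffffffffffffffff0bffff13ffff07ffffffffff13ffff07ffff0bffffffffff07ffff0bffff13ffffffffffffffffffffffffffffffffff13ffff07ffff0bffffffffff07ffff0bffff13ffffffffff0bffff13ffff07fffffffffffff000fc0fc0fc003ffff000fff000fffffffffffffc0fc0fffffffc0fc0fffffffc003ffffffffffffffc003ffff000fff000fffffffffffffff000ffffff03ffc003f03fffffff03ffc003ffc0ffffffffffff03f03fffffff03f03ffc0fc0fffffffc0fc0ffffffffffff03ffc003ffc0fffffffc0fc003ffc0ffffff000fffffffffffffff000fff000ffffc003ffffffffffffffc003fffffff03f03fffffff03f03fffffffffffff000fff000ffffc003f03f03f000fffffffff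

/-- two to the power -/
def pw (p : Nat) : Nat :=
    (Nat.shiftLeft 1 p)

/-- field -/
def fd (B p w : Nat) : Nat :=
    (Nat.mod (Nat.shiftRight B p) w)

/-- bit as a number -/
def bt (m i : Nat) : Nat :=
    (Nat.mod (Nat.shiftRight m i) 2)

/-- 1 if nonzero -/
def nz (x : Nat) : Nat :=
    (Nat.sub x (Nat.sub x 1))

/-- and not -/
def an (x y : Nat) : Nat :=
    (Nat.xor x (Nat.land x y))

/-- clear the lowest bit -/
def clr (x : Nat) : Nat :=
    (Nat.land x (Nat.sub x 1))

/-- index of the lowest bit -/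
def ix (x : Nat) : Nat :=
    (Nat.mod (Nat.shiftRight cT (Nat.mul 6 (Nat.mod (Nat.xor x (clr x)) 67))) 64)

/-- number of bits, at most three -/
def cnt (x : Nat) : Nat :=
    (Nat.add (nz x) (Nat.add (nz (clr x)) (nz (clr (clr x)))))

/-- row of the matrix -/
def row (A i : Nat) : Nat :=
    (Nat.mod (Nat.shiftRight A (Nat.mul 64 i)) 9223372036854775808)

/-- bit `i` moves to bit `64 i` -/
def spr (T : Nat) : Nat :=
    (Nat.land (Nat.mul T cM) cR)

/-- keep the stream if nothing is violated -/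
def gd (B v : Nat) : Nat :=
    (Nat.mul B (Nat.sub 1 v))

/-- matrix with one more edge -/
def eA (A i y : Nat) : Nat :=
    (Nat.lor A (Nat.lor (Nat.shiftLeft (pw y) (Nat.mul 64 i)) (Nat.shiftLeft (pw i) (Nat.mul 64 y))))

/-- the ends of the edge if it is new -/
def eM (A i y : Nat) : Nat :=
    (Nat.mul (Nat.sub 1 (bt (row A i) y)) (Nat.lor (pw i) (pw y)))

/-- number of vertices after using `y` -/
def eN (n y : Nat) : Nat :=
    (Nat.add n (Nat.sub (Nat.add y 1) n))

/-- possible neighbours of `j`; bit `n` is a new vertex -/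
def av (n A D3 j : Nat) : Nat :=
    (Nat.lor (row A j) (Nat.mul (Nat.sub 1 (bt D3 j)) (Nat.xor (Nat.sub (Nat.shiftLeft 2 n) 1) D3)))

/-- bound after a possible contact with `J` -/
def tch (bd b2 t : Nat) : Nat :=
    (Nat.sub bd (Nat.mul (Nat.sub bd b2) t))

/-- violations of a colouring given by two bit planes -/
def colV (A B0 B1 H : Nat) : Nat :=
    (Nat.add (an A (Nat.lor (Nat.xor (Nat.mul B0 cR) (Nat.mul (spr B0) 18446744073709551615)) (Nat.xor (Nat.mul B1
    cR) (Nat.mul (spr B1) 18446744073709551615)))) (Nat.land (Nat.xor (Nat.xor (Nat.add (Nat.xor A (Nat.lor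
    (Nat.land A (Nat.mul B0 cR)) (Nat.land A (Nat.mul B1 cR)))) cK) (Nat.add (Nat.xor (Nat.land A (Nat.mul B0 cR))
    (Nat.land (Nat.land A (Nat.mul B0 cR)) (Nat.land A (Nat.mul B1 cR)))) cK)) (Nat.xor (Nat.add (Nat.xor
    (Nat.land A (Nat.mul B1 cR)) (Nat.land (Nat.land A (Nat.mul B0 cR)) (Nat.land A (Nat.mul B1 cR)))) cK)
    (Nat.add (Nat.land (Nat.land A (Nat.mul B0 cR)) (Nat.land A (Nat.mul B1 cR))) cK))) H))

/-- clear the lowest bit of every row -/
def clR (X : Nat) : Nat :=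
    (Nat.land (Nat.sub (Nat.lor X cH) cR) X)

/-- flags of the nonzero rows -/
def nzR (X : Nat) : Nat :=
    (Nat.land (Nat.add X cK) cH)

/-- candidate for the mask behind row flags -/
def cpr (Y : Nat) : Nat :=
    (Nat.mod (Nat.shiftRight Y 63) 9223372036854775807)

/-- the candidate is wrong -/
def cprV (Y : Nat) : Nat :=
    (Nat.xor (Nat.shiftLeft (spr (cpr Y)) 63) Y)

/-- bit `i` moves to the diagonal place `i i` -/
def dia (Q : Nat) : Nat :=
    (Nat.land (Nat.mul Q cR) cD)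

/-- entries with the row in `T` and the column in `C` -/
def blk (A T C : Nat) : Nat :=
    (Nat.land A (Nat.mul (spr T) C))

/-- colour of vertex `i` -/
def cv2 (C i : Nat) : Nat :=
    (Nat.mod (Nat.shiftRight C (Nat.mul 2 i)) 4)

/-- continuation on a pattern state `n A D1 D2 D3 Q` and a stream -/
abbrev Kc := Nat → Nat → Nat → Nat → Nat → Nat → Nat → Nat
abbrev Wc := Nat → Nat → Nat → Nat → Nat → Nat → Kc
def k0 : Kc := fun _ _ _ _ _ _ _ => 0

/-- tree of chunks -/
inductive DT where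
  | leaf (c : Nat) : DT
  | node (l r : DT) : DT

noncomputable def dtop (t : DT) : Nat → Nat :=
  @DT.rec (fun _ => Nat → Nat) (fun c _ => c)
    (fun _ _ l r i => @Nat.rec (fun _ => Nat) (l (Nat.div i 2)) (fun _ _ => r (Nat.div i 2)) (Nat.mod i 2)) t

/-- entry `g`: 64 entries per chunk, the width is in the lowest 12 bits -/
noncomputable def dget (t : DT) (g : Nat) : Nat :=
  @Nat.rec (fun _ => Nat) 0 (fun q _ =>
    Nat.mod (Nat.shiftRight (dtop t q) (Nat.add (Nat.mul (Nat.mod (dtop t q) 4096) (Nat.mod g 64)) 12))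
      (Nat.shiftLeft 1 (Nat.mod (dtop t q) 4096))) (Nat.add (Nat.div g 64) 1)

/-- witness program; registers are de Bruijn indices -/
inductive Td where
  | done : Td
  | core (g : Nat) : Td
  | ask (T : Td) : Td
  | st (T : Td) : Td
  | nb (r : Nat) (T : Td) : Td
  | sa (m r : Nat) (T : Td) : Td
  | ed (r r' : Nat) (T : Td) : Td
  | stub (r : Nat) (T : Td) : Td
  | ns (q r : Nat) (T : Td) : Td
  | inc (d : Nat) (T : Td) : Td
  | or (T T' : Td) : Td
  | rs (T : Td) : Td
  | pop (T : Td) : Td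

/-- fact table, table of `nt` facts with non-edges, witness program, flags (closed, E3, C3), extra payment check, extra rules -/
structure Pm where
  db : DT
  dn : DT
  nt : Nat
  T : Td
  cl : Nat
  fe : Nat
  fc : Nat
  dp : Nat → Nat → Nat → Nat → Nat → Nat
  ext : Nat → (Kc → Kc) → Kc → Kc

/-- add the edge `i y` -/
def adE (i y : Nat) (k : Kc) : Kc := fun n A D1 D2 D3 Q B =>
    k (eN n y) (eA A i y) (Nat.lor D1 (eM A i y)) (Nat.lor D2 (Nat.land D1 (eM A i y))) (Nat.lor D3 (Nat.land D2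
    (eM A i y))) Q B

/-- add a stub at `i` -/
def adS (i : Nat) (k : Kc) : Kc := fun n A D1 D2 D3 Q B =>
    k n (Nat.lor A (pw (Nat.add (Nat.mul 64 i) 62))) (Nat.lor D1 (Nat.mul (Nat.sub 1 (bt (row A i) 62)) (pw i)))
    (Nat.lor D2 (Nat.land D1 (Nat.mul (Nat.sub 1 (bt (row A i) 62)) (pw i)))) (Nat.lor D3 (Nat.land D2 (Nat.mul
    (Nat.sub 1 (bt (row A i) 62)) (pw i)))) Q B

/-- thread the stream through the bits of `m`, `c` rounds -/
noncomputable def forB (f : Nat → Nat → Nat → Nat) (c m z B : Nat) : Nat :=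
    @Nat.rec (fun _ => Nat → Nat → Nat) (fun m B => (gd B (Nat.add m z))) (fun _ ih m B => ih (clr m) (f (ix m)
    (clr m) B)) c m B

/-- closed pattern with a colouring -/
noncomputable def rCol  : Kc :=
    fun n A D1 D2 D3 Q B => (gd (Nat.shiftRight B (Nat.mul 2 n)) (Nat.add (colV A (Nat.lor (Nat.mod B (pw n))
    4611686018427387904) (Nat.lor (fd B n (pw n)) 4611686018427387904) cH) (Nat.add (Nat.xor D3 (Nat.sub (pw n)
    1)) (Nat.sub 1 n))))

/-- check `c` vertices of a map -/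
noncomputable def refL (A M : Nat) (fin : Nat → Nat → Nat → Nat → Nat → Nat) (c : Nat) : Nat → Nat → Nat → Nat → Nat → Nat :=
    @Nat.rec (fun _ => Nat → Nat → Nat → Nat → Nat → Nat) fin (fun _ ih E Mi ac sm ro => ih (Nat.shiftRight E 12)
    (Nat.shiftRight Mi 8) (Nat.land ac (Nat.land (Nat.shiftRight (row A (Nat.mod Mi 64)) (fd M (Nat.mul 8 (Nat.mod
    E 64)) 64)) (Nat.shiftRight (row A (Nat.mod Mi 64)) (fd M (Nat.mul 8 (fd E 6 64)) 64)))) (Nat.add sm (pw
    (Nat.mod Mi 64))) (Nat.lor ro (pw (Nat.mod Mi 64)))) c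

noncomputable def refB (e g f n A B : Nat) : Nat :=
    refL A (Nat.lor (Nat.mod B (pw (Nat.mul 8 (Nat.mod e 64)))) (Nat.shiftLeft 62 (Nat.mul 8 (Nat.mod e 64))))
    (fun _ _ ac sm ro => (gd (Nat.shiftRight B (Nat.mul 8 (Nat.mod e 64))) (Nat.add (Nat.add (Nat.sub 1 (Nat.mod
    ac 2)) (Nat.sub sm ro)) (Nat.add (Nat.shiftRight ro n) (Nat.sub (Nat.add g 1) f))))) (Nat.mod e 64)
    (Nat.shiftRight e 6) (Nat.lor (Nat.mod B (pw (Nat.mul 8 (Nat.mod e 64)))) (Nat.shiftLeft 62 (Nat.mul 8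
    (Nat.mod e 64)))) 1 0 0

/-- an earlier fact embeds -/
noncomputable def rRef (db : DT) (f n A B : Nat) : Nat :=
    (@Nat.rec (fun _ => Nat) 0 (fun g _ => refB (dget db g) g f n A (Nat.shiftRight B 20)) (Nat.add (Nat.mod B
    1048576) 1))

/-- the same with the kernel flags on the diagonal -/
noncomputable def rRefK (db : DT) (f : Nat) : Kc :=
    fun n A D1 D2 D3 Q B => rRef db f n (Nat.lor A (Nat.land (Nat.mul (an (spr (Nat.lor Q D3)) (Nat.land
    (Nat.shiftRight A 62) cR)) 18446744073709551615) cD)) B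

noncomputable def refN (rc : Kc → Kc) (k : Kc) (e g nt : Nat) : Kc :=
    fun n A D1 D2 D3 Q B => @Nat.rec (fun _ => Nat) (refB (Nat.shiftRight e 38) g nt n A B) (fun t r => (@Nat.rec
    (fun _ => Nat) r (fun _ _ => adE (fd B (Nat.mul 8 (fd e (Nat.add (Nat.mul 12 t) 2) 64)) 64) (fd B (Nat.mul 8
    (fd e (Nat.add (Nat.mul 12 t) 8) 64)) 64) (rc k) n A D1 D2 D3 Q r) (bt (av n A D3 (fd B (Nat.mul 8 (fd e
    (Nat.add (Nat.mul 12 t) 2) 64)) 64)) (fd B (Nat.mul 8 (fd e (Nat.add (Nat.mul 12 t) 8) 64)) 64)))) (Nat.mod e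
    4)

/-- a fact with up to three non-edges embeds -/
noncomputable def rRefN (dn : DT) (nt : Nat) (rc : Kc → Kc) (k : Kc) : Kc :=
    fun n A D1 D2 D3 Q B => (@Nat.rec (fun _ => Nat) 0 (fun g _ => refN rc k (dget dn g) g nt n A D1 D2 D3 Q
    (Nat.shiftRight B 20)) (Nat.add (Nat.mod B 1048576) 1))

/-- one more half-edge of vertex `i`: stub, old vertices, new vertex -/
noncomputable def rSplit (cl : Nat) (rc : Kc → Kc) (k : Kc) : Kc :=
    fun n A D1 D2 D3 Q B => (forB (fun y1 m1 B1 => (adE (Nat.mod B 64) y1 (rc k) n A D1 D2 D3 Q B1)) (fd B 6 64)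
    (an (av n A D3 (Nat.mod B 64)) (Nat.lor (row A (Nat.mod B 64)) (pw (Nat.mod B 64)))) (Nat.add (Nat.div n 62)
    (Nat.add (bt D3 (Nat.mod B 64)) (Nat.sub (Nat.add (Nat.mod B 64) 1) n))) (@Nat.rec (fun _ => Nat) (adS
    (Nat.mod B 64) (rc k) n A D1 D2 D3 Q (Nat.shiftRight B 12)) (fun _ _ => (Nat.shiftRight B 12)) (Nat.add cl
    (Nat.add (bt Q (Nat.mod B 64)) (bt (row A (Nat.mod B 64)) 62)))))

/-- vertex `i` has a stub or not -/
noncomputable def rFlag (rc : Kc → Kc) (k : Kc) : Kc :=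
    fun n A D1 D2 D3 Q B => rc k n A D1 D2 D3 (Nat.lor Q (pw (Nat.mod B 64))) (adS (Nat.mod B 64) (rc k) n A D1 D2
    D3 Q (gd (Nat.shiftRight B 6) (Nat.sub (Nat.add (Nat.mod B 64) 1) n)))

noncomputable def cutV (cl e3 c3 t U O Z : Nat) : Nat :=
    (@Nat.rec (fun _ => Nat) (Nat.add (clr Z) (Nat.add (Nat.sub 1 U) (Nat.sub 1 O))) (fun t' _ => (@Nat.rec (fun _
    => Nat) (Nat.add (Nat.add (clr (clr Z)) (Nat.sub 1 e3)) (Nat.add (Nat.sub 1 (clr U)) (Nat.add (Nat.sub 1 O)
    (Nat.sub (Nat.sub 1 (clr O)) cl)))) (fun _ _ => (Nat.add (Nat.add (clr (clr (clr Z))) (Nat.sub 1 c3)) (Nat.add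
    (Nat.sub 1 (clr (clr (clr U)))) (Nat.sub 1 (clr (clr (clr O))))))) t')) t)

/-- few half-edges leave the set `U` -/
noncomputable def rCut (cl e3 c3 n A B : Nat) : Nat :=
    (gd (Nat.shiftRight B (Nat.add n 2)) (Nat.add (Nat.xor (Nat.shiftLeft (spr (fd B 2 (pw n))) 63) (nzR (clR (blk
    A (fd B 2 (pw n)) (Nat.lor (fd B 2 (pw n)) 4611686018427387904))))) (cutV cl e3 c3 (Nat.mod B 4) (fd B 2 (pw
    n)) (Nat.xor (Nat.sub (pw n) 1) (fd B 2 (pw n))) (Nat.xor (Nat.shiftLeft (spr (fd B 2 (pw n))) 63) (nzR (clR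
    (clR (blk A (fd B 2 (pw n)) (Nat.lor (fd B 2 (pw n)) 4611686018427387904)))))))))

/-- exactly three open half-edges: one more vertex or a triangle -/
noncomputable def rFin (fl : Nat) (rc : Kc → Kc) : Kc :=
    fun n A D1 D2 D3 Q B => adE (ix (Nat.xor (Nat.sub (pw n) 1) D3)) n (adE (ix (clr (Nat.xor (Nat.sub (pw n) 1)
    D3))) (Nat.add n 1) (adE (ix (clr (clr (Nat.xor (Nat.sub (pw n) 1) D3)))) (Nat.add n 2) (adE n (Nat.add n 1)
    (adE n (Nat.add n 2) (adE (Nat.add n 1) (Nat.add n 2) (rc k0)))))) n A D1 D2 D3 Q (adE (ix (Nat.xor (Nat.sub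
    (pw n) 1) D3)) n (adE (ix (clr (Nat.xor (Nat.sub (pw n) 1) D3))) n (adE (ix (clr (clr (Nat.xor (Nat.sub (pw n)
    1) D3)))) n (rc k0))) n A D1 D2 D3 Q (gd B (Nat.add (Nat.add (Nat.xor D2 (Nat.sub (pw n) 1)) (clr (clr (clr
    (Nat.xor (Nat.sub (pw n) 1) D3))))) (Nat.add (Nat.add (Nat.sub 1 (clr (clr (Nat.xor (Nat.sub (pw n) 1) D3))))
    (Nat.sub 3 fl)) (Nat.add (Nat.sub 4 n) (Nat.sub n 58))))))

/-- a new register -/
noncomputable def xNb (NJ b2 r : Nat) (ih : Wc) (bd nd Sd Nd Fb Rg : Nat) : Kc :=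
    fun n A D1 D2 D3 Q B => (forB (fun y2 m2 B2 => (adE (fd Rg (Nat.mul 6 r) 64) y2 (ih (tch bd b2 (bt NJ y2)) nd
    Sd Nd (Nat.lor Fb (pw y2)) (Nat.add (Nat.mul Rg 64) y2)) n A D1 D2 D3 Q B2)) (Nat.mod B 64) (an (av n A D3 (fd
    Rg (Nat.mul 6 r) 64)) (Nat.lor (Nat.lor Fb Nd) (Nat.mul (nz (Nat.sub nd b2)) NJ))) (Nat.div n 62)
    (Nat.shiftRight B 6))

noncomputable def xS1 (J NJ b2 : Nat) (ih : Wc) (bd nd Fb s m Nd : Nat) : Kc :=
    fun n A D1 D2 D3 Q B => (forB (fun y3 m3 B3 => (adE s y3 (ih (tch bd b2 (Nat.lor (bt J s) (bt NJ y3))) nd m Nd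
    (Nat.lor Fb (pw y3)) y3) n A D1 D2 D3 Q B3)) (Nat.mod B 64) (an (av n A D3 s) (Nat.lor (Nat.lor Fb Nd)
    (Nat.mul (nz (Nat.sub nd b2)) NJ))) (Nat.div n 62) (Nat.shiftRight B 6))

/-- first register, next to the smallest vertex of `S` -/
noncomputable def xSt (S J NJ b2 : Nat) (ih : Wc) (bd nd Fb : Nat) : Kc :=
    fun n A D1 D2 D3 Q B => @Nat.rec (fun _ => Nat → Nat → Nat → Nat) (fun m _ B1 => (gd B1 m)) (fun _ r m Nd B1
    => r (clr m) (Nat.lor Nd (row A (ix m))) (xS1 J NJ b2 ih bd nd Fb (ix m) m Nd n A D1 D2 D3 Q B1)) (Nat.mod B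
    64) (an S (Nat.mul (nz (Nat.sub nd b2)) J)) 0 (Nat.shiftRight B 6)

noncomputable def xSa1 (J b2 j : Nat) (ih : Wc) (bd nd Sd Nd Fb Rg : Nat) : Kc :=
    fun n A D1 D2 D3 Q B => (forB (fun y4 m4 B4 => (adE j y4 (ih (tch bd b2 (bt J y4)) nd Sd Nd Fb Rg) n A D1 D2
    D3 Q B4)) (Nat.mod B 64) (Nat.mul (an Sd (Nat.lor (Nat.lor D3 (row A j)) (Nat.mul (nz (Nat.sub nd b2)) J)))
    (Nat.sub 1 (bt D3 j))) 0 (Nat.shiftRight B 6))

noncomputable def xSa2 (J b2 j : Nat) (ih : Wc) (bd nd Sd Nd Fb Rg : Nat) : Kc :=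
    fun n A D1 D2 D3 Q B => (forB (fun y5 m5 B5 => (forB (fun y6 m6 B6 => (adE j y5 (adE j y6 (ih (tch bd b2
    (Nat.lor (bt J y5) (bt J y6))) nd Sd Nd Fb Rg)) n A D1 D2 D3 Q B6)) (Nat.mod B5 64) m5 0 (Nat.shiftRight B5
    6))) (Nat.mod B 64) (Nat.mul (an Sd (Nat.lor (Nat.lor D3 (row A j)) (Nat.mul (nz (Nat.sub nd b2)) J)))
    (Nat.sub 1 (bt D2 j))) 0 (Nat.shiftRight B 6))

/-- the register has `m` neighbours in `S` -/
noncomputable def xSa (S J b2 m r : Nat) (ih : Wc) (bd nd Sd Nd Fb Rg : Nat) : Kc :=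
    fun n A D1 D2 D3 Q B => (@Nat.rec (fun _ => Nat) (ih bd nd Sd Nd Fb Rg n A D1 D2 D3 Q B) (fun u _ => (@Nat.rec
    (fun _ => Nat) (xSa1 J b2 (fd Rg (Nat.mul 6 r) 64) ih bd nd Sd Nd Fb Rg n A D1 D2 D3 Q B) (fun u' _ =>
    (@Nat.rec (fun _ => Nat) (xSa2 J b2 (fd Rg (Nat.mul 6 r) 64) ih bd nd Sd Nd Fb Rg n A D1 D2 D3 Q B) (fun _ _
    => 0) u')) u)) (Nat.sub m (cnt (Nat.land (row A (fd Rg (Nat.mul 6 r) 64)) S))))

/-- the count 63 lets another rule cut in -/
noncomputable def cut (rc : Kc → Kc) (k : Kc) : Kc :=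
    fun n A D1 D2 D3 Q B => (@Nat.rec (fun _ => Nat) (k n A D1 D2 D3 Q B) (fun _ _ => rc k n A D1 D2 D3 Q
    (Nat.shiftRight B 6)) (Nat.div (Nat.mod B 64) 63))

noncomputable def nSa (rc : Kc → Kc) (S J b2 m r : Nat) (ih : Wc) (bd nd Sd Nd Fb Rg : Nat) : Kc :=
    fun n A D1 D2 D3 Q B => (@Nat.rec (fun _ => Nat) (ih bd nd Sd Nd Fb Rg n A D1 D2 D3 Q B) (fun _ _ => cut rc
    (xSa S J b2 m r ih bd nd Sd Nd Fb Rg) n A D1 D2 D3 Q B) (Nat.sub m (cnt (Nat.land (row A (fd Rg (Nat.mul 6 r)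
    64)) S))))

/-- two registers are adjacent -/
noncomputable def xEd (r r' : Nat) (ih : Wc) (bd nd Sd Nd Fb Rg : Nat) : Kc :=
    fun n A D1 D2 D3 Q B => (@Nat.rec (fun _ => Nat) B (fun _ _ => (adE (fd Rg (Nat.mul 6 r) 64) (fd Rg (Nat.mul 6
    r') 64) (ih bd nd Sd Nd Fb Rg) n A D1 D2 D3 Q B)) (bt (av n A D3 (fd Rg (Nat.mul 6 r) 64)) (fd Rg (Nat.mul 6
    r') 64)))

/-- the register has a stub -/
noncomputable def xSb (cl r : Nat) (ih : Wc) (bd nd Sd Nd Fb Rg : Nat) : Kc :=
    fun n A D1 D2 D3 Q B => (@Nat.rec (fun _ => Nat) (adS (fd Rg (Nat.mul 6 r) 64) (ih bd nd Sd Nd Fb Rg) n A D1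
    D2 D3 Q B) (fun _ _ => B) (Nat.mul (Nat.sub 1 (bt (row A (fd Rg (Nat.mul 6 r) 64)) 62)) (Nat.add cl (Nat.add
    (bt D3 (fd Rg (Nat.mul 6 r) 64)) (bt Q (fd Rg (Nat.mul 6 r) 64))))))

/-- the register has no neighbour in `S`, and no stub if `q = 1` -/
noncomputable def xNs (S q r : Nat) (ih : Wc) (bd nd Sd Nd Fb Rg : Nat) : Kc :=
    fun n A D1 D2 D3 Q B => (@Nat.rec (fun _ => Nat) (ih bd nd Sd Nd Fb Rg n A D1 D2 D3 (Nat.lor Q (Nat.shiftLeft
    q (fd Rg (Nat.mul 6 r) 64))) B) (fun _ _ => B) (Nat.land (row A (fd Rg (Nat.mul 6 r) 64)) (Nat.lor S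
    (Nat.shiftLeft q 62))))

/-- the witness program -/
noncomputable def nxt (rc : Kc → Kc) (cl f S J NJ b2 : Nat) (T : Td) : Wc :=
    @Td.rec (fun _ => Wc) (fun _ _ _ _ _ _ => rc k0)
    (fun g _ _ _ _ _ _ _ _ _ _ _ _ B => (gd B (Nat.sub (Nat.add g 1) f)))
    (fun _ ih bd nd Sd Nd Fb Rg => rc (ih bd nd Sd Nd Fb Rg))
    (fun _ ih bd nd _ _ Fb _ => cut rc (xSt S J NJ b2 ih bd nd Fb))
    (fun r _ ih bd nd Sd Nd Fb Rg => cut rc (xNb NJ b2 r ih bd nd Sd Nd Fb Rg))
    (fun m r _ ih => nSa rc S J b2 m r ih)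
    (fun r r' _ ih => xEd r r' ih)
    (fun r _ ih => xSb cl r ih)
    (fun q r _ ih => xNs S q r ih)
    (fun d _ ih bd nd Sd Nd Fb Rg n A D1 D2 D3 Q B => @Bool.rec (fun _ => Nat) B (ih bd (Nat.add nd d) Sd Nd Fb Rg
    n A D1 D2 D3 Q B) (Nat.ble (Nat.add nd d) bd))
    (fun _ _ ih ih' bd nd Sd Nd Fb Rg n A D1 D2 D3 Q B => ih' bd nd Sd Nd Fb Rg n A D1 D2 D3 Q (ih bd nd Sd Nd Fb
    Rg n A D1 D2 D3 Q B))
    (fun _ ih bd nd _ _ Fb Rg => ih bd nd S 0 Fb Rg)
    (fun _ ih bd nd Sd Nd Fb Rg => ih bd nd Sd Nd Fb (Nat.div Rg 64)) T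

/-- atoms of vertex `v` open to the adversary, 0 if the shape is wrong -/
noncomputable def alV (A M K F h N v : Nat) : Nat :=
    (fd cA (Nat.mul 6 (Nat.add (Nat.add (Nat.mul 4 (Nat.add (Nat.sub 1 (bt K v)) (Nat.add (Nat.mul 2 (bt F v))
    (Nat.mul 3 (bt h v))))) (cnt (Nat.land (row A v) (Nat.lor M 4611686018427387904)))) (Nat.mul 16 (bt N v))))
    64)

/-- atoms of vertex `v` that the colouring `C` does not answer -/
noncomputable def klV (A M K F h C v : Nat) : Nat :=
    (fd cW (Nat.mul 6 (Nat.add (Nat.add (cv2 C v) (Nat.mul 4 (cv2 C (ix (Nat.land (row A v) (Nat.lor M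
    4611686018427387904)))))) (Nat.add (Nat.add (Nat.mul 16 (cv2 C (ix (clr (Nat.land (row A v) (Nat.lor M
    4611686018427387904)))))) (Nat.mul 64 (cv2 C (ix (clr (clr (Nat.land (row A v) (Nat.lor M
    4611686018427387904)))))))) (Nat.mul 256 (Nat.add (Nat.sub 1 (bt K v)) (Nat.add (Nat.mul 2 (bt F v)) (Nat.mul
    3 (bt h v)))))))) 64)

/-- six-bit fields along the bits of a mask -/
noncomputable def hor (g : Nat → Nat) (c : Nat) : Nat → Nat :=
    @Nat.rec (fun _ => Nat → Nat) (fun _ => 0) (fun _ ih m => (Nat.add (g (ix m)) (Nat.mul 64 (ih (clr m))))) c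

noncomputable def shp (g : Nat → Nat) (c : Nat) : Nat → Nat :=
    @Nat.rec (fun _ => Nat → Nat) (fun m => m) (fun _ ih m => (Nat.add (Nat.sub 1 (g (ix m))) (ih (clr m)))) c

noncomputable def kq (n A M K F h c CL q : Nat) : Nat :=
    hor (klV A M K F h (Nat.lor (fd CL (Nat.mul (Nat.mul 2 n) q) (pw (Nat.mul 2 n)))
    63802943797675961899382738893456539648)) c M

/-- decision tree over the atoms -/
noncomputable def tre (kl : Nat → Nat) (fuel : Nat) : Nat → Nat → Nat :=
    @Nat.rec (fun _ => Nat → Nat → Nat) (fun _ _ => 0) (fun _ r al B => (@Nat.rec (fun _ => Nat) (@Nat.rec (fun _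
    => Nat) 0 (fun q _ => (gd (Nat.shiftRight B 15) (Nat.land al (kl q)))) (Nat.add (fd B 1 16384) 1)) (fun _ _ =>
    @Nat.rec (fun _ => Nat) (gd (Nat.shiftRight B (Nat.add (fd B 13 16777216) 37)) (Nat.sub 1 (r al (fd B 37 (pw
    (fd B 13 16777216)))))) (fun _ _ =>
    r (an al (Nat.shiftLeft (Nat.xor 63 (fd B 7 64)) (Nat.mul 6 (fd B 1 64)))) (r (an al (Nat.shiftLeft (fd B 7
    64) (Nat.mul 6 (fd B 1 64)))) (Nat.shiftRight B 13))) (fd B 7 64)) (Nat.mod B 2))) fuel

/-- payment table: `K` is coloured, `F` flexible ports, `h` the free port -/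
noncomputable def tab (n A M K F h N v B : Nat) : Nat :=
    tre (kq n A M K F h (Nat.mod B 64) (fd B 20 (pw (Nat.mul (Nat.mul 2 n) (fd B 6 16384))))) 200 (hor (alV A M K F
    h N) (Nat.mod B 64) M) (gd (Nat.shiftRight B (Nat.add (Nat.mul (Nat.mul 2 n) (fd B 6 16384)) 20)) (Nat.add v
    (shp (alV A M K F h N) (Nat.mod B 64) M)))

/-- the free table of `j` -/
noncomputable def tJ (n A S K F J1 Y j B : Nat) : Nat :=
    tab n A (Nat.lor (Nat.lor K (Nat.shiftLeft (bt J1 j) j)) (an S (pw j))) (Nat.lor K (Nat.shiftLeft (bt J1 j)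
    j)) (an F (pw (Nat.mod B 64))) (pw (Nat.mod B 64)) 0 (Nat.add (clr (clr (Nat.land (row A j) (Nat.lor (Nat.lor
    S K) 4611686018427387904)))) (Nat.add (Nat.mul (bt J1 j) (Nat.add (Nat.xor (Nat.mod B 64) j) (Nat.mul (Nat.sub
    1 (bt F j)) (Nat.land (row A j) Y)))) (Nat.mul (Nat.sub 1 (bt J1 j)) (Nat.xor (Nat.land (row A j) K) (pw
    (Nat.mod B 64)))))) (Nat.shiftRight B 6)

noncomputable def tAll (dp : Nat → Nat → Nat → Nat → Nat → Nat) (n A S K F J J1 Y B : Nat) : Nat :=
    (@Nat.rec (fun _ => Nat) (@Nat.rec (fun _ => Nat) (tab n A (Nat.lor S K) K F 0 (pw (fd B 1 64)) 0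
    (Nat.shiftRight B 7)) (fun _ _ => dp n A S K (gd (Nat.shiftRight B 1) F)) (Nat.mod B 2)) (fun _ _ => (forB
    (fun y7 m7 B7 => (tJ n A S K F J1 Y y7 B7)) (Nat.mod B 64) J 0 (Nat.shiftRight B 6))) J)

/-- upper bound for the half-edges from a mask to the remainder -/
noncomputable def sumS (A SK c : Nat) : Nat → Nat :=
    @Nat.rec (fun _ => Nat → Nat) (fun m => (Nat.mul 3 m)) (fun _ ih m => (Nat.add (Nat.sub 3 (cnt (Nat.land (row
    A (ix m)) SK))) (ih (clr m)))) c

/-- violations of the shape of a move -/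
noncomputable def mvV (c3 A D3 S K F J J1 Y NJ : Nat) : Nat :=
    (Nat.add (Nat.add (Nat.add (Nat.land S K) (an K D3)) (Nat.add (an F K) (blk A (an K F) (Nat.xor
    18446744073709551615 (Nat.lor (Nat.lor S K) 4611686018427387904))))) (Nat.add (Nat.add (Nat.add (blk A F
    (Nat.xor 18446744073709551615 (Nat.lor (Nat.lor (Nat.lor S K) 4611686018427387904) Y))) (clR (blk A Y F)))
    (Nat.add (an J (Nat.lor S F)) (Nat.add (an J1 J) (an (an J J1) S)))) (Nat.add (Nat.add (blk A (an S (Nat.mul J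
    (Nat.sub 1 (clr J)))) (Nat.lor (an S (Nat.mul J (Nat.sub 1 (clr J)))) 4611686018427387904)) (Nat.add (Nat.sub
    1 (Nat.lor S K)) (Nat.mul c3 (Nat.sub 1 (clr (clr (clr (Nat.lor S K)))))))) (an (Nat.shiftLeft (spr NJ) 63)
    (nzR (Nat.land A (Nat.mul J cR)))))))

/-- stubs at `S`, edges inside `S`, edges from `J1` to `Y` -/
noncomputable def mvE (cl : Nat) (rc : Kc → Kc) (S J1 Y : Nat) : Kc :=
    fun n A D1 D2 D3 Q B => (fun B2 => (forB (fun y9 m9 B9 => (forB (fun y10 m10 B10 => (adE y9 y10 (rc k0) n A D1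
    D2 D3 Q B10)) (Nat.mod B9 64) (an Y D3) 0 (Nat.shiftRight B9 6))) (Nat.mod B2 64) (an J1 D3) 0 (Nat.shiftRight
    B2 6))) ((fun B1 => (forB (fun y11 m11 B11 => (forB (fun y12 m12 B12 => (adE y11 y12 (rc k0) n A D1 D2 D3 Q
    B12)) (Nat.mod B11 64) (an m11 (row A y11)) 0 (Nat.shiftRight B11 6))) (Nat.mod B1 64) (an S D3) 0
    (Nat.shiftRight B1 6))) (forB (fun y8 m8 B8 => (@Nat.rec (fun _ => Nat) (adS y8 (rc k0) n A D1 D2 D3 Q B8)
    (fun _ _ => B8) (bt (row A y8) 62))) (Nat.mod B 64) (Nat.mul (an (an S D3) Q) (Nat.sub 1 cl)) 0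
    (Nat.shiftRight B 6)))

noncomputable def mvW (cl mc : Nat) (rc : Kc → Kc) (T : Td) (f H M J NJ rI r : Nat) : Kc :=
    nxt rc cl f H J NJ (Nat.mul (Nat.div r 2) (nz (clr J))) T (Nat.add (Nat.mul (Nat.div r 2) (nz (clr J)))
    (Nat.sub (Nat.sub rI (Nat.sub rI (Nat.sub r (Nat.mul mc (nz J))))) (Nat.mul (Nat.div r 2) (nz (clr J))))) 0 H
    0 (Nat.lor M 4611686018427387904) 0

noncomputable def mvB (P : Pm) (rc : Kc → Kc) (f S K F J J1 Y NJ : Nat) : Kc :=
    fun n A D1 D2 D3 Q B => mvW P.cl (Nat.add 2 (Nat.mul P.cl P.fe)) rc P.T f (Nat.lor S F) (Nat.lor S K) J NJ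
    (sumS A (Nat.lor (Nat.lor S K) 4611686018427387904) (Nat.mod B 64) (an (Nat.lor S F) J)) (Nat.add (sumS A
    (Nat.lor (Nat.lor S K) 4611686018427387904) (Nat.mod B 64) (an (Nat.lor S F) J)) (sumS A (Nat.lor (Nat.lor S
    K) 4611686018427387904) (fd B 6 64) J)) n A D1 D2 D3 Q (mvE P.cl rc S J1 Y n A D1 D2 D3 Q (tAll P.dp n A S K F
    J J1 Y (gd (Nat.shiftRight B 12) (mvV P.fc A D3 S K F J J1 Y NJ))))

/-- move -/
noncomputable def rMove (P : Pm) (rc : Kc → Kc) (f : Nat) : Kc :=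
    fun n A D1 D2 D3 Q B => mvB P rc f (Nat.mod B (pw n)) (fd B (Nat.mul 1 n) (pw n)) (fd B (Nat.mul 2 n) (pw n))
    (fd B (Nat.mul 3 n) (pw n)) (fd B (Nat.mul 4 n) (pw n)) (fd B (Nat.mul 5 n) (pw n)) (fd B (Nat.mul 6 n) (pw
    n)) n A D1 D2 D3 Q (Nat.shiftRight B (Nat.mul 7 n))

noncomputable def stp2 (P : Pm) (f : Nat) (rc : Kc → Kc) (k : Kc) : Kc :=
    fun n A D1 D2 D3 Q B => (@Nat.rec (fun _ => Nat) (rSplit P.cl rc k n A D1 D2 D3 Q (Nat.shiftRight B 5)) (fun
    ta _ => (@Nat.rec (fun _ => Nat) (rRefK P.db f n A D1 D2 D3 Q (Nat.shiftRight B 5)) (fun tb _ => (@Nat.rec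
    (fun _ => Nat) (rCut P.cl P.fe P.fc n A (Nat.shiftRight B 5)) (fun tc _ => (@Nat.rec (fun _ => Nat) (rMove P
    rc f n A D1 D2 D3 Q (Nat.shiftRight B 5)) (fun td _ => (@Nat.rec (fun _ => Nat) (rFlag rc k n A D1 D2 D3 Q
    (Nat.shiftRight B 5)) (fun te _ => (@Nat.rec (fun _ => Nat) (rFin (Nat.add P.cl (Nat.add P.fe P.fc)) rc n A D1
    D2 D3 Q (Nat.shiftRight B 5)) (fun tf _ => (@Nat.rec (fun _ => Nat) (rRefN P.dn P.nt rc k n A D1 D2 D3 Q
    (Nat.shiftRight B 5)) (fun _ _ => P.ext f rc k n A D1 D2 D3 Q (Nat.shiftRight B 5)) tf)) te)) td)) tc)) tb))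
    ta)) (fd B 2 8))

/-- one step -/
noncomputable def stp (P : Pm) (f : Nat) (rc : Kc → Kc) (k : Kc) : Kc :=
    fun n A D1 D2 D3 Q B => (@Nat.rec (fun _ => Nat) (rCol n A D1 D2 D3 Q (Nat.shiftRight B 2)) (fun t _ =>
    (@Nat.rec (fun _ => Nat) (rRef P.db f n A (Nat.shiftRight B 2)) (fun t' _ => (@Nat.rec (fun _ => Nat) (k n A
    D1 D2 D3 Q (Nat.shiftRight B 2)) (fun _ _ => stp2 P f rc k n A D1 D2 D3 Q B) t')) t)) (Nat.mod B 4))

noncomputable def rcs (P : Pm) (f fuel : Nat) : Kc → Kc :=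
    @Nat.rec (fun _ => Kc → Kc) (fun _ => k0) (fun _ r => stp P f r) fuel

/-- matrix of the edges listed by the first `c` vertices of an entry -/
noncomputable def bld (e c : Nat) : Nat :=
    @Nat.rec (fun _ => Nat) 0 (fun i ih => (Nat.lor (Nat.lor ih (Nat.shiftLeft (Nat.lor (pw (Nat.mod (fd e
    (Nat.add (Nat.mul 12 i) 6) 4096) 64)) (pw (Nat.div (fd e (Nat.add (Nat.mul 12 i) 6) 4096) 64))) (Nat.mul 64
    i))) (Nat.lor (Nat.shiftLeft (pw i) (Nat.mul 64 (Nat.mod (fd e (Nat.add (Nat.mul 12 i) 6) 4096) 64)))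
    (Nat.shiftLeft (pw i) (Nat.mul 64 (Nat.div (fd e (Nat.add (Nat.mul 12 i) 6) 4096) 64)))))) c

/-- start with the matrix `A` -/
noncomputable def mkT (n A Q : Nat) (k : Kc) (B : Nat) : Nat :=
    k n A (cpr (nzR A)) (cpr (nzR (clR A))) (cpr (nzR (clR (clR A)))) Q (gd B (Nat.add (cprV (nzR A)) (Nat.add
    (cprV (nzR (clR A))) (cprV (nzR (clR (clR A)))))))

/-- column `n` holds the stubs, the diagonal the kernel flags -/
noncomputable def mkS (n A : Nat) (k : Kc) (B : Nat) : Nat :=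
    mkT n (Nat.xor (Nat.mod (Nat.lor (Nat.xor A (Nat.shiftLeft (Nat.land (Nat.shiftRight A n) cR) n))
    (Nat.shiftLeft (Nat.land (Nat.shiftRight A n) cR) 62)) (pw (Nat.mul 64 n))) (Nat.land (Nat.mod (Nat.lor
    (Nat.xor A (Nat.shiftLeft (Nat.land (Nat.shiftRight A n) cR) n)) (Nat.shiftLeft (Nat.land (Nat.shiftRight A n)
    cR) 62)) (pw (Nat.mul 64 n))) cD)) (Nat.mod (Nat.land (Nat.mod (Nat.lor (Nat.xor A (Nat.shiftLeft (Nat.land
    (Nat.shiftRight A n) cR) n)) (Nat.shiftLeft (Nat.land (Nat.shiftRight A n) cR) 62)) (pw (Nat.mul 64 n))) cD)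
    18446744073709551615) k (gd B (Nat.add (Nat.add (Nat.shiftRight A (Nat.mul 64 (Nat.add n 1))) (Nat.xor (dia
    (Nat.mod (Nat.land (Nat.mod (Nat.lor (Nat.xor A (Nat.shiftLeft (Nat.land (Nat.shiftRight A n) cR) n))
    (Nat.shiftLeft (Nat.land (Nat.shiftRight A n) cR) 62)) (pw (Nat.mul 64 n))) cD) 18446744073709551615))
    (Nat.land (Nat.mod (Nat.lor (Nat.xor A (Nat.shiftLeft (Nat.land (Nat.shiftRight A n) cR) n)) (Nat.shiftLeft
    (Nat.land (Nat.shiftRight A n) cR) 62)) (pw (Nat.mul 64 n))) cD))) (Nat.sub n 60)))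

noncomputable def chkE (P : Pm) (f e B : Nat) : Nat :=
    mkS (Nat.mod e 64) (bld e (Nat.mod e 64)) (rcs P f 250 k0) B

/-- `c` consecutive facts, each certificate preceded by its length; 0 if all pass -/
noncomputable def chkB (P : Pm) (c : Nat) : Nat → Nat → Nat :=
    @Nat.rec (fun _ => Nat → Nat → Nat) (fun _ _ => 0) (fun _ ih f B => @Nat.rec (fun _ => Nat) 1 (fun g _ =>
    (Nat.add (Nat.xor (chkE P g (dget P.db g) (fd B 24 (pw (Nat.mod B 16777216)))) 1) (ih (Nat.add g 1)
    (Nat.shiftRight B (Nat.add (Nat.mod B 16777216) 24))))) (Nat.add f 1)) c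

end Pool.Agent.Hom2.Sc
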