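import Pool.Agent.Lib.MP_7e4769_co.Hc.LemW
import Pool.Agent.Lib.MP_7e4769_co.Hc.ScA

set_option autoImplicit false

namespace Pool.Agent.Hom2.Sc

variable {V : Type}

/-- the set bits of a number -/
def bs (x : ℕ) : Finset ℕ := (Finset.range x).filter (fun i => x.testBit i = true)

/-- entry `i j` of a matrix -/
def mb (A i j : ℕ) : Prop := A.testBit (64 * i + j) = true

open Classical in
/-- number of neighbours of `x` in `X` outside `A` -/
noncomputable def out (G : SimpleGraph V) (X A : Finset V) (x : V) : ℕ :=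
  (X.filter (fun y => y ∉ A ∧ G.Adj x y)).card

/-- number of edges from `A` to the rest of `X` -/
noncomputable def ecut (G : SimpleGraph V) (X A : Finset V) : ℕ := ∑ x ∈ A, out G X A x

def E3 (G : SimpleGraph V) (X : Finset V) : Prop :=
  ∀ A ⊆ X, 2 ≤ A.card → A.card + 2 ≤ X.card → 3 ≤ ecut G X A

def C3 (G : SimpleGraph V) (X : Finset V) : Prop :=
  ∀ A ⊆ X, 4 ≤ A.card → A.card + 4 ≤ X.card → 4 ≤ ecut G X A

/-- pattern state: column 62 marks a known stub, `Dk` the vertices with at least `k` known half-edges,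
`Q` vertices without a stub -/
structure St (G : SimpleGraph V) (X : Finset V) (n A D1 D2 D3 Q : ℕ) (ph : ℕ → V) : Prop where
  le : n ≤ 62
  mem : ∀ i < n, ph i ∈ X
  inj : ∀ i < n, ∀ j < n, ph i = ph j → i = j
  rng : ∀ i, ∀ j < 64, mb A i j → i < n ∧ (j < n ∨ j = 62)
  adj : ∀ i, ∀ j < n, mb A i j → G.Adj (ph i) (ph j)
  sym : ∀ i, ∀ j < n, mb A i j → mb A j i
  stb : ∀ i, mb A i 62 → ∃ y, y ∉ X ∧ G.Adj (ph i) y
  d1 : ∀ i, D1.testBit i = true ↔ 1 ≤ (bs (row A i)).card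
  d2 : ∀ i, D2.testBit i = true ↔ 2 ≤ (bs (row A i)).card
  d3 : ∀ i, D3.testBit i = true ↔ 3 ≤ (bs (row A i)).card
  ker : ∀ i, Q.testBit i = true → i < n ∧ ∀ y, G.Adj (ph i) y → y ∈ X

def Ext (n : ℕ) (ph : ℕ → V) (n' : ℕ) (ph' : ℕ → V) : Prop := n ≤ n' ∧ ∀ i < n, ph' i = ph i

/-- the continuation `k` is sound on every extension of the embedding -/
def KS (G : SimpleGraph V) (X : Finset V) (Gl : Prop) (k : Kc) (n : ℕ) (ph : ℕ → V) : Prop :=
  ∀ n' A D1 D2 D3 Q ph' B, Ext n ph n' ph' → St G X n' A D1 D2 D3 Q ph' → k n' A D1 D2 D3 Q B ≠ 0 → Gl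

/-- a failed stream stays failed -/
def Str (k : Kc) : Prop := ∀ n A D1 D2 D3 Q, k n A D1 D2 D3 Q 0 = 0

def RecOK (G : SimpleGraph V) (X : Finset V) (Gl : Prop) (rc : Kc → Kc) : Prop :=
  (∀ k n ph, KS G X Gl k n ph → KS G X Gl (rc k) n ph) ∧ ∀ k, Str (rc k)

/-- slot `t < 2` of vertex `i` of an entry -/
def slot (e i t : ℕ) : ℕ := fd e (6 + 12 * i + 6 * t) 64

/-- embedding of the entry `e` with `e % 64` vertices -/
structure EmbE (G : SimpleGraph V) (X : Finset V) (e : ℕ) (ph : ℕ → V) : Prop where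
  mem : ∀ i < e % 64, ph i ∈ X
  inj : ∀ i < e % 64, ∀ j < e % 64, ph i = ph j → i = j
  stb : ∀ i < e % 64, ∀ t < 2, slot e i t = e % 64 → ∃ y, y ∉ X ∧ G.Adj (ph i) y
  ker : ∀ i < e % 64, ∀ t < 2, slot e i t = i → ∀ y, G.Adj (ph i) y → y ∈ X
  adj : ∀ i < e % 64, ∀ t < 2, slot e i t < e % 64 → slot e i t ≠ i → G.Adj (ph i) (ph (slot e i t))

def Holds (G : SimpleGraph V) (X : Finset V) (Gl : Prop) (e : ℕ) : Prop := ∀ ph, EmbE G X e ph → Gl

/-- a fact with `e % 4` non-edges (12 bits each, from bit 2) before the entry (from bit 38) -/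
def HoldsN (G : SimpleGraph V) (X : Finset V) (Gl : Prop) (e : ℕ) : Prop :=
  ∀ ph, EmbE G X (Nat.shiftRight e 38) ph → (∀ t < e % 4, fd e (12 * t + 2) 64 < Nat.shiftRight e 38 % 64 →
    fd e (12 * t + 8) 64 < Nat.shiftRight e 38 % 64 →
    ¬ G.Adj (ph (fd e (12 * t + 2) 64)) (ph (fd e (12 * t + 8) 64))) → Gl

/-- no neighbour of `y` outside `C` has a rank below `t` -/
def Alive (G : SimpleGraph V) (X C : Finset V) (ρ : V → ℕ) (y : V) (t : ℕ) : Prop :=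
  ∀ s ∈ X, s ∉ C → G.Adj y s → t ≤ ρ s

/-- meaning of a witness program in the bad component `C`: registers, used vertices, rank threshold,
lower bound for the cut of `C` -/
def Sat (G : SimpleGraph V) (X C : Finset V) (db : DT) (ρ : V → ℕ) : Td → List V → List V → ℕ → ℕ → Prop
  | .done, _, _, _, nd => nd ≤ ecut G X C
  | .core g, _, _, _, nd => nd ≤ ecut G X C ∧ ∃ ph, EmbE G X (dget db g) ph
  | .ask T, env, U, t, nd => Sat G X C db ρ T env U t nd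
  | .st T, _, U, _, nd => ∃ s y, s ∈ X ∧ s ∉ C ∧ y ∈ C ∧ G.Adj s y ∧ y ∉ U ∧ Alive G X C ρ y (ρ s) ∧
      Sat G X C db ρ T [y] (y :: U) (ρ s) nd
  | .nb r T, env, U, t, nd => ∃ x y, env[r]? = some x ∧ G.Adj x y ∧ y ∈ C ∧ y ∉ U ∧ Alive G X C ρ y t ∧
      Sat G X C db ρ T (y :: env) (y :: U) t nd
  | .sa m r T, env, U, t, nd => ∃ x, env[r]? = some x ∧ m ≤ out G X C x ∧ Sat G X C db ρ T env U t nd
  | .ed r r' T, env, U, t, nd => ∃ x x', env[r]? = some x ∧ env[r']? = some x' ∧ G.Adj x x' ∧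
      Sat G X C db ρ T env U t nd
  | .stub r T, env, U, t, nd => ∃ x y, env[r]? = some x ∧ y ∉ X ∧ G.Adj x y ∧ Sat G X C db ρ T env U t nd
  | .ns q r T, env, U, t, nd => ∃ x, env[r]? = some x ∧ q ≤ 1 ∧ (∀ y ∈ X, G.Adj x y → y ∈ C) ∧
      (q = 1 → ∀ y, G.Adj x y → y ∈ X) ∧ Sat G X C db ρ T env U t nd
  | .inc d T, env, U, t, nd => Sat G X C db ρ T env U t (nd + d)
  | .or T T', env, U, t, nd => Sat G X C db ρ T env U t nd ∨ Sat G X C db ρ T' env U t nd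
  | .rs T, env, U, _, nd => Sat G X C db ρ T env U 0 nd
  | .pop T, env, U, t, nd => Sat G X C db ρ T env.tail U t nd

/-- `K` can be coloured against every colouring with infinity on `S` -/
def PayS (G : SimpleGraph V) (X : Finset V) (ph : ℕ → V) (S K : ℕ) : Prop :=
  ∀ c : V → Fin 4, (∀ v, v ∉ X → c v = 3) → (∀ s, S.testBit s = true → c (ph s) = 3) →
    (∀ s, S.testBit s = true → ∀ y, G.Adj (ph s) y → (∀ i, K.testBit i = true → y ≠ ph i) → c y ≠ 3) →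
    ∃ c' : V → Fin 4, (∀ v, (∀ i, K.testBit i = true → v ≠ ph i) → c' v = c v) ∧
      ∀ i, S.testBit i = true ∨ K.testBit i = true → OK G c' (ph i)

/-- hypothesis on the extra payment check -/
def DpOK (G : SimpleGraph V) (X : Finset V) (dp : ℕ → ℕ → ℕ → ℕ → ℕ → ℕ) : Prop :=
  ∀ n A D1 D2 D3 Q ph S K B, St G X n A D1 D2 D3 Q ph →
    (∀ i, S.testBit i = true ∨ K.testBit i = true → i < n) → dp n A S K B ≠ 0 → B ≠ 0 ∧ PayS G X ph S K

/-- everything a block of facts may assume about `(G, X)` and the goal -/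
structure Ctx (P : Pm) (G : SimpleGraph V) (X : Finset V) (Gl : Prop) : Prop where
  cub : Cub G X
  two : TwoEC G X
  cl1 : P.cl ≤ 1
  fe1 : P.fe ≤ 1
  fc1 : P.fc ≤ 1
  cl : P.cl = 1 → Closed G X
  fe : P.fe = 1 → E3 G X
  fc : P.fc = 1 → C3 G X
  hf : ∀ R ⊆ X, R ≠ X → HF G R
  good : Good G X → Gl
  wit : ∀ C ρ, C ⊆ X → C ≠ X → (P.fc = 1 → C.card + 4 ≤ X.card) → Conn G C → ¬ Good G C →
    Gl ∨ Sat G X C P.db ρ P.T [] [] 0 0
  non : ∀ g < P.nt, HoldsN G X Gl (dget P.dn g)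
  dp : DpOK G X P.dp
  ext : ∀ f, (∀ g < f, Holds G X Gl (dget P.db g)) → ∀ rc k n ph, RecOK G X Gl rc → KS G X Gl k n ph →
    KS G X Gl (P.ext f rc k) n ph

/-- invariant of the witness mode: `S` are the holders of the marks -/
structure WInv (G : SimpleGraph V) (X C : Finset V) (ρ : V → ℕ) (n : ℕ) (ph : ℕ → V) (S J NJ b2 : ℕ)
    (env U : List V) (t bd Sd Nd Fb Rg : ℕ) : Prop where
  sub : C ⊆ X
  hold : ∀ y ∈ C, ∀ z ∈ X, z ∉ C → G.Adj y z → ∃ s, S.testBit s = true ∧ z = ph s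
  hS : ∀ s, S.testBit s = true → s < n ∧ ph s ∉ C ∧ ρ (ph s) = s
  hJ : ∀ j, J.testBit j = true → S.testBit j = true
  hNJ : ∀ i, NJ.testBit i = true → i < n ∧ ∃ j, J.testBit j = true ∧ G.Adj (ph i) (ph j)
  b2le : b2 ≤ bd
  bnd : ecut G X C ≤ b2 ∨ (ecut G X C ≤ bd ∧ ∀ y ∈ C, ∀ j, J.testBit j = true → ¬ G.Adj y (ph j))
  reg : ∀ r x, env[r]? = some x → fd Rg (6 * r) 64 < n ∧ ph (fd Rg (6 * r) 64) = x ∧ x ∈ C ∧
    Alive G X C ρ x t
  sdl : ∀ s, Sd.testBit s = true → S.testBit s = true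
  hSd : ∀ s, S.testBit s = true → t ≤ s → (∃ y ∈ C, G.Adj y (ph s)) → Sd.testBit s = true
  hNd : ∀ i, Nd.testBit i = true → i = 62 ∨ (i < n ∧ ¬ Alive G X C ρ (ph i) t)
  hFb : ∀ i, Fb.testBit i = true → i = 62 ∨ (i < n ∧ (ph i ∉ C ∨ ph i ∈ U))

end Pool.Agent.Hom2.Sc
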