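import Pool.Agent.Lib.MP_7e4769_co.Hc.UC
import Pool.Agent.Lib.MP_7e4769_co.Hc.ScD

set_option autoImplicit false

namespace Pool.Agent.Hom2.UC

open Classical

variable {V : Type}

/-- `v` has a stub -/
def Stub (G : SimpleGraph V) (X : Finset V) (v : V) : Prop := ∃ y, y ∉ X ∧ G.Adj v y
/-- `v` has no stub -/
def Ker (G : SimpleGraph V) (X : Finset V) (v : V) : Prop := ∀ y, G.Adj v y → y ∈ X

/-- number of known neighbours -/
noncomputable def dg (A i : ℕ) : ℕ := ((Finset.range 64).filter (fun j => tb (row A i) j = true)).card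

/-- the state `(n, A)` embeds -/
structure Em (G : SimpleGraph V) (X : Finset V) (n A : ℕ) (ph : ℕ → V) : Prop where
  le : n ≤ 62
  mem : ∀ i < n, ph i ∈ X
  inj : ∀ i < n, ∀ j < n, ph i = ph j → i = j
  adj : ∀ i j, tb (row A i) j = true → i < n ∧ j < n ∧ G.Adj (ph i) (ph j)
  sym : ∀ i j, tb (row A i) j = true → tb (row A j) i = true
  stub : ∀ i, tb (mT A) i = true → i < n ∧ Stub G X (ph i)
  ker : ∀ i, tb (mQ A) i = true → i < n ∧ Ker G X (ph i)
  g1 : ∀ i, tb (d1 A) i = true ↔ i < 64 ∧ 1 ≤ dg A i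
  g2 : ∀ i, tb (d2 A) i = true ↔ i < 64 ∧ 2 ≤ dg A i
  g3 : ∀ i, tb (d3 A) i = true ↔ i < 64 ∧ 3 ≤ dg A i

/-- standing assumptions on level `lv` -/
structure Cx (G : SimpleGraph V) (X : Finset V) (lv : ℕ) : Prop where
  cub : Cub G X
  two : TwoEC G X
  below : TBelow V X.card
  hf : ∀ R ⊆ X, R ≠ X → HF G R
  e3 : 1 ≤ lv → Sc.E3 G X
  cl : 2 ≤ lv → Closed G X

/-- the pattern of the entry `E` embeds -/
structure FE (G : SimpleGraph V) (X : Finset V) (E : ℕ) (ph : ℕ → V) : Prop where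
  mem : ∀ i < fN E, ph i ∈ X
  inj : ∀ i < fN E, ∀ j < fN E, ph i = ph j → i = j
  ea : ∀ i < fN E, G.Adj (ph i) (ph (fA (fF E i)))
  eb : ∀ i < fN E, G.Adj (ph i) (ph (fB (fF E i)))
  stub : ∀ i < fN E, bt (fF E i) 12 = 1 → Stub G X (ph i)
  ker : ∀ i < fN E, bt (fF E i) 13 = 1 → Ker G X (ph i)

def Fact (G : SimpleGraph V) (X : Finset V) (E : ℕ) : Prop := ∀ ph, FE G X E ph → TG G X

/-- a sound rule: a nonzero result on an embedded state gives the goal -/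
def Snd (G : SimpleGraph V) (X : Finset V) (cl : Cl) : Prop :=
  ∀ n A B ph, Em G X n A ph → cl n A B ≠ 0 → TG G X

/-- vertices of `W` with a neighbour in `X` outside `W` -/
noncomputable def Outs (G : SimpleGraph V) (X W : Finset V) : Finset V :=
  W.filter (fun y => ∃ x ∈ X, x ∉ W ∧ G.Adj y x)

/-- one path of the program describes a part of `W`; `ro` holds `k` registers, `O` the ports to come -/
def Sat (G : SimpleGraph V) (X W : Finset V) : PT → (ℕ → V) → ℕ → Finset V → Prop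
  | .nil, _, _, _ => False
  | .cons c ch nx, ro, k, O => Sat G X W nx ro k O ∨ (cR c ≤ O.card ∧ cA c < k ∧
      ((cO c = 1 ∧ Stub G X (ro (cA c)) ∧ (∀ z ∈ X, G.Adj (ro (cA c)) z → z ∈ W) ∧ Sat G X W ch ro k O) ∨
       (cO c = 2 ∧ ro (cA c) ∈ O ∧ Sat G X W ch ro k (O.erase (ro (cA c)))) ∨
       (cO c = 3 ∧ cB c < k ∧ G.Adj (ro (cA c)) (ro (cB c)) ∧ Sat G X W ch ro k O) ∨
       (cO c = 4 ∧ ∃ z ∈ W, G.Adj (ro (cA c)) z ∧ (∀ r < k, ro r ≠ z) ∧
          ∀ ro', (∀ r < k, ro' r = ro r) → ro' k = z → Sat G X W ch ro' (k + 1) O) ∨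
       (cO c = 6 ∧ (∀ z, G.Adj (ro (cA c)) z → z ∈ W) ∧ Sat G X W ch ro k O) ∨
       cO c = 5))

/-- two vertices of `X` lie outside `W` -/
def Two (X W : Finset V) : Prop := ∃ s ∈ X, ∃ t ∈ X, s ∉ W ∧ t ∉ W ∧ s ≠ t

def ProgOK0 (G : SimpleGraph V) (X : Finset V) (P : Prog) : Prop :=
  ∀ W ⊆ X, TwoEC G W → ¬ Good G W → Two X W → (Outs G X W).card ≤ P.SM →
    TG G X ∨ (∃ m < 70, tb P.keep m = true ∧ HasM G W m) ∨
    ∀ y ∈ Outs G X W, ∃ O ⊆ (Outs G X W).erase y, P.r0 ≤ O.card ∧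
      ∀ ro : ℕ → V, ro 0 = y → Sat G X W P.t ro 1 O

/-- the first `n` images are kept -/
def Ext (n : ℕ) (ph : ℕ → V) (n' : ℕ) (ph' : ℕ → V) : Prop := n ≤ n' ∧ ∀ i < n, ph' i = ph i

/-- the remainder `R` touches the rest of `X` inside `H` only at vertices of the mask `Sa` -/
structure Hold (G : SimpleGraph V) (X R H : Finset V) (Sa n : ℕ) (ph : ℕ → V) : Prop where
  subH : H ⊆ R
  subR : R ⊆ X
  sa : ∀ j, tb Sa j = true → j < n ∧ ph j ∉ R
  hold : ∀ x ∈ H, ∀ z ∈ X, z ∉ R → G.Adj x z → ∃ j, tb Sa j = true ∧ z = ph j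

/-- weights of the ports of the witness block: at least one, two behind a leaf without stub, `df` at the
free edge -/
structure Wt (G : SimpleGraph V) (X R W H : Finset V) (a b : V) (df : ℕ) (O : Finset V) (wt : V → ℕ) :
    Prop where
  one : ∀ y ∈ O, 1 ≤ wt y
  leaf : ∀ y ∈ O, ∀ x ∈ H, x ∉ W → G.Adj y x → Ker G X x → 2 ≤ wt y
  free : a ∈ O → b ∈ R → b ∉ H → G.Adj a b → df ≤ wt a

/-- invariant of the witness machine; `O` holds the ports to come -/
structure WI (G : SimpleGraph V) (X R W H : Finset V) (a b : V) (Sa n A : ℕ) (ph : ℕ → V) (w : Wd)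
    (O : Finset V) (wt : V → ℕ) : Prop where
  em : Em G X n A ph
  hold : Hold G X R H Sa n ph
  wit : Wit G R W H a b
  outs : O ⊆ Outs G X W
  nw : ∀ j, tb w.NW j = true → j < n ∧ ph j ∉ W ∧ (tb Sa j = true ∨ ∀ y ∈ O, ¬ G.Adj y (ph j))
  sn : ∀ j, tb Sa j = true → tb w.NW j = true
  rg : ∀ j, tb w.Rg j = true → ∃ r < w.k, cv w.ro r = j
  reg : ∀ r < w.k, cv w.ro r < n ∧ ph (cv w.ro r) ∈ W
  ro : w.ro < 2 ^ (6 * w.k)
  wts : Wt G X R W H a b w.df O wt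
  sum : ∑ y ∈ O, wt y ≤ w.sl
  rv : ∀ j, tb w.rv j = true → j < n ∧ ph j ∈ W ∧ ph j ∉ O ∧
    ∃ z, z ∉ W ∧ G.Adj (ph j) z ∧ ∀ i, tb (row A j) i = true → ph i ≠ z

/-- soundness of a program continuation -/
def ExS (G : SimpleGraph V) (X R W H : Finset V) (a b : V) (Sa : ℕ) (t : PT) (ex : Ex) : Prop :=
  ∀ n A w B ph O wt, WI G X R W H a b Sa n A ph w O wt →
    Sat G X W t (fun r => ph (cv w.ro r)) w.k O → ex n A w B ≠ 0 → TG G X

/-- the entry closes -/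
def DS (G : SimpleGraph V) (X : Finset V) (t : PT) (e : Ent) : Prop :=
  ∀ R W H a b ph O wt, WI G X R W H a b e.Sa e.n e.A ph e.w O wt →
    Sat G X W (sub t e.pa) (fun r => ph (cv e.w.ro r)) e.w.k O → TG G X

def ProgOK (G : SimpleGraph V) (X : Finset V) (P : Prog) : Prop :=
  ProgOK0 G X P ∧ ∀ i < P.dc, DS G X P.t (P.dt i)

/-- `A'` knows the edges of `A` and new edges only between `x` and the mask `Sa` -/
def Grow (A A' x Sa : ℕ) : Prop :=
  (∀ i j, tb (row A i) j = true → tb (row A' i) j = true) ∧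
    ∀ i j, tb (row A' i) j = true → tb (row A i) j = true ∨ i = x ∨ tb Sa i = true

end Pool.Agent.Hom2.UC
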