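import Pool.Agent.Lib.MP_7e4769_co.Hc.TFF
import Pool.Agent.Lib.MP_7e4769_co.Hc.LongM
import Pool.Agent.Lib.MP_7e4769_co.Hc.Cyc
import Pool.Agent.Lib.MP_7e4769_co.Hc.UDef
import Pool.Agent.Lib.MP_7e4769_co.Hc.ScP
import Pool.Agent.Lib.MP_7e4769_co.Hc.Pr

set_option autoImplicit false

namespace Pool.Agent.Hom2

variable {V : Type} {G : SimpleGraph V} {X : Finset V}

/-- the standing assumptions of the last level -/
structure Lv3 (G : SimpleGraph V) (X : Finset V) : Prop where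
  cub : Cub G X
  two : TwoEC G X
  below : TBelow V X.card
  cl : Closed G X
  e3 : Sc.E3 G X
  c3 : Sc.C3 G X

/-- the entry `e` is the cycle of length `L` -/
def cycE (e L : ℕ) : Prop :=
  e % 64 = L ∧ ∀ i < L, ∀ t < 2, Sc.slot e i t = (i + 1) % L ∨ Sc.slot e i t = (i + (L - 1)) % L

instance (e L : ℕ) : Decidable (cycE e L) := by unfold cycE; infer_instance

theorem Cyc.embE {L e : ℕ} {z : ℕ → V} (hz : Cyc G X L z) (h : cycE e L) : Sc.EmbE G X e z := by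
  obtain ⟨h1, h2⟩ := h
  have h3 := hz.three
  have md : ∀ i, z (i % L) = z i := fun i => (hz.inj _ _).2 (Nat.mod_mod _ _)
  have ad : ∀ i < L, ∀ t < 2, Sc.slot e i t < L ∧ G.Adj (z i) (z (Sc.slot e i t)) := by
    intro i hi t ht
    rcases h2 i hi t ht with r | r <;> rw [r, md]
    · exact ⟨Nat.mod_lt _ (by omega), hz.adj i⟩
    · refine ⟨Nat.mod_lt _ (by omega), ?_⟩
      have := hz.adj (i + (L - 1))
      rw [(hz.inj (i + (L - 1) + 1) i).2 (by
        rw [show i + (L - 1) + 1 = i + L by omega, Nat.add_mod_right])] at this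
      exact this.symm
  rw [← h1] at ad
  refine ⟨fun i _ => hz.mem i, fun i hi j hj r => ?_, fun i hi t ht r => ?_, fun i hi t ht r => ?_,
    fun i hi t ht _ _ => (ad i hi t ht).2⟩
  · have := (hz.inj i j).1 r
    rwa [Nat.mod_eq_of_lt (by omega), Nat.mod_eq_of_lt (by omega)] at this
  · have := (ad i hi t ht).1; omega
  · exact absurd (r ▸ (ad i hi t ht).2) (G.irrefl)

theorem rSub_ks {Gl : Prop} (t : Sc.DT) (f : ℕ) {rc : Sc.Kc → Sc.Kc} {k : Sc.Kc} {n : ℕ} {ph : ℕ → V}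
    (hr : Sc.RecOK G X Gl rc) (hk : Sc.KS G X Gl k n ph) : Sc.KS G X Gl (St.rSub t f rc k) n ph := by
  intro n' A D1 D2 D3 Q ph' B e s h
  refine hr.1 k n ph hk n' A D1 D2 D3 Q ph' (Sc.dtop t (Nat.mod B 16384)) e s (fun r => h ?_)
  show Nat.mul _ (Nat.sub 1 (Nat.xor (rc k n' A D1 D2 D3 Q (Sc.dtop t (Nat.mod B 16384))) 1)) = 0
  rw [r]; rfl

variable [DecidableEq V]

/-- the context of the START facts -/
theorem Lv3.ctx (h : Lv3 G X) {db dn t : Sc.DT} {nt : ℕ} {T : Sc.Td}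
    (wit : ∀ C ρ, C ⊆ X → C ≠ X → C.card + 4 ≤ X.card → Conn G C → ¬ Good G C →
      TG G X ∨ Sc.Sat G X C db ρ T [] [] 0 0)
    (non : ∀ g < nt, Sc.HoldsN G X (TG G X) (Sc.dget dn g)) :
    Sc.Ctx ⟨db, dn, nt, T, 1, 1, 1, Sc.Dp.dp, St.rSub t⟩ G X (TG G X) :=
  ⟨h.cub, h.two, le_rfl, le_rfl, le_rfl, fun _ => h.cl, fun _ => h.e3, fun _ => h.c3,
    fun _ hR ne => h.below.hf h.cub h.two hR ne, Or.inl,
    fun C ρ a b c d e => wit C ρ a b (c rfl) d e, non, dp_ok h.cub h.two,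
    fun f _ _ _ _ _ hr hk => rSub_ks t f hr hk⟩

/-- the step from the facts with ports and cuts (`uc`) and the facts on short even cycles -/
theorem tstep_of
    (uc : ∀ (G : SimpleGraph V) (X : Finset V), UC.Cx G X 0 → Net1 G X →
      TG G X ∨ (Closed G X ∧ Sc.E3 G X ∧ Sc.C3 G X))
    (start : ∀ (G : SimpleGraph V) (X : Finset V), Lv3 G X → ∀ j, 2 ≤ j → j ≤ 10 →
      ∃ e, cycE e (2 * j) ∧ Sc.Holds G X (TG G X) e) : TStep V := by
  intro G X hc h2 ih net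
  rcases uc G X ⟨hc, h2, ih, fun _ hR ne => ih.hf hc h2 hR ne, fun r => by omega, fun r => by omega⟩ net
    with g | ⟨cl, e3, c3⟩
  · exact g
  obtain ⟨a, ha, -⟩ := h2.1
  obtain ⟨L, z, ev, hz, mn⟩ := exists_shortest_even hc cl ⟨a, ha⟩
  by_cases c : 22 ≤ L
  · exact Or.inl (long_cycle_T hc cl h2 hz ev c mn (fun W hW ne t => ih.ff
      (Finset.card_lt_card (Finset.ssubset_iff_subset_ne.2 ⟨hW, ne⟩)) (hc.mono hW) t) ih)
  · have := hz.three
    obtain ⟨e, e1, e2⟩ := start G X ⟨hc, h2, ih, cl, e3, c3⟩ (L / 2) (by omega) (by omega)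
    rw [show 2 * (L / 2) = L by omega] at e1
    exact e2 z (hz.embE e1)

end Pool.Agent.Hom2
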