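import Pool.Agent.Lib.MP_7e4769_co.Hc.LemW

set_option autoImplicit false

namespace Pool.Agent.Hom2

variable {V : Type} {G : SimpleGraph V} [DecidableEq V]

/-- a witness block behind every bridge -/
theorem lemW_sub {C : Finset V} (hc : Cub G C) (hF : HF G C) (hcon : Conn G C) (hb : ¬ Good G C) :
    ∀ H ⊆ C, (∃ s ∈ H, ∃ t ∈ H, s ≠ t) → ∀ a b, Only G C H a b →
      ∃ W ⊆ H, ∃ H a b, Wit G C W H a b := by
  classical
  intro H
  induction H using Finset.strongInduction with
  | H H ih =>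
  intro hH h2 a b ho
  obtain ⟨s, hs, t, ht, hst⟩ := id h2
  have badH : ¬ Good G H := fun g => hb (root_one hc hF subset_rfl hcon hH ⟨s, hs⟩ ho g (by simp))
  have cH : Conn G H := ho.conn hcon hH
  have nbH : ∀ y ∈ H, ∃ x ∈ H, G.Adj y x := by
    intro y hy
    have : ({y} : Finset V) ≠ H := by
      intro e; rw [← e, Finset.mem_singleton] at hs ht; exact hst (hs.trans ht.symm)
    obtain ⟨x, hx, z, hz, -, hxz⟩ := cH {y} (by simpa using hy) (by simp) this
    exact ⟨z, hz, (Finset.mem_singleton.1 hx) ▸ hxz⟩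
  set W := H.filter (fun y => ¬ ∃ x, Leaf G C y x) with hW
  have hWH : W ⊆ H := Finset.filter_subset _ _
  have leaf : ∀ y ∈ H, y ∉ W → ∃ x ∈ W, Leaf G C y x := by
    intro y hy hy'
    have : ∃ x, Leaf G C y x := by
      by_contra e; exact hy' (Finset.mem_filter.2 ⟨hy, e⟩)
    obtain ⟨x, hl⟩ := this
    obtain ⟨z, hz, hyz⟩ := nbH y hy
    have hxH : x ∈ H := hl.2.2.2 z (hH hz) hyz ▸ hz
    refine ⟨x, Finset.mem_filter.2 ⟨hxH, ?_⟩, hl⟩
    rintro ⟨u, hu⟩
    have huy : y = u := hu.2.2.2 y hl.1 hl.2.2.1.symm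
    subst huy
    have sub : ({y, x} : Finset V) ⊆ H := by
      intro r hr; rcases Finset.mem_insert.1 hr with rfl | hr
      · exact hy
      · exact Finset.mem_singleton.1 hr ▸ hxH
    by_cases e : ({y, x} : Finset V) = H
    · exact badH (e ▸ good_pair (hc.mono (sub.trans hH)) hl.2.2.1)
    · obtain ⟨p, hp, q, hq, hq', hpq⟩ := cH _ sub (by simp) e
      simp only [Finset.mem_insert, Finset.mem_singleton, not_or] at hp hq'
      rcases hp with rfl | rfl
      · exact hq'.2 (hl.2.2.2 q (hH hq) hpq)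
      · exact hq'.1 (hu.2.2.2 q (hH hq) hpq)
  have up : ∀ A, W ⊆ A → A ⊆ H → ¬ Good G A := by
    intro A h1 h3 g
    have := add_leaves hc (h3.trans hH) g H (fun y hy hy' => by
      obtain ⟨x, hx, hl⟩ := leaf y hy (fun e => hy' (h1 e))
      exact ⟨x, h1 hx, hl⟩)
    rw [Finset.union_eq_right.2 h3] at this
    exact badH this
  by_cases tw : TwoEC G W
  · exact ⟨W, hWH, H, a, b, hWH, hH, tw, up W subset_rfl hWH, badH, leaf, ho⟩
  have step : ∀ A a' b', A ⊆ W → A.Nonempty → A ≠ W → Only G W A a' b' → a ∉ A →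
      ∃ W ⊆ H, ∃ H a b, Wit G C W H a b := by
    intro A a' b' hA hne hne' ho' haA
    set B := H.filter (fun y => y ∈ A ∨ (y ∉ W ∧ ∃ x ∈ A, Leaf G C y x)) with hB
    have hBH : B ⊆ H := Finset.filter_subset _ _
    have hAB : A ⊆ B := fun y hy => Finset.mem_filter.2 ⟨hWH (hA hy), Or.inl hy⟩
    have oB : Only G C B a' b' := by
      intro x hx y hy hy' hxy
      rcases (Finset.mem_filter.1 hx).2 with e | ⟨-, u, hu, hl⟩
      · by_cases f : y ∈ H
        · by_cases f' : y ∈ W
          · exact ho' x e y f' (fun r => hy' (hAB r)) hxy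
          · obtain ⟨u, -, hl⟩ := leaf y f f'
            have : x = u := hl.2.2.2 x (hH (hBH hx)) hxy.symm
            exact absurd (Finset.mem_filter.2 ⟨f, Or.inr ⟨f', x, e, this ▸ hl⟩⟩) hy'
        · exact absurd ((ho x (hBH hx) y hy f hxy).1 ▸ e) haA
      · exact absurd (hAB (hl.2.2.2 y hy hxy ▸ hu)) hy'
    have ss : B ⊂ H := by
      refine Finset.ssubset_iff_subset_ne.2 ⟨hBH, fun e => hne' (Finset.Subset.antisymm hA ?_)⟩
      intro y hy
      have : y ∈ B := e ▸ hWH hy
      rcases (Finset.mem_filter.1 this).2 with r | r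
      · exact r
      · exact absurd hy r.1
    by_cases two : ∃ s ∈ B, ∃ t ∈ B, s ≠ t
    · obtain ⟨W', h1, h3⟩ := ih B ss (hBH.trans hH) two a' b' oB
      exact ⟨W', h1.trans hBH, h3⟩
    · exfalso
      push Not at two
      obtain ⟨r, hr⟩ := hne
      have hrH : r ∈ H := hWH (hA hr)
      have all : ∀ u ∈ C, G.Adj r u → u = b' := fun u hu hru =>
        (oB r (hAB hr) u hu (fun e => hru.ne (two r (hAB hr) u e)) hru).2
      obtain ⟨z, hz, hrz⟩ := nbH r hrH
      have := all z (hH hz) hrz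
      subst this
      exact (Finset.mem_filter.1 (hA hr)).2 ⟨z, hH hrH, hH hz, hrz, all⟩
  unfold TwoEC at tw
  rw [not_and_or] at tw
  rcases tw with tw | tw
  · exfalso
    push Not at tw
    have : ∃ y ∈ H, y ∉ W := by
      by_contra e
      push Not at e
      exact hst (tw s (e s hs) t (e t ht))
    obtain ⟨y, hy, hy'⟩ := this
    obtain ⟨x, hx, hl⟩ := leaf y hy hy'
    have sub : ({y, x} : Finset V) ⊆ H := by
      intro r hr; rcases Finset.mem_insert.1 hr with rfl | hr
      · exact hy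
      · exact Finset.mem_singleton.1 hr ▸ hWH hx
    refine up {y, x} (fun r hr => ?_) sub (good_pair (hc.mono (sub.trans hH)) hl.2.2.1)
    simp [tw r hr x hx]
  · push Not at tw
    obtain ⟨A, hA, hne, hne', a', b', ho'⟩ := tw
    by_cases e : a ∈ A
    · refine step (W \ A) b' a' Finset.sdiff_subset ?_ (Finset.sdiff_ssubset hA hne).ne
        (ho'.compl hA) (by simp [e])
      rw [Finset.sdiff_nonempty]; exact fun s => hne' (Finset.Subset.antisymm hA s)
    · exact step A a' b' hA hne hne' ho' e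

end Pool.Agent.Hom2
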