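import Pool.Agent.Lib.MP_7e4769_co.Hc.PkD
import Pool.Agent.Lib.MP_7e4769_co.Hc.PkW

set_option autoImplicit false

namespace Pool.Agent.Hom2.Pk

open Pool.Agent.Hom2.Sc Pool.Agent.Hom2.St

variable {V : Type} {G : SimpleGraph V} {X C W D : Finset V} {f g : V} {wt : V → ℕ}
  {a b x ha hb hx : V} {ka kb kx : ℕ}

theorem slot_eT : ∀ i < 6, ∀ t < 2,
    slot eT i t = ([[1, 2], [2, 2], [3, 3], [4, 5], [5, 5], [3, 3]].getD i []).getD t 0 := by decide +kernel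

theorem coreT {w p q : V} (hD : D ⊆ X) (ma : a ∈ X ∧ a ∉ D) (mb : b ∈ X ∧ b ∉ D) (mx : x ∈ X ∧ x ∉ D)
    (mw : w ∈ D) (mp : p ∈ D) (mq : q ∈ D) (ab : G.Adj a b) (ax : G.Adj a x) (bx : G.Adj b x)
    (xw : G.Adj x w) (wp : G.Adj w p) (wq : G.Adj w q) (pq : G.Adj p q) : Core G X eT := by
  have nw : ∀ {u v : V}, u ∉ D → v ∈ D → u ≠ v := fun p q e => p (e ▸ q)
  have nd : [a, b, x, w, p, q].Nodup := by
    simp [ab.ne, ax.ne, bx.ne, wp.ne, wq.ne, pq.ne, nw ma.2, nw mb.2, nw mx.2, mw, mp, mq]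
  have e6 : eT % 64 = 6 := by decide +kernel
  refine ⟨fun i => [a, b, x, w, p, q].getD i a, fun i hi => ?_, fun i hi j hj r => ?_, fun i hi t ht r => ?_,
    fun i hi t ht r => ?_, fun i hi t ht _ _ => ?_⟩ <;> rw [e6] at hi
  · interval_cases i <;> simp [ma.1, mb.1, mx.1, hD mw, hD mp, hD mq]
  · rw [e6] at hj
    rw [List.getD_eq_getElem _ _ (by simpa using hi), List.getD_eq_getElem _ _ (by simpa using hj)] at r
    exact nd.getElem_inj_iff.1 r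
  · rw [slot_eT i hi t ht, e6] at r
    interval_cases i <;> interval_cases t <;> simp at r
  · rw [slot_eT i hi t ht] at r
    interval_cases i <;> interval_cases t <;> simp at r
  · rw [slot_eT i hi t ht]
    interval_cases i <;> interval_cases t <;> simp [*, wq.symm]

theorem Lb.memC (l : Lb G X C W a ha ka) (ma : a ∈ C) : ha ∈ C := by
  rcases l with l | l
  · exact l.2.1 ▸ ma
  · exact l.2.2.1

theorem tri_nb (hc : Cub G X) (hC : C ⊆ X) (hW : W ⊆ C) (l : Lb G X C W a ha ka) (ma : a ∈ W) (mb : b ∈ W)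
    (mx : x ∈ W) (ab : G.Adj a b) (ax : G.Adj a x) (ne : b ≠ x) {u y : V} (hu : u = a ∨ u = ha) (hy : y ∈ C)
    (e : G.Adj u y) : y = a ∨ y = b ∨ y = x ∨ y = ha := by
  obtain ⟨z, hn⟩ := hc.second (hC (hW ma)) ab ax ne
  rcases l with ⟨-, rfl, l⟩ | ⟨-, l1, l2, l3, l4, -⟩
  · obtain ⟨s, -, s1, s2⟩ := out_ex l
    obtain rfl : u = ha := hu.elim id id
    rcases hn.cases s2 with r | r | r
    · exact absurd (r ▸ hW mb) s1
    · exact absurd (r ▸ hW mx) s1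
    · rcases hn.cases e with t | t | t
      · exact Or.inr (Or.inl t)
      · exact Or.inr (Or.inr (Or.inl t))
      · exact absurd (r ▸ t ▸ hy) s1
  · rcases hu with rfl | rfl
    · rcases hn.cases l3 with r | r | r
      · exact absurd (r ▸ mb) l1
      · exact absurd (r ▸ mx) l1
      · exact Or.inr (r ▸ hn.cases e)
    · exact Or.inl (two_out hc hC l2 l4 (hW ma) hy l3.symm e)

theorem Tri3.all (T : Tri3 G X C W D f g wt a b x ha hb ka kb) (hc : Cub G X) (hC : C ⊆ X) (hcon : Conn G C)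
    (lx : Lb G X C W x hx kx) : ∀ v ∈ C, (v = a ∨ v = ha) ∨ (v = b ∨ v = hb) ∨ v = x ∨ v = hx := by
  classical
  have hW := T.blk.sub
  intro v hv
  by_contra r
  obtain ⟨u, hu, y, hy, hy', e⟩ := hcon (C.filter fun v => (v = a ∨ v = ha) ∨ (v = b ∨ v = hb) ∨ v = x ∨ v = hx)
    (Finset.filter_subset _ _) ⟨a, by simp [hW T.ma]⟩ (fun e => by
      rw [← e] at hv; exact r (Finset.mem_filter.1 hv).2)
  rw [Finset.mem_filter] at hu hy'
  refine hy' ⟨hy, ?_⟩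
  rcases hu.2 with t | t | t
  · rcases tri_nb hc hC hW T.la.1 T.ma T.mb T.mx T.ab T.ax T.bx.ne t hy e with r | r | r | r <;> simp [r]
  · rcases tri_nb hc hC hW T.lb.1 T.mb T.ma T.mx T.ab.symm T.bx T.ax.ne t hy e with r | r | r | r <;> simp [r]
  · rcases tri_nb hc hC hW lx T.mx T.ma T.mb T.ax.symm T.bx.symm T.ab.ne t hy e with r | r | r | r <;> simp [r]

theorem Lb.up {p h : V} {k : ℕ} (l : Lb G X D W p h k) (ho : Only G C D g f) (hD : D ⊆ C) (mp : p ∈ D)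
    (ne : g ≠ h) : Lb G X C W p h k := by
  have := out_only (X := X) ho (l.memC mp)
  rw [if_neg ne] at this
  rcases l with ⟨l1, rfl, l2⟩ | ⟨l1, l2, l3, l4, l5, l6⟩
  · exact Or.inl ⟨l1, rfl, by omega⟩
  · exact Or.inr ⟨l1, l2, hD l3, l4, by omega, fun y hy e => hD (l6 y hy e)⟩

theorem Lb.one (l : Lb G X C W a ha ka) (h : ka ≤ 1) : 1 ≤ out G X C a := by
  rcases l with l | l
  · exact l.2.2
  · omega

theorem mem_marks {w : V} (L : List V) (nd : L.Nodup) (h : ∀ v ∈ L, v ∈ C ∧ 1 ≤ out G X C v) (mw : w ∈ C)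
    (ow : 1 ≤ out G X C w) (e : ecut G X C ≤ L.length) : w ∈ L := by
  classical
  by_contra r
  have a := sum_le_ecut (G := G) (X := X) (C := C) (P := (w :: L).toFinset) (fun v hv => by
    rcases List.mem_cons.1 (List.mem_toFinset.1 hv) with rfl | t
    exacts [mw, (h v t).1])
  have b := Finset.card_nsmul_le_sum (w :: L).toFinset (out G X C) 1 (fun v hv => by
    rcases List.mem_cons.1 (List.mem_toFinset.1 hv) with rfl | t
    exacts [ow, (h v t).2])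
  rw [List.toFinset_card_of_nodup (List.nodup_cons.2 ⟨r, nd⟩)] at b
  simp at b a; omega

/-- `w` lies on a triangle, it is a leaf at a triangle, it lies on a pentagon or it joins two triangles -/
def Low (G : SimpleGraph V) (X D : Finset V) (w : V) : Prop :=
  (∃ p ∈ D, ∃ q ∈ D, G.Adj w p ∧ G.Adj w q ∧ G.Adj p q) ∨
  (∃ W z p q hp hq kp kq, W ⊆ D ∧ z ∈ W ∧ p ∈ W ∧ q ∈ W ∧ w ∉ W ∧ G.Adj w z ∧ G.Adj z p ∧ G.Adj z q ∧
    G.Adj p q ∧ 2 ≤ out G X D w ∧ Lb G X D W p hp kp ∧ Lb G X D W q hq kq ∧ w ≠ hp ∧ w ≠ hq ∧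
    2 + kp + kq ≤ ecut G X D) ∨
  5 ≤ ecut G X D ∧ ∃ z1 ∈ D, ∃ z2 ∈ D, ∃ p1 ∈ D, ∃ p2 ∈ D, G.Adj w z1 ∧ G.Adj w z2 ∧ G.Adj z1 p1 ∧
    G.Adj z2 p2 ∧ 1 ≤ out G X D p1 ∧ 1 ≤ out G X D p2 ∧ [p2, p1, z2, z1, w].Nodup ∧
    ((G.Adj p2 p1 ∧ 1 ≤ out G X D z1 ∧ 1 ≤ out G X D z2) ∨ ∃ q1 ∈ D, ∃ q2 ∈ D,
      [q2, p2, q1, p1, z2, z1, w].Nodup ∧ G.Adj z1 q1 ∧ G.Adj z2 q2 ∧ G.Adj q1 p1 ∧ G.Adj q2 p2 ∧
      1 ≤ out G X D q1 ∧ 1 ≤ out G X D q2)

theorem low_of (hc : Cub G X) (hC : C ⊆ X) (hW : W ⊆ C) (ma : a ∈ W) (mb : b ∈ W) (mx : x ∈ W)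
    (ab : G.Adj a b) (ax : G.Adj a x) (bx : G.Adj b x) (la : Lb G X C W a ha ka) (lb : Lb G X C W b hb kb)
    (lx : Lb G X C W x hx kx) (h1 : ka + kb + kx ≤ ecut G X C) {w : V} (hw : w = a ∨ w = ha) :
    Low G X C w := by
  have t : Low G X C a := Or.inl ⟨b, hW mb, x, hW mx, ab, ax, bx⟩
  rcases hw with rfl | rfl
  · exact t
  rcases id la with l | l
  · exact l.2.1 ▸ t
  exact Or.inr (Or.inl ⟨W, a, b, x, hb, hx, kb, kx, hW, ma, mb, mx, l.2.1, l.2.2.2.1.symm, ab, ax, bx,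
    l.2.2.2.2.1, lb, lx, la.ne hc hC hW lb ma mb ab.ne, la.ne hc hC hW lx ma mx ax.ne, by omega⟩)

theorem low_c5 {v0 v1 v2 v3 v4 : V} (h : ∀ v ∈ [v0, v1, v2, v3, v4], v ∈ C ∧ 1 ≤ out G X C v)
    (nd : [v0, v1, v2, v3, v4].Nodup) (e : 5 ≤ ecut G X C) (e0 : G.Adj v0 v1) (e1 : G.Adj v1 v2)
    (e2 : G.Adj v2 v3) (e3 : G.Adj v3 v4) (e4 : G.Adj v4 v0) : Low G X C v0 := by
  simp only [List.mem_cons, List.not_mem_nil, or_false, forall_eq_or_imp, forall_eq] at h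
  obtain ⟨-, h1, h2, h3, h4⟩ := h
  refine Or.inr (Or.inr ⟨e, v1, h1.1, v4, h4.1, v2, h2.1, v3, h3.1, e0, e4.symm, e1, e3.symm, h2.2, h3.2, ?_,
    Or.inl ⟨e2.symm, h1.2, h4.2⟩⟩)
  simp only [List.nodup_cons, List.mem_cons, List.not_mem_nil, or_false, not_or] at nd
  simp [e0.ne', e1.ne', e2.ne', e3.ne, e4.ne, Ne.symm nd.1.2.1, Ne.symm nd.1.2.2.1, Ne.symm nd.2.1.2.1,
    Ne.symm nd.2.1.2.2, nd.2.2.1.2]

theorem Quad.low {a' b' w : V} (Q : Quad G X C W D a' a b b' ha hb ka kb) (hW : W ⊆ C) (h : ecut G X C ≤ 5)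
    (mw : w ∈ C) (ow : 1 ≤ out G X C w) : Low G X C w := by
  have := Q.la.1.pos; have := Q.lb.1.pos
  rcases Q.fin with r | ⟨ha', hb', ka', kb', ⟨la', -⟩, ⟨lb', -⟩, r⟩
  · omega
  have := la'.pos; have := lb'.pos
  rcases r with r | ⟨_, -, _, -, -, -, -, -, -, r⟩ | ⟨c, mc, c0, c1, c2, ⟨hh, k, l, r⟩ | r⟩
  · omega
  · omega
  swap; · omega
  have := l.pos
  have nd : [c, a', a, b, b'].Nodup := List.nodup_cons.2 ⟨c0, Q.nd⟩
  have m : ∀ v ∈ [c, a', a, b, b'], v ∈ C ∧ 1 ≤ out G X C v := by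
    simp [hW mc, hW Q.ma', hW Q.ma, hW Q.mb, hW Q.mb', l.one (by omega), la'.one (by omega),
      lb'.one (by omega), Q.la.1.one (by omega), Q.lb.1.one (by omega)]
  have rot := fun i => And.intro (fun v hv => m v ((List.mem_rotate (n := i)).1 hv))
    ((List.nodup_rotate (n := i)).2 nd)
  have t := mem_marks _ nd m mw ow h
  simp only [List.mem_cons, List.not_mem_nil, or_false] at t
  have e : 5 ≤ ecut G X C := by omega
  rcases t with rfl | rfl | rfl | rfl | rfl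
  · exact low_c5 m nd e c1.symm Q.e1.symm Q.ab Q.e2 c2
  · exact low_c5 (rot 1).1 (rot 1).2 e Q.e1.symm Q.ab Q.e2 c2 c1.symm
  · exact low_c5 (rot 2).1 (rot 2).2 e Q.ab Q.e2 c2 c1.symm Q.e1.symm
  · exact low_c5 (rot 3).1 (rot 3).2 e Q.e2 c2 c1.symm Q.e1.symm Q.ab
  · exact low_c5 (rot 4).1 (rot 4).2 e c2 c1.symm Q.e1.symm Q.ab Q.e2

theorem Tri3.sum (T : Tri3 G X C W D f g wt a b x ha hb ka kb) : ka + kb + wt x ≤ ecut G X C := by
  have := T.blk.sum [a, b, x] (by simp [T.ab.ne, T.ax.ne, T.bx.ne])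
  have := T.la.2.1; have := T.lb.2.1
  simp at *; omega

theorem Tri3.core (T : Tri3 G X C W D f g wt a b x ha hb ka kb) (hC : C ⊆ X) (F : Fr G X C W D x g wt)
    {p q : V} (mp : p ∈ D) (mq : q ∈ D) (e1 : G.Adj g p) (e2 : G.Adj g q) (e3 : G.Adj p q) : Core G X eT :=
  coreT (F.sub.trans hC) ⟨hC (T.blk.sub T.ma), fun r => F.dis _ r T.ma⟩
    ⟨hC (T.blk.sub T.mb), fun r => F.dis _ r T.mb⟩ ⟨hC (T.blk.sub T.mx), fun r => F.dis _ r T.mx⟩
    F.mg mp mq T.ab T.ax T.bx F.adj e1 e2 e3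

theorem Fr.bad (cx : Cx G X) (hC : C ⊆ X) (hn : C.card + 4 ≤ X.card) (hcon : Conn G C) (bad : ¬ Good G C)
    (F : Fr G X C W D f g wt) (mf : f ∈ C) : ¬ Good G D ∧ 1 ≤ out G X D g := by
  classical
  refine ⟨fun r => bad (root_one (cx.cub.mono hC) (cx.tb.hf cx.cub cx.two hC
    (fun r => by rw [r] at hn; omega)) subset_rfl hcon F.sub ⟨g, F.mg⟩ F.only r (by simp)), ?_⟩
  simpa using le_out (G := G) (X := X) (C := D) (Z := {f}) (x := g) (by
    simpa using ⟨hC mf, fun r => F.dis f r F.mf, F.adj.symm⟩)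

theorem level (cx : Cx G X) (C : Finset V) : C ⊆ X → C.card + 4 ≤ X.card → Conn G C → ¬ Good G C →
    ecut G X C ≤ 5 → ∀ w ∈ C, ∀ u ∈ C, G.Adj w u → 1 ≤ out G X C w →
    (Core G X eT ∨ Core G X eD ∨ Core G X eK) ∨ Low G X C w := by
  classical
  induction C using Finset.strongInduction with
  | H C ih =>
  intro hC hn hcon hb h w mw u mu e ow
  rcases shape cx hC hn hb with ⟨v, hv, o⟩ | ⟨W, D, f, g, wt, hW, (r | r) | ⟨_, _, _, _, _, _, _, _, Q⟩ |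
    ⟨a, b, x, ha, hb', ka, kb, T⟩⟩
  · obtain ⟨v', hv', y, hy, -, a⟩ := hcon {v} (by simpa using hv) (by simp) (fun r => by
      rw [← r] at mw mu; simp at mw mu; exact e.ne (mw.trans mu.symm))
    rw [Finset.mem_singleton.1 hv'] at a
    obtain ⟨p, q, hn⟩ := cx.cub.first (hC hv) a
    have := out_le (G := G) (X := X) (C := C) (Z := {p, q}) (x := v) (fun t _ ht e => by
      rcases hn.cases e with r | r | r
      · exact absurd (r ▸ hy) ht
      · simp [r]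
      · simp [r])
    have := Finset.card_le_two (a := p) (b := q)
    omega
  · exact Or.inl r.2
  · omega
  · exact Or.inr (Q.low hW h mw ow)
  have s := T.sum
  have hc := cx.cub
  obtain ⟨y, y1, y2⟩ := T.px
  rcases T.blk.port x T.mx y y1 y2 with ⟨hx, kx, lx, k, -⟩ | ⟨rfl, F⟩
  · refine Or.inr ?_
    rcases T.all cx.cub hC hcon lx w mw with r | r | r
    · exact low_of hc hC hW T.ma T.mb T.mx T.ab T.ax T.bx T.la.1 T.lb.1 lx (by omega) r
    · exact low_of hc hC hW T.mb T.ma T.mx T.ab.symm T.bx T.ax T.lb.1 T.la.1 lx (by omega) r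
    · exact low_of hc hC hW T.mx T.ma T.mb T.ax.symm T.bx.symm T.ab lx T.la.1 T.lb.1 (by omega) r
  obtain ⟨u, u1, u2⟩ := F.two
  have := T.la.1.pos; have := T.lb.1.pos; have := F.cut; have := Finset.card_le_card F.sub
  obtain ⟨bd, og⟩ := F.bad cx hC hn hcon hb (hW T.mx)
  have nw : ∀ {u v : V}, u ∈ D → v ∈ W → u ≠ v := fun p q e => F.dis _ p (e ▸ q)
  rcases ih D (Finset.ssubset_iff_subset_ne.2 ⟨F.sub, fun r => F.dis x (r ▸ hW T.mx) T.mx⟩) (F.sub.trans hC)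
    (by omega) (F.only.conn hcon F.sub) bd (by omega) g F.mg u u1 u2 og with r | ⟨p, mp, q, mq, e1, e2, e3⟩ |
    ⟨W', z, p, q, hp, hq, kp, kq, h', mz, mp, mq, n0, e1, e2, e3, e4, o1, lp, lq, n1, n2, o4⟩ | r
  · exact Or.inl r
  · exact Or.inl (Or.inl (T.core hC F mp mq e1 e2 e3))
  swap; · omega
  have := lp.pos; have := lq.pos
  have p1 := out_only (X := X) F.only F.mg
  rw [if_pos rfl] at p1
  have oa := T.la.1.one (by omega)
  have ob := T.lb.1.one (by omega)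
  have op := (lp.up F.only F.sub (h' mp) n1).one (by omega)
  have oq := (lq.up F.only F.sub (h' mq) n2).one (by omega)
  have ng : ∀ {v : V}, v ∈ W' → v ≠ g := fun p e => n0 (e ▸ p)
  have nd : [q, p, b, a, z, x, g].Nodup := by
    simp [e4.ne', e3.ne', e2.ne', T.ab.ne', T.ax.ne, T.bx.ne, ng mq, ng mp, ng mz, nw (h' mq), nw (h' mp),
      nw (h' mz), T.ma, T.mb, T.mx, (nw (h' mz) T.ma).symm, (nw (h' mz) T.mb).symm, (nw F.mg T.ma).symm,
      (nw F.mg T.mb).symm, (nw F.mg T.mx).symm]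
  have t := mem_marks [q, p, b, a, g] (nd.sublist (by simp)) (by
    simp [*, F.sub (h' mq), F.sub (h' mp), hW T.ma, hW T.mb, F.sub F.mg]; omega) mw ow h
  simp only [List.mem_cons, List.not_mem_nil, or_false] at t
  refine Or.inr ?_
  rcases t with rfl | rfl | rfl | rfl | rfl
  · exact Or.inl ⟨z, F.sub (h' mz), p, F.sub (h' mp), e3.symm, e4.symm, e2⟩
  · exact Or.inl ⟨z, F.sub (h' mz), q, F.sub (h' mq), e2.symm, e4, e3⟩
  · exact Or.inl ⟨a, hW T.ma, x, hW T.mx, T.ab.symm, T.bx, T.ax⟩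
  · exact Or.inl ⟨b, hW T.mb, x, hW T.mx, T.ab, T.ax, T.bx⟩
  · exact Or.inr (Or.inr ⟨by omega, x, hW T.mx, z, F.sub (h' mz), a, hW T.ma, p, F.sub (h' mp), F.adj.symm, e1,
      T.ax.symm, e2, oa, op, nd.sublist (by simp), Or.inr ⟨b, hW T.mb, q, F.sub (h' mq), nd, T.bx.symm, e3,
      T.ab.symm, e4.symm, ob, oq⟩⟩)

variable {db : DT} {ρ : V → ℕ}

theorem Tri3.root (T : Tri3 G X C W D f g wt a b x ha hb ka kb) (hc : Cub G X) (hC : C ⊆ X)
    (h : ∀ env U, (∀ v ∈ U, v ∈ [x, a, b, ha, hb]) → Sat G X C db ρ third (x :: env) U 0 (ka + kb + 1)) :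
    Sat G X C db ρ root [] [] 0 3 :=
  root_mid hc hC T.blk.sub T.ma T.mb T.ab T.la.1 T.lb.1 (mid_tri T.blk.sub T.mx T.ax T.bx T.la.1 T.lb.1 h)
    (mid_tri T.blk.sub T.mx T.bx T.ax T.lb.1 T.la.1 (fun env U r => add_comm ka kb ▸ h env U (fun v hv => by
      have := r v hv
      simp only [List.mem_cons] at this ⊢
      rcases this with t | t | t | t | t | t <;> simp [t])))

theorem Sh.sec (S : Sh G X C W D f g wt) (hc : Cub G X) (hC : C ⊆ X) (hW : W ⊆ C) :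
    Cores G X C ∨ ∀ env U t n, Fresh G X C W U → n ≤ ecut G X C → Sat G X C db ρ sec env U t n := by
  rcases S with r | ⟨_, _, _, _, _, _, _, _, Q⟩ | ⟨a, b, x, ha, hb, ka, kb, T⟩
  · exact Or.inl r
  · exact Or.inr fun env U t n fr h => sec_mid hc hC hW fr Q.ma Q.mb Q.ab Q.la.1 Q.lb.1
      ((Q.mid hc hC hW).2 U n fr h) ((Q.symm.mid hc hC hW).2 U n fr h)
  · exact Or.inr fun env U t n fr h => sec_mid hc hC hW fr T.ma T.mb T.ab T.la.1 T.lb.1
      (mid2_tri hW fr T.mx T.ax T.bx T.la.1 T.lb.1 h) (mid2_tri hW fr T.mx T.bx T.ax T.lb.1 T.la.1 h)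

theorem Tri3.fin (T : Tri3 G X C W D f g wt a b x ha hb ka kb) (cx : Cx G X) (hC : C ⊆ X)
    (hn : C.card + 4 ≤ X.card) (hcon : Conn G C) (bad : ¬ Good G C) :
    Sat G X C db ρ St.root [] [] 0 3 ∨ Cores G X C := by
  classical
  have s := T.sum
  have hW := T.blk.sub
  have hc := cx.cub
  obtain ⟨y, y1, y2⟩ := T.px
  rcases T.blk.port x T.mx y y1 y2 with ⟨hx, kx, lx, k, -⟩ | ⟨rfl, F⟩
  · refine Or.inl (T.root hc hC (fun env U r => Or.imp_right Or.inl (sat_lab (r := 0) (T := .done) rfl lx (al0 _)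
      (fun t hv => ?_) (show _ ≤ _ by have := lx.pos; omega))))
    have := r _ hv
    simp only [List.mem_cons, List.not_mem_nil, or_false] at this
    rcases this with e | e | e | e | e
    · exact t (e ▸ T.mx)
    · exact t (e ▸ T.ma)
    · exact t (e ▸ T.mb)
    · exact lx.ne hc hC hW T.la.1 T.mx T.ma T.ax.ne' e
    · exact lx.ne hc hC hW T.lb.1 T.mx T.mb T.bx.ne' e
  have c := F.cut
  have go : (∀ env U, (∀ v ∈ D, v ∉ U) → Sat G X C db ρ free (x :: env) U 0 (ka + kb + 1 + 2)) →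
      Sat G X C db ρ St.root [] [] 0 3 ∨ Cores G X C := fun h =>
    Or.inl (T.root hc hC fun env U r => Or.inr (Or.inr ⟨x, rfl, Nat.zero_le 1, F.inn,
      fun r => absurd r (by omega), h env U fun v hv t => by
        have := r v t
        simp only [List.mem_cons, List.not_mem_nil, or_false] at this
        rcases this with e | e | e | e | e
        exacts [F.dis v hv (e ▸ T.mx), F.dis v hv (e ▸ T.ma), F.dis v hv (e ▸ T.mb), T.la.2.2 (e ▸ hv),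
          T.lb.2.2 (e ▸ hv)]⟩))
  obtain ⟨u, u1, u2⟩ := F.two
  by_cases e : 6 ≤ ecut G X D
  · obtain ⟨W', h', H, f', g', w⟩ := lemW_sub (hc.mono hC) (cx.tb.hf hc cx.two hC
      (fun r => by rw [r] at hn; omega)) hcon bad D F.sub ⟨g, F.mg, u, u1, u2.ne⟩ g x F.only
    obtain ⟨D', wt', B⟩ := blk_of_wit hc cx.cl hC w
    refine ((shape_blk cx hC hn B).sec (db := db) (ρ := ρ) hc hC B.sub).elim Or.inr fun r =>
      go fun env U fr => Or.inl (r [] U 0 _ (fun v hv => ⟨fr v (h' hv), fun h k l => fr h ?_⟩) (by omega))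
    rcases l with l | l
    · exact l.2.1 ▸ h' hv
    · by_contra t
      obtain ⟨s, s1, s2, s3⟩ := out_ex (show 1 ≤ out G X C h by omega)
      exact s2 (F.inn s s1 ((F.only v (h' hv) h l.2.2.1 t l.2.2.2.1).2 ▸ s3))
  have gW := F.dis g F.mg
  have c4 : 4 ≤ C.card := by
    have nw : ∀ v ∈ W, g ≠ v := fun v hv r => gW (r ▸ hv)
    have := Finset.card_le_card (show ({g, a, b, x} : Finset V) ⊆ C by
      simp [Finset.insert_subset_iff, F.sub F.mg, hW T.ma, hW T.mb, hW T.mx])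
    rwa [Finset.card_insert_of_notMem (by simp [nw _ T.ma, nw _ T.mb, nw _ T.mx]),
      Finset.card_eq_three.2 ⟨a, b, x, T.ab.ne, T.ax.ne, T.bx.ne, rfl⟩] at this
  have := Finset.card_le_card F.sub
  obtain ⟨bd, og⟩ := F.bad cx hC hn hcon bad (hW T.mx)
  have nc := @List.not_mem_cons_of_ne_of_not_mem V
  rcases level cx D (F.sub.trans hC) (by omega) (F.only.conn hcon F.sub) bd (by omega) g F.mg u u1 u2 og with
    r | ⟨p, mp, q, mq, e1, e2, e3⟩ |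
    ⟨W', z, p, q, hp, hq, kp, kq, h', mz, mp, mq, n0, e1, e2, e3, e4, o1, lp, lq, n1, n2, o4⟩ |
    ⟨o, z1, m1, z2, m2, p1, m3, p2, m4, e1, e2, e3, e4, o1, o2, nd, r⟩
  · exact Or.inr (Or.inl ⟨c4, r⟩)
  · exact Or.inr (Or.inl ⟨c4, Or.inl (T.core hC F mp mq e1 e2 e3)⟩)
  · have p1 := out_only (X := X) F.only F.mg
    rw [if_pos rfl] at p1
    have ng : ∀ {v : V}, v ∈ W' → v ≠ g := fun p e => n0 (e ▸ p)
    have nw : ∀ {u v : V}, u ∉ W' → v ∈ W' → u ≠ v := fun p q e => p (e ▸ q)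
    have := lp.pos; have := lq.pos
    have := lp.ne hc (F.sub.trans hC) h' lq mp mq e4.ne
    exact go fun env U fr => Or.inr ⟨x, g, rfl, F.adj, F.sub F.mg, fr g F.mg, al0 _, Or.inl ⟨g, rfl, by omega,
      g, z, rfl, e1, F.sub (h' mz), by simp [fr z (h' mz), e1.ne'], al0 _,
      z, p, rfl, e2, F.sub (h' mp), by simp [fr p (h' mp), e2.ne', ng mp], al0 _,
      z, q, rfl, e3, F.sub (h' mq), by simp [fr q (h' mq), e3.ne', e4.ne', ng mq], al0 _,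
      q, p, rfl, rfl, e4.symm, sat_lab (r := 0) rfl (lq.up F.only F.sub (h' mq) n2) (al0 _)
        (fun r => by simp [nw r mq, nw r mp, nw r mz, n2.symm, fr hq (lq.memC (h' mq))])
        (sat_lab (r := 1) (T := .done) rfl (lp.up F.only F.sub (h' mp) n1) (al0 _)
          (fun r => by simp [this, nw r mq, nw r mp, nw r mz, n1.symm, fr hp (lp.memC (h' mp))])
          (show _ ≤ _ by omega))⟩⟩
  have up : ∀ {v : V}, v ∈ D → v ≠ g → 1 ≤ out G X D v → 1 ≤ out G X C v := fun m ne o => by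
    have := out_only (X := X) F.only m
    rw [if_neg ne.symm] at this
    omega
  simp only [List.nodup_cons, List.mem_cons, List.not_mem_nil, or_false, not_or] at nd r
  obtain ⟨⟨a1, a2, a3, a4⟩, ⟨a5, a6, a7⟩, ⟨a8, a9⟩, a10, -⟩ := nd
  obtain ⟨t, hN⟩ := hc.second (hC (F.sub F.mg)) e1 e2 (Ne.symm a8)
  have inn : ∀ y ∈ X, G.Adj g y → y ∈ C := fun y _ a => by
    have xD : x ∉ D := fun r => F.dis x r T.mx
    rcases hN.cases F.adj.symm with r | r | r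
    · exact absurd (r ▸ m1) xD
    · exact absurd (r ▸ m2) xD
    · rcases hN.cases a with k | k | k
      exacts [k ▸ F.sub m1, k ▸ F.sub m2, k ▸ r ▸ hW T.mx]
  refine go fun env U fr => Or.inr ⟨x, g, rfl, F.adj, F.sub F.mg, fr g F.mg, al0 _, Or.inr ⟨g, rfl,
    Nat.zero_le 1, inn, fun r => absurd r (by omega), g, z1, rfl, e1, F.sub m1, by simp [*, fr z1 m1], al0 _,
    g, z2, rfl, e2, F.sub m2, by simp [*, fr z2 m2], al0 _, ?_⟩⟩
  rcases r with ⟨e5, o3, o4⟩ | ⟨q1, m5, q2, m6, ⟨⟨b1, b2, b3, b4, b5, b6⟩, ⟨b7, -⟩, ⟨b8, b9, b10, b11⟩, -⟩,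
    e5, e6, e7, e8, o3, o4⟩
  · exact Or.inr ⟨z1, p1, rfl, e3, F.sub m3, by simp [*, fr p1 m3], al0 _, z2, p2, rfl, e4, F.sub m4,
      by simp [*, fr p2 m4], al0 _, p2, p1, rfl, rfl, e5, p2, rfl, up m4 a4 o2, p1, rfl, up m3 a7 o1,
      z2, rfl, up m2 a9 o4, z1, rfl, up m1 a10 o3, show _ ≤ _ by omega⟩
  · exact Or.inl ⟨z1, p1, rfl, e3, F.sub m3, by simp [*, fr p1 m3], al0 _, z1, q1, rfl, e5, F.sub m5,
      by simp [*, fr q1 m5], al0 _, q1, p1, rfl, rfl, e7, z2, p2, rfl, e4, F.sub m4, by simp [*, fr p2 m4],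
      al0 _, z2, q2, rfl, e6, F.sub m6, by simp [*, fr q2 m6], al0 _, q2, p2, rfl, rfl, e8,
      q2, rfl, up m6 b6 o4, p2, rfl, up m4 a4 o2, q1, rfl, up m5 b11 o3, p1, rfl, up m3 a7 o1,
      show _ ≤ _ by omega⟩

/-- the witness program of the closed case describes every bad component -/
theorem prog_ok (cx : Cx G X) {g0 g1 g2 g5 g3 : ℕ} (e0 : dget db g0 = eT) (e1 : dget db g1 = eD)
    (e2 : dget db g2 = eK) (e3 : dget db g3 = eO) (C : Finset V) (ρ : V → ℕ) (hC : C ⊆ X)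
    (hn : C.card + 4 ≤ X.card) (hcon : Conn G C) (bad : ¬ Good G C) :
    Sat G X C db ρ (prog g0 g1 g2 g5 g3) [] [] 0 0 := by
  classical
  have co : Cores G X C → Sat G X C db ρ (prog g0 g1 g2 g5 g3) [] [] 0 0 := by
    rintro (⟨p, q⟩ | r)
    · have := cx.c3 C hC p hn
      rcases q with q | q | q
      · exact Or.inr (Or.inl ⟨this, e0 ▸ q⟩)
      · exact Or.inr (Or.inr (Or.inl ⟨this, e1 ▸ q⟩))
      · exact Or.inr (Or.inr (Or.inr (Or.inl ⟨this, e2 ▸ q⟩)))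
    · exact Or.inr (Or.inr (Or.inr (Or.inr (Or.inr ⟨r.1, e3 ▸ r.2⟩))))
  rcases shape cx hC hn bad with ⟨v, hv, o⟩ | ⟨W, D, f, g, wt, hW, r | ⟨_, _, _, _, _, _, _, _, Q⟩ |
    ⟨a, b, x, ha, hb, ka, kb, T⟩⟩
  · obtain ⟨s0, p1, p2, p3⟩ := out_ex (show 1 ≤ out G X C v by omega)
    obtain ⟨s, hs, mn⟩ := Finset.exists_min_image (X.filter fun s => s ∉ C ∧ G.Adj v s) ρ ⟨s0, by simp [*]⟩
    simp only [Finset.mem_filter] at hs mn
    exact Or.inl ⟨s, v, hs.1, hs.2.1, hv, hs.2.2.symm, by simp, fun t h1 h2 h3 => mn t ⟨h1, h2, h3⟩,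
      Or.inl ⟨v, rfl, o, o.trans (Finset.single_le_sum (f := out G X C) (fun _ _ => Nat.zero_le _) hv)⟩⟩
  · exact co r
  · exact Or.inl (root_mid cx.cub hC hW Q.ma Q.mb Q.ab Q.la.1 Q.lb.1 (Q.mid cx.cub hC hW).1
      (Q.symm.mid cx.cub hC hW).1)
  · exact (T.fin cx hC hn hcon bad).elim Or.inl co

end Pool.Agent.Hom2.Pk
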