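import Pool.Agent.Lib.MP_7e4769_co.Hc.Rp2

set_option autoImplicit false
set_option linter.unusedSectionVars false

namespace Pool.Agent.Hom2

variable {V : Type} [DecidableEq V] {G : SimpleGraph V} {X M : Finset V} {g : ℕ} {ph : ℕ → V}

theorem mem_shape : ∀ m < 70, (m < 7 ∧ Cub3 (mN m) (mR m)) ∨
    ∃ i < mN m, hasStub (mR m) i = true := by
  decide +kernel

/-- an embedded cubic pattern: neighbourhoods, and it fills a connected set -/
theorem SE.onto3 {n R : ℕ} {q : ℕ → V} (h : SE G X n (sl R) q) (hp : Cub3 n R) (hc : Cub G X)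
    (hn : Conn G X) : (∀ v < n, Nb G (q v) (q (nbr R v 0)) (q (nbr R v 1)) (q (nbr R v 2))) ∧
      ∀ x ∈ X, ∃ v < n, q v = x := by
  have hadj : ∀ v < n, ∀ s < 3, G.Adj (q v) (q (nbr R v s)) := by
    intro v hv s hs
    have h2 := ((hp.2 v hv).1 s hs).1
    refine (h.edge v hv s hs (nbr R v s) ?_).2
    have e : nbr R v s = sl R v s - 2 := rfl
    omega
  have hlt : ∀ v < n, ∀ s < 3, nbr R v s < n := fun v hv s hs => ((hp.2 v hv).1 s hs).2
  have hnb : ∀ v < n, Nb G (q v) (q (nbr R v 0)) (q (nbr R v 1)) (q (nbr R v 2)) := by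
    intro v hv
    obtain ⟨x, y, z, hx⟩ := hc (q v) (h.mem v hv)
    obtain ⟨-, e1, e2, e3⟩ := hp.2 v hv
    have l0 := hlt v hv 0 (by omega)
    have l1 := hlt v hv 1 (by omega)
    have l2 := hlt v hv 2 (by omega)
    exact hx.of_adj (hadj v hv 0 (by omega)) (hadj v hv 1 (by omega)) (hadj v hv 2 (by omega))
      (fun e => e1 (h.inj _ l0 _ l1 e)) (fun e => e2 (h.inj _ l0 _ l2 e))
      (fun e => e3 (h.inj _ l1 _ l2 e))
  refine ⟨hnb, ?_⟩
  have hmem : ∀ x, x ∈ (Finset.range n).image q ↔ ∃ v < n, q v = x := by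
    intro x
    simp [Finset.mem_image, Finset.mem_range]
  have hA : (Finset.range n).image q = X := by
    by_contra hne
    have hsub : (Finset.range n).image q ⊆ X := by
      intro x hx
      obtain ⟨v, hv, rfl⟩ := (hmem x).1 hx
      exact h.mem v hv
    obtain ⟨x, hx, y, -, hy, a⟩ := hn _ hsub ⟨q 0, (hmem _).2 ⟨0, hp.1, rfl⟩⟩ hne
    obtain ⟨v, hv, rfl⟩ := (hmem x).1 hx
    apply hy
    rcases (hnb v hv).cases a with rfl | rfl | rfl
    · exact (hmem _).2 ⟨_, hlt v hv 0 (by omega), rfl⟩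
    · exact (hmem _).2 ⟨_, hlt v hv 1 (by omega), rfl⟩
    · exact (hmem _).2 ⟨_, hlt v hv 2 (by omega), rfl⟩
  intro x hx
  rw [← hA] at hx
  exact (hmem x).1 hx

/-- positions of the ends and of their partners in the pattern -/
theorem Pk.plc (h : Pk G X M g ph) {n R : ℕ} {q : ℕ → V}
    (he : SE (repG G M g ph) (repX X M g ph) n (sl R) q)
    (hnb : ∀ v < n, Nb (repG G M g ph) (q v) (q (nbr R v 0)) (q (nbr R v 1)) (q (nbr R v 2)))
    (hon : ∀ x ∈ repX X M g ph, ∃ v < n, q v = x) (hp : Cub3 n R) :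
    ∃ a b : ℕ → ℕ, Plc g n R a b ∧ ∀ i < g + 4, q (a i) = ph i ∧ q (b i) = ph (rpi g i) := by
  have h1 : ∀ i, ∃ v, i < g + 4 → v < n ∧ q v = ph i := by
    intro i
    by_cases hi : i < g + 4
    · obtain ⟨v, hv, e⟩ := hon (ph i) (mem_repX.2 (Or.inl (h.mo i hi)))
      exact ⟨v, fun _ => ⟨hv, e⟩⟩
    · exact ⟨0, fun h' => absurd h' hi⟩
  have h2 : ∀ i, ∃ v, i < g + 4 → v < n ∧ q v = ph (rpi g i) := by
    intro i
    by_cases hi : i < g + 4
    · obtain ⟨v, hv, e⟩ := hon _ (h.part_mem hi).1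
      exact ⟨v, fun _ => ⟨hv, e⟩⟩
    · exact ⟨0, fun h' => absurd h' hi⟩
  choose a ha using h1
  choose b hb using h2
  have hlt : ∀ v < n, ∀ s < 3, nbr R v s < n := fun v hv s hs => ((hp.2 v hv).1 s hs).2
  have hed : ∀ v < n, ∀ w < n, (repG G M g ph).Adj (q v) (q w) → ∃ s < 3, nbr R v s = w := by
    intro v hv w hw e
    rcases (hnb v hv).cases e with e' | e' | e'
    · exact ⟨0, by omega, he.inj _ (hlt v hv 0 (by omega)) _ hw e'.symm⟩
    · exact ⟨1, by omega, he.inj _ (hlt v hv 1 (by omega)) _ hw e'.symm⟩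
    · exact ⟨2, by omega, he.inj _ (hlt v hv 2 (by omega)) _ hw e'.symm⟩
  refine ⟨a, b, ⟨fun i hi => ⟨(ha i hi).1, (hb i hi).1⟩, ?_, ?_, ?_, ?_⟩,
    fun i hi => ⟨(ha i hi).2, (hb i hi).2⟩⟩
  · intro i hi j hj e
    refine h.inj i (by omega) j (by omega) ?_
    rw [← (ha i hi).2, ← (ha j hj).2, e]
  · intro i hi
    have e : (repG G M g ph).Adj (q (a i)) (q (b i)) := by
      rw [(ha i hi).2, (hb i hi).2]
      exact (h.adj_end hi _).2 (Or.inr rfl)
    exact ⟨hed _ (ha i hi).1 _ (hb i hi).1 e, hed _ (hb i hi).1 _ (ha i hi).1 e.symm⟩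
  · intro i hi hr
    refine he.inj _ (hb i hi).1 _ (ha _ hr).1 ?_
    rw [(hb i hi).2, (ha _ hr).2]
  · intro hg
    subst hg
    have b2 := hb 2 (by omega)
    have b3 := hb 3 (by omega)
    have b4 := hb 4 (by omega)
    have r2 : rpi 1 2 = 5 := by decide
    have r3 : rpi 1 3 = 5 := by decide
    have r4 : rpi 1 4 = 5 := by decide
    rw [r2] at b2
    rw [r3] at b3
    rw [r4] at b4
    refine ⟨he.inj _ b3.1 _ b2.1 (b3.2.trans b2.2.symm),
      he.inj _ b4.1 _ b2.1 (b4.2.trans b2.2.symm), fun j hj e => ?_⟩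
    have e2 : ph j = ph 5 := by rw [← (ha j (by omega)).2, e, b2.2]
    have := h.inj j (by omega) 5 (by omega) e2
    omega

/-- First case of `PE`: `d (q v) = C v`. A vertex of `X` outside `M` that is no end is `q v` with
`v` different from all `a i`, `b i`. At an end the two neighbours besides the port are
`q (nbr R (a i) s)`, `q (nbr R (a i) s')` for the two half-edges that avoid `b i` (`Pk.nb_end`). -/
theorem Pk.out_col (h : Pk G X M g ph) {n R : ℕ} {q : ℕ → V} {a b : ℕ → ℕ}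
    (he : SE (repG G M g ph) (repX X M g ph) n (sl R) q)
    (hnb : ∀ v < n, Nb (repG G M g ph) (q v) (q (nbr R v 0)) (q (nbr R v 1)) (q (nbr R v 2)))
    (hon : ∀ x ∈ repX X M g ph, ∃ v < n, q v = x) (hp : Cub3 n R) (hl : Plc g n R a b)
    (hq : ∀ i < g + 4, q (a i) = ph i ∧ q (b i) = ph (rpi g i)) {C e : ℕ → Fin 4}
    (h1 : ∀ v < n, (∀ i < g + 4, v ≠ a i ∧ v ≠ b i) →
      ok4 (C v) (C (nbr R v 0)) (C (nbr R v 1)) (C (nbr R v 2)))
    (h2 : ∀ i < g + 4, ∀ s < 3, ∀ s' < 3, s ≠ s' → nbr R (a i) s ≠ b i → nbr R (a i) s' ≠ b i →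
      ∀ t, t ≠ C (a i) → t ≠ e i → ok4 (C (a i)) t (C (nbr R (a i) s)) (C (nbr R (a i) s'))) :
    Out G X M g ph (fun i => C (a i)) e := by
  classical
  obtain ⟨d, hd⟩ : ∃ d : V → Fin 4, ∀ v < n, d (q v) = C v := by
    refine ⟨fun x => if hx : ∃ v < n, q v = x then C hx.choose else 0, fun v hv => ?_⟩
    have hx : ∃ u < n, q u = q v := ⟨v, hv, rfl⟩
    simp only [dif_pos hx]
    rw [he.inj _ hx.choose_spec.1 v hv hx.choose_spec.2]
  have hlt : ∀ v < n, ∀ s < 3, nbr R v s < n := fun v hv s hs => ((hp.2 v hv).1 s hs).2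
  refine ⟨d, fun x hx hxM hxe => ?_, fun i hi => ?_⟩
  · obtain ⟨v, hv, rfl⟩ := hon x (mem_repX.2 (Or.inl ⟨hx, hxM⟩))
    have hn := hnb v hv
    have hn' : Nb G (q v) (q (nbr R v 0)) (q (nbr R v 1)) (q (nbr R v 2)) :=
      ⟨hn.1, hn.2.1, hn.2.2.1, fun w => by rw [← h.adj_other hxM hxe w]; exact hn.2.2.2 w⟩
    refine OK.of_nb hn' ?_
    rw [hd v hv, hd _ (hlt v hv 0 (by omega)), hd _ (hlt v hv 1 (by omega)),
      hd _ (hlt v hv 2 (by omega))]
    refine h1 v hv (fun i hi => ⟨?_, ?_⟩)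
    · rintro rfl
      exact hxe i hi (hq i hi).1
    · rintro rfl
      have hs := rpi_spec g h.g3 i hi
      rcases Nat.lt_or_ge (rpi g i) (g + 4) with h5 | h5
      · exact hxe _ h5 (hq i hi).2
      · have e5 : rpi g i = g + 4 + 0 := by omega
        have := h.mx 0 (by omega)
        rw [← e5, ← (hq i hi).2] at this
        exact hxM this
  · have hai := (hl.lt i hi).1
    refine ⟨by rw [← (hq i hi).1, hd _ hai], fun y z hn t ht hte => ?_⟩
    obtain ⟨-, -, hr⟩ := h.nb_end hi hn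
    have hb := hnb _ hai
    rw [(hq i hi).1] at hb
    have key : ∀ w, (repG G M g ph).Adj (ph i) w → ∃ s < 3, w = q (nbr R (a i) s) := by
      intro w hw
      rcases hb.cases hw with e1 | e1 | e1
      · exact ⟨0, by omega, e1⟩
      · exact ⟨1, by omega, e1⟩
      · exact ⟨2, by omega, e1⟩
    obtain ⟨s, hs, rfl⟩ := key y hr.adj2
    obtain ⟨s', hs', rfl⟩ := key z hr.adj3
    rw [hd _ (hlt _ hai s hs), hd _ (hlt _ hai s' hs')]
    refine h2 i hi s hs s' hs' ?_ ?_ ?_ t ht hte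
    · rintro rfl
      exact hr.2.2.1 rfl
    · intro e1
      exact hr.1 (by rw [e1, (hq i hi).2])
    · intro e1
      exact hr.2.1 (by rw [e1, (hq i hi).2])

/-- Second case of `PE`: the image of `A` lies outside `M`; map a pair `(v, w)` of `L` to
`(q v, ph (g + 4 + i))` if `v = a i`, `w = b i`, else to `(q v, q w)`; `Pk.small`. -/
theorem Pk.no_cut (h : Pk G X M g ph) (h3 : E3L G X) (h4 : C3L G X) {n R : ℕ} {q : ℕ → V}
    {a b : ℕ → ℕ} (he : SE (repG G M g ph) (repX X M g ph) n (sl R) q)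
    (hnb : ∀ v < n, Nb (repG G M g ph) (q v) (q (nbr R v 0)) (q (nbr R v 1)) (q (nbr R v 2)))
    (hp : Cub3 n R) (hl : Plc g n R a b)
    (hq : ∀ i < g + 4, q (a i) = ph i ∧ q (b i) = ph (rpi g i)) {A : ℕ → Prop} {L : List (ℕ × ℕ)}
    (h1 : ∃ v < n, A v) (h2 : ∀ i < g + 4, A (b i) → ∃ j < g + 4, b i = a j)
    (h5 : ∀ v < n, A v → ∀ s < 3,
      (A (nbr R v s) ∧ ∀ i < g + 4, v = a i → nbr R v s ≠ b i) ∨ (v, nbr R v s) ∈ L)
    (h6 : L.length ≤ 2 ∨ (L.length ≤ 3 ∧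
      ∃ p q r s, p < q ∧ q < r ∧ r < s ∧ s < n ∧ A p ∧ A q ∧ A r ∧ A s)) : False := by
  classical
  have hlt : ∀ v < n, ∀ s < 3, nbr R v s < n := fun v hv s hs => ((hp.2 v hv).1 s hs).2
  obtain ⟨f, hf1, hf2⟩ : ∃ f : ℕ × ℕ → V × V,
      (∀ i < g + 4, f (a i, b i) = (ph i, ph (g + 4 + i))) ∧
      ∀ v w, (∀ i < g + 4, v = a i → w ≠ b i) → f (v, w) = (q v, q w) := by
    refine ⟨fun p => if hx : ∃ i < g + 4, p.1 = a i ∧ p.2 = b i then
      (q p.1, ph (g + 4 + hx.choose)) else (q p.1, q p.2), fun i hi => ?_, fun v w hw => ?_⟩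
    · have hx : ∃ j < g + 4, (a i, b i).1 = a j ∧ (a i, b i).2 = b j := ⟨i, hi, rfl, rfl⟩
      simp only [dif_pos hx]
      rw [← hl.inj i hi _ hx.choose_spec.1 hx.choose_spec.2.1, (hq i hi).1]
    · have hx : ¬ ∃ j < g + 4, (v, w).1 = a j ∧ (v, w).2 = b j :=
        fun ⟨j, hj, e1, e2⟩ => hw j hj e1 e2
      simp only [dif_neg hx]
  have hmem : ∀ x, x ∈ ((Finset.range n).filter A).image q ↔ ∃ v < n, A v ∧ q v = x := by
    intro x
    simp only [Finset.mem_image, Finset.mem_filter, Finset.mem_range, and_assoc]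
  have hA : ∀ x ∈ ((Finset.range n).filter A).image q, x ∈ X ∧ x ∉ M := by
    intro x hx
    obtain ⟨v, hv, hAv, rfl⟩ := (hmem x).1 hx
    rcases mem_repX.1 (he.mem v hv) with h7 | ⟨rfl, h7⟩
    · exact h7
    · exfalso
      have e2 : q (b 2) = ph 5 := (hq 2 (by omega)).2
      have e3 : v = b 2 := he.inj v hv _ (hl.lt 2 (by omega)).2 (h7.trans e2.symm)
      obtain ⟨j, hj, e4⟩ := h2 2 (by omega) (e3 ▸ hAv)
      exact (hl.st rfl).2.2 j hj e4.symm
  have hne : (((Finset.range n).filter A).image q).Nonempty := by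
    obtain ⟨v, hv, hAv⟩ := h1
    exact ⟨q v, (hmem _).2 ⟨v, hv, hAv, rfl⟩⟩
  have hcut : CutIn G X (((Finset.range n).filter A).image q) (L.map f) := by
    intro x hx y hy hyA hxy
    have hxM := (hA x hx).2
    obtain ⟨v, hv, hAv, rfl⟩ := (hmem x).1 hx
    by_cases hyM : y ∈ M
    · obtain ⟨i, hi, rfl, e2⟩ := h.only y hyM _ hxM hxy.symm
      have e3 : v = a i := he.inj v hv _ (hl.lt i hi).1 (e2.trans (hq i hi).1.symm)
      obtain ⟨s, hs, e4⟩ := (hl.ed i hi).1
      rcases h5 v hv hAv s hs with h7 | h7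
      · exact absurd (e3 ▸ e4) (h7.2 i hi e3)
      · rw [e2, ← hf1 i hi]
        rw [e3, e4] at h7
        exact List.mem_map_of_mem h7
    · have hr : (repG G M g ph).Adj (q v) y := ⟨hxy.ne, Or.inl ⟨hxy, hxM, hyM⟩⟩
      obtain ⟨s, hs, rfl⟩ : ∃ s < 3, y = q (nbr R v s) := by
        rcases (hnb v hv).cases hr with e1 | e1 | e1
        · exact ⟨0, by omega, e1⟩
        · exact ⟨1, by omega, e1⟩
        · exact ⟨2, by omega, e1⟩
      rcases h5 v hv hAv s hs with h7 | h7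
      · exact absurd ((hmem _).2 ⟨_, hlt v hv s hs, h7.1, rfl⟩) hyA
      · rw [← hf2 v _ ?_]
        · exact List.mem_map_of_mem h7
        · intro i hi e1 e2
          rw [e2, (hq i hi).2] at hxy hyM
          rw [e1, (hq i hi).1] at hxy
          have hs := rpi_spec g h.g3 i hi
          rcases Nat.lt_or_ge (rpi g i) (g + 4) with h8 | h8
          · exact h.na i hi h8 hxy
          · have e5 : rpi g i = g + 4 + 0 := by omega
            exact hyM (e5 ▸ h.mx 0 (by omega))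
  obtain ⟨k1, k2⟩ := h.small h3 h4 hA hne hcut
  rw [List.length_map] at k1 k2
  rcases h6 with h6 | ⟨h6, p1, p2, p3, p4, l1, l2, l3, l4, m1, m2, m3, m4⟩
  · omega
  · have k3 := k2 h6
    rw [Finset.card_image_of_injOn (fun u hu v hv e => he.inj u
      (Finset.mem_range.1 (Finset.mem_filter.1 hu).1) v
      (Finset.mem_range.1 (Finset.mem_filter.1 hv).1) e)] at k3
    have k4 : ({p1, p2, p3, p4} : Finset ℕ) ⊆ (Finset.range n).filter A := by
      intro u hu
      simp only [Finset.mem_insert, Finset.mem_singleton] at hu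
      rw [Finset.mem_filter, Finset.mem_range]
      rcases hu with rfl | rfl | rfl | rfl
      · exact ⟨by omega, m1⟩
      · exact ⟨by omega, m2⟩
      · exact ⟨by omega, m3⟩
      · exact ⟨by omega, m4⟩
    have k5 := Finset.card_le_card k4
    rw [Finset.card_insert_of_notMem (by simp; omega), Finset.card_insert_of_notMem (by simp; omega),
      Finset.card_pair (by omega)] at k5
    omega

end Pool.Agent.Hom2
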