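import Pool.Agent.Lib.MP_7e4769_co.Hc.Rp3
import Pool.Agent.Lib.MP_7e4769_co.Hc.Rp4

set_option autoImplicit false
set_option linter.unusedSectionVars false

namespace Pool.Agent.Hom2

variable {V : Type} [DecidableEq V] {G : SimpleGraph V} {X M : Finset V} {g : ℕ} {ph : ℕ → V}

theorem k4_adj : ∀ u < mN 0, ∀ v < mN 0, u ≠ v → ∃ s < 3, nbr (mR 0) u s = v := by
  decide +kernel

/-- REPLACE: the template answers the standard states and the states of the table; every placement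
of the gadget in a cubic exception has a state in the table or a small cut. -/
theorem rep_main (hc : Cub G X) (hcl : Closed G X) (h3 : E3L G X) (h4 : C3L G X)
    (hT : TBelow V X.card) {n R zt zn : ℕ} (hw : WfT g n R) (h : TE G X g n R ph)
    (n02 : g = 0 → ¬ G.Adj (ph 0) (ph 2))
    (t1 : ∀ c e, Std g c e → c 0 = 0 → c 1 = 1 → e 0 = 2 → Ans g n R c e)
    (t2 : ∀ j < zn, ∀ c e : ℕ → Fin 4, (∀ i < g + 4, atm (c i) (e i) = za zt j i) → Ans g n R c e)
    (ex : ∀ m < 7, (g = 0 → m ≠ 0) → ∀ a b, Plc g (mN m) (mR m) a b →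
      PE (g + 4) (mN m) (mR m) (InZ (g + 4) zt zn) a b) :
    Good G X := by
  have p := h.pk hw hc
  have two := p.twoEC hc hcl h3 h4
  rcases hT _ _ p.card_lt (p.cub hc) two with q | ⟨m, hm, q, he⟩
  · obtain ⟨c, e, o, s, a0, a1, a2⟩ := p.std hc q
    exact p.fill hc hcl o (h.tab hw hc (t1 c e s a0 a1 a2))
  rcases mem_shape m hm with ⟨m7, cb⟩ | ⟨i, hi, st⟩
  · obtain ⟨hnb, hon⟩ := he.onto3 cb (p.cub hc) two.conn
    obtain ⟨a, b, hl, hq⟩ := p.plc he hnb hon cb
    have m0 : g = 0 → m ≠ 0 := by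
      rintro rfl rfl
      obtain ⟨s, s3, e⟩ := k4_adj (a 0) (hl.lt 0 (by omega)).1 (a 2) (hl.lt 2 (by omega)).1
        fun e => absurd (hl.inj 0 (by omega) 2 (by omega) e) (by omega)
      have nb := hnb (a 0) (hl.lt 0 (by omega)).1
      have ad : (repG G (tM 0 n ph) 0 ph).Adj (ph 0) (ph 2) := by
        rw [← (hq 0 (by omega)).1, ← (hq 2 (by omega)).1, ← e]
        interval_cases s
        exacts [nb.adj1, nb.adj2, nb.adj3]
      rcases (p.adj_end (i := 0) (by omega) _).1 ad with r | r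
      · exact n02 rfl r.1
      · exact absurd (p.inj 2 (by omega) 1 (by omega) r) (by omega)
    rcases ex m m7 m0 a b hl with ⟨C, e, ⟨f, hf, j, hj, hz⟩, h1, h2⟩ | ⟨A, L, h1, h2, h5, h6⟩
    · exact p.fill hc hcl ((p.out_col he hnb hon cb hl hq h1 h2).map hf)
        (h.tab hw hc (t2 j hj _ _ hz))
    · exact (p.no_cut h3 h4 he hnb cb hl hq h1 h2 h5 h6).elim
  · obtain ⟨k, k3, r⟩ := (hasStub_iff _ _).1 st
    obtain ⟨y, y1, y2⟩ := he.stub i hi k k3 r
    exact absurd (p.closed hcl _ (he.mem i hi) y y2) y1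

end Pool.Agent.Hom2
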