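import Pool.Agent.Lib.MP_7e4769_co.Hc.Rp0
import Pool.Agent.Lib.MP_7e4769_co.Hc.ScD

set_option autoImplicit false
set_option linter.unusedSectionVars false

namespace Pool.Agent.Hom2.Rq

variable {V : Type} [DecidableEq V] {G : SimpleGraph V} {X : Finset V}

theorem ecut_le {A : Finset V} {L : List (V × V)} (h : CutIn G X A L) : Sc.ecut G X A ≤ L.length := by
  classical
  unfold Sc.ecut Sc.out
  rw [← Finset.card_sigma]
  refine le_trans (Finset.card_le_card_of_injOn (t := L.toFinset) (fun p => (p.1, p.2)) ?_ ?_)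
    (List.toFinset_card_le L)
  · intro p hp
    simp only [Finset.mem_coe, Finset.mem_sigma, Finset.mem_filter] at hp
    exact List.mem_toFinset.2 (h _ hp.1 _ hp.2.1 hp.2.2.1 hp.2.2.2)
  · rintro ⟨a, b⟩ - ⟨c, d⟩ - e
    obtain ⟨rfl, rfl⟩ := Prod.mk.inj e
    rfl

theorem three_le {α : Type} [DecidableEq α] {L : List α} {x y z : α} (hx : x ∈ L) (hy : y ∈ L)
    (hz : z ∈ L) (h1 : x ≠ y) (h2 : x ≠ z) (h3 : y ≠ z) : 3 ≤ L.length := by
  refine le_trans ?_ (List.toFinset_card_le L)
  rw [← Finset.card_eq_three.2 ⟨x, y, z, h1, h2, h3, rfl⟩]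
  refine Finset.card_le_card fun w hw => ?_
  simp only [Finset.mem_insert, Finset.mem_singleton] at hw
  rcases hw with rfl | rfl | rfl <;> exact List.mem_toFinset.2 ‹_›

theorem e3l (hc : Cub G X) (hcl : Closed G X) (h : Sc.E3 G X) : E3L G X := by
  intro A hA hne hX L hL
  by_cases h1 : A.card = 1
  · obtain ⟨v, rfl⟩ := Finset.card_eq_one.1 h1
    have hv := hA (Finset.mem_singleton_self v)
    obtain ⟨x, y, z, a, b, c, d⟩ := hc v hv
    have k : ∀ w, G.Adj v w → (v, w) ∈ L := fun w hw => hL v (Finset.mem_singleton_self v) w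
      (hcl v hv w hw) (fun q => hw.ne' (Finset.mem_singleton.1 q)) hw
    exact three_le (k x ((d x).2 (by simp))) (k y ((d y).2 (by simp))) (k z ((d z).2 (by simp)))
      (by simp [a]) (by simp [b]) (by simp [c])
  by_cases h2 : (X \ A).card = 1
  · obtain ⟨v, e⟩ := Finset.card_eq_one.1 h2
    have hv : v ∈ X \ A := e ▸ Finset.mem_singleton_self v
    rw [Finset.mem_sdiff] at hv
    obtain ⟨x, y, z, a, b, c, d⟩ := hc v hv.1
    have k : ∀ w, G.Adj v w → (w, v) ∈ L := fun w hw => by
      refine hL w ?_ v hv.1 hv.2 hw.symm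
      by_contra q
      have : w ∈ X \ A := Finset.mem_sdiff.2 ⟨hcl v hv.1 w hw, q⟩
      rw [e] at this
      exact hw.ne' (Finset.mem_singleton.1 this)
    exact three_le (k x ((d x).2 (by simp))) (k y ((d y).2 (by simp))) (k z ((d z).2 (by simp)))
      (by simp [a]) (by simp [b]) (by simp [c])
  have c1 := Finset.card_pos.2 hne
  have c2 := Finset.card_lt_card (Finset.ssubset_iff_subset_ne.2 ⟨hA, hX⟩)
  have c3 := Finset.card_sdiff_add_card_eq_card hA
  exact le_trans (h A hA (by omega) (by omega)) (ecut_le hL)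

theorem c3l (h : Sc.C3 G X) : C3L G X := by
  intro A hA L hL h3
  by_contra q
  have c3 := Finset.card_sdiff_add_card_eq_card hA
  have := le_trans (h A hA (by omega) (by omega)) (ecut_le hL)
  omega

end Pool.Agent.Hom2.Rq
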