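import Pool.Agent.Lib.MP_7e4769_co.Hc.RpU
import Pool.Agent.Lib.MP_7e4769_co.Hc.Rp7
import Pool.Agent.Lib.MP_7e4769_co.Hc.RpX0
import Pool.Agent.Lib.MP_7e4769_co.Hc.RpX1
import Pool.Agent.Lib.MP_7e4769_co.Hc.RpX2
import Pool.Agent.Lib.MP_7e4769_co.Hc.RpE

set_option autoImplicit false
set_option linter.unusedSectionVars false

namespace Pool.Agent.Hom2.Rq

variable {V : Type} [DecidableEq V] {G : SimpleGraph V} {X : Finset V}

theorem exG {g : ℕ} (hg : g < 3) : ∀ m < 7, (g = 0 → m ≠ 0) → ∀ a b, Plc g (mN m) (mR m) a b →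
    PE (g + 4) (mN m) (mR m) (InZ (g + 4) (ztG g) (znG g)) a b := by
  interval_cases g
  exacts [fun m h h0 => exc0_all m h (h0 rfl), fun m h _ => exc1_all m h, fun m h _ => exc2_all m h]

theorem s0_slot (E v : ℕ) : s0 E v 6 = Sc.slot E v 0 ∧ s0 E v 12 = Sc.slot E v 1 :=
  ⟨congrArg (fun p => E >>> p % 64) (show 12 * v + 6 = 6 + 12 * v + 6 * 0 by omega),
    congrArg (fun p => E >>> p % 64) (show 12 * v + 12 = 6 + 12 * v + 6 * 1 by omega)⟩

theorem lk_adj {E v x : ℕ} {ph : ℕ → V} (h : Sc.EmbE G X E ph) (hv : v < E % 64) (hx : x < E % 64)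
    (k : Lk E v x) : G.Adj (ph v) (ph x) := by
  obtain ⟨n, k⟩ := k
  rw [(s0_slot E v).1, (s0_slot E v).2, (s0_slot E x).1, (s0_slot E x).2] at k
  rcases k with k | k | k | k
  · exact k ▸ h.adj v hv 0 (by omega) (by omega) (by omega)
  · exact k ▸ h.adj v hv 1 (by omega) (by omega) (by omega)
  · exact (k ▸ h.adj x hx 0 (by omega) (by omega) (by omega) : G.Adj (ph x) (ph v)).symm
  · exact (k ▸ h.adj x hx 1 (by omega) (by omega) (by omega) : G.Adj (ph x) (ph v)).symm

/-- what the replacement uses -/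
structure RC (G : SimpleGraph V) (X : Finset V) : Prop where
  cub : Cub G X
  cl : Closed G X
  e3 : Sc.E3 G X
  c3 : Sc.C3 G X
  tb : TBelow V X.card

theorem tg_good (r : RC G X) {g E R J B : ℕ} {tk : ℕ → ℕ → ℕ → ℕ → ℕ → Bool} (hg : g < 3)
    (ht : TkOK g tk) (h : tg tk (g + 4) E R J B = true) {ph : ℕ → V} (he : Sc.EmbE G X E ph)
    (na : 2 * (g + 4) ≤ E % 64 → (∀ i < g + 4, rpi g i < g + 4 → ¬ G.Adj (ph i) (ph (rpi g i))) ∧
      (g = 0 → ¬ G.Adj (ph 0) (ph 2))) : Good G X := by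
  obtain ⟨w, l, t1, t2⟩ := tg_spec hg ht h
  exact rep_main r.cub r.cl (e3l r.cub r.cl r.e3) (c3l r.c3) r.tb w
    ⟨he.mem, he.inj, fun v h1 h2 s hs => lk_adj he h1 ((w.2.2 v h1 h2).1 s hs) (l v h1 h2 s hs),
      (na w.2.1).1⟩ (na w.2.1).2 t1 t2 (exG hg)

theorem fd_low {e p : ℕ} (hp : p + 6 ≤ 38) : Sc.fd e p 64 = Sc.fd (e % 274877906944) p 64 := by
  refine Nat.eq_of_testBit_eq fun i => ?_
  show (e >>> p % 2 ^ 6).testBit i = ((e % 2 ^ 38) >>> p % 2 ^ 6).testBit i
  simp only [Nat.testBit_mod_two_pow, Nat.testBit_shiftRight]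
  by_cases h : i < 6
  · simp [show p + i < 38 by omega]
  · simp [h]

theorem tc_holds (r : RC G X) {Gl : Prop} (hg : Good G X → Gl) {u e R J B : ℕ} (hu : 144 ≤ u)
    (h : tc u e R J B = true) : Sc.HoldsN G X Gl e := by
  intro ph he hn
  have k : ∀ c, e % 274877906944 = c → ∀ t < c % 4, t < 3 →
      Sc.fd c (12 * t + 2) 64 < Nat.shiftRight e 38 % 64 →
      Sc.fd c (12 * t + 8) 64 < Nat.shiftRight e 38 % 64 →
      ¬ G.Adj (ph (Sc.fd c (12 * t + 2) 64)) (ph (Sc.fd c (12 * t + 8) 64)) := by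
    rintro c rfl t h1 h2
    rw [← fd_low (by omega), ← fd_low (by omega)]
    exact hn t (by omega)
  have h' : tc1 u (e % 274877906944) (Nat.shiftRight e 38) R J B = true := h
  unfold tc1 at h'
  refine hg ?_
  cases q2 : Nat.beq (e % 274877906944) 21746450691 <;> rw [q2] at h'
  · cases q0 : Nat.beq (e % 274877906944) 8593113347 <;> rw [q0] at h'
    · obtain ⟨q1, h1⟩ := (an_iff _ _).1 h'
      refine tg_good r (g := 1) (by omega) (tk1_ok hu) h1 he fun hn => ⟨fun i hi hr => ?_, by omega⟩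
      have a : ¬ G.Adj (ph 0) (ph 1) := k 257 (Nat.eq_of_beq_eq_true q1) 0 (by omega) (by omega)
        (show 0 < _ by omega) (show 1 < _ by omega)
      interval_cases i
      exacts [a, fun x => a x.symm, absurd hr (by decide), absurd hr (by decide),
        absurd hr (by decide)]
    · refine tg_good r (g := 0) (by omega) (tk0_ok hu) h' he fun hn => ?_
      have k' := k _ (Nat.eq_of_beq_eq_true q0)
      have a : ¬ G.Adj (ph 0) (ph 1) := k' 0 (by omega) (by omega) (show 0 < _ by omega)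
        (show 1 < _ by omega)
      have b : ¬ G.Adj (ph 2) (ph 3) := k' 1 (by omega) (by omega) (show 2 < _ by omega)
        (show 3 < _ by omega)
      refine ⟨fun i hi _ => ?_, fun _ => k' 2 (by omega) (by omega) (show 0 < _ by omega)
        (show 2 < _ by omega)⟩
      interval_cases i
      exacts [a, fun x => a x.symm, b, fun x => b x.symm]
  · refine tg_good r (g := 2) (by omega) (tk2_ok hu) h' he fun hn => ⟨fun i hi _ => ?_, by omega⟩
    have k' := k _ (Nat.eq_of_beq_eq_true q2)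
    have a : ¬ G.Adj (ph 0) (ph 1) := k' 0 (by omega) (by omega) (show 0 < _ by omega)
      (show 1 < _ by omega)
    have b : ¬ G.Adj (ph 2) (ph 3) := k' 1 (by omega) (by omega) (show 2 < _ by omega)
      (show 3 < _ by omega)
    have c : ¬ G.Adj (ph 4) (ph 5) := k' 2 (by omega) (by omega) (show 4 < _ by omega)
      (show 5 < _ by omega)
    interval_cases i
    exacts [a, fun x => a x.symm, b, fun x => b x.symm, c, fun x => c x.symm]

/-- a block of template facts -/
theorem tcl_holds (r : RC G X) {Gl : Prop} (hg : Good G X → Gl) {u : ℕ} (hu : 144 ≤ u) {dn : Sc.DT}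
    (l : T3) (f : ℕ) (h : tcl u dn l f = true) :
    ∀ g, f ≤ g → g < f + l.len → Sc.HoldsN G X Gl (Sc.dget dn g) := by
  induction l generalizing f with
  | nil => exact fun g h1 h2 => absurd (show g < f from h2) (by omega)
  | cons R J B l ih =>
    have h' : an (tc u (Sc.dget dn f) R J B) (tcl u dn l (f + 1)) = true := h
    rw [an_iff] at h'
    intro g h1 h2
    have h3 : g < f + (l.len + 1) := h2
    rcases Nat.eq_or_lt_of_le h1 with rfl | h4
    · exact tc_holds r hg hu h'.1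
    · exact ih _ h'.2 g h4 (by omega)

end Pool.Agent.Hom2.Rq
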