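import Pool.Agent.Lib.MP_7e4769_co.Hc.ScA

set_option autoImplicit false
set_option linter.unusedVariables false

namespace Pool.Agent.Hom2.Sc

def adEF (i y : Nat) (k : Kc) : Kc := fun n A D1 D2 D3 Q B =>
    k (Nat.add n (Nat.sub (Nat.add y (nat_lit 1)) n)) (Nat.lor A (Nat.lor (Nat.shiftLeft (Nat.shiftLeft (nat_lit
    1) y) (Nat.mul (nat_lit 64) i)) (Nat.shiftLeft (Nat.shiftLeft (nat_lit 1) i) (Nat.mul (nat_lit 64) y))))
    (Nat.lor D1 (Nat.mul (Nat.sub (nat_lit 1) (Nat.mod (Nat.shiftRight (Nat.mod (Nat.shiftRight A (Nat.mul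
    (nat_lit 64) i)) (nat_lit 9223372036854775808)) y) (nat_lit 2))) (Nat.lor (Nat.shiftLeft (nat_lit 1) i)
    (Nat.shiftLeft (nat_lit 1) y)))) (Nat.lor D2 (Nat.land D1 (Nat.mul (Nat.sub (nat_lit 1) (Nat.mod
    (Nat.shiftRight (Nat.mod (Nat.shiftRight A (Nat.mul (nat_lit 64) i)) (nat_lit 9223372036854775808)) y)
    (nat_lit 2))) (Nat.lor (Nat.shiftLeft (nat_lit 1) i) (Nat.shiftLeft (nat_lit 1) y))))) (Nat.lor D3 (Nat.land
    D2 (Nat.mul (Nat.sub (nat_lit 1) (Nat.mod (Nat.shiftRight (Nat.mod (Nat.shiftRight A (Nat.mul (nat_lit 64) i))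
    (nat_lit 9223372036854775808)) y) (nat_lit 2))) (Nat.lor (Nat.shiftLeft (nat_lit 1) i) (Nat.shiftLeft (nat_lit
    1) y))))) Q B

noncomputable def rColF  : Kc :=
    fun n A D1 D2 D3 Q B => (Nat.mul (Nat.shiftRight B (Nat.mul (nat_lit 2) n)) (Nat.sub (nat_lit 1) (Nat.add
    (Nat.add (Nat.xor A (Nat.land A (Nat.lor (Nat.xor (Nat.mul (Nat.lor (Nat.mod B (Nat.shiftLeft (nat_lit 1) n))
    (nat_lit 4611686018427387904)) cR) (Nat.mul (Nat.land (Nat.mul (Nat.lor (Nat.mod B (Nat.shiftLeft (nat_lit 1)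
    n)) (nat_lit 4611686018427387904)) cM) cR) (nat_lit 18446744073709551615))) (Nat.xor (Nat.mul (Nat.lor
    (Nat.mod (Nat.shiftRight B n) (Nat.shiftLeft (nat_lit 1) n)) (nat_lit 4611686018427387904)) cR) (Nat.mul
    (Nat.land (Nat.mul (Nat.lor (Nat.mod (Nat.shiftRight B n) (Nat.shiftLeft (nat_lit 1) n)) (nat_lit
    4611686018427387904)) cM) cR) (nat_lit 18446744073709551615)))))) (Nat.land (Nat.xor (Nat.xor (Nat.add
    (Nat.xor A (Nat.lor (Nat.land A (Nat.mul (Nat.lor (Nat.mod B (Nat.shiftLeft (nat_lit 1) n)) (nat_lit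
    4611686018427387904)) cR)) (Nat.land A (Nat.mul (Nat.lor (Nat.mod (Nat.shiftRight B n) (Nat.shiftLeft (nat_lit
    1) n)) (nat_lit 4611686018427387904)) cR)))) cK) (Nat.add (Nat.xor (Nat.land A (Nat.mul (Nat.lor (Nat.mod B
    (Nat.shiftLeft (nat_lit 1) n)) (nat_lit 4611686018427387904)) cR)) (Nat.land (Nat.land A (Nat.mul (Nat.lor
    (Nat.mod B (Nat.shiftLeft (nat_lit 1) n)) (nat_lit 4611686018427387904)) cR)) (Nat.land A (Nat.mul (Nat.lor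
    (Nat.mod (Nat.shiftRight B n) (Nat.shiftLeft (nat_lit 1) n)) (nat_lit 4611686018427387904)) cR)))) cK))
    (Nat.xor (Nat.add (Nat.xor (Nat.land A (Nat.mul (Nat.lor (Nat.mod (Nat.shiftRight B n) (Nat.shiftLeft (nat_lit
    1) n)) (nat_lit 4611686018427387904)) cR)) (Nat.land (Nat.land A (Nat.mul (Nat.lor (Nat.mod B (Nat.shiftLeft
    (nat_lit 1) n)) (nat_lit 4611686018427387904)) cR)) (Nat.land A (Nat.mul (Nat.lor (Nat.mod (Nat.shiftRight B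
    n) (Nat.shiftLeft (nat_lit 1) n)) (nat_lit 4611686018427387904)) cR)))) cK) (Nat.add (Nat.land (Nat.land A
    (Nat.mul (Nat.lor (Nat.mod B (Nat.shiftLeft (nat_lit 1) n)) (nat_lit 4611686018427387904)) cR)) (Nat.land A
    (Nat.mul (Nat.lor (Nat.mod (Nat.shiftRight B n) (Nat.shiftLeft (nat_lit 1) n)) (nat_lit 4611686018427387904))
    cR))) cK))) cH)) (Nat.add (Nat.xor D3 (Nat.sub (Nat.shiftLeft (nat_lit 1) n) (nat_lit 1))) (Nat.sub (nat_lit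
    1) n)))))

noncomputable def refLF (A M : Nat) (fin : Nat → Nat → Nat → Nat → Nat → Nat) (c : Nat) : Nat → Nat → Nat → Nat → Nat → Nat :=
    @Nat.rec (fun _ => Nat → Nat → Nat → Nat → Nat → Nat) (@Nat.rec (fun _ => Nat → Nat → Nat → Nat → Nat → Nat)
    fin (fun _ ih E Mi ac sm ro => ih (Nat.shiftRight E (nat_lit 48)) (Nat.shiftRight Mi (nat_lit 32)) (Nat.land
    (Nat.land (Nat.land (Nat.land ac (Nat.land (Nat.shiftRight (Nat.mod (Nat.shiftRight A (Nat.mul (nat_lit 64)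
    (Nat.mod (Nat.mod Mi (nat_lit 4294967296)) (nat_lit 64)))) (nat_lit 9223372036854775808)) (Nat.mod
    (Nat.shiftRight M (Nat.land (Nat.shiftLeft (Nat.mod E (nat_lit 281474976710656)) (nat_lit 3)) (nat_lit 504)))
    (nat_lit 64))) (Nat.shiftRight (Nat.mod (Nat.shiftRight A (Nat.mul (nat_lit 64) (Nat.mod (Nat.mod Mi (nat_lit
    4294967296)) (nat_lit 64)))) (nat_lit 9223372036854775808)) (Nat.mod (Nat.shiftRight M (Nat.land
    (Nat.shiftRight (Nat.mod E (nat_lit 281474976710656)) (nat_lit 3)) (nat_lit 504))) (nat_lit 64))))) (Nat.land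
    (Nat.shiftRight (Nat.mod (Nat.shiftRight A (Nat.mul (nat_lit 64) (Nat.mod (Nat.shiftRight (Nat.mod Mi (nat_lit
    4294967296)) (nat_lit 8)) (nat_lit 64)))) (nat_lit 9223372036854775808)) (Nat.mod (Nat.shiftRight M (Nat.land
    (Nat.shiftRight (Nat.mod E (nat_lit 281474976710656)) (nat_lit 9)) (nat_lit 504))) (nat_lit 64)))
    (Nat.shiftRight (Nat.mod (Nat.shiftRight A (Nat.mul (nat_lit 64) (Nat.mod (Nat.shiftRight (Nat.mod Mi (nat_lit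
    4294967296)) (nat_lit 8)) (nat_lit 64)))) (nat_lit 9223372036854775808)) (Nat.mod (Nat.shiftRight M (Nat.land
    (Nat.shiftRight (Nat.mod E (nat_lit 281474976710656)) (nat_lit 15)) (nat_lit 504))) (nat_lit 64))))) (Nat.land
    (Nat.shiftRight (Nat.mod (Nat.shiftRight A (Nat.mul (nat_lit 64) (Nat.mod (Nat.shiftRight (Nat.mod Mi (nat_lit
    4294967296)) (nat_lit 16)) (nat_lit 64)))) (nat_lit 9223372036854775808)) (Nat.mod (Nat.shiftRight M (Nat.land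
    (Nat.shiftRight (Nat.mod E (nat_lit 281474976710656)) (nat_lit 21)) (nat_lit 504))) (nat_lit 64)))
    (Nat.shiftRight (Nat.mod (Nat.shiftRight A (Nat.mul (nat_lit 64) (Nat.mod (Nat.shiftRight (Nat.mod Mi (nat_lit
    4294967296)) (nat_lit 16)) (nat_lit 64)))) (nat_lit 9223372036854775808)) (Nat.mod (Nat.shiftRight M (Nat.land
    (Nat.shiftRight (Nat.mod E (nat_lit 281474976710656)) (nat_lit 27)) (nat_lit 504))) (nat_lit 64))))) (Nat.land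
    (Nat.shiftRight (Nat.mod (Nat.shiftRight A (Nat.mul (nat_lit 64) (Nat.mod (Nat.shiftRight (Nat.mod Mi (nat_lit
    4294967296)) (nat_lit 24)) (nat_lit 64)))) (nat_lit 9223372036854775808)) (Nat.mod (Nat.shiftRight M (Nat.land
    (Nat.shiftRight (Nat.mod E (nat_lit 281474976710656)) (nat_lit 33)) (nat_lit 504))) (nat_lit 64)))
    (Nat.shiftRight (Nat.mod (Nat.shiftRight A (Nat.mul (nat_lit 64) (Nat.mod (Nat.shiftRight (Nat.mod Mi (nat_lit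
    4294967296)) (nat_lit 24)) (nat_lit 64)))) (nat_lit 9223372036854775808)) (Nat.mod (Nat.shiftRight M (Nat.land
    (Nat.shiftRight (Nat.mod E (nat_lit 281474976710656)) (nat_lit 39)) (nat_lit 504))) (nat_lit 64))))) (Nat.add
    (Nat.add (Nat.add (Nat.add sm (Nat.shiftLeft (nat_lit 1) (Nat.mod (Nat.mod Mi (nat_lit 4294967296)) (nat_lit
    64)))) (Nat.shiftLeft (nat_lit 1) (Nat.mod (Nat.shiftRight (Nat.mod Mi (nat_lit 4294967296)) (nat_lit 8))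
    (nat_lit 64)))) (Nat.shiftLeft (nat_lit 1) (Nat.mod (Nat.shiftRight (Nat.mod Mi (nat_lit 4294967296)) (nat_lit
    16)) (nat_lit 64)))) (Nat.shiftLeft (nat_lit 1) (Nat.mod (Nat.shiftRight (Nat.mod Mi (nat_lit 4294967296))
    (nat_lit 24)) (nat_lit 64)))) (Nat.lor (Nat.lor (Nat.lor (Nat.lor ro (Nat.shiftLeft (nat_lit 1) (Nat.mod
    (Nat.mod Mi (nat_lit 4294967296)) (nat_lit 64)))) (Nat.shiftLeft (nat_lit 1) (Nat.mod (Nat.shiftRight (Nat.mod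
    Mi (nat_lit 4294967296)) (nat_lit 8)) (nat_lit 64)))) (Nat.shiftLeft (nat_lit 1) (Nat.mod (Nat.shiftRight
    (Nat.mod Mi (nat_lit 4294967296)) (nat_lit 16)) (nat_lit 64)))) (Nat.shiftLeft (nat_lit 1) (Nat.mod
    (Nat.shiftRight (Nat.mod Mi (nat_lit 4294967296)) (nat_lit 24)) (nat_lit 64))))) (Nat.div c (nat_lit 4))) (fun
    _ ih E Mi ac sm ro => ih (Nat.shiftRight E (nat_lit 12)) (Nat.shiftRight Mi (nat_lit 8)) (Nat.land ac
    (Nat.land (Nat.shiftRight (Nat.mod (Nat.shiftRight A (Nat.mul (nat_lit 64) (Nat.mod Mi (nat_lit 64))))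
    (nat_lit 9223372036854775808)) (Nat.mod (Nat.shiftRight M (Nat.mul (nat_lit 8) (Nat.mod E (nat_lit 64))))
    (nat_lit 64))) (Nat.shiftRight (Nat.mod (Nat.shiftRight A (Nat.mul (nat_lit 64) (Nat.mod Mi (nat_lit 64))))
    (nat_lit 9223372036854775808)) (Nat.mod (Nat.shiftRight M (Nat.mul (nat_lit 8) (Nat.mod (Nat.shiftRight E
    (nat_lit 6)) (nat_lit 64)))) (nat_lit 64))))) (Nat.add sm (Nat.shiftLeft (nat_lit 1) (Nat.mod Mi (nat_lit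
    64)))) (Nat.lor ro (Nat.shiftLeft (nat_lit 1) (Nat.mod Mi (nat_lit 64))))) (Nat.mod c (nat_lit 4))

noncomputable def refBF (e g f n A B : Nat) : Nat :=
    refLF A (Nat.lor (Nat.mod B (Nat.shiftLeft (nat_lit 1) (Nat.mul (nat_lit 8) (Nat.mod e (nat_lit 64)))))
    (Nat.shiftLeft (nat_lit 62) (Nat.mul (nat_lit 8) (Nat.mod e (nat_lit 64))))) (fun _ _ ac sm ro => (Nat.mul
    (Nat.shiftRight B (Nat.mul (nat_lit 8) (Nat.mod e (nat_lit 64)))) (Nat.sub (nat_lit 1) (Nat.add (Nat.add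
    (Nat.sub (nat_lit 1) (Nat.mod ac (nat_lit 2))) (Nat.sub sm ro)) (Nat.add (Nat.shiftRight ro n) (Nat.sub
    (Nat.add g (nat_lit 1)) f)))))) (Nat.mod e (nat_lit 64)) (Nat.shiftRight e (nat_lit 6)) (Nat.lor (Nat.mod B
    (Nat.shiftLeft (nat_lit 1) (Nat.mul (nat_lit 8) (Nat.mod e (nat_lit 64))))) (Nat.shiftLeft (nat_lit 62)
    (Nat.mul (nat_lit 8) (Nat.mod e (nat_lit 64))))) (nat_lit 1) (nat_lit 0) (nat_lit 0)

noncomputable def rRefF (db : DT) (f n A B : Nat) : Nat :=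
    (@Nat.rec (fun _ => Nat) (nat_lit 0) (fun g _ => refBF (dget db g) g f n A (Nat.shiftRight B (nat_lit 20)))
    (Nat.add (Nat.mod B (nat_lit 1048576)) (nat_lit 1)))

noncomputable def rRefKF (db : DT) (f : Nat) : Kc :=
    fun n A D1 D2 D3 Q B => rRefF db f n (Nat.lor A (Nat.land (Nat.mul (Nat.xor (Nat.land (Nat.mul (Nat.lor Q D3)
    cM) cR) (Nat.land (Nat.land (Nat.mul (Nat.lor Q D3) cM) cR) (Nat.land (Nat.shiftRight A (nat_lit 62)) cR)))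
    (nat_lit 18446744073709551615)) cD)) B

noncomputable def refNF (rc : Kc → Kc) (k : Kc) (e g nt : Nat) : Kc :=
    fun n A D1 D2 D3 Q B => @Nat.rec (fun _ => Nat) (refBF (Nat.shiftRight e (nat_lit 38)) g nt n A B) (fun t r =>
    (@Nat.rec (fun _ => Nat) r (fun _ _ => adEF (Nat.mod (Nat.shiftRight B (Nat.mul (nat_lit 8) (Nat.mod
    (Nat.shiftRight e (Nat.add (Nat.mul (nat_lit 12) t) (nat_lit 2))) (nat_lit 64)))) (nat_lit 64)) (Nat.mod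
    (Nat.shiftRight B (Nat.mul (nat_lit 8) (Nat.mod (Nat.shiftRight e (Nat.add (Nat.mul (nat_lit 12) t) (nat_lit
    8))) (nat_lit 64)))) (nat_lit 64)) (rc k) n A D1 D2 D3 Q r) (Nat.mod (Nat.shiftRight (Nat.lor (Nat.mod
    (Nat.shiftRight A (Nat.mul (nat_lit 64) (Nat.mod (Nat.shiftRight B (Nat.mul (nat_lit 8) (Nat.mod
    (Nat.shiftRight e (Nat.add (Nat.mul (nat_lit 12) t) (nat_lit 2))) (nat_lit 64)))) (nat_lit 64)))) (nat_lit
    9223372036854775808)) (Nat.mul (Nat.sub (nat_lit 1) (Nat.mod (Nat.shiftRight D3 (Nat.mod (Nat.shiftRight B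
    (Nat.mul (nat_lit 8) (Nat.mod (Nat.shiftRight e (Nat.add (Nat.mul (nat_lit 12) t) (nat_lit 2))) (nat_lit
    64)))) (nat_lit 64))) (nat_lit 2))) (Nat.xor (Nat.sub (Nat.shiftLeft (nat_lit 2) n) (nat_lit 1)) D3)))
    (Nat.mod (Nat.shiftRight B (Nat.mul (nat_lit 8) (Nat.mod (Nat.shiftRight e (Nat.add (Nat.mul (nat_lit 12) t)
    (nat_lit 8))) (nat_lit 64)))) (nat_lit 64))) (nat_lit 2)))) (Nat.mod e (nat_lit 4))

noncomputable def rRefNF (dn : DT) (nt : Nat) (rc : Kc → Kc) (k : Kc) : Kc :=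
    fun n A D1 D2 D3 Q B => (@Nat.rec (fun _ => Nat) (nat_lit 0) (fun g _ => refNF rc k (dget dn g) g nt n A D1 D2
    D3 Q (Nat.shiftRight B (nat_lit 20))) (Nat.add (Nat.mod B (nat_lit 1048576)) (nat_lit 1)))

noncomputable def rSplitF (cl : Nat) (rc : Kc → Kc) (k : Kc) : Kc :=
    fun n A D1 D2 D3 Q B => (@Nat.rec (fun _ => Nat → Nat → Nat) (fun m13 B13 => (Nat.mul B13 (Nat.sub (nat_lit 1)
    (Nat.add m13 (Nat.add (Nat.div n (nat_lit 62)) (Nat.add (Nat.mod (Nat.shiftRight D3 (Nat.mod B (nat_lit 64)))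
    (nat_lit 2)) (Nat.sub (Nat.add (Nat.mod B (nat_lit 64)) (nat_lit 1)) n))))))) (fun _ ih13 m13 B13 => ih13
    (Nat.land m13 (Nat.sub m13 (nat_lit 1))) ((rc k) (Nat.add n (Nat.sub (Nat.add (Nat.mod (Nat.shiftRight cT
    (Nat.mul (nat_lit 6) (Nat.mod (Nat.xor m13 (Nat.land m13 (Nat.sub m13 (nat_lit 1)))) (nat_lit 67)))) (nat_lit
    64)) (nat_lit 1)) n)) (Nat.lor A (Nat.lor (Nat.shiftLeft (Nat.shiftLeft (nat_lit 1) (Nat.mod (Nat.shiftRight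
    cT (Nat.mul (nat_lit 6) (Nat.mod (Nat.xor m13 (Nat.land m13 (Nat.sub m13 (nat_lit 1)))) (nat_lit 67))))
    (nat_lit 64))) (Nat.mul (nat_lit 64) (Nat.mod B (nat_lit 64)))) (Nat.shiftLeft (Nat.shiftLeft (nat_lit 1)
    (Nat.mod B (nat_lit 64))) (Nat.mul (nat_lit 64) (Nat.mod (Nat.shiftRight cT (Nat.mul (nat_lit 6) (Nat.mod
    (Nat.xor m13 (Nat.land m13 (Nat.sub m13 (nat_lit 1)))) (nat_lit 67)))) (nat_lit 64)))))) (Nat.lor D1 (Nat.mul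
    (Nat.sub (nat_lit 1) (Nat.mod (Nat.shiftRight (Nat.mod (Nat.shiftRight A (Nat.mul (nat_lit 64) (Nat.mod B
    (nat_lit 64)))) (nat_lit 9223372036854775808)) (Nat.mod (Nat.shiftRight cT (Nat.mul (nat_lit 6) (Nat.mod
    (Nat.xor m13 (Nat.land m13 (Nat.sub m13 (nat_lit 1)))) (nat_lit 67)))) (nat_lit 64))) (nat_lit 2))) (Nat.lor
    (Nat.shiftLeft (nat_lit 1) (Nat.mod B (nat_lit 64))) (Nat.shiftLeft (nat_lit 1) (Nat.mod (Nat.shiftRight cT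
    (Nat.mul (nat_lit 6) (Nat.mod (Nat.xor m13 (Nat.land m13 (Nat.sub m13 (nat_lit 1)))) (nat_lit 67)))) (nat_lit
    64)))))) (Nat.lor D2 (Nat.land D1 (Nat.mul (Nat.sub (nat_lit 1) (Nat.mod (Nat.shiftRight (Nat.mod
    (Nat.shiftRight A (Nat.mul (nat_lit 64) (Nat.mod B (nat_lit 64)))) (nat_lit 9223372036854775808)) (Nat.mod
    (Nat.shiftRight cT (Nat.mul (nat_lit 6) (Nat.mod (Nat.xor m13 (Nat.land m13 (Nat.sub m13 (nat_lit 1))))
    (nat_lit 67)))) (nat_lit 64))) (nat_lit 2))) (Nat.lor (Nat.shiftLeft (nat_lit 1) (Nat.mod B (nat_lit 64)))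
    (Nat.shiftLeft (nat_lit 1) (Nat.mod (Nat.shiftRight cT (Nat.mul (nat_lit 6) (Nat.mod (Nat.xor m13 (Nat.land
    m13 (Nat.sub m13 (nat_lit 1)))) (nat_lit 67)))) (nat_lit 64))))))) (Nat.lor D3 (Nat.land D2 (Nat.mul (Nat.sub
    (nat_lit 1) (Nat.mod (Nat.shiftRight (Nat.mod (Nat.shiftRight A (Nat.mul (nat_lit 64) (Nat.mod B (nat_lit
    64)))) (nat_lit 9223372036854775808)) (Nat.mod (Nat.shiftRight cT (Nat.mul (nat_lit 6) (Nat.mod (Nat.xor m13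
    (Nat.land m13 (Nat.sub m13 (nat_lit 1)))) (nat_lit 67)))) (nat_lit 64))) (nat_lit 2))) (Nat.lor (Nat.shiftLeft
    (nat_lit 1) (Nat.mod B (nat_lit 64))) (Nat.shiftLeft (nat_lit 1) (Nat.mod (Nat.shiftRight cT (Nat.mul (nat_lit
    6) (Nat.mod (Nat.xor m13 (Nat.land m13 (Nat.sub m13 (nat_lit 1)))) (nat_lit 67)))) (nat_lit 64))))))) Q B13))
    (Nat.mod (Nat.shiftRight B (nat_lit 6)) (nat_lit 64)) (Nat.xor (Nat.lor (Nat.mod (Nat.shiftRight A (Nat.mul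
    (nat_lit 64) (Nat.mod B (nat_lit 64)))) (nat_lit 9223372036854775808)) (Nat.mul (Nat.sub (nat_lit 1) (Nat.mod
    (Nat.shiftRight D3 (Nat.mod B (nat_lit 64))) (nat_lit 2))) (Nat.xor (Nat.sub (Nat.shiftLeft (nat_lit 2) n)
    (nat_lit 1)) D3))) (Nat.land (Nat.lor (Nat.mod (Nat.shiftRight A (Nat.mul (nat_lit 64) (Nat.mod B (nat_lit
    64)))) (nat_lit 9223372036854775808)) (Nat.mul (Nat.sub (nat_lit 1) (Nat.mod (Nat.shiftRight D3 (Nat.mod B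
    (nat_lit 64))) (nat_lit 2))) (Nat.xor (Nat.sub (Nat.shiftLeft (nat_lit 2) n) (nat_lit 1)) D3))) (Nat.lor
    (Nat.mod (Nat.shiftRight A (Nat.mul (nat_lit 64) (Nat.mod B (nat_lit 64)))) (nat_lit 9223372036854775808))
    (Nat.shiftLeft (nat_lit 1) (Nat.mod B (nat_lit 64)))))) (@Nat.rec (fun _ => Nat) (adS (Nat.mod B (nat_lit 64))
    (rc k) n A D1 D2 D3 Q (Nat.shiftRight B (nat_lit 12))) (fun _ _ => (Nat.shiftRight B (nat_lit 12))) (Nat.add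
    cl (Nat.add (Nat.mod (Nat.shiftRight Q (Nat.mod B (nat_lit 64))) (nat_lit 2)) (Nat.mod (Nat.shiftRight
    (Nat.mod (Nat.shiftRight A (Nat.mul (nat_lit 64) (Nat.mod B (nat_lit 64)))) (nat_lit 9223372036854775808))
    (nat_lit 62)) (nat_lit 2))))))

noncomputable def rFlagF (rc : Kc → Kc) (k : Kc) : Kc :=
    fun n A D1 D2 D3 Q B => rc k n A D1 D2 D3 (Nat.lor Q (Nat.shiftLeft (nat_lit 1) (Nat.mod B (nat_lit 64))))
    (adS (Nat.mod B (nat_lit 64)) (rc k) n A D1 D2 D3 Q (Nat.mul (Nat.shiftRight B (nat_lit 6)) (Nat.sub (nat_lit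
    1) (Nat.sub (Nat.add (Nat.mod B (nat_lit 64)) (nat_lit 1)) n))))

noncomputable def cutVF (cl e3 c3 t U O Z : Nat) : Nat :=
    (@Nat.rec (fun _ => Nat) (Nat.add (Nat.land Z (Nat.sub Z (nat_lit 1))) (Nat.add (Nat.sub (nat_lit 1) U)
    (Nat.sub (nat_lit 1) O))) (fun t' _ => (@Nat.rec (fun _ => Nat) (Nat.add (Nat.add (Nat.land (Nat.land Z
    (Nat.sub Z (nat_lit 1))) (Nat.sub (Nat.land Z (Nat.sub Z (nat_lit 1))) (nat_lit 1))) (Nat.sub (nat_lit 1) e3))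
    (Nat.add (Nat.sub (nat_lit 1) (Nat.land U (Nat.sub U (nat_lit 1)))) (Nat.add (Nat.sub (nat_lit 1) O) (Nat.sub
    (Nat.sub (nat_lit 1) (Nat.land O (Nat.sub O (nat_lit 1)))) cl)))) (fun _ _ => (Nat.add (Nat.add (Nat.land
    (Nat.land (Nat.land Z (Nat.sub Z (nat_lit 1))) (Nat.sub (Nat.land Z (Nat.sub Z (nat_lit 1))) (nat_lit 1)))
    (Nat.sub (Nat.land (Nat.land Z (Nat.sub Z (nat_lit 1))) (Nat.sub (Nat.land Z (Nat.sub Z (nat_lit 1))) (nat_lit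
    1))) (nat_lit 1))) (Nat.sub (nat_lit 1) c3)) (Nat.add (Nat.sub (nat_lit 1) (Nat.land (Nat.land (Nat.land U
    (Nat.sub U (nat_lit 1))) (Nat.sub (Nat.land U (Nat.sub U (nat_lit 1))) (nat_lit 1))) (Nat.sub (Nat.land
    (Nat.land U (Nat.sub U (nat_lit 1))) (Nat.sub (Nat.land U (Nat.sub U (nat_lit 1))) (nat_lit 1))) (nat_lit
    1)))) (Nat.sub (nat_lit 1) (Nat.land (Nat.land (Nat.land O (Nat.sub O (nat_lit 1))) (Nat.sub (Nat.land O
    (Nat.sub O (nat_lit 1))) (nat_lit 1))) (Nat.sub (Nat.land (Nat.land O (Nat.sub O (nat_lit 1))) (Nat.sub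
    (Nat.land O (Nat.sub O (nat_lit 1))) (nat_lit 1))) (nat_lit 1))))))) t')) t)

noncomputable def rCutF (cl e3 c3 n A B : Nat) : Nat :=
    (Nat.mul (Nat.shiftRight B (Nat.add n (nat_lit 2))) (Nat.sub (nat_lit 1) (Nat.add (Nat.xor (Nat.shiftLeft
    (Nat.land (Nat.mul (Nat.mod (Nat.shiftRight B (nat_lit 2)) (Nat.shiftLeft (nat_lit 1) n)) cM) cR) (nat_lit
    63)) (Nat.land (Nat.add (Nat.land (Nat.sub (Nat.lor (Nat.land A (Nat.mul (Nat.land (Nat.mul (Nat.mod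
    (Nat.shiftRight B (nat_lit 2)) (Nat.shiftLeft (nat_lit 1) n)) cM) cR) (Nat.lor (Nat.mod (Nat.shiftRight B
    (nat_lit 2)) (Nat.shiftLeft (nat_lit 1) n)) (nat_lit 4611686018427387904)))) cH) cR) (Nat.land A (Nat.mul
    (Nat.land (Nat.mul (Nat.mod (Nat.shiftRight B (nat_lit 2)) (Nat.shiftLeft (nat_lit 1) n)) cM) cR) (Nat.lor
    (Nat.mod (Nat.shiftRight B (nat_lit 2)) (Nat.shiftLeft (nat_lit 1) n)) (nat_lit 4611686018427387904))))) cK)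
    cH)) (cutVF cl e3 c3 (Nat.mod B (nat_lit 4)) (Nat.mod (Nat.shiftRight B (nat_lit 2)) (Nat.shiftLeft (nat_lit
    1) n)) (Nat.xor (Nat.sub (Nat.shiftLeft (nat_lit 1) n) (nat_lit 1)) (Nat.mod (Nat.shiftRight B (nat_lit 2))
    (Nat.shiftLeft (nat_lit 1) n))) (Nat.xor (Nat.shiftLeft (Nat.land (Nat.mul (Nat.mod (Nat.shiftRight B (nat_lit
    2)) (Nat.shiftLeft (nat_lit 1) n)) cM) cR) (nat_lit 63)) (Nat.land (Nat.add (Nat.land (Nat.sub (Nat.lor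
    (Nat.land (Nat.sub (Nat.lor (Nat.land A (Nat.mul (Nat.land (Nat.mul (Nat.mod (Nat.shiftRight B (nat_lit 2))
    (Nat.shiftLeft (nat_lit 1) n)) cM) cR) (Nat.lor (Nat.mod (Nat.shiftRight B (nat_lit 2)) (Nat.shiftLeft
    (nat_lit 1) n)) (nat_lit 4611686018427387904)))) cH) cR) (Nat.land A (Nat.mul (Nat.land (Nat.mul (Nat.mod
    (Nat.shiftRight B (nat_lit 2)) (Nat.shiftLeft (nat_lit 1) n)) cM) cR) (Nat.lor (Nat.mod (Nat.shiftRight B
    (nat_lit 2)) (Nat.shiftLeft (nat_lit 1) n)) (nat_lit 4611686018427387904))))) cH) cR) (Nat.land (Nat.sub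
    (Nat.lor (Nat.land A (Nat.mul (Nat.land (Nat.mul (Nat.mod (Nat.shiftRight B (nat_lit 2)) (Nat.shiftLeft
    (nat_lit 1) n)) cM) cR) (Nat.lor (Nat.mod (Nat.shiftRight B (nat_lit 2)) (Nat.shiftLeft (nat_lit 1) n))
    (nat_lit 4611686018427387904)))) cH) cR) (Nat.land A (Nat.mul (Nat.land (Nat.mul (Nat.mod (Nat.shiftRight B
    (nat_lit 2)) (Nat.shiftLeft (nat_lit 1) n)) cM) cR) (Nat.lor (Nat.mod (Nat.shiftRight B (nat_lit 2))
    (Nat.shiftLeft (nat_lit 1) n)) (nat_lit 4611686018427387904)))))) cK) cH))))))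

noncomputable def rFinF (fl : Nat) (rc : Kc → Kc) : Kc :=
    fun n A D1 D2 D3 Q B => adEF (Nat.mod (Nat.shiftRight cT (Nat.mul (nat_lit 6) (Nat.mod (Nat.xor (Nat.xor
    (Nat.sub (Nat.shiftLeft (nat_lit 1) n) (nat_lit 1)) D3) (Nat.land (Nat.xor (Nat.sub (Nat.shiftLeft (nat_lit 1)
    n) (nat_lit 1)) D3) (Nat.sub (Nat.xor (Nat.sub (Nat.shiftLeft (nat_lit 1) n) (nat_lit 1)) D3) (nat_lit 1))))
    (nat_lit 67)))) (nat_lit 64)) n (adEF (Nat.mod (Nat.shiftRight cT (Nat.mul (nat_lit 6) (Nat.mod (Nat.xor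
    (Nat.land (Nat.xor (Nat.sub (Nat.shiftLeft (nat_lit 1) n) (nat_lit 1)) D3) (Nat.sub (Nat.xor (Nat.sub
    (Nat.shiftLeft (nat_lit 1) n) (nat_lit 1)) D3) (nat_lit 1))) (Nat.land (Nat.land (Nat.xor (Nat.sub
    (Nat.shiftLeft (nat_lit 1) n) (nat_lit 1)) D3) (Nat.sub (Nat.xor (Nat.sub (Nat.shiftLeft (nat_lit 1) n)
    (nat_lit 1)) D3) (nat_lit 1))) (Nat.sub (Nat.land (Nat.xor (Nat.sub (Nat.shiftLeft (nat_lit 1) n) (nat_lit 1))
    D3) (Nat.sub (Nat.xor (Nat.sub (Nat.shiftLeft (nat_lit 1) n) (nat_lit 1)) D3) (nat_lit 1))) (nat_lit 1))))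
    (nat_lit 67)))) (nat_lit 64)) (Nat.add n (nat_lit 1)) (adEF (Nat.mod (Nat.shiftRight cT (Nat.mul (nat_lit 6)
    (Nat.mod (Nat.xor (Nat.land (Nat.land (Nat.xor (Nat.sub (Nat.shiftLeft (nat_lit 1) n) (nat_lit 1)) D3)
    (Nat.sub (Nat.xor (Nat.sub (Nat.shiftLeft (nat_lit 1) n) (nat_lit 1)) D3) (nat_lit 1))) (Nat.sub (Nat.land
    (Nat.xor (Nat.sub (Nat.shiftLeft (nat_lit 1) n) (nat_lit 1)) D3) (Nat.sub (Nat.xor (Nat.sub (Nat.shiftLeft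
    (nat_lit 1) n) (nat_lit 1)) D3) (nat_lit 1))) (nat_lit 1))) (Nat.land (Nat.land (Nat.land (Nat.xor (Nat.sub
    (Nat.shiftLeft (nat_lit 1) n) (nat_lit 1)) D3) (Nat.sub (Nat.xor (Nat.sub (Nat.shiftLeft (nat_lit 1) n)
    (nat_lit 1)) D3) (nat_lit 1))) (Nat.sub (Nat.land (Nat.xor (Nat.sub (Nat.shiftLeft (nat_lit 1) n) (nat_lit 1))
    D3) (Nat.sub (Nat.xor (Nat.sub (Nat.shiftLeft (nat_lit 1) n) (nat_lit 1)) D3) (nat_lit 1))) (nat_lit 1)))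
    (Nat.sub (Nat.land (Nat.land (Nat.xor (Nat.sub (Nat.shiftLeft (nat_lit 1) n) (nat_lit 1)) D3) (Nat.sub
    (Nat.xor (Nat.sub (Nat.shiftLeft (nat_lit 1) n) (nat_lit 1)) D3) (nat_lit 1))) (Nat.sub (Nat.land (Nat.xor
    (Nat.sub (Nat.shiftLeft (nat_lit 1) n) (nat_lit 1)) D3) (Nat.sub (Nat.xor (Nat.sub (Nat.shiftLeft (nat_lit 1)
    n) (nat_lit 1)) D3) (nat_lit 1))) (nat_lit 1))) (nat_lit 1)))) (nat_lit 67)))) (nat_lit 64)) (Nat.add n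
    (nat_lit 2)) (adEF n (Nat.add n (nat_lit 1)) (adEF n (Nat.add n (nat_lit 2)) (adEF (Nat.add n (nat_lit 1))
    (Nat.add n (nat_lit 2)) (rc k0)))))) n A D1 D2 D3 Q (adEF (Nat.mod (Nat.shiftRight cT (Nat.mul (nat_lit 6)
    (Nat.mod (Nat.xor (Nat.xor (Nat.sub (Nat.shiftLeft (nat_lit 1) n) (nat_lit 1)) D3) (Nat.land (Nat.xor (Nat.sub
    (Nat.shiftLeft (nat_lit 1) n) (nat_lit 1)) D3) (Nat.sub (Nat.xor (Nat.sub (Nat.shiftLeft (nat_lit 1) n)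
    (nat_lit 1)) D3) (nat_lit 1)))) (nat_lit 67)))) (nat_lit 64)) n (adEF (Nat.mod (Nat.shiftRight cT (Nat.mul
    (nat_lit 6) (Nat.mod (Nat.xor (Nat.land (Nat.xor (Nat.sub (Nat.shiftLeft (nat_lit 1) n) (nat_lit 1)) D3)
    (Nat.sub (Nat.xor (Nat.sub (Nat.shiftLeft (nat_lit 1) n) (nat_lit 1)) D3) (nat_lit 1))) (Nat.land (Nat.land
    (Nat.xor (Nat.sub (Nat.shiftLeft (nat_lit 1) n) (nat_lit 1)) D3) (Nat.sub (Nat.xor (Nat.sub (Nat.shiftLeft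
    (nat_lit 1) n) (nat_lit 1)) D3) (nat_lit 1))) (Nat.sub (Nat.land (Nat.xor (Nat.sub (Nat.shiftLeft (nat_lit 1)
    n) (nat_lit 1)) D3) (Nat.sub (Nat.xor (Nat.sub (Nat.shiftLeft (nat_lit 1) n) (nat_lit 1)) D3) (nat_lit 1)))
    (nat_lit 1)))) (nat_lit 67)))) (nat_lit 64)) n (adEF (Nat.mod (Nat.shiftRight cT (Nat.mul (nat_lit 6) (Nat.mod
    (Nat.xor (Nat.land (Nat.land (Nat.xor (Nat.sub (Nat.shiftLeft (nat_lit 1) n) (nat_lit 1)) D3) (Nat.sub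
    (Nat.xor (Nat.sub (Nat.shiftLeft (nat_lit 1) n) (nat_lit 1)) D3) (nat_lit 1))) (Nat.sub (Nat.land (Nat.xor
    (Nat.sub (Nat.shiftLeft (nat_lit 1) n) (nat_lit 1)) D3) (Nat.sub (Nat.xor (Nat.sub (Nat.shiftLeft (nat_lit 1)
    n) (nat_lit 1)) D3) (nat_lit 1))) (nat_lit 1))) (Nat.land (Nat.land (Nat.land (Nat.xor (Nat.sub (Nat.shiftLeft
    (nat_lit 1) n) (nat_lit 1)) D3) (Nat.sub (Nat.xor (Nat.sub (Nat.shiftLeft (nat_lit 1) n) (nat_lit 1)) D3)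
    (nat_lit 1))) (Nat.sub (Nat.land (Nat.xor (Nat.sub (Nat.shiftLeft (nat_lit 1) n) (nat_lit 1)) D3) (Nat.sub
    (Nat.xor (Nat.sub (Nat.shiftLeft (nat_lit 1) n) (nat_lit 1)) D3) (nat_lit 1))) (nat_lit 1))) (Nat.sub
    (Nat.land (Nat.land (Nat.xor (Nat.sub (Nat.shiftLeft (nat_lit 1) n) (nat_lit 1)) D3) (Nat.sub (Nat.xor
    (Nat.sub (Nat.shiftLeft (nat_lit 1) n) (nat_lit 1)) D3) (nat_lit 1))) (Nat.sub (Nat.land (Nat.xor (Nat.sub
    (Nat.shiftLeft (nat_lit 1) n) (nat_lit 1)) D3) (Nat.sub (Nat.xor (Nat.sub (Nat.shiftLeft (nat_lit 1) n)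
    (nat_lit 1)) D3) (nat_lit 1))) (nat_lit 1))) (nat_lit 1)))) (nat_lit 67)))) (nat_lit 64)) n (rc k0))) n A D1
    D2 D3 Q (Nat.mul B (Nat.sub (nat_lit 1) (Nat.add (Nat.add (Nat.xor D2 (Nat.sub (Nat.shiftLeft (nat_lit 1) n)
    (nat_lit 1))) (Nat.land (Nat.land (Nat.land (Nat.xor (Nat.sub (Nat.shiftLeft (nat_lit 1) n) (nat_lit 1)) D3)
    (Nat.sub (Nat.xor (Nat.sub (Nat.shiftLeft (nat_lit 1) n) (nat_lit 1)) D3) (nat_lit 1))) (Nat.sub (Nat.land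
    (Nat.xor (Nat.sub (Nat.shiftLeft (nat_lit 1) n) (nat_lit 1)) D3) (Nat.sub (Nat.xor (Nat.sub (Nat.shiftLeft
    (nat_lit 1) n) (nat_lit 1)) D3) (nat_lit 1))) (nat_lit 1))) (Nat.sub (Nat.land (Nat.land (Nat.xor (Nat.sub
    (Nat.shiftLeft (nat_lit 1) n) (nat_lit 1)) D3) (Nat.sub (Nat.xor (Nat.sub (Nat.shiftLeft (nat_lit 1) n)
    (nat_lit 1)) D3) (nat_lit 1))) (Nat.sub (Nat.land (Nat.xor (Nat.sub (Nat.shiftLeft (nat_lit 1) n) (nat_lit 1))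
    D3) (Nat.sub (Nat.xor (Nat.sub (Nat.shiftLeft (nat_lit 1) n) (nat_lit 1)) D3) (nat_lit 1))) (nat_lit 1)))
    (nat_lit 1)))) (Nat.add (Nat.add (Nat.sub (nat_lit 1) (Nat.land (Nat.land (Nat.xor (Nat.sub (Nat.shiftLeft
    (nat_lit 1) n) (nat_lit 1)) D3) (Nat.sub (Nat.xor (Nat.sub (Nat.shiftLeft (nat_lit 1) n) (nat_lit 1)) D3)
    (nat_lit 1))) (Nat.sub (Nat.land (Nat.xor (Nat.sub (Nat.shiftLeft (nat_lit 1) n) (nat_lit 1)) D3) (Nat.sub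
    (Nat.xor (Nat.sub (Nat.shiftLeft (nat_lit 1) n) (nat_lit 1)) D3) (nat_lit 1))) (nat_lit 1)))) (Nat.sub
    (nat_lit 3) fl)) (Nat.add (Nat.sub (nat_lit 4) n) (Nat.sub n (nat_lit 58))))))))

noncomputable def xNbF (NJ b2 r : Nat) (ih : Wc) (bd nd Sd Nd Fb Rg : Nat) : Kc :=
    fun n A D1 D2 D3 Q B => (@Nat.rec (fun _ => Nat → Nat → Nat) (fun m14 B14 => (Nat.mul B14 (Nat.sub (nat_lit 1)
    (Nat.add m14 (Nat.div n (nat_lit 62)))))) (fun _ ih14 m14 B14 => ih14 (Nat.land m14 (Nat.sub m14 (nat_lit 1)))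
    ((ih (Nat.sub bd (Nat.mul (Nat.sub bd b2) (Nat.mod (Nat.shiftRight NJ (Nat.mod (Nat.shiftRight cT (Nat.mul
    (nat_lit 6) (Nat.mod (Nat.xor m14 (Nat.land m14 (Nat.sub m14 (nat_lit 1)))) (nat_lit 67)))) (nat_lit 64)))
    (nat_lit 2)))) nd Sd Nd (Nat.lor Fb (Nat.shiftLeft (nat_lit 1) (Nat.mod (Nat.shiftRight cT (Nat.mul (nat_lit
    6) (Nat.mod (Nat.xor m14 (Nat.land m14 (Nat.sub m14 (nat_lit 1)))) (nat_lit 67)))) (nat_lit 64)))) (Nat.add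
    (Nat.mul Rg (nat_lit 64)) (Nat.mod (Nat.shiftRight cT (Nat.mul (nat_lit 6) (Nat.mod (Nat.xor m14 (Nat.land m14
    (Nat.sub m14 (nat_lit 1)))) (nat_lit 67)))) (nat_lit 64)))) (Nat.add n (Nat.sub (Nat.add (Nat.mod
    (Nat.shiftRight cT (Nat.mul (nat_lit 6) (Nat.mod (Nat.xor m14 (Nat.land m14 (Nat.sub m14 (nat_lit 1))))
    (nat_lit 67)))) (nat_lit 64)) (nat_lit 1)) n)) (Nat.lor A (Nat.lor (Nat.shiftLeft (Nat.shiftLeft (nat_lit 1)
    (Nat.mod (Nat.shiftRight cT (Nat.mul (nat_lit 6) (Nat.mod (Nat.xor m14 (Nat.land m14 (Nat.sub m14 (nat_lit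
    1)))) (nat_lit 67)))) (nat_lit 64))) (Nat.mul (nat_lit 64) (Nat.mod (Nat.shiftRight Rg (Nat.mul (nat_lit 6)
    r)) (nat_lit 64)))) (Nat.shiftLeft (Nat.shiftLeft (nat_lit 1) (Nat.mod (Nat.shiftRight Rg (Nat.mul (nat_lit 6)
    r)) (nat_lit 64))) (Nat.mul (nat_lit 64) (Nat.mod (Nat.shiftRight cT (Nat.mul (nat_lit 6) (Nat.mod (Nat.xor
    m14 (Nat.land m14 (Nat.sub m14 (nat_lit 1)))) (nat_lit 67)))) (nat_lit 64)))))) (Nat.lor D1 (Nat.mul (Nat.sub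
    (nat_lit 1) (Nat.mod (Nat.shiftRight (Nat.mod (Nat.shiftRight A (Nat.mul (nat_lit 64) (Nat.mod (Nat.shiftRight
    Rg (Nat.mul (nat_lit 6) r)) (nat_lit 64)))) (nat_lit 9223372036854775808)) (Nat.mod (Nat.shiftRight cT
    (Nat.mul (nat_lit 6) (Nat.mod (Nat.xor m14 (Nat.land m14 (Nat.sub m14 (nat_lit 1)))) (nat_lit 67)))) (nat_lit
    64))) (nat_lit 2))) (Nat.lor (Nat.shiftLeft (nat_lit 1) (Nat.mod (Nat.shiftRight Rg (Nat.mul (nat_lit 6) r))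
    (nat_lit 64))) (Nat.shiftLeft (nat_lit 1) (Nat.mod (Nat.shiftRight cT (Nat.mul (nat_lit 6) (Nat.mod (Nat.xor
    m14 (Nat.land m14 (Nat.sub m14 (nat_lit 1)))) (nat_lit 67)))) (nat_lit 64)))))) (Nat.lor D2 (Nat.land D1
    (Nat.mul (Nat.sub (nat_lit 1) (Nat.mod (Nat.shiftRight (Nat.mod (Nat.shiftRight A (Nat.mul (nat_lit 64)
    (Nat.mod (Nat.shiftRight Rg (Nat.mul (nat_lit 6) r)) (nat_lit 64)))) (nat_lit 9223372036854775808)) (Nat.mod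
    (Nat.shiftRight cT (Nat.mul (nat_lit 6) (Nat.mod (Nat.xor m14 (Nat.land m14 (Nat.sub m14 (nat_lit 1))))
    (nat_lit 67)))) (nat_lit 64))) (nat_lit 2))) (Nat.lor (Nat.shiftLeft (nat_lit 1) (Nat.mod (Nat.shiftRight Rg
    (Nat.mul (nat_lit 6) r)) (nat_lit 64))) (Nat.shiftLeft (nat_lit 1) (Nat.mod (Nat.shiftRight cT (Nat.mul
    (nat_lit 6) (Nat.mod (Nat.xor m14 (Nat.land m14 (Nat.sub m14 (nat_lit 1)))) (nat_lit 67)))) (nat_lit 64)))))))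
    (Nat.lor D3 (Nat.land D2 (Nat.mul (Nat.sub (nat_lit 1) (Nat.mod (Nat.shiftRight (Nat.mod (Nat.shiftRight A
    (Nat.mul (nat_lit 64) (Nat.mod (Nat.shiftRight Rg (Nat.mul (nat_lit 6) r)) (nat_lit 64)))) (nat_lit
    9223372036854775808)) (Nat.mod (Nat.shiftRight cT (Nat.mul (nat_lit 6) (Nat.mod (Nat.xor m14 (Nat.land m14
    (Nat.sub m14 (nat_lit 1)))) (nat_lit 67)))) (nat_lit 64))) (nat_lit 2))) (Nat.lor (Nat.shiftLeft (nat_lit 1)
    (Nat.mod (Nat.shiftRight Rg (Nat.mul (nat_lit 6) r)) (nat_lit 64))) (Nat.shiftLeft (nat_lit 1) (Nat.mod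
    (Nat.shiftRight cT (Nat.mul (nat_lit 6) (Nat.mod (Nat.xor m14 (Nat.land m14 (Nat.sub m14 (nat_lit 1))))
    (nat_lit 67)))) (nat_lit 64))))))) Q B14)) (Nat.mod B (nat_lit 64)) (Nat.xor (Nat.lor (Nat.mod (Nat.shiftRight
    A (Nat.mul (nat_lit 64) (Nat.mod (Nat.shiftRight Rg (Nat.mul (nat_lit 6) r)) (nat_lit 64)))) (nat_lit
    9223372036854775808)) (Nat.mul (Nat.sub (nat_lit 1) (Nat.mod (Nat.shiftRight D3 (Nat.mod (Nat.shiftRight Rg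
    (Nat.mul (nat_lit 6) r)) (nat_lit 64))) (nat_lit 2))) (Nat.xor (Nat.sub (Nat.shiftLeft (nat_lit 2) n) (nat_lit
    1)) D3))) (Nat.land (Nat.lor (Nat.mod (Nat.shiftRight A (Nat.mul (nat_lit 64) (Nat.mod (Nat.shiftRight Rg
    (Nat.mul (nat_lit 6) r)) (nat_lit 64)))) (nat_lit 9223372036854775808)) (Nat.mul (Nat.sub (nat_lit 1) (Nat.mod
    (Nat.shiftRight D3 (Nat.mod (Nat.shiftRight Rg (Nat.mul (nat_lit 6) r)) (nat_lit 64))) (nat_lit 2))) (Nat.xor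
    (Nat.sub (Nat.shiftLeft (nat_lit 2) n) (nat_lit 1)) D3))) (Nat.lor (Nat.lor Fb Nd) (Nat.mul (Nat.sub (Nat.sub
    nd b2) (Nat.sub (Nat.sub nd b2) (nat_lit 1))) NJ)))) (Nat.shiftRight B (nat_lit 6)))

noncomputable def xS1F (J NJ b2 : Nat) (ih : Wc) (bd nd Fb s m Nd : Nat) : Kc :=
    fun n A D1 D2 D3 Q B => (@Nat.rec (fun _ => Nat → Nat → Nat) (fun m15 B15 => (Nat.mul B15 (Nat.sub (nat_lit 1)
    (Nat.add m15 (Nat.div n (nat_lit 62)))))) (fun _ ih15 m15 B15 => ih15 (Nat.land m15 (Nat.sub m15 (nat_lit 1)))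
    ((ih (Nat.sub bd (Nat.mul (Nat.sub bd b2) (Nat.lor (Nat.mod (Nat.shiftRight J s) (nat_lit 2)) (Nat.mod
    (Nat.shiftRight NJ (Nat.mod (Nat.shiftRight cT (Nat.mul (nat_lit 6) (Nat.mod (Nat.xor m15 (Nat.land m15
    (Nat.sub m15 (nat_lit 1)))) (nat_lit 67)))) (nat_lit 64))) (nat_lit 2))))) nd m Nd (Nat.lor Fb (Nat.shiftLeft
    (nat_lit 1) (Nat.mod (Nat.shiftRight cT (Nat.mul (nat_lit 6) (Nat.mod (Nat.xor m15 (Nat.land m15 (Nat.sub m15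
    (nat_lit 1)))) (nat_lit 67)))) (nat_lit 64)))) (Nat.mod (Nat.shiftRight cT (Nat.mul (nat_lit 6) (Nat.mod
    (Nat.xor m15 (Nat.land m15 (Nat.sub m15 (nat_lit 1)))) (nat_lit 67)))) (nat_lit 64))) (Nat.add n (Nat.sub
    (Nat.add (Nat.mod (Nat.shiftRight cT (Nat.mul (nat_lit 6) (Nat.mod (Nat.xor m15 (Nat.land m15 (Nat.sub m15
    (nat_lit 1)))) (nat_lit 67)))) (nat_lit 64)) (nat_lit 1)) n)) (Nat.lor A (Nat.lor (Nat.shiftLeft
    (Nat.shiftLeft (nat_lit 1) (Nat.mod (Nat.shiftRight cT (Nat.mul (nat_lit 6) (Nat.mod (Nat.xor m15 (Nat.land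
    m15 (Nat.sub m15 (nat_lit 1)))) (nat_lit 67)))) (nat_lit 64))) (Nat.mul (nat_lit 64) s)) (Nat.shiftLeft
    (Nat.shiftLeft (nat_lit 1) s) (Nat.mul (nat_lit 64) (Nat.mod (Nat.shiftRight cT (Nat.mul (nat_lit 6) (Nat.mod
    (Nat.xor m15 (Nat.land m15 (Nat.sub m15 (nat_lit 1)))) (nat_lit 67)))) (nat_lit 64)))))) (Nat.lor D1 (Nat.mul
    (Nat.sub (nat_lit 1) (Nat.mod (Nat.shiftRight (Nat.mod (Nat.shiftRight A (Nat.mul (nat_lit 64) s)) (nat_lit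
    9223372036854775808)) (Nat.mod (Nat.shiftRight cT (Nat.mul (nat_lit 6) (Nat.mod (Nat.xor m15 (Nat.land m15
    (Nat.sub m15 (nat_lit 1)))) (nat_lit 67)))) (nat_lit 64))) (nat_lit 2))) (Nat.lor (Nat.shiftLeft (nat_lit 1)
    s) (Nat.shiftLeft (nat_lit 1) (Nat.mod (Nat.shiftRight cT (Nat.mul (nat_lit 6) (Nat.mod (Nat.xor m15 (Nat.land
    m15 (Nat.sub m15 (nat_lit 1)))) (nat_lit 67)))) (nat_lit 64)))))) (Nat.lor D2 (Nat.land D1 (Nat.mul (Nat.sub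
    (nat_lit 1) (Nat.mod (Nat.shiftRight (Nat.mod (Nat.shiftRight A (Nat.mul (nat_lit 64) s)) (nat_lit
    9223372036854775808)) (Nat.mod (Nat.shiftRight cT (Nat.mul (nat_lit 6) (Nat.mod (Nat.xor m15 (Nat.land m15
    (Nat.sub m15 (nat_lit 1)))) (nat_lit 67)))) (nat_lit 64))) (nat_lit 2))) (Nat.lor (Nat.shiftLeft (nat_lit 1)
    s) (Nat.shiftLeft (nat_lit 1) (Nat.mod (Nat.shiftRight cT (Nat.mul (nat_lit 6) (Nat.mod (Nat.xor m15 (Nat.land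
    m15 (Nat.sub m15 (nat_lit 1)))) (nat_lit 67)))) (nat_lit 64))))))) (Nat.lor D3 (Nat.land D2 (Nat.mul (Nat.sub
    (nat_lit 1) (Nat.mod (Nat.shiftRight (Nat.mod (Nat.shiftRight A (Nat.mul (nat_lit 64) s)) (nat_lit
    9223372036854775808)) (Nat.mod (Nat.shiftRight cT (Nat.mul (nat_lit 6) (Nat.mod (Nat.xor m15 (Nat.land m15
    (Nat.sub m15 (nat_lit 1)))) (nat_lit 67)))) (nat_lit 64))) (nat_lit 2))) (Nat.lor (Nat.shiftLeft (nat_lit 1)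
    s) (Nat.shiftLeft (nat_lit 1) (Nat.mod (Nat.shiftRight cT (Nat.mul (nat_lit 6) (Nat.mod (Nat.xor m15 (Nat.land
    m15 (Nat.sub m15 (nat_lit 1)))) (nat_lit 67)))) (nat_lit 64))))))) Q B15)) (Nat.mod B (nat_lit 64)) (Nat.xor
    (Nat.lor (Nat.mod (Nat.shiftRight A (Nat.mul (nat_lit 64) s)) (nat_lit 9223372036854775808)) (Nat.mul (Nat.sub
    (nat_lit 1) (Nat.mod (Nat.shiftRight D3 s) (nat_lit 2))) (Nat.xor (Nat.sub (Nat.shiftLeft (nat_lit 2) n)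
    (nat_lit 1)) D3))) (Nat.land (Nat.lor (Nat.mod (Nat.shiftRight A (Nat.mul (nat_lit 64) s)) (nat_lit
    9223372036854775808)) (Nat.mul (Nat.sub (nat_lit 1) (Nat.mod (Nat.shiftRight D3 s) (nat_lit 2))) (Nat.xor
    (Nat.sub (Nat.shiftLeft (nat_lit 2) n) (nat_lit 1)) D3))) (Nat.lor (Nat.lor Fb Nd) (Nat.mul (Nat.sub (Nat.sub
    nd b2) (Nat.sub (Nat.sub nd b2) (nat_lit 1))) NJ)))) (Nat.shiftRight B (nat_lit 6)))

noncomputable def xStF (S J NJ b2 : Nat) (ih : Wc) (bd nd Fb : Nat) : Kc :=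
    fun n A D1 D2 D3 Q B => @Nat.rec (fun _ => Nat → Nat → Nat → Nat) (fun m _ B1 => (Nat.mul B1 (Nat.sub (nat_lit
    1) m))) (fun _ r m Nd B1 => r (Nat.land m (Nat.sub m (nat_lit 1))) (Nat.lor Nd (Nat.mod (Nat.shiftRight A
    (Nat.mul (nat_lit 64) (Nat.mod (Nat.shiftRight cT (Nat.mul (nat_lit 6) (Nat.mod (Nat.xor m (Nat.land m
    (Nat.sub m (nat_lit 1)))) (nat_lit 67)))) (nat_lit 64)))) (nat_lit 9223372036854775808))) (xS1F J NJ b2 ih bd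
    nd Fb (Nat.mod (Nat.shiftRight cT (Nat.mul (nat_lit 6) (Nat.mod (Nat.xor m (Nat.land m (Nat.sub m (nat_lit
    1)))) (nat_lit 67)))) (nat_lit 64)) m Nd n A D1 D2 D3 Q B1)) (Nat.mod B (nat_lit 64)) (Nat.xor S (Nat.land S
    (Nat.mul (Nat.sub (Nat.sub nd b2) (Nat.sub (Nat.sub nd b2) (nat_lit 1))) J))) (nat_lit 0) (Nat.shiftRight B
    (nat_lit 6))

noncomputable def xSa1F (J b2 j : Nat) (ih : Wc) (bd nd Sd Nd Fb Rg : Nat) : Kc :=
    fun n A D1 D2 D3 Q B => (@Nat.rec (fun _ => Nat → Nat → Nat) (fun m16 B16 => (Nat.mul B16 (Nat.sub (nat_lit 1)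
    m16))) (fun _ ih16 m16 B16 => ih16 (Nat.land m16 (Nat.sub m16 (nat_lit 1))) ((ih (Nat.sub bd (Nat.mul (Nat.sub
    bd b2) (Nat.mod (Nat.shiftRight J (Nat.mod (Nat.shiftRight cT (Nat.mul (nat_lit 6) (Nat.mod (Nat.xor m16
    (Nat.land m16 (Nat.sub m16 (nat_lit 1)))) (nat_lit 67)))) (nat_lit 64))) (nat_lit 2)))) nd Sd Nd Fb Rg)
    (Nat.add n (Nat.sub (Nat.add (Nat.mod (Nat.shiftRight cT (Nat.mul (nat_lit 6) (Nat.mod (Nat.xor m16 (Nat.land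
    m16 (Nat.sub m16 (nat_lit 1)))) (nat_lit 67)))) (nat_lit 64)) (nat_lit 1)) n)) (Nat.lor A (Nat.lor
    (Nat.shiftLeft (Nat.shiftLeft (nat_lit 1) (Nat.mod (Nat.shiftRight cT (Nat.mul (nat_lit 6) (Nat.mod (Nat.xor
    m16 (Nat.land m16 (Nat.sub m16 (nat_lit 1)))) (nat_lit 67)))) (nat_lit 64))) (Nat.mul (nat_lit 64) j))
    (Nat.shiftLeft (Nat.shiftLeft (nat_lit 1) j) (Nat.mul (nat_lit 64) (Nat.mod (Nat.shiftRight cT (Nat.mul
    (nat_lit 6) (Nat.mod (Nat.xor m16 (Nat.land m16 (Nat.sub m16 (nat_lit 1)))) (nat_lit 67)))) (nat_lit 64))))))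
    (Nat.lor D1 (Nat.mul (Nat.sub (nat_lit 1) (Nat.mod (Nat.shiftRight (Nat.mod (Nat.shiftRight A (Nat.mul
    (nat_lit 64) j)) (nat_lit 9223372036854775808)) (Nat.mod (Nat.shiftRight cT (Nat.mul (nat_lit 6) (Nat.mod
    (Nat.xor m16 (Nat.land m16 (Nat.sub m16 (nat_lit 1)))) (nat_lit 67)))) (nat_lit 64))) (nat_lit 2))) (Nat.lor
    (Nat.shiftLeft (nat_lit 1) j) (Nat.shiftLeft (nat_lit 1) (Nat.mod (Nat.shiftRight cT (Nat.mul (nat_lit 6)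
    (Nat.mod (Nat.xor m16 (Nat.land m16 (Nat.sub m16 (nat_lit 1)))) (nat_lit 67)))) (nat_lit 64)))))) (Nat.lor D2
    (Nat.land D1 (Nat.mul (Nat.sub (nat_lit 1) (Nat.mod (Nat.shiftRight (Nat.mod (Nat.shiftRight A (Nat.mul
    (nat_lit 64) j)) (nat_lit 9223372036854775808)) (Nat.mod (Nat.shiftRight cT (Nat.mul (nat_lit 6) (Nat.mod
    (Nat.xor m16 (Nat.land m16 (Nat.sub m16 (nat_lit 1)))) (nat_lit 67)))) (nat_lit 64))) (nat_lit 2))) (Nat.lor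
    (Nat.shiftLeft (nat_lit 1) j) (Nat.shiftLeft (nat_lit 1) (Nat.mod (Nat.shiftRight cT (Nat.mul (nat_lit 6)
    (Nat.mod (Nat.xor m16 (Nat.land m16 (Nat.sub m16 (nat_lit 1)))) (nat_lit 67)))) (nat_lit 64))))))) (Nat.lor D3
    (Nat.land D2 (Nat.mul (Nat.sub (nat_lit 1) (Nat.mod (Nat.shiftRight (Nat.mod (Nat.shiftRight A (Nat.mul
    (nat_lit 64) j)) (nat_lit 9223372036854775808)) (Nat.mod (Nat.shiftRight cT (Nat.mul (nat_lit 6) (Nat.mod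
    (Nat.xor m16 (Nat.land m16 (Nat.sub m16 (nat_lit 1)))) (nat_lit 67)))) (nat_lit 64))) (nat_lit 2))) (Nat.lor
    (Nat.shiftLeft (nat_lit 1) j) (Nat.shiftLeft (nat_lit 1) (Nat.mod (Nat.shiftRight cT (Nat.mul (nat_lit 6)
    (Nat.mod (Nat.xor m16 (Nat.land m16 (Nat.sub m16 (nat_lit 1)))) (nat_lit 67)))) (nat_lit 64))))))) Q B16))
    (Nat.mod B (nat_lit 64)) (Nat.mul (Nat.xor Sd (Nat.land Sd (Nat.lor (Nat.lor D3 (Nat.mod (Nat.shiftRight A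
    (Nat.mul (nat_lit 64) j)) (nat_lit 9223372036854775808))) (Nat.mul (Nat.sub (Nat.sub nd b2) (Nat.sub (Nat.sub
    nd b2) (nat_lit 1))) J)))) (Nat.sub (nat_lit 1) (Nat.mod (Nat.shiftRight D3 j) (nat_lit 2)))) (Nat.shiftRight
    B (nat_lit 6)))

noncomputable def xSa2F (J b2 j : Nat) (ih : Wc) (bd nd Sd Nd Fb Rg : Nat) : Kc :=
    fun n A D1 D2 D3 Q B => (@Nat.rec (fun _ => Nat → Nat → Nat) (fun m17 B17 => (Nat.mul B17 (Nat.sub (nat_lit 1)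
    m17))) (fun _ ih17 m17 B17 => ih17 (Nat.land m17 (Nat.sub m17 (nat_lit 1))) (@Nat.rec (fun _ => Nat → Nat →
    Nat) (fun m18 B18 => (Nat.mul B18 (Nat.sub (nat_lit 1) m18))) (fun _ ih18 m18 B18 => ih18 (Nat.land m18
    (Nat.sub m18 (nat_lit 1))) ((adEF j (Nat.mod (Nat.shiftRight cT (Nat.mul (nat_lit 6) (Nat.mod (Nat.xor m18
    (Nat.land m18 (Nat.sub m18 (nat_lit 1)))) (nat_lit 67)))) (nat_lit 64)) (ih (Nat.sub bd (Nat.mul (Nat.sub bd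
    b2) (Nat.lor (Nat.mod (Nat.shiftRight J (Nat.mod (Nat.shiftRight cT (Nat.mul (nat_lit 6) (Nat.mod (Nat.xor m17
    (Nat.land m17 (Nat.sub m17 (nat_lit 1)))) (nat_lit 67)))) (nat_lit 64))) (nat_lit 2)) (Nat.mod (Nat.shiftRight
    J (Nat.mod (Nat.shiftRight cT (Nat.mul (nat_lit 6) (Nat.mod (Nat.xor m18 (Nat.land m18 (Nat.sub m18 (nat_lit
    1)))) (nat_lit 67)))) (nat_lit 64))) (nat_lit 2))))) nd Sd Nd Fb Rg)) (Nat.add n (Nat.sub (Nat.add (Nat.mod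
    (Nat.shiftRight cT (Nat.mul (nat_lit 6) (Nat.mod (Nat.xor m17 (Nat.land m17 (Nat.sub m17 (nat_lit 1))))
    (nat_lit 67)))) (nat_lit 64)) (nat_lit 1)) n)) (Nat.lor A (Nat.lor (Nat.shiftLeft (Nat.shiftLeft (nat_lit 1)
    (Nat.mod (Nat.shiftRight cT (Nat.mul (nat_lit 6) (Nat.mod (Nat.xor m17 (Nat.land m17 (Nat.sub m17 (nat_lit
    1)))) (nat_lit 67)))) (nat_lit 64))) (Nat.mul (nat_lit 64) j)) (Nat.shiftLeft (Nat.shiftLeft (nat_lit 1) j)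
    (Nat.mul (nat_lit 64) (Nat.mod (Nat.shiftRight cT (Nat.mul (nat_lit 6) (Nat.mod (Nat.xor m17 (Nat.land m17
    (Nat.sub m17 (nat_lit 1)))) (nat_lit 67)))) (nat_lit 64)))))) (Nat.lor D1 (Nat.mul (Nat.sub (nat_lit 1)
    (Nat.mod (Nat.shiftRight (Nat.mod (Nat.shiftRight A (Nat.mul (nat_lit 64) j)) (nat_lit 9223372036854775808))
    (Nat.mod (Nat.shiftRight cT (Nat.mul (nat_lit 6) (Nat.mod (Nat.xor m17 (Nat.land m17 (Nat.sub m17 (nat_lit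
    1)))) (nat_lit 67)))) (nat_lit 64))) (nat_lit 2))) (Nat.lor (Nat.shiftLeft (nat_lit 1) j) (Nat.shiftLeft
    (nat_lit 1) (Nat.mod (Nat.shiftRight cT (Nat.mul (nat_lit 6) (Nat.mod (Nat.xor m17 (Nat.land m17 (Nat.sub m17
    (nat_lit 1)))) (nat_lit 67)))) (nat_lit 64)))))) (Nat.lor D2 (Nat.land D1 (Nat.mul (Nat.sub (nat_lit 1)
    (Nat.mod (Nat.shiftRight (Nat.mod (Nat.shiftRight A (Nat.mul (nat_lit 64) j)) (nat_lit 9223372036854775808))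
    (Nat.mod (Nat.shiftRight cT (Nat.mul (nat_lit 6) (Nat.mod (Nat.xor m17 (Nat.land m17 (Nat.sub m17 (nat_lit
    1)))) (nat_lit 67)))) (nat_lit 64))) (nat_lit 2))) (Nat.lor (Nat.shiftLeft (nat_lit 1) j) (Nat.shiftLeft
    (nat_lit 1) (Nat.mod (Nat.shiftRight cT (Nat.mul (nat_lit 6) (Nat.mod (Nat.xor m17 (Nat.land m17 (Nat.sub m17
    (nat_lit 1)))) (nat_lit 67)))) (nat_lit 64))))))) (Nat.lor D3 (Nat.land D2 (Nat.mul (Nat.sub (nat_lit 1)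
    (Nat.mod (Nat.shiftRight (Nat.mod (Nat.shiftRight A (Nat.mul (nat_lit 64) j)) (nat_lit 9223372036854775808))
    (Nat.mod (Nat.shiftRight cT (Nat.mul (nat_lit 6) (Nat.mod (Nat.xor m17 (Nat.land m17 (Nat.sub m17 (nat_lit
    1)))) (nat_lit 67)))) (nat_lit 64))) (nat_lit 2))) (Nat.lor (Nat.shiftLeft (nat_lit 1) j) (Nat.shiftLeft
    (nat_lit 1) (Nat.mod (Nat.shiftRight cT (Nat.mul (nat_lit 6) (Nat.mod (Nat.xor m17 (Nat.land m17 (Nat.sub m17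
    (nat_lit 1)))) (nat_lit 67)))) (nat_lit 64))))))) Q B18)) (Nat.mod B17 (nat_lit 64)) (Nat.land m17 (Nat.sub
    m17 (nat_lit 1))) (Nat.shiftRight B17 (nat_lit 6)))) (Nat.mod B (nat_lit 64)) (Nat.mul (Nat.xor Sd (Nat.land
    Sd (Nat.lor (Nat.lor D3 (Nat.mod (Nat.shiftRight A (Nat.mul (nat_lit 64) j)) (nat_lit 9223372036854775808)))
    (Nat.mul (Nat.sub (Nat.sub nd b2) (Nat.sub (Nat.sub nd b2) (nat_lit 1))) J)))) (Nat.sub (nat_lit 1) (Nat.mod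
    (Nat.shiftRight D2 j) (nat_lit 2)))) (Nat.shiftRight B (nat_lit 6)))

noncomputable def xSaF (S J b2 m r : Nat) (ih : Wc) (bd nd Sd Nd Fb Rg : Nat) : Kc :=
    fun n A D1 D2 D3 Q B => (@Nat.rec (fun _ => Nat) (ih bd nd Sd Nd Fb Rg n A D1 D2 D3 Q B) (fun u _ => (@Nat.rec
    (fun _ => Nat) (xSa1F J b2 (Nat.mod (Nat.shiftRight Rg (Nat.mul (nat_lit 6) r)) (nat_lit 64)) ih bd nd Sd Nd
    Fb Rg n A D1 D2 D3 Q B) (fun u' _ => (@Nat.rec (fun _ => Nat) (xSa2F J b2 (Nat.mod (Nat.shiftRight Rg (Nat.mul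
    (nat_lit 6) r)) (nat_lit 64)) ih bd nd Sd Nd Fb Rg n A D1 D2 D3 Q B) (fun _ _ => (nat_lit 0)) u')) u))
    (Nat.sub m (Nat.add (Nat.sub (Nat.land (Nat.mod (Nat.shiftRight A (Nat.mul (nat_lit 64) (Nat.mod
    (Nat.shiftRight Rg (Nat.mul (nat_lit 6) r)) (nat_lit 64)))) (nat_lit 9223372036854775808)) S) (Nat.sub
    (Nat.land (Nat.mod (Nat.shiftRight A (Nat.mul (nat_lit 64) (Nat.mod (Nat.shiftRight Rg (Nat.mul (nat_lit 6)
    r)) (nat_lit 64)))) (nat_lit 9223372036854775808)) S) (nat_lit 1))) (Nat.add (Nat.sub (Nat.land (Nat.land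
    (Nat.mod (Nat.shiftRight A (Nat.mul (nat_lit 64) (Nat.mod (Nat.shiftRight Rg (Nat.mul (nat_lit 6) r)) (nat_lit
    64)))) (nat_lit 9223372036854775808)) S) (Nat.sub (Nat.land (Nat.mod (Nat.shiftRight A (Nat.mul (nat_lit 64)
    (Nat.mod (Nat.shiftRight Rg (Nat.mul (nat_lit 6) r)) (nat_lit 64)))) (nat_lit 9223372036854775808)) S)
    (nat_lit 1))) (Nat.sub (Nat.land (Nat.land (Nat.mod (Nat.shiftRight A (Nat.mul (nat_lit 64) (Nat.mod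
    (Nat.shiftRight Rg (Nat.mul (nat_lit 6) r)) (nat_lit 64)))) (nat_lit 9223372036854775808)) S) (Nat.sub
    (Nat.land (Nat.mod (Nat.shiftRight A (Nat.mul (nat_lit 64) (Nat.mod (Nat.shiftRight Rg (Nat.mul (nat_lit 6)
    r)) (nat_lit 64)))) (nat_lit 9223372036854775808)) S) (nat_lit 1))) (nat_lit 1))) (Nat.sub (Nat.land (Nat.land
    (Nat.land (Nat.mod (Nat.shiftRight A (Nat.mul (nat_lit 64) (Nat.mod (Nat.shiftRight Rg (Nat.mul (nat_lit 6)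
    r)) (nat_lit 64)))) (nat_lit 9223372036854775808)) S) (Nat.sub (Nat.land (Nat.mod (Nat.shiftRight A (Nat.mul
    (nat_lit 64) (Nat.mod (Nat.shiftRight Rg (Nat.mul (nat_lit 6) r)) (nat_lit 64)))) (nat_lit
    9223372036854775808)) S) (nat_lit 1))) (Nat.sub (Nat.land (Nat.land (Nat.mod (Nat.shiftRight A (Nat.mul
    (nat_lit 64) (Nat.mod (Nat.shiftRight Rg (Nat.mul (nat_lit 6) r)) (nat_lit 64)))) (nat_lit
    9223372036854775808)) S) (Nat.sub (Nat.land (Nat.mod (Nat.shiftRight A (Nat.mul (nat_lit 64) (Nat.mod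
    (Nat.shiftRight Rg (Nat.mul (nat_lit 6) r)) (nat_lit 64)))) (nat_lit 9223372036854775808)) S) (nat_lit 1)))
    (nat_lit 1))) (Nat.sub (Nat.land (Nat.land (Nat.land (Nat.mod (Nat.shiftRight A (Nat.mul (nat_lit 64) (Nat.mod
    (Nat.shiftRight Rg (Nat.mul (nat_lit 6) r)) (nat_lit 64)))) (nat_lit 9223372036854775808)) S) (Nat.sub
    (Nat.land (Nat.mod (Nat.shiftRight A (Nat.mul (nat_lit 64) (Nat.mod (Nat.shiftRight Rg (Nat.mul (nat_lit 6)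
    r)) (nat_lit 64)))) (nat_lit 9223372036854775808)) S) (nat_lit 1))) (Nat.sub (Nat.land (Nat.land (Nat.mod
    (Nat.shiftRight A (Nat.mul (nat_lit 64) (Nat.mod (Nat.shiftRight Rg (Nat.mul (nat_lit 6) r)) (nat_lit 64))))
    (nat_lit 9223372036854775808)) S) (Nat.sub (Nat.land (Nat.mod (Nat.shiftRight A (Nat.mul (nat_lit 64) (Nat.mod
    (Nat.shiftRight Rg (Nat.mul (nat_lit 6) r)) (nat_lit 64)))) (nat_lit 9223372036854775808)) S) (nat_lit 1)))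
    (nat_lit 1))) (nat_lit 1)))))))

noncomputable def cutF (rc : Kc → Kc) (k : Kc) : Kc :=
    fun n A D1 D2 D3 Q B => (@Nat.rec (fun _ => Nat) (k n A D1 D2 D3 Q B) (fun _ _ => rc k n A D1 D2 D3 Q
    (Nat.shiftRight B (nat_lit 6))) (Nat.div (Nat.mod B (nat_lit 64)) (nat_lit 63)))

noncomputable def nSaF (rc : Kc → Kc) (S J b2 m r : Nat) (ih : Wc) (bd nd Sd Nd Fb Rg : Nat) : Kc :=
    fun n A D1 D2 D3 Q B => (@Nat.rec (fun _ => Nat) (ih bd nd Sd Nd Fb Rg n A D1 D2 D3 Q B) (fun _ _ => cutF rc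
    (xSaF S J b2 m r ih bd nd Sd Nd Fb Rg) n A D1 D2 D3 Q B) (Nat.sub m (Nat.add (Nat.sub (Nat.land (Nat.mod
    (Nat.shiftRight A (Nat.mul (nat_lit 64) (Nat.mod (Nat.shiftRight Rg (Nat.mul (nat_lit 6) r)) (nat_lit 64))))
    (nat_lit 9223372036854775808)) S) (Nat.sub (Nat.land (Nat.mod (Nat.shiftRight A (Nat.mul (nat_lit 64) (Nat.mod
    (Nat.shiftRight Rg (Nat.mul (nat_lit 6) r)) (nat_lit 64)))) (nat_lit 9223372036854775808)) S) (nat_lit 1)))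
    (Nat.add (Nat.sub (Nat.land (Nat.land (Nat.mod (Nat.shiftRight A (Nat.mul (nat_lit 64) (Nat.mod
    (Nat.shiftRight Rg (Nat.mul (nat_lit 6) r)) (nat_lit 64)))) (nat_lit 9223372036854775808)) S) (Nat.sub
    (Nat.land (Nat.mod (Nat.shiftRight A (Nat.mul (nat_lit 64) (Nat.mod (Nat.shiftRight Rg (Nat.mul (nat_lit 6)
    r)) (nat_lit 64)))) (nat_lit 9223372036854775808)) S) (nat_lit 1))) (Nat.sub (Nat.land (Nat.land (Nat.mod
    (Nat.shiftRight A (Nat.mul (nat_lit 64) (Nat.mod (Nat.shiftRight Rg (Nat.mul (nat_lit 6) r)) (nat_lit 64))))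
    (nat_lit 9223372036854775808)) S) (Nat.sub (Nat.land (Nat.mod (Nat.shiftRight A (Nat.mul (nat_lit 64) (Nat.mod
    (Nat.shiftRight Rg (Nat.mul (nat_lit 6) r)) (nat_lit 64)))) (nat_lit 9223372036854775808)) S) (nat_lit 1)))
    (nat_lit 1))) (Nat.sub (Nat.land (Nat.land (Nat.land (Nat.mod (Nat.shiftRight A (Nat.mul (nat_lit 64) (Nat.mod
    (Nat.shiftRight Rg (Nat.mul (nat_lit 6) r)) (nat_lit 64)))) (nat_lit 9223372036854775808)) S) (Nat.sub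
    (Nat.land (Nat.mod (Nat.shiftRight A (Nat.mul (nat_lit 64) (Nat.mod (Nat.shiftRight Rg (Nat.mul (nat_lit 6)
    r)) (nat_lit 64)))) (nat_lit 9223372036854775808)) S) (nat_lit 1))) (Nat.sub (Nat.land (Nat.land (Nat.mod
    (Nat.shiftRight A (Nat.mul (nat_lit 64) (Nat.mod (Nat.shiftRight Rg (Nat.mul (nat_lit 6) r)) (nat_lit 64))))
    (nat_lit 9223372036854775808)) S) (Nat.sub (Nat.land (Nat.mod (Nat.shiftRight A (Nat.mul (nat_lit 64) (Nat.mod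
    (Nat.shiftRight Rg (Nat.mul (nat_lit 6) r)) (nat_lit 64)))) (nat_lit 9223372036854775808)) S) (nat_lit 1)))
    (nat_lit 1))) (Nat.sub (Nat.land (Nat.land (Nat.land (Nat.mod (Nat.shiftRight A (Nat.mul (nat_lit 64) (Nat.mod
    (Nat.shiftRight Rg (Nat.mul (nat_lit 6) r)) (nat_lit 64)))) (nat_lit 9223372036854775808)) S) (Nat.sub
    (Nat.land (Nat.mod (Nat.shiftRight A (Nat.mul (nat_lit 64) (Nat.mod (Nat.shiftRight Rg (Nat.mul (nat_lit 6)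
    r)) (nat_lit 64)))) (nat_lit 9223372036854775808)) S) (nat_lit 1))) (Nat.sub (Nat.land (Nat.land (Nat.mod
    (Nat.shiftRight A (Nat.mul (nat_lit 64) (Nat.mod (Nat.shiftRight Rg (Nat.mul (nat_lit 6) r)) (nat_lit 64))))
    (nat_lit 9223372036854775808)) S) (Nat.sub (Nat.land (Nat.mod (Nat.shiftRight A (Nat.mul (nat_lit 64) (Nat.mod
    (Nat.shiftRight Rg (Nat.mul (nat_lit 6) r)) (nat_lit 64)))) (nat_lit 9223372036854775808)) S) (nat_lit 1)))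
    (nat_lit 1))) (nat_lit 1)))))))

noncomputable def xEdF (r r' : Nat) (ih : Wc) (bd nd Sd Nd Fb Rg : Nat) : Kc :=
    fun n A D1 D2 D3 Q B => (@Nat.rec (fun _ => Nat) B (fun _ _ => ((ih bd nd Sd Nd Fb Rg) (Nat.add n (Nat.sub
    (Nat.add (Nat.mod (Nat.shiftRight Rg (Nat.mul (nat_lit 6) r')) (nat_lit 64)) (nat_lit 1)) n)) (Nat.lor A
    (Nat.lor (Nat.shiftLeft (Nat.shiftLeft (nat_lit 1) (Nat.mod (Nat.shiftRight Rg (Nat.mul (nat_lit 6) r'))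
    (nat_lit 64))) (Nat.mul (nat_lit 64) (Nat.mod (Nat.shiftRight Rg (Nat.mul (nat_lit 6) r)) (nat_lit 64))))
    (Nat.shiftLeft (Nat.shiftLeft (nat_lit 1) (Nat.mod (Nat.shiftRight Rg (Nat.mul (nat_lit 6) r)) (nat_lit 64)))
    (Nat.mul (nat_lit 64) (Nat.mod (Nat.shiftRight Rg (Nat.mul (nat_lit 6) r')) (nat_lit 64)))))) (Nat.lor D1
    (Nat.mul (Nat.sub (nat_lit 1) (Nat.mod (Nat.shiftRight (Nat.mod (Nat.shiftRight A (Nat.mul (nat_lit 64)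
    (Nat.mod (Nat.shiftRight Rg (Nat.mul (nat_lit 6) r)) (nat_lit 64)))) (nat_lit 9223372036854775808)) (Nat.mod
    (Nat.shiftRight Rg (Nat.mul (nat_lit 6) r')) (nat_lit 64))) (nat_lit 2))) (Nat.lor (Nat.shiftLeft (nat_lit 1)
    (Nat.mod (Nat.shiftRight Rg (Nat.mul (nat_lit 6) r)) (nat_lit 64))) (Nat.shiftLeft (nat_lit 1) (Nat.mod
    (Nat.shiftRight Rg (Nat.mul (nat_lit 6) r')) (nat_lit 64)))))) (Nat.lor D2 (Nat.land D1 (Nat.mul (Nat.sub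
    (nat_lit 1) (Nat.mod (Nat.shiftRight (Nat.mod (Nat.shiftRight A (Nat.mul (nat_lit 64) (Nat.mod (Nat.shiftRight
    Rg (Nat.mul (nat_lit 6) r)) (nat_lit 64)))) (nat_lit 9223372036854775808)) (Nat.mod (Nat.shiftRight Rg
    (Nat.mul (nat_lit 6) r')) (nat_lit 64))) (nat_lit 2))) (Nat.lor (Nat.shiftLeft (nat_lit 1) (Nat.mod
    (Nat.shiftRight Rg (Nat.mul (nat_lit 6) r)) (nat_lit 64))) (Nat.shiftLeft (nat_lit 1) (Nat.mod (Nat.shiftRight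
    Rg (Nat.mul (nat_lit 6) r')) (nat_lit 64))))))) (Nat.lor D3 (Nat.land D2 (Nat.mul (Nat.sub (nat_lit 1)
    (Nat.mod (Nat.shiftRight (Nat.mod (Nat.shiftRight A (Nat.mul (nat_lit 64) (Nat.mod (Nat.shiftRight Rg (Nat.mul
    (nat_lit 6) r)) (nat_lit 64)))) (nat_lit 9223372036854775808)) (Nat.mod (Nat.shiftRight Rg (Nat.mul (nat_lit
    6) r')) (nat_lit 64))) (nat_lit 2))) (Nat.lor (Nat.shiftLeft (nat_lit 1) (Nat.mod (Nat.shiftRight Rg (Nat.mul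
    (nat_lit 6) r)) (nat_lit 64))) (Nat.shiftLeft (nat_lit 1) (Nat.mod (Nat.shiftRight Rg (Nat.mul (nat_lit 6)
    r')) (nat_lit 64))))))) Q B)) (Nat.mod (Nat.shiftRight (Nat.lor (Nat.mod (Nat.shiftRight A (Nat.mul (nat_lit
    64) (Nat.mod (Nat.shiftRight Rg (Nat.mul (nat_lit 6) r)) (nat_lit 64)))) (nat_lit 9223372036854775808))
    (Nat.mul (Nat.sub (nat_lit 1) (Nat.mod (Nat.shiftRight D3 (Nat.mod (Nat.shiftRight Rg (Nat.mul (nat_lit 6) r))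
    (nat_lit 64))) (nat_lit 2))) (Nat.xor (Nat.sub (Nat.shiftLeft (nat_lit 2) n) (nat_lit 1)) D3))) (Nat.mod
    (Nat.shiftRight Rg (Nat.mul (nat_lit 6) r')) (nat_lit 64))) (nat_lit 2)))

noncomputable def xSbF (cl r : Nat) (ih : Wc) (bd nd Sd Nd Fb Rg : Nat) : Kc :=
    fun n A D1 D2 D3 Q B => (@Nat.rec (fun _ => Nat) (adS (Nat.mod (Nat.shiftRight Rg (Nat.mul (nat_lit 6) r))
    (nat_lit 64)) (ih bd nd Sd Nd Fb Rg) n A D1 D2 D3 Q B) (fun _ _ => B) (Nat.mul (Nat.sub (nat_lit 1) (Nat.mod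
    (Nat.shiftRight (Nat.mod (Nat.shiftRight A (Nat.mul (nat_lit 64) (Nat.mod (Nat.shiftRight Rg (Nat.mul (nat_lit
    6) r)) (nat_lit 64)))) (nat_lit 9223372036854775808)) (nat_lit 62)) (nat_lit 2))) (Nat.add cl (Nat.add
    (Nat.mod (Nat.shiftRight D3 (Nat.mod (Nat.shiftRight Rg (Nat.mul (nat_lit 6) r)) (nat_lit 64))) (nat_lit 2))
    (Nat.mod (Nat.shiftRight Q (Nat.mod (Nat.shiftRight Rg (Nat.mul (nat_lit 6) r)) (nat_lit 64))) (nat_lit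
    2))))))

noncomputable def xNsF (S q r : Nat) (ih : Wc) (bd nd Sd Nd Fb Rg : Nat) : Kc :=
    fun n A D1 D2 D3 Q B => (@Nat.rec (fun _ => Nat) (ih bd nd Sd Nd Fb Rg n A D1 D2 D3 (Nat.lor Q (Nat.shiftLeft
    q (Nat.mod (Nat.shiftRight Rg (Nat.mul (nat_lit 6) r)) (nat_lit 64)))) B) (fun _ _ => B) (Nat.land (Nat.mod
    (Nat.shiftRight A (Nat.mul (nat_lit 64) (Nat.mod (Nat.shiftRight Rg (Nat.mul (nat_lit 6) r)) (nat_lit 64))))
    (nat_lit 9223372036854775808)) (Nat.lor S (Nat.shiftLeft q (nat_lit 62)))))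

noncomputable def nxtF (rc : Kc → Kc) (cl f S J NJ b2 : Nat) (T : Td) : Wc :=
    @Td.rec (fun _ => Wc) (fun _ _ _ _ _ _ => rc k0)
    (fun g _ _ _ _ _ _ _ _ _ _ _ _ B => (Nat.mul B (Nat.sub (nat_lit 1) (Nat.sub (Nat.add g (nat_lit 1)) f))))
    (fun _ ih bd nd Sd Nd Fb Rg => rc (ih bd nd Sd Nd Fb Rg))
    (fun _ ih bd nd _ _ Fb _ => cutF rc (xStF S J NJ b2 ih bd nd Fb))
    (fun r _ ih bd nd Sd Nd Fb Rg => cutF rc (xNbF NJ b2 r ih bd nd Sd Nd Fb Rg))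
    (fun m r _ ih => nSaF rc S J b2 m r ih)
    (fun r r' _ ih => xEdF r r' ih)
    (fun r _ ih => xSbF cl r ih)
    (fun q r _ ih => xNsF S q r ih)
    (fun d _ ih bd nd Sd Nd Fb Rg n A D1 D2 D3 Q B => @Bool.rec (fun _ => Nat) B (ih bd (Nat.add nd d) Sd Nd Fb Rg
    n A D1 D2 D3 Q B) (Nat.ble (Nat.add nd d) bd))
    (fun _ _ ih ih' bd nd Sd Nd Fb Rg n A D1 D2 D3 Q B => ih' bd nd Sd Nd Fb Rg n A D1 D2 D3 Q (ih bd nd Sd Nd Fb
    Rg n A D1 D2 D3 Q B))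
    (fun _ ih bd nd _ _ Fb Rg => ih bd nd S (nat_lit 0) Fb Rg)
    (fun _ ih bd nd Sd Nd Fb Rg => ih bd nd Sd Nd Fb (Nat.div Rg (nat_lit 64))) T

noncomputable def alVF (A M K F h N v : Nat) : Nat :=
    (Nat.mod (Nat.shiftRight cA (Nat.mul (nat_lit 6) (Nat.add (Nat.add (Nat.mul (nat_lit 4) (Nat.add (Nat.sub
    (nat_lit 1) (Nat.mod (Nat.shiftRight K v) (nat_lit 2))) (Nat.add (Nat.mul (nat_lit 2) (Nat.mod (Nat.shiftRight
    F v) (nat_lit 2))) (Nat.mul (nat_lit 3) (Nat.mod (Nat.shiftRight h v) (nat_lit 2)))))) (Nat.add (Nat.sub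
    (Nat.land (Nat.mod (Nat.shiftRight A (Nat.mul (nat_lit 64) v)) (nat_lit 9223372036854775808)) (Nat.lor M
    (nat_lit 4611686018427387904))) (Nat.sub (Nat.land (Nat.mod (Nat.shiftRight A (Nat.mul (nat_lit 64) v))
    (nat_lit 9223372036854775808)) (Nat.lor M (nat_lit 4611686018427387904))) (nat_lit 1))) (Nat.add (Nat.sub
    (Nat.land (Nat.land (Nat.mod (Nat.shiftRight A (Nat.mul (nat_lit 64) v)) (nat_lit 9223372036854775808))
    (Nat.lor M (nat_lit 4611686018427387904))) (Nat.sub (Nat.land (Nat.mod (Nat.shiftRight A (Nat.mul (nat_lit 64)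
    v)) (nat_lit 9223372036854775808)) (Nat.lor M (nat_lit 4611686018427387904))) (nat_lit 1))) (Nat.sub (Nat.land
    (Nat.land (Nat.mod (Nat.shiftRight A (Nat.mul (nat_lit 64) v)) (nat_lit 9223372036854775808)) (Nat.lor M
    (nat_lit 4611686018427387904))) (Nat.sub (Nat.land (Nat.mod (Nat.shiftRight A (Nat.mul (nat_lit 64) v))
    (nat_lit 9223372036854775808)) (Nat.lor M (nat_lit 4611686018427387904))) (nat_lit 1))) (nat_lit 1))) (Nat.sub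
    (Nat.land (Nat.land (Nat.land (Nat.mod (Nat.shiftRight A (Nat.mul (nat_lit 64) v)) (nat_lit
    9223372036854775808)) (Nat.lor M (nat_lit 4611686018427387904))) (Nat.sub (Nat.land (Nat.mod (Nat.shiftRight A
    (Nat.mul (nat_lit 64) v)) (nat_lit 9223372036854775808)) (Nat.lor M (nat_lit 4611686018427387904))) (nat_lit
    1))) (Nat.sub (Nat.land (Nat.land (Nat.mod (Nat.shiftRight A (Nat.mul (nat_lit 64) v)) (nat_lit
    9223372036854775808)) (Nat.lor M (nat_lit 4611686018427387904))) (Nat.sub (Nat.land (Nat.mod (Nat.shiftRight A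
    (Nat.mul (nat_lit 64) v)) (nat_lit 9223372036854775808)) (Nat.lor M (nat_lit 4611686018427387904))) (nat_lit
    1))) (nat_lit 1))) (Nat.sub (Nat.land (Nat.land (Nat.land (Nat.mod (Nat.shiftRight A (Nat.mul (nat_lit 64) v))
    (nat_lit 9223372036854775808)) (Nat.lor M (nat_lit 4611686018427387904))) (Nat.sub (Nat.land (Nat.mod
    (Nat.shiftRight A (Nat.mul (nat_lit 64) v)) (nat_lit 9223372036854775808)) (Nat.lor M (nat_lit
    4611686018427387904))) (nat_lit 1))) (Nat.sub (Nat.land (Nat.land (Nat.mod (Nat.shiftRight A (Nat.mul (nat_lit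
    64) v)) (nat_lit 9223372036854775808)) (Nat.lor M (nat_lit 4611686018427387904))) (Nat.sub (Nat.land (Nat.mod
    (Nat.shiftRight A (Nat.mul (nat_lit 64) v)) (nat_lit 9223372036854775808)) (Nat.lor M (nat_lit
    4611686018427387904))) (nat_lit 1))) (nat_lit 1))) (nat_lit 1)))))) (Nat.mul (nat_lit 16) (Nat.mod
    (Nat.shiftRight N v) (nat_lit 2)))))) (nat_lit 64))

noncomputable def klVF (A M K F h C v : Nat) : Nat :=
    (Nat.mod (Nat.shiftRight cW (Nat.mul (nat_lit 6) (Nat.add (Nat.add (Nat.mod (Nat.shiftRight C (Nat.mul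
    (nat_lit 2) v)) (nat_lit 4)) (Nat.mul (nat_lit 4) (Nat.mod (Nat.shiftRight C (Nat.mul (nat_lit 2) (Nat.mod
    (Nat.shiftRight cT (Nat.mul (nat_lit 6) (Nat.mod (Nat.xor (Nat.land (Nat.mod (Nat.shiftRight A (Nat.mul
    (nat_lit 64) v)) (nat_lit 9223372036854775808)) (Nat.lor M (nat_lit 4611686018427387904))) (Nat.land (Nat.land
    (Nat.mod (Nat.shiftRight A (Nat.mul (nat_lit 64) v)) (nat_lit 9223372036854775808)) (Nat.lor M (nat_lit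
    4611686018427387904))) (Nat.sub (Nat.land (Nat.mod (Nat.shiftRight A (Nat.mul (nat_lit 64) v)) (nat_lit
    9223372036854775808)) (Nat.lor M (nat_lit 4611686018427387904))) (nat_lit 1)))) (nat_lit 67)))) (nat_lit
    64)))) (nat_lit 4)))) (Nat.add (Nat.add (Nat.mul (nat_lit 16) (Nat.mod (Nat.shiftRight C (Nat.mul (nat_lit 2)
    (Nat.mod (Nat.shiftRight cT (Nat.mul (nat_lit 6) (Nat.mod (Nat.xor (Nat.land (Nat.land (Nat.mod
    (Nat.shiftRight A (Nat.mul (nat_lit 64) v)) (nat_lit 9223372036854775808)) (Nat.lor M (nat_lit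
    4611686018427387904))) (Nat.sub (Nat.land (Nat.mod (Nat.shiftRight A (Nat.mul (nat_lit 64) v)) (nat_lit
    9223372036854775808)) (Nat.lor M (nat_lit 4611686018427387904))) (nat_lit 1))) (Nat.land (Nat.land (Nat.land
    (Nat.mod (Nat.shiftRight A (Nat.mul (nat_lit 64) v)) (nat_lit 9223372036854775808)) (Nat.lor M (nat_lit
    4611686018427387904))) (Nat.sub (Nat.land (Nat.mod (Nat.shiftRight A (Nat.mul (nat_lit 64) v)) (nat_lit
    9223372036854775808)) (Nat.lor M (nat_lit 4611686018427387904))) (nat_lit 1))) (Nat.sub (Nat.land (Nat.land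
    (Nat.mod (Nat.shiftRight A (Nat.mul (nat_lit 64) v)) (nat_lit 9223372036854775808)) (Nat.lor M (nat_lit
    4611686018427387904))) (Nat.sub (Nat.land (Nat.mod (Nat.shiftRight A (Nat.mul (nat_lit 64) v)) (nat_lit
    9223372036854775808)) (Nat.lor M (nat_lit 4611686018427387904))) (nat_lit 1))) (nat_lit 1)))) (nat_lit 67))))
    (nat_lit 64)))) (nat_lit 4))) (Nat.mul (nat_lit 64) (Nat.mod (Nat.shiftRight C (Nat.mul (nat_lit 2) (Nat.mod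
    (Nat.shiftRight cT (Nat.mul (nat_lit 6) (Nat.mod (Nat.xor (Nat.land (Nat.land (Nat.land (Nat.mod
    (Nat.shiftRight A (Nat.mul (nat_lit 64) v)) (nat_lit 9223372036854775808)) (Nat.lor M (nat_lit
    4611686018427387904))) (Nat.sub (Nat.land (Nat.mod (Nat.shiftRight A (Nat.mul (nat_lit 64) v)) (nat_lit
    9223372036854775808)) (Nat.lor M (nat_lit 4611686018427387904))) (nat_lit 1))) (Nat.sub (Nat.land (Nat.land
    (Nat.mod (Nat.shiftRight A (Nat.mul (nat_lit 64) v)) (nat_lit 9223372036854775808)) (Nat.lor M (nat_lit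
    4611686018427387904))) (Nat.sub (Nat.land (Nat.mod (Nat.shiftRight A (Nat.mul (nat_lit 64) v)) (nat_lit
    9223372036854775808)) (Nat.lor M (nat_lit 4611686018427387904))) (nat_lit 1))) (nat_lit 1))) (Nat.land
    (Nat.land (Nat.land (Nat.land (Nat.mod (Nat.shiftRight A (Nat.mul (nat_lit 64) v)) (nat_lit
    9223372036854775808)) (Nat.lor M (nat_lit 4611686018427387904))) (Nat.sub (Nat.land (Nat.mod (Nat.shiftRight A
    (Nat.mul (nat_lit 64) v)) (nat_lit 9223372036854775808)) (Nat.lor M (nat_lit 4611686018427387904))) (nat_lit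
    1))) (Nat.sub (Nat.land (Nat.land (Nat.mod (Nat.shiftRight A (Nat.mul (nat_lit 64) v)) (nat_lit
    9223372036854775808)) (Nat.lor M (nat_lit 4611686018427387904))) (Nat.sub (Nat.land (Nat.mod (Nat.shiftRight A
    (Nat.mul (nat_lit 64) v)) (nat_lit 9223372036854775808)) (Nat.lor M (nat_lit 4611686018427387904))) (nat_lit
    1))) (nat_lit 1))) (Nat.sub (Nat.land (Nat.land (Nat.land (Nat.mod (Nat.shiftRight A (Nat.mul (nat_lit 64) v))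
    (nat_lit 9223372036854775808)) (Nat.lor M (nat_lit 4611686018427387904))) (Nat.sub (Nat.land (Nat.mod
    (Nat.shiftRight A (Nat.mul (nat_lit 64) v)) (nat_lit 9223372036854775808)) (Nat.lor M (nat_lit
    4611686018427387904))) (nat_lit 1))) (Nat.sub (Nat.land (Nat.land (Nat.mod (Nat.shiftRight A (Nat.mul (nat_lit
    64) v)) (nat_lit 9223372036854775808)) (Nat.lor M (nat_lit 4611686018427387904))) (Nat.sub (Nat.land (Nat.mod
    (Nat.shiftRight A (Nat.mul (nat_lit 64) v)) (nat_lit 9223372036854775808)) (Nat.lor M (nat_lit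
    4611686018427387904))) (nat_lit 1))) (nat_lit 1))) (nat_lit 1)))) (nat_lit 67)))) (nat_lit 64)))) (nat_lit
    4)))) (Nat.mul (nat_lit 256) (Nat.add (Nat.sub (nat_lit 1) (Nat.mod (Nat.shiftRight K v) (nat_lit 2)))
    (Nat.add (Nat.mul (nat_lit 2) (Nat.mod (Nat.shiftRight F v) (nat_lit 2))) (Nat.mul (nat_lit 3) (Nat.mod
    (Nat.shiftRight h v) (nat_lit 2)))))))))) (nat_lit 64))

noncomputable def horF (g : Nat → Nat) (c : Nat) : Nat → Nat :=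
    @Nat.rec (fun _ => Nat → Nat) (fun _ => (nat_lit 0)) (fun _ ih m => (Nat.add (g (Nat.mod (Nat.shiftRight cT
    (Nat.mul (nat_lit 6) (Nat.mod (Nat.xor m (Nat.land m (Nat.sub m (nat_lit 1)))) (nat_lit 67)))) (nat_lit 64)))
    (Nat.mul (nat_lit 64) (ih (Nat.land m (Nat.sub m (nat_lit 1))))))) c

noncomputable def shpF (g : Nat → Nat) (c : Nat) : Nat → Nat :=
    @Nat.rec (fun _ => Nat → Nat) (fun m => m) (fun _ ih m => (Nat.add (Nat.sub (nat_lit 1) (g (Nat.mod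
    (Nat.shiftRight cT (Nat.mul (nat_lit 6) (Nat.mod (Nat.xor m (Nat.land m (Nat.sub m (nat_lit 1)))) (nat_lit
    67)))) (nat_lit 64)))) (ih (Nat.land m (Nat.sub m (nat_lit 1)))))) c

noncomputable def kqF (n A M K F h c CL q : Nat) : Nat :=
    horF (klVF A M K F h (Nat.lor (Nat.mod (Nat.shiftRight CL (Nat.mul (Nat.mul (nat_lit 2) n) q)) (Nat.shiftLeft
    (nat_lit 1) (Nat.mul (nat_lit 2) n))) (nat_lit 63802943797675961899382738893456539648))) c M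

noncomputable def treF (kl : Nat → Nat) (fuel : Nat) : Nat → Nat → Nat :=
    @Nat.rec (fun _ => Nat → Nat → Nat) (fun _ _ => (nat_lit 0)) (fun _ r al B => (@Nat.rec (fun _ => Nat)
    (@Nat.rec (fun _ => Nat) (nat_lit 0) (fun q _ => (Nat.mul (Nat.shiftRight B (nat_lit 15)) (Nat.sub (nat_lit 1)
    (Nat.land al (kl q))))) (Nat.add (Nat.mod (Nat.shiftRight B (nat_lit 1)) (nat_lit 16384)) (nat_lit 1))) (fun _
    _ => @Nat.rec (fun _ => Nat) (Nat.mul (Nat.shiftRight B (Nat.add (Nat.mod (Nat.shiftRight B (nat_lit 13))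
    (nat_lit 16777216)) (nat_lit 37))) (Nat.sub (nat_lit 1) (Nat.sub (nat_lit 1) (r al (Nat.mod (Nat.shiftRight B
    (nat_lit 37)) (Nat.shiftLeft (nat_lit 1) (Nat.mod (Nat.shiftRight B (nat_lit 13)) (nat_lit 16777216))))))))
    (fun _ _ => r (Nat.xor al (Nat.land al (Nat.shiftLeft (Nat.xor (nat_lit 63) (Nat.mod (Nat.shiftRight B (nat_lit 7))
    (nat_lit 64))) (Nat.mul (nat_lit 6) (Nat.mod (Nat.shiftRight B (nat_lit 1)) (nat_lit 64)))))) (r (Nat.xor al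
    (Nat.land al (Nat.shiftLeft (Nat.mod (Nat.shiftRight B (nat_lit 7)) (nat_lit 64)) (Nat.mul (nat_lit 6)
    (Nat.mod (Nat.shiftRight B (nat_lit 1)) (nat_lit 64)))))) (Nat.shiftRight B (nat_lit 13)))) (Nat.mod (Nat.shiftRight B (nat_lit 7)) (nat_lit 64))) (Nat.mod B
    (nat_lit 2)))) fuel

noncomputable def tabF (n A M K F h N v B : Nat) : Nat :=
    treF (kqF n A M K F h (Nat.mod B (nat_lit 64)) (Nat.mod (Nat.shiftRight B (nat_lit 20)) (Nat.shiftLeft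
    (nat_lit 1) (Nat.mul (Nat.mul (nat_lit 2) n) (Nat.mod (Nat.shiftRight B (nat_lit 6)) (nat_lit 16384))))))
    (nat_lit 200) (horF (alVF A M K F h N) (Nat.mod B (nat_lit 64)) M) (Nat.mul (Nat.shiftRight B (Nat.add
    (Nat.mul (Nat.mul (nat_lit 2) n) (Nat.mod (Nat.shiftRight B (nat_lit 6)) (nat_lit 16384))) (nat_lit 20)))
    (Nat.sub (nat_lit 1) (Nat.add v (shpF (alVF A M K F h N) (Nat.mod B (nat_lit 64)) M))))

noncomputable def tJF (n A S K F J1 Y j B : Nat) : Nat :=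
    tabF n A (Nat.lor (Nat.lor K (Nat.shiftLeft (Nat.mod (Nat.shiftRight J1 j) (nat_lit 2)) j)) (Nat.xor S
    (Nat.land S (Nat.shiftLeft (nat_lit 1) j)))) (Nat.lor K (Nat.shiftLeft (Nat.mod (Nat.shiftRight J1 j) (nat_lit
    2)) j)) (Nat.xor F (Nat.land F (Nat.shiftLeft (nat_lit 1) (Nat.mod B (nat_lit 64))))) (Nat.shiftLeft (nat_lit
    1) (Nat.mod B (nat_lit 64))) (nat_lit 0) (Nat.add (Nat.land (Nat.land (Nat.land (Nat.mod (Nat.shiftRight A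
    (Nat.mul (nat_lit 64) j)) (nat_lit 9223372036854775808)) (Nat.lor (Nat.lor S K) (nat_lit
    4611686018427387904))) (Nat.sub (Nat.land (Nat.mod (Nat.shiftRight A (Nat.mul (nat_lit 64) j)) (nat_lit
    9223372036854775808)) (Nat.lor (Nat.lor S K) (nat_lit 4611686018427387904))) (nat_lit 1))) (Nat.sub (Nat.land
    (Nat.land (Nat.mod (Nat.shiftRight A (Nat.mul (nat_lit 64) j)) (nat_lit 9223372036854775808)) (Nat.lor
    (Nat.lor S K) (nat_lit 4611686018427387904))) (Nat.sub (Nat.land (Nat.mod (Nat.shiftRight A (Nat.mul (nat_lit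
    64) j)) (nat_lit 9223372036854775808)) (Nat.lor (Nat.lor S K) (nat_lit 4611686018427387904))) (nat_lit 1)))
    (nat_lit 1))) (Nat.add (Nat.mul (Nat.mod (Nat.shiftRight J1 j) (nat_lit 2)) (Nat.add (Nat.xor (Nat.mod B
    (nat_lit 64)) j) (Nat.mul (Nat.sub (nat_lit 1) (Nat.mod (Nat.shiftRight F j) (nat_lit 2))) (Nat.land (Nat.mod
    (Nat.shiftRight A (Nat.mul (nat_lit 64) j)) (nat_lit 9223372036854775808)) Y)))) (Nat.mul (Nat.sub (nat_lit 1)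
    (Nat.mod (Nat.shiftRight J1 j) (nat_lit 2))) (Nat.xor (Nat.land (Nat.mod (Nat.shiftRight A (Nat.mul (nat_lit
    64) j)) (nat_lit 9223372036854775808)) K) (Nat.shiftLeft (nat_lit 1) (Nat.mod B (nat_lit 64)))))))
    (Nat.shiftRight B (nat_lit 6))

noncomputable def tAllF (dp : Nat → Nat → Nat → Nat → Nat → Nat) (n A S K F J J1 Y B : Nat) : Nat :=
    (@Nat.rec (fun _ => Nat) (@Nat.rec (fun _ => Nat) (tabF n A (Nat.lor S K) K F (nat_lit 0) (Nat.shiftLeft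
    (nat_lit 1) (Nat.mod (Nat.shiftRight B (nat_lit 1)) (nat_lit 64))) (nat_lit 0) (Nat.shiftRight B (nat_lit 7)))
    (fun _ _ => dp n A S K (Nat.mul (Nat.shiftRight B (nat_lit 1)) (Nat.sub (nat_lit 1) F))) (Nat.mod B (nat_lit
    2))) (fun _ _ => (@Nat.rec (fun _ => Nat → Nat → Nat) (fun m19 B19 => (Nat.mul B19 (Nat.sub (nat_lit 1) m19)))
    (fun _ ih19 m19 B19 => ih19 (Nat.land m19 (Nat.sub m19 (nat_lit 1))) (tJF n A S K F J1 Y (Nat.mod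
    (Nat.shiftRight cT (Nat.mul (nat_lit 6) (Nat.mod (Nat.xor m19 (Nat.land m19 (Nat.sub m19 (nat_lit 1))))
    (nat_lit 67)))) (nat_lit 64)) B19)) (Nat.mod B (nat_lit 64)) J (Nat.shiftRight B (nat_lit 6)))) J)

noncomputable def sumSF (A SK c : Nat) : Nat → Nat :=
    @Nat.rec (fun _ => Nat → Nat) (fun m => (Nat.mul (nat_lit 3) m)) (fun _ ih m => (Nat.add (Nat.sub (nat_lit 3)
    (Nat.add (Nat.sub (Nat.land (Nat.mod (Nat.shiftRight A (Nat.mul (nat_lit 64) (Nat.mod (Nat.shiftRight cT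
    (Nat.mul (nat_lit 6) (Nat.mod (Nat.xor m (Nat.land m (Nat.sub m (nat_lit 1)))) (nat_lit 67)))) (nat_lit 64))))
    (nat_lit 9223372036854775808)) SK) (Nat.sub (Nat.land (Nat.mod (Nat.shiftRight A (Nat.mul (nat_lit 64)
    (Nat.mod (Nat.shiftRight cT (Nat.mul (nat_lit 6) (Nat.mod (Nat.xor m (Nat.land m (Nat.sub m (nat_lit 1))))
    (nat_lit 67)))) (nat_lit 64)))) (nat_lit 9223372036854775808)) SK) (nat_lit 1))) (Nat.add (Nat.sub (Nat.land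
    (Nat.land (Nat.mod (Nat.shiftRight A (Nat.mul (nat_lit 64) (Nat.mod (Nat.shiftRight cT (Nat.mul (nat_lit 6)
    (Nat.mod (Nat.xor m (Nat.land m (Nat.sub m (nat_lit 1)))) (nat_lit 67)))) (nat_lit 64)))) (nat_lit
    9223372036854775808)) SK) (Nat.sub (Nat.land (Nat.mod (Nat.shiftRight A (Nat.mul (nat_lit 64) (Nat.mod
    (Nat.shiftRight cT (Nat.mul (nat_lit 6) (Nat.mod (Nat.xor m (Nat.land m (Nat.sub m (nat_lit 1)))) (nat_lit
    67)))) (nat_lit 64)))) (nat_lit 9223372036854775808)) SK) (nat_lit 1))) (Nat.sub (Nat.land (Nat.land (Nat.mod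
    (Nat.shiftRight A (Nat.mul (nat_lit 64) (Nat.mod (Nat.shiftRight cT (Nat.mul (nat_lit 6) (Nat.mod (Nat.xor m
    (Nat.land m (Nat.sub m (nat_lit 1)))) (nat_lit 67)))) (nat_lit 64)))) (nat_lit 9223372036854775808)) SK)
    (Nat.sub (Nat.land (Nat.mod (Nat.shiftRight A (Nat.mul (nat_lit 64) (Nat.mod (Nat.shiftRight cT (Nat.mul
    (nat_lit 6) (Nat.mod (Nat.xor m (Nat.land m (Nat.sub m (nat_lit 1)))) (nat_lit 67)))) (nat_lit 64)))) (nat_lit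
    9223372036854775808)) SK) (nat_lit 1))) (nat_lit 1))) (Nat.sub (Nat.land (Nat.land (Nat.land (Nat.mod
    (Nat.shiftRight A (Nat.mul (nat_lit 64) (Nat.mod (Nat.shiftRight cT (Nat.mul (nat_lit 6) (Nat.mod (Nat.xor m
    (Nat.land m (Nat.sub m (nat_lit 1)))) (nat_lit 67)))) (nat_lit 64)))) (nat_lit 9223372036854775808)) SK)
    (Nat.sub (Nat.land (Nat.mod (Nat.shiftRight A (Nat.mul (nat_lit 64) (Nat.mod (Nat.shiftRight cT (Nat.mul
    (nat_lit 6) (Nat.mod (Nat.xor m (Nat.land m (Nat.sub m (nat_lit 1)))) (nat_lit 67)))) (nat_lit 64)))) (nat_lit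
    9223372036854775808)) SK) (nat_lit 1))) (Nat.sub (Nat.land (Nat.land (Nat.mod (Nat.shiftRight A (Nat.mul
    (nat_lit 64) (Nat.mod (Nat.shiftRight cT (Nat.mul (nat_lit 6) (Nat.mod (Nat.xor m (Nat.land m (Nat.sub m
    (nat_lit 1)))) (nat_lit 67)))) (nat_lit 64)))) (nat_lit 9223372036854775808)) SK) (Nat.sub (Nat.land (Nat.mod
    (Nat.shiftRight A (Nat.mul (nat_lit 64) (Nat.mod (Nat.shiftRight cT (Nat.mul (nat_lit 6) (Nat.mod (Nat.xor m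
    (Nat.land m (Nat.sub m (nat_lit 1)))) (nat_lit 67)))) (nat_lit 64)))) (nat_lit 9223372036854775808)) SK)
    (nat_lit 1))) (nat_lit 1))) (Nat.sub (Nat.land (Nat.land (Nat.land (Nat.mod (Nat.shiftRight A (Nat.mul
    (nat_lit 64) (Nat.mod (Nat.shiftRight cT (Nat.mul (nat_lit 6) (Nat.mod (Nat.xor m (Nat.land m (Nat.sub m
    (nat_lit 1)))) (nat_lit 67)))) (nat_lit 64)))) (nat_lit 9223372036854775808)) SK) (Nat.sub (Nat.land (Nat.mod
    (Nat.shiftRight A (Nat.mul (nat_lit 64) (Nat.mod (Nat.shiftRight cT (Nat.mul (nat_lit 6) (Nat.mod (Nat.xor m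
    (Nat.land m (Nat.sub m (nat_lit 1)))) (nat_lit 67)))) (nat_lit 64)))) (nat_lit 9223372036854775808)) SK)
    (nat_lit 1))) (Nat.sub (Nat.land (Nat.land (Nat.mod (Nat.shiftRight A (Nat.mul (nat_lit 64) (Nat.mod
    (Nat.shiftRight cT (Nat.mul (nat_lit 6) (Nat.mod (Nat.xor m (Nat.land m (Nat.sub m (nat_lit 1)))) (nat_lit
    67)))) (nat_lit 64)))) (nat_lit 9223372036854775808)) SK) (Nat.sub (Nat.land (Nat.mod (Nat.shiftRight A
    (Nat.mul (nat_lit 64) (Nat.mod (Nat.shiftRight cT (Nat.mul (nat_lit 6) (Nat.mod (Nat.xor m (Nat.land m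
    (Nat.sub m (nat_lit 1)))) (nat_lit 67)))) (nat_lit 64)))) (nat_lit 9223372036854775808)) SK) (nat_lit 1)))
    (nat_lit 1))) (nat_lit 1)))))) (ih (Nat.land m (Nat.sub m (nat_lit 1)))))) c

noncomputable def mvVF (c3 A D3 S K F J J1 Y NJ : Nat) : Nat :=
    (Nat.add (Nat.add (Nat.add (Nat.land S K) (Nat.xor K (Nat.land K D3))) (Nat.add (Nat.xor F (Nat.land F K))
    (Nat.land A (Nat.mul (Nat.land (Nat.mul (Nat.xor K (Nat.land K F)) cM) cR) (Nat.xor (nat_lit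
    18446744073709551615) (Nat.lor (Nat.lor S K) (nat_lit 4611686018427387904))))))) (Nat.add (Nat.add (Nat.add
    (Nat.land A (Nat.mul (Nat.land (Nat.mul F cM) cR) (Nat.xor (nat_lit 18446744073709551615) (Nat.lor (Nat.lor
    (Nat.lor S K) (nat_lit 4611686018427387904)) Y)))) (Nat.land (Nat.sub (Nat.lor (Nat.land A (Nat.mul (Nat.land
    (Nat.mul Y cM) cR) F)) cH) cR) (Nat.land A (Nat.mul (Nat.land (Nat.mul Y cM) cR) F)))) (Nat.add (Nat.xor J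
    (Nat.land J (Nat.lor S F))) (Nat.add (Nat.xor J1 (Nat.land J1 J)) (Nat.xor (Nat.xor J (Nat.land J J1))
    (Nat.land (Nat.xor J (Nat.land J J1)) S))))) (Nat.add (Nat.add (Nat.land A (Nat.mul (Nat.land (Nat.mul
    (Nat.xor S (Nat.land S (Nat.mul J (Nat.sub (nat_lit 1) (Nat.land J (Nat.sub J (nat_lit 1))))))) cM) cR)
    (Nat.lor (Nat.xor S (Nat.land S (Nat.mul J (Nat.sub (nat_lit 1) (Nat.land J (Nat.sub J (nat_lit 1)))))))
    (nat_lit 4611686018427387904)))) (Nat.add (Nat.sub (nat_lit 1) (Nat.lor S K)) (Nat.mul c3 (Nat.sub (nat_lit 1)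
    (Nat.land (Nat.land (Nat.land (Nat.lor S K) (Nat.sub (Nat.lor S K) (nat_lit 1))) (Nat.sub (Nat.land (Nat.lor S
    K) (Nat.sub (Nat.lor S K) (nat_lit 1))) (nat_lit 1))) (Nat.sub (Nat.land (Nat.land (Nat.lor S K) (Nat.sub
    (Nat.lor S K) (nat_lit 1))) (Nat.sub (Nat.land (Nat.lor S K) (Nat.sub (Nat.lor S K) (nat_lit 1))) (nat_lit
    1))) (nat_lit 1))))))) (Nat.xor (Nat.shiftLeft (Nat.land (Nat.mul NJ cM) cR) (nat_lit 63)) (Nat.land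
    (Nat.shiftLeft (Nat.land (Nat.mul NJ cM) cR) (nat_lit 63)) (Nat.land (Nat.add (Nat.land A (Nat.mul J cR)) cK)
    cH))))))

noncomputable def mvEF (cl : Nat) (rc : Kc → Kc) (S J1 Y : Nat) : Kc :=
    fun n A D1 D2 D3 Q B => (fun B2 => (@Nat.rec (fun _ => Nat → Nat → Nat) (fun m21 B21 => (Nat.mul B21 (Nat.sub
    (nat_lit 1) m21))) (fun _ ih21 m21 B21 => ih21 (Nat.land m21 (Nat.sub m21 (nat_lit 1))) (@Nat.rec (fun _ =>
    Nat → Nat → Nat) (fun m22 B22 => (Nat.mul B22 (Nat.sub (nat_lit 1) m22))) (fun _ ih22 m22 B22 => ih22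
    (Nat.land m22 (Nat.sub m22 (nat_lit 1))) ((rc k0) (Nat.add n (Nat.sub (Nat.add (Nat.mod (Nat.shiftRight cT
    (Nat.mul (nat_lit 6) (Nat.mod (Nat.xor m22 (Nat.land m22 (Nat.sub m22 (nat_lit 1)))) (nat_lit 67)))) (nat_lit
    64)) (nat_lit 1)) n)) (Nat.lor A (Nat.lor (Nat.shiftLeft (Nat.shiftLeft (nat_lit 1) (Nat.mod (Nat.shiftRight
    cT (Nat.mul (nat_lit 6) (Nat.mod (Nat.xor m22 (Nat.land m22 (Nat.sub m22 (nat_lit 1)))) (nat_lit 67))))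
    (nat_lit 64))) (Nat.mul (nat_lit 64) (Nat.mod (Nat.shiftRight cT (Nat.mul (nat_lit 6) (Nat.mod (Nat.xor m21
    (Nat.land m21 (Nat.sub m21 (nat_lit 1)))) (nat_lit 67)))) (nat_lit 64)))) (Nat.shiftLeft (Nat.shiftLeft
    (nat_lit 1) (Nat.mod (Nat.shiftRight cT (Nat.mul (nat_lit 6) (Nat.mod (Nat.xor m21 (Nat.land m21 (Nat.sub m21
    (nat_lit 1)))) (nat_lit 67)))) (nat_lit 64))) (Nat.mul (nat_lit 64) (Nat.mod (Nat.shiftRight cT (Nat.mul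
    (nat_lit 6) (Nat.mod (Nat.xor m22 (Nat.land m22 (Nat.sub m22 (nat_lit 1)))) (nat_lit 67)))) (nat_lit 64))))))
    (Nat.lor D1 (Nat.mul (Nat.sub (nat_lit 1) (Nat.mod (Nat.shiftRight (Nat.mod (Nat.shiftRight A (Nat.mul
    (nat_lit 64) (Nat.mod (Nat.shiftRight cT (Nat.mul (nat_lit 6) (Nat.mod (Nat.xor m21 (Nat.land m21 (Nat.sub m21
    (nat_lit 1)))) (nat_lit 67)))) (nat_lit 64)))) (nat_lit 9223372036854775808)) (Nat.mod (Nat.shiftRight cT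
    (Nat.mul (nat_lit 6) (Nat.mod (Nat.xor m22 (Nat.land m22 (Nat.sub m22 (nat_lit 1)))) (nat_lit 67)))) (nat_lit
    64))) (nat_lit 2))) (Nat.lor (Nat.shiftLeft (nat_lit 1) (Nat.mod (Nat.shiftRight cT (Nat.mul (nat_lit 6)
    (Nat.mod (Nat.xor m21 (Nat.land m21 (Nat.sub m21 (nat_lit 1)))) (nat_lit 67)))) (nat_lit 64))) (Nat.shiftLeft
    (nat_lit 1) (Nat.mod (Nat.shiftRight cT (Nat.mul (nat_lit 6) (Nat.mod (Nat.xor m22 (Nat.land m22 (Nat.sub m22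
    (nat_lit 1)))) (nat_lit 67)))) (nat_lit 64)))))) (Nat.lor D2 (Nat.land D1 (Nat.mul (Nat.sub (nat_lit 1)
    (Nat.mod (Nat.shiftRight (Nat.mod (Nat.shiftRight A (Nat.mul (nat_lit 64) (Nat.mod (Nat.shiftRight cT (Nat.mul
    (nat_lit 6) (Nat.mod (Nat.xor m21 (Nat.land m21 (Nat.sub m21 (nat_lit 1)))) (nat_lit 67)))) (nat_lit 64))))
    (nat_lit 9223372036854775808)) (Nat.mod (Nat.shiftRight cT (Nat.mul (nat_lit 6) (Nat.mod (Nat.xor m22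
    (Nat.land m22 (Nat.sub m22 (nat_lit 1)))) (nat_lit 67)))) (nat_lit 64))) (nat_lit 2))) (Nat.lor (Nat.shiftLeft
    (nat_lit 1) (Nat.mod (Nat.shiftRight cT (Nat.mul (nat_lit 6) (Nat.mod (Nat.xor m21 (Nat.land m21 (Nat.sub m21
    (nat_lit 1)))) (nat_lit 67)))) (nat_lit 64))) (Nat.shiftLeft (nat_lit 1) (Nat.mod (Nat.shiftRight cT (Nat.mul
    (nat_lit 6) (Nat.mod (Nat.xor m22 (Nat.land m22 (Nat.sub m22 (nat_lit 1)))) (nat_lit 67)))) (nat_lit 64)))))))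
    (Nat.lor D3 (Nat.land D2 (Nat.mul (Nat.sub (nat_lit 1) (Nat.mod (Nat.shiftRight (Nat.mod (Nat.shiftRight A
    (Nat.mul (nat_lit 64) (Nat.mod (Nat.shiftRight cT (Nat.mul (nat_lit 6) (Nat.mod (Nat.xor m21 (Nat.land m21
    (Nat.sub m21 (nat_lit 1)))) (nat_lit 67)))) (nat_lit 64)))) (nat_lit 9223372036854775808)) (Nat.mod
    (Nat.shiftRight cT (Nat.mul (nat_lit 6) (Nat.mod (Nat.xor m22 (Nat.land m22 (Nat.sub m22 (nat_lit 1))))
    (nat_lit 67)))) (nat_lit 64))) (nat_lit 2))) (Nat.lor (Nat.shiftLeft (nat_lit 1) (Nat.mod (Nat.shiftRight cT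
    (Nat.mul (nat_lit 6) (Nat.mod (Nat.xor m21 (Nat.land m21 (Nat.sub m21 (nat_lit 1)))) (nat_lit 67)))) (nat_lit
    64))) (Nat.shiftLeft (nat_lit 1) (Nat.mod (Nat.shiftRight cT (Nat.mul (nat_lit 6) (Nat.mod (Nat.xor m22
    (Nat.land m22 (Nat.sub m22 (nat_lit 1)))) (nat_lit 67)))) (nat_lit 64))))))) Q B22)) (Nat.mod B21 (nat_lit
    64)) (Nat.xor Y (Nat.land Y D3)) (Nat.shiftRight B21 (nat_lit 6)))) (Nat.mod B2 (nat_lit 64)) (Nat.xor J1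
    (Nat.land J1 D3)) (Nat.shiftRight B2 (nat_lit 6)))) ((fun B1 => (@Nat.rec (fun _ => Nat → Nat → Nat) (fun m23
    B23 => (Nat.mul B23 (Nat.sub (nat_lit 1) m23))) (fun _ ih23 m23 B23 => ih23 (Nat.land m23 (Nat.sub m23
    (nat_lit 1))) (@Nat.rec (fun _ => Nat → Nat → Nat) (fun m24 B24 => (Nat.mul B24 (Nat.sub (nat_lit 1) m24)))
    (fun _ ih24 m24 B24 => ih24 (Nat.land m24 (Nat.sub m24 (nat_lit 1))) ((rc k0) (Nat.add n (Nat.sub (Nat.add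
    (Nat.mod (Nat.shiftRight cT (Nat.mul (nat_lit 6) (Nat.mod (Nat.xor m24 (Nat.land m24 (Nat.sub m24 (nat_lit
    1)))) (nat_lit 67)))) (nat_lit 64)) (nat_lit 1)) n)) (Nat.lor A (Nat.lor (Nat.shiftLeft (Nat.shiftLeft
    (nat_lit 1) (Nat.mod (Nat.shiftRight cT (Nat.mul (nat_lit 6) (Nat.mod (Nat.xor m24 (Nat.land m24 (Nat.sub m24
    (nat_lit 1)))) (nat_lit 67)))) (nat_lit 64))) (Nat.mul (nat_lit 64) (Nat.mod (Nat.shiftRight cT (Nat.mul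
    (nat_lit 6) (Nat.mod (Nat.xor m23 (Nat.land m23 (Nat.sub m23 (nat_lit 1)))) (nat_lit 67)))) (nat_lit 64))))
    (Nat.shiftLeft (Nat.shiftLeft (nat_lit 1) (Nat.mod (Nat.shiftRight cT (Nat.mul (nat_lit 6) (Nat.mod (Nat.xor
    m23 (Nat.land m23 (Nat.sub m23 (nat_lit 1)))) (nat_lit 67)))) (nat_lit 64))) (Nat.mul (nat_lit 64) (Nat.mod
    (Nat.shiftRight cT (Nat.mul (nat_lit 6) (Nat.mod (Nat.xor m24 (Nat.land m24 (Nat.sub m24 (nat_lit 1))))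
    (nat_lit 67)))) (nat_lit 64)))))) (Nat.lor D1 (Nat.mul (Nat.sub (nat_lit 1) (Nat.mod (Nat.shiftRight (Nat.mod
    (Nat.shiftRight A (Nat.mul (nat_lit 64) (Nat.mod (Nat.shiftRight cT (Nat.mul (nat_lit 6) (Nat.mod (Nat.xor m23
    (Nat.land m23 (Nat.sub m23 (nat_lit 1)))) (nat_lit 67)))) (nat_lit 64)))) (nat_lit 9223372036854775808))
    (Nat.mod (Nat.shiftRight cT (Nat.mul (nat_lit 6) (Nat.mod (Nat.xor m24 (Nat.land m24 (Nat.sub m24 (nat_lit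
    1)))) (nat_lit 67)))) (nat_lit 64))) (nat_lit 2))) (Nat.lor (Nat.shiftLeft (nat_lit 1) (Nat.mod
    (Nat.shiftRight cT (Nat.mul (nat_lit 6) (Nat.mod (Nat.xor m23 (Nat.land m23 (Nat.sub m23 (nat_lit 1))))
    (nat_lit 67)))) (nat_lit 64))) (Nat.shiftLeft (nat_lit 1) (Nat.mod (Nat.shiftRight cT (Nat.mul (nat_lit 6)
    (Nat.mod (Nat.xor m24 (Nat.land m24 (Nat.sub m24 (nat_lit 1)))) (nat_lit 67)))) (nat_lit 64)))))) (Nat.lor D2
    (Nat.land D1 (Nat.mul (Nat.sub (nat_lit 1) (Nat.mod (Nat.shiftRight (Nat.mod (Nat.shiftRight A (Nat.mul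
    (nat_lit 64) (Nat.mod (Nat.shiftRight cT (Nat.mul (nat_lit 6) (Nat.mod (Nat.xor m23 (Nat.land m23 (Nat.sub m23
    (nat_lit 1)))) (nat_lit 67)))) (nat_lit 64)))) (nat_lit 9223372036854775808)) (Nat.mod (Nat.shiftRight cT
    (Nat.mul (nat_lit 6) (Nat.mod (Nat.xor m24 (Nat.land m24 (Nat.sub m24 (nat_lit 1)))) (nat_lit 67)))) (nat_lit
    64))) (nat_lit 2))) (Nat.lor (Nat.shiftLeft (nat_lit 1) (Nat.mod (Nat.shiftRight cT (Nat.mul (nat_lit 6)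
    (Nat.mod (Nat.xor m23 (Nat.land m23 (Nat.sub m23 (nat_lit 1)))) (nat_lit 67)))) (nat_lit 64))) (Nat.shiftLeft
    (nat_lit 1) (Nat.mod (Nat.shiftRight cT (Nat.mul (nat_lit 6) (Nat.mod (Nat.xor m24 (Nat.land m24 (Nat.sub m24
    (nat_lit 1)))) (nat_lit 67)))) (nat_lit 64))))))) (Nat.lor D3 (Nat.land D2 (Nat.mul (Nat.sub (nat_lit 1)
    (Nat.mod (Nat.shiftRight (Nat.mod (Nat.shiftRight A (Nat.mul (nat_lit 64) (Nat.mod (Nat.shiftRight cT (Nat.mul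
    (nat_lit 6) (Nat.mod (Nat.xor m23 (Nat.land m23 (Nat.sub m23 (nat_lit 1)))) (nat_lit 67)))) (nat_lit 64))))
    (nat_lit 9223372036854775808)) (Nat.mod (Nat.shiftRight cT (Nat.mul (nat_lit 6) (Nat.mod (Nat.xor m24
    (Nat.land m24 (Nat.sub m24 (nat_lit 1)))) (nat_lit 67)))) (nat_lit 64))) (nat_lit 2))) (Nat.lor (Nat.shiftLeft
    (nat_lit 1) (Nat.mod (Nat.shiftRight cT (Nat.mul (nat_lit 6) (Nat.mod (Nat.xor m23 (Nat.land m23 (Nat.sub m23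
    (nat_lit 1)))) (nat_lit 67)))) (nat_lit 64))) (Nat.shiftLeft (nat_lit 1) (Nat.mod (Nat.shiftRight cT (Nat.mul
    (nat_lit 6) (Nat.mod (Nat.xor m24 (Nat.land m24 (Nat.sub m24 (nat_lit 1)))) (nat_lit 67)))) (nat_lit 64)))))))
    Q B24)) (Nat.mod B23 (nat_lit 64)) (Nat.xor (Nat.land m23 (Nat.sub m23 (nat_lit 1))) (Nat.land (Nat.land m23
    (Nat.sub m23 (nat_lit 1))) (Nat.mod (Nat.shiftRight A (Nat.mul (nat_lit 64) (Nat.mod (Nat.shiftRight cT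
    (Nat.mul (nat_lit 6) (Nat.mod (Nat.xor m23 (Nat.land m23 (Nat.sub m23 (nat_lit 1)))) (nat_lit 67)))) (nat_lit
    64)))) (nat_lit 9223372036854775808)))) (Nat.shiftRight B23 (nat_lit 6)))) (Nat.mod B1 (nat_lit 64)) (Nat.xor
    S (Nat.land S D3)) (Nat.shiftRight B1 (nat_lit 6)))) (@Nat.rec (fun _ => Nat → Nat → Nat) (fun m20 B20 =>
    (Nat.mul B20 (Nat.sub (nat_lit 1) m20))) (fun _ ih20 m20 B20 => ih20 (Nat.land m20 (Nat.sub m20 (nat_lit 1)))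
    (@Nat.rec (fun _ => Nat) (adS (Nat.mod (Nat.shiftRight cT (Nat.mul (nat_lit 6) (Nat.mod (Nat.xor m20 (Nat.land
    m20 (Nat.sub m20 (nat_lit 1)))) (nat_lit 67)))) (nat_lit 64)) (rc k0) n A D1 D2 D3 Q B20) (fun _ _ => B20)
    (Nat.mod (Nat.shiftRight (Nat.mod (Nat.shiftRight A (Nat.mul (nat_lit 64) (Nat.mod (Nat.shiftRight cT (Nat.mul
    (nat_lit 6) (Nat.mod (Nat.xor m20 (Nat.land m20 (Nat.sub m20 (nat_lit 1)))) (nat_lit 67)))) (nat_lit 64))))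
    (nat_lit 9223372036854775808)) (nat_lit 62)) (nat_lit 2)))) (Nat.mod B (nat_lit 64)) (Nat.mul (Nat.xor
    (Nat.xor S (Nat.land S D3)) (Nat.land (Nat.xor S (Nat.land S D3)) Q)) (Nat.sub (nat_lit 1) cl))
    (Nat.shiftRight B (nat_lit 6))))

noncomputable def mvWF (cl mc : Nat) (rc : Kc → Kc) (T : Td) (f H M J NJ rI r : Nat) : Kc :=
    nxtF rc cl f H J NJ (Nat.mul (Nat.div r (nat_lit 2)) (Nat.sub (Nat.land J (Nat.sub J (nat_lit 1))) (Nat.sub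
    (Nat.land J (Nat.sub J (nat_lit 1))) (nat_lit 1)))) T (Nat.add (Nat.mul (Nat.div r (nat_lit 2)) (Nat.sub
    (Nat.land J (Nat.sub J (nat_lit 1))) (Nat.sub (Nat.land J (Nat.sub J (nat_lit 1))) (nat_lit 1)))) (Nat.sub
    (Nat.sub rI (Nat.sub rI (Nat.sub r (Nat.mul mc (Nat.sub J (Nat.sub J (nat_lit 1))))))) (Nat.mul (Nat.div r
    (nat_lit 2)) (Nat.sub (Nat.land J (Nat.sub J (nat_lit 1))) (Nat.sub (Nat.land J (Nat.sub J (nat_lit 1)))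
    (nat_lit 1)))))) (nat_lit 0) H (nat_lit 0) (Nat.lor M (nat_lit 4611686018427387904)) (nat_lit 0)

noncomputable def mvBF (P : Pm) (rc : Kc → Kc) (f S K F J J1 Y NJ : Nat) : Kc :=
    fun n A D1 D2 D3 Q B => mvWF P.cl (Nat.add (nat_lit 2) (Nat.mul P.cl P.fe)) rc P.T f (Nat.lor S F) (Nat.lor S
    K) J NJ (sumSF A (Nat.lor (Nat.lor S K) (nat_lit 4611686018427387904)) (Nat.mod B (nat_lit 64)) (Nat.xor
    (Nat.lor S F) (Nat.land (Nat.lor S F) J))) (Nat.add (sumSF A (Nat.lor (Nat.lor S K) (nat_lit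
    4611686018427387904)) (Nat.mod B (nat_lit 64)) (Nat.xor (Nat.lor S F) (Nat.land (Nat.lor S F) J))) (sumSF A
    (Nat.lor (Nat.lor S K) (nat_lit 4611686018427387904)) (Nat.mod (Nat.shiftRight B (nat_lit 6)) (nat_lit 64))
    J)) n A D1 D2 D3 Q (mvEF P.cl rc S J1 Y n A D1 D2 D3 Q (tAllF P.dp n A S K F J J1 Y (Nat.mul (Nat.shiftRight B
    (nat_lit 12)) (Nat.sub (nat_lit 1) (mvVF P.fc A D3 S K F J J1 Y NJ)))))

noncomputable def rMoveF (P : Pm) (rc : Kc → Kc) (f : Nat) : Kc :=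
    fun n A D1 D2 D3 Q B => mvBF P rc f (Nat.mod B (Nat.shiftLeft (nat_lit 1) n)) (Nat.mod (Nat.shiftRight B
    (Nat.mul (nat_lit 1) n)) (Nat.shiftLeft (nat_lit 1) n)) (Nat.mod (Nat.shiftRight B (Nat.mul (nat_lit 2) n))
    (Nat.shiftLeft (nat_lit 1) n)) (Nat.mod (Nat.shiftRight B (Nat.mul (nat_lit 3) n)) (Nat.shiftLeft (nat_lit 1)
    n)) (Nat.mod (Nat.shiftRight B (Nat.mul (nat_lit 4) n)) (Nat.shiftLeft (nat_lit 1) n)) (Nat.mod
    (Nat.shiftRight B (Nat.mul (nat_lit 5) n)) (Nat.shiftLeft (nat_lit 1) n)) (Nat.mod (Nat.shiftRight B (Nat.mul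
    (nat_lit 6) n)) (Nat.shiftLeft (nat_lit 1) n)) n A D1 D2 D3 Q (Nat.shiftRight B (Nat.mul (nat_lit 7) n))

noncomputable def stp2F (P : Pm) (f : Nat) (rc : Kc → Kc) (k : Kc) : Kc :=
    fun n A D1 D2 D3 Q B => (@Nat.rec (fun _ => Nat) (rSplitF P.cl rc k n A D1 D2 D3 Q (Nat.shiftRight B (nat_lit
    5))) (fun ta _ => (@Nat.rec (fun _ => Nat) (rRefKF P.db f n A D1 D2 D3 Q (Nat.shiftRight B (nat_lit 5))) (fun
    tb _ => (@Nat.rec (fun _ => Nat) (rCutF P.cl P.fe P.fc n A (Nat.shiftRight B (nat_lit 5))) (fun tc _ =>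
    (@Nat.rec (fun _ => Nat) (rMoveF P rc f n A D1 D2 D3 Q (Nat.shiftRight B (nat_lit 5))) (fun td _ => (@Nat.rec
    (fun _ => Nat) (rFlagF rc k n A D1 D2 D3 Q (Nat.shiftRight B (nat_lit 5))) (fun te _ => (@Nat.rec (fun _ =>
    Nat) (rFinF (Nat.add P.cl (Nat.add P.fe P.fc)) rc n A D1 D2 D3 Q (Nat.shiftRight B (nat_lit 5))) (fun tf _ =>
    (@Nat.rec (fun _ => Nat) (rRefNF P.dn P.nt rc k n A D1 D2 D3 Q (Nat.shiftRight B (nat_lit 5))) (fun _ _ =>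
    P.ext f rc k n A D1 D2 D3 Q (Nat.shiftRight B (nat_lit 5))) tf)) te)) td)) tc)) tb)) ta)) (Nat.mod
    (Nat.shiftRight B (nat_lit 2)) (nat_lit 8)))

noncomputable def stpF (P : Pm) (f : Nat) (rc : Kc → Kc) (k : Kc) : Kc :=
    fun n A D1 D2 D3 Q B => (@Nat.rec (fun _ => Nat) (rColF n A D1 D2 D3 Q (Nat.shiftRight B (nat_lit 2))) (fun t
    _ => (@Nat.rec (fun _ => Nat) (rRefF P.db f n A (Nat.shiftRight B (nat_lit 2))) (fun t' _ => (@Nat.rec (fun _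
    => Nat) (k n A D1 D2 D3 Q (Nat.shiftRight B (nat_lit 2))) (fun _ _ => stp2F P f rc k n A D1 D2 D3 Q B) t'))
    t)) (Nat.mod B (nat_lit 4)))

noncomputable def rcsF (P : Pm) (f fuel : Nat) : Kc → Kc :=
    @Nat.rec (fun _ => Kc → Kc) (fun _ => k0) (fun _ r => stpF P f r) fuel

noncomputable def bldF (e c : Nat) : Nat :=
    @Nat.rec (fun _ => Nat) (nat_lit 0) (fun i ih => (Nat.lor (Nat.lor ih (Nat.shiftLeft (Nat.lor (Nat.shiftLeft
    (nat_lit 1) (Nat.mod (Nat.mod (Nat.shiftRight e (Nat.add (Nat.mul (nat_lit 12) i) (nat_lit 6))) (nat_lit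
    4096)) (nat_lit 64))) (Nat.shiftLeft (nat_lit 1) (Nat.div (Nat.mod (Nat.shiftRight e (Nat.add (Nat.mul
    (nat_lit 12) i) (nat_lit 6))) (nat_lit 4096)) (nat_lit 64)))) (Nat.mul (nat_lit 64) i))) (Nat.lor
    (Nat.shiftLeft (Nat.shiftLeft (nat_lit 1) i) (Nat.mul (nat_lit 64) (Nat.mod (Nat.mod (Nat.shiftRight e
    (Nat.add (Nat.mul (nat_lit 12) i) (nat_lit 6))) (nat_lit 4096)) (nat_lit 64)))) (Nat.shiftLeft (Nat.shiftLeft
    (nat_lit 1) i) (Nat.mul (nat_lit 64) (Nat.div (Nat.mod (Nat.shiftRight e (Nat.add (Nat.mul (nat_lit 12) i)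
    (nat_lit 6))) (nat_lit 4096)) (nat_lit 64))))))) c

noncomputable def mkTF (n A Q : Nat) (k : Kc) (B : Nat) : Nat :=
    k n A (Nat.mod (Nat.shiftRight (Nat.land (Nat.add A cK) cH) (nat_lit 63)) (nat_lit 9223372036854775807))
    (Nat.mod (Nat.shiftRight (Nat.land (Nat.add (Nat.land (Nat.sub (Nat.lor A cH) cR) A) cK) cH) (nat_lit 63))
    (nat_lit 9223372036854775807)) (Nat.mod (Nat.shiftRight (Nat.land (Nat.add (Nat.land (Nat.sub (Nat.lor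
    (Nat.land (Nat.sub (Nat.lor A cH) cR) A) cH) cR) (Nat.land (Nat.sub (Nat.lor A cH) cR) A)) cK) cH) (nat_lit
    63)) (nat_lit 9223372036854775807)) Q (Nat.mul B (Nat.sub (nat_lit 1) (Nat.add (Nat.xor (Nat.shiftLeft
    (Nat.land (Nat.mul (Nat.mod (Nat.shiftRight (Nat.land (Nat.add A cK) cH) (nat_lit 63)) (nat_lit
    9223372036854775807)) cM) cR) (nat_lit 63)) (Nat.land (Nat.add A cK) cH)) (Nat.add (Nat.xor (Nat.shiftLeft
    (Nat.land (Nat.mul (Nat.mod (Nat.shiftRight (Nat.land (Nat.add (Nat.land (Nat.sub (Nat.lor A cH) cR) A) cK)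
    cH) (nat_lit 63)) (nat_lit 9223372036854775807)) cM) cR) (nat_lit 63)) (Nat.land (Nat.add (Nat.land (Nat.sub
    (Nat.lor A cH) cR) A) cK) cH)) (Nat.xor (Nat.shiftLeft (Nat.land (Nat.mul (Nat.mod (Nat.shiftRight (Nat.land
    (Nat.add (Nat.land (Nat.sub (Nat.lor (Nat.land (Nat.sub (Nat.lor A cH) cR) A) cH) cR) (Nat.land (Nat.sub
    (Nat.lor A cH) cR) A)) cK) cH) (nat_lit 63)) (nat_lit 9223372036854775807)) cM) cR) (nat_lit 63)) (Nat.land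
    (Nat.add (Nat.land (Nat.sub (Nat.lor (Nat.land (Nat.sub (Nat.lor A cH) cR) A) cH) cR) (Nat.land (Nat.sub
    (Nat.lor A cH) cR) A)) cK) cH))))))

noncomputable def mkSF (n A : Nat) (k : Kc) (B : Nat) : Nat :=
    mkTF n (Nat.xor (Nat.mod (Nat.lor (Nat.xor A (Nat.shiftLeft (Nat.land (Nat.shiftRight A n) cR) n))
    (Nat.shiftLeft (Nat.land (Nat.shiftRight A n) cR) (nat_lit 62))) (Nat.shiftLeft (nat_lit 1) (Nat.mul (nat_lit
    64) n))) (Nat.land (Nat.mod (Nat.lor (Nat.xor A (Nat.shiftLeft (Nat.land (Nat.shiftRight A n) cR) n))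
    (Nat.shiftLeft (Nat.land (Nat.shiftRight A n) cR) (nat_lit 62))) (Nat.shiftLeft (nat_lit 1) (Nat.mul (nat_lit
    64) n))) cD)) (Nat.mod (Nat.land (Nat.mod (Nat.lor (Nat.xor A (Nat.shiftLeft (Nat.land (Nat.shiftRight A n)
    cR) n)) (Nat.shiftLeft (Nat.land (Nat.shiftRight A n) cR) (nat_lit 62))) (Nat.shiftLeft (nat_lit 1) (Nat.mul
    (nat_lit 64) n))) cD) (nat_lit 18446744073709551615)) k (Nat.mul B (Nat.sub (nat_lit 1) (Nat.add (Nat.add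
    (Nat.shiftRight A (Nat.mul (nat_lit 64) (Nat.add n (nat_lit 1)))) (Nat.xor (Nat.land (Nat.mul (Nat.mod
    (Nat.land (Nat.mod (Nat.lor (Nat.xor A (Nat.shiftLeft (Nat.land (Nat.shiftRight A n) cR) n)) (Nat.shiftLeft
    (Nat.land (Nat.shiftRight A n) cR) (nat_lit 62))) (Nat.shiftLeft (nat_lit 1) (Nat.mul (nat_lit 64) n))) cD)
    (nat_lit 18446744073709551615)) cR) cD) (Nat.land (Nat.mod (Nat.lor (Nat.xor A (Nat.shiftLeft (Nat.land
    (Nat.shiftRight A n) cR) n)) (Nat.shiftLeft (Nat.land (Nat.shiftRight A n) cR) (nat_lit 62))) (Nat.shiftLeft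
    (nat_lit 1) (Nat.mul (nat_lit 64) n))) cD))) (Nat.sub n (nat_lit 60)))))

noncomputable def chkEF (P : Pm) (f e B : Nat) : Nat :=
    mkSF (Nat.mod e (nat_lit 64)) (bldF e (Nat.mod e (nat_lit 64))) (rcsF P f (nat_lit 250) k0) B

noncomputable def chkBF (P : Pm) (c : Nat) : Nat → Nat → Nat :=
    @Nat.rec (fun _ => Nat → Nat → Nat) (fun _ _ => (nat_lit 0)) (fun _ ih f B => @Nat.rec (fun _ => Nat) (nat_lit
    1) (fun g _ => (Nat.add (Nat.xor (chkEF P g (dget P.db g) (Nat.mod (Nat.shiftRight B (nat_lit 24))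
    (Nat.shiftLeft (nat_lit 1) (Nat.mod B (nat_lit 16777216))))) (nat_lit 1)) (ih (Nat.add g (nat_lit 1))
    (Nat.shiftRight B (Nat.add (Nat.mod B (nat_lit 16777216)) (nat_lit 24)))))) (Nat.add f (nat_lit 1))) c

end Pool.Agent.Hom2.Sc
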