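import Pool.Agent.Lib.MP_7e4769_co.Hc.ScR
import Pool.Agent.Lib.MP_7e4769_co.Hc.ScF

set_option autoImplicit false

namespace Pool.Agent.Hom2.Sc

theorem m504a (E : ℕ) : Nat.land (Nat.shiftLeft (Nat.mod E 281474976710656) 3) 504 = 8 * fd E 0 64 := by
  apply Nat.eq_of_testBit_eq
  intro j
  have a : (504 : ℕ) = Nat.shiftLeft (Nat.sub (pw 6) 1) 3 := by decide +kernel
  have b : 8 * fd E 0 64 = Nat.shiftLeft (fd E 0 64) 3 := by rw [e_shl, Nat.shiftLeft_eq]; omega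
  rw [Bool.eq_iff_iff, a, b, tb_land, tb_shl, tb_shl, tb_shl, tb_full, tb_fd64,
    show (281474976710656 : ℕ) = pw 48 from rfl, tb_modpw, zero_add]
  exact ⟨fun r => ⟨r.1.1, r.2.2, r.1.2.2⟩, fun r => ⟨⟨r.1, by omega, r.2.2⟩, r.1, r.2.1⟩⟩

theorem m504b (E p : ℕ) (hp : p + 9 ≤ 48) :
    Nat.land (Nat.shiftRight (Nat.mod E 281474976710656) p) 504 = 8 * fd E (p + 3) 64 := by
  apply Nat.eq_of_testBit_eq
  intro j
  have a : (504 : ℕ) = Nat.shiftLeft (Nat.sub (pw 6) 1) 3 := by decide +kernel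
  have b : 8 * fd E (p + 3) 64 = Nat.shiftLeft (fd E (p + 3) 64) 3 := by rw [e_shl, Nat.shiftLeft_eq]; omega
  rw [Bool.eq_iff_iff, a, b, tb_land, tb_shr, tb_shl, tb_shl, tb_full, tb_fd64,
    show (281474976710656 : ℕ) = pw 48 from rfl, tb_modpw]
  constructor
  · rintro ⟨⟨-, r⟩, s, t⟩
    exact ⟨s, t, by rwa [show p + 3 + (j - 3) = p + j by omega]⟩
  · rintro ⟨s, t, r⟩
    exact ⟨⟨by omega, by rwa [show p + 3 + (j - 3) = p + j by omega] at r⟩, s, t⟩

theorem m32 (M p : ℕ) (hp : p + 6 ≤ 32) : fd (Nat.mod M 4294967296) p 64 = fd M p 64 := by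
  apply Nat.eq_of_testBit_eq
  intro j
  rw [Bool.eq_iff_iff, tb_fd64, tb_fd64, show (4294967296 : ℕ) = pw 32 from rfl, tb_modpw]
  exact ⟨fun r => ⟨r.1, r.2.2⟩, fun r => ⟨r.1, by omega, r.2⟩⟩

/-- one vertex of the map -/
def st1 (A M x s t ac : ℕ) : ℕ :=
  Nat.land ac (Nat.land (Nat.shiftRight (row A x) (fd M s 64)) (Nat.shiftRight (row A x) (fd M t 64)))

/-- four vertices of the map at once -/
noncomputable def ref4 (A M : ℕ) (fin : ℕ → ℕ → ℕ → ℕ → ℕ → ℕ) (c : ℕ) : ℕ → ℕ → ℕ → ℕ → ℕ → ℕ :=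
  @Nat.rec (fun _ => ℕ → ℕ → ℕ → ℕ → ℕ → ℕ) fin (fun _ ih E Mi ac sm ro =>
    ih (Nat.shiftRight E 48) (Nat.shiftRight Mi 32)
      (st1 A M (fd (Nat.mod Mi 4294967296) 24 64)
        (Nat.land (Nat.shiftRight (Nat.mod E 281474976710656) 33) 504)
        (Nat.land (Nat.shiftRight (Nat.mod E 281474976710656) 39) 504)
      (st1 A M (fd (Nat.mod Mi 4294967296) 16 64)
        (Nat.land (Nat.shiftRight (Nat.mod E 281474976710656) 21) 504)
        (Nat.land (Nat.shiftRight (Nat.mod E 281474976710656) 27) 504)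
      (st1 A M (fd (Nat.mod Mi 4294967296) 8 64)
        (Nat.land (Nat.shiftRight (Nat.mod E 281474976710656) 9) 504)
        (Nat.land (Nat.shiftRight (Nat.mod E 281474976710656) 15) 504)
      (st1 A M (fd (Nat.mod Mi 4294967296) 0 64)
        (Nat.land (Nat.shiftLeft (Nat.mod E 281474976710656) 3) 504)
        (Nat.land (Nat.shiftRight (Nat.mod E 281474976710656) 3) 504) ac))))
      (sm + pw (fd (Nat.mod Mi 4294967296) 0 64) + pw (fd (Nat.mod Mi 4294967296) 8 64) +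
        pw (fd (Nat.mod Mi 4294967296) 16 64) + pw (fd (Nat.mod Mi 4294967296) 24 64))
      (Nat.lor (Nat.lor (Nat.lor (Nat.lor ro (pw (fd (Nat.mod Mi 4294967296) 0 64)))
        (pw (fd (Nat.mod Mi 4294967296) 8 64))) (pw (fd (Nat.mod Mi 4294967296) 16 64)))
        (pw (fd (Nat.mod Mi 4294967296) 24 64)))) c

theorem shr_shr (x a b : ℕ) : Nat.shiftRight (Nat.shiftRight x a) b = Nat.shiftRight x (a + b) := by
  simp only [e_shr, Nat.shiftRight_add]

theorem ref4_eq (A M : ℕ) (fin : ℕ → ℕ → ℕ → ℕ → ℕ → ℕ) (c : ℕ) : ref4 A M fin c = refL A M fin (4 * c) := by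
  induction c with
  | zero => rfl
  | succ c ih =>
    funext E Mi ac sm ro
    have e : ref4 A M fin (c + 1) E Mi ac sm ro = ref4 A M fin c _ _ _ _ _ := rfl
    rw [e, ih, show 4 * (c + 1) = 4 * c + 1 + 1 + 1 + 1 by omega, refL_succ, refL_succ, refL_succ, refL_succ,
      m504a, m504b E 3 (by omega), m504b E 9 (by omega), m504b E 15 (by omega), m504b E 21 (by omega),
      m504b E 27 (by omega), m504b E 33 (by omega), m504b E 39 (by omega), m32 Mi 0 (by omega),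
      m32 Mi 8 (by omega), m32 Mi 16 (by omega), m32 Mi 24 (by omega)]
    simp only [fd_shr, shr_shr, st1]

theorem refL_add (A M : ℕ) (fin : ℕ → ℕ → ℕ → ℕ → ℕ → ℕ) (a b : ℕ) :
    refL A M (refL A M fin a) b = refL A M fin (a + b) := by
  induction b with
  | zero => rfl
  | succ b ih =>
    funext E Mi ac sm ro
    rw [← add_assoc, refL_succ, refL_succ, ih]

theorem refLF_eq : refLF = refL := by
  funext A M fin c
  have e : refLF A M fin c = refL A M (ref4 A M fin (c / 4)) (c % 4) := rfl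
  rw [e, ref4_eq, refL_add, Nat.div_add_mod]

theorem adEF_eq : adEF = adE := rfl

theorem rColF_eq : rColF = rCol := rfl

theorem refBF_eq : refBF = refB := by
  unfold refBF refB
  rw [refLF_eq]
  rfl

theorem rRefF_eq : rRefF = rRef := by
  unfold rRefF rRef
  rw [refBF_eq]

theorem rRefKF_eq : rRefKF = rRefK := by
  unfold rRefKF rRefK
  rw [rRefF_eq]
  rfl

theorem refNF_eq : refNF = refN := by
  unfold refNF refN
  rw [adEF_eq, refBF_eq]
  rfl

theorem rRefNF_eq : rRefNF = rRefN := by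
  unfold rRefNF rRefN
  rw [refNF_eq]

theorem rSplitF_eq : rSplitF = rSplit := rfl

theorem rFlagF_eq : rFlagF = rFlag := rfl

theorem cutVF_eq : cutVF = cutV := rfl

theorem rCutF_eq : rCutF = rCut := by
  unfold rCutF rCut
  rw [cutVF_eq]
  rfl

theorem rFinF_eq : rFinF = rFin := by
  unfold rFinF rFin
  rw [adEF_eq]
  rfl

theorem xNbF_eq : xNbF = xNb := rfl

theorem xS1F_eq : xS1F = xS1 := rfl

theorem xStF_eq : xStF = xSt := by
  unfold xStF xSt
  rw [xS1F_eq]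
  rfl

theorem xSa1F_eq : xSa1F = xSa1 := rfl

theorem xSa2F_eq : xSa2F = xSa2 := by
  unfold xSa2F xSa2
  rw [adEF_eq]
  rfl

theorem xSaF_eq : xSaF = xSa := by
  unfold xSaF xSa
  rw [xSa1F_eq, xSa2F_eq]
  rfl

theorem cutF_eq : cutF = cut := rfl

theorem nSaF_eq : nSaF = nSa := by
  unfold nSaF nSa
  rw [xSaF_eq, cutF_eq]
  rfl

theorem xEdF_eq : xEdF = xEd := rfl

theorem xSbF_eq : xSbF = xSb := rfl

theorem xNsF_eq : xNsF = xNs := rfl

theorem nxtF_eq : nxtF = nxt := by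
  unfold nxtF nxt
  rw [xNbF_eq, xStF_eq, cutF_eq, nSaF_eq, xEdF_eq, xSbF_eq, xNsF_eq]
  rfl

theorem alVF_eq : alVF = alV := rfl

theorem klVF_eq : klVF = klV := rfl

theorem horF_eq : horF = hor := rfl

theorem shpF_eq : shpF = shp := rfl

theorem kqF_eq : kqF = kq := by
  unfold kqF kq
  rw [klVF_eq, horF_eq]
  rfl

theorem treF_eq : treF = tre := rfl

theorem tabF_eq : tabF = tab := by
  unfold tabF tab
  rw [alVF_eq, horF_eq, shpF_eq, kqF_eq, treF_eq]
  rfl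

theorem tJF_eq : tJF = tJ := by
  unfold tJF tJ
  rw [tabF_eq]
  rfl

theorem tAllF_eq : tAllF = tAll := by
  unfold tAllF tAll
  rw [tabF_eq, tJF_eq]
  rfl

theorem sumSF_eq : sumSF = sumS := rfl

theorem mvVF_eq : mvVF = mvV := rfl

theorem mvEF_eq : mvEF = mvE := rfl

theorem mvWF_eq : mvWF = mvW := by
  unfold mvWF mvW
  rw [nxtF_eq]
  rfl

theorem mvBF_eq : mvBF = mvB := by
  unfold mvBF mvB
  rw [tAllF_eq, sumSF_eq, mvVF_eq, mvEF_eq, mvWF_eq]
  rfl

theorem rMoveF_eq : rMoveF = rMove := by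
  unfold rMoveF rMove
  rw [mvBF_eq]
  rfl

theorem stp2F_eq : stp2F = stp2 := by
  unfold stp2F stp2
  rw [rRefKF_eq, rRefNF_eq, rSplitF_eq, rFlagF_eq, rCutF_eq, rFinF_eq, rMoveF_eq]
  rfl

theorem stpF_eq : stpF = stp := by
  unfold stpF stp
  rw [rColF_eq, rRefF_eq, stp2F_eq]

theorem rcsF_eq : rcsF = rcs := by
  unfold rcsF rcs
  rw [stpF_eq]

theorem bldF_eq : bldF = bld := rfl

theorem mkTF_eq : mkTF = mkT := rfl

theorem mkSF_eq : mkSF = mkS := by
  unfold mkSF mkS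
  rw [mkTF_eq]
  rfl

theorem chkEF_eq : chkEF = chkE := by
  unfold chkEF chkE
  rw [rcsF_eq, bldF_eq, mkSF_eq]

theorem chkBF_eq : chkBF = chkB := by
  unfold chkBF chkB
  rw [chkEF_eq]
  rfl

end Pool.Agent.Hom2.Sc
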