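import Pool.Agent.Lib.MP_7e4769_co.Hc.ScR

set_option autoImplicit false

namespace Pool.Agent.Hom2.Sc

variable {V : Type} {G : SimpleGraph V} {X : Finset V}

/-- at most the three listed edges leave `I` -/
def Out3 (G : SimpleGraph V) (I : Finset V) (a b c u v w : V) : Prop :=
  ∀ x ∈ I, ∀ y, y ∉ I → G.Adj x y → (x = a ∧ y = u) ∨ (x = b ∧ y = v) ∨ (x = c ∧ y = w)

section
variable {I : Finset V} {a b c u v w : V}

theorem Out3.sw1 (h : Out3 G I a b c u v w) : Out3 G I b a c v u w :=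
  fun x hx y hy e => or_left_comm.1 (h x hx y hy e)

theorem Out3.sw2 (h : Out3 G I a b c u v w) : Out3 G I a c b u w v :=
  fun x hx y hy e => (h x hx y hy e).imp_right Or.symm

theorem Out3.notin (h : Out3 G I a b c u v w) (hc : Cub G X) (hcl : Closed G X) (h3 : E3 G X)
    (hI : I ⊆ X) (ha : a ∈ I) (hne : I ≠ X) : u ∉ I := by
  intro hu
  have p := three_cut hc hcl h3 hI ⟨a, ha⟩ hne
  have q := ecut_le_list (G := G) (X := X) (C := I) [(b, v), (c, w)] (fun x hx y _ hy e => by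
    rcases h x hx y hy e with r | r | r
    · exact absurd (r.2 ▸ hu) hy
    · simp [r]
    · simp [r])
  simp only [List.length_cons, List.length_nil] at q
  omega

theorem Out3.star (h : Out3 G I a b c u u w) (hc : Cub G X) (hcl : Closed G X) (h3 : E3 G X)
    (hI : I ⊆ X) (ha : a ∈ I) (hb : b ∈ I) (hab : a ≠ b) (e1 : G.Adj a u) (e2 : G.Adj b u)
    (hw : w ∈ X) (hw' : w ∉ I) : w = u := by
  classical
  by_contra ne
  have hu := hcl a (hI ha) u e1
  obtain ⟨z, hz⟩ := hc.second hu e1.symm e2.symm hab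
  have p := three_cut hc hcl h3 (C := insert u I) (Finset.insert_subset hu hI) ⟨u, by simp⟩
    (fun r => by rw [← r] at hw; simp [ne, hw'] at hw)
  have q := ecut_le_list (G := G) (X := X) (C := insert u I) [(u, z), (c, w)] (fun x hx y _ hy e => by
    rw [Finset.mem_insert, not_or] at hy
    rcases Finset.mem_insert.1 hx with rfl | hx
    · rcases hz.cases e with r | r | r
      · exact absurd (r ▸ ha) hy.2
      · exact absurd (r ▸ hb) hy.2
      · simp [r]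
    · rcases h x hx y hy.2 e with r | r | r
      · exact absurd r.2 hy.1
      · exact absurd r.2 hy.1
      · simp [r])
  simp only [List.length_cons, List.length_nil] at q
  omega

theorem Out3.rest (h : Out3 G I a b c u v w) (h4 : C3 G X) (hI : I ⊆ X) (hn : 4 ≤ I.card)
    (hu : u ∈ X ∧ u ∉ I) (hv : v ∈ X ∧ v ∉ I) (hw : w ∈ X ∧ w ∉ I) (uv : u ≠ v) (uw : u ≠ w) (vw : v ≠ w)
    {y : V} (hy : y ∈ X) (hy' : y ∉ I) : y = u ∨ y = v ∨ y = w := by
  classical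
  by_contra e
  simp only [not_or] at e
  have s := Finset.card_le_card (show insert y (insert u (insert v (insert w I))) ⊆ X by
    simp [Finset.insert_subset_iff, *])
  rw [Finset.card_insert_of_notMem (by simp [*]), Finset.card_insert_of_notMem (by simp [*]),
    Finset.card_insert_of_notMem (by simp [*]), Finset.card_insert_of_notMem hw.2] at s
  have p := h4 I hI hn (by omega)
  have q := ecut_le_list (G := G) (X := X) (C := I) [(a, u), (b, v), (c, w)] (fun x hx y _ hy e => by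
    rcases h x hx y hy e with r | r | r <;> simp [r])
  simp only [List.length_cons, List.length_nil] at q
  omega

theorem Out3.tri (h : Out3 G I a b c u v w) (hc : Cub G X) (hcl : Closed G X) (hu : u ∈ X ∧ u ∉ I)
    (e1 : G.Adj a u) (uv : u ≠ v) (uw : u ≠ w) (rest : ∀ y ∈ X, y ∉ I → y = u ∨ y = v ∨ y = w) :
    G.Adj u v ∧ G.Adj u w := by
  obtain ⟨y, z, hn⟩ := hc.first hu.1 e1.symm
  have key : ∀ t, G.Adj u t → a ≠ t → t = v ∨ t = w := fun t e ne => by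
    have nt : t ∉ I := fun ht => by
      rcases h t ht u hu.2 e.symm with r | r | r
      · exact ne r.1.symm
      · exact uv r.2
      · exact uw r.2
    rcases rest t (hcl u hu.1 t e) nt with r | r
    · exact absurd r.symm e.ne
    · exact r
  rcases key y hn.adj2 hn.1 with r | r <;> rcases key z hn.adj3 hn.2.1 with r' | r'
  · exact absurd (r.trans r'.symm) hn.2.2.1
  · exact ⟨r ▸ hn.adj2, r' ▸ hn.adj3⟩
  · exact ⟨r' ▸ hn.adj3, r ▸ hn.adj2⟩
  · exact absurd (r.trans r'.symm) hn.2.2.1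

theorem Out3.fin (h : Out3 G I a b c u v w) (hc : Cub G X) (hcl : Closed G X) (h3 : E3 G X) (h4 : C3 G X)
    (hI : I ⊆ X) (hn : 4 ≤ I.card) (hne : I ≠ X) (ha : a ∈ I) (hb : b ∈ I) (hd : c ∈ I) (ab : a ≠ b)
    (ac : a ≠ c) (bc : b ≠ c) (e1 : G.Adj a u) (e2 : G.Adj b v) (e3 : G.Adj c w) :
    u ∉ I ∧ v ∉ I ∧ w ∉ I ∧ ((v = u ∧ w = u) ∨
      (u ≠ v ∧ u ≠ w ∧ v ≠ w ∧ G.Adj u v ∧ G.Adj u w ∧ G.Adj v w)) := by
  have nu := h.notin hc hcl h3 hI ha hne
  have nv := h.sw1.notin hc hcl h3 hI hb hne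
  have nw := h.sw2.sw1.notin hc hcl h3 hI hd hne
  have xu := hcl a (hI ha) u e1
  have xv := hcl b (hI hb) v e2
  have xw := hcl c (hI hd) w e3
  refine ⟨nu, nv, nw, ?_⟩
  by_cases uv : u = v
  · subst uv
    exact Or.inl ⟨rfl, h.star hc hcl h3 hI ha hb ab e1 e2 xw nw⟩
  by_cases uw : u = w
  · subst uw
    exact absurd (h.sw2.star hc hcl h3 hI ha hd ac e1 e3 xv nv).symm uv
  by_cases vw : v = w
  · subst vw
    exact absurd (h.sw1.sw2.star hc hcl h3 hI hb hd bc e2 e3 xu nu) uv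
  have rest := fun y hy hy' => h.rest h4 hI hn ⟨xu, nu⟩ ⟨xv, nv⟩ ⟨xw, nw⟩ uv uw vw (y := y) hy hy'
  have t1 := h.tri hc hcl ⟨xu, nu⟩ e1 uv uw rest
  have t2 := h.sw1.tri hc hcl ⟨xv, nv⟩ e2 (Ne.symm uv) vw (fun y hy hy' => or_left_comm.1 (rest y hy hy'))
  exact Or.inr ⟨uv, uw, vw, t1.1, t1.2, t2.2⟩

end

theorem three_bits {O : ℕ} (h64 : ∀ i, O.testBit i = true → i < 64) (h2 : clr (clr O) ≠ 0)
    (h3 : clr (clr (clr O)) = 0) : ix O ≠ ix (clr O) ∧ ix O ≠ ix (clr (clr O)) ∧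
    ix (clr O) ≠ ix (clr (clr O)) ∧
    ∀ i, O.testBit i = true ↔ i = ix O ∨ i = ix (clr O) ∨ i = ix (clr (clr O)) := by
  have n1 : clr O ≠ 0 := fun e => h2 (by rw [e, clr_zero])
  have n0 : O ≠ 0 := fun e => n1 (by rw [e, clr_zero])
  obtain ⟨p1, -, p3⟩ := ix_spec n0 h64
  obtain ⟨q1, -, q3⟩ := ix_spec n1 (fun i hi => h64 i (clr_sub hi))
  obtain ⟨r1, -, r3⟩ := ix_spec h2 (fun i hi => h64 i (clr_sub (clr_sub hi)))
  have a := (p3 _).1 q1
  have b := (q3 _).1 r1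
  have c := (p3 _).1 b.1
  refine ⟨a.2.symm, c.2.symm, b.2.symm, fun i => ⟨fun hi => ?_, ?_⟩⟩
  · by_contra e
    simp only [not_or] at e
    exact zero_bit h3 i ((r3 i).2 ⟨(q3 i).2 ⟨(p3 i).2 ⟨hi, e.1⟩, e.2.1⟩, e.2.2⟩)
  · rintro (rfl | rfl | rfl)
    exacts [p1, a.1, c.1]

variable {n A D1 D2 D3 Q : ℕ} {ph : ℕ → V}

theorem Str.ne0 {k : Kc} (h : Str k) {B : ℕ} (e : k n A D1 D2 D3 Q B ≠ 0) : B ≠ 0 :=
  fun z => e (by rw [z]; exact h _ _ _ _ _ _)

theorem St.fin_nb (s : St G X n A D1 D2 D3 Q ph) (hc : Cub G X) (h2 : TwoEC G X) (hcl : Closed G X)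
    (h3 : E3 G X) (h4 : C3 G X) (hn : 4 ≤ n) (hD : ∀ i < n, D2.testBit i = true) {a b c : ℕ}
    (ab : a ≠ b) (ac : a ≠ c) (bc : b ≠ c)
    (ho : ∀ i, (i < n ∧ ¬ D3.testBit i = true) ↔ i = a ∨ i = b ∨ i = c) :
    ∃ u v w, G.Adj (ph a) u ∧ G.Adj (ph b) v ∧ G.Adj (ph c) w ∧ (∀ j < n, ph j ≠ u) ∧ (∀ j < n, ph j ≠ v) ∧
      (∀ j < n, ph j ≠ w) ∧ ((v = u ∧ w = u) ∨
      (u ≠ v ∧ u ≠ w ∧ v ≠ w ∧ G.Adj u v ∧ G.Adj u w ∧ G.Adj v w)) := by
  have oa := (ho a).2 (Or.inl rfl)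
  have ob := (ho b).2 (Or.inr (Or.inl rfl))
  have oc := (ho c).2 (Or.inr (Or.inr rfl))
  obtain ⟨u, u1, u2⟩ := s.unsat hc h2 oa.1 oa.2
  obtain ⟨v, v1, v2⟩ := s.unsat hc h2 ob.1 ob.2
  obtain ⟨w, w1, w2⟩ := s.unsat hc h2 oc.1 oc.2
  have hU : ∀ i, (Nat.sub (pw n) 1).testBit i = true → i < n := fun i => (tb_full n i).1
  have mI : ∀ i < n, ph i ∈ im ph (Nat.sub (pw n) 1) := fun i hi => mem_im.2 ⟨i, (tb_full _ _).2 hi, rfl⟩
  have cI : 4 ≤ (im ph (Nat.sub (pw n) 1)).card := by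
    rw [s.card_im hU, show bs (Nat.sub (pw n) 1) = Finset.range n by
      ext i; rw [mem_bs, tb_full, Finset.mem_range], Finset.card_range]; exact hn
  have hle := s.le
  have pair : ∀ i < n, ∀ j < n, G.Adj (ph i) (ph j) → ¬ mb A i j → ∀ y, G.Adj (ph j) y →
      ¬ mb A j (cd X n ph y) → y = ph i := fun i hi j hj e m y e' m' =>
    s.sat2 hc h2 (hD j hj) e' m' e.symm (by rw [s.cd_ph hi]; exact fun r => m (s.sym j i hi r))
  have hne : im ph (Nat.sub (pw n) 1) ≠ X := by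
    intro e
    have all : ∀ i < n, ∀ y, G.Adj (ph i) y → ¬ mb A i (cd X n ph y) →
        ∃ j < n, y = ph j ∧ ¬ mb A i j ∧ j ≠ i ∧ (j = a ∨ j = b ∨ j = c) := fun i hi y e1 m => by
      obtain ⟨j, hj, rfl⟩ := mem_im.1 (e ▸ hcl _ (s.mem i hi) y e1)
      have hj := hU j hj
      rw [s.cd_ph hj] at m
      exact ⟨j, hj, rfl, m, fun r => e1.ne (by rw [r]), (ho j).1 ⟨hj, (s.opn hc h2 hi hj e1 m).2⟩⟩
    obtain ⟨i, hi, rfl, i2, i3, i4⟩ := all a oa.1 u u1 u2
    obtain ⟨j, hj, rfl, j2, j3, j4⟩ := all b ob.1 v v1 v2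
    obtain ⟨l, hl, rfl, l2, l3, l4⟩ := all c oc.1 w w1 w2
    have pa := fun t ht e m => s.inj _ hi _ ht (pair t ht a oa.1 e m _ u1 u2)
    have pb := fun t ht e m => s.inj _ hj _ ht (pair t ht b ob.1 e m _ v1 v2)
    have pc := fun t ht e m => s.inj _ hl _ ht (pair t ht c oc.1 e m _ w1 w2)
    rcases i4 with rfl | rfl | rfl
    · exact i3 rfl
    · have := pb a oa.1 u1 i2
      rcases l4 with rfl | rfl | rfl
      · exact bc (pa c oc.1 w1 l2)
      · have := pb c oc.1 w1 l2; omega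
      · exact l3 rfl
    · have := pc a oa.1 u1 i2
      rcases j4 with rfl | rfl | rfl
      · exact bc (pa b ob.1 v1 j2).symm
      · exact j3 rfl
      · have := pc b ob.1 v1 j2; omega
  have out : Out3 G (im ph (Nat.sub (pw n) 1)) (ph a) (ph b) (ph c) u v w := by
    intro x hx y hy e
    obtain ⟨i, hi, rfl⟩ := mem_im.1 hx
    have hi := hU i hi
    have m : ¬ mb A i (cd X n ph y) := fun r => by
      rcases s.kn r with t | t
      · exact hy (t.2.1 ▸ mI _ t.1)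
      · exact t.2 (hcl _ (s.mem i hi) y e)
    rcases (ho i).1 ⟨hi, fun r => m (s.sat hc h2 r e)⟩ with rfl | rfl | rfl
    · exact Or.inl ⟨rfl, s.sat2 hc h2 (hD i hi) e m u1 u2⟩
    · exact Or.inr (Or.inl ⟨rfl, s.sat2 hc h2 (hD i hi) e m v1 v2⟩)
    · exact Or.inr (Or.inr ⟨rfl, s.sat2 hc h2 (hD i hi) e m w1 w2⟩)
  obtain ⟨nu, nv, nw, r⟩ := out.fin hc hcl h3 h4 (s.im_sub hU) cI hne (mI a oa.1) (mI b ob.1) (mI c oc.1)
    (fun e => ab (s.inj _ oa.1 _ ob.1 e)) (fun e => ac (s.inj _ oa.1 _ oc.1 e))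
    (fun e => bc (s.inj _ ob.1 _ oc.1 e)) u1 v1 w1
  exact ⟨u, v, w, u1, v1, w1, fun j hj e => nu (e ▸ mI j hj), fun j hj e => nv (e ▸ mI j hj),
    fun j hj e => nw (e ▸ mI j hj), r⟩

theorem St.rFin (s : St G X n A D1 D2 D3 Q ph) {P : Pm} {Gl : Prop} (cx : Ctx P G X Gl) {rc : Kc → Kc}
    {B : ℕ} (hr : RecOK G X Gl rc)
    (h : rFin (Nat.add P.cl (Nat.add P.fe P.fc)) rc n A D1 D2 D3 Q B ≠ 0) : Gl := by
  unfold Sc.rFin at h
  have st := hr.2 k0
  have h1 := Str.ne0 (adE_str (adE_str (adE_str (adE_str (adE_str (adE_str st _ _) _ _) _ _) _ _) _ _) _ _) h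
  have z := (gd_ne (Str.ne0 (adE_str (adE_str (adE_str st _ _) _ _) _ _) h1)).2
  simp only [e_add, Nat.add_eq_zero_iff] at z h h1
  obtain ⟨⟨z1, z2⟩, ⟨z3, z4⟩, z5, z6⟩ := z
  have hO : ∀ i, (Nat.xor (Nat.sub (pw n) 1) D3).testBit i = true ↔ i < n ∧ ¬ D3.testBit i = true := by
    intro i
    rw [tb_xor, tb_full]
    have := s.d3_lt (i := i)
    tauto
  have hle := s.le
  obtain ⟨ab, ac, bc, ho⟩ := three_bits (fun i hi => by have := (hO i).1 hi; omega)
    (by simp only [e_sub] at z3 ⊢; omega) z2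
  simp only [hO] at ho
  generalize ix (Nat.xor (Nat.sub (pw n) 1) D3) = a at *
  generalize ix (clr (Nat.xor (Nat.sub (pw n) 1) D3)) = b at *
  generalize ix (clr (clr (Nat.xor (Nat.sub (pw n) 1) D3))) = c at *
  simp only [e_sub] at z4 z5 z6
  have := cx.cl1; have := cx.fe1; have := cx.fc1
  have hcl := cx.cl (by omega)
  obtain ⟨u, v, w, u1, v1, w1, nu, nv, nw, r⟩ := s.fin_nb cx.cub cx.two hcl (cx.fe (by omega))
    (cx.fc (by omega)) (by omega) (fun i hi => by rw [xor_zero' z1]; exact (tb_full _ _).2 hi) ab ac bc ho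
  have oa := ((ho a).2 (Or.inl rfl)).1
  have ob := ((ho b).2 (Or.inr (Or.inl rfl))).1
  have oc := ((ho c).2 (Or.inr (Or.inr rfl))).1
  have xu := hcl _ (s.mem a oa) u u1
  have xv := hcl _ (s.mem b ob) v v1
  have xw := hcl _ (s.mem c oc) w w1
  rcases r with ⟨rfl, rfl⟩ | ⟨uv, uw, vw, e1, e2, e3⟩
  · obtain ⟨A', E1, E2, E3, s', h'⟩ := s.adE_new (by omega) oa xu nu u1 h1
    refine s'.adE_old (by omega) (by omega) ?_ (ks_adE (by omega) (by omega) ?_ (hr.1 _ _ _ ks_k0)) h'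
    · simpa [show b ≠ n by omega] using v1
    · simpa [show c ≠ n by omega] using w1
  · obtain ⟨A1, E1, E2, E3, s1, k1⟩ := s.adE_new (by omega) oa xu nu u1 h
    obtain ⟨A2, F1, F2, F3, s2, k2⟩ := s1.adE_new (v := v) (by omega) (by omega) xv
      (fun j hj => by
        by_cases e : j = n
        · simpa [e] using uv
        · simpa [e] using nv j (by omega)) (by simpa [show b ≠ n by omega] using v1) k1
    obtain ⟨A3, H1, H2, H3, s3, k3⟩ := s2.adE_new (v := w) (by omega) (by omega) xw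
      (fun j hj => by
        by_cases e : j = n + 1
        · simpa [e] using vw
        by_cases e' : j = n
        · simpa [e'] using uw
        · simpa [e, e'] using nw j (by omega))
      (by simpa [show c ≠ n by omega, show c ≠ n + 1 by omega] using w1) k2
    refine s3.adE_old (by omega) (by omega) ?_ (ks_adE (by omega) (by omega) ?_
      (ks_adE (by omega) (by omega) ?_ (hr.1 _ _ _ ks_k0))) k3
    · simpa [show n ≠ n + 1 + 1 by omega] using e1
    · simpa [show n ≠ n + 1 + 1 by omega] using e2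
    · simpa using e3

end Pool.Agent.Hom2.Sc
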