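import Pool.Agent.Lib.MP_7e4769_co.Hc.ScR

set_option autoImplicit false

namespace Pool.Agent.Hom2.Sc

variable {V : Type} {G : SimpleGraph V} {X : Finset V}

theorem slot0 (e i : ℕ) : Nat.mod (fd e (Nat.add (Nat.mul 12 i) 6) 4096) 64 = slot e i 0 := by
  unfold slot
  rw [fd_eq, fd_eq, e_mod, e_add, e_mul, show 6 + 12 * i + 6 * 0 = 12 * i + 6 by omega]
  omega

theorem slot1 (e i : ℕ) : Nat.div (fd e (Nat.add (Nat.mul 12 i) 6) 4096) 64 = slot e i 1 := by
  unfold slot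
  rw [fd_eq, fd_eq, e_div, e_add, e_mul, show 6 + 12 * i + 6 * 1 = 12 * i + 6 + 6 by omega,
    pow_add _ (12 * i + 6) 6, ← Nat.div_div_eq_div_mul]
  generalize e / 2 ^ (12 * i + 6) = w
  omega

theorem slot_lt (e i t : ℕ) : slot e i t < 64 := fd_lt _ _ (by omega)

theorem bld_succ (e c : ℕ) : bld e (c + 1) = Nat.lor (Nat.lor (bld e c) (Nat.shiftLeft
    (Nat.lor (pw (slot e c 0)) (pw (slot e c 1))) (Nat.mul 64 c)))
    (Nat.lor (Nat.shiftLeft (pw c) (Nat.mul 64 (slot e c 0)))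
      (Nat.shiftLeft (pw c) (Nat.mul 64 (slot e c 1)))) := by
  rw [← slot0, ← slot1]; rfl

theorem mb_bld (e : ℕ) {c : ℕ} (hc : c ≤ 64) (p : ℕ) {q : ℕ} (hq : q < 64) :
    mb (bld e c) p q ↔ ∃ i < c, ∃ t < 2, (p = i ∧ q = slot e i t) ∨ (p = slot e i t ∧ q = i) := by
  induction c with
  | zero => exact ⟨fun h => absurd h (mb_zero rfl _ _), fun ⟨_, h, _⟩ => by omega⟩
  | succ c ih =>
    have l0 := slot_lt e c 0
    have l1 := slot_lt e c 1
    rw [bld_succ, mb_lor, mb_lor, mb_lor, ih (by omega)]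
    unfold mb
    rw [tb_shl, tb_shl, tb_shl, tb_lor, tb_pw, tb_pw, tb_pw, tb_pw, e_mul, e_mul, e_mul]
    constructor
    · rintro ((⟨i, hi, r⟩ | r) | r | r)
      · exact ⟨i, by omega, r⟩
      · rcases r.2 with z | z
        · exact ⟨c, by omega, 0, by omega, by omega⟩
        · exact ⟨c, by omega, 1, by omega, by omega⟩
      · exact ⟨c, by omega, 0, by omega, by omega⟩
      · exact ⟨c, by omega, 1, by omega, by omega⟩
    · rintro ⟨i, hi, t, ht, r⟩
      by_cases z : i = c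
      · subst z
        interval_cases t
        · rcases r with r | r
          · exact Or.inl (Or.inr (by omega))
          · exact Or.inr (Or.inl (by omega))
        · rcases r with r | r
          · exact Or.inl (Or.inr (by omega))
          · exact Or.inr (Or.inr (by omega))
      · exact Or.inl (Or.inl ⟨i, by omega, t, ht, r⟩)

theorem mb_col (A : ℕ) {n s : ℕ} (hs : s < 64) (i : ℕ) {j : ℕ} (hj : j < 64) :
    mb (Nat.shiftLeft (Nat.land (Nat.shiftRight A n) cR) s) i j ↔ j = s ∧ i < 64 ∧ mb A i n := by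
  have := mul_rows (x := Nat.land (Nat.shiftRight A n) cR) (c := pw s)
    (fun i j hj h => ((mb_cR i hj).1 ((mb_land _ _ _ _).1 h).2).2)
    (by rw [pw_eq]; exact Nat.pow_lt_pow_right (by omega) hs) i hj
  rw [e_shl, Nat.shiftLeft_eq, ← pw_eq, ← e_mul, this, tb_pw, mb_land, mb_cR i (by omega)]
  unfold mb
  rw [tb_shr, show n + (64 * i + 0) = 64 * i + n by omega]
  exact ⟨fun r => ⟨r.2, r.1.2.1, r.1.1⟩, fun r => ⟨⟨r.2.2, r.2.1, rfl⟩, r.1⟩⟩

/-- the matrix with the stub column moved -/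
def mv62 (n A : ℕ) : ℕ :=
  Nat.mod (Nat.lor (Nat.xor A (Nat.shiftLeft (Nat.land (Nat.shiftRight A n) cR) n))
    (Nat.shiftLeft (Nat.land (Nat.shiftRight A n) cR) 62)) (pw (Nat.mul 64 n))

theorem mb_mv62 (A : ℕ) {n : ℕ} (hn : n < 64) (i : ℕ) {j : ℕ} (hj : j < 64) :
    mb (mv62 n A) i j ↔ i < n ∧ ((mb A i j ∧ j ≠ n) ∨ (j = 62 ∧ mb A i n)) := by
  have a := mb_col A (n := n) hn i hj
  have b := mb_col A (n := n) (s := 62) (by omega) i hj
  have c : mb (mv62 n A) i j ↔ 64 * i + j < Nat.mul 64 n ∧ mb (Nat.lor (Nat.xor A (Nat.shiftLeft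
      (Nat.land (Nat.shiftRight A n) cR) n)) (Nat.shiftLeft (Nat.land (Nat.shiftRight A n) cR) 62)) i j :=
    tb_modpw _ _ _
  rw [c, mb_lor, mb_xor, a, b, e_mul]
  constructor
  · rintro ⟨p, r | r⟩
    · refine ⟨by omega, Or.inl ?_⟩
      by_cases z : j = n
      · subst z
        exact absurd ⟨fun t => ⟨rfl, by omega, t⟩, fun t => t.2.2⟩ r
      · exact ⟨by_contra fun t => r ⟨fun u => absurd u t, fun u => absurd u.1 z⟩, z⟩
    · exact ⟨by omega, Or.inr ⟨r.1, r.2.2⟩⟩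
  · rintro ⟨p, r | r⟩
    · exact ⟨by omega, Or.inl (fun t => r.2 (t.1 r.1).1)⟩
    · exact ⟨by omega, Or.inr ⟨r.1, by omega, r.2⟩⟩

theorem mkT_sound {Gl : Prop} {k : Kc} {n A Q B : ℕ} {ph : ℕ → V} (hs : Str k) (hk : KS G X Gl k n ph)
    (st : B ≠ 0 → ∀ D1 D2 D3, (Mx A → (∀ i, D1.testBit i = true ↔ 1 ≤ (bs (row A i)).card) ∧
      (∀ i, D2.testBit i = true ↔ 2 ≤ (bs (row A i)).card) ∧
      ∀ i, D3.testBit i = true ↔ 3 ≤ (bs (row A i)).card) → St G X n A D1 D2 D3 Q ph)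
    (h : mkT n A Q k B ≠ 0) : Gl := by
  unfold mkT at h
  obtain ⟨b, z⟩ := gd_ne (fun z => h (by rw [z]; exact hs _ _ _ _ _ _))
  simp only [e_add, Nat.add_eq_zero_iff] at z
  refine hk _ _ _ _ _ _ _ _ (Ext.refl _ _) (st b _ _ _ (fun mx => ⟨fun i => ?_, fun i => ?_, fun i => ?_⟩)) h
  · rw [cpr_spec z.1, mb_nzR mx i (by omega), ne_eq, ← card_zero_iff]; omega
  · rw [cpr_spec z.2.1, mb_nzR mx.clR i (by omega), row_clR mx, ne_eq, clr1]; omega
  · rw [cpr_spec z.2.2, mb_nzR mx.clR.clR i (by omega), row_clR mx.clR, row_clR mx, ne_eq, clr2]; omega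

theorem mkS_eq (n A : ℕ) (k : Kc) (B : ℕ) : mkS n A k B =
    mkT n (Nat.xor (mv62 n A) (Nat.land (mv62 n A) cD))
      (Nat.mod (Nat.land (mv62 n A) cD) 18446744073709551615) k
      (gd B (Nat.add (Nat.add (Nat.shiftRight A (Nat.mul 64 (Nat.add n 1)))
        (Nat.xor (dia (Nat.mod (Nat.land (mv62 n A) cD) 18446744073709551615)) (Nat.land (mv62 n A) cD)))
        (Nat.sub n 60))) := rfl

theorem mkS_sound {Gl : Prop} {k : Kc} {e B : ℕ} {ph : ℕ → V} (hs : Str k)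
    (hk : KS G X Gl k (e % 64) ph) (E : EmbE G X e ph) (h : mkS (e % 64) (bld e (e % 64)) k B ≠ 0) : Gl := by
  rw [mkS_eq] at h
  refine mkT_sound hs hk (fun b D1 D2 D3 hd => ?_) h
  obtain ⟨-, z⟩ := gd_ne b
  simp only [e_add, Nat.add_eq_zero_iff, e_sub, e_mul] at z
  obtain ⟨⟨z1, z2⟩, z3⟩ := z
  have hb := fun p q hq => mb_bld e (c := e % 64) (by omega) p (q := q) hq
  have hm := fun i j hj => mb_mv62 (bld e (e % 64)) (n := e % 64) (by omega) i (j := j) hj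
  have hQ : Nat.mod (Nat.land (mv62 (e % 64) (bld e (e % 64))) cD) 18446744073709551615 < 2 ^ 64 :=
    lt_trans (Nat.mod_lt _ (by norm_num)) (by norm_num)
  have hq := fun i j hj => mb_dia hQ i (j := j) hj
  rw [xor_zero' z2] at hq
  generalize Nat.mod (Nat.land (mv62 (e % 64) (bld e (e % 64))) cD) 18446744073709551615 = Q at *
  have hA : ∀ i, ∀ j < 64, mb (Nat.xor (mv62 (e % 64) (bld e (e % 64)))
      (Nat.land (mv62 (e % 64) (bld e (e % 64))) cD)) i j ↔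
      mb (mv62 (e % 64) (bld e (e % 64))) i j ∧ i ≠ j := by
    intro i j hj
    rw [mb_xor, mb_land, mb_cD i hj]
    exact ⟨fun r => ⟨by_contra fun t => r ⟨fun u => absurd u t, fun u => u.1⟩,
      fun t => r ⟨fun u => ⟨u, t⟩, fun u => u.1⟩⟩, fun r t => r.2 (t.1 r.1).2⟩
  have sl : ∀ i < e % 64, ∀ t < 2, slot e i t ≤ e % 64 := by
    intro i hi t ht
    by_contra c
    refine zero_bit z1 (64 * slot e i t + i - 64 * (e % 64 + 1)) ?_
    rw [tb_shr, show 64 * (e % 64 + 1) + (64 * slot e i t + i - 64 * (e % 64 + 1)) = 64 * slot e i t + i by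
      omega]
    exact (hb _ i (by omega)).2 ⟨i, hi, t, ht, Or.inr ⟨rfl, rfl⟩⟩
  have col : ∀ p, ∀ q < 64, mb (bld e (e % 64)) p q → q ≤ e % 64 := by
    intro p q hq r
    obtain ⟨i, hi, t, ht, r⟩ := (hb p q hq).1 r
    have := sl i hi t ht
    omega
  have rng : ∀ i, ∀ j < 64, mb (Nat.xor (mv62 (e % 64) (bld e (e % 64)))
      (Nat.land (mv62 (e % 64) (bld e (e % 64))) cD)) i j → i < e % 64 ∧ (j < e % 64 ∨ j = 62) := by
    intro i j hj r
    obtain ⟨a, r | r⟩ := (hm i j hj).1 ((hA i j hj).1 r).1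
    · have := col i j hj r.1; omega
    · omega
  obtain ⟨d1, d2, d3⟩ := hd (fun i j hj r => by have := rng i j hj r; omega)
  refine ⟨by omega, E.mem, E.inj, rng, fun i j hj r => ?_, fun i j hj r => ?_, fun i r => ?_, d1, d2, d3,
    fun i r => ?_⟩
  · obtain ⟨r, ne⟩ := (hA i j (by omega)).1 r
    obtain ⟨a, r | r⟩ := (hm i j (by omega)).1 r
    · obtain ⟨u, hu, t, ht, ⟨rfl, rfl⟩ | ⟨rfl, rfl⟩⟩ := (hb i j (by omega)).1 r.1
      · exact E.adj _ hu t ht hj ne.symm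
      · exact (E.adj _ hu t ht a ne).symm
    · omega
  · obtain ⟨r, ne⟩ := (hA i j (by omega)).1 r
    obtain ⟨a, r | r⟩ := (hm i j (by omega)).1 r
    · obtain ⟨u, hu, t, ht, w⟩ := (hb i j (by omega)).1 r.1
      exact (hA j i (by omega)).2 ⟨(hm j i (by omega)).2 ⟨hj, Or.inl ⟨(hb j i (by omega)).2
        ⟨u, hu, t, ht, by omega⟩, by omega⟩⟩, ne.symm⟩
    · omega
  · obtain ⟨r, ne⟩ := (hA i 62 (by omega)).1 r
    obtain ⟨a, r | r⟩ := (hm i 62 (by omega)).1 r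
    · have := col i 62 (by omega) r.1; omega
    · obtain ⟨u, hu, t, ht, w | w⟩ := (hb i _ (by omega)).1 r.2
      · exact w.1 ▸ E.stb u hu t ht w.2.symm
      · omega
  · have l := bit_lt hQ r
    obtain ⟨a, w | w⟩ := (hm i i l).1 ((mb_land _ _ _ _).1 ((hq i i l).2 ⟨rfl, r⟩)).1
    · obtain ⟨u, hu, t, ht, w⟩ := (hb i i l).1 w.1
      obtain rfl : i = u := by omega
      exact ⟨a, E.ker i hu t ht (by omega)⟩
    · omega

variable {P : Pm} {Gl : Prop}

theorem chkE_sound (_cx : Ctx P G X Gl) {f e B : ℕ} (hr : RecOK G X Gl (rcs P f 250))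
    (h : chkE P f e B ≠ 0) : Holds G X Gl e :=
  fun _ E => mkS_sound (hr.2 k0) (hr.1 _ _ _ ks_k0) E h

theorem chkB_succ (P : Pm) (c f B : ℕ) : chkB P (c + 1) f B =
    Nat.xor (chkE P f (dget P.db f) (fd B 24 (pw (Nat.mod B 16777216)))) 1 +
      chkB P c (f + 1) (Nat.shiftRight B (Nat.add (Nat.mod B 16777216) 24)) := rfl

theorem chkB_sound (cx : Ctx P G X Gl)
    (hrec : ∀ f, (∀ g < f, Holds G X Gl (dget P.db g)) → RecOK G X Gl (rcs P f 250)) {c f B : ℕ}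
    (h : chkB P c f B = 0) (hf : ∀ g < f, Holds G X Gl (dget P.db g)) :
    ∀ g < f + c, Holds G X Gl (dget P.db g) := by
  induction c generalizing f B with
  | zero => exact hf
  | succ c ih =>
    rw [chkB_succ, Nat.add_eq_zero_iff] at h
    have a := chkE_sound cx (hrec f hf) (by rw [xor_zero' h.1]; omega)
    intro g hg
    refine ih h.2 (fun g hg => ?_) g (by omega)
    by_cases z : g = f
    · exact z ▸ a
    · exact hf g (by omega)

end Pool.Agent.Hom2.Sc
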