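import Pool.Agent.Lib.MP_7e4769_co.Hc.ScM
import Pool.Agent.Lib.MP_7e4769_co.Hc.ScG
import Pool.Agent.Lib.MP_7e4769_co.Hc.ScH
import Pool.Agent.Lib.MP_7e4769_co.Hc.ScE

set_option autoImplicit false

namespace Pool.Agent.Hom2.Sc

variable {V : Type} {G : SimpleGraph V} {X : Finset V} {Gl : Prop} {P : Pm} {rc : Kc → Kc} {f : ℕ}

theorem stp2_ks (cx : Ctx P G X Gl) (hf : ∀ g < f, Holds G X Gl (dget P.db g)) (hr : RecOK G X Gl rc)
    {k : Kc} {n0 : ℕ} {ph0 : ℕ → V} (hk : KS G X Gl k n0 ph0) : KS G X Gl (stp2 P f rc k) n0 ph0 := by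
  intro n A D1 D2 D3 Q ph B x s h
  have hk := hk.ext x
  unfold stp2 at h
  generalize fd B 2 8 = t at h
  generalize Nat.shiftRight B 5 = B' at h
  rcases t with _ | _ | _ | _ | _ | _ | _ | t
  · exact s.rSplit cx hr hk h
  · exact s.rRefK cx.cub cx.two hf h
  · exact (rCut_sound cx s h).elim
  · exact s.rMove cx hr hf h
  · exact s.rFlag hr hk h
  · exact s.rFin cx hr h
  · exact s.refN cx.cub cx.two hr hk (cx.non _)
      (show refN rc k (dget P.dn (B' % 1048576)) (B' % 1048576) P.nt n A D1 D2 D3 Q _ ≠ 0 from h)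
  · exact cx.ext f hf rc k n ph hr hk _ _ _ _ _ _ _ _ (Ext.refl _ _) s h

theorem stp_ok (cx : Ctx P G X Gl) (hf : ∀ g < f, Holds G X Gl (dget P.db g)) (hr : RecOK G X Gl rc) :
    RecOK G X Gl (stp P f rc) := by
  refine ⟨fun k n0 ph0 hk n A D1 D2 D3 Q ph B x s h => ?_, fun k n A D1 D2 D3 Q => ?_⟩
  · unfold stp at h
    generalize Nat.mod B 4 = t at h
    rcases t with _ | _ | _ | t
    · exact cx.good (s.rCol cx.cub cx.two h)
    · exact s.rRef hf (fun _ _ _ e => Or.inl e) h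
    · exact hk _ _ _ _ _ _ _ _ x s h
    · exact stp2_ks cx hf hr hk _ _ _ _ _ _ _ _ x s h
  · change rCol n A D1 D2 D3 Q 0 = 0
    unfold rCol
    rw [show Nat.shiftRight 0 (Nat.mul 2 n) = 0 by simp [e_shr]]
    exact gd_zero _

theorem rcs_ok (cx : Ctx P G X Gl) (hf : ∀ g < f, Holds G X Gl (dget P.db g)) (fuel : ℕ) :
    RecOK G X Gl (rcs P f fuel) := by
  induction fuel with
  | zero => exact ⟨fun _ _ _ _ => ks_k0, fun _ _ _ _ _ _ _ => rfl⟩
  | succ c ih => exact stp_ok cx hf ih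

/-- soundness of the checker -/
theorem chk_sound (cx : Ctx P G X Gl) {c f B : ℕ} (h : chkBF P c f B = 0)
    (hf : ∀ g < f, Holds G X Gl (dget P.db g)) : ∀ g < f + c, Holds G X Gl (dget P.db g) :=
  chkB_sound cx (fun _ hf => rcs_ok cx hf 250) (chkBF_eq ▸ h) hf

end Pool.Agent.Hom2.Sc
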