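import Pool.Agent.Lib.MP_7e4769_co.Hc.TDefs
import Pool.Agent.Lib.MP_7e4769_co.Hc.ScX

set_option autoImplicit false

namespace Pool.Agent.Hom2

variable {V : Type} {G : SimpleGraph V} {X : Finset V}

/-- member `m` maps into the entry `e` along `M` (6 bits per vertex) -/
def memE (e m M : ℕ) : Prop :=
  m < 70 ∧ ∀ i < mN m, cv M i < e % 64 ∧ (∀ j < i, cv M i ≠ cv M j) ∧ ∀ k < 3, sl (mR m) i k = 0 ∨
    (sl (mR m) i k = 1 ∧ ∃ t < 2, Sc.slot e (cv M i) t = e % 64) ∨
    (2 ≤ sl (mR m) i k ∧ sl (mR m) i k - 2 < mN m ∧ i ≠ sl (mR m) i k - 2 ∧ ∃ t < 2,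
      Sc.slot e (cv M i) t = cv M (sl (mR m) i k - 2) ∨ Sc.slot e (cv M (sl (mR m) i k - 2)) t = cv M i)

instance (e m M : ℕ) : Decidable (memE e m M) := by unfold memE; infer_instance

theorem memE.holds {e m M : ℕ} (h : memE e m M) : Sc.Holds G X (TG G X) e := by
  intro ph E
  obtain ⟨hm, h⟩ := h
  have inj : ∀ i < mN m, ∀ j < mN m, cv M i = cv M j → i = j := fun i hi j hj r => by
    rcases lt_trichotomy i j with c | c | c
    exacts [absurd r.symm ((h j hj).2.1 i c), c, absurd r ((h i hi).2.1 j c)]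
  refine Or.inr ⟨m, hm, fun i => ph (cv M i), fun i hi => E.mem _ (h i hi).1,
    fun i hi j hj r => inj i hi j hj (E.inj _ (h i hi).1 _ (h j hj).1 r), fun i hi k hk c => ?_,
    fun i hi k hk y c => ?_⟩
  · rcases (h i hi).2.2 k hk with r | ⟨-, t, ht, r⟩ | r
    exacts [by omega, E.stb _ (h i hi).1 t ht r, by omega]
  · rcases (h i hi).2.2 k hk with r | r | ⟨-, a, b, t, ht, r⟩
    · omega
    · omega
    rw [c, Nat.add_sub_cancel] at a b r
    have ne : cv M i ≠ cv M y := fun z => b (inj i hi y a z)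
    refine ⟨a, r.elim (fun r => ?_) (fun r => ?_)⟩
    · exact r ▸ E.adj _ (h i hi).1 t ht (r ▸ (h y a).1) (r ▸ ne.symm)
    · exact (r ▸ E.adj _ (h y a).1 t ht (r ▸ (h i hi).1) (r ▸ ne)).symm

/-- the entries of the seven cubic members -/
def baseE (g : ℕ) : ℕ := [0x30c20c2044, 0x61892492092481871850041020c204a,
  0xc30f3cf38f3ce30c34618924920924818718114b102003290,
  0x124955555155544924cc30f3cf38f3ce30d3061892492052480c719104b10200a416, 0x51492490c82092061c600514210204a,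
  0x61892490c92481c620600514210204a, 0x924d34514d2cd0cc30b24c3082ca18800718414204e].getD g 0

theorem baseE_ok : ∀ g < 7, memE (baseE g) g 0x5544d24503ce34c2ca2481c61440c2040 := by decide +kernel

theorem base_all {db : Sc.DT} (h : ∀ g < 7, Sc.dget db g = baseE g) :
    ∀ g < 7, Sc.Holds G X (TG G X) (Sc.dget db g) := fun g hg => h g hg ▸ (baseE_ok g hg).holds

/-- one more block of facts -/
theorem holds_chain {Gl : Prop} {db : Sc.DT} {f c : ℕ} (hf : ∀ g < f, Sc.Holds G X Gl (Sc.dget db g))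
    {P : Sc.Pm} (cx : Sc.Ctx P G X Gl) (e : P.db = db) {B : ℕ} (h : Sc.chkBF P c f B = 0) :
    ∀ g < f + c, Sc.Holds G X Gl (Sc.dget db g) := e ▸ Sc.chk_sound cx h (e ▸ hf)

end Pool.Agent.Hom2
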