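import Pool.Agent.Lib.MP_7e4769_co.Hc.Fin
import Pool.Agent.Lib.MP_7e4769_co.Hc.StB
import Pool.Agent.Lib.MP_7e4769_co.Hc.PkE
import Pool.Agent.Lib.MP_7e4769_co.Hc.RpH

set_option autoImplicit false

namespace Pool.Agent.Hom2

variable {V : Type} [DecidableEq V]

/-- the facts on short even cycles from the checked tables -/
theorem start_of {db dn : Sc.DT} {nt g0 g1 g2 g5 g3 N : ℕ}
    (all : ∀ (G : SimpleGraph V) (X : Finset V),
      (∀ t, Sc.Ctx (St.pmOf db dn nt (St.pr4 g0 g1 g2 g5 g3) t) G X (TG G X)) →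
      (∀ g < 7, Sc.Holds G X (TG G X) (Sc.dget db g)) → ∀ g < N, Sc.Holds G X (TG G X) (Sc.dget db g))
    (hb : ∀ g < 7, Sc.dget db g = baseE g) (e0 : Sc.dget db g0 = Pk.eT) (e1 : Sc.dget db g1 = Pk.eD)
    (e2 : Sc.dget db g2 = Pk.eK) (e3 : Sc.dget db g3 = Pk.eO)
    (non : ∀ (G : SimpleGraph V) (X : Finset V), Rq.RC G X →
      ∀ g < nt, Sc.HoldsN G X (TG G X) (Sc.dget dn g))
    (roots : ∀ j, 2 ≤ j → j ≤ 10 → ∃ r < N, cycE (Sc.dget db r) (2 * j))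
    (G : SimpleGraph V) (X : Finset V) (h : Lv3 G X) (j : ℕ) (h1 : 2 ≤ j) (h2 : j ≤ 10) :
    ∃ e, cycE e (2 * j) ∧ Sc.Holds G X (TG G X) e := by
  obtain ⟨r, hr, e⟩ := roots j h1 h2
  exact ⟨_, e, all G X (fun t => h.ctx (fun C ρ a _ c d e => Or.inr
    (Pk.prog_ok ⟨h.cub, h.two, h.cl, h.e3, h.c3, h.below⟩ e0 e1 e2 e3 C ρ a c d e))
    (non G X ⟨h.cub, h.cl, h.e3, h.c3, h.below⟩)) (base_all hb) r hr⟩

end Pool.Agent.Hom2
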