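import Pool.Agent.Lib.MP_7e4769_co.Hc.UEm

set_option autoImplicit false

namespace Pool.Agent.Hom2.UC

theorem ucol_okT : ∀ (cs : Fin 16) (x a b c : Fin 4),
    (∀ t : Fin 4, tb cs t.val = true ↔ t = a ∨ t = b ∨ t = c) → okT x.val cs ≠ 0 → ok4 x a b c := by
  decide +kernel

open Classical

variable {V : Type} {G : SimpleGraph V} {X : Finset V}

/-- colour of a pattern vertex -/
def colF4 (lo hi v : ℕ) : Fin 4 := ⟨colr lo hi v % 4, Nat.mod_lt _ (by omega)⟩

theorem colr_lt (lo hi v : ℕ) : colr lo hi v < 4 := by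
  unfold colr
  rw [bt_eq, bt_eq]
  split_ifs <;> decide
theorem cls4_eq (U lo hi : ℕ) (k : ℕ → ℕ → ℕ → ℕ → ℕ) : cls4 U lo hi k =
    k (dif U (Nat.lor lo hi)) (Nat.xor lo (Nat.land lo hi)) (Nat.xor hi (Nat.land lo hi)) (Nat.land lo hi) := by
  simp only [cls4, fz_eq]
theorem ucol_bits (a b c d : ℕ) (x : ℕ)
    (hx : x = Nat.add (Nat.add (sg a) (Nat.mul 2 (sg b))) (Nat.add (Nat.mul 4 (sg c)) (Nat.mul 8 (sg d)))) :
    x < 16 ∧ (tb x 0 = true ↔ a ≠ 0) ∧ (tb x 1 = true ↔ b ≠ 0) ∧ (tb x 2 = true ↔ c ≠ 0) ∧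
      (tb x 3 = true ↔ d ≠ 0) := by
  simp only [sg_eq] at hx
  split_ifs at hx <;> simp only [*, ne_eq, not_true, not_false_eq_true, iff_true, iff_false] <;> decide
theorem ucol_and (r c : ℕ) : Nat.land r c ≠ 0 ↔ ∃ j, tb r j = true ∧ tb c j = true := by
  simp only [ne_eq, eq_zero_iff (Nat.land r c), tb_and, not_forall, not_not]
theorem ucol_xor (a b j : ℕ) : tb (Nat.xor a (Nat.land a b)) j = true ↔ tb a j = true ∧ ¬ tb b j = true :=
  tb_dif a b j
theorem ucol_cls {U lo hi : ℕ} (hlo : ∀ j, tb lo j = true → tb U j = true)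
    (hhi : ∀ j, tb hi j = true → tb U j = true) (j : ℕ) :
    (tb (dif U (Nat.lor lo hi)) j = true ↔ tb U j = true ∧ colr lo hi j = 0) ∧
    (tb (Nat.xor lo (Nat.land lo hi)) j = true ↔ tb U j = true ∧ colr lo hi j = 1) ∧
    (tb (Nat.xor hi (Nat.land lo hi)) j = true ↔ tb U j = true ∧ colr lo hi j = 2) ∧
    (tb (Nat.land lo hi) j = true ↔ tb U j = true ∧ colr lo hi j = 3) := by
  have a := hlo j
  have b := hhi j
  rw [ucol_xor, show Nat.land lo hi = Nat.land hi lo from Nat.land_comm _ _, ucol_xor, tb_dif, tb_or,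
    tb_and, colr, bt_eq, bt_eq]
  revert a b
  cases tb U j <;> cases tb lo j <;> cases tb hi j <;> simp
/-- the set of colours: bit `t` is set iff a known neighbour inside `U` has colour `t`, or `t = 3` and there
is a stub -/
theorem cset_spec {U lo hi : ℕ} (hlo : ∀ j, tb lo j = true → tb U j = true)
    (hhi : ∀ j, tb hi j = true → tb U j = true) (A v : ℕ) :
    cset A (dif U (Nat.lor lo hi)) (Nat.xor lo (Nat.land lo hi)) (Nat.xor hi (Nat.land lo hi))
      (Nat.land lo hi) v < 16 ∧ ∀ t < 4, tb (cset A (dif U (Nat.lor lo hi)) (Nat.xor lo (Nat.land lo hi))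
      (Nat.xor hi (Nat.land lo hi)) (Nat.land lo hi) v) t = true ↔
      (∃ j, tb (row A v) j = true ∧ tb U j = true ∧ colr lo hi j = t) ∨ (t = 3 ∧ tb (mT A) v = true) := by
  obtain ⟨a, b0, b1, b2, b3⟩ := ucol_bits _ _ _ _ (cset A (dif U (Nat.lor lo hi))
    (Nat.xor lo (Nat.land lo hi)) (Nat.xor hi (Nat.land lo hi)) (Nat.land lo hi) v) (fz_eq _ _)
  have c := ucol_cls hlo hhi
  refine ⟨a, fun t ht => ?_⟩
  interval_cases t
  · simp only [b0, ucol_and, fun j => (c j).1]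
    simp
  · simp only [b1, ucol_and, fun j => (c j).2.1]
    simp
  · simp only [b2, ucol_and, fun j => (c j).2.2.1]
    simp
  · rw [b3, Nat.add_eq, ne_eq, Nat.add_eq_zero_iff, not_and_or, ← ne_eq, ucol_and, bt_eq]
    simp only [fun j => (c j).2.2.2]
    simp
/-- the table `okT`: if `cs` is exactly the set of the colours `a b c` -/
theorem okT_spec (x a b c : Fin 4) (cs : ℕ) (hcs : cs < 16)
    (h : ∀ t : Fin 4, tb cs t.val = true ↔ t = a ∨ t = b ∨ t = c) (ok : okT x.val cs ≠ 0) : ok4 x a b c := by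
  exact ucol_okT ⟨cs, hcs⟩ x a b c h ok
theorem okI_ne {A lo hi c0 c1 c2 c3 I : ℕ} (h : okI A lo hi c0 c1 c2 c3 I ≠ 0) {v : ℕ} (hv : tb I v = true) :
    okT (colr lo hi v) (cset A c0 c1 c2 c3 v) ≠ 0 := by
  obtain ⟨B, e⟩ := bl_ne h hv
  exact right_ne_zero_of_mul e
/-- a full vertex whose known neighbours lie in `U` is fine for every colouring that agrees with the planes -/
theorem ok_inner {n A U lo hi v : ℕ} {ph : ℕ → V} (h : Em G X n A ph) (hc : Cub G X)
    (hlo : ∀ j, tb lo j = true → tb U j = true) (hhi : ∀ j, tb hi j = true → tb U j = true)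
    (hv : tb U v = true) (f : tb (ful A) v = true) (hr : ∀ j, tb (row A v) j = true → tb U j = true)
    (ok : okT (colr lo hi v) (cset A (dif U (Nat.lor lo hi)) (Nat.xor lo (Nat.land lo hi))
      (Nat.xor hi (Nat.land lo hi)) (Nat.land lo hi) v) ≠ 0)
    (d : V → Fin 4) (hd : ∀ j < n, tb U j = true → d (ph j) = colF4 lo hi j) (ho : ∀ y, y ∉ X → d y = 3) :
    OK G d (ph v) := by
  obtain ⟨hn, hf⟩ := h.full hc f
  obtain ⟨c1, c2⟩ := cset_spec hlo hhi A v
  have e : ∀ j < n, tb U j = true → (d (ph j)).val = colr lo hi j := fun j a b => by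
    rw [hd j a b]
    exact Nat.mod_eq_of_lt (colr_lt _ _ _)
  intro x y z hb
  refine okT_spec _ _ _ _ _ c1 (fun t => ?_) (e v hn hv ▸ ok)
  have k : (t = d x ∨ t = d y ∨ t = d z) ↔ ∃ w, G.Adj (ph v) w ∧ t = d w := by
    simp [hb.2.2.2]
  rw [c2 t t.2, k]
  constructor
  · rintro (⟨j, a, b, c⟩ | ⟨a, b⟩)
    · exact ⟨_, (h.adj v j a).2.2, Fin.ext (c.symm.trans (e j (h.adj v j a).2.1 b).symm)⟩
    · obtain ⟨w, c, c'⟩ := (h.stub v b).2
      exact ⟨w, c', (Fin.ext a).trans (ho w c).symm⟩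
  · rintro ⟨w, a, rfl⟩
    rcases hf w a with ⟨j, b, rfl⟩ | ⟨b, c⟩
    · exact Or.inl ⟨j, b, hr j b, (e j (h.adj v j b).2.1 (hr j b)).symm⟩
    · exact Or.inr ⟨by rw [ho w b]; rfl, c⟩
theorem rCol_snd {lv n A B : ℕ} {ph : ℕ → V} (cx : Cx G X lv) (h : Em G X n A ph) (r : rCol n A B ≠ 0) :
    TG G X := by
  simp only [rCol, fz_eq, cls4_eq] at r
  have r := (cond_ne r).1
  simp only [Bool.and_eq_true, nz_iff, z0_iff] at r
  obtain ⟨⟨n0, r1⟩, r2⟩ := r
  have f : ∀ j < n, tb (ful A) j = true := fun j hj => dif_zero r1 ((tb_alm _ _).2 hj)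
  have hX : (Finset.range n).image ph = X := by
    by_contra e
    refine cx.two.2 _ (Finset.image_subset_iff.2 fun j hj => h.mem j (Finset.mem_range.1 hj))
      ((Finset.nonempty_range_iff.2 n0).image _) e (ph 0) (ph 0) fun x hx y hy hy' a => ?_
    obtain ⟨j, hj, rfl⟩ := Finset.mem_image.1 hx
    rcases (h.full cx.cub (f j (Finset.mem_range.1 hj))).2 y a with ⟨i, b, rfl⟩ | b
    · exact absurd (Finset.mem_image_of_mem _ (Finset.mem_range.2 (h.adj j i b).2.1)) hy'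
    · exact absurd hy b.1
  generalize hlo : Nat.land B (alm n) = lo at r2
  generalize hhi : Nat.land (shr B n) (alm n) = hi at r2
  have ho : ∀ y, y ∉ X → (if e : ∃ j < n, ph j = y then colF4 lo hi e.choose else 3) = 3 :=
    fun y hy => dif_neg fun ⟨j, a, b⟩ => hy (b ▸ h.mem j a)
  refine Or.inl ⟨_, fun y hy _ => ho y hy, fun y hy => ?_⟩
  obtain ⟨j, hj, rfl⟩ := Finset.mem_image.1 (hX.ge hy)
  have hj := Finset.mem_range.1 hj
  have hU := (tb_alm _ _).2 hj
  refine ok_inner h cx.cub (fun i a => ((tb_and _ _ _).1 (hlo ▸ a)).2)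
    (fun i a => ((tb_and _ _ _).1 (hhi ▸ a)).2) hU (f j hj)
    (fun i a => (tb_alm _ _).2 (h.adj j i a).2.1) (okI_ne r2 hU) _ (fun i hi' _ => ?_) ho
  have e : ∃ j < n, ph j = ph i := ⟨i, hi', rfl⟩
  rw [dif_pos e, h.inj _ e.choose_spec.1 i hi' e.choose_spec.2]

end Pool.Agent.Hom2.UC
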