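import Pool.Agent.Lib.MP_7e4769_co.Hc.UCl
import Pool.Agent.Lib.MP_7e4769_co.Hc.UCol

set_option autoImplicit false

namespace Pool.Agent.Hom2.UC

open Classical

variable {V : Type} {G : SimpleGraph V} {X : Finset V}

theorem gen_snd {lv f : ℕ} {db : ℕ → ℕ} {mv : Cl} (cx : Cx G X lv) (hf : ∀ g < f, Fact G X (db g))
    (hm : Snd G X mv) (fuel : ℕ) : Snd G X (gen db lv (kql lv) f mv fuel) := by
  induction fuel with
  | zero => intro n A B ph _ r; exact absurd rfl r
  | succ fuel ih =>
    intro n A B ph h r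
    have c : ∀ {b : Bool} {x y : ℕ}, (bif b then x else y) ≠ 0 → x ≠ 0 ∨ y ≠ 0 := by
      intro b x y e
      cases b
      exacts [.inr e, .inl e]
    have e : gen db lv (kql lv) f mv (fuel + 1) n A B =
      gstep db lv (kql lv) f mv (gen db lv (kql lv) f mv fuel) n A B := rfl
    rw [e, gstep, fz_eq, fz_eq] at r
    rcases c r with r | r
    · exact rRef_snd cx hf h r
    rcases c r with r | r
    · rcases c r with r | r
      · exact (rCut_snd cx h r).elim
      rcases c r with r | r
      exacts [rCol_snd cx h r, rMem_snd h r]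
    rcases c r with r | r
    · exact rSplit_snd cx ih n A _ ph h r
    rcases c r with r | r
    exacts [rKer_snd ih n A _ ph h r, hm n A _ ph h r]
theorem cls_snd {lv f : ℕ} {db : ℕ → ℕ} (cx : Cx G X lv) (hf : ∀ g < f, Fact G X (db g)) :
    Snd G X (cls db lv (kql lv) f) := by
  exact gen_snd cx hf (fun _ _ _ _ _ r => absurd rfl r) 60
theorem chkSE_snd {lv f n B : ℕ} {db : ℕ → ℕ} {s : ℕ → ℕ → ℕ} {ph : ℕ → V} (cx : Cx G X lv)
    (hf : ∀ g < f, Fact G X (db g)) (r : chkSE db lv f n s B = true) (h : SE G X n s ph) : TG G X := by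
  rw [chkSE, fzb_eq, Bool.and_eq_true, lt_iff, Nat.beq_eq] at r
  exact cls_snd cx hf n _ B ph (initS_em h r.1) (by rw [r.2]; exact one_ne_zero)

end Pool.Agent.Hom2.UC
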