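import Pool.Agent.Lib.MP_7e4769_co.Hc.UWit5
import Pool.Agent.Lib.MP_7e4769_co.Hc.UGen
import Pool.Agent.Lib.MP_7e4769_co.Hc.Cut

set_option autoImplicit false

namespace Pool.Agent.Hom2.UC

open Classical

variable {V : Type} {G : SimpleGraph V} {X : Finset V}

/-- root patterns: 0 = b, 1 = w, 2 = a, 3 = u, then the other neighbours of u -/
def sideA : ℕ := 170141832503766272916898606779791348227
def sideB : ℕ := 649039583220990109421430635004355
def sideC : ℕ := 6189724331757745547959075075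
def sideD : ℕ := 24058085103364888592643

theorem ucut2a_deg (hc : Cub G X) {v : V} (hv : v ∈ X) (H : Finset V) :
    (H.filter fun y => G.Adj v y).card ≤ 3 := by
  obtain ⟨x, y, z, hn⟩ := hc v hv
  refine (Finset.card_le_card fun t ht => ?_).trans (Finset.card_le_three (a := x) (b := y) (c := z))
  simpa using hn.cases (Finset.mem_filter.1 ht).2
theorem ucut2a_se {l : List V} {d : V} {s : ℕ → ℕ → ℕ} {T : List (ℕ × ℕ)} (nd : l.Nodup)
    (mem : ∀ v ∈ l, v ∈ X) (tab : ∀ i < l.length, ∀ k < 3, s i k = 0 ∨ ∃ q ∈ T, q.1 = i ∧ s i k = q.2 + 2)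
    (ed : ∀ q ∈ T, q.2 < l.length ∧ G.Adj (l.getD q.1 d) (l.getD q.2 d)) :
    SE G X l.length s fun i => l.getD i d := by
  refine ⟨fun i hi => ?_, fun i hi j hj e => ?_, fun i hi k hk e => ?_, fun i hi k hk y e => ?_⟩
  · rw [List.getD_eq_getElem _ _ hi]
    exact mem _ (List.getElem_mem hi)
  · rw [List.getD_eq_getElem _ _ hi, List.getD_eq_getElem _ _ hj] at e
    exact nd.getElem_inj_iff.1 e
  · rcases tab i hi k hk with r | ⟨q, -, -, r⟩ <;> omega
  · rcases tab i hi k hk with r | ⟨q, hq, rfl, r⟩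
    · omega
    · obtain rfl : y = q.2 := by omega
      exact ed q hq
theorem ucut2a_run {f p n B q NW : ℕ} {db : ℕ → ℕ} {pg : ℕ → Prog} {s : ℕ → ℕ → ℕ} (cx : Cx G X 0)
    (hf : ∀ g < f, Fact G X (db g)) (hp : ProgOK G X (pg p)) (r : chkSide db pg f p n s q NW B = true)
    {P : Finset V} {a u b w : V} (h : Pole2 G X P a u b w) (kb : Ker G X b) {ph : ℕ → V}
    (se : SE G X n s ph) (hn : 0 < n) (h0 : ph 0 = b) (h3 : ph 3 = u)
    (hq : q < n) (kq : Ker G X (ph q))
    (ho : ∀ j, tb NW j = true → j < n ∧ ph j ∉ P.erase b) (hb : ¬ Good G (P.erase b)) : TG G X := by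
  simp only [chkSide, Bool.and_eq_true, lt_iff, fzb_eq, Nat.beq_eq] at r
  have hL : ∀ x ∈ P.erase b, ∀ z ∈ X, z ∉ P.erase b → G.Adj x z → ∃ i < 2, z = ph (cv 192 i) := by
    intro x hx z hz hz' ad
    rw [Finset.mem_erase] at hx hz'
    by_cases e : z = b
    · exact ⟨0, by omega, e.trans h0.symm⟩
    · rcases h.only x hx.2 z hz (fun t => hz' ⟨e, t⟩) ad with t | t
      · exact ⟨1, by omega, t.2.trans h3.symm⟩
      · exact absurd t.1 hx.1
  refine wit_snd cx (cls_snd cx hf) hp (((initS_em se r.1).skr' hn (h0 ▸ kb)).skr' hq kq)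
    ((P.erase_subset b).trans h.sub)
    ⟨u, h.mu, w, h.mw, fun t => h.nu (P.erase_subset b t), fun t => h.nw (P.erase_subset b t), h.ne⟩
    hb ho hL (cap := 99) (B := B)
    ((sum_out_le _ 2 hL).trans ?_) (r.2.trans_ne one_ne_zero)
  · have k0 := ucut2a_deg cx.cub (h.sub h.mb) (P.erase b)
    have k3 := ucut2a_deg cx.cub h.mu (P.erase b)
    rw [← h0] at k0
    rw [← h3] at k3
    rw [Finset.sum_range_succ, Finset.sum_range_one, show cv 192 0 = 0 from rfl,
      show cv 192 1 = 3 from rfl]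
    rw [h0] at k0 ⊢
    omega
theorem ucut2a_59 {j : ℕ} (h : tb 59 j = true) : j = 0 ∨ j = 1 ∨ j = 3 ∨ j = 4 ∨ j = 5 := by
  have : j < 6 := by
    by_contra c
    rw [tb_eq, Nat.testBit_lt_two_pow ((show 59 < 2 ^ 6 by norm_num).trans_le
      (Nat.pow_le_pow_right (by norm_num) (by omega)))] at h
    cases h
  interval_cases j <;> simp_all <;> exact absurd h (by decide)
theorem ucut2a_27 {j : ℕ} (h : tb 27 j = true) : j = 0 ∨ j = 1 ∨ j = 3 ∨ j = 4 := by
  have : j < 5 := by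
    by_contra c
    rw [tb_eq, Nat.testBit_lt_two_pow ((show 27 < 2 ^ 5 by norm_num).trans_le
      (Nat.pow_le_pow_right (by norm_num) (by omega)))] at h
    cases h
  interval_cases j <;> simp_all <;> exact absurd h (by decide)
theorem ucut2a_in {P : Finset V} {a u b w x : V} (h : Pole2 G X P a u b w) (hab : a ≠ b) (kb : Ker G X b)
    (ad : G.Adj b x) (ne : w ≠ x) : x ∈ P := by
  by_contra c
  rcases h.only b h.mb x (kb x ad) c ad with t | t
  exacts [hab t.1.symm, ne t.2.symm]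
theorem ucut2a_ker (hc : Cub G X) (h2 : TwoEC G X) {P : Finset V} {a u b w : V} (h : Pole2 G X P a u b w)
    (hab : a ≠ b) (kb : Ker G X b) (ad : G.Adj a b) : Ker G X a := by
  intro s as
  by_contra hs
  have d {x y : V} (hx : x ∈ P) (hy : y ∉ P) : x ≠ y := fun e => hy (e ▸ hx)
  obtain ⟨z, hn⟩ := hc.second (h.sub h.mb) h.bw ad.symm (d h.ma h.nw).symm
  obtain ⟨t, ha⟩ := hc.second (h.sub h.ma) h.au ad (d h.mb h.nu).symm
  have zP := ucut2a_in h hab kb hn.adj3 hn.2.1
  obtain rfl : s = t := by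
    rcases ha.cases as with e | e | e
    exacts [absurd (e ▸ h.mu) hs, absurd (e ▸ h.sub h.mb) hs, e]
  refine h2.2 ((P.erase a).erase b) (((Finset.erase_subset _ _).trans (Finset.erase_subset _ _)).trans h.sub)
    ⟨z, by simp [zP, hn.adj3.ne', hn.2.2.1.symm]⟩
    (fun e => h.nu (Finset.erase_subset _ _ (Finset.erase_subset _ _ (e ▸ h.mu)))) z b
    fun x hx y hy ny xy => ?_
  simp only [Finset.mem_erase] at hx ny
  by_cases e : y = b
  · subst e
    rcases hn.cases xy.symm with e | e | e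
    exacts [absurd (e ▸ hx.2.2) h.nw, absurd e hx.2.1, ⟨e, rfl⟩]
  by_cases e' : y = a
  · subst e'
    rcases ha.cases xy.symm with e | e | e
    exacts [absurd (e ▸ hx.2.2) h.nu, absurd e hx.1, absurd (e ▸ h.sub hx.2.2) hs]
  rcases h.only x hx.2.2 y hy (fun t => ny ⟨e, e', t⟩) xy with t | t
  exacts [absurd t.1 hx.2.1, absurd t.1 hx.1]
/-- `wit_snd` with `R = P.erase b`; four patterns: `u` adjacent to `w` or not, `a` adjacent to `b` or not -/
theorem side_snd {f p BA BB BC BD : ℕ} {db : ℕ → ℕ} {pg : ℕ → Prog} (cx : Cx G X 0)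
    (hf : ∀ g < f, Fact G X (db g)) (hp : ProgOK G X (pg p))
    (rA : chkSide db pg f p 8 (sl sideA) 0 59 BA = true) (rB : chkSide db pg f p 7 (sl sideB) 0 27 BB = true)
    (rC : chkSide db pg f p 6 (sl sideC) 2 59 BC = true) (rD : chkSide db pg f p 5 (sl sideD) 2 27 BD = true)
    {P : Finset V} {a u b w : V} (h : Pole2 G X P a u b w) (hab : a ≠ b) (kb : Ker G X b) (ku : Ker G X u) :
    Good G (P.erase b) ∨ TG G X := by
  refine or_iff_not_imp_left.2 fun hb => ?_
  have d {x y : V} (hx : x ∈ P) (hy : y ∉ P) : x ≠ y := fun e => hy (e ▸ hx)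
  have ma := h.ma
  have mb := h.mb
  have nu := h.nu
  have nw := h.nw
  have uw := h.ne
  by_cases ab : G.Adj a b
  · have ka := ucut2a_ker cx.cub cx.two h hab kb ab
    by_cases ad : G.Adj u w
    · obtain ⟨z, hn⟩ := cx.cub.second h.mu h.au.symm ad (d ma nw)
      have nz := h.off_u hn.adj3 hn.2.1.symm
      refine ucut2a_run cx hf hp rD h kb (ucut2a_se (l := [b, w, a, u, z]) (d := b)
        (T := [(0, 1), (0, 2), (1, 0), (1, 3), (2, 3), (2, 0), (3, 2), (3, 1), (3, 4), (4, 3)]) ?_ ?_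
        (by decide +kernel : ∀ i < 5, _) ?_) (by omega) rfl rfl (by omega) ka (fun j hj => ?_) hb
      · simp [d mb nw, hab.symm, d mb nu, d mb nz, (d ma nw).symm, uw.symm, hn.2.2.1, d ma nu, d ma nz,
          hn.adj3.ne]
      · simp [h.sub ma, h.sub mb, h.mu, h.mw, ku z hn.adj3]
      · simp [h.bw, h.bw.symm, ad, ad.symm, h.au, h.au.symm, hn.adj3, hn.adj3.symm, ab, ab.symm]
      · rcases ucut2a_27 hj with rfl | rfl | rfl | rfl <;> simp [nu, nw, nz]
    · obtain ⟨y, z, hn⟩ := cx.cub.first h.mu h.au.symm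
      have ny := h.off_u hn.adj2 hn.1.symm
      have nz := h.off_u hn.adj3 hn.2.1.symm
      have wy : w ≠ y := fun e => ad (e ▸ hn.adj2)
      have wz : w ≠ z := fun e => ad (e ▸ hn.adj3)
      refine ucut2a_run cx hf hp rC h kb (ucut2a_se (l := [b, w, a, u, y, z]) (d := b)
        (T := [(0, 1), (0, 2), (1, 0), (2, 3), (2, 0), (3, 2), (3, 4), (3, 5), (4, 3), (5, 3)]) ?_ ?_
        (by decide +kernel : ∀ i < 6, _) ?_) (by omega) rfl rfl (by omega) ka (fun j hj => ?_) hb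
      · simp [d mb nw, hab.symm, d mb nu, d mb ny, d mb nz, (d ma nw).symm, uw.symm, wy, wz, d ma nu,
          d ma ny, d ma nz, hn.adj2.ne, hn.adj3.ne, hn.2.2.1]
      · simp [h.sub ma, h.sub mb, h.mu, h.mw, ku y hn.adj2, ku z hn.adj3]
      · simp [h.bw, h.bw.symm, h.au, h.au.symm, hn.adj2, hn.adj2.symm, hn.adj3, hn.adj3.symm, ab, ab.symm]
      · rcases ucut2a_59 hj with rfl | rfl | rfl | rfl | rfl <;> simp [nu, nw, ny, nz]
  obtain ⟨c, e, hm⟩ := cx.cub.first (h.sub mb) h.bw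
  have mc := ucut2a_in h hab kb hm.adj2 hm.1
  have me := ucut2a_in h hab kb hm.adj3 hm.2.1
  have ac : a ≠ c := fun t => ab (t ▸ hm.adj2.symm)
  have ae : a ≠ e := fun t => ab (t ▸ hm.adj3.symm)
  by_cases ad : G.Adj u w
  · obtain ⟨z, hn⟩ := cx.cub.second h.mu h.au.symm ad (d ma nw)
    have nz := h.off_u hn.adj3 hn.2.1.symm
    refine ucut2a_run cx hf hp rB h kb (ucut2a_se (l := [b, w, a, u, z, c, e]) (d := b)
      (T := [(0, 1), (0, 5), (0, 6), (1, 0), (1, 3), (2, 3), (3, 2), (3, 1), (3, 4), (4, 3), (5, 0), (6, 0)]) ?_ ?_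
      (by decide +kernel : ∀ i < 7, _) ?_) (by omega) rfl rfl (by omega) kb (fun j hj => ?_) hb
    · simp [d mb nw, hab.symm, d mb nu, d mb nz, (d ma nw).symm, uw.symm, hn.2.2.1, d ma nu, d ma nz,
        hn.adj3.ne, hm.adj2.ne, hm.adj3.ne, hm.1, hm.2.1, hm.2.2.1, ac, ae, (d mc nu).symm, (d me nu).symm,
        (d mc nz).symm, (d me nz).symm]
    · simp [h.sub ma, h.sub mb, h.mu, h.mw, ku z hn.adj3, h.sub mc, h.sub me]
    · simp [h.bw, h.bw.symm, ad, ad.symm, h.au, h.au.symm, hn.adj3, hn.adj3.symm, hm.adj2, hm.adj2.symm,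
        hm.adj3, hm.adj3.symm]
    · rcases ucut2a_27 hj with rfl | rfl | rfl | rfl <;> simp [nu, nw, nz]
  · obtain ⟨y, z, hn⟩ := cx.cub.first h.mu h.au.symm
    have ny := h.off_u hn.adj2 hn.1.symm
    have nz := h.off_u hn.adj3 hn.2.1.symm
    have wy : w ≠ y := fun e => ad (e ▸ hn.adj2)
    have wz : w ≠ z := fun e => ad (e ▸ hn.adj3)
    refine ucut2a_run cx hf hp rA h kb (ucut2a_se (l := [b, w, a, u, y, z, c, e]) (d := b)
      (T := [(0, 1), (0, 6), (0, 7), (1, 0), (2, 3), (3, 2), (3, 4), (3, 5), (4, 3), (5, 3), (6, 0), (7, 0)]) ?_ ?_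
      (by decide +kernel : ∀ i < 8, _) ?_) (by omega) rfl rfl (by omega) kb (fun j hj => ?_) hb
    · simp [d mb nw, hab.symm, d mb nu, d mb ny, d mb nz, (d ma nw).symm, uw.symm, wy, wz, d ma nu,
        d ma ny, d ma nz, hn.adj2.ne, hn.adj3.ne, hn.2.2.1, hm.adj2.ne, hm.adj3.ne, hm.1, hm.2.1, hm.2.2.1,
        ac, ae, (d mc nu).symm, (d me nu).symm, (d mc nz).symm, (d me nz).symm, (d mc ny).symm,
        (d me ny).symm]
    · simp [h.sub ma, h.sub mb, h.mu, h.mw, ku y hn.adj2, ku z hn.adj3, h.sub mc, h.sub me]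
    · simp [h.bw, h.bw.symm, h.au, h.au.symm, hn.adj2, hn.adj2.symm, hn.adj3, hn.adj3.symm, hm.adj2,
        hm.adj2.symm, hm.adj3, hm.adj3.symm]
    · rcases ucut2a_59 hj with rfl | rfl | rfl | rfl | rfl <;> simp [nu, nw, ny, nz]
/-- the other side of a pole -/
theorem c2b_compl {P : Finset V} {a u b w : V} (h : Pole2 G X P a u b w) (hab : a ≠ b) :
    Pole2 G X (X \ P) u a w b := by
  refine ⟨Finset.sdiff_subset, Finset.mem_sdiff.2 ⟨h.mu, h.nu⟩, Finset.mem_sdiff.2 ⟨h.mw, h.nw⟩,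
    h.sub h.ma, h.sub h.mb, fun e => (Finset.mem_sdiff.1 e).2 h.ma,
    fun e => (Finset.mem_sdiff.1 e).2 h.mb, h.au.symm, h.bw.symm, hab, fun x hx y hy hy' k => ?_⟩
  have yP : y ∈ P := by
    by_contra e
    exact hy' (Finset.mem_sdiff.2 ⟨hy, e⟩)
  rcases h.only y yP x (Finset.mem_sdiff.1 hx).1 (Finset.mem_sdiff.1 hx).2 k.symm with e | e
  exacts [.inl e.symm, .inr e.symm]

/-- the neighbour of a port has no stub -/
theorem c2b_ker (hN : Net1 G X) {p q : V} (hp : p ∈ X) (hq : q ∈ X) (k : G.Adj p q)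
    (s : Stub G X p) : Ker G X q := by
  obtain ⟨s, s1, s2⟩ := s
  intro y hy
  by_contra e
  exact hN p hp q hq k s s1 s2 y e hy

/-- a small cut is a pole with four distinct ends -/
theorem c2b_pole (hc : Cub G X) (h2 : TwoEC G X) {A : Finset V} (hA : A ⊆ X) (c1 : 2 ≤ A.card)
    (c2 : A.card + 2 ≤ X.card) (c3 : Sc.ecut G X A < 3) :
    ∃ a u b w, Pole2 G X A a u b w ∧ a ≠ b := by
  have ne : A.Nonempty := Finset.card_pos.1 (by omega)
  have nX : A ≠ X := fun e => by rw [e] at c2; omega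
  have ex : ∀ a u : V, ∃ b ∈ A, ∃ w ∈ X, w ∉ A ∧ G.Adj b w ∧ ¬ (b = a ∧ w = u) := fun a u => by
    have := h2.2 A hA ne nX a u
    unfold Only at this
    push Not at this
    obtain ⟨b, hb, w, hw, k1, k2, k3⟩ := this
    exact ⟨b, hb, w, hw, k1, k2, fun e => k3 e.1 e.2⟩
  obtain ⟨v, -⟩ := ne
  obtain ⟨a, ha, u, hu, nu, au, -⟩ := ex v v
  obtain ⟨b, hb, w, hw, nw, bw, nn⟩ := ex a u
  have only : ∀ x ∈ A, ∀ y ∈ X, y ∉ A → G.Adj x y → (x = a ∧ y = u) ∨ (x = b ∧ y = w) := by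
    intro x hx y hy ny k
    by_contra e
    rw [not_or] at e
    have e1 : Sc.ecut G X A =
        (A.sigma fun x => X.filter (fun y => y ∉ A ∧ G.Adj x y)).card := by
      rw [Finset.card_sigma]
      rfl
    have e2 : 2 < (A.sigma fun x => X.filter (fun y => y ∉ A ∧ G.Adj x y)).card := by
      refine Finset.two_lt_card_iff.2 ⟨⟨a, u⟩, ⟨b, w⟩, ⟨x, y⟩, ?_, ?_, ?_, ?_, ?_, ?_⟩
      · simp [ha, hu, nu, au]
      · simp [hb, hw, nw, bw]
      · simp [hx, hy, ny, k]
      · intro q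
        obtain ⟨rfl, q'⟩ := Sigma.mk.inj q
        exact nn ⟨rfl, (eq_of_heq q').symm⟩
      · intro q
        obtain ⟨rfl, q'⟩ := Sigma.mk.inj q
        exact e.1 ⟨rfl, (eq_of_heq q').symm⟩
      · intro q
        obtain ⟨rfl, q'⟩ := Sigma.mk.inj q
        exact e.2 ⟨rfl, (eq_of_heq q').symm⟩
    omega
  have uw : u ≠ w := by
    rintro rfl
    have ab : a ≠ b := fun e => nn ⟨e.symm, rfl⟩
    obtain ⟨z, hz⟩ := hc.second hu au.symm bw.symm ab
    refine h2.2 (insert u A) (Finset.insert_subset hu hA) (Finset.insert_nonempty _ _)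
      (fun e => ?_) u z fun x hx y hy ny k => ?_
    · have := Finset.card_insert_le u A
      rw [e] at this
      omega
    · rw [Finset.mem_insert, not_or] at ny
      rcases Finset.mem_insert.1 hx with rfl | hx
      · rcases hz.cases k with rfl | rfl | rfl
        exacts [absurd ha ny.2, absurd hb ny.2, ⟨rfl, rfl⟩]
      · rcases only x hx y hy ny.2 k with e | e <;> exact absurd e.2 ny.1
  refine ⟨a, u, b, w, ⟨hA, ha, hb, hu, hw, nu, nw, au, bw, uw, only⟩, ?_⟩
  rintro rfl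
  obtain ⟨z, hz⟩ := hc.second (hA ha) au bw uw
  refine h2.2 (A.erase a) ((Finset.erase_subset _ _).trans hA) (Finset.card_pos.1 ?_)
    (fun e => ?_) z a fun x hx y hy ny k => ?_
  · have := Finset.card_erase_of_mem ha
    omega
  · exact nu (Finset.mem_of_mem_erase (e ▸ hu))
  · replace hx := Finset.mem_erase.1 hx
    obtain ⟨xa, hx⟩ := hx
    by_cases e : y = a
    · subst e
      rcases hz.cases k.symm with rfl | rfl | rfl
      exacts [absurd hx nu, absurd hx nw, ⟨rfl, rfl⟩]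
    · have : y ∉ A := fun q => ny (Finset.mem_erase.2 ⟨e, q⟩)
      rcases only x hx y hy this k with q | q <;> exact absurd q.1 xa

/-- both inner ends are ports: move `b` to the other side -/
theorem c2b_shift (hc : Cub G X) (h2 : TwoEC G X) (hN : Net1 G X) {P : Finset V} {a u b w : V}
    (h : Pole2 G X P a u b w) (hab : a ≠ b) (sa : Stub G X a) (sb : Stub G X b) :
    ∃ P a u b w, Pole2 G X P a u b w ∧ a ≠ b ∧ Ker G X b ∧ Ker G X u := by
  have bX := h.sub h.mb
  obtain ⟨s, s1, s2⟩ := id sb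
  have ws : w ≠ s := fun e => s1 (e ▸ h.mw)
  obtain ⟨z, hz⟩ := hc.second bX h.bw s2 ws
  have zX : z ∈ X := by
    by_contra e
    exact hz.2.2.1 (one_stub hc h2 bX s1 e s2 hz.adj3)
  have zP : z ∈ P := by
    by_contra e
    rcases h.only b h.mb z zX e hz.adj3 with q | q
    exacts [hab q.1.symm, hz.2.1 q.2.symm]
  have kz := c2b_ker hN bX zX hz.adj3 sb
  refine ⟨P.erase b, a, u, z, b, ⟨(Finset.erase_subset _ _).trans h.sub, Finset.mem_erase.2 ⟨hab, h.ma⟩,
    Finset.mem_erase.2 ⟨hz.adj3.ne', zP⟩, h.mu, bX, fun e => h.nu (Finset.mem_of_mem_erase e),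
    Finset.notMem_erase _ _, h.au, hz.adj3.symm, fun e => h.nu (e ▸ h.mb), fun x hx y hy ny k => ?_⟩,
    fun e => not_stub_ker sa (e ▸ kz), kz, c2b_ker hN (h.sub h.ma) h.mu h.au sa⟩
  replace hx := Finset.mem_erase.1 hx
  obtain ⟨xb, hx⟩ := hx
  by_cases e : y = b
  · subst e
    rcases hz.cases k.symm with rfl | rfl | rfl
    exacts [absurd hx h.nw, absurd (h.sub hx) s1, .inr ⟨rfl, rfl⟩]
  · have : y ∉ P := fun q => ny (Finset.mem_erase.2 ⟨e, q⟩)
    rcases h.only x hx y hy this k with q | q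
    exacts [.inl q, absurd q.1 xb]

/-- A 2-cut with two vertices on each side is a `Pole2` with distinct ends (bridgeless); shift it along a port
(`Net1`) until `b` and `u` have no stub; then `Pole2.cut2` with both sides. -/
theorem cut2_thm (cx : Cx G X 0) (hN : Net1 G X)
    (side : ∀ P a u b w, Pole2 G X P a u b w → a ≠ b → Ker G X b → Ker G X u →
      Good G (P.erase b) ∨ TG G X) : TG G X ∨ Sc.E3 G X := by
  refine or_iff_not_imp_right.2 fun h3 => ?_
  unfold Sc.E3 at h3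
  push Not at h3
  obtain ⟨A, hA, c1, c2, c3⟩ := h3
  obtain ⟨a, u, b, w, h, hab⟩ := c2b_pole cx.cub cx.two hA c1 c2 c3
  have key : ∃ P a u b w, Pole2 G X P a u b w ∧ a ≠ b ∧ Ker G X b ∧ Ker G X u := by
    rcases stub_or_ker (G := G) (X := X) b with sb | kb
    · rcases stub_or_ker (G := G) (X := X) a with sa | ka
      · exact c2b_shift cx.cub cx.two hN h hab sa sb
      · exact ⟨_, _, _, _, _, h.symm, hab.symm, ka, c2b_ker hN (h.sub h.mb) h.mw h.bw sb⟩
    rcases stub_or_ker (G := G) (X := X) u with su | ku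
    · rcases stub_or_ker (G := G) (X := X) w with sw | kw
      · exact c2b_shift cx.cub cx.two hN (c2b_compl h hab) h.ne su sw
      · exact ⟨_, _, _, _, _, h.symm, hab.symm, c2b_ker hN h.mu (h.sub h.ma) h.au.symm su, kw⟩
    · exact ⟨_, _, _, _, _, h, hab, kb, ku⟩
  obtain ⟨P, a, u, b, w, h, hab, kb, ku⟩ := key
  rcases side P a u b w h hab kb ku with g1 | g1
  · rcases side _ w b u a (c2b_compl h hab).symm h.ne.symm ku kb with g2 | g2
    · exact .inl (h.cut2 cx.cub hab kb ku (fun t ht => absurd ht (Set.notMem_empty t)) g1 g2)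
    · exact g2
  · exact g1

end Pool.Agent.Hom2.UC
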