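import Pool.Agent.Lib.MP_7e4769_co.Hc.C3Non
import Pool.Agent.Lib.MP_7e4769_co.Hc.C3Cut

set_option autoImplicit false

namespace Pool.Agent.Hom2.UC

open Classical

variable {V : Type} {G : SimpleGraph V} {X : Finset V}

/-- a closed part with a nontrivial cut of three edges is settled -/
theorem cut3_thm (cx : Cx G X 2)
    (h4 : ∀ W ⊆ X, TwoEC G W → ¬ Good G W → Two X W → (Outs G X W).card ≤ 4 →
      TG G X ∨ HasM G W 7 ∨ HasM G W 14)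
    (p0 : ∀ ph, SE G X 5 (sl house) ph → TG G X) (p1 : ∀ ph, SE G X 7 (sl d7a) ph → TG G X)
    (p2 : ∀ ph, SE G X 7 (sl d7b) ph → TG G X) (p3 : ∀ ph, SE G X 7 (sl d7c) ph → TG G X)
    (p4 : ∀ ph, SE G X 7 (sl f7) ph → TG G X)
    (hE : ∀ m, 1 ≤ m → m < 7 → ∀ r < mN m, ∀ ph, SE G X (mN m - 1) (sDel (sl (mR m)) r) ph → TG G X) :
    TG G X ∨ Sc.C3 G X :=
  c3main cx hE fun _ _ _ _ _ _ _ h ab ae be _ => nonreg cx h4 p0 p1 p2 p3 p4 h ab ae be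

end Pool.Agent.Hom2.UC
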