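import Pool.Agent.Lib.MP_7e4769_co.Hc.UC
import Pool.Agent.Lib.MP_7e4769_co.Hc.Bits

set_option autoImplicit false

namespace Pool.Agent.Hom2.UC

noncomputable def dget (t : DB) : ℕ → ℕ :=
  DB.rec (motive := fun _ => ℕ → ℕ) (fun e _ => e)
    (fun _ _ l r i => bif Nat.beq (Nat.land i 1) 0 then l (Nat.shiftRight i 1) else r (Nat.shiftRight i 1)) t

/-- chunks of 32 entries of 640 bits -/
noncomputable def dbf (t : DB) (g : ℕ) : ℕ :=
  Nat.mod (Nat.shiftRight (dget t (Nat.shiftRight g 5)) (Nat.mul 640 (Nat.land g 31))) (Nat.shiftLeft 1 640)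

noncomputable def decP (l x : ℕ) : List Bool := Nat.rec [] (fun i r => tb x i :: r) l
def ent0 : Ent := ⟨[], 0, 0, 0, ⟨0, 0, 0, 0, 0, 0, 0⟩⟩
def dt0 (_ : ℕ) : Ent := ent0
noncomputable def nthE (l : List Ent) : ℕ → Ent :=
  List.rec dt0 (fun e _ r i => Nat.casesOn i e r) l

/-- chunks of 40 entries -/
noncomputable def nth2 (l : List (List Ent)) (i : ℕ) : Ent :=
  nthE (List.rec (motive := fun _ => ℕ → List Ent) (fun _ => []) (fun e _ r j => Nat.casesOn j e r) l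
    (Nat.div i 40)) (Nat.mod i 40)
def pg0 : Prog := ⟨1000000, 0, 0, 0, .nil, 0, dt0⟩
noncomputable def nthP (l : List Prog) : ℕ → Prog :=
  List.rec (fun _ => pg0) (fun e _ r i => Nat.casesOn i e r) l
theorem nthP_ge (l : List Prog) : ∀ p, l.length ≤ p → nthP l p = pg0 := by
  induction l with
  | nil => exact fun _ _ => rfl
  | cons e l ih =>
    intro p h
    cases p with
    | zero => cases h
    | succ p => exact ih p (Nat.le_of_succ_le_succ h)

/-- every index of the range has a certificate -/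
def Rg (g : ℕ → ℕ → Bool) (a b : ℕ) : Prop := ∀ i, a ≤ i → i < b → ∃ B, g i B = true
theorem Rg.nil (g : ℕ → ℕ → Bool) (a : ℕ) : Rg g a a := fun _ h1 h2 => absurd h2 (Nat.not_lt.2 h1)
theorem Rg.trans {g : ℕ → ℕ → Bool} {a b c : ℕ} (h1 : Rg g a b) (h2 : Rg g b c) : Rg g a c :=
  fun i h h' => (Nat.lt_or_ge i b).elim (h1 i h) fun e => h2 i e h'
theorem Rg.of {g : ℕ → ℕ → Bool} (l : List ℕ) (a b : ℕ)
    (h : (Nat.beq (Nat.add a l.length) b && chkL g l a) = true) : Rg g a b := by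
  obtain ⟨h1, h0⟩ := Bool.and_eq_true_iff.1 h
  obtain rfl : a + l.length = b := Nat.eq_of_beq_eq_true h1
  clear h1 h
  induction l generalizing a with
  | nil => exact Rg.nil g a
  | cons B l ih =>
    obtain ⟨h1, h2⟩ := Bool.and_eq_true_iff.1
      (show (g a B && fzb (Nat.succ a) (chkL g l)) = true from h0)
    intro i i1 i2
    rcases Nat.eq_or_lt_of_le i1 with rfl | e
    · exact ⟨B, h1⟩
    · exact ih (a + 1) ((fzb_eq _ _).symm.trans h2) i e (by rw [List.length_cons] at i2; omega)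

/-- the member `m` without the vertex `r` closes -/
noncomputable def chkX (db : ℕ → ℕ) (f m r B : ℕ) : Bool :=
  chkSE db 2 f (mN m - 1) (sDel (sl (mR m)) r) B

/-- the checks of program `p` on level `lv`; `q` has the same tree -/
def PC (db : ℕ → ℕ) (pg : ℕ → Prog) (lv p : ℕ) : Prop :=
  ∃ q l, l ≤ lv ∧ (pg q).idx ≤ (pg p).idx ∧ (pg q).t = (pg p).t ∧ (pg q).SM = (pg p).SM ∧
    (pg q).r0 = (pg p).r0 ∧ (pg q).keep = (pg p).keep ∧ (∀ m < 70, ∃ B, chkPM db pg l q m B = true) ∧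
    Rg (chkD db pg lv p) 0 (pg p).dc
def PL (db : ℕ → ℕ) (pg : ℕ → Prog) (F0 F1 p : ℕ) : Prop :=
  ∃ l, PC db pg l p ∧ l ≤ 2 ∧ ((pg p).idx < F0 → l = 0) ∧ ((pg p).idx < F1 → l ≤ 1)

end Pool.Agent.Hom2.UC
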