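import Pool.Agent.Lib.MP_7e4769_co.Hc.UEm

set_option autoImplicit false

namespace Pool.Agent.Hom2.UC

open Classical

variable {V : Type} {G : SimpleGraph V} {X : Finset V}

theorem uw1_conn {X C : Finset V} (hc : Cub G X) (hF : HF G X) (hC : C ⊆ X) (hcon : Conn G C)
    (hcl : ∀ x ∈ C, ∀ y ∈ X, G.Adj x y → y ∈ C) (hb : ¬ Good G C) :
    ∀ H ⊆ C, (∃ s ∈ H, ∃ t ∈ H, s ≠ t) → ∀ a b, Only G C H a b →
      ∃ W H' a' b', Wit G X W H' a' b' ∧ H' ⊆ H := by
  intro H
  induction H using Finset.strongInduction with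
  | H H ih =>
  intro hH h2 a b ho
  have hHX : H ⊆ X := hH.trans hC
  obtain ⟨s, hs, t, ht, hst⟩ := id h2
  have badH : ¬ Good G H := fun g => hb (root_one hc hF hC hcon hH ⟨s, hs⟩ ho g (by simp))
  have cH : Conn G H := ho.conn hcon hH
  have nbH : ∀ y ∈ H, ∃ x ∈ H, G.Adj y x := by
    intro y hy
    have : ({y} : Finset V) ≠ H := by
      intro e; rw [← e, Finset.mem_singleton] at hs ht; exact hst (hs.trans ht.symm)
    obtain ⟨x, hx, z, hz, -, hxz⟩ := cH {y} (by simpa using hy) (by simp) this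
    exact ⟨z, hz, (Finset.mem_singleton.1 hx) ▸ hxz⟩
  set W := H.filter (fun y => ¬ ∃ x, Leaf G X y x) with hW
  have hWH : W ⊆ H := Finset.filter_subset _ _
  have leaf : ∀ y ∈ H, y ∉ W → ∃ x ∈ W, Leaf G X y x := by
    intro y hy hy'
    have : ∃ x, Leaf G X y x := by
      by_contra e; exact hy' (Finset.mem_filter.2 ⟨hy, e⟩)
    obtain ⟨x, hl⟩ := this
    obtain ⟨z, hz, hyz⟩ := nbH y hy
    have hxH : x ∈ H := hl.2.2.2 z (hHX hz) hyz ▸ hz
    refine ⟨x, Finset.mem_filter.2 ⟨hxH, ?_⟩, hl⟩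
    rintro ⟨u, hu⟩
    have huy : y = u := hu.2.2.2 y hl.1 hl.2.2.1.symm
    subst huy
    have sub : ({y, x} : Finset V) ⊆ H := by
      intro r hr; rcases Finset.mem_insert.1 hr with rfl | hr
      · exact hy
      · exact Finset.mem_singleton.1 hr ▸ hxH
    by_cases e : ({y, x} : Finset V) = H
    · exact badH (e ▸ good_pair (hc.mono (sub.trans hHX)) hl.2.2.1)
    · obtain ⟨p, hp, q, hq, hq', hpq⟩ := cH _ sub (by simp) e
      simp only [Finset.mem_insert, Finset.mem_singleton, not_or] at hp hq'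
      rcases hp with rfl | rfl
      · exact hq'.2 (hl.2.2.2 q (hHX hq) hpq)
      · exact hq'.1 (hu.2.2.2 q (hHX hq) hpq)
  have up : ∀ A, W ⊆ A → A ⊆ H → ¬ Good G A := by
    intro A h1 h3 g
    have := add_leaves hc (h3.trans hHX) g H (fun y hy hy' => by
      obtain ⟨x, hx, hl⟩ := leaf y hy (fun e => hy' (h1 e))
      exact ⟨x, h1 hx, hl⟩)
    rw [Finset.union_eq_right.2 h3] at this
    exact badH this
  have onlyX : Only G X H a b := fun x hx y hy hy' hxy => ho x hx y (hcl x (hH hx) y hy hxy) hy' hxy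
  by_cases tw : TwoEC G W
  · exact ⟨W, H, a, b, ⟨hWH, hHX, tw, up W subset_rfl hWH, badH, leaf, onlyX⟩, subset_rfl⟩
  have step : ∀ A a' b', A ⊆ W → A.Nonempty → A ≠ W → Only G W A a' b' → a ∉ A →
      ∃ W H' a b, Wit G X W H' a b ∧ H' ⊆ H := by
    intro A a' b' hA hne hne' ho' haA
    set B := H.filter (fun y => y ∈ A ∨ (y ∉ W ∧ ∃ x ∈ A, Leaf G X y x)) with hB
    have hBH : B ⊆ H := Finset.filter_subset _ _
    have hAB : A ⊆ B := fun y hy => Finset.mem_filter.2 ⟨hWH (hA hy), Or.inl hy⟩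
    have oB : Only G C B a' b' := by
      intro x hx y hy hy' hxy
      rcases (Finset.mem_filter.1 hx).2 with e | ⟨-, u, hu, hl⟩
      · by_cases f : y ∈ H
        · by_cases f' : y ∈ W
          · exact ho' x e y f' (fun r => hy' (hAB r)) hxy
          · obtain ⟨u, -, hl⟩ := leaf y f f'
            have : x = u := hl.2.2.2 x (hHX (hBH hx)) hxy.symm
            exact absurd (Finset.mem_filter.2 ⟨f, Or.inr ⟨f', x, e, this ▸ hl⟩⟩) hy'
        · exact absurd ((ho x (hBH hx) y hy f hxy).1 ▸ e) haA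
      · exact absurd (hAB (hl.2.2.2 y (hC hy) hxy ▸ hu)) hy'
    have ss : B ⊂ H := by
      refine Finset.ssubset_iff_subset_ne.2 ⟨hBH, fun e => hne' (Finset.Subset.antisymm hA ?_)⟩
      intro y hy
      have : y ∈ B := e ▸ hWH hy
      rcases (Finset.mem_filter.1 this).2 with r | r
      · exact r
      · exact absurd hy r.1
    by_cases two : ∃ s ∈ B, ∃ t ∈ B, s ≠ t
    · obtain ⟨W1, H1, a1, b1, w1, s1⟩ := ih B ss (hBH.trans hH) two a' b' oB
      exact ⟨W1, H1, a1, b1, w1, s1.trans hBH⟩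
    · exfalso
      push Not at two
      obtain ⟨r, hr⟩ := hne
      have hrH : r ∈ H := hWH (hA hr)
      have all : ∀ u ∈ X, G.Adj r u → u = b' := fun u hu hru =>
        (oB r (hAB hr) u (hcl r (hH hrH) u hu hru) (fun e => hru.ne (two r (hAB hr) u e)) hru).2
      obtain ⟨z, hz, hrz⟩ := nbH r hrH
      have := all z (hHX hz) hrz
      subst this
      exact (Finset.mem_filter.1 (hA hr)).2 ⟨z, hHX hrH, hHX hz, hrz, all⟩
  unfold TwoEC at tw
  rw [not_and_or] at tw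
  rcases tw with tw | tw
  · exfalso
    push Not at tw
    have : ∃ y ∈ H, y ∉ W := by
      by_contra e
      push Not at e
      exact hst (tw s (e s hs) t (e t ht))
    obtain ⟨y, hy, hy'⟩ := this
    obtain ⟨x, hx, hl⟩ := leaf y hy hy'
    have sub : ({y, x} : Finset V) ⊆ H := by
      intro r hr; rcases Finset.mem_insert.1 hr with rfl | hr
      · exact hy
      · exact Finset.mem_singleton.1 hr ▸ hWH hx
    refine up {y, x} (fun r hr => ?_) sub (good_pair (hc.mono (sub.trans hHX)) hl.2.2.1)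
    simp [tw r hr x hx]
  · push Not at tw
    obtain ⟨A, hA, hne, hne', a', b', ho'⟩ := tw
    by_cases e : a ∈ A
    · refine step (W \ A) b' a' Finset.sdiff_subset ?_ (Finset.sdiff_ssubset hA hne).ne
        (ho'.compl hA) (by simp [e])
      rw [Finset.sdiff_nonempty]; exact fun s => hne' (Finset.Subset.antisymm hA s)
    · exact step A a' b' hA hne hne' ho' e

/-- a bad set has a bad component -/
theorem uw1_bad_comp {R : Finset V} (hb : ¬ Good G R) :
    ∃ C ⊆ R, Conn G C ∧ (∀ x ∈ C, ∀ y ∈ R, G.Adj x y → y ∈ C) ∧ ¬ Good G C := by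
  have key : ∀ C ⊆ R, (∀ x ∈ C, ∀ y ∈ R, G.Adj x y → y ∈ C) → ¬ Good G C →
      ∃ C ⊆ R, Conn G C ∧ (∀ x ∈ C, ∀ y ∈ R, G.Adj x y → y ∈ C) ∧ ¬ Good G C := by
    intro C
    induction C using Finset.strongInduction with
    | H C ih =>
    intro hC hcl hbC
    by_cases hcon : Conn G C
    · exact ⟨C, hC, hcon, hcl, hbC⟩
    · unfold Conn at hcon
      push Not at hcon
      obtain ⟨A, hA, hne, hne', hno⟩ := hcon
      by_cases g1 : Good G A
      · by_cases g2 : Good G (C \ A)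
        · have := Col.union g1 g2 (by simp +contextual)
            (fun x hx y hy => hno x hx y (Finset.mem_sdiff.1 hy).1 (Finset.mem_sdiff.1 hy).2) (by simp)
          rw [Finset.union_sdiff_of_subset hA] at this
          exact absurd this hbC
        · refine ih (C \ A) (Finset.sdiff_ssubset hA hne) (Finset.sdiff_subset.trans hC) ?_ g2
          intro x hx y hy hxy
          rw [Finset.mem_sdiff] at hx ⊢
          exact ⟨hcl x hx.1 y hy hxy, fun e => hno y e x hx.1 hx.2 hxy.symm⟩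
      · refine ih A (Finset.ssubset_iff_subset_ne.2 ⟨hA, hne'⟩) (hA.trans hC) ?_ g1
        intro x hx y hy hxy
        by_contra e
        exact hno x hx y (hcl x (hA hx) y hy hxy) e hxy
  exact key R subset_rfl (fun _ _ _ hy _ => hy) hb

/-- Lemma W with weights: if the free edge exists, the witness carries at most half of the weight.
Sketch: strengthen `lemW_conn` (copy its proof) to give `H' ⊆ H`. For a bad component `C`: if some `H0 ⊆ C` with
`Only G C H0 a b` has two vertices on both sides, take the lighter side (`Only.compl`); otherwise the witness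
from `H = C` misses at most one vertex `b`, a leaf at `a ∈ W`, and `C` itself is a witness without free edge. -/
theorem lemW_half {R : Finset V} (hc : Cub G R) (hF : HF G R) (hb : ¬ Good G R) (mu : V → ℕ) :
    (∃ v, Iso G R v) ∨ ∃ W H a b, Wit G R W H a b ∧
      (a ∈ H → b ∈ R → b ∉ H → G.Adj a b → 2 * ∑ x ∈ H, mu x ≤ ∑ x ∈ R, mu x) := by
  obtain ⟨C, hC, hcon, hcl, hbC⟩ := uw1_bad_comp hb
  by_cases two : ∃ s ∈ C, ∃ t ∈ C, s ≠ t
  swap
  · have hne : C.Nonempty := by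
      rw [Finset.nonempty_iff_ne_empty]; rintro rfl; exact hbC good_empty
    obtain ⟨v, hv⟩ := hne
    push Not at two
    exact Or.inl ⟨v, hC hv, fun u hu hvu => hvu.ne (two v hv u (hcl v hv u hu hvu))⟩
  right
  have hCR : ∑ x ∈ C, mu x ≤ ∑ x ∈ R, mu x := Finset.sum_le_sum_of_subset hC
  have light : ∀ H0 ⊆ C, (∃ s ∈ H0, ∃ t ∈ H0, s ≠ t) → ∀ a b, Only G C H0 a b →
      2 * ∑ x ∈ H0, mu x ≤ ∑ x ∈ C, mu x → ∃ W H a b, Wit G R W H a b ∧
      (a ∈ H → b ∈ R → b ∉ H → G.Adj a b → 2 * ∑ x ∈ H, mu x ≤ ∑ x ∈ R, mu x) := by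
    intro H0 h0 t0 a b ho hl
    obtain ⟨W, H, a', b', w, s⟩ := uw1_conn hc hF hC hcon hcl hbC H0 h0 t0 a b ho
    refine ⟨W, H, a', b', w, fun _ _ _ _ => ?_⟩
    have : ∑ x ∈ H, mu x ≤ ∑ x ∈ H0, mu x := Finset.sum_le_sum_of_subset s
    omega
  obtain ⟨v, hv, -⟩ := id two
  obtain ⟨W, H, a, b, w, hHC⟩ := uw1_conn hc hF hC hcon hcl hbC C subset_rfl two v v
    (fun x _ y hy hy' _ => absurd hy hy')
  have oC : Only G C H a b := fun x hx y hy hy' hxy => w.only x hx y (hC hy) hy' hxy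
  have tH : ∃ s ∈ H, ∃ t ∈ H, s ≠ t := by
    obtain ⟨s, hs, t, ht, hst⟩ := w.two.1
    exact ⟨s, w.sub hs, t, w.sub ht, hst⟩
  by_cases tc : ∃ s ∈ C \ H, ∃ t ∈ C \ H, s ≠ t
  · have hs : ∑ x ∈ C \ H, mu x + ∑ x ∈ H, mu x = ∑ x ∈ C, mu x := Finset.sum_sdiff hHC
    by_cases hl : 2 * ∑ x ∈ H, mu x ≤ ∑ x ∈ C, mu x
    · exact light H hHC tH a b oC hl
    · exact light (C \ H) Finset.sdiff_subset tc b a (oC.compl hHC) (by omega)
  by_cases fr : a ∈ H ∧ b ∈ R ∧ b ∉ H ∧ G.Adj a b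
  swap
  · exact ⟨W, H, a, b, w, fun h1 h2 h3 h4 => absurd ⟨h1, h2, h3, h4⟩ fr⟩
  obtain ⟨h1, h2, h3, h4⟩ := fr
  push Not at tc
  have hbC' : b ∈ C := hcl a (hHC h1) b h2 h4
  have rest : ∀ y ∈ C, y ∉ H → y = b := fun y hy hy' =>
    tc y (Finset.mem_sdiff.2 ⟨hy, hy'⟩) b (Finset.mem_sdiff.2 ⟨hbC', h3⟩)
  have haW : a ∈ W := by
    by_contra e
    obtain ⟨x, hx, hl⟩ := w.leaf a h1 e
    exact h3 (hl.2.2.2 b h2 h4 ▸ w.sub hx)
  have lb : Leaf G R b a := by
    refine ⟨h2, w.subX h1, h4.symm, fun u hu hbu => ?_⟩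
    have huH : u ∈ H := by
      by_contra e
      exact hbu.ne (rest u (hcl b hbC' u hu hbu) e).symm
    exact (w.only u huH b h2 h3 hbu.symm).1
  refine ⟨W, C, a, b, ⟨w.sub.trans hHC, hC, w.two, w.badW, hbC, fun y hy hy' => ?_,
    fun x hx y hy hy' hxy => absurd (hcl x hx y hy hxy) hy'⟩, fun _ _ e _ => absurd hbC' e⟩
  by_cases e : y ∈ H
  · exact w.leaf y e hy'
  · exact ⟨a, haW, rest y hy e ▸ lb⟩
/-- the component of `o` in `R` -/
theorem exists_comp {R : Finset V} {o : V} (ho : o ∈ R) :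
    ∃ O ⊆ R, o ∈ O ∧ Conn G O ∧ ∀ x ∈ O, ∀ y ∈ R, G.Adj x y → y ∈ O := by
  have key : ∀ C ⊆ R, o ∈ C → (∀ x ∈ C, ∀ y ∈ R, G.Adj x y → y ∈ C) →
      ∃ O ⊆ R, o ∈ O ∧ Conn G O ∧ ∀ x ∈ O, ∀ y ∈ R, G.Adj x y → y ∈ O := by
    intro C
    induction C using Finset.strongInduction with
    | H C ih =>
    intro hC hoC hcl
    by_cases hcon : Conn G C
    · exact ⟨C, hC, hoC, hcon, hcl⟩
    · unfold Conn at hcon
      push Not at hcon
      obtain ⟨A, hA, hne, hne', hno⟩ := hcon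
      by_cases e : o ∈ A
      · refine ih A (Finset.ssubset_iff_subset_ne.2 ⟨hA, hne'⟩) (hA.trans hC) e ?_
        intro x hx y hy hxy
        by_contra f
        exact hno x hx y (hcl x (hA hx) y hy hxy) f hxy
      · refine ih (C \ A) (Finset.sdiff_ssubset hA hne) (Finset.sdiff_subset.trans hC)
          (Finset.mem_sdiff.2 ⟨hoC, e⟩) ?_
        intro x hx y hy hxy
        rw [Finset.mem_sdiff] at hx ⊢
        exact ⟨hcl x hx.1 y hy hxy, fun f => hno y f x hx.1 hx.2 hxy.symm⟩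
  exact key R subset_rfl ho (fun _ _ _ hy _ => hy)
/-- a vertex of a 2-edge-connected part has at most one neighbour outside -/
theorem out_unique {W : Finset V} (hc : Cub G W) (h2 : TwoEC G W) {v y z : V} (hv : v ∈ W) (hy : y ∉ W)
    (hz : z ∉ W) (ay : G.Adj v y) (az : G.Adj v z) : y = z := one_stub hc h2 hv hy hz ay az
theorem uw2_one {R : Finset V} {x y : V} (hy : y ∈ X) (hy' : y ∉ R) (ay : G.Adj x y) :
    1 ≤ Sc.out G X R x :=
  Finset.card_pos.2 ⟨y, Finset.mem_filter.2 ⟨hy, hy', ay⟩⟩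
theorem uw2_two {R : Finset V} {x y z : V} (hy : y ∈ X) (hy' : y ∉ R) (ay : G.Adj x y) (hz : z ∈ X)
    (hz' : z ∉ R) (az : G.Adj x z) (ne : y ≠ z) : 2 ≤ Sc.out G X R x :=
  Finset.one_lt_card.2 ⟨y, Finset.mem_filter.2 ⟨hy, hy', ay⟩, z, Finset.mem_filter.2 ⟨hz, hz', az⟩, ne⟩
/-- a leaf of the remainder has one mark, two without a stub -/
theorem uw2_leaf {R : Finset V} (hc : Cub G X) (h2 : TwoEC G X) (hR : R ⊆ X) {x y : V}
    (l : Leaf G R x y) : 1 ≤ Sc.out G X R x ∧ (Ker G X x → 2 ≤ Sc.out G X R x) := by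
  obtain ⟨hx, -, a, u⟩ := l
  obtain ⟨p, q, hb⟩ := hc.first (hR hx) a
  have hp : p ∉ R := fun e => hb.1 (u p e hb.adj2).symm
  have hq : q ∉ R := fun e => hb.2.1 (u q e hb.adj3).symm
  refine ⟨?_, fun k => uw2_two (k p hb.adj2) hp hb.adj2 (k q hb.adj3) hq hb.adj3 hb.2.2.1⟩
  by_cases e : p ∈ X
  · exact uw2_one e hp hb.adj2
  · exact uw2_one (by_contra fun e' => hb.2.2.1 (one_stub hc h2 (hR hx) e e' hb.adj2 hb.adj3)) hq hb.adj3
/-- weight of `y`: its marks, the marks of the leaves at `y`, and `df` if `y` carries the free edge -/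
theorem wt_exists {R W H : Finset V} {a b : V} (hc : Cub G X) (h2 : TwoEC G X) (hR : R ⊆ X)
    (w : Wit G R W H a b) {b0 df : ℕ} (hdf : 1 ≤ df) (h0 : ∑ x ∈ H, Sc.out G X R x ≤ b0)
    (h1 : a ∈ H → b ∈ R → b ∉ H → G.Adj a b → ∑ x ∈ H, Sc.out G X R x + df ≤ b0) :
    ∃ wt, Wt G X R W H a b df (Outs G X W) wt ∧ ∑ y ∈ Outs G X W, wt y ≤ b0 := by
  have lf : ∀ y : V, ∀ x ∈ H, x ∉ W → G.Adj y x →
      Sc.out G X R x ≤ ∑ x ∈ H \ W, if G.Adj y x then Sc.out G X R x else 0 := fun y x hx hx' ad => by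
    have := Finset.single_le_sum (f := fun x => if G.Adj y x then Sc.out G X R x else 0)
      (fun _ _ => Nat.zero_le _) (Finset.mem_sdiff.2 ⟨hx, hx'⟩)
    rwa [if_pos ad] at this
  refine ⟨fun y => Sc.out G X R y + (∑ x ∈ H \ W, if G.Adj y x then Sc.out G X R x else 0) +
    if y = a then (if b ∈ R ∧ b ∉ H ∧ G.Adj a b then df else 0) else 0, ⟨fun y hy => ?_,
      fun y hy x hx hx' ad k => ?_, fun _ r1 r2 r3 => ?_⟩, ?_⟩
  · obtain ⟨hW, x, hx, hx', ad⟩ := Finset.mem_filter.1 hy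
    by_cases e : x ∈ R
    · by_cases e' : x ∈ H
      · obtain ⟨p, -, l⟩ := w.leaf x e' hx'
        have := (uw2_leaf hc h2 hR l).1.trans (lf y x e' hx' ad)
        omega
      · obtain ⟨rfl, rfl⟩ := w.only y (w.sub hW) x e e' ad
        rw [if_pos rfl, if_pos ⟨e, e', ad⟩]
        omega
    · have := uw2_one hx e ad
      omega
  · obtain ⟨p, -, l⟩ := w.leaf x hx hx'
    have := ((uw2_leaf hc h2 hR l).2 k).trans (lf y x hx hx' ad)
    omega
  · rw [if_pos rfl, if_pos ⟨r1, r2, r3⟩]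
    omega
  · refine (Finset.sum_le_sum_of_subset (Finset.filter_subset _ W)).trans ?_
    have s1 : ∑ y ∈ W, ∑ x ∈ H \ W, (if G.Adj y x then Sc.out G X R x else 0) ≤
        ∑ x ∈ H \ W, Sc.out G X R x := by
      rw [Finset.sum_comm]
      refine Finset.sum_le_sum fun x hx => ?_
      obtain ⟨p, hp, l⟩ := w.leaf x (Finset.mem_sdiff.1 hx).1 (Finset.mem_sdiff.1 hx).2
      rw [Finset.sum_eq_single_of_mem p hp fun y hy ne =>
        if_neg fun ad => ne (l.2.2.2 y (w.subX (w.sub hy)) ad.symm), if_pos l.2.2.1.symm]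
    have s2 := Finset.sum_sdiff (f := Sc.out G X R) w.sub
    rw [Finset.sum_add_distrib, Finset.sum_add_distrib, Finset.sum_ite_eq']
    split_ifs with e1 e2
    · have := h1 (w.sub e1) e2.1 e2.2.1 e2.2.2
      omega
    · omega
    · omega
/-- double counting of the marks -/
theorem sum_out_le {R H : Finset V} (T : ℕ → V) (c : ℕ)
    (h : ∀ x ∈ H, ∀ z ∈ X, z ∉ R → G.Adj x z → ∃ i < c, z = T i) :
    ∑ x ∈ H, Sc.out G X R x ≤ ∑ i ∈ Finset.range c, (H.filter (fun y => G.Adj (T i) y)).card := by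
  simp only [Finset.card_filter]
  rw [Finset.sum_comm]
  refine Finset.sum_le_sum fun x hx => ?_
  rw [← Finset.card_filter]
  refine le_trans (Finset.card_le_card fun z hz => ?_) (Finset.card_image_le (f := T))
  obtain ⟨h1, h2, h3⟩ := Finset.mem_filter.1 hz
  obtain ⟨i, hi, rfl⟩ := h x hx z h1 h2 h3
  exact Finset.mem_image.2 ⟨i, Finset.mem_filter.2 ⟨Finset.mem_range.2 hi, h3.symm⟩, rfl⟩
theorem smL_eq (A N Lq c : ℕ) : smL A N Lq c = ∑ i ∈ Finset.range c, rr A N (cv Lq i) := by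
  induction c with
  | zero => rfl
  | succ c ih => rw [Finset.sum_range_succ, ← ih]; rfl
/-- an isolated vertex of the remainder has two marks, three without a stub -/
theorem iso_marks {R : Finset V} (hc : Cub G X) (h2 : TwoEC G X) (hR : R ⊆ X) {v : V} (hv : Iso G R v) :
    2 ≤ Sc.out G X R v ∧ (Ker G X v → 3 ≤ Sc.out G X R v) := by
  obtain ⟨hv, u⟩ := hv
  obtain ⟨x, y, z, hb⟩ := hc v (hR hv)
  have hx : x ∉ R := fun e => u x e hb.adj1
  have hy : y ∉ R := fun e => u y e hb.adj2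
  have hz : z ∉ R := fun e => u z e hb.adj3
  have st := fun p q => one_stub hc h2 (hR hv) (y := p) (z := q)
  refine ⟨?_, fun k => Finset.two_lt_card_iff.2 ⟨x, y, z, Finset.mem_filter.2 ⟨k x hb.adj1, hx, hb.adj1⟩,
    Finset.mem_filter.2 ⟨k y hb.adj2, hy, hb.adj2⟩, Finset.mem_filter.2 ⟨k z hb.adj3, hz, hb.adj3⟩,
    hb.1, hb.2.1, hb.2.2.1⟩⟩
  by_cases e : x ∈ X
  · by_cases e' : y ∈ X
    · exact uw2_two e hx hb.adj1 e' hy hb.adj2 hb.1
    · exact uw2_two e hx hb.adj1 (by_contra fun e'' => hb.2.2.1 (st y z e' e'' hb.adj2 hb.adj3)) hz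
        hb.adj3 hb.2.1
  · exact uw2_two (by_contra fun e' => hb.1 (st x y e e' hb.adj1 hb.adj2)) hy hb.adj2
      (by_contra fun e' => hb.2.1 (st x z e e' hb.adj1 hb.adj3)) hz hb.adj3 hb.2.2.1

end Pool.Agent.Hom2.UC
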