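import Pool.Agent.Lib.MP_7e4769_co.Hc.UGen
import Pool.Agent.Lib.MP_7e4769_co.Hc.UW

set_option autoImplicit false

namespace Pool.Agent.Hom2.UC

open Classical

variable {V : Type} {G : SimpleGraph V} {X : Finset V}

/-- the members below 69 are full -/
theorem mem_full : ∀ m < 69, ∀ i < mN m, full (sl (mR m)) i = true := by
  have h : allLt 69 (fun m => allLt (mN m) (full (sl (mR m)))) = true := by decide +kernel
  exact fun m hm => (allLt_iff _ _).1 ((allLt_iff _ _).1 h m hm)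
theorem ul1_cons (A c : ℕ) (ch nx : PT) (ro k Rg Om cnt B : ℕ) :
    pth A (.cons c ch nx) ro k Rg Om cnt B = fz (shr B 1) fun B' =>
      bif nz (Nat.land B 1) then pth A nx ro k Rg Om cnt B' else
      fz (cO c) fun o => fz (cv ro (cA c)) fun y =>
      bif Nat.ble (cR c) cnt && lt (cA c) k then
        bif Nat.beq o 4 then fz (Nat.mod B' 64) fun z =>
          bif tb (row A y) z && !tb Rg z then
            fz (Nat.lor ro (Nat.shiftLeft z (Nat.mul 6 k))) fun ro' => fz (Nat.succ k) fun k' =>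
            fz (Nat.lor Rg (two z)) fun Rg' => pth A ch ro' k' Rg' Om cnt (shr B' 6) else 0
        else bif Nat.beq o 2 then
          bif tb Om y then fz (dif Om (two y)) fun Om' => fz (Nat.sub cnt 1) fun cnt' =>
            pth A ch ro k Rg Om' cnt' B' else 0
        else bif Nat.beq o 3 then
          bif lt (cB c) k && tb (row A y) (cv ro (cB c)) then pth A ch ro k Rg Om cnt B' else 0
        else bif Nat.beq o 1 then
          bif tb (Nat.land (d2 A) (mT A)) y then pth A ch ro k Rg Om cnt B' else 0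
        else bif Nat.beq o 6 then bif tb (d3 A) y then pth A ch ro k Rg Om cnt B' else 0
        else bif Nat.beq o 5 then B' else 0
      else 0 := rfl
theorem ul1_cond {b : Bool} {x y : ℕ} (h : (bif b then x else y) ≠ 0) :
    (b = true ∧ x ≠ 0) ∨ y ≠ 0 := by
  cases b
  exacts [Or.inr h, Or.inl ⟨rfl, h⟩]
/-- a path of the program in the pattern; `O` is the image of the mask `Om` -/
theorem pth_snd (hc : Cub G X) {W : Finset V} {n A : ℕ} {ph : ℕ → V} (h : Em G X n A ph)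
    (hW : ∀ i < n, ph i ∈ W) (t : PT) : ∀ (ro k Rg Om cnt B : ℕ) (O : Finset V) (r' : ℕ → V),
    ro < 2 ^ (6 * k) → (∀ r < k, cv ro r < n ∧ tb Rg (cv ro r) = true ∧ r' r = ph (cv ro r)) →
    (∀ j, tb Om j = true → j < n ∧ ph j ∈ O) → cnt ≤ O.card →
    pth A t ro k Rg Om cnt B ≠ 0 → Sat G X W t r' k O := by
  induction t with
  | nil => exact fun _ _ _ _ _ _ _ _ _ _ _ _ r => r rfl
  | cons c ch nx ih ih' =>
    intro ro k Rg Om cnt B O r' h1 h2 h3 h4 r
    rw [ul1_cons] at r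
    simp only [fz_eq] at r
    rcases ul1_cond r with ⟨-, r⟩ | r
    · exact Or.inl (ih' _ _ _ _ _ _ _ _ h1 h2 h3 h4 r)
    obtain ⟨b, r⟩ := cond_ne r
    rw [Bool.and_eq_true, Nat.ble_eq, lt_iff] at b
    obtain ⟨y1, -, y3⟩ := h2 _ b.2
    refine Or.inr ⟨b.1.trans h4, b.2, ?_⟩
    rw [y3]
    rcases ul1_cond r with ⟨o, r⟩ | r
    · obtain ⟨e, r⟩ := cond_ne r
      rw [Bool.and_eq_true, Bool.not_eq_true', ← Bool.not_eq_true] at e
      obtain ⟨-, z1, z2⟩ := h.adj _ _ e.1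
      obtain ⟨p1, p2, p3⟩ := cv_push h1 (tb_row_lt e.1)
      refine Or.inr (Or.inr (Or.inr (Or.inl ⟨Nat.eq_of_beq_eq_true o, _, hW _ z1, z2,
        fun i hi e' => e.2 ?_, fun ro' q1 q2 => ih _ _ _ _ _ _ _ _ p3 (fun i hi => ?_) h3 h4 r⟩)))
      · obtain ⟨u1, u2, u3⟩ := h2 i hi
        exact h.inj _ u1 _ z1 (u3.symm.trans e') ▸ u2
      · rcases Nat.lt_succ_iff_lt_or_eq.1 hi with hi | rfl
        · obtain ⟨u1, u2, u3⟩ := h2 i hi
          rw [p1 i hi]
          exact ⟨u1, (tb_or _ _ _).2 (Or.inl u2), (q1 i hi).trans u3⟩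
        · rw [p2]
          exact ⟨z1, (tb_or _ _ _).2 (Or.inr ((tb_two _ _).2 rfl)), q2⟩
    rcases ul1_cond r with ⟨o, r⟩ | r
    · obtain ⟨e, r⟩ := cond_ne r
      refine Or.inr (Or.inl ⟨Nat.eq_of_beq_eq_true o, (h3 _ e).2,
        ih _ _ _ _ _ _ _ _ h1 h2 (fun j hj => ?_) ?_ r⟩)
      · obtain ⟨u1, u2⟩ := (tb_dif _ _ _).1 hj
        exact ⟨(h3 j u1).1, Finset.mem_erase.2 ⟨fun e' => u2 ((tb_two _ _).2
          (h.inj _ (h3 j u1).1 _ y1 e')), (h3 j u1).2⟩⟩
      · rw [Finset.card_erase_of_mem (h3 _ e).2]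
        exact Nat.sub_le_sub_right h4 1
    rcases ul1_cond r with ⟨o, r⟩ | r
    · obtain ⟨e, r⟩ := cond_ne r
      rw [Bool.and_eq_true, lt_iff] at e
      exact Or.inr (Or.inr (Or.inl ⟨Nat.eq_of_beq_eq_true o, e.1,
        (h2 _ e.1).2.2 ▸ (h.adj _ _ e.2).2.2, ih _ _ _ _ _ _ _ _ h1 h2 h3 h4 r⟩))
    rcases ul1_cond r with ⟨o, r⟩ | r
    · obtain ⟨e, r⟩ := cond_ne r
      refine Or.inl ⟨Nat.eq_of_beq_eq_true o, (h.stub _ ((tb_and _ _ _).1 e).2).2, fun z hz a => ?_,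
        ih _ _ _ _ _ _ _ _ h1 h2 h3 h4 r⟩
      rcases (h.full hc ((tb_or _ _ _).2 (Or.inr e))).2 z a with ⟨j, hj, rfl⟩ | u
      exacts [hW j (h.adj _ _ hj).2.1, absurd hz u.1]
    refine Or.inr (Or.inr (Or.inr (Or.inr ?_)))
    rcases ul1_cond r with ⟨o, r⟩ | r
    · obtain ⟨e, r⟩ := cond_ne r
      refine Or.inl ⟨Nat.eq_of_beq_eq_true o, fun z a => ?_, ih _ _ _ _ _ _ _ _ h1 h2 h3 h4 r⟩
      obtain ⟨j, hj, rfl⟩ := (h.full3 hc e).2 z a
      exact hW j (h.adj _ _ hj).2.1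
    · exact Or.inr (Nat.eq_of_beq_eq_true (cond_ne r).1)
theorem ULam2_pos : ∀ m < 69, 0 < mN m := by decide +kernel

/-- a vertex of the member with a stub code is a port of `X` or lies in `Outs` -/
theorem ULam2_stub {W : Finset V} {n R i : ℕ} {ph : ℕ → V} (hc : Cub G X) (hW : W ⊆ X) (h2 : TwoEC G W)
    (h : SE G W n (sl R) ph) (hi : i < n) (hs : hasStub R i = true) :
    (Stub G X (ph i) ∧ ph i ∉ Outs G X W) ∨ (Ker G X (ph i) ∧ ph i ∈ Outs G X W) := by
  obtain ⟨k, hk, e⟩ := (hasStub_iff R i).1 hs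
  obtain ⟨y, hy, a⟩ := h.stub i hi k hk e
  have u : ∀ z, z ∉ W → G.Adj (ph i) z → z = y := fun z hz az =>
    out_unique (hc.mono hW) h2 (h.mem i hi) hz hy az a
  by_cases x : y ∈ X
  · refine Or.inr ⟨fun z az => ?_, Finset.mem_filter.2 ⟨h.mem i hi, y, x, hy, a⟩⟩
    by_cases w : z ∈ W
    · exact hW w
    · rw [u z w az]; exact x
  · refine Or.inl ⟨⟨y, x, a⟩, fun o => ?_⟩
    obtain ⟨-, z, zx, zw, az⟩ := Finset.mem_filter.1 o
    rw [u z zw az] at zx
    exact x zx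

/-- the neighbour along a code that is not open -/
theorem ULam2_code {W : Finset V} {n R i k : ℕ} {ph : ℕ → V} (h : SE G W n (sl R) ph) (hi : i < n)
    (hk : k < 3) (e : sl R i k ≠ 0) : ∃ y, G.Adj (ph i) y ∧
      ((sl R i k = 1 ∧ y ∉ W) ∨ ∃ j < n, sl R i k = j + 2 ∧ y = ph j) := by
  by_cases o : sl R i k = 1
  · obtain ⟨y, hy, a⟩ := h.stub i hi k hk o
    exact ⟨y, a, Or.inl ⟨o, hy⟩⟩
  · obtain ⟨l, a⟩ := h.edge i hi k hk (sl R i k - 2) (by omega)
    exact ⟨_, a, Or.inr ⟨_, l, by omega, rfl⟩⟩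

theorem ULam2_dist {W : Finset V} {n R : ℕ} {ph : ℕ → V} (h : SE G W n (sl R) ph) {c d : ℕ} {y z : V}
    (hy : (c = 1 ∧ y ∉ W) ∨ ∃ j < n, c = j + 2 ∧ y = ph j)
    (hz : (d = 1 ∧ z ∉ W) ∨ ∃ j < n, d = j + 2 ∧ z = ph j) (e : c ≠ d) : y ≠ z := by
  rintro rfl
  rcases hy with ⟨a, b⟩ | ⟨j, hj, a, b⟩ <;> rcases hz with ⟨a', b'⟩ | ⟨j', hj', a', b'⟩
  · omega
  · exact b (b' ▸ h.mem j' hj')
  · exact b' (b ▸ h.mem j hj)
  · have := h.inj j hj j' hj' (b.symm.trans b')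
    omega

/-- the neighbours of a full vertex -/
theorem ULam2_full {W : Finset V} {n R i : ℕ} {ph : ℕ → V} (hc : Cub G W) (h : SE G W n (sl R) ph)
    (hi : i < n) (f : full (sl R) i = true) {z : V} (az : G.Adj (ph i) z) :
    (∃ j < n, z = ph j) ∨ (z ∉ W ∧ hasStub R i = true) := by
  simp only [full, fzb_eq, Bool.and_eq_true, ne_iff] at f
  obtain ⟨⟨⟨⟨⟨f0, f1⟩, f2⟩, f01⟩, f02⟩, f12⟩ := f
  obtain ⟨y0, a0, c0⟩ := ULam2_code h hi (by omega : 0 < 3) f0
  obtain ⟨y1, a1, c1⟩ := ULam2_code h hi (by omega : 1 < 3) f1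
  obtain ⟨y2, a2, c2⟩ := ULam2_code h hi (by omega : 2 < 3) f2
  obtain ⟨x, y, u, hb⟩ := hc (ph i) (h.mem i hi)
  have nb := hb.of_adj a0 a1 a2 (ULam2_dist h c0 c1 f01) (ULam2_dist h c0 c2 f02) (ULam2_dist h c1 c2 f12)
  have key : ∀ k < 3, ∀ y : V, ((sl R i k = 1 ∧ y ∉ W) ∨ ∃ j < n, sl R i k = j + 2 ∧ y = ph j) →
      (∃ j < n, y = ph j) ∨ (y ∉ W ∧ hasStub R i = true) := by
    rintro k hk y (⟨a, b⟩ | ⟨j, hj, -, b⟩)
    · exact Or.inr ⟨b, (hasStub_iff R i).2 ⟨k, hk, a⟩⟩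
    · exact Or.inl ⟨j, hj, b⟩
  rcases nb.cases az with rfl | rfl | rfl
  · exact key 0 (by omega) _ c0
  · exact key 1 (by omega) _ c1
  · exact key 2 (by omega) _ c2

/-- a full pattern covers `W` -/
theorem ULam2_onto {W : Finset V} {n R : ℕ} {ph : ℕ → V} (hc : Cub G W) (h2 : TwoEC G W)
    (h : SE G W n (sl R) ph) (hn : 0 < n) (f : ∀ i < n, full (sl R) i = true) :
    ∀ y ∈ W, ∃ i < n, y = ph i := by
  have sub : (Finset.range n).image ph ⊆ W := by
    intro y hy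
    obtain ⟨i, hi, rfl⟩ := Finset.mem_image.1 hy
    exact h.mem i (Finset.mem_range.1 hi)
  have e : (Finset.range n).image ph = W := by
    by_contra ne
    refine h2.2 _ sub ⟨ph 0, Finset.mem_image.2 ⟨0, Finset.mem_range.2 hn, rfl⟩⟩ ne (ph 0) (ph 0) ?_
    intro x hx y hy ny a
    obtain ⟨i, hi, rfl⟩ := Finset.mem_image.1 hx
    rw [Finset.mem_range] at hi
    rcases ULam2_full hc h hi (f i hi) a with ⟨j, hj, rfl⟩ | ⟨o, -⟩
    · exact absurd (Finset.mem_image.2 ⟨j, Finset.mem_range.2 hj, rfl⟩) ny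
    · exact absurd hy o
  intro y hy
  rw [← e] at hy
  obtain ⟨i, hi, rfl⟩ := Finset.mem_image.1 hy
  exact ⟨i, Finset.mem_range.1 hi, rfl⟩

theorem ULam2_one {W : Finset V} (hc : Cub G X) (hX : TwoEC G X) (hW : W ⊆ X) (h2 : TwoEC G W)
    (tw : Two X W) : 2 ≤ (Outs G X W).card := by
  by_contra lt
  have le : (Outs G X W).card ≤ 1 := by omega
  rw [Finset.card_le_one] at le
  obtain ⟨a, ha, -⟩ := h2.1
  obtain ⟨s, sx, -, -, sw, -⟩ := tw
  have ne : W ≠ X := fun e => sw (e ▸ sx)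
  by_cases o : ∃ x ∈ W, ∃ y ∈ X, y ∉ W ∧ G.Adj x y
  · obtain ⟨x, hx, y, yx, yw, a⟩ := o
    refine hX.2 W hW ⟨x, hx⟩ ne x y (fun x' hx' y' yx' yw' a' => ?_)
    have e : x' = x := le x' (Finset.mem_filter.2 ⟨hx', y', yx', yw', a'⟩) x
      (Finset.mem_filter.2 ⟨hx, y, yx, yw, a⟩)
    subst e
    exact ⟨rfl, out_unique (hc.mono hW) h2 hx yw' yw a' a⟩
  · exact hX.2 W hW ⟨a, ha⟩ ne a a (fun x hx y yx yw a' => absurd ⟨x, hx, y, yx, yw, a'⟩ o)

theorem ULam2_two {W : Finset V} (hc : Cub G X) (e3 : Sc.E3 G X) (hW : W ⊆ X) (h2 : TwoEC G W)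
    (tw : Two X W) : 3 ≤ (Outs G X W).card := by
  obtain ⟨a, ha, b, hb, ab⟩ := h2.1
  obtain ⟨s, sx, t, tx, sw, tw, st⟩ := tw
  have c1 : 2 ≤ W.card := Finset.one_lt_card.2 ⟨a, ha, b, hb, ab⟩
  have c2 : W.card + 2 ≤ X.card := by
    have u : 2 ≤ (X \ W).card := Finset.one_lt_card.2
      ⟨s, Finset.mem_sdiff.2 ⟨sx, sw⟩, t, Finset.mem_sdiff.2 ⟨tx, tw⟩, st⟩
    have := Finset.card_sdiff_add_card_eq_card hW
    omega
  refine (e3 W hW c1 c2).trans ?_
  unfold Sc.ecut Outs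
  rw [Finset.card_filter]
  refine Finset.sum_le_sum (fun x hx => ?_)
  unfold Sc.out
  split_ifs with o
  · refine Finset.card_le_one.2 (fun y hy z hz => ?_)
    rw [Finset.mem_filter] at hy hz
    exact out_unique (hc.mono hW) h2 hx hy.2.1 hz.2.1 hy.2.2 hz.2.2
  · rw [Nat.le_zero, Finset.card_eq_zero, Finset.filter_eq_empty_iff]
    exact fun y hy u => o ⟨y, hy, u.1, u.2⟩

theorem ULam2_end {lv m n A Om B : ℕ} {P : Prog} {W : Finset V} {ph : ℕ → V} {S : Finset ℕ}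
    (cx : Cx G X lv) (hW : W ⊆ X) (h2 : TwoEC G W) (tw : Two X W) (h : Em G X n A ph)
    (hm : ∀ i < n, ph i ∈ W) (on : m < 69 → ∀ y ∈ W, ∃ i < n, y = ph i)
    (s1 : ∀ l, tb Om l = true ↔ l ∈ S) (s2 : ∀ l ∈ S, l < n ∧ ph l ∈ Outs G X W)
    (s3 : m < 69 → ∀ l < n, ph l ∈ Outs G X W → l ∈ S) (r : lamEnd lv P m A Om S.card B ≠ 0) :
    ∀ y ∈ Outs G X W, ∃ O ⊆ (Outs G X W).erase y, P.r0 ≤ O.card ∧
      ∀ ro : ℕ → V, ro 0 = y → Sat G X W P.t ro 1 O := by
  unfold lamEnd at r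
  obtain ⟨m69, r⟩ := cond_ne r
  rw [lt_iff] at m69
  have idx : ∀ y ∈ Outs G X W, ∃ l ∈ S, y = ph l := by
    intro y hy
    obtain ⟨l, hl, rfl⟩ := on m69 y (Finset.mem_filter.1 hy).1
    exact ⟨l, s3 m69 l hl hy, rfl⟩
  have ce : (Outs G X W).card = S.card := by
    symm
    refine Finset.card_bij (fun l _ => ph l) (fun l hl => (s2 l hl).2)
      (fun a ha b hb e => h.inj a (s2 a ha).1 b (s2 b hb).1 e) (fun y hy => ?_)
    obtain ⟨l, hl, rfl⟩ := idx y hy
    exact ⟨l, hl, rfl⟩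
  have dead : (Nat.ble S.card 1 || (Nat.ble S.card 2 && Nat.ble 1 lv)) = false := by
    rw [← Bool.not_eq_true, Bool.or_eq_true, Bool.and_eq_true, Nat.ble_eq, Nat.ble_eq, Nat.ble_eq]
    have c1 := ULam2_one cx.cub cx.two hW h2 tw
    rintro (a | ⟨a, b⟩)
    · omega
    · have c2 := ULam2_two cx.cub (cx.e3 b) hW h2 tw
      omega
  rw [dead] at r
  obtain ⟨r0, r⟩ := cond_ne r
  rw [lt_iff] at r0
  intro y hy
  obtain ⟨l, hl, rfl⟩ := idx y hy
  have ln := (s2 l hl).1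
  have le := h.le
  obtain ⟨B', r⟩ := bl_ne r ((s1 l).2 hl)
  have cd : ((Outs G X W).erase (ph l)).card = S.card - 1 := by rw [Finset.card_erase_of_mem hy, ce]
  have c0 : cv l 0 = l := by
    show (l >>> 0) % 64 = l
    rw [Nat.shiftRight_zero]; omega
  refine ⟨_, Finset.Subset.refl _, by omega, fun ro e => ?_⟩
  refine pth_snd cx.cub h hm P.t l 1 (two l) (dif Om (two l)) (S.card - 1) B' _ ro (by omega)
    (fun r hr => ?_) (fun j hj => ?_) (by omega) r
  · obtain rfl : r = 0 := by omega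
    rw [c0]
    exact ⟨ln, (tb_two l l).2 rfl, e⟩
  · rw [tb_dif, tb_two, s1] at hj
    exact ⟨(s2 j hj.1).1, Finset.mem_erase.2
      ⟨fun e => hj.2 (h.inj j (s2 j hj.1).1 l ln e), (s2 j hj.1).2⟩⟩

theorem ULam2_lam {lv m n R : ℕ} {cl : Cl} {P : Prog} {W : Finset V} {ph : ℕ → V} {Q : Prop}
    (cx : Cx G X lv) (hcl : Snd G X cl) (hs : (Outs G X W).card ≤ P.SM)
    (st : ∀ i < n, hasStub R i = true →
      (Stub G X (ph i) ∧ ph i ∉ Outs G X W) ∨ (Ker G X (ph i) ∧ ph i ∈ Outs G X W))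
    (ns : m < 69 → ∀ i < n, hasStub R i = false → ph i ∉ Outs G X W)
    (fin : ∀ A Om B (S : Finset ℕ), Em G X n A ph → (∀ l, tb Om l = true ↔ l ∈ S) →
      (∀ l ∈ S, l < n ∧ ph l ∈ Outs G X W) → (m < 69 → ∀ l < n, ph l ∈ Outs G X W → l ∈ S) →
      lamEnd lv P m A Om S.card B ≠ 0 → Q) (j : ℕ) :
    ∀ i A Om B (S : Finset ℕ), i + j = n → Em G X n A ph → (∀ l, tb Om l = true ↔ l ∈ S) →
      (∀ l ∈ S, l < i ∧ ph l ∈ Outs G X W) → (m < 69 → ∀ l < i, ph l ∈ Outs G X W → l ∈ S) →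
      lam cl lv (kql lv) P m n R j A Om S.card B ≠ 0 → TG G X ∨ Q := by
  induction j with
  | zero =>
    intro i A Om B S e h s1 s2 s3 r
    obtain rfl : i = n := e
    rcases cp_snd hcl h r with t | ⟨B', r⟩
    · exact Or.inl t
    · exact Or.inr (fin A Om B' S h s1 s2 s3 r)
  | succ j ih =>
    intro i A Om B S e h s1 s2 s3 r
    have hi : i < n := by omega
    have ei : Nat.sub n (Nat.succ j) = i := by show n - (j + 1) = i; omega
    have u : lam cl lv (kql lv) P m n R (j + 1) A Om S.card B = fz (Nat.sub n (Nat.succ j)) fun i =>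
      bif hasStub R i then cp cl n A (fun A B0 =>
        sq (bif z0 (kql lv) then fz (stb A i) fun A' => lam cl lv (kql lv) P m n R j A' Om S.card B0
          else B0) fun B1 =>
        bif lt S.card P.SM then fz (skr A i) fun A' => fz (Nat.lor Om (two i)) fun Om' =>
          fz (Nat.succ S.card) fun cnt' => lam cl lv (kql lv) P m n R j A' Om' cnt' B1 else B1) B
      else lam cl lv (kql lv) P m n R j A Om S.card B := rfl
    rw [u, ei, fz_eq] at r
    have s2' : ∀ l ∈ S, l < i + 1 ∧ ph l ∈ Outs G X W := fun l hl => ⟨by have := (s2 l hl).1; omega, (s2 l hl).2⟩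
    have s3' : (m < 69 → ph i ∉ Outs G X W) → m < 69 → ∀ l < i + 1, ph l ∈ Outs G X W → l ∈ S := by
      intro o m69 l hl x
      rcases Nat.lt_succ_iff_lt_or_eq.1 hl with a | rfl
      · exact s3 m69 l a x
      · exact absurd x (o m69)
    cases hb : hasStub R i with
    | false =>
      rw [hb] at r
      exact ih (i + 1) A Om B S (by omega) h s1 s2' (s3' (fun m69 => ns m69 i hi hb)) r
    | true =>
      rw [hb, cond_true] at r
      rcases cp_snd hcl h r with t | ⟨B0, r⟩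
      · exact Or.inl t
      obtain ⟨r1, r2⟩ := sq_ne r
      rcases st i hi hb with ⟨a, o⟩ | ⟨a, o⟩
      · have k0 : z0 (kql lv) = true := by
          rw [z0_iff]
          by_contra k
          obtain ⟨y, hy, ay⟩ := a
          exact hy (cx.cl (kql_ne k) _ (h.mem i hi) y ay)
        rw [k0] at r1
        simp only [cond_true, fz_eq] at r1
        exact ih (i + 1) _ Om B0 S (by omega) (h.stb' hi a) s1 s2' (s3' (fun _ => o)) r1
      · have ni : i ∉ S := fun x => by have := (s2 i x).1; omega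
        have cd : (insert i S).card = S.card + 1 := Finset.card_insert_of_notMem ni
        have s4 : ∀ l ∈ insert i S, l < i + 1 ∧ ph l ∈ Outs G X W := by
          intro l hl
          rcases Finset.mem_insert.1 hl with rfl | hl
          · exact ⟨by omega, o⟩
          · exact s2' l hl
        have k1 : lt S.card P.SM = true := by
          rw [lt_iff]
          have : (insert i S).card ≤ (Outs G X W).card :=
            Finset.card_le_card_of_injOn ph (fun l hl => (s4 l hl).2) (fun a ha b hb e =>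
              h.inj a (by have := (s4 a ha).1; omega) b (by have := (s4 b hb).1; omega) e)
          omega
        rw [k1] at r2
        simp only [cond_true, fz_eq] at r2
        refine ih (i + 1) _ (Nat.lor Om (two i)) _ (insert i S) (by omega) (h.skr' hi a) (fun l => ?_) s4
          (fun m69 l hl x => ?_) (by rw [cd]; exact r2)
        · rw [tb_or, tb_two, s1, Finset.mem_insert]; tauto
        · rcases Nat.lt_succ_iff_lt_or_eq.1 hl with a | rfl
          · exact Finset.mem_insert_of_mem (s3 m69 l a x)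
          · exact Finset.mem_insert_self _ _

/-- Invariant of `lam` at `i = n - j`: `Om` is the set of the ports below `i` without stub in `X`, `cnt` their
number; they lie in `Outs G X W`, and every vertex below `i` whose image is in `Outs G X W` is in `Om` (for a full
member). For `m < 69` the image is all of `W`. Few ports contradict `TwoEC` or `E3`. -/
theorem chkPM_snd {lv p m B : ℕ} {db : ℕ → ℕ} {pg : ℕ → Prog} (cx : Cx G X lv)
    (hf : ∀ g < (pg p).idx, Fact G X (db g)) (hm : m < 70) (r : chkPM db pg lv p m B = true)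
    {W : Finset V} (hW : W ⊆ X) (h2 : TwoEC G W) (tw : Two X W) (hs : (Outs G X W).card ≤ (pg p).SM)
    (hM : HasM G W m) : TG G X ∨ tb (pg p).keep m = true ∨
    ∀ y ∈ Outs G X W, ∃ O ⊆ (Outs G X W).erase y, (pg p).r0 ≤ O.card ∧
      ∀ ro : ℕ → V, ro 0 = y → Sat G X W (pg p).t ro 1 O := by
  unfold chkPM at r
  rw [Bool.or_eq_true] at r
  rcases r with r | r
  · exact Or.inr (Or.inl r)
  simp only [fzb_eq, Bool.and_eq_true, lt_iff, Nat.beq_eq] at r
  obtain ⟨hn, r⟩ := r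
  obtain ⟨ph, h⟩ := hM
  have hc := cx.cub.mono hW
  have key := ULam2_lam (m := m) (R := mR m) (P := pg p) (ph := ph) cx (cls_snd cx hf) hs
    (fun i hi => ULam2_stub cx.cub hW h2 h hi)
    (fun m69 i hi hb o => by
      obtain ⟨-, z, -, zw, az⟩ := Finset.mem_filter.1 o
      rcases ULam2_full hc h hi (mem_full m m69 i hi) az with ⟨j, hj, rfl⟩ | ⟨-, x⟩
      · exact zw (h.mem j hj)
      · rw [hb] at x; exact absurd x (by simp))
    (fun A Om B S em s1 s2 s3 r => ULam2_end cx hW h2 tw em h.mem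
      (fun m69 => ULam2_onto hc h2 h (ULam2_pos m m69) (mem_full m m69)) s1 s2 s3 r)
    (mN m) 0 _ 0 B ∅ (by omega) (initS_em0 h hW hn) (by simp) (by simp) (by simp)
    (by rw [Finset.card_empty, r]; omega)
  rcases key with t | t
  · exact Or.inl t
  · exact Or.inr (Or.inr t)
theorem prog_ok {lv p : ℕ} {db : ℕ → ℕ} {pg : ℕ → Prog} (cx : Cx G X lv)
    (hf : ∀ g < (pg p).idx, Fact G X (db g)) (r : ∀ m < 70, ∃ B, chkPM db pg lv p m B = true) :
    ProgOK0 G X (pg p) := by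
  intro W hW h2 hb tw hs
  have hlt : W.card < X.card := Finset.card_lt_card ⟨hW, fun e => by
    obtain ⟨s, hs, -, -, hs', -⟩ := tw
    exact hs' (e hs)⟩
  obtain ⟨m, hm, hM⟩ := (cx.below G W hlt (cx.cub.mono hW) h2).resolve_left hb
  obtain ⟨B, hB⟩ := r m hm
  exact (chkPM_snd cx hf hm hB hW h2 tw hs hM).imp_right (Or.imp_left fun e => ⟨m, hm, e, hM⟩)

end Pool.Agent.Hom2.UC
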