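import Pool.Agent.Lib.MP_7e4769_co.Hc.UMove
import Pool.Agent.Lib.MP_7e4769_co.Hc.ULam
import Pool.Agent.Lib.MP_7e4769_co.Hc.UCut2
import Pool.Agent.Lib.MP_7e4769_co.Hc.UCut3
import Pool.Agent.Lib.MP_7e4769_co.Hc.UDb

set_option autoImplicit false

namespace Pool.Agent.Hom2.UC

open Classical

variable {V : Type} {G : SimpleGraph V} {X : Finset V} {db : ℕ → ℕ} {pg : ℕ → Prog}

theorem Cx.mono {lv l : ℕ} (cx : Cx G X lv) (h : l ≤ lv) : Cx G X l :=
  ⟨cx.cub, cx.two, cx.below, cx.hf, fun e => cx.e3 (e.trans h), fun e => cx.cl (e.trans h)⟩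

theorem PC.ok {lv p : ℕ} (cx : Cx G X lv) (h : PC db pg lv p) (hf : ∀ g < (pg p).idx, Fact G X (db g)) :
    ProgOK G X (pg p) := by
  obtain ⟨q, l, h1, h2, h3, h4, h5, h6, h7, h8⟩ := h
  constructor
  · have := prog_ok (cx.mono h1) (fun g hg => hf g (hg.trans_le h2)) h7
    unfold ProgOK0 at this ⊢
    rwa [h3, h4, h5, h6] at this
  · intro i hi R W H a b ph O wt w st
    obtain ⟨B, r⟩ := h8 i (Nat.zero_le i) hi
    exact exec_snd cx (cls_snd cx hf) R W H a b _ _ _ _ _ B ph O wt w st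
      ((Nat.eq_of_beq_eq_true r).trans_ne one_ne_zero)

theorem all_facts {lv a F : ℕ} (cx : Cx G X lv) (h0 : ∀ g < a, Fact G X (db g))
    (hF : Rg (chkF db pg lv) a F) (hP : ∀ p, (pg p).idx < F → ∃ l ≤ lv, PC db pg l p) :
    ∀ f < F, Fact G X (db f) := by
  intro f
  induction f using Nat.strong_induction_on with
  | _ f ih =>
    intro hf
    by_cases c : f < a
    · exact h0 f c
    obtain ⟨B, r⟩ := hF f (by omega) hf
    refine chkF_snd cx (fun g hg => ih g hg (by omega)) (fun p hp => ?_) r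
    obtain ⟨l, hl, k⟩ := hP p (by omega)
    exact k.ok (cx.mono hl) fun g hg => ih g (by omega) (by omega)

theorem fact0 (hN : Net1 G X) : Fact G X 0x100041042 := fun ph h => by
  obtain ⟨s, s1, s2⟩ := h.stub 0 (by decide) (by decide)
  obtain ⟨t, t1, t2⟩ := h.stub 1 (by decide) (by decide)
  exact absurd t2 (hN _ (h.mem 0 (by decide)) _ (h.mem 1 (by decide)) (h.ea 0 (by decide)) s s1 s2 t t1)

theorem closed_of (hc : Cub G X) (h2 : TwoEC G X) (h : ∀ ph, SE G X 2 (sl 524355) ph → TG G X) :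
    TG G X ∨ Closed G X := by
  refine or_iff_not_imp_right.2 fun c => ?_
  unfold Closed at c
  push Not at c
  obtain ⟨x, hx, y, ad, hy⟩ := c
  obtain ⟨z, w, hn⟩ := hc.first hx ad
  have hz : z ∈ X := by_contra fun e => hn.1 (one_stub hc h2 hx hy e ad hn.adj2)
  have ne := hn.adj2.ne
  refine h (fun i => if i = 0 then x else z) ⟨fun i _ => ?_, fun i hi j hj e => ?_, fun i hi k hk e => ?_,
    fun i hi k hk v e => ?_⟩
  · split_ifs <;> assumption
  · interval_cases i <;> interval_cases j <;> simp_all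
  · obtain rfl : i = 0 := (by decide : ∀ i < 2, ∀ k < 3, sl 524355 i k = 1 → i = 0) i hi k hk e
    exact ⟨y, hy, ad⟩
  · have := (by decide : ∀ i < 2, ∀ k < 3, sl 524355 i k < 2 ∨ sl 524355 i k + i = 3) i hi k hk
    obtain rfl : v = 1 - i := by omega
    interval_cases i
    exacts [⟨by omega, hn.adj2⟩, ⟨by omega, hn.adj2.symm⟩]

theorem h4_of {P : Prog} (h2 : TwoEC G X) (h : ProgOK G X P) (e1 : P.SM = 4) (e2 : P.keep = 16512)
    (e3 : P.t = .nil) : ∀ W ⊆ X, TwoEC G W → ¬ Good G W → Two X W → (Outs G X W).card ≤ 4 →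
      TG G X ∨ HasM G W 7 ∨ HasM G W 14 := by
  intro W hW w2 bad tw c
  rcases h.1 W hW w2 bad tw (e1 ▸ c) with g | ⟨m, hm, g, k⟩ | g
  · exact .inl g
  · rw [e2] at g
    rcases (by decide +kernel : ∀ m < 70, tb 16512 m = true → m = 7 ∨ m = 14) m hm g with rfl | rfl
    exacts [.inr (.inl k), .inr (.inr k)]
  · obtain ⟨s, s1, -, -, s2, -⟩ := tw
    obtain ⟨x, x1, y, y1, y2, xy⟩ := h2.conn W hW w2.nonempty fun e => s2 (e ▸ s1)
    obtain ⟨O, -, -, o⟩ := g x (Finset.mem_filter.2 ⟨x1, y, y1, y2, xy⟩)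
    have := o (fun _ => x) rfl
    rw [e3] at this
    exact this.elim

theorem uc_of {F0 F1 F2 ps pk BA BB BC BD : ℕ} (d0 : db 0 = 0x100041042)
    (f0 : Rg (chkF db pg 0) 1 F0) (f1 : Rg (chkF db pg 1) F0 F1) (f2 : Rg (chkF db pg 2) F1 F2)
    (hP : ∀ p, F2 < (pg p).idx ∨ PL db pg F0 F1 p) (o1 : F0 ≤ F1) (o2 : F1 ≤ F2)
    (s0 : (pg ps).idx < F0)
    (rA : chkSide db pg F0 ps 8 (sl sideA) 0 59 BA = true) (rB : chkSide db pg F0 ps 7 (sl sideB) 0 27 BB = true)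
    (rC : chkSide db pg F0 ps 6 (sl sideC) 2 59 BC = true) (rD : chkSide db pg F0 ps 5 (sl sideD) 2 27 BD = true)
    (ep : ∃ B, chkSE db 1 F1 2 (sl 524355) B = true)
    (k0 : (pg pk).idx ≤ F2) (k1 : (pg pk).SM = 4) (k2 : (pg pk).keep = 16512) (k3 : (pg pk).t = .nil)
    (e0 : ∃ B, chkSE db 2 F2 5 (sl house) B = true) (e1 : ∃ B, chkSE db 2 F2 7 (sl d7a) B = true)
    (e2 : ∃ B, chkSE db 2 F2 7 (sl d7b) B = true) (e3 : ∃ B, chkSE db 2 F2 7 (sl d7c) B = true)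
    (e4 : ∃ B, chkSE db 2 F2 7 (sl f7) B = true)
    (ex : ∀ m, 1 ≤ m → m < 7 → Rg (chkX db F2 m) 0 (mN m))
    (cx : Cx G X 0) (hN : Net1 G X) : TG G X ∨ (Closed G X ∧ Sc.E3 G X ∧ Sc.C3 G X) := by
  have a0 := all_facts cx (a := 1) (fun g hg => by
    obtain rfl : g = 0 := by omega
    exact d0 ▸ fact0 hN) f0 fun p hp => by
    obtain ⟨l, k, -, k1, -⟩ := (hP p).resolve_left (by omega)
    exact ⟨l, (k1 hp).le, k⟩
  have sp : ProgOK G X (pg ps) := by
    obtain ⟨l, k, -, k1, -⟩ := (hP ps).resolve_left (by omega)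
    obtain rfl := k1 s0
    exact k.ok cx fun g hg => a0 g (by omega)
  refine (cut2_thm cx hN fun P a u b w h => side_snd cx a0 sp rA rB rC rD h).elim .inl fun h3 => ?_
  have c1 : Cx G X 1 := ⟨cx.cub, cx.two, cx.below, cx.hf, fun _ => h3, fun e => by omega⟩
  have a1 := all_facts c1 a0 f1 fun p hp => by
    obtain ⟨l, k, -, -, k1⟩ := (hP p).resolve_left (by omega)
    exact ⟨l, k1 hp, k⟩
  obtain ⟨B, ep⟩ := ep
  refine (closed_of cx.cub cx.two fun ph => chkSE_snd c1 a1 ep).elim .inl fun cl => ?_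
  have c2 : Cx G X 2 := ⟨cx.cub, cx.two, cx.below, cx.hf, fun _ => h3, fun _ => cl⟩
  have a2 := all_facts c2 a1 f2 fun p hp => by
    obtain ⟨l, k, k1, -⟩ := (hP p).resolve_left (by omega)
    exact ⟨l, k1, k⟩
  have kp : ProgOK G X (pg pk) := by
    obtain ⟨l, k, k1, -⟩ := (hP pk).resolve_left (by omega)
    exact k.ok (c2.mono k1) fun g hg => a2 g (by omega)
  have se {n : ℕ} {s : ℕ → ℕ → ℕ} (h : ∃ B, chkSE db 2 F2 n s B = true) (ph : ℕ → V) (e : SE G X n s ph) :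
      TG G X := h.elim fun _ r => chkSE_snd c2 a2 r e
  exact (cut3_thm c2 (h4_of cx.two kp k1 k2 k3) (se e0) (se e1) (se e2) (se e3) (se e4)
    fun m m1 m2 r hr => se (ex m m1 m2 r (Nat.zero_le r) hr)).imp_right fun c3 => ⟨cl, h3, c3⟩

end Pool.Agent.Hom2.UC
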