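import Pool.Agent.Lib.MP_7e4769_co.Hc.UxPg

set_option autoImplicit false
set_option maxRecDepth 100000

namespace Pool.Agent.Hom2.UC

theorem Uxx3_0 : Rg (chkX Uxdb 11084 3) 0 22 := Rg.of [
  nat_lit 0x12061c414304928e30d2c1740,
  nat_lit 0x15124d044f00a24e34c2c1740,
  nat_lit 0x15124d044f00a24e34c2c1740,
  nat_lit 0x15124d044f00a24e34c2c1740,
  nat_lit 0x15124d044f00a24e34c2c1740,
  nat_lit 0x15124d044f00a24e34c2c1740,
  nat_lit 0x15124d044f00a24e34c2c1740,
  nat_lit 0x15124d044f00a24e34c2c1740,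
  nat_lit 0x15124d044f00a24e34c2c1740,
  nat_lit 0x15124d044f00a24e34c2c1740,
  nat_lit 0x12481c41850cf414493441740,
  nat_lit 0x12481c41850cf414493441740,
  nat_lit 0x12481c41850cf414493441740,
  nat_lit 0x12481c41850cf414493441740,
  nat_lit 0x12481c41850cf414493441740,
  nat_lit 0x12481c41850cf414493441740,
  nat_lit 0x124720518408a2cf34e301740,
  nat_lit 0x124720518408a2cf34e301740,
  nat_lit 0x124720518408a2cf34e301740,
  nat_lit 0x124720518408a2cf34e301740,
  nat_lit 0x124720518408a2cf34e301740,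
  nat_lit 0x124720518408a2cf34e301740] _ _ (by decide +kernel)
theorem Uxx3_r0 : Rg (chkX Uxdb 11084 3) 0 22 := Uxx3_0
theorem Uxx4_0 : Rg (chkX Uxdb 11084 4) 0 10 := Rg.of [
  nat_lit 0x10400840c81c6141b78,
  nat_lit 0x10400c40881c6141b78,
  nat_lit 0x10c40881c6141c20,
  nat_lit 0x12071851030810159e0,
  nat_lit 0x12071851030800559e0,
  nat_lit 0x11421810040c1c20,
  nat_lit 0x10401030861481d59e0,
  nat_lit 0x10401030861472159e0,
  nat_lit 0x11821c10040c1c20,
  nat_lit 0x11821c10040c1c20] _ _ (by decide +kernel)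
theorem Uxx4_r0 : Rg (chkX Uxdb 11084 4) 0 10 := Uxx4_0
theorem Uxx5_0 : Rg (chkX Uxdb 11084 5) 0 10 := Rg.of [
  nat_lit 0x12071851030810159e8,
  nat_lit 0x12061c51020c10159e8,
  nat_lit 0x12051c60c21010159e8,
  nat_lit 0x12071851030810159f0,
  nat_lit 0x12061c51030800559f0,
  nat_lit 0x12051c61030400959f0,
  nat_lit 0x12071851030810159f8,
  nat_lit 0x12071841430420159f8,
  nat_lit 0x12071831440020559f8,
  nat_lit 0x1207185103081015a00] _ _ (by decide +kernel)
theorem Uxx5_r0 : Rg (chkX Uxdb 11084 5) 0 10 := Uxx5_0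
theorem Uxx6_0 : Rg (chkX Uxdb 11084 6) 0 14 := Rg.of [
  nat_lit 0x130b289207185103081015a08,
  nat_lit 0x12062cc0811ca1490040d5a08,
  nat_lit 0x130b289207185103081015a10,
  nat_lit 0x124a1433062c4081207015a08,
  nat_lit 0x12061c330a2c2100245055a08,
  nat_lit 0x130b188245287083100055a10,
  nat_lit 0x12061c330a2c2140241115a10,
  nat_lit 0x110614124b2821c0303215a10,
  nat_lit 0x124a1843072c50812000d5a10,
  nat_lit 0x110614124b2822003070d5a08,
  nat_lit 0x10c808024b1c518130a115a08,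
  nat_lit 0x10c808024b1c5181304295a10,
  nat_lit 0x10021410c72062c424a315a10,
  nat_lit 0x10021410c72062c424c295a08] _ _ (by decide +kernel)
theorem Uxx6_r0 : Rg (chkX Uxdb 11084 6) 0 14 := Uxx6_0

end Pool.Agent.Hom2.UC
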