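import Pool.Agent.Lib.MP_7e4769_co.Hc.UxC0
import Pool.Agent.Lib.MP_7e4769_co.Hc.UxC1
import Pool.Agent.Lib.MP_7e4769_co.Hc.UxC2
import Pool.Agent.Lib.MP_7e4769_co.Hc.UxC3
import Pool.Agent.Lib.MP_7e4769_co.Hc.UxC4
import Pool.Agent.Lib.MP_7e4769_co.Hc.UxC5
import Pool.Agent.Lib.MP_7e4769_co.Hc.UxC6
import Pool.Agent.Lib.MP_7e4769_co.Hc.UxC7
import Pool.Agent.Lib.MP_7e4769_co.Hc.UxC8
import Pool.Agent.Lib.MP_7e4769_co.Hc.UxC9
import Pool.Agent.Lib.MP_7e4769_co.Hc.UxC10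
import Pool.Agent.Lib.MP_7e4769_co.Hc.UxC11
import Pool.Agent.Lib.MP_7e4769_co.Hc.UxC12
import Pool.Agent.Lib.MP_7e4769_co.Hc.UxC13
import Pool.Agent.Lib.MP_7e4769_co.Hc.UxC14
import Pool.Agent.Lib.MP_7e4769_co.Hc.UxC15
import Pool.Agent.Lib.MP_7e4769_co.Hc.UxC16
import Pool.Agent.Lib.MP_7e4769_co.Hc.UxC17
import Pool.Agent.Lib.MP_7e4769_co.Hc.UxC18
import Pool.Agent.Lib.MP_7e4769_co.Hc.UxC19
import Pool.Agent.Lib.MP_7e4769_co.Hc.UxC20
import Pool.Agent.Lib.MP_7e4769_co.Hc.UxC21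
import Pool.Agent.Lib.MP_7e4769_co.Hc.UxC22
import Pool.Agent.Lib.MP_7e4769_co.Hc.UxC23
import Pool.Agent.Lib.MP_7e4769_co.Hc.UxC24
import Pool.Agent.Lib.MP_7e4769_co.Hc.UxC25
import Pool.Agent.Lib.MP_7e4769_co.Hc.UxC26
import Pool.Agent.Lib.MP_7e4769_co.Hc.UxC27
import Pool.Agent.Lib.MP_7e4769_co.Hc.UxC28
import Pool.Agent.Lib.MP_7e4769_co.Hc.UxC29
import Pool.Agent.Lib.MP_7e4769_co.Hc.UxC30
import Pool.Agent.Lib.MP_7e4769_co.Hc.UxC31
import Pool.Agent.Lib.MP_7e4769_co.Hc.UxC32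
import Pool.Agent.Lib.MP_7e4769_co.Hc.UxC33
import Pool.Agent.Lib.MP_7e4769_co.Hc.UxC34
import Pool.Agent.Lib.MP_7e4769_co.Hc.UxC35
import Pool.Agent.Lib.MP_7e4769_co.Hc.UxC36
import Pool.Agent.Lib.MP_7e4769_co.Hc.UxC37
import Pool.Agent.Lib.MP_7e4769_co.Hc.UxC38
import Pool.Agent.Lib.MP_7e4769_co.Hc.UxC39
import Pool.Agent.Lib.MP_7e4769_co.Hc.UxC40
import Pool.Agent.Lib.MP_7e4769_co.Hc.UxC41
import Pool.Agent.Lib.MP_7e4769_co.Hc.UxC42
import Pool.Agent.Lib.MP_7e4769_co.Hc.UxC43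
import Pool.Agent.Lib.MP_7e4769_co.Hc.UxC44
import Pool.Agent.Lib.MP_7e4769_co.Hc.UxC45
import Pool.Agent.Lib.MP_7e4769_co.Hc.UxC46
import Pool.Agent.Lib.MP_7e4769_co.Hc.UxC47
import Pool.Agent.Lib.MP_7e4769_co.Hc.UxC48
import Pool.Agent.Lib.MP_7e4769_co.Hc.UxC49
import Pool.Agent.Lib.MP_7e4769_co.Hc.UxC50
import Pool.Agent.Lib.MP_7e4769_co.Hc.UxC51
import Pool.Agent.Lib.MP_7e4769_co.Hc.UxC52
import Pool.Agent.Lib.MP_7e4769_co.Hc.UxC53
import Pool.Agent.Lib.MP_7e4769_co.Hc.UxC54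
import Pool.Agent.Lib.MP_7e4769_co.Hc.UxC55
import Pool.Agent.Lib.MP_7e4769_co.Hc.UxC56
import Pool.Agent.Lib.MP_7e4769_co.Hc.UAll

set_option autoImplicit false
set_option maxRecDepth 100000

namespace Pool.Agent.Hom2.UC

theorem Uxf0 : Rg (chkF Uxdb Uxpg 0) 1 900 := (Uxf0_r1.trans Uxf0_r547)
theorem Uxf1 : Rg (chkF Uxdb Uxpg 1) 900 11067 := (Uxf1_r900.trans (Uxf1_r978.trans (Uxf1_r1309.trans (Uxf1_r1628.trans (Uxf1_r1955.trans (Uxf1_r2323.trans (Uxf1_r2682.trans (Uxf1_r3021.trans (Uxf1_r3388.trans (Uxf1_r3718.trans (Uxf1_r4045.trans (Uxf1_r4376.trans (Uxf1_r4690.trans (Uxf1_r5019.trans (Uxf1_r5338.trans (Uxf1_r5649.trans (Uxf1_r5950.trans (Uxf1_r6270.trans (Uxf1_r6588.trans (Uxf1_r6894.trans (Uxf1_r7197.trans (Uxf1_r7455.trans (Uxf1_r7801.trans (Uxf1_r8149.trans (Uxf1_r8495.trans (Uxf1_r8832.trans (Uxf1_r9170.trans (Uxf1_r9510.trans (Uxf1_r9839.trans (Uxf1_r10168.trans (Uxf1_r10490.trans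 Uxf1_r10827)))))))))))))))))))))))))))))))
theorem Uxf2 : Rg (chkF Uxdb Uxpg 2) 11067 11084 := Uxf2_r11067
theorem Uxd2 : Rg (chkD Uxdb Uxpg 0 2) 0 6 := Uxd2_r0
theorem Uxd3 : Rg (chkD Uxdb Uxpg 0 3) 0 6 := Uxd3_r0
theorem Uxd4 : Rg (chkD Uxdb Uxpg 0 4) 0 6 := Uxd4_r0
theorem Uxd5 : Rg (chkD Uxdb Uxpg 0 5) 0 7 := Uxd5_r0
theorem Uxd6 : Rg (chkD Uxdb Uxpg 0 6) 0 6 := Uxd6_r0
theorem Uxd13 : Rg (chkD Uxdb Uxpg 1 13) 0 11 := Uxd13_r0
theorem Uxd14 : Rg (chkD Uxdb Uxpg 1 14) 0 34 := Uxd14_r0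
theorem Uxd16 : Rg (chkD Uxdb Uxpg 1 16) 0 19 := Uxd16_r0
theorem Uxd17 : Rg (chkD Uxdb Uxpg 1 17) 0 13 := Uxd17_r0
theorem Uxd18 : Rg (chkD Uxdb Uxpg 1 18) 0 46 := (Uxd18_r0.trans Uxd18_r16)
theorem Uxd20 : Rg (chkD Uxdb Uxpg 1 20) 0 24 := Uxd20_r0
theorem Uxd22 : Rg (chkD Uxdb Uxpg 1 22) 0 40 := (Uxd22_r0.trans Uxd22_r38)
theorem Uxd23 : Rg (chkD Uxdb Uxpg 1 23) 0 11 := Uxd23_r0
theorem Uxd24 : Rg (chkD Uxdb Uxpg 1 24) 0 49 := Uxd24_r0
theorem Uxd26 : Rg (chkD Uxdb Uxpg 1 26) 0 666 := (Uxd26_r0.trans (Uxd26_r17.trans (Uxd26_r93.trans (Uxd26_r176.trans (Uxd26_r273.trans (Uxd26_r376.trans (Uxd26_r448.trans (Uxd26_r532.trans Uxd26_r633))))))))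
theorem Uxd27 : Rg (chkD Uxdb Uxpg 1 27) 0 365 := (Uxd27_r0.trans (Uxd27_r40.trans (Uxd27_r114.trans (Uxd27_r187.trans (Uxd27_r262.trans Uxd27_r344)))))
theorem Uxd29 : Rg (chkD Uxdb Uxpg 1 29) 0 34 := Uxd29_r0
theorem Uxd31 : Rg (chkD Uxdb Uxpg 1 31) 0 12 := Uxd31_r0
theorem Uxm0 : Rg (chkPM Uxdb Uxpg 0 0) 0 70 := (Uxm0_r0.trans Uxm0_r59)
theorem Uxm1 : Rg (chkPM Uxdb Uxpg 0 1) 0 70 := Uxm1_r0
theorem Uxm7 : Rg (chkPM Uxdb Uxpg 0 7) 0 70 := Uxm7_r0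
theorem Uxm8 : Rg (chkPM Uxdb Uxpg 0 8) 0 70 := Uxm8_r0
theorem Uxm9 : Rg (chkPM Uxdb Uxpg 1 9) 0 70 := Uxm9_r0
theorem Uxm10 : Rg (chkPM Uxdb Uxpg 1 10) 0 70 := Uxm10_r0
theorem Uxm11 : Rg (chkPM Uxdb Uxpg 1 11) 0 70 := (Uxm11_r0.trans Uxm11_r27)
theorem Uxm12 : Rg (chkPM Uxdb Uxpg 1 12) 0 70 := (Uxm12_r0.trans Uxm12_r20)
theorem Uxm15 : Rg (chkPM Uxdb Uxpg 1 15) 0 70 := (Uxm15_r0.trans Uxm15_r13)
theorem Uxm19 : Rg (chkPM Uxdb Uxpg 1 19) 0 70 := (Uxm19_r0.trans Uxm19_r21)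
theorem Uxm21 : Rg (chkPM Uxdb Uxpg 1 21) 0 70 := (Uxm21_r0.trans Uxm21_r23)
theorem Uxm25 : Rg (chkPM Uxdb Uxpg 1 25) 0 70 := (Uxm25_r0.trans Uxm25_r28)
theorem Uxm28 : Rg (chkPM Uxdb Uxpg 1 28) 0 70 := Uxm28_r0
theorem Uxm30 : Rg (chkPM Uxdb Uxpg 1 30) 0 70 := Uxm30_r0
theorem Uxm32 : Rg (chkPM Uxdb Uxpg 2 32) 0 70 := Uxm32_r0
theorem Uxm33 : Rg (chkPM Uxdb Uxpg 2 33) 0 70 := Uxm33_r0
theorem Uxm34 : Rg (chkPM Uxdb Uxpg 2 34) 0 70 := Uxm34_r0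
theorem Uxx1 : Rg (chkX Uxdb 11084 1) 0 10 := Uxx1_r0
theorem Uxx2 : Rg (chkX Uxdb 11084 2) 0 16 := Uxx2_r0
theorem Uxx3 : Rg (chkX Uxdb 11084 3) 0 22 := Uxx3_r0
theorem Uxx4 : Rg (chkX Uxdb 11084 4) 0 10 := Uxx4_r0
theorem Uxx5 : Rg (chkX Uxdb 11084 5) 0 10 := Uxx5_r0
theorem Uxx6 : Rg (chkX Uxdb 11084 6) 0 14 := Uxx6_r0
theorem Uxpl0 : PL Uxdb Uxpg 900 11067 0 := ⟨0, ⟨0, 0, by decide +kernel, by decide +kernel, rfl, rfl, rfl, rfl,
  fun m h => Uxm0 m (Nat.zero_le m) h, Rg.nil _ 0⟩, by decide +kernel, by decide +kernel, by decide +kernel⟩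
theorem Uxpl1 : PL Uxdb Uxpg 900 11067 1 := ⟨0, ⟨1, 0, by decide +kernel, by decide +kernel, rfl, rfl, rfl, rfl,
  fun m h => Uxm1 m (Nat.zero_le m) h, Rg.nil _ 0⟩, by decide +kernel, by decide +kernel, by decide +kernel⟩
theorem Uxpl2 : PL Uxdb Uxpg 900 11067 2 := ⟨0, ⟨1, 0, by decide +kernel, by decide +kernel, rfl, rfl, rfl, rfl,
  fun m h => Uxm1 m (Nat.zero_le m) h, Uxd2⟩, by decide +kernel, by decide +kernel, by decide +kernel⟩
theorem Uxpl3 : PL Uxdb Uxpg 900 11067 3 := ⟨0, ⟨1, 0, by decide +kernel, by decide +kernel, rfl, rfl, rfl, rfl,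
  fun m h => Uxm1 m (Nat.zero_le m) h, Uxd3⟩, by decide +kernel, by decide +kernel, by decide +kernel⟩
theorem Uxpl4 : PL Uxdb Uxpg 900 11067 4 := ⟨0, ⟨1, 0, by decide +kernel, by decide +kernel, rfl, rfl, rfl, rfl,
  fun m h => Uxm1 m (Nat.zero_le m) h, Uxd4⟩, by decide +kernel, by decide +kernel, by decide +kernel⟩
theorem Uxpl5 : PL Uxdb Uxpg 900 11067 5 := ⟨0, ⟨1, 0, by decide +kernel, by decide +kernel, rfl, rfl, rfl, rfl,
  fun m h => Uxm1 m (Nat.zero_le m) h, Uxd5⟩, by decide +kernel, by decide +kernel, by decide +kernel⟩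
theorem Uxpl6 : PL Uxdb Uxpg 900 11067 6 := ⟨0, ⟨1, 0, by decide +kernel, by decide +kernel, rfl, rfl, rfl, rfl,
  fun m h => Uxm1 m (Nat.zero_le m) h, Uxd6⟩, by decide +kernel, by decide +kernel, by decide +kernel⟩
theorem Uxpl7 : PL Uxdb Uxpg 900 11067 7 := ⟨0, ⟨7, 0, by decide +kernel, by decide +kernel, rfl, rfl, rfl, rfl,
  fun m h => Uxm7 m (Nat.zero_le m) h, Rg.nil _ 0⟩, by decide +kernel, by decide +kernel, by decide +kernel⟩
theorem Uxpl8 : PL Uxdb Uxpg 900 11067 8 := ⟨0, ⟨8, 0, by decide +kernel, by decide +kernel, rfl, rfl, rfl, rfl,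
  fun m h => Uxm8 m (Nat.zero_le m) h, Rg.nil _ 0⟩, by decide +kernel, by decide +kernel, by decide +kernel⟩
theorem Uxpl9 : PL Uxdb Uxpg 900 11067 9 := ⟨1, ⟨9, 1, by decide +kernel, by decide +kernel, rfl, rfl, rfl, rfl,
  fun m h => Uxm9 m (Nat.zero_le m) h, Rg.nil _ 0⟩, by decide +kernel, by decide +kernel, by decide +kernel⟩
theorem Uxpl10 : PL Uxdb Uxpg 900 11067 10 := ⟨1, ⟨10, 1, by decide +kernel, by decide +kernel, rfl, rfl, rfl, rfl,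
  fun m h => Uxm10 m (Nat.zero_le m) h, Rg.nil _ 0⟩, by decide +kernel, by decide +kernel, by decide +kernel⟩
theorem Uxpl11 : PL Uxdb Uxpg 900 11067 11 := ⟨1, ⟨11, 1, by decide +kernel, by decide +kernel, rfl, rfl, rfl, rfl,
  fun m h => Uxm11 m (Nat.zero_le m) h, Rg.nil _ 0⟩, by decide +kernel, by decide +kernel, by decide +kernel⟩
theorem Uxpl12 : PL Uxdb Uxpg 900 11067 12 := ⟨1, ⟨12, 1, by decide +kernel, by decide +kernel, rfl, rfl, rfl, rfl,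
  fun m h => Uxm12 m (Nat.zero_le m) h, Rg.nil _ 0⟩, by decide +kernel, by decide +kernel, by decide +kernel⟩
theorem Uxpl13 : PL Uxdb Uxpg 900 11067 13 := ⟨1, ⟨12, 1, by decide +kernel, by decide +kernel, rfl, rfl, rfl, rfl,
  fun m h => Uxm12 m (Nat.zero_le m) h, Uxd13⟩, by decide +kernel, by decide +kernel, by decide +kernel⟩
theorem Uxpl14 : PL Uxdb Uxpg 900 11067 14 := ⟨1, ⟨12, 1, by decide +kernel, by decide +kernel, rfl, rfl, rfl, rfl,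
  fun m h => Uxm12 m (Nat.zero_le m) h, Uxd14⟩, by decide +kernel, by decide +kernel, by decide +kernel⟩
theorem Uxpl15 : PL Uxdb Uxpg 900 11067 15 := ⟨1, ⟨15, 1, by decide +kernel, by decide +kernel, rfl, rfl, rfl, rfl,
  fun m h => Uxm15 m (Nat.zero_le m) h, Rg.nil _ 0⟩, by decide +kernel, by decide +kernel, by decide +kernel⟩
theorem Uxpl16 : PL Uxdb Uxpg 900 11067 16 := ⟨1, ⟨15, 1, by decide +kernel, by decide +kernel, rfl, rfl, rfl, rfl,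
  fun m h => Uxm15 m (Nat.zero_le m) h, Uxd16⟩, by decide +kernel, by decide +kernel, by decide +kernel⟩
theorem Uxpl17 : PL Uxdb Uxpg 900 11067 17 := ⟨1, ⟨15, 1, by decide +kernel, by decide +kernel, rfl, rfl, rfl, rfl,
  fun m h => Uxm15 m (Nat.zero_le m) h, Uxd17⟩, by decide +kernel, by decide +kernel, by decide +kernel⟩
theorem Uxpl18 : PL Uxdb Uxpg 900 11067 18 := ⟨1, ⟨15, 1, by decide +kernel, by decide +kernel, rfl, rfl, rfl, rfl,
  fun m h => Uxm15 m (Nat.zero_le m) h, Uxd18⟩, by decide +kernel, by decide +kernel, by decide +kernel⟩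
theorem Uxpl19 : PL Uxdb Uxpg 900 11067 19 := ⟨1, ⟨19, 1, by decide +kernel, by decide +kernel, rfl, rfl, rfl, rfl,
  fun m h => Uxm19 m (Nat.zero_le m) h, Rg.nil _ 0⟩, by decide +kernel, by decide +kernel, by decide +kernel⟩
theorem Uxpl20 : PL Uxdb Uxpg 900 11067 20 := ⟨1, ⟨19, 1, by decide +kernel, by decide +kernel, rfl, rfl, rfl, rfl,
  fun m h => Uxm19 m (Nat.zero_le m) h, Uxd20⟩, by decide +kernel, by decide +kernel, by decide +kernel⟩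
theorem Uxpl21 : PL Uxdb Uxpg 900 11067 21 := ⟨1, ⟨21, 1, by decide +kernel, by decide +kernel, rfl, rfl, rfl, rfl,
  fun m h => Uxm21 m (Nat.zero_le m) h, Rg.nil _ 0⟩, by decide +kernel, by decide +kernel, by decide +kernel⟩
theorem Uxpl22 : PL Uxdb Uxpg 900 11067 22 := ⟨1, ⟨21, 1, by decide +kernel, by decide +kernel, rfl, rfl, rfl, rfl,
  fun m h => Uxm21 m (Nat.zero_le m) h, Uxd22⟩, by decide +kernel, by decide +kernel, by decide +kernel⟩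
theorem Uxpl23 : PL Uxdb Uxpg 900 11067 23 := ⟨1, ⟨21, 1, by decide +kernel, by decide +kernel, rfl, rfl, rfl, rfl,
  fun m h => Uxm21 m (Nat.zero_le m) h, Uxd23⟩, by decide +kernel, by decide +kernel, by decide +kernel⟩
theorem Uxpl24 : PL Uxdb Uxpg 900 11067 24 := ⟨1, ⟨21, 1, by decide +kernel, by decide +kernel, rfl, rfl, rfl, rfl,
  fun m h => Uxm21 m (Nat.zero_le m) h, Uxd24⟩, by decide +kernel, by decide +kernel, by decide +kernel⟩
theorem Uxpl25 : PL Uxdb Uxpg 900 11067 25 := ⟨1, ⟨25, 1, by decide +kernel, by decide +kernel, rfl, rfl, rfl, rfl,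
  fun m h => Uxm25 m (Nat.zero_le m) h, Rg.nil _ 0⟩, by decide +kernel, by decide +kernel, by decide +kernel⟩
theorem Uxpl26 : PL Uxdb Uxpg 900 11067 26 := ⟨1, ⟨25, 1, by decide +kernel, by decide +kernel, rfl, rfl, rfl, rfl,
  fun m h => Uxm25 m (Nat.zero_le m) h, Uxd26⟩, by decide +kernel, by decide +kernel, by decide +kernel⟩
theorem Uxpl27 : PL Uxdb Uxpg 900 11067 27 := ⟨1, ⟨25, 1, by decide +kernel, by decide +kernel, rfl, rfl, rfl, rfl,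
  fun m h => Uxm25 m (Nat.zero_le m) h, Uxd27⟩, by decide +kernel, by decide +kernel, by decide +kernel⟩
theorem Uxpl28 : PL Uxdb Uxpg 900 11067 28 := ⟨1, ⟨28, 1, by decide +kernel, by decide +kernel, rfl, rfl, rfl, rfl,
  fun m h => Uxm28 m (Nat.zero_le m) h, Rg.nil _ 0⟩, by decide +kernel, by decide +kernel, by decide +kernel⟩
theorem Uxpl29 : PL Uxdb Uxpg 900 11067 29 := ⟨1, ⟨28, 1, by decide +kernel, by decide +kernel, rfl, rfl, rfl, rfl,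
  fun m h => Uxm28 m (Nat.zero_le m) h, Uxd29⟩, by decide +kernel, by decide +kernel, by decide +kernel⟩
theorem Uxpl30 : PL Uxdb Uxpg 900 11067 30 := ⟨1, ⟨30, 1, by decide +kernel, by decide +kernel, rfl, rfl, rfl, rfl,
  fun m h => Uxm30 m (Nat.zero_le m) h, Rg.nil _ 0⟩, by decide +kernel, by decide +kernel, by decide +kernel⟩
theorem Uxpl31 : PL Uxdb Uxpg 900 11067 31 := ⟨1, ⟨30, 1, by decide +kernel, by decide +kernel, rfl, rfl, rfl, rfl,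
  fun m h => Uxm30 m (Nat.zero_le m) h, Uxd31⟩, by decide +kernel, by decide +kernel, by decide +kernel⟩
theorem Uxpl32 : PL Uxdb Uxpg 900 11067 32 := ⟨2, ⟨32, 2, by decide +kernel, by decide +kernel, rfl, rfl, rfl, rfl,
  fun m h => Uxm32 m (Nat.zero_le m) h, Rg.nil _ 0⟩, by decide +kernel, by decide +kernel, by decide +kernel⟩
theorem Uxpl33 : PL Uxdb Uxpg 900 11067 33 := ⟨2, ⟨33, 2, by decide +kernel, by decide +kernel, rfl, rfl, rfl, rfl,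
  fun m h => Uxm33 m (Nat.zero_le m) h, Rg.nil _ 0⟩, by decide +kernel, by decide +kernel, by decide +kernel⟩
theorem Uxpl34 : PL Uxdb Uxpg 900 11067 34 := ⟨2, ⟨34, 2, by decide +kernel, by decide +kernel, rfl, rfl, rfl, rfl,
  fun m h => Uxm34 m (Nat.zero_le m) h, Rg.nil _ 0⟩, by decide +kernel, by decide +kernel, by decide +kernel⟩
theorem UxhP (p : ℕ) : 11084 < (Uxpg p).idx ∨ PL Uxdb Uxpg 900 11067 p :=
  (Nat.lt_or_ge p 35).elim (fun h => Or.inr (match p, h with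
    | 0, _ => Uxpl0
    | 1, _ => Uxpl1
    | 2, _ => Uxpl2
    | 3, _ => Uxpl3
    | 4, _ => Uxpl4
    | 5, _ => Uxpl5
    | 6, _ => Uxpl6
    | 7, _ => Uxpl7
    | 8, _ => Uxpl8
    | 9, _ => Uxpl9
    | 10, _ => Uxpl10
    | 11, _ => Uxpl11
    | 12, _ => Uxpl12
    | 13, _ => Uxpl13
    | 14, _ => Uxpl14
    | 15, _ => Uxpl15
    | 16, _ => Uxpl16
    | 17, _ => Uxpl17
    | 18, _ => Uxpl18
    | 19, _ => Uxpl19
    | 20, _ => Uxpl20
    | 21, _ => Uxpl21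
    | 22, _ => Uxpl22
    | 23, _ => Uxpl23
    | 24, _ => Uxpl24
    | 25, _ => Uxpl25
    | 26, _ => Uxpl26
    | 27, _ => Uxpl27
    | 28, _ => Uxpl28
    | 29, _ => Uxpl29
    | 30, _ => Uxpl30
    | 31, _ => Uxpl31
    | 32, _ => Uxpl32
    | 33, _ => Uxpl33
    | 34, _ => Uxpl34
    | _ + 35, h => absurd h (by omega)))
  fun h => Or.inl (by rw [show Uxpg p = pg0 from nthP_ge Uxl p h]; decide)
theorem UxsA : chkSide Uxdb Uxpg 900 8 8 (sl sideA) 0 59 0x81859448c390003801059449030e1000e0c40628b1cc240201bf080928b1c620006f6200c2ca247188001c0082ca2481c608007062039458c6120100df84049458c3900037b1002ca248187080070420a2461c8001be081651230e4000dec4038c4940100de8402ca2481c6080070420a247188001be081651238c4000dec4030e4940100de840051230e4000de841240e30400381101448e3100037a1049030e1000e044024818708007022061c8001bc081240e304003811038c4000de04000b2892061c2001c0082892061c308006fe2031250e5900040df84041250e3040037b10059449038c1000e0041449038c1840037f101c92862c800206fc202092861c2001bd8801449030e1840037d1049030e1000df040a24818708006f6201c620900206f4201449038c1840037d1049038c1000df040a2481c608006f62018720900206f420024818708006f42081c60c2001bc8809207182001bd082061c308006f2201030e184003791030e1000de04081c60c2001bc881c608006f020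 = true := by decide +kernel
theorem UxsB : chkSide Uxdb Uxpg 900 8 7 (sl sideB) 0 27 0x81651240a30e003801051240e28c1000e0c40524a18b2001c1bf080824a1851c006f6200b289206147001c00828920718508007062031250a59000e0df84041250a30e0037b1002892071460800704209205187001be081449028c3800dec4030a41200e0de8402892071850800704209206147001be081449030a3800dec4028c41200e0de840049028c3800de841038c28400381101240c28e0037a1040e28c1000e04402071460800702205187001bc081038c284003811030a3800de04000a2481c5182001c0082481c518308006fe2029048c50e0040df84039048c2840037b10051240e30a1000e0041240e30a1840037f1018824528700206fc201c8245182001bd8801240e28c1840037d1040e28c1000df040920714608006f6201851c800206f4201240e30a1840037d1040e30a1000df040920718508006f6201461c800206f420020714608006f42071850c2001bc88081c6142001bd081c518308006f2200e28c184003791028c1000de04071850c2001bc8818508006f020 = true := by decide +kernel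
theorem UxsC : chkSide Uxdb Uxpg 900 8 6 (sl sideC) 2 59 0x8 = true := by decide +kernel
theorem UxsD : chkSide Uxdb Uxpg 900 8 5 (sl sideD) 2 27 0x8 = true := by decide +kernel
theorem uc_main {V : Type} (G : SimpleGraph V) (X : Finset V) (cx : Cx G X 0) (hN : Net1 G X) :
    TG G X ∨ (Closed G X ∧ Sc.E3 G X ∧ Sc.C3 G X) :=
  uc_of (pk := 34) (by decide +kernel) Uxf0 Uxf1 Uxf2 UxhP (by decide) (by decide) (by decide +kernel) UxsA UxsB UxsC UxsD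
    ⟨0x410159d0, by decide +kernel⟩ (by decide +kernel) rfl rfl rfl
    ⟨0x1103081015a50, by decide +kernel⟩
    ⟨0x10c2181015a50, by decide +kernel⟩
    ⟨0x1185103081015a58, by decide +kernel⟩
    ⟨0x10860c0045105bb0, by decide +kernel⟩
    ⟨0x10010c41821466a0, by decide +kernel⟩
    (fun m h1 h2 => match m, h1, h2 with
      | 0, h, _ => absurd h (by omega)
      | 1, _, _ => Uxx1
      | 2, _, _ => Uxx2
      | 3, _, _ => Uxx3
      | 4, _, _ => Uxx4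
      | 5, _, _ => Uxx5
      | 6, _, _ => Uxx6
      | _ + 7, _, h => absurd h (by omega)) cx hN

end Pool.Agent.Hom2.UC
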