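import Pool.Agent.Lib.MP_7e4769_co.St.All
import Pool.Agent.Lib.MP_7e4769_co.Hc.UxAll

set_option autoImplicit false

namespace Pool.Agent.Hom2

/-- the induction step holds -/
theorem tstep (V : Type) : TStep V := by
  classical
  exact tstep_of UC.uc_main start

end Pool.Agent.Hom2
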