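import Pool.Agent.Lib.MP_7e4769_co.Hc.Basic

set_option autoImplicit false

namespace Pool.Agent.Hom2

variable {V : Type} {G : SimpleGraph V} [DecidableEq V]

theorem Only.compl {X A : Finset V} {a b : V} (h : Only G X A a b) (hA : A ⊆ X) :
    Only G X (X \ A) b a := by
  intro x hx y hy hy' hxy
  rw [Finset.mem_sdiff] at hx hy'
  have : y ∈ A := by tauto
  exact (h y this x hx.1 hx.2 hxy.symm).symm

omit [DecidableEq V] in
theorem Only.edge {X A : Finset V} {a b : V} (h : Only G X A a b) (hX : Conn G X) (hA : A ⊆ X)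
    (hne : A.Nonempty) (hne' : A ≠ X) : a ∈ A ∧ b ∈ X ∧ b ∉ A ∧ G.Adj a b := by
  obtain ⟨x, hx, y, hy, hy', hxy⟩ := hX A hA hne hne'
  obtain ⟨rfl, rfl⟩ := h x hx y hy hy' hxy
  exact ⟨hx, hy, hy', hxy⟩

theorem Only.conn {X A : Finset V} {a b : V} (h : Only G X A a b) (hX : Conn G X) (hA : A ⊆ X) :
    Conn G A := by
  intro D hD hne hne'
  by_cases e : a ∈ D
  · have n1 : (A \ D).Nonempty := by
      rw [Finset.sdiff_nonempty]; exact fun s => hne' (Finset.Subset.antisymm hD s)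
    have n2 : A \ D ≠ X := by
      intro s
      have : a ∈ A \ D := s ▸ hA (hD e)
      exact (Finset.mem_sdiff.1 this).2 e
    obtain ⟨x, hx, y, hy, hy', hxy⟩ := hX (A \ D) (Finset.sdiff_subset.trans hA) n1 n2
    rw [Finset.mem_sdiff] at hx hy'
    by_cases f : y ∈ A
    · exact ⟨y, by tauto, x, hx.1, hx.2, hxy.symm⟩
    · exact absurd ((h x hx.1 y hy f hxy).1 ▸ e) hx.2
  · have n2 : D ≠ X := fun s => hne' (Finset.Subset.antisymm hD (s ▸ hA))
    obtain ⟨x, hx, y, hy, hy', hxy⟩ := hX D (hD.trans hA) hne n2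
    by_cases f : y ∈ A
    · exact ⟨x, hx, y, f, hy', hxy⟩
    · exact absurd ((h x (hD hx) y hy f hxy).1 ▸ hx) e

omit [DecidableEq V] in
theorem TwoEC.conn {X : Finset V} (h : TwoEC G X) : Conn G X := by
  intro A hA hne hne'
  by_contra hcon
  obtain ⟨a, -⟩ := id hne
  exact h.2 A hA hne hne' a a (fun x hx y hy hy' hxy => absurd ⟨x, hx, y, hy, hy', hxy⟩ hcon)

/-- Lemma A: a connected part with one free stub is good. -/
theorem lemA {X : Finset V} (hc : Cub G X) (hF : HF G X) :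
    ∀ O ⊆ X, Conn G O → ∀ h p, Port G O h p → GoodF G O h := by
  intro O
  induction O using Finset.strongInduction with
  | H O ih =>
  intro hO hcon h p hp
  by_cases h2 : TwoEC G O
  · exact hF O hO h2 h p hp
  have step : ∀ A a b, A ⊆ O → A ≠ O → Only G O A a b → p ∈ A → GoodF G O h := by
    intro A a b hA hne ho hpA
    obtain ⟨e1, e2, e3, e4⟩ := ho.edge hcon hA ⟨p, hpA⟩ hne
    have hB : O \ A ⊆ O := Finset.sdiff_subset
    have g1 : GoodF G A h := ih A (Finset.ssubset_iff_subset_ne.2 ⟨hA, hne⟩) (hA.trans hO)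
      (ho.conn hcon hA) h p ⟨fun e => hp.1 (hA e), hpA, hp.2.2.1, fun q hq => hp.2.2.2 q (hA hq)⟩
    have g2 : GoodF G (O \ A) a := ih (O \ A) (Finset.sdiff_ssubset hA ⟨p, hpA⟩) (hB.trans hO)
      ((ho.compl hA).conn hcon hB) a b
      ⟨by simp [e1], by simp [e2, e3], e4.symm, fun q hq hqa =>
        (ho a e1 q (Finset.mem_sdiff.1 hq).1 (Finset.mem_sdiff.1 hq).2 hqa.symm).2⟩
    have hU : A ∪ (O \ A) = O := Finset.union_sdiff_of_subset hA
    have := Col.bridge (G := G) (A := A) (B := O \ A) (T := {h}) (by rw [hU]; exact hc.mono hO) g1 g2 e1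
      (by simp [e2, e3]) e4 (by simp +contextual)
      (fun x hx y hy hxy => ho x hx y (Finset.mem_sdiff.1 hy).1 (Finset.mem_sdiff.1 hy).2 hxy)
      (fun e => hp.1 ((Set.mem_singleton_iff.1 e) ▸ e2))
      (fun t ht y hy hyt => by
        rw [Set.mem_singleton_iff.1 ht] at hyt
        rw [Finset.mem_sdiff] at hy
        exact hy.2 (hp.2.2.2 y hy.1 hyt ▸ hpA))
    rwa [hU] at this
  unfold TwoEC at h2
  rw [not_and_or] at h2
  rcases h2 with h2 | h2
  · have : O = {p} := by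
      apply Finset.eq_singleton_iff_unique_mem.2
      refine ⟨hp.2.1, fun x hx => ?_⟩
      by_contra e
      exact h2 ⟨x, hx, p, hp.2.1, e⟩
    subst this
    exact goodF_single (hc.mono hO) hp.2.2.1
  · push Not at h2
    obtain ⟨A, hA, hne, hne', a, b, ho⟩ := h2
    by_cases e : p ∈ A
    · exact step A a b hA hne' ho e
    · refine step (O \ A) b a Finset.sdiff_subset ?_ (ho.compl hA) (by simp [hp.2.1, e])
      exact (Finset.sdiff_ssubset hA hne).ne

/-- Root lemma: a good part that hangs on at most one edge makes a connected `C` good. -/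
theorem root_one {X C H : Finset V} {T : Set V} {a b : V} (hc : Cub G X) (hF : HF G X) (hC : C ⊆ X)
    (hcon : Conn G C) (hH : H ⊆ C) (hne : H.Nonempty) (ho : Only G C H a b) (hg : Col G H T)
    (hT : ∀ t ∈ T, t ∉ C ∧ ∀ y ∈ C, y ∉ H → ¬ G.Adj y t) : Col G C T := by
  by_cases e : H = C
  · exact e ▸ hg
  obtain ⟨e1, e2, e3, e4⟩ := ho.edge hcon hH hne e
  have hB : C \ H ⊆ C := Finset.sdiff_subset
  have g2 : GoodF G (C \ H) a := lemA hc hF _ (hB.trans hC) ((ho.compl hH).conn hcon hB) a b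
    ⟨by simp [e1], by simp [e2, e3], e4.symm, fun q hq hqa =>
      (ho a e1 q (Finset.mem_sdiff.1 hq).1 (Finset.mem_sdiff.1 hq).2 hqa.symm).2⟩
  have hU : H ∪ (C \ H) = C := Finset.union_sdiff_of_subset hH
  have := Col.bridge (G := G) (A := H) (B := C \ H) (T := T) (by rw [hU]; exact hc.mono hC) hg g2 e1
    (by simp [e2, e3]) e4 (by simp +contextual)
    (fun x hx y hy hxy => ho x hx y (Finset.mem_sdiff.1 hy).1 (Finset.mem_sdiff.1 hy).2 hxy)
    (fun e => (hT b e).1 e2)
    (fun t ht y hy => (hT t ht).2 y (Finset.mem_sdiff.1 hy).1 (Finset.mem_sdiff.1 hy).2)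
  rwa [hU] at this

omit [DecidableEq V] in
/-- inside a 2-edge-connected `U` the free-stub facts for the proper parts give `HF` -/
theorem HF.of_two {U X : Finset V} (hU : TwoEC G U) (hX : X ⊆ U) (hne : X ≠ U)
    (ih : ∀ W ⊆ X, TwoEC G W → FF G W) : HF G X := by
  intro W hW h2 h p hp
  rcases ih W hW h2 h p hp with g | ⟨g, -⟩
  · exact g
  · refine absurd (fun x hx y _ hy' hxy => g x hx y hy' hxy) (hU.2 W (hW.trans hX) ⟨p, hp.2.1⟩ ?_ p h)
    exact fun e => hne (Finset.Subset.antisymm hX (e ▸ hW))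

end Pool.Agent.Hom2
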