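import Pool.Agent.Lib.MP_7e4769_co.Hc.LemA

set_option autoImplicit false

namespace Pool.Agent.Hom2

variable {V : Type} {G : SimpleGraph V} [DecidableEq V]

theorem good_pair {v y : V} (hc : Cub G {v, y}) (h : G.Adj v y) : Good G {v, y} := by
  obtain ⟨a, b, ha⟩ := hc.first (by simp) h
  obtain ⟨e, f, he⟩ := hc.first (by simp) h.symm
  refine ⟨fun w => if w = v then 0 else if w = y then 1 else 3, fun w hw _ => ?_, fun w hw => ?_⟩
  · simp only [Finset.mem_insert, Finset.mem_singleton, not_or] at hw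
    simp [hw.1, hw.2]
  · rcases Finset.mem_insert.1 hw with rfl | hw
    · refine OK.of_nb ha ?_
      simp only [if_true, ha.adj1.ne', ha.adj2.ne', ha.adj3.ne', ha.1.symm, ha.2.1.symm, if_false]
      decide
    · rw [Finset.mem_singleton.1 hw]
      refine OK.of_nb he ?_
      simp only [if_true, he.adj1.ne, he.adj2.ne', he.adj3.ne', he.1.symm, he.2.1.symm, if_false]
      decide

theorem add_leaves {X A : Finset V} (hc : Cub G X) (hA : A ⊆ X) (hg : Good G A) :
    ∀ D : Finset V, (∀ y ∈ D, y ∉ A → ∃ x ∈ A, Leaf G X y x) → Good G (A ∪ D) := by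
  intro D
  induction D using Finset.induction_on with
  | empty => intro _; simpa using hg
  | insert y D hy ih =>
    intro h
    have g := ih (fun t ht => h t (Finset.mem_insert_of_mem ht))
    by_cases e : y ∈ A
    · have : A ∪ insert y D = A ∪ D := by
        ext t; simp only [Finset.mem_union, Finset.mem_insert]
        constructor
        · rintro (s | rfl | s) <;> tauto
        · tauto
      rwa [this]
    obtain ⟨x, hx, hl⟩ := h y (Finset.mem_insert_self _ _) e
    have sub : A ∪ D ⊆ X := by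
      intro t ht
      rcases Finset.mem_union.1 ht with s | s
      · exact hA s
      · by_cases s' : t ∈ A
        · exact hA s'
        · obtain ⟨_, _, l⟩ := h t (Finset.mem_insert_of_mem s) s'
          exact l.1
    have hU : (A ∪ D) ∪ {y} = A ∪ insert y D := by
      ext t; simp only [Finset.mem_union, Finset.mem_insert, Finset.mem_singleton]; tauto
    have hy1 : ({y} : Finset V) ⊆ X := by simpa using hl.1
    have := Col.bridge (G := G) (A := A ∪ D) (B := {y}) (T := ∅) (a := x) (b := y)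
      (hc.mono (Finset.union_subset sub hy1)) g (goodF_single (hc.mono hy1) hl.2.2.1)
      (Finset.mem_union_left _ hx) (by simp) hl.2.2.1.symm
      (fun t ht s => by
        rw [Finset.mem_singleton.1 s, Finset.mem_union] at ht; tauto)
      (fun t ht s hs hts => by
        rw [Finset.mem_singleton.1 hs] at hts ⊢
        exact ⟨hl.2.2.2 t (sub ht) hts.symm, rfl⟩)
      (by simp) (by simp)
    rwa [hU] at this

theorem lemW_conn {X C : Finset V} (hc : Cub G X) (hF : HF G X) (hC : C ⊆ X) (hcon : Conn G C)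
    (hcl : ∀ x ∈ C, ∀ y ∈ X, G.Adj x y → y ∈ C) (hb : ¬ Good G C) :
    ∀ H ⊆ C, (∃ s ∈ H, ∃ t ∈ H, s ≠ t) → ∀ a b, Only G C H a b → ∃ W H a b, Wit G X W H a b := by
  classical
  intro H
  induction H using Finset.strongInduction with
  | H H ih =>
  intro hH h2 a b ho
  have hHX : H ⊆ X := hH.trans hC
  obtain ⟨s, hs, t, ht, hst⟩ := id h2
  have badH : ¬ Good G H := fun g => hb (root_one hc hF hC hcon hH ⟨s, hs⟩ ho g (by simp))
  have cH : Conn G H := ho.conn hcon hH
  have nbH : ∀ y ∈ H, ∃ x ∈ H, G.Adj y x := by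
    intro y hy
    have : ({y} : Finset V) ≠ H := by
      intro e; rw [← e, Finset.mem_singleton] at hs ht; exact hst (hs.trans ht.symm)
    obtain ⟨x, hx, z, hz, -, hxz⟩ := cH {y} (by simpa using hy) (by simp) this
    exact ⟨z, hz, (Finset.mem_singleton.1 hx) ▸ hxz⟩
  set W := H.filter (fun y => ¬ ∃ x, Leaf G X y x) with hW
  have hWH : W ⊆ H := Finset.filter_subset _ _
  have leaf : ∀ y ∈ H, y ∉ W → ∃ x ∈ W, Leaf G X y x := by
    intro y hy hy'
    have : ∃ x, Leaf G X y x := by
      by_contra e; exact hy' (Finset.mem_filter.2 ⟨hy, e⟩)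
    obtain ⟨x, hl⟩ := this
    obtain ⟨z, hz, hyz⟩ := nbH y hy
    have hxH : x ∈ H := hl.2.2.2 z (hHX hz) hyz ▸ hz
    refine ⟨x, Finset.mem_filter.2 ⟨hxH, ?_⟩, hl⟩
    rintro ⟨u, hu⟩
    have huy : y = u := hu.2.2.2 y hl.1 hl.2.2.1.symm
    subst huy
    have sub : ({y, x} : Finset V) ⊆ H := by
      intro r hr; rcases Finset.mem_insert.1 hr with rfl | hr
      · exact hy
      · exact Finset.mem_singleton.1 hr ▸ hxH
    by_cases e : ({y, x} : Finset V) = H
    · exact badH (e ▸ good_pair (hc.mono (sub.trans hHX)) hl.2.2.1)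
    · obtain ⟨p, hp, q, hq, hq', hpq⟩ := cH _ sub (by simp) e
      simp only [Finset.mem_insert, Finset.mem_singleton, not_or] at hp hq'
      rcases hp with rfl | rfl
      · exact hq'.2 (hl.2.2.2 q (hHX hq) hpq)
      · exact hq'.1 (hu.2.2.2 q (hHX hq) hpq)
  have up : ∀ A, W ⊆ A → A ⊆ H → ¬ Good G A := by
    intro A h1 h3 g
    have := add_leaves hc (h3.trans hHX) g H (fun y hy hy' => by
      obtain ⟨x, hx, hl⟩ := leaf y hy (fun e => hy' (h1 e))
      exact ⟨x, h1 hx, hl⟩)
    rw [Finset.union_eq_right.2 h3] at this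
    exact badH this
  have onlyX : Only G X H a b := fun x hx y hy hy' hxy => ho x hx y (hcl x (hH hx) y hy hxy) hy' hxy
  by_cases tw : TwoEC G W
  · exact ⟨W, H, a, b, hWH, hHX, tw, up W subset_rfl hWH, badH, leaf, onlyX⟩
  have step : ∀ A a' b', A ⊆ W → A.Nonempty → A ≠ W → Only G W A a' b' → a ∉ A →
      ∃ W H a b, Wit G X W H a b := by
    intro A a' b' hA hne hne' ho' haA
    set B := H.filter (fun y => y ∈ A ∨ (y ∉ W ∧ ∃ x ∈ A, Leaf G X y x)) with hB
    have hBH : B ⊆ H := Finset.filter_subset _ _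
    have hAB : A ⊆ B := fun y hy => Finset.mem_filter.2 ⟨hWH (hA hy), Or.inl hy⟩
    have oB : Only G C B a' b' := by
      intro x hx y hy hy' hxy
      rcases (Finset.mem_filter.1 hx).2 with e | ⟨-, u, hu, hl⟩
      · by_cases f : y ∈ H
        · by_cases f' : y ∈ W
          · exact ho' x e y f' (fun r => hy' (hAB r)) hxy
          · obtain ⟨u, -, hl⟩ := leaf y f f'
            have : x = u := hl.2.2.2 x (hHX (hBH hx)) hxy.symm
            exact absurd (Finset.mem_filter.2 ⟨f, Or.inr ⟨f', x, e, this ▸ hl⟩⟩) hy'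
        · exact absurd ((ho x (hBH hx) y hy f hxy).1 ▸ e) haA
      · exact absurd (hAB (hl.2.2.2 y (hC hy) hxy ▸ hu)) hy'
    have ss : B ⊂ H := by
      refine Finset.ssubset_iff_subset_ne.2 ⟨hBH, fun e => hne' (Finset.Subset.antisymm hA ?_)⟩
      intro y hy
      have : y ∈ B := e ▸ hWH hy
      rcases (Finset.mem_filter.1 this).2 with r | r
      · exact r
      · exact absurd hy r.1
    by_cases two : ∃ s ∈ B, ∃ t ∈ B, s ≠ t
    · exact ih B ss (hBH.trans hH) two a' b' oB
    · exfalso
      push Not at two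
      obtain ⟨r, hr⟩ := hne
      have hrH : r ∈ H := hWH (hA hr)
      have all : ∀ u ∈ X, G.Adj r u → u = b' := fun u hu hru =>
        (oB r (hAB hr) u (hcl r (hH hrH) u hu hru) (fun e => hru.ne (two r (hAB hr) u e)) hru).2
      obtain ⟨z, hz, hrz⟩ := nbH r hrH
      have := all z (hHX hz) hrz
      subst this
      exact (Finset.mem_filter.1 (hA hr)).2 ⟨z, hHX hrH, hHX hz, hrz, all⟩
  unfold TwoEC at tw
  rw [not_and_or] at tw
  rcases tw with tw | tw
  · exfalso
    push Not at tw
    have : ∃ y ∈ H, y ∉ W := by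
      by_contra e
      push Not at e
      exact hst (tw s (e s hs) t (e t ht))
    obtain ⟨y, hy, hy'⟩ := this
    obtain ⟨x, hx, hl⟩ := leaf y hy hy'
    have sub : ({y, x} : Finset V) ⊆ H := by
      intro r hr; rcases Finset.mem_insert.1 hr with rfl | hr
      · exact hy
      · exact Finset.mem_singleton.1 hr ▸ hWH hx
    refine up {y, x} (fun r hr => ?_) sub (good_pair (hc.mono (sub.trans hHX)) hl.2.2.1)
    simp [tw r hr x hx]
  · push Not at tw
    obtain ⟨A, hA, hne, hne', a', b', ho'⟩ := tw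
    by_cases e : a ∈ A
    · refine step (W \ A) b' a' Finset.sdiff_subset ?_ (Finset.sdiff_ssubset hA hne).ne
        (ho'.compl hA) (by simp [e])
      rw [Finset.sdiff_nonempty]; exact fun s => hne' (Finset.Subset.antisymm hA s)
    · exact step A a' b' hA hne hne' ho' e

/-- Lemma W: a bad remainder has an AAA vertex or a witness block. -/
theorem lemW {X : Finset V} (hc : Cub G X) (hF : HF G X) (hb : ¬ Good G X) :
    (∃ v, Iso G X v) ∨ ∃ W H a b, Wit G X W H a b := by
  have key : ∀ C ⊆ X, (∀ x ∈ C, ∀ y ∈ X, G.Adj x y → y ∈ C) → ¬ Good G C →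
      (∃ v, Iso G X v) ∨ ∃ W H a b, Wit G X W H a b := by
    intro C
    induction C using Finset.strongInduction with
    | H C ih =>
    intro hC hcl hbC
    by_cases hcon : Conn G C
    · have hne : C.Nonempty := by
        rw [Finset.nonempty_iff_ne_empty]; rintro rfl; exact hbC good_empty
      obtain ⟨v, hv⟩ := hne
      by_cases two : ∃ s ∈ C, ∃ t ∈ C, s ≠ t
      · exact Or.inr (lemW_conn hc hF hC hcon hcl hbC C subset_rfl two v v
          (fun x _ y hy hy' _ => absurd hy hy'))
      · push Not at two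
        exact Or.inl ⟨v, hC hv, fun u hu hvu => hvu.ne (two v hv u (hcl v hv u hu hvu))⟩
    · unfold Conn at hcon
      push Not at hcon
      obtain ⟨A, hA, hne, hne', hno⟩ := hcon
      by_cases g1 : Good G A
      · by_cases g2 : Good G (C \ A)
        · have := Col.union g1 g2 (by simp +contextual)
            (fun x hx y hy => hno x hx y (Finset.mem_sdiff.1 hy).1 (Finset.mem_sdiff.1 hy).2) (by simp)
          rw [Finset.union_sdiff_of_subset hA] at this
          exact absurd this hbC
        · refine ih (C \ A) (Finset.sdiff_ssubset hA hne) (Finset.sdiff_subset.trans hC) ?_ g2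
          intro x hx y hy hxy
          rw [Finset.mem_sdiff] at hx ⊢
          exact ⟨hcl x hx.1 y hy hxy, fun e => hno y e x hx.1 hx.2 hxy.symm⟩
      · refine ih A (Finset.ssubset_iff_subset_ne.2 ⟨hA, hne'⟩) (hA.trans hC) ?_ g1
        intro x hx y hy hxy
        by_contra e
        exact hno x hx y (hcl x (hA hx) y hy hxy) e hxy
  exact key X subset_rfl (fun _ _ _ hy _ => hy) hb

omit [DecidableEq V] in
/-- the witness touches the removed part of a 2-edge-connected `U` at a non-free half-edge -/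
theorem Wit.touch {U X W H : Finset V} {a b : V} (hU : TwoEC G U) (hX : X ⊆ U) (hne : X ≠ U)
    (h : Wit G X W H a b) : ∃ x ∈ H, ∃ y ∈ U, y ∉ X ∧ G.Adj x y := by
  by_contra e
  obtain ⟨s, hs, -⟩ := h.two.1
  refine hU.2 H (h.subX.trans hX) ⟨s, h.sub hs⟩
    (fun r => hne (Finset.Subset.antisymm hX (r ▸ h.subX))) a b (fun x hx y hy hy' hxy => ?_)
  by_cases f : y ∈ X
  · exact h.only x hx y f hy' hxy
  · exact absurd ⟨x, hx, y, hy, f, hxy⟩ e

omit [DecidableEq V] in
/-- every half-edge of a witness vertex: block edge, leaf, the free edge, or a stub of `X` -/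
theorem Wit.half {X W H : Finset V} {a b x y : V} (h : Wit G X W H a b) (hx : x ∈ W)
    (hxy : G.Adj x y) : y ∈ W ∨ (y ∈ H ∧ y ∉ W ∧ Leaf G X y x) ∨ (y ∉ H ∧ x = a ∧ y = b) ∨ y ∉ X := by
  by_cases e : y ∈ W
  · exact Or.inl e
  by_cases f : y ∈ H
  · obtain ⟨u, -, hl⟩ := h.leaf y f e
    exact Or.inr (Or.inl ⟨f, e, hl.2.2.2 x (h.subX (h.sub hx)) hxy.symm ▸ hl⟩)
  by_cases g : y ∈ X
  · exact Or.inr (Or.inr (Or.inl ⟨f, h.only x (h.sub hx) y g f hxy⟩))
  · exact Or.inr (Or.inr (Or.inr g))

end Pool.Agent.Hom2
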