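import Pool.Agent.Lib.MP_7e4769_co.Hc.Bits
import Pool.Agent.Lib.MP_7e4769_co.Hc.DP

set_option autoImplicit false

namespace Pool.Agent.Hom2

variable {n R S K P T c0 nv : ℕ}

def rval (R K P : ℕ) (q : ℕ → ℕ → ZMod 3) (x : ℕ → ZMod 3) (s k : ℕ) : ZMod 3 :=
  if vc K P (sl R s k) = 63 then q s k else x (vc K P (sl R s k))

def rsum (R K P : ℕ) (q : ℕ → ℕ → ZMod 3) (x : ℕ → ZMod 3) (s : ℕ) : ZMod 3 :=
  rval R K P q x s 0 + rval R K P q x s 1 + rval R K P q x s 2

def Sat (R K P : ℕ) (q : ℕ → ℕ → ZMod 3) (x : ℕ → ZMod 3) (v d : ℕ) : Prop :=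
  (0 < d → d < 64 → x v ≠ x (d - 1)) ∧ (64 ≤ d → rsum R K P q x (d - 64) ≠ 0)

theorem row1_fin : ∀ (b0 b1 b2 : Bool) (r0 r1 r2 : ZMod 3),
    (b2n b0 + (b2n b1 + b2n b2) = 1 ∨ b2n b0 + (b2n b1 + b2n b2) = 2) →
    ∃ f, ∀ t, t ≠ f → (bif b0 then t else r0) + (bif b1 then t else r1) + (bif b2 then t else r2) ≠ 0 := by
  decide +kernel

set_option synthInstance.maxSize 2000 in
theorem row2_fin : ∀ (b0 b1 b2 e0 e1 e2 : Bool) (r0 r1 r2 : ZMod 3), (b0 && e0) = false →
    (b1 && e1) = false → (b2 && e2) = false → ∃ c : ZMod 3, ∀ t u : ZMod 3,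
    (bif b0 then t else bif e0 then u else r0) + (bif b1 then t else bif e1 then u else r1) +
      (bif b2 then t else bif e2 then u else r2) =
    ((b2n b0 + (b2n b1 + b2n b2) : ℕ) : ZMod 3) * t + ((b2n e0 + (b2n e1 + b2n e2) : ℕ) : ZMod 3) * u + c := by
  decide +kernel

variable {q : ℕ → ℕ → ZMod 3}

theorem slot_forb {v lim d : ℕ} (h : slotOK R K P v lim d = true) (hv : v < 63)
    (x : ℕ → ZMod 3) : ∃ f, ∀ x' : ℕ → ZMod 3, (∀ u < lim, x' u = x u) → x' v ≠ f →
      Sat R K P q x' v d := by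
  unfold slotOK at h
  by_cases d0 : d = 0
  · exact ⟨0, fun x' _ _ => ⟨fun r => by omega, fun r => by omega⟩⟩
  rw [(beq_false _ _).2 d0, cond_false] at h
  by_cases d1 : d < 64
  · rw [(lt_iff _ _).2 d1, cond_true, lt_iff] at h
    exact ⟨x (d - 1), fun x' e r => ⟨fun _ _ => by rw [e (d - 1) h]; exact r, fun r => by omega⟩⟩
  rw [(lt_false _ _).2 (by omega), cond_false] at h
  simp only [fzb_eq, Bool.and_eq_true, Bool.or_eq_true, all3_iff, Nat.beq_eq, lt_iff, mul3,
    Nat.add_eq, Nat.sub_eq] at h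
  obtain ⟨f, hf⟩ := row1_fin _ _ _ (rval R K P q x (d - 64) 0) (rval R K P q x (d - 64) 1)
    (rval R K P q x (d - 64) 2) h.2
  refine ⟨f, fun x' e r => ⟨fun _ _ => by omega, fun _ => ?_⟩⟩
  have key : ∀ k < 3, rval R K P q x' (d - 64) k =
      bif Nat.beq (vc K P (sl R (d - 64) k)) v then x' v else rval R K P q x (d - 64) k := by
    intro k hk
    by_cases a : vc K P (sl R (d - 64) k) = v
    · simp [rval, a, hv.ne]
    · rw [(beq_false _ _).2 a, cond_false]
      unfold rval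
      split_ifs with b
      · rfl
      · exact e _ (by have := h.1 k hk; omega)
  unfold rsum
  rw [key 0 (by omega), key 1 (by omega), key 2 (by omega)]
  exact hf _ r

theorem cyc_form {v v' d : ℕ} (h : cycS R K P c0 v v' d ≠ 2) (hv : v < 63) (hv' : v' < 63)
    (hne : v ≠ v') (x : ℕ → ZMod 3) : ∃ a b c : ZMod 3, a ≠ 0 ∧ b ≠ 0 ∧
      a * b = (if cycS R K P c0 v v' d = 0 then 1 else 2) ∧
      ∀ x' : ℕ → ZMod 3, (∀ u < c0, x' u = x u) → a * x' v + b * x' v' + c ≠ 0 →
        Sat R K P q x' v d := by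
  unfold cycS at h ⊢
  by_cases d1 : d < 64
  · rw [(lt_iff _ _).2 d1, cond_true] at h ⊢
    by_cases e : d = v' + 1
    · refine ⟨1, 2, 0, by decide, by decide, by simp [e], fun x' _ r => ⟨fun _ _ s => r ?_,
        fun r => by omega⟩⟩
      rw [s, e, Nat.add_sub_cancel]
      generalize x' v' = t
      revert t; decide
    · rw [(beq_false _ _).2 e] at h; simp at h
  rw [(lt_false _ _).2 (by omega), cond_false, fz_eq] at h ⊢
  simp only [fz_eq, Nat.sub_eq] at h ⊢
  by_cases al : all3 (fun k => fzb (vc K P (sl R (d - 64) k)) fun x =>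
      Nat.beq x 63 || Nat.beq x v || Nat.beq x v' || lt x c0) = true
  swap
  · rw [Bool.not_eq_true] at al; rw [al] at h; simp at h
  rw [al, cond_true] at h ⊢
  simp only [fzb_eq, Bool.or_eq_true, all3_iff, Nat.beq_eq, lt_iff] at al
  have dis : ∀ k, (Nat.beq (vc K P (sl R (d - 64) k)) v && Nat.beq (vc K P (sl R (d - 64) k)) v') =
      false := fun k => by
    rw [← Bool.not_eq_true, Bool.and_eq_true, Nat.beq_eq, Nat.beq_eq]; omega
  obtain ⟨c, hc⟩ := row2_fin _ _ _ _ _ _ (rval R K P q x (d - 64) 0) (rval R K P q x (d - 64) 1)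
    (rval R K P q x (d - 64) 2) (dis 0) (dis 1) (dis 2)
  have main : ∀ x' : ℕ → ZMod 3, (∀ u < c0, x' u = x u) →
      ((mul3 (fun k => vc K P (sl R (d - 64) k)) v : ℕ) : ZMod 3) * x' v +
      ((mul3 (fun k => vc K P (sl R (d - 64) k)) v' : ℕ) : ZMod 3) * x' v' + c ≠ 0 →
      Sat R K P q x' v d := by
    intro x' e r
    refine ⟨fun _ _ => by omega, fun _ => ?_⟩
    have key : ∀ k < 3, rval R K P q x' (d - 64) k =
        bif Nat.beq (vc K P (sl R (d - 64) k)) v then x' v else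
        bif Nat.beq (vc K P (sl R (d - 64) k)) v' then x' v' else rval R K P q x (d - 64) k := by
      intro k hk
      by_cases a : vc K P (sl R (d - 64) k) = v
      · simp [rval, a, hv.ne]
      rw [(beq_false _ _).2 a, cond_false]
      by_cases a' : vc K P (sl R (d - 64) k) = v'
      · simp [rval, a', hv'.ne]
      rw [(beq_false _ _).2 a', cond_false]
      unfold rval
      split_ifs with b
      · rfl
      · exact e _ (by have := al k hk; omega)
    unfold rsum
    rw [key 0 (by omega), key 1 (by omega), key 2 (by omega), hc]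
    exact r
  generalize mul3 (fun k => vc K P (sl R (d - 64) k)) v = m at *
  generalize mul3 (fun k => vc K P (sl R (d - 64) k)) v' = m' at *
  by_cases a : m = 1 ∧ m' = 1
  · obtain ⟨rfl, rfl⟩ := a
    exact ⟨_, _, c, by decide, by decide, by decide, main⟩
  · have a' : (Nat.beq m 1 && Nat.beq m' 1) = false := by
      rw [← Bool.not_eq_true, Bool.and_eq_true, Nat.beq_eq, Nat.beq_eq]; exact a
    rw [a', cond_false] at h ⊢
    by_cases b : m * m' = 2
    · have : m ≤ 2 := Nat.le_of_dvd (by omega) ⟨m', b.symm⟩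
      have : m' ≤ 2 := Nat.le_of_dvd (by omega) ⟨m, by rw [mul_comm]; exact b.symm⟩
      interval_cases m <;> interval_cases m' <;> first
        | omega
        | exact ⟨_, _, c, by decide, by decide, by decide, main⟩
    · rw [show Nat.mul m m' = m * m' from rfl, (beq_false _ _).2 b] at h; simp at h

theorem par_spec (s : ℕ → ℕ) (m : ℕ) (r : ℕ)
    (h : thr m (fun i a => bif Nat.beq (s i) 0 then a else bif Nat.beq (s i) 1 then Nat.sub 3 a else 0) 1 = r)
    (hr : r ≠ 0) : (∀ i < m, s i ≠ 2) ∧ r ≤ 2 ∧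
      (r : ZMod 3) = ∏ i ∈ Finset.range m, (if s i = 0 then 1 else 2) := by
  induction m generalizing r with
  | zero => subst h; exact ⟨fun i hi => by omega, by simp [thr], by simp [thr]⟩
  | succ m ih =>
    rw [thr_succ] at h
    obtain ⟨h1, h2⟩ := sq_ne (h ▸ hr)
    obtain ⟨a, b, c⟩ := ih _ rfl h1
    rw [Finset.prod_range_succ, ← c]
    generalize thr m _ 1 = t at *
    have e : r = bif Nat.beq (s m) 0 then t else bif Nat.beq (s m) 1 then Nat.sub 3 t else 0 := by
      rw [← h]; cases t with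
      | zero => exact absurd rfl h1
      | succ t => rfl
    have s2 : s m = 0 ∨ s m = 1 := by
      by_contra z
      rw [(beq_false _ _).2 (by omega), (beq_false _ _).2 (by omega)] at h2
      simp at h2
    refine ⟨fun i hi => ?_, ?_⟩
    · rcases Nat.lt_succ_iff_lt_or_eq.1 hi with u | rfl
      · exact a i u
      · omega
    · rw [e]
      have : t = 1 ∨ t = 2 := by omega
      rcases s2 with z | z <;> rcases this with y | y <;> rw [z, y] <;> decide

theorem third_val : ∀ f g : ZMod 3, ∃ t, t ≠ f ∧ t ≠ g := by decide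

theorem pay_exists (h : payChk n R S K c0 nv P T = true) (q : ℕ → ℕ → ZMod 3) :
    ∃ x : ℕ → ZMod 3, ∀ v < nv, Sat R K P q x v (tA T v) ∧ Sat R K P q x v (tB T v) := by
  simp only [payChk, Bool.and_eq_true, Nat.ble_eq, lt_iff, ne_iff, allLt_iff, Nat.beq_eq] at h
  obtain ⟨⟨⟨⟨⟨h1, h2⟩, h3⟩, h4⟩, h5⟩, -⟩ := h
  have gr : ∀ t ≤ c0, ∃ x : ℕ → ZMod 3, ∀ x' : ℕ → ZMod 3, (∀ u < t, x' u = x u) →
      ∀ v < t, Sat R K P q x' v (tA T v) ∧ Sat R K P q x' v (tB T v) := by
    intro t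
    induction t with
    | zero => exact fun _ => ⟨fun _ => 0, fun _ _ v hv => by omega⟩
    | succ t ih =>
      intro ht
      obtain ⟨x, hx⟩ := ih (by omega)
      have := h4 t (by omega)
      rw [(lt_iff _ _).2 (by omega), cond_true, Bool.and_eq_true] at this
      obtain ⟨f, hf⟩ := slot_forb (q := q) this.1 (by omega) x
      obtain ⟨g, hg⟩ := slot_forb (q := q) this.2 (by omega) x
      obtain ⟨y, y1, y2⟩ := third_val f g
      refine ⟨Function.update x t y, fun x' e v hv => ?_⟩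
      have e1 : ∀ u < t, x' u = x u := fun u hu => by
        rw [e u (by omega), Function.update_of_ne (by omega)]
      have e2 : x' t = y := by rw [e t (by omega)]; simp
      rcases Nat.lt_succ_iff_lt_or_eq.1 hv with u | rfl
      · exact hx x' e1 v u
      · exact ⟨hf x' e1 (e2 ▸ y1), hg x' e1 (e2 ▸ y2)⟩
  obtain ⟨x, hx⟩ := gr c0 le_rfl
  by_cases m0 : c0 = nv
  · exact ⟨x, m0 ▸ hx x (fun _ _ => rfl)⟩
  simp only [cycPar, fz_eq, Nat.add_eq, Nat.sub_eq] at h5
  obtain ⟨p1, -, p3⟩ := par_spec (fun i => cycS R K P c0 (c0 + i) (nxt c0 nv (c0 + i)) (tB T (c0 + i)))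
    (nv - c0) 1 h5 (by omega)
  have nx : ∀ i < nv - c0, nxt c0 nv (c0 + i) = c0 + (i + 1) % (nv - c0) := fun i hi => by
    unfold nxt
    by_cases e : c0 + i + 1 = nv
    · rw [show i + 1 = nv - c0 by omega, Nat.mod_self]; simp [e]
    · rw [(beq_false _ _).2 e, Nat.mod_eq_of_lt (by omega)]; rfl
  have nl : ∀ i < nv - c0, (i + 1) % (nv - c0) < nv - c0 ∧ (i + 1) % (nv - c0) ≠ i := fun i hi => by
    refine ⟨Nat.mod_lt _ (by omega), ?_⟩
    by_cases e : i + 1 = nv - c0
    · rw [e, Nat.mod_self]; omega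
    · rw [Nat.mod_eq_of_lt (by omega)]; omega
  have F : ∀ i, ∃ f, i < nv - c0 → ∀ x' : ℕ → ZMod 3, (∀ u < c0, x' u = x u) → x' (c0 + i) ≠ f →
      Sat R K P q x' (c0 + i) (tA T (c0 + i)) := fun i => by
    by_cases hi : i < nv - c0
    · have := h4 (c0 + i) (by omega)
      rw [(lt_false _ _).2 (by omega), cond_false] at this
      obtain ⟨f, hf⟩ := slot_forb (q := q) this (by omega) x
      exact ⟨f, fun _ => hf⟩
    · exact ⟨0, fun r => absurd r hi⟩
  have A : ∀ i, ∃ a b c : ZMod 3, i < nv - c0 → a ≠ 0 ∧ b ≠ 0 ∧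
      a * b = (if cycS R K P c0 (c0 + i) (nxt c0 nv (c0 + i)) (tB T (c0 + i)) = 0 then 1 else 2) ∧
      ∀ x' : ℕ → ZMod 3, (∀ u < c0, x' u = x u) →
        a * x' (c0 + i) + b * x' (nxt c0 nv (c0 + i)) + c ≠ 0 →
        Sat R K P q x' (c0 + i) (tB T (c0 + i)) := fun i => by
    by_cases hi : i < nv - c0
    · have := nl i hi
      obtain ⟨a, b, c, r⟩ := cyc_form (q := q) (p1 i hi) (by omega) (by rw [nx i hi]; omega)
        (by rw [nx i hi]; omega) x
      exact ⟨a, b, c, fun _ => r⟩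
    · exact ⟨0, 0, 0, fun r => absurd r hi⟩
  choose f hf using F
  choose a b c ha using A
  obtain ⟨y, y1, y2⟩ := cyc_pay (nv - c0) (by omega) f a b c (fun i hi => (ha i hi).1)
    (fun i hi => (ha i hi).2.1) (by
      rw [Finset.prod_congr rfl (fun i hi => (ha i (Finset.mem_range.1 hi)).2.2.1), ← p3]; simp)
  refine ⟨fun u => if u < c0 then x u else y (u - c0), fun v hv => ?_⟩
  have ag : ∀ u < c0, (fun u => if u < c0 then x u else y (u - c0)) u = x u := fun u hu => by
    simp [hu]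
  by_cases e : v < c0
  · exact hx _ ag v e
  · obtain ⟨i, rfl⟩ : ∃ i, v = c0 + i := ⟨v - c0, by omega⟩
    have hi : i < nv - c0 := by omega
    refine ⟨hf i hi _ ag (by simpa using y1 i hi), (ha i hi).2.2.2 _ ag ?_⟩
    rw [nx i hi]
    simpa using y2 i hi

end Pool.Agent.Hom2
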