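import Pool.Agent.Lib.MP_7e4769_co.Hc.R1
import Pool.Agent.Lib.MP_7e4769_co.Hc.Pay

set_option autoImplicit false

namespace Pool.Agent.Hom2

variable {V : Type} {G : SimpleGraph V} {X : Finset V} {h p : V} {db : DB}
  {N1 nf f kd n R B S K P T c0 nv : ℕ} {rec : Rec} {w : Ws} {ph : ℕ → V} {nu : ℕ → ℕ → V}

def toF (t : ZMod 3) : Fin 4 := ⟨t.val, lt_trans (ZMod.val_lt t) (by decide)⟩
def toZ (c : Fin 4) : ZMod 3 := (c.val : ZMod 3)

theorem toZ_toF : ∀ t, toZ (toF t) = t := by decide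
theorem toF_ne : ∀ t, toF t ≠ 3 := by decide
theorem ok_row : ∀ x y z : Fin 4, x ≠ 3 → y ≠ 3 → z ≠ 3 → toZ x + toZ y + toZ z ≠ 0 →
    ok4 3 x y z := by decide
theorem ok_t0 : ∀ a b c d : ZMod 3, a ≠ b → a ≠ c → a ≠ d → b + c + d ≠ 0 →
    ok4 (toF a) (toF b) (toF c) (toF d) := by decide
theorem ok_t1 : ∀ a b : ZMod 3, a ≠ b → ok4 (toF a) (toF b) (toF b) 3 := by decide
theorem ok_t2 : ∀ a b : ZMod 3, a ≠ b → ok4 (toF a) (toF b) 3 3 := by decide
theorem late_val : ∀ b c d : ZMod 3, ∃ a, b + c + d ≠ 0 → a ≠ b ∧ a ≠ c ∧ a ≠ d := by decide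

theorem hasE_ne {q : ℕ → ℕ → ZMod 3} {x : ℕ → ZMod 3} (hn : nv < 63)
    (hx : ∀ v < nv, Sat R K P q x v (tA T v) ∧ Sat R K P q x v (tB T v)) {a b : ℕ}
    (e : hasE T nv a b = true) : b < 63 ∧ x a ≠ x b := by
  simp only [hasE, Bool.and_eq_true, Bool.or_eq_true, lt_iff, Nat.beq_eq] at e
  obtain ⟨⟨ha, hb⟩, e⟩ := e
  refine ⟨by omega, ?_⟩
  rcases e with ((e | e) | e) | e
  · simpa [e] using (hx a ha).1.1 (by omega) (by omega)
  · simpa [e] using (hx a ha).2.1 (by omega) (by omega)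
  · exact Ne.symm (by simpa [e] using (hx b hb).1.1 (by omega) (by omega))
  · exact Ne.symm (by simpa [e] using (hx b hb).2.1 (by omega) (by omega))

theorem hasR_ne {q : ℕ → ℕ → ZMod 3} {x : ℕ → ZMod 3}
    (hx : ∀ v < nv, Sat R K P q x v (tA T v) ∧ Sat R K P q x v (tB T v)) {s : ℕ}
    (e : hasR R K P T nv s = true) : rsum R K P q x s ≠ 0 := by
  simp only [hasR, any3_iff, fzb_eq, Bool.and_eq_true, Bool.or_eq_true, lt_iff, Nat.beq_eq,
    Nat.add_eq] at e
  obtain ⟨k, -, hv, e | e⟩ := e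
  · simpa [e] using (hx _ hv).1.2 (by omega)
  · simpa [e] using (hx _ hv).2.2 (by omega)

/-- semantic content of `moveOK` -/
structure MShape (n R S K : ℕ) : Prop where
  rS : ∀ i, tb S i = true → i < n
  rK : ∀ i, tb K i = true → i < n
  dis : ∀ i, tb S i = true → tb K i = true → False
  ne : ∃ i, tb (Nat.lor S K) i = true
  sK : ∀ i, tb K i = true → ∀ k < 3, sl R i k = 1 ∨ inM K (sl R i k) = true ∨
    ∃ y, sl R i k = y + 2 ∧ tb S y = true ∧ lists R y i = true
  sS : ∀ i, tb S i = true → ∀ k < 3, sl R i k ≠ 1 ∧ inM S (sl R i k) = false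

theorem moveOK_shape (m : moveOK n R S K = true) : MShape n R S K := by
  simp only [moveOK, Bool.and_eq_true, Nat.beq_eq, ne_iff, allLt_iff] at m
  obtain ⟨⟨⟨⟨m1, m2⟩, m3⟩, m4⟩, m5⟩ := m
  refine ⟨fun i => tb_lt_of_shr m1, fun i => tb_lt_of_shr m2, fun i => tb_land m3, exists_tb m4,
    fun i hi k hk => ?_, fun i hi k hk => ?_⟩
  · have := m5 i (tb_lt_of_shr m2 hi)
    rw [hi, cond_true, all3_iff] at this
    have := this k hk
    simp only [fzb_eq, Bool.or_eq_true, Bool.and_eq_true, Nat.beq_eq] at this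
    rcases this with (r | r) | ⟨r, r'⟩
    · exact Or.inl r
    · exact Or.inr (Or.inl r)
    · obtain ⟨y, e, t⟩ := (inM_iff _ _).1 r
      rw [e] at r'
      exact Or.inr (Or.inr ⟨y, e, t, r'⟩)
  · have := m5 i (tb_lt_of_shr m1 hi)
    have nk : tb K i = false := by
      rw [← Bool.not_eq_true]; exact tb_land m3 hi
    rw [nk, hi, cond_false, cond_true, all3_iff] at this
    simpa using this k hk

/-- the payment certificate colours `K` -/
theorem pay_sound (E : Emb G X n (sl R) ph nu) (m : MShape n R S K)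
    (hp : payChk n R S K c0 nv P T = true) (c : V → Fin 4)
    (c3 : ∀ v, v ∉ X ∨ (∃ i, tb S i = true ∧ v = ph i) → c v = 3)
    (cf : ∀ s, tb S s = true → ∀ k < 3, inM K (sl R s k) = false →
      c (nu s k) ≠ 3 ∧ ∀ i, tb K i = true → nu s k ≠ ph i) :
    ∃ c' : V → Fin 4, (∀ v, (∀ i, tb K i = true → v ≠ ph i) → c' v = c v) ∧
      ∀ i, tb (Nat.lor S K) i = true → OK G c' (ph i) := by
  classical
  obtain ⟨x, hx⟩ := pay_exists hp (fun s k => toZ (c (nu s k)))
  simp only [payChk, Bool.and_eq_true, Nat.ble_eq, lt_iff, ne_iff, allLt_iff, Nat.beq_eq] at hp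
  obtain ⟨⟨⟨⟨⟨-, h2⟩, -⟩, -⟩, -⟩, h6⟩ := hp
  choose lv hlv using late_val
  let xc : ℕ → ZMod 3 := fun c => x (vc K P c)
  let xv : ℕ → ZMod 3 := fun i => if vr P i = 63 then
    lv (xc (sl R i 0)) (xc (sl R i 1)) (xc (sl R i 2)) else x (vr P i)
  let c' : V → Fin 4 := fun v => if e : ∃ i, tb K i = true ∧ v = ph i then toF (xv e.choose) else c v
  have c1 : ∀ i, tb K i = true → c' (ph i) = toF (xv i) := fun i hi => by
    have e : ∃ j, tb K j = true ∧ ph i = ph j := ⟨i, hi, rfl⟩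
    simp only [c', dif_pos e, ← E.inj _ (m.rK i hi) _ (m.rK _ e.choose_spec.1) e.choose_spec.2]
  have c2 : ∀ v, (∀ i, tb K i = true → v ≠ ph i) → c' v = c v := fun v hv => by
    have e : ¬ ∃ j, tb K j = true ∧ v = ph j := fun ⟨j, hj, r⟩ => hv j hj r
    simp only [c', dif_neg e]
  have cS : ∀ s, tb S s = true → c' (ph s) = 3 := fun s hs => by
    rw [c2 _ (fun i hi e => m.dis s hs (E.inj _ (m.rS s hs) _ (m.rK i hi) e ▸ hi))]
    exact c3 _ (Or.inr ⟨s, hs, rfl⟩)
  have inK : ∀ i < n, ∀ k < 3, inM K (sl R i k) = true →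
      ∃ y, tb K y = true ∧ G.Adj (ph i) (ph y) ∧ sl R i k = y + 2 ∧ vc K P (sl R i k) = vr P y ∧
        c' (nu i k) = toF (xv y) := by
    intro i hi k hk e
    obtain ⟨y, e1, e2⟩ := (inM_iff _ _).1 e
    refine ⟨y, e2, (E.adj_of_code hi hk e1).2, e1, ?_, ?_⟩
    · unfold vc; rw [e, e1]; rfl
    · rw [(E.edge i hi k hk y e1).2, c1 y e2]
  have inN : ∀ i < n, ∀ k < 3, inM K (sl R i k) = true → vc K P (sl R i k) ≠ 63 →
      c' (nu i k) = toF (xc (sl R i k)) := by
    intro i hi k hk e r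
    obtain ⟨y, -, -, -, e2, e3⟩ := inK i hi k hk e
    rw [e3]; simp only [xv, xc, e2, if_neg (e2 ▸ r)]
  have outK : ∀ i, tb K i = true → ∀ k < 3, inM K (sl R i k) = false → c' (nu i k) = 3 := by
    intro i hi k hk e
    rcases m.sK i hi k hk with r | r | ⟨y, r, t, -⟩
    · have := E.stub i (m.rK i hi) k hk r
      rw [c2 _ (fun j hj e => this (by rw [e]; exact E.mem j (m.rK j hj)))]
      exact c3 _ (Or.inl this)
    · rw [e] at r; simp at r
    · rw [(E.edge i (m.rK i hi) k hk y r).2]; exact cS y t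
  have nl : ∀ s, noLate R K P s = true → ∀ k < 3, inM K (sl R s k) = true → vc K P (sl R s k) ≠ 63 :=
    fun s e k hk r => by
      have := (all3_iff _).1 e k hk
      simpa [r] using this
  have rv : ∀ s, ∀ k, vc K P (sl R s k) ≠ 63 →
      rval R K P (fun s k => toZ (c (nu s k))) x s k = xc (sl R s k) := fun s k r => if_neg r
  -- late vertices
  have late : ∀ i, tb K i = true → vr P i = 63 → ∀ k < 3, inM K (sl R i k) = true ∧
      vc K P (sl R i k) ≠ 63 ∧ xv i ≠ xc (sl R i k) ∧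
      xc (sl R i 0) + xc (sl R i 1) + xc (sl R i 2) ≠ 0 := by
    intro i hi e
    have := h6 i (m.rK i hi)
    rw [hi, cond_true] at this
    simp only [vK, fzb_eq, e, Nat.beq_refl, cond_true, Bool.and_eq_true] at this
    obtain ⟨⟨⟨⟨a0, a1⟩, a2⟩, a3⟩, a4⟩ := this
    have r := hasR_ne hx a4
    unfold rsum at r
    rw [rv i 0 (nl i a3 0 (by omega) a0), rv i 1 (nl i a3 1 (by omega) a1),
      rv i 2 (nl i a3 2 (by omega) a2)] at r
    obtain ⟨b0, b1, b2⟩ := hlv _ _ _ r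
    intro k hk
    simp only [xv, e, if_true]
    interval_cases k
    · exact ⟨a0, nl i a3 0 hk a0, b0, r⟩
    · exact ⟨a1, nl i a3 1 hk a1, b1, r⟩
    · exact ⟨a2, nl i a3 2 hk a2, b2, r⟩
  have one : ∀ i, tb K i = true → vr P i ≠ 63 → ∀ k < 3, inM K (sl R i k) = true →
      (Nat.beq (vc K P (sl R i k)) 63 || hasE T nv (vr P i) (vc K P (sl R i k))) = true →
      ∃ b, xv i ≠ b ∧ c' (nu i k) = toF b := by
    intro i hi e k hk r g
    have hi' := m.rK i hi
    by_cases l : vc K P (sl R i k) = 63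
    · obtain ⟨y, e1, adj, -, e2, e3⟩ := inK i hi' k hk r
      refine ⟨xv y, ?_, e3⟩
      have hy := m.rK y e1
      obtain ⟨t, ht, e4⟩ := E.slot hy adj.symm
      obtain ⟨a1, -, a3, -⟩ := late y e1 (e2 ▸ l) t ht
      obtain ⟨u, u1, -, u2, u3, -⟩ := inK y hy t ht a1
      have : u = i := E.inj _ (m.rK u u1) _ hi' ((E.edge y hy t ht u u2).2.symm.trans e4)
      subst this
      simp only [xc, u3] at a3
      simp only [xv, if_neg e] at a3 ⊢
      exact a3.symm
    · rw [(beq_false _ _).2 l, Bool.false_or] at g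
      exact ⟨_, by simpa only [xv, if_neg e] using (hasE_ne h2 hx g).2, inN i hi' k hk r l⟩
  have two : ∀ i, tb K i = true → vr P i ≠ 63 → ∀ k < 3, ∀ k' < 3, inM K (sl R i k) = true →
      inM K (sl R i k') = true → (Nat.beq (vc K P (sl R i k)) (vc K P (sl R i k')) &&
        hasE T nv (vr P i) (vc K P (sl R i k))) = true →
      ∃ b, xv i ≠ b ∧ c' (nu i k) = toF b ∧ c' (nu i k') = toF b := by
    intro i hi e k hk k' hk' r r' g
    rw [Bool.and_eq_true, Nat.beq_eq] at g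
    obtain ⟨g1, g2⟩ := hasE_ne h2 hx g.2
    refine ⟨_, by simpa only [xv, if_neg e] using g2, inN i (m.rK i hi) k hk r (by omega), ?_⟩
    rw [inN i (m.rK i hi) k' hk' r' (by omega)]
    simp only [xc, g.1]
  refine ⟨c', c2, fun i hi => ?_⟩
  by_cases hK : tb K i = true
  · have hi' := m.rK i hK
    refine OK.of_nb (E.nb i hi') ?_
    rw [c1 i hK]
    by_cases e : vr P i = 63
    · obtain ⟨a0, b0, d0, r⟩ := late i hK e 0 (by omega)
      obtain ⟨a1, b1, d1, -⟩ := late i hK e 1 (by omega)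
      obtain ⟨a2, b2, d2, -⟩ := late i hK e 2 (by omega)
      rw [inN i hi' 0 (by omega) a0 b0, inN i hi' 1 (by omega) a1 b1, inN i hi' 2 (by omega) a2 b2]
      exact ok_t0 _ _ _ _ d0 d1 d2 r
    · have := h6 i hi'
      rw [hK, cond_true] at this
      simp only [vK, fzb_eq, (beq_false _ _).2 e, cond_false, Bool.and_eq_true (lt _ _)] at this
      have g := this.2
      cases a0 : inM K (sl R i 0) <;> cases a1 : inM K (sl R i 1) <;> cases a2 : inM K (sl R i 2) <;>
        simp only [a0, a1, a2, cond_true, cond_false, Bool.false_and, Bool.true_and] at g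
      · simp at g
      · obtain ⟨b, r1, r2⟩ := one i hK e 2 (by omega) a2 g
        rw [r2, outK i hK 0 (by omega) a0, outK i hK 1 (by omega) a1]
        exact ok4_sw2 (ok4_sw1 (ok_t2 _ _ r1))
      · obtain ⟨b, r1, r2⟩ := one i hK e 1 (by omega) a1 g
        rw [r2, outK i hK 0 (by omega) a0, outK i hK 2 (by omega) a2]
        exact ok4_sw1 (ok_t2 _ _ r1)
      · obtain ⟨b, r1, r2, r3⟩ := two i hK e 1 (by omega) 2 (by omega) a1 a2 g
        rw [r2, r3, outK i hK 0 (by omega) a0]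
        exact ok4_sw1 (ok4_sw2 (ok_t1 _ _ r1))
      · obtain ⟨b, r1, r2⟩ := one i hK e 0 (by omega) a0 g
        rw [r2, outK i hK 1 (by omega) a1, outK i hK 2 (by omega) a2]
        exact ok_t2 _ _ r1
      · obtain ⟨b, r1, r2, r3⟩ := two i hK e 0 (by omega) 2 (by omega) a0 a2 g
        rw [r2, r3, outK i hK 1 (by omega) a1]
        exact ok4_sw2 (ok_t1 _ _ r1)
      · obtain ⟨b, r1, r2, r3⟩ := two i hK e 0 (by omega) 1 (by omega) a0 a1 g
        rw [r2, r3, outK i hK 2 (by omega) a2]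
        exact ok_t1 _ _ r1
      · simp only [Bool.and_eq_true] at g
        obtain ⟨⟨⟨g0, g1⟩, g2⟩, g3⟩ := g
        obtain ⟨b0, d0⟩ := hasE_ne h2 hx g0
        obtain ⟨b1, d1⟩ := hasE_ne h2 hx g1
        obtain ⟨b2, d2⟩ := hasE_ne h2 hx g2
        have r := hasR_ne hx g3
        unfold rsum at r
        rw [rv i 0 (by omega), rv i 1 (by omega), rv i 2 (by omega)] at r
        rw [inN i hi' 0 (by omega) a0 (by omega), inN i hi' 1 (by omega) a1 (by omega),
          inN i hi' 2 (by omega) a2 (by omega)]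
        simp only [xv, if_neg e]
        exact ok_t0 _ _ _ _ d0 d1 d2 r
  · have hS : tb S i = true := by
      rw [tb_lor, Bool.or_eq_true] at hi; exact hi.resolve_right hK
    have hi' := m.rS i hS
    have := h6 i hi'
    rw [Bool.not_eq_true] at hK
    rw [hK, hS, cond_false, cond_true, Bool.and_eq_true] at this
    have key : ∀ k < 3, c' (nu i k) ≠ 3 ∧
        toZ (c' (nu i k)) = rval R K P (fun s k => toZ (c (nu s k))) x i k := by
      intro k hk
      cases a : inM K (sl R i k)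
      · obtain ⟨r1, r2⟩ := cf i hS k hk a
        rw [c2 _ r2]
        exact ⟨r1, by simp [rval, vc, a]⟩
      · rw [inN i hi' k hk a (nl i this.1 k hk a), rv i k (nl i this.1 k hk a)]
        exact ⟨toF_ne _, toZ_toF _⟩
    refine OK.of_nb (E.nb i hi') ?_
    rw [cS i hS]
    refine ok_row _ _ _ (key 0 (by omega)).1 (key 1 (by omega)).1 (key 2 (by omega)).1 ?_
    rw [(key 0 (by omega)).2, (key 1 (by omega)).2, (key 2 (by omega)).2]
    exact hasR_ne hx this.2

end Pool.Agent.Hom2
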