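import Pool.Agent.Lib.MP_7e4769_co.Hc.ScC
import Pool.Agent.Lib.MP_7e4769_co.Hc.Pr

set_option autoImplicit false

namespace Pool.Agent.Hom2.Pk

open Pool.Agent.Hom2.Sc Pool.Agent.Hom2.St

variable {V : Type} {G : SimpleGraph V} {X C W : Finset V} {db : DT} {ρ : V → ℕ}

theorem anti (T : Td) : ∀ {env U U' : List V} {t nd : ℕ}, (∀ v ∈ U, v ∈ U') →
    Sat G X C db ρ T env U' t nd → Sat G X C db ρ T env U t nd := by
  have cs : ∀ {U U' : List V} (y : V), (∀ v ∈ U, v ∈ U') → ∀ v ∈ y :: U, v ∈ y :: U' := fun y h v hv =>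
    List.mem_cons.2 ((List.mem_cons.1 hv).imp_right (h v))
  induction T with
  | done => exact fun _ h => h
  | core g => exact fun _ h => h
  | ask T ih => exact fun s h => ih s h
  | st T ih => exact fun s ⟨a, y, h1, h2, h3, h4, h5, h6, h7⟩ =>
      ⟨a, y, h1, h2, h3, h4, fun r => h5 (s _ r), h6, ih (cs y s) h7⟩
  | nb r T ih => exact fun s ⟨x, y, h1, h2, h3, h4, h5, h6⟩ =>
      ⟨x, y, h1, h2, h3, fun r => h4 (s _ r), h5, ih (cs y s) h6⟩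
  | sa m r T ih => exact fun s ⟨x, h1, h2, h3⟩ => ⟨x, h1, h2, ih s h3⟩
  | ed r r' T ih => exact fun s ⟨x, y, h1, h2, h3, h4⟩ => ⟨x, y, h1, h2, h3, ih s h4⟩
  | stub r T ih => exact fun s ⟨x, y, h1, h2, h3, h4⟩ => ⟨x, y, h1, h2, h3, ih s h4⟩
  | ns q r T ih => exact fun s ⟨x, h1, h2, h3, h4, h5⟩ => ⟨x, h1, h2, h3, h4, ih s h5⟩
  | inc d T ih => exact fun s h => ih s h
  | or T T' ih ih' => exact fun s h => h.imp (ih s) (ih' s)
  | rs T ih => exact fun s h => ih s h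
  | pop T ih => exact fun s h => ih s h

/-- the port `x` is labelled: it carries a mark itself (`k = 1`) or a leaf `h` with two marks (`k = 2`) -/
def Lb (G : SimpleGraph V) (X C W : Finset V) (x h : V) (k : ℕ) : Prop :=
  (k = 1 ∧ h = x ∧ 1 ≤ out G X C x) ∨
    (k = 2 ∧ h ∉ W ∧ h ∈ C ∧ G.Adj x h ∧ 2 ≤ out G X C h ∧ ∀ y ∈ X, G.Adj x y → y ∈ C)

section
variable {x x' h h' y : V} {k k' : ℕ}

theorem Lb.pos (l : Lb G X C W x h k) : 1 ≤ k := by rcases l with l | l <;> omega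

theorem Lb.neW (l : Lb G X C W x h k) (hy : y ∈ W) (ne : y ≠ x) : y ≠ h := by
  rcases l with l | l
  · exact l.2.1 ▸ ne
  · exact fun e => l.2.1 (e ▸ hy)

theorem two_out (hc : Cub G X) (hC : C ⊆ X) (hh : h ∈ C) (o : 2 ≤ out G X C h) (hx : x ∈ C) (hy : y ∈ C)
    (a : G.Adj h x) (b : G.Adj h y) : y = x := by
  by_contra e
  obtain ⟨z, hn⟩ := hc.second (hC hh) a b (Ne.symm e)
  have := out_le (G := G) (X := X) (C := C) (Z := {z}) (x := h) (fun t _ ht e => by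
    rcases hn.cases e with r | r | r
    · exact absurd (r ▸ hx) ht
    · exact absurd (r ▸ hy) ht
    · simp [r])
  simp at this; omega

theorem Lb.ne (hc : Cub G X) (hC : C ⊆ X) (hW : W ⊆ C) (l : Lb G X C W x h k) (l' : Lb G X C W x' h' k')
    (hx : x ∈ W) (hx' : x' ∈ W) (ne : x ≠ x') : h ≠ h' := by
  rcases l with l | l
  · exact l.2.1 ▸ l'.neW hx ne
  rcases l' with l' | l'
  · exact fun e => l.2.1 (e ▸ l'.2.1 ▸ hx')
  · exact fun e => ne (two_out hc hC l.2.2.1 l.2.2.2.2.1 (hW hx') (hW hx) (e ▸ l'.2.2.2.1.symm)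
      l.2.2.2.1.symm)

theorem Lb.alive (l : Lb G X C W x h k) {t : ℕ} (a : Alive G X C ρ h t) : Alive G X C ρ x t := by
  rcases l with l | l
  · exact l.2.1 ▸ a
  · exact fun s hs hs' e => absurd (l.2.2.2.2.2 s hs e) hs'

theorem out_ex (o : 1 ≤ out G X C x) : ∃ s ∈ X, s ∉ C ∧ G.Adj x s := by
  unfold out at o
  obtain ⟨s, hs⟩ := Finset.card_pos.1 o
  exact ⟨s, by simpa using hs⟩

theorem Lb.ex (l : Lb G X C W x h k) : ∃ s ∈ X, s ∉ C ∧ G.Adj h s := by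
  rcases l with l | l
  · exact l.2.1 ▸ out_ex l.2.2
  · exact out_ex (by omega)

theorem al0 (y : V) : Alive G X C ρ y 0 := fun _ _ _ _ => Nat.zero_le _

theorem sat_lab {r t nd : ℕ} {T : Td} {env U : List V} (e : env[r]? = some x) (l : Lb G X C W x h k)
    (al : Alive G X C ρ h t) (fr : h ∉ W → h ∉ U) (s : Sat G X C db ρ T env (h :: U) t (nd + k - 1)) :
    Sat G X C db ρ (lab r T) env U t nd := by
  rcases l with ⟨rfl, -, l⟩ | ⟨rfl, l1, l2, l3, l4, l5⟩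
  · exact Or.inl ⟨x, e, l, anti T (fun _ hv => List.mem_cons_of_mem _ hv) s⟩
  · exact Or.inr ⟨x, e, Nat.zero_le 1, l5, fun r => absurd r (by omega), x, h, e, l3, l2, fr l1, al, h, rfl,
      l4, s⟩

theorem sat_lab0 {r t nd : ℕ} {T : Td} {env U : List V} (e : env[r]? = some x) (l : Lb G X C W x h k)
    (al : Alive G X C ρ h t) (fr : h ∉ W → h ∉ U) (s : Sat G X C db ρ T env (h :: U) t nd) :
    Sat G X C db ρ (lab0 r T) env U t nd := by
  rcases l with ⟨rfl, -, l⟩ | ⟨rfl, l1, l2, l3, l4, l5⟩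
  · exact Or.inl ⟨x, e, l, anti T (fun _ hv => List.mem_cons_of_mem _ hv) s⟩
  · exact Or.inr ⟨x, e, Nat.zero_le 1, l5, fun r => absurd r (by omega), x, h, e, l3, l2, fr l1, al, h, rfl,
      l4, s⟩

end

/-- the rest of the program after the labelled pair `a b` -/
def Mid (G : SimpleGraph V) (X C : Finset V) (db : DT) (ρ : V → ℕ) (a b ha hb : V) (n : ℕ) : Prop :=
  ∀ env, Sat G X C db ρ (.nb 1 (.ask (.or tri rest))) (b :: a :: env) [hb, b, a, ha] 0 (n + 1)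

variable {a b a' b' ha hb ha' hb' : V} {ka kb ka' kb' : ℕ}

theorem root_side (hc : Cub G X) (hC : C ⊆ X) (hW : W ⊆ C) (ma : a ∈ W) (mb : b ∈ W) (e : G.Adj a b)
    (la : Lb G X C W a ha ka) (lb : Lb G X C W b hb kb) {s : V} (s1 : s ∈ X) (s2 : s ∉ C) (s3 : G.Adj ha s)
    (aa : Alive G X C ρ ha (ρ s)) (ab : Alive G X C ρ hb (ρ s)) (m : Mid G X C db ρ a b ha hb (ka + kb)) :
    Sat G X C db ρ root [] [] 0 3 := by
  have n1 := la.neW mb e.ne'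
  have n2 := la.ne hc hC hW lb ma mb e.ne
  have pr : ∀ env, Sat G X C db ρ pair (a :: env) [a, ha] (ρ s) (ka + 2) := fun env =>
    ⟨a, b, rfl, e, hW mb, by simp [n1, e.ne'], lb.alive ab, sat_lab (r := 0) rfl lb ab (fun r => by
      simp only [List.mem_cons, List.not_mem_nil, or_false, not_or]
      exact ⟨fun t => r (t ▸ mb), fun t => r (t ▸ ma), n2.symm⟩) (by
      have := lb.pos
      rw [show ka + 2 + kb - 1 = ka + kb + 1 by omega]; exact m env)⟩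
  rcases id la with ⟨rfl, rfl, -⟩ | ⟨rfl, l1, l2, l3, l4, -⟩
  · exact ⟨s, ha, s1, s2, hW ma, s3.symm, by simp, aa, Or.inr (Or.inl (anti _ (by simp) (pr [])))⟩
  · exact ⟨s, ha, s1, s2, l2, s3.symm, by simp, aa, Or.inr (Or.inr ⟨ha, rfl, l4, ha, a, rfl, l3.symm, hW ma,
      by simpa using l3.ne, la.alive aa, pr [ha]⟩)⟩

theorem min_side (ρ : V → ℕ) (la : Lb G X C W a ha ka) (hb : V) : ∃ s ∈ X, s ∉ C ∧ (G.Adj ha s ∨ G.Adj hb s) ∧
    Alive G X C ρ ha (ρ s) ∧ Alive G X C ρ hb (ρ s) := by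
  classical
  obtain ⟨s0, p1, p2, p3⟩ := la.ex
  obtain ⟨s, hs, mn⟩ := Finset.exists_min_image (X.filter fun s => s ∉ C ∧ (G.Adj ha s ∨ G.Adj hb s)) ρ
    ⟨s0, by simp [*]⟩
  simp only [Finset.mem_filter] at hs mn
  exact ⟨s, hs.1, hs.2.1, hs.2.2, fun t h1 h2 h3 => mn t ⟨h1, h2, Or.inl h3⟩,
    fun t h1 h2 h3 => mn t ⟨h1, h2, Or.inr h3⟩⟩

theorem root_mid (hc : Cub G X) (hC : C ⊆ X) (hW : W ⊆ C) (ma : a ∈ W) (mb : b ∈ W) (e : G.Adj a b)
    (la : Lb G X C W a ha ka) (lb : Lb G X C W b hb kb) (m : Mid G X C db ρ a b ha hb (ka + kb))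
    (m' : Mid G X C db ρ b a hb ha (kb + ka)) : Sat G X C db ρ root [] [] 0 3 := by
  obtain ⟨s, s1, s2, r | r, aa, ab⟩ := min_side ρ la hb
  · exact root_side hc hC hW ma mb e la lb s1 s2 r aa ab m
  · exact root_side hc hC hW mb ma e.symm lb la s1 s2 r ab aa m'

/-- the rest of the second part of the program after the labelled pair `a b` -/
def Mid2 (G : SimpleGraph V) (X C : Finset V) (db : DT) (ρ : V → ℕ) (a b ha hb : V) (U : List V) (n : ℕ) :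
    Prop :=
  ∀ env, Sat G X C db ρ (.nb 1 (.ask (.or (.ed 0 1 .done) (.nb 1 (.ask (.or (lab0 1 (.ask (lab0 0 .done)))
    (.ed 0 1 .done))))))) (b :: a :: env) (hb :: b :: a :: ha :: U) 0 n

/-- the block and the labels of its ports are unused -/
def Fresh (G : SimpleGraph V) (X C W : Finset V) (U : List V) : Prop :=
  ∀ x ∈ W, x ∉ U ∧ ∀ h k, Lb G X C W x h k → h ∉ U

variable {D : Finset V} {U env : List V} {n t : ℕ}

theorem sec_side (hc : Cub G X) (hC : C ⊆ X) (hW : W ⊆ C) (fr : Fresh G X C W U) (ma : a ∈ W) (mb : b ∈ W)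
    (e : G.Adj a b) (la : Lb G X C W a ha ka) (lb : Lb G X C W b hb kb) {s : V} (s1 : s ∈ X) (s2 : s ∉ C)
    (s3 : G.Adj ha s) (aa : Alive G X C ρ ha (ρ s)) (ab : Alive G X C ρ hb (ρ s))
    (m : Mid2 G X C db ρ a b ha hb U n) : Sat G X C db ρ sec env U t n := by
  have n1 := la.neW mb e.ne'
  have n2 := la.ne hc hC hW lb ma mb e.ne
  have f1 := (fr a ma).2 _ _ la
  have pr : ∀ env, Sat G X C db ρ pair2 (a :: env) (a :: ha :: U) (ρ s) n := fun env =>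
    ⟨a, b, rfl, e, hW mb, by simp [n1, e.ne', (fr b mb).1], lb.alive ab, sat_lab0 (r := 0) rfl lb ab (fun r => by
      simp only [List.mem_cons, not_or]
      exact ⟨fun t => r (t ▸ mb), fun t => r (t ▸ ma), n2.symm, (fr b mb).2 _ _ lb⟩) (m env)⟩
  rcases id la with ⟨rfl, rfl, -⟩ | ⟨rfl, l1, l2, l3, l4, -⟩
  · exact ⟨s, ha, s1, s2, hW ma, s3.symm, f1, aa, Or.inl (anti _ (by simp +contextual) (pr []))⟩
  · exact ⟨s, ha, s1, s2, l2, s3.symm, f1, aa, Or.inr ⟨ha, rfl, l4, ha, a, rfl, l3.symm, hW ma,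
      by simp [l3.ne, (fr a ma).1], la.alive aa, pr [ha]⟩⟩

theorem sec_mid (hc : Cub G X) (hC : C ⊆ X) (hW : W ⊆ C) (fr : Fresh G X C W U) (ma : a ∈ W) (mb : b ∈ W)
    (e : G.Adj a b) (la : Lb G X C W a ha ka) (lb : Lb G X C W b hb kb) (m : Mid2 G X C db ρ a b ha hb U n)
    (m' : Mid2 G X C db ρ b a hb ha U n) : Sat G X C db ρ sec env U t n := by
  obtain ⟨s, s1, s2, r | r, aa, ab⟩ := min_side ρ la hb
  · exact sec_side hc hC hW fr ma mb e la lb s1 s2 r aa ab m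
  · exact sec_side hc hC hW fr mb ma e.symm lb la s1 s2 r ab aa m'

/-- what follows a path of four labelled ports with total label `n` -/
def Tail (G : SimpleGraph V) (X C W D : Finset V) (a' a b b' : V) (n : ℕ) : Prop :=
  n + 3 ≤ ecut G X C ∨
  (∃ u ∈ W, ∃ v ∈ W, u ∉ [a', a, b, b'] ∧ v ∉ [a', a, b, b'] ∧ G.Adj a' u ∧ G.Adj b' v ∧ G.Adj v u ∧
    n + 2 ≤ ecut G X C) ∨
  ∃ c ∈ W, c ∉ [a', a, b, b'] ∧ G.Adj a' c ∧ G.Adj b' c ∧
    ((∃ h k, Lb G X C W c h k ∧ n + k ≤ ecut G X C) ∨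
      ((∀ y ∈ X, G.Adj c y → y ∈ C) ∧ n + 2 ≤ ecut G X C ∧ (∀ v ∈ D, v ∈ C ∧ v ∉ W) ∧ ∃ w ∈ D, ∃ p ∈ D,
        ∃ q ∈ D, G.Adj c w ∧ G.Adj w p ∧ G.Adj w q ∧ G.Adj p q ∧ 1 ≤ out G X C p ∧ 1 ≤ out G X C q))

theorem Tail.symm (h : Tail G X C W D a' a b b' n) : Tail G X C W D b' b a a' n := by
  have r : ∀ {u : V}, u ∉ [a', a, b, b'] → u ∉ [b', b, a, a'] := fun p q => p (List.mem_reverse.1 q)
  rcases h with h | ⟨u, mu, v, mv, h1, h2, h3, h4, h5, h6⟩ | ⟨c, mc, h1, h2, h3, h4⟩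
  · exact Or.inl h
  · exact Or.inr (Or.inl ⟨v, mv, u, mu, r h2, r h1, h4, h3, h5.symm, h6⟩)
  · exact Or.inr (Or.inr ⟨c, mc, r h1, h3, h2, h4⟩)

/-- a path `a' a b b'` with labelled middle, closed to a square or labelled at the ends -/
structure Quad (G : SimpleGraph V) (X C W D : Finset V) (a' a b b' ha hb : V) (ka kb : ℕ) : Prop where
  ma : a ∈ W
  mb : b ∈ W
  ma' : a' ∈ W
  mb' : b' ∈ W
  nd : [a', a, b, b'].Nodup
  ab : G.Adj a b
  e1 : G.Adj a a'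
  e2 : G.Adj b b'
  la : Lb G X C W a ha ka ∧ ha ∉ D
  lb : Lb G X C W b hb kb ∧ hb ∉ D
  fin : (G.Adj b' a' ∧ ka + kb + 5 ≤ ecut G X C) ∨ ∃ ha' hb' ka' kb', (Lb G X C W a' ha' ka' ∧ ha' ∉ D) ∧
    (Lb G X C W b' hb' kb' ∧ hb' ∉ D) ∧ Tail G X C W D a' a b b' (ka + kb + ka' + kb')

theorem Quad.symm (Q : Quad G X C W D a' a b b' ha hb ka kb) : Quad G X C W D b' b a a' hb ha kb ka :=
  ⟨Q.mb, Q.ma, Q.mb', Q.ma', List.nodup_reverse.2 Q.nd, Q.ab.symm, Q.e2, Q.e1, Q.lb, Q.la,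
    Q.fin.imp (fun h => ⟨h.1.symm, by omega⟩) fun ⟨_, _, ka', kb', p, q, r⟩ =>
      ⟨_, _, _, _, q, p, (show ka + kb + ka' + kb' = kb + ka + kb' + ka' by omega) ▸ r.symm⟩⟩

theorem Quad.mid (hc : Cub G X) (hC : C ⊆ X) (hW : W ⊆ C) (Q : Quad G X C W D a' a b b' ha hb ka kb) :
    Mid G X C db ρ a b ha hb (ka + kb) ∧
      ∀ U n, Fresh G X C W U → n ≤ ecut G X C → Mid2 G X C db ρ a b ha hb U n := by
  obtain ⟨ma, mb, ma', mb', nd, -, e1, e2, ⟨la, da⟩, ⟨lb, db'⟩, h⟩ := Q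
  simp only [List.nodup_cons, List.mem_cons, List.not_mem_nil, or_false, not_or] at nd
  obtain ⟨⟨d1, d2, d3⟩, ⟨d4, d5⟩, d6, -⟩ := nd
  have := la.neW ma' d1; have := lb.neW ma' d2
  have := la.neW mb' (Ne.symm d5); have := lb.neW mb' (Ne.symm d6)
  have := Ne.symm d3; have := Ne.symm d5; have := Ne.symm d6
  rcases h with ⟨e3, h⟩ | ⟨ha', hb', ka', kb', ⟨la', da'⟩, ⟨lb', db''⟩, h⟩
  · exact ⟨fun env => ⟨a, a', rfl, e1, hW ma', by simp [*], al0 _, Or.inr ⟨b, b', rfl, e2, hW mb',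
      by simp [*], al0 _, Or.inr ⟨b', a', rfl, rfl, e3, h⟩⟩⟩, fun U n fr h env => ⟨a, a', rfl, e1, hW ma',
      by simp [*, (fr a' ma').1], al0 _, Or.inr ⟨b, b', rfl, e2, hW mb', by simp [*, (fr b' mb').1], al0 _,
        Or.inr ⟨b', a', rfl, rfl, e3, h⟩⟩⟩⟩
  have := la'.ne hc hC hW la ma' ma d1; have := la'.ne hc hC hW lb ma' mb d2
  have := lb'.ne hc hC hW la mb' ma (Ne.symm d5); have := lb'.ne hc hC hW lb mb' mb (Ne.symm d6)
  have := lb'.ne hc hC hW la' mb' ma' (Ne.symm d3)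
  have nw : ∀ {u v : V}, u ∉ W → v ∈ W → u ≠ v := fun p q e => p (e ▸ q)
  have := la'.pos; have := lb'.pos
  refine ⟨fun env => ⟨a, a', rfl, e1, hW ma', by simp [*], al0 _, Or.inr ⟨b, b', rfl, e2, hW mb',
    by simp [*], al0 _, Or.inl (sat_lab (r := 1) rfl la' (al0 _)
      (fun r => by simp [*, nw r ma, nw r mb, nw r ma', nw r mb']) (sat_lab (r := 0) rfl lb' (al0 _)
      (fun r => by simp [*, nw r ma, nw r mb, nw r ma', nw r mb']) ?_))⟩⟩,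
    fun U n fr h env => ⟨a, a', rfl, e1, hW ma', by simp [*, (fr a' ma').1], al0 _, Or.inr ⟨b, b', rfl, e2,
      hW mb', by simp [*, (fr b' mb').1], al0 _, Or.inl (sat_lab0 (r := 1) rfl la' (al0 _)
      (fun r => by simp [*, nw r ma, nw r mb, nw r ma', nw r mb', (fr a' ma').2 _ _ la'])
      (sat_lab0 (r := 0) rfl lb' (al0 _)
      (fun r => by simp [*, nw r ma, nw r mb, nw r ma', nw r mb', (fr b' mb').2 _ _ lb']) h))⟩⟩⟩
  have fw : ∀ c ∈ W, c ∉ [a', a, b, b'] → c ∉ [hb', ha', b', a', hb, b, a, ha] := fun c mc h => by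
    simp only [List.mem_cons, List.not_mem_nil, or_false, not_or] at h
    simp [h, la.neW mc h.2.1, lb.neW mc h.2.2.1, la'.neW mc h.1, lb'.neW mc h.2.2.2]
  rcases h with h | ⟨u, mu, v, mv, h1, h2, h3, h4, h5, h⟩ | ⟨c, mc, c0, c5, c6, h⟩
  · exact Or.inr (Or.inr (show _ ≤ _ by omega))
  · exact Or.inr (Or.inl ⟨a', u, rfl, h3, hW mu, fw u mu h1, al0 _, b', v, rfl, h4, hW mv,
      List.not_mem_cons_of_ne_of_not_mem h5.ne (fw v mv h2), al0 _, v, u, rfl, rfl, h5, show _ ≤ _ by omega⟩)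
  refine Or.inl ⟨a', c, rfl, c5, hW mc, fw c mc c0, al0 _, c, b', rfl, rfl, c6.symm, ?_⟩
  rcases h with ⟨hh, kc, lc, h⟩ | ⟨inn, h, hD, w, mw, p, mp, q, mq, w1, w2, w3, w4, o1, o2⟩
  · simp only [List.mem_cons, List.not_mem_nil, or_false, not_or] at c0
    obtain ⟨c1, c2, c3, c4⟩ := c0
    have := lc.ne hc hC hW la mc ma c2; have := lc.ne hc hC hW lb mc mb c3
    have := lc.ne hc hC hW la' mc ma' c1; have := lc.ne hc hC hW lb' mc mb' c4
    have := lc.pos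
    exact Or.imp_right Or.inl (sat_lab (r := 0) (T := .done) rfl lc (al0 _) (fun r => by
      simp [*, nw r ma, nw r mb, nw r ma', nw r mb', nw r mc]) (show _ ≤ _ by omega))
  · have fd : ∀ v ∈ D, v ∉ [c, hb', ha', b', a', hb, b, a, ha] := fun v hv => by
      have nd : ∀ {u : V}, u ∉ D → v ≠ u := fun p e => p (e ▸ hv)
      have r := (hD v hv).2
      simp [nw r ma, nw r mb, nw r ma', nw r mb', nw r mc, nd da, nd db', nd da', nd db'']
    exact Or.inr (Or.inr ⟨c, rfl, Nat.zero_le 1, inn, fun r => absurd r (by omega),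
      c, w, rfl, w1, (hD w mw).1, fd w mw, al0 _,
      w, p, rfl, w2, (hD p mp).1, List.not_mem_cons_of_ne_of_not_mem w2.ne' (fd p mp), al0 _,
      w, q, rfl, w3, (hD q mq).1, List.not_mem_cons_of_ne_of_not_mem w4.ne'
        (List.not_mem_cons_of_ne_of_not_mem w3.ne' (fd q mq)), al0 _,
      q, p, rfl, rfl, w4.symm, q, rfl, o2, p, rfl, o1, show _ ≤ _ by omega⟩)

theorem mid2_tri (hW : W ⊆ C) (fr : Fresh G X C W U) {x : V} (mx : x ∈ W) (e1 : G.Adj a x) (e2 : G.Adj b x)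
    (la : Lb G X C W a ha ka) (lb : Lb G X C W b hb kb) (h : n ≤ ecut G X C) :
    Mid2 G X C db ρ a b ha hb U n := by
  have := la.neW mx e1.ne'; have := lb.neW mx e2.ne'
  exact fun env => ⟨a, x, rfl, e1, hW mx, by simp [*, e1.ne', e2.ne', (fr x mx).1], al0 _, Or.inl
    ⟨x, b, rfl, rfl, e2.symm, h⟩⟩

theorem mid_tri (hW : W ⊆ C) {x : V} (mx : x ∈ W) (e1 : G.Adj a x) (e2 : G.Adj b x)
    (la : Lb G X C W a ha ka) (lb : Lb G X C W b hb kb)
    (h : ∀ env U, (∀ v ∈ U, v ∈ [x, a, b, ha, hb]) → Sat G X C db ρ third (x :: env) U 0 (n + 1)) :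
    Mid G X C db ρ a b ha hb n := by
  have := la.neW mx e1.ne'; have := lb.neW mx e2.ne'
  exact fun env => ⟨a, x, rfl, e1, hW mx, by simp [*, e1.ne', e2.ne'], al0 _, Or.inl
    ⟨x, b, rfl, rfl, e2.symm, h _ _ (by simp)⟩⟩

end Pool.Agent.Hom2.Pk
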