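import Pool.Agent.Lib.MP_7e4769_co.Hc.PkA

set_option autoImplicit false

namespace Pool.Agent.Hom2.Pk

open Pool.Agent.Hom2.Sc

variable {V : Type} {G : SimpleGraph V} {X C W D H : Finset V} {f g : V}

/-- the free edge `f g` leads from the block `W` to the part `D` -/
structure Fr (G : SimpleGraph V) (X C W D : Finset V) (f g : V) (wt : V → ℕ) : Prop where
  mf : f ∈ W
  mg : g ∈ D
  adj : G.Adj f g
  sub : D ⊆ C
  dis : ∀ v ∈ D, v ∉ W
  only : Only G C D g f
  two : ∃ u ∈ D, G.Adj g u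
  cut : ecut G X D ≤ wt f + 1
  inn : ∀ y ∈ X, G.Adj f y → y ∈ C

/-- a bad block of `C` with weights of the ports -/
structure Blk (G : SimpleGraph V) (X C W D : Finset V) (f g : V) (wt : V → ℕ) : Prop where
  sub : W ⊆ C
  two : TwoEC G W
  bad : ¬ Good G W
  sum : ∀ L : List V, L.Nodup → (L.map wt).sum ≤ ecut G X C
  port : ∀ x ∈ W, ∀ y, y ∉ W → G.Adj x y →
    (∃ h k, Lb G X C W x h k ∧ k ≤ wt x ∧ h ∉ D) ∨ (x = f ∧ Fr G X C W D f g wt)

open Classical in
theorem out_only (ho : Only G C D g f) {v : V} (hv : v ∈ D) :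
    out G X D v ≤ out G X C v + if g = v then 1 else 0 := by
  have a := out_le (G := G) (X := X) (C := D) (x := v)
    (Z := X.filter (fun y => y ∉ C ∧ G.Adj v y) ∪ if g = v then {f} else ∅) (fun y hy hy' e => by
      by_cases c : y ∈ C
      · obtain ⟨rfl, rfl⟩ := ho v hv y c hy' e
        simp
      · simp [*])
  have b := le_out (G := G) (X := X) (C := C) (x := v) (Z := X.filter (fun y => y ∉ C ∧ G.Adj v y))
    (by simp)
  have c := Finset.card_union_le (X.filter (fun y => y ∉ C ∧ G.Adj v y)) (if g = v then {f} else ∅)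
  split at c <;> simp_all <;> omega

theorem cut_only (ho : Only G C D g f) : ecut G X D ≤ ∑ v ∈ D, out G X C v + 1 := by
  classical
  refine (Finset.sum_le_sum (fun v hv => out_only ho hv)).trans ?_
  rw [Finset.sum_add_distrib, Finset.sum_ite_eq]
  split <;> omega

theorem leaf_out (hc : Cub G X) (hcl : Closed G X) (hC : C ⊆ X) {x y : V} (l : Leaf G C y x) :
    2 ≤ out G X C y := by
  classical
  obtain ⟨p, q, hn⟩ := hc.first (hC l.1) l.2.2.1
  have t : ∀ w, G.Adj y w → x ≠ w → w ∈ X ∧ w ∉ C ∧ G.Adj y w := fun w e ne =>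
    ⟨hcl y (hC l.1) w e, fun r => ne (l.2.2.2 w r e).symm, e⟩
  have := le_out (G := G) (X := X) (C := C) (Z := {p, q}) (x := y) (by
    simp [t p hn.adj2 hn.1, t q hn.adj3 hn.2.1])
  rwa [Finset.card_pair hn.2.2.1] at this

theorem blk_of_wit (hc : Cub G X) (hcl : Closed G X) (hC : C ⊆ X) (w : Wit G C W H f g) :
    ∃ D wt, Blk G X C W D f g wt := by
  classical
  have hW : W ⊆ C := w.sub.trans w.subX
  let own : V → V := fun v => if v ∈ W then v else if h : ∃ x ∈ W, Leaf G C v x then h.choose else f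
  let wt : V → ℕ := fun x => ∑ v ∈ C.filter (fun v => own v = x), out G X C v
  have le1 : ∀ v ∈ C, out G X C v ≤ wt (own v) := fun v hv =>
    Finset.single_le_sum (f := out G X C) (fun _ _ => Nat.zero_le _) (Finset.mem_filter.2 ⟨hv, rfl⟩)
  obtain ⟨D, hD⟩ : ∃ D : Finset V, ∀ v, v ∈ D ↔ v ∈ C ∧ v ∉ W ∧ ¬ ∃ x ∈ W, Leaf G C v x :=
    ⟨C.filter (fun v => v ∉ W ∧ ¬ ∃ x ∈ W, Leaf G C v x), fun v => Finset.mem_filter⟩
  have ho : Only G C D g f := by
    intro v hv u hu hu' e
    rw [hD] at hv hu'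
    by_cases a : u ∈ W
    · exact (w.only u (w.sub a) v hv.1 (fun r => hv.2.2 (w.leaf v r hv.2.1)) e.symm).symm
    · obtain ⟨x, hx, l⟩ : ∃ x ∈ W, Leaf G C u x := by_contra fun r => hu' ⟨hu, a, r⟩
      exact absurd (l.2.2.2 v hv.1 e.symm ▸ hx) hv.2.1
  refine ⟨D, wt, hW, w.two, w.badW, fun L hL => ?_, fun x hx y hy e => ?_⟩
  · rw [← List.sum_toFinset _ hL]
    exact (Finset.sum_fiberwise_eq_sum_filter C L.toFinset own (out G X C)).trans_le
      (sum_le_ecut (Finset.filter_subset _ _))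
  have xD : x ∉ D := fun r => ((hD x).1 r).2.1 hx
  have ox : own x = x := if_pos hx
  by_cases c : y ∈ C
  swap
  · have := le_out (G := G) (X := X) (C := C) (Z := {y}) (x := x) (by simp [c, e, hcl x (hC (hW hx)) y e])
    have := le1 x (hW hx)
    rw [ox] at this
    exact Or.inl ⟨x, 1, Or.inl ⟨rfl, rfl, by simp_all⟩, by simp_all; omega, xD⟩
  have inn : ∀ z ∈ X, G.Adj x z → z ∈ C := fun z _ e' => by
    by_cases r : z ∈ W
    · exact hW r
    · exact one_stub (hc.mono (hW.trans hC)) w.two hx hy r e e' ▸ c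
  by_cases l : ∃ x ∈ W, Leaf G C y x
  · have o : own y = x := by
      simp only [own, if_neg hy, dif_pos l]
      exact (l.choose_spec.2.2.2.2 x (hW hx) e.symm).symm
    have p := leaf_out hc hcl hC l.choose_spec.2
    have := le1 y c
    rw [o] at this
    exact Or.inl ⟨y, 2, Or.inr ⟨rfl, hy, c, e, p, inn⟩, by omega, fun r => ((hD y).1 r).2.2 l⟩
  · have yD := (hD y).2 ⟨c, hy, l⟩
    obtain ⟨rfl, rfl⟩ := ho y yD x (hW hx) xD e.symm
    refine Or.inr ⟨rfl, hx, yD, e, fun v hv => ((hD v).1 hv).1, fun v hv => ((hD v).1 hv).2.1, ho, ?_,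
      (cut_only ho).trans (Nat.add_le_add_right (Finset.sum_le_sum_of_subset (fun v hv => ?_)) 1), inn⟩
    · by_contra r
      refine l ⟨x, hx, c, hW hx, e.symm, fun u hu e' => ?_⟩
      exact (ho y yD u hu (fun t => r ⟨u, t, e'⟩) e').2
    · rw [hD] at hv
      exact Finset.mem_filter.2 ⟨hv.1, by simp only [own, if_neg hv.2.1, dif_neg hv.2.2]⟩

/-- a part with at most three leaving edges and an inner edge is a triangle -/
theorem tri_of_cut (hc : Cub G X) (hcl : Closed G X) (h4 : C3 G X) (hD : D ⊆ X) (hn : D.card + 4 ≤ X.card)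
    (h : ecut G X D ≤ 3) {u : V} (mg : g ∈ D) (mu : u ∈ D) (e : G.Adj g u) :
    ∃ p ∈ D, ∃ q ∈ D, G.Adj g p ∧ G.Adj g q ∧ G.Adj p q ∧ 1 ≤ out G X D p ∧ 1 ≤ out G X D q := by
  classical
  have c3 : D.card ≤ 3 := by
    by_contra r
    have := h4 D hD (by omega) hn; omega
  have key : ∀ v ∈ D, ∀ Z : Finset V, (∀ y ∈ D, G.Adj v y → y ∈ Z) → 3 ≤ out G X D v + Z.card := by
    intro v hv Z hZ
    obtain ⟨x, y, z, hn⟩ := hc v (hD hv)
    have a := le_out (G := G) (X := X) (C := D) (x := v) (Z := {x, y, z} \ Z) (fun t ht => by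
      rw [Finset.mem_sdiff] at ht
      have e : G.Adj v t := (hn.2.2.2 t).2 (by simpa using ht.1)
      exact ⟨hcl v (hD hv) t e, fun r => ht.2 (hZ t r e), e⟩)
    have b := Finset.le_card_sdiff Z {x, y, z}
    rw [Finset.card_eq_three.2 ⟨x, y, z, hn.1, hn.2.1, hn.2.2.1, rfl⟩] at b
    omega
  by_contra r
  by_cases t : ∃ q ∈ D, q ≠ g ∧ q ≠ u
  · obtain ⟨q, mq, q1, q2⟩ := t
    have hs : ({g, u, q} : Finset V) ⊆ D := by simp [Finset.insert_subset_iff, *]
    have c : ({g, u, q} : Finset V).card = 3 :=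
      Finset.card_eq_three.2 ⟨g, u, q, e.ne, q1.symm, q2.symm, rfl⟩
    have eq := Finset.eq_of_subset_of_card_le hs (by omega)
    have mem : ∀ y ∈ D, y = g ∨ y = u ∨ y = q := fun y hy => by simpa [← eq] using hy
    have s := sum_le_ecut (G := G) (X := X) hs
    rw [Finset.sum_insert (by simp [e.ne, q1.symm]), Finset.sum_pair q2.symm] at s
    have p1 := key g mg {u, q} (fun y hy a => by rcases mem y hy with rfl | rfl | rfl <;> simp_all)
    have p2 := key u mu {g, q} (fun y hy a => by rcases mem y hy with rfl | rfl | rfl <;> simp_all)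
    have p3 := key q mq {g, u} (fun y hy a => by rcases mem y hy with rfl | rfl | rfl <;> simp_all)
    have := Finset.card_le_two (a := u) (b := q)
    have := Finset.card_le_two (a := g) (b := q)
    have := Finset.card_le_two (a := g) (b := u)
    by_cases a : G.Adj g q
    · have b : ¬ G.Adj u q := fun b => r ⟨u, mu, q, mq, e, a, b, by omega, by omega⟩
      have p4 := key u mu {g} (fun y hy a => by rcases mem y hy with rfl | rfl | rfl <;> simp_all)
      simp at p4; omega
    · have p4 := key g mg {u} (fun y hy a => by rcases mem y hy with rfl | rfl | rfl <;> simp_all)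
      simp at p4; omega
  · have mem : ∀ y ∈ D, y = g ∨ y = u := fun y hy => by
      by_contra c
      exact t ⟨y, hy, not_or.1 c⟩
    have s := sum_le_ecut (G := G) (X := X) (C := D) (P := {g, u}) (by simp [Finset.insert_subset_iff, *])
    rw [Finset.sum_pair e.ne] at s
    have p1 := key g mg {u} (fun y hy a => by rcases mem y hy with rfl | rfl <;> simp_all)
    have p2 := key u mu {g} (fun y hy a => by rcases mem y hy with rfl | rfl <;> simp_all)
    simp at p1 p2; omega

end Pool.Agent.Hom2.Pk
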