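import Pool.Agent.Lib.MP_7e4769_co.Hc.PkB
import Pool.Agent.Lib.MP_7e4769_co.Hc.TCol

set_option autoImplicit false

namespace Pool.Agent.Hom2.Pk

open Pool.Agent.Hom2.Sc Pool.Agent.Hom2.St

/-- entries of the cores -/
def eT : ℕ := 0x30c51451030c2082046
def eD : ℕ := 0x10450010430c3142046
def eK : ℕ := 0x10400020800061c40c51c4048
def eO : ℕ := 0x82071410460c4147209

/-- shape certificate inside a member of the list -/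
inductive Ce where
  | cut (L : List ℕ)
  | core (e : ℕ) (L : List ℕ)
  | kdo (L E : List ℕ)
  | tri (a b x : ℕ)
  | p4 (a' a b b' : ℕ) (E : List ℕ)
  | th (a' a b b' u v : ℕ) (E : List ℕ)
  | c5 (a' a b b' c : ℕ)
  | c4 (a' a b b' : ℕ) (E : List ℕ)

abbrev Ed (s : ℕ → ℕ → ℕ) (i j : ℕ) : Prop := hasC s i (j + 2) = true
abbrev Ps (s : ℕ → ℕ → ℕ) (L : List ℕ) : Prop := ∀ i ∈ L, hasC s i 1 = true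
abbrev Vs (n : ℕ) (L : List ℕ) : Prop := L.Nodup ∧ ∀ i ∈ L, i < n
abbrev CoreOK (s : ℕ → ℕ → ℕ) (e : ℕ) (L : List ℕ) : Prop :=
  L.length = e % 64 ∧ 4 ≤ e % 64 ∧ ∀ i < e % 64, ∀ t < 2,
    slot e i t < e % 64 ∧ Ed s (L.getD i 0) (L.getD (slot e i t) 0)

def outs (s : ℕ → ℕ → ℕ) (L : List ℕ) : List (ℕ × ℕ) :=
  (L.flatMap fun i => [(i, 0), (i, 1), (i, 2)]).filter fun p => decide (s p.1 p.2 < 2 ∨ s p.1 p.2 - 2 ∉ L)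

def okS (n : ℕ) (s : ℕ → ℕ → ℕ) : Ce → Bool
  | .cut L => decide (Vs n L ∧ 4 ≤ L.length ∧ (∀ i ∈ L, full s i = true) ∧ (outs s L).length ≤ 3)
  | .core e L => decide (Vs n L ∧ CoreOK s e L ∧ (e = eT ∨ e = eD ∨ e = eK))
  | .kdo L E => decide (Vs n L ∧ CoreOK s eO L ∧ Vs n E ∧ Ps s E ∧ 6 ≤ E.length)
  | .tri a b x => decide (Vs n [a, b, x] ∧ Ps s [a, b, x] ∧ Ed s a b ∧ Ed s a x ∧ Ed s b x)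
  | .p4 a' a b b' E => decide (Vs n (a' :: a :: b :: b' :: E) ∧ Ps s (a' :: a :: b :: b' :: E) ∧
      Ed s a b ∧ Ed s a a' ∧ Ed s b b')
  | .th a' a b b' u v E => decide (Vs n (a' :: a :: b :: b' :: E) ∧ Ps s (a' :: a :: b :: b' :: E) ∧
      Ed s a b ∧ Ed s a a' ∧ Ed s b b' ∧ Vs n [u, a', a, b, b'] ∧ Vs n [v, a', a, b, b'] ∧
      Ed s a' u ∧ Ed s b' v ∧ Ed s v u)
  | .c5 a' a b b' c => decide (Vs n [a', a, b, b', c] ∧ Ps s [a', a, b, b', c] ∧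
      Ed s a b ∧ Ed s a a' ∧ Ed s b b' ∧ Vs n [c, a', a, b, b'] ∧ Ed s a' c ∧ Ed s b' c)
  | .c4 a' a b b' E => decide (Vs n (a' :: b' :: a :: b :: E) ∧ Ps s (a :: b :: E) ∧
      Ed s a b ∧ Ed s a a' ∧ Ed s b b' ∧ Ed s b' a')

def wg (f : ℕ) (E : List ℕ) : ℕ := E.length + if f ∈ E then 1 else 0

def okF (f : ℕ) : Ce → Bool
  | .tri a b _ => decide (f ∉ [a, b])
  | .p4 a' a b b' E => decide (f ∉ [a', a, b, b'] ∧ 3 ≤ wg f E)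
  | .th a' a b b' _ _ E => decide (f ∉ [a', a, b, b'] ∧ 2 ≤ wg f E)
  | .c5 a' a b b' _ => decide (f ∉ [a', a, b, b'])
  | .c4 _ a b _ E => decide (f ∉ [a, b] ∧ 5 ≤ wg f E)
  | _ => true

def tbl : List (List Ce) :=
  [[.cut [0, 1, 2, 3]],
   [.cut [0, 1, 2, 3]],
   [.cut [5, 6, 7, 8, 9]],
   [.cut [5, 6, 7, 8, 9]],
   [.cut [3, 4, 5, 6, 7, 8, 9]],
   [.cut [3, 4, 5, 6, 7, 8, 9]],
   [.cut [0, 1, 2, 3, 4, 5, 6, 7, 8, 9, 10, 11, 12, 13]],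
   [.tri 0 1 2, .tri 1 2 0, .tri 2 0 1],
   [.c5 4 0 1 2 3, .c5 1 0 4 3 2, .c5 0 1 2 3 4, .c5 1 2 3 4 0, .c5 2 3 4 0 1],
   [.p4 6 0 1 2 [3, 4, 5], .p4 2 3 4 5 [0, 1, 6], .p4 1 0 6 5 [2, 3, 4]],
   [.p4 8 0 1 2 [3, 4, 5], .p4 3 4 5 6 [0, 1, 2]],
   [.p4 10 0 1 2 [3, 4, 5], .p4 3 4 5 6 [0, 1, 2]],
   [.p4 12 0 1 2 [3, 4, 5], .p4 3 4 5 6 [0, 1, 2]],
   [.p4 14 0 1 2 [3, 4, 5], .p4 3 4 5 6 [0, 1, 2]],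
   [.core eD [0, 1, 2, 3, 4, 5]],
   [.th 4 5 6 7 0 1 [2, 3], .c4 0 2 3 1 [4, 5, 6, 7]],
   [.c4 0 2 3 1 [4, 5, 6, 7, 8], .p4 4 5 6 7 [2, 3, 8]],
   [.c4 0 2 3 1 [4, 5, 6, 7, 8], .p4 4 5 6 7 [2, 3, 8]],
   [.c4 0 2 3 1 [4, 5, 6, 7, 8], .p4 4 5 6 7 [2, 3, 8]],
   [.c4 0 2 3 1 [4, 5, 6, 7, 8], .p4 4 5 6 7 [2, 3, 8]],
   [.c4 0 2 3 1 [4, 5, 6, 7, 8], .p4 4 5 6 7 [2, 3, 8]],
   [.p4 2 3 4 5 [6, 7, 8], .p4 6 7 8 9 [2, 3, 4]],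
   [.p4 2 3 4 5 [6, 7, 8], .p4 6 7 8 9 [2, 3, 4]],
   [.p4 2 3 4 5 [6, 7, 8], .p4 6 7 8 9 [2, 3, 4]],
   [.p4 2 3 4 5 [6, 7, 8], .p4 6 7 8 9 [2, 3, 4]],
   [.p4 2 3 4 5 [6, 7, 8], .p4 6 7 8 9 [2, 3, 4]],
   [.p4 2 3 4 5 [6, 7, 8], .p4 6 7 8 9 [2, 3, 4]],
   [.p4 2 3 4 5 [6, 7, 8], .p4 8 9 10 11 [2, 3, 4]],
   [.p4 2 3 4 5 [6, 7, 8], .p4 8 9 10 11 [2, 3, 4]],
   [.p4 2 3 4 5 [6, 7, 8], .p4 8 9 10 11 [2, 3, 4]],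
   [.p4 2 3 4 5 [6, 7, 8], .p4 8 9 10 11 [2, 3, 4]],
   [.p4 2 3 4 5 [6, 7, 8], .p4 8 9 10 11 [2, 3, 4]],
   [.p4 2 3 4 5 [6, 7, 8], .p4 6 7 8 9 [2, 3, 4]],
   [.p4 2 3 4 5 [6, 7, 8], .p4 6 7 8 9 [2, 3, 4]],
   [.p4 2 3 4 5 [6, 7, 8], .p4 6 7 8 9 [2, 3, 4]],
   [.p4 2 3 4 5 [6, 7, 8], .p4 6 7 8 9 [2, 3, 4]],
   [.p4 2 3 4 5 [6, 7, 8], .p4 6 7 8 9 [2, 3, 4]],
   [.p4 2 3 4 5 [6, 7, 8], .p4 6 7 8 9 [2, 3, 4]],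
   [.p4 2 3 4 5 [6, 7, 8], .p4 6 7 8 9 [2, 3, 4]],
   [.p4 2 3 4 5 [6, 7, 8], .p4 6 7 8 9 [2, 3, 4]],
   [.p4 2 3 4 5 [6, 7, 8], .p4 6 7 8 9 [2, 3, 4]],
   [.p4 2 3 4 5 [6, 7, 8], .p4 6 7 8 9 [2, 3, 4]],
   [.cut [0, 1, 2, 3, 4]],
   [.core eK [0, 1, 2, 3, 4, 5, 6, 7]],
   [.cut [9, 10, 11, 12, 13]],
   [.cut [14, 16, 17, 18, 19]],
   [.core eT [2, 7, 3, 1, 4, 5]],
   [.kdo [0, 1, 2, 3, 4, 5, 6, 10, 11] [6, 7, 8, 9, 10, 11]],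
   [.kdo [0, 1, 2, 3, 4, 5, 6, 12, 13] [6, 7, 8, 9, 10, 11]],
   [.kdo [0, 1, 2, 3, 4, 5, 6, 14, 15] [6, 7, 8, 9, 10, 11]],
   [.kdo [0, 1, 2, 3, 4, 5, 6, 16, 17] [6, 7, 8, 9, 10, 11]],
   [.kdo [0, 1, 2, 3, 4, 5, 6, 18, 19] [6, 7, 8, 9, 10, 11]],
   [.kdo [0, 1, 2, 3, 4, 5, 6, 20, 21] [6, 7, 8, 9, 10, 11]],
   [.kdo [0, 1, 2, 3, 4, 5, 6, 22, 23] [6, 7, 8, 9, 10, 11]],
   [.cut [0, 2, 3, 4, 5]],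
   [.cut [0, 1, 2, 3, 4, 5, 6]],
   [.cut [0, 1, 2, 3, 4, 5, 6]],
   [.cut [0, 1, 2, 3, 4, 5, 6]],
   [.cut [0, 1, 2, 3, 4, 5, 6]],
   [.cut [0, 1, 2, 3, 4, 5, 6]],
   [.cut [0, 1, 2, 3, 4, 5, 6]],
   [.cut [0, 1, 2, 3, 4, 5, 6]],
   [.cut [0, 2, 3, 4, 5]],
   [.cut [0, 2, 3, 4, 5]],
   [.cut [0, 2, 3, 4, 5]],
   [.cut [0, 2, 3, 4, 5]],
   [.cut [0, 2, 3, 4, 5]],
   [.cut [0, 2, 3, 4, 5]],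
   [.cut [0, 2, 3, 4, 5]],
   [.p4 0 1 2 3 [4, 5, 6], .p4 4 5 6 7 [0, 1, 2]]]

def chkM (m : ℕ) (l : List Ce) : Bool :=
  fzb (mN m) fun n => fzb (mR m) fun R =>
    l.all (okS n (sl R)) && allLt (n + 1) fun f => l.any (okF f)

theorem chk_tbl : allLt 70 (fun m => chkM m (tbl.getD m [])) = true := by decide +kernel

theorem mem_cert {m : ℕ} (hm : m < 70) {f : ℕ} (hf : f ≤ mN m) :
    ∃ c, okS (mN m) (sl (mR m)) c = true ∧ okF f c = true := by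
  have := (allLt_iff _ _).1 chk_tbl m hm
  simp only [chkM, fzb_eq, Bool.and_eq_true, List.all_eq_true, allLt_iff, List.any_eq_true] at this
  obtain ⟨c, hc, h⟩ := this.2 f (by omega)
  exact ⟨c, this.1 c hc, h⟩

end Pool.Agent.Hom2.Pk
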