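import Pool.Agent.Lib.MP_7e4769_co.Hc.PkC
import Pool.Agent.Lib.MP_7e4769_co.Hc.TFF

set_option autoImplicit false

namespace Pool.Agent.Hom2.Pk

open Pool.Agent.Hom2.Sc Pool.Agent.Hom2.St

variable {V : Type} {G : SimpleGraph V} {X C W D : Finset V} {f g : V} {wt : V → ℕ} {n : ℕ}
  {s : ℕ → ℕ → ℕ} {ph : ℕ → V}

/-- the closed, cyclically 4-edge-connected situation -/
structure Cx (G : SimpleGraph V) (X : Finset V) : Prop where
  cub : Cub G X
  two : TwoEC G X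
  cl : Closed G X
  e3 : E3 G X
  c3 : C3 G X
  tb : TBelow V X.card

def Core (G : SimpleGraph V) (X : Finset V) (e : ℕ) : Prop := ∃ ph, EmbE G X e ph

/-- the block contains the triangle of ports `a b x`, the first two labelled -/
structure Tri3 (G : SimpleGraph V) (X C W D : Finset V) (f g : V) (wt : V → ℕ) (a b x ha hb : V)
    (ka kb : ℕ) : Prop where
  blk : Blk G X C W D f g wt
  ma : a ∈ W
  mb : b ∈ W
  mx : x ∈ W
  ab : G.Adj a b
  ax : G.Adj a x
  bx : G.Adj b x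
  la : Lb G X C W a ha ka ∧ ka ≤ wt a ∧ ha ∉ D
  lb : Lb G X C W b hb kb ∧ kb ≤ wt b ∧ hb ∉ D
  px : ∃ y, y ∉ W ∧ G.Adj x y

def Cores (G : SimpleGraph V) (X C : Finset V) : Prop :=
  (4 ≤ C.card ∧ (Core G X eT ∨ Core G X eD ∨ Core G X eK)) ∨ (6 ≤ ecut G X C ∧ Core G X eO)

def Sh (G : SimpleGraph V) (X C W D : Finset V) (f g : V) (wt : V → ℕ) : Prop :=
  Cores G X C ∨ (∃ a' a b b' ha hb ka kb, Quad G X C W D a' a b b' ha hb ka kb) ∨
    ∃ a b x ha hb ka kb, Tri3 G X C W D f g wt a b x ha hb ka kb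

section
variable (E : SE G W n s ph)
include E

theorem se_ed {i j : ℕ} (hi : i < n) (h : Ed s i j) : G.Adj (ph i) (ph j) := by
  obtain ⟨k, hk, e⟩ := (hasC_iff _ _ _).1 h
  exact (E.edge i hi k hk j e).2

theorem se_pt {i : ℕ} (hi : i < n) (h : hasC s i 1 = true) : ∃ y, y ∉ W ∧ G.Adj (ph i) y := by
  obtain ⟨k, hk, e⟩ := (hasC_iff _ _ _).1 h
  exact E.stub i hi k hk e

theorem se_nd {L : List ℕ} (h : Vs n L) : (L.map ph).Nodup :=
  h.1.map_on (fun i hi j hj e => E.inj i (h.2 i hi) j (h.2 j hj) e)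

theorem se_core (hcl : Closed G X) (hW : W ⊆ C) (hC : C ⊆ X) {e : ℕ} {L : List ℕ} (h : Vs n L)
    (k : CoreOK s e L) : 4 ≤ C.card ∧ Core G X e := by
  classical
  obtain ⟨k1, k2, k3⟩ := k
  have gm : ∀ i < e % 64, L.getD i 0 ∈ L := fun i hi => by
    rw [List.getD_eq_getElem _ _ (by omega)]; exact List.getElem_mem _
  have lt := fun i hi => h.2 _ (gm i hi)
  have mx := fun i hi => hC (hW (E.mem _ (lt i hi)))
  refine ⟨?_, fun i => ph (L.getD i 0), mx, fun i hi j hj r => ?_, fun i hi t ht r => ?_,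
    fun i hi t _ _ y r => hcl _ (mx i hi) y r, fun i hi t ht _ _ => se_ed E (lt i hi) (k3 i hi t ht).2⟩
  · have := Finset.card_le_card (show (L.map ph).toFinset ⊆ C from fun v hv => by
      obtain ⟨i, hi, rfl⟩ := List.mem_map.1 (List.mem_toFinset.1 hv)
      exact hW (E.mem i (h.2 i hi)))
    rw [List.toFinset_card_of_nodup (se_nd E h), List.length_map] at this
    omega
  · have := E.inj _ (lt i hi) _ (lt j hj) r
    rw [List.getD_eq_getElem _ _ (by omega), List.getD_eq_getElem _ _ (by omega)] at this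
    exact (h.1.getElem_inj_iff).1 this
  · have := (k3 i hi t ht).1; omega

theorem se_cut (hc : Cub G X) (h4 : C3 G X) (hW : W ⊆ C) (hC : C ⊆ X) (hn : C.card + 4 ≤ X.card)
    {L : List ℕ} (h : Vs n L) (h1 : 4 ≤ L.length) (h2 : ∀ i ∈ L, full s i = true)
    (h3 : (outs s L).length ≤ 3) : False := by
  classical
  have mem : ∀ v, v ∈ (L.map ph).toFinset ↔ ∃ i ∈ L, ph i = v := fun v => by simp
  have sub : (L.map ph).toFinset ⊆ C := fun v hv => by
    obtain ⟨i, hi, rfl⟩ := (mem v).1 hv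
    exact hW (E.mem i (h.2 i hi))
  have c : (L.map ph).toFinset.card = L.length := by
    rw [List.toFinset_card_of_nodup (se_nd E h), List.length_map]
  have := Finset.card_le_card sub
  have p := h4 _ (sub.trans hC) (by omega) (by omega)
  have q := ecut_le_list (G := G) (X := X) (C := (L.map ph).toFinset)
    ((outs s L).map fun p => (ph p.1, E.nu p.1 p.2)) (fun x hx y _ hy e => by
      obtain ⟨i, hi, rfl⟩ := (mem x).1 hx
      have key : ∀ k < 3, y = E.nu i k → (ph i, y) ∈ (outs s L).map fun p => (ph p.1, E.nu p.1 p.2) := by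
        intro k hk r
        refine List.mem_map.2 ⟨(i, k), List.mem_filter.2 ⟨List.mem_flatMap.2 ⟨i, hi, ?_⟩, ?_⟩, by rw [r]⟩
        · interval_cases k <;> simp
        · rw [decide_eq_true_eq]
          by_contra t
          rw [not_or, not_not] at t
          dsimp only at t
          exact hy ((mem y).2 ⟨_, t.2, by rw [r, E.nu_edge (y := s i k - 2) (by omega)]⟩)
      rcases (E.nb (hc.mono (hW.trans hC)) (h.2 i hi) (h2 i hi)).cases e with r | r | r
      exacts [key 0 (by omega) r, key 1 (by omega) r, key 2 (by omega) r])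
  rw [List.length_map] at q
  omega

end

theorem wg_le {fi : ℕ} {u : ℕ → ℕ} : ∀ L : List ℕ, (∀ i ∈ L, 1 ≤ u i) → (fi ∈ L → 2 ≤ u fi) →
    wg fi L ≤ (L.map u).sum
  | [], _, _ => by simp [wg]
  | i :: L, h1, h2 => by
    have a := h1 i (by simp)
    have b := wg_le L (fun j hj => h1 j (by simp [hj])) (fun r => h2 (by simp [r]))
    unfold wg at *
    rw [List.map_cons, List.sum_cons, List.length_cons]
    by_cases e : fi = i
    · have := h2 (by simp [e])
      rw [if_pos (by simp [e])]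
      subst e
      split at b <;> omega
    · simp only [List.mem_cons, e, false_or]
      omega

theorem shape_blk (cx : Cx G X) (hC : C ⊆ X) (hn : C.card + 4 ≤ X.card) (B : Blk G X C W D f g wt) :
    Sh G X C W D f g wt := by
  classical
  have hW := B.sub
  have := Finset.card_le_card hW
  obtain ⟨m, hm, ph, E⟩ := (cx.tb G W (by omega) (cx.cub.mono (hW.trans hC)) B.two).resolve_left B.bad
  have w2 : Fr G X C W D f g wt → 2 ≤ wt f := fun F => by
    have := three_cut cx.cub cx.cl cx.e3 (F.sub.trans hC) ⟨g, F.mg⟩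
      (fun r => F.dis _ (r ▸ hC (hW F.mf)) F.mf)
    have := F.cut; omega
  obtain ⟨fi, f1, f2, f3⟩ : ∃ fi ≤ mN m, (fi < mN m → 2 ≤ wt (ph fi)) ∧ ∀ j < mN m, j ≠ fi →
      hasC (sl (mR m)) j 1 = true → ∃ h k, Lb G X C W (ph j) h k ∧ k ≤ wt (ph j) ∧ h ∉ D := by
    by_cases e : Fr G X C W D f g wt ∧ ∃ i < mN m, ph i = f
    · obtain ⟨F, i, hi, rfl⟩ := e
      refine ⟨i, hi.le, fun _ => w2 F, fun j hj ne p => ?_⟩
      obtain ⟨y, y1, y2⟩ := se_pt E hj p
      exact (B.port _ (E.mem j hj) y y1 y2).resolve_right (fun r => ne (E.inj _ hj _ hi r.1))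
    · refine ⟨_, le_rfl, fun r => absurd r (lt_irrefl _), fun j hj _ p => ?_⟩
      obtain ⟨y, y1, y2⟩ := se_pt E hj p
      exact (B.port _ (E.mem j hj) y y1 y2).resolve_right (fun r => e ⟨r.2, j, hj, r.1⟩)
  have ws : ∀ L : List ℕ, (∀ i ∈ L, i < mN m) → Ps (sl (mR m)) L → wg fi L ≤ ((L.map ph).map wt).sum := by
    intro L h p
    rw [List.map_map]
    refine wg_le L (fun i hi => ?_) (fun r => f2 (h _ r))
    by_cases e : i = fi
    · have := f2 (e ▸ h i hi); subst e; exact le_trans (by omega) this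
    · obtain ⟨_, k, l, r, -⟩ := f3 i (h i hi) e (p i hi)
      exact l.pos.trans r
  obtain ⟨c, c1, c2⟩ := mem_cert hm f1
  generalize mN m = n at *
  generalize sl (mR m) = s at *
  have hc := cx.cub
  have q4 : ∀ a' a b b' L, Vs n (a' :: a :: b :: b' :: L) → Ps s (a' :: a :: b :: b' :: L) → Ed s a b →
      Ed s a a' → Ed s b b' → fi ∉ [a', a, b, b'] → (∀ S, a' < n → b' < n → wg fi L ≤ ((L.map ph).map wt).sum →
        S + ((L.map ph).map wt).sum ≤ ecut G X C → Tail G X C W D (ph a') (ph a) (ph b) (ph b') S) →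
      Sh G X C W D f g wt := by
    intro a' a b b' L v p e1 e2 e3 c2 h
    have lt := v.2
    have nd := se_nd E v
    have q := B.sum _ nd
    simp only [Ps, List.mem_cons, List.not_mem_nil, or_false, not_or, forall_eq_or_imp] at lt p c2
    obtain ⟨l1, l2, l3, l4, l5⟩ := lt
    obtain ⟨ha', ka', la', wa', da'⟩ := f3 a' l1 (Ne.symm c2.1) p.1
    obtain ⟨ha, ka, la, wa, da⟩ := f3 a l2 (Ne.symm c2.2.1) p.2.1
    obtain ⟨hb, kb, lb, wb, db⟩ := f3 b l3 (Ne.symm c2.2.2.1) p.2.2.1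
    obtain ⟨hb', kb', lb', wb', db'⟩ := f3 b' l4 (Ne.symm c2.2.2.2) p.2.2.2.1
    simp only [List.map_cons, List.sum_cons] at q nd
    exact Or.inr (Or.inl ⟨_, _, _, _, ha, hb, ka, kb, E.mem _ l2, E.mem _ l3, E.mem _ l1, E.mem _ l4,
      nd.sublist (by simp), se_ed E l2 e1, se_ed E l2 e2, se_ed E l3 e3, ⟨la, da⟩, ⟨lb, db⟩,
      Or.inr ⟨ha', hb', ka', kb', ⟨la', da'⟩, ⟨lb', db'⟩, h _ l1 l4 (ws L l5 p.2.2.2.2) (by omega)⟩⟩)
  cases c <;> simp only [okS, okF, decide_eq_true_eq] at c1 c2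
  · exact (se_cut E hc cx.c3 hW hC hn c1.1 c1.2.1 c1.2.2.1 c1.2.2.2).elim
  · obtain ⟨p, q⟩ := se_core E cx.cl hW hC c1.1 c1.2.1
    refine Or.inl (Or.inl ⟨p, ?_⟩)
    rcases c1.2.2 with rfl | rfl | rfl <;> simp [q]
  · obtain ⟨a, b, d, e, l⟩ := c1
    have p := ws _ d.2 e
    have q := B.sum _ (se_nd E d)
    unfold wg at p
    exact Or.inl (Or.inr ⟨by omega, (se_core E cx.cl hW hC a b).2⟩)
  · next a b x =>
    obtain ⟨v, p, e1, e2, e3⟩ := c1
    have lt := v.2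
    simp only [Ps, List.mem_cons, List.not_mem_nil, or_false, not_or, forall_eq_or_imp, forall_eq] at lt p c2
    obtain ⟨ha, ka, la⟩ := f3 a lt.1 (Ne.symm c2.1) p.1
    obtain ⟨hb, kb, lb⟩ := f3 b lt.2.1 (Ne.symm c2.2) p.2.1
    exact Or.inr (Or.inr ⟨_, _, _, ha, hb, ka, kb, B, E.mem _ lt.1,
      E.mem _ lt.2.1, E.mem _ lt.2.2, se_ed E lt.1 e1, se_ed E lt.1 e2, se_ed E lt.2.1 e3, la, lb,
      se_pt E lt.2.2 p.2.2⟩)
  · obtain ⟨v, p, e1, e2, e3⟩ := c1
    exact q4 _ _ _ _ _ v p e1 e2 e3 c2.1 fun S _ _ _ _ => Or.inl (by omega)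
  · next a' a b b' u v L =>
    obtain ⟨v0, p, e1, e2, e3, vu, vv, e4, e5, e6⟩ := c1
    have lu := vu.2 u (by simp)
    have lv := vv.2 v (by simp)
    exact q4 _ _ _ _ _ v0 p e1 e2 e3 c2.1 fun S l1 l4 _ _ => Or.inr (Or.inl ⟨_, E.mem _ lu, _, E.mem _ lv,
      (List.nodup_cons.1 (se_nd E vu)).1, (List.nodup_cons.1 (se_nd E vv)).1, se_ed E l1 e4, se_ed E l4 e5,
      se_ed E lv e6, by omega⟩)
  · next a' a b b' c =>
    obtain ⟨v0, p, e1, e2, e3, vc, e4, e5⟩ := c1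
    have lc := vc.2 c (by simp)
    obtain ⟨y, y1, y2⟩ := se_pt E lc (p c (by simp))
    refine q4 _ _ _ _ _ v0 p e1 e2 e3 c2 fun S l1 l4 _ h => ?_
    simp only [List.map_cons, List.map_nil, List.sum_cons, List.sum_nil] at h
    by_cases t : S + 3 ≤ ecut G X C
    · exact Or.inl t
    refine Or.inr (Or.inr ⟨_, E.mem _ lc, (List.nodup_cons.1 (se_nd E vc)).1, se_ed E l1 e4, se_ed E l4 e5, ?_⟩)
    rcases B.port _ (E.mem _ lc) y y1 y2 with ⟨hh, k, l, r, -⟩ | ⟨r, F⟩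
    · exact Or.inl ⟨hh, k, l, by omega⟩
    obtain ⟨u, u1, u2⟩ := F.two
    have := w2 F; have := F.cut; have := Finset.card_le_card F.sub
    rw [r] at h ⊢
    obtain ⟨p, mp, q, mq, a1, a2, a3, o1, o2⟩ := tri_of_cut hc cx.cl cx.c3 (F.sub.trans hC) (by omega)
      (by omega) F.mg u1 u2
    have p1 := out_only (X := X) F.only mp
    have p2 := out_only (X := X) F.only mq
    rw [if_neg a1.ne] at p1
    rw [if_neg a2.ne] at p2
    exact Or.inr ⟨F.inn, by omega, fun v hv => ⟨F.sub hv, F.dis v hv⟩, g, F.mg, p, mp, q, mq, F.adj, a1, a2,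
      a3, by omega, by omega⟩
  · next a' a b b' L =>
    obtain ⟨v, p, e1, e2, e3, e4⟩ := c1
    have lt := v.2
    have nd := se_nd E v
    have q := B.sum _ nd
    simp only [Ps, List.mem_cons, List.not_mem_nil, or_false, not_or, forall_eq_or_imp] at lt p c2
    obtain ⟨l1, l4, l2, l3, l5⟩ := lt
    obtain ⟨ha, ka, la, wa, da⟩ := f3 a l2 (Ne.symm c2.1.1) p.1
    obtain ⟨hb, kb, lb, wb, db⟩ := f3 b l3 (Ne.symm c2.1.2) p.2.1
    have r := ws L l5 p.2.2
    simp only [List.map_cons, List.sum_cons] at q nd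
    have n4 : [ph a', ph a, ph b, ph b'].Nodup := by
      simp only [List.nodup_cons, List.mem_cons, not_or] at nd
      simp [nd.1.1, nd.1.2.1, nd.1.2.2.1, nd.2.2.1.1, Ne.symm nd.2.1.1, Ne.symm nd.2.1.2.1]
    exact Or.inr (Or.inl ⟨_, _, _, _, ha, hb, ka, kb, E.mem _ l2, E.mem _ l3, E.mem _ l1, E.mem _ l4, n4,
      se_ed E l2 e1, se_ed E l2 e2, se_ed E l3 e3, ⟨la, da⟩, ⟨lb, db⟩, Or.inl ⟨se_ed E l4 e4, by omega⟩⟩)

theorem shape (cx : Cx G X) (hC : C ⊆ X) (hn : C.card + 4 ≤ X.card) (hb : ¬ Good G C) :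
    (∃ v ∈ C, 3 ≤ out G X C v) ∨ ∃ W D f g wt, W ⊆ C ∧ Sh G X C W D f g wt := by
  classical
  rcases lemW (cx.cub.mono hC) (cx.tb.hf cx.cub cx.two hC (fun r => by rw [r] at hn; omega)) hb with
    ⟨v, hv⟩ | ⟨W, H, a, b, w⟩
  · obtain ⟨x, y, z, hn⟩ := cx.cub v (hC hv.1)
    have t : ∀ w, G.Adj v w → w ∈ X ∧ w ∉ C ∧ G.Adj v w := fun w e =>
      ⟨cx.cl v (hC hv.1) w e, fun r => hv.2 w r e, e⟩
    have := le_out (G := G) (X := X) (C := C) (Z := {x, y, z}) (x := v) (by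
      simp [t _ hn.adj1, t _ hn.adj2, t _ hn.adj3])
    rw [Finset.card_eq_three.2 ⟨x, y, z, hn.1, hn.2.1, hn.2.2.1, rfl⟩] at this
    exact Or.inl ⟨v, hv.1, this⟩
  · obtain ⟨D, wt, B⟩ := blk_of_wit cx.cub cx.cl hC w
    exact Or.inr ⟨W, D, a, b, wt, B.sub, shape_blk cx hC hn B⟩

end Pool.Agent.Hom2.Pk
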