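import Pool.Agent.Lib.MP_7e4769_co.Hc.Sem

set_option autoImplicit false

namespace Pool.Agent.Hom2

variable {V : Type} {G : SimpleGraph V} {X : Finset V} {h p : V} {db : DB} {N1 nf f kd n R B : ℕ}
  {rec : Rec} {w : Ws} {ph : ℕ → V} {nu : ℕ → ℕ → V} {Y W H : Finset V} {a b : V}

theorem WSem.memY (s : WSem G X n ph w Y W H a b) (E : Emb G X n (sl R) ph nu) {y : ℕ} (hy : y < n)
    (o : tb w.sk y = false) : ph y ∈ Y := by
  rw [s.rem]
  refine ⟨E.mem y hy, fun i hi e => ?_⟩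
  rw [E.inj y hy i (s.rng i hi) e, hi] at o
  simp at o

theorem WSem.subX (s : WSem G X n ph w Y W H a b) : Y ⊆ X := fun v hv => ((s.rem v).1 hv).1

theorem WSem.not_dead (s : WSem G X n ph w Y W H a b) (E : Emb G X n (sl R) ph nu) {j : ℕ}
    (hj : j < n) (m : ph j ∈ H) : Hom2.dead R w.D j = false := by
  rw [← Bool.not_eq_true]
  simp only [Hom2.dead, any3_iff, inM_iff]
  rintro ⟨k, hk, y, e, d⟩
  exact (s.dead y d).2 _ m (E.adj_of_code hj hk e).2

theorem WSem.addW (s : WSem G X n ph w Y W H a b) {j : ℕ} (hj : j < n) (m : ph j ∈ W) :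
    WSem G X n ph ⟨w.S, w.K, w.D, sb w.W j, w.L, w.fr⟩ Y W H a b :=
  ⟨s.rng, s.rem, s.cl, s.sub, s.subY, s.card, s.bad, s.leaf, s.only, s.dead, fun i hi => by
    rcases (tb_sb _ _ _).1 hi with r | rfl
    · exact s.inW i r
    · exact ⟨hj, m⟩, s.inL, s.fr⟩

theorem inH_sound (hr : RecOK N1 kd G X h p rec) {j : ℕ} (hs : inH rec n R w j B ≠ 0) (hn : n ≤ 62)
    (E : Emb G X n (sl R) ph nu) (sd : Side kd n G X h p ph) (s : WSem G X n ph w Y W H a b)
    (hj : j < n) (m : ph j ∈ H) : Goal N1 kd G X h p := by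
  unfold inH at hs
  rw [s.not_dead E hj m, cond_false] at hs
  obtain ⟨h1, h2⟩ := sq_ne hs
  by_cases e : ph j ∈ W
  · have : tb w.L j = false := by
      rw [← Bool.not_eq_true]; exact fun r => (s.inL j r).2.2 e
    rw [this, cond_false, fz_eq] at h1
    exact hr _ _ _ _ h1 ⟨hn, ph, nu, Y, W, H, a, b, E, sd, s.addW hj e⟩
  · have t1 : tb w.W j = false := by
      rw [← Bool.not_eq_true]; exact fun r => e (s.inW j r).2
    have t2 : twoIn R w.sk j = false := by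
      have key : ∀ k < 3, ∀ k' < 3, offM w.sk (sl R j k) = true → offM w.sk (sl R j k') = true →
          k = k' := by
        intro k hk k' hk' o o'
        obtain ⟨y, e1, o1⟩ := (offM_iff _ _).1 o
        obtain ⟨y', e2, o2⟩ := (offM_iff _ _).1 o'
        obtain ⟨r1, r2⟩ := E.edge j hj k hk y e1
        obtain ⟨r3, r4⟩ := E.edge j hj k' hk' y' e2
        refine E.ninj hj hk hk' ((s.leaf _ m e).2 _ (r2 ▸ s.memY E r1 o1) _ (r4 ▸ s.memY E r3 o2)
          (E.adj hj hk) (E.adj hj hk'))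
      have k01 := key 0 (by omega) 1 (by omega)
      have k02 := key 0 (by omega) 2 (by omega)
      have k12 := key 1 (by omega) 2 (by omega)
      unfold twoIn
      revert k01 k02 k12
      cases offM w.sk (sl R j 0) <;> cases offM w.sk (sl R j 1) <;> cases offM w.sk (sl R j 2) <;>
        simp [b2n]
    rw [t1, t2, Bool.or_false, cond_false, fz_eq] at h2
    refine hr _ _ _ _ h2 ⟨hn, ph, nu, Y, W, H, a, b, E, sd, s.rng, s.rem, s.cl, s.sub, s.subY, s.card,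
      s.bad, s.leaf, s.only, s.dead, s.inW, fun i hi => ?_, s.fr⟩
    rcases (tb_sb _ _ _).1 hi with r | rfl
    · exact s.inL i r
    · exact ⟨hj, m, e⟩

theorem WSem.inH (s : WSem G X n ph w Y W H a b) {i : ℕ} (t : tb (Nat.lor w.W w.L) i = true) :
    ph i ∈ H := by
  rw [tb_lor, Bool.or_eq_true] at t
  rcases t with t | t
  · exact s.sub (s.inW i t).2
  · exact (s.inL i t).2.1

theorem rSplit_sound (hc : Cub G X) (hr : RecOK N1 kd G X h p rec) (hs : rSplit rec kd n R w B ≠ 0)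
    (sm : Sem kd G X h p n R w) : Goal N1 kd G X h p := by
  obtain ⟨hn, ph, nu, Y, W, H, a, b, E, sd, s⟩ := sm
  unfold rSplit at hs
  simp only [fz_eq] at hs
  generalize fld B 0 64 = i at hs
  generalize fld B 6 4 = k at hs
  obtain ⟨h1, h2⟩ := cond_ne hs
  simp only [Bool.and_eq_true, lt_iff, Nat.beq_eq] at h1
  obtain ⟨⟨hi, hk⟩, h0⟩ := h1
  obtain ⟨g1, g2⟩ := sq_ne h2
  obtain ⟨g2, g3⟩ := sq_ne g2
  by_cases x : nu i k ∈ X
  · by_cases o : ∃ j < n, ph j = nu i k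
    · obtain ⟨j, hj, e⟩ := o
      obtain ⟨B', g⟩ := thr_ne g3 j hj
      have : (tb w.D j && tb (Nat.lor w.W w.L) i) = false := by
        rw [← Bool.not_eq_true, Bool.and_eq_true]
        exact fun r => (s.dead j r.1).2 _ (s.inH r.2) (e ▸ E.adj hi hk)
      rw [this, cond_false] at g
      obtain ⟨R', B'', nu', q1, q2⟩ := link_sound g hn E hi hk hj h0 e.symm
      exact hr _ _ _ _ q1 ⟨hn, ph, nu', Y, W, H, a, b, q2, sd, s⟩
    · push Not at o
      obtain ⟨R', B'', ph', nu', q1, q2, q3, -, q5⟩ := newC_sound g2 hc E hi hk h0 x o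
      exact hr _ _ _ _ q1 ⟨q2, ph', nu', Y, W, H, a, b, q3, sd.grow q5, s.grow q5⟩
  · obtain ⟨R', B'', q1, q2⟩ := stubC_sound g1 E sd.1 hi hk h0 x
    exact hr _ _ _ _ q1 ⟨hn, ph, nu, Y, W, H, a, b, q2, sd, s⟩

theorem Goal.zero (g : Goal N1 0 G X h p) : Good G X := by
  rcases g with g | g | g | g
  · exact g
  all_goals exact absurd g.1 (by omega)

theorem rRef_sound (cx : Ctx db N1 nf f G X) (hs : rRef db f kd n R B ≠ 0)
    (sm : Sem kd G X h p n R w) : Goal N1 kd G X h p := by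
  obtain ⟨hn, ph, nu, Y, W, H, a, b, E, sd, s⟩ := sm
  unfold rRef at hs
  simp only [fz_eq] at hs
  generalize fld B 0 1048576 = g at hs
  obtain ⟨h1, -⟩ := cond_ne hs
  simp only [Bool.and_eq_true, Bool.or_eq_true, lt_iff, Nat.beq_eq, ne_iff] at h1
  obtain ⟨⟨hg, hk⟩, he⟩ := h1
  obtain ⟨-, E'⟩ := embChk_sound (G := G) (ph := ph) (nu := nu) (Z := X) he
    (fun i hi => E.mem i ((lt_iff _ _).1 hi))
    (fun i j hi hj => E.inj i ((lt_iff _ _).1 hi) j ((lt_iff _ _).1 hj))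
    (fun i hi => E.nb i ((lt_iff _ _).1 hi)) (fun i hi => E.stub i ((lt_iff _ _).1 hi))
    (fun i hi k hk y e => (E.edge i ((lt_iff _ _).1 hi) k hk y e).2)
  have := cx.same g hg h p _ _ E'
  rcases hk with hk | ⟨hk, hk'⟩
  · rw [hk] at this
    exact Or.inl (this ⟨fun r => by omega, fun r => by omega⟩).zero
  · rw [hk] at this
    refine this ⟨sd.1, fun r => ?_⟩
    rcases hk' with hk' | hk'
    · exact absurd r hk'
    · exact ⟨hk'.2, by simpa [hk'.1] using (sd.2 r).2.1, (sd.2 r).2.2⟩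

theorem rClass_sound (hr : RecOK N1 kd G X h p rec) (hs : rClass rec n R w B ≠ 0)
    (sm : Sem kd G X h p n R w) : Goal N1 kd G X h p := by
  obtain ⟨hn, ph, nu, Y, W, H, a, b, E, sd, s⟩ := sm
  unfold rClass at hs
  simp only [fz_eq] at hs
  generalize fld B 0 64 = i at hs
  generalize fld B 6 4 = k at hs
  obtain ⟨h1, h2⟩ := cond_ne hs
  simp only [Bool.and_eq_true, lt_iff, offM_iff] at h1
  obtain ⟨⟨hi, hk⟩, j, e, o⟩ := h1
  obtain ⟨hi', mi⟩ := s.inW i hi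
  obtain ⟨hj, adj⟩ := E.adj_of_code hi' hk e
  rw [e, show Nat.sub (j + 2) 2 = j from rfl] at h2
  have fre : ph j ∉ H → ph i = a ∧ ph j = b := fun r =>
    s.only _ (s.sub mi) _ (s.memY E hj o) r adj
  by_cases f0 : w.fr = 0
  · rw [f0, Nat.beq_refl, cond_true] at h2
    obtain ⟨g1, g2⟩ := sq_ne h2
    by_cases m : ph j ∈ H
    · exact inH_sound hr g1 hn E sd s hj m
    · have : tb (Nat.lor w.W w.L) j = false := by
        rw [← Bool.not_eq_true]; exact fun r => m (s.inH r)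
      rw [this, cond_false] at g2
      refine hr _ _ _ _ g2 ⟨hn, ph, nu, Y, W, H, a, b, E, sd, s.rng, s.rem, s.cl, s.sub, s.subY,
        s.card, s.bad, s.leaf, s.only, s.dead, s.inW, s.inL, fun _ => ?_⟩
      have e1 : frI (Nat.succ (Nat.add (Nat.mul 64 i) j)) = i := by
        show (64 * i + j + 1 - 1) / 64 = i
        omega
      have e2 : frJ (Nat.succ (Nat.add (Nat.mul 64 i) j)) = j := by
        show (64 * i + j + 1 - 1) % 64 = j
        omega
      simp only [e1, e2]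
      exact ⟨hi', hj, (fre m).1, (fre m).2, (fre m).2 ▸ m⟩
  · rw [(beq_false _ _).2 f0, cond_false] at h2
    obtain ⟨r1, r2, r3, r4, r5⟩ := s.fr f0
    by_cases c : frJ w.fr = j
    · have m : ph j ∉ H := by rw [← c, r4]; exact r5
      have : frI w.fr = i := E.inj _ r1 _ hi' (r3.trans (fre m).1.symm)
      rw [c, this] at h2
      simp at h2
    · rw [(beq_false _ _).2 c, cond_false] at h2
      refine inH_sound hr h2 hn E sd s hj ?_
      by_contra m
      exact c (E.inj _ r2 _ hj (r4.trans (fre m).2.symm))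

theorem rLeafOut_sound (hr : RecOK N1 kd G X h p rec) (hs : rLeafOut rec kd n R w B ≠ 0)
    (sm : Sem kd G X h p n R w) : Goal N1 kd G X h p := by
  obtain ⟨hn, ph, nu, Y, W, H, a, b, E, sd, s⟩ := sm
  unfold rLeafOut at hs
  simp only [fz_eq] at hs
  generalize fld B 0 64 = j at hs
  generalize fld B 6 4 = k at hs
  generalize fld B 8 4 = k2 at hs
  obtain ⟨h1, h2⟩ := cond_ne hs
  simp only [Bool.and_eq_true, Bool.or_eq_true, lt_iff, offM_iff, ne_iff, Nat.beq_eq] at h1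
  obtain ⟨⟨⟨⟨⟨hL, hk⟩, hk2⟩, kk⟩, h0⟩, ho⟩ := h1
  obtain ⟨hj, m, m'⟩ := s.inL j hL
  obtain ⟨g1, g2⟩ := sq_ne h2
  have both : nu j k ∈ Y → nu j k2 ∈ Y → False := fun u v =>
    kk (E.ninj hj hk hk2 ((s.leaf _ m m').2 _ u _ v (E.adj hj hk) (E.adj hj hk2)))
  obtain ⟨nu', E', out⟩ : ∃ nu', Emb G X n (sl R) ph nu' ∧ nu' j k ∉ Y := by
    by_cases c : nu j k ∈ Y
    · rcases ho with ho | ⟨y, e, o⟩
      · obtain ⟨nu', q1, q2, -⟩ := E.swap hj hk hk2 h0 ho
        exact ⟨nu', q1, fun r => both c (q2 ▸ r)⟩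
      · obtain ⟨r1, r2⟩ := E.edge j hj k2 hk2 y e
        exact (both c (r2 ▸ s.memY E r1 o)).elim
    · exact ⟨nu, E, c⟩
  by_cases x : nu' j k ∈ X
  · rw [s.rem] at out
    push Not at out
    obtain ⟨t, ht, e⟩ := out x
    have adj : G.Adj (ph j) (ph t) := e ▸ E'.adj hj hk
    obtain ⟨B', g⟩ := thr_ne g2 t (s.rng t ht)
    have t1 : tb w.S t = true := by
      rw [tb_sk, Bool.or_eq_true] at ht
      exact ht.resolve_right (fun r => s.cl _ (s.subY m) t r adj)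
    have t2 : tb w.D t = false := by
      rw [← Bool.not_eq_true]; exact fun r => (s.dead t r).2 _ m adj
    rw [t1, t2] at g
    obtain ⟨R', B'', nu'', q1, q2⟩ := link_sound g hn E' hj hk (s.rng t ht) h0 e
    exact hr _ _ _ _ q1 ⟨hn, ph, nu'', Y, W, H, a, b, q2, sd, s⟩
  · obtain ⟨R', B'', q1, q2⟩ := stubC_sound g1 E' sd.1 hj hk h0 x
    exact hr _ _ _ _ q1 ⟨hn, ph, nu', Y, W, H, a, b, q2, sd, s⟩

theorem rParent_sound (hr : RecOK N1 kd G X h p rec) (hs : rParent rec n R w B ≠ 0)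
    (sm : Sem kd G X h p n R w) : Goal N1 kd G X h p := by
  obtain ⟨hn, ph, nu, Y, W, H, a, b, E, sd, s⟩ := sm
  unfold rParent at hs
  simp only [fz_eq] at hs
  generalize fld B 0 64 = j at hs
  generalize fld B 6 4 = k at hs
  obtain ⟨h1, h2⟩ := cond_ne hs
  simp only [Bool.and_eq_true, lt_iff, offM_iff] at h1
  obtain ⟨⟨hL, hk⟩, y, e, o⟩ := h1
  obtain ⟨hj, m, m'⟩ := s.inL j hL
  obtain ⟨hy, adj⟩ := E.adj_of_code hj hk e
  rw [e, show Nat.sub (y + 2) 2 = y from rfl] at h2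
  have my : ph y ∈ W := (s.leaf _ m m').1 _ (s.memY E hy o) adj
  have t1 : tb w.L y = false := by
    rw [← Bool.not_eq_true]; exact fun r => (s.inL y r).2.2 my
  have t2 : (ne w.fr 0 && Nat.beq (frJ w.fr) y) = false := by
    rw [← Bool.not_eq_true, Bool.and_eq_true, ne_iff, Nat.beq_eq]
    rintro ⟨r1, r2⟩
    obtain ⟨-, -, -, r4, r5⟩ := s.fr r1
    exact r5 (r4 ▸ r2 ▸ s.sub my)
  rw [s.not_dead E hy (s.sub my), t1, t2] at h2
  exact hr _ _ _ _ h2 ⟨hn, ph, nu, Y, W, H, a, b, E, sd, s.addW hy my⟩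

theorem WSem.cls_stub (s : WSem G X n ph w Y W H a b) (E : Emb G X n (sl R) ph nu) (i : ℕ)
    (hi : tb w.W i = true) (k : ℕ) (hk : k < 3) (e : clsW R w i k = 1) : nu i k ∉ W := by
  have hi' := (s.inW i hi).1
  unfold clsW at e
  rw [fz_eq] at e
  by_cases c : (inM (Nat.lor w.sk w.L) (sl R i k) ||
      (ne w.fr 0 && Nat.beq (sl R i k) (Nat.add (frJ w.fr) 2))) = true
  · simp only [Bool.and_eq_true, Bool.or_eq_true, inM_iff, ne_iff, Nat.beq_eq, tb_lor] at c
    rcases c with ⟨y, e1, t | t⟩ | ⟨r1, r2⟩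
    · rw [(E.edge i hi' k hk y e1).2]
      exact fun m => ((s.rem _).1 (s.subY (s.sub m))).2 y t rfl
    · rw [(E.edge i hi' k hk y e1).2]; exact (s.inL y t).2.2
    · obtain ⟨-, -, -, r4, r5⟩ := s.fr r1
      rw [(E.edge i hi' k hk _ r2).2, r4]; exact fun m => r5 (s.sub m)
  · rw [Bool.not_eq_true] at c
    rw [c, cond_false] at e
    exact fun m => E.stub i hi' k hk e (s.subX (s.subY (s.sub m)))

theorem WSem.cls_edge (s : WSem G X n ph w Y W H a b) (E : Emb G X n (sl R) ph nu) (i : ℕ)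
    (hi : tb w.W i = true) (k : ℕ) (hk : k < 3) (y : ℕ) (e : clsW R w i k = y + 2) :
    nu i k = ph y := by
  unfold clsW at e
  rw [fz_eq] at e
  refine (E.edge i (s.inW i hi).1 k hk y ?_).2
  revert e
  cases (inM (Nat.lor w.sk w.L) (sl R i k) ||
      (ne w.fr 0 && Nat.beq (sl R i k) (Nat.add (frJ w.fr) 2)))
  · exact id
  · intro e; simp at e

theorem rWRef_sound (cx : Ctx db N1 nf f G X) (hs : rWRef db nf R w B ≠ 0)
    (sm : Sem kd G X h p n R w) : False := by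
  obtain ⟨hn, ph, nu, Y, W, H, a, b, E, sd, s⟩ := sm
  unfold rWRef at hs
  simp only [fz_eq] at hs
  generalize fld B 0 1048576 = g at hs
  obtain ⟨h1, -⟩ := cond_ne hs
  simp only [Bool.and_eq_true, lt_iff, Nat.beq_eq] at h1
  obtain ⟨⟨⟨hg, hk⟩, h0⟩, he⟩ := h1
  obtain ⟨-, E'⟩ := embChk_sound (G := G) (ph := ph) (nu := nu) (Z := W) he
    (fun i hi => (s.inW i hi).2)
    (fun i j hi hj => E.inj i (s.inW i hi).1 j (s.inW j hj).1)
    (fun i hi => E.nb i (s.inW i hi).1) (s.cls_stub E) (s.cls_edge E)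
  obtain ⟨t, bad⟩ := s.bad ⟨_, E'.mem 0 h0⟩
  have := cx.small G W s.card (cx.cub.mono (s.sub.trans (s.subY.trans s.subX))) t g hg h p _ _ E'
  rw [hk] at this
  exact bad (this ⟨fun r => by omega, fun r => by omega⟩).zero

theorem rEven_sound (hs : rEven N1 kd n R B ≠ 0) (sm : Sem kd G X h p n R w) :
    Goal N1 kd G X h p := by
  obtain ⟨hn, ph, nu, Y, W, H, a, b, E, sd, s⟩ := sm
  unfold rEven at hs
  simp only [fz_eq] at hs
  generalize fld B 0 64 = m at hs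
  generalize shr B 6 = C at hs
  obtain ⟨h1, -⟩ := cond_ne hs
  simp only [Bool.and_eq_true, lt_iff, Nat.beq_eq, Nat.ble_eq, ne_iff, allLt_iff, lists_iff] at h1
  obtain ⟨⟨⟨⟨⟨hk, h2⟩, h3⟩, h4⟩, h5⟩, h6⟩ := h1
  have P : Pth G X m (fun i => ph (cv C i)) := by
    refine ⟨fun i hi => E.mem _ (h6 i (by omega)).1, fun i hi j hj e => ?_, fun i hi => ?_⟩
    · exact (injM_spec h5).1 i (by omega) j (by omega)
        (E.inj _ (h6 i (by omega)).1 _ (h6 j (by omega)).1 e)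
    · obtain ⟨r, k, hk, e⟩ := h6 i (by omega)
      rw [(beq_false _ _).2 hi.ne, cond_false] at e
      exact (E.adj_of_code r hk e).2
  obtain ⟨r, k, hk', e⟩ := h6 m (by omega)
  rw [Nat.beq_refl, cond_true] at e
  refine Or.inr (Or.inr (Or.inr ⟨hk, m + 1, _, ?_, h3, P.cyc h2 (E.adj_of_code r hk' e).2⟩))
  have : m % 2 = 1 := h4
  omega

theorem rCut_sound {al : ℕ → Bool} {cls : ℕ → ℕ → ℕ} {Z : Finset V} (hs : rCut n B al cls ≠ 0)
    (two : Z.Nonempty → TwoEC G Z)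
    (mem : ∀ i, al i = true → ph i ∈ Z)
    (inj : ∀ i j, al i = true → al j = true → ph i = ph j → i = j)
    (nb : ∀ i, al i = true → Nb G (ph i) (nu i 0) (nu i 1) (nu i 2))
    (stub : ∀ i, al i = true → ∀ k < 3, cls i k = 1 → nu i k ∉ Z)
    (edge : ∀ i, al i = true → ∀ k < 3, ∀ y, cls i k = y + 2 → nu i k = ph y) : False := by
  classical
  unfold rCut at hs
  generalize fld B 14 (Nat.pow 2 n) = A at hs
  generalize fld B 0 64 = i0 at hs
  generalize fld B 6 4 = k0 at hs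
  generalize fld B 8 64 = t at hs
  obtain ⟨h1, -⟩ := cond_ne hs
  simp only [cutChk, Bool.and_eq_true, Bool.or_eq_true, Nat.beq_eq, allLt_iff, all3_iff, fzb_eq,
    inM_iff, Bool.not_eq_true'] at h1
  obtain ⟨⟨⟨a1, a2⟩, a3⟩, a4⟩ := h1
  have a5 : ∀ i, tb A i = true → _ := fun i hi =>
    (a4 i (tb_lt_of_shr a2 hi)).resolve_left (by simp [hi])
  have T := two ⟨_, mem i0 (a5 i0 a1).1⟩
  have hm : ∀ v, v ∈ Z.filter (fun v => ∃ i, tb A i = true ∧ v = ph i) ↔
      ∃ i, tb A i = true ∧ v = ph i := fun v => by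
    rw [Finset.mem_filter]
    exact ⟨fun r => r.2, fun ⟨i, hi, e⟩ => ⟨e ▸ mem i (a5 i hi).1, i, hi, e⟩⟩
  refine T.2 _ (Finset.filter_subset (fun v => ∃ i, tb A i = true ∧ v = ph i) Z)
    ⟨_, (hm _).2 ⟨i0, a1, rfl⟩⟩ (fun e => ?_) (ph i0) (nu i0 k0) (fun x hx y hy hy' hxy => ?_)
  · by_cases c : t = 63
    · rw [c, Nat.beq_refl, cond_true, Nat.beq_eq] at a3
      obtain ⟨u, hu, v, hv, uv⟩ := T.1
      rw [← e, hm] at hu hv
      obtain ⟨i, hi, rfl⟩ := hu
      obtain ⟨j, hj, rfl⟩ := hv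
      rw [a3, tb_sb] at hi hj
      simp only [tb_zero, Bool.false_eq_true, false_or] at hi hj
      exact uv (by rw [hi, hj])
    · rw [(beq_false _ _).2 c, cond_false, Bool.and_eq_true, Bool.not_eq_true'] at a3
      have := mem t a3.1
      rw [← e, hm] at this
      obtain ⟨i, hi, r⟩ := this
      rw [inj _ _ a3.1 (a5 i hi).1 r, hi] at a3
      simp at a3
  · obtain ⟨i, hi, rfl⟩ := (hm x).1 hx
    obtain ⟨q1, q2⟩ := a5 i hi
    have : ∃ k < 3, y = nu i k := by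
      rcases (nb i q1).cases hxy with r | r | r
      · exact ⟨0, by omega, r⟩
      · exact ⟨1, by omega, r⟩
      · exact ⟨2, by omega, r⟩
    obtain ⟨k, hk, rfl⟩ := this
    rcases q2 k hk with (r | ⟨u, r, r'⟩) | r
    · exact absurd hy (stub i q1 k hk r)
    · exact absurd ((hm _).2 ⟨u, r', edge i q1 k hk u r⟩) hy'
    · rw [r.1, r.2]; exact ⟨rfl, rfl⟩

end Pool.Agent.Hom2
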