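import Pool.Agent.Lib.MP_7e4769_co.Hc.R1

set_option autoImplicit false

namespace Pool.Agent.Hom2

variable {V : Type} {G : SimpleGraph V} {X : Finset V} {h p : V} {db : DB} {N1 nf f kd n R B : ℕ}
  {w : Ws} {ph : ℕ → V} {nu : ℕ → ℕ → V}

theorem Emb.adj_lists (E : Emb G X n (sl R) ph nu) {i j : ℕ} (hi : i < n)
    (l : lists R i j = true) : G.Adj (ph i) (ph j) := by
  obtain ⟨k, hk, e⟩ := (lists_iff _ _ _).1 l
  exact (E.adj_of_code hi hk e).2

/-- replace the neighbour behind one code -/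
theorem nb_replace {G' : SimpleGraph V} (E : Emb G X n (sl R) ph nu) {u q : ℕ} (hu : u < n)
    (l : lists R u q = true) {v : V}
    (tr : ∀ y z, Nb G (ph u) (ph q) y z → Nb G' (ph u) v y z) :
    Nb G' (ph u) (if sl R u 0 = q + 2 then v else nu u 0) (if sl R u 1 = q + 2 then v else nu u 1)
      (if sl R u 2 = q + 2 then v else nu u 2) := by
  obtain ⟨k, hk, e⟩ := (lists_iff _ _ _).1 l
  have e' := (E.edge u hu k hk q e).2
  have o : ∀ t < 3, t ≠ k → sl R u t ≠ q + 2 := fun t ht tk r =>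
    tk (E.ninj hu ht hk ((E.edge u hu t ht q r).2.trans e'.symm))
  have nb := E.nb u hu
  interval_cases k
  · rw [if_pos e, if_neg (o 1 (by omega) (by omega)), if_neg (o 2 (by omega) (by omega))]
    exact tr _ _ (e' ▸ nb)
  · rw [if_pos e, if_neg (o 0 (by omega) (by omega)), if_neg (o 2 (by omega) (by omega))]
    exact (tr _ _ (e' ▸ nb.sw1)).sw1
  · rw [if_pos e, if_neg (o 0 (by omega) (by omega)), if_neg (o 1 (by omega) (by omega))]
    exact (tr _ _ (e' ▸ nb.sw2.sw1)).sw1.sw2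

theorem rS2_sound (cx : Ctx db N1 nf f G X) (hs : rS2 db nf kd n R B ≠ 0)
    (sm : Sem kd G X h p n R w) : Goal N1 kd G X h p := by
  classical
  obtain ⟨hn, ph, nu, Y, W, H, a, b, E, sd, s⟩ := sm
  unfold rS2 at hs
  simp only [fz_eq] at hs
  generalize fld B 0 64 = u at hs
  generalize fld B 6 64 = x at hs
  generalize fld B 12 64 = y at hs
  generalize fld B 18 64 = v at hs
  generalize fld B 24 64 = t at hs
  generalize fld B 30 1048576 = g at hs
  generalize shr B 50 = M at hs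
  obtain ⟨h1, -⟩ := cond_ne hs
  simp only [Bool.and_eq_true, Bool.or_eq_true, lt_iff, Nat.beq_eq, ne_iff, hasStub_iff,
    noOpen_iff, Bool.not_eq_true'] at h1
  obtain ⟨⟨⟨⟨⟨⟨⟨⟨⟨⟨⟨⟨⟨⟨⟨⟨⟨⟨⟨hu, hx⟩, hy⟩, hv⟩, uv⟩, uy⟩, xv⟩, l1⟩, l2⟩, k1, hk1, s1⟩, l3⟩, l4⟩,
    k2, hk2, s2⟩, l5⟩, l6⟩, no⟩, nl⟩, hg⟩, hk⟩, he⟩ := h1
  have o1 := E.stub x hx k1 hk1 s1
  have o2 := E.stub y hy k2 hk2 s2
  have T : Thr G X (ph u) (ph x) (ph y) (ph v) (nu x k1) (nu y k2) := by
    refine ⟨E.mem u hu, E.mem x hx, E.mem y hy, E.mem v hv, o1, o2,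
      (E.nb x hx).of_adj (E.adj_lists hx l1) (E.adj_lists hx l2) (E.adj hx hk1)
        (fun e => uy (E.inj _ hu _ hy e)) (fun e => o1 (e ▸ E.mem u hu)) (fun e => o1 (e ▸ E.mem y hy)),
      (E.nb y hy).of_adj (E.adj_lists hy l3) (E.adj_lists hy l4) (E.adj hy hk2)
        (fun e => xv (E.inj _ hx _ hv e)) (fun e => o2 (e ▸ E.mem x hx)) (fun e => o2 (e ▸ E.mem v hv)),
      fun e => uv (E.inj _ hu _ hv e), fun e => ?_⟩
    obtain ⟨k, hk, e'⟩ := E.slot hu e
    have c0 := no k hk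
    by_cases c1 : sl R u k = 1
    · exact E.stub u hu k hk c1 (e' ▸ E.mem v hv)
    · obtain ⟨r1, r2⟩ := E.edge u hu k hk (sl R u k - 2) (by omega)
      have := E.inj _ r1 _ hv (r2.symm.trans e')
      rw [← Bool.not_eq_true, lists_iff] at nl
      exact nl ⟨k, hk, by omega⟩
  have al : ∀ j, (lt j n && ne j x && ne j y) = true → j < n ∧ j ≠ x ∧ j ≠ y := fun j hj => by
    simpa [and_assoc] using hj
  have c2 : ∀ i k, cls2 R u x y v i k = if i = u ∧ sl R i k = x + 2 then v + 2 else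
      if i = v ∧ sl R i k = y + 2 then u + 2 else sl R i k := fun i k => by
    simp [cls2, Bool.cond_eq_ite]
  obtain ⟨A', E'⟩ := embChk_sound (G := rew G (ph u) (ph x) (ph y) (ph v)) (ph := ph)
    (nu := fun i k => if i = u ∧ sl R i k = x + 2 then ph v else
      if i = v ∧ sl R i k = y + 2 then ph u else nu i k)
    (Z := (X.erase (ph x)).erase (ph y)) he
    (fun i hi => mem_ee.2 ⟨fun e => (al i hi).2.2 (E.inj _ (al i hi).1 _ hy e),
      fun e => (al i hi).2.1 (E.inj _ (al i hi).1 _ hx e), E.mem i (al i hi).1⟩)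
    (fun i j hi hj => E.inj i (al i hi).1 j (al j hj).1)
    (fun i hi => by
      obtain ⟨r1, r2, r3⟩ := al i hi
      by_cases e : i = u
      · subst e
        simpa [uv] using nb_replace E hu l5 (fun _ _ r => T.nb_u r)
      by_cases e' : i = v
      · subst e'
        simpa [e] using nb_replace E hv l6 (fun _ _ r => T.nb_w r)
      simp only [e, e', false_and, if_false]
      exact (T.nb_other (E.mem i r1) (fun r => e (E.inj _ r1 _ hu r)) (fun r => r2 (E.inj _ r1 _ hx r))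
        (fun r => r3 (E.inj _ r1 _ hy r)) (fun r => e' (E.inj _ r1 _ hv r))).2 (E.nb i r1))
    (fun i hi k hk e => by
      rw [c2] at e
      split_ifs at e ⊢ with a1 a2
      · omega
      · omega
      · exact fun m => E.stub i (al i hi).1 k hk e (mem_ee.1 m).2.2)
    (fun i hi k hk z e => by
      rw [c2] at e
      split_ifs at e ⊢ with a1 a2
      · rw [show v = z by omega]
      · rw [show u = z by omega]
      · exact (E.edge i (al i hi).1 k hk z e).2)
  have := cx.small _ _ T.card_lt (T.cub cx.cub) (T.twoEC cx.two) g hg h p _ _ E'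
  rcases hk with hk | ⟨⟨⟨⟨⟨⟨⟨⟨hk, kd2⟩, m0⟩, e0⟩, ht⟩, t0⟩, tx⟩, ty⟩, k3, hk3, s3⟩
  · rw [hk] at this
    exact Or.inl (T.col cx.cub (by simp) (by simp) (this ⟨fun r => by omega, fun r => by omega⟩).zero)
  · rw [hk] at this
    obtain ⟨n0, p0, P⟩ := sd.2 kd2
    obtain ⟨-, r2, r3⟩ := al _ (A' 0 e0)
    rw [m0] at r2 r3
    obtain ⟨q1, q2, q3⟩ := T.port P (fun e => r2 (E.inj _ n0 _ hx (p0.trans e)))
      (fun e => r3 (E.inj _ n0 _ hy (p0.trans e)))
    rcases this ⟨fun r => by omega, fun _ => ⟨e0, by simpa [m0] using p0, q3⟩⟩ with g | g | g | g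
    · exact Or.inl (T.col cx.cub (by simp) (by simp) g)
    · omega
    · rcases g.2 with g | g
      · exact Or.inr (Or.inr (Or.inl ⟨kd2, Or.inl (T.col cx.cub q1 q2 g)⟩))
      · exfalso
        have o3 := E.stub t ht k3 hk3 s3
        have a1 : ph t ≠ ph x := fun e => tx (E.inj _ ht _ hx e)
        have a2 : ph t ≠ ph y := fun e => ty (E.inj _ ht _ hy e)
        have := g.1 (ph t) (mem_ee.2 ⟨a2, a1, E.mem t ht⟩) (nu t k3) (fun m => o3 (mem_ee.1 m).2.2)
          ⟨(E.adj ht hk3).ne, Or.inl ⟨E.adj ht hk3, a1, a2, fun e => o3 (e ▸ E.mem x hx),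
            fun e => o3 (e ▸ E.mem y hy)⟩⟩
        exact t0 (E.inj _ ht _ n0 (this.1.trans p0.symm))
    · omega

/-- a pattern without open half-edge is the whole of a connected `X` -/
theorem Emb.onto (E : Emb G X n (sl R) ph nu) (hc : Conn G X) (h0 : 0 < n)
    (no : ∀ i < n, ∀ k < 3, sl R i k ≠ 0) : ∀ v ∈ X, ∃ i < n, ph i = v := by
  classical
  have hm : ∀ v, v ∈ (Finset.range n).image ph ↔ ∃ i < n, ph i = v := fun v => by simp
  have sub : (Finset.range n).image ph ⊆ X := fun v hv => by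
    obtain ⟨i, hi, rfl⟩ := (hm v).1 hv
    exact E.mem i hi
  by_cases e : (Finset.range n).image ph = X
  · exact fun v hv => (hm v).1 (e ▸ hv)
  · obtain ⟨x, hx, y, hy, hy', hxy⟩ := hc _ sub ⟨_, (hm _).2 ⟨0, h0, rfl⟩⟩ e
    obtain ⟨i, hi, rfl⟩ := (hm x).1 hx
    obtain ⟨k, hk, rfl⟩ := E.slot hi hxy
    have c0 := no i hi k hk
    by_cases c1 : sl R i k = 1
    · exact absurd hy (E.stub i hi k hk c1)
    · obtain ⟨r1, r2⟩ := E.edge i hi k hk (sl R i k - 2) (by omega)
      exact absurd ((hm _).2 ⟨_, r1, r2.symm⟩) hy'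

theorem okb_iff (a x y z : ℕ) : okb a x y z = true ↔ ok4 a x y z := by
  simp only [okb, ok4, Bool.and_eq_true, Bool.or_eq_true, ne_iff, Nat.beq_eq, Bool.not_eq_true',
    ← Bool.not_eq_true]
  tauto

theorem ok4_val {a x y z : Fin 4} (h : ok4 a.val x.val y.val z.val) : ok4 a x y z := by
  simpa only [ok4, ne_eq, Fin.val_inj] using h

theorem oneStub_h (E : Emb G X n (sl R) ph nu) (o : oneStub R = true) (n0 : 0 < n)
    (P : Port G X h (ph 0)) : nu 0 0 = h := by
  simp only [oneStub, Bool.and_eq_true, Nat.beq_eq, Nat.ble_eq] at o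
  obtain ⟨k, hk, e⟩ := E.slot n0 P.2.2.1
  have : ∀ t < 3, 2 ≤ sl R 0 t → nu 0 t ≠ h := fun t ht r e => by
    obtain ⟨r1, r2⟩ := E.edge 0 n0 t ht (sl R 0 t - 2) (by omega)
    exact P.1 (e ▸ r2 ▸ E.mem _ r1)
  interval_cases k
  · exact e
  · exact absurd e (this 1 (by omega) o.1.2)
  · exact absurd e (this 2 (by omega) o.2)

theorem rCol_sound (two : TwoEC G X) (hs : rCol kd n R B ≠ 0) (sm : Sem kd G X h p n R w) :
    Goal N1 kd G X h p := by
  classical
  obtain ⟨hn, ph, nu, Y, W, H, a, b, E, sd, s⟩ := sm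
  unfold rCol at hs
  obtain ⟨h1, -⟩ := cond_ne hs
  simp only [Bool.and_eq_true, Bool.or_eq_true, lt_iff, ne_iff, allLt_iff, noOpen_iff, okb_iff] at h1
  obtain ⟨⟨n0, os⟩, al⟩ := h1
  have on := E.onto two.conn n0 (fun i hi => (al i hi).1)
  let cf : ℕ → Fin 4 := fun i => ⟨colv B i, Nat.mod_lt _ (by omega)⟩
  let c : V → Fin 4 := fun v => if e : ∃ i < n, ph i = v then cf e.choose else
    if kd = 2 ∧ v = h then cf n else 3
  have c1 : ∀ i < n, (c (ph i)).val = colv B i := fun i hi => by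
    have e : ∃ j < n, ph j = ph i := ⟨i, hi, rfl⟩
    simp only [c, dif_pos e, E.inj _ e.choose_spec.1 _ hi e.choose_spec.2, cf]
  have c2 : ∀ v, v ∉ X → c v = if kd = 2 ∧ v = h then cf n else 3 := fun v hv => by
    have e : ¬ ∃ j < n, ph j = v := fun ⟨j, hj, r⟩ => hv (r ▸ E.mem j hj)
    simp only [c, dif_neg e]
  have c3 : ∀ i < n, ∀ k < 3, ¬ (kd = 2 ∧ i = 0 ∧ k = 0) → (c (nu i k)).val = colc B (sl R i k) := by
    intro i hi k hk hne
    have c0 := (al i hi).1 k hk
    by_cases r : sl R i k = 1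
    · rw [c2 _ (E.stub i hi k hk r), if_neg, r]
      · rfl
      · rintro ⟨k2, e⟩
        obtain ⟨-, p0, P⟩ := sd.2 k2
        rw [← p0] at P
        obtain rfl : i = 0 := E.inj _ hi _ n0 (P.2.2.2 _ (E.mem i hi) (e ▸ E.adj hi hk))
        exact hne ⟨k2, rfl, E.ninj hi hk (by omega)
          (e.trans (oneStub_h E (os.resolve_left (by omega)) n0 P).symm)⟩
    · obtain ⟨r1, r2⟩ := E.edge i hi k hk (sl R i k - 2) (by omega)
      rw [r2, c1 _ r1, colc, (beq_false _ _).2 r]; rfl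
  have ok : ∀ v ∈ X, OK G c v := by
    intro v hv
    obtain ⟨i, hi, rfl⟩ := on v hv
    refine OK.of_nb (E.nb i hi) (ok4_val ?_)
    rw [c1 i hi, c3 i hi 1 (by omega) (by omega), c3 i hi 2 (by omega) (by omega)]
    have := (al i hi).2
    by_cases r : kd = 2 ∧ i = 0
    · obtain ⟨k2, rfl⟩ := r
      obtain ⟨-, p0, P⟩ := sd.2 k2
      rw [← p0] at P
      rw [oneStub_h E (os.resolve_left (by omega)) n0 P, c2 _ P.1, if_pos ⟨k2, rfl⟩]
      simpa [k2] using this
    · rw [c3 i hi 0 (by omega) (by omega)]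
      have e : (Nat.beq kd 2 && Nat.beq i 0) = false := by
        rw [← Bool.not_eq_true, Bool.and_eq_true, Nat.beq_eq, Nat.beq_eq]; exact r
      rwa [e] at this
  by_cases k2 : kd = 2
  · exact Or.inr (Or.inr (Or.inl ⟨k2, Or.inl ⟨c, fun v hv hv' => by
      rw [c2 v hv, if_neg (fun r => hv' r.2)], ok⟩⟩))
  · exact Or.inl ⟨c, fun v hv _ => by rw [c2 v hv, if_neg (fun r => k2 r.1)], ok⟩

theorem low_iff (t c : ℕ) : low t c = true ↔ ∃ y < t, c = y + 2 := by
  simp only [low, Bool.and_eq_true, Nat.ble_eq, lt_iff]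
  constructor
  · rintro ⟨a, b⟩; exact ⟨c - 2, b, by omega⟩
  · rintro ⟨y, a, rfl⟩; exact ⟨by omega, a⟩

theorem unc_sound (E : Emb G X n (sl R) ph nu) (hn : n < 62) {c : V → ℕ} (ok : ∀ v ∈ X, OK G c v) :
    ∀ fuel t m C, m ≤ t → t ≤ n → (∀ i, t ≤ i → cv C i = 0) → (∀ i < t, cv C i < m) →
      (∀ i < t, ∀ j < t, cv C i = cv C j ↔ c (ph i) = c (ph j)) → unc n R fuel t m C = false := by
  intro fuel
  induction fuel with
  | zero => intros; rfl
  | succ fuel ih =>
    intro t m C hm ht hz hl hi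
    have nb : allLt n (fun v => !brk R C t v) = true := by
      rw [allLt_iff]
      intro v hv
      have o := ok _ (E.mem v hv) _ _ _ (E.nb v hv)
      rw [Bool.not_eq_true', ← Bool.not_eq_true]
      simp only [brk, Bool.or_eq_true, Bool.and_eq_true, lt_iff, any3_iff, all3_iff, low_iff,
        Nat.beq_eq, Bool.not_eq_true', ← Bool.not_eq_true, okb_iff]
      rintro (⟨a, k, hk, ⟨y, hy, e⟩, r⟩ | ⟨a, r⟩)
      · rw [e, show Nat.sub (y + 2) 2 = y from rfl, hi v a y hy, ← (E.edge v hv k hk y e).2] at r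
        interval_cases k
        · exact o.1 r
        · exact o.2.1 r
        · exact o.2.2.1 r
      · obtain ⟨y0, b0, e0⟩ := a 0 (by omega)
        obtain ⟨y1, b1, e1⟩ := a 1 (by omega)
        obtain ⟨y2, b2, e2⟩ := a 2 (by omega)
        rw [(E.edge v hv 0 (by omega) _ e0).2, (E.edge v hv 1 (by omega) _ e1).2,
          (E.edge v hv 2 (by omega) _ e2).2] at o
        apply r
        rw [e0, e1, e2]
        show ok4 63 (cv C y0) (cv C y1) (cv C y2)
        have := hl y0 b0; have := hl y1 b1; have := hl y2 b2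
        refine ⟨by omega, by omega, by omega, ?_⟩
        rw [hi y0 b0 y1 b1, hi y1 b1 y2 b2, hi y0 b0 y2 b2]
        exact o.2.2.2
    show (bif allLt n (fun v => !brk R C t v) then _ else true) = false
    rw [nb, cond_true, ← Bool.not_eq_true, Bool.and_eq_true, lt_iff, allLt_iff]
    rintro ⟨tn, r⟩
    have cvn : ∀ a < 64, ∀ i, cv (Nat.lor C (Nat.shiftLeft a (Nat.mul 6 t))) i =
        if i = t then a else cv C i := fun a ha i => by
      unfold cv
      rw [fld_or _ _ _ _ ha (by simp only [Nat.mul_eq]; omega)]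
      by_cases e : i = t
      · have := hz t le_rfl
        unfold cv at this
        simp only [e, if_true, this, Nat.zero_or]
      · rw [if_neg e, if_neg (by simp only [Nat.mul_eq]; omega)]
    have fin : ∀ a ≤ m, (∀ j < t, a = cv C j ↔ c (ph t) = c (ph j)) → False := by
      intro a ha hj
      have := r a (by omega)
      rw [fzb_eq, fzb_eq, fzb_eq] at this
      change unc n R fuel (t + 1) _ _ = true at this
      rw [ih (t + 1) _ _ (by cases Nat.beq a m <;> simp only [cond_true, cond_false] <;> omega) (by omega)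
        (fun i h => by rw [cvn a (by omega), if_neg (by omega), hz i (by omega)])
        (fun i h => ?_) (fun i h j h' => ?_)] at this
      · simp at this
      · rw [cvn a (by omega)]
        have := hl i
        by_cases e : a = m
        · rw [e, Nat.beq_refl, cond_true]; split_ifs <;> omega
        · rw [(beq_false _ _).2 e, cond_false]; split_ifs <;> omega
      · rw [cvn a (by omega), cvn a (by omega)]
        split_ifs with e1 e2 e2
        · simp [e1, e2]
        · rw [e1]; exact hj j (by omega)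
        · rw [e2, eq_comm, eq_comm (a := c (ph i))]; exact hj i (by omega)
        · exact hi i (by omega) j (by omega)
    by_cases e : ∃ j < t, c (ph t) = c (ph j)
    · obtain ⟨j, hj, e⟩ := e
      exact fin (cv C j) (hl j hj).le (fun j' hj' => by rw [hi j hj j' hj', e])
    · exact fin m le_rfl (fun j hj => ⟨fun r => by have := hl j hj; omega, fun r => absurd ⟨j, hj, r⟩ e⟩)

theorem rUnc_sound (two : TwoEC G X) (hs : rUnc kd n R B ≠ 0) (sm : Sem kd G X h p n R w) :
    Goal N1 kd G X h p := by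
  obtain ⟨hn, ph, nu, Y, W, H, a, b, E, sd, s⟩ := sm
  unfold rUnc at hs
  obtain ⟨h1, -⟩ := cond_ne hs
  simp only [Bool.and_eq_true, Bool.or_eq_true, lt_iff, allLt_iff, all3_iff, Nat.beq_eq,
    Nat.ble_eq] at h1
  obtain ⟨⟨⟨n0, n1⟩, hk⟩, u⟩ := h1
  have U : Unc G X := by
    rintro ⟨c, ok⟩
    rw [unc_sound E n1 ok _ 0 0 0 le_rfl (by omega) (fun i _ => by simp [cv, fld_eq])
      (fun i hi => by omega) (fun i hi => by omega)] at u
    simp at u
  rcases hk with hk | ⟨⟨hk, os⟩, al⟩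
  · exact Or.inr (Or.inl ⟨hk, U⟩)
  · refine Or.inr (Or.inr (Or.inl ⟨hk, Or.inr ⟨fun q hq y hy adj => ?_, U⟩⟩))
    obtain ⟨-, p0, P⟩ := sd.2 hk
    have os' := os
    simp only [oneStub, Bool.and_eq_true, Nat.beq_eq, Nat.ble_eq] at os'
    have ge : ∀ i < n, ∀ k < 3, (i = 0 ∧ k = 0) ∨ 2 ≤ sl R i k := fun i hi k hk => by
      rcases al i hi with r | r
      · subst r
        interval_cases k
        · exact Or.inl ⟨rfl, rfl⟩
        · exact Or.inr os'.1.2
        · exact Or.inr os'.2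
      · exact Or.inr (r k hk)
    obtain ⟨i, hi, rfl⟩ := E.onto two.conn n0 (fun i hi k hk => by
      rcases ge i hi k hk with ⟨rfl, rfl⟩ | r <;> omega) q hq
    obtain ⟨k, hk', rfl⟩ := E.slot hi adj
    rcases ge i hi k hk' with ⟨rfl, rfl⟩ | r
    · exact ⟨p0, oneStub_h E os n0 (p0 ▸ P)⟩
    · obtain ⟨r1, r2⟩ := E.edge i hi k hk' (sl R i k - 2) (by omega)
      exact absurd (r2 ▸ E.mem _ r1) hy

end Pool.Agent.Hom2
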