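import Pool.Agent.Lib.MP_7e4769_co.Hc.TDefs
import Pool.Agent.Lib.MP_7e4769_co.Hc.Rew

set_option autoImplicit false
set_option linter.unusedSectionVars false

namespace Pool.Agent.Hom2

variable {V : Type} [DecidableEq V] {G : SimpleGraph V} {X M : Finset V} {g : ℕ} {ph : ℕ → V}

/-- Kinds: 0 two edges, 1 an edge and a star, 2 three edges; there are `g + 4` ends. Index of the
partner of the end `i`; for the star it is 5, the index of the first port. -/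
def rpi (g i : ℕ) : ℕ := if g = 1 ∧ 2 ≤ i then 5 else if i % 2 = 0 then i + 1 else i - 1

theorem rpi_spec : ∀ g < 3, ∀ i < g + 4, rpi g i ≤ g + 4 ∧ rpi g i ≠ i ∧
    (rpi g i < g + 4 → rpi g (rpi g i) = i) ∧ (rpi g i = g + 4 ↔ g = 1 ∧ 2 ≤ i) := by
  decide

/-- `ph i` (`i < g + 4`) are the ends outside `M`, `ph (g + 4 + i)` the ports in `M` -/
structure Pk (G : SimpleGraph V) (X M : Finset V) (g : ℕ) (ph : ℕ → V) : Prop where
  g3 : g < 3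
  sub : M ⊆ X
  mo : ∀ i < g + 4, ph i ∈ X ∧ ph i ∉ M
  mx : ∀ i < g + 4, ph (g + 4 + i) ∈ M
  adj : ∀ i < g + 4, G.Adj (ph i) (ph (g + 4 + i))
  inj : ∀ i < 2 * (g + 4), ∀ j < 2 * (g + 4), ph i = ph j → i = j
  only : ∀ v ∈ M, ∀ w, w ∉ M → G.Adj v w → ∃ i < g + 4, v = ph (g + 4 + i) ∧ w = ph i
  na : ∀ i < g + 4, rpi g i < g + 4 → ¬ G.Adj (ph i) (ph (rpi g i))

/-- forget `M`, join every end to its partner -/
def repG (G : SimpleGraph V) (M : Finset V) (g : ℕ) (ph : ℕ → V) : SimpleGraph V where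
  Adj a b := a ≠ b ∧ ((G.Adj a b ∧ a ∉ M ∧ b ∉ M) ∨ (∃ i < g + 4, a = ph i ∧ b = ph (rpi g i)) ∨
    ∃ i < g + 4, b = ph i ∧ a = ph (rpi g i))
  symm := ⟨by
    rintro a b ⟨h, h1 | h1 | h1⟩
    · exact ⟨h.symm, Or.inl ⟨h1.1.symm, h1.2.2, h1.2.1⟩⟩
    · exact ⟨h.symm, Or.inr (Or.inr h1)⟩
    · exact ⟨h.symm, Or.inr (Or.inl h1)⟩⟩
  loopless := ⟨fun x h => h.1 rfl⟩

def repX (X M : Finset V) (g : ℕ) (ph : ℕ → V) : Finset V :=
  if g = 1 then insert (ph 5) (X \ M) else X \ M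

theorem mem_repX {v : V} : v ∈ repX X M g ph ↔ (v ∈ X ∧ v ∉ M) ∨ (g = 1 ∧ v = ph 5) := by
  unfold repX
  split_ifs with h <;> simp [h, or_comm]

/-- `L` holds every edge from `A` to the rest of `X` -/
def CutIn (G : SimpleGraph V) (X A : Finset V) (L : List (V × V)) : Prop :=
  ∀ x ∈ A, ∀ y ∈ X, y ∉ A → G.Adj x y → (x, y) ∈ L

def E3L (G : SimpleGraph V) (X : Finset V) : Prop :=
  ∀ A ⊆ X, A.Nonempty → A ≠ X → ∀ L, CutIn G X A L → 3 ≤ L.length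

def C3L (G : SimpleGraph V) (X : Finset V) : Prop :=
  ∀ A ⊆ X, ∀ L, CutIn G X A L → L.length ≤ 3 → A.card ≤ 3 ∨ (X \ A).card ≤ 3

/-- the outside of `M` is coloured; the end `i` has the colour `c i` and accepts at its port every
colour outside `c i`, `e i` -/
def Out (G : SimpleGraph V) (X M : Finset V) (g : ℕ) (ph : ℕ → V) (c e : ℕ → Fin 4) : Prop :=
  ∃ d : V → Fin 4, (∀ v ∈ X, v ∉ M → (∀ i < g + 4, v ≠ ph i) → OK G d v) ∧
    ∀ i < g + 4, d (ph i) = c i ∧ ∀ y z, Nb G (ph i) (ph (g + 4 + i)) y z →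
      ∀ s, s ≠ c i → s ≠ e i → ok4 (c i) s (d y) (d z)

/-- `M` answers the state `c`, `e` -/
def TabAt (G : SimpleGraph V) (M : Finset V) (g : ℕ) (ph : ℕ → V) (c e : ℕ → Fin 4) : Prop :=
  ∃ d : V → Fin 4, (∀ i < g + 4, d (ph i) = c i ∧ d (ph (g + 4 + i)) ≠ e i) ∧ ∀ v ∈ M, OK G d v

/-- the states that a colouring of the smaller graph produces -/
def Std (g : ℕ) (c e : ℕ → Fin 4) : Prop :=
  (∀ i < g + 4, c i ≠ e i) ∧
  (∀ i < g + 4, rpi g i < g + 4 → c i ≠ c (rpi g i) ∧ e i ≠ c (rpi g i)) ∧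
  (g = 1 → ∃ t, ok4 t (c 2) (c 3) (c 4) ∧ e 2 ≠ t ∧ e 3 ≠ t ∧ e 4 ≠ t)

def atm (c e : Fin 4) : ℕ := 4 * c.val + e.val

/-- atom `i` of the state `j` of the table `zt` -/
def za (zt j i : ℕ) : ℕ := fld zt (Nat.add (Nat.mul 24 j) (Nat.mul 4 i)) 16

/-- the state is in the table up to a permutation of the colours -/
def InZ (k zt zn : ℕ) (c e : ℕ → Fin 4) : Prop :=
  ∃ f : Fin 4 → Fin 4, Function.Injective f ∧
    ∃ j < zn, ∀ i < k, atm (f (c i)) (f (e i)) = za zt j i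

/-- neighbour along the half-edge `s` -/
def nbr (R v s : ℕ) : ℕ := Nat.sub (sl R v s) 2

/-- every vertex of the pattern lists three different vertices -/
def Cub3 (n R : ℕ) : Prop :=
  0 < n ∧ ∀ v < n, (∀ s < 3, 2 ≤ sl R v s ∧ nbr R v s < n) ∧
    nbr R v 0 ≠ nbr R v 1 ∧ nbr R v 0 ≠ nbr R v 2 ∧ nbr R v 1 ≠ nbr R v 2

instance (n R : ℕ) : Decidable (Cub3 n R) := by unfold Cub3; infer_instance

/-- the gadget sits in the cubic pattern: ends `a i`, partners `b i` -/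
structure Plc (g n R : ℕ) (a b : ℕ → ℕ) : Prop where
  lt : ∀ i < g + 4, a i < n ∧ b i < n
  inj : ∀ i < g + 4, ∀ j < g + 4, a i = a j → i = j
  ed : ∀ i < g + 4, (∃ s < 3, nbr R (a i) s = b i) ∧ ∃ s < 3, nbr R (b i) s = a i
  pe : ∀ i < g + 4, rpi g i < g + 4 → b i = a (rpi g i)
  st : g = 1 → b 3 = b 2 ∧ b 4 = b 2 ∧ ∀ j < 5, a j ≠ b 2

/-- Without the gadget the pattern has a colouring with its state in `Z`, or a set `A` with a small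
cut. -/
def PE (k n R : ℕ) (Z : (ℕ → Fin 4) → (ℕ → Fin 4) → Prop) (a b : ℕ → ℕ) : Prop :=
  (∃ C e : ℕ → Fin 4, Z (fun i => C (a i)) e ∧
    (∀ v < n, (∀ i < k, v ≠ a i ∧ v ≠ b i) →
      ok4 (C v) (C (nbr R v 0)) (C (nbr R v 1)) (C (nbr R v 2))) ∧
    ∀ i < k, ∀ s < 3, ∀ s' < 3, s ≠ s' → nbr R (a i) s ≠ b i → nbr R (a i) s' ≠ b i →
      ∀ t, t ≠ C (a i) → t ≠ e i → ok4 (C (a i)) t (C (nbr R (a i) s)) (C (nbr R (a i) s'))) ∨
  ∃ A : ℕ → Prop, ∃ L : List (ℕ × ℕ), (∃ v < n, A v) ∧ (∀ i < k, A (b i) → ∃ j < k, b i = a j) ∧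
    (∀ v < n, A v → ∀ s < 3,
      (A (nbr R v s) ∧ ∀ i < k, v = a i → nbr R v s ≠ b i) ∨ (v, nbr R v s) ∈ L) ∧
    (L.length ≤ 2 ∨ (L.length ≤ 3 ∧
      ∃ p q r s, p < q ∧ q < r ∧ r < s ∧ s < n ∧ A p ∧ A q ∧ A r ∧ A s))

/-- list as a function -/
def fn (l : List ℕ) (i : ℕ) : ℕ := l.getD i 0

/-- template: vertices below `g + 4` are ends, the next `g + 4` are ports (half-edge 0 to the end) -/
def WfT (g n R : ℕ) : Prop :=
  g < 3 ∧ 2 * (g + 4) ≤ n ∧ ∀ v < n, g + 4 ≤ v → (∀ s < 3, nbr R v s < n) ∧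
    nbr R v 0 ≠ nbr R v 1 ∧ nbr R v 0 ≠ nbr R v 2 ∧ nbr R v 1 ≠ nbr R v 2 ∧
    g + 4 ≤ nbr R v 1 ∧ g + 4 ≤ nbr R v 2 ∧
    (if v < 2 * (g + 4) then nbr R v 0 + (g + 4) = v else g + 4 ≤ nbr R v 0)

instance (g n R : ℕ) : Decidable (WfT g n R) := by unfold WfT; infer_instance

/-- a colouring `C` of the template answers the state -/
def Ans (g n R : ℕ) (c e : ℕ → Fin 4) : Prop :=
  ∃ C : ℕ → Fin 4,
    (∀ v < n, 2 * (g + 4) ≤ v → ok4 (C v) (C (nbr R v 0)) (C (nbr R v 1)) (C (nbr R v 2))) ∧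
    ∀ i < g + 4, ok4 (C (g + 4 + i)) (c i) (C (nbr R (g + 4 + i) 1)) (C (nbr R (g + 4 + i) 2)) ∧
      C (g + 4 + i) ≠ e i

/-- embedding of a template -/
structure TE (G : SimpleGraph V) (X : Finset V) (g n R : ℕ) (ph : ℕ → V) : Prop where
  mem : ∀ i < n, ph i ∈ X
  inj : ∀ i < n, ∀ j < n, ph i = ph j → i = j
  adj : ∀ v < n, g + 4 ≤ v → ∀ s < 3, G.Adj (ph v) (ph (nbr R v s))
  na : ∀ i < g + 4, rpi g i < g + 4 → ¬ G.Adj (ph i) (ph (rpi g i))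

/-- the part that is replaced -/
def tM (g n : ℕ) (ph : ℕ → V) : Finset V := ((Finset.range n).filter (fun v => g + 4 ≤ v)).image ph

end Pool.Agent.Hom2
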