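import Pool.Agent.Lib.MP_7e4769_co.Hc.Rp0

set_option autoImplicit false
set_option linter.unusedSectionVars false

namespace Pool.Agent.Hom2

variable {V : Type} [DecidableEq V] {G : SimpleGraph V} {X M : Finset V} {g : ℕ} {ph : ℕ → V}

/-- an end has one neighbour in `M` -/
theorem Pk.end_nb (h : Pk G X M g ph) {i : ℕ} (hi : i < g + 4) {y : V} (hy : y ∈ M)
    (a : G.Adj (ph i) y) : y = ph (g + 4 + i) := by
  obtain ⟨j, hj, e1, e2⟩ := h.only y hy _ (h.mo i hi).2 a.symm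
  rw [e1, h.inj i (by omega) j (by omega) e2]

theorem Pk.other_nb (h : Pk G X M g ph) {v y : V} (hv : v ∉ M) (he : ∀ i < g + 4, v ≠ ph i)
    (a : G.Adj v y) : y ∉ M := fun hy => by
  obtain ⟨j, hj, -, e2⟩ := h.only y hy v hv a.symm
  exact he j hj e2

/-- the partner is an end or the port `ph 5` (`rpi_spec`) -/
theorem Pk.part_mem (h : Pk G X M g ph) {i : ℕ} (hi : i < g + 4) :
    ph (rpi g i) ∈ repX X M g ph ∧ ph (rpi g i) ≠ ph i := by
  obtain ⟨h1, h2, -, h4⟩ := rpi_spec g h.g3 i hi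
  refine ⟨mem_repX.2 ?_, fun e => h2 (h.inj _ (by omega) _ (by omega) e)⟩
  rcases h1.lt_or_eq with h1 | h1
  · exact Or.inl (h.mo _ h1)
  · exact Or.inr ⟨(h4.1 h1).1, by rw [h1, (h4.1 h1).1]⟩

theorem Pk.adj_other (h : Pk G X M g ph) {v : V} (hv : v ∉ M) (he : ∀ i < g + 4, v ≠ ph i)
    (w : V) : (repG G M g ph).Adj v w ↔ G.Adj v w := by
  refine ⟨?_, fun a => ⟨a.ne, Or.inl ⟨a, hv, h.other_nb hv he a⟩⟩⟩
  rintro ⟨-, a | ⟨i, hi, e, -⟩ | ⟨i, hi, -, e⟩⟩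
  · exact a.1
  · exact absurd e (he i hi)
  · rcases (rpi_spec g h.g3 i hi).1.lt_or_eq with h1 | h1
    · exact absurd e (he _ h1)
    · exact absurd (by rw [e, h1]; exact h.mx 0 (by omega)) hv

theorem Pk.adj_end (h : Pk G X M g ph) {i : ℕ} (hi : i < g + 4) (w : V) :
    (repG G M g ph).Adj (ph i) w ↔ (G.Adj (ph i) w ∧ w ∉ M) ∨ w = ph (rpi g i) := by
  constructor
  · rintro ⟨-, a | ⟨j, hj, e, e'⟩ | ⟨j, hj, e', e⟩⟩
    · exact Or.inl ⟨a.1, a.2.2⟩
    · exact Or.inr (by rw [e', h.inj i (by omega) j (by omega) e])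
    · obtain ⟨h1, -, h3, -⟩ := rpi_spec g h.g3 j hj
      have e2 := h.inj i (by omega) _ (by omega) e
      exact Or.inr (by rw [e', e2, h3 (e2 ▸ hi)])
  · rintro (a | rfl)
    · exact ⟨a.1.ne, Or.inl ⟨a.1, (h.mo i hi).2, a.2⟩⟩
    · exact ⟨(h.part_mem hi).2.symm, Or.inr (Or.inl ⟨i, hi, rfl, rfl⟩)⟩

theorem Pk.nb_end (h : Pk G X M g ph) {i : ℕ} (hi : i < g + 4) {y z : V}
    (hn : Nb G (ph i) (ph (g + 4 + i)) y z) :
    y ∉ M ∧ z ∉ M ∧ Nb (repG G M g ph) (ph i) (ph (rpi g i)) y z := by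
  have hy : y ∉ M := fun e => hn.1 (h.end_nb hi e hn.adj2).symm
  have hz : z ∉ M := fun e => hn.2.1 (h.end_nb hi e hn.adj3).symm
  have hp : ∀ w, w ∉ M → G.Adj (ph i) w → ph (rpi g i) ≠ w := fun w hw a e => by
    rcases (rpi_spec g h.g3 i hi).1.lt_or_eq with h1 | h1
    · exact h.na i hi h1 (e ▸ a)
    · exact hw (by rw [← e, h1]; exact h.mx 0 (by omega))
  refine ⟨hy, hz, hp y hy hn.adj2, hp z hz hn.adj3, hn.2.2.1, fun w => ?_⟩
  rw [h.adj_end hi]
  constructor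
  · rintro (a | e)
    · exact Or.inr ((hn.cases a.1).resolve_left fun e => a.2 (e ▸ h.mx i hi))
    · exact Or.inl e
  · rintro (e | rfl | rfl)
    exacts [Or.inr e, Or.inl ⟨hn.adj2, hy⟩, Or.inl ⟨hn.adj3, hz⟩]

theorem Pk.nb_star (h : Pk G X M 1 ph) : Nb (repG G M 1 ph) (ph 5) (ph 2) (ph 3) (ph 4) := by
  have hi : ∀ i < 10, ∀ j < 10, ph i = ph j → i = j := h.inj
  refine ⟨fun e => absurd (hi 2 (by omega) 3 (by omega) e) (by omega),
    fun e => absurd (hi 2 (by omega) 4 (by omega) e) (by omega),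
    fun e => absurd (hi 3 (by omega) 4 (by omega) e) (by omega), fun w => ⟨?_, ?_⟩⟩
  · rintro ⟨-, a | ⟨j, hj, e, -⟩ | ⟨j, hj, e', e⟩⟩
    · exact absurd (h.mx 0 (by omega)) a.2.1
    · exact absurd (hi 5 (by omega) j (by omega) e) (by omega)
    · obtain ⟨h1, -, -, h4⟩ := rpi_spec 1 h.g3 j hj
      have h5 := (h4.1 (hi 5 (by omega) _ (by omega) e).symm).2
      obtain rfl | rfl | rfl : j = 2 ∨ j = 3 ∨ j = 4 := by omega
      exacts [Or.inl e', Or.inr (Or.inl e'), Or.inr (Or.inr e')]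
  · rintro (rfl | rfl | rfl)
    exacts [((h.adj_end (i := 2) (by omega) _).2 (Or.inr rfl)).symm,
      ((h.adj_end (i := 3) (by omega) _).2 (Or.inr rfl)).symm,
      ((h.adj_end (i := 4) (by omega) _).2 (Or.inr rfl)).symm]

theorem Pk.cub (h : Pk G X M g ph) (hc : Cub G X) : Cub (repG G M g ph) (repX X M g ph) := by
  intro v hv
  rcases mem_repX.1 hv with ⟨hX, hM⟩ | ⟨rfl, rfl⟩
  · by_cases he : ∃ i < g + 4, v = ph i
    · obtain ⟨i, hi, rfl⟩ := he
      obtain ⟨y, z, hn⟩ := hc.first hX (h.adj i hi)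
      exact ⟨_, y, z, (h.nb_end hi hn).2.2⟩
    · obtain ⟨x, y, z, h1, h2, h3, h4⟩ := hc v hX
      exact ⟨x, y, z, h1, h2, h3, fun w =>
        (h.adj_other hM (fun i hi e => he ⟨i, hi, e⟩) w).trans (h4 w)⟩
  · exact ⟨_, _, _, h.nb_star⟩

theorem Pk.closed (h : Pk G X M g ph) (hcl : Closed G X) :
    Closed (repG G M g ph) (repX X M g ph) := by
  rintro x hx y ⟨-, a | ⟨i, hi, -, rfl⟩ | ⟨i, hi, rfl, -⟩⟩
  · rcases mem_repX.1 hx with hx | ⟨rfl, rfl⟩
    · exact mem_repX.2 (Or.inl ⟨hcl x hx.1 y a.1, a.2.2⟩)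
    · exact absurd (h.mx 0 (by omega)) a.2.1
  · exact (h.part_mem hi).1
  · exact mem_repX.2 (Or.inl (h.mo i hi))

/-- the four ports `ph (g + 4 + i)`, `i < 4` -/
theorem Pk.four (h : Pk G X M g ph) : 4 ≤ M.card := by
  have := Finset.card_le_card_of_injOn (s := Finset.range 4) (t := M) (fun i => ph (g + 4 + i))
    (fun i hi => h.mx i (by have := Finset.mem_range.1 hi; omega)) fun i hi j hj e => by
      have h1 := Finset.mem_range.1 hi
      have h2 := Finset.mem_range.1 hj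
      have := h.inj _ (by omega) _ (by omega) e
      omega
  simpa using this

/-- a subset of `X` without `ph (g + 4 + 1)` -/
theorem Pk.card_lt (h : Pk G X M g ph) : (repX X M g ph).card < X.card := by
  refine Finset.card_lt_card ⟨fun v hv => ?_, fun hs => ?_⟩
  · rcases mem_repX.1 hv with hv | ⟨rfl, rfl⟩
    exacts [hv.1, h.sub (h.mx 0 (by omega))]
  · rcases mem_repX.1 (hs (h.sub (h.mx 1 (by omega)))) with hv | ⟨rfl, e⟩
    · exact hv.2 (h.mx 1 (by omega))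
    · exact absurd (h.inj _ (by omega) _ (by omega) e) (by omega)

end Pool.Agent.Hom2
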