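import Pool.Agent.Lib.MP_7e4769_co.Hc.Rp1

set_option autoImplicit false
set_option linter.unusedSectionVars false

namespace Pool.Agent.Hom2

variable {V : Type} [DecidableEq V] {G : SimpleGraph V} {X M : Finset V} {g : ℕ} {ph : ℕ → V}

/-- `A ≠ X` and `X \ A` has at least four vertices, because `M` does -/
theorem Pk.small (h : Pk G X M g ph) (h3 : E3L G X) (h4 : C3L G X) {A : Finset V}
    (hA : ∀ v ∈ A, v ∈ X ∧ v ∉ M) (hne : A.Nonempty) {L : List (V × V)} (hL : CutIn G X A L) :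
    3 ≤ L.length ∧ (L.length ≤ 3 → A.card ≤ 3) := by
  have hs : A ⊆ X := fun v hv => (hA v hv).1
  have hM : M ⊆ X \ A := fun v hv => Finset.mem_sdiff.2 ⟨h.sub hv, fun e => (hA v e).2 hv⟩
  have h1 := Finset.card_le_card hM
  have h2 := h.four
  refine ⟨h3 A hs hne (fun e => ?_) L hL, fun hl => (h4 A hs L hL hl).resolve_right (by omega)⟩
  rw [e, Finset.sdiff_self, Finset.card_empty] at h1
  omega

theorem rp2a_two (hc : Cub G X) {A : Finset V} (hA : A ⊆ X) (h3 : A.card ≤ 3) {u w : V}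
    (hu : u ∈ A) (hw : w ∈ A) (hne : u ≠ w) (na : ¬ G.Adj u w) :
    ∃ x y, x ≠ y ∧ G.Adj u x ∧ G.Adj u y ∧ x ∉ A ∧ y ∉ A := by
  have key : ∀ x y, x ≠ y → G.Adj u x → G.Adj u y → x ∈ A → y ∉ A := fun x y e ax ay hx hy => by
    have h1 : [u, w, x, y].Nodup := by
      have e1 : w ≠ x := fun e' => na (e' ▸ ax)
      have e2 : w ≠ y := fun e' => na (e' ▸ ay)
      simp [hne, ax.ne, ay.ne, e1, e2, e]
    have h2 : [u, w, x, y].toFinset ⊆ A := by
      intro v hv
      simp only [List.mem_toFinset, List.mem_cons, List.not_mem_nil, or_false] at hv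
      rcases hv with rfl | rfl | rfl | rfl <;> assumption
    have h4 := Finset.card_le_card h2
    rw [List.toFinset_card_of_nodup h1] at h4
    exact absurd (h4.trans h3) (by simp)
  obtain ⟨x, y, z, hn⟩ := hc u (hA hu)
  by_cases hx : x ∈ A
  · exact ⟨y, z, hn.2.2.1, hn.adj2, hn.adj3, key x y hn.1 hn.adj1 hn.adj2 hx,
      key x z hn.2.1 hn.adj1 hn.adj3 hx⟩
  by_cases hy : y ∈ A
  · exact ⟨x, z, hn.2.1, hn.adj1, hn.adj3, hx, key y z hn.2.2.1 hn.adj2 hn.adj3 hy⟩
  · exact ⟨x, y, hn.1, hn.adj1, hn.adj2, hx, hy⟩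

/-- If `A` has at most three vertices and holds two non adjacent ones, each of them has at most one
neighbour in `A`, so two edges leave `A` at each: four different pairs in `L`. -/
theorem cut_four (hc : Cub G X) (hcl : Closed G X) {A : Finset V} (hA : A ⊆ X) (h3 : A.card ≤ 3)
    {u w : V} (hu : u ∈ A) (hw : w ∈ A) (hne : u ≠ w) (na : ¬ G.Adj u w) {L : List (V × V)}
    (hL : CutIn G X A L) : 4 ≤ L.length := by
  obtain ⟨x, y, e, ax, ay, hx, hy⟩ := rp2a_two hc hA h3 hu hw hne na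
  obtain ⟨x', y', e', ax', ay', hx', hy'⟩ := rp2a_two hc hA h3 hw hu hne.symm fun a => na a.symm
  have h1 : [(u, x), (u, y), (w, x'), (w, y')].Nodup := by simp [e, e', hne]
  refine (List.subperm_of_subset h1 fun p hp => ?_).length_le
  simp only [List.mem_cons, List.not_mem_nil, or_false] at hp
  rcases hp with rfl | rfl | rfl | rfl
  · exact hL _ hu _ (hcl _ (hA hu) _ ax) hx ax
  · exact hL _ hu _ (hcl _ (hA hu) _ ay) hy ay
  · exact hL _ hw _ (hcl _ (hA hw) _ ax') hx' ax'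
  · exact hL _ hw _ (hcl _ (hA hw) _ ay') hy' ay'

/-- The edges of `G` that leave a set `A` outside `M`: port edges at the ends in `A` (listed in
`S`), and the one edge `a b` of the new graph, unless that is a gadget edge. -/
theorem Pk.cutIn (h : Pk G X M g ph) {A : Finset V} (hA : ∀ v ∈ A, v ∈ X ∧ v ∉ M) {a b : V}
    (ho : Only (repG G M g ph) (repX X M g ph) A a b) (S : List ℕ)
    (hS : ∀ i < g + 4, ph i ∈ A → i ∈ S) :
    CutIn G X A ((a, b) :: S.map fun i => (ph i, ph (g + 4 + i))) ∧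
    ((∃ i < g + 4, ph i ∈ A ∧ ph (rpi g i) ∉ A) →
      CutIn G X A (S.map fun i => (ph i, ph (g + 4 + i)))) := by
  have k1 : ∀ x ∈ A, ∀ y ∈ M, G.Adj x y →
      (x, y) ∈ S.map fun i => (ph i, ph (g + 4 + i)) := fun x hx y hy a => by
    obtain ⟨i, hi, rfl, rfl⟩ := h.only y hy x (hA x hx).2 a.symm
    exact List.mem_map.2 ⟨i, hS i hi hx, rfl⟩
  have k2 : ∀ x ∈ A, ∀ y ∈ X, y ∉ A → y ∉ M → G.Adj x y → x = a ∧ y = b :=
    fun x hx y hy hy' hm e => ho x hx y (mem_repX.2 (Or.inl ⟨hy, hm⟩)) hy'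
      ⟨e.ne, Or.inl ⟨e, (hA x hx).2, hm⟩⟩
  refine ⟨fun x hx y hy hy' e => ?_, fun ⟨i, hi, h1, h2⟩ x hx y hy hy' e => ?_⟩
  · by_cases hm : y ∈ M
    · exact List.mem_cons_of_mem _ (k1 x hx y hm e)
    · obtain ⟨rfl, rfl⟩ := k2 x hx y hy hy' hm e
      exact List.mem_cons_self
  · by_cases hm : y ∈ M
    · exact k1 x hx y hm e
    · obtain ⟨rfl, rfl⟩ := k2 x hx y hy hy' hm e
      obtain ⟨e1, e2⟩ := ho _ h1 _ (h.part_mem hi).1 h2 ((h.adj_end hi _).2 (Or.inr rfl))
      rcases (rpi_spec g h.g3 i hi).1.lt_or_eq with h5 | h5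
      · exact (h.na i hi h5 (e1 ▸ e2 ▸ e)).elim
      · exact (hm (e2 ▸ h5 ▸ h.mx 0 (by omega))).elim

/-- the ends whose bit is set in the mask `P` -/
def rpS (g P : ℕ) : List ℕ := (List.range (g + 4)).filter (P.testBit ·)

/-- an end in the mask with its partner outside -/
def rpX (g P i : ℕ) : Prop := P.testBit i = true ∧ P.testBit (rpi g i) = false

/-- an end in the mask with its partner, another end, inside -/
def rpY (g P i : ℕ) : Prop := rpi g i < g + 4 ∧ P.testBit i = true ∧ P.testBit (rpi g i) = true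

instance (g P i : ℕ) : Decidable (rpX g P i) := by unfold rpX; infer_instance
instance (g P i : ℕ) : Decidable (rpY g P i) := by unfold rpY; infer_instance

set_option synthInstance.maxSize 2048 in
/-- The finite core. Bit `i` of `P` says that `ph i` lies in `A` (`P < 2 ^ (g + 4)`, so for the star
the bit 5 is off); at most one end in `A` has its partner outside; without a star at most half of
the ends are in `A`. A mask for a decidable set of indices: `Nat.ofBits`, or
`Finset.equivBitIndices`, or a sum of six `if`s. -/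
theorem rpi_core : ∀ g < 3, ∀ P < 2 ^ (g + 4),
    (∀ i < g + 4, ∀ j < g + 4, rpX g P i → rpX g P j → i = j) →
    (g ≠ 1 → 2 * (rpS g P).length ≤ g + 4) →
    (rpS g P).length = 0 ∨ ((∃ i < g + 4, rpX g P i) ∧ (rpS g P).length ≤ 2) ∨
      ((∃ i < g + 4, rpY g P i) ∧ (rpS g P).length ≤ 2) ∨
      ((∃ i < g + 4, rpX g P i) ∧ (∃ i < g + 4, rpY g P i) ∧ (rpS g P).length ≤ 3) := by
  decide +kernel

theorem rp2b_core (h : Pk G X M g ph) (hc : Cub G X) (hcl : Closed G X) (h3 : E3L G X)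
    (h4 : C3L G X) {A : Finset V} (hA : A ⊆ repX X M g ph) (hne : A.Nonempty) {a b : V}
    (ho : Only (repG G M g ph) (repX X M g ph) A a b) (h5 : g = 1 → ph 5 ∉ A)
    (hh : g ≠ 1 → 2 * ((List.range (g + 4)).filter fun i => decide (ph i ∈ A)).length ≤ g + 4) :
    False := by
  obtain ⟨P, hP, hb⟩ : ∃ P < 2 ^ (g + 4), ∀ j, P.testBit j = true ↔ j < g + 4 ∧ ph j ∈ A := by
    refine ⟨Nat.ofBits fun i : Fin (g + 4) => decide (ph i ∈ A), Nat.ofBits_lt_two_pow _,
      fun j => ?_⟩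
    by_cases hj : j < g + 4
    · rw [Nat.testBit_ofBits_lt _ _ hj]
      simp [hj]
    · rw [Nat.testBit_ofBits_ge _ _ (not_lt.1 hj)]
      simp [hj]
  have hA' : ∀ v ∈ A, v ∈ X ∧ v ∉ M := fun v hv => by
    rcases mem_repX.1 (hA hv) with h1 | h1
    · exact h1
    · exact absurd (h1.2 ▸ hv) (h5 h1.1)
  have hX : ∀ i < g + 4, rpX g P i → ph i ∈ A ∧ ph (rpi g i) ∉ A := fun i hi hx => by
    refine ⟨((hb i).1 hx.1).2, fun h1 => ?_⟩
    obtain ⟨h2, -, -, h6⟩ := rpi_spec g h.g3 i hi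
    rcases h2.lt_or_eq with h7 | h7
    · have := (hb _).2 ⟨h7, h1⟩
      rw [hx.2] at this
      exact Bool.false_ne_true this
    · have h8 := (h6.1 h7).1
      rw [h7, h8] at h1
      exact h5 h8 h1
  have hS : ∀ i < g + 4, ph i ∈ A → i ∈ rpS g P := fun i hi h1 =>
    List.mem_filter.2 ⟨List.mem_range.2 hi, (hb i).2 ⟨hi, h1⟩⟩
  obtain ⟨c1, c2⟩ := h.cutIn hA' ho _ hS
  have hY : (∃ i < g + 4, rpY g P i) → ∀ L, CutIn G X A L → 4 ≤ L.length := by
    rintro ⟨i, hi, h1, h2, h6⟩ L hL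
    by_contra h7
    exact h7 (cut_four hc hcl (fun v hv => (hA' v hv).1) ((h.small h3 h4 hA' hne hL).2 (by omega))
      ((hb _).1 h2).2 ((hb _).1 h6).2 (h.part_mem hi).2.symm (h.na i hi h1) hL)
  have hX' : (∃ i < g + 4, rpX g P i) →
      CutIn G X A ((rpS g P).map fun i => (ph i, ph (g + 4 + i))) := by
    rintro ⟨i, hi, h1⟩
    exact c2 ⟨i, hi, hX i hi h1⟩
  have he : ∀ i < g + 4, rpX g P i → ph i = a := fun i hi hx =>
    (ho _ (hX i hi hx).1 _ (h.part_mem hi).1 (hX i hi hx).2 ((h.adj_end hi _).2 (Or.inr rfl))).1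
  have hl : rpS g P = (List.range (g + 4)).filter fun i => decide (ph i ∈ A) :=
    List.filter_congr fun i hi => by
      rw [Bool.eq_iff_iff, hb, decide_eq_true_iff]
      exact and_iff_right (List.mem_range.1 hi)
  rcases rpi_core g h.g3 P hP (fun i hi j hj hx hy => h.inj i (by omega) j (by omega)
    ((he i hi hx).trans (he j hj hy).symm)) (hl ▸ hh) with h1 | ⟨h1, h2⟩ | ⟨h1, h2⟩ | ⟨h1, h2, h6⟩
  · have := (h.small h3 h4 hA' hne c1).1
    rw [List.length_cons, List.length_map] at this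
    omega
  · have := (h.small h3 h4 hA' hne (hX' h1)).1
    rw [List.length_map] at this
    omega
  · have := hY h1 _ c1
    rw [List.length_cons, List.length_map] at this
    omega
  · have := hY h2 _ (hX' h1)
    rw [List.length_map] at this
    omega

/-- Take the side of the cut without `ph 5` (star), or with at most half of the ends
(`Only.compl`); `rpi_core`, `Pk.cutIn`, `Pk.small`, `cut_four` with `Pk.na`. -/
theorem Pk.twoEC (h : Pk G X M g ph) (hc : Cub G X) (hcl : Closed G X) (h3 : E3L G X)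
    (h4 : C3L G X) : TwoEC (repG G M g ph) (repX X M g ph) := by
  have hm : ∀ i < g + 4, ph i ∈ repX X M g ph := fun i hi => mem_repX.2 (Or.inl (h.mo i hi))
  refine ⟨⟨ph 0, hm 0 (by omega), ph 1, hm 1 (by omega), fun e => ?_⟩, fun A hA hne hAX a b ho => ?_⟩
  · exact absurd (h.inj 0 (by omega) 1 (by omega) e) (by omega)
  have hB : (repX X M g ph \ A).Nonempty :=
    Finset.sdiff_nonempty.2 fun h1 => hAX (Finset.Subset.antisymm hA h1)
  have c1 := rp2b_core h hc hcl h3 h4 hA hne ho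
  have c2 := rp2b_core h hc hcl h3 h4 Finset.sdiff_subset hB (ho.compl hA)
  by_cases hg : g = 1
  · by_cases h5 : ph 5 ∈ A
    · exact c2 (fun _ h1 => (Finset.mem_sdiff.1 h1).2 h5) fun h1 => absurd hg h1
    · exact c1 (fun _ => h5) fun h1 => absurd hg h1
  have h1 := List.length_eq_length_filter_add (l := List.range (g + 4)) fun i => decide (ph i ∈ A)
  have h2 : ((List.range (g + 4)).filter fun i => decide (ph i ∈ repX X M g ph \ A)) =
      (List.range (g + 4)).filter fun i => !decide (ph i ∈ A) :=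
    List.filter_congr fun i hi => by simp [hm i (List.mem_range.1 hi)]
  rw [List.length_range, ← h2] at h1
  by_cases h6 : 2 * ((List.range (g + 4)).filter fun i => decide (ph i ∈ A)).length ≤ g + 4
  · exact c1 (fun h7 => absurd h7 hg) fun _ => h6
  · exact c2 (fun h7 => absurd h7 hg) fun _ => by omega

end Pool.Agent.Hom2
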