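import Pool.Agent.Lib.MP_7e4769_co.Hc.Rp1

set_option autoImplicit false
set_option linter.unusedSectionVars false

namespace Pool.Agent.Hom2

variable {V : Type} [DecidableEq V] {G : SimpleGraph V} {X M : Finset V} {g : ℕ} {ph : ℕ → V}

/-- colour `M` by the table, the rest of `X` by `Out`, the outside by 3 (see `Pole2.fill`) -/
theorem Pk.fill (h : Pk G X M g ph) (hc : Cub G X) (hcl : Closed G X) {c e : ℕ → Fin 4}
    (ho : Out G X M g ph c e) (ht : TabAt G M g ph c e) : Good G X := by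
  obtain ⟨o, o1, o2⟩ := ho
  obtain ⟨d, d1, d2⟩ := ht
  refine ⟨fun v => if v ∈ M then d v else if v ∈ X then o v else 3, fun v hv _ => ?_,
    fun v hv => ?_⟩
  · have : v ∉ M := fun k => hv (h.sub k)
    simp only [this, hv, if_false]
  by_cases m : v ∈ M
  · refine (d2 v m).congr (by simp only [m, if_true]) (fun x k => ?_)
    by_cases m' : x ∈ M
    · simp only [m', if_true]
    obtain ⟨i, hi, -, rfl⟩ := h.only v m x m' k
    simp only [m', (h.mo i hi).1, if_true, if_false, (o2 i hi).1, (d1 i hi).1]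
  by_cases e1 : ∃ i < g + 4, v = ph i
  · obtain ⟨i, hi, rfl⟩ := e1
    obtain ⟨y, z, hn⟩ := hc.first hv (h.adj i hi)
    obtain ⟨my, mz, -⟩ := h.nb_end hi hn
    refine OK.of_nb hn ?_
    simp only [m, hv, h.mx i hi, my, mz, hcl _ hv _ hn.adj2, hcl _ hv _ hn.adj3, if_true, if_false,
      (o2 i hi).1]
    exact (o2 i hi).2 y z hn _
      ((d1 i hi).1 ▸ (d2 _ (h.mx i hi)).ne hc (h.sub (h.mx i hi)) (h.adj i hi).symm) (d1 i hi).2
  · have he : ∀ i < g + 4, v ≠ ph i := fun i hi k => e1 ⟨i, hi, k⟩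
    refine (o1 v hv m he).congr (by simp only [m, hv, if_true, if_false]) (fun x k => ?_)
    simp only [h.other_nb m he k, hcl v hv x k, if_true, if_false]

/-- `OK.map`, `ok4_map`; an injective map of `Fin 4` is onto -/
theorem Out.map {c e : ℕ → Fin 4} (ho : Out G X M g ph c e) {f : Fin 4 → Fin 4}
    (hf : Function.Injective f) : Out G X M g ph (fun i => f (c i)) (fun i => f (e i)) := by
  obtain ⟨o, o1, o2⟩ := ho
  refine ⟨fun v => f (o v), fun v hv m he => (o1 v hv m he).map hf,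
    fun i hi => ⟨congrArg f (o2 i hi).1, fun y z hn s h1 h2 => ?_⟩⟩
  obtain ⟨t, rfl⟩ := Finite.injective_iff_surjective.1 hf s
  exact ok4_map hf ((o2 i hi).2 y z hn t (fun k => h1 (congrArg f k)) fun k => h2 (congrArg f k))

theorem Std.map {c e : ℕ → Fin 4} (h : Std g c e) {f : Fin 4 → Fin 4}
    (hf : Function.Injective f) : Std g (fun i => f (c i)) (fun i => f (e i)) := by
  refine ⟨fun i hi => hf.ne (h.1 i hi),
    fun i hi hr => ⟨hf.ne (h.2.1 i hi hr).1, hf.ne (h.2.1 i hi hr).2⟩, fun hg => ?_⟩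
  obtain ⟨t, h1, h2, h3, h4⟩ := h.2.2 hg
  exact ⟨f t, ok4_map hf h1, hf.ne h2, hf.ne h3, hf.ne h4⟩

theorem perm_norm : ∀ a b d : Fin 4, a ≠ b → a ≠ d → d ≠ b →
    ∃ f : Fin 4 → Fin 4, Function.Injective f ∧ f a = 0 ∧ f b = 1 ∧ f d = 2 := by
  intro a b d h1 h2 h3
  refine ⟨fun x => if x = a then 0 else if x = b then 1 else if x = d then 2 else 3, ?_⟩
  unfold Function.Injective
  revert a b d
  decide +kernel

/-- `ok4_state` at every end (choose `e`), `Nb.state`, `Pk.nb_end`, `Pk.nb_star`; then normalise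
with `perm_norm` (`rpi g 0 = 1`) -/
theorem Pk.std (h : Pk G X M g ph) (hc : Cub G X) (hg : Good (repG G M g ph) (repX X M g ph)) :
    ∃ c e, Out G X M g ph c e ∧ Std g c e ∧ c 0 = 0 ∧ c 1 = 1 ∧ e 0 = 2 := by
  obtain ⟨d, -, d2⟩ := hg
  have key : ∀ i, ∃ e : Fin 4, i < g + 4 → d (ph i) ≠ d (ph (rpi g i)) ∧ d (ph i) ≠ e ∧
      d (ph (rpi g i)) ≠ e ∧ ∀ y z, Nb G (ph i) (ph (g + 4 + i)) y z →
        ∀ s, s ≠ d (ph i) → s ≠ e → ok4 (d (ph i)) s (d y) (d z) := fun i => by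
    by_cases hi : i < g + 4
    · obtain ⟨y, z, hn⟩ := hc.first (h.mo i hi).1 (h.adj i hi)
      have o := d2 _ (mem_repX.2 (Or.inl (h.mo i hi))) _ _ _ (h.nb_end hi hn).2.2
      obtain ⟨e, p1, p2, p3⟩ := ok4_state _ _ _ _ o
      exact ⟨e, fun _ => ⟨o.1, p1, p2, fun _ _ k _ => hn.state p3 k⟩⟩
    · exact ⟨0, fun k => absurd k hi⟩
  choose e he using key
  have ho : Out G X M g ph (fun i => d (ph i)) e := by
    refine ⟨d, fun v hv m hv' x y z k => d2 v (mem_repX.2 (Or.inl ⟨hv, m⟩)) x y z ?_,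
      fun i hi => ⟨rfl, (he i hi).2.2.2⟩⟩
    simpa only [Nb, h.adj_other m hv'] using k
  have hs : Std g (fun i => d (ph i)) e := by
    refine ⟨fun i hi => (he i hi).2.1, fun i hi _ => ⟨(he i hi).1, (he i hi).2.2.1.symm⟩, ?_⟩
    rintro rfl
    exact ⟨d (ph 5), d2 _ (mem_repX.2 (Or.inr ⟨rfl, rfl⟩)) _ _ _ h.nb_star,
      (he 2 (by omega)).2.2.1.symm, (he 3 (by omega)).2.2.1.symm, (he 4 (by omega)).2.2.1.symm⟩
  have h0 := he 0 (by omega)
  rw [show rpi g 0 = 1 by simp [rpi]] at h0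
  obtain ⟨f, hf, f0, f1, f2⟩ := perm_norm _ _ _ h0.1 h0.2.1 h0.2.2.1.symm
  exact ⟨_, _, ho.map hf, hs.map hf, f0, f1, f2⟩

theorem rp3b_mem {n : ℕ} {v : V} : v ∈ tM g n ph ↔ ∃ u < n, g + 4 ≤ u ∧ ph u = v := by
  simp only [tM, Finset.mem_image, Finset.mem_filter, Finset.mem_range, and_assoc]

theorem rp3b_nb {n R : ℕ} (h : TE G X g n R ph) (hw : WfT g n R) (hc : Cub G X) {v : ℕ}
    (hv : v < n) (hg : g + 4 ≤ v) :
    Nb G (ph v) (ph (nbr R v 0)) (ph (nbr R v 1)) (ph (nbr R v 2)) := by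
  obtain ⟨x, y, z, hn⟩ := hc _ (h.mem v hv)
  obtain ⟨l, n1, n2, n3, -⟩ := hw.2.2 v hv hg
  have l0 := l 0 (by omega)
  have l1 := l 1 (by omega)
  have l2 := l 2 (by omega)
  exact hn.of_adj (h.adj v hv hg 0 (by omega)) (h.adj v hv hg 1 (by omega))
    (h.adj v hv hg 2 (by omega)) (fun e => n1 (h.inj _ l0 _ l1 e))
    (fun e => n2 (h.inj _ l0 _ l2 e)) fun e => n3 (h.inj _ l1 _ l2 e)

/-- `M` is the image of the vertices from `g + 4` on; `Nb.of_adj` gives the three neighbours -/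
theorem TE.pk {n R : ℕ} (h : TE G X g n R ph) (hw : WfT g n R) (hc : Cub G X) :
    Pk G X (tM g n ph) g ph := by
  have h2 := hw.2.1
  refine ⟨hw.1, fun v hv => ?_, fun i hi => ⟨h.mem i (by omega), fun hv => ?_⟩,
    fun i hi => rp3b_mem.2 ⟨_, by omega, by omega, rfl⟩, fun i hi => ?_,
    fun i hi j hj => h.inj i (by omega) j (by omega), fun v hv w hm a => ?_, h.na⟩
  · obtain ⟨u, hu, -, rfl⟩ := rp3b_mem.1 hv
    exact h.mem u hu
  · obtain ⟨u, hu, hg, e⟩ := rp3b_mem.1 hv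
    have := h.inj u hu i (by omega) e
    omega
  · have e := (hw.2.2 (g + 4 + i) (by omega) (by omega)).2.2.2.2.2.2
    rw [if_pos (by omega)] at e
    have a := h.adj (g + 4 + i) (by omega) (by omega) 0 (by omega)
    rw [show nbr R (g + 4 + i) 0 = i by omega] at a
    exact a.symm
  · obtain ⟨u, hu, hg, rfl⟩ := rp3b_mem.1 hv
    obtain ⟨l, -, -, -, g1, g2, g0⟩ := hw.2.2 u hu hg
    rcases (rp3b_nb h hw hc hu hg).cases a with rfl | rfl | rfl
    · split_ifs at g0 with e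
      · exact ⟨nbr R u 0, by omega, congrArg ph (by omega), rfl⟩
      · exact absurd (rp3b_mem.2 ⟨_, l 0 (by omega), g0, rfl⟩) hm
    · exact absurd (rp3b_mem.2 ⟨_, l 1 (by omega), g1, rfl⟩) hm
    · exact absurd (rp3b_mem.2 ⟨_, l 2 (by omega), g2, rfl⟩) hm

/-- `d (ph u) = if u < g + 4 then c u else C u` -/
theorem TE.tab {n R : ℕ} (h : TE G X g n R ph) (hw : WfT g n R) (hc : Cub G X)
    {c e : ℕ → Fin 4} (ha : Ans g n R c e) : TabAt G (tM g n ph) g ph c e := by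
  classical
  obtain ⟨C, c1, c2⟩ := ha
  have h2 := hw.2.1
  obtain ⟨d, hd⟩ : ∃ d : V → Fin 4, ∀ u < n, d (ph u) = if u < g + 4 then c u else C u := by
    refine ⟨fun x => if hx : ∃ u < n, ph u = x then
      (if hx.choose < g + 4 then c hx.choose else C hx.choose) else 0, fun u hu => ?_⟩
    have hx : ∃ w < n, ph w = ph u := ⟨u, hu, rfl⟩
    simp only [dif_pos hx, h.inj _ hx.choose_spec.1 u hu hx.choose_spec.2]
  refine ⟨d, fun i hi => ⟨by rw [hd i (by omega), if_pos hi], ?_⟩, fun v hv => ?_⟩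
  · rw [hd _ (by omega), if_neg (by omega)]
    exact (c2 i hi).2
  · obtain ⟨u, hu, hg, rfl⟩ := rp3b_mem.1 hv
    obtain ⟨l, -, -, -, g1, g2, g0⟩ := hw.2.2 u hu hg
    refine OK.of_nb (rp3b_nb h hw hc hu hg) ?_
    rw [hd u hu, hd _ (l 0 (by omega)), hd _ (l 1 (by omega)), hd _ (l 2 (by omega)),
      if_neg hg.not_gt, if_neg g1.not_gt, if_neg g2.not_gt]
    split_ifs at g0 with e
    · have := (c2 (nbr R u 0) (by omega)).1
      rw [show g + 4 + nbr R u 0 = u by omega] at this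
      rwa [if_pos (by omega)]
    · rw [if_neg g0.not_gt]
      exact c1 u hu (by omega)

end Pool.Agent.Hom2
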