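import Pool.Agent.Lib.MP_7e4769_co.Hc.Rp0

set_option autoImplicit false
set_option linter.unusedSectionVars false

namespace Pool.Agent.Hom2

/-- relabel the ends along an involution -/
theorem PE.relabel {k n R : ℕ} {Z : (ℕ → Fin 4) → (ℕ → Fin 4) → Prop} {a b a' b' σ : ℕ → ℕ}
    (h : PE k n R Z a b) (hσ : ∀ i < k, σ i < k ∧ σ (σ i) = i)
    (ha : ∀ i < k, a' i = a (σ i) ∧ b' i = b (σ i))
    (hZ : ∀ c e c' e', (∀ i < k, c' i = c (σ i) ∧ e' i = e (σ i)) → Z c e → Z c' e') :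
    PE k n R Z a' b' := by
  have hb : ∀ i < k, a i = a' (σ i) ∧ b i = b' (σ i) := fun i hi => by
    have h1 := ha (σ i) (hσ i hi).1
    rw [(hσ i hi).2] at h1
    exact ⟨h1.1.symm, h1.2.symm⟩
  rcases h with ⟨C, e, hz, h1, h2⟩ | ⟨A, L, h0, h1, h2, h3⟩
  · refine Or.inl ⟨C, fun i => e (σ i), hZ _ _ _ _ (fun i hi => ⟨?_, rfl⟩) hz,
      fun v hv hn => h1 v hv fun i hi => ?_, fun i hi => ?_⟩
    · show C (a' i) = C (a (σ i))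
      rw [(ha i hi).1]
    · rw [(hb i hi).1, (hb i hi).2]
      exact hn _ (hσ i hi).1
    · rw [(ha i hi).1, (ha i hi).2]
      exact h2 _ (hσ i hi).1
  · refine Or.inr ⟨A, L, h0, fun i hi hA => ?_, fun v hv hA s hs => ?_, h3⟩
    · rw [(ha i hi).2] at hA ⊢
      obtain ⟨j, hj, e⟩ := h1 _ (hσ i hi).1 hA
      exact ⟨σ j, (hσ j hj).1, e.trans (hb j hj).1⟩
    · rcases h2 v hv hA s hs with ⟨p, q⟩ | p
      · refine Or.inl ⟨p, fun i hi e => ?_⟩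
        rw [(ha i hi).2]
        exact q _ (hσ i hi).1 (e.trans (ha i hi).1)
      · exact Or.inr p

/-- the 24 permutations of the colours, 8 bits each -/
def s4n (p x : ℕ) : ℕ :=
  fld 0x1b4b278763931e4e36c672d22d8d39c9b1e16c9c78d8b4e4 (Nat.add (Nat.mul 8 p) (Nat.mul 2 x)) 4

/-- image of an atom -/
def s4a (p x : ℕ) : ℕ := Nat.add (Nat.mul 4 (s4n p (Nat.div x 4))) (s4n p (Nat.mod x 4))

theorem s4_spec : ∀ p < 24, ∃ f : Fin 4 → Fin 4, Function.Injective f ∧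
    ∀ c e : Fin 4, s4a p (atm c e) = atm (f c) (f e) := by
  intro p hp
  have key : ∀ p < 24, ∀ x < 4, ∀ y < 4, s4n p x = s4n p y → x = y := by decide +kernel
  refine ⟨fun c => ⟨s4n p c.val, Nat.mod_lt _ (by decide)⟩, fun x y e => ?_, fun c e => ?_⟩
  · exact Fin.ext (key p hp x.val x.2 y.val y.2 (congrArg Fin.val e))
  · have h1 : Nat.div (4 * c.val + e.val) 4 = c.val := by
      show (4 * c.val + e.val) / 4 = c.val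
      omega
    have h2 : Nat.mod (4 * c.val + e.val) 4 = e.val := by
      show (4 * c.val + e.val) % 4 = e.val
      omega
    unfold s4a atm
    rw [h1, h2]
    rfl

/-- certificate: 5 bits for the permutation and 11 bits for the image state, per state -/
def zClo (k zt zn : ℕ) (σ : ℕ → ℕ) (B : ℕ) : Bool :=
  allLt zn fun j => fzb (fld B (Nat.mul 16 j) 32) fun p =>
    fzb (fld B (Nat.add (Nat.mul 16 j) 5) 2048) fun j' =>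
      lt p 24 && lt j' zn && allLt k fun i => Nat.beq (s4a p (za zt j (σ i))) (za zt j' i)

theorem InZ.clo {k zt zn B : ℕ} {σ : ℕ → ℕ} (h : zClo k zt zn σ B = true) (hσ : ∀ i < k, σ i < k)
    (c e c' e' : ℕ → Fin 4) (hc : ∀ i < k, c' i = c (σ i) ∧ e' i = e (σ i))
    (hz : InZ k zt zn c e) : InZ k zt zn c' e' := by
  obtain ⟨f, hf, j, hj, hz⟩ := hz
  unfold zClo at h
  have h1 := (allLt_iff _ _).1 h j hj
  simp only [fzb_eq, Bool.and_eq_true, lt_iff, allLt_iff, Nat.beq_eq] at h1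
  obtain ⟨⟨hp, hj'⟩, h1⟩ := h1
  obtain ⟨f', hf', e1⟩ := s4_spec _ hp
  refine ⟨fun x => f' (f x), hf'.comp hf, _, hj', fun i hi => ?_⟩
  rw [← h1 i hi, ← hz _ (hσ i hi), e1, (hc i hi).1, (hc i hi).2]

/-- closure of `Z` under a relabelling -/
def ZC (k : ℕ) (Z : (ℕ → Fin 4) → (ℕ → Fin 4) → Prop) (l : List ℕ) : Prop :=
  ∀ c e c' e', (∀ i < k, c' i = c (fn l i) ∧ e' i = e (fn l i)) → Z c e → Z c' e'

theorem rp5a_sw1 {n R : ℕ} {Z : (ℕ → Fin 4) → (ℕ → Fin 4) → Prop} (z1 : ZC 4 Z [1, 0, 2, 3])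
    {x y z w : ℕ} (h : PE 4 n R Z (fn [x, y, z, w]) (fn [y, x, w, z])) :
    PE 4 n R Z (fn [y, x, z, w]) (fn [x, y, w, z]) := by
  refine h.relabel (σ := fn [1, 0, 2, 3]) (by decide) (fun i hi => ?_) z1
  interval_cases i <;> exact ⟨rfl, rfl⟩

theorem rp5a_sw2 {n R : ℕ} {Z : (ℕ → Fin 4) → (ℕ → Fin 4) → Prop} (z2 : ZC 4 Z [2, 3, 0, 1])
    {x y z w : ℕ} (h : PE 4 n R Z (fn [x, y, z, w]) (fn [y, x, w, z])) :
    PE 4 n R Z (fn [z, w, x, y]) (fn [w, z, y, x]) := by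
  refine h.relabel (σ := fn [2, 3, 0, 1]) (by decide) (fun i hi => ?_) z2
  interval_cases i <;> exact ⟨rfl, rfl⟩

/-- Two edges. First pass to explicit lists (`PE.relabel` with the identity), then sort. -/
theorem pe_sort0 {n R : ℕ} {Z : (ℕ → Fin 4) → (ℕ → Fin 4) → Prop} (z1 : ZC 4 Z [1, 0, 2, 3])
    (z2 : ZC 4 Z [2, 3, 0, 1])
    (hs : ∀ a0 < n, ∀ s0 < 3, ∀ a2 < n, ∀ s2 < 3, a0 < nbr R a0 s0 → a0 < a2 → a2 < nbr R a2 s2 →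
      a2 ≠ nbr R a0 s0 → nbr R a2 s2 ≠ nbr R a0 s0 →
      PE 4 n R Z (fn [a0, nbr R a0 s0, a2, nbr R a2 s2]) (fn [nbr R a0 s0, a0, nbr R a2 s2, a2]))
    {a b : ℕ → ℕ} (h : Plc 0 n R a b) : PE 4 n R Z a b := by
  have base : ∀ x y z w, x < n → z < n → (∃ s < 3, nbr R x s = y) → (∃ s < 3, nbr R z s = w) →
      x < y → z < w → x ≠ z → x ≠ w → y ≠ z → y ≠ w →
      PE 4 n R Z (fn [x, y, z, w]) (fn [y, x, w, z]) := by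
    rintro x y z w hx hz ⟨s, hs1, rfl⟩ ⟨t, ht1, rfl⟩ h1 h2 h3 h4 h5 h6
    rcases Nat.lt_or_gt_of_ne h3 with h7 | h7
    · exact hs x hx s hs1 z hz t ht1 h1 h7 h2 h5.symm h6.symm
    · exact rp5a_sw2 z2 (hs z hz t ht1 x hx s hs1 h2 h7 h1 h4 h6)
  have b0 : b 0 = a 1 := h.pe 0 (by decide) (by decide)
  have b1 : b 1 = a 0 := h.pe 1 (by decide) (by decide)
  have b2 : b 2 = a 3 := h.pe 2 (by decide) (by decide)
  have b3 : b 3 = a 2 := h.pe 3 (by decide) (by decide)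
  have hn : ∀ i < 4, ∀ j < 4, i ≠ j → a i ≠ a j := fun i hi j hj e e' => e (h.inj i hi j hj e')
  have l0 := (h.lt 0 (by decide)).1
  have l1 := (h.lt 1 (by decide)).1
  have l2 := (h.lt 2 (by decide)).1
  have l3 := (h.lt 3 (by decide)).1
  have e0 := (h.ed 0 (by decide)).1
  have e1 := (h.ed 1 (by decide)).1
  have e2 := (h.ed 2 (by decide)).1
  have e3 := (h.ed 3 (by decide)).1
  rw [b0] at e0
  rw [b1] at e1
  rw [b2] at e2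
  rw [b3] at e3
  have n01 := hn 0 (by decide) 1 (by decide) (by decide)
  have n02 := hn 0 (by decide) 2 (by decide) (by decide)
  have n03 := hn 0 (by decide) 3 (by decide) (by decide)
  have n12 := hn 1 (by decide) 2 (by decide) (by decide)
  have n13 := hn 1 (by decide) 3 (by decide) (by decide)
  have n23 := hn 2 (by decide) 3 (by decide) (by decide)
  have main : PE 4 n R Z (fn [a 0, a 1, a 2, a 3]) (fn [a 1, a 0, a 3, a 2]) := by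
    rcases Nat.lt_or_gt_of_ne n01 with p | p <;> rcases Nat.lt_or_gt_of_ne n23 with q | q
    · exact base _ _ _ _ l0 l2 e0 e2 p q n02 n03 n12 n13
    · exact rp5a_sw2 z2 (rp5a_sw1 z1 (rp5a_sw2 z2 (base _ _ _ _ l0 l3 e0 e3 p q n03 n02 n13 n12)))
    · exact rp5a_sw1 z1 (base _ _ _ _ l1 l2 e1 e2 p q n12 n13 n02 n03)
    · exact rp5a_sw2 z2 (rp5a_sw1 z1 (rp5a_sw2 z2 (rp5a_sw1 z1
        (base _ _ _ _ l1 l3 e1 e3 p q n13 n12 n03 n02))))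
  refine main.relabel (σ := fun i => i) (fun i hi => ⟨hi, rfl⟩) (fun i hi => ?_)
    (fun c e c' e' hc hz => ?_)
  · interval_cases i
    · exact ⟨rfl, b0⟩
    · exact ⟨rfl, b1⟩
    · exact ⟨rfl, b2⟩
    · exact ⟨rfl, b3⟩
  · refine z1 _ _ _ _ (fun i hi => ?_) (z1 c e (fun i => c (fn [1, 0, 2, 3] i))
      (fun i => e (fn [1, 0, 2, 3] i)) (fun i hi => ⟨rfl, rfl⟩) hz)
    rw [(hc i hi).1, (hc i hi).2]
    interval_cases i <;> exact ⟨rfl, rfl⟩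

/-- a relabelling that is an involution gives the closure under the identity -/
theorem rp5b_id {k : ℕ} {Z : (ℕ → Fin 4) → (ℕ → Fin 4) → Prop} {l : List ℕ} (z : ZC k Z l)
    (hl : ∀ i < k, fn l (fn l i) = i) (c e c' e' : ℕ → Fin 4)
    (hc : ∀ i < k, c' i = c i ∧ e' i = e i) (h : Z c e) : Z c' e' :=
  z (fun i => c (fn l i)) (fun i => e (fn l i)) c' e'
    (fun i hi => by simp only [hl i hi]; exact hc i hi)
    (z c e _ _ (fun _ _ => ⟨rfl, rfl⟩) h)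

/-- `x y` is an edge of the pattern, listed at both ends -/
def rp5b_E (n R x y : ℕ) : Prop :=
  x ≠ y ∧ (x < n ∧ ∃ s < 3, nbr R x s = y) ∧ y < n ∧ ∃ s < 3, nbr R y s = x

theorem rp5b_E.sw {n R x y : ℕ} (h : rp5b_E n R x y) : rp5b_E n R y x :=
  ⟨h.1.symm, h.2.2, h.2.1⟩

/-- two disjoint pairs -/
def rp5b_D (x y u v : ℕ) : Prop := x ≠ u ∧ x ≠ v ∧ y ≠ u ∧ y ≠ v

theorem rp5b_D.sw {x y u v : ℕ} (h : rp5b_D x y u v) : rp5b_D u v x y :=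
  ⟨h.1.symm, h.2.2.1.symm, h.2.1.symm, h.2.2.2.symm⟩

theorem rp5b_D.l {x y u v : ℕ} (h : rp5b_D x y u v) : rp5b_D y x u v :=
  ⟨h.2.2.1, h.2.2.2, h.1, h.2.1⟩

theorem rp5b_D.r {x y u v : ℕ} (h : rp5b_D x y u v) : rp5b_D x y v u :=
  ⟨h.2.1, h.1, h.2.2.2, h.2.2.1⟩

/-- Edge and star: the three ends of the star are the neighbours of `r` in some order. -/
theorem pe_sort1 {n R : ℕ} {Z : (ℕ → Fin 4) → (ℕ → Fin 4) → Prop} (z1 : ZC 5 Z [1, 0, 2, 3, 4])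
    (z2 : ZC 5 Z [0, 1, 3, 2, 4]) (z3 : ZC 5 Z [0, 1, 2, 4, 3])
    (hs : ∀ a0 < n, ∀ s0 < 3, ∀ r < n, a0 < nbr R a0 s0 → r ≠ a0 → r ≠ nbr R a0 s0 →
      (∀ s < 3, nbr R r s ≠ a0 ∧ nbr R r s ≠ nbr R a0 s0) →
      PE 5 n R Z (fn [a0, nbr R a0 s0, nbr R r 0, nbr R r 1, nbr R r 2])
        (fn [nbr R a0 s0, a0, r, r, r]))
    {a b : ℕ → ℕ} (h : Plc 1 n R a b) : PE 5 n R Z a b := by
  obtain ⟨P, hP⟩ : ∃ P : ℕ → ℕ → ℕ → ℕ → ℕ → Prop, ∀ x0 x1 x2 x3 x4, P x0 x1 x2 x3 x4 ↔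
      PE 5 n R Z (fn [x0, x1, x2, x3, x4]) (fn [x1, x0, b 2, b 2, b 2]) :=
    ⟨_, fun _ _ _ _ _ => Iff.rfl⟩
  have w1 : ∀ {x0 x1 x2 x3 x4}, P x0 x1 x2 x3 x4 → P x1 x0 x2 x3 x4 := by
    intro x0 x1 x2 x3 x4 hx
    rw [hP] at hx ⊢
    refine hx.relabel (σ := fn [1, 0, 2, 3, 4]) (by decide) (fun i hi => ?_) z1
    interval_cases i <;> exact ⟨rfl, rfl⟩
  have w2 : ∀ {x0 x1 x2 x3 x4}, P x0 x1 x2 x3 x4 → P x0 x1 x3 x2 x4 := by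
    intro x0 x1 x2 x3 x4 hx
    rw [hP] at hx ⊢
    refine hx.relabel (σ := fn [0, 1, 3, 2, 4]) (by decide) (fun i hi => ?_) z2
    interval_cases i <;> exact ⟨rfl, rfl⟩
  have w3 : ∀ {x0 x1 x2 x3 x4}, P x0 x1 x2 x3 x4 → P x0 x1 x2 x4 x3 := by
    intro x0 x1 x2 x3 x4 hx
    rw [hP] at hx ⊢
    refine hx.relabel (σ := fn [0, 1, 2, 4, 3]) (by decide) (fun i hi => ?_) z3
    interval_cases i <;> exact ⟨rfl, rfl⟩
  have b0 : b 0 = a 1 := h.pe 0 (by omega) (by decide)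
  have b1 : b 1 = a 0 := h.pe 1 (by omega) (by decide)
  obtain ⟨b3, b4, hr⟩ := h.st rfl
  have ne : ∀ i < 5, ∀ j < 5, i ≠ j → a i ≠ a j := fun i hi j hj e e' => e (h.inj i hi j hj e')
  obtain ⟨s2, l2, e2⟩ := (h.ed 2 (by omega)).2
  obtain ⟨s3, l3, e3⟩ := (h.ed 3 (by omega)).2
  obtain ⟨s4, l4, e4⟩ := (h.ed 4 (by omega)).2
  rw [b3] at e3
  rw [b4] at e4
  have n23 : s2 ≠ s3 := fun e => ne 2 (by omega) 3 (by omega) (by omega) (by rw [← e2, ← e3, e])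
  have n24 : s2 ≠ s4 := fun e => ne 2 (by omega) 4 (by omega) (by omega) (by rw [← e2, ← e4, e])
  have n34 : s3 ≠ s4 := fun e => ne 3 (by omega) 4 (by omega) (by omega) (by rw [← e3, ← e4, e])
  have hn : ∀ s < 3, ∀ j < 2, nbr R (b 2) s ≠ a j := by
    intro s hs' j hj
    have : s = s2 ∨ s = s3 ∨ s = s4 := by omega
    rcases this with rfl | rfl | rfl
    · rw [e2]; exact ne 2 (by omega) j (by omega) (by omega)
    · rw [e3]; exact ne 3 (by omega) j (by omega) (by omega)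
    · rw [e4]; exact ne 4 (by omega) j (by omega) (by omega)
  have base : ∀ i < 2, ∀ j < 2, b i = a j → a i < a j →
      P (a i) (a j) (nbr R (b 2) 0) (nbr R (b 2) 1) (nbr R (b 2) 2) := by
    intro i hi j hj e lt
    obtain ⟨s, l, e0⟩ := (h.ed i (by omega)).1
    rw [e] at e0
    have := hs (a i) (h.lt i (by omega)).1 s l (b 2) (h.lt 2 (by omega)).2 (e0 ▸ lt)
      (hr i (by omega)).symm (e0 ▸ (hr j (by omega)).symm)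
      (fun t ht => ⟨hn t ht i hi, e0 ▸ hn t ht j hj⟩)
    rw [e0] at this
    exact (hP _ _ _ _ _).2 this
  have p1 : P (a 0) (a 1) (nbr R (b 2) 0) (nbr R (b 2) 1) (nbr R (b 2) 2) := by
    rcases Nat.lt_or_gt_of_ne (ne 0 (by omega) 1 (by omega) (by omega)) with l | l
    · exact base 0 (by omega) 1 (by omega) b0 l
    · exact w1 (base 1 (by omega) 0 (by omega) b1 l)
  have p2 : P (a 0) (a 1) (a 2) (a 3) (a 4) := by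
    rw [← e2, ← e3, ← e4]
    have : (s2 = 0 ∧ s3 = 1 ∧ s4 = 2) ∨ (s2 = 1 ∧ s3 = 0 ∧ s4 = 2) ∨ (s2 = 0 ∧ s3 = 2 ∧ s4 = 1) ∨
        (s2 = 1 ∧ s3 = 2 ∧ s4 = 0) ∨ (s2 = 2 ∧ s3 = 0 ∧ s4 = 1) ∨ (s2 = 2 ∧ s3 = 1 ∧ s4 = 0) := by
      omega
    rcases this with ⟨rfl, rfl, rfl⟩ | ⟨rfl, rfl, rfl⟩ | ⟨rfl, rfl, rfl⟩ | ⟨rfl, rfl, rfl⟩ |
      ⟨rfl, rfl, rfl⟩ | ⟨rfl, rfl, rfl⟩
    · exact p1
    · exact w2 p1
    · exact w3 p1
    · exact w3 (w2 p1)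
    · exact w2 (w3 p1)
    · exact w2 (w3 (w2 p1))
  rw [hP] at p2
  refine p2.relabel (σ := fun i => i) (fun i hi => ⟨hi, rfl⟩) (fun i hi => ?_)
    (rp5b_id z1 (by decide))
  interval_cases i
  · exact ⟨rfl, b0⟩
  · exact ⟨rfl, b1⟩
  · exact ⟨rfl, rfl⟩
  · exact ⟨rfl, b3⟩
  · exact ⟨rfl, b4⟩

/-- Three edges. -/
theorem pe_sort2 {n R : ℕ} {Z : (ℕ → Fin 4) → (ℕ → Fin 4) → Prop}
    (z1 : ZC 6 Z [1, 0, 2, 3, 4, 5]) (z2 : ZC 6 Z [2, 3, 0, 1, 4, 5])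
    (z3 : ZC 6 Z [0, 1, 4, 5, 2, 3])
    (hs : ∀ a0 < n, ∀ s0 < 3, ∀ a2 < n, ∀ s2 < 3, ∀ a4 < n, ∀ s4 < 3, a0 < nbr R a0 s0 → a0 < a2 →
      a2 < nbr R a2 s2 → a2 ≠ nbr R a0 s0 → nbr R a2 s2 ≠ nbr R a0 s0 → a2 < a4 →
      a4 < nbr R a4 s4 → a4 ≠ nbr R a0 s0 → a4 ≠ nbr R a2 s2 → nbr R a4 s4 ≠ nbr R a0 s0 →
      nbr R a4 s4 ≠ nbr R a2 s2 →
      PE 6 n R Z (fn [a0, nbr R a0 s0, a2, nbr R a2 s2, a4, nbr R a4 s4])
        (fn [nbr R a0 s0, a0, nbr R a2 s2, a2, nbr R a4 s4, a4]))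
    {a b : ℕ → ℕ} (h : Plc 2 n R a b) : PE 6 n R Z a b := by
  obtain ⟨P, hP⟩ : ∃ P : ℕ → ℕ → ℕ → ℕ → ℕ → ℕ → Prop, ∀ x0 x1 x2 x3 x4 x5,
      P x0 x1 x2 x3 x4 x5 ↔
      PE 6 n R Z (fn [x0, x1, x2, x3, x4, x5]) (fn [x1, x0, x3, x2, x5, x4]) :=
    ⟨_, fun _ _ _ _ _ _ => Iff.rfl⟩
  have w1 : ∀ {x0 x1 x2 x3 x4 x5}, P x0 x1 x2 x3 x4 x5 → P x1 x0 x2 x3 x4 x5 := by
    intro x0 x1 x2 x3 x4 x5 hx
    rw [hP] at hx ⊢
    refine hx.relabel (σ := fn [1, 0, 2, 3, 4, 5]) (by decide) (fun i hi => ?_) z1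
    interval_cases i <;> exact ⟨rfl, rfl⟩
  have u1 : ∀ {x0 x1 x2 x3 x4 x5}, P x0 x1 x2 x3 x4 x5 → P x2 x3 x0 x1 x4 x5 := by
    intro x0 x1 x2 x3 x4 x5 hx
    rw [hP] at hx ⊢
    refine hx.relabel (σ := fn [2, 3, 0, 1, 4, 5]) (by decide) (fun i hi => ?_) z2
    interval_cases i <;> exact ⟨rfl, rfl⟩
  have u2 : ∀ {x0 x1 x2 x3 x4 x5}, P x0 x1 x2 x3 x4 x5 → P x0 x1 x4 x5 x2 x3 := by
    intro x0 x1 x2 x3 x4 x5 hx
    rw [hP] at hx ⊢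
    refine hx.relabel (σ := fn [0, 1, 4, 5, 2, 3]) (by decide) (fun i hi => ?_) z3
    interval_cases i <;> exact ⟨rfl, rfl⟩
  have w2 : ∀ {x0 x1 x2 x3 x4 x5}, P x0 x1 x2 x3 x4 x5 → P x0 x1 x3 x2 x4 x5 :=
    fun hx => u1 (w1 (u1 hx))
  have w3 : ∀ {x0 x1 x2 x3 x4 x5}, P x0 x1 x2 x3 x4 x5 → P x0 x1 x2 x3 x5 x4 :=
    fun hx => u2 (w2 (u2 hx))
  have k1 : ∀ {x0 x1 x2 x3 x4 x5}, rp5b_E n R x0 x1 → rp5b_E n R x2 x3 → rp5b_E n R x4 x5 →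
      rp5b_D x0 x1 x2 x3 → rp5b_D x0 x1 x4 x5 → rp5b_D x2 x3 x4 x5 → x0 < x1 → x2 < x3 →
      x4 < x5 → x0 < x2 → x2 < x4 → P x0 x1 x2 x3 x4 x5 := by
    rintro x0 x1 x2 x3 x4 x5 ⟨-, ⟨l0, s0, m0, rfl⟩, -⟩ ⟨-, ⟨l2, s2, m2, rfl⟩, -⟩
      ⟨-, ⟨l4, s4, m4, rfl⟩, -⟩ d1 d2 d3 o1 o2 o3 o4 o5
    exact (hP _ _ _ _ _ _).2 (hs x0 l0 s0 m0 x2 l2 s2 m2 x4 l4 s4 m4 o1 o4 o2 d1.2.2.1.symm
      d1.2.2.2.symm o5 o3 d2.2.2.1.symm d3.2.2.1.symm d2.2.2.2.symm d3.2.2.2.symm)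
  have k2 : ∀ {x0 x1 x2 x3 x4 x5}, rp5b_E n R x0 x1 → rp5b_E n R x2 x3 → rp5b_E n R x4 x5 →
      rp5b_D x0 x1 x2 x3 → rp5b_D x0 x1 x4 x5 → rp5b_D x2 x3 x4 x5 → x0 < x1 → x2 < x3 →
      x4 < x5 → P x0 x1 x2 x3 x4 x5 := by
    intro x0 x1 x2 x3 x4 x5 e1 e2 e3 d1 d2 d3 o1 o2 o3
    rcases Nat.lt_or_gt_of_ne d1.1 with p | p <;> rcases Nat.lt_or_gt_of_ne d2.1 with q | q <;>
      rcases Nat.lt_or_gt_of_ne d3.1 with r | r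
    · exact k1 e1 e2 e3 d1 d2 d3 o1 o2 o3 p r
    · exact u2 (k1 e1 e3 e2 d2 d1 d3.sw o1 o3 o2 q r)
    · omega
    · exact u2 (u1 (k1 e3 e1 e2 d2.sw d3.sw d1 o3 o1 o2 q p))
    · exact u1 (k1 e2 e1 e3 d1.sw d3 d2 o2 o1 o3 p q)
    · omega
    · exact u1 (u2 (k1 e2 e3 e1 d3 d1.sw d2.sw o2 o3 o1 r q))
    · exact u1 (u2 (u1 (k1 e3 e2 e1 d3.sw d2.sw d1.sw o3 o2 o1 r p)))
  have k3 : ∀ {x0 x1 x2 x3 x4 x5}, rp5b_E n R x0 x1 → rp5b_E n R x2 x3 → rp5b_E n R x4 x5 →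
      rp5b_D x0 x1 x2 x3 → rp5b_D x0 x1 x4 x5 → rp5b_D x2 x3 x4 x5 → x0 < x1 → x2 < x3 →
      P x0 x1 x2 x3 x4 x5 := by
    intro x0 x1 x2 x3 x4 x5 e1 e2 e3 d1 d2 d3 o1 o2
    rcases Nat.lt_or_gt_of_ne e3.1 with p | p
    · exact k2 e1 e2 e3 d1 d2 d3 o1 o2 p
    · exact w3 (k2 e1 e2 e3.sw d1 d2.r d3.r o1 o2 p)
  have k4 : ∀ {x0 x1 x2 x3 x4 x5}, rp5b_E n R x0 x1 → rp5b_E n R x2 x3 → rp5b_E n R x4 x5 →
      rp5b_D x0 x1 x2 x3 → rp5b_D x0 x1 x4 x5 → rp5b_D x2 x3 x4 x5 → x0 < x1 →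
      P x0 x1 x2 x3 x4 x5 := by
    intro x0 x1 x2 x3 x4 x5 e1 e2 e3 d1 d2 d3 o1
    rcases Nat.lt_or_gt_of_ne e2.1 with p | p
    · exact k3 e1 e2 e3 d1 d2 d3 o1 p
    · exact w2 (k3 e1 e2.sw e3 d1.r d2 d3.l o1 p)
  have k5 : ∀ {x0 x1 x2 x3 x4 x5}, rp5b_E n R x0 x1 → rp5b_E n R x2 x3 → rp5b_E n R x4 x5 →
      rp5b_D x0 x1 x2 x3 → rp5b_D x0 x1 x4 x5 → rp5b_D x2 x3 x4 x5 → P x0 x1 x2 x3 x4 x5 := by
    intro x0 x1 x2 x3 x4 x5 e1 e2 e3 d1 d2 d3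
    rcases Nat.lt_or_gt_of_ne e1.1 with p | p
    · exact k4 e1 e2 e3 d1 d2 d3 p
    · exact w1 (k4 e1.sw e2 e3 d1.l d2.l d3 p)
  have ne : ∀ i < 6, ∀ j < 6, i ≠ j → a i ≠ a j := fun i hi j hj e e' => e (h.inj i hi j hj e')
  have hb : ∀ i < 6, b i = a (rpi 2 i) := fun i hi => h.pe i hi (by revert i; decide)
  have hE : ∀ i < 6, ∀ j < 6, rpi 2 i = j → rp5b_E n R (a i) (a j) := by
    intro i hi j hj e
    have e1 := hb i hi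
    rw [e] at e1
    have e2 := h.ed i hi
    rw [e1] at e2
    exact ⟨ne i hi j hj (e ▸ (rpi_spec 2 (by omega) i hi).2.1.symm),
      ⟨(h.lt i hi).1, e2.1⟩, (h.lt j hj).1, e2.2⟩
  have hD : ∀ i < 5, ∀ j < 5, i + 1 < j → rp5b_D (a i) (a (i + 1)) (a j) (a (j + 1)) :=
    fun i hi j hj l => ⟨ne _ (by omega) _ (by omega) (by omega), ne _ (by omega) _ (by omega) (by omega),
      ne _ (by omega) _ (by omega) (by omega), ne _ (by omega) _ (by omega) (by omega)⟩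
  have p2 : P (a 0) (a 1) (a 2) (a 3) (a 4) (a 5) :=
    k5 (hE 0 (by omega) 1 (by omega) (by decide)) (hE 2 (by omega) 3 (by omega) (by decide))
      (hE 4 (by omega) 5 (by omega) (by decide)) (hD 0 (by omega) 2 (by omega) (by omega))
      (hD 0 (by omega) 4 (by omega) (by omega)) (hD 2 (by omega) 4 (by omega) (by omega))
  rw [hP] at p2
  refine p2.relabel (σ := fun i => i) (fun i hi => ⟨hi, rfl⟩) (fun i hi => ?_)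
    (rp5b_id z1 (by decide))
  rw [hb i hi]
  interval_cases i <;> exact ⟨rfl, rfl⟩

end Pool.Agent.Hom2
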