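import Pool.Agent.Lib.MP_7e4769_co.Hc.Rp6a
import Pool.Agent.Lib.MP_7e4769_co.Hc.Rp5

set_option autoImplicit false
set_option linter.unusedSectionVars false

namespace Pool.Agent.Hom2

/-- mask of the values below `k` -/
def mskF (k : ℕ) (a : ℕ → ℕ) : ℕ := Nat.rec 0 (fun i m => sb m (a i)) k

theorem mskF_iff (k : ℕ) (a : ℕ → ℕ) (v : ℕ) : tb (mskF k a) v = true ↔ ∃ i < k, v = a i := by
  induction k with
  | zero => simp [mskF]
  | succ k ih =>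
    have e : mskF (k + 1) a = sb (mskF k a) (a k) := rfl
    rw [e, tb_sb, ih]
    constructor
    · rintro (⟨i, hi, h⟩ | h)
      · exact ⟨i, by omega, h⟩
      · exact ⟨k, by omega, h⟩
    · rintro ⟨i, hi, h⟩
      rcases Nat.lt_succ_iff_lt_or_eq.1 hi with u | rfl
      · exact Or.inl ⟨i, u, h⟩
      · exact Or.inr h

/-- the end `v` with partner `p` has the atom `z` -/
def endT (R C v p z : ℕ) : Bool :=
  fzb (colv C v) fun a => fzb (Nat.mod z 4) fun e =>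
    fzb (nbr R v 0) fun x => fzb (nbr R v 1) fun y => fzb (nbr R v 2) fun w =>
      Nat.beq z (Nat.add (Nat.mul 4 a) e) &&
      (Nat.beq x p || Nat.beq y p || tb stT (ix4 a e (colv C x) (colv C y))) &&
      (Nat.beq x p || Nat.beq w p || tb stT (ix4 a e (colv C x) (colv C w))) &&
      (Nat.beq y p || Nat.beq w p || tb stT (ix4 a e (colv C y) (colv C w)))

def colX (k n R zt zn : ℕ) (a b : ℕ → ℕ) (j C : ℕ) : Bool :=
  lt j zn && (allLt k fun i => endT R C (a i) (b i) (za zt j i)) &&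
    fzb (Nat.lor (mskF k a) (mskF k b)) fun E => allLt n fun v => tb E v || vT R C v

/-- `A` mask; `l0 l1 l2` codes `32 v + w` of the cut edges (`l2` only if `big = 1`); `p q r s` -/
def cutX (k n R : ℕ) (a b : ℕ → ℕ) (A l0 l1 l2 big p q r s : ℕ) : Bool :=
  lt n 33 && lt p n && tb A p &&
  (Nat.beq big 0 || (lt p q && lt q r && lt r s && lt s n && tb A q && tb A r && tb A s)) &&
  fzb (mskF k a) fun E => (allLt k fun i => !tb A (b i) || tb E (b i)) &&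
    allLt n fun v => !tb A v || all3 fun t => fzb (nbr R v t) fun w =>
      fzb (Nat.add (Nat.mul 32 v) w) fun c =>
        lt w 32 && (Nat.beq c l0 || Nat.beq c l1 || (Nat.beq big 1 && Nat.beq c l2) ||
          (tb A w && (!tb E v || allLt k fun i => ne v (a i) || ne w (b i))))

/-- returns the rest of the stream, 0 on failure -/
def leafX (k n R zt zn : ℕ) (a b : ℕ → ℕ) (B : ℕ) : ℕ :=
  bif Nat.beq (Nat.mod B 2) 0 then
    (bif colX k n R zt zn a b (fld B 1 2048) (fld B 12 (Nat.shiftLeft 1 64)) then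
      shr B (Nat.add 12 (Nat.mul 2 n)) else 0)
  else fz (fld B 0 (Nat.shiftLeft 1 90)) fun D =>
    bif cutX k n R a b (shr D 52) (fld D 1 1024) (fld D 11 1024) (fld D 21 1024) (fld D 31 2)
      (fld D 32 32) (fld D 37 32) (fld D 42 32) (fld D 47 32) then shr B (Nat.add 52 n) else 0

/-- residue of an atom -/
def r8a_e (z : ℕ) : Fin 4 := ⟨z % 4, Nat.mod_lt _ (by decide)⟩

theorem r8a_pair {C v p z x y : ℕ}
    (h : (Nat.beq x p || Nat.beq y p ||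
      tb stT (ix4 (colv C v) (Nat.mod z 4) (colv C x) (colv C y))) = true)
    (hx : x ≠ p) (hy : y ≠ p) (t : Fin 4) (h1 : t ≠ c4 C v) (h2 : t ≠ r8a_e z) :
    ok4 (c4 C v) t (c4 C x) (c4 C y) ∧ ok4 (c4 C v) t (c4 C y) (c4 C x) := by
  rw [(beq_false _ _).2 hx, (beq_false _ _).2 hy, Bool.false_or, Bool.false_or] at h
  exact stT_spec (c4 C v) (r8a_e z) (c4 C x) (c4 C y) h t h1 h2

theorem r8a_end {R C v p z : ℕ} (h : endT R C v p z = true) :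
    atm (c4 C v) (r8a_e z) = z ∧ ∀ s < 3, ∀ s' < 3, s ≠ s' → nbr R v s ≠ p → nbr R v s' ≠ p →
      ∀ t, t ≠ c4 C v → t ≠ r8a_e z → ok4 (c4 C v) t (c4 C (nbr R v s)) (c4 C (nbr R v s')) := by
  unfold endT at h
  rw [fzb_eq, fzb_eq, fzb_eq, fzb_eq, fzb_eq, Bool.and_eq_true, Bool.and_eq_true,
    Bool.and_eq_true] at h
  obtain ⟨⟨⟨h0, h1⟩, h2⟩, h3⟩ := h
  refine ⟨(Nat.eq_of_beq_eq_true h0).symm, fun s hs s' hs' hne a b t c d => ?_⟩
  interval_cases s <;> interval_cases s'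
  · exact absurd rfl hne
  · exact (r8a_pair h1 a b t c d).1
  · exact (r8a_pair h2 a b t c d).1
  · exact (r8a_pair h1 b a t c d).2
  · exact absurd rfl hne
  · exact (r8a_pair h3 a b t c d).1
  · exact (r8a_pair h2 b a t c d).2
  · exact (r8a_pair h3 b a t c d).2
  · exact absurd rfl hne

/-- `C := c4 C`, `e i := ⟨za zt j i % 4, _⟩`, `f := id` -/
theorem colX_pe {k n R zt zn : ℕ} {a b : ℕ → ℕ} {j C : ℕ} (h : colX k n R zt zn a b j C = true) :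
    PE k n R (InZ k zt zn) a b := by
  unfold colX at h
  rw [fzb_eq, Bool.and_eq_true, Bool.and_eq_true, lt_iff, allLt_iff, allLt_iff] at h
  obtain ⟨⟨h0, h1⟩, h2⟩ := h
  refine Or.inl ⟨c4 C, fun i => r8a_e (za zt j i),
    ⟨id, Function.injective_id, j, h0, fun i hi => (r8a_end (h1 i hi)).1⟩, fun v hv hn => ?_,
    fun i hi => (r8a_end (h1 i hi)).2⟩
  have e := h2 v hv
  rw [tb_lor, Bool.or_eq_true, Bool.or_eq_true, mskF_iff, mskF_iff] at e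
  rcases e with (⟨i, hi, e⟩ | ⟨i, hi, e⟩) | e
  · exact absurd e (hn i hi).1
  · exact absurd e (hn i hi).2
  · exact vT_spec e

theorem r8a_code {v w l : ℕ} (hw : w < 32) (h : 32 * v + w = l) : (v, w) = (l / 32, l % 32) :=
  Prod.ext (by omega) (by omega)

/-- `L = [(l0 / 32, l0 % 32), (l1 / 32, l1 % 32)]`, with the third pair if `big ≠ 0` -/
theorem cutX_pe {k n R : ℕ} {a b : ℕ → ℕ} {A l0 l1 l2 big p q r s : ℕ}
    (h : cutX k n R a b A l0 l1 l2 big p q r s = true) (Z : (ℕ → Fin 4) → (ℕ → Fin 4) → Prop) :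
    PE k n R Z a b := by
  unfold cutX at h
  simp only [fzb_eq, Bool.and_eq_true, Bool.or_eq_true, lt_iff, allLt_iff, all3_iff, Nat.beq_eq,
    Bool.not_eq_true', ne_iff, mskF_iff, Nat.add_eq, Nat.mul_eq] at h
  obtain ⟨⟨⟨⟨-, hp⟩, hA⟩, hb⟩, h1, h2⟩ := h
  have key : ∀ L : List (ℕ × ℕ), (l0 / 32, l0 % 32) ∈ L → (l1 / 32, l1 % 32) ∈ L →
      (big = 1 → (l2 / 32, l2 % 32) ∈ L) → ∀ v < n, tb A v = true → ∀ s < 3,
      (tb A (nbr R v s) = true ∧ ∀ i < k, v = a i → nbr R v s ≠ b i) ∨ (v, nbr R v s) ∈ L := by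
    intro L m0 m1 m2 v hv hAv t ht
    obtain ⟨hw, e⟩ := ((h2 v hv).resolve_left (by rw [hAv]; decide)) t ht
    rcases e with ((e | e) | ⟨e1, e⟩) | ⟨e1, e⟩
    · exact Or.inr (r8a_code hw e ▸ m0)
    · exact Or.inr (r8a_code hw e ▸ m1)
    · exact Or.inr (r8a_code hw e ▸ m2 e1)
    · refine Or.inl ⟨e1, fun i hi hvi => ?_⟩
      rcases e with e | e
      · rw [(mskF_iff k a v).2 ⟨i, hi, hvi⟩] at e
        exact absurd e (by decide)
      · exact (e i hi).resolve_left (not_not.2 hvi)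
  have h3 : ∀ i < k, tb A (b i) = true → ∃ j < k, b i = a j := fun i hi e =>
    (h1 i hi).resolve_left (by rw [e]; decide)
  rcases hb with hb | ⟨⟨⟨⟨⟨⟨c1, c2⟩, c3⟩, c4⟩, c5⟩, c6⟩, c7⟩
  · exact Or.inr ⟨fun v => tb A v = true, [(l0 / 32, l0 % 32), (l1 / 32, l1 % 32)], ⟨p, hp, hA⟩, h3,
      key _ (by simp) (by simp) (by omega), Or.inl le_rfl⟩
  · exact Or.inr ⟨fun v => tb A v = true,
      [(l0 / 32, l0 % 32), (l1 / 32, l1 % 32), (l2 / 32, l2 % 32)], ⟨p, hp, hA⟩, h3,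
      key _ (by simp) (by simp) (by simp),
      Or.inr ⟨le_rfl, p, q, r, s, c1, c2, c3, c4, hA, c5, c6, c7⟩⟩

theorem leafX_pe {k n R zt zn : ℕ} {a b : ℕ → ℕ} {B : ℕ} (h : leafX k n R zt zn a b B ≠ 0) :
    PE k n R (InZ k zt zn) a b := by
  unfold leafX at h
  cases e : Nat.beq (Nat.mod B 2) 0
  · rw [e, cond_false, fz_eq] at h
    exact cutX_pe (cond_ne h).1 _
  · rw [e, cond_true] at h
    exact colX_pe (cond_ne h).1

/-- all edges `x < y` with `lo ≤ x` -/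
def edges (n R lo : ℕ) (f : ℕ → ℕ → ℕ → ℕ) (B : ℕ) : ℕ :=
  thr n (fun x B1 => bif lt x lo then B1 else
    thr 3 (fun s B2 => fz (nbr R x s) fun y => bif lt x y then f x y B2 else B2) B1) B

theorem edges_ne {n R lo B : ℕ} {f : ℕ → ℕ → ℕ → ℕ} (h : edges n R lo f B ≠ 0) :
    ∀ x < n, lo ≤ x → ∀ s < 3, x < nbr R x s → ∃ B', f x (nbr R x s) B' ≠ 0 := by
  intro x hx hlo s hs hlt
  obtain ⟨B1, h1⟩ := thr_ne h x hx
  rw [(lt_false x lo).2 hlo, cond_false] at h1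
  obtain ⟨B2, h2⟩ := thr_ne h1 s hs
  rw [fz_eq, (lt_iff _ _).2 hlt] at h2
  exact ⟨B2, h2⟩

def exc0 (n R zt zn B : ℕ) : ℕ :=
  edges n R 0 (fun a0 a1 => edges n R (Nat.succ a0) fun a2 a3 B1 =>
    bif ne a2 a1 && ne a3 a1 then leafX 4 n R zt zn (fn [a0, a1, a2, a3]) (fn [a1, a0, a3, a2]) B1
    else B1) B

def exc1 (n R zt zn B : ℕ) : ℕ :=
  edges n R 0 (fun a0 a1 => thr n fun r B1 =>
    fz (nbr R r 0) fun x => fz (nbr R r 1) fun y => fz (nbr R r 2) fun w =>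
      bif ne r a0 && ne r a1 && ne x a0 && ne x a1 && ne y a0 && ne y a1 && ne w a0 && ne w a1 then
        leafX 5 n R zt zn (fn [a0, a1, x, y, w]) (fn [a1, a0, r, r, r]) B1 else B1) B

def exc2 (n R zt zn B : ℕ) : ℕ :=
  edges n R 0 (fun a0 a1 => edges n R (Nat.succ a0) fun a2 a3 B1 =>
    bif ne a2 a1 && ne a3 a1 then edges n R (Nat.succ a2) (fun a4 a5 B2 =>
      bif ne a4 a1 && ne a4 a3 && ne a5 a1 && ne a5 a3 then
        leafX 6 n R zt zn (fn [a0, a1, a2, a3, a4, a5]) (fn [a1, a0, a3, a2, a5, a4]) B2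
      else B2) B1 else B1) B

/-- `pe_sort0`, `InZ.clo`, `edges_ne`, `leafX_pe` -/
theorem exc0_pe {n R zt zn B B1 B2 : ℕ} (h : exc0 n R zt zn B ≠ 0)
    (z1 : zClo 4 zt zn (fn [1, 0, 2, 3]) B1 = true) (z2 : zClo 4 zt zn (fn [2, 3, 0, 1]) B2 = true)
    {a b : ℕ → ℕ} (hp : Plc 0 n R a b) : PE 4 n R (InZ 4 zt zn) a b := by
  refine pe_sort0 (fun c e c' e' => InZ.clo z1 (by decide) c e c' e')
    (fun c e c' e' => InZ.clo z2 (by decide) c e c' e') ?_ hp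
  intro a0 h0 s0 t0 a2 h2 s2 t2 l0 l1 l2 n1 n2
  obtain ⟨B', h1⟩ := edges_ne h a0 h0 (Nat.zero_le _) s0 t0 l0
  obtain ⟨B'', h3⟩ := edges_ne h1 a2 h2 l1 s2 t2 l2
  rw [(ne_iff _ _).2 n1, (ne_iff _ _).2 n2] at h3
  exact leafX_pe h3

theorem exc1_pe {n R zt zn B B1 B2 B3 : ℕ} (h : exc1 n R zt zn B ≠ 0)
    (z1 : zClo 5 zt zn (fn [1, 0, 2, 3, 4]) B1 = true)
    (z2 : zClo 5 zt zn (fn [0, 1, 3, 2, 4]) B2 = true)
    (z3 : zClo 5 zt zn (fn [0, 1, 2, 4, 3]) B3 = true)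
    {a b : ℕ → ℕ} (hp : Plc 1 n R a b) : PE 5 n R (InZ 5 zt zn) a b := by
  refine pe_sort1 (fun c e c' e' => InZ.clo z1 (by decide) c e c' e')
    (fun c e c' e' => InZ.clo z2 (by decide) c e c' e')
    (fun c e c' e' => InZ.clo z3 (by decide) c e c' e') ?_ hp
  intro a0 h0 s0 t0 r hr l0 n1 n2 n3
  obtain ⟨B', h1⟩ := edges_ne h a0 h0 (Nat.zero_le _) s0 t0 l0
  obtain ⟨B'', h3⟩ := thr_ne h1 r hr
  rw [fz_eq, fz_eq, fz_eq, (ne_iff _ _).2 n1, (ne_iff _ _).2 n2, (ne_iff _ _).2 (n3 0 (by omega)).1,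
    (ne_iff _ _).2 (n3 0 (by omega)).2, (ne_iff _ _).2 (n3 1 (by omega)).1,
    (ne_iff _ _).2 (n3 1 (by omega)).2, (ne_iff _ _).2 (n3 2 (by omega)).1,
    (ne_iff _ _).2 (n3 2 (by omega)).2] at h3
  exact leafX_pe h3

theorem exc2_pe {n R zt zn B B1 B2 B3 : ℕ} (h : exc2 n R zt zn B ≠ 0)
    (z1 : zClo 6 zt zn (fn [1, 0, 2, 3, 4, 5]) B1 = true)
    (z2 : zClo 6 zt zn (fn [2, 3, 0, 1, 4, 5]) B2 = true)
    (z3 : zClo 6 zt zn (fn [0, 1, 4, 5, 2, 3]) B3 = true)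
    {a b : ℕ → ℕ} (hp : Plc 2 n R a b) : PE 6 n R (InZ 6 zt zn) a b := by
  refine pe_sort2 (fun c e c' e' => InZ.clo z1 (by decide) c e c' e')
    (fun c e c' e' => InZ.clo z2 (by decide) c e c' e')
    (fun c e c' e' => InZ.clo z3 (by decide) c e c' e') ?_ hp
  intro a0 h0 s0 t0 a2 h2 s2 t2 a4 h4 s4 t4 l0 l1 l2 n1 n2 l3 l4 n3 n4 n5 n6
  obtain ⟨B', h1⟩ := edges_ne h a0 h0 (Nat.zero_le _) s0 t0 l0
  obtain ⟨B'', h3⟩ := edges_ne h1 a2 h2 l1 s2 t2 l2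
  rw [(ne_iff _ _).2 n1, (ne_iff _ _).2 n2] at h3
  obtain ⟨B3', h5⟩ := edges_ne h3 a4 h4 l3 s4 t4 l4
  rw [(ne_iff _ _).2 n3, (ne_iff _ _).2 n4, (ne_iff _ _).2 n5, (ne_iff _ _).2 n6] at h5
  exact leafX_pe h5

end Pool.Agent.Hom2
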