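import Pool.Agent.Lib.MP_7e4769_co.Hc.Rp8

set_option autoImplicit false

namespace Pool.Agent.Hom2

def in2 (n R zt zn a0 a1 : ℕ) : ℕ → ℕ :=
  edges n R (Nat.succ a0) fun a2 a3 B1 =>
    bif ne a2 a1 && ne a3 a1 then edges n R (Nat.succ a2) (fun a4 a5 B2 =>
      bif ne a4 a1 && ne a4 a3 && ne a5 a1 && ne a5 a3 then
        leafX 6 n R zt zn (fn [a0, a1, a2, a3, a4, a5]) (fn [a1, a0, a3, a2, a5, a4]) B2
      else B2) B1 else B1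

/-- the placements whose first edge starts at one of the `c` vertices from `lo` on -/
def exc2r (n R zt zn lo c B : ℕ) : ℕ :=
  thr c (fun t B1 => fz (Nat.add lo t) fun x =>
    thr 3 (fun s B2 => fz (nbr R x s) fun y => bif lt x y then in2 n R zt zn x y B2 else B2) B1) B

theorem exc2r_ne {n R zt zn lo c B x : ℕ} (h : Nat.beq (exc2r n R zt zn lo c B) 1 = true)
    (h1 : lo ≤ x) (h2 : x < lo + c) : ∀ s < 3, x < nbr R x s → ∃ B', in2 n R zt zn x (nbr R x s) B' ≠ 0 := by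
  intro s hs hlt
  obtain ⟨B1, k1⟩ := thr_ne (show exc2r n R zt zn lo c B ≠ 0 by
    rw [Nat.eq_of_beq_eq_true h]; decide) (x - lo) (by omega)
  rw [fz_eq, show Nat.add lo (x - lo) = x from Nat.add_sub_cancel' h1] at k1
  obtain ⟨B2, k2⟩ := thr_ne k1 s hs
  rw [fz_eq, (lt_iff _ _).2 hlt] at k2
  exact ⟨B2, k2⟩

theorem exc2r_pe {n R zt zn B1 B2 B3 : ℕ}
    (h : ∀ x < n, ∀ s < 3, x < nbr R x s → ∃ B', in2 n R zt zn x (nbr R x s) B' ≠ 0)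
    (z1 : zClo 6 zt zn (fn [1, 0, 2, 3, 4, 5]) B1 = true)
    (z2 : zClo 6 zt zn (fn [2, 3, 0, 1, 4, 5]) B2 = true)
    (z3 : zClo 6 zt zn (fn [0, 1, 4, 5, 2, 3]) B3 = true)
    {a b : ℕ → ℕ} (hp : Plc 2 n R a b) : PE 6 n R (InZ 6 zt zn) a b := by
  refine pe_sort2 (fun c e c' e' => InZ.clo z1 (by decide) c e c' e')
    (fun c e c' e' => InZ.clo z2 (by decide) c e c' e')
    (fun c e c' e' => InZ.clo z3 (by decide) c e c' e') ?_ hp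
  intro a0 h0 s0 t0 a2 h2 s2 t2 a4 h4 s4 t4 l0 l1 l2 n1 n2 l3 l4 n3 n4 n5 n6
  obtain ⟨B', h1⟩ := h a0 h0 s0 t0 l0
  obtain ⟨B'', h3⟩ := edges_ne h1 a2 h2 l1 s2 t2 l2
  rw [(ne_iff _ _).2 n1, (ne_iff _ _).2 n2] at h3
  obtain ⟨B3', h5⟩ := edges_ne h3 a4 h4 l3 s4 t4 l4
  rw [(ne_iff _ _).2 n3, (ne_iff _ _).2 n4, (ne_iff _ _).2 n5, (ne_iff _ _).2 n6] at h5
  exact leafX_pe h5

end Pool.Agent.Hom2
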