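set_option autoImplicit false

namespace Pool.Agent.Hom2.Rq

/-! Colourings are stored as bit planes; tables have 144 slots of width `u + 1`. -/

inductive T3 where
  | nil : T3
  | cons (a b c : Nat) (r : T3) : T3

noncomputable def an (a b : Bool) : Bool := @Bool.rec (fun _ => Bool) false b a
noncomputable def orr (a b : Bool) : Bool := @Bool.rec (fun _ => Bool) b true a

def cH (u : Nat) : Nat := Nat.shiftLeft (nat_lit 1) u
def cM (u : Nat) : Nat := Nat.sub (cH u) (nat_lit 1)
noncomputable def rp (w N : Nat) : Nat :=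
  @Nat.rec (fun _ => Nat) (nat_lit 0) (fun s r => Nat.add r (cH (Nat.mul w s))) N
noncomputable def cR (u : Nat) : Nat := rp (Nat.succ u) (nat_lit 144)
/-- `x` in the slots that the mask `m` names -/
noncomputable def exm (u m x : Nat) : Nat :=
  Nat.mul (Nat.land (Nat.mul m (rp u (nat_lit 144))) (cR u)) x
noncomputable def cK (u m : Nat) : Nat := exm u m (cM u)
noncomputable def cMr (u : Nat) : Nat := Nat.mul (cM u) (cR u)

def neM (a a' b b' : Nat) : Nat := Nat.lor (Nat.xor a b) (Nat.xor a' b')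
def ok3 (p q r : Nat) : Nat := Nat.xor (Nat.lor p q) (Nat.land (Nat.land p q) r)
def okM (a a' x x' y y' z z' : Nat) : Nat :=
  Nat.land (Nat.land (neM a a' x x') (neM a a' y y'))
    (Nat.land (neM a a' z z') (ok3 (neM x x' y y') (neM y y' z z') (neM x x' z z')))

def pl (u J L v : Nat) : Nat := Nat.land (Nat.shiftRight L (Nat.mul J v)) (cM u)
noncomputable def pr (u J L v : Nat) : Nat := Nat.mul (pl u J L v) (cR u)
def nq (R v s : Nat) : Nat :=
  Nat.sub (Nat.mod (Nat.shiftRight R (Nat.add (Nat.mul (nat_lit 18) v) s)) (nat_lit 64)) (nat_lit 2)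

noncomputable def wp0 (u a a' y y' z z' m0 m1 m2 m3 : Nat) : Nat :=
  Nat.land (okM a a' (cK u m2) (cK u m3) y y' z z') (neM a a' (cK u m0) (cK u m1))
noncomputable def wp1 (u J L H v y z m0 m1 m2 m3 : Nat) : Nat :=
  wp0 u (pr u J L v) (pr u J H v) (pr u J L y) (pr u J H y) (pr u J L z) (pr u J H z) m0 m1 m2 m3
/-- the port `v` against the first atom of every slot -/
noncomputable def wpA (u J L H R v : Nat) : Nat :=
  wp1 u J L H v (nq R v (nat_lit 6)) (nq R v (nat_lit 12))
    (nat_lit 0x5a55a55a55a55a55a55a55a55a55a55a55a5) (nat_lit 0x936936936936936936936936936936936936)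
    (nat_lit 0xe38e38e38e38e38e38e38e38e38e38e38e38) (nat_lit 0xfc0fc0fc0fc0fc0fc0fc0fc0fc0fc0fc0fc0)
/-- the port `v` against the second atom of every slot -/
noncomputable def wpB (u J L H R v : Nat) : Nat :=
  wp1 u J L H v (nq R v (nat_lit 6)) (nq R v (nat_lit 12))
    (nat_lit 0xfff000ffffff000fff000000fff000fff) (nat_lit 0xfff000000fff000000ffffff000ffffff000)
    (nat_lit 0xfffffffff000000000fffffffff000000000) (nat_lit 0xffffffffffffffffff000000000000000000)
noncomputable def wpP (u J L H R v : Nat) : Nat := Nat.land (wpA u J L H R v) (wpB u J L H R (Nat.succ v))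

def okV (u J L H v x y z : Nat) : Nat :=
  okM (pl u J L v) (pl u J H v) (pl u J L x) (pl u J H x) (pl u J L y) (pl u J H y) (pl u J L z)
    (pl u J H z)
def okW (u J L H R v : Nat) : Nat :=
  okV u J L H v (nq R v (nat_lit 0)) (nq R v (nat_lit 6)) (nq R v (nat_lit 12))
/-- the colourings that are fine at the `m` vertices from `b` on -/
noncomputable def vM (u J L H R b m : Nat) : Nat :=
  @Nat.rec (fun _ => Nat) (cM u) (fun t r => Nat.land r (okW u J L H R (Nat.add b t))) m

def sub1 (E X : Nat) : Bool := Nat.beq (Nat.land X E) E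
noncomputable def pfx (u V P Q S : Nat) (l : T3) : Bool :=
  @T3.rec (fun _ => Bool) true (fun a b m _ ih => @Bool.rec (fun _ => Bool) false ih
    (sub1 (exm u m (cH u)) (Nat.add (Nat.land (Nat.mul (Nat.land (Nat.land
      (Nat.shiftRight P (Nat.mul (Nat.succ u) a)) V) (Nat.shiftRight S (Nat.mul (Nat.succ u) b)))
      (cR u)) Q) (cMr u)))) l

/-- the list has an entry `p`, `r` whose mask holds `x` -/
noncomputable def inQ (l : T3) (p r x : Nat) : Bool :=
  @T3.rec (fun _ => Bool) false (fun a b m _ ih => orr (an (Nat.beq a p) (an (Nat.beq b r)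
    (an (sub1 x m) (Nat.ble (Nat.succ m) (cH (nat_lit 144)))))) ih) l

/-- place of an atom among the twelve proper ones -/
def sg (a : Nat) : Nat := Nat.sub (Nat.sub a (nat_lit 1)) (Nat.div a (nat_lit 5))
def sg2 (a b : Nat) : Nat := Nat.add (sg a) (Nat.mul (nat_lit 12) (sg b))

noncomputable def tq (u k n R J L H S : Nat) (l : T3) : Bool :=
  pfx u (vM u J L H R (Nat.add k k) (Nat.sub n (Nat.add k k))) (wpP u J L H R k)
    (wpP u J L H R (Nat.add k (nat_lit 2))) S l

def s0 (E v s : Nat) : Nat := Nat.mod (Nat.shiftRight E (Nat.add (Nat.mul (nat_lit 12) v) s)) (nat_lit 64)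
/-- the edge `v x` is listed in the entry -/
noncomputable def lk (E v x : Nat) : Bool :=
  @Bool.rec (fun _ => Bool) (orr (Nat.beq (s0 E v (nat_lit 6)) x) (orr (Nat.beq (s0 E v (nat_lit 12)) x)
    (orr (Nat.beq (s0 E x (nat_lit 6)) v) (Nat.beq (s0 E x (nat_lit 12)) v)))) false (Nat.beq x v)
noncomputable def wv (k n E v x y z : Nat) : Bool :=
  an (Nat.ble (Nat.succ x) y) (an (Nat.ble (Nat.succ y) z) (an (Nat.ble (Nat.succ z) n) (an (Nat.ble k y)
    (an (@Bool.rec (fun _ => Bool) (Nat.beq (Nat.add x k) v) (Nat.ble k x) (Nat.ble (Nat.add k k) v))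
      (an (lk E v x) (an (lk E v y) (lk E v z)))))))
noncomputable def wv1 (k n E R v : Nat) : Bool :=
  wv k n E v (nq R v (nat_lit 0)) (nq R v (nat_lit 6)) (nq R v (nat_lit 12))
noncomputable def wl (k n E R m : Nat) : Bool :=
  @Nat.rec (fun _ => Bool) (Nat.ble (Nat.add k k) n)
    (fun t ih => @Bool.rec (fun _ => Bool) false ih (wv1 k n E R (Nat.add k t))) m

end Pool.Agent.Hom2.Rq
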