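import Pool.Agent.Lib.MP_7e4769_co.Hc.RpH
import Pool.Agent.Lib.MP_7e4769_co.Hc.RpD0
import Pool.Agent.Lib.MP_7e4769_co.Hc.RpD1
import Pool.Agent.Lib.MP_7e4769_co.Hc.RpD2

set_option autoImplicit false

namespace Pool.Agent.Hom2.Rq

variable {V : Type} [DecidableEq V] {G : SimpleGraph V} {X : Finset V}

/-- all template facts hold -/
theorem non_all (r : RC G X) {Gl : Prop} (hg : Good G X → Gl) :
    ∀ g < 318, Sc.HoldsN G X Gl (Sc.dget St.dn g) := by
  intro g h
  by_cases h0 : g < 25
  · exact tcl_holds r hg (by decide) _ _ tb0 g (show 0 ≤ g by omega) h0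
  by_cases h25 : g < 50
  · exact tcl_holds r hg (by decide) _ _ tb25 g (show 25 ≤ g by omega) h25
  by_cases h50 : g < 75
  · exact tcl_holds r hg (by decide) _ _ tb50 g (show 50 ≤ g by omega) h50
  by_cases h75 : g < 100
  · exact tcl_holds r hg (by decide) _ _ tb75 g (show 75 ≤ g by omega) h75
  by_cases h100 : g < 125
  · exact tcl_holds r hg (by decide) _ _ tb100 g (show 100 ≤ g by omega) h100
  by_cases h125 : g < 150
  · exact tcl_holds r hg (by decide) _ _ tb125 g (show 125 ≤ g by omega) h125
  by_cases h150 : g < 175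
  · exact tcl_holds r hg (by decide) _ _ tb150 g (show 150 ≤ g by omega) h150
  by_cases h175 : g < 200
  · exact tcl_holds r hg (by decide) _ _ tb175 g (show 175 ≤ g by omega) h175
  by_cases h200 : g < 225
  · exact tcl_holds r hg (by decide) _ _ tb200 g (show 200 ≤ g by omega) h200
  by_cases h225 : g < 250
  · exact tcl_holds r hg (by decide) _ _ tb225 g (show 225 ≤ g by omega) h225
  by_cases h250 : g < 275
  · exact tcl_holds r hg (by decide) _ _ tb250 g (show 250 ≤ g by omega) h250
  by_cases h275 : g < 300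
  · exact tcl_holds r hg (by decide) _ _ tb275 g (show 275 ≤ g by omega) h275
  exact tcl_holds r hg (by decide) _ _ tb300 g (show 300 ≤ g by omega) h

end Pool.Agent.Hom2.Rq
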