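import Pool.Agent.Lib.MP_7e4769_co.Hc.Rp9
import Pool.Agent.Lib.MP_7e4769_co.Hc.Rp6a

set_option autoImplicit false
set_option linter.unusedSectionVars false

namespace Pool.Agent.Hom2.Rq

theorem an_iff (a b : Bool) : an a b = true ↔ a = true ∧ b = true := by cases a <;> simp [an]
theorem orr_iff (a b : Bool) : orr a b = true ↔ a = true ∨ b = true := by cases a <;> simp [orr]
theorem cH_eq (u : ℕ) : cH u = 2 ^ u := Nat.one_shiftLeft u
theorem cM_eq (u : ℕ) : cM u = 2 ^ u - 1 := congrArg (· - 1) (cH_eq u)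
theorem cM_lt (u : ℕ) : cM u < 2 ^ u := by
  have := Nat.two_pow_pos u
  rw [cM_eq]
  omega
theorem and_bit (a b p : ℕ) : (Nat.land a b).testBit p = (a.testBit p && b.testBit p) :=
  Nat.testBit_and a b p
theorem or_bit (a b p : ℕ) : (Nat.lor a b).testBit p = (a.testBit p || b.testBit p) :=
  Nat.testBit_or a b p
theorem xor_bit (a b p : ℕ) : (Nat.xor a b).testBit p = (a.testBit p ^^ b.testBit p) :=
  Nat.testBit_xor a b p
theorem shr_bit (a i p : ℕ) : (Nat.shiftRight a i).testBit p = a.testBit (i + p) :=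
  Nat.testBit_shiftRight a
theorem lt_up {x u : ℕ} (h : x < 2 ^ u) : x < 2 ^ (u + 1) := by
  rw [Nat.pow_succ]
  omega

def cat (w : ℕ) (f : ℕ → ℕ) : ℕ → ℕ
  | 0 => 0
  | N + 1 => cat w f N + f N * 2 ^ (w * N)

theorem cat_lt {w : ℕ} {f : ℕ → ℕ} (hf : ∀ s, f s < 2 ^ w) (N : ℕ) : cat w f N < 2 ^ (w * N) := by
  induction N with
  | zero => simp [cat]
  | succ N ih =>
    have h := Nat.mul_le_mul_right (2 ^ (w * N)) (Nat.succ_le_of_lt (hf N))
    rw [cat, Nat.mul_succ, Nat.pow_add, Nat.mul_comm (2 ^ (w * N))]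
    rw [Nat.succ_mul] at h
    omega

theorem cat_bit {w : ℕ} {f : ℕ → ℕ} (hf : ∀ s, f s < 2 ^ w) (N s : ℕ) {j : ℕ} (hj : j < w) :
    (cat w f N).testBit (w * s + j) = (decide (s < N) && (f s).testBit j) := by
  induction N with
  | zero => simp [cat]
  | succ N ih =>
    rw [cat, Nat.add_comm, Nat.mul_comm (f N), Nat.testBit_two_pow_mul_add _ (cat_lt hf N)]
    rcases Nat.lt_trichotomy s N with h | rfl | h
    · have := Nat.mul_le_mul_left w (Nat.succ_le_of_lt h)
      rw [Nat.mul_succ] at this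
      rw [if_pos (by omega), ih]
      simp [h, Nat.lt_succ_of_lt h]
    · rw [if_neg (by omega), Nat.add_sub_cancel_left]
      simp
    · have := Nat.mul_le_mul_left w (Nat.succ_le_of_lt h)
      rw [Nat.mul_succ] at this
      rw [if_neg (by omega), Nat.testBit_lt_two_pow
        (lt_of_lt_of_le (hf N) (Nat.pow_le_pow_right (by omega) (by omega)))]
      simp [show ¬ s < N + 1 by omega]

theorem cat_mul (w : ℕ) (f : ℕ → ℕ) (x N : ℕ) : cat w f N * x = cat w (fun s => f s * x) N := by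
  induction N with
  | zero => simp [cat]
  | succ N ih => rw [cat, cat, ← ih]; ring

theorem cat_add (w : ℕ) (f g : ℕ → ℕ) (N : ℕ) :
    cat w f N + cat w g N = cat w (fun s => f s + g s) N := by
  induction N with
  | zero => simp [cat]
  | succ N ih => rw [cat, cat, cat, ← ih]; ring

theorem rp_mul (w x N : ℕ) : Nat.mul x (rp w N) = cat w (fun _ => x) N := by
  induction N with
  | zero => rfl
  | succ N ih =>
    have e : rp w (N + 1) = rp w N + cH (w * N) := rfl
    rw [cat, ← ih, e, cH_eq]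
    exact Nat.mul_add _ _ _

theorem cat_ext {w N X : ℕ} {f : ℕ → ℕ} (hw : 0 < w) (hf : ∀ s, f s < 2 ^ w)
    (h : ∀ s, ∀ j < w, X.testBit (w * s + j) = (decide (s < N) && (f s).testBit j)) :
    X = cat w f N := by
  refine Nat.eq_of_testBit_eq fun p => ?_
  rw [← Nat.div_add_mod p w, h _ _ (Nat.mod_lt _ hw), cat_bit hf _ _ (Nat.mod_lt _ hw)]

theorem rep_bit {w x j : ℕ} (hx : x < 2 ^ w) (N s : ℕ) (hj : j < w) :
    (Nat.mul x (rp w N)).testBit (w * s + j) = (decide (s < N) && x.testBit j) := by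
  rw [rp_mul, cat_bit (fun _ => hx) N s hj]

theorem ex_eq {u m : ℕ} (hu : 144 ≤ u) (hm : m < 2 ^ 144) :
    Nat.land (Nat.mul m (rp u 144)) (cR u) = cat (u + 1) (fun s => (m.testBit s).toNat) 144 := by
  have h1 : 1 < 2 ^ (u + 1) := Nat.one_lt_two_pow (by omega)
  refine cat_ext (by omega) (fun s => lt_of_le_of_lt (Bool.toNat_le _) h1) fun s j hj => ?_
  have e : cR u = Nat.mul 1 (rp (u + 1) 144) := (Nat.one_mul _).symm
  rw [and_bit, e, rep_bit h1 _ _ hj]
  by_cases hs : s < 144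
  · cases j with
    | zero =>
      rw [show (u + 1) * s + 0 = u * s + s by ring,
        rep_bit (lt_of_lt_of_le hm (Nat.pow_le_pow_right (by omega) hu)) _ _ (by omega)]
      cases m.testBit s <;> simp [hs]
    | succ j => cases m.testBit s <;> simp [Nat.testBit_succ]
  · simp [hs]

theorem exm_bit {u m x s j : ℕ} (hu : 144 ≤ u) (hm : m < 2 ^ 144) (hx : x < 2 ^ (u + 1))
    (hs : s < 144) (hj : j < u + 1) :
    (exm u m x).testBit ((u + 1) * s + j) = (m.testBit s && x.testBit j) := by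
  have e : exm u m x = Nat.land (Nat.mul m (rp u 144)) (cR u) * x := rfl
  rw [e, ex_eq hu hm, cat_mul, cat_bit _ _ _ hj]
  · cases m.testBit s <;> simp [hs]
  · intro t
    cases m.testBit t <;> simp [hx]

theorem nz_bit {u m Q s : ℕ} (hm : m < 2 ^ u)
    (h : (Nat.add (Nat.land (Nat.mul m (cR u)) Q) (cMr u)).testBit ((u + 1) * s + u) = true) :
    ∃ j < u, m.testBit j = true ∧ Q.testBit ((u + 1) * s + j) = true := by
  have hy : ∀ t, Nat.land m (Nat.shiftRight Q ((u + 1) * t)) < 2 ^ u := fun t =>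
    lt_of_le_of_lt Nat.and_le_left hm
  have e1 : Nat.land (Nat.mul m (cR u)) Q =
      cat (u + 1) (fun t => Nat.land m (Nat.shiftRight Q ((u + 1) * t))) 144 := by
    refine cat_ext (by omega) (fun t => lt_up (hy t)) fun t j hj => ?_
    rw [and_bit, and_bit, shr_bit, show cR u = rp (u + 1) 144 from rfl, rep_bit (lt_up hm) _ _ hj,
      Bool.and_assoc]
  have e2 : cMr u = cat (u + 1) (fun _ => cM u) 144 := rp_mul _ _ _
  have hM := cM_lt u
  rw [e1, e2, Nat.add_eq, cat_add, cat_bit _ _ _ (Nat.lt_succ_self u), Bool.and_eq_true] at h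
  · have h2 := Nat.ge_two_pow_of_testBit h.2
    obtain ⟨j, hj⟩ := Nat.exists_testBit_of_ne_zero
      (show Nat.land m (Nat.shiftRight Q ((u + 1) * s)) ≠ 0 by omega)
    have h3 := Nat.ge_two_pow_of_testBit hj
    rw [and_bit, shr_bit, Bool.and_eq_true] at hj
    exact ⟨j, (Nat.pow_lt_pow_iff_right (by omega)).1 (lt_of_le_of_lt h3 (hy s)), hj⟩
  · intro t
    have := hy t
    rw [Nat.pow_succ]
    omega

theorem sub1_bit {E X p : ℕ} (h : sub1 E X = true) (hp : E.testBit p = true) : X.testBit p = true := by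
  rw [← Nat.eq_of_beq_eq_true h, and_bit, Bool.and_eq_true] at hp
  exact hp.1

theorem pfx_spec {u V P Q S p r x q : ℕ} (hu : 144 ≤ u) (hV : V < 2 ^ u) (hq : q < 144)
    (hx : x.testBit q = true) (l : T3) (h : pfx u V P Q S l = true) (hi : inQ l p r x = true) :
    ∃ j < u, V.testBit j = true ∧ P.testBit ((u + 1) * p + j) = true ∧
      Q.testBit ((u + 1) * q + j) = true ∧ S.testBit ((u + 1) * r + j) = true := by
  induction l with
  | nil => exact absurd hi (by simp [inQ])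
  | cons a b m l ih =>
    have h' : an (sub1 (exm u m (cH u)) (Nat.add (Nat.land (Nat.mul (Nat.land (Nat.land
      (Nat.shiftRight P ((u + 1) * a)) V) (Nat.shiftRight S ((u + 1) * b))) (cR u)) Q) (cMr u)))
      (pfx u V P Q S l) = true := h
    have hi' : orr (an (Nat.beq a p) (an (Nat.beq b r) (an (sub1 x m) (Nat.ble (m + 1) (cH 144)))))
      (inQ l p r x) = true := hi
    rw [an_iff] at h'
    rw [orr_iff, an_iff, an_iff, an_iff, Nat.beq_eq, Nat.beq_eq, Nat.ble_eq, cH_eq] at hi'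
    rcases hi' with ⟨rfl, rfl, h3, h4⟩ | hi'
    · have h5 : (exm u m (cH u)).testBit ((u + 1) * q + u) = true := by
        rw [exm_bit hu h4 (by rw [cH_eq]; exact Nat.pow_lt_pow_right (by omega) (by omega)) hq
          (by omega), sub1_bit h3 hx, cH_eq]
        simp
      obtain ⟨j, hj, h6, h7⟩ := nz_bit (lt_of_le_of_lt Nat.and_le_left
        (lt_of_le_of_lt Nat.and_le_right hV)) (sub1_bit h'.1 h5)
      have h8 : (Nat.land (Nat.land (Nat.shiftRight P ((u + 1) * a)) V)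
        (Nat.shiftRight S ((u + 1) * b))).testBit j = true := h6
      rw [and_bit, and_bit, shr_bit, shr_bit, Bool.and_eq_true, Bool.and_eq_true] at h8
      exact ⟨j, hj, h8.1.2, h8.1.1, h7, h8.2⟩
    · exact ih h'.2 hi'

def bb (a b : Bool) : Fin 4 := ⟨a.toNat + 2 * b.toNat, by cases a <;> cases b <;> decide⟩
/-- colour at the place `p` of two planes -/
def cb (lo hi p : ℕ) : Fin 4 := bb (lo.testBit p) (hi.testBit p)

theorem neM_bit (a a' b b' p : ℕ) : (neM a a' b b').testBit p = decide (cb a a' p ≠ cb b b' p) := by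
  unfold neM cb
  rw [or_bit, xor_bit, xor_bit]
  generalize a.testBit p = x, a'.testBit p = x', b.testBit p = y, b'.testBit p = y'
  revert x x' y y'
  decide

theorem okM_bit {a a' x x' y y' z z' p : ℕ} (h : (okM a a' x x' y y' z z').testBit p = true) :
    ok4 (cb a a' p) (cb x x' p) (cb y y' p) (cb z z' p) := by
  unfold okM ok3 at h
  simp only [and_bit, or_bit, xor_bit, neM_bit] at h
  revert h
  generalize cb a a' p = A, cb x x' p = X, cb y y' p = Y, cb z z' p = Z
  revert A X Y Z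
  decide +kernel

/-- colour of the vertex `v` in the colouring `j` -/
def cl (u J L H j v : ℕ) : Fin 4 := cb (pl u J L v) (pl u J H v) j

theorem pr_cb {u J L H v s j : ℕ} (hs : s < 144) (hj : j < u) :
    cb (pr u J L v) (pr u J H v) ((u + 1) * s + j) = cl u J L H j v := by
  have k : ∀ L, (pr u J L v).testBit ((u + 1) * s + j) = (pl u J L v).testBit j := fun L => by
    have : pl u J L v < 2 ^ (u + 1) := lt_up (lt_of_le_of_lt Nat.and_le_right (cM_lt u))
    rw [show pr u J L v = Nat.mul (pl u J L v) (rp (u + 1) 144) from rfl, rep_bit this _ _ (by omega)]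
    simp [hs]
  unfold cl cb
  rw [k, k]

theorem cK_cb {u m m' s j : ℕ} (hu : 144 ≤ u) (hm : m < 2 ^ 144) (hm' : m' < 2 ^ 144) (hs : s < 144)
    (hj : j < u) : cb (cK u m) (cK u m') ((u + 1) * s + j) = cb m m' s := by
  unfold cb cK
  rw [exm_bit hu hm (lt_up (cM_lt u)) hs (by omega), exm_bit hu hm' (lt_up (cM_lt u)) hs (by omega),
    cM_eq, Nat.testBit_two_pow_sub_one]
  simp [hj]

theorem wp1_bit {u J L H v y z m0 m1 m2 m3 s j : ℕ} (hu : 144 ≤ u) (h0 : m0 < 2 ^ 144)
    (h1 : m1 < 2 ^ 144) (h2 : m2 < 2 ^ 144) (h3 : m3 < 2 ^ 144) (hs : s < 144) (hj : j < u)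
    (h : (wp1 u J L H v y z m0 m1 m2 m3).testBit ((u + 1) * s + j) = true) :
    ok4 (cl u J L H j v) (cb m2 m3 s) (cl u J L H j y) (cl u J L H j z) ∧
      cl u J L H j v ≠ cb m0 m1 s := by
  unfold wp1 wp0 at h
  rw [and_bit, Bool.and_eq_true, neM_bit, decide_eq_true_iff] at h
  have k := okM_bit h.1
  have k' := h.2
  rw [pr_cb hs hj, cK_cb hu h2 h3 hs hj, pr_cb hs hj, pr_cb hs hj] at k
  rw [pr_cb hs hj, cK_cb hu h0 h1 hs hj] at k'
  exact ⟨k, k'⟩

theorem sg_spec : ∀ c e d f : Fin 4, c ≠ e → d ≠ f → sg2 (atm c e) (atm d f) < 144 ∧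
    cb 0x5a55a55a55a55a55a55a55a55a55a55a55a5 0x936936936936936936936936936936936936
      (sg2 (atm c e) (atm d f)) = e ∧
    cb 0xe38e38e38e38e38e38e38e38e38e38e38e38 0xfc0fc0fc0fc0fc0fc0fc0fc0fc0fc0fc0fc0
      (sg2 (atm c e) (atm d f)) = c ∧
    cb 0xfff000ffffff000fff000000fff000fff 0xfff000000fff000000ffffff000ffffff000
      (sg2 (atm c e) (atm d f)) = f ∧
    cb 0xfffffffff000000000fffffffff000000000 0xffffffffffffffffff000000000000000000
      (sg2 (atm c e) (atm d f)) = d := by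
  decide +kernel

/-- the port `v` answers the atom `c`, `e` -/
def PA (R : ℕ) (C : ℕ → Fin 4) (v : ℕ) (c e : Fin 4) : Prop :=
  ok4 (C v) c (C (nbr R v 1)) (C (nbr R v 2)) ∧ C v ≠ e

theorem wpA_bit {u J L H R v j : ℕ} {c e d f : Fin 4} (hu : 144 ≤ u) (hj : j < u) (h1 : c ≠ e)
    (h2 : d ≠ f) (h : (wpA u J L H R v).testBit ((u + 1) * sg2 (atm c e) (atm d f) + j) = true) :
    PA R (cl u J L H j) v c e := by
  obtain ⟨a, b, b', -, -⟩ := sg_spec c e d f h1 h2
  have k := wp1_bit hu (by decide) (by decide) (by decide) (by decide) a hj h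
  exact ⟨b' ▸ k.1, b ▸ k.2⟩

theorem wpP_bit {u J L H R v j : ℕ} {c e d f : Fin 4} (hu : 144 ≤ u) (hj : j < u) (h1 : c ≠ e)
    (h2 : d ≠ f) (h : (wpP u J L H R v).testBit ((u + 1) * sg2 (atm c e) (atm d f) + j) = true) :
    PA R (cl u J L H j) v c e ∧ PA R (cl u J L H j) (v + 1) d f := by
  unfold wpP at h
  rw [and_bit, Bool.and_eq_true] at h
  obtain ⟨a, -, -, b, b'⟩ := sg_spec c e d f h1 h2
  have k := wp1_bit hu (by decide) (by decide) (by decide) (by decide) a hj h.2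
  exact ⟨wpA_bit hu hj h1 h2 h.1, b' ▸ k.1, b ▸ k.2⟩

theorem vM_spec {u J L H R b : ℕ} (m : ℕ) : vM u J L H R b m < 2 ^ u ∧
    ∀ j, (vM u J L H R b m).testBit j = true → ∀ t < m, ok4 (cl u J L H j (b + t))
      (cl u J L H j (nbr R (b + t) 0)) (cl u J L H j (nbr R (b + t) 1))
      (cl u J L H j (nbr R (b + t) 2)) := by
  induction m with
  | zero => exact ⟨cM_lt u, fun _ _ t ht => absurd ht (by omega)⟩
  | succ m ih =>
    have e : vM u J L H R b (m + 1) = Nat.land (vM u J L H R b m) (okW u J L H R (b + m)) := rfl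
    rw [e]
    refine ⟨lt_of_le_of_lt Nat.and_le_left ih.1, fun j hj t ht => ?_⟩
    rw [and_bit, Bool.and_eq_true] at hj
    rcases Nat.lt_succ_iff_lt_or_eq.1 ht with h | rfl
    · exact ih.2 j hj.1 t h
    · exact okM_bit hj.2

theorem tq_spec {u k n R J L H S r x : ℕ} {l : T3} {c e : ℕ → Fin 4} (hu : 144 ≤ u)
    (h : tq u k n R J L H S l = true) (hc : ∀ i < 4, c i ≠ e i)
    (hx : x.testBit (sg2 (atm (c 2) (e 2)) (atm (c 3) (e 3))) = true)
    (hi : inQ l (sg2 (atm (c 0) (e 0)) (atm (c 1) (e 1))) r x = true) :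
    ∃ j < u, S.testBit ((u + 1) * r + j) = true ∧
      (∀ v < n, 2 * k ≤ v → ok4 (cl u J L H j v) (cl u J L H j (nbr R v 0))
        (cl u J L H j (nbr R v 1)) (cl u J L H j (nbr R v 2))) ∧
      ∀ i < 4, PA R (cl u J L H j) (k + i) (c i) (e i) := by
  have c0 := hc 0 (by omega)
  have c1 := hc 1 (by omega)
  have c2 := hc 2 (by omega)
  have c3 := hc 3 (by omega)
  obtain ⟨j, hj, a, b, d, f⟩ := pfx_spec hu (vM_spec _).1 (sg_spec _ _ _ _ c2 c3).1 hx l h hi
  refine ⟨j, hj, f, fun v h1 h2 => ?_, fun i h4 => ?_⟩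
  · have := (vM_spec _).2 j a (v - (k + k)) (by show _ < n - (k + k); omega)
    rwa [show Nat.add k k + (v - (k + k)) = v by show k + k + _ = _; omega] at this
  · interval_cases i
    exacts [(wpP_bit hu hj c0 c1 b).1, (wpP_bit hu hj c0 c1 b).2, (wpP_bit hu hj c2 c3 d).1,
      (wpP_bit hu hj c2 c3 d).2]

/-- the edge is listed -/
def Lk (E v x : ℕ) : Prop := x ≠ v ∧ (s0 E v 6 = x ∨ s0 E v 12 = x ∨ s0 E x 6 = v ∨ s0 E x 12 = v)

theorem lk_spec {E v x : ℕ} (h : lk E v x = true) : Lk E v x := by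
  unfold lk at h
  cases e : Nat.beq x v
  · rw [e] at h
    have h' : orr (Nat.beq (s0 E v 6) x) (orr (Nat.beq (s0 E v 12) x)
      (orr (Nat.beq (s0 E x 6) v) (Nat.beq (s0 E x 12) v))) = true := h
    simp only [orr_iff, Nat.beq_eq] at h'
    exact ⟨(beq_false _ _).1 e, h'⟩
  · rw [e] at h
    exact absurd (show false = true from h) (by decide)

theorem wl_spec {g n E R : ℕ} (hg : g < 3) (h : wl (g + 4) n E R (n - (g + 4)) = true) :
    WfT g n R ∧ ∀ v < n, g + 4 ≤ v → ∀ s < 3, Lk E v (nbr R v s) := by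
  have k : ∀ m, wl (g + 4) n E R m = true →
      g + 4 + (g + 4) ≤ n ∧ ∀ t < m, wv1 (g + 4) n E R (g + 4 + t) = true := by
    intro m
    induction m with
    | zero => exact fun h => ⟨Nat.le_of_ble_eq_true h, fun t ht => absurd ht (by omega)⟩
    | succ m ih =>
      intro h
      have h' : an (wv1 (g + 4) n E R (g + 4 + m)) (wl (g + 4) n E R m) = true := h
      rw [an_iff] at h'
      refine ⟨(ih h'.2).1, fun t ht => ?_⟩
      rcases Nat.lt_succ_iff_lt_or_eq.1 ht with h | rfl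
      exacts [(ih h'.2).2 t h, h'.1]
  obtain ⟨k1, k2⟩ := k _ h
  have k3 : ∀ v < n, g + 4 ≤ v → nbr R v 0 < nbr R v 1 ∧ nbr R v 1 < nbr R v 2 ∧ nbr R v 2 < n ∧
      g + 4 ≤ nbr R v 1 ∧ (if v < 2 * (g + 4) then nbr R v 0 + (g + 4) = v else g + 4 ≤ nbr R v 0) ∧
      Lk E v (nbr R v 0) ∧ Lk E v (nbr R v 1) ∧ Lk E v (nbr R v 2) := by
    intro v h1 h2
    have := k2 (v - (g + 4)) (by omega)
    rw [Nat.add_sub_cancel' h2] at this
    have e : wv (g + 4) n E v (nbr R v 0) (nbr R v 1) (nbr R v 2) = true := this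
    unfold wv at e
    simp only [an_iff, Nat.ble_eq] at e
    obtain ⟨a, b, c, d, f, l0, l1, l2⟩ := e
    refine ⟨a, b, c, d, ?_, lk_spec l0, lk_spec l1, lk_spec l2⟩
    cases q : Nat.ble (Nat.add (g + 4) (g + 4)) v <;> rw [q] at f
    · rw [if_pos (by have := (ble_false _ _).1 q; simp only [Nat.add_eq] at this; omega)]
      exact Nat.eq_of_beq_eq_true f
    · rw [if_neg (by have := Nat.le_of_ble_eq_true q; simp only [Nat.add_eq] at this; omega)]
      exact Nat.le_of_ble_eq_true f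
  refine ⟨⟨hg, by omega, fun v h1 h2 => ?_⟩, fun v h1 h2 s hs => ?_⟩
  · obtain ⟨a, b, c, d, f, -⟩ := k3 v h1 h2
    refine ⟨fun s hs => ?_, by omega, by omega, by omega, d, by omega, f⟩
    interval_cases s <;> omega
  · obtain ⟨-, -, -, -, -, a, b, c⟩ := k3 v h1 h2
    interval_cases s <;> assumption

end Pool.Agent.Hom2.Rq
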