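import Pool.Agent.Lib.MP_7e4769_co.Hc.Rp9
import Pool.Agent.Lib.MP_7e4769_co.Hc.ScA

set_option autoImplicit false

namespace Pool.Agent.Hom2.Rq

def pt0 : T3 :=
  .cons (nat_lit 1) (nat_lit 0) (nat_lit 0x88050000000800400000400800000000000) <|
  .cons (nat_lit 13) (nat_lit 0) (nat_lit 0x18000010000000000001000000000000020) <|
  .cons (nat_lit 37) (nat_lit 0) (nat_lit 0x200000800000000000020000000000000000) <|
  .cons (nat_lit 49) (nat_lit 0) (nat_lit 0x81b0c30d802d605628146a06b401b0c30d80) <|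
  .cons (nat_lit 61) (nat_lit 0) (nat_lit 0xc1b8c30d816d605728146a06b401b0c30d80) <|
  .cons (nat_lit 85) (nat_lit 0) (nat_lit 0x400800000000000000000000000004000000) <|
  .nil

def pt1 : T3 :=
  .cons (nat_lit 1) (nat_lit 4) (nat_lit 0x20000000100000000000000000) <|
  .cons (nat_lit 1) (nat_lit 5) (nat_lit 0x90100000000100000000000000) <|
  .cons (nat_lit 1) (nat_lit 7) (nat_lit 0x20000000100000000000000000) <|
  .cons (nat_lit 1) (nat_lit 8) (nat_lit 0x20000090020000000000000) <|
  .cons (nat_lit 13) (nat_lit 0) (nat_lit 0x10000040000000000000) <|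
  .cons (nat_lit 13) (nat_lit 3) (nat_lit 0x8000000040000000000) <|
  .cons (nat_lit 13) (nat_lit 4) (nat_lit 0x1000000000000000040) <|
  .cons (nat_lit 13) (nat_lit 6) (nat_lit 0x1008000000010) <|
  .cons (nat_lit 49) (nat_lit 0) (nat_lit 0x6156050000c30c302d41b03f6280d86f8) <|
  .cons (nat_lit 49) (nat_lit 1) (nat_lit 0xe36800a0e1460c31c780081b21bb40bd80d8) <|
  .cons (nat_lit 49) (nat_lit 2) (nat_lit 0xa16605e0714600014602d80002df68b40628) <|
  .cons (nat_lit 49) (nat_lit 3) (nat_lit 0x62862a0000d80d86050c36c702d21b03f) <|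
  .cons (nat_lit 49) (nat_lit 4) (nat_lit 0xe36c318001b01f80d8d80dc30c380081b41b) <|
  .cons (nat_lit 49) (nat_lit 5) (nat_lit 0xc32e386281b01b0000f85d8060502d80002d) <|
  .cons (nat_lit 49) (nat_lit 6) (nat_lit 0xb40000b40a0601ba1f0000d80d81461c70c3) <|
  .cons (nat_lit 49) (nat_lit 7) (nat_lit 0xd80d80000c30c3b01b1b01f80d80000c30c3) <|
  .cons (nat_lit 49) (nat_lit 8) (nat_lit 0xfc0d80b40e36c30a061b01b0000146146000) <|
  .cons (nat_lit 49) (nat_lit 9) (nat_lit 0x15602d16fb40000b4062880062ae07a0e605) <|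
  .cons (nat_lit 49) (nat_lit 10) (nat_lit 0x1b21bd02dd80d80000e38c31628605800615) <|
  .cons (nat_lit 49) (nat_lit 11) (nat_lit 0x1f61b2156fc0d80b40c32e36000a16e36000) <|
  .cons (nat_lit 61) (nat_lit 0) (nat_lit 0x6056050000c30c302d01b03f6280d86f8) <|
  .cons (nat_lit 61) (nat_lit 1) (nat_lit 0xa16000a061460c31c700081b01bb40bd80d8) <|
  .cons (nat_lit 61) (nat_lit 2) (nat_lit 0xa06605e0716600014612d00002df68b40628) <|
  .cons (nat_lit 61) (nat_lit 3) (nat_lit 0x6286280000d80d86050c36c702d01b03f) <|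
  .cons (nat_lit 61) (nat_lit 4) (nat_lit 0xc32c300001b01f80d8d80dc30c300081b01b) <|
  .cons (nat_lit 61) (nat_lit 5) (nat_lit 0xc30e386281b41b0000f85d8060512d00002d) <|
  .cons (nat_lit 61) (nat_lit 6) (nat_lit 0xb40000b40a0601ba1f0000d80d81461c70c3) <|
  .cons (nat_lit 61) (nat_lit 7) (nat_lit 0xd80d80000c30c3b01b1b01f80d80000c30c3) <|
  .cons (nat_lit 61) (nat_lit 8) (nat_lit 0xfc0d80b40e36c30a061b41b0000166146000) <|
  .cons (nat_lit 61) (nat_lit 9) (nat_lit 0x14602d16fb40000b40628000628e07a06605) <|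
  .cons (nat_lit 61) (nat_lit 10) (nat_lit 0x1b01bd02dd80d80000e38c30628605000605) <|
  .cons (nat_lit 61) (nat_lit 11) (nat_lit 0x1f61b0146fc0d80b40c30c32000a06a16000) <|
  .nil

def pt2_3 : T3 :=
  .cons (nat_lit 61) (nat_lit 100) (nat_lit 0x8000000002080000010000) <|
  .cons (nat_lit 61) (nat_lit 101) (nat_lit 0x1b0c31d822d605638146a46b401b0c30d80) <|
  .cons (nat_lit 61) (nat_lit 102) (nat_lit 0x100200000000000000000000000000) <|
  .cons (nat_lit 61) (nat_lit 103) (nat_lit 0x80000000400000000000000000000000) <|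
  .cons (nat_lit 61) (nat_lit 105) (nat_lit 0x60002100100000000000080000) <|
  .cons (nat_lit 61) (nat_lit 108) (nat_lit 0x4000000000000000000000000800000000) <|
  .cons (nat_lit 61) (nat_lit 111) (nat_lit 0x1b0c30d802f605628146a06b401b0d30d80) <|
  .cons (nat_lit 61) (nat_lit 112) (nat_lit 0x1b0c30d802d605628146a06b401b0c30d80) <|
  .cons (nat_lit 61) (nat_lit 113) (nat_lit 0x80000000000800000000000000000000000) <|
  .cons (nat_lit 61) (nat_lit 114) (nat_lit 0x21b0c38d802d605628146a06b401b0c30d80) <|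
  .cons (nat_lit 61) (nat_lit 115) (nat_lit 0x1b0c30d802d605628146a06b401b0c30d80) <|
  .cons (nat_lit 61) (nat_lit 116) (nat_lit 0x60002100100000000000080000) <|
  .cons (nat_lit 61) (nat_lit 119) (nat_lit 0x40000000200000000000000000000) <|
  .cons (nat_lit 61) (nat_lit 120) (nat_lit 0x1b0c30d802d605628146a06b401b0c30d80) <|
  .cons (nat_lit 61) (nat_lit 121) (nat_lit 0x1b0c30d802d605628146a06b401b0c30d80) <|
  .cons (nat_lit 61) (nat_lit 122) (nat_lit 0x2000000000000000000000000000800000) <|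
  .cons (nat_lit 61) (nat_lit 126) (nat_lit 0x1b0c30d802d605628146a06b401b0c30d80) <|
  .cons (nat_lit 61) (nat_lit 127) (nat_lit 0x1b0c30d80ad705628146a06b401b0c30d80) <|
  .cons (nat_lit 61) (nat_lit 131) (nat_lit 0x80000000000800000000000000000000000) <|
  .cons (nat_lit 61) (nat_lit 132) (nat_lit 0x1b0c30d802d605628146a06b401b0c30d80) <|
  .cons (nat_lit 61) (nat_lit 133) (nat_lit 0x9b0c70d802de05628146a06b405b0c30d80) <|
  .cons (nat_lit 61) (nat_lit 134) (nat_lit 0x1000000000004000000020000200) <|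
  .cons (nat_lit 61) (nat_lit 135) (nat_lit 0x1b0c30d802d605628146a16b401b0c30d80) <|
  .cons (nat_lit 61) (nat_lit 136) (nat_lit 0x1b0c30d802d605628146a06b401b0c30d80) <|
  .cons (nat_lit 61) (nat_lit 137) (nat_lit 0x1000000000000000000080) <|
  .cons (nat_lit 61) (nat_lit 139) (nat_lit 0x402800020000000000200000000000800000) <|
  .cons (nat_lit 61) (nat_lit 141) (nat_lit 0x40000000200000000000000000000) <|
  .cons (nat_lit 61) (nat_lit 142) (nat_lit 0x80000000000800000000000000000000000) <|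
  .cons (nat_lit 85) (nat_lit 1) (nat_lit 0x8000000000000000000000800000000000) <|
  .cons (nat_lit 85) (nat_lit 11) (nat_lit 0x2000000000000004000000000040800000) <|
  .cons (nat_lit 85) (nat_lit 12) (nat_lit 0x8000000000000000000000800000000000) <|
  .cons (nat_lit 85) (nat_lit 15) (nat_lit 0x40000000200000000000000000000) <|
  .cons (nat_lit 85) (nat_lit 16) (nat_lit 0x2000000000000000000000000000800000) <|
  .cons (nat_lit 85) (nat_lit 17) (nat_lit 0x100200000000000000000000000000) <|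
  .cons (nat_lit 85) (nat_lit 22) (nat_lit 0x8000000000000000200000000000) <|
  .cons (nat_lit 85) (nat_lit 23) (nat_lit 0xb000000020000000104002800020810800) <|
  .cons (nat_lit 85) (nat_lit 27) (nat_lit 0x8000000000000000000000800000000000) <|
  .cons (nat_lit 85) (nat_lit 28) (nat_lit 0x4000000000000000100000000) <|
  .cons (nat_lit 85) (nat_lit 29) (nat_lit 0x2000000020000000100000000000800000) <|
  .cons (nat_lit 85) (nat_lit 30) (nat_lit 0x1000000008000000000000100000000800) <|
  .cons (nat_lit 85) (nat_lit 32) (nat_lit 0x4000010000000) <|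
  .cons (nat_lit 85) (nat_lit 37) (nat_lit 0x40000000200000000000000000000) <|
  .cons (nat_lit 85) (nat_lit 38) (nat_lit 0x8000000000000000000000800000000000) <|
  .cons (nat_lit 85) (nat_lit 43) (nat_lit 0x10000000000000000000800000000000000) <|
  .cons (nat_lit 85) (nat_lit 44) (nat_lit 0x4000000000040000000) <|
  .cons (nat_lit 85) (nat_lit 45) (nat_lit 0x2000000000000000000000000400000) <|
  .cons (nat_lit 85) (nat_lit 47) (nat_lit 0x2000000000000000000000004008801002) <|
  .cons (nat_lit 85) (nat_lit 49) (nat_lit 0x2000000000000000000000000000800000) <|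
  .cons (nat_lit 85) (nat_lit 50) (nat_lit 0x4000000000000000100000000) <|
  .cons (nat_lit 85) (nat_lit 59) (nat_lit 0x8000000000080000000000) <|
  .cons (nat_lit 85) (nat_lit 61) (nat_lit 0x100200000000000000000000000000) <|
  .cons (nat_lit 85) (nat_lit 62) (nat_lit 0x2000000020000000100000000000800000) <|
  .cons (nat_lit 85) (nat_lit 68) (nat_lit 0x2000000000000000004000000020800000) <|
  .cons (nat_lit 85) (nat_lit 74) (nat_lit 0x1000000008000000000000100000000800) <|
  .cons (nat_lit 85) (nat_lit 81) (nat_lit 0x2000008000) <|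
  .cons (nat_lit 85) (nat_lit 87) (nat_lit 0x10000000000000000000800000000000000) <|
  .cons (nat_lit 85) (nat_lit 98) (nat_lit 0x4000010000000) <|
  .cons (nat_lit 85) (nat_lit 99) (nat_lit 0x4000000000040000000) <|
  .cons (nat_lit 85) (nat_lit 101) (nat_lit 0x2000000000000000004000000020800000) <|
  .cons (nat_lit 85) (nat_lit 105) (nat_lit 0x2000000000020000) <|
  .cons (nat_lit 85) (nat_lit 111) (nat_lit 0x2000000000000000000000000400000) <|
  .cons (nat_lit 85) (nat_lit 114) (nat_lit 0x2000008000) <|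
  .cons (nat_lit 85) (nat_lit 116) (nat_lit 0x2000000000020000) <|
  .cons (nat_lit 85) (nat_lit 121) (nat_lit 0x8000000000000000200000000000) <|
  .cons (nat_lit 85) (nat_lit 132) (nat_lit 0x2000000000000004000000000040800000) <|
  .cons (nat_lit 85) (nat_lit 133) (nat_lit 0xb000000020000000104002800020810800) <|
  .cons (nat_lit 85) (nat_lit 135) (nat_lit 0x2000000000000000000000004008801002) <|
  .cons (nat_lit 85) (nat_lit 136) (nat_lit 0x8000000000080000000000) <|
  .nil

def pt2_2 : T3 :=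
  .cons (nat_lit 49) (nat_lit 120) (nat_lit 0x1b0c30d802f6456a8146a06b401b0d30d80) <|
  .cons (nat_lit 49) (nat_lit 121) (nat_lit 0x1b0c30d803d605628147b06b401b0c30da0) <|
  .cons (nat_lit 49) (nat_lit 122) (nat_lit 0x10000000004000000000800000100000000) <|
  .cons (nat_lit 49) (nat_lit 123) (nat_lit 0x2080000000400000000000000000800000) <|
  .cons (nat_lit 49) (nat_lit 126) (nat_lit 0x1b0c30d802d605628146a0eb501b0c30d80) <|
  .cons (nat_lit 49) (nat_lit 127) (nat_lit 0x1b0cb0d802f605628146a06f401b0d30d80) <|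
  .cons (nat_lit 49) (nat_lit 128) (nat_lit 0x1000000000000000000000100) <|
  .cons (nat_lit 49) (nat_lit 131) (nat_lit 0x20000000100000000000000000) <|
  .cons (nat_lit 49) (nat_lit 132) (nat_lit 0x1b0c30d802d605628146a06b401b0c30d80) <|
  .cons (nat_lit 49) (nat_lit 133) (nat_lit 0x1b0cb0f802f607628346a06f401b0db0d80) <|
  .cons (nat_lit 49) (nat_lit 135) (nat_lit 0x1b0c30d802d605628146a06b401b0c30d80) <|
  .cons (nat_lit 49) (nat_lit 136) (nat_lit 0x1b0c70d903d605638146b46b405b0c30f80) <|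
  .cons (nat_lit 49) (nat_lit 138) (nat_lit 0x4000000000040000000) <|
  .cons (nat_lit 49) (nat_lit 139) (nat_lit 0x20000080000000000000000) <|
  .cons (nat_lit 49) (nat_lit 141) (nat_lit 0x4000000000000000100000000) <|
  .cons (nat_lit 49) (nat_lit 142) (nat_lit 0x20000000100000000000000000) <|
  .cons (nat_lit 61) (nat_lit 7) (nat_lit 0x3b0c30d802d605628946a06b401b0c30d80) <|
  .cons (nat_lit 61) (nat_lit 8) (nat_lit 0x1b0c30d802d605628146a06b401b4c30d80) <|
  .cons (nat_lit 61) (nat_lit 9) (nat_lit 0x4000000000000000000000000800000000) <|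
  .cons (nat_lit 61) (nat_lit 10) (nat_lit 0x1b0c30d802d605628146a06b401b0c30d80) <|
  .cons (nat_lit 61) (nat_lit 11) (nat_lit 0x1b0c30d802d605628146a06b401b0c30d80) <|
  .cons (nat_lit 61) (nat_lit 16) (nat_lit 0x1b0c30d803d605628146b06b401b0c30d80) <|
  .cons (nat_lit 61) (nat_lit 17) (nat_lit 0x1b0c30d802d605628146a06b401b0c30d80) <|
  .cons (nat_lit 61) (nat_lit 19) (nat_lit 0x100200000000000000000000000000) <|
  .cons (nat_lit 61) (nat_lit 20) (nat_lit 0x8000000000000000200000000000) <|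
  .cons (nat_lit 61) (nat_lit 22) (nat_lit 0x1b0c30d802d605628146a06b401b0c30d80) <|
  .cons (nat_lit 61) (nat_lit 23) (nat_lit 0x9b0c70d802de05628146a06b405b0c30d80) <|
  .cons (nat_lit 61) (nat_lit 26) (nat_lit 0x1000000000000000000000100) <|
  .cons (nat_lit 61) (nat_lit 28) (nat_lit 0x1b0c30d802d605628146a06b401b0c30d80) <|
  .cons (nat_lit 61) (nat_lit 29) (nat_lit 0x1f0c30d802d605628146a06b409b0c30d80) <|
  .cons (nat_lit 61) (nat_lit 31) (nat_lit 0x1b0c30d802d605628146a06b401b0c30d80) <|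
  .cons (nat_lit 61) (nat_lit 32) (nat_lit 0x1b0c30d802d605628146a06b401b0c30d80) <|
  .cons (nat_lit 61) (nat_lit 34) (nat_lit 0x2000000000000000000000000000800000) <|
  .cons (nat_lit 61) (nat_lit 35) (nat_lit 0x1000000000004000000020000200) <|
  .cons (nat_lit 61) (nat_lit 42) (nat_lit 0x1b0c30d802d605628146a06b401b0c30d80) <|
  .cons (nat_lit 61) (nat_lit 43) (nat_lit 0x10000000000100000000000000) <|
  .cons (nat_lit 61) (nat_lit 44) (nat_lit 0x1b0c30d802d605628146a06b401b0c30d80) <|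
  .cons (nat_lit 61) (nat_lit 45) (nat_lit 0x1b0c30d802f605628146a06b401b0d30d80) <|
  .cons (nat_lit 61) (nat_lit 47) (nat_lit 0x1b0c30d802d605628146a16b401b0c30d80) <|
  .cons (nat_lit 61) (nat_lit 49) (nat_lit 0x1b0c30d803d605628146b06b401b0c30d80) <|
  .cons (nat_lit 61) (nat_lit 50) (nat_lit 0x1b0c30d802d605628146a06b401b0c30d80) <|
  .cons (nat_lit 61) (nat_lit 52) (nat_lit 0x8000000000000000000000800000000000) <|
  .cons (nat_lit 61) (nat_lit 54) (nat_lit 0x20000000100000000000000000) <|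
  .cons (nat_lit 61) (nat_lit 56) (nat_lit 0x8000000002080000010000) <|
  .cons (nat_lit 61) (nat_lit 57) (nat_lit 0x1b0c30d802d605628146a06b401b0c30d80) <|
  .cons (nat_lit 61) (nat_lit 59) (nat_lit 0x1b0c30d802d605628146a06b401b0c30d80) <|
  .cons (nat_lit 61) (nat_lit 61) (nat_lit 0x1b0c30d802d605628146a06b401b0c30d80) <|
  .cons (nat_lit 61) (nat_lit 62) (nat_lit 0x1f0c30d802d605628146a06b409b0c30d80) <|
  .cons (nat_lit 61) (nat_lit 66) (nat_lit 0x1b0c30d802d605628146a06b401b0c30d80) <|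
  .cons (nat_lit 61) (nat_lit 68) (nat_lit 0x1b0c31d822d605638146a46b401b0c30d80) <|
  .cons (nat_lit 61) (nat_lit 69) (nat_lit 0x80000000000800000000000000000000000) <|
  .cons (nat_lit 61) (nat_lit 71) (nat_lit 0x1000000000000000000080) <|
  .cons (nat_lit 61) (nat_lit 75) (nat_lit 0x1b0c30d802d605628146a06b401b0c30d80) <|
  .cons (nat_lit 61) (nat_lit 76) (nat_lit 0x20000000100000000000000000) <|
  .cons (nat_lit 61) (nat_lit 77) (nat_lit 0x1b0c30d802d605628146a06b401b0c30d80) <|
  .cons (nat_lit 61) (nat_lit 80) (nat_lit 0x100200000000000000000000000000) <|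
  .cons (nat_lit 61) (nat_lit 81) (nat_lit 0x21b0c38d802d605628146a06b401b0c30d80) <|
  .cons (nat_lit 61) (nat_lit 82) (nat_lit 0x1b0c30d802d605628146a06b401b0c30d80) <|
  .cons (nat_lit 61) (nat_lit 84) (nat_lit 0x3b0c30d802d605628946a06b401b0c30d80) <|
  .cons (nat_lit 61) (nat_lit 85) (nat_lit 0x100200000000000000000000000000) <|
  .cons (nat_lit 61) (nat_lit 86) (nat_lit 0x1b0c30d802d605628146a06b401b0c30d80) <|
  .cons (nat_lit 61) (nat_lit 87) (nat_lit 0x10000000000100000000000000) <|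
  .cons (nat_lit 61) (nat_lit 92) (nat_lit 0x80000000400000000000000000000000) <|
  .cons (nat_lit 61) (nat_lit 93) (nat_lit 0x1b0c30d802d605628146a06b401b0c30d80) <|
  .cons (nat_lit 61) (nat_lit 94) (nat_lit 0x1b0c30d80ad705628146a06b401b0c30d80) <|
  .cons (nat_lit 61) (nat_lit 95) (nat_lit 0x402800020000000000200000000000800000) <|
  .cons (nat_lit 61) (nat_lit 96) (nat_lit 0x1b0c30d802d605628146a06b401b4c30d80) <|
  .cons (nat_lit 61) (nat_lit 97) (nat_lit 0x8000000000000000200000000000) <|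
  .cons (nat_lit 61) (nat_lit 98) (nat_lit 0x1b0c30d802d605628146a06b401b0c30d80) <|
  .cons (nat_lit 61) (nat_lit 99) (nat_lit 0x1b0c30d802d605628146a06b401b0c30d80) <|
  pt2_3

def pt2_1 : T3 :=
  .cons (nat_lit 49) (nat_lit 9) (nat_lit 0x10000040000000200000800000000000000) <|
  .cons (nat_lit 49) (nat_lit 10) (nat_lit 0x1b0c30d802f6456a8146a06b401b0d30d80) <|
  .cons (nat_lit 49) (nat_lit 11) (nat_lit 0x1b0c30d802d605628146a06b401b0c30d80) <|
  .cons (nat_lit 49) (nat_lit 12) (nat_lit 0x80000200000000000000000000000) <|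
  .cons (nat_lit 49) (nat_lit 16) (nat_lit 0x1b0c30d803f605628146b06b401b0d30d80) <|
  .cons (nat_lit 49) (nat_lit 17) (nat_lit 0x1b0c30d803d605628146b06b401b0c30d80) <|
  .cons (nat_lit 49) (nat_lit 19) (nat_lit 0x2000000000000000000000000000800000) <|
  .cons (nat_lit 49) (nat_lit 20) (nat_lit 0x2081010000400000000206000010810400) <|
  .cons (nat_lit 49) (nat_lit 22) (nat_lit 0x1b0c30d803d605628147b06b401b0c30da0) <|
  .cons (nat_lit 49) (nat_lit 23) (nat_lit 0x1b0cb0f802f607628346a06f401b0db0d80) <|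
  .cons (nat_lit 49) (nat_lit 27) (nat_lit 0x10000000000000200000000000000) <|
  .cons (nat_lit 49) (nat_lit 28) (nat_lit 0x1b0c30d802f605628146a06b401b0d30d80) <|
  .cons (nat_lit 49) (nat_lit 29) (nat_lit 0x1b0c30d802d605628146a06b401b0c30d80) <|
  .cons (nat_lit 49) (nat_lit 30) (nat_lit 0x40000000000000800000000000000000000) <|
  .cons (nat_lit 49) (nat_lit 31) (nat_lit 0x1b0c30d802d605628146a06b401b0c30d80) <|
  .cons (nat_lit 49) (nat_lit 32) (nat_lit 0x21b0c78d802d605628146a06b405b0c30d80) <|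
  .cons (nat_lit 49) (nat_lit 34) (nat_lit 0x10000000004000000000800000100000000) <|
  .cons (nat_lit 49) (nat_lit 38) (nat_lit 0x10000000000000200000000000000) <|
  .cons (nat_lit 49) (nat_lit 40) (nat_lit 0x40000000000400000000000000000000) <|
  .cons (nat_lit 49) (nat_lit 42) (nat_lit 0x1b0c30d802d605628146a06b401b0c30d80) <|
  .cons (nat_lit 49) (nat_lit 44) (nat_lit 0x1b0c31d822d605628146a06b401b0c30d80) <|
  .cons (nat_lit 49) (nat_lit 45) (nat_lit 0x1b0c30d803d6456a8146b06b401b0c30d80) <|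
  .cons (nat_lit 49) (nat_lit 46) (nat_lit 0x2080000000400000000000000000800000) <|
  .cons (nat_lit 49) (nat_lit 47) (nat_lit 0x1b0c30d802d605628146a06b401b0c30d80) <|
  .cons (nat_lit 49) (nat_lit 49) (nat_lit 0x1b0c30d803f605628146b06b401b0d30d80) <|
  .cons (nat_lit 49) (nat_lit 50) (nat_lit 0x1b0c30d802f605628146a06b401b0d30d80) <|
  .cons (nat_lit 49) (nat_lit 51) (nat_lit 0x40000000000400000000000000000000) <|
  .cons (nat_lit 49) (nat_lit 54) (nat_lit 0x10000000000000000000800000000000000) <|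
  .cons (nat_lit 49) (nat_lit 56) (nat_lit 0x10002048000000200002802200000430000) <|
  .cons (nat_lit 49) (nat_lit 57) (nat_lit 0x1b0c30d802f605628146a06b441b8d30d80) <|
  .cons (nat_lit 49) (nat_lit 59) (nat_lit 0x1b0c70d903d605638146b46b405b0c30f80) <|
  .cons (nat_lit 49) (nat_lit 60) (nat_lit 0x2000000000000000000000000400000) <|
  .cons (nat_lit 49) (nat_lit 61) (nat_lit 0x1b0c30d803d605628146b06b401b0c30d80) <|
  .cons (nat_lit 49) (nat_lit 62) (nat_lit 0x1b0c30d802d605628146a06b401b0c30d80) <|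
  .cons (nat_lit 49) (nat_lit 66) (nat_lit 0x1b0c30d802d605628146a06b401b0c30d80) <|
  .cons (nat_lit 49) (nat_lit 67) (nat_lit 0x80000000000800000000000000000000000) <|
  .cons (nat_lit 49) (nat_lit 68) (nat_lit 0x41b8c30f802d605628346a06b401b0c30d80) <|
  .cons (nat_lit 49) (nat_lit 69) (nat_lit 0x2000000020000000100000000000800000) <|
  .cons (nat_lit 49) (nat_lit 74) (nat_lit 0x40000000000000800000000000000000000) <|
  .cons (nat_lit 49) (nat_lit 75) (nat_lit 0x1b0c30d802d605628146a06b401b0c30d80) <|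
  .cons (nat_lit 49) (nat_lit 76) (nat_lit 0x10000000000000000000800000000000000) <|
  .cons (nat_lit 49) (nat_lit 77) (nat_lit 0x1b0c30d802d605628146a06b401b0c30d80) <|
  .cons (nat_lit 49) (nat_lit 79) (nat_lit 0x1008000000000000000200000000400) <|
  .cons (nat_lit 49) (nat_lit 81) (nat_lit 0x1b0c30d903d605628146b06b401b0c30f80) <|
  .cons (nat_lit 49) (nat_lit 82) (nat_lit 0x1b0c30d802d605628146a0eb501b0c30d80) <|
  .cons (nat_lit 49) (nat_lit 83) (nat_lit 0x4000000000040000000) <|
  .cons (nat_lit 49) (nat_lit 84) (nat_lit 0x1b0c30d802d605628146a06b401b0c30d80) <|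
  .cons (nat_lit 49) (nat_lit 85) (nat_lit 0x2000000000000000000000000000800000) <|
  .cons (nat_lit 49) (nat_lit 86) (nat_lit 0x1b0c30d802d605628146a06b401b0c30d80) <|
  .cons (nat_lit 49) (nat_lit 89) (nat_lit 0x80000000000800000000000000000000000) <|
  .cons (nat_lit 49) (nat_lit 90) (nat_lit 0x1008000000000000000200000000400) <|
  .cons (nat_lit 49) (nat_lit 93) (nat_lit 0x1b0c30d802d605628146a06b401b0c31d82) <|
  .cons (nat_lit 49) (nat_lit 94) (nat_lit 0x1b0cb0d802f605628146a06f401b0d30d80) <|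
  .cons (nat_lit 49) (nat_lit 95) (nat_lit 0x20000080000000000000000) <|
  .cons (nat_lit 49) (nat_lit 96) (nat_lit 0x1b1c30d842d605628146a06b401b0c30d80) <|
  .cons (nat_lit 49) (nat_lit 97) (nat_lit 0x2081010000400000000206000010810400) <|
  .cons (nat_lit 49) (nat_lit 98) (nat_lit 0x21b0c78d802d605628146a06b405b0c30d80) <|
  .cons (nat_lit 49) (nat_lit 99) (nat_lit 0x1b0c31d822d605628146a06b401b0c30d80) <|
  .cons (nat_lit 49) (nat_lit 100) (nat_lit 0x10002048000000200002802200000430000) <|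
  .cons (nat_lit 49) (nat_lit 101) (nat_lit 0x41b8c30f802d605628346a06b401b0c30d80) <|
  .cons (nat_lit 49) (nat_lit 105) (nat_lit 0x8000000000000100000000000) <|
  .cons (nat_lit 49) (nat_lit 106) (nat_lit 0x1000000000000000000000100) <|
  .cons (nat_lit 49) (nat_lit 108) (nat_lit 0x10000040000000200000800000000000000) <|
  .cons (nat_lit 49) (nat_lit 111) (nat_lit 0x1b0c30d803d6456a8146b06b401b0c30d80) <|
  .cons (nat_lit 49) (nat_lit 112) (nat_lit 0x1b0c30d802f605628146a06b441b8d30d80) <|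
  .cons (nat_lit 49) (nat_lit 113) (nat_lit 0x2000000020000000100000000000800000) <|
  .cons (nat_lit 49) (nat_lit 114) (nat_lit 0x1b0c30d903d605628146b06b401b0c30f80) <|
  .cons (nat_lit 49) (nat_lit 115) (nat_lit 0x1b0c30d802d605628146a06b401b0c31d82) <|
  .cons (nat_lit 49) (nat_lit 116) (nat_lit 0x8000000000000100000000000) <|
  .cons (nat_lit 49) (nat_lit 119) (nat_lit 0x4000000000000000100000000) <|
  pt2_2

def pt2 : T3 :=
  .cons (nat_lit 1) (nat_lit 4) (nat_lit 0x40000000000400000000000000000000) <|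
  .cons (nat_lit 1) (nat_lit 7) (nat_lit 0x10000000000000200000000000000) <|
  .cons (nat_lit 1) (nat_lit 16) (nat_lit 0x80000200000000000000000000000) <|
  .cons (nat_lit 1) (nat_lit 19) (nat_lit 0x8000000000000000000000800000000000) <|
  .cons (nat_lit 1) (nat_lit 42) (nat_lit 0x10080000000400000000800000000000000) <|
  .cons (nat_lit 1) (nat_lit 47) (nat_lit 0x2000000000000000080000) <|
  .cons (nat_lit 1) (nat_lit 48) (nat_lit 0x40000000000400000000000000000000) <|
  .cons (nat_lit 1) (nat_lit 49) (nat_lit 0x80000200000000000000000000000) <|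
  .cons (nat_lit 1) (nat_lit 57) (nat_lit 0x1000000000000000000080) <|
  .cons (nat_lit 1) (nat_lit 59) (nat_lit 0x8000000040000000000) <|
  .cons (nat_lit 1) (nat_lit 75) (nat_lit 0x10080000000400000000800000000000000) <|
  .cons (nat_lit 1) (nat_lit 82) (nat_lit 0x1000000000010) <|
  .cons (nat_lit 1) (nat_lit 84) (nat_lit 0x10000000000000200000000000000) <|
  .cons (nat_lit 1) (nat_lit 85) (nat_lit 0x8000000000000000000000800000000000) <|
  .cons (nat_lit 1) (nat_lit 93) (nat_lit 0x2000000010000) <|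
  .cons (nat_lit 1) (nat_lit 94) (nat_lit 0x8000000040000000000) <|
  .cons (nat_lit 1) (nat_lit 112) (nat_lit 0x1000000000000000000080) <|
  .cons (nat_lit 1) (nat_lit 115) (nat_lit 0x2000000010000) <|
  .cons (nat_lit 1) (nat_lit 126) (nat_lit 0x1000000000010) <|
  .cons (nat_lit 1) (nat_lit 127) (nat_lit 0x8000000040000000000) <|
  .cons (nat_lit 1) (nat_lit 135) (nat_lit 0x2000000000000000080000) <|
  .cons (nat_lit 1) (nat_lit 136) (nat_lit 0x8000000040000000000) <|
  .cons (nat_lit 13) (nat_lit 11) (nat_lit 0x10000000) <|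
  .cons (nat_lit 13) (nat_lit 28) (nat_lit 0x1000000000000000000000000000000000) <|
  .cons (nat_lit 13) (nat_lit 50) (nat_lit 0x1000000000000000000000000000000000) <|
  .cons (nat_lit 13) (nat_lit 132) (nat_lit 0x10000000) <|
  .cons (nat_lit 37) (nat_lit 5) (nat_lit 0x10000004000000200000080000000) <|
  .cons (nat_lit 37) (nat_lit 10) (nat_lit 0x8000000000080000000000) <|
  .cons (nat_lit 37) (nat_lit 19) (nat_lit 0x40000000200000000000000000000) <|
  .cons (nat_lit 37) (nat_lit 29) (nat_lit 0x20040000000000000000) <|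
  .cons (nat_lit 37) (nat_lit 31) (nat_lit 0x1000000000000020) <|
  .cons (nat_lit 37) (nat_lit 32) (nat_lit 0x8020000000100000200000000000) <|
  .cons (nat_lit 37) (nat_lit 34) (nat_lit 0x8000000000000100000000000) <|
  .cons (nat_lit 37) (nat_lit 40) (nat_lit 0x80000200000000000000000000000) <|
  .cons (nat_lit 37) (nat_lit 42) (nat_lit 0x8000000000000000200000000000) <|
  .cons (nat_lit 37) (nat_lit 43) (nat_lit 0x1000000000000000000000000000400) <|
  .cons (nat_lit 37) (nat_lit 44) (nat_lit 0x4000000000000000000000400000000) <|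
  .cons (nat_lit 37) (nat_lit 45) (nat_lit 0x98024200008100200240100000000) <|
  .cons (nat_lit 37) (nat_lit 47) (nat_lit 0x80000000400000000000000000000000) <|
  .cons (nat_lit 37) (nat_lit 51) (nat_lit 0x80000200000000000000000000000) <|
  .cons (nat_lit 37) (nat_lit 57) (nat_lit 0x8000000000001000200000000020) <|
  .cons (nat_lit 37) (nat_lit 60) (nat_lit 0x10000004000000200000080000000) <|
  .cons (nat_lit 37) (nat_lit 62) (nat_lit 0x20040000000000000000) <|
  .cons (nat_lit 37) (nat_lit 66) (nat_lit 0x4000000020000000) <|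
  .cons (nat_lit 37) (nat_lit 67) (nat_lit 0x80000200000000000000000000000) <|
  .cons (nat_lit 37) (nat_lit 68) (nat_lit 0x8004000000000000200100000000) <|
  .cons (nat_lit 37) (nat_lit 75) (nat_lit 0x8000000000000000200000000000) <|
  .cons (nat_lit 37) (nat_lit 77) (nat_lit 0x4000000020000000) <|
  .cons (nat_lit 37) (nat_lit 81) (nat_lit 0x2000000000000000080000) <|
  .cons (nat_lit 37) (nat_lit 85) (nat_lit 0x40000000200000000000000000000) <|
  .cons (nat_lit 37) (nat_lit 86) (nat_lit 0x1000000000000020) <|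
  .cons (nat_lit 37) (nat_lit 87) (nat_lit 0x1000000000000000000000000000400) <|
  .cons (nat_lit 37) (nat_lit 89) (nat_lit 0x80000200000000000000000000000) <|
  .cons (nat_lit 37) (nat_lit 93) (nat_lit 0x8000020000080008210000000000) <|
  .cons (nat_lit 37) (nat_lit 94) (nat_lit 0x8000000000000000000000800000000000) <|
  .cons (nat_lit 37) (nat_lit 98) (nat_lit 0x8020000000100000200000000000) <|
  .cons (nat_lit 37) (nat_lit 99) (nat_lit 0x4000000000000000000000400000000) <|
  .cons (nat_lit 37) (nat_lit 101) (nat_lit 0x8004000000000000200100000000) <|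
  .cons (nat_lit 37) (nat_lit 111) (nat_lit 0x98024200008100200240100000000) <|
  .cons (nat_lit 37) (nat_lit 112) (nat_lit 0x8000000000001000200000000020) <|
  .cons (nat_lit 37) (nat_lit 114) (nat_lit 0x2000000000000000080000) <|
  .cons (nat_lit 37) (nat_lit 115) (nat_lit 0x8000020000080008210000000000) <|
  .cons (nat_lit 37) (nat_lit 120) (nat_lit 0x8000000000080000000000) <|
  .cons (nat_lit 37) (nat_lit 122) (nat_lit 0x8000000000000100000000000) <|
  .cons (nat_lit 37) (nat_lit 127) (nat_lit 0x8000000000000000000000800000000000) <|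
  .cons (nat_lit 37) (nat_lit 135) (nat_lit 0x80000000400000000000000000000000) <|
  .cons (nat_lit 49) (nat_lit 1) (nat_lit 0x80000200000000000000000000000) <|
  .cons (nat_lit 49) (nat_lit 5) (nat_lit 0x2000000000000000000000000400000) <|
  .cons (nat_lit 49) (nat_lit 7) (nat_lit 0x1b0c30d802d605628146a06b401b0c30d80) <|
  .cons (nat_lit 49) (nat_lit 8) (nat_lit 0x1b1c30d842d605628146a06b401b0c30d80) <|
  pt2_1

noncomputable def tk0 (u n R J L H : Nat) : Bool := tq u (nat_lit 4) n R J L H (cMr u) pt0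
noncomputable def tk1 (u n R J L H : Nat) : Bool :=
  tq u (nat_lit 5) n R J L H (wpA u J L H R (nat_lit 9)) pt1
noncomputable def tk2 (u n R J L H : Nat) : Bool :=
  tq u (nat_lit 6) n R J L H (wpP u J L H R (nat_lit 10)) pt2

noncomputable def tg1 (tk : Nat → Nat → Nat → Nat → Nat → Bool) (k n E R J L : Nat) : Bool :=
  an (wl k n E R (Nat.sub n k)) (tk n R J L (Nat.shiftRight L (Nat.mul J (Nat.sub n k))))
noncomputable def tg (tk : Nat → Nat → Nat → Nat → Nat → Bool) (k E R J B : Nat) : Bool :=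
  tg1 tk k (Nat.mod E (nat_lit 64)) E R J (Nat.shiftLeft B (Nat.mul J k))
noncomputable def tc1 (u h E R J B : Nat) : Bool :=
  @Bool.rec (fun _ => Bool) (@Bool.rec (fun _ => Bool)
    (an (Nat.beq h (nat_lit 257)) (tg (tk1 u) (nat_lit 5) E R J B))
    (tg (tk0 u) (nat_lit 4) E R J B) (Nat.beq h (nat_lit 8593113347)))
    (tg (tk2 u) (nat_lit 6) E R J B) (Nat.beq h (nat_lit 21746450691))
/-- the fact `e` is a template with a complete table -/
noncomputable def tc (u e R J B : Nat) : Bool :=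
  tc1 u (Nat.mod e (nat_lit 274877906944)) (Nat.shiftRight e (nat_lit 38)) R J B

noncomputable def T3.len (l : T3) : Nat := @T3.rec (fun _ => Nat) 0 (fun _ _ _ _ r => r + 1) l

/-- the facts from number `f` on -/
noncomputable def tcl (u : Nat) (dn : Sc.DT) (l : T3) : Nat → Bool :=
  @T3.rec (fun _ => Nat → Bool) (fun _ => true) (fun R J B _ ih f =>
    @Bool.rec (fun _ => Bool) false (ih (Nat.succ f)) (tc u (Sc.dget dn f) R J B)) l

end Pool.Agent.Hom2.Rq
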