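import Pool.Agent.Lib.MP_7e4769_co.Hc.RpS
import Pool.Agent.Lib.MP_7e4769_co.Hc.RpT
import Pool.Agent.Lib.MP_7e4769_co.Hc.RpZ

set_option autoImplicit false
set_option linter.unusedSectionVars false

namespace Pool.Agent.Hom2.Rq

/-- the state with the atoms `a` is in the list -/
def InS (l : T3) (a : ℕ → ℕ) : Prop :=
  ∃ x, x.testBit (sg2 (a 2) (a 3)) = true ∧ inQ l (sg2 (a 0) (a 1)) (sg2 (a 4) (a 5)) x = true

noncomputable def zIn (k zt zn : ℕ) (l : T3) : Bool :=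
  allLt zn fun j => an (allLt 6 fun i => bif lt i k then ne (Nat.mod (za zt j i) 5) 0 else
    Nat.beq (za zt j i) 0) (inQ l (sg2 (za zt j 0) (za zt j 1)) (sg2 (za zt j 4) (za zt j 5))
      (cH (sg2 (za zt j 2) (za zt j 3))))

theorem zIn0 : zIn 4 zt0 26 pt0 = true := by decide +kernel
theorem zIn1 : zIn 5 zt1 75 pt1 = true := by decide +kernel
theorem zIn2 : zIn 6 zt2 708 pt2 = true := by decide +kernel

theorem atm5 : ∀ c e : Fin 4, atm c e % 5 ≠ 0 → c ≠ e := by decide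

/-- atoms of a state, zero behind the last port -/
def ats (k : ℕ) (c e : ℕ → Fin 4) (i : ℕ) : ℕ := if i < k then atm (c i) (e i) else 0

theorem zIn_spec {k zt zn j : ℕ} {l : T3} (h : zIn k zt zn l = true) (hk : k ≤ 6) (hj : j < zn)
    {c e : ℕ → Fin 4} (hc : ∀ i < k, atm (c i) (e i) = za zt j i) :
    (∀ i < k, c i ≠ e i) ∧ InS l (ats k c e) := by
  have h1 := (allLt_iff _ _).1 h j hj
  rw [an_iff, allLt_iff] at h1
  have h2 : ∀ i < 6, ats k c e i = za zt j i := fun i hi => by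
    have := h1.1 i hi
    unfold ats
    split_ifs with q
    · exact hc i q
    · rw [(lt_false _ _).2 (by omega), cond_false] at this
      exact (Nat.eq_of_beq_eq_true this).symm
  refine ⟨fun i hi => atm5 _ _ ?_, cH (sg2 (za zt j 2) (za zt j 3)), ?_, ?_⟩
  · have := h1.1 i (by omega)
    rw [(lt_iff _ _).2 hi, cond_true, ne_iff] at this
    rw [hc i hi]
    exact this
  · rw [h2 2 (by omega), h2 3 (by omega), cH_eq, Nat.testBit_two_pow_self]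
  · rw [h2 0 (by omega), h2 1 (by omega), h2 4 (by omega), h2 5 (by omega)]
    exact h1.2

theorem pm_spec : ∀ c e d f : Fin 4, c ≠ e → d ≠ f → c ≠ d → e ≠ d → f ≠ c →
    Nat.testBit 0x1b0c30d802d605628146a06b401b0c30d80 (sg2 (atm c e) (atm d f)) = true := by
  decide +kernel

theorem sIn0 : ∀ x : Fin 4, 1 ≠ x → x ≠ 0 →
    inQ pt0 (sg2 2 (atm 1 x)) (sg2 0 0) 0x1b0c30d802d605628146a06b401b0c30d80 = true := by
  decide +kernel

theorem sIn1 : (allL [6, 7] fun a => allL s576 fun c =>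
    inQ pt1 (sg2 2 a) (sg2 (c / 256) 0) (cH (sg2 (c % 16) (c / 16 % 16)))) = true := by
  decide +kernel

theorem sIn2 : ∀ x : Fin 4, 1 ≠ x → x ≠ 0 → ∀ c e d f : Fin 4, c ≠ e → d ≠ f → c ≠ d → e ≠ d →
    f ≠ c → inQ pt2 (sg2 2 (atm 1 x)) (sg2 (atm c e) (atm d f))
      0x1b0c30d802d605628146a06b401b0c30d80 = true := by
  decide +kernel

noncomputable def ptG (g : ℕ) : T3 := if g = 0 then pt0 else if g = 1 then pt1 else pt2

theorem std_in {g : ℕ} (hg : g < 3) {c e : ℕ → Fin 4} (hs : Std g c e) (h0 : c 0 = 0) (h1 : c 1 = 1)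
    (h2 : e 0 = 2) : InS (ptG g) (ats (g + 4) c e) := by
  have hr : rpi g 1 = 0 := by simp [rpi]
  have h3 := hs.1 1 (by omega)
  have h4 := (hs.2.1 1 (by omega) (by omega)).2
  rw [hr, h0] at h4
  rw [h1] at h3
  have a0 : ats (g + 4) c e 0 = 2 := by rw [ats, if_pos (by omega), h0, h2]; rfl
  have a1 : ats (g + 4) c e 1 = atm 1 (e 1) := by rw [ats, if_pos (by omega), h1]
  have hp : ∀ i, i + 1 < g + 4 → rpi g i = i + 1 → rpi g (i + 1) = i → c i ≠ e i ∧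
      c (i + 1) ≠ e (i + 1) ∧ c i ≠ c (i + 1) ∧ e i ≠ c (i + 1) ∧ e (i + 1) ≠ c i :=
    fun i hi r1 r2 => by
      have a := hs.2.1 i (by omega) (by omega)
      have b := hs.2.1 (i + 1) hi (by omega)
      rw [r1] at a
      rw [r2] at b
      exact ⟨hs.1 i (by omega), hs.1 _ hi, a.1, a.2, b.2⟩
  unfold InS
  rw [a0, a1]
  interval_cases g
  · obtain ⟨p1, p2, p3, p4, p5⟩ := hp 2 (by omega) rfl rfl
    exact ⟨_, pm_spec _ _ _ _ p1 p2 p3 p4 p5, sIn0 _ h3 h4⟩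
  · obtain ⟨t, ht, t2, t3, t4⟩ := hs.2.2 rfl
    have m := s576_spec t _ _ _ ht _ (hs.1 2 (by omega)) t2 _ (hs.1 3 (by omega)) t3 _
      (hs.1 4 (by omega)) t4
    have ha : atm 1 (e 1) ∈ [6, 7] := by
      revert h3 h4
      generalize e 1 = x
      revert x
      decide
    have k := (allL_iff _ _).1 ((allL_iff _ _).1 sIn1 _ ha) _ m
    have b2 := atm_lt (c 2) (e 2)
    have b3 := atm_lt (c 3) (e 3)
    rw [show (atm (c 2) (e 2) + 16 * atm (c 3) (e 3) + 256 * atm (c 4) (e 4)) / 256 =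
        atm (c 4) (e 4) by omega,
      show (atm (c 2) (e 2) + 16 * atm (c 3) (e 3) + 256 * atm (c 4) (e 4)) % 16 =
        atm (c 2) (e 2) by omega,
      show (atm (c 2) (e 2) + 16 * atm (c 3) (e 3) + 256 * atm (c 4) (e 4)) / 16 % 16 =
        atm (c 3) (e 3) by omega] at k
    refine ⟨_, ?_, k⟩
    rw [cH_eq]
    exact Nat.testBit_two_pow_self
  · obtain ⟨p1, p2, p3, p4, p5⟩ := hp 2 (by omega) rfl rfl
    obtain ⟨q1, q2, q3, q4, q5⟩ := hp 4 (by omega) rfl rfl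
    exact ⟨_, pm_spec _ _ _ _ p1 p2 p3 p4 p5, sIn2 _ h3 h4 _ _ _ _ q1 q2 q3 q4 q5⟩

theorem z_in {g j : ℕ} (hg : g < 3) (hj : j < znG g) {c e : ℕ → Fin 4}
    (hc : ∀ i < g + 4, atm (c i) (e i) = za (ztG g) j i) :
    (∀ i < g + 4, c i ≠ e i) ∧ InS (ptG g) (ats (g + 4) c e) := by
  interval_cases g
  exacts [zIn_spec zIn0 (by omega) hj hc, zIn_spec zIn1 (by omega) hj hc,
    zIn_spec zIn2 (by omega) hj hc]

/-- the check answers every state of the list -/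
def TkOK (g : ℕ) (tk : ℕ → ℕ → ℕ → ℕ → ℕ → Bool) : Prop :=
  ∀ n R J L H, tk n R J L H = true → ∀ c e : ℕ → Fin 4, (∀ i < g + 4, c i ≠ e i) →
    InS (ptG g) (ats (g + 4) c e) → Ans g n R c e

theorem tk0_ok {u : ℕ} (hu : 144 ≤ u) : TkOK 0 (tk0 u) := by
  rintro n R J L H h c e hc ⟨x, h1, h2⟩
  obtain ⟨j, -, -, a, b⟩ := tq_spec (c := c) (e := e) hu h hc h1 h2
  exact ⟨_, a, b⟩

theorem tk1_ok {u : ℕ} (hu : 144 ≤ u) : TkOK 1 (tk1 u) := by
  rintro n R J L H h c e hc ⟨x, h1, h2⟩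
  obtain ⟨j, hj, s, a, b⟩ := tq_spec (c := c) (e := e) hu h (fun i hi => hc i (by omega)) h1 h2
  refine ⟨_, a, fun i hi => ?_⟩
  rcases Nat.lt_succ_iff_lt_or_eq.1 hi with q | rfl
  · exact b i q
  · have q : sg2 (ats (1 + 4) c e 4) (ats (1 + 4) c e 5) = sg2 (atm (c 4) (e 4)) (atm 0 1) :=
      congrArg (fun t => Nat.add (sg (atm (c 4) (e 4))) (Nat.mul 12 t)) (show sg 0 = sg 1 by decide)
    rw [q] at s
    exact wpA_bit hu hj (hc 4 (by omega)) (by decide) s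

theorem tk2_ok {u : ℕ} (hu : 144 ≤ u) : TkOK 2 (tk2 u) := by
  rintro n R J L H h c e hc ⟨x, h1, h2⟩
  obtain ⟨j, hj, s, a, b⟩ := tq_spec (c := c) (e := e) hu h (fun i hi => hc i (by omega)) h1 h2
  have k := wpP_bit hu hj (hc 4 (by omega)) (hc 5 (by omega)) s
  refine ⟨_, a, fun i hi => ?_⟩
  rcases Nat.lt_succ_iff_lt_or_eq.1 hi with q | rfl
  · rcases Nat.lt_succ_iff_lt_or_eq.1 q with q | rfl
    exacts [b i q, k.1]
  · exact k.2

theorem tg_spec {g E R J B : ℕ} {tk : ℕ → ℕ → ℕ → ℕ → ℕ → Bool} (hg : g < 3) (ht : TkOK g tk)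
    (h : tg tk (g + 4) E R J B = true) :
    WfT g (E % 64) R ∧ (∀ v < E % 64, g + 4 ≤ v → ∀ s < 3, Lk E v (nbr R v s)) ∧
    (∀ c e, Std g c e → c 0 = 0 → c 1 = 1 → e 0 = 2 → Ans g (E % 64) R c e) ∧
    ∀ j < znG g, ∀ c e : ℕ → Fin 4, (∀ i < g + 4, atm (c i) (e i) = za (ztG g) j i) →
      Ans g (E % 64) R c e := by
  unfold tg tg1 at h
  rw [an_iff] at h
  obtain ⟨a, b⟩ := wl_spec hg h.1
  exact ⟨a, b, fun c e s h0 h1 h2 => ht _ _ _ _ _ h.2 c e s.1 (std_in hg s h0 h1 h2),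
    fun j hj c e hc => ht _ _ _ _ _ h.2 c e (z_in hg hj hc).1 (z_in hg hj hc).2⟩

end Pool.Agent.Hom2.Rq
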