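import Pool.Agent.Lib.MP_7e4769_co.Hc.Basic

set_option autoImplicit false

namespace Pool.Agent.Hom2

variable {V : Type} {G : SimpleGraph V} {X : Finset V} {u p q w s t : V}

theorem Thr.symm (h : Thr G X u p q w s t) : Thr G X w q p u t s :=
  ⟨h.mw, h.mq, h.mp, h.mu, h.mt, h.ms, h.nq.sw1, h.np.sw1, h.ne.symm, fun e => h.nadj e.symm⟩

theorem rew_symm (G : SimpleGraph V) (u p q w : V) : rew G w q p u = rew G u p q w := by
  ext x y; simp only [rew]; tauto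

theorem Thr.up (h : Thr G X u p q w s t) : u ≠ p := h.np.adj1.ne'
theorem Thr.uq (h : Thr G X u p q w s t) : u ≠ q := h.np.1
theorem Thr.wp (h : Thr G X u p q w s t) : w ≠ p := h.nq.1.symm
theorem Thr.wq (h : Thr G X u p q w s t) : w ≠ q := h.nq.adj2.ne'

/-- adjacency of a vertex other than `u p q w` -/
theorem Thr.adj_other (h : Thr G X u p q w s t) {v : V} (hv : v ∈ X) (h1 : v ≠ u) (h2 : v ≠ p)
    (h3 : v ≠ q) (h4 : v ≠ w) (x : V) : (rew G u p q w).Adj v x ↔ G.Adj v x := by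
  constructor
  · rintro ⟨-, e | e | e⟩
    · exact e.1
    · exact absurd e.1 h1
    · exact absurd e.1 h4
  · intro e
    refine ⟨e.ne, Or.inl ⟨e, h2, h3, ?_, ?_⟩⟩
    · rintro rfl
      rcases h.np.cases e.symm with r | r | r
      · exact h1 r
      · exact h3 r
      · exact h.ms (r ▸ hv)
    · rintro rfl
      rcases h.nq.cases e.symm with r | r | r
      · exact h2 r
      · exact h4 r
      · exact h.mt (r ▸ hv)

theorem Thr.nb_other (h : Thr G X u p q w s t) {v x y z : V} (hv : v ∈ X) (h1 : v ≠ u) (h2 : v ≠ p)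
    (h3 : v ≠ q) (h4 : v ≠ w) : Nb (rew G u p q w) v x y z ↔ Nb G v x y z := by
  simp only [Nb, h.adj_other hv h1 h2 h3 h4]

theorem Thr.not_uq (h : Thr G X u p q w s t) : ¬ G.Adj u q := by
  intro e
  rcases h.nq.cases e.symm with r | r | r
  · exact h.up r
  · exact h.ne r
  · exact h.mt (r ▸ h.mu)

theorem Thr.adj_u (h : Thr G X u p q w s t) (x : V) :
    (rew G u p q w).Adj u x ↔ x = w ∨ (G.Adj u x ∧ x ≠ p) := by
  constructor
  · rintro ⟨-, e | e | e⟩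
    · exact Or.inr ⟨e.1, e.2.2.2.1⟩
    · exact Or.inl e.2
    · exact absurd e.1 h.ne
  · rintro (rfl | ⟨e, e'⟩)
    · exact ⟨h.ne, Or.inr (Or.inl ⟨rfl, rfl⟩)⟩
    · exact ⟨e.ne, Or.inl ⟨e, h.up, h.uq, e', fun r => h.not_uq (r ▸ e)⟩⟩

theorem Thr.nb_u (h : Thr G X u p q w s t) {y z : V} (hn : Nb G u p y z) :
    Nb (rew G u p q w) u w y z := by
  refine ⟨fun e => h.nadj (e ▸ hn.adj2), fun e => h.nadj (e ▸ hn.adj3), hn.2.2.1, fun x => ?_⟩
  rw [h.adj_u, hn.2.2.2]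
  have := hn.1; have := hn.2.1
  grind

theorem Thr.nb_w (h : Thr G X u p q w s t) {y z : V} (hn : Nb G w q y z) :
    Nb (rew G u p q w) w u y z := rew_symm G u p q w ▸ h.symm.nb_u hn

theorem s2_fin : ∀ a b y z y' z' : Fin 4, ok4 a b y z → ok4 b a y' z' →
    ∃ e f : Fin 4, ok4 a e y z ∧ ok4 b f y' z' ∧ ok4 e a f 3 ∧ ok4 f e b 3 := by
  decide +kernel

variable [DecidableEq V]

theorem mem_ee {v : V} : v ∈ (X.erase p).erase q ↔ v ≠ q ∧ v ≠ p ∧ v ∈ X := by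
  simp only [Finset.mem_erase]

theorem Thr.card_lt (h : Thr G X u p q w s t) : ((X.erase p).erase q).card < X.card :=
  lt_of_le_of_lt Finset.card_erase_le (Finset.card_erase_lt_of_mem h.mp)

theorem Thr.cub (h : Thr G X u p q w s t) (hc : Cub G X) :
    Cub (rew G u p q w) ((X.erase p).erase q) := by
  intro v hv
  rw [mem_ee] at hv
  by_cases e : v = u
  · subst e
    obtain ⟨y, z, hn⟩ := hc.first h.mu h.np.adj1.symm
    exact ⟨_, _, _, h.nb_u hn⟩
  by_cases e' : v = w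
  · subst e'
    obtain ⟨y, z, hn⟩ := hc.first h.mw h.nq.adj2.symm
    exact ⟨_, _, _, h.nb_w hn⟩
  obtain ⟨x, y, z, hn⟩ := hc v hv.2.2
  exact ⟨x, y, z, (h.nb_other hv.2.2 e hv.2.1 hv.1 e').2 hn⟩

/-- S2 transfers colourings back. -/
theorem Thr.col (h : Thr G X u p q w s t) (hc : Cub G X) {T : Set V} (hs : s ∉ T) (ht : t ∉ T)
    (g : Col (rew G u p q w) ((X.erase p).erase q) T) : Col G X T := by
  obtain ⟨c, h1, h2⟩ := g
  obtain ⟨y, z, hn⟩ := hc.first h.mu h.np.adj1.symm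
  obtain ⟨y', z', hn'⟩ := hc.first h.mw h.nq.adj2.symm
  obtain ⟨e, f, o1, o2, o3, o4⟩ := s2_fin _ _ _ _ _ _
    (h2 u (mem_ee.2 ⟨h.uq, h.up, h.mu⟩) _ _ _ (h.nb_u hn))
    (h2 w (mem_ee.2 ⟨h.wq, h.wp, h.mw⟩) _ _ _ (h.nb_w hn'))
  have pq : p ≠ q := h.np.adj2.ne
  have sp : s ≠ p := fun r => h.ms (r ▸ h.mp)
  have sq : s ≠ q := fun r => h.ms (r ▸ h.mq)
  have tp : t ≠ p := fun r => h.mt (r ▸ h.mp)
  have tq : t ≠ q := fun r => h.mt (r ▸ h.mq)
  have cs : c s = 3 := h1 s (fun r => h.ms (mem_ee.1 r).2.2) hs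
  have ct : c t = 3 := h1 t (fun r => h.mt (mem_ee.1 r).2.2) ht
  refine ⟨fun v => if v = p then e else if v = q then f else c v, fun v hv hv' => ?_, fun v hv => ?_⟩
  · have a1 : v ≠ p := fun r => hv (r ▸ h.mp)
    have a2 : v ≠ q := fun r => hv (r ▸ h.mq)
    simp only [a1, a2, if_false]; exact h1 v (fun r => hv (mem_ee.1 r).2.2) hv'
  by_cases a1 : v = p
  · subst a1
    refine OK.of_nb h.np ?_
    simpa only [if_true, h.up, h.uq, pq.symm, sp, sq, if_false, cs] using o3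
  by_cases a2 : v = q
  · subst a2
    refine OK.of_nb h.nq ?_
    simpa only [if_true, h.wp, h.wq, pq.symm, tp, tq, if_false, ct] using o4
  by_cases a3 : v = u
  · subst a3
    refine OK.of_nb hn ?_
    have b1 : y ≠ q := fun r => h.not_uq (r ▸ hn.adj2)
    have b2 : z ≠ q := fun r => h.not_uq (r ▸ hn.adj3)
    simpa only [if_true, a1, a2, hn.1.symm, hn.2.1.symm, b1, b2, if_false] using o1
  by_cases a4 : v = w
  · subst a4
    refine OK.of_nb hn' ?_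
    have b1 : y' ≠ p := fun r => h.symm.not_uq (r ▸ hn'.adj2)
    have b2 : z' ≠ p := fun r => h.symm.not_uq (r ▸ hn'.adj3)
    simpa only [if_true, a1, a2, pq.symm, hn'.1.symm, hn'.2.1.symm, b1, b2, if_false] using o2
  have o := h2 v (mem_ee.2 ⟨a2, a1, hv⟩)
  intro x1 x2 x3 hx
  have k : ∀ x, G.Adj v x → x ≠ p ∧ x ≠ q := by
    intro x e
    rcases ((h.adj_other hv a3 a1 a2 a4 x).2 e).2 with r | r | r
    · exact r.2.2.2
    · exact absurd r.1 a3
    · exact absurd r.1 a4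
  simpa only [a1, a2, k x1 hx.adj1, k x2 hx.adj2, k x3 hx.adj3, if_false] using
    o x1 x2 x3 ((h.nb_other hv a3 a1 a2 a4).2 hx)

theorem Thr.twoEC (h : Thr G X u p q w s t) (h2 : TwoEC G X) :
    TwoEC (rew G u p q w) ((X.erase p).erase q) := by
  have mu : u ∈ (X.erase p).erase q := mem_ee.2 ⟨h.uq, h.up, h.mu⟩
  have mw : w ∈ (X.erase p).erase q := mem_ee.2 ⟨h.wq, h.wp, h.mw⟩
  refine ⟨⟨u, mu, w, mw, h.ne⟩, ?_⟩
  have old : ∀ x y, x ≠ p → x ≠ q → y ≠ p → y ≠ q → G.Adj x y → (rew G u p q w).Adj x y :=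
    fun x y a b c d e => ⟨e.ne, Or.inl ⟨e, a, b, c, d⟩⟩
  have uw : (rew G u p q w).Adj u w := (h.adj_u w).2 (Or.inl rfl)
  have key : ∀ A ⊆ (X.erase p).erase q, A.Nonempty → u ∉ A → ∀ a b,
      ¬ Only (rew G u p q w) ((X.erase p).erase q) A a b := by
    intro A hA hne hu a b ho
    have hAX : A ⊆ X := fun x hx => (mem_ee.1 (hA hx)).2.2
    refine h2.2 A hAX hne (fun r => hu (r ▸ h.mu)) a (if b = u ∧ a = w then q else b) ?_
    intro x hx y hy hy' hxy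
    have mx := mem_ee.1 (hA hx)
    by_cases a1 : y = p
    · subst a1
      rcases h.np.cases hxy.symm with r | r | r
      · exact absurd (r ▸ hx) hu
      · exact absurd r mx.1
      · exact absurd (r ▸ mx.2.2) h.ms
    by_cases a2 : y = q
    · subst a2
      rcases h.nq.cases hxy.symm with r | r | r
      · exact absurd r mx.2.1
      · subst r
        obtain ⟨r1, r2⟩ := ho x hx u mu hu uw.symm
        exact ⟨r1, by simp [← r1, ← r2]⟩
      · exact absurd (r ▸ mx.2.2) h.mt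
    obtain ⟨r1, r2⟩ := ho x hx y (mem_ee.2 ⟨a2, a1, hy⟩) hy' (old x y mx.2.1 mx.1 a1 a2 hxy)
    refine ⟨r1, ?_⟩
    rw [if_neg]
    · exact r2
    · rintro ⟨r3, r4⟩
      exact h.nadj (r3 ▸ r4 ▸ r1 ▸ r2 ▸ hxy.symm)
  intro A hA hne hne' a b ho
  by_cases hu : u ∈ A
  · refine key (((X.erase p).erase q) \ A) Finset.sdiff_subset ?_ (by simp [hu]) b a ?_
    · rw [Finset.sdiff_nonempty]; exact fun r => hne' (Finset.Subset.antisymm hA r)
    · intro x hx y hy hy' hxy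
      rw [Finset.mem_sdiff] at hx hy'
      have : y ∈ A := by tauto
      exact (ho y this x hx.1 hx.2 hxy.symm).symm
  · exact key A hA hne hu a b ho

theorem Thr.port (h : Thr G X u p q w s t) {o r : V} (hp : Port G X o r) (h1 : r ≠ p) (h2 : r ≠ q) :
    s ≠ o ∧ t ≠ o ∧ Port (rew G u p q w) ((X.erase p).erase q) o r := by
  have op : o ≠ p := fun e => hp.1 (e ▸ h.mp)
  have oq : o ≠ q := fun e => hp.1 (e ▸ h.mq)
  refine ⟨fun e => h1 (hp.2.2.2 p h.mp (e ▸ h.np.adj3)).symm,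
    fun e => h2 (hp.2.2.2 q h.mq (e ▸ h.nq.adj3)).symm, fun e => hp.1 (mem_ee.1 e).2.2,
    mem_ee.2 ⟨h2, h1, hp.2.1⟩, ⟨hp.2.2.1.ne, Or.inl ⟨hp.2.2.1, h1, h2, op, oq⟩⟩, ?_⟩
  rintro x hx ⟨-, e | e | e⟩
  · exact hp.2.2.2 x (mem_ee.1 hx).2.2 e.1
  · exact absurd (e.2 ▸ h.mw) hp.1
  · exact absurd (e.2 ▸ h.mu) hp.1

end Pool.Agent.Hom2
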