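import Pool.Agent.Lib.MP_7e4769_co.Hc.ScD

set_option autoImplicit false

namespace Pool.Agent.Hom2.Sc

theorem e_lor (a b : ℕ) : Nat.lor a b = a ||| b := rfl
theorem e_land (a b : ℕ) : Nat.land a b = a &&& b := rfl
theorem e_xor (a b : ℕ) : Nat.xor a b = a ^^^ b := rfl
theorem e_shl (a b : ℕ) : Nat.shiftLeft a b = a <<< b := rfl
theorem e_shr (a b : ℕ) : Nat.shiftRight a b = a >>> b := rfl
theorem e_div (a b : ℕ) : Nat.div a b = a / b := rfl
theorem e_mod (a b : ℕ) : Nat.mod a b = a % b := rfl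
theorem e_add (a b : ℕ) : Nat.add a b = a + b := rfl
theorem e_sub (a b : ℕ) : Nat.sub a b = a - b := rfl
theorem e_mul (a b : ℕ) : Nat.mul a b = a * b := rfl

theorem pw_eq (p : ℕ) : pw p = 2 ^ p := by
  unfold pw; rw [e_shl, Nat.one_shiftLeft]

theorem tb_pw (p i : ℕ) : (pw p).testBit i = true ↔ i = p := by
  rw [pw_eq, Nat.testBit_two_pow]; simp [eq_comm]

theorem tb_lor (a b i : ℕ) : (Nat.lor a b).testBit i = true ↔ a.testBit i = true ∨ b.testBit i = true := by
  rw [e_lor, Nat.testBit_or]; simp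

theorem tb_land (a b i : ℕ) : (Nat.land a b).testBit i = true ↔ a.testBit i = true ∧ b.testBit i = true := by
  rw [e_land, Nat.testBit_and]; simp

theorem tb_xor (a b i : ℕ) :
    (Nat.xor a b).testBit i = true ↔ ¬ (a.testBit i = true ↔ b.testBit i = true) := by
  rw [e_xor, Nat.testBit_xor]; cases a.testBit i <;> cases b.testBit i <;> simp

theorem tb_an (x y i : ℕ) : (an x y).testBit i = true ↔ x.testBit i = true ∧ ¬ y.testBit i = true := by
  unfold an; rw [tb_xor, tb_land]; tauto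

theorem tb_shl (x s i : ℕ) : (Nat.shiftLeft x s).testBit i = true ↔ s ≤ i ∧ x.testBit (i - s) = true := by
  rw [e_shl, Nat.testBit_shiftLeft]; simp

theorem tb_shr (x s i : ℕ) : (Nat.shiftRight x s).testBit i = x.testBit (s + i) := by
  rw [e_shr, Nat.testBit_shiftRight]

theorem tb_modpw (x p i : ℕ) : (Nat.mod x (pw p)).testBit i = true ↔ i < p ∧ x.testBit i = true := by
  rw [pw_eq, e_mod, Nat.testBit_mod_two_pow]; simp

theorem tb_full (n i : ℕ) : (Nat.sub (pw n) 1).testBit i = true ↔ i < n := by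
  rw [pw_eq, e_sub, Nat.testBit_two_pow_sub_one]; simp

theorem zero_bit {x : ℕ} (h : x = 0) (i : ℕ) : ¬ x.testBit i = true := by subst h; simp

theorem xor_zero' {a b : ℕ} (h : Nat.xor a b = 0) : a = b := Nat.eq_of_xor_eq_zero h

theorem an_zero {a b i : ℕ} (h : an a b = 0) (hi : a.testBit i = true) : b.testBit i = true := by
  by_contra e; exact zero_bit h i ((tb_an _ _ _).2 ⟨hi, e⟩)

theorem land_zero {a b i : ℕ} (h : Nat.land a b = 0) (ha : a.testBit i = true) : ¬ b.testBit i = true :=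
  fun e => zero_bit h i ((tb_land _ _ _).2 ⟨ha, e⟩)

theorem bt_eq (m i : ℕ) : bt m i = if m.testBit i = true then 1 else 0 := by
  unfold bt
  rw [e_mod, e_shr, Nat.shiftRight_eq_div_pow, Nat.testBit_eq_decide_div_mod_eq]
  by_cases h : m / 2 ^ i % 2 = 1
  · simp [h]
  · simp [h]; omega

theorem bt_zero {m i : ℕ} : bt m i = 0 ↔ ¬ m.testBit i = true := by rw [bt_eq]; split <;> simp_all
theorem bt_one {m i : ℕ} (h : m.testBit i = true) : bt m i = 1 := by rw [bt_eq, if_pos h]

theorem bt_le (m i : ℕ) : bt m i ≤ 1 := by rw [bt_eq]; split <;> omega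

theorem one_sub_bt (m i : ℕ) : Nat.sub 1 (bt m i) = 1 ↔ ¬ m.testBit i = true := by
  rw [← bt_zero, e_sub]; omega

instance mbDec (A i j : ℕ) : Decidable (mb A i j) := by unfold mb; infer_instance

theorem nz_eq (x : ℕ) : nz x = if x = 0 then 0 else 1 := by
  unfold nz; simp only [e_sub]; split <;> omega

theorem gd_ne {B v : ℕ} (h : gd B v ≠ 0) : B ≠ 0 ∧ v = 0 := by
  unfold gd at h; simp only [e_mul, e_sub, ne_eq, Nat.mul_eq_zero, not_or] at h; omega

theorem gd_zero (v : ℕ) : gd 0 v = 0 := by unfold gd; simp [e_mul]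

theorem tb_mul_bit {a x i : ℕ} (ha : a ≤ 1) : (Nat.mul a x).testBit i = true ↔ a = 1 ∧ x.testBit i = true := by
  rw [e_mul]
  interval_cases a <;> simp

theorem mem_bs {x i : ℕ} : i ∈ bs x ↔ x.testBit i = true := by
  unfold bs
  rw [Finset.mem_filter, Finset.mem_range]
  exact ⟨fun h => h.2, fun h => ⟨lt_of_lt_of_le Nat.lt_two_pow_self (Nat.ge_two_pow_of_testBit h), h⟩⟩

theorem bs_zero : bs 0 = ∅ := by simp [bs]

theorem bs_eq_empty {x : ℕ} (h : bs x = ∅) : x = 0 := by
  by_contra e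
  obtain ⟨i, hi⟩ := Nat.exists_testBit_of_ne_zero e
  have := mem_bs.2 hi
  simp [h] at this

theorem low_ex (x : ℕ) (hx : x ≠ 0) : ∃ p, x.testBit p = true ∧ (∀ i < p, ¬ x.testBit i = true) ∧
    ∀ i, (clr x).testBit i = true ↔ x.testBit i = true ∧ i ≠ p := by
  induction x using Nat.strong_induction_on with
  | _ x ih =>
    unfold clr
    simp only [tb_land, e_sub]
    by_cases h : x % 2 = 1
    · refine ⟨0, by simp [Nat.testBit_zero, h], by simp, fun i => ?_⟩
      cases i with
      | zero => simp [Nat.testBit_zero]; omega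
      | succ i =>
        rw [Nat.testBit_succ, Nat.testBit_succ, show (x - 1) / 2 = x / 2 by omega]; simp
    · obtain ⟨p, h1, h2, h3⟩ := ih (x / 2) (by omega) (by omega)
      refine ⟨p + 1, by rw [Nat.testBit_succ]; exact h1, fun i hi => ?_, fun i => ?_⟩
      · cases i with
        | zero => simp [Nat.testBit_zero, h]
        | succ i => rw [Nat.testBit_succ]; exact h2 i (by omega)
      · cases i with
        | zero => simp [Nat.testBit_zero, h]
        | succ i =>
          have := h3 i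
          unfold clr at this
          simp only [tb_land, e_sub] at this
          rw [Nat.testBit_succ, Nat.testBit_succ, show (x - 1) / 2 = x / 2 - 1 by omega, this]; simp

theorem ix_tab : ∀ k < 64, Nat.mod (Nat.shiftRight cT (Nat.mul 6 (Nat.mod (2 ^ k) 67))) 64 = k := by
  decide +kernel

theorem ix_zero : ix 0 = 63 := by decide +kernel

theorem clr_zero : clr 0 = 0 := rfl

/-- the lowest bit -/
theorem ix_spec {x : ℕ} (hx : x ≠ 0) (h64 : ∀ i, x.testBit i = true → i < 64) :
    x.testBit (ix x) = true ∧ (∀ i, x.testBit i = true → ix x ≤ i) ∧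
      ∀ i, (clr x).testBit i = true ↔ x.testBit i = true ∧ i ≠ ix x := by
  obtain ⟨p, h1, h2, h3⟩ := low_ex x hx
  have e : Nat.xor x (clr x) = 2 ^ p := by
    apply Nat.eq_of_testBit_eq
    intro i
    rw [Bool.eq_iff_iff, tb_xor, h3, ← pw_eq, tb_pw]
    by_cases a : i = p
    · subst a; simp [h1]
    · simp [a]
  have : ix x = p := by unfold ix; rw [e]; exact ix_tab p (h64 p h1)
  rw [this]
  exact ⟨h1, fun i hi => by by_contra c; exact h2 i (by omega) hi, h3⟩

theorem clr_sub {x i : ℕ} (h : (clr x).testBit i = true) : x.testBit i = true := ((tb_land _ _ _).1 h).1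

theorem card_clr (x : ℕ) : (bs (clr x)).card = (bs x).card - 1 := by
  by_cases hx : x = 0
  · subst hx; simp [clr_zero, bs_zero]
  obtain ⟨p, h1, -, h3⟩ := low_ex x hx
  have : bs (clr x) = (bs x).erase p := by
    ext i; rw [Finset.mem_erase, mem_bs, mem_bs, h3]; tauto
  rw [this, Finset.card_erase_of_mem (mem_bs.2 h1)]

theorem card_zero_iff (x : ℕ) : (bs x).card = 0 ↔ x = 0 :=
  ⟨fun h => bs_eq_empty (Finset.card_eq_zero.1 h), fun h => by simp [h, bs_zero]⟩

theorem cnt_eq (x : ℕ) : cnt x = min 3 (bs x).card := by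
  unfold cnt
  have a := card_zero_iff x; have b := card_zero_iff (clr x); have c := card_zero_iff (clr (clr x))
  rw [card_clr] at b; rw [card_clr, card_clr] at c
  simp only [nz_eq, e_add]
  split <;> split <;> split <;> omega

theorem clr1 (x : ℕ) : clr x = 0 ↔ (bs x).card ≤ 1 := by
  rw [← card_zero_iff, card_clr]; omega
theorem clr2 (x : ℕ) : clr (clr x) = 0 ↔ (bs x).card ≤ 2 := by
  rw [← card_zero_iff, card_clr, card_clr]; omega
theorem clr3 (x : ℕ) : clr (clr (clr x)) = 0 ↔ (bs x).card ≤ 3 := by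
  rw [← card_zero_iff, card_clr, card_clr, card_clr]; omega

theorem forB_succ (f : ℕ → ℕ → ℕ → ℕ) (c m z B : ℕ) :
    forB f (c + 1) m z B = forB f c (clr m) z (f (ix m) (clr m) B) := rfl

theorem forB_zero {f : ℕ → ℕ → ℕ → ℕ} (hs : ∀ y m, f y m 0 = 0) (c m z : ℕ) : forB f c m z 0 = 0 := by
  induction c generalizing m with
  | zero => exact gd_zero _
  | succ c ih => rw [forB_succ, hs, ih]

/-- every bit of the mask has a child; the child sees the higher bits -/
theorem forB_ne {f : ℕ → ℕ → ℕ → ℕ} (hs : ∀ y m, f y m 0 = 0) {c m z B : ℕ}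
    (h64 : ∀ i, m.testBit i = true → i < 64) (h : forB f c m z B ≠ 0) :
    z = 0 ∧ B ≠ 0 ∧ ∀ y, m.testBit y = true → ∃ m' B', f y m' B' ≠ 0 ∧
      ∀ i, m'.testBit i = true ↔ m.testBit i = true ∧ y < i := by
  induction c generalizing m B with
  | zero =>
    obtain ⟨a, b⟩ := gd_ne h
    rw [e_add] at b
    exact ⟨by omega, a, fun y hy => absurd hy (zero_bit (by omega) y)⟩
  | succ c ih =>
    rw [forB_succ] at h
    obtain ⟨a, b, d⟩ := ih (fun i hi => h64 i (clr_sub hi)) h
    refine ⟨a, fun e => b (by rw [e, hs]), fun y hy => ?_⟩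
    obtain ⟨p1, p2, p3⟩ := ix_spec (x := m) (fun e => zero_bit e y hy) h64
    by_cases e : y = ix m
    · refine ⟨_, _, e ▸ b, fun i => ?_⟩
      rw [p3]
      exact ⟨fun r => ⟨r.1, by have := p2 i r.1; omega⟩, fun r => ⟨r.1, by omega⟩⟩
    · obtain ⟨m', B', q1, q2⟩ := d y ((p3 y).2 ⟨hy, e⟩)
      refine ⟨m', B', q1, fun i => ?_⟩
      rw [q2, p3]
      have := p2 y hy
      exact ⟨fun r => ⟨r.1.1, r.2⟩, fun r => ⟨⟨r.1, by omega⟩, r.2⟩⟩

theorem tb_row (A i j : ℕ) : (row A i).testBit j = true ↔ j < 63 ∧ mb A i j := by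
  unfold row mb
  rw [show (9223372036854775808 : ℕ) = pw 63 from rfl, tb_modpw, tb_shr, e_mul]

theorem rec_zero {α : Type} (a : α) (s : ℕ → α → α) : @Nat.rec (fun _ => α) a s 0 = a := rfl

/-- case distinction written with the recursor -/
theorem rec_case {a : ℕ} {s : ℕ → ℕ} {x : ℕ} :
    @Nat.rec (fun _ => ℕ) a (fun m _ => s m) x = if x = 0 then a else s (x - 1) := by
  cases x <;> simp

theorem fd_lt (B p : ℕ) {w : ℕ} (hw : 0 < w) : fd B p w < w := Nat.mod_lt _ hw

theorem fd_eq (B p w : ℕ) : fd B p w = B / 2 ^ p % w := by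
  unfold fd; rw [e_mod, e_shr, Nat.shiftRight_eq_div_pow]

end Pool.Agent.Hom2.Sc
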