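import Pool.Agent.Lib.MP_7e4769_co.Hc.ScS

set_option autoImplicit false

namespace Pool.Agent.Hom2.Sc

variable {V : Type} {G : SimpleGraph V} {X : Finset V} {n A D1 D2 D3 Q : ℕ} {ph : ℕ → V}

theorem le_out {C Z : Finset V} {x : V} (h : ∀ y ∈ Z, y ∈ X ∧ y ∉ C ∧ G.Adj x y) : Z.card ≤ out G X C x := by
  unfold out
  exact Finset.card_le_card (fun y hy => by simpa using h y hy)

theorem out_le {C Z : Finset V} {x : V} (h : ∀ y ∈ X, y ∉ C → G.Adj x y → y ∈ Z) : out G X C x ≤ Z.card := by
  unfold out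
  exact Finset.card_le_card (fun y hy => by
    simp only [Finset.mem_filter] at hy; exact h y hy.1 hy.2.1 hy.2.2)

theorem sum_le_ecut {C P : Finset V} (h : P ⊆ C) : ∑ x ∈ P, out G X C x ≤ ecut G X C :=
  Finset.sum_le_sum_of_subset h

theorem ecut_le_list {C : Finset V} (L : List (V × V))
    (h : ∀ x ∈ C, ∀ y ∈ X, y ∉ C → G.Adj x y → (x, y) ∈ L) : ecut G X C ≤ L.length := by
  classical
  have : ecut G X C = ((C ×ˢ X).filter (fun e => e.2 ∉ C ∧ G.Adj e.1 e.2)).card := by
    unfold ecut out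
    rw [Finset.card_filter, Finset.sum_product]
    refine Finset.sum_congr rfl (fun x _ => ?_)
    rw [Finset.card_filter]
  rw [this]
  refine le_trans (Finset.card_le_card (t := L.toFinset) (fun e he => ?_)) (List.toFinset_card_le L)
  simp only [Finset.mem_filter, Finset.mem_product] at he
  exact List.mem_toFinset.2 (h _ he.1.1 _ he.1.2 he.2.1 he.2.2)

theorem two_cut (h2 : TwoEC G X) {C : Finset V} (hC : C ⊆ X) (hne : C.Nonempty) (hX : C ≠ X) :
    2 ≤ ecut G X C := by
  classical
  obtain ⟨a, ha, b, hb, hb', hab⟩ := h2.conn C hC hne hX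
  by_contra e
  refine h2.2 C hC hne hX a b (fun x hx y hy hy' hxy => ?_)
  by_cases r : x = a
  · subst r
    refine ⟨rfl, by_contra fun r' => e ?_⟩
    have := le_out (G := G) (X := X) (C := C) (Z := {y, b}) (x := x) (by simp [*])
    rw [Finset.card_pair r'] at this
    exact this.trans (Finset.single_le_sum (f := out G X C) (fun _ _ => Nat.zero_le _) hx)
  · exfalso
    have p := le_out (G := G) (X := X) (C := C) (Z := {y}) (x := x) (by simp [*])
    have q := le_out (G := G) (X := X) (C := C) (Z := {b}) (x := a) (by simp [*])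
    have := sum_le_ecut (G := G) (X := X) (C := C) (P := {x, a}) (by intro t; simp; rintro (rfl | rfl) <;> assumption)
    rw [Finset.sum_pair r] at this
    simp at p q; omega

theorem three_cut (hc : Cub G X) (hcl : Closed G X) (h3 : E3 G X) {C : Finset V} (hC : C ⊆ X)
    (hne : C.Nonempty) (hX : C ≠ X) : 3 ≤ ecut G X C := by
  classical
  by_cases a : C.card ≤ 1
  · obtain ⟨v, hv⟩ := hne
    obtain ⟨x, y, z, hn⟩ := hc v (hC hv)
    have t : ∀ w, G.Adj v w → w ∈ X ∧ w ∉ C ∧ G.Adj v w := fun w hw =>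
      ⟨hcl v (hC hv) w hw, fun e => hw.ne (Finset.card_le_one.1 a v hv w e), hw⟩
    have := le_out (G := G) (X := X) (C := C) (Z := {x, y, z}) (x := v) (by
      simp [t _ hn.adj1, t _ hn.adj2, t _ hn.adj3])
    rw [Finset.card_eq_three.2 ⟨x, y, z, hn.1, hn.2.1, hn.2.2.1, rfl⟩] at this
    exact this.trans (Finset.single_le_sum (f := out G X C) (fun _ _ => Nat.zero_le _) hv)
  by_cases b : C.card + 2 ≤ X.card
  · exact h3 C hC (by omega) b
  obtain ⟨v, hv, hv'⟩ := Finset.exists_of_ssubset (Finset.ssubset_iff_subset_ne.2 ⟨hC, hX⟩)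
  obtain ⟨x, y, z, hn⟩ := hc v hv
  have t : ∀ w, G.Adj v w → w ∈ C ∧ 1 ≤ out G X C w := fun w hw => by
    refine ⟨by_contra fun e => ?_, le_out (Z := {v}) (by simp [hv, hv', hw.symm])⟩
    have := Finset.card_le_card (show insert v (insert w C) ⊆ X by
      intro u; simp only [Finset.mem_insert]; rintro (rfl | rfl | r)
      · exact hv
      · exact hcl v hv _ hw
      · exact hC r)
    rw [Finset.card_insert_of_notMem (by simp [hv', hw.ne]), Finset.card_insert_of_notMem e] at this
    omega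
  have := sum_le_ecut (G := G) (X := X) (C := C) (P := {x, y, z}) (by
    intro u; simp only [Finset.mem_insert, Finset.mem_singleton]
    rintro (rfl | rfl | rfl)
    exacts [(t _ hn.adj1).1, (t _ hn.adj2).1, (t _ hn.adj3).1])
  rw [Finset.sum_insert (by simp [hn.1, hn.2.1]), Finset.sum_pair hn.2.2.1] at this
  have := (t _ hn.adj1).2; have := (t _ hn.adj2).2; have := (t _ hn.adj3).2
  omega

open Classical in
/-- image of a mask -/
noncomputable def im (ph : ℕ → V) (U : ℕ) : Finset V := (bs U).image ph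

theorem mem_im {U : ℕ} {v : V} : v ∈ im ph U ↔ ∃ i, U.testBit i = true ∧ ph i = v := by
  unfold im; simp [mem_bs]

section
variable (s : St G X n A D1 D2 D3 Q ph)
include s

theorem St.ph_im {U i : ℕ} (hU : ∀ i, U.testBit i = true → i < n) (hi : i < n) :
    ph i ∈ im ph U ↔ U.testBit i = true := by
  rw [mem_im]
  exact ⟨fun ⟨j, a, b⟩ => s.inj j (hU j a) i hi b ▸ a, fun a => ⟨i, a, rfl⟩⟩

theorem St.im_sub {U : ℕ} (hU : ∀ i, U.testBit i = true → i < n) : im ph U ⊆ X := by
  intro v hv; obtain ⟨i, a, rfl⟩ := mem_im.1 hv; exact s.mem i (hU i a)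

theorem St.sum_im {U : ℕ} (hU : ∀ i, U.testBit i = true → i < n) (g : V → ℕ) :
    ∑ v ∈ im ph U, g v = ∑ i ∈ bs U, g (ph i) := by
  classical
  unfold im
  exact Finset.sum_image (fun i hi j hj e => s.inj i (hU i (mem_bs.1 hi)) j (hU j (mem_bs.1 hj)) e)

theorem St.card_im {U : ℕ} (hU : ∀ i, U.testBit i = true → i < n) : (im ph U).card = (bs U).card := by
  rw [Finset.card_eq_sum_ones, s.sum_im hU, ← Finset.card_eq_sum_ones]

theorem St.card_two {U O : ℕ} (hU : ∀ i, U.testBit i = true → i < n) (hO : ∀ i, O.testBit i = true → i < n)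
    (hd : ∀ i, U.testBit i = true → ¬ O.testBit i = true) : (im ph U).card + (bs O).card ≤ X.card := by
  classical
  rw [← s.card_im hO, ← Finset.card_union_of_disjoint]
  · exact Finset.card_le_card (Finset.union_subset (s.im_sub hU) (s.im_sub hO))
  · rw [Finset.disjoint_left]
    intro v hv hv'
    obtain ⟨i, a, rfl⟩ := mem_im.1 hv
    exact hd i a ((s.ph_im hO (hU i a)).1 hv')

theorem St.bit_nb {i j : ℕ} (hj : j < 64) (h : mb A i j) : ∃ w, G.Adj (ph i) w ∧ cd X n ph w = j := by
  rcases (s.rng i j hj h).2 with r | rfl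
  · exact ⟨ph j, s.adj i j r h, s.cd_ph r⟩
  · obtain ⟨w, a, b⟩ := s.stb i h
    exact ⟨w, b, by unfold cd; rw [if_neg a]⟩

omit s in
theorem tb_SB (i : ℕ) : (4611686018427387904 : ℕ).testBit i = true ↔ i = 62 := tb_pw 62 i

/-- neighbours in `X` outside the image of `U` are not among the known inner half-edges -/
theorem St.outer (hc : Cub G X) (h2 : TwoEC G X) {i U : ℕ} (hi : i < n) {Z : Finset V}
    (hZ : ∀ y ∈ Z, y ∈ X ∧ y ∉ im ph U ∧ G.Adj (ph i) y) :
    Z.card + (bs (Nat.land (row A i) (Nat.lor U 4611686018427387904))).card ≤ 3 := by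
  obtain ⟨Z', a, b⟩ := s.split hc h2 hi (Nat.lor U 4611686018427387904)
  have : Z ⊆ Z' := fun y hy => (a y).2 ⟨(hZ y hy).2.2, fun e => by
    rcases s.kn e.1 with r | r
    · rcases (tb_lor _ _ _).1 e.2 with t | t
      · exact (hZ y hy).2.1 (mem_im.2 ⟨_, t, r.2.1⟩)
      · have := (tb_SB _).1 t; have := s.le; omega
    · exact r.2 (hZ y hy).1⟩
  have := Finset.card_le_card this
  omega

theorem St.mask_lt {U : ℕ} (hU : ∀ i, U.testBit i = true → i < n) : U < 2 ^ 63 :=
  lt_of_bits (fun i hi => by have := hU i hi; have := s.le; omega)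

theorem St.maskS_lt {U : ℕ} (hU : ∀ i, U.testBit i = true → i < n) :
    Nat.lor U 4611686018427387904 < 2 ^ 63 :=
  lt_of_bits (fun i hi => by
    rcases (tb_lor _ _ _).1 hi with r | r
    · have := hU i r; have := s.le; omega
    · have := (tb_SB _).1 r; omega)

theorem St.adE_new {k : Kc} {i B : ℕ} (hn : n ≤ 61) (hi : i < n) {v : V} (hv : v ∈ X)
    (hnew : ∀ j < n, ph j ≠ v) (a : G.Adj (ph i) v) (h : adE i n k n A D1 D2 D3 Q B ≠ 0) :
    ∃ A' E1 E2 E3, St G X (n + 1) A' E1 E2 E3 Q (fun j => if j = n then v else ph j) ∧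
      k (n + 1) A' E1 E2 E3 Q B ≠ 0 := by
  refine ⟨_, _, _, _, (s.grow hn hv hnew).edge (i := i) (y := n) (by omega) (by omega) ?_, ?_⟩
  · simpa [show i ≠ n by omega] using a
  · unfold adE at h
    rwa [show eN n n = n + 1 by unfold eN; simp only [e_add, e_sub]; omega] at h

end

theorem ks_adE {Gl : Prop} {k : Kc} {i y : ℕ} (hi : i < n) (hy : y < n) (a : G.Adj (ph i) (ph y))
    (hk : KS G X Gl k n ph) : KS G X Gl (adE i y k) n ph := by
  intro n' A D1 D2 D3 Q ph' B x s h
  have := x.1
  exact s.adE_old (by omega) (by omega) (by rw [x.2 i hi, x.2 y hy]; exact a) (hk.ext x) h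

theorem tb_fd (B p m i : ℕ) : (fd B p (pw m)).testBit i = true → i < m := fun h => ((tb_modpw _ _ _).1 h).1

theorem row_blk {T C i : ℕ} (hT : T < 2 ^ 63) (hC : C < 2 ^ 64) (hi : T.testBit i = true) :
    row (blk A T C) i = Nat.land (row A i) C := by
  apply Nat.eq_of_testBit_eq
  intro j
  rw [Bool.eq_iff_iff, tb_land, tb_row, tb_row]
  by_cases a : j < 63
  · rw [mb_blk A hT hC i (by omega)]; simp [a, hi]
  · simp [a]

theorem blk_mx (h : Mx A) (T C : ℕ) : Mx (blk A T C) := h.mono (fun _ _ e => ((mb_land _ _ _ _).1 e).1)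

/-- the number of half-edges leaving `U` -/
theorem St.cut_le (s : St G X n A D1 D2 D3 Q ph) (hc : Cub G X) (h2 : TwoEC G X) {U : ℕ}
    (hU : ∀ i, U.testBit i = true → i < n)
    (h : Nat.xor (Nat.shiftLeft (spr U) 63) (nzR (clR (blk A U (Nat.lor U 4611686018427387904)))) = 0) :
    ecut G X (im ph U) ≤ (bs (Nat.xor (Nat.shiftLeft (spr U) 63)
      (nzR (clR (clR (blk A U (Nat.lor U 4611686018427387904))))))).card := by
  classical
  have l1 := s.mask_lt hU
  have l2 := s.maskS_lt hU
  have mx := blk_mx s.mx U (Nat.lor U 4611686018427387904)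
  set Y := blk A U (Nat.lor U 4611686018427387904) with hY
  set Z := Nat.xor (Nat.shiftLeft (spr U) 63) (nzR (clR (clR Y))) with hZ
  have key : ∀ i ∈ bs U, out G X (im ph U) (ph i) ≤ if mb Z i 63 then 1 else 0 := by
    intro i hi
    rw [mem_bs] at hi
    have a := s.outer hc h2 (U := U) (hU i hi) (Z := X.filter (fun y => y ∉ im ph U ∧ G.Adj (ph i) y))
      (by simp)
    rw [← row_blk l1 (by omega) hi, ← hY] at a
    have b : mb (nzR (clR Y)) i 63 := by rw [← xor_zero' h, mb_flag l1 i (by omega)]; exact ⟨rfl, hi⟩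
    rw [mb_nzR mx.clR i (by omega), row_clR mx, ne_eq, clr1] at b
    have o : out G X (im ph U) (ph i) = (X.filter (fun y => y ∉ im ph U ∧ G.Adj (ph i) y)).card := by
      unfold out; congr
    rw [o]
    split
    · omega
    · next e =>
      rw [hZ, mb_xor, mb_flag l1 i (by omega), mb_nzR mx.clR.clR i (by omega), row_clR mx.clR,
        row_clR mx, ne_eq, clr2, not_not] at e
      have := (e.1 ⟨rfl, hi⟩).2
      omega
  unfold ecut
  rw [s.sum_im hU]
  refine (Finset.sum_le_sum key).trans ?_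
  rw [← Finset.card_filter]
  refine Finset.card_le_card_of_injOn (fun i => 64 * i + 63) (fun i hi => ?_) (fun i _ j _ e => by
    simp only at e; omega)
  simp only [Finset.coe_filter, Set.mem_ofPred_eq] at hi
  exact Finset.mem_coe.2 (mem_bs.2 hi.2)

theorem rCut_sound {P : Pm} {Gl : Prop} (cx : Ctx P G X Gl) (s : St G X n A D1 D2 D3 Q ph) {B : ℕ}
    (h : rCut P.cl P.fe P.fc n A B ≠ 0) : False := by
  unfold rCut at h
  have h := (gd_ne h).2
  rw [e_add, Nat.add_eq_zero_iff] at h
  have hU := tb_fd B 2 n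
  have a := s.cut_le cx.cub cx.two hU h.1
  have h := h.2
  generalize Nat.xor (Nat.shiftLeft (spr (fd B 2 (pw n))) 63) _ = Z at a h
  generalize fd B 2 (pw n) = U at *
  have hO : ∀ i, (Nat.xor (Nat.sub (pw n) 1) U).testBit i = true → i < n ∧ ¬ U.testBit i = true := by
    intro i hi
    rw [tb_xor, tb_full] at hi
    have := hU i
    tauto
  have b := s.card_two hU (fun i hi => (hO i hi).1) (fun i hi e => (hO i e).2 hi)
  generalize Nat.xor (Nat.sub (pw n) 1) U = O at *
  have c := s.card_im hU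
  have sub := s.im_sub hU
  have z1 := clr1 Z; have z2 := clr2 Z; have z3 := clr3 Z
  have u0 := card_zero_iff U; have u1 := clr1 U; have u3 := clr3 U
  have o0 := card_zero_iff O; have o1 := clr1 O; have o3 := clr3 O
  unfold cutV at h
  rw [rec_case, rec_case] at h
  simp only [e_add, e_sub] at h
  have ne : 1 ≤ (bs O).card → im ph U ≠ X := fun e r => by rw [r] at b; omega
  have nn : 1 ≤ (bs U).card → (im ph U).Nonempty := fun e => Finset.card_pos.1 (by omega)
  have := cx.cl1; have := cx.fe1; have := cx.fc1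
  split at h
  · have := two_cut cx.two sub (nn (by omega)) (ne (by omega)); omega
  · split at h
    · by_cases e : P.cl = 1
      · have := three_cut cx.cub (cx.cl e) (cx.fe (by omega)) sub (nn (by omega)) (ne (by omega)); omega
      · have := cx.fe (by omega) _ sub (by omega) (by omega); omega
    · have := cx.fc (by omega) _ sub (by omega) (by omega); omega

end Pool.Agent.Hom2.Sc
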