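import Pool.Agent.Lib.MP_7e4769_co.Hc.ScT

set_option autoImplicit false

namespace Pool.Agent.Hom2.Sc

variable {V : Type} {G : SimpleGraph V} {X : Finset V} {n A D1 D2 D3 Q : ℕ} {ph : ℕ → V}

/-- colour of a vertex in a packed colouring -/
def cf (C i : ℕ) : Fin 4 := ⟨cv2 C i, Nat.mod_lt _ (by omega)⟩

/-- `w` is a stub or a vertex of the mask -/
def inr (X : Finset V) (n : ℕ) (ph : ℕ → V) (M : ℕ) (w : V) : Prop :=
  (Nat.lor M 4611686018427387904).testBit (cd X n ph w) = true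

def Sl (I J j : ℕ) (p : Prop) : Prop := (¬ p ∧ j = ix J ∧ I.testBit j = true) ∨ (p ∧ ix J = 63 ∧ ¬ I.testBit j = true)

theorem cnt_lt (I : ℕ) : (cnt I < 1 ↔ I = 0) ∧ (cnt I < 2 ↔ clr I = 0) ∧ (cnt I < 3 ↔ clr (clr I) = 0) := by
  rw [cnt_eq, clr2, clr1, ← card_zero_iff I]; omega

section
variable (s : St G X n A D1 D2 D3 Q ph)
include s

theorem St.cd_inj (hc : Cub G X) (h2 : TwoEC G X) {i : ℕ} (hi : i < n) {w w' : V} (a : G.Adj (ph i) w)
    (a' : G.Adj (ph i) w') (l : cd X n ph w < 63) (e : cd X n ph w = cd X n ph w') : w = w' := by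
  have := s.le
  rcases s.cd_spec w with r | r | r <;> rcases s.cd_spec w' with r' | r' | r' <;> try omega
  · rw [← r.2.1, ← r'.2.1, e]
  · exact one_stub hc h2 (s.mem i hi) r.2 r'.2 a a'

theorem St.enum (hc : Cub G X) (h2 : TwoEC G X) {v : ℕ} (hv : v < n) (m I : ℕ) (hI : I = Nat.land (row A v) m) :
    ∃ x y z, Nb G (ph v) x y z ∧ Sl I I (cd X n ph x) (cnt I < 1) ∧ Sl I (clr I) (cd X n ph y) (cnt I < 2) ∧
      Sl I (clr (clr I)) (cd X n ph z) (cnt I < 3) := by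
  have b : ∀ j, I.testBit j = true → j < 63 ∧ mb A v j := fun j hj =>
    (tb_row _ _ _).1 ((tb_land _ _ _).1 (hI ▸ hj)).1
  have nb : ∀ j, I.testBit j = true → ∃ w, G.Adj (ph v) w ∧ cd X n ph w = j := fun j hj =>
    s.bit_nb (by have := b j hj; omega) (b j hj).2
  have inj : ∀ w w', G.Adj (ph v) w → G.Adj (ph v) w' → I.testBit (cd X n ph w) = true →
      cd X n ph w = cd X n ph w' → w = w' := fun w w' a a' l => s.cd_inj hc h2 hv a a' (b _ l).1
  have l0 : ∀ j, I.testBit j = true → j < 64 := fun j hj => by have := b j hj; omega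
  obtain ⟨c1, c2, c3⟩ := cnt_lt I
  unfold Sl
  rw [c1, c2, c3]
  by_cases e1 : I = 0
  · obtain ⟨x, y, z, hn⟩ := hc _ (s.mem v hv)
    exact ⟨x, y, z, hn, by simp [e1, clr_zero, ix_zero]⟩
  obtain ⟨p1, -, p3⟩ := ix_spec e1 l0
  obtain ⟨x, x1, x2⟩ := nb _ p1
  by_cases e2 : clr I = 0
  · obtain ⟨y, z, hn⟩ := hc.first (s.mem v hv) x1
    have t : ∀ w, G.Adj (ph v) w → x ≠ w → ¬ I.testBit (cd X n ph w) = true := fun w a ne u =>
      zero_bit e2 _ ((p3 _).2 ⟨u, fun e => ne (inj w x a x1 u (e.trans x2.symm)).symm⟩)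
    exact ⟨x, y, z, hn, by simp [e1, e2, clr_zero, ix_zero, x2, p1, t y hn.adj2 hn.1, t z hn.adj3 hn.2.1]⟩
  obtain ⟨q1, -, q3⟩ := ix_spec e2 (fun j hj => l0 j (clr_sub hj))
  obtain ⟨y, y1, y2⟩ := nb _ (clr_sub q1)
  have xy : x ≠ y := fun e => ((p3 _).1 q1).2 (by rw [← y2, ← e, x2])
  by_cases e3 : clr (clr I) = 0
  · obtain ⟨z, hn⟩ := hc.second (s.mem v hv) x1 y1 xy
    have t : ¬ I.testBit (cd X n ph z) = true := fun u =>
      zero_bit e3 _ ((q3 _).2 ⟨(p3 _).2 ⟨u, fun e => hn.2.1 (inj z x hn.adj3 x1 u (e.trans x2.symm)).symm⟩,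
        fun e => hn.2.2.1 (inj z y hn.adj3 y1 u (e.trans y2.symm)).symm⟩)
    exact ⟨x, y, z, hn, by simp [e1, e2, e3, ix_zero, x2, y2, p1, clr_sub q1, t]⟩
  obtain ⟨r1, -, -⟩ := ix_spec e3 (fun j hj => l0 j (clr_sub (clr_sub hj)))
  obtain ⟨z, z1, z2⟩ := nb _ (clr_sub (clr_sub r1))
  obtain ⟨_, _, _, hn⟩ := hc _ (s.mem v hv)
  exact ⟨x, y, z, hn.of_adj x1 y1 z1 xy (fun e => ((p3 _).1 (clr_sub r1)).2 (by rw [← z2, ← e, x2]))
    (fun e => ((q3 _).1 r1).2 (by rw [← z2, ← e, y2])),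
    by simp [e1, e2, e3, x2, y2, z2, p1, clr_sub q1, clr_sub (clr_sub r1)]⟩

theorem St.inr_iff {M : ℕ} (hM : ∀ i, M.testBit i = true → i < n) (w : V) :
    inr X n ph M w ↔ w ∉ X ∨ w ∈ im ph M := by
  unfold inr
  have := s.le
  rw [tb_lor, tb_SB, mem_im]
  rcases s.cd_spec w with r | r | r
  · refine ⟨fun u => Or.inr ⟨_, u.resolve_right (by omega), r.2.1⟩, fun u => Or.inl ?_⟩
    obtain ⟨i, a, rfl⟩ := u.resolve_left (fun z => z r.2.2.1)
    rwa [s.cd_ph (hM i a)]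
  · exact ⟨fun _ => Or.inl r.2, fun _ => Or.inr r.1⟩
  · refine ⟨fun u => ?_, fun u => ?_⟩
    · rcases u with u | u
      · have := hM _ u; omega
      · omega
    · obtain ⟨i, a, e⟩ := u.resolve_left (fun z => z r.2.1)
      exact absurd e (r.2.2.2 i (hM i a))

theorem St.atom (hc : Cub G X) (h2 : TwoEC G X) {M K F h N v : ℕ} (hM : ∀ i, M.testBit i = true → i < n)
    (hv : M.testBit v = true) (hF : F.testBit v = true → K.testBit v = true)
    (hh : h.testBit v = true → K.testBit v = true ∧ ¬ F.testBit v = true)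
    (hin : ∀ w, G.Adj (ph v) w → inr X n ph M w → mb A v (cd X n ph w))
    (hal : alV A M K F h N v ≠ 0) (c : V → Fin 4) (c3 : ¬ h.testBit v = true → c (ph v) = 3)
    (cok : ∀ w, ¬ inr X n ph M w → OK G c w) :
    ∃ i : Fin 6, (¬ N.testBit v = true → ¬ h.testBit v = true → i = 0) ∧ ∃ a < 6,
      (alV A M K F h N v).testBit a = true ∧ ∀ C, cv2 C 63 = 0 → ¬ (klV A M K F h C v).testBit a = true →
      (¬ K.testBit v = true → cf C v = 3) ∧ ∀ c' : V → Fin 4, (∀ w, inr X n ph M w → c' w = cf C (cd X n ph w)) →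
        (∀ w, ¬ inr X n ph M w → c' w = s3 i (c w)) → OK G c' (ph v) ∧ ∀ y, G.Adj (ph v) y →
          K.testBit v = true → ¬ inr X n ph M y → (∀ w, w ≠ ph v → G.Adj y w → c' w = s3 i (c w)) → OK G c' y := by
  have lv := hM v hv
  obtain ⟨x, y, z, hn, sx, sy, sz⟩ := s.enum hc h2 lv (Nat.lor M 4611686018427387904) _ rfl
  have iv : inr X n ph M (ph v) := by unfold inr; rw [s.cd_ph lv, tb_lor]; exact Or.inl hv
  have eI : ∀ w, G.Adj (ph v) w → ((Nat.land (row A v) (Nat.lor M 4611686018427387904)).testBit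
      (cd X n ph w) = true ↔ inr X n ph M w) := fun w a => by
    rw [tb_land, tb_row]
    exact ⟨fun r => r.2, fun r => ⟨⟨bit_lt (s.maskS_lt hM) r, hin w a r⟩, r⟩⟩
  have oX : ∀ w, ¬ inr X n ph M w → w ∈ X := fun w a => by_contra fun e => a ((s.inr_iff hM w).2 (Or.inl e))
  have eA : alV A M K F h N v = aw (1 - bt K v + (2 * bt F v + 3 * bt h v))
    (cnt (Nat.land (row A v) (Nat.lor M 4611686018427387904))) (bt N v) := rfl
  have eK : ∀ C, klV A M K F h C v = kw (1 - bt K v + (2 * bt F v + 3 * bt h v)) (cf C v)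
    (cf C (ix (Nat.land (row A v) (Nat.lor M 4611686018427387904))))
    (cf C (ix (clr (Nat.land (row A v) (Nat.lor M 4611686018427387904)))))
    (cf C (ix (clr (clr (Nat.land (row A v) (Nat.lor M 4611686018427387904)))))) := fun _ => rfl
  simp only [eK]
  rw [eA] at hal ⊢
  unfold Sl at sx sy sz
  rw [eI x hn.adj1] at sx; rw [eI y hn.adj2] at sy; rw [eI z hn.adj3] at sz
  have lk : cnt (Nat.land (row A v) (Nat.lor M 4611686018427387904)) < 4 := by rw [cnt_eq]; omega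
  generalize Nat.land (row A v) (Nat.lor M 4611686018427387904) = I at *
  generalize cnt I = k at *
  have lN : bt N v < 2 := by have := bt_le N v; omega
  -- the flexible and the free port
  have port : ∀ t i q, k = 2 → ∀ u w, Nb G z (ph v) u w → s3 i (c z) = (fa t q).1 →
      (∀ r, r ≠ (fa t q).1 → r ≠ (fa t q).2 → ok4 (s3 i (c z)) r (s3 i (c u)) (s3 i (c w))) → ∀ C,
      cf C v ≠ (fa t q).1 ∧ cf C v ≠ (fa t q).2 ∧ ok4 (cf C v) (cf C (ix I)) (cf C (ix (clr I))) (fa t q).1 →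
      ∀ c' : V → Fin 4, (∀ w, inr X n ph M w → c' w = cf C (cd X n ph w)) →
        (∀ w, ¬ inr X n ph M w → c' w = s3 i (c w)) → OK G c' (ph v) ∧ ∀ y, G.Adj (ph v) y →
          K.testBit v = true → ¬ inr X n ph M y → (∀ w, w ≠ ph v → G.Adj y w → c' w = s3 i (c w)) → OK G c' y := by
    rintro t i q rfl u w hz e1 e2 C ⟨f1, f2, f3⟩ c' g1 g2
    obtain ⟨-, x1, x2⟩ := sx.resolve_right (by omega)
    obtain ⟨-, y1, y2⟩ := sy.resolve_right (by omega)
    obtain ⟨-, -, z2⟩ := sz.resolve_left (by omega)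
    have ev : c' (ph v) = cf C v := by rw [g1 _ iv, s.cd_ph lv]
    refine ⟨OK.of_nb hn (by rw [ev, g1 x x2, g1 y y2, g2 z z2, x1, y1, e1]; exact f3), fun y' a _ o g => ?_⟩
    obtain rfl : y' = z := by
      rcases hn.cases a with rfl | rfl | rfl
      exacts [absurd x2 o, absurd y2 o, rfl]
    exact OK.of_nb hz (by
      rw [ev, g2 _ o, g u hz.1.symm hz.adj2, g w hz.2.1.symm hz.adj3]; exact e2 _ f1 f2)
  by_cases k1 : K.testBit v = true
  · by_cases k2 : F.testBit v = true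
    · have k3 : ¬ h.testBit v = true := fun e => (hh e).2 k2
      rw [bt_one k1, bt_one k2, bt_zero.2 k3] at hal ⊢
      obtain ⟨e, r⟩ := aw2 k lk _ lN hal
      have z2 := (sz.resolve_left (by omega)).2.2
      obtain ⟨u, w, hz⟩ := hc.first (oX z z2) hn.adj3.symm
      obtain ⟨i, i1, q, q1, q2, q3, q4⟩ := r _ _ _ (c3 k3 ▸ cok z z2 _ _ _ hz)
      exact ⟨i, fun a _ => i1 (bt_zero.2 a), q, q1, q2, fun C _ b => ⟨fun e => absurd k1 e,
        port 2 i q e u w hz q3 q4 C (kw2 _ _ _ _ q q1 b)⟩⟩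
    by_cases k3 : h.testBit v = true
    · rw [bt_one k1, bt_one k3, bt_zero.2 k2] at hal ⊢
      obtain ⟨e, r⟩ := aw3 k lk _ lN hal
      have z2 := (sz.resolve_left (by omega)).2.2
      obtain ⟨u, w, hz⟩ := hc.first (oX z z2) hn.adj3.symm
      obtain ⟨i, q, q1, q2, q3, q4⟩ := r _ _ _ _ (cok z z2 _ _ _ hz)
      exact ⟨i, fun _ a => absurd k3 a, q, by omega, q2, fun C _ b => ⟨fun e => absurd k1 e,
        port 3 i q e u w hz q3 q4 C (kw3 _ _ _ _ q q1 b)⟩⟩
    rw [bt_one k1, bt_zero.2 k3, bt_zero.2 k2] at hal ⊢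
    obtain ⟨rfl, r⟩ := aw0 k lk _ lN hal
    obtain ⟨-, x1, x2⟩ := sx.resolve_right (by omega)
    obtain ⟨-, y1, y2⟩ := sy.resolve_right (by omega)
    obtain ⟨-, z1, z2⟩ := sz.resolve_right (by omega)
    refine ⟨0, fun _ _ => rfl, 0, by omega, r, fun C _ b => ⟨fun e => absurd k1 e, fun c' g1 g2 =>
      ⟨OK.of_nb hn ?_, fun y' a _ o => ?_⟩⟩⟩
    · rw [g1 _ iv, s.cd_ph lv, g1 x x2, g1 y y2, g1 z z2, x1, y1, z1]; exact kw0 _ _ _ _ b
    · rcases hn.cases a with rfl | rfl | rfl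
      exacts [absurd x2 o, absurd y2 o, absurd z2 o]
  have k2 : ¬ F.testBit v = true := fun e => k1 (hF e)
  have k3 : ¬ h.testBit v = true := fun e => k1 (hh e).1
  rw [bt_zero.2 k1, bt_zero.2 k3, bt_zero.2 k2] at hal ⊢
  have ne3 : ∀ w, G.Adj (ph v) w → ¬ inr X n ph M w → c w ≠ 3 := fun w a o =>
    c3 k3 ▸ OK.ne hc (oX w o) (cok w o) a.symm
  obtain ⟨i, i1, o, o1, o2, o3⟩ := aw1 k lk _ lN hal (c x) (c y) (c z)
    (fun e => ne3 x hn.adj1 (sx.resolve_left (fun r => r.1 e)).2.2)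
    (fun e => ne3 y hn.adj2 (sy.resolve_left (fun r => r.1 e)).2.2)
    (fun e => ne3 z hn.adj3 (sz.resolve_left (fun r => r.1 e)).2.2)
  refine ⟨i, fun a _ => i1 (bt_zero.2 a), o, by omega, o2, fun C C0 b => ?_⟩
  obtain ⟨b0, b1, b2, b3, b4⟩ := kw1 _ _ _ _ o o1 b
  refine ⟨fun _ => b0, fun c' g1 g2 => ⟨OK.of_nb hn ?_, fun _ _ e => absurd e k1⟩⟩
  have t : ∀ (w : V) (J : ℕ) (p : Prop) [Decidable p], G.Adj (ph v) w → cf C (ix J) ≠ 3 →
      (¬ p ∧ cd X n ph w = ix J ∧ inr X n ph M w) ∨ (p ∧ ix J = 63 ∧ ¬ inr X n ph M w) →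
      c' w ≠ 3 ∧ (c' w).val = (cf C (ix J)).val + if p then (s3 i (c w)).val else 0 := by
    rintro w J p _ a e (r | r)
    · rw [g1 w r.2.2, r.2.1, if_neg r.1]; exact ⟨e, rfl⟩
    · rw [g2 w r.2.2, if_pos r.1, r.2.1, show (cf C 63).val = 0 from C0, zero_add]
      exact ⟨fun u => ne3 w a r.2.2 (s3_inj i (u.trans (s3_three i).symm)), rfl⟩
  obtain ⟨x1, x2⟩ := t x _ _ hn.adj1 b1 sx
  obtain ⟨y1, y2⟩ := t y _ _ hn.adj2 b2 sy
  obtain ⟨z1, z2⟩ := t z _ _ hn.adj3 b3 sz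
  rw [g1 _ iv, s.cd_ph lv, b0, ok4_row]
  exact ⟨x1, y1, z1, by omega⟩

/-- a colouring of the remainder extends through a table -/
theorem St.pay (hc : Cub G X) {M K F h N u v B : ℕ} (h2 : TwoEC G X) (hM : ∀ i, M.testBit i = true → i < n)
    (hF : ∀ i, F.testBit i = true → K.testBit i = true)
    (hh : ∀ i, h.testBit i = true → K.testBit i = true ∧ ¬ F.testBit i = true)
    (hu : ∀ i, N.testBit i = true ∨ h.testBit i = true → i = u)
    (hin : ∀ i, M.testBit i = true → ∀ w, G.Adj (ph i) w → inr X n ph M w → mb A i (cd X n ph w))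
    (uni : ∀ y, ¬ inr X n ph M y → ∀ i j, M.testBit i = true → M.testBit j = true → K.testBit i = true →
      K.testBit j = true → G.Adj (ph i) y → G.Adj (ph j) y → i = j)
    (k : tab n A M K F h N v B ≠ 0) (c : V → Fin 4)
    (c3 : ∀ w, inr X n ph M w → (∀ i, h.testBit i = true → w ≠ ph i) → c w = 3)
    (hM' : ∀ i, h.testBit i = true → M.testBit i = true)
    (cok : ∀ w, ¬ inr X n ph M w → OK G c w) : Good G X := by
  classical
  obtain ⟨-, -, al, tb⟩ := tab_spec s.le (fun i hi => by have := hM i hi; have := s.le; omega) k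
  have iv : ∀ i, M.testBit i = true → inr X n ph M (ph i) := fun i hi => by
    unfold inr; rw [s.cd_ph (hM i hi), tb_lor]; exact Or.inl hi
  have c3' : ∀ i, M.testBit i = true → ¬ h.testBit i = true → c (ph i) = 3 := fun i hi e =>
    c3 _ (iv i hi) (fun j hj r => e (s.inj i (hM i hi) j (hM j (hM' j hj)) r ▸ hj))
  obtain ⟨i, hi⟩ : ∃ i : Fin 6, ∀ t, M.testBit t = true → ∃ a < 6,
      (alV A M K F h N t).testBit a = true ∧ ∀ C, cv2 C 63 = 0 → ¬ (klV A M K F h C t).testBit a = true →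
      (¬ K.testBit t = true → cf C t = 3) ∧ ∀ c' : V → Fin 4, (∀ w, inr X n ph M w → c' w = cf C (cd X n ph w)) →
        (∀ w, ¬ inr X n ph M w → c' w = s3 i (c w)) → OK G c' (ph t) ∧ ∀ y, G.Adj (ph t) y →
          K.testBit t = true → ¬ inr X n ph M y → (∀ w, w ≠ ph t → G.Adj y w → c' w = s3 i (c w)) → OK G c' y := by
    have z : ∀ x, s3 0 x = x := by decide
    have gen : ∀ i : Fin 6, ∀ t, (ht : M.testBit t = true) → t ≠ u → _ := fun i t ht ne =>
      (s.atom hc h2 hM ht (hF t) (hh t) (hin t ht) (al t ht) (fun w => s3 i (c w))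
        (fun e => by rw [c3' t ht e, s3_three]) (fun w o => (cok w o).map (s3_inj i))).imp
        (fun j r => And.intro (r.1 (fun e => ne (hu t (Or.inl e))) (fun e => ne (hu t (Or.inr e)))) r.2)
    by_cases e : M.testBit u = true
    · obtain ⟨i, -, r⟩ := s.atom hc h2 hM e (hF u) (hh u) (hin u e) (al u e) c (c3' u e) cok
      refine ⟨i, fun t ht => ?_⟩
      by_cases e' : t = u
      · exact e' ▸ r
      · obtain ⟨j, rfl, r⟩ := gen i t ht e'; simpa only [z] using r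
    · refine ⟨0, fun t ht => ?_⟩
      obtain ⟨j, rfl, r⟩ := gen 0 t ht (fun r => e (r ▸ ht)); simpa only [z] using r
  choose! sel s1 s2 s4 using hi
  obtain ⟨C, C1, C2, C3⟩ := tb sel (fun t ht => ⟨s1 t ht, s2 t ht⟩)
  have key := fun t ht => (s4 t ht C C2 (C3 t ht)).2
    (fun w => if inr X n ph M w then cf C (cd X n ph w) else s3 i (c w)) (fun w o => if_pos o) (fun w o => if_neg o)
  have same : ∀ w, (∀ t, M.testBit t = true → K.testBit t = true → w ≠ ph t) →
      (if inr X n ph M w then cf C (cd X n ph w) else s3 i (c w)) = s3 i (c w) := fun w hw => by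
    split
    · next o =>
      rw [c3 w o (fun j hj => hw j (hM' j hj) (hh j hj).1), s3_three]
      rcases (s.inr_iff hM w).1 o with r | r
      · unfold cd; rw [if_neg r]; exact Fin.ext C1
      · obtain ⟨t, t1, rfl⟩ := mem_im.1 r
        rw [s.cd_ph (hM t t1)]
        exact (s4 t t1 C C2 (C3 t t1)).1 (fun e => hw t t1 e rfl)
    · rfl
  refine ⟨fun w => if inr X n ph M w then cf C (cd X n ph w) else s3 i (c w), fun w hw _ => ?_, fun w hw => ?_⟩
  · simp only []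
    rw [if_pos ((s.inr_iff hM w).2 (Or.inl hw))]
    unfold cd; rw [if_neg hw]; exact Fin.ext C1
  by_cases o : inr X n ph M w
  · obtain ⟨t, t1, rfl⟩ := mem_im.1 (((s.inr_iff hM w).1 o).resolve_left (fun e => e hw))
    exact (key t t1).1
  by_cases e : ∃ t, M.testBit t = true ∧ K.testBit t = true ∧ G.Adj (ph t) w
  · obtain ⟨t, t1, t2, t3⟩ := e
    exact (key t t1).2 w t3 t2 o (fun y y1 y2 => same y (fun j j1 j2 r => y1 (by
      rw [r, uni w o t j t1 j1 t2 j2 t3 (r ▸ y2.symm)])))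
  · exact ((cok w o).map (s3_inj i)).congr (if_neg o)
      (fun y a => same y (fun j j1 j2 r => e ⟨j, j1, j2, r ▸ a.symm⟩))

/-- the free vertex of a table has exactly one outer neighbour -/
theorem St.port (hc : Cub G X) (h2 : TwoEC G X) {M K F h N v : ℕ} (hM : ∀ i, M.testBit i = true → i < n)
    (hv : M.testBit v = true) (k1 : K.testBit v = true) (k2 : ¬ F.testBit v = true) (k3 : h.testBit v = true)
    (hal : alV A M K F h N v ≠ 0) :
    ∃ z, G.Adj (ph v) z ∧ ∀ y, G.Adj (ph v) y → ¬ inr X n ph M y → y = z := by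
  obtain ⟨x, y, z, hn, sx, sy, -⟩ := s.enum hc h2 (hM v hv) (Nat.lor M 4611686018427387904) _ rfl
  have eA : alV A M K F h N v = aw (1 - bt K v + (2 * bt F v + 3 * bt h v))
    (cnt (Nat.land (row A v) (Nat.lor M 4611686018427387904))) (bt N v) := rfl
  rw [eA, bt_one k1, bt_one k3, bt_zero.2 k2] at hal
  have e := (aw3 _ (by rw [cnt_eq]; omega) _ (by have := bt_le N v; omega) hal).1
  refine ⟨z, hn.adj3, fun w a o => ?_⟩
  rcases hn.cases a with rfl | rfl | rfl
  · exact absurd ((tb_land _ _ _).1 (sx.resolve_right (by omega)).2.2).2 o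
  · exact absurd ((tb_land _ _ _).1 (sy.resolve_right (by omega)).2.2).2 o
  · rfl

end

/-- `C` is closed in `R` -/
def Cls (G : SimpleGraph V) (R C : Finset V) : Prop := C ⊆ R ∧ ∀ x ∈ C, ∀ y ∈ R, G.Adj x y → y ∈ C

theorem Cls.trans {R C D : Finset V} (a : Cls G R C) (b : Cls G C D) : Cls G R D :=
  ⟨b.1.trans a.1, fun x hx y hy e => b.2 x hx y (a.2 x (b.1 hx) y hy e) e⟩

theorem Cls.compl [DecidableEq V] {R C : Finset V} (a : Cls G R C) : Cls G R (R \ C) :=
  ⟨Finset.sdiff_subset, fun x hx y hy e => Finset.mem_sdiff.2 ⟨hy, fun r =>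
    (Finset.mem_sdiff.1 hx).2 (a.2 y r x (Finset.mem_sdiff.1 hx).1 e.symm)⟩⟩

theorem not_conn {R : Finset V} (h : ¬ Conn G R) : ∃ A, A.Nonempty ∧ A ≠ R ∧ Cls G R A := by
  unfold Conn at h
  push Not at h
  obtain ⟨A, hA, hne, hne', hno⟩ := h
  exact ⟨A, hne, hne', hA, fun x hx y hy e => by_contra fun r => hno x hx y hy r e⟩

theorem comp_of (R : Finset V) : ∀ y ∈ R, ∃ C, Cls G R C ∧ Conn G C ∧ y ∈ C := by
  classical
  induction R using Finset.strongInduction with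
  | H R ih =>
  intro y hy
  by_cases e : Conn G R
  · exact ⟨R, ⟨subset_rfl, fun _ _ _ h _ => h⟩, e, hy⟩
  obtain ⟨A, a1, a2, a3⟩ := not_conn e
  by_cases r : y ∈ A
  · obtain ⟨C, c1, c2⟩ := ih A (Finset.ssubset_iff_subset_ne.2 ⟨a3.1, a2⟩) y r
    exact ⟨C, a3.trans c1, c2⟩
  · obtain ⟨C, c1, c2⟩ := ih (R \ A) (Finset.sdiff_ssubset a3.1 a1) y (Finset.mem_sdiff.2 ⟨hy, r⟩)
    exact ⟨C, a3.compl.trans c1, c2⟩

theorem Cls.col [DecidableEq V] {R C : Finset V} {T : Set V} (a : Cls G R C) (g : Col G C T) (g' : Good G (R \ C))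
    (hT : ∀ t ∈ T, ∀ y ∈ R \ C, ¬ G.Adj y t) : Col G R T := by
  have := Col.union g g' (by simp +contextual)
    (fun x hx y hy e => (Finset.mem_sdiff.1 hy).2 (a.2 x hx y (Finset.mem_sdiff.1 hy).1 e)) hT
  rwa [Finset.union_sdiff_of_subset a.1] at this

theorem good_of_comps (R : Finset V) : (∀ C, Cls G R C → Conn G C → Good G C) → Good G R := by
  classical
  induction R using Finset.strongInduction with
  | H R ih =>
  intro h
  by_cases e : Conn G R
  · exact h R ⟨subset_rfl, fun _ _ _ h _ => h⟩ e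
  obtain ⟨A, a1, a2, a3⟩ := not_conn e
  exact a3.col (ih A (Finset.ssubset_iff_subset_ne.2 ⟨a3.1, a2⟩) (fun C c => h C (a3.trans c)))
    (ih _ (Finset.sdiff_ssubset a3.1 a1) (fun C c => h C (a3.compl.trans c))) (by simp)

/-- the component behind the port is coloured with the port free -/
theorem free_col {R : Finset V} (hc : Cub G R) (hF : HF G R) {h z : V} (hh : h ∉ R) (a : G.Adj h z)
    (one : ∀ y ∈ R, G.Adj h y → y = z) (g : ∀ D, Cls G R D → Conn G D → z ∉ D → Good G D) : GoodF G R h := by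
  classical
  by_cases e : z ∈ R
  · obtain ⟨C, c1, c2, c3⟩ := comp_of (G := G) R z e
    refine c1.col (lemA hc hF C c1.1 c2 h z ⟨fun r => hh (c1.1 r), c3, a.symm,
      fun q hq r => one q (c1.1 hq) r.symm⟩) (good_of_comps _ (fun D d1 d2 => g D (c1.compl.trans d1) d2
        (fun r => (Finset.mem_sdiff.1 (d1.1 r)).2 c3))) ?_
    rintro t rfl y hy r
    rw [Finset.mem_sdiff] at hy
    exact hy.2 (one y hy.1 r.symm ▸ c3)
  · exact (good_of_comps R (fun D d1 d2 => g D d1 d2 (fun r => e (d1.1 r)))).goodF h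

/-- two different components are disjoint -/
theorem comp_eq {R C D : Finset V} (c1 : Cls G R C) (c2 : Conn G C) (d1 : Cls G R D) (d2 : Conn G D) {y : V}
    (hC : y ∈ C) (hD : y ∈ D) : C = D := by
  classical
  have key : ∀ C D : Finset V, Cls G R C → Conn G C → Cls G R D → y ∈ C → y ∈ D → C ⊆ D := by
    intro C D c1 c2 d1 hC hD
    by_contra e
    obtain ⟨x, hx, z, hz, hz', a⟩ := c2 (C ∩ D) Finset.inter_subset_left ⟨y, by simp [*]⟩
      (fun r => e (Finset.inter_eq_left.1 r))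
    exact hz' (Finset.mem_inter.2 ⟨hz, d1.2 x (Finset.mem_inter.1 hx).2 z (c1.1 hz) a⟩)
  exact (key C D c1 c2 d1 hC hD).antisymm (key D C d1 d2 c1 hD hC)

theorem ecut_two [DecidableEq V] {R C D : Finset V} (c : Cls G R C) (d : Cls G R D) (h : Disjoint C D) :
    ecut G X C + ecut G X D ≤ ecut G X (C ∪ D) := by
  unfold ecut
  rw [Finset.sum_union h]
  have t : ∀ C D E : Finset V, Cls G R C → Cls G R D → (∀ y ∈ E, y ∈ C ∨ y ∈ D) →
      ∀ x ∈ C, out G X C x ≤ out G X E x := fun C D E c d e x hx => by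
    unfold out
    refine Finset.card_le_card (fun y hy => ?_)
    simp only [Finset.mem_filter] at hy ⊢
    exact ⟨hy.1, fun r => hy.2.1 ((e y r).elim id (fun r => c.2 x hx y (d.1 r) hy.2.2)), hy.2.2⟩
  exact Nat.add_le_add (Finset.sum_le_sum (t C D _ c d (by simp)))
    (Finset.sum_le_sum (t D C _ d c (by simp [or_comm])))

theorem sumS_ge (A SK c : ℕ) : ∀ m, (∀ i, m.testBit i = true → i < 64) →
    ∑ i ∈ bs m, (3 - cnt (Nat.land (row A i) SK)) ≤ sumS A SK c m := by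
  induction c with
  | zero =>
    intro m _
    refine (Finset.sum_le_card_nsmul _ _ 3 (fun _ _ => by omega)).trans ?_
    have : (bs m).card ≤ m := (Finset.card_filter_le _ _).trans (by simp)
    change _ ≤ 3 * m
    rw [smul_eq_mul]; omega
  | succ c ih =>
    intro m h64
    by_cases e : m = 0
    · simp [e, bs_zero]
    obtain ⟨p1, -, p3⟩ := ix_spec e h64
    have : bs m = insert (ix m) (bs (clr m)) := by
      ext i; rw [Finset.mem_insert, mem_bs, mem_bs, p3]; by_cases r : i = ix m <;> simp [r, p1]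
    rw [this, Finset.sum_insert (by rw [mem_bs, p3]; simp)]
    exact Nat.add_le_add_left (ih _ (fun i hi => h64 i (clr_sub hi))) _

/-- the cut of an outer set is bounded by the open half-edges of the vertices it touches -/
theorem St.ecut_le (s : St G X n A D1 D2 D3 Q ph) (hc : Cub G X) (h2 : TwoEC G X) {M T : ℕ} {D : Finset V}
    (hT : ∀ i, T.testBit i = true → i < n) (hD : ∀ y ∈ D, y ∈ X ∧ y ∉ im ph M)
    (h : ∀ y ∈ D, ∀ z ∈ X, z ∉ D → G.Adj y z → z ∈ im ph T) :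
    ecut G X D ≤ ∑ i ∈ bs T, (3 - cnt (Nat.land (row A i) (Nat.lor M 4611686018427387904))) := by
  classical
  calc ecut G X D ≤ ∑ y ∈ D, ∑ z ∈ im ph T, (if G.Adj y z then 1 else 0) := by
        refine Finset.sum_le_sum (fun y hy => ?_)
        rw [← Finset.card_filter]
        exact out_le (fun z hz hz' a => Finset.mem_filter.2 ⟨h y hy z hz hz' a, a⟩)
    _ = ∑ i ∈ bs T, ∑ y ∈ D, (if G.Adj y (ph i) then 1 else 0) := by rw [Finset.sum_comm, s.sum_im hT]
    _ ≤ _ := by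
        refine Finset.sum_le_sum (fun i hi => ?_)
        rw [← Finset.card_filter, cnt_eq]
        have := s.outer hc h2 (U := M) (hT i (mem_bs.1 hi)) (Z := D.filter (fun y => G.Adj y (ph i)))
          (fun y hy => by
            rw [Finset.mem_filter] at hy; exact ⟨(hD y hy.1).1, (hD y hy.1).2, hy.2.symm⟩)
        omega

end Pool.Agent.Hom2.Sc
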