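import Pool.Agent.Lib.MP_7e4769_co.Hc.ScN
import Pool.Agent.Lib.MP_7e4769_co.Hc.ScQ

set_option autoImplicit false

namespace Pool.Agent.Hom2.Sc

variable {V : Type} {G : SimpleGraph V} {X : Finset V} {Gl : Prop} {P : Pm} {rc : Kc → Kc}
  {n A D1 D2 D3 Q S K F J J1 Y NJ : ℕ} {ph : ℕ → V}

theorem shr_ne {B p : ℕ} (h : Nat.shiftRight B p ≠ 0) : B ≠ 0 := fun e => h (by rw [e]; simp [e_shr])

/-- what the shape check and the children of a move give -/
structure Shp (G : SimpleGraph V) (X : Finset V) (n A D3 : ℕ) (ph : ℕ → V) (c3 S K F J J1 Y NJ : ℕ) : Prop where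
  hM : ∀ i, (Nat.lor S K).testBit i = true → i < n
  hY : ∀ i, Y.testBit i = true → i < n
  dis : ∀ i, S.testBit i = true → ¬ K.testBit i = true
  sat : ∀ i, K.testBit i = true → D3.testBit i = true
  fk : ∀ i, F.testBit i = true → K.testBit i = true
  kin : ∀ i, K.testBit i = true → ∀ j < 64, mb A i j → ¬ (Nat.lor (Nat.lor S K) 4611686018427387904).testBit j = true →
    F.testBit i = true ∧ Y.testBit j = true
  one : ∀ y, Y.testBit y = true → (bs (Nat.land (row A y) F)).card ≤ 1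
  js : ∀ i, J.testBit i = true → (Nat.lor S F).testBit i = true
  j1 : ∀ i, J1.testBit i = true → J.testBit i = true
  j2 : ∀ i, J.testBit i = true → ¬ J1.testBit i = true → S.testBit i = true
  ind : J = 0 → ∀ i, S.testBit i = true → ∀ j < 64, mb A i j → ¬ (Nat.lor S 4611686018427387904).testBit j = true
  ne : Nat.lor S K ≠ 0
  four : c3 = 1 → 4 ≤ (bs (Nat.lor S K)).card
  nj : ∀ i, NJ.testBit i = true → ∃ j, J.testBit j = true ∧ mb A i j

section
variable (s : St G X n A D1 D2 D3 Q ph)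
include s

theorem St.mvV {c3 : ℕ} (hS : ∀ i, S.testBit i = true → i < n) (hK : ∀ i, K.testBit i = true → i < n)
    (hY : ∀ i, Y.testBit i = true → i < n) (hN : ∀ i, NJ.testBit i = true → i < n)
    (h : mvV c3 A D3 S K F J J1 Y NJ = 0) : Shp G X n A D3 ph c3 S K F J J1 Y NJ := by
  unfold Sc.mvV at h
  simp only [e_add, Nat.add_eq_zero_iff] at h
  obtain ⟨⟨⟨a1, a2⟩, a3, a4⟩, ⟨⟨a5, a6⟩, a7, a8, a9⟩, ⟨b1, b2, b3⟩, b4⟩ := h
  have hM : ∀ i, (Nat.lor S K).testBit i = true → i < n := fun i hi => ((tb_lor _ _ _).1 hi).elim (hS i) (hK i)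
  have hF : ∀ i, F.testBit i = true → i < n := fun i hi => hK i (an_zero a3 hi)
  have hJ : ∀ i, J.testBit i = true → i < n := fun i hi => ((tb_lor _ _ _).1 (an_zero a7 hi)).elim (hS i) (hF i)
  have up : ∀ {x : ℕ}, x < 2 ^ 63 → x < 2 ^ 64 := fun h => by omega
  have cm : ∀ {x : ℕ}, x < 2 ^ 63 → Nat.xor 18446744073709551615 x < 2 ^ 64 := fun h =>
    Nat.xor_lt_two_pow (by omega) (up h)
  refine ⟨hM, hY, fun i => land_zero a1, fun i => an_zero a2, fun i => an_zero a3, fun i hi j hj e o => ?_,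
    fun y hy => ?_, fun i => an_zero a7, fun i => an_zero a8, fun i p q => an_zero a9 ((tb_an _ _ _).2 ⟨p, q⟩),
    fun z i hi j hj e o => ?_, by simp only [e_sub] at b2; omega, fun e => ?_, fun i hi => ?_⟩
  · have f : F.testBit i = true := by_contra fun f => mb_zero a4 i j ((mb_blk A (s.mask_lt (fun i hi => hK i
      ((tb_an _ _ _).1 hi).1)) (cm (s.maskS_lt hM)) i hj).2 ⟨e, (tb_an _ _ _).2 ⟨hi, f⟩, by
        rw [tb_xor, tb_FULL]; exact fun r => o (r.1 hj)⟩)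
    refine ⟨f, by_contra fun y => mb_zero a5 i j ((mb_blk A (s.mask_lt hF) (cm (Nat.or_lt_two_pow
      (s.maskS_lt hM) (s.mask_lt hY))) i hj).2 ⟨e, f, ?_⟩)⟩
    rw [tb_xor, tb_FULL, ← e_lor, tb_lor]; exact fun r => (r.1 hj).elim o y
  · have := row_clR (blk_mx s.mx Y F) y
    rw [a6, row_blk (s.mask_lt hY) (up (s.mask_lt hF)) hy] at this
    exact (clr1 _).1 (this.symm.trans (by simp [row, e_mod, e_shr]))
  · rw [z, show an S (Nat.mul 0 (Nat.sub 1 (clr 0))) = S by simp [an, e_mul, e_land, e_xor]] at b1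
    exact mb_zero b1 i j ((mb_blk A (s.mask_lt hS) (up (s.maskS_lt hS)) i hj).2 ⟨e, hi, o⟩)
  · by_contra r
    rw [e, (clr3 _).2 (by omega)] at b3
    exact absurd b3 (by decide)
  · have mx : Mx (Nat.land A (Nat.mul J cR)) := s.mx.mono (fun _ _ e => ((mb_land _ _ _ _).1 e).1)
    have := an_zero b4 ((mb_flag (s.mask_lt hN) i (show 63 < 64 by omega)).2 ⟨rfl, hi⟩)
    obtain ⟨j, p, q⟩ := row_ne.1 ((mb_nzR mx i (show 63 < 64 by omega)).1 this).2
    rw [mb_land, mb_mulR (up (s.mask_lt hJ)) i (by omega)] at q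
    exact ⟨j, q.2.2, q.1⟩

theorem St.mvE (cx : Ctx P G X Gl) (hr : RecOK G X Gl rc) {B : ℕ} (hS : ∀ i, S.testBit i = true → i < n)
    (hJ : ∀ i, J1.testBit i = true → i < n) (hY : ∀ i, Y.testBit i = true → i < n)
    (k : mvE P.cl rc S J1 Y n A D1 D2 D3 Q B ≠ 0) : B ≠ 0 ∧ (Gl ∨
      ((∀ i, S.testBit i = true → ∀ y, y ∉ X → G.Adj (ph i) y → mb A i 62) ∧
      (∀ i j, S.testBit i = true → S.testBit j = true → G.Adj (ph i) (ph j) → mb A i j) ∧
      ∀ i j, J1.testBit i = true → Y.testBit j = true → G.Adj (ph i) (ph j) → mb A i j)) := by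
  have l := s.le
  have hc := cx.cub
  have h2 := cx.two
  have k0 : KS G X Gl (rc k0) n ph := hr.1 _ _ _ ks_k0
  have lt : ∀ {T : ℕ}, (∀ i, T.testBit i = true → i < n) → ∀ Z i, (an T Z).testBit i = true → i < 64 :=
    fun h Z i hi => by have := h i ((tb_an _ _ _).1 hi).1; omega
  unfold Sc.mvE at k
  beta_reduce at k
  obtain ⟨-, k1, c3⟩ := forB_ne' k (fun _ _ => gd_zero (Nat.add (an Y D3) 0)) (lt hJ _)
  obtain ⟨-, k2, c2⟩ := forB_ne' (shr_ne k1) (fun y m => gd_zero (Nat.add (an m (row A y)) 0)) (lt hS _)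
  obtain ⟨-, k3, c1⟩ := forB_ne' (shr_ne k2) (fun y m => by
    rw [rec_case]; split
    · exact hr.2 _ _ _ _ _ _ _
    · rfl) (fun i hi => lt (fun i hi => hS i ((tb_an _ _ _).1 hi).1) _ i
      ((tb_mul_bit' (by simp [e_sub])).1 hi).2)
  refine ⟨shr_ne k3, or_iff_not_imp_left.2 fun g => ⟨fun i hi y hy a => ?_, ?_, fun i j hi hj a => ?_⟩⟩
  · by_contra e
    have cdy : cd X n ph y = 62 := by unfold cd; rw [if_neg hy]
    obtain ⟨_, B', k', -⟩ := c1 i ((tb_mul_bit' (by simp [e_sub])).2 ⟨by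
      have : P.cl ≠ 1 := fun r => hy (cx.cl r _ (s.mem i (hS i hi)) y a)
      have := cx.cl1; simp only [e_sub]; omega, (tb_an _ _ _).2 ⟨(tb_an _ _ _).2
        ⟨hi, fun r => e (cdy ▸ s.sat hc h2 r a)⟩, fun r => hy ((s.ker i r).2 y a)⟩⟩)
    rw [bt_zero.2 (fun r => e ((tb_row _ _ _).1 r).2)] at k'
    exact g (s.adS (hS i hi) hy a k0 k')
  · have key : ∀ i j, i < j → S.testBit i = true → S.testBit j = true → G.Adj (ph i) (ph j) → mb A i j := by
      intro i j ij hi hj a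
      by_contra e
      obtain ⟨o1, o2⟩ := s.opn hc h2 (hS i hi) (hS j hj) a e
      obtain ⟨m, B', k', q⟩ := c2 i ((tb_an _ _ _).2 ⟨hi, o1⟩)
      obtain ⟨-, -, d⟩ := forB_ne' k' (fun _ _ => hr.2 _ _ _ _ _ _ _)
        (fun t ht => lt hS _ t ((q t).1 ((tb_an _ _ _).1 ht).1).1)
      obtain ⟨_, _, k'', -⟩ := d j ((tb_an _ _ _).2 ⟨(q j).2 ⟨(tb_an _ _ _).2 ⟨hj, o2⟩, ij⟩,
        fun r => e ((tb_row _ _ _).1 r).2⟩)
      exact g (s.adE_old (hS i hi) (hS j hj) a k0 k'')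
    intro i j hi hj a
    rcases lt_trichotomy i j with r | rfl | r
    · exact key i j r hi hj a
    · exact absurd rfl a.ne
    · exact s.sym j i (hS i hi) (key j i r hj hi a.symm)
  · by_contra e
    obtain ⟨o1, o2⟩ := s.opn hc h2 (hJ i hi) (hY j hj) a e
    obtain ⟨m, B', k', -⟩ := c3 i ((tb_an _ _ _).2 ⟨hi, o1⟩)
    obtain ⟨-, -, d⟩ := forB_ne' k' (fun _ _ => hr.2 _ _ _ _ _ _ _) (lt hY _)
    obtain ⟨_, _, k'', -⟩ := d j ((tb_an _ _ _).2 ⟨hj, o2⟩)
    exact g (s.adE_old (hJ i hi) (hY j hj) a k0 k'')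

variable {c3 : ℕ} (hc : Cub G X) (h2 : TwoEC G X) (p : Shp G X n A D3 ph c3 S K F J J1 Y NJ)
include hc h2 p

omit s hc h2 in
theorem Shp.hS {i : ℕ} (h : S.testBit i = true) : i < n := p.hM i ((tb_lor _ _ _).2 (Or.inl h))
omit s hc h2 in
theorem Shp.hK {i : ℕ} (h : K.testBit i = true) : i < n := p.hM i ((tb_lor _ _ _).2 (Or.inr h))
omit s hc h2 in
theorem Shp.hH {i : ℕ} (h : (Nat.lor S F).testBit i = true) : (Nat.lor S K).testBit i = true :=
  (tb_lor _ _ _).2 (((tb_lor _ _ _).1 h).imp id (p.fk i))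

theorem St.kout {i : ℕ} (hi : K.testBit i = true) {y : V} (a : G.Adj (ph i) y) (o : ¬ inr X n ph (Nat.lor S K) y) :
    F.testBit i = true ∧ Y.testBit (cd X n ph y) = true ∧ ph (cd X n ph y) = y ∧ mb A (cd X n ph y) i := by
  have e := s.sat hc h2 (p.sat i hi) a
  have := s.le
  rcases s.kn e with r | r
  · obtain ⟨u, v⟩ := p.kin i hi _ (by omega) e o
    exact ⟨u, v, r.2.1, s.sym _ _ r.1 e⟩
  · exact absurd ((s.inr_iff p.hM y).2 (Or.inl r.2)) o

theorem St.uni {i j : ℕ} (hi : K.testBit i = true) (hj : K.testBit j = true) {y : V} (a : G.Adj (ph i) y)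
    (b : G.Adj (ph j) y) (o : ¬ inr X n ph (Nat.lor S K) y) : i = j := by
  obtain ⟨u1, u2, -, u3⟩ := s.kout hc h2 p hi a o
  obtain ⟨v1, -, -, v3⟩ := s.kout hc h2 p hj b o
  have := p.hK hi; have := p.hK hj; have := s.le
  exact Finset.card_le_one.1 (p.one _ u2)
    i (mem_bs.2 ((tb_land _ _ _).2 ⟨(tb_row _ _ _).2 ⟨by omega, u3⟩, u1⟩))
    j (mem_bs.2 ((tb_land _ _ _).2 ⟨(tb_row _ _ _).2 ⟨by omega, v3⟩, v1⟩))

theorem St.hin (e1 : ∀ i, S.testBit i = true → ∀ y, y ∉ X → G.Adj (ph i) y → mb A i 62)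
    (e2 : ∀ i j, S.testBit i = true → S.testBit j = true → G.Adj (ph i) (ph j) → mb A i j)
    (i : ℕ) (hi : (Nat.lor S K).testBit i = true) (w : V) (a : G.Adj (ph i) w) (o : inr X n ph (Nat.lor S K) w) :
    mb A i (cd X n ph w) := by
  rcases (tb_lor _ _ _).1 hi with r | r
  · rcases (s.inr_iff p.hM w).1 o with u | u
    · unfold cd; rw [if_neg u]; exact e1 i r w u a
    · obtain ⟨j, hj, rfl⟩ := mem_im.1 u
      rw [s.cd_ph (p.hM j hj)]
      rcases (tb_lor _ _ _).1 hj with v | v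
      · exact e2 i j r v a
      · have := s.sat hc h2 (p.sat j v) a.symm
        rw [s.cd_ph (p.hM i hi)] at this
        exact s.sym j i (p.hM i hi) this
  · exact s.sat hc h2 (p.sat i r) a

omit hc h2 in
theorem tJ_lt (j i : ℕ)
    (h : (Nat.lor (Nat.lor K (Nat.shiftLeft (bt J1 j) j)) (an S (pw j))).testBit i = true) :
    (Nat.lor S K).testBit i = true := by
  rw [tb_lor, tb_lor, tb_an, bt_eq] at h
  rw [tb_lor]
  rcases h with (h | h) | h
  · exact Or.inr h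
  · split at h
    · next u => obtain rfl := (tb_pw j i).1 h; exact (tb_lor _ _ _).1 (p.hH (p.js _ (p.j1 _ u)))
    · simp [e_shl] at h
  · exact Or.inl h.1

open Classical in
/-- the free table of `j` pays if every component away from `j` is good -/
theorem St.payJ (hf : ∀ R ⊆ X, R ≠ X → HF G R)
    (hin : ∀ i, (Nat.lor S K).testBit i = true → ∀ w, G.Adj (ph i) w → inr X n ph (Nat.lor S K) w →
      mb A i (cd X n ph w))
    (e3 : ∀ i j, J1.testBit i = true → Y.testBit j = true → G.Adj (ph i) (ph j) → mb A i j)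
    {j B : ℕ} (hj : J.testBit j = true) (k : tJ n A S K F J1 Y j B ≠ 0) :
    (∃ y, G.Adj (ph j) y ∧ ¬ inr X n ph (Nat.lor S K) y) ∧
    ((∀ D, Cls G (X \ im ph (Nat.lor S K)) D → Conn G D → (∀ y ∈ D, ¬ G.Adj y (ph j)) → Good G D) → Good G X) := by
  have sub := tJ_lt s p j
  have jM := p.hH (p.js j hj)
  have lj := p.hM j jM
  have l := s.le
  unfold tJ at k
  generalize Nat.mod B 64 = h at k
  have hM1 := fun i hi => p.hM i (sub i hi)
  obtain ⟨-, v, al, -⟩ := tab_spec s.le (fun i hi => by have := hM1 i hi; omega) k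
  simp only [e_add, Nat.add_eq_zero_iff] at v
  obtain ⟨v1, v2, v3⟩ := v
  refine ⟨?_, fun g => ?_⟩
  · obtain ⟨Z, z1, z2⟩ := s.split hc h2 lj (Nat.lor (Nat.lor S K) 4611686018427387904)
    have := (clr2 _).1 v1
    obtain ⟨y, hy⟩ := Finset.card_pos.1 (show 0 < Z.card by omega)
    obtain ⟨a, b⟩ := (z1 y).1 hy
    exact ⟨y, a, fun o => b ⟨hin j jM y a o, o⟩⟩
  have kk : ∀ i, (Nat.lor K (Nat.shiftLeft (bt J1 j) j)).testBit i = true ↔
      K.testBit i = true ∨ (J1.testBit j = true ∧ i = j) := fun i => by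
    rw [tb_lor, bt_eq]; split
    · next u => rw [show Nat.shiftLeft 1 j = pw j from rfl, tb_pw]; simp [u]
    · next u => simp [u, e_shl]
  have mm : ∀ i, (Nat.lor S K).testBit i = true → (i = j ∧ ¬ J1.testBit j = true) ∨
      (Nat.lor (Nat.lor K (Nat.shiftLeft (bt J1 j) j)) (an S (pw j))).testBit i = true := fun i hi => by
    rw [tb_lor] at hi; rw [tb_lor, kk, tb_an, tb_pw]; tauto
  have hc' : (J1.testBit j = true ∧ h = j ∧ (¬ F.testBit j = true → ∀ y, mb A j y → ¬ Y.testBit y = true ∨ 62 < y)) ∨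
      (¬ J1.testBit j = true ∧ ∀ i, K.testBit i = true ∧ mb A j i ↔ i = h ∨ False) := by
    by_cases u : J1.testBit j = true
    · rw [bt_one u, e_mul, one_mul, Nat.add_eq_zero_iff] at v2
      refine Or.inl ⟨u, xor_zero' v2.1, fun f y m => ?_⟩
      have := v2.2
      rw [(one_sub_bt _ _).2 f, e_mul, one_mul] at this
      by_cases r : 62 < y
      · exact Or.inr r
      · exact Or.inl (land_zero this ((tb_row _ _ _).2 ⟨by omega, m⟩))
    · rw [(one_sub_bt _ _).2 u, e_mul, one_mul] at v3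
      refine Or.inr ⟨u, fun i => ?_⟩
      rw [or_false, ← tb_pw, ← xor_zero' v3, tb_land, tb_row]
      exact ⟨fun r => ⟨⟨by have := p.hK r.1; omega, r.2⟩, r.1⟩, fun r => ⟨r.2, r.1.2⟩⟩
  have jK : ¬ J1.testBit j = true → ¬ K.testBit j = true := fun u => p.dis j (p.j2 j hj u)
  have hK1 : (Nat.lor K (Nat.shiftLeft (bt J1 j) j)).testBit h = true := (kk h).2 (hc'.elim
    (fun r => Or.inr ⟨r.1, r.2.1⟩) (fun r => Or.inl ((r.2 h).2 (Or.inl rfl)).1))
  have hm1 := (tb_lor _ (an S (pw j)) _).2 (Or.inl hK1)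
  generalize hK : Nat.lor K (Nat.shiftLeft (bt J1 j) j) = K1 at *
  have jout : ¬ J1.testBit j = true → ¬ (Nat.lor K1 (an S (pw j))).testBit j = true := fun u => by
    rw [tb_lor, kk, tb_an, tb_pw]; have := jK u; tauto
  generalize Nat.lor K1 (an S (pw j)) = M1 at *
  have nF : ¬ (an F (pw h)).testBit h = true := fun r => ((tb_an _ _ _).1 r).2 ((tb_pw _ _).2 rfl)
  have i1 : ∀ w, inr X n ph M1 w → inr X n ph (Nat.lor S K) w := fun w o =>
    (tb_lor _ _ _).2 (((tb_lor _ _ _).1 o).imp (sub _) id)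
  have i2 : ∀ w, inr X n ph (Nat.lor S K) w → (w = ph j ∧ ¬ J1.testBit j = true) ∨ inr X n ph M1 w := fun w o => by
    rw [s.inr_iff p.hM] at o; rw [s.inr_iff hM1]
    rcases o with o | o
    · exact Or.inr (Or.inl o)
    · obtain ⟨i, hi, rfl⟩ := mem_im.1 o
      exact (mm i hi).imp (fun r => ⟨by rw [r.1], r.2⟩) (fun r => Or.inr (mem_im.2 ⟨i, r, rfl⟩))
  have eR : ∀ M, (∀ i, Nat.testBit M i = true → i < n) → ∀ w, w ∈ X \ im ph M ↔ ¬ inr X n ph M w := fun M hM w => by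
    rw [s.inr_iff hM, Finset.mem_sdiff]; tauto
  obtain ⟨z, za, zo⟩ := s.port hc h2 hM1 hm1 hK1 nF ((tb_pw _ _).2 rfl) (al h hm1)
  have hR : ph h ∉ X \ im ph M1 := fun r => (Finset.mem_sdiff.1 r).2 (mem_im.2 ⟨h, hm1, rfl⟩)
  obtain ⟨c, c1, c2⟩ := free_col (hc.mono Finset.sdiff_subset) (hf _ Finset.sdiff_subset (fun e => hR (by
    rw [e]; exact s.mem h (hM1 h hm1)))) hR za (fun y hy a => zo y a ((eR _ hM1 y).1 hy)) (fun D d1 d2 d3 => by
      have nj : ¬ J1.testBit j = true → ph j ∈ X \ im ph M1 ∧ ph j = z := fun u => by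
        have : ¬ inr X n ph M1 (ph j) := by
          unfold inr; rw [s.cd_ph lj, tb_lor, tb_SB]; exact fun r => r.elim (jout u) (by omega)
        obtain ⟨-, r⟩ := hc'.resolve_left (fun r => u r.1)
        exact ⟨(eR _ hM1 _).2 this, zo _ (s.adj j h (hM1 h hm1) ((r h).2 (Or.inl rfl)).2).symm this⟩
      refine g D ⟨fun y hy => (eR _ p.hM y).2 (fun o => ?_), fun x hx y hy => d1.2 x hx y
        ((eR _ hM1 y).2 (fun o => (eR _ p.hM y).1 hy (i1 y o)))⟩ d2 (fun y hy a => ?_)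
      · rcases i2 y o with r | r
        · exact d3 ((nj r.2).2 ▸ r.1 ▸ hy)
        · exact (eR _ hM1 y).1 (d1.1 hy) r
      · by_cases u : J1.testBit j = true
        · obtain ⟨-, rfl, -⟩ := hc'.resolve_right (fun r => r.1 u)
          exact d3 (zo y a.symm ((eR _ hM1 y).1 (d1.1 hy)) ▸ hy)
        · exact d3 ((nj u).2 ▸ d1.2 y hy _ (nj u).1 a))
  refine s.pay (u := h) hc h2 hM1 (fun i hi => (kk i).2 (Or.inl (p.fk i ((tb_an _ _ _).1 hi).1)))
    (fun i hi => by rw [(tb_pw _ _).1 hi]; exact ⟨hK1, nF⟩) (fun i hi => hi.elim (by simp) (tb_pw _ _).1)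
    (fun i hi w a o => hin i (sub i hi) w a (i1 w o)) (fun y o i i' _ _ q q' a a' => ?_) k c
    (fun w o e => c1 w (fun r => (eR _ hM1 w).1 r o) (e h ((tb_pw _ _).2 rfl)))
    (fun i hi => by rw [(tb_pw _ _).1 hi]; exact hm1) (fun w o => c2 w ((eR _ hM1 w).2 o))
  by_cases o' : inr X n ph (Nat.lor S K) y
  · obtain ⟨rfl, u⟩ := (i2 y o').resolve_right o
    obtain ⟨-, r⟩ := hc'.resolve_left (fun r => u r.1)
    have t : ∀ i, K1.testBit i = true → G.Adj (ph i) (ph j) → i = h := fun i q a => by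
      have q := ((kk i).1 q).resolve_right (fun r => u r.1)
      have := s.sat hc h2 (p.sat i q) a
      rw [s.cd_ph lj] at this
      exact ((r i).1 ⟨q, s.sym i j lj this⟩).resolve_right id
    rw [t i q a, t i' q' a']
  have t : ∀ i, K.testBit i = true → G.Adj (ph i) y → J1.testBit j = true → G.Adj (ph j) y → i = j := fun i q a u b => by
    by_cases f : F.testBit j = true
    · exact s.uni hc h2 p q (p.fk j f) a b o'
    obtain ⟨-, w1, w2, -⟩ := s.kout hc h2 p q a o'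
    have := p.hY _ w1
    rcases (hc'.resolve_right (fun r => r.1 u)).2.2 f _ (e3 j _ u w1 (w2.symm ▸ b)) with r | r
    · exact absurd w1 r
    · omega
  rcases (kk i).1 q with r | ⟨r, rfl⟩ <;> rcases (kk i').1 q' with r' | ⟨r', rfl⟩
  · exact s.uni hc h2 p r r' a a' o'
  · exact t i r a r' a'
  · exact (t i' r' a' r a).symm
  · rfl

open Classical in
theorem St.cutB {T : ℕ} {D : Finset V} (d : Cls G (X \ im ph (Nat.lor S K)) D)
    (hT : ∀ i, T.testBit i = true → (Nat.lor S F).testBit i = true)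
    (h : ∀ i, (Nat.lor S F).testBit i = true → (∃ y ∈ D, G.Adj y (ph i)) → T.testBit i = true) :
    ecut G X D ≤ ∑ i ∈ bs T, (3 - cnt (Nat.land (row A i) (Nat.lor (Nat.lor S K) 4611686018427387904))) := by
  refine s.ecut_le hc h2 (fun i hi => p.hM i (p.hH (hT i hi))) (fun y hy => Finset.mem_sdiff.1 (d.1 hy))
    (fun y hy z hz hz' a => ?_)
  obtain ⟨i, hi, rfl⟩ := mem_im.1 (by_contra fun e => hz' (d.2 y hy z (Finset.mem_sdiff.2 ⟨hz, e⟩) a))
  refine mem_im.2 ⟨i, h i ((tb_lor _ _ _).2 (((tb_lor _ _ _).1 hi).imp id (fun r =>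
    (s.kout hc h2 p r a.symm ?_).1))) ⟨y, hy, a⟩, rfl⟩
  have := Finset.mem_sdiff.1 (d.1 hy)
  rw [s.inr_iff p.hM]; tauto

end

theorem tJ_str (hn : n ≤ 62) (hS : ∀ i, S.testBit i = true → i < n) (hK : ∀ i, K.testBit i = true → i < n)
    (hJ : ∀ i, J1.testBit i = true → i < n) (j : ℕ) : tJ n A S K F J1 Y j 0 = 0 := by
  by_contra k
  refine (tab_spec hn (fun i h => ?_) k).1 rfl
  rw [tb_lor, tb_lor, tb_an, bt_eq] at h
  rcases h with (h | h) | h
  · have := hK i h; omega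
  · split at h
    · next u => obtain rfl := (tb_pw j i).1 h; have := hJ i u; omega
    · simp [e_shl] at h
  · have := hS i h.1; omega

theorem rec_c2 {a b x : ℕ} : @Nat.rec (fun _ => ℕ) a (fun _ _ => b) x = if x = 0 then a else b := by
  cases x <;> simp

theorem tAll_eq (dp : ℕ → ℕ → ℕ → ℕ → ℕ → ℕ) (n A S K F J J1 Y B : ℕ) : tAll dp n A S K F J J1 Y B =
    if J = 0 then (if Nat.mod B 2 = 0 then tab n A (Nat.lor S K) K F 0 (pw (fd B 1 64)) 0 (Nat.shiftRight B 7)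
      else dp n A S K (gd (Nat.shiftRight B 1) F))
    else forB (fun y _ B7 => tJ n A S K F J1 Y y B7) (Nat.mod B 64) J 0 (Nat.shiftRight B 6) := by
  rw [← rec_c2, ← rec_c2]; rfl

theorem St.mvB (s : St G X n A D1 D2 D3 Q ph) (cx : Ctx P G X Gl) (hr : RecOK G X Gl rc) {f B : ℕ}
    (hf : ∀ g < f, Holds G X Gl (dget P.db g)) (hS : ∀ i, S.testBit i = true → i < n)
    (hK : ∀ i, K.testBit i = true → i < n) (hJ : ∀ i, J.testBit i = true → i < n)
    (hJ1 : ∀ i, J1.testBit i = true → i < n) (hY : ∀ i, Y.testBit i = true → i < n)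
    (hN : ∀ i, NJ.testBit i = true → i < n) (k : mvB P rc f S K F J J1 Y NJ n A D1 D2 D3 Q B ≠ 0) : Gl := by
  classical
  have hc := cx.cub
  have h2 := cx.two
  have l := s.le
  have hM : ∀ i, (Nat.lor S K).testBit i = true → i < n := fun i hi => ((tb_lor _ _ _).1 hi).elim (hS i) (hK i)
  unfold Sc.mvB mvW at k
  obtain ⟨k1, g | ⟨e1, e2, e3⟩⟩ := s.mvE cx hr hS hJ1 hY
    (fun e => k (by rw [e]; exact nxt_str hr.2 _ _ _ _ _ _ _ _ _ _ _ _ _ _ _ _ _ _ _))
  · exact g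
  generalize hB : gd (Nat.shiftRight B 12) (Sc.mvV P.fc A D3 S K F J J1 Y NJ) = B1 at k k1
  have eR : ∀ w, w ∈ X \ im ph (Nat.lor S K) ↔ ¬ inr X n ph (Nat.lor S K) w := fun w => by
    rw [s.inr_iff hM, Finset.mem_sdiff]; tauto
  have shp : B1 ≠ 0 → Shp G X n A D3 ph P.fc S K F J J1 Y NJ := fun e => s.mvV hS hK hY hN (gd_ne (hB ▸ e)).2
  -- a bad component with its bound
  have key : Shp G X n A D3 ph P.fc S K F J J1 Y NJ ∧ (Good G X ∨ ∃ C, Cls G (X \ im ph (Nat.lor S K)) C ∧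
      Conn G C ∧ ¬ Good G C ∧ ((clr J ≠ 0 ∧ ∃ D, Cls G (X \ im ph (Nat.lor S K)) D ∧ Disjoint C D ∧
        ecut G X C ≤ ecut G X D) ∨ ((∀ y ∈ C, ∀ j, J.testBit j = true → ¬ G.Adj y (ph j)) ∧
        (J ≠ 0 → ∃ D, Cls G (X \ im ph (Nat.lor S K)) D ∧ Disjoint C D ∧ D.Nonempty)))) := by
    rw [tAll_eq] at k1
    by_cases z : J = 0
    · rw [if_pos z] at k1
      have pay : Shp G X n A D3 ph P.fc S K F J J1 Y NJ ∧ (Good G (X \ im ph (Nat.lor S K)) → Good G X) := by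
        split at k1
        · have p := shp (shr_ne (tab_spec l (fun i hi => by have := hM i hi; omega) k1).1)
          exact ⟨p, fun ⟨c, c1, c2⟩ => s.pay hc h2 hM p.fk (by simp) (fun i hi => hi.elim (tb_pw _ _).1 (by simp))
            (s.hin hc h2 p e1 e2) (fun y o i j _ _ q q' a a' => s.uni hc h2 p q q' a a' o) k1 c
            (fun w o _ => c1 w (fun r => (eR w).1 r o) (by simp)) (by simp) (fun w o => c2 w ((eR w).2 o))⟩
        obtain ⟨b, pay⟩ := cx.dp _ _ _ _ _ _ _ S K _ s (fun i hi => hM i ((tb_lor _ _ _).2 hi)) k1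
        obtain ⟨b1, rfl⟩ := gd_ne b
        have p := shp (shr_ne b1)
        refine ⟨p, fun ⟨c, c1, c2⟩ => ?_⟩
        have iv : ∀ i, (Nat.lor S K).testBit i = true → ph i ∉ X \ im ph (Nat.lor S K) := fun i hi r =>
          (Finset.mem_sdiff.1 r).2 (mem_im.2 ⟨i, hi, rfl⟩)
        have s3 : ∀ i, S.testBit i = true → c (ph i) = 3 := fun i hi =>
          c1 _ (iv i ((tb_lor _ _ _).2 (Or.inl hi))) (by simp)
        obtain ⟨c', d1, d2⟩ := pay c (fun v hv => c1 v (fun r => hv (Finset.mem_sdiff.1 r).1) (by simp)) s3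
          (fun i hi y a e => by
            by_cases o : inr X n ph (Nat.lor S K) y
            · refine absurd ?_ (p.ind z i hi _ (by have := bit_lt (s.maskS_lt hM) o; omega)
                (s.hin hc h2 p e1 e2 i ((tb_lor _ _ _).2 (Or.inl hi)) y a o))
              refine (tb_lor _ _ _).2 (((tb_lor _ _ _).1 o).imp (fun r => ?_) id)
              refine ((tb_lor _ _ _).1 r).resolve_right (fun u => e _ u ?_)
              have := hK _ u
              rcases s.cd_spec y with v | v | v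
              exacts [v.2.1.symm, by omega, by omega]
            · exact s3 i hi ▸ OK.ne hc (Finset.mem_sdiff.1 ((eR y).2 o)).1 (c2 y ((eR y).2 o)) a.symm)
        refine ⟨c', fun v hv _ => ?_, fun v hv => ?_⟩
        · rw [d1 v (fun i hi e => hv (e ▸ s.mem i (hK i hi)))]
          exact c1 v (fun r => hv (Finset.mem_sdiff.1 r).1) (by simp)
        by_cases o : v ∈ im ph (Nat.lor S K)
        · obtain ⟨i, hi, rfl⟩ := mem_im.1 o
          exact d2 i ((tb_lor _ _ _).1 hi)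
        · have r := Finset.mem_sdiff.2 ⟨hv, o⟩
          exact (c2 v r).congr (d1 v (fun i hi e => iv i ((tb_lor _ _ _).2 (Or.inr hi)) (e ▸ r)))
            (fun w a => d1 w (fun i hi e => by
              simpa using (s.kout hc h2 p hi (e ▸ a.symm) ((eR v).1 r)).1))
      refine ⟨pay.1, or_iff_not_imp_left.2 fun g => ?_⟩
      by_contra e
      exact g (pay.2 (good_of_comps _ (fun C a b => by_contra fun c =>
        e ⟨C, a, b, c, Or.inr ⟨by simp [z], fun r => absurd z r⟩⟩)))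
    rw [if_neg z] at k1
    have l64 : ∀ i, J.testBit i = true → i < 64 := fun i hi => by have := hJ i hi; omega
    obtain ⟨-, b, d⟩ := forB_ne' k1 (fun y _ => tJ_str l hS hK hJ1 y) l64
    have p := shp (shr_ne b)
    have q := fun j hj => (d j hj).elim fun _ r => r.elim fun _ r =>
      s.payJ hc h2 p cx.hf (s.hin hc h2 p e1 e2) e3 hj r.1
    refine ⟨p, or_iff_not_imp_left.2 fun g => ?_⟩
    have bad : ∀ j, J.testBit j = true → ∃ C, Cls G (X \ im ph (Nat.lor S K)) C ∧ Conn G C ∧ ¬ Good G C ∧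
        ∀ y ∈ C, ¬ G.Adj y (ph j) := fun j hj => by
      by_contra e
      exact g ((q j hj).2 (fun D a b c => by_contra fun u => e ⟨D, a, b, u, c⟩))
    obtain ⟨j1, -, j3⟩ := ix_spec z l64
    obtain ⟨C, c1, c2, c3, c4⟩ := bad _ j1
    have dj : ∀ C D, Cls G (X \ im ph (Nat.lor S K)) C → Conn G C → Cls G (X \ im ph (Nat.lor S K)) D →
        Conn G D → C ≠ D → Disjoint C D := fun C D a b c d e =>
      Finset.disjoint_left.2 (fun y u v => e (comp_eq a b c d u v))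
    by_cases av : ∀ y ∈ C, ∀ j, J.testBit j = true → ¬ G.Adj y (ph j)
    · obtain ⟨y, y1, y2⟩ := (q _ j1).1
      obtain ⟨D, d1, d2, d3⟩ := comp_of (G := G) _ y ((eR y).2 y2)
      exact ⟨C, c1, c2, c3, Or.inr ⟨av, fun _ => ⟨D, d1, dj C D c1 c2 d1 d2
        (fun e => c4 y (e ▸ d3) y1.symm), y, d3⟩⟩⟩
    push Not at av
    obtain ⟨y, hy, j, hj, a⟩ := av
    obtain ⟨D, d1, d2, d3, d4⟩ := bad j hj
    have ne : clr J ≠ 0 := fun e => zero_bit e j ((j3 j).2 ⟨hj, fun r => c4 y hy (r ▸ a)⟩)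
    have := dj C D c1 c2 d1 d2 (fun e => d4 y (e ▸ hy) a)
    rcases le_total (ecut G X C) (ecut G X D) with r | r
    · exact ⟨C, c1, c2, c3, Or.inl ⟨ne, D, d1, this, r⟩⟩
    · exact ⟨D, d1, d2, d3, Or.inl ⟨ne, C, c1, this.symm, r⟩⟩
  obtain ⟨p, g | ⟨C, c1, c2, c3, bnd⟩⟩ := key
  · exact cx.good g
  obtain ⟨i0, hi0⟩ := Nat.exists_testBit_of_ne_zero p.ne
  have prop : ∀ D, Cls G (X \ im ph (Nat.lor S K)) D → D ⊆ X ∧ D ≠ X := fun D d =>
    ⟨d.1.trans Finset.sdiff_subset, fun e => (Finset.mem_sdiff.1 (d.1 (e ▸ s.mem i0 (hM i0 hi0)))).2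
      (mem_im.2 ⟨i0, hi0, rfl⟩)⟩
  have iC : ∀ i, (Nat.lor S K).testBit i = true → ph i ∉ C := fun i hi r =>
    (Finset.mem_sdiff.1 (c1.1 r)).2 (mem_im.2 ⟨i, hi, rfl⟩)
  rcases cx.wit C (nx n ph) (prop C c1).1 (prop C c1).2 (fun e => by
    have a := p.four e
    have b := Finset.card_le_card c1.1
    have c := Finset.card_le_card (s.im_sub hM)
    rw [Finset.card_sdiff_of_subset (s.im_sub hM), s.card_im hM] at *
    omega) c2 c3 with g | sat
  · exact g
  refine nxt_ws hc h2 hr cx.cl1 cx.cl hf P.T n ph [] [] 0 _ 0 _ 0 _ 0 ⟨(prop C c1).1, fun y hy z hz hz' a => ?_,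
    fun i hi => ⟨hM i (p.hH hi), iC i (p.hH hi), s.nx_ph (hM i (p.hH hi))⟩, p.js, fun i hi => ?_,
    Nat.le_add_right _ _, ?_, by simp, fun _ h => h, fun _ h _ _ => h, by simp, fun i hi => ?_⟩ sat
    n A D1 D2 D3 Q ph _ (Ext.refl _ _) s k
  · obtain ⟨i, hi, rfl⟩ := mem_im.1 (by_contra fun e => hz' (c1.2 y hy z (Finset.mem_sdiff.2 ⟨hz, e⟩) a))
    exact ⟨i, (tb_lor _ _ _).2 (((tb_lor _ _ _).1 hi).imp id (fun r =>
      (s.kout hc h2 p r a.symm ((eR y).1 (c1.1 hy))).1)), rfl⟩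
  · obtain ⟨j, a, b⟩ := p.nj i hi
    exact ⟨hN i hi, j, a, s.adj i j (hJ j a) b⟩
  · have u1 := sumS_ge A (Nat.lor (Nat.lor S K) 4611686018427387904) (Nat.mod B 64) (an (Nat.lor S F) J)
      (fun i hi => by have := hM i (p.hH ((tb_an _ _ _).1 hi).1); omega)
    have u2 := sumS_ge A (Nat.lor (Nat.lor S K) 4611686018427387904) (fd B 6 64) J
      (fun i hi => by have := hJ i hi; omega)
    have all : ∀ D, Cls G (X \ im ph (Nat.lor S K)) D → Disjoint C D → ecut G X C + ecut G X D ≤ _ := fun D d e =>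
      (ecut_two c1 d e).trans (s.cutB hc h2 p (T := Nat.lor S F) (D := C ∪ D) ⟨Finset.union_subset c1.1 d.1,
        fun x hx y hy a => Finset.mem_union.2 ((Finset.mem_union.1 hx).imp (fun r => c1.2 x r y hy a)
          (fun r => d.2 x r y hy a))⟩ (fun _ h => h) (fun _ h _ => h))
    rw [show bs (Nat.lor S F) = bs (an (Nat.lor S F) J) ∪ bs J by
      ext i; rw [Finset.mem_union, mem_bs, mem_bs, mem_bs, tb_an]; have := p.js i; tauto,
      Finset.sum_union (Finset.disjoint_left.2 (fun i a b => ((tb_an _ _ _).1 (mem_bs.1 a)).2 (mem_bs.1 b)))] at all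
    simp only [e_add, e_sub, e_mul, e_div, nz_eq]
    rcases bnd with ⟨a, D, d1, d2, d3⟩ | ⟨a, b⟩
    · have := all D d1 d2
      left; rw [if_neg a]; omega
    refine Or.inr ⟨?_, a⟩
    have u3 := s.cutB hc h2 p c1 (T := an (Nat.lor S F) J) (fun i hi => ((tb_an _ _ _).1 hi).1)
      (fun i hi ⟨y, y1, y2⟩ => (tb_an _ _ _).2 ⟨hi, fun r => a y y1 i r y2⟩)
    by_cases z : J = 0
    · rw [if_pos z]; omega
    obtain ⟨D, d1, d2, d3⟩ := b z
    have := all D d1 d2
    have t2 := two_cut h2 (prop D d1).1 d3 (prop D d1).2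
    have t3 := fun a b => three_cut hc (cx.cl a) (cx.fe b) (prop D d1).1 d3 (prop D d1).2
    have : 2 + P.cl * P.fe ≤ ecut G X D := by
      have := cx.cl1; have := cx.fe1
      generalize P.cl = a at *; generalize P.fe = b at *
      interval_cases a <;> interval_cases b <;> simp_all
    rw [if_neg z]; omega
  · rcases (tb_lor _ _ _).1 hi with r | r
    · exact Or.inr ⟨hM i r, Or.inl (iC i r)⟩
    · exact Or.inl ((tb_SB i).1 r)

theorem St.rMove (s : St G X n A D1 D2 D3 Q ph) (cx : Ctx P G X Gl) (hr : RecOK G X Gl rc) {f B : ℕ}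
    (hf : ∀ g < f, Holds G X Gl (dget P.db g)) (k : rMove P rc f n A D1 D2 D3 Q B ≠ 0) : Gl :=
  s.mvB cx hr hf (fun _ h => ((tb_modpw _ _ _).1 h).1) (tb_fd _ _ _) (tb_fd _ _ _) (tb_fd _ _ _) (tb_fd _ _ _)
    (tb_fd _ _ _) k

end Pool.Agent.Hom2.Sc
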