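import Pool.Agent.Lib.MP_7e4769_co.Hc.ScR

set_option autoImplicit false

namespace Pool.Agent.Hom2.Sc

variable {V : Type} {G : SimpleGraph V} {X C : Finset V} {ρ : V → ℕ} {db : DT} {Gl : Prop}
  {n A D1 D2 D3 Q S J NJ b2 t bd nd Sd Nd Fb Rg : ℕ} {ph : ℕ → V} {env U : List V} {rc : Kc → Kc}

theorem sat_le (T : Td) : ∀ {env U : List V} {t nd : ℕ}, Sat G X C db ρ T env U t nd → nd ≤ ecut G X C := by
  induction T with
  | done => exact fun h => h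
  | core g => exact fun h => h.1
  | ask T ih => exact fun h => ih h
  | st T ih => rintro _ _ _ _ ⟨_, _, -, -, -, -, -, -, h⟩; exact ih h
  | nb r T ih => rintro _ _ _ _ ⟨_, _, -, -, -, -, -, h⟩; exact ih h
  | sa m r T ih => rintro _ _ _ _ ⟨_, -, -, h⟩; exact ih h
  | ed r r' T ih => rintro _ _ _ _ ⟨_, _, -, -, -, h⟩; exact ih h
  | stub r T ih => rintro _ _ _ _ ⟨_, _, -, -, -, h⟩; exact ih h
  | ns q r T ih => rintro _ _ _ _ ⟨_, -, -, -, -, h⟩; exact ih h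
  | inc d T ih => intro _ _ _ _ h; have := ih h; omega
  | or T T' ih ih' => exact fun h => h.elim ih ih'
  | rs T ih => exact fun h => ih h
  | pop T ih => exact fun h => ih h

theorem tb_mul_bit' {a x i : ℕ} (ha : a ≤ 1) :
    (Nat.mul x a).testBit i = true ↔ a = 1 ∧ x.testBit i = true := by
  rw [e_mul, mul_comm]; exact tb_mul_bit ha

theorem forB_ne' {f : ℕ → ℕ → ℕ → ℕ} {c m z B : ℕ} (h : forB f c m z B ≠ 0) (hs : ∀ y m, f y m 0 = 0)
    (h64 : ∀ i, m.testBit i = true → i < 64) :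
    z = 0 ∧ B ≠ 0 ∧ ∀ y, m.testBit y = true → ∃ m' B', f y m' B' ≠ 0 ∧
      ∀ i, m'.testBit i = true ↔ m.testBit i = true ∧ y < i := forB_ne hs h64 h

theorem lor_bt (a i b j : ℕ) : Nat.lor (bt a i) (bt b j) = 0 ∨
    (Nat.lor (bt a i) (bt b j) = 1 ∧ (a.testBit i = true ∨ b.testBit j = true)) := by
  rw [bt_eq, bt_eq]; split <;> split <;> simp [*, e_lor]

theorem cut_ks {k : Kc} (hr : RecOK G X Gl rc) (hk : KS G X Gl k n ph) : KS G X Gl (cut rc k) n ph := by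
  intro n' A D1 D2 D3 Q ph' B x s h
  unfold cut at h
  rw [rec_case] at h
  split at h
  · exact hk _ _ _ _ _ _ _ _ x s h
  · exact hr.1 _ _ _ hk _ _ _ _ _ _ _ _ x s h

theorem cut_str {k : Kc} (hk : Str k) : Str (cut rc k) := fun _ _ _ _ _ _ => hk _ _ _ _ _ _

section
variable (w : WInv G X C ρ n ph S J NJ b2 env U t bd Sd Nd Fb Rg)
include w

theorem WInv.ext {n' : ℕ} {ph' : ℕ → V} (x : Ext n ph n' ph') :
    WInv G X C ρ n' ph' S J NJ b2 env U t bd Sd Nd Fb Rg := by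
  have e : ∀ s, S.testBit s = true → ph' s = ph s := fun s hs => x.2 s (w.hS s hs).1
  have l := x.1
  refine ⟨w.sub, fun y hy z hz hz' a => ?_, fun s hs => ?_, w.hJ, fun i hi => ?_, w.b2le, ?_,
    fun r y hr => ?_, w.sdl, fun s hs a b => w.hSd s hs a (e s hs ▸ b), fun i hi => ?_, fun i hi => ?_⟩
  · obtain ⟨s, p, q⟩ := w.hold y hy z hz hz' a; exact ⟨s, p, by rw [e s p, q]⟩
  · rw [e s hs]; have := w.hS s hs; exact ⟨by omega, this.2⟩
  · obtain ⟨p, j, q, r⟩ := w.hNJ i hi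
    exact ⟨by omega, j, q, by rw [x.2 i p, e j (w.hJ j q)]; exact r⟩
  · exact w.bnd.imp id (fun r => ⟨r.1, fun y hy j hj => by rw [e j (w.hJ j hj)]; exact r.2 y hy j hj⟩)
  · obtain ⟨p, q, r⟩ := w.reg r y hr; exact ⟨by omega, by rw [x.2 _ p, q], r⟩
  · exact (w.hNd i hi).imp id (fun r => ⟨by omega, by rw [x.2 i r.1]; exact r.2⟩)
  · exact (w.hFb i hi).imp id (fun r => ⟨by omega, by rw [x.2 i r.1]; exact r.2⟩)

theorem WInv.cut_le : ecut G X C ≤ bd := by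
  have := w.b2le; rcases w.bnd with r | r <;> omega

theorem WInv.avoid (h : nd ≤ ecut G X C) {Z i : ℕ} (hi : (Nat.mul (nz (Nat.sub nd b2)) Z).testBit i = true) :
    Z.testBit i = true ∧ ∀ y ∈ C, ∀ j, J.testBit j = true → ¬ G.Adj y (ph j) := by
  rw [tb_mul_bit (by rw [nz_eq]; split <;> omega), nz_eq, e_sub] at hi
  refine ⟨hi.2, ?_⟩
  rcases w.bnd with r | r
  · rw [if_pos (by omega)] at hi; omega
  · exact r.2

theorem WInv.tch {x : ℕ} (hx : x = 0 ∨ (x = 1 ∧ ∃ y ∈ C, ∃ j, J.testBit j = true ∧ G.Adj y (ph j))) :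
    WInv G X C ρ n ph S J NJ b2 env U t (tch bd b2 x) Sd Nd Fb Rg := by
  have l := w.b2le
  rcases hx with rfl | ⟨rfl, y, hy, j, hj, a⟩
  · exact w
  · rw [show Sc.tch bd b2 1 = b2 by unfold Sc.tch; simp only [e_sub, e_mul]; omega]
    exact ⟨w.sub, w.hold, w.hS, w.hJ, w.hNJ, le_rfl,
      Or.inl (w.bnd.elim id (fun r => absurd a (r.2 y hy j hj))), w.reg, w.sdl, w.hSd, w.hNd, w.hFb⟩

theorem WInv.fb {i : ℕ} (hi : i < n) (j : ℕ) (hj : (Nat.lor Fb (pw i)).testBit j = true) :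
    j = 62 ∨ (j < n ∧ (ph j ∉ C ∨ ph j ∈ ph i :: U)) := by
  rcases (tb_lor _ _ _).1 hj with r | r
  · exact (w.hFb j r).imp id (fun r => ⟨r.1, r.2.imp id (List.mem_cons_of_mem _)⟩)
  · rw [(tb_pw _ _).1 r]; exact Or.inr ⟨hi, Or.inr List.mem_cons_self⟩

theorem WInv.push {i : ℕ} (hi : i < n) (h64 : i < 64) (hC : ph i ∈ C) (ha : Alive G X C ρ (ph i) t) :
    WInv G X C ρ n ph S J NJ b2 (ph i :: env) (ph i :: U) t bd Sd Nd (Nat.lor Fb (pw i))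
      (Nat.add (Nat.mul Rg 64) i) := by
  refine ⟨w.sub, w.hold, w.hS, w.hJ, w.hNJ, w.b2le, w.bnd, fun r x hr => ?_, w.sdl, w.hSd, w.hNd, w.fb hi⟩
  cases r with
  | zero =>
    simp only [List.getElem?_cons_zero, Option.some.injEq] at hr
    rw [show fd (Nat.add (Nat.mul Rg 64) i) (6 * 0) 64 = i by rw [fd_eq, e_add, e_mul]; omega]
    exact hr ▸ ⟨hi, rfl, hC, ha⟩
  | succ r =>
    rw [show fd (Nat.add (Nat.mul Rg 64) i) (6 * (r + 1)) 64 = fd Rg (6 * r) 64 by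
      rw [fd_eq, fd_eq, e_add, e_mul, show 6 * (r + 1) = 6 + 6 * r by omega, pow_add,
        ← Nat.div_div_eq_div_mul, show (Rg * 64 + i) / 2 ^ 6 = Rg by omega]]
    exact w.reg r x (by simpa using hr)

/-- the new register is among the children -/
theorem WInv.cand (s : St G X n A D1 D2 D3 Q ph) (hc : Cub G X) (h2 : TwoEC G X) (hn : n ≤ 61)
    (h : nd ≤ ecut G X C) {j t' N : ℕ} (hj : j < n) {y : V} (a : G.Adj (ph j) y) (hy : y ∈ C) (hU : y ∉ U)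
    (ha : Alive G X C ρ y t') (hN : ∀ i, N.testBit i = true → i = 62 ∨ (i < n ∧ ¬ Alive G X C ρ (ph i) t')) :
    (an (av n A D3 j) (Nat.lor (Nat.lor Fb N) (Nat.mul (nz (Nat.sub nd b2)) NJ))).testBit (nx n ph y) = true := by
  rw [tb_an, tb_lor, tb_lor]
  refine ⟨s.av_spec hc h2 hj (w.sub hy) a, ?_⟩
  have e : nx n ph y ≤ n ∧ (nx n ph y < n → ph (nx n ph y) = y) := by
    rcases nx_spec n ph y with r | r
    · exact ⟨by omega, fun _ => r.2⟩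
    · exact ⟨by omega, by omega⟩
  rintro ((r | r) | r)
  · rcases w.hFb _ r with p | p
    · omega
    · rw [e.2 p.1] at p; exact p.2.elim (fun q => q hy) hU
  · rcases hN _ r with p | p
    · omega
    · rw [e.2 p.1] at p; exact p.2 ha
  · obtain ⟨p, q⟩ := w.avoid h r
    obtain ⟨p, j, u, v⟩ := w.hNJ _ p
    rw [e.2 p] at v; exact q y hy j u v

theorem WInv.marks (s : St G X n A D1 D2 D3 Q ph) (hc : Cub G X) (h2 : TwoEC G X) {j : ℕ} (hj : j < n)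
    (hC : ph j ∈ C) : ∃ O : Finset ℕ, (∀ i ∈ O, S.testBit i = true ∧ G.Adj (ph j) (ph i) ∧ ¬ mb A j i) ∧
      out G X C (ph j) ≤ cnt (Nat.land (row A j) S) + O.card := by
  classical
  obtain ⟨Z, -, b⟩ := s.split hc h2 hj S
  refine ⟨(bs S).filter (fun i => G.Adj (ph j) (ph i) ∧ ¬ mb A j i), fun i hi => by
    simpa [mem_bs] using hi, ?_⟩
  rw [cnt_eq, min_eq_right (by omega)]
  refine (out_le (Z := (bs (Nat.land (row A j) S) ∪ (bs S).filter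
    (fun i => G.Adj (ph j) (ph i) ∧ ¬ mb A j i)).image ph) (fun y hy hy' a => ?_)).trans
    (Finset.card_image_le.trans (Finset.card_union_le _ _))
  obtain ⟨i, p, rfl⟩ := w.hold _ hC y hy hy' a
  refine Finset.mem_image_of_mem _ (Finset.mem_union.2 ?_)
  by_cases e : mb A j i
  · exact Or.inl (mem_bs.2 ((tb_land _ _ _).2 ⟨(tb_row _ _ _).2
      ⟨by have := (w.hS i p).1; have := s.le; omega, e⟩, p⟩))
  · exact Or.inr (Finset.mem_filter.2 ⟨mem_bs.2 p, a, e⟩)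

theorem WInv.mark (s : St G X n A D1 D2 D3 Q ph) (hc : Cub G X) (h2 : TwoEC G X) (h : nd ≤ ecut G X C)
    {j i : ℕ} (hj : j < n) (hC : ph j ∈ C) (ha : Alive G X C ρ (ph j) t) (hi : S.testBit i = true)
    (a : G.Adj (ph j) (ph i)) (e : ¬ mb A j i) :
    (an Sd (Nat.lor (Nat.lor D3 (row A j)) (Nat.mul (nz (Nat.sub nd b2)) J))).testBit i = true := by
  obtain ⟨p, q, r⟩ := w.hS i hi
  rw [tb_an, tb_lor, tb_lor, tb_row]
  refine ⟨w.hSd i hi (r ▸ ha _ (s.mem i p) q a) ⟨_, hC, a⟩, ?_⟩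
  rintro ((u | u) | u)
  · exact (s.opn hc h2 hj p a e).2 u
  · exact e u.2
  · obtain ⟨u, v⟩ := w.avoid h u; exact v _ hC i u a

end

/-- soundness of the continuation for the rest `T` of the program -/
def WS (G : SimpleGraph V) (X C : Finset V) (db : DT) (ρ : V → ℕ) (Gl : Prop) (S J NJ b2 : ℕ) (T : Td)
    (ih : Wc) : Prop :=
  ∀ n ph env U t bd nd Sd Nd Fb Rg, WInv G X C ρ n ph S J NJ b2 env U t bd Sd Nd Fb Rg →
    Sat G X C db ρ T env U t nd → KS G X Gl (ih bd nd Sd Nd Fb Rg) n ph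

def WStr (ih : Wc) : Prop := ∀ bd nd Sd Nd Fb Rg, Str (ih bd nd Sd Nd Fb Rg)

variable {T : Td} {ih : Wc}

theorem xNb_str (h : WStr ih) (NJ b2 r : ℕ) : WStr (xNb NJ b2 r ih) := fun _ _ _ _ _ _ _ _ _ _ _ _ =>
  forB_zero (fun _ _ => h _ _ _ _ _ _ _ _ _ _ _ _) _ _ _

theorem xNb_ws (hc : Cub G X) (h2 : TwoEC G X) (hs : WStr ih) (hw : WS G X C db ρ Gl S J NJ b2 T ih) (r : ℕ) :
    WS G X C db ρ Gl S J NJ b2 (.nb r T) (xNb NJ b2 r ih) := by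
  rintro n0 ph0 env U t bd nd Sd Nd Fb Rg w ⟨x, y, h1, a, hy, hU, ha, h⟩ n A D1 D2 D3 Q ph B ex s k
  have w := w.ext ex
  obtain ⟨p, q, -⟩ := w.reg r x h1
  obtain ⟨z, -, c⟩ := forB_ne (fun _ _ => hs _ _ _ _ _ _ _ _ _ _ _ _)
    (fun i hi => s.av_lt ((tb_an _ _ _).1 hi).1) k
  have hn : n ≤ 61 := by simp only [e_div] at z; omega
  obtain ⟨_, B', k', -⟩ := c _ (w.cand s hc h2 hn (sat_le T h) p (q ▸ a) hy hU ha w.hNd)
  refine s.adE_nx hn p (w.sub hy) (q ▸ a) (fun n' ph' x' l e => ?_) k'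
  have w' := (w.ext x').tch (x := bt NJ (nx n ph y)) (by
    rw [bt_eq]; split
    · next u => obtain ⟨-, j, u, v⟩ := (w.ext x').hNJ _ u; exact Or.inr ⟨rfl, y, hy, j, u, e ▸ v⟩
    · exact Or.inl rfl)
  have l' : nx n ph y < 64 := by rcases nx_spec n ph y with r | r <;> omega
  exact hw _ _ _ _ _ _ _ _ _ _ _ (w'.push l l' (e.symm ▸ hy) (e.symm ▸ ha)) (e.symm ▸ h)

theorem stL_zero {f : ℕ → ℕ → ℕ → ℕ → ℕ} (hs : ∀ s m N, f s m N 0 = 0) (A c : ℕ) : ∀ m N,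
    @Nat.rec (fun _ => ℕ → ℕ → ℕ → ℕ) (fun m _ B => gd B m) (fun _ r m N B =>
      r (clr m) (Nat.lor N (row A (ix m))) (f (ix m) m N B)) c m N 0 = 0 := by
  induction c with
  | zero => exact fun _ _ => gd_zero _
  | succ c ih => intro m N; simp only []; rw [hs, ih]

theorem stL_ne {f : ℕ → ℕ → ℕ → ℕ → ℕ} (hs : ∀ s m N, f s m N 0 = 0) (A c : ℕ) : ∀ m N B,
    (∀ i, m.testBit i = true → i < 64) →
    @Nat.rec (fun _ => ℕ → ℕ → ℕ → ℕ) (fun m _ B => gd B m) (fun _ r m N B =>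
      r (clr m) (Nat.lor N (row A (ix m))) (f (ix m) m N B)) c m N B ≠ 0 →
    ∀ s, m.testBit s = true → ∃ m' N' B', f s m' N' B' ≠ 0 ∧
      (∀ i, m'.testBit i = true ↔ m.testBit i = true ∧ s ≤ i) ∧ ∀ i, N'.testBit i = true →
        N.testBit i = true ∨ ∃ s', m.testBit s' = true ∧ s' < s ∧ (row A s').testBit i = true := by
  induction c with
  | zero => exact fun m N B _ h s hs => absurd hs (zero_bit (gd_ne h).2 s)
  | succ c ih =>
    intro m N B h64 h s hs'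
    simp only [] at h
    obtain ⟨p1, p2, p3⟩ := ix_spec (x := m) (fun e => zero_bit e s hs') h64
    by_cases e : s = ix m
    · refine ⟨m, N, B, fun z => h (by rw [← e, z]; exact stL_zero hs A c _ _),
        fun i => ⟨fun r => ⟨r, e ▸ p2 i r⟩, fun r => r.1⟩, fun i r => Or.inl r⟩
    · obtain ⟨m', N', B', q1, q2, q3⟩ := ih _ _ _ (fun i hi => h64 i (clr_sub hi)) h s ((p3 s).2 ⟨hs', e⟩)
      have := p2 s hs'
      refine ⟨m', N', B', q1, fun i => ?_, fun i hi => ?_⟩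
      · rw [q2, p3]; exact ⟨fun r => ⟨r.1.1, r.2⟩, fun r => ⟨⟨r.1, by omega⟩, r.2⟩⟩
      · rcases q3 i hi with r | ⟨s', r1, r2⟩
        · exact ((tb_lor _ _ _).1 r).imp id (fun r => ⟨_, p1, by omega, r⟩)
        · exact Or.inr ⟨s', clr_sub r1, r2⟩

theorem xS1_str (h : WStr ih) (J NJ b2 bd nd Fb s m Nd : ℕ) : Str (xS1 J NJ b2 ih bd nd Fb s m Nd) :=
  fun _ _ _ _ _ _ => forB_zero (fun _ _ => h _ _ _ _ _ _ _ _ _ _ _ _) _ _ _

theorem xSt_str (h : WStr ih) (S J NJ b2 bd nd Fb : ℕ) : Str (xSt S J NJ b2 ih bd nd Fb) :=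
  fun n A D1 D2 D3 Q => stL_zero (f := fun s m N B => xS1 J NJ b2 ih bd nd Fb s m N n A D1 D2 D3 Q B)
    (fun s m N => xS1_str h J NJ b2 bd nd Fb s m N n A D1 D2 D3 Q) A 0 (an S (Nat.mul (nz (Nat.sub nd b2)) J)) 0

theorem xSt_ws (hc : Cub G X) (h2 : TwoEC G X) (hs : WStr ih) (hw : WS G X C db ρ Gl S J NJ b2 T ih) :
    WS G X C db ρ Gl S J NJ b2 (.st T) (fun bd nd _ _ Fb _ => xSt S J NJ b2 ih bd nd Fb) := by
  rintro n0 ph0 env U t bd nd Sd Nd Fb Rg w ⟨v, y, hv, hv', hy, a, hU, ha, h⟩ n A D1 D2 D3 Q ph B ex s k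
  have w := w.ext ex
  have hle := sat_le T h
  obtain ⟨j, hj, rfl⟩ := w.hold y hy v hv hv' a.symm
  obtain ⟨p, -, q⟩ := w.hS j hj
  rw [q] at ha h
  have inS : ∀ i, S.testBit i = true → (∃ y ∈ C, G.Adj y (ph i)) →
      (an S (Nat.mul (nz (Nat.sub nd b2)) J)).testBit i = true := fun i hi ⟨z, hz, b⟩ =>
    (tb_an _ _ _).2 ⟨hi, fun u => (w.avoid hle u).2 z hz i (w.avoid hle u).1 b⟩
  obtain ⟨m, N, B1, k, m1, m2⟩ := stL_ne
    (f := fun s m N B => xS1 J NJ b2 ih bd nd Fb s m N n A D1 D2 D3 Q B)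
    (fun _ _ _ => xS1_str hs _ _ _ _ _ _ _ _ _ _ _ _ _ _ _) A _ _ _ _
    (fun i hi => by have := (w.hS i ((tb_an _ _ _).1 hi).1).1; have := s.le; omega) k j
    (inS j hj ⟨y, hy, a.symm⟩)
  have hN : ∀ i, N.testBit i = true → i = 62 ∨ (i < n ∧ ¬ Alive G X C ρ (ph i) j) := fun i hi => by
    rcases m2 i hi with r | ⟨s', r1, r2, r3⟩
    · simp at r
    · obtain ⟨u1, u2, u3⟩ := w.hS s' ((tb_an _ _ _).1 r1).1
      refine (s.row_lt r3).2.symm.imp id (fun r => ⟨r, fun al => ?_⟩)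
      have := al _ (s.mem _ u1) u2 (s.adj _ _ r ((tb_row _ _ _).1 r3).2).symm
      omega
  obtain ⟨z, -, c⟩ := forB_ne (fun _ _ => hs _ _ _ _ _ _ _ _ _ _ _ _)
    (fun i hi => s.av_lt ((tb_an _ _ _).1 hi).1) k
  have hn : n ≤ 61 := by simp only [e_div] at z; omega
  obtain ⟨_, B', k', -⟩ := c _ (w.cand s hc h2 hn hle p a hy hU ha hN)
  refine s.adE_nx hn p (w.sub hy) a (fun n' ph' x' l e => ?_) k'
  have w0 : WInv G X C ρ n ph S J NJ b2 [] U j bd m N Fb 0 :=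
    ⟨w.sub, w.hold, w.hS, w.hJ, w.hNJ, w.b2le, w.bnd, by simp,
      fun i hi => ((tb_an _ _ _).1 ((m1 i).1 hi).1).1, fun i hi u v => (m1 i).2 ⟨inS i hi v, u⟩, hN, w.hFb⟩
  have w' := (w0.ext x').tch (x := Nat.lor (bt J j) (bt NJ (nx n ph y))) (by
    refine (lor_bt _ _ _ _).imp id (fun r => ⟨r.1, y, hy, ?_⟩)
    rcases r.2 with u | u
    · exact ⟨j, u, by rw [x'.2 j p]; exact a.symm⟩
    · obtain ⟨-, j, u, v⟩ := (w.ext x').hNJ _ u; exact ⟨j, u, e ▸ v⟩)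
  have l' : nx n ph y < 64 := by rcases nx_spec n ph y with r | r <;> omega
  have w'' := w'.push l l' (e.symm ▸ hy) (e.symm ▸ ha)
  rw [show Nat.add (Nat.mul 0 64) (nx n ph y) = nx n ph y by simp] at w''
  exact hw _ _ _ _ _ _ _ _ _ _ _ w'' (e.symm ▸ h)

theorem xSa_str (h : WStr ih) (S J b2 m r : ℕ) : WStr (xSa S J b2 m r ih) := by
  intro bd nd Sd Nd Fb Rg n A D1 D2 D3 Q
  unfold xSa
  rw [rec_case, rec_case, rec_case]
  split
  · exact h _ _ _ _ _ _ _ _ _ _ _ _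
  split
  · exact gd_zero _
  split
  · exact gd_zero _
  · rfl

theorem xSa_ws (hc : Cub G X) (h2 : TwoEC G X) (hs : WStr ih) (hw : WS G X C db ρ Gl S J NJ b2 T ih)
    (m r : ℕ) : WS G X C db ρ Gl S J NJ b2 (.sa m r T) (xSa S J b2 m r ih) := by
  rintro n0 ph0 env U t bd nd Sd Nd Fb Rg w ⟨x, h1, hm, h⟩ n A D1 D2 D3 Q ph B ex s k
  have w := w.ext ex
  obtain ⟨p, rfl, hC, ha⟩ := w.reg r x h1
  unfold xSa at k
  rw [rec_case, rec_case, rec_case] at k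
  change (fd Rg (Nat.mul 6 r) 64) < n at p
  change ph (fd Rg (Nat.mul 6 r) 64) ∈ C at hC
  change Alive G X C ρ (ph (fd Rg (Nat.mul 6 r) 64)) t at ha
  change m ≤ out G X C (ph (fd Rg (Nat.mul 6 r) 64)) at hm
  generalize fd Rg (Nat.mul 6 r) 64 = j at *
  obtain ⟨O, o1, o2⟩ := w.marks s hc h2 p hC
  have hle := sat_le T h
  have l64 : ∀ Z a i, a ≤ 1 → (Nat.mul (an Sd Z) a).testBit i = true → i < 64 := fun Z a i ha hi => by
    have := (w.hS i (w.sdl i ((tb_an _ _ _).1 ((tb_mul_bit' ha).1 hi).2).1)).1; have := s.le; omega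
  simp only [e_sub] at k
  split at k
  · exact hw _ _ _ _ _ _ _ _ _ _ _ w h _ _ _ _ _ _ _ _ (Ext.refl _ _) s k
  split at k
  · obtain ⟨i, hi⟩ := Finset.card_pos.1 (show 0 < O.card by omega)
    obtain ⟨a, b, c⟩ := o1 i hi
    have li := (w.hS i a).1
    obtain ⟨-, -, d⟩ := forB_ne (fun _ _ => hs _ _ _ _ _ _ _ _ _ _ _ _)
      (fun i => l64 _ _ i (by simp [e_sub])) k
    obtain ⟨_, B', k', -⟩ := d i ((tb_mul_bit' (by simp [e_sub])).2
      ⟨(one_sub_bt _ _).2 (s.opn hc h2 p li b c).1, w.mark s hc h2 hle p hC ha a b c⟩)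
    refine s.adE_old p li b (hw _ _ _ _ _ _ _ _ _ _ _ (w.tch ?_) h) k'
    rw [bt_eq]; split
    · next u => exact Or.inr ⟨rfl, _, hC, i, u, b⟩
    · exact Or.inl rfl
  split at k
  · obtain ⟨i, hi, i', hi', lt⟩ : ∃ i ∈ O, ∃ i' ∈ O, i < i' := by
      obtain ⟨i, hi, i', hi', ne⟩ := Finset.one_lt_card.1 (show 1 < O.card by omega)
      rcases Nat.lt_or_gt_of_ne ne with r | r
      exacts [⟨i, hi, i', hi', r⟩, ⟨i', hi', i, hi, r⟩]
    obtain ⟨a, b, c⟩ := o1 i hi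
    obtain ⟨a', b', c'⟩ := o1 i' hi'
    have li := (w.hS i a).1
    have li' := (w.hS i' a').1
    have d2 : Nat.sub 1 (bt D2 j) = 1 := (one_sub_bt _ _).2 (fun u => by
      have := s.inj _ li _ li' (s.sat2 hc h2 u b (by rwa [s.cd_ph li]) b' (by rwa [s.cd_ph li'])); omega)
    unfold xSa2 at k
    obtain ⟨-, -, d⟩ := forB_ne' k (fun _ m => gd_zero (Nat.add m 0)) (fun i => l64 _ _ i (by simp [e_sub]))
    obtain ⟨m', B', k', e⟩ := d i ((tb_mul_bit' (by simp [e_sub])).2 ⟨d2, w.mark s hc h2 hle p hC ha a b c⟩)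
    obtain ⟨-, -, d⟩ := forB_ne' k' (fun _ _ => hs _ _ _ _ _ _ _ _ _ _ _ _)
      (fun i hi => l64 _ _ i (by simp [e_sub]) ((e i).1 hi).1)
    obtain ⟨_, B'', k'', -⟩ := d i' ((e i').2 ⟨(tb_mul_bit' (by simp [e_sub])).2
      ⟨d2, w.mark s hc h2 hle p hC ha a' b' c'⟩, lt⟩)
    refine s.adE_old p li b (ks_adE p li' b' (hw _ _ _ _ _ _ _ _ _ _ _ (w.tch ?_) h)) k''
    refine (lor_bt _ _ _ _).imp id (fun r => ⟨r.1, _, hC, ?_⟩)
    exact r.2.elim (fun u => ⟨i, u, b⟩) (fun u => ⟨i', u, b'⟩)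
  · exact absurd rfl k

theorem nxt_str (hr : ∀ k, Str (rc k)) (cl f S J NJ b2 : ℕ) (T : Td) : WStr (nxt rc cl f S J NJ b2 T) := by
  induction T with
  | done => exact fun _ _ _ _ _ _ => hr _
  | core g => exact fun _ _ _ _ _ _ _ _ _ _ _ _ => gd_zero _
  | ask T ih => exact fun _ _ _ _ _ _ => hr _
  | st T ih => exact fun _ _ _ _ _ _ => cut_str (xSt_str ih _ _ _ _ _ _ _)
  | nb r T ih => exact fun _ _ _ _ _ _ => cut_str (xNb_str ih _ _ _ _ _ _ _ _ _)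
  | sa m r T ih =>
    intro bd nd Sd Nd Fb Rg n A D1 D2 D3 Q
    change nSa rc S J b2 m r _ _ _ _ _ _ _ _ _ _ _ _ _ _ = 0
    unfold nSa; rw [rec_case]; split
    · exact ih _ _ _ _ _ _ _ _ _ _ _ _
    · exact cut_str (xSa_str ih _ _ _ _ _ _ _ _ _ _ _) _ _ _ _ _ _
  | ed r r' T ih =>
    intro bd nd Sd Nd Fb Rg n A D1 D2 D3 Q
    change xEd r r' _ _ _ _ _ _ _ _ _ _ _ _ _ _ = 0
    unfold xEd; rw [rec_case]; split
    · rfl
    · exact ih _ _ _ _ _ _ _ _ _ _ _ _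
  | stub r T ih =>
    intro bd nd Sd Nd Fb Rg n A D1 D2 D3 Q
    change xSb cl r _ _ _ _ _ _ _ _ _ _ _ _ _ _ = 0
    unfold xSb; rw [rec_case]; split
    · exact ih _ _ _ _ _ _ _ _ _ _ _ _
    · rfl
  | ns q r T ih =>
    intro bd nd Sd Nd Fb Rg n A D1 D2 D3 Q
    change xNs S q r _ _ _ _ _ _ _ _ _ _ _ _ _ _ = 0
    unfold xNs; rw [rec_case]; split
    · exact ih _ _ _ _ _ _ _ _ _ _ _ _
    · rfl
  | inc d T ih =>
    intro bd nd Sd Nd Fb Rg n A D1 D2 D3 Q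
    change @Bool.rec (fun _ => ℕ) 0 _ (Nat.ble (Nat.add nd d) bd) = 0
    cases Nat.ble (Nat.add nd d) bd
    · rfl
    · exact ih _ _ _ _ _ _ _ _ _ _ _ _
  | or T T' ih ih' =>
    intro bd nd Sd Nd Fb Rg n A D1 D2 D3 Q
    change nxt rc cl f S J NJ b2 T' _ _ _ _ _ _ _ _ _ _ _ _ (nxt rc cl f S J NJ b2 T _ _ _ _ _ _ _ _ _ _ _ _ 0) = 0
    rw [ih, ih']
  | rs T ih => exact fun _ _ _ _ _ _ => ih _ _ _ _ _ _
  | pop T ih => exact fun _ _ _ _ _ _ => ih _ _ _ _ _ _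

theorem nxt_ws (hc : Cub G X) (h2 : TwoEC G X) (hr : RecOK G X Gl rc) {cl f : ℕ} (hcl : cl ≤ 1)
    (hcl' : cl = 1 → Closed G X) (hf : ∀ g < f, Holds G X Gl (dget db g)) (T : Td) :
    WS G X C db ρ Gl S J NJ b2 T (nxt rc cl f S J NJ b2 T) := by
  have st := nxt_str hr.2 cl f S J NJ b2
  induction T with
  | done => exact fun _ _ _ _ _ _ _ _ _ _ _ _ _ => hr.1 _ _ _ ks_k0
  | core g =>
    rintro _ _ _ _ _ _ _ _ _ _ _ _ ⟨-, p, e⟩ _ _ _ _ _ _ _ _ _ _ k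
    have := (gd_ne k).2
    exact hf g (by simp only [e_sub, e_add] at this; omega) p e
  | ask T ih => exact fun _ _ _ _ _ _ _ _ _ _ _ w h => hr.1 _ _ _ (ih _ _ _ _ _ _ _ _ _ _ _ w h)
  | st T ih => exact fun _ _ _ _ _ _ _ _ _ _ _ w h => cut_ks hr (xSt_ws hc h2 (st T) ih _ _ _ _ _ _ _ _ _ _ _ w h)
  | nb r T ih =>
    exact fun _ _ _ _ _ _ _ _ _ _ _ w h => cut_ks hr (xNb_ws hc h2 (st T) ih r _ _ _ _ _ _ _ _ _ _ _ w h)
  | sa m r T ih =>
    intro n0 ph0 env U t bd nd Sd Nd Fb Rg w h n A D1 D2 D3 Q ph B x s k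
    change nSa rc S J b2 m r _ _ _ _ _ _ _ _ _ _ _ _ _ _ ≠ 0 at k
    unfold nSa at k; rw [rec_case] at k; split at k
    · obtain ⟨_, -, -, h⟩ := h
      exact ih _ _ _ _ _ _ _ _ _ _ _ w h _ _ _ _ _ _ _ _ x s k
    · exact cut_ks hr (xSa_ws hc h2 (st T) ih m r _ _ _ _ _ _ _ _ _ _ _ w h) _ _ _ _ _ _ _ _ x s k
  | ed r r' T ih =>
    rintro n0 ph0 env U t bd nd Sd Nd Fb Rg w ⟨y, y', h1, h1', a, h⟩ n A D1 D2 D3 Q ph B x s k
    have w := w.ext x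
    obtain ⟨p, rfl, -⟩ := w.reg r y h1
    obtain ⟨p', rfl, -⟩ := w.reg r' y' h1'
    change xEd r r' _ _ _ _ _ _ _ _ _ _ _ _ _ _ ≠ 0 at k
    have := s.av_spec hc h2 p (s.mem _ p') a
    rw [s.nx_ph p'] at this
    unfold xEd at k
    rw [show bt (av n A D3 (fd Rg (Nat.mul 6 r) 64)) (fd Rg (Nat.mul 6 r') 64) = 1 from bt_one this] at k
    exact s.adE_old p p' a (ih _ _ _ _ _ _ _ _ _ _ _ w h) k
  | stub r T ih =>
    rintro n0 ph0 env U t bd nd Sd Nd Fb Rg w ⟨y, z, h1, hz, a, h⟩ n A D1 D2 D3 Q ph B x s k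
    have w := w.ext x
    obtain ⟨p, rfl, -⟩ := w.reg r y h1
    change xSb cl r _ _ _ _ _ _ _ _ _ _ _ _ _ _ ≠ 0 at k
    unfold xSb at k
    change fd Rg (Nat.mul 6 r) 64 < n at p
    change G.Adj (ph (fd Rg (Nat.mul 6 r) 64)) z at a
    generalize fd Rg (Nat.mul 6 r) 64 = j at *
    have : Nat.mul (Nat.sub 1 (bt (row A j) 62)) (Nat.add cl (Nat.add (bt D3 j) (bt Q j))) = 0 := by
      by_cases u : (row A j).testBit 62 = true
      · rw [bt_one u]; simp [e_mul, e_sub]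
      have a1 : cl = 0 := by by_contra e; exact hz (hcl' (by omega) _ (s.mem j p) _ a)
      have a2 : bt D3 j = 0 := bt_zero.2 (fun e => u ((tb_row _ _ _).2 ⟨by omega, by
        have := s.sat hc h2 e a; unfold cd at this; rwa [if_neg hz] at this⟩))
      have a3 : bt Q j = 0 := bt_zero.2 (fun e => hz ((s.ker j e).2 z a))
      rw [a1, a2, a3]; rfl
    rw [this] at k
    exact s.adS p hz a (ih _ _ _ _ _ _ _ _ _ _ _ w h) k
  | ns q r T ih =>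
    rintro n0 ph0 env U t bd nd Sd Nd Fb Rg w ⟨y, h1, hq, a, b, h⟩ n A D1 D2 D3 Q ph B x s k
    have w := w.ext x
    obtain ⟨p, rfl, -⟩ := w.reg r y h1
    change xNs S q r (nxt rc cl f S J NJ b2 T) _ _ _ _ _ _ _ _ _ _ _ _ _ ≠ 0 at k
    generalize nxt rc cl f S J NJ b2 T = ih0 at k ih
    unfold xNs at k
    change fd Rg (Nat.mul 6 r) 64 < n at p
    change ∀ y ∈ X, G.Adj (ph (fd Rg (Nat.mul 6 r) 64)) y → y ∈ C at a
    change q = 1 → ∀ y, G.Adj (ph (fd Rg (Nat.mul 6 r) 64)) y → y ∈ X at b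
    generalize fd Rg (Nat.mul 6 r) 64 = j at *
    have : Nat.land (row A j) (Nat.lor S (Nat.shiftLeft q 62)) = 0 := by
      apply bs_eq_empty
      rw [Finset.eq_empty_iff_forall_notMem]
      intro i hi
      obtain ⟨u, v⟩ := (tb_land _ _ _).1 (mem_bs.1 hi)
      have u := ((tb_row _ _ _).1 u).2
      rcases (tb_lor _ _ _).1 v with v | v
      · obtain ⟨v1, v2, -⟩ := w.hS i v
        exact v2 (a _ (s.mem i v1) (s.adj j i v1 u))
      · interval_cases q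
        · simp [e_shl] at v
        · obtain rfl := (tb_pw 62 i).1 v
          obtain ⟨z, z1, z2⟩ := s.stb j u
          exact z1 (b rfl z z2)
    rw [this] at k
    interval_cases q
    · rw [show Nat.lor Q (Nat.shiftLeft 0 j) = Q by simp [e_shl, e_lor]] at k
      exact ih _ _ _ _ _ _ _ _ _ _ _ w h _ _ _ _ _ _ _ _ (Ext.refl _ _) s k
    · exact ih _ _ _ _ _ _ _ _ _ _ _ w h _ _ _ _ _ _ _ _ (Ext.refl _ _) (s.flag p (b rfl)) k
  | inc d T ih =>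
    intro n0 ph0 env U t bd nd Sd Nd Fb Rg w h n A D1 D2 D3 Q ph B x s k
    have := (sat_le T h).trans w.cut_le
    change @Bool.rec (fun _ => ℕ) B _ (Nat.ble (Nat.add nd d) bd) ≠ 0 at k
    rw [show Nat.ble (Nat.add nd d) bd = true from Nat.ble_eq_true_of_le this] at k
    exact ih _ _ _ _ _ _ _ _ _ _ _ w h _ _ _ _ _ _ _ _ x s k
  | or T T' ih ih' =>
    intro n0 ph0 env U t bd nd Sd Nd Fb Rg w h n A D1 D2 D3 Q ph B x s k
    change nxt rc cl f S J NJ b2 T' _ _ _ _ _ _ _ _ _ _ _ _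
      (nxt rc cl f S J NJ b2 T _ _ _ _ _ _ _ _ _ _ _ _ B) ≠ 0 at k
    rcases h with h | h
    · exact ih _ _ _ _ _ _ _ _ _ _ _ w h _ _ _ _ _ _ _ _ x s (fun e => k (by rw [e]; exact st T' _ _ _ _ _ _ _ _ _ _ _ _))
    · exact ih' _ _ _ _ _ _ _ _ _ _ _ w h _ _ _ _ _ _ _ _ x s k
  | rs T ih =>
    intro n0 ph0 env U t bd nd Sd Nd Fb Rg w h
    exact ih _ _ _ _ _ _ _ _ _ _ _ ⟨w.sub, w.hold, w.hS, w.hJ, w.hNJ, w.b2le, w.bnd, fun r x hr =>
      let ⟨a, b, c, _⟩ := w.reg r x hr; ⟨a, b, c, fun _ _ _ _ => Nat.zero_le _⟩, fun _ h => h,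
      fun _ h _ _ => h, by simp, w.hFb⟩ h
  | pop T ih =>
    intro n0 ph0 env U t bd nd Sd Nd Fb Rg w h
    refine ih _ _ _ _ _ _ _ _ _ _ _ ⟨w.sub, w.hold, w.hS, w.hJ, w.hNJ, w.b2le, w.bnd, fun r x hr => ?_, w.sdl,
      w.hSd, w.hNd, w.hFb⟩ h
    rw [show fd (Nat.div Rg 64) (6 * r) 64 = fd Rg (6 * (r + 1)) 64 by
      rw [fd_eq, fd_eq, e_div, show 6 * (r + 1) = 6 + 6 * r by omega, pow_add, ← Nat.div_div_eq_div_mul]; rfl]
    exact w.reg (r + 1) x (by simpa using hr)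

end Pool.Agent.Hom2.Sc
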