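import Pool.Agent.Lib.MP_7e4769_co.Hc.Pay
import Pool.Agent.Lib.MP_7e4769_co.Hc.ScPa

set_option autoImplicit false

namespace Pool.Agent.Hom2

open Sc.Dp (t3 cm mkE gV cV varC)

theorem p_fld : Sc.Dp.fld = fld := rfl
theorem p_shr : Sc.Dp.shr = shr := rfl
theorem p_sl : Sc.Dp.sl = sl := rfl
theorem p_put : Sc.Dp.put = put := rfl
theorem p_tb : Sc.Dp.tb = tb := rfl
theorem p_lt : Sc.Dp.lt = lt := rfl
theorem p_ne : Sc.Dp.ne = ne := rfl
theorem p_fz : Sc.Dp.fz = fz := rfl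
theorem p_fzb : Sc.Dp.fzb = fzb := rfl
theorem p_allLt : Sc.Dp.allLt = allLt := rfl
theorem p_thr : Sc.Dp.thr = thr := rfl
theorem p_inM : Sc.Dp.inM = inM := rfl
theorem p_vr : Sc.Dp.vr = vr := rfl
theorem p_vc : Sc.Dp.vc = vc := rfl
theorem p_nxt : Sc.Dp.nxt = nxt := rfl
theorem p_all3 : Sc.Dp.all3 = all3 := rfl
theorem p_mul3 : Sc.Dp.mul3 = mul3 := rfl
theorem p_slotOK : Sc.Dp.slotOK = slotOK := by
  funext R K P v lim d
  unfold Sc.Dp.slotOK slotOK
  rw [p_lt, p_fzb, p_all3, p_vc, p_sl, p_mul3]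
theorem p_cycS : Sc.Dp.cycS = cycS := by
  funext R K P c0 v v' d
  unfold Sc.Dp.cycS cycS
  rw [p_lt, p_fz, p_fzb, p_all3, p_vc, p_sl, p_mul3]
theorem p_noLate : Sc.Dp.noLate = noLate := rfl

variable {R K P T c0 c1 nv u w : ℕ} {q : ℕ → ℕ → ZMod 3}

theorem sat_zero (x : ℕ → ZMod 3) (v : ℕ) : Sat R K P q x v 0 :=
  ⟨fun r => by omega, fun r => by omega⟩

theorem t3_zero {v j : ℕ} (h : fld T (Nat.mul 21 v) 2097152 = 0) (hj : j < 3) : t3 T v j = 0 := by
  simp only [t3, p_fld, fld_eq, Nat.add_eq, Nat.mul_eq, Nat.shiftRight_add] at h ⊢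
  generalize T >>> (21 * v) = Y at *
  interval_cases j <;> simp only [Nat.shiftRight_eq_div_pow] <;> omega

theorem eq_val : ∀ a b c f : ZMod 3, a ≠ 0 → b ≠ 0 → ∃ t, ∀ y, y ≠ f → a * y + b * t + c ≠ 0 := by
  decide +kernel

/-- the variables below `t` are paid; after `u` the two forms of `w` forbid one value -/
def PInv (R K P T u w : ℕ) (q : ℕ → ℕ → ZMod 3) (t : ℕ) (x : ℕ → ZMod 3) : Prop :=
  (∀ x' : ℕ → ZMod 3, (∀ i < t, x' i = x i) → ∀ v < t, ∀ j < 3, Sat R K P q x' v (t3 T v j)) ∧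
  (u < t → ∃ f, ∀ x' : ℕ → ZMod 3, (∀ i < t, x' i = x i) → x' w ≠ f →
    Sat R K P q x' w (t3 T w 0) ∧ Sat R K P q x' w (t3 T w 2))

theorem PInv.step {t : ℕ} {x : ℕ → ZMod 3} (hx : PInv R K P T u w q t x) (ht : t < 63)
    (h : gV R K P T u w t = true) : ∃ y, PInv R K P T u w q (t + 1) y := by
  have fin : ∀ y, (∀ x' : ℕ → ZMod 3, (∀ i < t, x' i = x i) → x' t = y →
      ∀ j < 3, Sat R K P q x' t (t3 T t j)) → (u = t → ∃ f, ∀ x' : ℕ → ZMod 3,
        (∀ i < t, x' i = x i) → x' t = y → x' w ≠ f →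
          Sat R K P q x' w (t3 T w 0) ∧ Sat R K P q x' w (t3 T w 2)) →
      PInv R K P T u w q (t + 1) (Function.update x t y) := by
    intro y h1 h2
    have e : ∀ x' : ℕ → ZMod 3, (∀ i < t + 1, x' i = Function.update x t y i) →
        (∀ i < t, x' i = x i) ∧ x' t = y := fun x' e =>
      ⟨fun i hi => by rw [e i (by omega), Function.update_of_ne (by omega)],
        by rw [e t (by omega)]; simp⟩
    refine ⟨fun x' r v hv => ?_, fun hu => ?_⟩
    · rcases Nat.lt_succ_iff_lt_or_eq.1 hv with c | rfl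
      · exact hx.1 x' (e x' r).1 v c
      · exact h1 x' (e x' r).1 (e x' r).2
    · rcases Nat.lt_succ_iff_lt_or_eq.1 hu with c | c
      · obtain ⟨f, hf⟩ := hx.2 c
        exact ⟨f, fun x' r => hf x' (e x' r).1⟩
      · obtain ⟨f, hf⟩ := h2 c
        exact ⟨f, fun x' r => hf x' (e x' r).1 (e x' r).2⟩
  simp only [gV, p_fld, p_lt, p_ne, p_cycS, p_slotOK] at h
  by_cases a : t = u
  · subst a
    simp only [Nat.beq_refl, cond_true, Bool.and_eq_true, Nat.beq_eq, lt_iff, ne_iff] at h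
    obtain ⟨⟨⟨⟨h1, h2⟩, h3⟩, h4⟩, h5⟩ := h
    obtain ⟨f, hf⟩ := slot_forb (q := q) h5 h3 x
    obtain ⟨a, b, c, a0, b0, -, hc⟩ := cyc_form (q := q) h4 h3 ht (by omega) x
    obtain ⟨y, hy⟩ := eq_val a b c f a0 b0
    exact ⟨_, fin y (fun x' _ _ j hj => t3_zero h1 hj ▸ sat_zero _ _)
      (fun _ => ⟨f, fun x' e1 e2 r => ⟨hf x' e1 r, hc x' e1 (e2 ▸ hy _ r)⟩⟩)⟩
  rw [(beq_false _ _).2 a, cond_false, Bool.and_eq_true] at h
  obtain ⟨g, hg⟩ := slot_forb (q := q) h.1 ht x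
  have : ∃ f, ∀ x' : ℕ → ZMod 3, (∀ i < t, x' i = x i) → x' t ≠ f →
      Sat R K P q x' t (t3 T t 0) ∧ Sat R K P q x' t (t3 T t 2) := by
    by_cases b : t = w
    · subst b
      exact hx.2 (by simpa only [Nat.beq_refl, cond_true, lt_iff] using h.2)
    · have h2 := h.2
      rw [(beq_false _ _).2 b, cond_false, Bool.and_eq_true, Nat.beq_eq] at h2
      obtain ⟨f, hf⟩ := slot_forb (q := q) h2.2 ht x
      exact ⟨f, fun x' e r => ⟨hf x' e r, h2.1 ▸ sat_zero _ _⟩⟩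
  obtain ⟨f, hf⟩ := this
  obtain ⟨y, y1, y2⟩ := third_val f g
  refine ⟨_, fin y (fun x' e1 e2 j hj => ?_) (fun r => absurd r.symm a)⟩
  interval_cases j
  · exact (hf x' e1 (e2 ▸ y1)).1
  · exact hg x' e1 (e2 ▸ y2)
  · exact (hf x' e1 (e2 ▸ y1)).2

theorem PInv.cyc {x : ℕ → ZMod 3} (hx : PInv R K P T u w q c0 x) (h1 : c0 ≤ c1) (h2 : c1 < 63)
    (h3 : c0 + 1 ≠ c1) (h4 : ∀ v, c0 ≤ v → v < c1 → cV R K P T u c0 v = true)
    (h5 : Sc.Dp.cycPar R K P T c0 c1 = 1) : ∃ y, PInv R K P T u w q c1 y := by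
  by_cases m0 : c0 = c1
  · exact ⟨x, m0 ▸ hx⟩
  simp only [Sc.Dp.cycPar, p_thr, p_fz, p_cycS, p_nxt, fz_eq, Nat.add_eq, Nat.sub_eq] at h5
  simp only [cV, p_ne, p_slotOK, Bool.and_eq_true, ne_iff, Nat.beq_eq] at h4
  obtain ⟨p1, -, p3⟩ := par_spec
    (fun i => cycS R K P c0 (c0 + i) (nxt c0 c1 (c0 + i)) (t3 T (c0 + i) 1)) (c1 - c0) 1 h5 (by omega)
  have nx : ∀ i < c1 - c0, nxt c0 c1 (c0 + i) = c0 + (i + 1) % (c1 - c0) := fun i hi => by
    unfold nxt
    by_cases e : c0 + i + 1 = c1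
    · rw [show i + 1 = c1 - c0 by omega, Nat.mod_self]; simp [e]
    · rw [(beq_false _ _).2 e, Nat.mod_eq_of_lt (by omega)]; rfl
  have nl : ∀ i < c1 - c0, (i + 1) % (c1 - c0) < c1 - c0 ∧ (i + 1) % (c1 - c0) ≠ i := fun i hi => by
    refine ⟨Nat.mod_lt _ (by omega), ?_⟩
    by_cases e : i + 1 = c1 - c0
    · rw [e, Nat.mod_self]; omega
    · rw [Nat.mod_eq_of_lt (by omega)]; omega
  have F : ∀ i, ∃ f, i < c1 - c0 → ∀ x' : ℕ → ZMod 3, (∀ u < c0, x' u = x u) → x' (c0 + i) ≠ f →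
      Sat R K P q x' (c0 + i) (t3 T (c0 + i) 0) := fun i => by
    by_cases hi : i < c1 - c0
    · obtain ⟨f, hf⟩ := slot_forb (q := q) (h4 (c0 + i) (by omega) (by omega)).2 (by omega) x
      exact ⟨f, fun _ => hf⟩
    · exact ⟨0, fun r => absurd r hi⟩
  have A : ∀ i, ∃ a b c : ZMod 3, i < c1 - c0 → a ≠ 0 ∧ b ≠ 0 ∧
      a * b = (if cycS R K P c0 (c0 + i) (nxt c0 c1 (c0 + i)) (t3 T (c0 + i) 1) = 0 then 1 else 2) ∧
      ∀ x' : ℕ → ZMod 3, (∀ u < c0, x' u = x u) →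
        a * x' (c0 + i) + b * x' (nxt c0 c1 (c0 + i)) + c ≠ 0 →
        Sat R K P q x' (c0 + i) (t3 T (c0 + i) 1) := fun i => by
    by_cases hi : i < c1 - c0
    · have := nl i hi
      obtain ⟨a, b, c, r⟩ := cyc_form (q := q) (p1 i hi) (by omega) (by rw [nx i hi]; omega)
        (by rw [nx i hi]; omega) x
      exact ⟨a, b, c, fun _ => r⟩
    · exact ⟨0, 0, 0, fun r => absurd r hi⟩
  choose f hf using F
  choose a b c ha using A
  obtain ⟨y, y1, y2⟩ := cyc_pay (c1 - c0) (by omega) f a b c (fun i hi => (ha i hi).1)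
    (fun i hi => (ha i hi).2.1) (by
      rw [Finset.prod_congr rfl (fun i hi => (ha i (Finset.mem_range.1 hi)).2.2.1), ← p3]; simp)
  have ag : ∀ x' : ℕ → ZMod 3, (∀ i < c1, x' i = if i < c0 then x i else y (i - c0)) →
      (∀ i < c0, x' i = x i) ∧ ∀ i < c1 - c0, x' (c0 + i) = y i := fun x' e =>
    ⟨fun i hi => by rw [e i (by omega), if_pos hi],
      fun i hi => by rw [e _ (by omega), if_neg (by omega), Nat.add_sub_cancel_left]⟩
  refine ⟨fun i => if i < c0 then x i else y (i - c0), fun x' e v hv j hj => ?_, fun hu => ?_⟩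
  · obtain ⟨e1, e2⟩ := ag x' e
    by_cases r : v < c0
    · exact hx.1 x' e1 v r j hj
    obtain ⟨i, rfl⟩ : ∃ i, v = c0 + i := ⟨v - c0, by omega⟩
    have hi : i < c1 - c0 := by omega
    interval_cases j
    · exact hf i hi _ e1 (e2 i hi ▸ y1 i hi)
    · refine (ha i hi).2.2.2 _ e1 ?_
      rw [nx i hi, e2 i hi, e2 _ (nl i hi).1]
      exact y2 i hi
    · exact (h4 _ (by omega) hv).1.2 ▸ sat_zero _ _
  · obtain ⟨g, hg⟩ := hx.2 (by
      by_contra r
      exact (h4 u (by omega) hu).1.1 rfl)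
    exact ⟨g, fun x' e => hg x' (ag x' e).1⟩

theorem var_exists (h : varC R K P T c0 c1 nv u w = true) (q : ℕ → ℕ → ZMod 3) :
    nv < 63 ∧ ∃ x : ℕ → ZMod 3, ∀ v < nv, ∀ j < 3, Sat R K P q x v (t3 T v j) := by
  simp only [varC, p_lt, p_ne, p_allLt, Bool.and_eq_true, Nat.ble_eq, lt_iff, ne_iff, allLt_iff,
    Nat.beq_eq] at h
  obtain ⟨⟨⟨⟨⟨h0, h1⟩, h2⟩, h3⟩, h4⟩, h5⟩ := h
  have gr : ∀ s, (∃ x, PInv R K P T u w q s x) → ∀ d, s + d ≤ nv →
      (∀ v, s ≤ v → v < s + d → v < c0 ∨ c1 ≤ v) → ∃ x, PInv R K P T u w q (s + d) x := by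
    intro s hs d
    induction d with
    | zero => exact fun _ _ => hs
    | succ d ih =>
      intro a b
      obtain ⟨x, hx⟩ := ih (by omega) (fun v v1 v2 => b v v1 (by omega))
      have := h4 (s + d) (by omega)
      rw [show (Nat.ble c0 (s + d) && lt (s + d) c1) = false from by
        rw [← Bool.not_eq_true, Bool.and_eq_true, Nat.ble_eq, lt_iff]
        have := b (s + d) (by omega) (by omega); omega, cond_false] at this
      exact hx.step (by omega) this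
  obtain ⟨x, hx⟩ := gr 0 ⟨fun _ => 0, fun _ _ v hv => by omega, fun r => by omega⟩ c0 (by omega)
    (fun v _ r => Or.inl (by omega))
  rw [Nat.zero_add] at hx
  obtain ⟨z, hz⟩ := gr c1 (hx.cyc h0 (by omega) h3 (fun v v1 v2 => by
    have := h4 v (by omega)
    rwa [Nat.ble_eq_true_of_le v1, (lt_iff _ _).2 v2] at this) h5) (nv - c1) (by omega) (fun v r _ => Or.inr r)
  exact ⟨h2, z, fun v hv => hz.1 z (fun _ _ => rfl) v (by omega)⟩

theorem mkE_bit {d i : ℕ} (h : (mkE d nv T).testBit i = true) :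
    ∃ v < nv, ∃ j < 3, i = d * v + t3 T v j := by
  induction nv with
  | zero => simp [mkE] at h
  | succ nv ih =>
    have e : mkE d (nv + 1) T = mkE d nv T ||| (cm T nv <<< (d * nv)) :=
      fz_eq (mkE d nv T) (fun E => Nat.lor E (Nat.shiftLeft (cm T nv) (Nat.mul d nv)))
    rw [e, Nat.testBit_or, Bool.or_eq_true] at h
    rcases h with h | h
    · obtain ⟨v, hv, r⟩ := ih h
      exact ⟨v, by omega, r⟩
    · have c : cm T nv = 1 <<< t3 T nv 0 ||| (1 <<< t3 T nv 1 ||| 1 <<< t3 T nv 2) := rfl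
      simp only [c, Nat.testBit_shiftLeft, Nat.testBit_or, Bool.and_eq_true, Bool.or_eq_true,
        decide_eq_true_eq, Nat.testBit_one_eq_true_iff_self_eq_zero] at h
      rcases h.2 with r | r | r
      · exact ⟨nv, by omega, 0, by omega, by omega⟩
      · exact ⟨nv, by omega, 1, by omega, by omega⟩
      · exact ⟨nv, by omega, 2, by omega, by omega⟩

variable {x : ℕ → ZMod 3}

theorem t3_lt (T v j : ℕ) : t3 T v j < 128 := Nat.mod_lt _ (by omega)

theorem hasE3_ne (hx : ∀ v < nv, ∀ j < 3, Sat R K P q x v (t3 T v j)) {a b : ℕ}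
    (ha : a < 63) (e : Sc.Dp.hasE (mkE 128 nv T) a b = true) : b < 63 ∧ x a ≠ x b := by
  simp only [Sc.Dp.hasE, p_lt, p_tb, tb_eq, Bool.and_eq_true, Bool.or_eq_true, lt_iff, Nat.add_eq,
    Nat.mul_eq] at e
  refine ⟨e.1, ?_⟩
  have hb := e.1
  rcases e.2 with r | r <;> obtain ⟨v, hv, j, hj, r⟩ := mkE_bit r <;> have := t3_lt T v j <;>
    have s := (hx v hv j hj).1 (by omega) (by omega)
  · rwa [show v = a by omega, show t3 T a j - 1 = b by have : v = a := by omega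
                                                       subst this; omega] at s
  · rw [show v = b by omega, show t3 T b j - 1 = a by have : v = b := by omega
                                                      subst this; omega] at s
    exact s.symm

theorem hasR3_ne (hx : ∀ v < nv, ∀ j < 3, Sat R K P q x v (t3 T v j)) {s : ℕ}
    (e : Sc.Dp.hasR (mkE 0 nv T) s = true) : rsum R K P q x s ≠ 0 := by
  simp only [Sc.Dp.hasR, p_tb, tb_eq, Nat.add_eq] at e
  obtain ⟨v, hv, j, hj, r⟩ := mkE_bit e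
  have := (hx v hv j hj).2 (by omega)
  rwa [show t3 T v j - 64 = s by omega] at this

end Pool.Agent.Hom2
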