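import Pool.Agent.Lib.MP_7e4769_co.Hc.ScC

set_option autoImplicit false

namespace Pool.Agent.Hom2.Sc

variable {V : Type} {G : SimpleGraph V} {X : Finset V} {n A D1 D2 D3 Q : ℕ} {ph : ℕ → V}

theorem or_le_add (a b : ℕ) : a ||| b ≤ a + b := by
  induction a using Nat.strong_induction_on generalizing b with
  | _ a ih =>
    by_cases h : a = 0
    · simp [h]
    have p := ih (a / 2) (by omega) (b / 2)
    rw [← Nat.or_div_two] at p
    have q := @Nat.or_mod_two_eq_one a b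
    omega

theorem fd_shr (E s p w : ℕ) : fd (Nat.shiftRight E s) p w = fd E (s + p) w := by
  unfold fd; simp only [e_shr, Nat.shiftRight_add]

theorem fd_zero (E w : ℕ) : fd E 0 w = Nat.mod E w := rfl

theorem refL_succ (A M : ℕ) (fin : ℕ → ℕ → ℕ → ℕ → ℕ → ℕ) (c E Mi ac sm ro : ℕ) :
    refL A M fin (c + 1) E Mi ac sm ro = refL A M fin c (Nat.shiftRight E 12) (Nat.shiftRight Mi 8)
      (Nat.land ac (Nat.land (Nat.shiftRight (row A (fd Mi 0 64)) (fd M (8 * fd E 0 64) 64))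
        (Nat.shiftRight (row A (fd Mi 0 64)) (fd M (8 * fd E 6 64) 64))))
      (sm + pw (fd Mi 0 64)) (Nat.lor ro (pw (fd Mi 0 64))) := rfl

theorem refL_spec {A M : ℕ} {fin : ℕ → ℕ → ℕ → ℕ → ℕ → ℕ} (c : ℕ) : ∀ {E Mi ac sm ro : ℕ},
    refL A M fin c E Mi ac sm ro ≠ 0 → ro ≤ sm → ∃ E' Mi' ac' sm' ro', fin E' Mi' ac' sm' ro' ≠ 0 ∧
    (ac'.testBit 0 = true → ac.testBit 0 = true ∧ ∀ t < c, ∀ u < 2,
      (row A (fd Mi (8 * t) 64)).testBit (fd M (8 * fd E (12 * t + 6 * u) 64) 64) = true) ∧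
    (∀ i, ro.testBit i = true ∨ (∃ t < c, i = fd Mi (8 * t) 64) → ro'.testBit i = true) ∧
    (sm' ≤ ro' → sm ≤ ro ∧ (∀ t < c, ¬ ro.testBit (fd Mi (8 * t) 64) = true) ∧
      ∀ t < c, ∀ t' < c, fd Mi (8 * t) 64 = fd Mi (8 * t') 64 → t = t') := by
  induction c with
  | zero =>
    intro E Mi ac sm ro h _
    exact ⟨E, Mi, ac, sm, ro, h, fun a => ⟨a, by omega⟩, fun i r => r.elim id (by omega),
      fun a => ⟨a, by omega, by omega⟩⟩
  | succ c ih =>
    intro E Mi ac sm ro h hle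
    rw [refL_succ] at h
    have o := or_le_add ro (pw (fd Mi 0 64))
    obtain ⟨E', Mi', ac', sm', ro', h0, h1, h2, h3⟩ := ih h (by rw [e_lor]; omega)
    simp only [fd_shr] at h1 h2 h3
    have m8 : ∀ t, 8 * (t + 1) = 8 + 8 * t := fun t => by omega
    refine ⟨E', Mi', ac', sm', ro', h0, fun a => ?_, fun i r => h2 i ?_, fun a => ?_⟩
    · obtain ⟨b, d⟩ := h1 a
      rw [tb_land, tb_land, tb_shr, tb_shr] at b
      refine ⟨b.1, fun t ht u hu => ?_⟩
      cases t with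
      | zero => interval_cases u
                · exact b.2.1
                · exact b.2.2
      | succ t =>
        rw [m8, show 12 * (t + 1) + 6 * u = 12 + (12 * t + 6 * u) by omega]; exact d t (by omega) u hu
    · rw [tb_lor, tb_pw]
      rcases r with r | ⟨t, ht, rfl⟩
      · exact Or.inl (Or.inl r)
      · cases t with
        | zero => exact Or.inl (Or.inr rfl)
        | succ t => exact Or.inr ⟨t, by omega, by rw [m8]⟩
    · obtain ⟨b, d, e⟩ := h3 a
      rw [e_lor] at b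
      have f0 : ¬ ro.testBit (fd Mi 0 64) = true := fun g => by
        have : ro ||| pw (fd Mi 0 64) = ro := by
          apply Nat.eq_of_testBit_eq
          intro i
          rw [Bool.eq_iff_iff, ← e_lor, tb_lor, tb_pw]
          exact ⟨fun r => r.elim id (fun r => r ▸ g), Or.inl⟩
        have p : 0 < pw (fd Mi 0 64) := by rw [pw_eq]; positivity
        omega
      have f1 : ∀ t < c, fd Mi (8 * (t + 1)) 64 ≠ fd Mi 0 64 := fun t ht g =>
        d t ht ((tb_lor _ _ _).2 (Or.inr ((tb_pw _ _).2 (by rw [← m8]; exact g))))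
      refine ⟨by omega, fun t ht => ?_, fun t ht t' ht' g => ?_⟩
      · cases t with
        | zero => exact f0
        | succ t => exact fun g => d t (by omega) ((tb_lor _ _ _).2 (Or.inl (by rw [← m8]; exact g)))
      · cases t <;> cases t'
        · rfl
        · exact absurd g.symm (f1 _ (by omega))
        · exact absurd g (f1 _ (by omega))
        · rw [m8, m8] at g; rw [e _ (by omega) _ (by omega) g]

theorem tb_fd64 (B p j : ℕ) : (fd B p 64).testBit j = true ↔ j < 6 ∧ B.testBit (p + j) = true := by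
  unfold fd; rw [show (64 : ℕ) = pw 6 from rfl, tb_modpw, tb_shr]

theorem fd_map (B n0 a : ℕ) (ha : a ≤ n0) :
    fd (Nat.lor (Nat.mod B (pw (Nat.mul 8 n0))) (Nat.shiftLeft 62 (Nat.mul 8 n0))) (8 * a) 64 =
      if a = n0 then 62 else fd B (8 * a) 64 := by
  apply Nat.eq_of_testBit_eq
  intro j
  rw [Bool.eq_iff_iff, tb_fd64, tb_lor, tb_modpw, tb_shl, e_mul]
  split
  · next e =>
    subst e
    rw [show 8 * a + j - 8 * a = j by omega]
    constructor
    · rintro ⟨-, r | r⟩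
      · omega
      · exact r.2
    · exact fun r => ⟨bit_lt (show 62 < 2 ^ 6 by norm_num) r, Or.inr ⟨by omega, r⟩⟩
  · rw [tb_fd64]
    constructor
    · rintro ⟨p, r | r⟩
      · exact ⟨p, r.2⟩
      · omega
    · exact fun r => ⟨r.1, Or.inl ⟨by omega, r.2⟩⟩

section
variable (s : St G X n A D1 D2 D3 Q ph)
include s

theorem St.refB {A' e g f B : ℕ}
    (hA : ∀ i, ∀ j < 63, mb A' i j → mb A i j ∨ (j = i ∧ ∀ y, G.Adj (ph i) y → y ∈ X))
    (h : refB e g f n A' B ≠ 0) :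
    g < f ∧ EmbE G X e (fun a => ph (fd B (8 * a) 64)) ∧ ∀ a < e % 64, fd B (8 * a) 64 < n := by
  unfold Sc.refB at h
  obtain ⟨E', Mi', ac', sm', ro', h0, h1, h2, h3⟩ := refL_spec _ h le_rfl
  have h0 := (gd_ne h0).2
  simp only [e_add, e_sub, e_mod] at h0 h1 h2 h3
  have fm := fd_map B (e % 64)
  simp only [e_mod] at fm
  have fl : ∀ a < e % 64, _ := fun a ha => (fm a (le_of_lt ha)).trans (if_neg (ne_of_lt ha))
  have lt : ∀ a < e % 64, fd B (8 * a) 64 < n := fun a ha => by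
    have := h2 _ (Or.inr ⟨a, ha, rfl⟩)
    rw [fl a ha] at this
    by_contra c
    refine zero_bit (x := Nat.shiftRight ro' n) (by omega) (fd B (8 * a) 64 - n) ?_
    rw [tb_shr, show n + (fd B (8 * a) 64 - n) = fd B (8 * a) 64 by omega]; exact this
  have inj : ∀ a < e % 64, ∀ b < e % 64, fd B (8 * a) 64 = fd B (8 * b) 64 → a = b := fun a ha b hb r =>
    (h3 (by omega)).2.2 a ha b hb (by rw [fl a ha, fl b hb, r])
  have key : ∀ i < e % 64, ∀ t < 2, slot e i t ≤ e % 64 →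
      mb A (fd B (8 * i) 64) (if slot e i t = e % 64 then 62 else fd B (8 * slot e i t) 64) ∨
      ((if slot e i t = e % 64 then 62 else fd B (8 * slot e i t) 64) = fd B (8 * i) 64 ∧
        ∀ y, G.Adj (ph (fd B (8 * i) 64)) y → y ∈ X) := fun i hi t ht hs => by
    have := (h1 (by rw [Nat.testBit_zero]; simp; omega)).2 i hi t ht
    rw [fl i hi, fd_shr, ← add_assoc, show fd e (6 + 12 * i + 6 * t) 64 = slot e i t from rfl, fm _ hs,
      tb_row] at this
    exact hA _ _ this.1 this.2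
  have hn := s.le
  refine ⟨by omega, ⟨fun i hi => s.mem _ (lt i hi), fun i hi j hj r => inj i hi j hj
    (s.inj _ (lt i hi) _ (lt j hj) r), fun i hi t ht r => ?_, fun i hi t ht r => ?_,
    fun i hi t ht r r' => ?_⟩, lt⟩
  · have := key i hi t ht (by omega)
    rw [if_pos r] at this
    rcases this with c | c
    · exact s.stb _ c
    · have := lt i hi; omega
  · have := key i hi t ht (by omega)
    rw [if_neg (by omega), r] at this
    rcases this with c | c
    · exact absurd (s.adj _ _ (lt i hi) c) (G.loopless.1 _)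
    · exact c.2
  · have := key i hi t ht (by omega)
    rw [if_neg (by omega)] at this
    rcases this with c | c
    · exact s.adj _ _ (lt _ r) c
    · exact absurd (inj _ r _ hi c.1) r'

theorem St.rRef {Gl : Prop} {db : DT} {A' f B : ℕ} (hf : ∀ g < f, Holds G X Gl (dget db g))
    (hA : ∀ i, ∀ j < 63, mb A' i j → mb A i j ∨ (j = i ∧ ∀ y, G.Adj (ph i) y → y ∈ X))
    (h : rRef db f n A' B ≠ 0) : Gl := by
  obtain ⟨a, b, -⟩ := s.refB hA (show Sc.refB (dget db (B % 1048576)) (B % 1048576) f n A' _ ≠ 0 from h)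
  exact hf _ a _ b

theorem St.rRefK (hc : Cub G X) (h2 : TwoEC G X) {Gl : Prop} {db : DT} {f B : ℕ}
    (hf : ∀ g < f, Holds G X Gl (dget db g)) (h : rRefK db f n A D1 D2 D3 Q B ≠ 0) : Gl := by
  refine s.rRef hf (fun i j hj e => ?_) h
  have l := s.mask_lt (U := Nat.lor Q D3) (fun i hi => ((tb_lor _ _ _).1 hi).elim
    (fun r => (s.ker i r).1) s.d3_lt)
  rcases (mb_lor _ _ _ _).1 e with r | r
  · exact Or.inl r
  rw [mb_land, mb_cD i (by omega), mul_rows (fun i j hj r =>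
    ((mb_spr l i hj).1 ((mb_an _ _ _ _).1 r).1).1) (by norm_num) i (by omega), mb_an,
    mb_spr l i (by omega), mb_land, mb_cR i (by omega), tb_lor] at r
  obtain ⟨⟨⟨⟨-, a⟩, b⟩, -⟩, rfl⟩ := r
  refine Or.inr ⟨rfl, fun y hy => ?_⟩
  rcases a with a | a
  · exact (s.ker i a).2 y hy
  · have k := s.sat hc h2 a hy
    rcases s.kn k with t | t
    · exact t.2.2
    · rw [t.1] at k
      refine absurd ⟨?_, by omega, rfl⟩ b
      unfold mb at *
      rw [tb_shr, show 62 + (64 * i + 0) = 64 * i + 62 by omega]; exact k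

theorem St.refN (hc : Cub G X) (h2 : TwoEC G X) {Gl : Prop} {rc : Kc → Kc} {k : Kc} {e g nt B : ℕ}
    (hr : RecOK G X Gl rc) (hk : KS G X Gl k n ph) (hN : g < nt → HoldsN G X Gl e)
    (h : refN rc k e g nt n A D1 D2 D3 Q B ≠ 0) : Gl := by
  unfold Sc.refN at h
  simp only [e_mul, e_add, e_mod] at h
  by_contra ng
  have key : ∀ c, @Nat.rec (fun _ => ℕ) (Sc.refB (Nat.shiftRight e 38) g nt n A B) (fun t r =>
      @Nat.rec (fun _ => ℕ) r (fun _ _ => adE (fd B (8 * fd e (12 * t + 2) 64) 64)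
        (fd B (8 * fd e (12 * t + 8) 64) 64) (rc k) n A D1 D2 D3 Q r)
        (bt (av n A D3 (fd B (8 * fd e (12 * t + 2) 64) 64)) (fd B (8 * fd e (12 * t + 8) 64) 64))) c ≠ 0 →
      Sc.refB (Nat.shiftRight e 38) g nt n A B ≠ 0 ∧ ∀ t < c, fd B (8 * fd e (12 * t + 2) 64) 64 < n →
        fd B (8 * fd e (12 * t + 8) 64) 64 < n → ¬ G.Adj (ph (fd B (8 * fd e (12 * t + 2) 64) 64))
          (ph (fd B (8 * fd e (12 * t + 8) 64) 64)) := by
    intro c
    induction c with
    | zero => exact fun h => ⟨h, by omega⟩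
    | succ c ih =>
      intro h
      simp only [] at h
      rw [rec_case] at h
      obtain ⟨a, b⟩ := ih (fun z => by
        rw [z] at h
        split at h
        · exact h rfl
        · exact h (adE_str (hr.2 k) _ _ _ _ _ _ _ _))
      refine ⟨a, fun t ht p q r => ?_⟩
      by_cases z : t = c
      · subst z
        have := s.av_spec hc h2 p (s.mem _ q) r
        rw [s.nx_ph q] at this
        rw [bt_one this, if_neg (by omega)] at h
        exact ng (s.adE_old p q r (hr.1 _ _ _ hk) h)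
      · exact b t (by omega) p q r
  obtain ⟨a, b⟩ := key _ h
  obtain ⟨p, q, r⟩ := s.refB (fun i j _ e => Or.inl e) a
  exact ng (hN p _ q (fun t ht u v => b t ht (r _ u) (r _ v)))

theorem St.rSplit {P : Pm} {Gl : Prop} (cx : Ctx P G X Gl) {rc : Kc → Kc} {k : Kc} {B : ℕ}
    (hr : RecOK G X Gl rc) (hk : KS G X Gl k n ph) (h : rSplit P.cl rc k n A D1 D2 D3 Q B ≠ 0) : Gl := by
  unfold Sc.rSplit at h
  obtain ⟨z, b, c⟩ := forB_ne (fun y _ => adE_str (hr.2 k) _ y _ _ _ _ _ _)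
    (fun i hi => s.av_lt ((tb_an _ _ _).1 hi).1) h
  generalize Nat.mod B 64 = i at *
  simp only [e_add, e_sub, e_div] at z b
  have hi : i < n := by omega
  obtain ⟨w, a, e⟩ := s.unsat cx.cub cx.two hi (bt_zero.1 (by omega))
  by_cases hw : w ∈ X
  · have hnx : ¬ (Nat.lor (row A i) (pw i)).testBit (nx n ph w) = true := by
      rw [tb_lor, tb_row, tb_pw]
      rintro (r | r)
      · rcases s.cd_spec w with t | t | t
        · exact e (t.2.2.2 ▸ r.2)
        · exact t.2 hw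
        · have := s.rng i _ (by omega) r.2; omega
      · rcases nx_spec n ph w with t | t
        · exact a.ne (by rw [← t.2, r])
        · omega
    obtain ⟨_, B', q, -⟩ := c _ ((tb_an _ _ _).2 ⟨s.av_spec cx.cub cx.two hi hw a, hnx⟩)
    exact s.adE_nx (by omega) hi hw a (fun n' ph' x _ _ => hr.1 _ _ _ (hk.ext x)) q
  · have c62 : cd X n ph w = 62 := by unfold cd; rw [if_neg hw]
    rw [c62] at e
    have z1 : P.cl = 0 := by
      by_contra r; exact hw (cx.cl (by have := cx.cl1; omega) _ (s.mem i hi) w a)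
    rw [rec_case, z1, bt_zero.2 (fun r => hw ((s.ker i r).2 w a)),
      bt_zero.2 (fun r => e ((tb_row _ _ _).1 r).2), if_pos rfl] at b
    exact s.adS hi hw a (hr.1 _ _ _ hk) b

theorem St.rFlag {Gl : Prop} {rc : Kc → Kc} {k : Kc} {B : ℕ}
    (hr : RecOK G X Gl rc) (hk : KS G X Gl k n ph) (h : rFlag rc k n A D1 D2 D3 Q B ≠ 0) : Gl := by
  unfold Sc.rFlag at h
  generalize Nat.mod B 64 = i at *
  have a : Sc.adS i (rc k) n A D1 D2 D3 Q (gd (Nat.shiftRight B 6) (Nat.sub (Nat.add i 1) n)) ≠ 0 :=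
    fun z => h (by rw [z]; exact hr.2 k _ _ _ _ _ _)
  have b := (gd_ne (fun z => a (by rw [z]; exact adS_str (hr.2 k) _ _ _ _ _ _ _))).2
  simp only [e_add, e_sub] at b
  by_cases e : ∀ y, G.Adj (ph i) y → y ∈ X
  · exact hr.1 _ _ _ hk _ _ _ _ _ _ _ _ (Ext.refl _ _) (s.flag (by omega) e) h
  · push Not at e
    obtain ⟨y, p, q⟩ := e
    exact s.adS (by omega) q p (hr.1 _ _ _ hk) a

omit s in
/-- colour from two bits -/
def mk2 (a b : Bool) : Fin 4 := match a, b with
  | false, false => 0 | true, false => 1 | false, true => 2 | true, true => 3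

omit s in
set_option synthInstance.maxSize 2000 in
theorem ok_bits : ∀ a0 a1 x0 x1 y0 y1 z0 z1 : Bool,
    ¬ ((a0 = true ↔ x0 = true) ∧ (a1 = true ↔ x1 = true)) →
    ¬ ((a0 = true ↔ y0 = true) ∧ (a1 = true ↔ y1 = true)) →
    ¬ ((a0 = true ↔ z0 = true) ∧ (a1 = true ↔ z1 = true)) →
    ((((¬ x0 = true ∧ ¬ x1 = true) ∨ (¬ y0 = true ∧ ¬ y1 = true) ∨ (¬ z0 = true ∧ ¬ z1 = true)) ↔
      ((x0 = true ∧ ¬ x1 = true) ∨ (y0 = true ∧ ¬ y1 = true) ∨ (z0 = true ∧ ¬ z1 = true))) ↔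
     (((¬ x0 = true ∧ x1 = true) ∨ (¬ y0 = true ∧ y1 = true) ∨ (¬ z0 = true ∧ z1 = true)) ↔
      ((x0 = true ∧ x1 = true) ∨ (y0 = true ∧ y1 = true) ∨ (z0 = true ∧ z1 = true)))) →
    ok4 (mk2 a0 a1) (mk2 x0 x1) (mk2 y0 y1) (mk2 z0 z1) := by decide +kernel

theorem St.ex_nb (hc : Cub G X) (h2 : TwoEC G X) {i : ℕ} (h : D3.testBit i = true) {x y z : V}
    (hn : Nb G (ph i) x y z) (p : ℕ → Prop) :
    (∃ j < 63, mb A i j ∧ p j) ↔ p (cd X n ph x) ∨ p (cd X n ph y) ∨ p (cd X n ph z) := by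
  constructor
  · rintro ⟨j, hj, a, b⟩
    obtain ⟨w, c, rfl⟩ := s.bit_nb (by omega) a
    rcases hn.cases c with rfl | rfl | rfl <;> simp [b]
  · have t : ∀ w, G.Adj (ph i) w → p (cd X n ph w) → ∃ j < 63, mb A i j ∧ p j := fun w a b =>
      ⟨_, by have := s.kn (s.sat hc h2 h a); have := s.le; omega, s.sat hc h2 h a, b⟩
    rintro (r | r | r)
    exacts [t _ hn.adj1 r, t _ hn.adj2 r, t _ hn.adj3 r]

/-- a pattern without open half-edges is everything -/
theorem St.onto (hc : Cub G X) (h2 : TwoEC G X) (h0 : 0 < n) (hf : ∀ i < n, D3.testBit i = true) {v : V}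
    (hv : v ∈ X) : ∃ i < n, ph i = v := by
  have hU : ∀ i, (Nat.sub (pw n) 1).testBit i = true → i < n := fun i => (tb_full n i).1
  by_cases e : im ph (Nat.sub (pw n) 1) = X
  · obtain ⟨i, a, b⟩ := mem_im.1 (e ▸ hv); exact ⟨i, hU i a, b⟩
  obtain ⟨x, hx, y, hy, hy', a⟩ := h2.conn _ (s.im_sub hU) ⟨ph 0, mem_im.2 ⟨0, (tb_full _ _).2 h0, rfl⟩⟩ e
  obtain ⟨i, b, rfl⟩ := mem_im.1 hx
  rcases s.kn (s.sat hc h2 (hf i (hU i b)) a) with r | r
  · exact absurd (mem_im.2 ⟨_, (tb_full _ _).2 r.1, r.2.1⟩) hy'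
  · exact absurd hy r.2

theorem St.rCol (hc : Cub G X) (h2 : TwoEC G X) {B : ℕ} (h : rCol n A D1 D2 D3 Q B ≠ 0) : Good G X := by
  unfold Sc.rCol at h
  have h := (gd_ne h).2
  simp only [e_add, Nat.add_eq_zero_iff] at h
  obtain ⟨h1, h3, h4⟩ := h
  have l0 := s.maskS_lt (U := Nat.mod B (pw n)) (fun i hi => ((tb_modpw _ _ _).1 hi).1)
  have l1 := s.maskS_lt (tb_fd B n n)
  have t0 : (Nat.lor (Nat.mod B (pw n)) 4611686018427387904).testBit 62 = true :=
    (tb_lor _ _ _).2 (Or.inr ((tb_SB _).2 rfl))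
  have t1 : (Nat.lor (fd B n (pw n)) 4611686018427387904).testBit 62 = true :=
    (tb_lor _ _ _).2 (Or.inr ((tb_SB _).2 rfl))
  obtain ⟨p, q⟩ := colV_spec s.mx l0 l1 h1
  generalize Nat.lor (Nat.mod B (pw n)) 4611686018427387904 = B0 at *
  generalize Nat.lor (fd B n (pw n)) 4611686018427387904 = B1 at *
  have hf : ∀ i < n, D3.testBit i = true := fun i hi => by rw [xor_zero' h3]; exact (tb_full _ _).2 hi
  refine ⟨fun v => mk2 (B0.testBit (cd X n ph v)) (B1.testBit (cd X n ph v)), fun v hv _ => ?_,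
    fun v hv x y z hn => ?_⟩
  · have : cd X n ph v = 62 := by unfold cd; rw [if_neg hv]
    simp only [this, t0, t1]; rfl
  · obtain ⟨i, hi, rfl⟩ := s.onto hc h2 (by simp only [e_sub] at h4; omega) hf hv
    have hle := s.le
    have k : ∀ w, G.Adj (ph i) w → _ := fun w a =>
      p i _ (by have := s.kn (s.sat hc h2 (hf i hi) a); omega) (s.sat hc h2 (hf i hi) a)
    have r := q i (by omega)
    rw [s.ex_nb hc h2 (hf i hi) hn, s.ex_nb hc h2 (hf i hi) hn, s.ex_nb hc h2 (hf i hi) hn,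
      s.ex_nb hc h2 (hf i hi) hn] at r
    simp only [s.cd_ph hi]
    exact ok_bits _ _ _ _ _ _ _ _ (k _ hn.adj1) (k _ hn.adj2) (k _ hn.adj3) r

end

end Pool.Agent.Hom2.Sc
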