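import Pool.Agent.Lib.MP_7e4769_co.Hc.ScC

set_option autoImplicit false

namespace Pool.Agent.Hom2.Sc

/-- the vertex of field `p` -/
def vx (m p : ℕ) : ℕ := ix (clr^[p] m)

theorem hor_bit {g : ℕ → ℕ} (hg : ∀ v, g v < 64) {a : ℕ} (ha : a < 6) (c : ℕ) : ∀ m p, p < c →
    (hor g c m).testBit (6 * p + a) = (g (vx m p)).testBit a := by
  induction c with
  | zero => intro _ _ h; omega
  | succ c ih =>
    intro m p hp
    change (g (ix m) + 64 * hor g c (clr m)).testBit _ = _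
    rw [add_comm, show (64 : ℕ) = 2 ^ 6 from rfl, Nat.testBit_two_pow_mul_add _ (hg _)]
    cases p with
    | zero => rw [if_pos (by omega)]; simp [vx]
    | succ p =>
      rw [if_neg (by omega), show 6 * (p + 1) + a - 6 = 6 * p + a by omega, ih _ _ (by omega)]; rfl

theorem shp_zero {g : ℕ → ℕ} (c : ℕ) : ∀ m, (∀ i, m.testBit i = true → i < 64) → shp g c m = 0 →
    (∀ p < c, g (vx m p) ≠ 0) ∧ ∀ v, m.testBit v = true → ∃ p < c, vx m p = v := by
  induction c with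
  | zero => exact fun m _ h => ⟨by omega, fun v hv => absurd hv (zero_bit h v)⟩
  | succ c ih =>
    intro m h64 h
    change 1 - g (ix m) + shp g c (clr m) = 0 at h
    obtain ⟨a, b⟩ := ih (clr m) (fun i hi => h64 i (clr_sub hi)) (by omega)
    refine ⟨fun p hp => ?_, fun v hv => ?_⟩
    · cases p with
      | zero => change g (ix m) ≠ 0; omega
      | succ p => exact a p (by omega)
    · by_cases e : v = ix m
      · exact ⟨0, by omega, e.symm⟩
      · obtain ⟨p, p1, p2⟩ := b v (((ix_spec (fun z => zero_bit z v hv) h64).2.2 v).2 ⟨hv, e⟩)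
        exact ⟨p + 1, by omega, p2⟩

theorem tre_zero (kl : ℕ → ℕ) (fuel : ℕ) : ∀ al, tre kl fuel al 0 = 0 := by
  cases fuel with
  | zero => exact fun _ => rfl
  | succ c => exact fun _ => gd_zero _

theorem an_fld {al w p q a : ℕ} (hw : w < 64) (ha : a < 6) (h : al.testBit (6 * q + a) = true)
    (e : q = p → ¬ w.testBit a = true) : (an al (Nat.shiftLeft w (Nat.mul 6 p))).testBit (6 * q + a) = true := by
  rw [tb_an, tb_shl, e_mul]
  refine ⟨h, fun r => ?_⟩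
  have := bit_lt (k := 6) hw r.2
  obtain rfl : q = p := by omega
  exact e rfl (by simpa using r.2)

theorem tre_spec {kl sel : ℕ → ℕ} {c : ℕ} (hs : ∀ p, sel p < 6) (fuel : ℕ) : ∀ al B, tre kl fuel al B ≠ 0 →
    B ≠ 0 ∧ ((∀ p < c, al.testBit (6 * p + sel p) = true) →
      ∃ q, ∀ p < c, ¬ (kl q).testBit (6 * p + sel p) = true) := by
  induction fuel with
  | zero => exact fun _ _ h => absurd rfl h
  | succ f ih =>
    intro al B h
    refine ⟨fun e => h (by rw [e]; exact tre_zero _ _ _), fun ha => ?_⟩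
    change @Nat.rec (fun _ => ℕ) (gd (Nat.shiftRight B 15) (Nat.land al (kl (fd B 1 16384)))) (fun _ _ =>
      @Nat.rec (fun _ => ℕ) (gd (Nat.shiftRight B (Nat.add (fd B 13 16777216) 37))
        (Nat.sub 1 (tre kl f al (fd B 37 (pw (fd B 13 16777216)))))) (fun _ _ =>
      tre kl f (an al (Nat.shiftLeft (Nat.xor 63 (fd B 7 64)) (Nat.mul 6 (fd B 1 64))))
        (tre kl f (an al (Nat.shiftLeft (fd B 7 64) (Nat.mul 6 (fd B 1 64)))) (Nat.shiftRight B 13))) (fd B 7 64))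
      (Nat.mod B 2) ≠ 0 at h
    rw [rec_case] at h
    split at h
    · exact ⟨_, fun p hp => land_zero (gd_ne h).2 (ha p hp)⟩
    rw [rec_case] at h
    split at h
    · have := (gd_ne h).2
      rw [e_sub] at this
      exact (ih al (fd B 37 (pw (fd B 13 16777216))) (by omega)).2 ha
    · have l := fd_lt B 7 (show 0 < 64 by omega)
      by_cases e : (fd B 7 64).testBit (sel (fd B 1 64)) = true
      · refine (ih _ _ h).2 (fun p hp => an_fld (Nat.xor_lt_two_pow (n := 6) (by omega) l) (hs p) (ha p hp) ?_)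
        rintro rfl
        rw [tb_xor, show (63 : ℕ) = Nat.sub (pw 6) 1 from rfl, tb_full]
        simp [e, hs]
      · exact (ih _ _ (ih _ _ h).1).2 (fun p hp => an_fld l (hs p) (ha p hp) (by rintro rfl; exact e))

theorem al_bit : ∀ x < 64, x ≠ 0 → ∃ a < 6, x.testBit a = true := by decide +kernel

theorem cv2_63 {n : ℕ} (hn : n ≤ 62) (B p : ℕ) :
    cv2 (Nat.lor (fd B p (pw (Nat.mul 2 n))) 63802943797675961899382738893456539648) 62 = 3 ∧
    cv2 (Nat.lor (fd B p (pw (Nat.mul 2 n))) 63802943797675961899382738893456539648) 63 = 0 := by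
  have l : fd B p (pw (Nat.mul 2 n)) < 2 ^ 124 := lt_of_bits (fun i hi => by
    have := tb_fd _ _ _ _ hi; rw [e_mul] at this; omega)
  generalize fd B p (pw (Nat.mul 2 n)) = x at l
  rw [e_lor, Nat.or_comm, show (63802943797675961899382738893456539648 : ℕ) = 2 ^ 124 * 3 by norm_num,
    ← Nat.two_pow_add_eq_or_of_lt l]
  unfold cv2
  simp only [e_mod, e_shr, e_mul, Nat.shiftRight_eq_div_pow]
  omega

/-- for every choice of open atoms some colouring answers all of them -/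
theorem tab_spec {n A M K F h N v B : ℕ} (hn : n ≤ 62) (hM : ∀ i, M.testBit i = true → i < 64)
    (k : tab n A M K F h N v B ≠ 0) : B ≠ 0 ∧ v = 0 ∧ (∀ u, M.testBit u = true → alV A M K F h N u ≠ 0) ∧
    ∀ sel : ℕ → ℕ, (∀ u, M.testBit u = true → sel u < 6 ∧ (alV A M K F h N u).testBit (sel u) = true) →
      ∃ C, cv2 C 62 = 3 ∧ cv2 C 63 = 0 ∧
        ∀ u, M.testBit u = true → ¬ (klV A M K F h C u).testBit (sel u) = true := by
  unfold tab at k
  obtain ⟨b, z⟩ := gd_ne (tre_spec (sel := fun _ => 0) (c := 0) (by simp) _ _ _ k).1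
  rw [e_add] at z
  obtain ⟨s1, s2⟩ := shp_zero _ _ hM (show shp (alV A M K F h N) (Nat.mod B 64) M = 0 by omega)
  refine ⟨fun e => b (by rw [e]; simp [e_shr]), by omega, fun u hu => ?_, fun sel hsel => ?_⟩
  · obtain ⟨p, p1, rfl⟩ := s2 u hu; exact s1 p p1
  have l : ∀ u, alV A M K F h N u < 64 := fun u => fd_lt _ _ (by omega)
  have : ∀ p, ∃ a < 6, (p < Nat.mod B 64 → (alV A M K F h N (vx M p)).testBit a = true) ∧
      (M.testBit (vx M p) = true → a = sel (vx M p)) := fun p => by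
    by_cases e : M.testBit (vx M p) = true
    · exact ⟨_, (hsel _ e).1, fun _ => (hsel _ e).2, fun _ => rfl⟩
    by_cases e' : p < Nat.mod B 64
    · obtain ⟨a, a1, a2⟩ := al_bit _ (l _) (s1 p e'); exact ⟨a, a1, fun _ => a2, fun r => absurd r e⟩
    · exact ⟨0, by omega, fun r => absurd r e', fun r => absurd r e⟩
  choose f f1 f2 f3 using this
  obtain ⟨q, hq⟩ := (tre_spec f1 _ _ _ k).2 (fun p hp => by rw [hor_bit l (f1 p) _ _ _ hp]; exact f2 p hp)
  refine ⟨_, (cv2_63 hn (fd B 20 (pw (Nat.mul (Nat.mul 2 n) (fd B 6 16384)))) (Nat.mul (Nat.mul 2 n) q)).1,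
    (cv2_63 hn _ _).2, fun u hu => ?_⟩
  obtain ⟨p, p1, rfl⟩ := s2 u hu
  have := hq p p1
  unfold kq at this
  rwa [hor_bit (g := klV A M K F h _) (fun u => fd_lt _ _ (by omega)) (f1 p) _ _ _ p1, f3 p hu] at this

/-- entry of the kill table -/
def kw (t : ℕ) (a x y z : Fin 4) : ℕ := fd cW (6 * (a + 4 * x + (16 * y + 64 * z + 256 * t))) 64

/-- entry of the table of open atoms -/
def aw (t k N : ℕ) : ℕ := fd cA (6 * (4 * t + k + 16 * N)) 64

def fa (t q : ℕ) : Fin 4 × Fin 4 :=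
  if t = 2 then [(0, 1), (0, 2), (1, 0), (1, 2), (2, 0), (2, 1)].getD q (0, 0) else [(0, 1), (0, 3), (3, 0)].getD q (0, 0)

theorem kw0 : ∀ a x y z, ¬ (kw 0 a x y z).testBit 0 = true → ok4 a x y z := by decide +kernel

theorem kw1 : ∀ a x y z, ∀ o < 3, ¬ (kw 1 a x y z).testBit o = true →
    a = 3 ∧ x ≠ 3 ∧ y ≠ 3 ∧ z ≠ 3 ∧ (x.val + y.val + z.val + o) % 3 ≠ 0 := by decide +kernel

theorem kw2 : ∀ a x y z, ∀ q < 6, ¬ (kw 2 a x y z).testBit q = true →
    a ≠ (fa 2 q).1 ∧ a ≠ (fa 2 q).2 ∧ ok4 a x y (fa 2 q).1 := by decide +kernel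

theorem kw3 : ∀ a x y z, ∀ q < 3, ¬ (kw 3 a x y z).testBit q = true →
    a ≠ (fa 3 q).1 ∧ a ≠ (fa 3 q).2 ∧ ok4 a x y (fa 3 q).1 := by decide +kernel

theorem aw0 : ∀ k < 4, ∀ N < 2, aw 0 k N ≠ 0 → k = 3 ∧ (aw 0 k N).testBit 0 = true := by decide +kernel

set_option synthInstance.maxSize 2000 in
theorem aw1 : ∀ k < 4, ∀ N < 2, aw 1 k N ≠ 0 → ∀ x y z : Fin 4, (k < 1 → x ≠ 3) → (k < 2 → y ≠ 3) → (k < 3 → z ≠ 3) →
    ∃ i : Fin 6, (N = 0 → i = 0) ∧ ∃ o < 3, (aw 1 k N).testBit o = true ∧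
      ((if k < 1 then (s3 i x).val else 0) + (if k < 2 then (s3 i y).val else 0) +
        (if k < 3 then (s3 i z).val else 0)) % 3 = o := by decide +kernel

set_option synthInstance.maxSize 2000 in
theorem aw2 : ∀ k < 4, ∀ N < 2, aw 2 k N ≠ 0 → k = 2 ∧ ∀ a u w : Fin 4, ok4 a 3 u w →
    ∃ i : Fin 6, (N = 0 → i = 0) ∧ ∃ q < 6, (aw 2 k N).testBit q = true ∧ s3 i a = (fa 2 q).1 ∧
      ∀ t, t ≠ (fa 2 q).1 → t ≠ (fa 2 q).2 → ok4 (s3 i a) t (s3 i u) (s3 i w) := by decide +kernel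

set_option synthInstance.maxSize 2000 in
theorem aw3 : ∀ k < 4, ∀ N < 2, aw 3 k N ≠ 0 → k = 2 ∧ ∀ a x u w : Fin 4, ok4 a x u w →
    ∃ i : Fin 6, ∃ q < 3, (aw 3 k N).testBit q = true ∧ s3 i a = (fa 3 q).1 ∧
      ∀ t, t ≠ (fa 3 q).1 → t ≠ (fa 3 q).2 → ok4 (s3 i a) t (s3 i u) (s3 i w) := by decide +kernel

end Pool.Agent.Hom2.Sc
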