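import Pool.Agent.Lib.MP_7e4769_co.Hc.ScB

set_option autoImplicit false

namespace Pool.Agent.Hom2.Sc

def geo (w : ℕ) : ℕ → ℕ
  | 0 => 0
  | m + 1 => 2 ^ w * geo w m + 1

theorem cR_eq : cR = geo 64 64 := by decide +kernel
theorem cM_eq : cM = geo 63 64 := by decide +kernel
theorem cD_eq : cD = geo 65 64 := by decide +kernel
theorem cK_eq : cK = (2 ^ 63 - 1) * geo 64 64 := by decide +kernel
theorem cH_eq : cH = 2 ^ 63 * geo 64 64 := by decide +kernel

theorem mul_geo {B w : ℕ} (hB : B < 2 ^ w) (m i : ℕ) {j : ℕ} (hj : j < w) :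
    (B * geo w m).testBit (w * i + j) = true ↔ i < m ∧ B.testBit j = true := by
  induction m generalizing i with
  | zero => simp [geo]
  | succ m ih =>
    rw [geo, show B * (2 ^ w * geo w m + 1) = 2 ^ w * (B * geo w m) + B by ring,
      Nat.testBit_two_pow_mul_add _ hB]
    cases i with
    | zero => simp [hj]
    | succ i =>
      rw [if_neg (by nlinarith), show w * (i + 1) + j - w = w * i + j by rw [Nat.mul_succ]; omega, ih]
      simp

theorem lt_of_bits {x k : ℕ} (h : ∀ i, x.testBit i = true → i < k) : x < 2 ^ k :=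
  Nat.lt_pow_two_of_testBit x (fun i hi => by
    by_contra e; exact absurd (h i (by simpa using e)) (by omega))

theorem bit_lt {x k i : ℕ} (h : x < 2 ^ k) (hi : x.testBit i = true) : i < k := by
  by_contra e
  rw [Nat.testBit_lt_two_pow (lt_of_lt_of_le h (Nat.pow_le_pow_right (by omega) (by omega)))] at hi
  simp at hi

theorem mb_land (a b i j : ℕ) : mb (Nat.land a b) i j ↔ mb a i j ∧ mb b i j := tb_land _ _ _
theorem mb_lor (a b i j : ℕ) : mb (Nat.lor a b) i j ↔ mb a i j ∨ mb b i j := tb_lor _ _ _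
theorem mb_xor (a b i j : ℕ) : mb (Nat.xor a b) i j ↔ ¬ (mb a i j ↔ mb b i j) := tb_xor _ _ _
theorem mb_an (a b i j : ℕ) : mb (an a b) i j ↔ mb a i j ∧ ¬ mb b i j := tb_an _ _ _
theorem mb_zero {a : ℕ} (h : a = 0) (i j : ℕ) : ¬ mb a i j := zero_bit h _

theorem mb_mulR {T : ℕ} (hT : T < 2 ^ 64) (i : ℕ) {j : ℕ} (hj : j < 64) :
    mb (Nat.mul T cR) i j ↔ i < 64 ∧ T.testBit j = true := by
  unfold mb; rw [e_mul, cR_eq]; exact mul_geo hT 64 i hj

theorem mb_cR (i : ℕ) {j : ℕ} (hj : j < 64) : mb cR i j ↔ i < 64 ∧ j = 0 := by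
  have := mb_mulR (T := 1) (by norm_num) i hj
  rw [e_mul, one_mul, ← pow_zero 2, ← pw_eq, tb_pw] at this; exact this

theorem mb_cH (i : ℕ) {j : ℕ} (hj : j < 64) : mb cH i j ↔ i < 64 ∧ j = 63 := by
  have := mb_mulR (T := 2 ^ 63) (by norm_num) i hj
  rw [e_mul, cR_eq, ← cH_eq, ← pw_eq, tb_pw] at this; exact this

theorem mb_cD (i : ℕ) {j : ℕ} (hj : j < 64) : mb cD i j ↔ i = j := by
  have := mul_geo (B := 1) (w := 65) (by norm_num) 64 ((64 * i + j) / 65) (j := (64 * i + j) % 65)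
    (Nat.mod_lt _ (by omega))
  rw [one_mul, Nat.div_add_mod, ← cD_eq, ← pow_zero 2, ← pw_eq, tb_pw] at this
  unfold mb; rw [this]; omega

theorem mb_dia {Q : ℕ} (hQ : Q < 2 ^ 64) (i : ℕ) {j : ℕ} (hj : j < 64) :
    mb (dia Q) i j ↔ i = j ∧ Q.testBit j = true := by
  unfold dia; rw [mb_land, mb_mulR hQ i hj, mb_cD i hj]
  exact ⟨fun h => ⟨h.2, h.1.2⟩, fun h => ⟨⟨by omega, h.2⟩, h.1⟩⟩

theorem mb_spr {T : ℕ} (hT : T < 2 ^ 63) (i : ℕ) {j : ℕ} (hj : j < 64) :
    mb (spr T) i j ↔ j = 0 ∧ T.testBit i = true := by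
  unfold spr
  rw [mb_land, mb_cR i hj]
  unfold mb
  rw [e_mul, cM_eq]
  by_cases h : i < 63
  · have := mul_geo hT 64 i h
    constructor
    · rintro ⟨a, -, rfl⟩
      rw [show 64 * i + 0 = 63 * i + i by omega, this] at a; exact ⟨rfl, a.2⟩
    · rintro ⟨rfl, a⟩
      rw [show 64 * i + 0 = 63 * i + i by omega, this]; exact ⟨⟨by omega, a⟩, by omega, rfl⟩
  · constructor
    · rintro ⟨a, b, rfl⟩
      rw [show 64 * i + 0 = 63 * 64 + 0 by omega, mul_geo hT 64 64 (by omega)] at a; omega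
    · rintro ⟨-, a⟩; exact absurd (bit_lt hT a) h

theorem mul_rows {x c : ℕ} (hx : ∀ i, ∀ j < 64, mb x i j → j = 0) (hc : c < 2 ^ 64) (i : ℕ) {j : ℕ}
    (hj : j < 64) : mb (Nat.mul x c) i j ↔ mb x i 0 ∧ c.testBit j = true := by
  induction i generalizing x with
  | zero =>
    have h1 : x % 2 ^ 64 < 2 ^ 1 := lt_of_bits (fun t ht => by
      rw [Nat.testBit_mod_two_pow] at ht
      simp only [Bool.and_eq_true, decide_eq_true_eq] at ht
      have := hx 0 t ht.1 (by simpa [mb] using ht.2); omega)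
    have h2 : x % 2 ^ 64 * c < 2 ^ 64 := by
      have : x % 2 ^ 64 * c ≤ 1 * c := Nat.mul_le_mul_right _ (by omega)
      omega
    unfold mb
    rw [e_mul, show x * c = 2 ^ 64 * (x / 2 ^ 64 * c) + x % 2 ^ 64 * c by
      rw [← mul_assoc, ← add_mul, Nat.div_add_mod], Nat.testBit_two_pow_mul_add _ h2, if_pos (by omega)]
    have h3 : x.testBit 0 = true ↔ x % 2 ^ 64 = 1 := by
      rw [Nat.testBit_zero]; simp only [decide_eq_true_eq]; omega
    simp only [mul_zero, zero_add, h3]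
    rcases (by omega : x % 2 ^ 64 = 0 ∨ x % 2 ^ 64 = 1) with e | e <;> rw [e] <;> simp
  | succ i ih =>
    have sh : ∀ y i j, mb (y / 2 ^ 64) i j ↔ mb y (i + 1) j := by
      intro y i j; unfold mb
      rw [Nat.testBit_div_two_pow, show 64 * i + j + 64 = 64 * (i + 1) + j by omega]
    have h1 : x % 2 ^ 64 < 2 ^ 1 := lt_of_bits (fun t ht => by
      rw [Nat.testBit_mod_two_pow] at ht
      simp only [Bool.and_eq_true, decide_eq_true_eq] at ht
      have := hx 0 t ht.1 (by simpa [mb] using ht.2); omega)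
    have h2 : x % 2 ^ 64 * c < 2 ^ 64 := by
      have : x % 2 ^ 64 * c ≤ 1 * c := Nat.mul_le_mul_right _ (by omega)
      omega
    rw [← sh x, ← ih (fun i j hj h => hx (i + 1) j hj ((sh x i j).1 h))]
    unfold mb
    rw [e_mul, e_mul, show x * c = 2 ^ 64 * (x / 2 ^ 64 * c) + x % 2 ^ 64 * c by
      rw [← mul_assoc, ← add_mul, Nat.div_add_mod], Nat.testBit_two_pow_mul_add _ h2, if_neg (by omega),
      show 64 * (i + 1) + j - 64 = 64 * i + j by omega]

theorem mb_out {T C : ℕ} (hT : T < 2 ^ 63) (hC : C < 2 ^ 64) (i : ℕ) {j : ℕ} (hj : j < 64) :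
    mb (Nat.mul (spr T) C) i j ↔ T.testBit i = true ∧ C.testBit j = true := by
  rw [mul_rows (fun i j hj h => ((mb_spr hT i hj).1 h).1) hC i hj, mb_spr hT i (by omega)]; simp

theorem mb_blk (A : ℕ) {T C : ℕ} (hT : T < 2 ^ 63) (hC : C < 2 ^ 64) (i : ℕ) {j : ℕ} (hj : j < 64) :
    mb (blk A T C) i j ↔ mb A i j ∧ T.testBit i = true ∧ C.testBit j = true := by
  unfold blk; rw [mb_land, mb_out hT hC i hj]

theorem mb_flag {T : ℕ} (hT : T < 2 ^ 63) (i : ℕ) {j : ℕ} (hj : j < 64) :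
    mb (Nat.shiftLeft (spr T) 63) i j ↔ j = 63 ∧ T.testBit i = true := by
  unfold mb
  rw [tb_shl]
  by_cases e : j = 63
  · subst e
    have := mb_spr hT i (j := 0) (by omega)
    unfold mb at this
    rw [show 64 * i + 63 - 63 = 64 * i + 0 by omega, this]; simp
  · constructor
    · rintro ⟨a, b⟩
      have := (mb_spr hT (i - 1) (j := j + 1) (by omega)).1 (by
        unfold mb; rwa [show 64 * (i - 1) + (j + 1) = 64 * i + j - 63 by omega])
      omega
    · exact fun h => absurd h.1 e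

theorem cpr_spec {Y : ℕ} (h : cprV Y = 0) (i : ℕ) : (cpr Y).testBit i = true ↔ mb Y i 63 := by
  have hl : cpr Y < 2 ^ 63 := lt_trans (Nat.mod_lt _ (by norm_num)) (by norm_num)
  conv_rhs => rw [← xor_zero' h]
  rw [mb_flag hl i (by omega)]; simp

/-- full row -/
def r64 (X i : ℕ) : ℕ := X / 2 ^ (64 * i) % 2 ^ 64

theorem tb_r64 (X i j : ℕ) : (r64 X i).testBit j = true ↔ j < 64 ∧ mb X i j := by
  unfold r64 mb
  rw [Nat.testBit_mod_two_pow, Nat.testBit_div_two_pow, add_comm j]; simp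

theorem r64_succ (X i : ℕ) : r64 X (i + 1) = r64 (X / 2 ^ 64) i := by
  unfold r64; rw [Nat.div_div_eq_div_mul, ← pow_add, show 64 + 64 * i = 64 * (i + 1) by omega]

theorem r64_zero (X : ℕ) : r64 X 0 = X % 2 ^ 64 := by simp [r64]

theorem add_rows {k : ℕ} (i : ℕ) : ∀ m X, i < m → (∀ t, r64 X t + k < 2 ^ 64) →
    r64 (X + k * geo 64 m) i = r64 X i + k := by
  induction i with
  | zero =>
    intro m X hm h
    obtain ⟨m, rfl⟩ : ∃ m', m = m' + 1 := ⟨m - 1, by omega⟩
    have := h 0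
    rw [r64_zero] at *
    rw [r64_zero, geo, mul_add, mul_left_comm]
    generalize k * geo 64 m = g
    omega
  | succ i ih =>
    intro m X hm h
    obtain ⟨m, rfl⟩ : ∃ m', m = m' + 1 := ⟨m - 1, by omega⟩
    have := h 0
    rw [r64_zero] at this
    rw [r64_succ, r64_succ, ← ih m _ (by omega) (fun t => by rw [← r64_succ]; exact h _)]
    congr 1
    rw [geo, mul_add, mul_left_comm]
    generalize k * geo 64 m = g
    omega

theorem geo_le : ∀ m X, (∀ t < m, 1 ≤ r64 X t) → geo 64 m ≤ X := by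
  intro m
  induction m with
  | zero => intro X _; simp [geo]
  | succ m ih =>
    intro X h
    have a := ih (X / 2 ^ 64) (fun t ht => by rw [← r64_succ]; exact h _ (by omega))
    have b := h 0 (by omega)
    rw [r64_zero] at b
    rw [geo]; omega

theorem sub_rows (i : ℕ) : ∀ m X, i < m → (∀ t < m, 1 ≤ r64 X t) →
    r64 (X - geo 64 m) i = r64 X i - 1 := by
  induction i with
  | zero =>
    intro m X hm h
    obtain ⟨m, rfl⟩ : ∃ m', m = m' + 1 := ⟨m - 1, by omega⟩
    have a := geo_le m (X / 2 ^ 64) (fun t ht => by rw [← r64_succ]; exact h _ (by omega))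
    have b := h 0 (by omega)
    rw [r64_zero] at *
    rw [r64_zero, geo]; omega
  | succ i ih =>
    intro m X hm h
    obtain ⟨m, rfl⟩ : ∃ m', m = m' + 1 := ⟨m - 1, by omega⟩
    have a := geo_le m (X / 2 ^ 64) (fun t ht => by rw [← r64_succ]; exact h _ (by omega))
    have b := h 0 (by omega)
    rw [r64_zero] at b
    rw [r64_succ, r64_succ, ← ih m _ (by omega) (fun t ht => by rw [← r64_succ]; exact h _ (by omega))]
    congr 1
    rw [geo]; omega

/-- a matrix with 64 rows and a free top column -/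
def Mx (X : ℕ) : Prop := ∀ i, ∀ j < 64, mb X i j → i < 64 ∧ j < 63

theorem Mx.mono {X Y : ℕ} (h : Mx X) (s : ∀ i j, mb Y i j → mb X i j) : Mx Y :=
  fun i j hj e => h i j hj (s i j e)

theorem row_lt (X i : ℕ) : row X i < 2 ^ 63 := Nat.mod_lt _ (by norm_num)

theorem Mx.r64 {X : ℕ} (h : Mx X) (i : ℕ) : r64 X i = row X i := by
  apply Nat.eq_of_testBit_eq
  intro j
  rw [Bool.eq_iff_iff, tb_r64, tb_row]
  exact ⟨fun e => ⟨(h i j e.1 e.2).2, e.2⟩, fun e => ⟨by omega, e.2⟩⟩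

theorem row_ne {X i : ℕ} : row X i ≠ 0 ↔ ∃ j < 63, mb X i j := by
  constructor
  · intro h
    obtain ⟨j, hj⟩ := Nat.exists_testBit_of_ne_zero h
    exact ⟨j, (tb_row _ _ _).1 hj⟩
  · rintro ⟨j, hj⟩ e; exact zero_bit e j ((tb_row _ _ _).2 hj)

theorem mb_addK {X : ℕ} (h : Mx X) {i : ℕ} (hi : i < 64) : mb (Nat.add X cK) i 63 ↔ row X i ≠ 0 := by
  have a := add_rows (k := 2 ^ 63 - 1) i 64 X hi (fun t => by
    have := row_lt X t; rw [h.r64]; omega)
  have b := tb_r64 (X + (2 ^ 63 - 1) * geo 64 64) i 63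
  rw [a, h.r64, Nat.testBit_eq_decide_div_mod_eq] at b
  rw [e_add, cK_eq]
  have := row_lt X i
  simp only [decide_eq_true_eq, Nat.lt_add_one, true_and] at b
  rw [← b]; omega

theorem mb_nzR {X : ℕ} (h : Mx X) (i : ℕ) {j : ℕ} (hj : j < 64) :
    mb (nzR X) i j ↔ j = 63 ∧ row X i ≠ 0 := by
  unfold nzR
  rw [mb_land, mb_cH i hj]
  constructor
  · rintro ⟨a, b, rfl⟩; exact ⟨rfl, (mb_addK h b).1 a⟩
  · rintro ⟨rfl, a⟩
    obtain ⟨j, hj, e⟩ := row_ne.1 a
    have := (h i j (by omega) e).1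
    exact ⟨(mb_addK h this).2 a, this, rfl⟩

theorem clR_sub {X i j : ℕ} (h : mb (clR X) i j) : mb X i j := ((mb_land _ _ _ _).1 h).2

theorem Mx.clR {X : ℕ} (h : Mx X) : Mx (clR X) := h.mono (fun _ _ => clR_sub)

theorem row_clR {X : ℕ} (h : Mx X) (i : ℕ) : row (clR X) i = clr (row X i) := by
  have key : ∀ t < 64, r64 (Nat.lor X cH) t = 2 ^ 63 + row X t := by
    intro t ht
    apply Nat.eq_of_testBit_eq
    intro j
    have := Nat.testBit_two_pow_mul_add 1 (row_lt X t) j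
    rw [mul_one] at this
    rw [this, Bool.eq_iff_iff, tb_r64, mb_lor]
    by_cases a : j < 63
    · rw [if_pos a, tb_row, mb_cH t (by omega)]
      constructor
      · rintro ⟨-, r | r⟩
        · exact ⟨a, r⟩
        · omega
      · exact fun r => ⟨by omega, Or.inl r.2⟩
    · rw [if_neg a, ← pow_zero 2, ← pw_eq, tb_pw]
      constructor
      · intro r; omega
      · intro r; exact ⟨by omega, Or.inr ((mb_cH t (by omega)).2 ⟨ht, by omega⟩)⟩
  apply Nat.eq_of_testBit_eq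
  intro j
  rw [Bool.eq_iff_iff, tb_row]
  unfold clR clr
  rw [mb_land, tb_land, tb_row]
  by_cases a : j < 63 ∧ mb X i j
  · have hi := (h i j (by omega) a.2).1
    have b := sub_rows i 64 (Nat.lor X cH) hi (fun t ht => by rw [key t ht]; omega)
    have c := tb_r64 (Nat.lor X cH - geo 64 64) i j
    have d : row X i ≠ 0 := row_ne.2 ⟨j, a⟩
    have e := Nat.testBit_two_pow_mul_add 1 (b := row X i - 1) (i := 63) (by have := row_lt X i; omega) j
    rw [b, key i hi, show 2 ^ 63 + row X i - 1 = 2 ^ 63 * 1 + (row X i - 1) by omega, e, if_pos a.1] at c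
    rw [e_sub, e_sub, cR_eq, c]
    exact ⟨fun r => ⟨a, ⟨by omega, r.2.1⟩⟩, fun r => ⟨a.1, r.2.2, a.2⟩⟩
  · exact ⟨fun r => absurd ⟨r.1, r.2.2⟩ a, fun r => absurd r.1 a⟩

theorem tb_FULL (j : ℕ) : (18446744073709551615 : ℕ).testBit j = true ↔ j < 64 := tb_full 64 j

theorem colV_spec {A B0 B1 : ℕ} (hA : Mx A) (h0 : B0 < 2 ^ 63) (h1 : B1 < 2 ^ 63)
    (h : colV A B0 B1 cH = 0) :
    (∀ i, ∀ j < 64, mb A i j → ¬ ((B0.testBit i = true ↔ B0.testBit j = true) ∧
      (B1.testBit i = true ↔ B1.testBit j = true))) ∧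
    ∀ i < 64, ((∃ j < 63, mb A i j ∧ ¬ B0.testBit j = true ∧ ¬ B1.testBit j = true) ↔
        ∃ j < 63, mb A i j ∧ B0.testBit j = true ∧ ¬ B1.testBit j = true) ↔
      ((∃ j < 63, mb A i j ∧ ¬ B0.testBit j = true ∧ B1.testBit j = true) ↔
        ∃ j < 63, mb A i j ∧ B0.testBit j = true ∧ B1.testBit j = true) := by
  unfold colV at h
  rw [e_add, Nat.add_eq_zero_iff] at h
  have p0 := fun i j hj => mb_mulR (T := B0) (by omega) i (j := j) hj
  have p1 := fun i j hj => mb_mulR (T := B1) (by omega) i (j := j) hj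
  refine ⟨fun i j hj e => ?_, fun i hi => ?_⟩
  · have := mb_zero h.1 i j
    have hi := (hA i j hj e).1
    rw [mb_an, mb_lor, mb_xor, mb_xor, p0 i j hj, p1 i j hj, mb_out h0 (by norm_num) i hj,
      mb_out h1 (by norm_num) i hj, tb_FULL] at this
    tauto
  · have := mb_zero h.2 i 63
    rw [mb_land, mb_cH i (by omega), mb_xor, mb_xor, mb_xor, mb_addK _ hi, mb_addK _ hi, mb_addK _ hi,
      mb_addK _ hi] at this
    · have t : ∀ (a b c d : Prop), ¬ ¬ (¬ (a ↔ b) ↔ ¬ (c ↔ d)) → ((a ↔ b) ↔ (c ↔ d)) := by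
        intro a b c d; clear * - a b c d; tauto
      have := t _ _ _ _ (fun r => this ⟨r, hi, rfl⟩)
      rw [row_ne, row_ne, row_ne, row_ne] at this
      refine Iff.trans (iff_congr ?_ ?_) (this.trans (iff_congr ?_ ?_)) <;>
        refine exists_congr (fun j => and_congr_right (fun hj => ?_)) <;>
        have q0 := p0 i j (by omega) <;> have q1 := p1 i j (by omega) <;>
        simp only [mb_xor, mb_lor, mb_land, q0, q1, hi, true_and] <;>
        generalize mb A i j = a <;> generalize (B0.testBit j = true) = b <;>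
        generalize (B1.testBit j = true) = c <;> clear * - a b c <;> tauto
    all_goals
      refine hA.mono (fun i j e => ?_)
      simp only [mb_xor, mb_lor, mb_land] at e
      tauto

end Pool.Agent.Hom2.Sc
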