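import Pool.Agent.Lib.MP_7e4769_co.Hc.Bits
import Pool.Agent.Lib.MP_7e4769_co.Hc.LemW
import Pool.Agent.Lib.MP_7e4769_co.Hc.S2
import Pool.Agent.Lib.MP_7e4769_co.Hc.Cyc

set_option autoImplicit false

namespace Pool.Agent.Hom2

variable {V : Type}

/-- conclusion of a fact of kind `kd`; `h`, `p` only matter for kind 2 -/
def Goal (N1 kd : ℕ) (G : SimpleGraph V) (X : Finset V) (h p : V) : Prop :=
  Good G X ∨ (kd = 1 ∧ Unc G X) ∨ (kd = 2 ∧ (GoodF G X h ∨ (Single G X h p ∧ Unc G X))) ∨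
    (kd = 3 ∧ ∃ L z, L % 2 = 0 ∧ L ≤ N1 ∧ Cyc G X L z)

/-- side condition of kind `kd` -/
def Side (kd n : ℕ) (G : SimpleGraph V) (X : Finset V) (h p : V) (ph : ℕ → V) : Prop :=
  (kd = 1 → Closed G X) ∧ (kd = 2 → 0 < n ∧ ph 0 = p ∧ Port G X h p)

/-- the table entry `e` holds in `(G, X)` -/
def Holds (N1 e : ℕ) (G : SimpleGraph V) (X : Finset V) : Prop :=
  ∀ h p ph nu, Emb G X (eN e) (sl (eR e)) ph nu → Side (eK e) (eN e) G X h p ph →
    Goal N1 (eK e) G X h p

/-- what a run may assume -/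
structure Ctx (db : DB) (N1 nf f : ℕ) (G : SimpleGraph V) (X : Finset V) : Prop where
  cub : Cub G X
  two : TwoEC G X
  same : ∀ g < f, Holds N1 (db.get g) G X
  small : ∀ (G' : SimpleGraph V) (X' : Finset V), X'.card < X.card → Cub G' X' → TwoEC G' X' →
    ∀ g < nf, Holds N1 (db.get g) G' X'
  ff : ∀ W ⊆ X, W ≠ X → TwoEC G W → FF G W

/-- meaning of the witness part: `Y` remainder, `H` bad core, `W` its block -/
structure WSem (G : SimpleGraph V) (X : Finset V) (n : ℕ) (ph : ℕ → V) (w : Ws)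
    (Y W H : Finset V) (a b : V) : Prop where
  rng : ∀ i, tb w.sk i = true → i < n
  rem : ∀ v, v ∈ Y ↔ v ∈ X ∧ ∀ i, tb w.sk i = true → v ≠ ph i
  cl : ∀ y ∈ Y, ∀ i, tb w.K i = true → ¬ G.Adj y (ph i)
  sub : W ⊆ H
  subY : H ⊆ Y
  card : W.card < X.card
  bad : W.Nonempty → TwoEC G W ∧ ¬ Good G W
  leaf : ∀ y ∈ H, y ∉ W → (∀ u ∈ Y, G.Adj y u → u ∈ W) ∧
    ∀ u ∈ Y, ∀ u' ∈ Y, G.Adj y u → G.Adj y u' → u = u'
  only : Only G Y H a b
  dead : ∀ s, tb w.D s = true → s < n ∧ ∀ y ∈ H, ¬ G.Adj y (ph s)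
  inW : ∀ i, tb w.W i = true → i < n ∧ ph i ∈ W
  inL : ∀ i, tb w.L i = true → i < n ∧ ph i ∈ H ∧ ph i ∉ W
  fr : w.fr ≠ 0 → frI w.fr < n ∧ frJ w.fr < n ∧ ph (frI w.fr) = a ∧ ph (frJ w.fr) = b ∧ b ∉ H

/-- a state is realised in `(G, X)` -/
def Sem (kd : ℕ) (G : SimpleGraph V) (X : Finset V) (h p : V) (n R : ℕ) (w : Ws) : Prop :=
  n ≤ 62 ∧ ∃ ph nu Y W H a b, Emb G X n (sl R) ph nu ∧ Side kd n G X h p ph ∧ WSem G X n ph w Y W H a b

def RecOK (N1 kd : ℕ) (G : SimpleGraph V) (X : Finset V) (h p : V) (rec : Rec) : Prop :=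
  ∀ n R w B, rec n R w B ≠ 0 → Sem kd G X h p n R w → Goal N1 kd G X h p

variable {G : SimpleGraph V} {X : Finset V} {n R : ℕ} {ph : ℕ → V} {nu : ℕ → ℕ → V}

theorem WSem.no (hX : X.Nonempty) (a : V) : WSem G X n ph Ws.no X ∅ ∅ a a := by
  constructor <;> simp [Ws.no, Ws.sk, Only, hX]

theorem TwoEC.nonempty (h : TwoEC G X) : X.Nonempty := by
  obtain ⟨a, ha, -⟩ := h.1; exact ⟨a, ha⟩

section
variable {s : ℕ → ℕ → ℕ}

theorem Emb.adj (h : Emb G X n s ph nu) {i k : ℕ} (hi : i < n) (hk : k < 3) : G.Adj (ph i) (nu i k) := by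
  have := h.nb i hi
  interval_cases k
  · exact this.adj1
  · exact this.adj2
  · exact this.adj3

theorem Emb.slot (h : Emb G X n s ph nu) {i : ℕ} (hi : i < n) {x : V} (hx : G.Adj (ph i) x) :
    ∃ k < 3, nu i k = x := by
  rcases (h.nb i hi).cases hx with r | r | r
  · exact ⟨0, by omega, r.symm⟩
  · exact ⟨1, by omega, r.symm⟩
  · exact ⟨2, by omega, r.symm⟩

theorem Emb.ninj (h : Emb G X n s ph nu) {i k k' : ℕ} (hi : i < n) (hk : k < 3) (hk' : k' < 3)
    (e : nu i k = nu i k') : k = k' := by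
  obtain ⟨a, b, c, -⟩ := h.nb i hi
  interval_cases k <;> interval_cases k' <;> simp_all

theorem Emb.adj_of_code (h : Emb G X n s ph nu) {i k y : ℕ} (hi : i < n) (hk : k < 3)
    (e : s i k = y + 2) : y < n ∧ G.Adj (ph i) (ph y) := by
  obtain ⟨a, b⟩ := h.edge i hi k hk y e
  exact ⟨a, b ▸ h.adj hi hk⟩

/-- exchange two open half-edges -/
theorem Emb.swap (h : Emb G X n s ph nu) {i k k' : ℕ} (hi : i < n) (hk : k < 3) (hk' : k' < 3)
    (e : s i k = 0) (e' : s i k' = 0) :
    ∃ nu', Emb G X n s ph nu' ∧ nu' i k = nu i k' ∧ ∀ j, j ≠ i → ∀ t, nu' j t = nu j t := by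
  by_cases kk : k = k'
  · exact ⟨nu, h, by rw [kk], fun _ _ _ => rfl⟩
  refine ⟨fun j t => if j = i then nu j (Equiv.swap k k' t) else nu j t,
    ⟨h.mem, h.inj, fun j hj => ?_, fun j hj t ht c => ?_, fun j hj t ht y c => ?_⟩, by simp,
    fun j hj t => by simp [hj]⟩
  · by_cases a : j = i
    · subst a
      have := h.nb j hj
      simp only [if_true]
      interval_cases k <;> interval_cases k' <;>
        first
          | exact absurd rfl kk
          | exact this.sw1
          | exact this.sw2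
          | exact this.sw1.sw2.sw1
    · simpa [a] using h.nb j hj
  · by_cases a : j = i
    · subst a
      have h1 : t ≠ k := fun r => by rw [r, e] at c; omega
      have h2 : t ≠ k' := fun r => by rw [r, e'] at c; omega
      simpa [Equiv.swap_apply_of_ne_of_ne h1 h2] using h.stub j hj t ht c
    · simpa [a] using h.stub j hj t ht c
  · by_cases a : j = i
    · subst a
      have h1 : t ≠ k := fun r => by rw [r, e] at c; omega
      have h2 : t ≠ k' := fun r => by rw [r, e'] at c; omega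
      simpa [Equiv.swap_apply_of_ne_of_ne h1 h2] using h.edge j hj t ht y c
    · simpa [a] using h.edge j hj t ht y c

end

theorem Emb.put (h : Emb G X n (sl R) ph nu) {i k c : ℕ} (hk : k < 3) (hc : c < 64)
    (h0 : sl R i k = 0) (h1 : i < n → c = 1 → nu i k ∉ X)
    (h2 : i < n → ∀ y, c = y + 2 → y < n ∧ nu i k = ph y) : Emb G X n (sl (put R i k c)) ph nu := by
  refine ⟨h.mem, h.inj, h.nb, fun j hj t ht e => ?_, fun j hj t ht y e => ?_⟩
  · rw [sl_put hc hk h0 j t ht] at e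
    split_ifs at e with a
    · obtain ⟨rfl, rfl⟩ := a; exact h1 hj e
    · exact h.stub j hj t ht e
  · rw [sl_put hc hk h0 j t ht] at e
    split_ifs at e with a
    · obtain ⟨rfl, rfl⟩ := a; exact h2 hj y e
    · exact h.edge j hj t ht y e

theorem stubC_sound {kd i k B : ℕ} {go : ℕ → ℕ → ℕ} (hs : stubC kd R i k go B ≠ 0)
    (h : Emb G X n (sl R) ph nu) (hcl : kd = 1 → Closed G X) (hi : i < n) (hk : k < 3)
    (h0 : sl R i k = 0) (hx : nu i k ∉ X) : ∃ R' B', go R' B' ≠ 0 ∧ Emb G X n (sl R') ph nu := by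
  unfold stubC at hs
  by_cases a : kd = 1
  · exact absurd (hcl a _ (h.mem i hi) _ (h.adj hi hk)) hx
  · rw [(beq_false _ _).2 a, cond_false, fz_eq] at hs
    exact ⟨_, _, hs, h.put hk (by omega) h0 (fun _ _ => hx) (fun _ y e => by omega)⟩

theorem link_sound {i k j B : ℕ} {go : ℕ → ℕ → ℕ} (hs : link R i k j go B ≠ 0) (hn : n ≤ 62)
    (h : Emb G X n (sl R) ph nu) (hi : i < n) (hk : k < 3) (hj : j < n)
    (h0 : sl R i k = 0) (hx : nu i k = ph j) :
    ∃ R' B' nu', go R' B' ≠ 0 ∧ Emb G X n (sl R') ph nu' := by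
  have adj : G.Adj (ph i) (ph j) := hx ▸ h.adj hi hk
  have ij : i ≠ j := fun e => adj.ne (e ▸ rfl)
  have l1 : lists R i j = false := by
    rw [← Bool.not_eq_true, lists_iff]
    rintro ⟨t, ht, e⟩
    have := h.ninj hi ht hk ((h.edge i hi t ht j e).2.trans hx.symm)
    rw [this, h0] at e; omega
  unfold link at hs
  rw [(beq_false _ _).2 ij, l1, Bool.false_or, cond_false] at hs
  have l2 : lists R j i = false := by
    by_contra e
    rw [Bool.not_eq_false] at e
    simp [e] at hs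
  rw [l2, cond_false, fz_eq] at hs
  obtain ⟨t, ht, e⟩ := h.slot hj adj.symm
  have t0 : sl R j t = 0 := by
    rcases Nat.lt_or_ge (sl R j t) 2 with a | a
    · by_contra b
      exact h.stub j hj t ht (by omega) (e ▸ h.mem i hi)
    · obtain ⟨y1, y2⟩ := h.edge j hj t ht (sl R j t - 2) (by omega)
      have := h.inj _ y1 _ hi (y2.symm.trans e)
      rw [← Bool.not_eq_true, lists_iff] at l2
      exact absurd ⟨t, ht, by omega⟩ l2
  obtain ⟨f1, f2⟩ := fo_spec ht t0
  rw [(beq_false _ _).2 (by omega), cond_false, fz_eq] at hs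
  simp only [Nat.add_eq] at hs
  obtain ⟨nu', g1, g2, g3⟩ := h.swap hj f1 ht f2 t0
  refine ⟨_, _, nu', hs, Emb.put (g1.put hk (show j + 2 < 64 by omega) h0 (fun _ r => by omega)
    (fun _ y r => ?_)) f1 (show i + 2 < 64 by omega) ?_ (fun _ r => by omega) (fun _ y r => ?_)⟩
  · obtain rfl : y = j := by omega
    exact ⟨hj, (g3 i ij k).trans hx⟩
  · rw [sl_put (show j + 2 < 64 by omega) hk h0 _ _ f1, if_neg (fun r => ij r.1.symm), f2]
  · obtain rfl : y = i := by omega
    exact ⟨hi, g2.trans e⟩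

theorem newC_sound {i k B : ℕ} {go : ℕ → ℕ → ℕ} (hs : newC n R i k go B ≠ 0) (hc : Cub G X)
    (h : Emb G X n (sl R) ph nu) (hi : i < n) (hk : k < 3)
    (h0 : sl R i k = 0) (hx : nu i k ∈ X) (hnew : ∀ j < n, ph j ≠ nu i k) :
    ∃ R' B' ph' nu', go R' B' ≠ 0 ∧ n + 1 ≤ 62 ∧ Emb G X (n + 1) (sl R') ph' nu' ∧
      ph' n = nu i k ∧ ∀ j < n, ph' j = ph j := by
  unfold newC at hs
  obtain ⟨h1, h2⟩ := cond_ne hs
  simp only [Bool.and_eq_true, lt_iff, Nat.beq_eq] at h1
  simp only [fz_eq, Nat.add_eq] at h2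
  obtain ⟨y, z, hb⟩ := hc.first hx (h.adj hi hk).symm
  have hz := sl_high h1.2
  have E : Emb G X (n + 1) (sl R) (fun j => if j = n then nu i k else ph j)
      (fun j t => if j = n then (if t = 0 then ph i else if t = 1 then y else z) else nu j t) := by
    refine ⟨fun j hj => ?_, fun j hj j' hj' e => ?_, fun j hj => ?_, fun j hj t ht e => ?_,
      fun j hj t ht u e => ?_⟩
    · split_ifs
      · exact hx
      · exact h.mem j (by omega)
    · split_ifs at e with a b b
      · omega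
      · exact absurd e.symm (hnew _ (by omega))
      · exact absurd e (hnew _ (by omega))
      · exact h.inj j (by omega) j' (by omega) e
    · by_cases a : j = n
      · simpa [a] using hb
      · simpa [a] using h.nb j (by omega)
    · by_cases a : j = n
      · rw [a, hz] at e; omega
      · simpa [a] using h.stub j (by omega) t ht e
    · by_cases a : j = n
      · rw [a, hz] at e; omega
      · obtain ⟨r1, r2⟩ := h.edge j (by omega) t ht u e
        exact ⟨by omega, by simp [a, r2, r1.ne]⟩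
  refine ⟨_, _, _, _, h2, by omega, Emb.put (E.put hk (show n + 2 < 64 by omega) h0
    (fun _ r => by omega) (fun _ u r => ?_)) (by omega) (show i + 2 < 64 by omega) ?_
    (fun _ r => by omega) (fun _ u r => ?_), by simp, fun j hj => by simp [hj.ne]⟩
  · obtain rfl : u = n := by omega
    exact ⟨by omega, by simp [hi.ne]⟩
  · rw [sl_put (show n + 2 < 64 by omega) hk h0 _ _ (by omega), if_neg (by omega), hz]
  · obtain rfl : u = i := by omega
    exact ⟨by omega, by simp [hi.ne]⟩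

theorem Side.grow {kd : ℕ} {h p : V} {ph' : ℕ → V} (s : Side kd n G X h p ph)
    (e : ∀ j < n, ph' j = ph j) : Side kd (n + 1) G X h p ph' :=
  ⟨s.1, fun r => ⟨by omega, (e 0 (s.2 r).1).trans (s.2 r).2.1, (s.2 r).2.2⟩⟩

theorem tb_sk (w : Ws) (i : ℕ) : tb w.sk i = (tb w.S i || tb w.K i) := tb_lor _ _ _

theorem WSem.grow {w : Ws} {Y W H : Finset V} {a b : V} {ph' : ℕ → V}
    (s : WSem G X n ph w Y W H a b) (e : ∀ j < n, ph' j = ph j) :
    WSem G X (n + 1) ph' w Y W H a b := by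
  refine ⟨fun i hi => by have := s.rng i hi; omega, fun v => ?_, fun y hy i hi => ?_, s.sub, s.subY,
    s.card, s.bad, s.leaf, s.only, fun t ht => ?_, fun i hi => ?_, fun i hi => ?_, fun r => ?_⟩
  · rw [s.rem]
    exact and_congr_right fun _ => forall_congr' fun i => forall_congr' fun hi => by
      rw [e i (s.rng i hi)]
  · rw [e i (s.rng i (by simp [tb_sk, hi]))]; exact s.cl y hy i hi
  · obtain ⟨r1, r2⟩ := s.dead t ht
    exact ⟨by omega, by rw [e t r1]; exact r2⟩
  · obtain ⟨r1, r2⟩ := s.inW i hi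
    exact ⟨by omega, by rw [e i r1]; exact r2⟩
  · obtain ⟨r1, r2⟩ := s.inL i hi
    exact ⟨by omega, by rw [e i r1]; exact r2⟩
  · obtain ⟨r1, r2, r3⟩ := s.fr r
    exact ⟨by omega, by omega, by rw [e _ r1, e _ r2]; exact r3⟩

theorem embChk_sound {n0 R0 M : ℕ} {al : ℕ → Bool} {cls : ℕ → ℕ → ℕ} {Z : Finset V}
    (hc : embChk n0 R0 M al cls = true)
    (mem : ∀ i, al i = true → ph i ∈ Z)
    (inj : ∀ i j, al i = true → al j = true → ph i = ph j → i = j)
    (nb : ∀ i, al i = true → Nb G (ph i) (nu i 0) (nu i 1) (nu i 2))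
    (stub : ∀ i, al i = true → ∀ k < 3, cls i k = 1 → nu i k ∉ Z)
    (edge : ∀ i, al i = true → ∀ k < 3, ∀ y, cls i k = y + 2 → nu i k = ph y) :
    (∀ i < n0, al (mv M i) = true) ∧
    Emb G Z n0 (sl R0) (fun i => ph (mv M i)) (fun i k => nu (mv M i) (prm (mp M i) k)) := by
  simp only [embChk, Bool.and_eq_true, ne_iff, allLt_iff, fzb_eq, all3_iff] at hc
  obtain ⟨h1, h2⟩ := hc
  have pl : ∀ i, mp M i < 8 := fun i => Nat.mod_lt _ (by omega)
  have pk : ∀ i, ∀ k < 3, prm (mp M i) k < 3 := fun i k hk => by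
    obtain ⟨a, b, c, -⟩ := prm_spec _ (pl i)
    interval_cases k <;> assumption
  refine ⟨fun i hi => (h2 i hi).1, fun i hi => mem _ (h2 i hi).1, fun i hi j hj e => ?_,
    fun i hi => ?_, fun i hi k hk e => ?_, fun i hi k hk y e => ?_⟩
  · exact (injM_spec h1).1 i hi j hj (inj _ _ (h2 i hi).1 (h2 j hj).1 e)
  · have := nb _ (h2 i hi).1
    obtain ⟨a, b, c, d, e, f⟩ := prm_spec _ (pl i)
    generalize prm (mp M i) 0 = x at *
    generalize prm (mp M i) 1 = y at *
    generalize prm (mp M i) 2 = z at *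
    interval_cases x <;> interval_cases y <;> interval_cases z <;>
      first
        | omega
        | exact this
        | exact this.sw1
        | exact this.sw2
        | exact this.sw1.sw2
        | exact this.sw2.sw1
        | exact this.sw1.sw2.sw1
  · have := (h2 i hi).2 k hk
    rw [e] at this
    exact stub _ (h2 i hi).1 _ (pk i k hk) (by simpa using this)
  · have := (h2 i hi).2 k hk
    rw [e, (beq_false _ _).2 (by omega), (beq_false _ _).2 (by omega)] at this
    simp only [cond_false, Bool.and_eq_true, lt_iff, Nat.beq_eq] at this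
    exact ⟨this.1, edge _ (h2 i hi).1 _ (pk i k hk) _ this.2⟩

end Pool.Agent.Hom2
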