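import Pool.Agent.Lib.MP_7e4769_co.Hc.PD2
import Pool.Agent.Lib.MP_7e4769_co.Hc.TMk

set_option autoImplicit false

namespace Pool.Agent.Hom2

variable {V : Type} {G : SimpleGraph V} {X : Finset V}

/-- a four-cycle with three ports is the whole graph -/
theorem c4_ports (hc : Cub G X) (h2 : TwoEC G X) {w u p q : V} (hm : ∀ v ∈ [w, u, p, q], v ∈ X)
    (hn : [w, u, p, q].Nodup) (a1 : G.Adj w u) (a2 : G.Adj u p) (a3 : G.Adj p q) (a4 : G.Adj q w)
    (s1 : ∃ y, y ∉ X ∧ G.Adj u y) (s2 : ∃ y, y ∉ X ∧ G.Adj p y) (s3 : ∃ y, y ∉ X ∧ G.Adj q y) :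
    TG G X :=
  ((SE.ofList (n := 4) (R := 76165180570598900035) [w, u, p, q] w [(0, 1), (1, 2), (2, 3), (3, 0)]
    [1, 2, 3] rfl (by decide +kernel) hm hn (by simp [a1, a2, a3, a4]) (by simp [s1, s2, s3])).close
    hc h2 (o := 0) (by decide +kernel)).leaf hc h2.conn (B := 648) (by decide +kernel)

/-- two adjacent ports are reducible -/
theorem T2 [DecidableEq V] (hc : Cub G X) (h2 : TwoEC G X) (ih : TBelow V X.card) {p q s t : V}
    (mp : p ∈ X) (mq : q ∈ X) (pq : G.Adj p q) (ms : s ∉ X) (ps : G.Adj p s) (mt : t ∉ X)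
    (qt : G.Adj q t) : TG G X := by
  obtain ⟨u, np⟩ := hc.second mp pq ps (fun e => ms (e ▸ mq))
  obtain ⟨w, nq⟩ := hc.second mq pq.symm qt (fun e => mt (e ▸ mp))
  have mu := h2.deg2 mp np ms
  have mw := h2.deg2 mq nq mt
  have s2 : ∃ y, y ∉ X ∧ G.Adj p y := ⟨s, ms, ps⟩
  have s3 : ∃ y, y ∉ X ∧ G.Adj q y := ⟨t, mt, qt⟩
  have up := np.adj3.symm
  have qw := nq.adj3
  have d1 := up.ne
  have d2 := pq.ne
  have d3 := qw.ne'
  have d4 : u ≠ q := np.2.1.symm
  have d5 : w ≠ p := nq.2.1.symm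
  by_cases e : u = w
  · subst e
    exact ((SE.ofList (n := 3) (R := 290478369538307) [u, p, q] u [(0, 1), (1, 2), (2, 0)] [1, 2] rfl
      (by decide +kernel) (by simp [mu, mp, mq]) (by simp [d1, d2, d4]) (by simp [up, pq, qw])
      (by simp [s2, s3])).close hc h2 (o := 0) (by decide +kernel)).leaf hc h2.conn (B := 69222415)
      (by decide +kernel)
  by_cases a : G.Adj u w
  swap
  · exact poleT2 hc h2 ih (SE.ofList (n := 4) [u, w, p, q] u [(0, 2), (2, 3), (3, 1)] [2, 3] rfl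
      (by decide +kernel) (by simp [mu, mp, mq, mw]) (by simp [e, d1, d2, d3, d4, d5])
      (by simp [up, pq, qw]) (by simp [s2, s3])) a
  obtain ⟨x, nu⟩ := hc.second mu up a d5.symm
  obtain ⟨y, nw⟩ := hc.second mw qw.symm a.symm d4.symm
  by_cases mx : x ∈ X
  swap
  · exact c4_ports hc h2 (by simp [mu, mp, mq, mw]) (by simp [Ne.symm e, d1, d2, d3, d4, d5])
      a.symm up pq qw ⟨x, mx, nu.adj3⟩ s2 s3
  by_cases my : y ∈ X
  swap
  · exact c4_ports hc h2 (by simp [mu, mp, mq, mw]) (by simp [e, d1, d2.symm, d3, d4, d5])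
      a qw.symm pq.symm up.symm ⟨y, my, nw.adj3⟩ s3 s2
  have xu := nu.adj3.symm
  have yw := nw.adj3.symm
  have f1 := xu.ne
  have f2 : x ≠ w := nu.2.2.1.symm
  have f3 : x ≠ p := nu.2.1.symm
  have f4 : x ≠ q := fun r => by
    rcases nq.cases (r ▸ xu) with z | z | z
    · exact d1 z
    · exact mt (z ▸ mu)
    · exact e z
  have g1 := yw.ne
  have g2 : y ≠ u := nw.2.2.1.symm
  have g3 : y ≠ q := nw.2.1.symm
  have g4 : y ≠ p := fun r => by
    rcases np.cases (r ▸ yw) with z | z | z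
    · exact d3 z
    · exact ms (z ▸ mw)
    · exact e z.symm
  by_cases xy : x = y
  · subst xy
    exact ((SE.ofList (n := 5) (R := 20575431526113749078900995) [x, u, w, p, q] x
      [(0, 1), (0, 2), (1, 2), (1, 3), (3, 4), (4, 2)] [3, 4] rfl (by decide +kernel)
      (by simp [mu, mp, mq, mw, mx]) (by simp [e, d1, d2, d3, d4, d5, f1, f2, f3, f4])
      (by simp [up, pq, qw, xu, yw, a]) (by simp [s2, s3])).close hc h2 (o := 0)
      (by decide +kernel)).leaf hc h2.conn (B := 2664) (by decide +kernel)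
  exact poleD2 hc h2 ih (SE.ofList (n := 6) [x, y, u, w, p, q] x
    [(0, 2), (1, 3), (2, 3), (2, 4), (4, 5), (5, 3)] [4, 5] rfl (by decide +kernel)
    (by simp [mu, mp, mq, mw, mx, my])
    (by simp [e, xy, d1, d2, d3, d4, d5, f1, f2, f3, f4, g1, g2, g3, g4])
    (by simp [up, pq, qw, xu, yw, a]) (by simp [s2, s3]))

/-- either the main goal holds or no two ports are adjacent -/
theorem net1_or [DecidableEq V] (hc : Cub G X) (h2 : TwoEC G X) (ih : TBelow V X.card) :
    TG G X ∨ Net1 G X := by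
  by_cases h : Net1 G X
  · exact Or.inr h
  · unfold Net1 at h
    push Not at h
    obtain ⟨p, mp, q, mq, pq, s, ms, ps, t, mt, qt⟩ := h
    exact Or.inl (T2 hc h2 ih mp mq pq ms ps mt qt)

end Pool.Agent.Hom2
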