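import Pool.Agent.Lib.MP_7e4769_co.Hc.TCol
import Pool.Agent.Lib.MP_7e4769_co.Hc.Rew

set_option autoImplicit false

namespace Pool.Agent.Hom2

/-! A pole pattern has the vertices `0 = u`, `1 = w` (outer ends), `2 = a`, `3 = b` and further full
vertices; only `a` lists `u` and only `b` lists `w`. -/

def poleOK (nP RP : ℕ) : Bool :=
  Nat.ble 4 nP && hasC (sl RP) 2 2 && hasC (sl RP) 3 3 &&
  allLt nP (fun i => lt i 2 || full (sl RP) i && (Nat.beq i 2 || !hasC (sl RP) i 2) &&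
    (Nat.beq i 3 || !hasC (sl RP) i 3))

def domLeaf (nP RP cu eu cw ew B : ℕ) : ℕ :=
  bif Nat.beq (colv B 0) cu && Nat.beq (colv B 1) cw && ne (colv B 2) eu && ne (colv B 3) ew &&
    allLt nP (fun i => lt i 2 || vOK (sl RP) B 3 i) then shr B (Nat.mul 2 nP) else 0

/-- domination of an edge -/
def domE (nP RP B : ℕ) : ℕ :=
  thr 4 (fun cu => thr 4 (fun eu => thr 4 (fun cw => thr 4 (fun ew =>
    bif ne cu cw && ne cu eu && ne cw ew && ne cw eu && ne cu ew then domLeaf nP RP cu eu cw ew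
    else fun B => B)))) B

/-- domination of a vertex with a stub -/
def domT (nP RP B : ℕ) : ℕ :=
  thr 4 (fun cu => thr 4 (fun eu => thr 4 (fun cw => thr 4 (fun ew =>
    bif ne cu eu && ne cw ew && !allLt 4 (fun r => !(okb r cu cw 3 && ne r eu && ne r ew)) then
      domLeaf nP RP cu eu cw ew else fun B => B)))) B

/-- the pattern `u = 0`, `w = 1` and two adjacent ports `2`, `3` between them -/
def rT2 : ℕ := 78453009111443570692

/-- leaf of a substitution table; with `b` also a pair of adjacent ports with non-adjacent ends -/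
def leafU (b : Bool) (n : ℕ) (s : ℕ → ℕ → ℕ) (B : ℕ) : ℕ :=
  bif Nat.beq (Nat.mod B 2) 0 then leafT n s (shr B 1) else fz (shr B 1) fun M =>
    bif b && subF 4 rT2 M n s && full s (cv M 0) && !hasC s (cv M 0) (Nat.add (cv M 1) 2) then
      shr M 24 else 0

/-- codes after the edge `i0 j0` is replaced by the pole -/
def sE (RP n R i0 j0 t k : ℕ) : ℕ :=
  bif lt t n then fz (sl R t k) fun c =>
    bif Nat.beq t i0 && Nat.beq c (Nat.add j0 2) then Nat.add n 2 else
    bif Nat.beq t j0 && Nat.beq c (Nat.add i0 2) then Nat.add n 3 else c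
  else fz (sl RP (Nat.add (Nat.sub t n) 2) k) fun c =>
    bif lt c 2 then c else bif Nat.beq c 2 then Nat.add i0 2 else
    bif Nat.beq c 3 then Nat.add j0 2 else Nat.add (Nat.sub c 2) n

def tabE (b : Bool) (nP RP m B : ℕ) : ℕ :=
  fz (mN m) fun n => fz (mR m) fun R => thr n (fun i => thr 3 (fun k => fun B =>
    fz (sl R i k) fun c => bif lt c 2 then B else
      leafU b (Nat.add n (Nat.sub nP 2)) (sE RP n R i (Nat.sub c 2)) B)) B

def trT (n i0 cu cw c : ℕ) : ℕ :=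
  bif lt c 2 then c else bif Nat.beq c 2 then (bif lt cu 2 then 0 else cu) else
  bif Nat.beq c 3 then (bif lt cw 2 then 0 else cw) else
  bif Nat.beq c 4 then Nat.add i0 2 else Nat.add (Nat.sub c 3) n

/-- codes after the vertex `i0` is replaced by the pole; `cu`, `cw` are its codes towards `u`, `w` -/
def sT (RP n R i0 cu cw t k : ℕ) : ℕ :=
  bif Nat.beq t i0 then trT n i0 cu cw (sl RP 2 k) else
  bif lt t n then fz (sl R t k) fun c =>
    bif Nat.beq c (Nat.add i0 2) then (bif Nat.beq (Nat.add t 2) cu then c else Nat.add n 2) else c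
  else trT n i0 cu cw (sl RP (Nat.add (Nat.sub t n) 3) k)

def tabT (b : Bool) (nP RP m B : ℕ) : ℕ :=
  fz (mN m) fun n => fz (mR m) fun R => thr n (fun i => thr 6 (fun p => fun B =>
    bif lt (sl R i (prm p 2)) 2 then
      leafU b (Nat.add n (Nat.sub nP 3)) (sT RP n R i (sl R i (prm p 0)) (sl R i (prm p 1))) B
    else B)) B

/-- the members are symmetric and list no vertex twice -/
def memOK (m : ℕ) : Bool :=
  fzb (mR m) fun R => allLt (mN m) (fun i =>
    all3 (fun k => fzb (sl R i k) fun c => lt c 2 || hasC (sl R) (Nat.sub c 2) (Nat.add i 2)) &&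
    ne (sl R i 0) (sl R i 1) && ne (sl R i 0) (sl R i 2) && ne (sl R i 1) (sl R i 2))

theorem mems_ok : allLt 70 memOK = true := by decide +kernel

theorem mem_symm {m i k y : ℕ} (hm : m < 70) (hi : i < mN m) (hk : k < 3)
    (e : sl (mR m) i k = y + 2) : ∃ k' < 3, sl (mR m) y k' = i + 2 := by
  have := (allLt_iff _ _).1 mems_ok m hm
  simp only [memOK, fzb_eq, allLt_iff, Bool.and_eq_true, all3_iff, Bool.or_eq_true, lt_iff,
    hasC_iff] at this
  have := (this i hi).1.1.1 k hk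
  rw [e] at this
  exact this.resolve_left (by omega)

theorem mem_dist {m i : ℕ} (hm : m < 70) (hi : i < mN m) : sl (mR m) i 0 ≠ sl (mR m) i 1 ∧
    sl (mR m) i 0 ≠ sl (mR m) i 2 ∧ sl (mR m) i 1 ≠ sl (mR m) i 2 := by
  have := (allLt_iff _ _).1 mems_ok m hm
  simp only [memOK, fzb_eq, allLt_iff, Bool.and_eq_true, ne_iff] at this
  exact ⟨(this i hi).1.1.2, (this i hi).1.2, (this i hi).2⟩

variable {V : Type} {G : SimpleGraph V} {X : Finset V} {nP RP : ℕ} {ps : ℕ → V} [DecidableEq V]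

/-- two adjacent ports whose outer neighbours are distinct and not adjacent -/
def HasThr (G : SimpleGraph V) (X : Finset V) : Prop :=
  ∃ ps, SE G X 4 (sl rT2) ps ∧ ¬ G.Adj (ps 0) (ps 1)

omit [DecidableEq V] in
theorem SE.leafU {n B : ℕ} {b : Bool} {s : ℕ → ℕ → ℕ} (E : SE G X n s ps) (hc : Cub G X)
    (hcon : Conn G X) (hb : b = true → HasThr G X → TG G X) (h : leafU b n s B ≠ 0) : TG G X := by
  unfold Hom2.leafU at h
  cases t : Nat.beq (Nat.mod B 2) 0
  · rw [t, cond_false, fz_eq] at h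
    obtain ⟨h1, -⟩ := cond_ne h
    simp only [Bool.and_eq_true, Bool.not_eq_true', ← Bool.not_eq_true, hasC_iff] at h1
    obtain ⟨⟨⟨a, c⟩, d⟩, e⟩ := h1
    refine hb a ⟨_, E.sub c, fun r => e ?_⟩
    have c' := c
    simp only [subF, Bool.and_eq_true, allLt_iff, fzb_eq, lt_iff] at c'
    obtain ⟨k, hk, q | ⟨y, hy, q1, q2⟩⟩ := E.cases hc (c'.2 0 (by omega)).1 d r
    · exact absurd (E.mem _ (c'.2 1 (by omega)).1) q.2
    · exact ⟨k, hk, by rw [q1, E.inj _ (c'.2 1 (by omega)).1 _ hy q2]⟩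
  · rw [t, cond_true] at h
    exact E.leaf hc hcon h

def pD (nP : ℕ) (ps : ℕ → V) : Finset V := (Finset.Ico 2 nP).image ps

theorem mem_pD {v : V} : v ∈ pD nP ps ↔ ∃ i, 2 ≤ i ∧ i < nP ∧ ps i = v := by
  simp [pD, and_assoc]

omit [DecidableEq V] in
theorem poleOK_spec (h : poleOK nP RP = true) : 4 ≤ nP ∧ (∃ k < 3, sl RP 2 k = 2) ∧
    (∃ k < 3, sl RP 3 k = 3) ∧ ∀ i, 2 ≤ i → i < nP → full (sl RP) i = true ∧
      (∀ k < 3, sl RP i k = 2 → i = 2) ∧ ∀ k < 3, sl RP i k = 3 → i = 3 := by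
  simp only [poleOK, Bool.and_eq_true, Nat.ble_eq, hasC_iff, allLt_iff, Bool.or_eq_true, lt_iff,
    Nat.beq_eq, Bool.not_eq_true', ← Bool.not_eq_true] at h
  refine ⟨h.1.1.1, h.1.1.2, h.1.2, fun i h1 h2 => ?_⟩
  obtain ⟨⟨a, b⟩, c⟩ := (h.2 i h2).resolve_left (by omega)
  exact ⟨a, fun k hk e => b.resolve_right (fun r => r ⟨k, hk, e⟩),
    fun k hk e => c.resolve_right (fun r => r ⟨k, hk, e⟩)⟩

theorem SE.pole (E : SE G X nP (sl RP) ps) (hc : Cub G X) (h : poleOK nP RP = true) :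
    Pole2 G X (pD nP ps) (ps 2) (ps 0) (ps 3) (ps 1) := by
  obtain ⟨h4, ⟨k2, hk2, e2⟩, ⟨k3, hk3, e3⟩, al⟩ := poleOK_spec h
  have out : ∀ j < 2, ps j ∉ pD nP ps := fun j hj r => by
    obtain ⟨i, a, b, c⟩ := mem_pD.1 r
    have := E.inj i b j (by omega) c
    omega
  refine ⟨fun v hv => ?_, mem_pD.2 ⟨2, by omega, by omega, rfl⟩, mem_pD.2 ⟨3, by omega, by omega, rfl⟩,
    E.mem 0 (by omega), E.mem 1 (by omega), out 0 (by omega), out 1 (by omega),
    (E.edge 2 (by omega) k2 hk2 0 e2).2, (E.edge 3 (by omega) k3 hk3 1 e3).2,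
    fun r => by have := E.inj 0 (by omega) 1 (by omega) r; omega, fun x hx y hy hy' a => ?_⟩
  · obtain ⟨i, -, b, rfl⟩ := mem_pD.1 hv
    exact E.mem i b
  · obtain ⟨i, i1, i2, rfl⟩ := mem_pD.1 hx
    obtain ⟨k, hk, r | ⟨j, hj, r, rfl⟩⟩ := E.cases hc i2 (al i i1 i2).1 a
    · exact absurd hy r.2
    · have : j < 2 := by
        by_contra c
        exact hy' (mem_pD.2 ⟨j, by omega, hj, rfl⟩)
      interval_cases j
      · exact Or.inl ⟨by rw [(al i i1 i2).2.1 k hk r], rfl⟩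
      · exact Or.inr ⟨by rw [(al i i1 i2).2.2 k hk r], rfl⟩

theorem SE.domLeaf (E : SE G X nP (sl RP) ps) (hc : Cub G X) (h4 : 4 ≤ nP) {cu eu cw ew : Fin 4}
    {B : ℕ} (h : domLeaf nP RP cu.val eu.val cw.val ew.val B ≠ 0) :
    ∃ d : V → Fin 4, d (ps 0) = cu ∧ d (ps 1) = cw ∧ d (ps 2) ≠ eu ∧ d (ps 3) ≠ ew ∧
      (∀ v, v ∉ X → d v = 3) ∧ ∀ v ∈ pD nP ps, OK G d v := by
  obtain ⟨h1, -⟩ := cond_ne h
  simp only [Bool.and_eq_true, Nat.beq_eq, ne_iff, allLt_iff, Bool.or_eq_true, lt_iff] at h1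
  obtain ⟨⟨⟨⟨a, b⟩, c⟩, d⟩, e⟩ := h1
  refine ⟨E.mkC B (fun _ => 3), Fin.ext ((E.mkC_img B _ (by omega)).trans a),
    Fin.ext ((E.mkC_img B _ (by omega)).trans b),
    fun r => c ((E.mkC_img B (fun _ => 3) (by omega)).symm.trans (congrArg Fin.val r)),
    fun r => d ((E.mkC_img B (fun _ => 3) (by omega)).symm.trans (congrArg Fin.val r)),
    fun v hv => E.mkC_out B _ hv, fun v hv => ?_⟩
  obtain ⟨i, i1, i2, rfl⟩ := mem_pD.1 hv
  exact E.ok hc i2 ((e i i2).resolve_left (by omega)) (fun _ _ _ => rfl)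

omit [DecidableEq V] in
theorem thr4 {f : ℕ → ℕ → ℕ → ℕ → ℕ → ℕ} {B : ℕ}
    (h : thr 4 (fun a => thr 4 (fun b => thr 4 (fun c => thr 4 (fun d => f a b c d)))) B ≠ 0)
    (a b c d : Fin 4) : ∃ B', f a.val b.val c.val d.val B' ≠ 0 := by
  obtain ⟨_, h1⟩ := thr_ne h _ a.2
  obtain ⟨_, h2⟩ := thr_ne h1 _ b.2
  obtain ⟨_, h3⟩ := thr_ne h2 _ c.2
  exact thr_ne h3 _ d.2

omit [DecidableEq V] in
theorem sE_lo {n R i0 j0 t k : ℕ} (c : t < n) : sE RP n R i0 j0 t k =
    if t = i0 ∧ sl R t k = j0 + 2 then n + 2 else if t = j0 ∧ sl R t k = i0 + 2 then n + 3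
    else sl R t k := by
  unfold sE
  rw [(lt_iff _ _).2 c, cond_true]
  simp only [fz_eq, Bool.cond_eq_ite, Nat.add_eq, Bool.and_eq_true, Nat.beq_eq]

omit [DecidableEq V] in
theorem sE_hi {n R i0 j0 t k : ℕ} (c : n ≤ t) : sE RP n R i0 j0 t k =
    if sl RP (t - n + 2) k < 2 then sl RP (t - n + 2) k else if sl RP (t - n + 2) k = 2 then i0 + 2
    else if sl RP (t - n + 2) k = 3 then j0 + 2 else sl RP (t - n + 2) k - 2 + n := by
  unfold sE
  rw [(lt_false _ _).2 c, cond_false]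
  simp only [fz_eq, Bool.cond_eq_ite, Nat.add_eq, Nat.sub_eq, lt_iff, Nat.beq_eq]

/-- extension of an embedding by the pole vertices from `o` on -/
def ext (n o : ℕ) (ph ps : ℕ → V) (t : ℕ) : V := if t < n then ph t else ps (t - n + o)

theorem SE.subE (E : SE G X nP (sl RP) ps) (hc : Cub G X) (h : poleOK nP RP = true) {n R : ℕ}
    {ph : ℕ → V} (F : SE (joinG G (pD nP ps) (ps 0) (ps 1)) (X \ pD nP ps) n (sl R) ph)
    {i0 j0 : ℕ} (hi0 : i0 < n) (hj0 : j0 < n) (ei : ph i0 = ps 0) (ej : ph j0 = ps 1) :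
    SE G X (n + (nP - 2)) (sE RP n R i0 j0) (ext n 2 ph ps) := by
  have P := E.pole hc h
  obtain ⟨h4, -, -, al⟩ := poleOK_spec h
  have lo : ∀ t < n, ext n 2 ph ps t = ph t := fun t ht => if_pos ht
  have hi : ∀ t, n ≤ t → ext n 2 ph ps t = ps (t - n + 2) := fun t ht => if_neg (by omega)
  have m : ∀ t < n, ph t ∈ X ∧ ph t ∉ pD nP ps := fun t ht => Finset.mem_sdiff.1 (F.mem t ht)
  refine ⟨fun t ht => ?_, fun t ht t' ht' e => ?_, fun t ht k hk e => ?_, fun t ht k hk y e => ?_⟩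
  · by_cases c : t < n
    · rw [lo t c]; exact (m t c).1
    · rw [hi t (by omega)]; exact E.mem _ (by omega)
  · by_cases c : t < n <;> by_cases c' : t' < n
    · rw [lo t c, lo t' c'] at e; exact F.inj _ c _ c' e
    · rw [lo t c, hi t' (by omega)] at e
      exact absurd (mem_pD.2 ⟨_, by omega, by omega, e.symm⟩) (m t c).2
    · rw [lo t' c', hi t (by omega)] at e
      exact absurd (mem_pD.2 ⟨_, by omega, by omega, e⟩) (m t' c').2
    · rw [hi t (by omega), hi t' (by omega)] at e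
      have := E.inj _ (by omega) _ (by omega) e
      omega
  · by_cases c : t < n
    · have e' : sl R t k = 1 := by
        rw [sE_lo c] at e
        split_ifs at e <;> omega
      obtain ⟨y, y1, -, y2 | y2 | y2⟩ := F.stub t c k hk e'
      · exact ⟨y, fun r => y1 (Finset.mem_sdiff.2 ⟨r, y2.2.2⟩), lo t c ▸ y2.1⟩
      · exact absurd (y2.2 ▸ Finset.mem_sdiff.2 ⟨P.mw, P.nw⟩) y1
      · exact absurd (y2.2 ▸ Finset.mem_sdiff.2 ⟨P.mu, P.nu⟩) y1
    · rw [hi t (by omega)]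
      refine E.stub _ (by omega) k hk ?_
      rw [sE_hi (not_lt.1 c)] at e
      split_ifs at e <;> omega
  · by_cases c : t < n
    · rw [sE_lo c] at e
      rw [lo t c]
      split_ifs at e with c1 c2
      · obtain rfl : y = n := by omega
        rw [hi y le_rfl, c1.1, ei, Nat.sub_self]
        exact ⟨by omega, P.au.symm⟩
      · obtain rfl : y = n + 1 := by omega
        rw [hi _ (by omega), c2.1, ej, show n + 1 - n + 2 = 3 by omega]
        exact ⟨by omega, P.bw.symm⟩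
      · obtain ⟨y1, -, y2 | y2 | y2⟩ := F.edge t c k hk y e
        · exact ⟨by omega, lo y y1 ▸ y2.1⟩
        · exact absurd ⟨F.inj _ c _ hi0 (y2.1.trans ei.symm),
            by rw [e, F.inj _ y1 _ hj0 (y2.2.trans ej.symm)]⟩ c1
        · exact absurd ⟨F.inj _ c _ hj0 (y2.1.trans ej.symm),
            by rw [e, F.inj _ y1 _ hi0 (y2.2.trans ei.symm)]⟩ c2
    · rw [sE_hi (not_lt.1 c)] at e
      rw [hi t (by omega)]
      split_ifs at e with c1 c2 c3
      · omega
      · obtain rfl : y = i0 := by omega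
        rw [lo y hi0, ei]
        exact ⟨by omega, (E.edge _ (by omega) k hk 0 c2).2⟩
      · obtain rfl : y = j0 := by omega
        rw [lo y hj0, ej]
        exact ⟨by omega, (E.edge _ (by omega) k hk 1 c3).2⟩
      · obtain ⟨y1, y2⟩ := E.edge (t - n + 2) (by omega) k hk (y - n + 2) (by omega)
        rw [hi y (by omega)]
        exact ⟨by omega, y2⟩

/-- a pole that dominates an edge is reducible when its outer ends are not adjacent -/
theorem poleE {b : Bool} (h : poleOK nP RP = true) (hd : ∃ B, domE nP RP B ≠ 0)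
    (ht : ∀ m < 70, ∃ B, tabE b nP RP m B ≠ 0) (hb : b = true → HasThr G X → TG G X) (hc : Cub G X) (h2 : TwoEC G X)
    (ih : TBelow V X.card) (E : SE G X nP (sl RP) ps) (na : ¬ G.Adj (ps 0) (ps 1)) : TG G X := by
  have P := E.pole hc h
  rcases ih _ _ P.card_lt (P.cubE na hc) (P.twoE na h2) with g | ⟨m, hm, ph, F⟩
  · refine Or.inl (P.colE na hc (by simp) (fun cu eu cw ew a b c d e => ?_) g)
    obtain ⟨B, hB⟩ := hd
    obtain ⟨B', h'⟩ := thr4 hB cu eu cw ew
    have : (ne cu.val cw.val && ne cu.val eu.val && ne cw.val ew.val && ne cw.val eu.val &&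
        ne cu.val ew.val) = true := by
      simp only [Bool.and_eq_true, ne_iff, ne_eq, Fin.val_inj]; tauto
    rw [this, cond_true] at h'
    exact E.domLeaf hc (poleOK_spec h).1 h'
  by_cases u : ∃ i < mN m, ∃ k < 3, ∃ j, sl (mR m) i k = j + 2 ∧ ph i = ps 0 ∧ ph j = ps 1
  · obtain ⟨i, hi, k, hk, j, e, ei, ej⟩ := u
    obtain ⟨B, hB⟩ := ht m hm
    simp only [tabE, fz_eq] at hB
    obtain ⟨_, h1⟩ := thr_ne hB i hi
    obtain ⟨B', h3⟩ := thr_ne h1 k hk
    rw [e, (lt_false _ _).2 (by omega), cond_false] at h3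
    exact (E.subE hc h F hi (F.edge i hi k hk j e).1 ei ej).leafU hc h2.conn hb h3
  · refine Or.inr ⟨m, hm, ph, fun i hi => (Finset.mem_sdiff.1 (F.mem i hi)).1, F.inj,
      fun i hi k hk e => ?_, fun i hi k hk y e => ?_⟩
    · obtain ⟨y, y1, -, y2 | y2 | y2⟩ := F.stub i hi k hk e
      · exact ⟨y, fun r => y1 (Finset.mem_sdiff.2 ⟨r, y2.2.2⟩), y2.1⟩
      · exact absurd (y2.2 ▸ Finset.mem_sdiff.2 ⟨P.mw, P.nw⟩) y1
      · exact absurd (y2.2 ▸ Finset.mem_sdiff.2 ⟨P.mu, P.nu⟩) y1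
    · obtain ⟨y1, -, y2 | y2 | y2⟩ := F.edge i hi k hk y e
      · exact ⟨y1, y2.1⟩
      · exact absurd ⟨i, hi, k, hk, y, e, y2.1, y2.2⟩ u
      · obtain ⟨k', hk', e'⟩ := mem_symm hm hi hk e
        exact absurd ⟨y, y1, k', hk', i, e', y2.2, y2.1⟩ u

omit [DecidableEq V] in
theorem trT_eq (n i0 cu cw c : ℕ) : trT n i0 cu cw c = if c < 2 then c else
    if c = 2 then (if cu < 2 then 0 else cu) else if c = 3 then (if cw < 2 then 0 else cw) else
    if c = 4 then i0 + 2 else c - 3 + n := by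
  simp only [trT, Bool.cond_eq_ite, Nat.add_eq, Nat.sub_eq, lt_iff, Nat.beq_eq]

omit [DecidableEq V] in
theorem sT_eq (n R i0 cu cw t k : ℕ) : sT RP n R i0 cu cw t k =
    if t = i0 then trT n i0 cu cw (sl RP 2 k) else if t < n then
      (if sl R t k = i0 + 2 then (if t + 2 = cu then sl R t k else n + 2) else sl R t k)
    else trT n i0 cu cw (sl RP (t - n + 3) k) := by
  simp only [sT, fz_eq, Bool.cond_eq_ite, Nat.add_eq, Nat.sub_eq, lt_iff, Nat.beq_eq]

theorem SE.subT (E : SE G X nP (sl RP) ps) (hc : Cub G X) (h : poleOK nP RP = true) {n R : ℕ}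
    {ph : ℕ → V} (F : SE (starG G (pD nP ps) (ps 2) (ps 0) (ps 1) (ps 3))
      (insert (ps 2) (X \ pD nP ps)) n (sl R) ph)
    {i0 cu cw : ℕ} (hi0 : i0 < n) (ei : ph i0 = ps 2)
    (hu : 2 ≤ cu → cu - 2 < n ∧ ph (cu - 2) = ps 0) (hw : 2 ≤ cw → cw - 2 < n ∧ ph (cw - 2) = ps 1)
    (hl : ∀ t < n, ∀ k < 3, sl R t k = i0 + 2 → t + 2 = cu ∨ t + 2 = cw) :
    SE G X (n + (nP - 3)) (sT RP n R i0 cu cw) (ext n 3 ph ps) := by
  have P := E.pole hc h
  obtain ⟨h4, -, -, al⟩ := poleOK_spec h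
  have hs := P.star P.ma P.mb (fun r => by have := E.inj 2 (by omega) 3 (by omega) r; omega)
  have lo : ∀ t < n, ext n 3 ph ps t = ph t := fun t ht => if_pos ht
  have hi : ∀ t, n ≤ t → ext n 3 ph ps t = ps (t - n + 3) := fun t ht => if_neg (by omega)
  have m : ∀ t < n, t ≠ i0 → ph t ∈ X ∧ ph t ∉ pD nP ps := fun t ht ne => by
    rcases Finset.mem_insert.1 (F.mem t ht) with r | r
    · exact absurd (F.inj _ ht _ hi0 (r.trans ei.symm)) ne
    · exact Finset.mem_sdiff.1 r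
  have nw : ∀ t < n, ∀ j, 3 ≤ j → j < nP → ph t ≠ ps j := fun t ht j j1 j2 r => by
    by_cases c : t = i0
    · have := E.inj 2 (by omega) j j2 (ei.symm.trans (c ▸ r))
      omega
    · exact (m t ht c).2 (mem_pD.2 ⟨j, by omega, j2, r.symm⟩)
  have tr : ∀ j < nP, ∀ k < 3, (trT n i0 cu cw (sl RP j k) = 1 → ∃ y, y ∉ X ∧ G.Adj (ps j) y) ∧
      ∀ y, trT n i0 cu cw (sl RP j k) = y + 2 →
        y < n + (nP - 3) ∧ G.Adj (ps j) (ext n 3 ph ps y) := by
    intro j hj k hk
    rw [trT_eq]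
    refine ⟨fun e => E.stub j hj k hk (by split_ifs at e <;> omega), fun y e => ?_⟩
    split_ifs at e with c1 c2 c3 c4 c5 c6
    · omega
    · obtain ⟨a, b⟩ := hu (by omega)
      obtain rfl : y = cu - 2 := by omega
      rw [lo _ a, b]
      exact ⟨by omega, (E.edge j hj k hk 0 c2).2⟩
    · obtain ⟨a, b⟩ := hw (by omega)
      obtain rfl : y = cw - 2 := by omega
      rw [lo _ a, b]
      exact ⟨by omega, (E.edge j hj k hk 1 c4).2⟩
    · obtain rfl : y = i0 := by omega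
      rw [lo _ hi0, ei]
      exact ⟨by omega, (E.edge j hj k hk 2 c6).2⟩
    · obtain ⟨y1, y2⟩ := E.edge j hj k hk (y - n + 3) (by omega)
      rw [hi y (by omega)]
      exact ⟨by omega, y2⟩
  refine ⟨fun t ht => ?_, fun t ht t' ht' e => ?_, fun t ht k hk e => ?_, fun t ht k hk y e => ?_⟩
  · by_cases c : t < n
    · rw [lo t c]; exact hs.sub' (F.mem t c)
    · rw [hi t (by omega)]; exact E.mem _ (by omega)
  · by_cases c : t < n <;> by_cases c' : t' < n
    · rw [lo t c, lo t' c'] at e; exact F.inj _ c _ c' e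
    · rw [lo t c, hi t' (by omega)] at e
      exact absurd e (nw t c _ (by omega) (by omega))
    · rw [lo t' c', hi t (by omega)] at e
      exact absurd e.symm (nw t' c' _ (by omega) (by omega))
    · rw [hi t (by omega), hi t' (by omega)] at e
      have := E.inj _ (by omega) _ (by omega) e
      omega
  · rw [sT_eq] at e
    by_cases c0 : t = i0
    · rw [if_pos c0] at e
      rw [c0, lo _ hi0, ei]
      exact (tr 2 (by omega) k hk).1 e
    rw [if_neg c0] at e
    by_cases c : t < n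
    · rw [if_pos c] at e
      have e' : sl R t k = 1 := by split_ifs at e <;> omega
      obtain ⟨y, y1, y2⟩ := F.stub t c k hk e'
      rcases (hs.adj (m t c c0).1 (m t c c0).2 y).1 y2 with r | r
      · exact ⟨y, fun q => y1 (Finset.mem_insert_of_mem (Finset.mem_sdiff.2 ⟨q, r.2⟩)), lo t c ▸ r.1⟩
      · exact absurd (r.1 ▸ Finset.mem_insert_self _ _) y1
    · rw [if_neg c] at e
      rw [hi t (by omega)]
      exact (tr _ (by omega) k hk).1 e
  · rw [sT_eq] at e
    by_cases c0 : t = i0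
    · rw [if_pos c0] at e
      rw [c0, lo _ hi0, ei]
      exact (tr 2 (by omega) k hk).2 y e
    rw [if_neg c0] at e
    by_cases c : t < n
    · rw [if_pos c] at e
      rw [lo t c]
      split_ifs at e with c1 c2
      · obtain rfl : y = i0 := by omega
        obtain ⟨a, b⟩ := hu (by omega)
        rw [lo _ hi0, ei, show t = cu - 2 by omega, b]
        exact ⟨by omega, P.au.symm⟩
      · obtain rfl : y = n := by omega
        have := (hl t c k hk c1).resolve_left c2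
        obtain ⟨a, b⟩ := hw (by omega)
        rw [hi _ le_rfl, show t = cw - 2 by omega, b, Nat.sub_self]
        exact ⟨by omega, P.bw.symm⟩
      · obtain ⟨y1, y2⟩ := F.edge t c k hk y e
        rcases (hs.adj (m t c c0).1 (m t c c0).2 _).1 y2 with r | r
        · exact ⟨by omega, lo y y1 ▸ r.1⟩
        · exact absurd (by rw [e, F.inj _ y1 _ hi0 (r.1.trans ei.symm)]) c1
    · rw [if_neg c] at e
      rw [hi t (by omega)]
      exact (tr _ (by omega) k hk).2 y e

omit [DecidableEq V] in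
theorem perm_pick : ∀ a b c : Fin 3, (a = b → a = 0) → (a = c → a = 0) → (b = c → b = 0) →
    ∃ p : Fin 6, ∀ k : Fin 3, (k.val = prm p.val 2 → ![a, b, c] k = 0) ∧
      (k.val = prm p.val 0 → ![a, b, c] k ≠ 2) ∧ (k.val = prm p.val 1 → ![a, b, c] k ≠ 1) := by
  decide +kernel

omit [DecidableEq V] in
theorem prm_onto : ∀ p < 6, ∀ k < 3, k = prm p 0 ∨ k = prm p 1 ∨ k = prm p 2 := by decide +kernel

/-- a pole that dominates a vertex with a stub is reducible -/
theorem poleT {b : Bool} (h : poleOK nP RP = true) (hd : ∃ B, domT nP RP B ≠ 0)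
    (ht : ∀ m < 70, ∃ B, tabT b nP RP m B ≠ 0) (hb : b = true → HasThr G X → TG G X) (hc : Cub G X) (h2 : TwoEC G X)
    (ih : TBelow V X.card) (E : SE G X nP (sl RP) ps) : TG G X := by
  have P := E.pole hc h
  have h4 := (poleOK_spec h).1
  have ab : ps 2 ≠ ps 3 := fun r => by have := E.inj 2 (by omega) 3 (by omega) r; omega
  have hs := P.star P.ma P.mb ab
  rcases ih _ _ (hs.card_lt P.mb ab.symm) (hs.cub hc)
    (hs.twoEC h2 (Finset.mem_sdiff.2 ⟨P.mu, P.nu⟩)) with g | ⟨m, hm, ph, F⟩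
  · refine Or.inl (P.colT P.ma P.mb ab hc (by simp) (by simp) (fun cu eu cw ew cr a b c d e => ?_) g)
    obtain ⟨B, hB⟩ := hd
    obtain ⟨B', h'⟩ := thr4 hB cu eu cw ew
    have : (ne cu.val eu.val && ne cw.val ew.val && !allLt 4 (fun r =>
        !(okb r cu.val cw.val 3 && ne r eu.val && ne r ew.val))) = true := by
      simp only [Bool.and_eq_true, ne_iff, ne_eq, Fin.val_inj, Bool.not_eq_true', ← Bool.not_eq_true,
        allLt_iff, okb_iff]
      refine ⟨⟨b, c⟩, fun r => r cr.val cr.2 ⟨⟨ok4_map Fin.val_injective a, ?_⟩, ?_⟩⟩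
      · exact fun q => d (Fin.ext q)
      · exact fun q => e (Fin.ext q)
    rw [this, cond_true] at h'
    exact E.domLeaf hc h4 h'
  have oX : ps 3 ∉ insert (ps 2) (X \ pD nP ps) := by simp [ab.symm, P.mb]
  by_cases u : ∃ i < mN m, ph i = ps 2
  · obtain ⟨i, hi, ei⟩ := u
    have nb : ∀ k < 3, 2 ≤ sl (mR m) i k → sl (mR m) i k - 2 < mN m ∧
        (ph (sl (mR m) i k - 2) = ps 0 ∨ ph (sl (mR m) i k - 2) = ps 1) := fun k hk r => by
      obtain ⟨y1, y2⟩ := F.edge i hi k hk (sl (mR m) i k - 2) (by omega)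
      refine ⟨y1, ?_⟩
      rcases hs.nb_r.cases (ei ▸ y2) with q | q | q
      · exact Or.inl q
      · exact Or.inr q
      · exact absurd (q ▸ F.mem _ y1) oX
    let ty : ℕ → Fin 3 := fun k => if sl (mR m) i k < 2 then 0 else
      if ph (sl (mR m) i k - 2) = ps 0 then 1 else 2
    have t0 : ∀ k, ty k = 0 → sl (mR m) i k < 2 := fun k r => by
      simp only [ty] at r; split_ifs at r <;> simp_all
    have t1 : ∀ k < 3, ty k ≠ 2 → 2 ≤ sl (mR m) i k → ph (sl (mR m) i k - 2) = ps 0 := fun k _ r q => by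
      simp only [ty] at r; split_ifs at r <;> simp_all
      omega
    have t2 : ∀ k < 3, ty k ≠ 1 → 2 ≤ sl (mR m) i k → ph (sl (mR m) i k - 2) = ps 1 := fun k hk r q => by
      refine (nb k hk q).2.resolve_left (fun z => r ?_)
      simp only [ty, if_neg (not_lt.2 q), if_pos z]
    have td : ∀ k < 3, ∀ k' < 3, sl (mR m) i k ≠ sl (mR m) i k' → ty k = ty k' → ty k = 0 := by
      intro k hk k' hk' ne e
      by_contra z
      have q : 2 ≤ sl (mR m) i k := by
        by_contra q; exact z (by simp only [ty, if_pos (not_le.1 q)])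
      have q' : 2 ≤ sl (mR m) i k' := by
        by_contra q; exact z (e ▸ by simp only [ty, if_pos (not_le.1 q)])
      have : ph (sl (mR m) i k - 2) = ph (sl (mR m) i k' - 2) := by
        by_cases o : ty k = 2
        · rw [t2 k hk (by rw [o]; decide) q, t2 k' hk' (by rw [← e, o]; decide) q']
        · rw [t1 k hk o q, t1 k' hk' (e ▸ o) q']
      have := F.inj _ (nb k hk q).1 _ (nb k' hk' q').1 this
      omega
    obtain ⟨d1, d2, d3⟩ := mem_dist hm hi
    obtain ⟨p, hp⟩ := perm_pick (ty 0) (ty 1) (ty 2) (td 0 (by omega) 1 (by omega) d1)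
      (td 0 (by omega) 2 (by omega) d2) (td 1 (by omega) 2 (by omega) d3)
    have hv : ∀ k : Fin 3, ![ty 0, ty 1, ty 2] k = ty k.val := fun k => by fin_cases k <;> rfl
    obtain ⟨p0, p1, p2, -⟩ := prm_spec p.val (by omega)
    have q2 := t0 _ (hv ⟨_, p2⟩ ▸ (hp ⟨_, p2⟩).1 rfl)
    have q0 := t1 _ p0 (hv ⟨_, p0⟩ ▸ (hp ⟨_, p0⟩).2.1 rfl)
    have q1 := t2 _ p1 (hv ⟨_, p1⟩ ▸ (hp ⟨_, p1⟩).2.2 rfl)
    obtain ⟨B, hB⟩ := ht m hm
    simp only [tabT, fz_eq] at hB
    obtain ⟨_, h1⟩ := thr_ne hB i hi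
    obtain ⟨B', h3⟩ := thr_ne h1 p.val p.2
    rw [(lt_iff _ _).2 q2, cond_true] at h3
    refine (E.subT hc h F hi ei (fun r => ⟨(nb _ p0 r).1, q0 r⟩) (fun r => ⟨(nb _ p1 r).1, q1 r⟩)
      (fun t ht k hk e => ?_)).leafU hc h2.conn hb h3
    obtain ⟨k', hk', e'⟩ := mem_symm hm ht hk e
    rcases prm_onto p.val p.2 k' hk' with r | r | r
    · exact Or.inl (r ▸ e'.symm)
    · exact Or.inr (r ▸ e'.symm)
    · have q3 : sl (mR m) i (prm p.val 2) < 2 := q2
      rw [← r] at q3; omega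
  · have m' : ∀ t < mN m, ph t ∈ X ∧ ph t ∉ pD nP ps := fun t ht => by
      rcases Finset.mem_insert.1 (F.mem t ht) with r | r
      · exact absurd ⟨t, ht, r⟩ u
      · exact Finset.mem_sdiff.1 r
    refine Or.inr ⟨m, hm, ph, fun i hi => (m' i hi).1, F.inj, fun i hi k hk e => ?_,
      fun i hi k hk y e => ?_⟩
    · obtain ⟨y, y1, y2⟩ := F.stub i hi k hk e
      rcases (hs.adj (m' i hi).1 (m' i hi).2 y).1 y2 with r | r
      · exact ⟨y, fun q => y1 (Finset.mem_insert_of_mem (Finset.mem_sdiff.2 ⟨q, r.2⟩)), r.1⟩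
      · exact absurd (r.1 ▸ Finset.mem_insert_self _ _) y1
    · obtain ⟨y1, y2⟩ := F.edge i hi k hk y e
      rcases (hs.adj (m' i hi).1 (m' i hi).2 _).1 y2 with r | r
      · exact ⟨y1, r.1⟩
      · exact absurd ⟨y, y1, r.1⟩ u

end Pool.Agent.Hom2
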