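import Pool.Agent.Lib.MP_7e4769_co.Hc.TCol

set_option autoImplicit false

namespace Pool.Agent.Hom2

variable {V : Type} {G : SimpleGraph V} {X : Finset V} {n R : ℕ} {s : ℕ → ℕ → ℕ} {ph : ℕ → V}

theorem SE.unc (E : SE G X n (sl R) ph) (hc : Cub G X) (f : ∀ i < n, full (sl R) i = true)
    (hn : n < 62) (u : unc n R (Nat.succ n) 0 0 0 = true) : Unc G X := by
  rintro ⟨c, ok⟩
  rw [unc_sound (E.emb hc f) hn ok _ 0 0 0 le_rfl (by omega) (fun i _ => by simp [cv, fld_eq])
    (fun i hi => by omega) (fun i hi => by omega)] at u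
  simp at u

/-- the six-vertex pole forces different colours on its outer ends -/
theorem xpole {u w a b c d e f : ℕ} (h1 : ok4 a u c d) (h2 : ok4 b w c e) (h3 : ok4 c a b f)
    (h4 : ok4 d a e f) (h5 : ok4 e b d f) (h6 : ok4 f c d e) : u ≠ w := by
  unfold ok4 at *; omega

theorem SE.row (E : SE G X n s ph) (hc : Cub G X) {c : V → ℕ} (ok : ∀ v ∈ X, OK G c v)
    (i x y z : ℕ) (h : i < n ∧ full s i = true ∧ s i 0 = x + 2 ∧ s i 1 = y + 2 ∧ s i 2 = z + 2) :
    ok4 (c (ph i)) (c (ph x)) (c (ph y)) (c (ph z)) := by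
  have := ok _ (E.mem i h.1) _ _ _ (E.nb hc h.1 h.2.1)
  rwa [E.nu_edge h.2.2.1, E.nu_edge h.2.2.2.1, E.nu_edge h.2.2.2.2] at this

/-- the pole on the vertices `a, ..., a + 5` between `u` and `w` -/
theorem SE.xp (E : SE G X n s ph) (hc : Cub G X) {c : V → ℕ} (ok : ∀ v ∈ X, OK G c v) (u w a : ℕ)
    (h : ∀ q ∈ [(a, u, a + 2, a + 3), (a + 1, w, a + 2, a + 4), (a + 2, a, a + 1, a + 5),
      (a + 3, a, a + 4, a + 5), (a + 4, a + 1, a + 3, a + 5), (a + 5, a + 2, a + 3, a + 4)],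
      q.1 < n ∧ full s q.1 = true ∧ s q.1 0 = q.2.1 + 2 ∧ s q.1 1 = q.2.2.1 + 2 ∧
        s q.1 2 = q.2.2.2 + 2) : c (ph u) ≠ c (ph w) := by
  simp only [List.forall_mem_cons] at h
  obtain ⟨h1, h2, h3, h4, h5, h6, -⟩ := h
  exact xpole (E.row hc ok _ _ _ _ h1) (E.row hc ok _ _ _ _ h2) (E.row hc ok _ _ _ _ h3)
    (E.row hc ok _ _ _ _ h4) (E.row hc ok _ _ _ _ h5) (E.row hc ok _ _ _ _ h6)

def uncM (m : ℕ) : Bool :=
  allLt (mN m) (full (sl (mR m))) && lt (mN m) 62 && unc (mN m) (mR m) (Nat.succ (mN m)) 0 0 0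

theorem HasM.uncM {m : ℕ} (E : HasM G X m) (hc : Cub G X) (h : uncM m = true) : Unc G X := by
  obtain ⟨ph, E⟩ := E
  simp only [Hom2.uncM, Bool.and_eq_true, allLt_iff, lt_iff] at h
  exact E.unc hc h.1.1 h.1.2 h.2

def r6 : ℕ := 926104842550248744934012628203460855894763385482652982995053198832114611084

theorem unc6 : unc 14 r6 (Nat.succ 14) 0 0 0 = true := by decide +kernel

/-- the seven cubic exceptions have no colouring -/
theorem HasM.unc {m : ℕ} (hm : m < 7) (E : HasM G X m) (hc : Cub G X) : Unc G X := by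
  interval_cases m
  · exact E.uncM hc (by decide +kernel)
  · exact E.uncM hc (by decide +kernel)
  · obtain ⟨ph, E⟩ := E
    rintro ⟨c, ok⟩
    have a := E.row hc ok 1 0 2 3 (by decide +kernel)
    have b := E.row hc ok 0 1 10 3 (by decide +kernel)
    have d := E.xp hc ok 2 3 4 (by decide +kernel)
    have e := E.xp hc ok 0 2 10 (by decide +kernel)
    unfold ok4 at a b; omega
  · obtain ⟨ph, E⟩ := E
    rintro ⟨c, ok⟩
    have a := E.row hc ok 1 0 2 3 (by decide +kernel)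
    have b := E.xp hc ok 0 3 16 (by decide +kernel)
    have d := E.xp hc ok 2 3 4 (by decide +kernel)
    have e := E.xp hc ok 0 2 10 (by decide +kernel)
    unfold ok4 at a; omega
  · exact E.uncM hc (by decide +kernel)
  · exact E.uncM hc (by decide +kernel)
  · obtain ⟨ph, E⟩ := E
    exact (E.sub (n0 := 14) (R0 := r6) (M := 354329779975758090126154) (by decide +kernel)).unc hc
      (by decide +kernel) (by omega) unc6

end Pool.Agent.Hom2
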