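import Pool.Agent.Lib.MP_7e4769_co.Hc.LemW

set_option autoImplicit false

namespace Pool.Agent.Hom2

variable {V : Type} {G : SimpleGraph V}

theorem card_three_eq_two {α : Type} [DecidableEq α] (x y z : α) :
    ({x, y, z} : Finset α).card = 2 ↔ ¬ (x = y ∧ y = z) ∧ (x = y ∨ y = z ∨ x = z) := by
  by_cases a : x = y
  · subst a
    by_cases b : x = z
    · subst b; simp
    · simp [b]
  · by_cases b : y = z
    · subst b; simp [a]
    · by_cases c : x = z
      · subst c
        have : ({x, y, x} : Finset α) = {x, y} := by ext t; simp; tauto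
        simp [this, a]
      · rw [Finset.card_eq_three.2 ⟨x, y, z, a, c, b, rfl⟩]; simp [a, b, c]

/-- one stub only: the free colour can be renamed to infinity -/
theorem GoodF.good_single [DecidableEq V] {W : Finset V} {h p : V} (g : GoodF G W h)
    (hs : Single G W h p) : Good G W := by
  obtain ⟨c, -, h2⟩ := g
  refine ⟨fun v => if v ∈ W then Equiv.swap (c h) 3 (c v) else 3, fun v hv _ => by simp [hv],
    fun v hv => ?_⟩
  refine ((h2 v hv).map (Equiv.swap (c h) 3).injective).congr (by simp [hv]) (fun w hw => ?_)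
  by_cases e : w ∈ W
  · simp [e]
  · rw [if_neg e, (hs v hv w e hw).2, Equiv.swap_apply_left]

theorem Unc.not {X : Finset V} {c : V → ℕ} (h : ∀ v ∈ X, OK G c v) {W : Finset V} (hW : W ⊆ X) :
    ¬ Unc G W := fun u => u ⟨c, fun v hv => h v (hW hv)⟩

/-- closed version of the top step -/
theorem top_closed [DecidableEq V] {X : Finset V} (hc : Cub G X) (hcl : Closed G X) (hu : ¬ Unc G X)
    (M1 : ∀ W ⊆ X, TwoEC G W → FF G W)
    (M2 : ∀ W ⊆ X, TwoEC G W → Closed G W → Good G W ∨ Unc G W) : Good G X := by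
  unfold Unc at hu
  rw [not_not] at hu
  obtain ⟨c, hcc⟩ := hu
  have hF : HF G X := fun W hW h2 h p hp =>
    (M1 W hW h2 h p hp).resolve_right (fun e => Unc.not hcc hW e.2)
  by_contra hb
  have noleaf : ∀ y x, ¬ Leaf G X y x := by
    intro y x hl
    obtain ⟨a, b, d, hn⟩ := hc y hl.1
    exact hn.1 ((hl.2.2.2 a (hcl y hl.1 a hn.adj1) hn.adj1).trans
      (hl.2.2.2 b (hcl y hl.1 b hn.adj2) hn.adj2).symm)
  rcases lemW hc hF hb with ⟨v, hv⟩ | ⟨W, H, a, b, hw⟩
  · obtain ⟨a, b, d, hn⟩ := hc v hv.1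
    exact hv.2 a (hcl v hv.1 a hn.adj1) hn.adj1
  · have hWX : W ⊆ X := hw.sub.trans hw.subX
    have hs : Single G W b a := by
      intro x hx y hy hxy
      rcases hw.half hx hxy with r | r | r | r
      · exact absurd r hy
      · exact absurd r.2.2 (noleaf _ _)
      · exact r.2
      · exact absurd (hcl x (hWX hx) y hxy) r
    by_cases e : Closed G W
    · exact hw.badW ((M2 W hWX hw.two e).resolve_right (Unc.not hcc hWX))
    · unfold Closed at e
      push Not at e
      obtain ⟨x, hx, y, hxy, hy⟩ := e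
      obtain ⟨rfl, rfl⟩ := hs x hx y hy hxy
      exact hw.badW ((hF W hWX hw.two y x ⟨hy, hx, hxy, fun q hq hq' => (hs q hq y hy hq').1⟩).good_single hs)

/-- the frozen statement from the two main facts -/
theorem top (V : Type) [Fintype V] (G : SimpleGraph V) [DecidableRel G.Adj]
    (M1 : ∀ W, Cub G W → TwoEC G W → FF G W)
    (M2 : ∀ W, Cub G W → TwoEC G W → Closed G W → Good G W ∨ Unc G W) :
    G.IsRegularOfDegree 3 →
      (∃ c : V → ℕ, (∀ u v : V, G.Adj u v → c u ≠ c v) ∧
          ∀ v : V, ((G.neighborFinset v).image c).card = 2) →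
      ∃ c : V → Fin 4, (∀ u v : V, G.Adj u v → c u ≠ c v) ∧
          ∀ v : V, ((G.neighborFinset v).image c).card = 2 := by
  classical
  rintro hr ⟨c, h1, h2⟩
  have nf : ∀ v x y z, Nb G v x y z → G.neighborFinset v = {x, y, z} := by
    intro v x y z h; ext w; simp [h.2.2.2]
  have hc : Cub G Finset.univ := by
    intro v _
    obtain ⟨x, y, z, a, b, d, e⟩ := Finset.card_eq_three.1 (hr v)
    refine ⟨x, y, z, a, b, d, fun w => ?_⟩
    rw [← G.mem_neighborFinset, e]; simp
  have hu : ¬ Unc G Finset.univ := by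
    refine fun u => u ⟨c, fun v _ x y z h => ?_⟩
    have := h2 v
    rw [nf v x y z h] at this
    simp only [Finset.image_insert, Finset.image_singleton] at this
    exact ⟨h1 _ _ h.adj1, h1 _ _ h.adj2, h1 _ _ h.adj3, (card_three_eq_two _ _ _).1 this⟩
  obtain ⟨d, -, hd⟩ := top_closed hc (fun _ _ _ _ => Finset.mem_univ _) hu
    (fun W hW => M1 W (hc.mono hW)) (fun W hW => M2 W (hc.mono hW))
  refine ⟨d, fun u v h => (hd u (Finset.mem_univ _)).ne hc (Finset.mem_univ _) h, fun v => ?_⟩
  obtain ⟨x, y, z, h⟩ := hc v (Finset.mem_univ _)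
  rw [nf v x y z h]
  simp only [Finset.image_insert, Finset.image_singleton]
  exact (card_three_eq_two _ _ _).2 (hd v (Finset.mem_univ _) x y z h).2.2.2

end Pool.Agent.Hom2
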