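import Pool.Agent.Lib.MP_7e4769_co.Hc.UDef

set_option autoImplicit false

namespace Pool.Agent.Hom2.UC

open Classical

variable {V : Type} {G : SimpleGraph V} {X : Finset V}

theorem two_eq (i : ℕ) : two i = 2 ^ i := by
  change 1 <<< i = _
  rw [Nat.one_shiftLeft]
theorem tb_two (i j : ℕ) : tb (two i) j = true ↔ j = i := by
  rw [two_eq, tb_eq, Nat.testBit_two_pow, decide_eq_true_iff, eq_comm]
theorem tb_or (a b j : ℕ) : tb (Nat.lor a b) j = true ↔ tb a j = true ∨ tb b j = true := by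
  rw [tb_lor, Bool.or_eq_true]
theorem tb_and (a b j : ℕ) : tb (Nat.land a b) j = true ↔ tb a j = true ∧ tb b j = true := by
  change tb (a &&& b) j = true ↔ _
  rw [tb_eq, tb_eq, tb_eq, Nat.testBit_and, Bool.and_eq_true]
theorem tb_dif (a b j : ℕ) : tb (dif a b) j = true ↔ tb a j = true ∧ ¬ tb b j = true := by
  change tb (a ^^^ (a &&& b)) j = true ↔ _
  rw [tb_eq, tb_eq, tb_eq, Nat.testBit_xor, Nat.testBit_and]
  cases a.testBit j <;> cases b.testBit j <;> simp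
theorem tb_alm (n j : ℕ) : tb (alm n) j = true ↔ j < n := by
  change tb (two n - 1) j = true ↔ _
  rw [two_eq, tb_eq, Nat.testBit_two_pow_sub_one, decide_eq_true_iff]
theorem z0_iff (x : ℕ) : z0 x = true ↔ x = 0 := by
  rw [z0, Nat.beq_eq]
theorem nz_iff (x : ℕ) : nz x = true ↔ x ≠ 0 := by
  rw [nz, Nat.ble_eq, Nat.one_le_iff_ne_zero]
theorem eq_zero_iff (x : ℕ) : x = 0 ↔ ∀ j, ¬ tb x j = true := by
  refine ⟨fun h j => by simp [h], fun h => by_contra fun e => ?_⟩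
  obtain ⟨i, hi⟩ := exists_tb e
  exact h i hi
theorem dif_zero {a b : ℕ} (h : dif a b = 0) {j : ℕ} (ha : tb a j = true) : tb b j = true := by
  by_contra e
  exact (eq_zero_iff _).1 h j ((tb_dif a b j).2 ⟨ha, e⟩)
theorem bt_eq (x i : ℕ) : bt x i = if tb x i = true then 1 else 0 := by
  change (x >>> i) &&& 1 = _
  rw [tb_eq, Nat.and_one_is_mod, Nat.testBit_eq_decide_div_mod_eq, Nat.shiftRight_eq_div_pow]
  simp only [decide_eq_true_iff]
  split_ifs <;> omega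
theorem sg_eq (x : ℕ) : sg x = if x = 0 then 0 else 1 := by
  change 1 - (1 - x) = _
  split_ifs <;> omega
theorem tb_top {x : ℕ} (h : x ≠ 0) : tb x (Nat.log2 x) = true := by
  rw [tb_eq]
  exact Nat.testBit_log2 h
theorem tb_lw (x j : ℕ) : tb (lw x) j = true ↔ tb x j = true ∧ j ≠ Nat.log2 x := by
  change tb (x % two (Nat.log2 x)) j = true ↔ _
  rw [two_eq, tb_eq, tb_eq, Nat.testBit_mod_two_pow, Bool.and_eq_true, decide_eq_true_iff, and_comm]
  refine and_congr_right fun h => ⟨fun e => e.ne, fun e => lt_of_le_of_ne ?_ e⟩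
  have h1 := Nat.ge_two_pow_of_testBit h
  exact (Nat.le_log2 (Nat.ne_of_gt (lt_of_lt_of_le (Nat.two_pow_pos j) h1))).2 h1
theorem lw_zero {x : ℕ} (h : lw x = 0) {a b : ℕ} (ha : tb x a = true) (hb : tb x b = true) : a = b := by
  have k : ∀ c, tb x c = true → c = Nat.log2 x := fun c hc => by_contra fun e =>
    (eq_zero_iff _).1 h c ((tb_lw x c).2 ⟨hc, e⟩)
  rw [k a ha, k b hb]
theorem lw_ne {x : ℕ} (h : lw x ≠ 0) : ∃ a b, a ≠ b ∧ tb x a = true ∧ tb x b = true := by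
  obtain ⟨a, ha⟩ := exists_tb h
  obtain ⟨h1, h2⟩ := (tb_lw x a).1 ha
  refine ⟨a, _, h2, h1, tb_top ?_⟩
  rintro rfl
  simp at h1
theorem pcl_le (x : ℕ) (s : Finset ℕ) (h : ∀ j, tb x j = true → j ∈ s) : pcl x ≤ s.card := by
  have key : ∀ (y : ℕ) (t : Finset ℕ), (∀ j, tb y j = true → j ∈ t) → y ≠ 0 →
      (∀ j, tb (lw y) j = true → j ∈ t.erase (Nat.log2 y)) ∧
        (t.erase (Nat.log2 y)).card + 1 = t.card := fun y t ht hy =>
    ⟨fun j hj => Finset.mem_erase.2 ⟨((tb_lw y j).1 hj).2, ht j ((tb_lw y j).1 hj).1⟩,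
      Finset.card_erase_add_one (ht _ (tb_top hy))⟩
  have z : lw 0 = 0 := Nat.zero_mod _
  change sg x + (sg (lw x) + sg (lw (lw x))) ≤ _
  simp only [sg_eq]
  by_cases h0 : x = 0
  · simp [h0, z]
  obtain ⟨a1, a2⟩ := key x s h h0
  by_cases h1 : lw x = 0
  · simp only [h0, h1, z, if_true, if_false]
    omega
  obtain ⟨b1, b2⟩ := key _ _ a1 h1
  by_cases h2 : lw (lw x) = 0
  · simp only [h0, h1, h2, if_true, if_false]
    omega
  obtain ⟨-, c2⟩ := key _ _ b1 h2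
  simp only [h0, h1, h2, if_false]
  omega
theorem tb_mod (m j i : ℕ) : tb (m % 2 ^ j) i = true ↔ tb m i = true ∧ i < j := by
  rw [tb_eq, tb_eq, Nat.testBit_mod_two_pow, Bool.and_eq_true, decide_eq_true_iff, and_comm]
theorem ub2_blf {f : ℕ → ℕ → ℕ → ℕ} {j : ℕ} (n : ℕ) : ∀ m B, blf f n m B ≠ 0 → tb m j = true →
    ∃ B', f j (m % 2 ^ j) B' ≠ 0 := by
  induction n with
  | zero => intro m B h; exact absurd rfl h
  | succ n ih =>
    intro m B h hj
    have e : blf f (n + 1) m B = bif z0 m then B else fz (Nat.log2 m) fun j =>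
      fz (Nat.mod m (two j)) fun m' => sq (f j m' B) (blf f n m') := rfl
    have m0 : m ≠ 0 := by
      rintro rfl
      simp [tb_eq] at hj
    have z : z0 m = false := by
      rw [← Bool.not_eq_true, z0_iff]
      exact m0
    rw [e, z, cond_false, fz_eq, fz_eq, two_eq] at h
    obtain ⟨a, b⟩ := sq_ne h
    have le : j ≤ Nat.log2 m := (Nat.le_log2 m0).2 (Nat.ge_two_pow_of_testBit (tb_eq m j ▸ hj))
    rcases le.eq_or_lt with rfl | lt
    · exact ⟨B, a⟩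
    · obtain ⟨B', c⟩ := ih _ _ b ((tb_mod m _ j).2 ⟨hj, lt⟩)
      refine ⟨B', ?_⟩
      rwa [show Nat.mod m (2 ^ m.log2) = m % 2 ^ m.log2 from rfl,
        Nat.mod_mod_of_dvd _ (Nat.pow_dvd_pow 2 le)] at c
theorem bl_ne {f : ℕ → ℕ → ℕ → ℕ} {m B : ℕ} (h : bl f m B ≠ 0) {j : ℕ} (hj : tb m j = true) :
    ∃ B', f j (m % 2 ^ j) B' ≠ 0 := by
  rw [bl, fz_eq] at h
  exact ub2_blf 65 m B h hj
theorem bla_true {f : ℕ → Bool} {m : ℕ} (h : bla f m = true) {j : ℕ} (hj : tb m j = true) :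
    f j = true := by
  obtain ⟨B', e⟩ := bl_ne ((nz_iff _).1 h) hj
  exact (cond_ne e).1
theorem tb_row_lt {A i j : ℕ} (h : tb (row A i) j = true) : j < 64 := by
  exact ((tb_mod (Nat.shiftRight A (Nat.add (Nat.mul 64 i) 320)) 64 j).1 h).2
theorem tb_kql {lv i : ℕ} (h : tb (kql lv) i = true) : 2 ≤ lv := by
  by_contra e
  have : kql lv = 0 := by
    show lv / 2 * 18446744073709551615 = 0
    rw [Nat.div_eq_of_lt (by omega), Nat.zero_mul]
  rw [this, tb_eq, Nat.zero_testBit] at h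
  exact absurd h (by simp)
theorem kql_ne {lv : ℕ} (h : kql lv ≠ 0) : 2 ≤ lv := by
  obtain ⟨i, hi⟩ := exists_tb h
  exact tb_kql hi
theorem ub3_w0 (x b : ℕ) : tb (w64 x) b = true ↔ b < 64 ∧ tb x b = true := by
  rw [show w64 x = Nat.mod x (Nat.pow 2 64) from rfl, tb_mod_pow, and_comm]
theorem ub3_w (x p b : ℕ) :
    tb (w64 (Nat.shiftRight x p)) b = true ↔ b < 64 ∧ tb x (p + b) = true := by
  rw [ub3_w0, tb_eq, tb_eq, show Nat.shiftRight x p = x >>> p from rfl, Nat.testBit_shiftRight]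
theorem ub3_shl (x p q : ℕ) :
    tb (Nat.shiftLeft x p) q = true ↔ p ≤ q ∧ tb x (q - p) = true := by
  rw [tb_eq, tb_eq, show Nat.shiftLeft x p = x <<< p from rfl, Nat.testBit_shiftLeft]
  simp
theorem ub3_ext {x y : ℕ} (h : ∀ b, tb x b = true ↔ tb y b = true) : x = y :=
  Nat.eq_of_testBit_eq fun b => by rw [← tb_eq, ← tb_eq, Bool.eq_iff_iff, h]
theorem ub3_row (A a b : ℕ) :
    tb (row A a) b = true ↔ b < 64 ∧ tb A (64 * a + 320 + b) = true := ub3_w _ _ _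
theorem ub3_mT (A b : ℕ) : tb (mT A) b = true ↔ b < 64 ∧ tb A b = true := ub3_w0 _ _
theorem ub3_mQ (A b : ℕ) : tb (mQ A) b = true ↔ b < 64 ∧ tb A (64 + b) = true := ub3_w _ _ _
theorem ub3_d1 (A b : ℕ) : tb (d1 A) b = true ↔ b < 64 ∧ tb A (128 + b) = true := ub3_w _ _ _
theorem ub3_d2 (A b : ℕ) : tb (d2 A) b = true ↔ b < 64 ∧ tb A (192 + b) = true := ub3_w _ _ _
theorem ub3_d3 (A b : ℕ) : tb (d3 A) b = true ↔ b < 64 ∧ tb A (256 + b) = true := ub3_w _ _ _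
theorem ub3_edge (A i j q : ℕ) : tb (edge A i j) q = true ↔
    (tb A q = true ∨ q = 64 * i + 320 + j ∨ q = 64 * j + 320 + i) ∨
    (128 ≤ q ∧ (q - 128 = i ∨ q - 128 = j)) ∨
    (192 ≤ q ∧ tb (d1 A) (q - 192) = true ∧ (q - 192 = i ∨ q - 192 = j)) ∨
    (256 ≤ q ∧ tb (d2 A) (q - 256) = true ∧ (q - 256 = i ∨ q - 256 = j)) := by
  unfold edge
  simp only [tb_or, tb_and, tb_two, ub3_shl]
  rfl
theorem ub3_stb (A i q : ℕ) : tb (stb A i) q = true ↔ tb A q = true ∨ q = i := by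
  rw [stb, tb_or, tb_two]
theorem ub3_skr (A i q : ℕ) : tb (skr A i) q = true ↔ tb A q = true ∨ q = 64 + i := by
  rw [skr, tb_or, tb_two]
  rfl
theorem ub3_same {b : ℕ} {P Q : Prop} (h : b < 64 → ¬ Q) :
    b < 64 ∧ (P ∨ Q) ↔ b < 64 ∧ P := by tauto
theorem ub3_new {b i : ℕ} {P Q : Prop} (hi : i < 64) (h : Q ↔ b = i) :
    b < 64 ∧ (P ∨ Q) ↔ (b < 64 ∧ P) ∨ b = i := by
  rw [h]
  constructor
  · tauto
  · rintro (⟨u, v⟩ | rfl)
    · exact ⟨u, Or.inl v⟩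
    · exact ⟨hi, Or.inr rfl⟩
theorem row_edge {A i j : ℕ} (hi : i < 64) (hj : j < 64) (a b : ℕ) : tb (row (edge A i j) a) b = true ↔
    tb (row A a) b = true ∨ (a = i ∧ b = j) ∨ (a = j ∧ b = i) := by
  rw [ub3_row, ub3_row, ub3_edge]
  constructor
  · rintro ⟨hb, (h | h | h) | h | h | h⟩
    · exact Or.inl ⟨hb, h⟩
    all_goals omega
  · rintro (⟨hb, h⟩ | ⟨rfl, rfl⟩ | ⟨rfl, rfl⟩)
    · exact ⟨hb, Or.inl (Or.inl h)⟩
    · exact ⟨hj, Or.inl (Or.inr (Or.inl rfl))⟩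
    · exact ⟨hi, Or.inl (Or.inr (Or.inr rfl))⟩
theorem mT_edge {A i j : ℕ} (hi : i < 64) (hj : j < 64) : mT (edge A i j) = mT A := by
  refine ub3_ext fun b => ?_
  rw [ub3_mT, ub3_mT, ub3_edge, or_assoc]
  exact ub3_same fun hb h => by omega
theorem mQ_edge {A i j : ℕ} (hi : i < 64) (hj : j < 64) : mQ (edge A i j) = mQ A := by
  refine ub3_ext fun b => ?_
  rw [ub3_mQ, ub3_mQ, ub3_edge, or_assoc]
  exact ub3_same fun hb h => by omega
theorem d1_edge {A i j : ℕ} (hi : i < 64) (hj : j < 64) (a : ℕ) : tb (d1 (edge A i j)) a = true ↔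
    tb (d1 A) a = true ∨ a = i ∨ a = j := by
  rw [ub3_d1, ub3_d1, ub3_edge]
  constructor
  · rintro ⟨hb, (h | h | h) | h | h | h⟩
    · exact Or.inl ⟨hb, h⟩
    all_goals omega
  · rintro (⟨hb, h⟩ | h)
    · exact ⟨hb, Or.inl (Or.inl h)⟩
    · exact ⟨by omega, Or.inr (Or.inl (by omega))⟩
theorem d2_edge {A i j : ℕ} (hi : i < 64) (hj : j < 64) (a : ℕ) : tb (d2 (edge A i j)) a = true ↔
    tb (d2 A) a = true ∨ (tb (d1 A) a = true ∧ (a = i ∨ a = j)) := by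
  rw [ub3_d2, ub3_d2, ub3_edge, Nat.add_sub_cancel_left]
  constructor
  · rintro ⟨hb, (h | h | h) | h | h | h⟩
    · exact Or.inl ⟨hb, h⟩
    · omega
    · omega
    · omega
    · exact Or.inr h.2
    · omega
  · rintro (⟨hb, h⟩ | h)
    · exact ⟨hb, Or.inl (Or.inl h)⟩
    · exact ⟨by omega, Or.inr (Or.inr (Or.inl ⟨by omega, h⟩))⟩
theorem d3_edge {A i j : ℕ} (hi : i < 64) (hj : j < 64) (a : ℕ) : tb (d3 (edge A i j)) a = true ↔
    tb (d3 A) a = true ∨ (tb (d2 A) a = true ∧ (a = i ∨ a = j)) := by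
  rw [ub3_d3, ub3_d3, ub3_edge, Nat.add_sub_cancel_left]
  constructor
  · rintro ⟨hb, (h | h | h) | h | h | h⟩
    · exact Or.inl ⟨hb, h⟩
    · omega
    · omega
    · omega
    · omega
    · exact Or.inr h.2
  · rintro (⟨hb, h⟩ | h)
    · exact ⟨hb, Or.inl (Or.inl h)⟩
    · exact ⟨by omega, Or.inr (Or.inr (Or.inr ⟨by omega, h⟩))⟩
theorem stb_spec {A i : ℕ} (hi : i < 64) : (∀ a, row (stb A i) a = row A a) ∧
    (∀ a, tb (mT (stb A i)) a = true ↔ tb (mT A) a = true ∨ a = i) ∧ mQ (stb A i) = mQ A ∧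
    d1 (stb A i) = d1 A ∧ d2 (stb A i) = d2 A ∧ d3 (stb A i) = d3 A := by
  refine ⟨fun a => ub3_ext fun b => ?_, fun b => ?_, ub3_ext fun b => ?_, ub3_ext fun b => ?_,
    ub3_ext fun b => ?_, ub3_ext fun b => ?_⟩ <;>
    simp only [ub3_row, ub3_mT, ub3_mQ, ub3_d1, ub3_d2, ub3_d3, ub3_stb]
  · exact ub3_same fun hb h => by omega
  · exact ub3_new hi Iff.rfl
  all_goals exact ub3_same fun hb h => by omega
theorem skr_spec {A i : ℕ} (hi : i < 64) : (∀ a, row (skr A i) a = row A a) ∧ mT (skr A i) = mT A ∧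
    (∀ a, tb (mQ (skr A i)) a = true ↔ tb (mQ A) a = true ∨ a = i) ∧
    d1 (skr A i) = d1 A ∧ d2 (skr A i) = d2 A ∧ d3 (skr A i) = d3 A := by
  refine ⟨fun a => ub3_ext fun b => ?_, ub3_ext fun b => ?_, fun b => ?_, ub3_ext fun b => ?_,
    ub3_ext fun b => ?_, ub3_ext fun b => ?_⟩ <;>
    simp only [ub3_row, ub3_mT, ub3_mQ, ub3_d1, ub3_d2, ub3_d3, ub3_skr]
  · exact ub3_same fun hb h => by omega
  · exact ub3_same fun hb h => by omega
  · exact ub3_new hi (by omega)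
  all_goals exact ub3_same fun hb h => by omega
theorem cv_lt (C i : ℕ) : cv C i < 64 := by
  exact Nat.mod_lt _ (by omega)
/-- a new register -/
theorem cv_push {ro k z : ℕ} (h : ro < 2 ^ (6 * k)) (hz : z < 64) :
    (∀ r < k, cv (Nat.lor ro (Nat.shiftLeft z (Nat.mul 6 k))) r = cv ro r) ∧
    cv (Nat.lor ro (Nat.shiftLeft z (Nat.mul 6 k))) k = z ∧
    Nat.lor ro (Nat.shiftLeft z (Nat.mul 6 k)) < 2 ^ (6 * (k + 1)) := by
  have e : ∀ r : ℕ, Nat.mul 6 r = 6 * r := fun _ => rfl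
  refine ⟨fun r hr => ?_, ?_, ?_⟩
  · rw [cv, cv, fld_or _ _ _ _ hz (by simp only [e]; omega), if_neg (by simp only [e]; omega)]
  · rw [cv, fld_or _ _ _ _ hz (.inl rfl), if_pos rfl, fld_eq, e, Nat.shiftRight_eq_div_pow,
      Nat.div_eq_of_lt h]
    simp
  · refine Nat.or_lt_two_pow (h.trans_le (Nat.pow_le_pow_right (by omega) (by omega))) ?_
    show z <<< (6 * k) < _
    rw [Nat.shiftLeft_eq, Nat.mul_add, Nat.pow_add, Nat.mul_comm]
    exact Nat.mul_lt_mul_of_pos_left hz (Nat.two_pow_pos _)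
theorem tb_mkL (Lq c j : ℕ) : tb (mkL Lq c) j = true ↔ ∃ i < c, cv Lq i = j := by
  induction c with
  | zero => simp [mkL, tb_eq]
  | succ c ih =>
    rw [show mkL Lq (c + 1) = Nat.lor (mkL Lq c) (two (cv Lq c)) from rfl, tb_or, ih, tb_two]
    constructor
    · rintro (⟨i, a, b⟩ | a)
      exacts [⟨i, by omega, b⟩, ⟨c, by omega, a.symm⟩]
    · rintro ⟨i, a, b⟩
      rcases Nat.lt_succ_iff_lt_or_eq.1 a with a | rfl
      exacts [.inl ⟨i, a, b⟩, .inr b.symm]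
theorem chkL_true {g : ℕ → ℕ → Bool} {l : List ℕ} {a : ℕ} (h : chkL g l a = true) :
    ∀ i < l.length, ∃ B, g (a + i) B = true := by
  induction l generalizing a with
  | nil => intro i hi; simp at hi
  | cons B l ih =>
    have e : chkL g (B :: l) a = (g a B && fzb (Nat.succ a) (chkL g l)) := rfl
    rw [e, fzb_eq, Bool.and_eq_true] at h
    intro i hi
    cases i with
    | zero => exact ⟨B, h.1⟩
    | succ i =>
      obtain ⟨B', e⟩ := ih h.2 i (by simpa using hi)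
      exact ⟨B', by rwa [Nat.succ_add] at e⟩

end Pool.Agent.Hom2.UC
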