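import Pool.Agent.Lib.MP_7e4769_co.Hc.TDefs

set_option autoImplicit false

namespace Pool.Agent.Hom2.UC

noncomputable section

/-! state `A`: rows of 64 bits; row 0 stubs, row 1 kernel flags, rows 2 3 4 degree at least 1 2 3,
row `i + 5` the known neighbours of vertex `i` -/

def two (i : ℕ) : ℕ := Nat.shiftLeft 1 i
def bt (x i : ℕ) : ℕ := Nat.land (Nat.shiftRight x i) 1
def w64 (x : ℕ) : ℕ := Nat.mod x 18446744073709551616
def row (A i : ℕ) : ℕ := w64 (Nat.shiftRight A (Nat.add (Nat.mul 64 i) 320))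
def mT (A : ℕ) : ℕ := w64 A
def mQ (A : ℕ) : ℕ := w64 (Nat.shiftRight A 64)
def d1 (A : ℕ) : ℕ := w64 (Nat.shiftRight A 128)
def d2 (A : ℕ) : ℕ := w64 (Nat.shiftRight A 192)
def d3 (A : ℕ) : ℕ := w64 (Nat.shiftRight A 256)
def dif (a b : ℕ) : ℕ := Nat.xor a (Nat.land a b)
/-- remove the top bit -/
def lw (x : ℕ) : ℕ := Nat.mod x (two (Nat.log2 x))
def sg (x : ℕ) : ℕ := Nat.sub 1 (Nat.sub 1 x)
/-- number of bits, at most 3 -/
def pcl (x : ℕ) : ℕ := Nat.add (sg x) (Nat.add (sg (lw x)) (sg (lw (lw x))))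
def alm (n : ℕ) : ℕ := Nat.sub (two n) 1
def ful (A : ℕ) : ℕ := Nat.lor (d3 A) (Nat.land (d2 A) (mT A))
def ker (kq A : ℕ) : ℕ := Nat.lor kq (Nat.lor (mQ A) (d3 A))
def opn (n A : ℕ) : ℕ := dif (alm n) (ful A)
def edge (A i j : ℕ) : ℕ :=
  Nat.lor (Nat.lor A (Nat.lor (two (Nat.add (Nat.add (Nat.mul 64 i) 320) j))
      (two (Nat.add (Nat.add (Nat.mul 64 j) 320) i))))
    (Nat.lor (Nat.shiftLeft (Nat.lor (two i) (two j)) 128)
      (Nat.lor (Nat.shiftLeft (Nat.land (d1 A) (Nat.lor (two i) (two j))) 192)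
        (Nat.shiftLeft (Nat.land (d2 A) (Nat.lor (two i) (two j))) 256)))
def stb (A i : ℕ) : ℕ := Nat.lor A (two i)
def skr (A i : ℕ) : ℕ := Nat.lor A (two (Nat.add 64 i))
def z0 (x : ℕ) : Bool := Nat.beq x 0
def nz (x : ℕ) : Bool := Nat.ble 1 x
/-- all ones on level 2 -/
def kql (lv : ℕ) : ℕ := Nat.mul (Nat.div lv 2) 18446744073709551615

/-- loop over the bits of a mask, from the top; `f j m'` also gets the lower bits -/
def blf (f : ℕ → ℕ → ℕ → ℕ) (fuel : ℕ) : ℕ → ℕ → ℕ :=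
  Nat.rec (fun _ _ => 0) (fun _ r m B => bif z0 m then B else
    fz (Nat.log2 m) fun j => fz (Nat.mod m (two j)) fun m' => sq (f j m' B) (r m')) fuel
def bl (f : ℕ → ℕ → ℕ → ℕ) (m B : ℕ) : ℕ := fz m fun m => blf f 65 m B
/-- all bits of the mask pass the test -/
def bla (f : ℕ → Bool) (m : ℕ) : Bool := nz (bl (fun j _ B => bif f j then B else 0) m 1)

abbrev Cl := ℕ → ℕ → ℕ → ℕ

/-! facts: `n0 + 64 * fields`, 14 bits per vertex (two neighbours, stub flag, kernel flag) -/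

def fN (E : ℕ) : ℕ := Nat.mod E 64
def fF (E i : ℕ) : ℕ := fld E (Nat.add 6 (Nat.mul 14 i)) 16384
def fA (e : ℕ) : ℕ := Nat.mod e 64
def fB (e : ℕ) : ℕ := fld e 6 64

def refStep (E M A t q i u : ℕ) : ℕ :=
  fz (cv M i) fun m => fz (fF E i) fun e => fz (row A m) fun r =>
  Nat.mul (Nat.lor u (two (Nat.succ m)))
    (Nat.land (Nat.land (Nat.land (bt r (cv M (fA e))) (bt r (cv M (fB e))))
        (Nat.land (Nat.lor (bt t m) (Nat.xor 1 (bt e 12))) (Nat.lor (bt q m) (Nat.xor 1 (bt e 13)))))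
      (Nat.xor 1 (bt u (Nat.succ m))))

/-- tag 0 -/
def rRef (db : ℕ → ℕ) (f kq A B : ℕ) : ℕ :=
  fz (Nat.mod B 32768) fun g => fz (db g) fun E => fz (shr B 15) fun M =>
  fz (mT A) fun t => fz (ker kq A) fun q => fz (fN E) fun n0 =>
  bif lt g f && nz (thr n0 (refStep E M A t q) 1) then shr M (Nat.mul 6 n0) else 0

/-! colourings: two bit planes -/

def colr (lo hi v : ℕ) : ℕ := Nat.add (bt lo v) (Nat.mul 2 (bt hi v))
/-- set of the colours seen by `v` inside the four classes (a stub has colour 3) -/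
def cset (A c0 c1 c2 c3 v : ℕ) : ℕ :=
  fz (row A v) fun r =>
  Nat.add (Nat.add (sg (Nat.land r c0)) (Nat.mul 2 (sg (Nat.land r c1))))
    (Nat.add (Nat.mul 4 (sg (Nat.land r c2))) (Nat.mul 8 (sg (Nat.add (Nat.land r c3) (bt (mT A) v)))))
def okT (x cs : ℕ) : ℕ := bt 29280029311505472 (Nat.add (Nat.mul 16 x) cs)
/-- the four classes inside `U` -/
def cls4 (U lo hi : ℕ) (k : ℕ → ℕ → ℕ → ℕ → ℕ) : ℕ :=
  fz (Nat.land lo hi) fun c3 => fz (Nat.xor lo c3) fun c1 => fz (Nat.xor hi c3) fun c2 =>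
  fz (dif U (Nat.lor lo hi)) fun c0 => k c0 c1 c2 c3
/-- nonzero if all vertices of `I` are fine -/
def okI (A lo hi c0 c1 c2 c3 I : ℕ) : ℕ :=
  bl (fun v _ b => Nat.mul b (okT (colr lo hi v) (cset A c0 c1 c2 c3 v))) I 1

/-- tag 1 -/
def rCol (n A B : ℕ) : ℕ :=
  fz (alm n) fun U => fz (Nat.land B U) fun lo => fz (Nat.land (shr B n) U) fun hi =>
  bif nz n && z0 (opn n A) && nz (cls4 U lo hi fun c0 c1 c2 c3 => okI A lo hi c0 c1 c2 c3 U)
  then shr B (Nat.mul 2 n) else 0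

/-- tag 2 -/
def rMem (n A B : ℕ) : ℕ :=
  fz (Nat.mod B 128) fun m => fz (shr B 7) fun M => fz (mN m) fun n0 => fz (mR m) fun R =>
  bif lt m 70 && ne (injM n0 (cv M)) 0 && allLt n0 (fun i => fzb (cv M i) fun j => lt j n &&
    all3 (fun k => fzb (sl R i k) fun c =>
      bif Nat.beq c 0 then true else bif Nat.beq c 1 then tb (mT A) j else
        lt (Nat.sub c 2) n0 && tb (row A j) (cv M (Nat.sub c 2))))
  then shr M (Nat.mul 6 n0) else 0

/-- at most one edge leaves `S` at `a` -/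
def oneL (A S a : ℕ) : Bool :=
  !tb S a || fzb (Nat.land (row A a) S) fun x => nz (lw x) || (tb (mT A) a && nz x)

/-- tag 3 -/
def rCut (lv n A B : ℕ) : ℕ :=
  fz (alm n) fun U => fz (Nat.land B U) fun S => fz (fld B n 64) fun a =>
  fz (fld B (Nat.add n 6) 64) fun a' => fz (dif S (Nat.lor (two a) (two a'))) fun I =>
  bif (bif Nat.beq a' 63 then nz S && nz (dif U S) else
      Nat.ble 1 lv && nz (lw S) && nz (lw (dif U S))) &&
    z0 (dif I (ful A)) && oneL A S a && oneL A S a' && bla (fun i => z0 (dif (row A i) S)) I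
  then shr B (Nat.add n 12) else 0

/-- tag 4 -/
def rSplit (rc : Cl) (kq n A B : ℕ) : ℕ :=
  fz (Nat.mod B 64) fun i => fz (opn n A) fun O =>
  bif tb O i && lt n 62 then
    sq (bif tb (Nat.lor (mT A) (ker kq A)) i then shr B 6 else
        fz (stb A i) fun A' => rc n A' (shr B 6)) fun B1 =>
    sq (bl (fun j _ B2 => fz (edge A i j) fun A' => rc n A' B2)
        (dif O (Nat.lor (row A i) (two i))) B1) fun B3 =>
    fz (edge A i n) fun A' => rc (Nat.succ n) A' B3
  else 0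

/-- tag 5 -/
def rKer (rc : Cl) (n A B : ℕ) : ℕ :=
  fz (Nat.mod B 64) fun i =>
  bif lt i n then
    sq (fz (stb A i) fun A' => rc n A' (shr B 6)) fun B1 => fz (skr A i) fun A' => rc n A' B1
  else 0

def gstep (db : ℕ → ℕ) (lv kq f : ℕ) (mv rc : Cl) (n A B : ℕ) : ℕ :=
  fz (Nat.mod B 8) fun t => fz (shr B 3) fun B' =>
  bif Nat.beq t 0 then rRef db f kq A B' else
  bif lt t 4 then
    bif Nat.beq t 3 then rCut lv n A B' else bif Nat.beq t 1 then rCol n A B' else rMem n A B'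
  else bif Nat.beq t 4 then rSplit rc kq n A B' else
    bif Nat.beq t 5 then rKer rc n A B' else mv n A B'

def gen (db : ℕ → ℕ) (lv kq f : ℕ) (mv : Cl) (fuel : ℕ) : Cl :=
  Nat.rec (fun _ _ _ => 0) (fun _ r => gstep db lv kq f mv r) fuel

/-- the closing rules -/
def cls (db : ℕ → ℕ) (lv kq f : ℕ) : Cl := gen db lv kq f (fun _ _ _ => 0) 60

/-- cut point: close here (bit 1) or go on (bit 0) -/
def cp (cl : Cl) (n A : ℕ) (k : ℕ → ℕ → ℕ) (B : ℕ) : ℕ :=
  fz A fun A => bif z0 (Nat.land B 1) then k A (shr B 1) else cl n A (shr B 1)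

/-! witness programs -/

/-- list of alternatives; code `op + 8 * rq + 128 * a + 8192 * b` -/
inductive PT where
  | nil : PT
  | cons (c : ℕ) (ch nx : PT) : PT

def cO (c : ℕ) : ℕ := Nat.mod c 8
def cR (c : ℕ) : ℕ := fld c 3 16
def cA (c : ℕ) : ℕ := fld c 7 64
def cB (c : ℕ) : ℕ := fld c 13 64

structure Wd where
  NW : ℕ
  Rg : ℕ
  ro : ℕ
  k : ℕ
  sl : ℕ
  df : ℕ
  rv : ℕ

/-- a state of the witness machine that is checked on its own; `pa` is the path in the program -/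
structure Ent where
  pa : List Bool
  Sa : ℕ
  n : ℕ
  A : ℕ
  w : Wd

structure Prog where
  idx : ℕ
  SM : ℕ
  r0 : ℕ
  keep : ℕ
  t : PT
  dc : ℕ
  dt : ℕ → Ent

abbrev Ex := ℕ → ℕ → Wd → ℕ → ℕ

/-- one step of the completion of the leaf `x` with parent mask `pm` -/
def lfS (cl : Cl) (kq Sa n x pm : ℕ) (okK : Bool) (ct : ℕ → ℕ → ℕ) (nx : ℕ → ℕ → ℕ → ℕ)
    (Cm A B : ℕ) : ℕ :=
  fz (row A x) fun r => fz (ker kq A) fun q =>
  bif nz (dif r (Nat.lor pm Sa)) || (tb q x && !okK) then B else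
  bif tb (ful A) x then ct A B else
    sq (bif tb (Nat.lor (mT A) q) x then B else cp cl n (stb A x) (nx Cm) B) fun B1 =>
    bif tb (mT A) x then
      bl (fun j m' B2 => cp cl n (edge A x j) (nx m') B2) (dif (Nat.land Cm (opn n A)) r) B1
    else bif okK then
      bl (fun j m' B2 => cp cl n (edge (skr A x) x j) (nx m') B2) (dif (Nat.land Cm (opn n A)) r) B1
    else B1

def lf (cl : Cl) (kq Sa n x pm : ℕ) (okK : Bool) (ct : ℕ → ℕ → ℕ) (A B : ℕ) : ℕ :=
  lfS cl kq Sa n x pm okK ct (lfS cl kq Sa n x pm okK ct (lfS cl kq Sa n x pm okK ct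
    (fun _ _ _ => 0))) Sa A B

/-- `y` may get a further block edge -/
def av (A rv y : ℕ) : Bool :=
  !tb (Nat.lor (d3 A) (Nat.land (d2 A) (Nat.lor (mT A) rv))) y

def reg (ex : Ex) (w : Wd) (n z A B : ℕ) : ℕ :=
  fz (Nat.lor w.Rg (two z)) fun Rg => fz (Nat.lor w.ro (Nat.shiftLeft z (Nat.mul 6 w.k))) fun ro =>
  fz (Nat.succ w.k) fun k => ex n A ⟨w.NW, Rg, ro, k, w.sl, w.df, w.rv⟩ B

def opStub (cl : Cl) (kq : ℕ) (ex : Ex) (y n A : ℕ) (w : Wd) (B : ℕ) : ℕ :=
  bif nz (Nat.land (row A y) w.NW) then B else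
  bif tb (mT A) y then ex n A w B else
  bif tb (ker kq A) y then B else cp cl n (stb A y) (fun A' => ex n A' w) B

def opKer (cl : Cl) (kq : ℕ) (ex : Ex) (y n A : ℕ) (w : Wd) (B : ℕ) : ℕ :=
  bif nz (Nat.land (row A y) w.NW) || tb (mT A) y then B else
  bif tb (ker kq A) y then ex n A w B else cp cl n (skr A y) (fun A' => ex n A' w) B

def opEd (cl : Cl) (ex : Ex) (y z n A : ℕ) (w : Wd) (B : ℕ) : ℕ :=
  bif tb (row A y) z then ex n A w B else
  bif av A w.rv y && av A w.rv z then cp cl n (edge A y z) (fun A' => ex n A' w) B else B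

def opNb (cl : Cl) (ex : Ex) (y n A : ℕ) (w : Wd) (B : ℕ) : ℕ :=
  fz (Nat.lor w.NW w.Rg) fun Bl => fz (row A y) fun r =>
  sq (bl (fun z _ B1 => reg ex w n z A B1) (dif r Bl) B) fun B2 =>
  bif av A w.rv y then
    sq (bl (fun z _ B3 => cp cl n (edge A y z) (reg ex w n z) B3)
        (dif (opn n A) (Nat.lor Bl r)) B2) fun B4 =>
    bif lt n 62 then cp cl (Nat.succ n) (edge A y n) (reg ex w (Nat.succ n) n) B4 else 0
  else B2

/-- after the leaf `x` -/
def aftL (kq : ℕ) (ex : Ex) (w : Wd) (n x A B : ℕ) : ℕ :=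
  fz (Nat.lor w.NW (two x)) fun NW => fz (Nat.sub (Nat.sub w.sl 1) (bt (ker kq A) x)) fun s =>
  ex n A ⟨NW, w.Rg, w.ro, w.k, s, w.df, w.rv⟩ B

def opOut (cl : Cl) (kq Sa : ℕ) (ex : Ex) (rq y n A0 : ℕ) (w : Wd) (B : ℕ) : ℕ :=
  bif tb (mT A0) y then B else
  fz (skr A0 y) fun A => fz (row A y) fun r => fz (Nat.land r w.NW) fun hN =>
  fz (Nat.sub w.sl 1) fun s1 =>
  bif nz hN then
    (bif z0 (lw hN) && z0 (dif hN Sa) then ex n A ⟨w.NW, w.Rg, w.ro, w.k, s1, w.df, w.rv⟩ B else B)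
  else
    cond (Nat.ble (Nat.add rq w.df) (Nat.succ w.sl)) (fun k : Bool → ℕ => k true) (fun k => k false)
    fun okF =>
    cond (lt rq w.sl) (fun k : Bool → ℕ => k true) (fun k => k false) fun okK =>
    sq (bl (fun x _ B1 =>
      sq (lf cl kq Sa n x (two y) okK (aftL kq ex w n x) A B1) fun B2 =>
      bif okF then fz (Nat.lor w.NW (two x)) fun NW => fz (Nat.sub w.sl w.df) fun s =>
        ex n A ⟨NW, w.Rg, w.ro, w.k, s, 99, w.rv⟩ B2 else B2) (dif r w.Rg) B) fun B3 =>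
    bif tb (ful A) y then B3 else
    fz (opn n A) fun O =>
    sq (bl (fun s _ B4 => cp cl n (edge A y s)
        (fun A' => ex n A' ⟨w.NW, w.Rg, w.ro, w.k, s1, w.df, w.rv⟩) B4) (Nat.land O Sa) B3) fun B5 =>
    sq (bl (fun x _ B6 => bif nz (dif (row A x) Sa) then B6 else
        cp cl n (edge A y x) (lf cl kq Sa n x (two y) okK (aftL kq ex w n x)) B6)
        (dif O (Nat.lor (Nat.lor w.NW w.Rg) r)) B5) fun B7 =>
    sq (bif lt n 62 then cp cl (Nat.succ n) (edge A y n)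
        (lf cl kq Sa (Nat.succ n) n (two y) okK (aftL kq ex w (Nat.succ n) n)) B7 else 0) fun B8 =>
    bif okF then fz (Nat.sub w.sl w.df) fun s => fz (two y) fun rv =>
      cp cl n A (fun A' => ex n A' ⟨w.NW, w.Rg, w.ro, w.k, s, 99, rv⟩) B8 else B8

/-- ops: 1 stub, 2 out, 3 edge, 4 neighbour, 5 end, 6 kernel -/
def app (cl : Cl) (kq Sa c : ℕ) (ex : Ex) (n A : ℕ) (w : Wd) (B : ℕ) : ℕ :=
  fz (cO c) fun o => fz (cv w.ro (cA c)) fun y =>
  bif lt o 4 then
    bif Nat.beq o 3 then fz (cv w.ro (cB c)) fun z => opEd cl ex y z n A w B else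
    bif Nat.beq o 2 then opOut cl kq Sa ex (cR c) y n A w B else opStub cl kq ex y n A w B
  else bif Nat.beq o 4 then opNb cl ex y n A w B else
    bif Nat.beq o 6 then opKer cl kq ex y n A w B else cl n A B

def exec (cl : Cl) (kq Sa : ℕ) (t : PT) : Ex :=
  PT.rec (motive := fun _ => Ex) (fun _ _ _ B => B)
    (fun c _ _ ech enx n A w B =>
      sq (bif Nat.ble (cR c) w.sl then app cl kq Sa c ech n A w B else B) (enx n A w)) t

def sub (t : PT) (l : List Bool) : PT :=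
  List.rec t (fun b _ r => PT.rec (motive := fun _ => PT) .nil (fun _ ch nx _ _ => bif b then nx else ch) r) l
def beqL (l : List Bool) : List Bool → Bool :=
  List.rec (fun m => List.rec true (fun _ _ _ => false) m)
    (fun b _ r m => List.rec false (fun c m' _ => (bif b then c else !c) && r m') m) l
def eqE (e : Ent) (pa : List Bool) (Sa n A : ℕ) (w : Wd) : Bool :=
  Nat.beq e.Sa Sa && Nat.beq e.n n && Nat.beq e.A A && Nat.beq e.w.NW w.NW && Nat.beq e.w.Rg w.Rg &&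
    Nat.beq e.w.ro w.ro && Nat.beq e.w.k w.k && Nat.beq e.w.sl w.sl && Nat.beq e.w.df w.df &&
    Nat.beq e.w.rv w.rv && beqL e.pa pa
/-- go on (bit 0) or quote an entry of the table (bit 1) -/
def dfr (dc : ℕ) (dt : ℕ → Ent) (Sa : ℕ) (pa : List Bool) (ex : Ex) (n A : ℕ) (w : Wd) (B : ℕ) : ℕ :=
  bif z0 (Nat.land B 1) then ex n A w (shr B 1) else
    fz (fld B 1 4096) fun i => bif lt i dc && eqE (dt i) pa Sa n A w then shr B 13 else 0
def exq (cl : Cl) (dc : ℕ) (dt : ℕ → Ent) (kq Sa : ℕ) (t : PT) : List Bool → Ex :=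
  PT.rec (motive := fun _ => List Bool → Ex) (fun _ _ _ _ B => B)
    (fun c _ _ ech enx pa n A w B =>
      sq (bif Nat.ble (cR c) w.sl then
        app cl kq Sa c (dfr dc dt Sa (false :: pa) (ech (false :: pa))) n A w B else B)
        (enx (true :: pa) n A w)) t
def exP (cl : Cl) (kq Sa : ℕ) (P : Prog) : Ex :=
  bif z0 P.dc then exec cl kq Sa P.t else exq cl P.dc P.dt kq Sa P.t []

/-- start the program at the port `y`, whose only edge to `NW` goes to the bit `fb` -/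
def beg (ex : Ex) (n NW y fb s df A B : ℕ) : ℕ :=
  bif !tb (mT A) y && Nat.beq (Nat.land (row A y) NW) fb then
    fz (skr A y) fun A' => fz NW fun NW => fz (two y) fun Rg => fz s fun s =>
      ex n A' ⟨NW, Rg, y, 1, s, df, 0⟩ B
  else B

def prt (kq : ℕ) (ex : Ex) (NW b0 df x n y A B : ℕ) : ℕ :=
  beg ex n (Nat.lor NW (two x)) y (two x) (Nat.sub (Nat.sub b0 1) (bt (ker kq A) x)) df A B

/-- the vertex `x`, adjacent to `t`, lies in the witness -/
def atx (cl : Cl) (kq Sa : ℕ) (ex : Ex) (NW L b0 df r0 t n x A B : ℕ) : ℕ :=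
  sq (bif Nat.ble 2 L then lf cl kq Sa n x 0 (Nat.ble 3 L) (cl n) A B else B) fun B1 =>
  bif lt r0 b0 then
    sq (beg ex n NW x (two t) (Nat.sub b0 1) df A B1) fun B2 =>
    cond (lt (Nat.succ r0) b0) (fun k : Bool → ℕ => k true) (fun k => k false) fun okK =>
    fz (dif (row A x) NW) fun kn =>
    bif nz kn then bl (fun y _ B3 => lf cl kq Sa n x (two y) okK (prt kq ex NW b0 df x n y) A B3) kn B2
    else bif tb (ful A) x then B2 else
      sq (bl (fun y _ B3 => cp cl n (edge A x y)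
          (lf cl kq Sa n x (two y) okK (prt kq ex NW b0 df x n y)) B3)
          (dif (opn n A) (Nat.lor NW (two x))) B2) fun B4 =>
      bif lt n 62 then cp cl (Nat.succ n) (edge A x n)
        (lf cl kq Sa (Nat.succ n) x (two n) okK (prt kq ex NW b0 df x (Nat.succ n) n)) B4 else 0
  else B1

def start (cl : Cl) (kq : ℕ) (P : Prog) (n A NW me Sa lvs t B : ℕ) : ℕ :=
  fz (bif Nat.ble me lvs then me else lvs) fun L =>
  fz (bif Nat.ble L (Nat.div me 2) then L else Nat.div me 2) fun hf =>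
  fz (bif Nat.ble L hf then Nat.succ hf else L) fun b0 => fz (Nat.sub b0 hf) fun df =>
  bif Nat.ble b0 P.SM then
    bif lt L 2 && Nat.ble b0 P.r0 then B else
    fz (row A t) fun r =>
    sq (bl (fun x _ B1 => atx cl kq Sa (exP cl kq Sa P) NW L b0 df P.r0 t n x A B1) (dif r NW) B) fun B2 =>
    bif tb (ful A) t then B2 else
    sq (bl (fun x _ B3 => cp cl n (edge A t x)
        (atx cl kq Sa (exP cl kq Sa P) NW L b0 df P.r0 t n x) B3)
        (dif (opn n A) (Nat.lor NW r)) B2) fun B4 =>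
    bif lt n 62 then cp cl (Nat.succ n) (edge A t n)
      (atx cl kq Sa (exP cl kq Sa P) NW L b0 df P.r0 t (Nat.succ n) n) B4 else 0
  else 0

/-- mask of the first `c` entries of the list -/
def mkL (Lq c : ℕ) : ℕ := Nat.rec 0 (fun i r => Nat.lor r (two (cv Lq i))) c
/-- bound for the half-edges of `t` that leave `N` -/
def rr (A N t : ℕ) : ℕ := Nat.sub (Nat.sub 3 (bt (mT A) t)) (pcl (Nat.land (row A t) N))
def smL (A N Lq c : ℕ) : ℕ := Nat.rec 0 (fun i r => Nat.add r (rr A N (cv Lq i))) c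

/-- all witnesses; `Lq` lists the `c` vertices that may touch the remainder -/
def wit (cl : Cl) (kq : ℕ) (P : Prog) (n A NW cap c Lq B : ℕ) : ℕ :=
  fz (smL A NW Lq c) fun m' => fz (bif Nat.ble cap m' then cap else m') fun me =>
  bif z0 (dif (mkL Lq c) NW) && z0 P.keep then
    thr c (fun i B1 => fz (mkL Lq (Nat.succ i)) fun Sa => fz (smL A NW Lq (Nat.succ i)) fun lvs =>
      fz (cv Lq i) fun t => start cl kq P n A NW me Sa lvs t B1) B
  else 0

/-! payment: port types 0 (S, one neighbour in K), 1 (S, two), 2 (outer vertex, one), 3 (outer vertex,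
two), 4 (the free outer vertex) -/

def pw (Pl i : ℕ) : ℕ := fld Pl (Nat.mul 9 i) 64
def pt (Pl i : ℕ) : ℕ := fld Pl (Nat.add (Nat.mul 9 i) 6) 8
def rad (ty : ℕ) : ℕ := Nat.shiftLeft 3 (Nat.div ty 2)
def tW (ty x1 x2 : ℕ) : ℕ :=
  fld 0x3f03f03f03f6c56c56c56c5b52b52b52b52da8da8da8da803f00a02101400a00500300c02100301203001400c03002803f03f03f03f005005005005012012012012028028028028000000000000000003006005000006005003000005003006000000000000003003003003005005005005006006006006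
    (Nat.mul 12 (Nat.add (Nat.mul 16 ty) (Nat.add (Nat.mul 4 x1) x2))) 4096
def tC (x cs : ℕ) : ℕ :=
  fld 0x1bc1730cf0cf1731bc000000000000000000e8ce430cf0000000000000cfe43e8c000000000000f30000000e43173000000173e43000000f30000000000000f30000e8c0001bc0001bc000e8c000f30000000
    (Nat.mul 12 (Nat.add (Nat.mul 16 x) cs)) 4096
def e3 (mu P st : ℕ) : ℕ :=
  Nat.lor (Nat.mul P (bt mu 0)) (Nat.lor (Nat.shiftLeft (Nat.mul P (bt mu 1)) st)
    (Nat.shiftLeft (Nat.mul P (bt mu 2)) (Nat.mul 2 st)))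
def e6 (mu P st : ℕ) : ℕ := Nat.lor (e3 mu P st) (Nat.shiftLeft (e3 (shr mu 3) P st) (Nat.mul 3 st))
def e12 (mu P st : ℕ) : ℕ := Nat.lor (e6 mu P st) (Nat.shiftLeft (e6 (shr mu 6) P st) (Nat.mul 6 st))
/-- the two neighbours in `K` of a port (equal for the even types) -/
def pv1 (A K w : ℕ) : ℕ := Nat.log2 (Nat.land (row A w) K)
def pv2 (A K w ty : ℕ) : ℕ :=
  Nat.log2 (Nat.mod (Nat.land (row A w) K) (two (Nat.sub (Nat.succ (pv1 A K w)) (Nat.mod ty 2))))
/-- the states of the port that the colouring accepts, times the set `P` -/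
def pstep (A K lo hi c0 c1 c2 c3 w ty P st : ℕ) : ℕ :=
  fz (pv1 A K w) fun v1 => fz (pv2 A K w ty) fun v2 =>
  fz (colr lo hi v1) fun x1 => fz (colr lo hi v2) fun x2 =>
  bif lt ty 2 then fz (tW ty x1 x2) fun mu => e3 mu P st else
  fz (Nat.land (tW ty x1 x2) (Nat.land (tC x1 (cset A c0 c1 c2 c3 v1)) (tC x2 (cset A c0 c1 c2 c3 v2))))
    fun mu => bif lt ty 4 then e6 mu P st else e12 mu P st
def strd (Pl c : ℕ) : ℕ := Nat.rec 1 (fun i r => Nat.mul r (rad (pt Pl i))) c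
def prodK (g : ℕ → ℕ → ℕ → ℕ → ℕ) (Pl c : ℕ) : (ℕ → ℕ → ℕ) → ℕ :=
  Nat.rec (fun k => k 1 1) (fun i r k => r fun P st => fz (pw Pl i) fun w => fz (pt Pl i) fun ty =>
    fz (g w ty P st) fun P' => fz (Nat.mul st (rad ty)) fun st' => k P' st') c
/-- the set of adversary states covered by one colouring -/
def cover (A S K I Pl pc C n : ℕ) : ℕ :=
  fz (Nat.lor (Nat.land C K) S) fun lo => fz (Nat.lor (Nat.land (shr C n) K) S) fun hi =>
  cls4 (Nat.lor S K) lo hi fun c0 c1 c2 c3 =>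
  bif nz (okI A lo hi c0 c1 c2 c3 I) then prodK (pstep A K lo hi c0 c1 c2 c3) Pl pc (fun P _ => P) else 0
def covAll (A S K I Pl pc Cs n nc : ℕ) : ℕ :=
  Nat.rec 0 (fun i r => fz r fun r => fz (shr Cs (Nat.mul (Nat.mul 2 n) i)) fun C =>
    Nat.lor r (cover A S K I Pl pc C n)) nc
def pOK (A S K o w ty : ℕ) : Bool :=
  fzb (Nat.land (row A w) K) fun x => nz x && lt ty 5 &&
    (bif Nat.beq (Nat.mod ty 2) 1 then nz (lw x) && z0 (lw (lw x)) else z0 (lw x)) &&
    (bif lt ty 2 then tb S w && z0 (Nat.land (row A w) S) else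
      !tb (Nat.lor S K) w && (bif lt ty 4 then ne w o else Nat.beq w o))
def mkS (Pl c : ℕ) : ℕ :=
  Nat.rec 0 (fun i r => Nat.lor r (Nat.shiftLeft (Nat.sub 1 (Nat.div (pt Pl i) 2)) (pw Pl i))) c
def mkY (Pl c : ℕ) : ℕ :=
  Nat.rec 0 (fun i r => Nat.lor r (Nat.shiftLeft (sg (Nat.div (pt Pl i) 2)) (pw Pl i))) c
/-- shape and payment of a move -/
def payOK (kq n A S K I o Pl pc Cs nc : ℕ) : Bool :=
  fzb (Nat.lor S K) fun SK => fzb (mkY Pl pc) fun PY =>
  z0 (Nat.land S K) && z0 (shr SK n) && nz (lw SK) && z0 (dif (Nat.lor K I) (ful A)) &&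
  z0 (dif S (ker kq A)) && z0 (dif I SK) && z0 (dif (dif S I) (mkS Pl pc)) &&
  bla (fun v => z0 (dif (row A v) SK)) I &&
  bla (fun v => fzb (dif (row A v) SK) fun x => nz x && z0 (lw x) && z0 (dif x PY)) (dif K I) &&
  allLt pc (fun i => pOK A S K o (pw Pl i) (pt Pl i)) &&
  Nat.beq (Nat.succ (covAll A S K I Pl pc Cs n nc)) (two (strd Pl pc))

/-- vertices joined to `o` outside `SK` -/
def zone (A SK o Zl c : ℕ) : ℕ :=
  thr c (fun i Z => fz (cv Zl i) fun z =>
    bif nz (Nat.land (row A z) Z) && !tb SK z then sb Z z else 0) (two o)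

/-- the free vertex `o` is a port whose third neighbour lies in `S` -/
def oKids (cl : Cl) (lv kq n A S K o nd B : ℕ) : ℕ :=
  bif lt nd 2 then B else
  bif Nat.ble 1 lv then
    bif tb (ker kq A) o || nz (dif (row A o) (Nat.lor S K)) then B else
    bif tb (d2 A) o then 0 else
      bl (fun a _ B1 => fz (edge (stb A o) o a) fun A' => cl n A' B1) (Nat.land S (opn n A)) B
  else 0

/-- tag 6: `S K I` (n bits each), `o` 6, `nd` 2, program 6, `pc` 4, `nc` 7, `zc` 5, `c` 4, then the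
ports, the colourings, the zone, the order -/
def move (pg : ℕ → Prog) (cl : Cl) (lv kq f n A B : ℕ) : ℕ :=
  fz (alm n) fun U => fz (Nat.land B U) fun S => fz (Nat.land (shr B n) U) fun K =>
  fz (Nat.land (shr B (Nat.mul 2 n)) U) fun I => fz (shr B (Nat.mul 3 n)) fun H =>
  fz (Nat.mod H 64) fun o => fz (fld H 6 4) fun nd => fz (fld H 8 64) fun p =>
  fz (fld H 14 16) fun pc => fz (fld H 18 128) fun nc => fz (fld H 25 32) fun zc =>
  fz (fld H 30 16) fun c => fz (shr H 34) fun Pl => fz (shr Pl (Nat.mul 9 pc)) fun Cs =>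
  fz (shr Cs (Nat.mul (Nat.mul 2 n) nc)) fun Zl => fz (shr Zl (Nat.mul 6 zc)) fun Lq =>
  fz (Nat.lor S K) fun SK =>
  fz (bif Nat.beq o 63 then 0 else zone A SK o Zl zc) fun Z =>
  fz (bif Nat.beq o 63 then 0 else Nat.land (row A o) K) fun hb =>
  bif payOK kq n A S K I o Pl pc Cs nc && Nat.ble (pg p).idx f && lt nd 3 &&
    (bif Nat.beq o 63 then z0 nd else nz Z && !tb SK o && nz hb && z0 (lw hb)) &&
    z0 (dif (dif SK (Nat.lor I hb)) (mkL Lq c)) then
    sq (bl (fun a m' B1 => bl (fun b _ B2 => fz (edge A a b) fun A' => cl n A' B2) m' B1)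
        (Nat.land S (opn n A)) (shr Lq (Nat.mul 6 c))) fun B3 =>
    sq (oKids cl lv kq n A S K o nd B3) fun B4 =>
    wit cl kq (pg p) n A (Nat.lor SK Z) (Nat.sub (smL A SK Lq c) nd) c Lq B4
  else 0

def top (db : ℕ → ℕ) (pg : ℕ → Prog) (lv f : ℕ) : Cl :=
  gen db lv (kql lv) f (move pg (cls db lv (kql lv) f) lv (kql lv) f) 60

def addE (A i j : ℕ) : ℕ := bif tb (row A i) j then A else edge A i j

def initF (E : ℕ) : ℕ :=
  Nat.rec 0 (fun i A => fz A fun A => fz (fF E i) fun e => fz (addE A i (fA e)) fun A1 =>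
    Nat.lor (addE A1 i (fB e))
      (Nat.lor (Nat.shiftLeft (bt e 12) i) (Nat.shiftLeft (bt e 13) (Nat.add 64 i)))) (fN E)

/-- the certificate `B` proves fact `f` -/
def chkF (db : ℕ → ℕ) (pg : ℕ → Prog) (lv f B : ℕ) : Bool :=
  fzb (db f) fun E => fzb (fN E) fun n => lt n 63 &&
    allLt n (fun i => lt (fA (fF E i)) n && lt (fB (fF E i)) n) &&
    fzb (initF E) fun A => Nat.beq (top db pg lv f n A B) 1

/-- state of a pattern given by codes; `st = 0` forgets the stubs -/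
def addC (st A i c : ℕ) : ℕ :=
  fz A fun A => bif Nat.ble 2 c then addE A i (Nat.sub c 2) else Nat.lor A (Nat.shiftLeft (Nat.mul st c) i)
def initS (st n : ℕ) (s : ℕ → ℕ → ℕ) : ℕ :=
  Nat.rec 0 (fun i A => addC st (addC st (addC st A i (s i 0)) i (s i 1)) i (s i 2)) n

/-- a pattern given by codes closes -/
def chkSE (db : ℕ → ℕ) (lv f n : ℕ) (s : ℕ → ℕ → ℕ) (B : ℕ) : Bool :=
  lt n 63 && fzb (initS 1 n s) fun A => Nat.beq (cls db lv (kql lv) f n A B) 1

/-- the pattern without the vertex `r` -/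
def sDel (s : ℕ → ℕ → ℕ) (r i k : ℕ) : ℕ :=
  fz (s (bif lt i r then i else Nat.succ i) k) fun c =>
    bif lt c (Nat.add r 2) then c else bif Nat.beq c (Nat.add r 2) then 0 else Nat.sub c 1

/-- root of the 2-cut: the vertices of `NW` are outside the remainder, 0 and 3 touch it; 0 and `a` have no
stub -/
def chkSide (db : ℕ → ℕ) (pg : ℕ → Prog) (f p n : ℕ) (s : ℕ → ℕ → ℕ) (a NW B : ℕ) : Bool :=
  lt n 63 && fzb (skr (skr (initS 1 n s) 0) a) fun A =>
    Nat.beq (wit (cls db 0 0 f) 0 (pg p) n A NW 99 2 192 B) 1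

/-- entry `i` of the table of program `p` -/
def chkD (db : ℕ → ℕ) (pg : ℕ → Prog) (lv p i B : ℕ) : Bool :=
  Nat.beq (exec (cls db lv (kql lv) (pg p).idx) (kql lv) ((pg p).dt i).Sa (sub (pg p).t ((pg p).dt i).pa)
    ((pg p).dt i).n ((pg p).dt i).A ((pg p).dt i).w B) 1

/-! the programs describe every labelled member -/

def pth (A : ℕ) (t : PT) : ℕ → ℕ → ℕ → ℕ → ℕ → ℕ → ℕ :=
  PT.rec (motive := fun _ => ℕ → ℕ → ℕ → ℕ → ℕ → ℕ → ℕ) (fun _ _ _ _ _ _ => 0)
    (fun c _ _ pch pnx ro k Rg Om cnt B => fz (shr B 1) fun B' =>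
      bif nz (Nat.land B 1) then pnx ro k Rg Om cnt B' else
      fz (cO c) fun o => fz (cv ro (cA c)) fun y =>
      bif Nat.ble (cR c) cnt && lt (cA c) k then
        bif Nat.beq o 4 then fz (Nat.mod B' 64) fun z =>
          bif tb (row A y) z && !tb Rg z then
            fz (Nat.lor ro (Nat.shiftLeft z (Nat.mul 6 k))) fun ro' => fz (Nat.succ k) fun k' =>
            fz (Nat.lor Rg (two z)) fun Rg' => pch ro' k' Rg' Om cnt (shr B' 6) else 0
        else bif Nat.beq o 2 then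
          bif tb Om y then fz (dif Om (two y)) fun Om' => fz (Nat.sub cnt 1) fun cnt' =>
            pch ro k Rg Om' cnt' B' else 0
        else bif Nat.beq o 3 then
          bif lt (cB c) k && tb (row A y) (cv ro (cB c)) then pch ro k Rg Om cnt B' else 0
        else bif Nat.beq o 1 then bif tb (Nat.land (d2 A) (mT A)) y then pch ro k Rg Om cnt B' else 0
        else bif Nat.beq o 6 then bif tb (d3 A) y then pch ro k Rg Om cnt B' else 0
        else bif Nat.beq o 5 then B' else 0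
      else 0) t

def lamEnd (lv : ℕ) (P : Prog) (m A Om cnt B : ℕ) : ℕ :=
  bif lt m 69 then
    bif Nat.ble cnt 1 || (Nat.ble cnt 2 && Nat.ble 1 lv) then B else
    bif lt P.r0 cnt then
      bl (fun y _ B1 => pth A P.t y 1 (two y) (dif Om (two y)) (Nat.sub cnt 1) B1) Om B else 0
  else 0

/-- label the ports `n - j, ..., n - 1` -/
def lam (cl : Cl) (lv kq : ℕ) (P : Prog) (m n R j : ℕ) : ℕ → ℕ → ℕ → ℕ → ℕ :=
  Nat.rec (fun A Om cnt B => cp cl n A (fun A' => lamEnd lv P m A' Om cnt) B)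
    (fun j r A Om cnt B => fz (Nat.sub n (Nat.succ j)) fun i =>
      bif hasStub R i then cp cl n A (fun A B0 =>
        sq (bif z0 kq then fz (stb A i) fun A' => r A' Om cnt B0 else B0) fun B1 =>
        bif lt cnt P.SM then fz (skr A i) fun A' => fz (Nat.lor Om (two i)) fun Om' =>
          fz (Nat.succ cnt) fun cnt' => r A' Om' cnt' B1 else B1) B
      else r A Om cnt B) j

/-- program `p` is checked against member `m` -/
def chkPM (db : ℕ → ℕ) (pg : ℕ → Prog) (lv p m B : ℕ) : Bool :=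
  tb (pg p).keep m || fzb (mN m) fun n => fzb (mR m) fun R => lt n 63 && fzb (initS 0 n (sl R)) fun A =>
    Nat.beq (lam (cls db lv (kql lv) (pg p).idx) lv (kql lv) (pg p) m n R n A 0 0 B) 1

/-- a list of certificates for the indices `a, a + 1, ...` -/
def chkL (g : ℕ → ℕ → Bool) (l : List ℕ) : ℕ → Bool :=
  List.rec (fun _ => true) (fun B _ r a => g a B && fzb (Nat.succ a) r) l

end

end Pool.Agent.Hom2.UC
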