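import Pool.Agent.Lib.MP_7e4769_co.Hc.UEm

set_option autoImplicit false

namespace Pool.Agent.Hom2.UC

open Classical

variable {V : Type} {G : SimpleGraph V} {X : Finset V}

theorem cl1_sq {x : ℕ} (k : ℕ → ℕ) (h : x ≠ 0) : sq x k = k x := by
  cases x with
  | zero => exact absurd rfl h
  | succ m => rfl

theorem cl1_bits : ∀ b1 b2 b3 b4 b5 b6 b7 : Bool,
    (Nat.land (Nat.land (Nat.land (if b1 = true then 1 else 0) (if b2 = true then 1 else 0))
      (Nat.land (Nat.lor (if b3 = true then 1 else 0) (Nat.xor 1 (if b4 = true then 1 else 0)))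
        (Nat.lor (if b5 = true then 1 else 0) (Nat.xor 1 (if b6 = true then 1 else 0)))))
      (Nat.xor 1 (if b7 = true then 1 else 0))) =
    if b1 = true ∧ b2 = true ∧ (b4 = true → b3 = true) ∧ (b6 = true → b5 = true) ∧ ¬ b7 = true
      then 1 else 0 := by decide

theorem cl1_step {E M A t q i u : ℕ} (h : refStep E M A t q i u ≠ 0) :
    (tb (row A (cv M i)) (cv M (fA (fF E i))) = true ∧ tb (row A (cv M i)) (cv M (fB (fF E i))) = true ∧
      (tb (fF E i) 12 = true → tb t (cv M i) = true) ∧ (tb (fF E i) 13 = true → tb q (cv M i) = true) ∧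
      ¬ tb u (cv M i + 1) = true) ∧ refStep E M A t q i u = Nat.lor u (two (cv M i + 1)) := by
  simp only [refStep, fz_eq, bt_eq, cl1_bits] at h ⊢
  split_ifs at h ⊢ with c
  · exact ⟨c, Nat.mul_one _⟩
  · exact absurd rfl h

theorem cl1_inj {E M A t q n : ℕ} (h : thr n (refStep E M A t q) 1 ≠ 0) :
    (∀ i < n, ∀ j < n, cv M i = cv M j → i = j) ∧
      ∀ i < n, tb (thr n (refStep E M A t q) 1) (cv M i + 1) = true := by
  induction n with
  | zero => exact ⟨fun i hi => by omega, fun i hi => by omega⟩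
  | succ n ih =>
    rw [thr_succ] at h ⊢
    obtain ⟨h1, h2⟩ := sq_ne h
    obtain ⟨a, b⟩ := ih h1
    obtain ⟨⟨-, -, -, -, c⟩, e⟩ := cl1_step h2
    have d : ∀ i < n, cv M i ≠ cv M n := fun i hi r => c (r ▸ b i hi)
    rw [cl1_sq _ h1, e]
    refine ⟨fun i hi j hj r => ?_, fun i hi => ?_⟩
    · rcases Nat.lt_succ_iff_lt_or_eq.1 hi with u | rfl <;>
        rcases Nat.lt_succ_iff_lt_or_eq.1 hj with v | rfl
      · exact a i u j v r
      · exact absurd r (d i u)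
      · exact absurd r.symm (d j v)
      · rfl
    · rw [tb_or, tb_two]
      rcases Nat.lt_succ_iff_lt_or_eq.1 hi with u | rfl
      · exact Or.inl (b i u)
      · exact Or.inr rfl

theorem cl1_bt {x i : ℕ} (h : bt x i = 1) : tb x i = true := by
  rw [bt_eq] at h
  by_contra c
  rw [if_neg c] at h
  exact zero_ne_one h

theorem rRef_snd {lv f n A B : ℕ} {db : ℕ → ℕ} {ph : ℕ → V} (cx : Cx G X lv)
    (hf : ∀ g < f, Fact G X (db g)) (h : Em G X n A ph) (r : rRef db f (kql lv) A B ≠ 0) : TG G X := by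
  simp only [rRef, fz_eq] at r
  obtain ⟨c, -⟩ := cond_ne r
  rw [Bool.and_eq_true, lt_iff, nz_iff] at c
  have st := fun i hi => (cl1_step (thr_ne c.2 i hi).choose_spec).1
  have lt := fun i hi => (h.adj _ _ (st i hi).1).1
  exact hf _ c.1 (fun i => ph (cv (shr B 15) i)) ⟨fun i hi => h.mem _ (lt i hi),
    fun i hi j hj e => (cl1_inj c.2).1 i hi j hj (h.inj _ (lt i hi) _ (lt j hj) e),
    fun i hi => (h.adj _ _ (st i hi).1).2.2, fun i hi => (h.adj _ _ (st i hi).2.1).2.2,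
    fun i hi e => (h.stub _ ((st i hi).2.2.1 (cl1_bt e))).2,
    fun i hi e => h.ker' cx (lt i hi) ((st i hi).2.2.2.1 (cl1_bt e))⟩
theorem rMem_snd {n A B : ℕ} {ph : ℕ → V} (h : Em G X n A ph) (r : rMem n A B ≠ 0) : TG G X := by
  simp only [rMem, fz_eq, fzb_eq] at r
  obtain ⟨c, -⟩ := cond_ne r
  simp only [Bool.and_eq_true, lt_iff, ne_iff, allLt_iff, all3_iff] at c
  obtain ⟨⟨c1, c2⟩, c3⟩ := c
  refine Or.inr ⟨_, c1, fun i => ph (cv (shr B 7) i), fun i hi => h.mem _ (c3 i hi).1,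
    fun i hi j hj e => (injM_spec c2).1 i hi j hj (h.inj _ (c3 i hi).1 _ (c3 j hj).1 e),
    fun i hi k hk e => ?_, fun i hi k hk y e => ?_⟩
  · have := (c3 i hi).2 k hk
    rw [e] at this
    exact (h.stub _ this).2
  · have := (c3 i hi).2 k hk
    rw [e] at this
    replace this : (lt y _ && tb (row A _) (cv _ y)) = true := this
    rw [Bool.and_eq_true, lt_iff] at this
    exact ⟨this.1, (h.adj _ _ this.2).2.2⟩
theorem cl2_one {n A S a : ℕ} {ph : ℕ → V} (hc : Cub G X) (h : Em G X n A ph) {Y : Finset V}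
    (hY : ∀ j, tb S j = true → j < n ∧ ph j ∈ Y) (o : oneL A S a = true) :
    ∃ z, tb S a = true → ∀ y ∈ X, y ∉ Y → G.Adj (ph a) y → y = z := by
  by_cases ha : tb S a = true
  · have key : ∀ p q, G.Adj (ph a) p → G.Adj (ph a) q → p ≠ q → p ∈ Y → (q ∈ Y ∨ q ∉ X) →
        ∃ z, tb S a = true → ∀ y ∈ X, y ∉ Y → G.Adj (ph a) y → y = z := fun p q ap aq ne hp hq => by
      obtain ⟨z, hz⟩ := hc.second (h.mem a (hY a ha).1) ap aq ne
      refine ⟨z, fun _ y hy hy' ay => ?_⟩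
      rcases hz.cases ay with rfl | rfl | rfl
      · exact absurd hp hy'
      · exact (hq.elim hy' fun e => e hy).elim
      · rfl
    simp only [oneL, fzb_eq, ha, Bool.not_true, Bool.false_or, Bool.or_eq_true, Bool.and_eq_true,
      nz_iff] at o
    rcases o with o | ⟨o1, o2⟩
    · obtain ⟨p, q, ne, hp, hq⟩ := lw_ne o
      rw [tb_and] at hp hq
      obtain ⟨-, p1, p2⟩ := h.adj a p hp.1
      obtain ⟨-, q1, q2⟩ := h.adj a q hq.1
      exact key _ _ p2 q2 (fun e => ne (h.inj p p1 q q1 e)) (hY p hp.2).2 (Or.inl (hY q hq.2).2)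
    · obtain ⟨p, hp⟩ := exists_tb o2
      rw [tb_and] at hp
      obtain ⟨-, p1, p2⟩ := h.adj a p hp.1
      obtain ⟨-, q, q1, q2⟩ := h.stub a o1
      exact key _ _ p2 q2 (fun e => q1 (e ▸ h.mem p p1)) (hY p hp.2).2 (Or.inr q1)
  · exact ⟨ph a, fun e => absurd e ha⟩

theorem cl2_cut {lv n A S a a' : ℕ} {ph : ℕ → V} (cx : Cx G X lv) (h : Em G X n A ph)
    (hS : ∀ j, tb S j = true → j < n)
    (c : (a' = 63 ∧ S ≠ 0 ∧ dif (alm n) S ≠ 0) ∨ (1 ≤ lv ∧ lw S ≠ 0 ∧ lw (dif (alm n) S) ≠ 0))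
    (f : ∀ i, tb S i = true → i ≠ a → i ≠ a' → tb (ful A) i = true ∧ dif (row A i) S = 0)
    (o : oneL A S a = true) (o' : oneL A S a' = true) : False := by
  obtain ⟨Y, hY⟩ : ∃ Y : Finset V, ∀ y, y ∈ Y ↔ ∃ j, tb S j = true ∧ ph j = y :=
    ⟨((Finset.range n).filter fun j => tb S j = true).image ph, fun y => by
      simp only [Finset.mem_image, Finset.mem_filter, Finset.mem_range]
      exact exists_congr fun j => and_congr_left fun _ => ⟨fun e => e.2, fun e => ⟨hS j e, e⟩⟩⟩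
  have y1 : ∀ j, tb S j = true → j < n ∧ ph j ∈ Y := fun j e => ⟨hS j e, (hY _).2 ⟨j, e, rfl⟩⟩
  have y2 : Y ⊆ X := fun y hy => by
    obtain ⟨j, e, rfl⟩ := (hY y).1 hy
    exact h.mem j (hS j e)
  have y3 : ∀ j, tb (dif (alm n) S) j = true → j < n ∧ ph j ∈ X ∧ ph j ∉ Y := fun j e => by
    rw [tb_dif, tb_alm] at e
    refine ⟨e.1, h.mem j e.1, fun m => ?_⟩
    obtain ⟨i, hi, e'⟩ := (hY _).1 m
    exact e.2 (h.inj i (hS i hi) j e.1 e' ▸ hi)
  have y4 : ∀ i, tb S i = true → i ≠ a → i ≠ a' → ∀ y ∈ X, y ∉ Y → ¬ G.Adj (ph i) y :=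
    fun i hi n1 n2 y hy hy' ay => by
      obtain ⟨f1, f2⟩ := f i hi n1 n2
      rcases (h.full cx.cub f1).2 y ay with ⟨j, hj, rfl⟩ | e
      · exact hy' (y1 j (dif_zero f2 hj)).2
      · exact e.1 hy
  obtain ⟨z, hz⟩ := cl2_one cx.cub h y1 o
  obtain ⟨z', hz'⟩ := cl2_one cx.cub h y1 o'
  rcases c with ⟨c1, c2, c3⟩ | ⟨c1, c2, c3⟩
  · obtain ⟨i, hi⟩ := exists_tb c2
    obtain ⟨j, hj⟩ := exists_tb c3
    refine cx.two.2 Y y2 ⟨_, (y1 i hi).2⟩ (fun e => (y3 j hj).2.2 (e ▸ (y3 j hj).2.1)) (ph a) z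
      fun x hx y hy hy' ay => ?_
    obtain ⟨k, hk, rfl⟩ := (hY x).1 hx
    by_cases e : k = a
    · subst e
      exact ⟨rfl, hz hk y hy hy' ay⟩
    · have := hS k hk
      have := h.le
      exact absurd ay (y4 k hk e (by omega) y hy hy')
  · obtain ⟨i, i', ne, hi, hi'⟩ := lw_ne c2
    obtain ⟨j, j', ne', hj, hj'⟩ := lw_ne c3
    have k1 : 2 ≤ Y.card := Finset.one_lt_card.2 ⟨_, (y1 i hi).2, _, (y1 i' hi').2,
      fun e => ne (h.inj i (hS i hi) i' (hS i' hi') e)⟩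
    have k2 : 2 ≤ (X \ Y).card := Finset.one_lt_card.2 ⟨_, Finset.mem_sdiff.2 (y3 j hj).2, _,
      Finset.mem_sdiff.2 (y3 j' hj').2, fun e => ne' (h.inj j (y3 j hj).1 j' (y3 j' hj').1 e)⟩
    have k3 := Finset.card_sdiff_add_card_eq_card y2
    have k4 := cx.e3 c1 Y y2 k1 (by omega)
    have k5 : ∀ x ∈ Y, Sc.out G X Y x ≤ if x ∈ ({ph a, ph a'} : Finset V) then 1 else 0 := by
      intro x hx
      obtain ⟨k, hk, rfl⟩ := (hY x).1 hx
      have one : ∀ w, (∀ y ∈ X, y ∉ Y → G.Adj (ph k) y → y = w) → Sc.out G X Y (ph k) ≤ 1 :=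
        fun w hw => Finset.card_le_one.2 fun p hp q hq => by
          rw [Finset.mem_filter] at hp hq
          rw [hw p hp.1 hp.2.1 hp.2.2, hw q hq.1 hq.2.1 hq.2.2]
      by_cases e : k = a
      · subst e
        rw [if_pos (Finset.mem_insert_self _ _)]
        exact one z (hz hk)
      by_cases e' : k = a'
      · subst e'
        rw [if_pos (Finset.mem_insert_of_mem (Finset.mem_singleton_self _))]
        exact one z' (hz' hk)
      refine le_trans (le_of_eq ?_) (Nat.zero_le _)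
      exact Finset.card_eq_zero.2 (Finset.filter_eq_empty_iff.2 fun y hy m =>
        y4 k hk e e' y hy m.1 m.2)
    have k6 := Finset.sum_le_sum k5
    rw [← Finset.card_filter] at k6
    have k7 := Finset.card_le_card (fun x hx => (Finset.mem_filter.1 hx).2 :
      Y.filter (· ∈ ({ph a, ph a'} : Finset V)) ⊆ {ph a, ph a'})
    have k8 : ({ph a, ph a'} : Finset V).card ≤ 2 := Finset.card_le_two
    have k9 : Sc.ecut G X Y ≤ 2 := k6.trans (k7.trans k8)
    omega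

theorem rCut_snd {lv n A B : ℕ} {ph : ℕ → V} (cx : Cx G X lv) (h : Em G X n A ph)
    (r : rCut lv n A B ≠ 0) : False := by
  simp only [rCut, fz_eq] at r
  have r1 := (cond_ne r).1
  simp only [Bool.and_eq_true, z0_iff] at r1
  obtain ⟨⟨⟨⟨c, f1⟩, o⟩, o'⟩, f2⟩ := r1
  refine cl2_cut cx h (fun j hj => (tb_alm n j).1 ((tb_and _ _ j).1 hj).2) ?_
    (fun i hi n1 n2 => ?_) o o'
  · cases e : Nat.beq (fld B (Nat.add n 6) 64) 63
    · simp only [e, cond_false, Bool.and_eq_true, nz_iff, Nat.ble_eq] at c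
      exact Or.inr ⟨c.1.1, c.1.2, c.2⟩
    · simp only [e, cond_true, Bool.and_eq_true, nz_iff] at c
      exact Or.inl ⟨Nat.eq_of_beq_eq_true e, c⟩
  · have m := (tb_dif _ (Nat.lor (two (fld B n 64)) (two (fld B (Nat.add n 6) 64))) i).2 ⟨hi, by
      rw [tb_or, tb_two, tb_two]
      exact fun e => e.elim n1 n2⟩
    exact ⟨dif_zero f1 m, (z0_iff _).1 (bla_true f2 m)⟩
theorem rSplit_snd {lv : ℕ} {rc : Cl} (cx : Cx G X lv) (hr : Snd G X rc) : Snd G X (rSplit rc (kql lv)) := by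
  intro n A B ph h r
  simp only [rSplit, fz_eq] at r
  obtain ⟨r1, r2⟩ := cond_ne r
  rw [Bool.and_eq_true, lt_iff, tb_opn] at r1
  obtain ⟨⟨hi, nf⟩, hn⟩ := r1
  generalize Nat.mod B 64 = i at *
  obtain ⟨s1, r3⟩ := sq_ne r2
  obtain ⟨s2, s3⟩ := sq_ne r3
  by_contra hT
  have s : tb (mT A) i = true ∨ Ker G X (ph i) := by
    cases e : tb (Nat.lor (mT A) (ker (kql lv) A)) i
    · rw [e, cond_false] at s1
      exact (stub_or_ker (ph i)).imp (fun k => absurd (hr _ _ _ _ (h.stb' hi k) s1) hT) id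
    · exact ((tb_or _ _ _).1 e).imp id fun k => h.ker' cx hi k
  obtain ⟨y, hy, ay, ny⟩ := h.opn' cx.cub cx.two hi nf s
  by_cases e : ∃ j < n, ph j = y
  · obtain ⟨j, hj, rfl⟩ := e
    have nw : ¬ tb (row A i) j = true := fun m => ny j m rfl
    obtain ⟨B', hB⟩ := bl_ne s2 ((tb_dif _ _ j).2 ⟨(h.opn_of cx.cub hi hj ay nw).1, by
      rw [tb_or, tb_two]
      rintro (m | rfl)
      · exact nw m
      · exact G.irrefl ay⟩)
    exact hT (hr _ _ _ _ (h.edge' hi hj ay nw) hB)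
  · exact hT (hr _ _ _ _ (h.new hn hi hy (fun j hj m => e ⟨j, hj, m⟩) ay).1 s3)
theorem rKer_snd {rc : Cl} (hr : Snd G X rc) : Snd G X (rKer rc) := by
  intro n A B ph h r
  simp only [rKer, fz_eq] at r
  obtain ⟨c, r⟩ := cond_ne r
  rw [lt_iff] at c
  rcases stub_or_ker (G := G) (X := X) (ph _) with s | s
  · exact hr _ _ _ _ (h.stb' c s) (sq_ne r).1
  · exact hr _ _ _ _ (h.skr' c s) (sq_ne r).2
theorem cp_snd {cl : Cl} (hcl : Snd G X cl) {n A B : ℕ} {ph : ℕ → V} {k : ℕ → ℕ → ℕ} (h : Em G X n A ph)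
    (r : cp cl n A k B ≠ 0) : TG G X ∨ ∃ B', k A B' ≠ 0 := by
  simp only [cp, fz_eq] at r
  cases e : z0 (Nat.land B 1) <;> rw [e] at r
  · exact Or.inl (hcl _ _ _ _ h r)
  · exact Or.inr ⟨_, r⟩

end Pool.Agent.Hom2.UC
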