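import Pool.Agent.Lib.MP_7e4769_co.Hc.UBit

set_option autoImplicit false

namespace Pool.Agent.Hom2.UC

open Classical

variable {V : Type} {G : SimpleGraph V} {X : Finset V}

/-- at most one stub at a vertex of a 2-edge-connected graph -/
theorem one_stub (hc : Cub G X) (h2 : TwoEC G X) {v y z : V} (hv : v ∈ X) (hy : y ∉ X) (hz : z ∉ X)
    (ay : G.Adj v y) (az : G.Adj v z) : y = z := by
  by_contra ne
  obtain ⟨w, hn⟩ := hc.second hv ay az ne
  obtain ⟨a, ha, b, hb, ab⟩ := h2.1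
  refine h2.2 {v} (by simpa using hv) (by simp) (fun e => ?_) v w fun x hx u hu _ hxu => ?_
  · rw [← e, Finset.mem_singleton] at ha hb
    exact ab (ha.trans hb.symm)
  · obtain rfl := Finset.mem_singleton.1 hx
    rcases hn.cases hxu with rfl | rfl | rfl
    · exact absurd hu hy
    · exact absurd hu hz
    · exact ⟨rfl, rfl⟩
theorem em_zero (ph : ℕ → V) {n : ℕ} (hn : n ≤ 62) (mem : ∀ i < n, ph i ∈ X)
    (inj : ∀ i < n, ∀ j < n, ph i = ph j → i = j) : Em G X n 0 ph := by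
  have r : w64 0 = 0 := rfl
  refine ⟨hn, mem, inj, ?_, ?_, ?_, ?_, ?_, ?_, ?_⟩ <;> simp [row, mT, mQ, d1, d2, d3, dg, r]
theorem Em.edge' {n A i j : ℕ} {ph : ℕ → V} (h : Em G X n A ph) (hi : i < n) (hj : j < n)
    (a : G.Adj (ph i) (ph j)) (nw : ¬ tb (row A i) j = true) : Em G X n (edge A i j) ph := by
  have hn := h.le
  have i6 : i < 64 := by omega
  have j6 : j < 64 := by omega
  have ij : i ≠ j := fun e => a.ne (e ▸ rfl)
  have k (x y : ℕ) (hy : y < 64) (h1 : ¬ tb (row A x) y = true)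
      (h2 : ∀ b, (x = i ∧ b = j) ∨ (x = j ∧ b = i) ↔ b = y) : dg (edge A i j) x = dg A x + 1 := by
    rw [dg, dg, ← Finset.card_insert_of_notMem (a := y) (by simp [h1])]
    refine congrArg _ (Finset.ext fun b => ?_)
    simp only [Finset.mem_filter, Finset.mem_insert, Finset.mem_range, row_edge i6 j6, h2]
    exact ⟨fun r => r.2.elim (fun r' => Or.inr ⟨r.1, r'⟩) Or.inl,
      fun r => r.elim (fun r' => ⟨r' ▸ hy, Or.inr r'⟩) fun r' => ⟨r'.1, Or.inl r'.2⟩⟩
  have hd (x : ℕ) : dg (edge A i j) x = dg A x + if x = i ∨ x = j then 1 else 0 := by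
    split_ifs with e
    · rcases e with rfl | rfl
      · exact k x j j6 nw fun b => by simp [ij]
      · exact k x i i6 (fun r => nw (h.sym _ _ r)) fun b => by simp [ij.symm]
    · rw [not_or] at e
      simp only [dg, row_edge i6 j6, e.1, e.2, false_and, or_false, add_zero]
  refine ⟨hn, h.mem, h.inj, fun x y r => ?_, fun x y r => ?_, by rw [mT_edge i6 j6]; exact h.stub,
    by rw [mQ_edge i6 j6]; exact h.ker, fun x => ?_, fun x => ?_, fun x => ?_⟩
  · rcases (row_edge i6 j6 x y).1 r with r | ⟨rfl, rfl⟩ | ⟨rfl, rfl⟩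
    · exact h.adj x y r
    · exact ⟨hi, hj, a⟩
    · exact ⟨hj, hi, a.symm⟩
  · rw [row_edge i6 j6] at r ⊢
    exact r.imp (h.sym x y) fun r => r.symm.imp And.symm And.symm
  · rw [d1_edge i6 j6, h.g1, hd]
    split_ifs <;> omega
  · rw [d2_edge i6 j6, h.g2, h.g1, hd]
    split_ifs <;> omega
  · rw [d3_edge i6 j6, h.g3, h.g2, hd]
    split_ifs <;> omega
theorem Em.new {n A i : ℕ} {ph : ℕ → V} (h : Em G X n A ph) (hn : n < 62) (hi : i < n) {z : V}
    (hz : z ∈ X) (nz : ∀ j < n, ph j ≠ z) (a : G.Adj (ph i) z) :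
    Em G X (n + 1) (edge A i n) (Function.update ph n z) ∧ Ext n ph (n + 1) (Function.update ph n z) := by
  have e (j : ℕ) (hj : j < n) : Function.update ph n z j = ph j := Function.update_of_ne hj.ne _ _
  have e' : Function.update ph n z n = z := Function.update_self _ _ _
  have E : Em G X (n + 1) A (Function.update ph n z) := by
    refine ⟨hn, fun j hj => ?_, fun j hj k hk r => ?_, fun x y r => ?_, h.sym, fun x r => ?_,
      fun x r => ?_, h.g1, h.g2, h.g3⟩
    · rcases Nat.lt_succ_iff_lt_or_eq.1 hj with u | rfl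
      · exact e j u ▸ h.mem j u
      · rwa [e']
    · rcases Nat.lt_succ_iff_lt_or_eq.1 hj with u | rfl <;>
        rcases Nat.lt_succ_iff_lt_or_eq.1 hk with v | rfl
      · exact h.inj j u k v (by rwa [e j u, e k v] at r)
      · exact absurd (by rwa [e j u, e'] at r) (nz j u)
      · exact absurd (by rw [e k v, e'] at r; exact r.symm) (nz k v)
      · rfl
    · obtain ⟨r1, r2, r3⟩ := h.adj x y r
      exact ⟨by omega, by omega, by rwa [e x r1, e y r2]⟩
    · obtain ⟨r1, r2⟩ := h.stub x r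
      exact ⟨by omega, by rwa [e x r1]⟩
    · obtain ⟨r1, r2⟩ := h.ker x r
      exact ⟨by omega, by rwa [e x r1]⟩
  exact ⟨E.edge' (by omega) (by omega) (by rwa [e i hi, e']) fun r => (h.adj i n r).2.1.false,
    n.le_succ, e⟩
theorem Em.stb' {n A i : ℕ} {ph : ℕ → V} (h : Em G X n A ph) (hi : i < n) (s : Stub G X (ph i)) :
    Em G X n (stb A i) ph := by
  obtain ⟨e1, e2, e3, e4, e5, e6⟩ := stb_spec (A := A) (i := i) (by have := h.le; omega)
  have e7 (a : ℕ) : dg (stb A i) a = dg A a := by rw [dg, e1, dg]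
  refine ⟨h.le, h.mem, h.inj, by simpa only [e1] using h.adj, by simpa only [e1] using h.sym,
    fun x r => ?_, e3 ▸ h.ker, by simpa only [e4, e7] using h.g1,
    by simpa only [e5, e7] using h.g2, by simpa only [e6, e7] using h.g3⟩
  rcases (e2 x).1 r with r | rfl
  · exact h.stub x r
  · exact ⟨hi, s⟩
theorem Em.skr' {n A i : ℕ} {ph : ℕ → V} (h : Em G X n A ph) (hi : i < n) (s : Ker G X (ph i)) :
    Em G X n (skr A i) ph := by
  obtain ⟨e1, e2, e3, e4, e5, e6⟩ := skr_spec (A := A) (i := i) (by have := h.le; omega)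
  have e7 (a : ℕ) : dg (skr A i) a = dg A a := by rw [dg, e1, dg]
  refine ⟨h.le, h.mem, h.inj, by simpa only [e1] using h.adj, by simpa only [e1] using h.sym,
    e2 ▸ h.stub, fun x r => ?_, by simpa only [e4, e7] using h.g1,
    by simpa only [e5, e7] using h.g2, by simpa only [e6, e7] using h.g3⟩
  rcases (e3 x).1 r with r | rfl
  · exact h.ker x r
  · exact ⟨hi, s⟩
theorem Em.addE' {n A i j : ℕ} {ph : ℕ → V} (h : Em G X n A ph) (hi : i < n) (hj : j < n)
    (a : G.Adj (ph i) (ph j)) : Em G X n (addE A i j) ph := by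
  unfold addE
  cases e : tb (row A i) j
  · exact h.edge' hi hj a (by simp [e])
  · exact h
theorem em2_mem {A i j : ℕ} :
    j ∈ (Finset.range 64).filter (fun j => tb (row A i) j = true) ↔ tb (row A i) j = true := by
  rw [Finset.mem_filter, Finset.mem_range]
  exact ⟨fun h => h.2, fun h => ⟨tb_row_lt h, h⟩⟩
theorem Em.em2_ne {n A i a b : ℕ} {ph : ℕ → V} (h : Em G X n A ph) (ha : tb (row A i) a = true)
    (hb : tb (row A i) b = true) (e : a ≠ b) : ph a ≠ ph b :=
  fun e' => e (h.inj a (h.adj i a ha).2.1 b (h.adj i b hb).2.1 e')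
theorem Em.two {n A i : ℕ} {ph : ℕ → V} (h : Em G X n A ph) (f : tb (d2 A) i = true) :
    ∃ a b, a ≠ b ∧ tb (row A i) a = true ∧ tb (row A i) b = true := by
  obtain ⟨a, ha, b, hb, e⟩ := Finset.one_lt_card.1 ((h.g2 i).1 f).2
  exact ⟨a, b, e, em2_mem.1 ha, em2_mem.1 hb⟩
/-- three known neighbours -/
theorem Em.full3 {n A i : ℕ} {ph : ℕ → V} (h : Em G X n A ph) (hc : Cub G X) (f : tb (d3 A) i = true) :
    i < n ∧ ∀ y, G.Adj (ph i) y → ∃ j, tb (row A i) j = true ∧ y = ph j := by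
  obtain ⟨a, ha, b, hb, c, hd, e1, e2, e3⟩ := Finset.two_lt_card.1 ((h.g3 i).1 f).2
  rw [em2_mem] at ha hb hd
  have hi := (h.adj i a ha).1
  obtain ⟨x, y, z, nb⟩ := hc _ (h.mem i hi)
  refine ⟨hi, fun w hw => ?_⟩
  rcases (nb.of_adj (h.adj i a ha).2.2 (h.adj i b hb).2.2 (h.adj i c hd).2.2 (h.em2_ne ha hb e1)
    (h.em2_ne ha hd e2) (h.em2_ne hb hd e3)).cases hw with e | e | e
  exacts [⟨a, ha, e⟩, ⟨b, hb, e⟩, ⟨c, hd, e⟩]
theorem Em.em2_third {n A i : ℕ} {ph : ℕ → V} (h : Em G X n A ph) (hc : Cub G X)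
    (f : tb (d2 A) i = true) {z : V} (az : G.Adj (ph i) z)
    (nz : ∀ j, tb (row A i) j = true → ph j ≠ z) :
    ∀ y, G.Adj (ph i) y → y = z ∨ ∃ j, tb (row A i) j = true ∧ y = ph j := by
  obtain ⟨a, b, e, ha, hb⟩ := h.two f
  obtain ⟨x, y, u, nb⟩ := hc _ (h.mem i (h.adj i a ha).1)
  intro w hw
  rcases (nb.of_adj (h.adj i a ha).2.2 (h.adj i b hb).2.2 az (h.em2_ne ha hb e) (nz a ha)
    (nz b hb)).cases hw with e | e | e
  exacts [.inr ⟨a, ha, e⟩, .inr ⟨b, hb, e⟩, .inl e]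
theorem Em.full {n A i : ℕ} {ph : ℕ → V} (h : Em G X n A ph) (hc : Cub G X) (f : tb (ful A) i = true) :
    i < n ∧ ∀ y, G.Adj (ph i) y → (∃ j, tb (row A i) j = true ∧ y = ph j) ∨
      (y ∉ X ∧ tb (mT A) i = true) := by
  rcases (tb_or _ _ _).1 f with f | f
  · exact ⟨(h.full3 hc f).1, fun y hy => .inl ((h.full3 hc f).2 y hy)⟩
  obtain ⟨f1, f2⟩ := (tb_and _ _ _).1 f
  obtain ⟨hi, z, z1, z2⟩ := h.stub i f2
  exact ⟨hi, fun y hy => (h.em2_third hc f1 z2 (fun j hj e => z1 (e ▸ h.mem j (h.adj i j hj).2.1))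
    y hy).symm.imp_right fun e : y = z => ⟨e ▸ z1, f2⟩⟩
/-- two known neighbours and a third one -/
theorem Em.third {n A i : ℕ} {ph : ℕ → V} (h : Em G X n A ph) (hc : Cub G X) (f : tb (d2 A) i = true)
    {z : V} (az : G.Adj (ph i) z) (nz : ∀ j, tb (row A i) j = true → ph j ≠ z) :
    ∀ y, G.Adj (ph i) y → y = z ∨ ∃ j, tb (row A i) j = true ∧ y = ph j := by
  exact h.em2_third hc f az nz
/-- an open vertex whose stub is settled has an unknown neighbour in `X` -/
theorem Em.opn' {n A i : ℕ} {ph : ℕ → V} (h : Em G X n A ph) (hc : Cub G X) (h2 : TwoEC G X) (hi : i < n)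
    (f : ¬ tb (ful A) i = true) (s : tb (mT A) i = true ∨ Ker G X (ph i)) :
    ∃ y ∈ X, G.Adj (ph i) y ∧ ∀ j, tb (row A i) j = true → ph j ≠ y := by
  by_contra hn
  have key : ∀ y ∈ X, G.Adj (ph i) y → ∃ j, tb (row A i) j = true ∧ ph j = y := fun y hy a => by
    by_contra e
    exact hn ⟨y, hy, a, fun j hj e' => e ⟨j, hj, e'⟩⟩
  have hi' : i < 64 := by have := h.le; omega
  have hv := h.mem i hi
  obtain ⟨x, y, z, nb⟩ := hc _ hv
  refine f ((tb_or _ _ _).2 (s.symm.imp (fun k => ?_) fun t => (tb_and _ _ _).2 ⟨?_, t⟩))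
  · obtain ⟨a, ha, rfl⟩ := key x (k x nb.adj1) nb.adj1
    obtain ⟨b, hb, rfl⟩ := key y (k y nb.adj2) nb.adj2
    obtain ⟨c, hd, rfl⟩ := key z (k z nb.adj3) nb.adj3
    exact (h.g3 i).2 ⟨hi', Finset.two_lt_card.2 ⟨a, em2_mem.2 ha, b, em2_mem.2 hb, c, em2_mem.2 hd,
      fun e => nb.1 (e ▸ rfl), fun e => nb.2.1 (e ▸ rfl), fun e => nb.2.2.1 (e ▸ rfl)⟩⟩
  · have k2 : ∀ u ∈ X, ∀ w ∈ X, u ≠ w → G.Adj (ph i) u → G.Adj (ph i) w → tb (d2 A) i = true := by
      intro u hu w hw e a1 a2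
      obtain ⟨a, ha, rfl⟩ := key u hu a1
      obtain ⟨b, hb, rfl⟩ := key w hw a2
      exact (h.g2 i).2 ⟨hi', Finset.one_lt_card.2 ⟨a, em2_mem.2 ha, b, em2_mem.2 hb,
        fun e' => e (e' ▸ rfl)⟩⟩
    have o := fun {y z : V} => one_stub hc h2 (y := y) (z := z) hv
    by_cases hx : x ∈ X
    · by_cases hy : y ∈ X
      · exact k2 x hx y hy nb.1 nb.adj1 nb.adj2
      · exact k2 x hx z (by_contra fun hz => nb.2.2.1 (o hy hz nb.adj2 nb.adj3)) nb.2.1 nb.adj1
          nb.adj3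
    · exact k2 y (by_contra fun hy => nb.1 (o hx hy nb.adj1 nb.adj2)) z
        (by_contra fun hz => nb.2.1 (o hx hz nb.adj1 nb.adj3)) nb.2.2.1 nb.adj2 nb.adj3
/-- both ends of an unknown edge are open -/
theorem Em.opn_of {n A i j : ℕ} {ph : ℕ → V} (h : Em G X n A ph) (hc : Cub G X) (hi : i < n) (hj : j < n)
    (a : G.Adj (ph i) (ph j)) (nw : ¬ tb (row A i) j = true) :
    tb (opn n A) j = true ∧ ¬ tb (ful A) i = true := by
  have key : ∀ i < n, ∀ j < n, G.Adj (ph i) (ph j) → tb (ful A) i = true → tb (row A i) j = true := by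
    intro i hi j hj a f
    rcases (h.full hc f).2 _ a with ⟨k, k1, k2⟩ | ⟨e, -⟩
    · exact h.inj j hj k (h.adj i k k1).2.1 k2 ▸ k1
    · exact absurd (h.mem j hj) e
  exact ⟨(tb_dif _ _ _).2 ⟨(tb_alm _ _).2 hj, fun f => nw (h.sym j i (key j hj i hi a.symm f))⟩,
    fun f => nw (key i hi j hj a f)⟩
theorem tb_opn (n A j : ℕ) : tb (opn n A) j = true ↔ j < n ∧ ¬ tb (ful A) j = true := by
  rw [opn, tb_dif, tb_alm]
theorem Em.ker' {lv n A i : ℕ} {ph : ℕ → V} (h : Em G X n A ph) (cx : Cx G X lv) (hi : i < n)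
    (k : tb (UC.ker (kql lv) A) i = true) : Ker G X (ph i) := by
  rcases (tb_or _ _ _).1 k with k | k
  · exact cx.cl (tb_kql k) _ (h.mem i hi)
  rcases (tb_or _ _ _).1 k with k | k
  · exact (h.ker i k).2
  · intro y hy
    obtain ⟨j, j1, rfl⟩ := (h.full3 cx.cub k).2 y hy
    exact h.mem j (h.adj i j j1).2.1
theorem not_stub_ker {v : V} (s : Stub G X v) (k : Ker G X v) : False := by
  obtain ⟨y, a, b⟩ := s
  exact a (k y b)
theorem stub_or_ker (v : V) : Stub G X v ∨ Ker G X v := by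
  by_contra e
  exact e (.inr fun y a => by_contra fun b => e (.inl ⟨y, b, a⟩))
/-- the half-edges of `t` to vertices outside the image of the mask `N` -/
theorem Em.rr_le {n A N t : ℕ} {ph : ℕ → V} (h : Em G X n A ph) (hc : Cub G X) (ht : t < n) (Y : Finset V)
    (hY : Y ⊆ X) (hN : ∀ j < n, tb N j = true → ph j ∉ Y) :
    (Y.filter (fun y => G.Adj (ph t) y)).card ≤ rr A N t := by
  obtain ⟨x, y, z, nb⟩ := hc _ (h.mem t ht)
  set K := ((Finset.range 64).filter (fun j => tb (row A t) j = true)).filter (tb N · = true) with hK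
  have mK : ∀ j, j ∈ K ↔ tb (row A t) j = true ∧ tb N j = true := fun j => by
    rw [hK, Finset.mem_filter, em2_mem]
  have h1 := pcl_le (Nat.land (row A t) N) K fun j hj => (mK j).2 ((tb_and _ _ _).1 hj)
  have h2 : (K.image ph).card = K.card := Finset.card_image_of_injOn fun a ha b hb e =>
    by_contra fun e' => h.em2_ne ((mK a).1 ha).1 ((mK b).1 hb).1 e' e
  have h3 : ∀ S : Finset V, (∀ u ∈ S, u ∉ X ∧ G.Adj (ph t) u) →
      (Y.filter (fun y => G.Adj (ph t) y)).card + K.card + S.card ≤ 3 := fun S hS => by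
    rw [← h2, ← Finset.card_union_of_disjoint, ← Finset.card_union_of_disjoint]
    · refine (Finset.card_le_card (t := {x, y, z}) fun u hu => ?_).trans Finset.card_le_three
      simp only [Finset.mem_union, Finset.mem_filter, Finset.mem_image] at hu
      have : G.Adj (ph t) u := by
        rcases hu with (hu | ⟨j, hj, rfl⟩) | hu
        exacts [hu.2, (h.adj t j ((mK j).1 hj).1).2.2, (hS u hu).2]
      simpa using nb.cases this
    · refine Finset.disjoint_right.2 fun u hu hu' => (hS u hu).1 ?_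
      simp only [Finset.mem_union, Finset.mem_filter, Finset.mem_image] at hu'
      rcases hu' with hu' | ⟨j, hj, rfl⟩
      exacts [hY hu'.1, h.mem j (h.adj t j ((mK j).1 hj).1).2.1]
    · refine Finset.disjoint_right.2 fun u hu hu' => ?_
      obtain ⟨j, hj, rfl⟩ := Finset.mem_image.1 hu
      exact hN j (h.adj t j ((mK j).1 hj).1).2.1 ((mK j).1 hj).2 (Finset.mem_filter.1 hu').1
  show _ ≤ 3 - bt (mT A) t - pcl (Nat.land (row A t) N)
  rw [bt_eq]
  split_ifs with e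
  · obtain ⟨-, u, u1, u2⟩ := h.stub t e
    have := h3 {u} (by simp [u1, u2])
    rw [Finset.card_singleton] at this
    omega
  · have := h3 ∅ (by simp)
    omega
theorem uem1_or {n A A' k b : ℕ} {ph : ℕ → V} (h : Em G X n A ph) (hb : b ≤ 1)
    (e : Nat.lor A (two k) = A') (h' : b = 1 → Em G X n A' ph) :
    Em G X n (Nat.lor A (Nat.shiftLeft b k)) ph := by
  obtain rfl | rfl := Nat.le_one_iff_eq_zero_or_eq_one.1 hb
  · rwa [show Nat.shiftLeft 0 k = 0 from Nat.zero_shiftLeft k, show Nat.lor A 0 = A from Nat.or_zero A]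
  · exact e ▸ h' rfl
theorem uem1_init {st n : ℕ} {s : ℕ → ℕ → ℕ} {ph : ℕ → V} (h : Em G X n 0 ph) (hs : st ≤ 1)
    (h1 : ∀ i < n, ∀ k < 3, s i k = 1 → st = 1 → Stub G X (ph i))
    (h2 : ∀ i < n, ∀ k < 3, ∀ y, s i k = y + 2 → y < n ∧ G.Adj (ph i) (ph y)) :
    ∀ m ≤ n, Em G X n (initS st m s) ph := by
  have k {A i : ℕ} (hi : i < n) (k : ℕ) (hk : k < 3) (h : Em G X n A ph) :
      Em G X n (addC st A i (s i k)) ph := by
    rw [addC, fz_eq]
    cases e : Nat.ble 2 (s i k)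
    · have e' := (ble_false _ _).1 e
      have : st * s i k ≤ 1 := Nat.mul_le_mul hs (by omega : s i k ≤ 1)
      exact uem1_or h this rfl fun r => h.stb' hi
        (h1 i hi k hk (Nat.eq_one_of_mul_eq_one_left r) (Nat.eq_one_of_mul_eq_one_right r))
    · have e' := Nat.le_of_ble_eq_true e
      obtain ⟨r1, r2⟩ := h2 i hi k hk (s i k - 2) (by omega)
      exact h.addE' hi r1 r2
  intro m hm
  induction m with
  | zero => exact h
  | succ m ih => exact k hm 2 (by omega) (k hm 1 (by omega) (k hm 0 (by omega) (ih (by omega))))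
theorem initF_em {E : ℕ} {ph : ℕ → V} (h : FE G X E ph) (hn : fN E < 63)
    (hb : ∀ i < fN E, fA (fF E i) < fN E ∧ fB (fF E i) < fN E) : Em G X (fN E) (initF E) ph := by
  have b (x i : ℕ) : bt x i ≤ 1 := by rw [bt_eq]; split_ifs <;> omega
  unfold initF
  suffices H : ∀ m ≤ fN E, Em G X (fN E) (Nat.rec (motive := fun _ => ℕ) 0 _ m) ph from H _ le_rfl
  intro m hm
  induction m with
  | zero => exact em_zero ph (by omega) h.mem h.inj
  | succ m ih =>
    have k := ((ih (by omega)).addE' hm (hb m hm).1 (h.ea m hm)).addE' hm (hb m hm).2 (h.eb m hm)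
    have k1 := uem1_or k (b (fF E m) 12) rfl fun r => k.stb' hm (h.stub m hm r)
    have k2 := uem1_or k1 (b (fF E m) 13) rfl fun r => k1.skr' hm (h.ker m hm r)
    have e (x y z : ℕ) : Nat.lor (Nat.lor x y) z = Nat.lor x (Nat.lor y z) := Nat.or_assoc x y z
    rw [e] at k2
    simpa only [fz_eq] using k2
theorem initS_em {n : ℕ} {s : ℕ → ℕ → ℕ} {ph : ℕ → V} (h : SE G X n s ph) (hn : n < 63) :
    Em G X n (initS 1 n s) ph := by
  exact uem1_init (em_zero ph (by omega) h.mem h.inj) le_rfl (fun i hi k hk r _ => h.stub i hi k hk r)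
    h.edge n le_rfl
/-- a pattern in a part `W` of `X`, stubs forgotten; all its edges are known -/
theorem initS_em0 {W : Finset V} {n : ℕ} {s : ℕ → ℕ → ℕ} {ph : ℕ → V} (h : SE G W n s ph) (hW : W ⊆ X)
    (hn : n < 63) : Em G X n (initS 0 n s) ph := by
  exact uem1_init (em_zero ph (by omega) (fun i hi => hW (h.mem i hi)) h.inj) (by omega)
    (fun _ _ _ _ _ r => by omega) h.edge n le_rfl

end Pool.Agent.Hom2.UC
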