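import Pool.Agent.Lib.MP_7e4769_co.Hc.UPay1

set_option autoImplicit false

namespace Pool.Agent.Hom2.UC

open Classical

variable {V : Type} {G : SimpleGraph V} {X : Finset V}

/-- the vertices of `X` outside the image of the mask `N` -/
noncomputable def Rem (X : Finset V) (n N : ℕ) (ph : ℕ → V) : Finset V :=
  X.filter (fun v => ∀ j < n, tb N j = true → ph j ≠ v)

/-- what `payOK` says about the shape -/
structure Shape (kq n A S K I o Pl pc : ℕ) : Prop where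
  disj : ∀ j, tb S j = true → ¬ tb K j = true
  lt : ∀ j, tb (Nat.lor S K) j = true → j < n
  two : ∃ a b, a ≠ b ∧ tb (Nat.lor S K) a = true ∧ tb (Nat.lor S K) b = true
  full : ∀ j, tb K j = true ∨ tb I j = true → tb (ful A) j = true
  ker : ∀ j, tb S j = true → tb (UC.ker kq A) j = true
  inner : ∀ j, tb I j = true → tb (Nat.lor S K) j = true ∧ ∀ v, tb (row A j) v = true → tb (Nat.lor S K) v = true
  sport : ∀ j, tb S j = true → ¬ tb I j = true → ∃ i < pc, pw Pl i = j ∧ pt Pl i < 2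
  bd : ∀ j, tb K j = true → ¬ tb I j = true → ∃ i < pc, 2 ≤ pt Pl i ∧ tb (row A j) (pw Pl i) = true ∧
    ∀ v, tb (row A j) v = true → ¬ tb (Nat.lor S K) v = true → v = pw Pl i
  port : ∀ i < pc, pOK A S K o (pw Pl i) (pt Pl i) = true

theorem payOK_shape {kq n A S K I o Pl pc Cs nc : ℕ} (h : payOK kq n A S K I o Pl pc Cs nc = true) :
    Shape kq n A S K I o Pl pc ∧ Nat.succ (covAll A S K I Pl pc Cs n nc) = two (strd Pl pc) := by
  simp only [payOK, fzb_eq, Bool.and_eq_true, z0_iff, nz_iff, allLt_iff, Nat.beq_eq] at h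
  obtain ⟨⟨⟨⟨⟨⟨⟨⟨⟨⟨h1, h2⟩, h3⟩, h4⟩, h5⟩, h6⟩, h7⟩, h8⟩, h9⟩, h10⟩, h11⟩ := h
  refine ⟨⟨fun j a b => tb_land h1 a b, fun j a => tb_lt_of_shr h2 a, lw_ne h3,
    fun j a => dif_zero h4 ((tb_or _ _ _).2 a), fun j a => dif_zero h5 a,
    fun j a => ⟨dif_zero h6 a, fun v b => dif_zero ((z0_iff _).1 (bla_true h8 a)) b⟩,
    fun j a b => (tb_mkS _ _ _).1 (dif_zero h7 ((tb_dif _ _ _).2 ⟨a, b⟩)), fun j a b => ?_, h10⟩,
    h11⟩
  have h12 := bla_true h9 ((tb_dif _ _ _).2 ⟨a, b⟩)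
  simp only [Bool.and_eq_true, z0_iff, nz_iff] at h12
  obtain ⟨⟨e1, e2⟩, e3⟩ := h12
  obtain ⟨v, hv⟩ := exists_tb e1
  obtain ⟨i, hi, rfl, ht⟩ := (tb_mkY _ _ _).1 (dif_zero e3 hv)
  exact ⟨i, hi, ht, ((tb_dif _ _ _).1 hv).1, fun u a' b' =>
    lw_zero e2 ((tb_dif _ _ _).2 ⟨a', b'⟩) hv⟩

theorem up2_mem {n N : ℕ} {ph : ℕ → V} {v : V} :
    v ∈ Rem X n N ph ↔ v ∈ X ∧ ∀ j < n, tb N j = true → ph j ≠ v := Finset.mem_filter

theorem up2_val (lo hi v : ℕ) : (colF4 lo hi v).val = colr lo hi v :=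
  Nat.mod_eq_of_lt (colr_lt lo hi v)

theorem up2_three {lo hi v : ℕ} (a : tb lo v = true) (b : tb hi v = true) : colF4 lo hi v = 3 := by
  apply Fin.ext
  rw [up2_val, colr, bt_eq, bt_eq, if_pos a, if_pos b]
  rfl

theorem up2_tW {A K lo hi c0 c1 c2 c3 w ty a : ℕ} (h : tb (pmu A K lo hi c0 c1 c2 c3 w ty) a = true) :
    tb (tW ty (colr lo hi (pv1 A K w)) (colr lo hi (pv2 A K w ty))) a = true := by
  unfold pmu at h
  split_ifs at h
  · exact h
  · exact ((tb_and _ _ _).1 h).1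

theorem up2_tC {A K lo hi c0 c1 c2 c3 w ty a j : ℕ} (h : tb (pmu A K lo hi c0 c1 c2 c3 w ty) a = true)
    (h2 : 2 ≤ ty) (hj : j = pv1 A K w ∨ j = pv2 A K w ty) :
    tb (tC (colr lo hi j) (cset A c0 c1 c2 c3 j)) a = true := by
  rw [pmu, if_neg (by omega)] at h
  have h3 := (tb_and _ _ _).1 ((tb_and _ _ _).1 h).2
  rcases hj with rfl | rfl
  · exact h3.1
  · exact h3.2

/-- a vertex of `X` next to a vertex of `K` is a known neighbour -/
theorem up2_known {kq n A S K I o Pl pc : ℕ} {ph : ℕ → V} (hc : Cub G X) (h : Em G X n A ph)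
    (sh : Shape kq n A S K I o Pl pc) {j : ℕ} (hj : tb K j = true) {y : V} (hy : y ∈ X)
    (a : G.Adj (ph j) y) : ∃ u, tb (row A j) u = true ∧ y = ph u :=
  ((h.full hc (sh.full j (Or.inl hj))).2 y a).resolve_right fun e => e.1 hy

/-- the state of a port -/
theorem up2_port {lv n A S K I o Pl pc w ty : ℕ} {ph : ℕ → V} (cx : Cx G X lv) (h : Em G X n A ph)
    (sh : Shape (kql lv) n A S K I o Pl pc)
    (hS : ∀ a b, tb S a = true → tb S b = true → ¬ G.Adj (ph a) (ph b)) {T : Set V}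
    (hT : ∀ t ∈ T, ∃ j, tb K j = true ∧ tb (row A o) j = true ∧ ¬ tb (Nat.lor S K) o = true ∧ t = ph j)
    {c : V → Fin 4} (c1 : ∀ v, v ∉ Rem X n (Nat.lor S K) ph → v ∉ T → c v = 3)
    (c2 : ∀ v ∈ Rem X n (Nat.lor S K) ph, OK G c v) (hp : pOK A S K o w ty = true) :
    ∃ a < rad ty, aC ty a = c (ph w) ∧ ∀ d : V → Fin 4,
      (∀ v, (∀ j, tb K j = true → v ≠ ph j) → d v = c v) →
      tb (tW ty (d (ph (pv1 A K w))).val (d (ph (pv2 A K w ty))).val) a = true → OK G d (ph w) := by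
  obtain ⟨t5, hv, hodd, hs, hy⟩ := pv_spec hp
  obtain ⟨r1, k1⟩ := (hv _).2 (Or.inl rfl)
  obtain ⟨r2, k2⟩ := (hv _).2 (Or.inr rfl)
  obtain ⟨wn, n1, a1⟩ := h.adj _ _ r1
  obtain ⟨-, n2, a2⟩ := h.adj _ _ r2
  have wX := h.mem w wn
  have ltK : ∀ j, tb K j = true → j < n := fun j a => sh.lt j ((tb_or _ _ _).2 (Or.inr a))
  have wK : ∀ j, tb K j = true → ph w ≠ ph j := by
    intro j a e
    rw [← h.inj _ wn _ (ltK j a) e] at a
    rcases lt_or_ge ty 2 with t | t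
    · exact sh.disj w (hs t).1 a
    · exact (hy t).2.1 a
  have off : ∀ y, G.Adj (ph w) y → y ≠ ph (pv1 A K w) → y ≠ ph (pv2 A K w ty) →
      ∀ j, tb K j = true → y ≠ ph j := by
    rintro y a e1 e2 j k rfl
    obtain ⟨u, hu, e⟩ := up2_known cx.cub h sh k wX a.symm
    rw [← h.inj _ wn _ (h.adj _ _ hu).2.1 e] at hu
    rcases (hv j).1 ⟨h.sym _ _ hu, k⟩ with rfl | e3
    · exact e1 rfl
    · exact e2 (congrArg ph e3)
  have w3 : ty < 2 → c (ph w) = 3 := fun t => c1 _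
    (fun m => (up2_mem.1 m).2 w wn ((tb_or _ _ _).2 (Or.inl (hs t).1)) rfl)
    fun m => by
      obtain ⟨j, k, -, -, e⟩ := hT _ m
      exact wK j k e
  have ne3 : ty < 2 → ∀ y, G.Adj (ph w) y → (∀ j, tb K j = true → y ≠ ph j) → c y ≠ 3 := by
    intro t y a e
    have yX : y ∈ X := h.ker' cx wn (sh.ker w (hs t).1) y a
    have yR : y ∈ Rem X n (Nat.lor S K) ph := up2_mem.2 ⟨yX, fun j _ b e' => by
      rcases (tb_or _ _ _).1 b with b | b
      · exact hS w j (hs t).1 b (e' ▸ a)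
      · exact e j b e'.symm⟩
    rw [← w3 t]
    exact OK.ne cx.cub yX (c2 y yR) a.symm
  have okw : 2 ≤ ty → OK G c (ph w) := fun t => c2 _ (up2_mem.2 ⟨wX, fun j jn b e => by
    rw [h.inj _ jn _ wn e] at b
    rcases (tb_or _ _ _).1 b with b | b
    · exact (hy t).1 b
    · exact (hy t).2.1 b⟩)
  have k3 : 2 ≤ ty → ty ≠ 4 → ∀ j, tb (row A w) j = true → tb K j = true → c (ph j) = 3 := by
    intro t t4 j r k
    have wo : ¬ tb (Nat.lor S K) w = true := fun b =>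
      ((tb_or _ _ _).1 b).elim (hy t).1 (hy t).2.1
    refine c1 _ (fun m => (up2_mem.1 m).2 j (ltK j k) ((tb_or _ _ _).2 (Or.inr k)) rfl) fun m => ?_
    obtain ⟨j', k', r', no, e⟩ := hT _ m
    rw [← h.inj _ (ltK j k) _ (ltK j' k') e] at r'
    obtain ⟨i, -, -, -, u⟩ := sh.bd j k fun b => wo ((sh.inner j b).2 w (h.sym _ _ r))
    exact t4 ((hy t).2.2.1 ((u w (h.sym _ _ r) wo).trans (u o (h.sym _ _ r') no).symm))
  rcases Nat.mod_two_eq_zero_or_one ty with ev | od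
  · have e : pv1 A K w = pv2 A K w ty := by_contra fun e => by
      have := hodd.2 e
      omega
    obtain ⟨y, z, nb⟩ := cx.cub.first wX a1
    have oy := off y nb.adj2 nb.1.symm (e ▸ nb.1.symm)
    have oz := off z nb.adj3 nb.2.1.symm (e ▸ nb.2.1.symm)
    suffices H : ∃ a < rad ty, aC ty a = c (ph w) ∧
        ∀ x, x ≠ c (ph w) → x ≠ aE ty a → ok4 (c (ph w)) x (c y) (c z) by
      obtain ⟨a, ha, e1, e2⟩ := H
      refine ⟨a, ha, e1, fun d hd b => OK.of_nb nb ?_⟩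
      obtain ⟨b1, b2⟩ := tW_even ty t5 ev _ _ a ha b
      rw [hd _ wK, hd y oy, hd z oz]
      exact e2 _ (e1 ▸ b1) b2
    obtain rfl | rfl | rfl : ty = 0 ∨ ty = 2 ∨ ty = 4 := by omega
    · obtain ⟨a, ha, e2⟩ := atom0 (c y) (c z) (ne3 (by omega) y nb.adj2 oy)
        (ne3 (by omega) z nb.adj3 oz)
      rw [w3 (by omega)]
      exact ⟨a, ha, rfl, e2⟩
    · refine atom2 _ _ _ ?_
      rw [← k3 (by omega) (by omega) _ r1 k1]
      exact okw (by omega) _ _ _ nb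
    · exact atom4 _ _ _ _ (okw (by omega) _ _ _ nb)
  · obtain ⟨z, nb⟩ := cx.cub.second wX a1 a2 fun e => hodd.1 od (h.inj _ n1 _ n2 e)
    have oz := off z nb.adj3 nb.2.1.symm nb.2.2.1.symm
    suffices H : ∃ a < rad ty, aC ty a = c (ph w) ∧ aE ty a = c z by
      obtain ⟨a, ha, e1, e2⟩ := H
      refine ⟨a, ha, e1, fun d hd b => OK.of_nb nb ?_⟩
      rw [hd _ wK, hd z oz, ← e1, ← e2]
      exact tW_odd ty t5 od _ _ a ha b
    obtain rfl | rfl : ty = 1 ∨ ty = 3 := by omega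
    · rw [w3 (by omega)]
      exact atom1 _ (ne3 (by omega) z nb.adj3 oz)
    · refine atom3 _ _ ?_
      have := okw (by omega) _ _ _ nb
      rwa [k3 (by omega) (by omega) _ r1 k1, k3 (by omega) (by omega) _ r2 k2] at this

/-- a vertex of `K` with the outer neighbour `w` -/
theorem up2_bd {n A U lo hi j w : ℕ} {ph : ℕ → V} (h : Em G X n A ph) (hc : Cub G X)
    (hlo : ∀ j, tb lo j = true → tb U j = true) (hhi : ∀ j, tb hi j = true → tb U j = true)
    (hv : tb U j = true) (f : tb (ful A) j = true) (r : tb (row A j) w = true)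
    (u : ∀ v, tb (row A j) v = true → ¬ tb U v = true → v = w) (d : V → Fin 4)
    (ok : okT (colF4 lo hi j).val (Nat.lor (cset A (dif U (Nat.lor lo hi)) (Nat.xor lo (Nat.land lo hi))
      (Nat.xor hi (Nat.land lo hi)) (Nat.land lo hi) j) (two (d (ph w)).val)) ≠ 0)
    (hd : ∀ j < n, tb U j = true → d (ph j) = colF4 lo hi j) (ho : ∀ y, y ∉ X → d y = 3) :
    OK G d (ph j) := by
  intro x y z nb
  obtain ⟨s1, s2⟩ := cset_spec hlo hhi A j
  rw [hd j (h.adj _ _ r).1 hv]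
  refine okT_spec _ _ _ _ _ ?_ (fun t => ?_) ok
  · rw [two_eq]
    exact Nat.or_lt_two_pow (n := 4) s1 (Nat.pow_lt_pow_right (by omega) (d (ph w)).2)
  have e : (t = d x ∨ t = d y ∨ t = d z) ↔ ∃ v, G.Adj (ph j) v ∧ t = d v := by
    constructor
    · rintro (e | e | e)
      exacts [⟨x, nb.adj1, e⟩, ⟨y, nb.adj2, e⟩, ⟨z, nb.adj3, e⟩]
    · rintro ⟨v, a, e⟩
      rcases nb.cases a with rfl | rfl | rfl
      exacts [Or.inl e, Or.inr (Or.inl e), Or.inr (Or.inr e)]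
  rw [e, tb_or, tb_two, s2 t.val t.2]
  constructor
  · rintro ((⟨v, r', b, e'⟩ | ⟨e', b⟩) | e')
    · refine ⟨ph v, (h.adj _ _ r').2.2, Fin.ext ?_⟩
      rw [hd v (h.adj _ _ r').2.1 b, up2_val, e']
    · obtain ⟨v, vX, a⟩ := (h.stub j b).2
      exact ⟨v, a, Fin.ext (by rw [ho v vX]; exact e')⟩
    · exact ⟨ph w, (h.adj _ _ r).2.2, Fin.ext e'⟩
  · rintro ⟨v, a, rfl⟩
    rcases (h.full hc f).2 v a with ⟨v, r', rfl⟩ | ⟨vX, b⟩
    · by_cases b : tb U v = true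
      · exact Or.inl (Or.inl ⟨v, r', b, by rw [hd v (h.adj _ _ r').2.1 b, up2_val]⟩)
      · exact Or.inr (by rw [u v r' b])
    · exact Or.inl (Or.inr ⟨by rw [ho v vX]; rfl, b⟩)

/-- Payment. `c` colours the remainder, with 3 outside except on `T`, where `T` is empty or the neighbour in `K` of
the free vertex `o`. Choose the state of every port (`atom0` .. `atom4`), get a colouring `C` from `covAll_bit`,
`prod_bit`; recolour `K` by `colF4`. Vertices of `I`: `ok_inner`. Vertices of `K` outside `I`: `tC_spec`,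
`cset_spec`, `okT_spec`. Ports: `tW_odd`, `tW_even`. All other vertices have no neighbour in `K`. -/
theorem pay_snd {lv n A S K I o Pl pc Cs nc : ℕ} {ph : ℕ → V} (cx : Cx G X lv) (h : Em G X n A ph)
    (p : payOK (kql lv) n A S K I o Pl pc Cs nc = true)
    (hS : ∀ a b, tb S a = true → tb S b = true → ¬ G.Adj (ph a) (ph b)) {T : Set V}
    (hT : ∀ t ∈ T, ∃ j, tb K j = true ∧ tb (row A o) j = true ∧ ¬ tb (Nat.lor S K) o = true ∧ t = ph j)
    (g : Col G (Rem X n (Nat.lor S K) ph) T) : Good G X := by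
  obtain ⟨sh, cov⟩ := payOK_shape p
  obtain ⟨c, c1, c2⟩ := g
  have hst := fun i (hi : i < pc) => up2_port cx h sh hS hT c1 c2 (sh.port i hi)
  choose! st st1 st2 st3 using hst
  obtain ⟨C, hC⟩ := covAll_bit cov (idx_lt st1)
  simp only [cover, fz_eq, cls4_eq] at hC
  generalize hlo : Nat.lor (Nat.land C K) S = lo at hC
  generalize hhi : Nat.lor (Nat.land (shr C n) K) S = hi at hC
  have sub : ∀ m j, tb (Nat.lor (Nat.land m K) S) j = true → tb (Nat.lor S K) j = true :=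
    fun m j b => (tb_or _ _ _).2 (((tb_or _ _ _).1 b).symm.imp_right fun b => ((tb_and _ _ _).1 b).2)
  have ulo : ∀ j, tb lo j = true → tb (Nat.lor S K) j = true := hlo ▸ sub _
  have uhi : ∀ j, tb hi j = true → tb (Nat.lor S K) j = true := hhi ▸ sub _
  have s3 : ∀ j, tb S j = true → colF4 lo hi j = 3 := fun j b =>
    up2_three (hlo ▸ (tb_or _ _ _).2 (Or.inr b)) (hhi ▸ (tb_or _ _ _).2 (Or.inr b))
  obtain ⟨hI, hP⟩ : nz (okI A lo hi (dif (Nat.lor S K) (Nat.lor lo hi)) (Nat.xor lo (Nat.land lo hi))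
      (Nat.xor hi (Nat.land lo hi)) (Nat.land lo hi) I) = true ∧
      tb (prodK (pstep A K lo hi (dif (Nat.lor S K) (Nat.lor lo hi)) (Nat.xor lo (Nat.land lo hi))
        (Nat.xor hi (Nat.land lo hi)) (Nat.land lo hi)) Pl pc fun P _ => P) (idx Pl st pc) = true := by
    revert hC
    cases nz _ <;> simp
  have hmu := prod_bit (fun i hi => (pv_spec (sh.port i hi)).1) st1 hP
  have ltK : ∀ j, tb K j = true → j < n := fun j a => sh.lt j ((tb_or _ _ _).2 (Or.inr a))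
  obtain ⟨d, d1, d2⟩ : ∃ d : V → Fin 4, (∀ v, (∀ j, tb K j = true → v ≠ ph j) → d v = c v) ∧
      ∀ j, tb K j = true → d (ph j) = colF4 lo hi j := by
    refine ⟨fun v => if e : ∃ j, tb K j = true ∧ v = ph j then colF4 lo hi e.choose else c v,
      fun v hv => dif_neg fun ⟨j, k, e⟩ => hv j k e, fun j k => ?_⟩
    have e : ∃ j', tb K j' = true ∧ ph j = ph j' := ⟨j, k, rfl⟩
    simp only [dif_pos e]
    rw [← h.inj _ (ltK j k) _ (ltK _ e.choose_spec.1) e.choose_spec.2]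
  have c3 : ∀ v, v ∉ Rem X n (Nat.lor S K) ph → (∀ j, tb K j = true → v ≠ ph j) → d v = 3 :=
    fun v a b => (d1 v b).trans (c1 v a fun m => by
      obtain ⟨j, k, -, -, e⟩ := hT _ m
      exact b j k e)
  have ho : ∀ y, y ∉ X → d y = 3 := fun y a =>
    c3 y (fun m => a (up2_mem.1 m).1) fun j k e => a (e ▸ h.mem j (ltK j k))
  have hd : ∀ j < n, tb (Nat.lor S K) j = true → d (ph j) = colF4 lo hi j := by
    intro j jn b
    rcases (tb_or _ _ _).1 b with a | a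
    · rw [s3 j a]
      exact c3 _ (fun m => (up2_mem.1 m).2 j jn b rfl)
        fun j' k e => sh.disj j a (h.inj _ jn _ (ltK j' k) e ▸ k)
    · exact d2 j a
  have hp : ∀ i < pc, OK G d (ph (pw Pl i)) := fun i hi' => st3 i hi' d d1 (by
    obtain ⟨-, hv, -⟩ := pv_spec (sh.port i hi')
    rw [d2 _ ((hv _).2 (Or.inl rfl)).2, d2 _ ((hv _).2 (Or.inr rfl)).2, up2_val, up2_val]
    exact up2_tW (hmu i hi'))
  refine ⟨d, fun v a _ => ho v a, fun v vX => ?_⟩
  by_cases vR : v ∈ Rem X n (Nat.lor S K) ph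
  · have vK : ∀ j, tb K j = true → v ≠ ph j := fun j k e =>
      (up2_mem.1 vR).2 j (ltK j k) ((tb_or _ _ _).2 (Or.inr k)) e.symm
    by_cases e : ∃ j, tb K j = true ∧ G.Adj v (ph j)
    · obtain ⟨j, k, a⟩ := e
      obtain ⟨u, r, rfl⟩ := up2_known cx.cub h sh k vX a.symm
      have uo : ¬ tb (Nat.lor S K) u = true := fun b =>
        (up2_mem.1 vR).2 u (h.adj _ _ r).2.1 b rfl
      obtain ⟨i, hi', -, -, e⟩ := sh.bd j k fun b => uo ((sh.inner j b).2 u r)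
      rw [e u r uo]
      exact hp i hi'
    · exact (c2 v vR).congr (d1 v vK) fun w a => d1 w fun j k e' => e ⟨j, k, e' ▸ a⟩
  · obtain ⟨j, jn, b, rfl⟩ : ∃ j < n, tb (Nat.lor S K) j = true ∧ ph j = v := by
      by_contra e
      exact vR (up2_mem.2 ⟨vX, fun j jn b e' => e ⟨j, jn, b, e'⟩⟩)
    by_cases bI : tb I j = true
    · exact ok_inner h cx.cub ulo uhi b (sh.full j (Or.inr bI)) (sh.inner j bI).2
        (okI_ne ((nz_iff _).1 hI) bI) d hd ho
    rcases (tb_or _ _ _).1 b with a | a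
    · obtain ⟨i, hi', rfl, -⟩ := sh.sport j a bI
      exact hp i hi'
    · obtain ⟨i, hi', t2, r, u⟩ := sh.bd j a bI
      obtain ⟨t5, hv, -, -, hy⟩ := pv_spec (sh.port i hi')
      refine up2_bd h cx.cub ulo uhi b (sh.full j (Or.inl a)) r u d ?_ hd ho
      rw [d1 _ fun j' k e => (hy t2).2.1 (h.inj _ (h.adj _ _ r).2.1 _ (ltK j' k) e ▸ k),
        ← st2 i hi']
      refine tC_spec _ t5 t2 _ _ (cset_spec ulo uhi A j).1 _ (st1 i hi') ?_
      rw [up2_val]
      exact up2_tC (hmu i hi') t2 ((hv j).1 ⟨h.sym _ _ r, a⟩)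

end Pool.Agent.Hom2.UC
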