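import Pool.Agent.Lib.MP_7e4769_co.Hc.UWit5
import Pool.Agent.Lib.MP_7e4769_co.Hc.UPay2
import Pool.Agent.Lib.MP_7e4769_co.Hc.UGen

set_option autoImplicit false

namespace Pool.Agent.Hom2.UC

open Classical

variable {V : Type} {G : SimpleGraph V} {X : Finset V}

theorem um1_sq {x : ℕ} (k : ℕ → ℕ) (h : x ≠ 0) : sq x k = k x := by
  cases x with
  | zero => exact absurd rfl h
  | succ m => rfl
theorem um1_rem {n N : ℕ} {ph : ℕ → V} {v : V} :
    v ∈ Rem X n N ph ↔ v ∈ X ∧ ∀ j < n, tb N j = true → ph j ≠ v := Finset.mem_filter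
/-- a set of edges that leave `O` -/
theorem um1_cut {O : Finset V} (s : Finset (V × V))
    (h : ∀ p ∈ s, p.1 ∈ O ∧ p.2 ∈ X ∧ p.2 ∉ O ∧ G.Adj p.1 p.2) : s.card ≤ Sc.ecut G X O := by
  rw [Finset.card_eq_sum_card_fiberwise (f := Prod.fst) (t := O) fun p hp => (h p hp).1]
  refine Finset.sum_le_sum fun x _ => Finset.card_le_card_of_injOn Prod.snd (fun p hp => ?_)
    fun p hp q hq e => ?_
  · obtain ⟨h1, rfl⟩ := Finset.mem_filter.1 hp
    exact Finset.mem_coe.2 (Finset.mem_filter.2 ⟨(h p h1).2.1, (h p h1).2.2⟩)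
  · exact Prod.ext ((Finset.mem_filter.1 hp).2.trans (Finset.mem_filter.1 hq).2.symm) e
/-- the zone lies in every part `O` of the remainder that contains `o` and is closed -/
theorem zone_sub {n A SK o Zl c : ℕ} {ph : ℕ → V} (h : Em G X n A ph) (ho : o < n) {O : Finset V}
    (hO : ph o ∈ O) (hcl : ∀ x ∈ O, ∀ y ∈ Rem X n SK ph, G.Adj x y → y ∈ O) (z : zone A SK o Zl c ≠ 0) :
    ∀ j, tb (zone A SK o Zl c) j = true → j < n ∧ ph j ∈ O := by
  unfold zone at z ⊢
  induction c with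
  | zero =>
    intro j hj
    obtain rfl := (tb_two o j).1 hj
    exact ⟨ho, hO⟩
  | succ c ih =>
    rw [thr_succ] at z ⊢
    obtain ⟨z1, z2⟩ := sq_ne z
    rw [um1_sq _ z1]
    simp only [fz_eq] at z1 z2 ih ⊢
    obtain ⟨h1, -⟩ := cond_ne z2
    rw [h1, cond_true]
    rw [Bool.and_eq_true, nz_iff, Bool.not_eq_true'] at h1
    intro j hj
    rcases (tb_sb _ _ _).1 hj with hj | rfl
    · exact ih z1 j hj
    obtain ⟨i, hi⟩ := exists_tb h1.1
    obtain ⟨h2, h3⟩ := (tb_and _ _ _).1 hi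
    obtain ⟨h4, -, h5⟩ := h.adj _ _ h2
    refine ⟨h4, hcl _ (ih z1 i h3).2 _ (um1_rem.2 ⟨h.mem _ h4, fun k hk hk' e => ?_⟩) h5.symm⟩
    rw [h.inj k hk _ h4 e, h1.2] at hk'
    exact absurd hk' (by simp)
/-- Besides the edge `h o` at least `nd` edges leave the component `O` of `o`, or a child closes. For `nd = 2`:
if `O` has two vertices use `E3` (`S` and `K` hold two vertices), if `O = {o}` count the neighbours of `o`. -/
theorem oKids_snd {lv : ℕ} {cl : Cl} (cx : Cx G X lv) (hcl : Snd G X cl) {n A S K I o Pl pc nd hh B : ℕ}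
    {ph : ℕ → V} (h : Em G X n A ph) (sh : Shape (kql lv) n A S K I o Pl pc) (h3 : nd < 3)
    (hK : tb K hh = true) (hh1 : tb (row A o) hh = true) (hSK : ¬ tb (Nat.lor S K) o = true)
    (hu : ∀ j, tb K j = true → tb (row A o) j = true → j = hh) {O : Finset V}
    (sub : O ⊆ Rem X n (Nat.lor S K) ph) (hO : ph o ∈ O)
    (hc : ∀ x ∈ O, ∀ y ∈ Rem X n (Nat.lor S K) ph, G.Adj x y → y ∈ O)
    (r : oKids cl lv (kql lv) n A S K o nd B ≠ 0) : TG G X ∨ nd + 1 ≤ Sc.ecut G X O := by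
  obtain ⟨ho, hh2, adj⟩ := h.adj _ _ hh1
  have hX : O ⊆ X := fun x hx => (um1_rem.1 (sub hx)).1
  have out : ∀ j, tb (Nat.lor S K) j = true → ph j ∈ X ∧ ph j ∉ O := fun j hj =>
    ⟨h.mem j (sh.lt j hj), fun e => (um1_rem.1 (sub e)).2 j (sh.lt j hj) hj rfl⟩
  have hho := out hh ((tb_or _ _ _).2 (Or.inr hK))
  by_cases h2 : nd < 2
  · have h4 := cx.two.2 O hX ⟨_, hO⟩ (fun e => hho.2 (e ▸ hho.1)) (ph o) (ph hh)
    simp only [Only, not_forall] at h4
    obtain ⟨x, hx, y, hy, hy', a, ne⟩ := h4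
    have := um1_cut (G := G) (X := X) (O := O) {(x, y), (ph o, ph hh)} (by
      intro p hp
      rcases Finset.mem_insert.1 hp with rfl | hp
      · exact ⟨hx, hy, hy', a⟩
      · rw [Finset.mem_singleton.1 hp]
        exact ⟨hO, hho.1, hho.2, adj⟩)
    rw [Finset.card_pair fun e => ne (Prod.mk.inj e)] at this
    exact Or.inr (by omega)
  obtain rfl : nd = 2 := by omega
  unfold oKids at r
  rw [show lt 2 2 = false from rfl, cond_false] at r
  obtain ⟨hlv, r⟩ := cond_ne r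
  by_cases h4 : 2 ≤ O.card
  · refine Or.inr (cx.e3 (Nat.le_of_ble_eq_true hlv) O hX h4 ?_)
    obtain ⟨a, b, ab, ha, hb⟩ := sh.two
    have := Finset.card_le_card (s := {ph a, ph b}) (t := X \ O) (by
      intro p hp
      rcases Finset.mem_insert.1 hp with rfl | hp
      · exact Finset.mem_sdiff.2 (out a ha)
      · rw [Finset.mem_singleton.1 hp]
        exact Finset.mem_sdiff.2 (out b hb))
    rw [Finset.card_pair fun e => ab (h.inj a (sh.lt a ha) b (sh.lt b hb) e),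
      Finset.card_sdiff_of_subset hX] at this
    have := Finset.card_le_card hX
    omega
  have one : ∀ y, G.Adj (ph o) y → y ∉ O := fun y a hy =>
    a.ne (Finset.card_le_one.1 (by omega) _ hO _ hy)
  rcases stub_or_ker (G := G) (X := X) (ph o) with st | kr
  swap
  · obtain ⟨x, y, z, hn⟩ := cx.cub _ (hX hO)
    have := um1_cut (G := G) (X := X) (O := O) {(ph o, x), (ph o, y), (ph o, z)} (by
      intro p hp
      simp only [Finset.mem_insert, Finset.mem_singleton] at hp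
      rcases hp with rfl | rfl | rfl
      exacts [⟨hO, kr _ hn.adj1, one _ hn.adj1, hn.adj1⟩, ⟨hO, kr _ hn.adj2, one _ hn.adj2, hn.adj2⟩,
        ⟨hO, kr _ hn.adj3, one _ hn.adj3, hn.adj3⟩])
    rw [Finset.card_eq_three.2 ⟨_, _, _, by simp [hn.1], by simp [hn.2.1], by simp [hn.2.2.1], rfl⟩]
      at this
    exact Or.inr this
  have b1 : (tb (ker (kql lv) A) o || nz (dif (row A o) (Nat.lor S K))) = false := by
    rw [Bool.or_eq_false_iff, ← Bool.not_eq_true, ← Bool.not_eq_true, nz_iff, not_not, eq_zero_iff]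
    refine ⟨fun e => not_stub_ker st (h.ker' cx ho e), fun j hj => ?_⟩
    obtain ⟨h5, h6⟩ := (tb_dif _ _ _).1 hj
    obtain ⟨-, h7, h8⟩ := h.adj _ _ h5
    exact one _ h8 (hc _ hO _ (um1_rem.2 ⟨h.mem j h7, fun k hk hk' e =>
      h6 (h.inj k hk j h7 e ▸ hk')⟩) h8)
  rw [b1, cond_false] at r
  have b2 : ¬ tb (d2 A) o = true := fun e => by rw [e] at r; exact r rfl
  rw [Bool.not_eq_true] at b2
  rw [b2, cond_false] at r
  obtain ⟨s, hs, as⟩ := id st
  obtain ⟨y, hn⟩ := cx.cub.second (hX hO) adj as fun e => hs (e ▸ hho.1)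
  have hy : y ∈ X := by_contra fun e =>
    hn.2.2.1 (one_stub cx.cub cx.two (hX hO) hs e as hn.adj3)
  obtain ⟨j, hj, hj', rfl⟩ : ∃ j < n, tb (Nat.lor S K) j = true ∧ ph j = y := by
    by_contra! e
    exact one _ hn.adj3 (hc _ hO _ (um1_rem.2 ⟨hy, e⟩) hn.adj3)
  have jh : hh ≠ j := fun e => hn.2.1 (e ▸ rfl)
  have nw : ¬ tb (row A o) j = true := fun e => by
    have := (h.g2 o).2 ⟨by have := h.le; omega, Finset.one_lt_card.2 ⟨hh, Finset.mem_filter.2
      ⟨Finset.mem_range.2 (tb_row_lt hh1), hh1⟩, j, Finset.mem_filter.2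
      ⟨Finset.mem_range.2 (tb_row_lt e), e⟩, jh⟩⟩
    rw [b2] at this
    exact absurd this (by simp)
  have hS : tb S j = true := ((tb_or _ _ _).1 hj').resolve_right fun e =>
    (h.opn_of cx.cub hj ho hn.adj3.symm fun e' => nw (h.sym _ _ e')).2 (sh.full j (Or.inl e))
  obtain ⟨B', r'⟩ := bl_ne r ((tb_and _ _ _).2 ⟨hS, (h.opn_of cx.cub ho hj hn.adj3 nw).1⟩)
  rw [fz_eq] at r'
  exact Or.inl (hcl _ _ _ ph ((h.stb' ho st).edge' ho hj hn.adj3
    (by rw [(stb_spec (by have := h.le; omega)).1]; exact nw)) r')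
theorem mv2_strd (Pl c : ℕ) : 0 < strd Pl c := by
  induction c with
  | zero => exact Nat.one_pos
  | succ c ih =>
    show 0 < strd Pl c * (3 <<< (pt Pl c / 2))
    rw [Nat.shiftLeft_eq]
    positivity

theorem mv2_okT : ∀ cs < 16, tb cs 3 = true → okT 3 cs = 0 := by decide +kernel

/-- two inner vertices of `S` are not joined by a known edge -/
theorem mv2_inner {n A S K I Pl pc Cs nc a b : ℕ}
    (cov : Nat.succ (covAll A S K I Pl pc Cs n nc) = two (strd Pl pc)) (ha : tb S a = true)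
    (hb : tb S b = true) (hI : tb I a = true) (e : tb (row A a) b = true) : False := by
  obtain ⟨C, hC⟩ := covAll_bit cov (mv2_strd Pl pc)
  unfold cover at hC
  simp only [fz_eq, cls4_eq] at hC
  generalize hlo : Nat.lor (Nat.land C K) S = lo at hC
  generalize hhi : Nat.lor (Nat.land (shr C n) K) S = hi at hC
  have c3 : ∀ j, tb S j = true → colr lo hi j = 3 := fun j hj => by
    have e1 : tb lo j = true := by rw [← hlo]; exact (tb_or _ _ _).2 (Or.inr hj)
    have e2 : tb hi j = true := by rw [← hhi]; exact (tb_or _ _ _).2 (Or.inr hj)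
    unfold colr
    rw [bt_eq, bt_eq, if_pos e1, if_pos e2]
  have sub : ∀ D j, tb (Nat.lor (Nat.land D K) S) j = true → tb (Nat.lor S K) j = true := fun D j hj => by
    rw [tb_or, tb_and] at hj
    rw [tb_or]
    tauto
  obtain ⟨h1, -⟩ := cond_ne (fun z => by rw [z, tb_zero] at hC; exact absurd hC (by decide))
  have ok := okI_ne ((nz_iff _).1 h1) hI
  obtain ⟨l, sp⟩ := cset_spec (U := Nat.lor S K) (lo := lo) (hi := hi) (hlo ▸ sub C) (hhi ▸ sub (shr C n)) A a
  rw [c3 a ha] at ok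
  exact ok (mv2_okT _ l ((sp 3 (by omega)).2 (Or.inl ⟨b, e, (tb_or _ _ _).2 (Or.inl hb), c3 b hb⟩)))

/-- `S` is independent, or a child closes -/
theorem mv2_indep {lv : ℕ} {cl : Cl} (cx : Cx G X lv) (hcl : Snd G X cl) {kq n A S K I o Pl pc Cs nc B : ℕ}
    {ph : ℕ → V} (h : Em G X n A ph) (p : payOK kq n A S K I o Pl pc Cs nc = true)
    (r : bl (fun a m' B1 => bl (fun b _ B2 => cl n (edge A a b) B2) m' B1) (Nat.land S (opn n A)) B ≠ 0) :
    TG G X ∨ ∀ a b, tb S a = true → tb S b = true → ¬ G.Adj (ph a) (ph b) := by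
  obtain ⟨sh, cov⟩ := payOK_shape p
  by_cases g : TG G X
  · exact Or.inl g
  have key : ∀ a b, b < a → tb S a = true → tb S b = true → ¬ G.Adj (ph a) (ph b) := by
    intro a b lt ha hb ad
    have an := sh.lt a ((tb_or _ _ _).2 (Or.inl ha))
    have bn := sh.lt b ((tb_or _ _ _).2 (Or.inl hb))
    by_cases e : tb (row A a) b = true
    · by_cases i : tb I a = true
      · exact mv2_inner cov ha hb i e
      · obtain ⟨k, hk, e1, e2⟩ := sh.sport a ha i
        have := ((pv_spec (sh.port k hk)).2.2.2.1 e2).2 b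
        rw [e1] at this
        exact this e hb
    · have ob := (h.opn_of cx.cub an bn ad e).1
      have oa := (h.opn_of cx.cub bn an ad.symm (fun t => e (h.sym _ _ t))).1
      obtain ⟨B1, r1⟩ := bl_ne r ((tb_and _ _ _).2 ⟨ha, oa⟩)
      obtain ⟨B2, r2⟩ := bl_ne r1 ((tb_mod _ _ _).2 ⟨(tb_and _ _ _).2 ⟨hb, ob⟩, lt⟩)
      exact g (hcl _ _ _ _ (h.edge' an bn ad e) r2)
  refine Or.inr (fun a b ha hb ad => ?_)
  rcases lt_trichotomy a b with l | l | l
  · exact key b a l hb ha ad.symm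
  · exact ad.ne (by rw [l])
  · exact key a b l ha hb ad

theorem mv2_rem {n N : ℕ} {ph : ℕ → V} {v : V} :
    v ∈ Rem X n N ph ↔ v ∈ X ∧ ∀ j < n, tb N j = true → ph j ≠ v := Finset.mem_filter

theorem mv2_sub {n N : ℕ} {ph : ℕ → V} : Rem X n N ph ⊆ X := Finset.filter_subset _ _

/-- an edge that leaves the remainder ends in the list or at a bit of `hb` -/
theorem mv2_touch {kq n A S K I o Pl pc hb Lq c : ℕ} {ph : ℕ → V} (hc : Cub G X) (h : Em G X n A ph)
    (sh : Shape kq n A S K I o Pl pc) (hl : dif (dif (Nat.lor S K) (Nat.lor I hb)) (mkL Lq c) = 0)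
    {x z : V} (hx : x ∈ Rem X n (Nat.lor S K) ph) (hz : z ∈ X) (hz' : z ∉ Rem X n (Nat.lor S K) ph)
    (ad : G.Adj x z) : (∃ i < c, z = ph (cv Lq i)) ∨ ∃ j, tb hb j = true ∧ z = ph j := by
  rw [mv2_rem] at hx hz'
  have : ∃ j < n, tb (Nat.lor S K) j = true ∧ ph j = z := by
    by_contra e
    exact hz' ⟨hz, fun j hj t r => e ⟨j, hj, t, r⟩⟩
  obtain ⟨j, hj, t, rfl⟩ := this
  by_cases b : tb hb j = true
  · exact Or.inr ⟨j, b, rfl⟩
  by_cases i : tb I j = true
  · exfalso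
    rcases (h.full hc (sh.full j (Or.inr i))).2 x ad.symm with ⟨k, k1, k2⟩ | k
    · exact hx.2 k (h.adj _ _ k1).2.1 ((sh.inner j i).2 k k1) k2.symm
    · exact k.1 hx.1
  · obtain ⟨k, hk, e⟩ := (tb_mkL _ _ _).1
      (dif_zero hl ((tb_dif _ _ _).2 ⟨t, fun r => ((tb_or _ _ _).1 r).elim i b⟩))
    exact Or.inl ⟨k, hk, by rw [e]⟩

theorem mv2_list {cl : Cl} {kq n A NW cap c Lq B : ℕ} {P : Prog} (r : wit cl kq P n A NW cap c Lq B ≠ 0) :
    ∀ i < c, tb NW (cv Lq i) = true := by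
  unfold wit at r
  simp only [fz_eq] at r
  obtain ⟨h1, -⟩ := cond_ne r
  rw [Bool.and_eq_true, z0_iff] at h1
  exact fun i hi => dif_zero h1.1 ((tb_mkL _ _ _).2 ⟨i, hi, rfl⟩)

/-- the edges from two disjoint parts of the remainder to the list -/
theorem mv2_count {n A N Lq c : ℕ} {ph : ℕ → V} (hc : Cub G X) (h : Em G X n A ph)
    (hl : ∀ i < c, cv Lq i < n) {O : Finset V} (hO : O ⊆ Rem X n N ph) :
    ∑ i ∈ Finset.range c, ((Rem X n N ph \ O).filter (fun y => G.Adj (ph (cv Lq i)) y)).card +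
      ∑ i ∈ Finset.range c, (O.filter (fun y => G.Adj (ph (cv Lq i)) y)).card ≤ smL A N Lq c := by
  rw [smL_eq, ← Finset.sum_add_distrib]
  refine Finset.sum_le_sum (fun i hi => ?_)
  rw [← Finset.card_union_of_disjoint (Finset.disjoint_filter_filter Finset.sdiff_disjoint),
    ← Finset.filter_union, Finset.sdiff_union_of_subset hO]
  exact h.rr_le hc (hl i (Finset.mem_range.1 hi)) _ mv2_sub
    (fun j hj t m => (mv2_rem.1 m).2 j hj t rfl)

theorem mv2_two {kq n A S K I o Pl pc : ℕ} {ph : ℕ → V} (h : Em G X n A ph)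
    (sh : Shape kq n A S K I o Pl pc) {R : Finset V} (hR : R ⊆ Rem X n (Nat.lor S K) ph) : Two X R := by
  obtain ⟨a, b, ab, ha, hb⟩ := sh.two
  exact ⟨ph a, h.mem a (sh.lt a ha), ph b, h.mem b (sh.lt b hb),
    fun m => (mv2_rem.1 (hR m)).2 a (sh.lt a ha) ha rfl,
    fun m => (mv2_rem.1 (hR m)).2 b (sh.lt b hb) hb rfl,
    fun e => ab (h.inj a (sh.lt a ha) b (sh.lt b hb) e)⟩

/-- the move without a free vertex -/
theorem mv2_plain {lv : ℕ} {cl : Cl} (cx : Cx G X lv) (hcl : Snd G X cl) {P : Prog} (hP : ProgOK G X P)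
    {n A S K I o Pl pc Cs nc Lq c B : ℕ} {ph : ℕ → V} (h : Em G X n A ph)
    (p : payOK (kql lv) n A S K I o Pl pc Cs nc = true)
    (hS : ∀ a b, tb S a = true → tb S b = true → ¬ G.Adj (ph a) (ph b))
    (hl : dif (dif (Nat.lor S K) (Nat.lor I 0)) (mkL Lq c) = 0)
    (r : wit cl (kql lv) P n A (Nat.lor (Nat.lor S K) 0) (Nat.sub (smL A (Nat.lor S K) Lq c) 0) c Lq B ≠ 0) :
    TG G X := by
  obtain ⟨sh, -⟩ := payOK_shape p
  by_cases g : Good G (Rem X n (Nat.lor S K) ph)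
  · exact Or.inl (pay_snd cx h p hS (T := ∅) (fun t ht => absurd ht (Set.notMem_empty t)) g)
  have hN : ∀ j, tb (Nat.lor (Nat.lor S K) 0) j = true → j < n ∧ ph j ∉ Rem X n (Nat.lor S K) ph := by
    intro j hj
    rcases (tb_or _ _ _).1 hj with t | t
    · exact ⟨sh.lt j t, fun m => (mv2_rem.1 m).2 j (sh.lt j t) t rfl⟩
    · rw [tb_zero] at t; exact absurd t (by decide)
  have hL : ∀ x ∈ Rem X n (Nat.lor S K) ph, ∀ z ∈ X, z ∉ Rem X n (Nat.lor S K) ph → G.Adj x z →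
      ∃ i < c, z = ph (cv Lq i) := by
    intro x hx z hz hz' ad
    rcases mv2_touch cx.cub h sh hl hx hz hz' ad with t | ⟨j, t, -⟩
    · exact t
    · rw [tb_zero] at t; exact absurd t (by decide)
  refine wit_snd cx hcl hP h mv2_sub (mv2_two h sh subset_rfl) g hN hL ?_ r
  have c1 := sum_out_le (G := G) (X := X) (fun i => ph (cv Lq i)) c hL
  have c2 := mv2_count (N := Nat.lor S K) cx.cub h (fun i hi => (hN _ (mv2_list r i hi)).1)
    (Finset.empty_subset _)
  rw [Finset.sdiff_empty] at c2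
  show _ ≤ smL A (Nat.lor S K) Lq c - 0
  omega

/-- the move with the free vertex `o` -/
theorem mv2_free {lv : ℕ} {cl : Cl} (cx : Cx G X lv) (hcl : Snd G X cl) {P : Prog} (hP : ProgOK G X P)
    {n A S K I o Pl pc Cs nc Lq c Zl zc nd B B' : ℕ} {ph : ℕ → V} (h : Em G X n A ph)
    (p : payOK (kql lv) n A S K I o Pl pc Cs nc = true)
    (hS : ∀ a b, tb S a = true → tb S b = true → ¬ G.Adj (ph a) (ph b)) (h3 : nd < 3)
    (hZ : zone A (Nat.lor S K) o Zl zc ≠ 0) (hSK : ¬ tb (Nat.lor S K) o = true)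
    (b1 : Nat.land (row A o) K ≠ 0) (b2 : lw (Nat.land (row A o) K) = 0)
    (hl : dif (dif (Nat.lor S K) (Nat.lor I (Nat.land (row A o) K))) (mkL Lq c) = 0)
    (rk : oKids cl lv (kql lv) n A S K o nd B' ≠ 0)
    (r : wit cl (kql lv) P n A (Nat.lor (Nat.lor S K) (zone A (Nat.lor S K) o Zl zc))
      (Nat.sub (smL A (Nat.lor S K) Lq c) nd) c Lq B ≠ 0) : TG G X := by
  obtain ⟨sh, -⟩ := payOK_shape p
  obtain ⟨hh, t⟩ := exists_tb b1
  obtain ⟨t1, t2⟩ := (tb_and _ _ _).1 t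
  obtain ⟨on, hn, ad⟩ := h.adj _ _ t1
  have hu : ∀ j, tb (Nat.land (row A o) K) j = true → j = hh := fun j e => lw_zero b2 e t
  have tSK : tb (Nat.lor S K) hh = true := (tb_or _ _ _).2 (Or.inr t2)
  have mo : ph o ∈ Rem X n (Nat.lor S K) ph :=
    mv2_rem.2 ⟨h.mem o on, fun j hj e q => hSK (h.inj j hj o on q ▸ e)⟩
  have nh : ph hh ∉ Rem X n (Nat.lor S K) ph := fun m => (mv2_rem.1 m).2 hh hn tSK rfl
  have uq : ∀ q ∈ Rem X n (Nat.lor S K) ph, G.Adj q (ph hh) → q = ph o := by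
    intro q hq a
    have nI : ¬ tb I hh = true := fun i => hSK ((sh.inner hh i).2 o (h.sym _ _ t1))
    obtain ⟨k, -, -, -, e⟩ := sh.bd hh t2 nI
    rcases (h.full cx.cub (sh.full hh (Or.inl t2))).2 q a.symm with ⟨j, j1, j2⟩ | j
    · have : ¬ tb (Nat.lor S K) j = true := fun u => (mv2_rem.1 hq).2 j (h.adj _ _ j1).2.1 u j2.symm
      rw [j2, e j j1 this, e o (h.sym _ _ t1) hSK]
    · exact absurd (mv2_rem.1 hq).1 j.1
  obtain ⟨O, sub, hO, con, clo⟩ := exists_comp (G := G) mo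
  rcases oKids_snd cx hcl h sh h3 t2 t1 hSK (fun j u v => hu j ((tb_and _ _ _).2 ⟨v, u⟩)) sub hO clo rk
    with g | ec
  · exact g
  by_cases g : Good G (Rem X n (Nat.lor S K) ph \ O)
  · have gO : GoodF G O (ph hh) := lemA (cx.cub.mono mv2_sub)
      (cx.hf _ mv2_sub (fun e => nh (by rw [e]; exact h.mem hh hn))) O sub con _ _
      ⟨fun m => nh (sub m), hO, ad, fun q hq => uq q (sub hq)⟩
    have u := Col.union gO g (fun x hx m => (Finset.mem_sdiff.1 m).2 hx)
      (fun x hx y hy a => (Finset.mem_sdiff.1 hy).2 (clo x hx y (Finset.mem_sdiff.1 hy).1 a))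
      (fun s hs y hy a => by
        rw [Set.mem_singleton_iff.1 hs] at a
        rw [Finset.mem_sdiff] at hy
        exact hy.2 (uq y hy.1 a ▸ hO))
    rw [Finset.union_sdiff_of_subset sub] at u
    exact Or.inl (pay_snd cx h p hS (fun s hs => ⟨hh, t2, t1, hSK, hs⟩) u)
  have hN : ∀ j, tb (Nat.lor (Nat.lor S K) (zone A (Nat.lor S K) o Zl zc)) j = true →
      j < n ∧ ph j ∉ Rem X n (Nat.lor S K) ph \ O := by
    intro j hj
    rcases (tb_or _ _ _).1 hj with u | u
    · exact ⟨sh.lt j u, fun m => (mv2_rem.1 (Finset.mem_sdiff.1 m).1).2 j (sh.lt j u) u rfl⟩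
    · obtain ⟨u1, u2⟩ := zone_sub h on hO clo hZ j u
      exact ⟨u1, fun m => (Finset.mem_sdiff.1 m).2 u2⟩
  have hL : ∀ x ∈ Rem X n (Nat.lor S K) ph \ O, ∀ z ∈ X, z ∉ Rem X n (Nat.lor S K) ph \ O → G.Adj x z →
      ∃ i < c, z = ph (cv Lq i) := by
    intro x hx z hz hz' a
    rw [Finset.mem_sdiff] at hx hz'
    have nz : z ∉ Rem X n (Nat.lor S K) ph := fun m =>
      hz' ⟨m, fun u => hx.2 (clo z u x hx.1 a.symm)⟩
    rcases mv2_touch cx.cub h sh hl hx.1 hz nz a with u | ⟨j, u, e⟩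
    · exact u
    · rw [e, hu j u] at a
      exact absurd (uq x hx.1 a ▸ hO) hx.2
  refine wit_snd cx hcl hP h (Finset.sdiff_subset.trans mv2_sub) (mv2_two h sh Finset.sdiff_subset) g hN hL
    ?_ r
  have c1 := sum_out_le (G := G) (X := X) (fun i => ph (cv Lq i)) c hL
  have c2 := mv2_count cx.cub h (fun i hi => (hN _ (mv2_list r i hi)).1) sub
  have c3 := sum_out_le (G := G) (X := X) (R := O) (H := O)
    (fun i => if i < c then ph (cv Lq i) else ph hh) (c + 1) (fun x hx z hz hz' a => by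
      rcases mv2_touch cx.cub h sh hl (sub hx) hz (fun m => hz' (clo x hx z m a)) a with
        ⟨i, hi, e⟩ | ⟨j, u, e⟩
      · exact ⟨i, by omega, by rw [if_pos hi, e]⟩
      · exact ⟨c, by omega, by rw [if_neg (lt_irrefl c), e, hu j u]⟩)
  have c5 : ∑ i ∈ Finset.range c, (O.filter (fun y => G.Adj (if i < c then ph (cv Lq i) else ph hh) y)).card =
      ∑ i ∈ Finset.range c, (O.filter (fun y => G.Adj (ph (cv Lq i)) y)).card :=
    Finset.sum_congr rfl (fun i hi => by rw [if_pos (Finset.mem_range.1 hi)])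
  rw [Finset.sum_range_succ, if_neg (lt_irrefl c), c5] at c3
  have c4 : (O.filter (fun y => G.Adj (ph hh) y)).card ≤ 1 :=
    Finset.card_le_one.2 (fun x hx y hy => by
      rw [Finset.mem_filter] at hx hy
      rw [uq x (sub hx.1) hx.2.symm, uq y (sub hy.1) hy.2.symm])
  unfold Sc.ecut at ec
  show _ ≤ smL A (Nat.lor S K) Lq c - nd
  omega

/-- Move. If two vertices of `S` are adjacent, a child closes. Let `R0` be the remainder. Without free vertex
`R = R0`; with `o`, `O` is the component of `o`, `R = R0 \ O`, `GoodF G O (ph hh)` by `lemA`, and `Col.union`.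
If `R` is good, `pay_snd`; otherwise `wit_snd`. -/
theorem move_snd {lv f : ℕ} {cl : Cl} {pg : ℕ → Prog} (cx : Cx G X lv) (hcl : Snd G X cl)
    (hp : ∀ p, (pg p).idx ≤ f → ProgOK G X (pg p)) : Snd G X (move pg cl lv (kql lv) f) := by
  intro n A B ph h r
  unfold move at r
  simp only [fz_eq] at r
  generalize Nat.land B (alm n) = S at r
  generalize Nat.land (shr B n) (alm n) = K at r
  generalize Nat.land (shr B (Nat.mul 2 n)) (alm n) = I at r
  generalize shr B (Nat.mul 3 n) = H at r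
  generalize Nat.mod H 64 = o at r
  generalize fld H 6 4 = nd at r
  generalize fld H 8 64 = p at r
  generalize fld H 14 16 = pc at r
  generalize fld H 18 128 = nc at r
  generalize fld H 25 32 = zc at r
  generalize fld H 30 16 = c at r
  generalize shr H 34 = Pl at r
  generalize shr Pl (Nat.mul 9 pc) = Cs at r
  generalize shr Cs (Nat.mul (Nat.mul 2 n) nc) = Zl at r
  generalize shr Zl (Nat.mul 6 zc) = Lq at r
  obtain ⟨h1, h2⟩ := cond_ne r
  obtain ⟨g1, g2⟩ := sq_ne h2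
  obtain ⟨g2, g3⟩ := sq_ne g2
  simp only [Bool.and_eq_true, Nat.ble_eq, lt_iff, z0_iff] at h1
  obtain ⟨⟨⟨⟨p1, p2⟩, p3⟩, p4⟩, p5⟩ := h1
  rcases mv2_indep cx hcl h p1 g1 with g | hS
  · exact g
  cases e : Nat.beq o 63
  · rw [e] at p4 p5 g3
    simp only [cond_false, Bool.and_eq_true, nz_iff, z0_iff, Bool.not_eq_true'] at p4 p5 g3
    exact mv2_free cx hcl (hp p p2) h p1 hS p3 p4.1.1.1 (by rw [p4.1.1.2]; decide) p4.1.2 p4.2 p5 g2 g3
  · rw [e] at p4 p5 g3
    simp only [cond_true, z0_iff] at p4 p5 g3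
    rw [p4] at g3
    exact mv2_plain cx hcl (hp p p2) h p1 hS p5 g3
theorem chkF_snd {lv f B : ℕ} {db : ℕ → ℕ} {pg : ℕ → Prog} (cx : Cx G X lv) (hf : ∀ g < f, Fact G X (db g))
    (hp : ∀ p, (pg p).idx ≤ f → ProgOK G X (pg p)) (r : chkF db pg lv f B = true) : Fact G X (db f) := by
  intro ph hE
  simp only [chkF, fzb_eq, Bool.and_eq_true, lt_iff, allLt_iff, Nat.beq_eq] at r
  exact gen_snd cx hf (move_snd cx (cls_snd cx hf) hp) 60 _ _ B ph (initF_em hE r.1.1 r.1.2)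
    fun e => absurd (r.2.symm.trans e) one_ne_zero

end Pool.Agent.Hom2.UC
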