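import Pool.Agent.Lib.MP_7e4769_co.Hc.UCol

set_option autoImplicit false

namespace Pool.Agent.Hom2.UC

open Classical

variable {V : Type} {G : SimpleGraph V} {X : Finset V}

/-- colour of the port and forbidden colour in state `a` -/
def aC (ty a : ℕ) : Fin 4 := if ty < 2 then 3 else ⟨fld 16665168 (2 * a) 4 % 4, Nat.mod_lt _ (by omega)⟩
def aE (ty a : ℕ) : Fin 4 :=
  if ty < 2 then ⟨a % 4, Nat.mod_lt _ (by omega)⟩ else ⟨fld 9696393 (2 * a) 4 % 4, Nat.mod_lt _ (by omega)⟩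

/-- states accepted at one port -/
noncomputable def pmu (A K lo hi c0 c1 c2 c3 w ty : ℕ) : ℕ :=
  if ty < 2 then tW ty (colr lo hi (pv1 A K w)) (colr lo hi (pv2 A K w ty)) else
    Nat.land (tW ty (colr lo hi (pv1 A K w)) (colr lo hi (pv2 A K w ty)))
      (Nat.land (tC (colr lo hi (pv1 A K w)) (cset A c0 c1 c2 c3 (pv1 A K w)))
        (tC (colr lo hi (pv2 A K w ty)) (cset A c0 c1 c2 c3 (pv2 A K w ty))))

/-- mixed radix index of a vector of states -/
noncomputable def idx (Pl : ℕ) (st : ℕ → ℕ) : ℕ → ℕ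
  | 0 => 0
  | i + 1 => idx Pl st i + st i * strd Pl i

theorem pay1a_strd (Pl c : ℕ) : strd Pl (c + 1) = strd Pl c * rad (pt Pl c) := rfl

theorem idx_lt {Pl c : ℕ} {st : ℕ → ℕ} (h : ∀ i < c, st i < rad (pt Pl i)) : idx Pl st c < strd Pl c := by
  induction c with
  | zero => exact Nat.one_pos
  | succ c ih =>
    have h1 := ih fun i hi => h i (by omega)
    have h2 := Nat.mul_le_mul_left (strd Pl c) (Nat.succ_le_of_lt (h c (by omega)))
    rw [idx, pay1a_strd, mul_comm (st c)]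
    rw [Nat.mul_succ] at h2
    omega

/-- the bit `j` comes from a bit `a < r` of `mu` and the bit `j - a * s` of `P` -/
def pay1aB (r mu P s j : ℕ) : Prop :=
  ∃ a < r, tb mu a = true ∧ a * s ≤ j ∧ tb P (j - a * s) = true

theorem pay1a_shl {x s j : ℕ} (h : tb (Nat.shiftLeft x s) j = true) :
    s ≤ j ∧ tb x (j - s) = true := by
  rw [tb_eq, show Nat.shiftLeft x s = x <<< s from rfl, Nat.testBit_shiftLeft, Bool.and_eq_true,
    decide_eq_true_iff, ← tb_eq] at h
  exact h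

theorem pay1a_mul {mu P a j : ℕ} (h : tb (Nat.mul P (bt mu a)) j = true) :
    tb mu a = true ∧ tb P j = true := by
  rw [bt_eq] at h
  split_ifs at h with e
  · exact ⟨e, by simpa using h⟩
  · simp at h

theorem pay1a_e3 {mu P s j : ℕ} (h : tb (e3 mu P s) j = true) : pay1aB 3 mu P s j := by
  rcases (tb_or _ _ _).1 h with e | e
  · exact ⟨0, by omega, (pay1a_mul e).1, by omega, by simpa using (pay1a_mul e).2⟩
  rcases (tb_or _ _ _).1 e with e | e
  · obtain ⟨e1, e2⟩ := pay1a_shl e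
    exact ⟨1, by omega, (pay1a_mul e2).1, by omega, by simpa using (pay1a_mul e2).2⟩
  · obtain ⟨e1, e2⟩ := pay1a_shl e
    exact ⟨2, by omega, (pay1a_mul e2).1, e1, (pay1a_mul e2).2⟩

theorem pay1a_dbl {e : ℕ → ℕ → ℕ → ℕ} {r : ℕ}
    (he : ∀ {mu P s j : ℕ}, tb (e mu P s) j = true → pay1aB r mu P s j) {mu P s j : ℕ}
    (h : tb (Nat.lor (e mu P s) (Nat.shiftLeft (e (shr mu r) P s) (Nat.mul r s))) j = true) :
    pay1aB (r + r) mu P s j := by
  rcases (tb_or _ _ _).1 h with e | e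
  · obtain ⟨a, h1, h2⟩ := he e
    exact ⟨a, by omega, h2⟩
  · obtain ⟨e1, e2⟩ := pay1a_shl e
    obtain ⟨a, h1, h2, h3, h4⟩ := he e2
    rw [tb_eq, shr_eq, Nat.testBit_shiftRight, ← tb_eq] at h2
    rw [Nat.mul_eq] at e1 h3 h4
    refine ⟨r + a, by omega, h2, ?_, ?_⟩
    · rw [add_mul]
      omega
    · rwa [add_mul, ← Nat.sub_sub]

theorem pay1a_e6 {mu P s j : ℕ} (h : tb (e6 mu P s) j = true) : pay1aB 6 mu P s j :=
  pay1a_dbl pay1a_e3 h

theorem pay1a_e12 {mu P s j : ℕ} (h : tb (e12 mu P s) j = true) : pay1aB 12 mu P s j :=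
  pay1a_dbl pay1a_e6 h

theorem pay1a_step {A K lo hi c0 c1 c2 c3 w ty P s j : ℕ} (h5 : ty < 5)
    (h : tb (pstep A K lo hi c0 c1 c2 c3 w ty P s) j = true) :
    pay1aB (rad ty) (pmu A K lo hi c0 c1 c2 c3 w ty) P s j := by
  simp only [pstep, fz_eq] at h
  unfold pmu
  interval_cases ty
  · exact pay1a_e3 h
  · exact pay1a_e3 h
  · exact pay1a_e6 h
  · exact pay1a_e6 h
  · exact pay1a_e12 h

theorem pay1a_prod (g : ℕ → ℕ → ℕ → ℕ → ℕ) (Pl c : ℕ) :
    ∀ k, prodK g Pl c k = k (prodK g Pl c fun P _ => P) (strd Pl c) := by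
  induction c with
  | zero => exact fun _ => rfl
  | succ c ih =>
    have e : ∀ k, prodK g Pl (c + 1) k = k (g (pw Pl c) (pt Pl c) (prodK g Pl c fun P _ => P)
        (strd Pl c)) (strd Pl (c + 1)) := fun k => by
      refine (ih fun P st => fz (pw Pl c) fun w => fz (pt Pl c) fun ty =>
        fz (g w ty P st) fun P' => fz (Nat.mul st (rad ty)) fun st' => k P' st').trans ?_
      simp only [fz_eq]
      rfl
    exact fun k => by rw [e k, e]

theorem pay1a_succ (g : ℕ → ℕ → ℕ → ℕ → ℕ) (Pl c : ℕ) : (prodK g Pl (c + 1) fun P _ => P) =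
    g (pw Pl c) (pt Pl c) (prodK g Pl c fun P _ => P) (strd Pl c) := by
  refine (pay1a_prod g Pl c fun P st => fz (pw Pl c) fun w => fz (pt Pl c) fun ty =>
    fz (g w ty P st) fun P' => fz (Nat.mul st (rad ty)) fun _ => P').trans ?_
  simp only [fz_eq]

theorem pay1a_lt {A K lo hi c0 c1 c2 c3 Pl c : ℕ} (h5 : ∀ i < c, pt Pl i < 5) :
    ∀ j, tb (prodK (pstep A K lo hi c0 c1 c2 c3) Pl c (fun P _ => P)) j = true → j < strd Pl c := by
  induction c with
  | zero =>
    intro j h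
    have : j = 0 := (tb_two 0 j).1 h
    rw [this]
    exact Nat.one_pos
  | succ c ih =>
    intro j h
    rw [pay1a_succ] at h
    obtain ⟨a, h1, -, h2, h3⟩ := pay1a_step (h5 c (by omega)) h
    have h4 := ih (fun i hi => h5 i (by omega)) _ h3
    have h6 := Nat.mul_le_mul_left (strd Pl c) (Nat.succ_le_of_lt h1)
    rw [Nat.mul_succ, mul_comm] at h6
    rw [pay1a_strd]
    omega

/-- induction on `c` with the invariant `P < 2 ^ strd Pl c`; `rad` is 3, 3, 6, 6, 12 -/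
theorem prod_bit {A K lo hi c0 c1 c2 c3 Pl c : ℕ} {st : ℕ → ℕ} (h5 : ∀ i < c, pt Pl i < 5)
    (h : ∀ i < c, st i < rad (pt Pl i))
    (b : tb (prodK (pstep A K lo hi c0 c1 c2 c3) Pl c (fun P _ => P)) (idx Pl st c) = true) :
    ∀ i < c, tb (pmu A K lo hi c0 c1 c2 c3 (pw Pl i) (pt Pl i)) (st i) = true := by
  induction c with
  | zero => intro i hi; omega
  | succ c ih =>
    rw [pay1a_succ, idx] at b
    obtain ⟨a, -, h1, h2, h3⟩ := pay1a_step (h5 c (by omega)) b
    have h4 := pay1a_lt (fun i hi => h5 i (by omega)) _ h3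
    have h6 : idx Pl st c < strd Pl c := idx_lt fun i hi => h i (by omega)
    have h7 : a = st c := by
      rcases lt_trichotomy a (st c) with e | e | e
      · have := Nat.mul_le_mul_right (strd Pl c) (Nat.succ_le_of_lt e)
        rw [Nat.succ_mul] at this
        omega
      · exact e
      · have := Nat.mul_le_mul_right (strd Pl c) (Nat.succ_le_of_lt e)
        rw [Nat.succ_mul] at this
        omega
    rw [h7, Nat.add_sub_cancel] at h3
    intro i hi
    rcases Nat.lt_succ_iff_lt_or_eq.1 hi with e | rfl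
    · exact ih (fun i hi => h5 i (by omega)) (fun i hi => h i (by omega)) h3 i e
    · exact h7 ▸ h1

theorem pay1a_cov {A S K I Pl pc Cs n nc j : ℕ} (h : tb (covAll A S K I Pl pc Cs n nc) j = true) :
    ∃ C, tb (cover A S K I Pl pc C n) j = true := by
  induction nc with
  | zero => exact absurd ((tb_zero j).symm.trans h) Bool.false_ne_true
  | succ nc ih =>
    have e : covAll A S K I Pl pc Cs n (nc + 1) = Nat.lor (covAll A S K I Pl pc Cs n nc)
        (cover A S K I Pl pc (shr Cs (Nat.mul (Nat.mul 2 n) nc)) n) := by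
      show fz (covAll A S K I Pl pc Cs n nc) (fun r => fz (shr Cs (Nat.mul (Nat.mul 2 n) nc))
        fun C => Nat.lor r (cover A S K I Pl pc C n)) = _
      rw [fz_eq, fz_eq]
    rw [e, tb_or] at h
    exact h.elim ih fun h => ⟨_, h⟩

theorem covAll_bit {A S K I Pl pc Cs n nc m j : ℕ} (h : Nat.succ (covAll A S K I Pl pc Cs n nc) = two m)
    (hj : j < m) : ∃ C, tb (cover A S K I Pl pc C n) j = true := by
  refine pay1a_cov (Cs := Cs) (nc := nc) ?_
  have e : covAll A S K I Pl pc Cs n nc = alm m := by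
    rw [alm, ← h]
    rfl
  rw [e, tb_alm]
  exact hj
theorem tW_odd : ∀ ty < 5, ty % 2 = 1 → ∀ x1 x2 : Fin 4, ∀ a < rad ty, tb (tW ty x1.val x2.val) a = true →
    ok4 (aC ty a) x1 x2 (aE ty a) := by
  decide +kernel
theorem tW_even : ∀ ty < 5, ty % 2 = 0 → ∀ x1 x2 : Fin 4, ∀ a < rad ty, tb (tW ty x1.val x2.val) a = true →
    x1 ≠ aC ty a ∧ x1 ≠ aE ty a := by
  decide +kernel
theorem tC_spec : ∀ ty < 5, 2 ≤ ty → ∀ x : Fin 4, ∀ cs < 16, ∀ a < rad ty, tb (tC x.val cs) a = true →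
    okT x.val (Nat.lor cs (two (aC ty a).val)) ≠ 0 := by
  intro ty h5 h2
  interval_cases ty <;> decide +kernel
theorem atom0 : ∀ p q : Fin 4, p ≠ 3 → q ≠ 3 →
    ∃ a < rad 0, ∀ x, x ≠ aC 0 a → x ≠ aE 0 a → ok4 3 x p q := by
  intro p q
  fin_cases p <;> fin_cases q <;> decide +kernel
theorem atom1 : ∀ p : Fin 4, p ≠ 3 → ∃ a < rad 1, aC 1 a = 3 ∧ aE 1 a = p := by
  decide +kernel
theorem atom2 : ∀ c p q : Fin 4, ok4 c 3 p q →
    ∃ a < rad 2, aC 2 a = c ∧ ∀ x, x ≠ c → x ≠ aE 2 a → ok4 c x p q := by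
  decide +kernel
theorem atom3 : ∀ c p : Fin 4, ok4 c 3 3 p → ∃ a < rad 3, aC 3 a = c ∧ aE 3 a = p := by
  decide +kernel
theorem atom4 : ∀ c f p q : Fin 4, ok4 c f p q →
    ∃ a < rad 4, aC 4 a = c ∧ ∀ x, x ≠ c → x ≠ aE 4 a → ok4 c x p q := by
  decide +kernel
theorem up1b_shl (x p j : ℕ) (hx : x ≤ 1) :
    tb (Nat.shiftLeft x p) j = true ↔ p = j ∧ x = 1 := by
  rcases Nat.le_one_iff_eq_zero_or_eq_one.1 hx with rfl | rfl
  · rw [show Nat.shiftLeft 0 p = 0 from Nat.zero_shiftLeft p]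
    simp
  · rw [show Nat.shiftLeft 1 p = two p from rfl, tb_two]
    simp [eq_comm]
theorem up1b_mk (f g : ℕ → ℕ) (hf : ∀ i, f i ≤ 1) (c j : ℕ) :
    tb (Nat.rec 0 (fun i r => Nat.lor r (Nat.shiftLeft (f i) (g i))) c) j = true ↔
      ∃ i < c, g i = j ∧ f i = 1 := by
  induction c with
  | zero => simp
  | succ c ih =>
    refine (tb_or _ _ _).trans ?_
    rw [ih, up1b_shl _ _ _ (hf c), Nat.exists_lt_succ_right]
theorem tb_mkS (Pl c j : ℕ) : tb (mkS Pl c) j = true ↔ ∃ i < c, pw Pl i = j ∧ pt Pl i < 2 := by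
  refine (up1b_mk (fun i => 1 - pt Pl i / 2) (pw Pl) (fun i => Nat.sub_le _ _) c j).trans ?_
  exact exists_congr fun i => and_congr_right fun _ => and_congr_right fun _ => by omega
theorem tb_mkY (Pl c j : ℕ) : tb (mkY Pl c) j = true ↔ ∃ i < c, pw Pl i = j ∧ 2 ≤ pt Pl i := by
  refine (up1b_mk (fun i => 1 - (1 - pt Pl i / 2)) (pw Pl) (fun i => Nat.sub_le _ _) c j).trans ?_
  exact exists_congr fun i => and_congr_right fun _ => and_congr_right fun _ => by omega
/-- the neighbours in `K` of a port are `pv1` and `pv2`, distinct exactly for the odd types -/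
theorem pv_spec {A S K o w ty : ℕ} (h : pOK A S K o w ty = true) : ty < 5 ∧
    (∀ v, (tb (row A w) v = true ∧ tb K v = true) ↔ (v = pv1 A K w ∨ v = pv2 A K w ty)) ∧
    (ty % 2 = 1 ↔ pv1 A K w ≠ pv2 A K w ty) ∧
    (ty < 2 → tb S w = true ∧ ∀ v, tb (row A w) v = true → ¬ tb S v = true) ∧
    (2 ≤ ty → ¬ tb S w = true ∧ ¬ tb K w = true ∧ (w = o ↔ ty = 4)) := by
  unfold pOK at h
  simp only [fzb_eq, Bool.and_eq_true, nz_iff, lt_iff] at h
  obtain ⟨⟨⟨h0, h5⟩, h1⟩, h2⟩ := h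
  have e1 : pv1 A K w = Nat.log2 (Nat.land (row A w) K) := rfl
  have e2 : pv2 A K w ty = Nat.log2 (Nat.land (row A w) K %
      two (Nat.log2 (Nat.land (row A w) K) + 1 - ty % 2)) := rfl
  have key : (∀ v, tb (Nat.land (row A w) K) v = true ↔ (v = pv1 A K w ∨ v = pv2 A K w ty)) ∧
      (ty % 2 = 1 ↔ pv1 A K w ≠ pv2 A K w ty) := by
    rw [e1, e2]
    generalize Nat.land (row A w) K = x at h0 h1 ⊢
    rcases Nat.mod_two_eq_zero_or_one ty with hp | hp
    · rw [show Nat.mod ty 2 = 0 from hp] at h1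
      have h3 : lw x = 0 := (z0_iff _).1 h1
      rw [hp, Nat.sub_zero, two_eq, Nat.mod_eq_of_lt Nat.lt_log2_self]
      refine ⟨fun v => ⟨fun hv => Or.inl (lw_zero h3 hv (tb_top h0)), ?_⟩, by simp⟩
      rintro (rfl | rfl) <;> exact tb_top h0
    · rw [show Nat.mod ty 2 = 1 from hp] at h1
      have h3 : nz (lw x) = true ∧ z0 (lw (lw x)) = true := by simpa using h1
      rw [nz_iff, z0_iff] at h3
      rw [hp, Nat.add_sub_cancel, show x % two (Nat.log2 x) = lw x from rfl]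
      have h4 := (tb_lw _ _).1 (tb_top h3.1)
      refine ⟨fun v => ⟨fun hv => ?_, ?_⟩, fun _ => h4.2.symm, fun _ => rfl⟩
      · by_cases e : v = Nat.log2 x
        · exact Or.inl e
        · exact Or.inr (lw_zero h3.2 ((tb_lw _ _).2 ⟨hv, e⟩) (tb_top h3.1))
      · rintro (rfl | rfl)
        · exact tb_top h0
        · exact h4.1
  refine ⟨h5, fun v => (tb_and _ _ _).symm.trans (key.1 v), key.2, fun ht => ?_, fun ht => ?_⟩
  · rw [(lt_iff _ _).2 ht, cond_true, Bool.and_eq_true, z0_iff] at h2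
    exact ⟨h2.1, fun v hv hs => tb_land h2.2 hv hs⟩
  · rw [(lt_false _ _).2 ht, cond_false, Bool.and_eq_true, Bool.not_eq_true',
      ← Bool.not_eq_true, tb_or, not_or] at h2
    refine ⟨h2.1.1, h2.1.2, ?_⟩
    have h3 := h2.2
    rcases lt_or_ge ty 4 with h4 | h4
    · rw [(lt_iff _ _).2 h4, cond_true, ne_iff] at h3
      exact ⟨fun e => absurd e h3, fun e => by omega⟩
    · rw [(lt_false _ _).2 h4, cond_false, Nat.beq_eq] at h3
      exact ⟨fun _ => by omega, fun _ => h3⟩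

end Pool.Agent.Hom2.UC
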