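import Pool.Agent.Lib.MP_7e4769_co.Hc.UCl
import Pool.Agent.Lib.MP_7e4769_co.Hc.UW

set_option autoImplicit false

namespace Pool.Agent.Hom2.UC

open Classical

variable {V : Type} {G : SimpleGraph V} {X : Finset V}

theorem Sat.congr {W : Finset V} (t : PT) : ∀ {ro ro' : ℕ → V} {k : ℕ} {O : Finset V},
    (∀ r < k, ro' r = ro r) → Sat G X W t ro k O → Sat G X W t ro' k O := by
  induction t with
  | nil => exact fun _ h => h
  | cons c ch nx ihc ihn =>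
    intro ro ro' k O e h
    rcases h with h | ⟨h1, h2, h⟩
    · exact Or.inl (ihn e h)
    refine Or.inr ⟨h1, h2, ?_⟩
    rw [e _ h2]
    rcases h with ⟨o, s, t, u⟩ | ⟨o, s, u⟩ | ⟨o, s, t, u⟩ | ⟨o, z, hz, s, t, u⟩ | ⟨o, s, u⟩ | o
    · exact Or.inl ⟨o, s, t, ihc e u⟩
    · exact Or.inr (Or.inl ⟨o, s, ihc e u⟩)
    · exact Or.inr (Or.inr (Or.inl ⟨o, s, by rw [e _ s]; exact t, ihc e u⟩))
    · exact Or.inr (Or.inr (Or.inr (Or.inl ⟨o, z, hz, s, fun r hr => by rw [e r hr]; exact t r hr,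
        fun ro2 e2 hk => u ro2 (fun r hr => (e2 r hr).trans (e r hr)) hk⟩)))
    · exact Or.inr (Or.inr (Or.inr (Or.inr (Or.inl ⟨o, s, ihc e u⟩))))
    · exact Or.inr (Or.inr (Or.inr (Or.inr (Or.inr o))))
theorem Hold.ext {R H : Finset V} {Sa n n' : ℕ} {ph ph' : ℕ → V} (h : Hold G X R H Sa n ph)
    (e : Ext n ph n' ph') : Hold G X R H Sa n' ph' := by
  refine ⟨h.subH, h.subR, fun j hj => ?_, fun x hx z hz hr a => ?_⟩
  · obtain ⟨h1, h2⟩ := h.sa j hj
    exact ⟨h1.trans_le e.1, by rw [e.2 j h1]; exact h2⟩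
  · obtain ⟨j, hj, rfl⟩ := h.hold x hx z hz hr a
    exact ⟨j, hj, (e.2 j (h.sa j hj).1).symm⟩
/-- soundness of a continuation of the leaf completion -/
def uw1P (G : SimpleGraph V) (X R : Finset V) (Sa n x pm : ℕ) (ct : ℕ → ℕ → ℕ) (ph : ℕ → V)
    (nx : ℕ → ℕ → ℕ → ℕ) : Prop :=
  ∀ Cm A B, Em G X n A ph →
    (∀ z ∈ R, G.Adj (ph x) z → ∃ j, tb pm j = true ∧ tb (row A x) j = true ∧ z = ph j) →
    (∀ j, tb Sa j = true → G.Adj (ph x) (ph j) → ¬ tb (row A x) j = true → tb Cm j = true) →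
    nx Cm A B ≠ 0 → TG G X ∨ ∃ A' B', Em G X n A' ph ∧ Grow A A' x Sa ∧ ct A' B' ≠ 0

theorem uw1_trans {A A1 A2 x Sa : ℕ} (h1 : Grow A A1 x Sa) (h2 : Grow A1 A2 x Sa) :
    Grow A A2 x Sa :=
  ⟨fun i j h => h2.1 i j (h1.1 i j h), fun i j h => (h2.2 i j h).elim (h1.2 i j) Or.inr⟩

theorem uw1_edge {lv : ℕ} {cl : Cl} (cx : Cx G X lv) (hcl : Snd G X cl) {R H : Finset V}
    {Sa n x pm Cm A A0 B : ℕ} {ct : ℕ → ℕ → ℕ} {ph : ℕ → V} {nx : ℕ → ℕ → ℕ → ℕ}
    (ih : uw1P G X R Sa n x pm ct ph nx) (h : Em G X n A ph) (h0 : Em G X n A0 ph)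
    (e0 : ∀ a, row A0 a = row A a) (ho : Hold G X R H Sa n ph) (hx : x < n) (hH : ph x ∈ H)
    (hp : ∀ z ∈ R, G.Adj (ph x) z → ∃ j, tb pm j = true ∧ tb (row A x) j = true ∧ z = ph j)
    (hC : ∀ j, tb Sa j = true → G.Adj (ph x) (ph j) → ¬ tb (row A x) j = true → tb Cm j = true)
    (f : ¬ tb (ful A) x = true) (s : tb (mT A) x = true ∨ Ker G X (ph x))
    (r : bl (fun j m' B2 => cp cl n (edge A0 x j) (nx m') B2)
      (dif (Nat.land Cm (opn n A)) (row A x)) B ≠ 0) :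
    TG G X ∨ ∃ A' B', Em G X n A' ph ∧ Grow A A' x Sa ∧ ct A' B' ≠ 0 := by
  obtain ⟨y, hy, ay, ny⟩ := h.opn' cx.cub cx.two hx f s
  have yR : y ∉ R := fun c => by
    obtain ⟨j, -, j2, rfl⟩ := hp y c ay
    exact ny j j2 rfl
  obtain ⟨j0, s0, rfl⟩ := ho.hold _ hH y hy yR ay
  obtain ⟨j, hj, hmax⟩ := Finset.exists_max_image ((Finset.range n).filter fun j =>
    tb Sa j = true ∧ G.Adj (ph x) (ph j) ∧ ¬ tb (row A x) j = true) id
    ⟨j0, Finset.mem_filter.2 ⟨Finset.mem_range.2 (ho.sa j0 s0).1, s0, ay, fun c => ny j0 c rfl⟩⟩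
  obtain ⟨-, sj, aj, nj⟩ := Finset.mem_filter.1 hj
  have jn := (ho.sa j sj).1
  have hm : ∀ i, tb Sa i = true → G.Adj (ph x) (ph i) → ¬ tb (row A x) i = true →
      tb (dif (Nat.land Cm (opn n A)) (row A x)) i = true := fun i si ai ni =>
    (tb_dif _ _ _).2 ⟨(tb_and _ _ _).2
      ⟨hC i si ai ni, (h.opn_of cx.cub hx (ho.sa i si).1 ai ni).1⟩, ni⟩
  obtain ⟨B1, r1⟩ := bl_ne r (hm j sj aj nj)
  have em := h0.edge' hx jn aj (by rw [e0]; exact nj)
  have re := row_edge (A := A0) (i := x) (j := j) (by have := h.le; omega) (by have := h.le; omega)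
  rcases cp_snd hcl em r1 with t | ⟨B2, r2⟩
  · exact Or.inl t
  refine (ih _ _ _ em (fun z hz az => ?_) (fun i si ai ni => ?_) r2).imp_right ?_
  · obtain ⟨i, i1, i2, i3⟩ := hp z hz az
    exact ⟨i, i1, (re x i).2 (Or.inl (by rw [e0]; exact i2)), i3⟩
  · have n1 : ¬ tb (row A x) i = true := fun c => ni ((re x i).2 (Or.inl (by rw [e0]; exact c)))
    have n2 : i ≠ j := fun c => ni ((re x i).2 (Or.inr (Or.inl ⟨rfl, c⟩)))
    have n3 : i ≤ j :=
      hmax i (Finset.mem_filter.2 ⟨Finset.mem_range.2 (ho.sa i si).1, si, ai, n1⟩)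
    exact (tb_mod _ _ _).2 ⟨hm i si ai n1, lt_of_le_of_ne n3 n2⟩
  · rintro ⟨A', B', e', g', c'⟩
    refine ⟨A', B', e', uw1_trans ⟨fun a b c => ?_, fun a b c => ?_⟩ g', c'⟩
    · exact (re a b).2 (Or.inl (by rw [e0]; exact c))
    · rcases (re a b).1 c with c | ⟨c, -⟩ | ⟨rfl, -⟩
      · exact Or.inl (by rw [← e0]; exact c)
      · exact Or.inr (Or.inl c)
      · exact Or.inr (Or.inr sj)

theorem uw1_step {lv : ℕ} {cl : Cl} (cx : Cx G X lv) (hcl : Snd G X cl) {R H : Finset V}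
    {Sa n x pm : ℕ} {okK : Bool} {ct : ℕ → ℕ → ℕ} {ph : ℕ → V} {nx : ℕ → ℕ → ℕ → ℕ}
    (ho : Hold G X R H Sa n ph) (hx : x < n) (hH : ph x ∈ H) (hk : okK = false → Stub G X (ph x))
    (ih : uw1P G X R Sa n x pm ct ph nx) :
    uw1P G X R Sa n x pm ct ph (lfS cl (kql lv) Sa n x pm okK ct nx) := by
  intro Cm A B h hp hC r
  have x64 : x < 64 := by have := h.le; omega
  have dead : ¬ (nz (dif (row A x) (Nat.lor pm Sa)) ||
      (tb (ker (kql lv) A) x && !okK)) = true := by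
    rw [Bool.or_eq_true, Bool.and_eq_true, nz_iff, Bool.not_eq_true']
    rintro (c | ⟨c1, c2⟩)
    · refine c ((eq_zero_iff _).2 fun j hj => ?_)
      obtain ⟨j1, j2⟩ := (tb_dif _ _ _).1 hj
      obtain ⟨-, jn, aj⟩ := h.adj x j j1
      refine j2 ((tb_or _ _ _).2 ?_)
      by_cases jR : ph j ∈ R
      · obtain ⟨i, i1, i2, i3⟩ := hp _ jR aj
        rw [h.inj j jn i (h.adj x i i2).2.1 i3]
        exact Or.inl i1
      · obtain ⟨i, i1, i3⟩ := ho.hold _ hH _ (h.mem j jn) jR aj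
        rw [h.inj j jn i (ho.sa i i1).1 i3]
        exact Or.inr i1
    · exact not_stub_ker (hk c2) (h.ker' cx hx c1)
  unfold lfS at r
  simp only [fz_eq, Bool.cond_eq_ite] at r
  rw [if_neg dead] at r
  by_cases f : tb (ful A) x = true
  · rw [if_pos f] at r
    exact Or.inr ⟨A, B, h, ⟨fun _ _ c => c, fun _ _ c => Or.inl c⟩, r⟩
  rw [if_neg f] at r
  obtain ⟨r1, r2⟩ := sq_ne r
  by_cases m : tb (mT A) x = true
  · rw [if_pos m] at r2
    exact uw1_edge cx hcl ih h h (fun _ => rfl) ho hx hH hp hC f (Or.inl m) r2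
  rw [if_neg m] at r2
  rcases stub_or_ker (G := G) (X := X) (ph x) with s | s
  · have q : ¬ tb (Nat.lor (mT A) (ker (kql lv) A)) x = true := fun c =>
      ((tb_or _ _ _).1 c).elim m fun c => not_stub_ker s (h.ker' cx hx c)
    rw [if_neg q] at r1
    have em := h.stb' hx s
    have e0 := (stb_spec (A := A) x64).1
    rcases cp_snd hcl em r1 with t | ⟨B2, r3⟩
    · exact Or.inl t
    refine (ih _ _ _ em (by rw [e0]; exact hp) (by rw [e0]; exact hC) r3).imp_right ?_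
    rintro ⟨A', B', e', g', c'⟩
    exact ⟨A', B', e', uw1_trans ⟨fun a b c => by rw [e0]; exact c,
      fun a b c => Or.inl (by rw [← e0]; exact c)⟩ g', c'⟩
  · have k : okK = true := by
      cases okK
      · exact (not_stub_ker (hk rfl) s).elim
      · rfl
    rw [if_pos k] at r2
    exact uw1_edge cx hcl ih h (h.skr' hx s) (skr_spec x64).1 ho hx hH hp hC f (Or.inr s) r2


/-- Completion of a leaf or of an isolated vertex `x` of the remainder. Prove first the step: if `nx` is sound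
(same statement with the extra invariant that every unknown neighbour of `x` in `Sa` lies in `Cm`), so is
`lfS .. nx`; among the unknown neighbours choose the largest index (`bl_ne` gives the lower mask). -/
theorem lf_snd {lv : ℕ} {cl : Cl} (cx : Cx G X lv) (hcl : Snd G X cl) {R H : Finset V} {Sa n x pm A B : ℕ}
    {okK : Bool} {ct : ℕ → ℕ → ℕ} {ph : ℕ → V} (h : Em G X n A ph) (ho : Hold G X R H Sa n ph) (hx : x < n)
    (hH : ph x ∈ H) (hp : ∀ z ∈ R, G.Adj (ph x) z → ∃ j, tb pm j = true ∧ tb (row A x) j = true ∧ z = ph j)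
    (hk : okK = false → Stub G X (ph x)) (r : lf cl (kql lv) Sa n x pm okK ct A B ≠ 0) :
    TG G X ∨ ∃ A' B', Em G X n A' ph ∧ Grow A A' x Sa ∧ ct A' B' ≠ 0 := uw1_step cx hcl ho hx hH hk (uw1_step cx hcl ho hx hH hk (uw1_step cx hcl ho hx hH hk
    (fun _ _ _ _ _ _ c => absurd rfl c))) Sa A B h hp (fun _ c _ _ => c) r
/-- the invariant survives new edges whose ends in `rv` go to `W` -/
theorem WI.grow {R W H O : Finset V} {a b : V} {Sa n A n' A' : ℕ} {ph ph' : ℕ → V} {w : Wd} {wt : V → ℕ}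
    (h : WI G X R W H a b Sa n A ph w O wt) (e : Ext n ph n' ph') (em : Em G X n' A' ph')
    (g : ∀ j, tb w.rv j = true → ∀ i, tb (row A' j) i = true → tb (row A j) i = true ∨ ph' i ∈ W) :
    WI G X R W H a b Sa n' A' ph' w O wt := by
  refine ⟨em, h.hold.ext e, h.wit, h.outs, fun j hj => ?_, h.sn, h.rg, fun r hr => ?_, h.ro, h.wts,
    h.sum, fun j hj => ?_⟩
  · obtain ⟨h1, h2⟩ := h.nw j hj
    rw [e.2 j h1]
    exact ⟨h1.trans_le e.1, h2⟩
  · obtain ⟨h1, h2⟩ := h.reg r hr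
    rw [e.2 _ h1]
    exact ⟨h1.trans_le e.1, h2⟩
  · obtain ⟨h1, h2, h3, z, hz, az, nk⟩ := h.rv j hj
    rw [e.2 j h1]
    refine ⟨h1.trans_le e.1, h2, h3, z, hz, az, fun i hi => ?_⟩
    rcases g j hj i hi with c | c
    · rw [e.2 i (h.em.adj j i c).2.1]
      exact nk i c
    · exact fun d => hz (d ▸ c)
theorem WI.card_le {R W H O : Finset V} {a b : V} {Sa n A : ℕ} {ph : ℕ → V} {w : Wd} {wt : V → ℕ}
    (h : WI G X R W H a b Sa n A ph w O wt) : O.card ≤ w.sl := by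
  rw [Finset.card_eq_sum_ones]
  exact (Finset.sum_le_sum h.wts.one).trans h.sum
/-- an unknown block edge at a register -/
theorem WI.av' {R W H O : Finset V} {a b : V} {Sa n A y : ℕ} {ph : ℕ → V} {w : Wd} {wt : V → ℕ}
    (hc : Cub G X) (h : WI G X R W H a b Sa n A ph w O wt) {z : V} (hz : z ∈ W) (a' : G.Adj (ph y) z)
    (nw : ∀ j, tb (row A y) j = true → ph j ≠ z) : av A w.rv y = true := by
  have zX : z ∈ X := h.hold.subR (h.wit.subX (h.wit.sub hz))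
  unfold av
  rw [Bool.not_eq_true', ← Bool.not_eq_true, tb_or, tb_and, tb_or]
  rintro (c | ⟨c, m | m⟩)
  · obtain ⟨j, j1, j2⟩ := (h.em.full3 hc c).2 z a'
    exact nw j j1 j2.symm
  · obtain ⟨s, s1, s2⟩ := (h.em.stub y m).2
    rcases h.em.third hc c a' nw s s2 with rfl | ⟨j, j1, rfl⟩
    · exact s1 zX
    · exact s1 (h.em.mem j (h.em.adj y j j1).2.1)
  · obtain ⟨-, -, -, s, s1, s2, s3⟩ := h.rv y m
    rcases h.em.third hc c a' nw s s2 with rfl | ⟨j, j1, rfl⟩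
    · exact s1 hz
    · exact s3 j j1 rfl

end Pool.Agent.Hom2.UC
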