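import Pool.Agent.Lib.MP_7e4769_co.Hc.UWit1

set_option autoImplicit false

namespace Pool.Agent.Hom2.UC

open Classical

variable {V : Type} {G : SimpleGraph V} {X : Finset V}

theorem w2_nw {R W H O : Finset V} {a b : V} {Sa n A y : ℕ} {ph : ℕ → V} {w : Wd} {wt : V → ℕ}
    (h : WI G X R W H a b Sa n A ph w O wt) (hn : ∀ z ∈ X, G.Adj (ph y) z → z ∈ W) :
    nz (Nat.land (row A y) w.NW) = false := by
  rw [← Bool.not_eq_true, nz_iff, not_not, eq_zero_iff]
  intro j hj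
  obtain ⟨h1, h2⟩ := (tb_and _ _ _).1 hj
  obtain ⟨-, h3, h4⟩ := h.em.adj y j h1
  exact (h.nw j h2).2.1 (hn _ (h.em.mem j h3) h4)

theorem w2_sub {R W H O : Finset V} {a b : V} {Sa n A : ℕ} {ph : ℕ → V} {w : Wd} {wt : V → ℕ}
    (h : WI G X R W H a b Sa n A ph w O wt) : W ⊆ X :=
  h.wit.sub.trans (h.hold.subH.trans h.hold.subR)

theorem w2_edge {R W H O : Finset V} {a b : V} {Sa n n' A y z : ℕ} {ph ph' : ℕ → V} {w : Wd}
    {wt : V → ℕ} (h : WI G X R W H a b Sa n A ph w O wt) (e : Ext n ph n' ph')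
    (em : Em G X n' (edge A y z) ph') (hy : y < n') (hz : z < n') (hW : ph' y ∈ W) (hzW : ph' z ∈ W) :
    WI G X R W H a b Sa n' (edge A y z) ph' w O wt := by
  have := em.le
  refine h.grow e em fun j _ i hi => ?_
  rcases (row_edge (by omega) (by omega) j i).1 hi with h1 | ⟨-, rfl⟩ | ⟨-, rfl⟩
  · exact Or.inl h1
  · exact Or.inr hzW
  · exact Or.inr hW

theorem w2_reg {R W H O : Finset V} {a b : V} {Sa n A B j : ℕ} {ph : ℕ → V} {w : Wd} {wt : V → ℕ}
    {t : PT} {ex : Ex} (hex : ExS G X R W H a b Sa t ex) (h : WI G X R W H a b Sa n A ph w O wt)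
    (hj : j < n) (hW : ph j ∈ W)
    (st : ∀ ro', (∀ r < w.k, ro' r = ph (cv w.ro r)) → ro' w.k = ph j → Sat G X W t ro' (w.k + 1) O)
    (r : reg ex w n j A B ≠ 0) : TG G X := by
  have := h.em.le
  obtain ⟨c1, c2, c3⟩ := cv_push h.ro (show j < 64 by omega)
  simp only [reg, fz_eq] at r
  refine hex _ _ _ _ ph O wt ?_ ?_ r
  swap
  · exact st _ (fun q hq => congrArg ph (c1 q hq)) (congrArg ph c2)
  refine ⟨h.em, h.hold, h.wit, h.outs, h.nw, h.sn, fun i hi => ?_, fun q hq => ?_,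
    c3, h.wts, h.sum, h.rv⟩
  · rcases (tb_or _ _ _).1 hi with h1 | h1
    · obtain ⟨q, hq, h2⟩ := h.rg i h1
      exact ⟨q, Nat.lt_succ_of_lt hq, (c1 q hq).trans h2⟩
    · exact ⟨w.k, Nat.lt_succ_self _, c2.trans ((tb_two _ _).1 h1).symm⟩
  · change cv (Nat.lor w.ro (Nat.shiftLeft j (Nat.mul 6 w.k))) q < n ∧
      ph (cv (Nat.lor w.ro (Nat.shiftLeft j (Nat.mul 6 w.k))) q) ∈ W
    rcases Nat.lt_succ_iff_lt_or_eq.1 hq with h1 | rfl
    · rw [c1 q h1]
      exact h.reg q h1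
    · rw [c2]
      exact ⟨hj, hW⟩

theorem opStub_snd {lv : ℕ} {cl : Cl} (cx : Cx G X lv) (hcl : Snd G X cl) {R W H O : Finset V} {a b : V}
    {Sa n A B y : ℕ} {ph : ℕ → V} {w : Wd} {wt : V → ℕ} {t : PT} {ex : Ex}
    (hex : ExS G X R W H a b Sa t ex) (h : WI G X R W H a b Sa n A ph w O wt) (hy : y < n) (hW : ph y ∈ W)
    (s : Stub G X (ph y)) (hn : ∀ z ∈ X, G.Adj (ph y) z → z ∈ W)
    (st : Sat G X W t (fun r => ph (cv w.ro r)) w.k O) (r : opStub cl (kql lv) ex y n A w B ≠ 0) :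
    TG G X := by
  have f1 := w2_nw h hn
  have f3 : tb (ker (kql lv) A) y = false := by
    rw [← Bool.not_eq_true]
    exact fun k => not_stub_ker s (h.em.ker' cx hy k)
  have := h.em.le
  unfold opStub at r
  rw [f1, f3, cond_false, cond_false] at r
  cases f2 : tb (mT A) y
  · rw [f2, cond_false] at r
    have em := h.em.stb' hy s
    rcases cp_snd hcl em r with h1 | ⟨B', h1⟩
    · exact h1
    · refine hex _ _ _ _ ph O wt (h.grow ⟨le_rfl, fun _ _ => rfl⟩ em fun j _ i hi => Or.inl ?_) st h1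
      rwa [(stb_spec (by omega)).1 j] at hi
  · rw [f2, cond_true] at r
    exact hex _ _ _ _ ph O wt h st r
theorem opKer_snd {lv : ℕ} {cl : Cl} (cx : Cx G X lv) (hcl : Snd G X cl) {R W H O : Finset V} {a b : V}
    {Sa n A B y : ℕ} {ph : ℕ → V} {w : Wd} {wt : V → ℕ} {t : PT} {ex : Ex}
    (hex : ExS G X R W H a b Sa t ex) (h : WI G X R W H a b Sa n A ph w O wt) (hy : y < n) (hW : ph y ∈ W)
    (hn : ∀ z, G.Adj (ph y) z → z ∈ W)
    (st : Sat G X W t (fun r => ph (cv w.ro r)) w.k O) (r : opKer cl (kql lv) ex y n A w B ≠ 0) :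
    TG G X := by
  have f1 := w2_nw h fun z _ => hn z
  have k : Ker G X (ph y) := fun z hz => w2_sub h (hn z hz)
  have f3 : tb (mT A) y = false := by
    rw [← Bool.not_eq_true]
    exact fun s => not_stub_ker (h.em.stub y s).2 k
  have := h.em.le
  unfold opKer at r
  rw [f1, f3, Bool.or_self, cond_false] at r
  cases f2 : tb (ker (kql lv) A) y
  · rw [f2, cond_false] at r
    have em := h.em.skr' hy k
    rcases cp_snd hcl em r with h1 | ⟨B', h1⟩
    · exact h1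
    · refine hex _ _ _ _ ph O wt (h.grow ⟨le_rfl, fun _ _ => rfl⟩ em fun j _ i hi => Or.inl ?_) st h1
      rwa [(skr_spec (by omega)).1 j] at hi
  · rw [f2, cond_true] at r
    exact hex _ _ _ _ ph O wt h st r
theorem opEd_snd {lv : ℕ} {cl : Cl} (cx : Cx G X lv) (hcl : Snd G X cl) {R W H O : Finset V} {a b : V}
    {Sa n A B y : ℕ} {ph : ℕ → V} {w : Wd} {wt : V → ℕ} {t : PT} {ex : Ex}
    (hex : ExS G X R W H a b Sa t ex) (h : WI G X R W H a b Sa n A ph w O wt) (hy : y < n) (hW : ph y ∈ W)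
    {z : ℕ} (hz : z < n) (hzW : ph z ∈ W) (ad : G.Adj (ph y) (ph z))
    (st : Sat G X W t (fun r => ph (cv w.ro r)) w.k O) (r : opEd cl ex y z n A w B ≠ 0) : TG G X := by
  unfold opEd at r
  cases f : tb (row A y) z
  · have nw : ¬ tb (row A y) z = true := by simp [f]
    have a1 : av A w.rv y = true := h.av' cx.cub hzW ad fun j hj e =>
      nw (h.em.inj j (h.em.adj y j hj).2.1 z hz e ▸ hj)
    have a2 : av A w.rv z = true := h.av' cx.cub hW ad.symm fun j hj e =>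
      nw (h.em.sym z y (h.em.inj j (h.em.adj z j hj).2.1 y hy e ▸ hj))
    rw [f, cond_false, a1, a2, Bool.and_self, cond_true] at r
    have em := h.em.edge' hy hz ad nw
    rcases cp_snd hcl em r with h1 | ⟨B', h1⟩
    · exact h1
    · exact hex _ _ _ _ ph O wt (w2_edge h ⟨le_rfl, fun _ _ => rfl⟩ em hy hz hW hzW) st h1
  · rw [f, cond_true] at r
    exact hex _ _ _ _ ph O wt h st r
theorem opNb_snd {lv : ℕ} {cl : Cl} (cx : Cx G X lv) (hcl : Snd G X cl) {R W H O : Finset V} {a b : V}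
    {Sa n A B y : ℕ} {ph : ℕ → V} {w : Wd} {wt : V → ℕ} {t : PT} {ex : Ex}
    (hex : ExS G X R W H a b Sa t ex) (h : WI G X R W H a b Sa n A ph w O wt) (hy : y < n) (hW : ph y ∈ W)
    {z : V} (hz : z ∈ W) (ad : G.Adj (ph y) z) (nr : ∀ r < w.k, ph (cv w.ro r) ≠ z)
    (st : ∀ ro', (∀ r < w.k, ro' r = ph (cv w.ro r)) → ro' w.k = z → Sat G X W t ro' (w.k + 1) O)
    (r : opNb cl ex y n A w B ≠ 0) : TG G X := by
  simp only [opNb, fz_eq] at r
  obtain ⟨r1, r2⟩ := sq_ne r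
  have hB : ∀ j, ph j = z → ¬ tb (Nat.lor w.NW w.Rg) j = true := by
    intro j e hj
    rcases (tb_or _ _ _).1 hj with h1 | h1
    · exact (h.nw j h1).2.1 (e ▸ hz)
    · obtain ⟨q, hq, h2⟩ := h.rg j h1
      exact nr q hq (h2 ▸ e)
  by_cases kn : ∃ j, tb (row A y) j = true ∧ ph j = z
  · obtain ⟨j, hj, rfl⟩ := kn
    obtain ⟨B', h1⟩ := bl_ne r1 ((tb_dif _ _ _).2 ⟨hj, hB j rfl⟩)
    exact w2_reg hex h (h.em.adj y j hj).2.1 hz st h1
  have nw : ∀ j, tb (row A y) j = true → ph j ≠ z := fun j hj e => kn ⟨j, hj, e⟩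
  rw [h.av' cx.cub hz ad nw, cond_true] at r2
  obtain ⟨r3, r4⟩ := sq_ne r2
  by_cases old : ∃ j < n, ph j = z
  · obtain ⟨j, hj, rfl⟩ := old
    have nj : ¬ tb (row A y) j = true := fun c => nw j c rfl
    obtain ⟨B', h1⟩ := bl_ne r3 ((tb_dif _ _ j).2 ⟨(h.em.opn_of cx.cub hy hj ad nj).1,
      fun c => ((tb_or _ _ _).1 c).elim (hB j rfl) nj⟩)
    have em := h.em.edge' hy hj ad nj
    rcases cp_snd hcl em h1 with h2 | ⟨B'', h2⟩
    · exact h2
    · exact w2_reg hex (w2_edge h ⟨le_rfl, fun _ _ => rfl⟩ em hy hj hW hz) hj hz st h2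
  · obtain ⟨c1, c2⟩ := cond_ne r4
    obtain ⟨em, e⟩ := h.em.new ((lt_iff _ _).1 c1) hy (w2_sub h hz) (fun j hj c => old ⟨j, hj, c⟩) ad
    have hn : Function.update ph n z n = z := Function.update_self _ _ _
    rcases cp_snd hcl em c2 with h2 | ⟨B'', h2⟩
    · exact h2
    · refine w2_reg hex (w2_edge h e em (Nat.lt_succ_of_lt hy) (Nat.lt_succ_self n)
        (by rw [e.2 y hy]; exact hW) (by rw [hn]; exact hz)) (Nat.lt_succ_self n)
        (by rw [hn]; exact hz) (fun ro' h3 h4 => st ro' (fun q hq => ?_) (h4.trans hn)) h2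
      rw [h3 q hq, e.2 _ (h.reg q hq).1]

end Pool.Agent.Hom2.UC
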