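import Pool.Agent.Lib.MP_7e4769_co.Hc.UWit1

set_option autoImplicit false

namespace Pool.Agent.Hom2.UC

open Classical

variable {V : Type} {G : SimpleGraph V} {X : Finset V}

theorem uo_cond (c : Bool) (f : Bool → ℕ) :
    cond c (fun k : Bool → ℕ => k true) (fun k => k false) f = f c := by cases c <;> rfl

theorem uo_t {c : Bool} (h : c = true) (x y : ℕ) : (bif c then x else y) = x := by rw [h]; rfl

theorem uo_f {c : Bool} (h : ¬ c = true) (x y : ℕ) : (bif c then x else y) = y := by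
  cases c
  · rfl
  · exact absurd rfl h

section
variable {R W H O : Finset V} {a b : V} {Sa n A : ℕ} {ph : ℕ → V} {w : Wd} {wt : V → ℕ}

theorem uo_mem (h : WI G X R W H a b Sa n A ph w O wt) {u : V} (hu : u ∈ O) : u ∈ W :=
  (Finset.mem_filter.1 (h.outs hu)).1

theorem uo_sum (h : WI G X R W H a b Sa n A ph w O wt) {v : V} (hv : v ∈ O) :
    ∑ u ∈ O.erase v, wt u + wt v ≤ w.sl ∧ O.card + wt v ≤ w.sl + 1 := by
  have h1 := Finset.sum_erase_add O wt hv
  have h2 := h.sum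
  have h3 : (O.erase v).card ≤ ∑ u ∈ O.erase v, wt u := by
    rw [Finset.card_eq_sum_ones]
    exact Finset.sum_le_sum fun u hu => h.wts.one u (Finset.mem_of_mem_erase hu)
  have h4 := Finset.card_erase_add_one hv
  omega

/-- the port `v` is settled -/
theorem uo_step (h : WI G X R W H a b Sa n A ph w O wt) {v : V} (hv : v ∈ O) {NW s df rv d : ℕ}
    (n1 : ∀ j, tb w.NW j = true → tb NW j = true)
    (n2 : ∀ j, tb NW j = true → tb w.NW j = true ∨
      (j < n ∧ ph j ∉ W ∧ ∀ u ∈ O, u ≠ v → ¬ G.Adj u (ph j)))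
    (hd : d ≤ wt v) (hs : w.sl - d ≤ s) (hf : df = w.df ∨ v = a)
    (hr : ∀ j, tb rv j = true → tb w.rv j = true ∨ (j < n ∧ ph j = v ∧
      ∃ z, z ∉ W ∧ G.Adj (ph j) z ∧ ∀ i, tb (row A j) i = true → ph i ≠ z)) :
    WI G X R W H a b Sa n A ph ⟨NW, w.Rg, w.ro, w.k, s, df, rv⟩ (O.erase v) wt where
  em := h.em
  hold := h.hold
  wit := h.wit
  outs := (Finset.erase_subset _ _).trans h.outs
  nw j hj := by
    rcases n2 j hj with h1 | ⟨h1, h2, h3⟩
    · obtain ⟨p, q, r⟩ := h.nw j h1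
      exact ⟨p, q, r.imp id fun r u hu => r u (Finset.mem_of_mem_erase hu)⟩
    · exact ⟨h1, h2, Or.inr fun u hu => h3 u (Finset.mem_of_mem_erase hu) (Finset.ne_of_mem_erase hu)⟩
  sn j hj := n1 j (h.sn j hj)
  rg := h.rg
  reg := h.reg
  ro := h.ro
  wts := ⟨fun u hu => h.wts.one u (Finset.mem_of_mem_erase hu),
    fun u hu => h.wts.leaf u (Finset.mem_of_mem_erase hu), fun ha => by
      rcases hf with rfl | rfl
      · exact h.wts.free (Finset.mem_of_mem_erase ha)
      · exact absurd ha (Finset.notMem_erase _ _)⟩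
  sum := by
    have := (uo_sum h hv).1
    show _ ≤ s
    omega
  rv j hj := by
    rcases hr j hj with h1 | ⟨h1, h2, h3⟩
    · obtain ⟨p, q, r, t⟩ := h.rv j h1
      exact ⟨p, q, fun hu => r (Finset.mem_of_mem_erase hu), t⟩
    · exact ⟨h1, h2 ▸ uo_mem h hv, h2 ▸ Finset.notMem_erase _ _, h3⟩

/-- a new edge from the port to a vertex outside the block -/
theorem uo_edge (h : WI G X R W H a b Sa n A ph w O wt) {y j n' : ℕ} {ph' : ℕ → V} (hy : y < n)
    (hO : ph y ∈ O) (hj : j < 64) (hW : j < n → ph j ∉ W) (e : Ext n ph n' ph')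
    (em : Em G X n' (edge A y j) ph') : WI G X R W H a b Sa n' (edge A y j) ph' w O wt := by
  refine h.grow e em fun i hi l hl => Or.inl ?_
  have := h.em.le
  obtain ⟨p, q, r, -⟩ := h.rv i hi
  rcases (row_edge (by omega) hj i l).1 hl with h1 | ⟨rfl, -⟩ | ⟨rfl, -⟩
  · exact h1
  · exact absurd hO r
  · exact absurd q (hW p)

theorem uo_only (h : WI G X R W H a b Sa n A ph w O wt) {v x : V} (hv : v ∈ W) (hH : x ∈ H)
    (hx : x ∉ W) (ad : G.Adj v x) : ∀ z ∈ R, G.Adj x z → z = v := by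
  obtain ⟨u, -, -, -, -, h1⟩ := h.wit.leaf x hH hx
  intro z hz hz'
  rw [h1 z hz hz', h1 v (h.hold.subH (h.wit.sub hv)) ad.symm]

/-- the neighbour outside the block is a known leaf -/
theorem uo_leaf {lv : ℕ} {cl : Cl} (cx : Cx G X lv) (hcl : Snd G X cl) {t : PT} {ex : Ex}
    (hex : ExS G X R W H a b Sa t ex) (h : WI G X R W H a b Sa n A ph w O wt) {y j rq B : ℕ}
    (hO : ph y ∈ O) (hq : rq ≤ O.card) (hj : tb (row A y) j = true) (hH : ph j ∈ H) (hW : ph j ∉ W)
    (st : Sat G X W t (fun r => ph (cv w.ro r)) w.k (O.erase (ph y)))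
    (r : lf cl (kql lv) Sa n j (two y) (lt rq w.sl) (aftL (kql lv) ex w n j) A B ≠ 0) : TG G X := by
  obtain ⟨hy, hjn, ad⟩ := h.em.adj y j hj
  have only := uo_only h (uo_mem h hO) hH hW ad
  have two := h.wts.leaf _ hO _ hH hW ad
  rcases lf_snd cx hcl h.em h.hold hjn hH
    (fun z hz hz' => ⟨y, (tb_two y y).2 rfl, h.em.sym y j hj, only z hz hz'⟩)
    (fun hk => (stub_or_ker (ph j)).resolve_right fun k => by
      have h1 := (uo_sum h hO).2
      have h2 := two k
      have h3 := (lt_false _ _).1 hk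
      omega) r with r | ⟨A', B', em, gr, r⟩
  · exact r
  have h' : WI G X R W H a b Sa n A' ph w O wt := by
    refine h.grow ⟨le_rfl, fun _ _ => rfl⟩ em fun i hi l hl => Or.inl ?_
    obtain ⟨-, q, -, -⟩ := h.rv i hi
    rcases gr.2 i l hl with h1 | rfl | h1
    · exact h1
    · exact absurd q hW
    · exact absurd (h.hold.subH (h.wit.sub q)) (h.hold.sa i h1).2
  unfold aftL at r
  simp only [fz_eq] at r
  refine hex _ _ _ _ _ _ wt (uo_step (d := 1 + bt (ker (kql lv) A') j) h' hO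
    (fun i hi => (tb_or _ _ _).2 (Or.inl hi)) (fun i hi => ?_) ?_ ?_ (Or.inl rfl)
    fun i hi => Or.inl hi) st r
  · rcases (tb_or _ _ _).1 hi with h1 | h1
    · exact Or.inl h1
    · obtain rfl := (tb_two _ _).1 h1
      exact Or.inr ⟨hjn, hW, fun u hu hne hu' =>
        hne (only u (h.hold.subH (h.wit.sub (uo_mem h hu))) hu'.symm)⟩
  · rw [bt_eq]
    split_ifs with hk
    · exact two (em.ker' cx hjn hk)
    · exact h.wts.one _ hO
  · exact le_of_eq (Nat.sub_sub _ _ _).symm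

end

/-- The port `y` has exactly one neighbour `x` outside `W` (`out_unique`), in `X`. By `Wit.half` it is a leaf, the
free end `b`, or lies outside `R` (then in `Sa`); it is known, an old vertex, or new. -/
theorem opOut_snd {lv : ℕ} {cl : Cl} (cx : Cx G X lv) (hcl : Snd G X cl) {R W H O : Finset V} {a b : V}
    {Sa n A B y : ℕ} {ph : ℕ → V} {w : Wd} {wt : V → ℕ} {t : PT} {ex : Ex}
    (hex : ExS G X R W H a b Sa t ex) (h : WI G X R W H a b Sa n A ph w O wt) (hy : y < n) (hW : ph y ∈ W)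
    {rq : ℕ} (hO : ph y ∈ O) (hq : rq ≤ O.card)
    (st : Sat G X W t (fun r => ph (cv w.ro r)) w.k (O.erase (ph y)))
    (r : opOut cl (kql lv) Sa ex rq y n A w B ≠ 0) : TG G X := by
  obtain ⟨x, hxX, hxW, ad⟩ := (Finset.mem_filter.1 (h.outs hO)).2
  have hWX : W ⊆ X := h.wit.sub.trans (h.hold.subH.trans h.hold.subR)
  have uq : ∀ z, z ∉ W → G.Adj (ph y) z → z = x := fun z hz hz' =>
    out_unique (cx.cub.mono hWX) h.wit.two hW hz hxW hz' ad
  have hk : Ker G X (ph y) := fun z hz => by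
    by_cases hzW : z ∈ W
    · exact hWX hzW
    · exact uq z hzW hz ▸ hxX
  have hle := h.em.le
  have h0 : WI G X R W H a b Sa n (skr A y) ph w O wt :=
    h.grow ⟨le_rfl, fun _ _ => rfl⟩ (h.em.skr' hy hk) fun j _ i hi =>
      Or.inl (by rwa [(skr_spec (show y < 64 by omega)).1 j] at hi)
  unfold opOut at r
  rw [uo_f fun hs => not_stub_ker (h.em.stub y hs).2 hk] at r
  simp only [fz_eq, uo_cond] at r
  clear h
  generalize skr A y = A at r h0
  rename' h0 => h
  have one := h.wts.one _ hO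
  have hsa : ∀ j, tb w.NW j = true → G.Adj (ph y) (ph j) → tb Sa j = true ∧ ph j = x := fun j hj aj =>
    have q := h.nw j hj
    ⟨q.2.2.resolve_right fun q' => q' _ hO aj, uq _ q.2.1 aj⟩
  by_cases hN : nz (Nat.land (row A y) w.NW) = true
  · have key : ∀ j, tb (Nat.land (row A y) w.NW) j = true → j < n ∧ tb Sa j = true ∧ ph j = x :=
      fun j hj =>
        have q := (tb_and _ _ _).1 hj
        have q' := h.em.adj y j q.1
        ⟨q'.2.1, hsa j q.2 q'.2.2⟩
    rw [uo_t hN, uo_t] at r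
    · exact hex _ _ _ _ _ _ wt (uo_step (d := 1) h hO (fun _ hi => hi) (fun _ hi => Or.inl hi) one
        le_rfl (Or.inl rfl) fun _ hi => Or.inl hi) st r
    rw [Bool.and_eq_true, z0_iff, z0_iff]
    constructor
    · by_contra hne
      obtain ⟨i, j, hij, hi, hj⟩ := lw_ne hne
      exact hij (h.em.inj i (key i hi).1 j (key j hj).1 ((key i hi).2.2.trans (key j hj).2.2.symm))
    · exact (eq_zero_iff _).2 fun j hj =>
        ((tb_dif _ _ _).1 hj).2 (key j ((tb_dif _ _ _).1 hj).1).2.1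
  rw [uo_f hN] at r
  have hN' : ∀ j, tb (row A y) j = true → ¬ tb w.NW j = true := fun j h1 h2 =>
    hN ((nz_iff _).2 fun h3 => (eq_zero_iff _).1 h3 j ((tb_and _ _ _).2 ⟨h1, h2⟩))
  have hrg : ∀ j, ph j = x → ¬ tb w.Rg j = true := fun j hj hr => by
    obtain ⟨i, hi, rfl⟩ := h.rg j hr
    exact hxW (hj ▸ (h.reg i hi).2)
  have fr : x ∈ R → x ∉ H → ph y = a ∧ w.df ≤ wt (ph y) ∧
      Nat.ble (Nat.add rq w.df) (Nat.succ w.sl) = true ∧
      ∀ u ∈ O, u ≠ ph y → ¬ G.Adj u x := fun hR hH => by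
    obtain ⟨e1, e2⟩ := h.wit.only _ (h.wit.sub hW) x hR hH ad
    have h1 := h.wts.free (e1 ▸ hO) (e2 ▸ hR) (e2 ▸ hH) (e1 ▸ e2 ▸ ad)
    rw [← e1] at h1
    have h2 := (uo_sum h hO).2
    refine ⟨e1, h1, Nat.ble_eq_true_of_le ?_, fun u hu hne hu' =>
      hne ((h.wit.only u (h.wit.sub (uo_mem h hu)) x hR hH hu').1.trans e1.symm)⟩
    show rq + w.df ≤ w.sl + 1
    omega
  obtain ⟨r1, r⟩ := sq_ne r
  by_cases kn : ∃ j, tb (row A y) j = true ∧ ph j = x
  · obtain ⟨j, hj, rfl⟩ := kn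
    obtain ⟨B', r1⟩ := bl_ne r1 ((tb_dif _ _ _).2 ⟨hj, hrg j rfl⟩)
    obtain ⟨r1, r2⟩ := sq_ne r1
    by_cases hH : ph j ∈ H
    · exact uo_leaf cx hcl hex h hO hq hj hH hxW st r1
    by_cases hR : ph j ∈ R
    · obtain ⟨e1, e2, e3, e4⟩ := fr hR hH
      rw [uo_t e3] at r2
      refine hex _ _ _ _ _ _ wt (uo_step (d := w.df) h hO (fun i hi => (tb_or _ _ _).2 (Or.inl hi))
        (fun i hi => ?_) e2 le_rfl (Or.inr e1) fun _ hi => Or.inl hi) st r2
      rcases (tb_or _ _ _).1 hi with h1 | h1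
      · exact Or.inl h1
      · obtain rfl := (tb_two _ _).1 h1
        exact Or.inr ⟨(h.em.adj y i hj).2.1, hxW, e4⟩
    · obtain ⟨i, hi, e⟩ := h.hold.hold _ (h.wit.sub hW) _ hxX hR ad
      obtain rfl := h.em.inj j (h.em.adj y j hj).2.1 i (h.hold.sa i hi).1 e
      exact absurd (h.sn j hi) (hN' j hj)
  have kn' : ∀ j, tb (row A y) j = true → ph j ≠ x := fun j hj e => kn ⟨j, hj, e⟩
  rw [uo_f fun hf => ((h.em.full cx.cub hf).2 x ad).elim (fun ⟨j, hj, e⟩ => kn' j hj e.symm)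
    fun q => q.1 hxX] at r
  obtain ⟨r2, r⟩ := sq_ne r
  obtain ⟨r3, r⟩ := sq_ne r
  obtain ⟨r4, r⟩ := sq_ne r
  by_cases hH : x ∈ H
  · have only := uo_only h hW hH hxW ad
    by_cases old : ∃ j < n, ph j = x
    · obtain ⟨j, hj, rfl⟩ := old
      have nw : ¬ tb (row A y) j = true := fun q => kn' j q rfl
      obtain ⟨B', r3⟩ := bl_ne r3 ((tb_dif _ _ _).2 ⟨(h.em.opn_of cx.cub hy hj ad nw).1, fun q => by
        rcases (tb_or _ _ _).1 q with q | q
        · rcases (tb_or _ _ _).1 q with q | q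
          · exact (h.hold.sa j (hsa j q ad).1).2 (h.hold.subH hH)
          · exact hrg j rfl q
        · exact nw q⟩)
      rw [uo_f] at r3
      · have em := h.em.edge' hy hj ad nw
        rcases cp_snd hcl em r3 with r3 | ⟨B'', r3⟩
        · exact r3
        exact uo_leaf cx hcl hex (uo_edge h hy hO (by omega) (fun _ => hxW) ⟨le_rfl, fun _ _ => rfl⟩ em)
          hO hq ((row_edge (by omega) (by omega) y j).2 (Or.inr (Or.inl ⟨rfl, rfl⟩))) hH hxW st r3
      rw [nz_iff, not_not]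
      refine (eq_zero_iff _).2 fun i hi => ?_
      obtain ⟨q1, q2⟩ := (tb_dif _ _ _).1 hi
      obtain ⟨-, hin, ai⟩ := h.em.adj j i q1
      by_cases hR : ph i ∈ R
      · obtain rfl := h.em.inj i hin y hy (only _ hR ai)
        exact nw (h.em.sym j i q1)
      · obtain ⟨l, hl, e⟩ := h.hold.hold _ hH _ (h.em.mem i hin) hR ai
        obtain rfl := h.em.inj i hin l (h.hold.sa l hl).1 e
        exact q2 hl
    · obtain ⟨hn, r4⟩ := cond_ne r4
      have hn := (lt_iff _ _).1 hn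
      obtain ⟨em, e⟩ := h.em.new hn hy hxX (fun j hj q => old ⟨j, hj, q⟩) ad
      rcases cp_snd hcl em r4 with r4 | ⟨B'', r4⟩
      · exact r4
      have e1 : Function.update ph n x n = x := Function.update_self _ _ _
      have e2 := e.2 y hy
      generalize Function.update ph n x = ph' at em e e1 e2
      refine uo_leaf cx hcl hex (uo_edge h hy hO (by omega) (fun q => absurd q (lt_irrefl _)) e em)
        (e2 ▸ hO) hq ((row_edge (by omega) (by omega) y n).2 (Or.inr (Or.inl ⟨rfl, rfl⟩)))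
        (e1 ▸ hH) (e1 ▸ hxW) ?_ r4
      rw [e2]
      exact Sat.congr t (fun i hi => e.2 _ (h.reg i hi).1) st
  by_cases hR : x ∈ R
  · obtain ⟨e1, e2, e3, -⟩ := fr hR hH
    rw [uo_t e3] at r
    rcases cp_snd hcl h.em r with r | ⟨B'', r⟩
    · exact r
    refine hex _ _ _ _ _ _ wt (uo_step (d := w.df) h hO (fun _ hi => hi) (fun _ hi => Or.inl hi) e2
      le_rfl (Or.inr e1) fun i hi => ?_) st r
    obtain rfl := (tb_two _ _).1 hi
    exact Or.inr ⟨hy, rfl, x, hxW, ad, kn'⟩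
  · obtain ⟨j, hj, rfl⟩ := h.hold.hold _ (h.wit.sub hW) _ hxX hR ad
    have hjn := (h.hold.sa j hj).1
    have nw : ¬ tb (row A y) j = true := fun q => kn' j q rfl
    obtain ⟨B', r2⟩ := bl_ne r2 ((tb_and _ _ _).2 ⟨(h.em.opn_of cx.cub hy hjn ad nw).1, hj⟩)
    have em := h.em.edge' hy hjn ad nw
    rcases cp_snd hcl em r2 with r2 | ⟨B'', r2⟩
    · exact r2
    exact hex _ _ _ _ _ _ wt (uo_step (d := 1)
      (uo_edge h hy hO (by omega) (fun _ => hxW) ⟨le_rfl, fun _ _ => rfl⟩ em) hO (fun _ hi => hi)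
      (fun _ hi => Or.inl hi) one le_rfl (Or.inl rfl) fun _ hi => Or.inl hi) st r2

end Pool.Agent.Hom2.UC
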