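import Pool.Agent.Lib.MP_7e4769_co.Hc.UWit2
import Pool.Agent.Lib.MP_7e4769_co.Hc.UWit3

set_option autoImplicit false

namespace Pool.Agent.Hom2.UC

open Classical

variable {V : Type} {G : SimpleGraph V} {X : Finset V}

theorem cons_snd {lv : ℕ} {cl : Cl} (cx : Cx G X lv) (hcl : Snd G X cl) {R W H : Finset V} {a b : V}
    {Sa c : ℕ} {ch nx : PT} {e1 e2 : Ex} (i1 : ExS G X R W H a b Sa ch e1) (i2 : ExS G X R W H a b Sa nx e2) :
    ExS G X R W H a b Sa (.cons c ch nx) fun n A w B =>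
      sq (bif Nat.ble (cR c) w.sl then app cl (kql lv) Sa c e1 n A w B else B) (e2 n A w) := by
  intro n A w B ph O wt h st r
  obtain ⟨r1, r2⟩ := sq_ne r
  obtain st | ⟨h1, h2, st⟩ := st
  · exact i2 n A w _ ph O wt h st r2
  rw [Nat.ble_eq_true_of_le (h1.trans h.card_le), cond_true, app, fz_eq, fz_eq] at r1
  obtain ⟨hy, hW⟩ := h.reg _ h2
  obtain ⟨e, s1, s2, st⟩ | ⟨e, s1, st⟩ | ⟨e, s1, s2, st⟩ | ⟨e, z, hz, s1, s2, st⟩ |
    ⟨e, s1, st⟩ | e := st <;> rw [e] at r1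
  · rw [Bool.cond_pos (b := lt 1 4) rfl, Bool.cond_neg (b := Nat.beq 1 3) rfl,
      Bool.cond_neg (b := Nat.beq 1 2) rfl] at r1
    exact opStub_snd cx hcl i1 h hy hW s1 s2 st r1
  · rw [Bool.cond_pos (b := lt 2 4) rfl, Bool.cond_neg (b := Nat.beq 2 3) rfl,
      Bool.cond_pos (b := Nat.beq 2 2) rfl] at r1
    exact opOut_snd cx hcl i1 h hy hW s1 h1 st r1
  · rw [Bool.cond_pos (b := lt 3 4) rfl, Bool.cond_pos (b := Nat.beq 3 3) rfl, fz_eq] at r1
    exact opEd_snd cx hcl i1 h hy hW (h.reg _ s1).1 (h.reg _ s1).2 s2 st r1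
  · rw [Bool.cond_neg (b := lt 4 4) rfl, Bool.cond_pos (b := Nat.beq 4 4) rfl] at r1
    exact opNb_snd cx hcl i1 h hy hW hz s1 s2 st r1
  · rw [Bool.cond_neg (b := lt 6 4) rfl, Bool.cond_neg (b := Nat.beq 6 4) rfl,
      Bool.cond_pos (b := Nat.beq 6 6) rfl] at r1
    exact opKer_snd cx hcl i1 h hy hW s1 st r1
  · rw [Bool.cond_neg (b := lt 5 4) rfl, Bool.cond_neg (b := Nat.beq 5 4) rfl,
      Bool.cond_neg (b := Nat.beq 5 6) rfl] at r1
    exact hcl n A B ph h.em r1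
theorem exec_snd {lv : ℕ} {cl : Cl} (cx : Cx G X lv) (hcl : Snd G X cl) (R W H : Finset V) (a b : V)
    (Sa : ℕ) (t : PT) : ExS G X R W H a b Sa t (exec cl (kql lv) Sa t) := by
  induction t with
  | nil => exact fun _ _ _ _ _ _ _ _ st _ => st.elim
  | cons c ch nx i1 i2 => exact cons_snd cx hcl i1 i2
theorem beqL_eq (l : List Bool) : ∀ m, beqL l m = true → l = m := by
  induction l with
  | nil =>
    intro m h
    cases m
    · rfl
    · cases h
  | cons b l ih =>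
    intro m h
    cases m with
    | nil => cases h
    | cons c m =>
      obtain ⟨h1, h2⟩ := Bool.and_eq_true_iff.1 (show ((bif b then c else !c) && beqL l m) = true from h)
      rw [ih m h2]
      cases b <;> cases c <;> first | rfl | cases h1
theorem dfr_snd {R W H : Finset V} {a b : V} {dc Sa : ℕ} {dt : ℕ → Ent} {T : PT} {pa : List Bool} {ex : Ex}
    (hd : ∀ i < dc, DS G X T (dt i)) (hex : ExS G X R W H a b Sa (sub T pa) ex) :
    ExS G X R W H a b Sa (sub T pa) (dfr dc dt Sa pa ex) := by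
  intro n A w B ph O wt h st r
  unfold dfr at r
  cases e : z0 (Nat.land B 1) <;> rw [e] at r
  · rw [cond_false, fz_eq] at r
    have c := (cond_ne r).1
    simp only [eqE, Bool.and_eq_true, lt_iff, Nat.beq_eq] at c
    obtain ⟨c0, ⟨⟨⟨⟨⟨⟨⟨⟨⟨c1, c2⟩, c3⟩, c4⟩, c5⟩, c6⟩, c7⟩, c8⟩, c9⟩, c10⟩, c11⟩ := c
    have d := hd _ c0 R W H a b ph O wt
    have e : (dt (fld B 1 4096)).w = w := by
      cases w
      generalize (dt (fld B 1 4096)).w = v at *
      cases v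
      simp_all
    rw [c1, c2, c3, e, beqL_eq _ _ c11] at d
    exact d h st
  · exact hex _ _ _ _ _ _ _ h st r
theorem exq_snd {lv : ℕ} {cl : Cl} (cx : Cx G X lv) (hcl : Snd G X cl) (R W H : Finset V) (a b : V)
    {dc : ℕ} {dt : ℕ → Ent} {T : PT} (hd : ∀ i < dc, DS G X T (dt i)) (Sa : ℕ) (t : PT) :
    ∀ pa, sub T pa = t → ExS G X R W H a b Sa t (exq cl dc dt (kql lv) Sa t pa) := by
  induction t with
  | nil => exact fun _ _ _ _ _ _ _ _ _ _ st _ => st.elim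
  | cons c ch nx i1 i2 =>
    intro pa e
    have e1 : sub T (false :: pa) = ch := by
      show PT.rec (motive := fun _ => PT) .nil (fun _ ch nx _ _ => bif false then nx else ch) (sub T pa) = ch
      rw [e]
      rfl
    have e2 : sub T (true :: pa) = nx := by
      show PT.rec (motive := fun _ => PT) .nil (fun _ ch nx _ _ => bif true then nx else ch) (sub T pa) = nx
      rw [e]
      rfl
    have k := i1 _ e1
    subst e1
    exact cons_snd cx hcl (dfr_snd hd k) (i2 _ e2)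
theorem exP_snd {lv : ℕ} {cl : Cl} (cx : Cx G X lv) (hcl : Snd G X cl) {P : Prog}
    (hd : ∀ i < P.dc, DS G X P.t (P.dt i)) (R W H : Finset V) (a b : V) (Sa : ℕ) :
    ExS G X R W H a b Sa P.t (exP cl (kql lv) Sa P) := by
  unfold exP
  cases z0 P.dc
  · exact exq_snd cx hcl R W H a b hd Sa P.t [] rfl
  · exact exec_snd cx hcl R W H a b Sa P.t
/-- start of the program at the port `y`, whose neighbour outside `W` is the known vertex `u` -/
theorem beg_snd {lv : ℕ} (cx : Cx G X lv) {R W H O : Finset V} {a b : V} {Sa n A B NW y u s df : ℕ}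
    {ph : ℕ → V} {wt : V → ℕ} {t : PT} {ex : Ex} (hex : ExS G X R W H a b Sa t ex) (h : Em G X n A ph)
    (ho : Hold G X R H Sa n ph) (w : Wit G R W H a b) (hO : O ⊆ (Outs G X W).erase (ph y))
    (hW : ph y ∈ W) (hu : tb (row A y) u = true) (hN : tb NW u = true)
    (hS : ∀ j, tb Sa j = true → tb NW j = true)
    (nw : ∀ j, tb NW j = true → j < n ∧ ph j ∉ W ∧ (tb Sa j = true ∨ ∀ v ∈ O, ¬ G.Adj v (ph j)))
    (wts : Wt G X R W H a b df O wt) (sum : ∑ v ∈ O, wt v ≤ s)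
    (st : ∀ ro : ℕ → V, ro 0 = ph y → Sat G X W t ro 1 O)
    (r : beg ex n NW y (two u) s df A B ≠ 0) : TG G X := by
  obtain ⟨hy, hu', au⟩ := h.adj _ _ hu
  have sub : W ⊆ X := (w.sub.trans ho.subH).trans ho.subR
  have un : ∀ z, z ∉ W → G.Adj (ph y) z → z = ph u := fun z hz az =>
    out_unique (fun v hv => cx.cub v (sub hv)) w.two hW hz (nw u hN).2.1 az au
  have k : Ker G X (ph y) := fun z az => by
    by_cases hz : z ∈ W
    · exact sub hz
    · exact un z hz az ▸ h.mem u hu'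
  have e1 : tb (mT A) y = false := Bool.eq_false_iff.2 fun e => not_stub_ker (h.stub y e).2 k
  have e2 : Nat.land (row A y) NW = two u := Nat.eq_of_testBit_eq fun j => by
    rw [← tb_eq, ← tb_eq, Bool.eq_iff_iff, tb_and, tb_two]
    exact ⟨fun ⟨j1, j2⟩ => h.inj j (nw j j2).1 u hu' (un _ (nw j j2).2.1 (h.adj _ _ j1).2.2),
      fun e => e ▸ ⟨hu, hN⟩⟩
  have e3 : cv y 0 = y := Nat.mod_eq_of_lt (hy.trans_le (h.le.trans (by norm_num)))
  simp only [beg, e1, e2, Nat.beq_refl, Bool.not_false, Bool.and_self, cond_true, fz_eq] at r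
  refine hex n _ _ B ph O wt ⟨h.skr' hy k, ho, w, hO.trans (Finset.erase_subset _ _), nw, hS,
    fun j hj => ⟨0, one_pos, e3.trans ((tb_two _ _).1 hj).symm⟩, fun q hq => ?_,
    hy.trans_le (h.le.trans (by norm_num)), wts, sum, fun j hj => by simp at hj⟩
    (st (fun r => ph (cv y r)) (congrArg ph e3)) r
  obtain rfl : q = 0 := Nat.lt_one_iff.1 hq
  exact e3.symm ▸ ⟨hy, hW⟩
/-- the witness: an isolated vertex or a block with weights -/
def Wcase (G : SimpleGraph V) (X R H : Finset V) (P : Prog) (L b0 df : ℕ) : Prop :=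
  (∃ v, H = {v} ∧ Iso G R v ∧ Sc.out G X R v ≤ L) ∨
  ∃ W a b wt, Wit G R W H a b ∧ Wt G X R W H a b df (Outs G X W) wt ∧ ∑ y ∈ Outs G X W, wt y ≤ b0 ∧
    ∀ y ∈ Outs G X W, ∃ O ⊆ (Outs G X W).erase y, P.r0 ≤ O.card ∧
      ∀ ro : ℕ → V, ro 0 = y → Sat G X W P.t ro 1 O
theorem atx_cond (c : Bool) (K : Bool → ℕ) :
    cond c (fun k : Bool → ℕ => k true) (fun k => k false) K = K c := by
  cases c <;> rfl

theorem atx_sum {R W H O : Finset V} {a b y : V} {df b0 : ℕ} {wt : V → ℕ}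
    (wts : Wt G X R W H a b df (Outs G X W) wt) (sum : ∑ v ∈ Outs G X W, wt v ≤ b0)
    (hy : y ∈ Outs G X W) (hO : O ⊆ (Outs G X W).erase y) :
    Wt G X R W H a b df O wt ∧ O.card ≤ ∑ v ∈ O, wt v ∧ ∑ v ∈ O, wt v + wt y ≤ b0 := by
  have h1 := hO.trans (Finset.erase_subset _ _)
  refine ⟨⟨fun v hv => wts.one v (h1 hv), fun v hv => wts.leaf v (h1 hv), fun hv => wts.free (h1 hv)⟩,
    ?_, ?_⟩
  · rw [Finset.card_eq_sum_ones]
    exact Finset.sum_le_sum fun v hv => wts.one v (h1 hv)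
  · rw [← Finset.sum_erase_add _ _ hy] at sum
    exact (Nat.add_le_add_right (Finset.sum_le_sum_of_subset hO) _).trans sum

/-- a known neighbour of `H` outside `R` lies in `Sa` -/
theorem atx_sa {R H : Finset V} {Sa n A j : ℕ} {ph : ℕ → V} (h : Em G X n A ph)
    (ho : Hold G X R H Sa n ph) (hj : j < n) (hR : ph j ∉ R) {v : V} (hv : v ∈ H)
    (ad : G.Adj v (ph j)) : tb Sa j = true := by
  obtain ⟨i, hi, e⟩ := ho.hold v hv _ (h.mem j hj) hR ad
  rwa [h.inj j hj i (ho.sa i hi).1 e]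

theorem atx_nw {R W H O : Finset V} {a b p : V} {Sa n A NW : ℕ} {ph : ℕ → V} (h : Em G X n A ph)
    (ho : Hold G X R H Sa n ph) (w : Wit G R W H a b) (hO : O ⊆ (Outs G X W).erase p)
    (hN : ∀ j, tb NW j = true → j < n ∧ ph j ∉ R) (j : ℕ) (hj : tb NW j = true) :
    j < n ∧ ph j ∉ W ∧ (tb Sa j = true ∨ ∀ v ∈ O, ¬ G.Adj v (ph j)) :=
  ⟨(hN j hj).1, fun e => (hN j hj).2 (w.subX (w.sub e)), or_iff_not_imp_left.2 fun e _ hv ad =>
    e (atx_sa h ho (hN j hj).1 (hN j hj).2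
      (w.sub (Finset.mem_filter.1 (Finset.mem_of_mem_erase (hO hv))).1) ad)⟩

/-- the leaf `x` with the known parent `y` -/
theorem atx_leaf {lv : ℕ} {cl : Cl} (cx : Cx G X lv) (hcl : Snd G X cl) {R W H O : Finset V} {a b : V}
    {Sa n A B NW b0 df x y : ℕ} {okK : Bool} {ph : ℕ → V} {wt : V → ℕ} {t : PT} {ex : Ex}
    (hex : ExS G X R W H a b Sa t ex) (h : Em G X n A ph) (ho : Hold G X R H Sa n ph)
    (hN : ∀ j, tb NW j = true → j < n ∧ ph j ∉ R) (hS : ∀ j, tb Sa j = true → tb NW j = true)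
    (w : Wit G R W H a b) (wts : Wt G X R W H a b df (Outs G X W) wt)
    (sum : ∑ v ∈ Outs G X W, wt v ≤ b0) (hH : ph x ∈ H) (hW : ph x ∉ W) (hy : ph y ∈ Outs G X W)
    (lea : Leaf G R (ph x) (ph y)) (hO : O ⊆ (Outs G X W).erase (ph y))
    (st : ∀ ro : ℕ → V, ro 0 = ph y → Sat G X W t ro 1 O) (hk : okK = false → Stub G X (ph x))
    (hxy : tb (row A x) y = true)
    (r : lf cl (kql lv) Sa n x (two y) okK (prt (kql lv) ex NW b0 df x n y) A B ≠ 0) : TG G X := by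
  have hx := (h.adj x y hxy).1
  obtain ⟨w1, -, w3⟩ := atx_sum wts sum hy hO
  rcases lf_snd cx hcl h ho hx hH (fun z hz ad => ⟨y, (tb_two _ _).2 rfl, hxy, lea.2.2.2 z hz ad⟩)
    hk r with g | ⟨A', B', h', gr, r'⟩
  · exact g
  refine beg_snd cx hex h' ho w hO (Finset.mem_filter.1 hy).1 (h'.sym _ _ (gr.1 _ _ hxy))
    ((tb_or _ _ _).2 (Or.inr ((tb_two _ _).2 rfl))) (fun j hj => (tb_or _ _ _).2 (Or.inl (hS j hj)))
    (fun j hj => ?_) w1 ?_ st r'
  · rcases (tb_or _ _ _).1 hj with hj | hj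
    · exact atx_nw h ho w hO hN j hj
    · rw [(tb_two _ _).1 hj]
      refine ⟨hx, hW, Or.inr fun v hv ad => ?_⟩
      have hv' := Finset.mem_erase.1 (hO hv)
      exact hv'.1 (lea.2.2.2 v (w.subX (w.sub (Finset.mem_filter.1 hv'.2).1)) ad.symm)
  · have h1 := wts.one _ hy
    rw [bt_eq]
    simp only [Nat.sub_eq]
    split_ifs with e
    · have := wts.leaf _ hy _ hH hW lea.2.2.1.symm (h'.ker' cx hx e)
      omega
    · omega

/-- `x` is in `H` and adjacent to `t` in `Sa`: isolated, a port of the block, or a leaf -/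
theorem atx_snd {lv : ℕ} {cl : Cl} (cx : Cx G X lv) (hcl : Snd G X cl) {R H : Finset V} {P : Prog}
    (hd : ∀ i < P.dc, DS G X P.t (P.dt i)) {Sa n A B NW L b0 df t x : ℕ} {ph : ℕ → V} (h : Em G X n A ph) (ho : Hold G X R H Sa n ph)
    (hN : ∀ j, tb NW j = true → j < n ∧ ph j ∉ R) (hS : ∀ j, tb Sa j = true → tb NW j = true)
    (wc : Wcase G X R H P L b0 df) (ht : tb Sa t = true) (hx : tb (row A x) t = true) (hH : ph x ∈ H)
    (r : atx cl (kql lv) Sa (exP cl (kql lv) Sa P) NW L b0 df P.r0 t n x A B ≠ 0) : TG G X := by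
  obtain ⟨xn, tn, ad⟩ := h.adj x t hx
  have tR := (ho.sa t ht).2
  obtain ⟨r0, r⟩ := sq_ne r
  rcases wc with ⟨v, rfl, iso, hL⟩ | ⟨W, a, b, wt, w, wts, sum, prog⟩
  · rw [← Finset.mem_singleton.1 hH] at iso hL
    obtain ⟨m2, m3⟩ := iso_marks cx.cub cx.two ho.subR iso
    rw [Nat.ble_eq_true_of_le (m2.trans hL), cond_true] at r0
    rcases lf_snd cx hcl h ho xn hH (fun z hz ad' => absurd ad' (iso.2 z hz))
      (fun e => (stub_or_ker _).resolve_right fun k => by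
        rw [Nat.ble_eq_true_of_le ((m3 k).trans hL)] at e
        cases e) r0 with g | ⟨A', B', h', -, r'⟩
    · exact g
    · exact hcl _ _ _ _ h' r'
  have hex := exP_snd cx hcl hd R W H a b Sa
  by_cases hW : ph x ∈ W
  · have hy : ph x ∈ Outs G X W := Finset.mem_filter.2
      ⟨hW, _, h.mem t tn, fun e => tR (w.subX (w.sub e)), ad⟩
    obtain ⟨O, hO, c, st⟩ := prog _ hy
    obtain ⟨w1, w2, w3⟩ := atx_sum wts sum hy hO
    have h1 := wts.one _ hy
    rw [(lt_iff P.r0 b0).2 (by omega), cond_true] at r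
    exact beg_snd cx hex h ho w hO hW hx (hS t ht) hS (atx_nw h ho w hO hN) w1
      (by rw [Nat.sub_eq]; omega) st (sq_ne r).1
  obtain ⟨p, pW, lea⟩ := w.leaf _ hH hW
  have hy : p ∈ Outs G X W := Finset.mem_filter.2 ⟨pW, _, h.mem x xn, hW, lea.2.2.1.symm⟩
  obtain ⟨O, hO, c, st⟩ := prog _ hy
  obtain ⟨-, w2, w3⟩ := atx_sum wts sum hy hO
  have h1 := wts.one _ hy
  rw [(lt_iff P.r0 b0).2 (by omega), cond_true] at r
  replace r := (sq_ne r).2
  have hk : lt (Nat.succ P.r0) b0 = false → Stub G X (ph x) := fun e =>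
    (stub_or_ker _).resolve_right fun k => by
      have := wts.leaf _ hy _ hH hW lea.2.2.1.symm k
      rw [(lt_iff _ _).2 (by omega)] at e
      cases e
  simp only [atx_cond, fz_eq] at r
  by_cases kn : dif (row A x) NW = 0
  swap
  · rw [(nz_iff _).2 kn, cond_true] at r
    obtain ⟨j, hj⟩ := exists_tb kn
    obtain ⟨j1, j2⟩ := (tb_dif _ _ _).1 hj
    obtain ⟨-, jn, adj⟩ := h.adj x j j1
    obtain rfl := lea.2.2.2 _ (not_not.1 fun e => j2 (hS j (atx_sa h ho jn e hH adj))) adj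
    obtain ⟨B', r'⟩ := bl_ne r hj
    exact atx_leaf cx hcl hex h ho hN hS w wts sum hH hW hy lea hO st hk j1 r'
  have nk : ∀ j, tb (row A x) j = true → ph j ≠ p := fun j hj e =>
    (hN j (dif_zero kn hj)).2 (e ▸ lea.2.1)
  have nf : ¬ tb (ful A) x = true := fun f => by
    rcases (h.full cx.cub f).2 p lea.2.2.1 with ⟨j, hj, e⟩ | ⟨e, -⟩
    · exact nk j hj e.symm
    · exact e (ho.subR lea.2.1)
  rw [Bool.eq_false_iff.2 fun e => (nz_iff _).1 e kn, cond_false, Bool.eq_false_iff.2 nf,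
    cond_false] at r
  obtain ⟨r1, r2⟩ := sq_ne r
  by_cases old : ∃ j < n, ph j = p
  · obtain ⟨j, jn, rfl⟩ := old
    have nw : ¬ tb (row A x) j = true := fun e => nk j e rfl
    obtain ⟨B', r'⟩ := bl_ne r1 (j := j) ((tb_dif _ _ _).2
      ⟨(h.opn_of cx.cub xn jn lea.2.2.1 nw).1, fun e => ((tb_or _ _ _).1 e).elim
        (fun e => (hN j e).2 lea.2.1) fun e => lea.2.2.1.ne (by rw [(tb_two _ _).1 e])⟩)
    have h' := h.edge' xn jn lea.2.2.1 nw
    rcases cp_snd hcl h' r' with g | ⟨B'', r''⟩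
    · exact g
    exact atx_leaf cx hcl hex h' ho hN hS w wts sum hH hW hy lea hO st hk
      ((row_edge (by have := h.le; omega) (by have := h.le; omega) _ _).2 (Or.inr (Or.inl ⟨rfl, rfl⟩)))
      r''
  obtain ⟨c1, c2⟩ := cond_ne r2
  have n62 := (lt_iff _ _).1 c1
  obtain ⟨h', e⟩ := h.new n62 xn (ho.subR lea.2.1) (fun j jn e => old ⟨j, jn, e⟩) lea.2.2.1
  have ex := e.2 x xn
  have en : Function.update ph n p n = p := Function.update_self ..
  rcases cp_snd hcl h' c2 with g | ⟨B', r'⟩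
  · exact g
  refine atx_leaf (O := O) cx hcl hex h' (ho.ext e) (fun j hj => ?_) hS w wts sum (ex ▸ hH) (ex ▸ hW)
    (en.symm ▸ hy) (by rw [ex, en]; exact lea) (by rw [en]; exact hO) (by rw [en]; exact st)
    (by rw [ex]; exact hk)
    ((row_edge (by omega) (by omega) _ _).2 (Or.inr (Or.inl ⟨rfl, rfl⟩))) r'
  rw [e.2 j (hN j hj).1]
  exact ⟨Nat.lt_succ_of_lt (hN j hj).1, (hN j hj).2⟩

end Pool.Agent.Hom2.UC
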