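import Pool.Agent.Lib.MP_7e4769_co.Hc.UWit4

set_option autoImplicit false

namespace Pool.Agent.Hom2.UC

open Classical

variable {V : Type} {G : SimpleGraph V} {X : Finset V}

theorem w5_min (a b : ℕ) : (bif Nat.ble a b then a else b) = min a b := by
  cases e : Nat.ble a b
  · exact (min_eq_right ((ble_false _ _).1 e).le).symm
  · exact (min_eq_left (Nat.le_of_ble_eq_true e)).symm

theorem w5_case {lv : ℕ} (cx : Cx G X lv) {R H : Finset V} {P : Prog} (hP : ProgOK G X P)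
    (hk : P.keep = 0) (hR : R ⊆ X) (tw : Two X R) {L b0 df : ℕ} (hdf : 1 ≤ df) (hL : L ≤ b0)
    (hb : b0 ≤ P.SM) (h1 : ∑ x ∈ H, Sc.out G X R x ≤ L)
    (wc : (∃ v, H = {v} ∧ Iso G R v) ∨ ∃ W a b, Wit G R W H a b ∧
      (a ∈ H → b ∈ R → b ∉ H → G.Adj a b → ∑ x ∈ H, Sc.out G X R x + df ≤ b0)) :
    TG G X ∨ (Wcase G X R H P L b0 df ∧ (2 ≤ L ∨ P.r0 < b0)) := by
  rcases wc with ⟨v, rfl, hv⟩ | ⟨W, a, b, w, hw⟩
  · rw [Finset.sum_singleton] at h1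
    exact .inr ⟨.inl ⟨v, rfl, hv, h1⟩, .inl ((iso_marks cx.cub cx.two hR hv).1.trans h1)⟩
  obtain ⟨wt, w1, w2⟩ := wt_exists cx.cub cx.two hR w hdf (h1.trans hL) hw
  have c : (Outs G X W).card ≤ b0 :=
    le_trans (by simpa using Finset.card_nsmul_le_sum _ wt 1 w1.one) w2
  have hW := w.sub.trans w.subX
  obtain ⟨s, s1, u, u1, s2, u2, su⟩ := tw
  rcases hP.1 W (hW.trans hR) w.two w.badW ⟨s, s1, u, u1, fun e => s2 (hW e), fun e => u2 (hW e), su⟩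
    (c.trans hb) with g | ⟨m, -, g, -⟩ | g
  · exact .inl g
  · rw [hk, tb_zero] at g
    exact absurd g Bool.false_ne_true
  · refine .inr ⟨.inr ⟨W, a, b, wt, w, w1, w2, g⟩, .inr ?_⟩
    obtain ⟨x, x1, y, y1, y2, xy⟩ := cx.two.conn W (hW.trans hR) w.two.nonempty
      fun e => s2 (hW (e ▸ s1))
    have hx : x ∈ Outs G X W := Finset.mem_filter.2 ⟨x1, y, y1, y2, xy⟩
    obtain ⟨O, o1, o2, -⟩ := g x hx
    exact ((o2.trans (Finset.card_le_card o1)).trans_lt (Finset.card_erase_lt_of_mem hx)).trans_le c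

theorem start_snd {lv : ℕ} {cl : Cl} (cx : Cx G X lv) (hcl : Snd G X cl) {R H : Finset V} {P : Prog}
    (hP : ProgOK G X P) (hk : P.keep = 0) {Sa n A B NW me lvs t : ℕ} {ph : ℕ → V} (h : Em G X n A ph)
    (ho : Hold G X R H Sa n ph) (tw : Two X R)
    (hN : ∀ j, tb NW j = true → j < n ∧ ph j ∉ R) (hS : ∀ j, tb Sa j = true → tb NW j = true)
    (ht : tb Sa t = true) (hx : ∃ x ∈ H, G.Adj (ph t) x)
    (h1 : ∑ x ∈ H, Sc.out G X R x ≤ me) (h2 : ∑ x ∈ H, Sc.out G X R x ≤ lvs)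
    (wc : (∃ v, H = {v} ∧ Iso G R v) ∨ ∃ W a b, Wit G R W H a b ∧
      (a ∈ H → b ∈ R → b ∉ H → G.Adj a b → 2 * ∑ x ∈ H, Sc.out G X R x ≤ me))
    (r : start cl (kql lv) P n A NW me Sa lvs t B ≠ 0) : TG G X := by
  simp only [start, fz_eq, w5_min] at r
  obtain ⟨L, eL⟩ : ∃ L, L = min me lvs := ⟨_, rfl⟩
  obtain ⟨hf, ef⟩ : ∃ hf, hf = min L (Nat.div me 2) := ⟨_, rfl⟩
  rw [← eL, ← ef] at r
  obtain ⟨b0, eb⟩ : ∃ b0, b0 = bif Nat.ble L hf then Nat.succ hf else L := ⟨_, rfl⟩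
  rw [← eb] at r
  have k : L ≤ b0 ∧ hf < b0 := by
    cases e : Nat.ble L hf <;> rw [e] at eb
    · have := (ble_false _ _).1 e
      replace eb : b0 = L := eb
      omega
    · have := Nat.le_of_ble_eq_true e
      replace eb : b0 = hf + 1 := eb
      omega
  replace ef : hf = min L (me / 2) := ef
  obtain ⟨c, r⟩ := cond_ne r
  rcases w5_case cx hP hk ho.subR tw (L := L) (b0 := b0) (df := b0 - hf) (by omega) k.1
    (Nat.le_of_ble_eq_true c) (by omega) (wc.imp_right fun ⟨W, a, b, w, g⟩ =>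
      ⟨W, a, b, w, fun a1 a2 a3 a4 => by have := g a1 a2 a3 a4; omega⟩) with g | ⟨wc, g⟩
  · exact g
  have e : (lt L 2 && Nat.ble b0 P.r0) = false := by
    rw [Bool.and_eq_false_iff, lt_false, ble_false]
    exact g
  rw [e, cond_false] at r
  obtain ⟨x, xH, ad⟩ := hx
  have tn := (ho.sa t ht).1
  have xR := ho.subH xH
  have nN : ∀ j, ph j = x → ¬ tb NW j = true := fun j e g => (hN j g).2 (e ▸ xR)
  obtain ⟨r1, r⟩ := sq_ne r
  by_cases k1 : ∃ j, tb (row A t) j = true ∧ x = ph j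
  · obtain ⟨j, j1, rfl⟩ := k1
    obtain ⟨B', g⟩ := bl_ne r1 ((tb_dif _ _ _).2 ⟨j1, nN j rfl⟩)
    exact atx_snd cx hcl hP.2 h ho hN hS wc ht (h.sym _ _ j1) xH g
  have nf : tb (ful A) t = false := by
    by_contra f
    rcases (h.full cx.cub (by simpa using f)).2 x ad with g | g
    · exact k1 g
    · exact g.1 (ho.subR xR)
  rw [nf, cond_false] at r
  obtain ⟨r2, r⟩ := sq_ne r
  have le := h.le
  by_cases k2 : ∃ j < n, ph j = x
  · obtain ⟨j, j1, rfl⟩ := k2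
    have nw : ¬ tb (row A t) j = true := fun g => k1 ⟨j, g, rfl⟩
    obtain ⟨B', g⟩ := bl_ne r2 ((tb_dif _ _ _).2 ⟨(h.opn_of cx.cub tn j1 ad nw).1,
      fun g => ((tb_or _ _ _).1 g).elim (nN j rfl) nw⟩)
    have em := h.edge' tn j1 ad nw
    rcases cp_snd hcl em g with g | ⟨B'', g⟩
    · exact g
    · exact atx_snd cx hcl hP.2 em ho hN hS wc ht
        ((row_edge (by omega) (by omega) _ _).2 (.inr (.inr ⟨rfl, rfl⟩))) xH g
  · obtain ⟨c, r⟩ := cond_ne r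
    rw [lt_iff] at c
    obtain ⟨em, ex⟩ := h.new c tn (ho.subR xR) (fun j j1 e => k2 ⟨j, j1, e⟩) ad
    rcases cp_snd hcl em r with g | ⟨B'', g⟩
    · exact g
    · exact atx_snd cx hcl hP.2 em (ho.ext ex)
        (fun j g => ⟨by have := (hN j g).1; omega, by rw [ex.2 j (hN j g).1]; exact (hN j g).2⟩) hS wc ht
        ((row_edge (by omega) (by omega) _ _).2 (.inr (.inr ⟨rfl, rfl⟩)))
        (by rwa [Function.update_self]) g
/-- `lemW_half` with the marks as weights; take the last entry of the list that touches `H` (`Wit.touch`,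
`iso_marks`); bounds from `sum_out_le`, `Em.rr_le`, `smL_eq` -/
theorem wit_snd {lv : ℕ} {cl : Cl} (cx : Cx G X lv) (hcl : Snd G X cl) {R : Finset V} {P : Prog}
    (hP : ProgOK G X P) {n A B NW cap c Lq : ℕ} {ph : ℕ → V} (h : Em G X n A ph) (hR : R ⊆ X) (tw : Two X R)
    (hb : ¬ Good G R) (hN : ∀ j, tb NW j = true → j < n ∧ ph j ∉ R)
    (hL : ∀ x ∈ R, ∀ z ∈ X, z ∉ R → G.Adj x z → ∃ i < c, z = ph (cv Lq i))
    (hc : ∑ x ∈ R, Sc.out G X R x ≤ cap) (r : wit cl (kql lv) P n A NW cap c Lq B ≠ 0) : TG G X := by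
  simp only [wit, fz_eq, w5_min] at r
  obtain ⟨k, r⟩ := cond_ne r
  rw [Bool.and_eq_true, z0_iff, z0_iff] at k
  have mN : ∀ i < c, tb NW (cv Lq i) = true := fun i hi =>
    dif_zero k.1 ((tb_mkL _ _ _).2 ⟨i, hi, rfl⟩)
  have bd : ∀ Y ⊆ R, ∀ c' ≤ c, (∀ x ∈ Y, ∀ z ∈ X, z ∉ R → G.Adj x z → ∃ i < c', z = ph (cv Lq i)) →
      ∑ x ∈ Y, Sc.out G X R x ≤ smL A NW Lq c' := fun Y hY c' hc' g => by
    rw [smL_eq]
    refine (sum_out_le _ _ g).trans (Finset.sum_le_sum fun i hi => ?_)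
    exact h.rr_le cx.cub (hN _ (mN i ((Finset.mem_range.1 hi).trans_le hc'))).1 Y (hY.trans hR)
      fun j _ g e => (hN j g).2 (hY e)
  have me := le_min hc (bd R subset_rfl c le_rfl hL)
  have ne : R ≠ X := by
    obtain ⟨s, s1, -, -, s2, -⟩ := tw
    exact fun e => s2 (e ▸ s1)
  have key : ∀ H ⊆ R, (∃ x ∈ H, ∃ z ∈ X, z ∉ R ∧ G.Adj x z) →
      ((∃ v, H = {v} ∧ Iso G R v) ∨ ∃ W a b, Wit G R W H a b ∧ (a ∈ H → b ∈ R → b ∉ H → G.Adj a b →
        2 * ∑ x ∈ H, Sc.out G X R x ≤ min cap (smL A NW Lq c))) → TG G X := by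
    rintro H hH ⟨x, x1, z, z1, z2, xz⟩ wc
    obtain ⟨i0, i1, rfl⟩ := hL x (hH x1) z z1 z2 xz
    obtain ⟨i, hi, mx⟩ := ((Finset.range c).filter fun i => ∃ x ∈ H, G.Adj (ph (cv Lq i)) x).exists_max_image
      id ⟨i0, Finset.mem_filter.2 ⟨Finset.mem_range.2 i1, x, x1, xz.symm⟩⟩
    rw [Finset.mem_filter, Finset.mem_range] at hi
    have g : ∀ x ∈ H, ∀ z ∈ X, z ∉ R → G.Adj x z → ∃ i' < i + 1, z = ph (cv Lq i') := by
      intro x x1 z z1 z2 xz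
      obtain ⟨i', i2, rfl⟩ := hL x (hH x1) z z1 z2 xz
      exact ⟨i', Nat.lt_succ_of_le (mx i' (Finset.mem_filter.2
        ⟨Finset.mem_range.2 i2, x, x1, xz.symm⟩)), rfl⟩
    have hS : ∀ j, tb (mkL Lq (i + 1)) j = true → tb NW j = true := fun j e => by
      obtain ⟨i', i2, rfl⟩ := (tb_mkL _ _ _).1 e
      exact mN i' (by omega)
    obtain ⟨B', r⟩ := thr_ne r i hi.1
    refine start_snd cx hcl hP k.2 h ⟨hH, hR, fun j e => hN j (hS j e), fun x x1 z z1 z2 xz => ?_⟩ tw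
      hN hS ((tb_mkL _ _ _).2 ⟨i, i.lt_succ_self, rfl⟩) hi.2
      ((Finset.sum_le_sum_of_subset hH).trans me) (bd H hH _ hi.1 g) wc r
    obtain ⟨i', i2, e⟩ := g x x1 z z1 z2 xz
    exact ⟨_, (tb_mkL _ _ _).2 ⟨i', i2, rfl⟩, e⟩
  rcases lemW_half (cx.cub.mono hR) (cx.hf R hR ne) hb (Sc.out G X R) with ⟨v, hv⟩ | ⟨W, H, a, b, w, g⟩
  · obtain ⟨z, hz⟩ := Finset.card_pos.1 (two_pos.trans_le (iso_marks cx.cub cx.two hR hv).1)
    rw [Finset.mem_filter] at hz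
    exact key {v} (Finset.singleton_subset_iff.2 hv.1) ⟨v, Finset.mem_singleton_self v, z, hz⟩
      (.inl ⟨v, rfl, hv⟩)
  · exact key H w.subX (w.touch cx.two hR ne)
      (.inr ⟨W, a, b, w, fun a1 a2 a3 a4 => (g a1 a2 a3 a4).trans me⟩)

end Pool.Agent.Hom2.UC
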