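import Pool.Agent.Lib.MP_7e4769_co.Hc.UDb

set_option autoImplicit false
set_option maxRecDepth 100000

namespace Pool.Agent.Hom2.UC

def Uxp0n18 : PT := (.cons (nat_lit 772) (.cons (nat_lit 902) (.cons (nat_lit 900) (.cons (nat_lit 1025) (.cons (nat_lit 1028) (.cons (nat_lit 1158) (.cons (nat_lit 1156) (.cons (nat_lit 1286) (.cons (nat_lit 1284) (.cons (nat_lit 1409) (.cons (nat_lit 58755) (.cons (nat_lit 1284) (.cons (nat_lit 1542) (.cons (nat_lit 75267) (.cons (nat_lit 1540) (.cons (nat_lit 1670) (.cons (nat_lit 1667) (.cons (nat_lit 42627) (.cons (nat_lit 5) .nil .nil) .nil) .nil) .nil) .nil) .nil) .nil) .nil) .nil) .nil) .nil) .nil) .nil) .nil) .nil) .nil) .nil) .nil) .nil)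
def Uxp0n24 : PT := (.cons (nat_lit 1412) (.cons (nat_lit 1542) (.cons (nat_lit 83459) (.cons (nat_lit 1540) (.cons (nat_lit 1665) (.cons (nat_lit 67203) (.cons (nat_lit 5) .nil .nil) .nil) .nil) .nil) .nil) .nil) .nil)
def Uxp0n35 : PT := (.cons (nat_lit 772) (.cons (nat_lit 897) (.cons (nat_lit 900) (.cons (nat_lit 1030) (.cons (nat_lit 1028) (.cons (nat_lit 1153) (.cons (nat_lit 1156) (.cons (nat_lit 1286) (.cons (nat_lit 1284) (.cons (nat_lit 1414) (.cons (nat_lit 42371) Uxp0n24 .nil) .nil) .nil) .nil) .nil) .nil) .nil) .nil) .nil) .nil) .nil)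
def Uxp0n38 : PT := (.cons (nat_lit 1412) (.cons (nat_lit 1537) (.cons (nat_lit 1539) (.cons (nat_lit 5) .nil .nil) .nil) .nil) .nil)
def Uxp0n58 : PT := (.cons (nat_lit 899) (.cons (nat_lit 900) (.cons (nat_lit 1030) (.cons (nat_lit 1028) (.cons (nat_lit 1158) (.cons (nat_lit 42115) (.cons (nat_lit 1156) (.cons (nat_lit 1286) (.cons (nat_lit 50435) (.cons (nat_lit 66819) (.cons (nat_lit 5) .nil .nil) .nil) .nil) .nil) .nil) .nil) .nil) .nil) .nil) .nil) .nil)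
def Uxp0n74 : PT := (.cons (nat_lit 771) Uxp0n35 (.cons (nat_lit 772) (.cons (nat_lit 902) (.cons (nat_lit 41859) (.cons (nat_lit 900) (.cons (nat_lit 1030) (.cons (nat_lit 1028) (.cons (nat_lit 1153) (.cons (nat_lit 1156) (.cons (nat_lit 1286) (.cons (nat_lit 50435) (.cons (nat_lit 1284) (.cons (nat_lit 1414) (.cons (nat_lit 66947) Uxp0n38 .nil) .nil) .nil) .nil) .nil) .nil) .nil) .nil) .nil) .nil) Uxp0n58) (.cons (nat_lit 897) (.cons (nat_lit 900) (.cons (nat_lit 1030) (.cons (nat_lit 41987) (.cons (nat_lit 1028) (.cons (nat_lit 1158) (.cons (nat_lit 1156) (.cons (nat_lit 1286) (.cons (nat_lit 50435) (.cons (nat_lit 1284) (.cons (nat_lit 1414) (.cons (nat_lit 75139) Uxp0n38 .nil) .nil) .nil) .nil) .nil) .nil) .nil) .nil) .nil) .nil) .nil) .nil)) .nil))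
def Uxp0n89 : PT := (.cons (nat_lit 900) (.cons (nat_lit 1030) (.cons (nat_lit 1028) (.cons (nat_lit 1153) (.cons (nat_lit 1156) (.cons (nat_lit 1286) (.cons (nat_lit 1284) (.cons (nat_lit 1414) (.cons (nat_lit 34179) Uxp0n24 .nil) .nil) .nil) .nil) .nil) .nil) .nil) .nil) .nil)
def Uxp0n94 : PT := (.cons (nat_lit 1156) (.cons (nat_lit 1286) (.cons (nat_lit 42243) (.cons (nat_lit 66819) (.cons (nat_lit 5) .nil .nil) .nil) .nil) .nil) .nil)
def Uxp0n102 : PT := (.cons (nat_lit 772) (.cons (nat_lit 902) (.cons (nat_lit 33667) (.cons (nat_lit 900) (.cons (nat_lit 1030) (.cons (nat_lit 1028) (.cons (nat_lit 1158) (.cons (nat_lit 1155) Uxp0n94 .nil) .nil) .nil) .nil) .nil) .nil) .nil) .nil)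
def Uxp0n110 : PT := (.cons (nat_lit 1028) (.cons (nat_lit 1158) (.cons (nat_lit 42115) (.cons (nat_lit 1156) (.cons (nat_lit 1286) (.cons (nat_lit 1283) (.cons (nat_lit 58627) (.cons (nat_lit 5) .nil .nil) .nil) .nil) .nil) .nil) .nil) .nil) .nil)
def Uxp0n114 : PT := (.cons (nat_lit 772) (.cons (nat_lit 902) (.cons (nat_lit 900) (.cons (nat_lit 1025) Uxp0n110 .nil) .nil) .nil) .nil)
def Uxp0n119 : PT := (.cons (nat_lit 772) (.cons (nat_lit 1030) (.cons (nat_lit 1028) (.cons (nat_lit 1158) (.cons (nat_lit 33923) Uxp0n94 .nil) .nil) .nil) .nil) .nil)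
def Uxp0n129 : PT := (.cons (nat_lit 1540) (.cons (nat_lit 1665) (.cons (nat_lit 1667) (.cons (nat_lit 5) .nil .nil) .nil) .nil) .nil)
def Uxp0n136 : PT := (.cons (nat_lit 50435) (.cons (nat_lit 1156) (.cons (nat_lit 1414) (.cons (nat_lit 66947) (.cons (nat_lit 1412) (.cons (nat_lit 1542) (.cons (nat_lit 34307) Uxp0n129 .nil) .nil) .nil) .nil) .nil) .nil) .nil)
def Uxp0n145 : PT := (.cons (nat_lit 774) (.cons (nat_lit 772) (.cons (nat_lit 897) (.cons (nat_lit 900) (.cons (nat_lit 1030) (.cons (nat_lit 1028) (.cons (nat_lit 1158) (.cons (nat_lit 1156) (.cons (nat_lit 1281) Uxp0n136 .nil) .nil) .nil) .nil) .nil) .nil) .nil) .nil) .nil)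
def Uxp0n176 : PT := (.cons (nat_lit 1412) (.cons (nat_lit 1542) (.cons (nat_lit 58883) (.cons (nat_lit 83459) (.cons (nat_lit 5) .nil .nil) .nil) .nil) .nil) .nil)
def Uxp0n211 : PT := (.cons (nat_lit 1796) (.cons (nat_lit 1921) (.cons (nat_lit 1923) (.cons (nat_lit 5) .nil .nil) .nil) .nil) .nil)
def Uxp0n241 : PT := (.cons (nat_lit 772) (.cons (nat_lit 902) (.cons (nat_lit 899) (.cons (nat_lit 33667) (.cons (nat_lit 5) .nil .nil) .nil) .nil) .nil) .nil)
def Uxp0n301 : PT := (.cons (nat_lit 1420) (.cons (nat_lit 1546) (.cons (nat_lit 1539) (.cons (nat_lit 5) .nil .nil) .nil) .nil) .nil)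
def Uxp0n361 : PT := (.cons (nat_lit 522) (.cons (nat_lit 515) (.cons (nat_lit 5) .nil .nil) (.cons (nat_lit 516) (.cons (nat_lit 646) (.cons (nat_lit 644) (.cons (nat_lit 774) Uxp0n74 (.cons (nat_lit 769) Uxp0n18 .nil)) .nil) (.cons (nat_lit 641) (.cons (nat_lit 644) (.cons (nat_lit 774) (.cons (nat_lit 772) (.cons (nat_lit 902) (.cons (nat_lit 900) (.cons (nat_lit 1025) (.cons (nat_lit 1027) (.cons (nat_lit 900) (.cons (nat_lit 1153) (.cons (nat_lit 1156) (.cons (nat_lit 1286) (.cons (nat_lit 1284) (.cons (nat_lit 1409) (.cons (nat_lit 1412) (.cons (nat_lit 1542) (.cons (nat_lit 1540) (.cons (nat_lit 1670) (.cons (nat_lit 50819) (.cons (nat_lit 1668) (.cons (nat_lit 1798) (.cons (nat_lit 100099) (.cons (nat_lit 1796) (.cons (nat_lit 1921) (.cons (nat_lit 83843) (.cons (nat_lit 5) .nil .nil) .nil) .nil) .nil) .nil) .nil) .nil) .nil) .nil) .nil) .nil) .nil) .nil) .nil) .nil) .nil) .nil) .nil) (.cons (nat_lit 1028) (.cons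 (nat_lit 1158) (.cons (nat_lit 50307) (.cons (nat_lit 1156) (.cons (nat_lit 1286) (.cons (nat_lit 1284) (.cons (nat_lit 1414) (.cons (nat_lit 1411) Uxp0n176 .nil) .nil) .nil) .nil) .nil) .nil) .nil) .nil)) (.cons (nat_lit 1030) (.cons (nat_lit 50179) (.cons (nat_lit 1028) (.cons (nat_lit 1158) (.cons (nat_lit 1156) (.cons (nat_lit 1281) (.cons (nat_lit 1284) (.cons (nat_lit 1414) (.cons (nat_lit 58755) (.cons (nat_lit 1412) (.cons (nat_lit 1542) (.cons (nat_lit 1539) (.cons (nat_lit 75267) (.cons (nat_lit 5) .nil .nil) .nil) .nil) .nil) .nil) .nil) .nil) .nil) .nil) .nil) .nil) .nil) (.cons (nat_lit 1028) (.cons (nat_lit 1153) (.cons (nat_lit 1155) (.cons (nat_lit 1028) (.cons (nat_lit 1286) (.cons (nat_lit 1284) (.cons (nat_lit 1414) (.cons (nat_lit 50563) Uxp0n176 .nil) .nil) .nil) .nil) .nil) .nil) .nil) .nil)) .nil)) .nil) (.cons (nat_lit 897) (.cons (nat_lit 900) (.cons (nat_lit 1030) (.cons (nat_lit 1028) (.cons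 (nat_lit 1153) (.cons (nat_lit 1156) (.cons (nat_lit 1286) (.cons (nat_lit 1284) (.cons (nat_lit 1414) (.cons (nat_lit 1412) (.cons (nat_lit 1537) (.cons (nat_lit 67075) (.cons (nat_lit 1412) (.cons (nat_lit 1670) (.cons (nat_lit 83587) (.cons (nat_lit 1668) (.cons (nat_lit 1798) (.cons (nat_lit 50947) Uxp0n211 .nil) .nil) .nil) .nil) .nil) .nil) .nil) .nil) .nil) .nil) .nil) .nil) .nil) .nil) .nil) .nil) .nil) .nil)) .nil) .nil) .nil) .nil)) .nil)) (.cons (nat_lit 518) (.cons (nat_lit 516) (.cons (nat_lit 641) (.cons (nat_lit 644) (.cons (nat_lit 778) Uxp0n241 (.cons (nat_lit 774) (.cons (nat_lit 772) (.cons (nat_lit 897) (.cons (nat_lit 900) (.cons (nat_lit 1030) (.cons (nat_lit 1028) (.cons (nat_lit 1158) (.cons (nat_lit 1156) (.cons (nat_lit 1281) (.cons (nat_lit 50435) (.cons (nat_lit 1156) (.cons (nat_lit 1414) (.cons (nat_lit 66947) (.cons (nat_lit 1412) (.cons (nat_lit 1542) (.cons (nat_lit 34307) (.cons (nat_lit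 1540) (.cons (nat_lit 1665) (.cons (nat_lit 1667) (.cons (nat_lit 5) .nil .nil) (.cons (nat_lit 1676) (.cons (nat_lit 1802) Uxp0n211 .nil) .nil)) (.cons (nat_lit 1674) (.cons (nat_lit 1667) (.cons (nat_lit 5) .nil .nil) .nil) .nil)) .nil) .nil) .nil) .nil) .nil) .nil) .nil) .nil) (.cons (nat_lit 1290) Uxp0n136 .nil)) .nil) .nil) .nil) .nil) .nil) .nil) .nil) .nil)) .nil) (.cons (nat_lit 650) (.cons (nat_lit 644) (.cons (nat_lit 769) Uxp0n241 Uxp0n145) .nil) (.cons (nat_lit 646) (.cons (nat_lit 644) (.cons (nat_lit 769) (.cons (nat_lit 771) (.cons (nat_lit 644) (.cons (nat_lit 897) (.cons (nat_lit 900) (.cons (nat_lit 1030) (.cons (nat_lit 1028) (.cons (nat_lit 1153) (.cons (nat_lit 1156) (.cons (nat_lit 1286) (.cons (nat_lit 1284) (.cons (nat_lit 1414) (.cons (nat_lit 34179) (.cons (nat_lit 1412) (.cons (nat_lit 1542) (.cons (nat_lit 83459) (.cons (nat_lit 1540) (.cons (nat_lit 1665) (.cons (nat_lit 67203) (.cons (nat_lit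 5) .nil .nil) .nil) (.cons (nat_lit 1674) (.cons (nat_lit 67203) (.cons (nat_lit 5) .nil .nil) .nil) .nil)) .nil) .nil) .nil) .nil) .nil) .nil) .nil) .nil) .nil) .nil) .nil) .nil) .nil) (.cons (nat_lit 906) Uxp0n89 .nil)) .nil) (.cons (nat_lit 772) (.cons (nat_lit 902) (.cons (nat_lit 908) (.cons (nat_lit 1033) (.cons (nat_lit 1036) (.cons (nat_lit 1166) (.cons (nat_lit 1164) (.cons (nat_lit 1294) (.cons (nat_lit 34059) (.cons (nat_lit 1292) (.cons (nat_lit 1422) (.cons (nat_lit 75147) (.cons (nat_lit 1420) (.cons (nat_lit 1545) (.cons (nat_lit 58891) (.cons (nat_lit 652) (.cons (nat_lit 1674) (.cons (nat_lit 1667) (.cons (nat_lit 5) .nil .nil) .nil) .nil) .nil) .nil) .nil) .nil) .nil) .nil) .nil) .nil) .nil) .nil) .nil) .nil) .nil) (.cons (nat_lit 33667) (.cons (nat_lit 900) (.cons (nat_lit 1030) (.cons (nat_lit 1028) (.cons (nat_lit 1158) (.cons (nat_lit 1155) Uxp0n94 (.cons (nat_lit 42123) (.cons (nat_lit 1164) (.cons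 (nat_lit 1294) (.cons (nat_lit 66827) (.cons (nat_lit 1292) (.cons (nat_lit 1418) Uxp0n38 (.cons (nat_lit 1417) Uxp0n301 .nil)) .nil) .nil) .nil) .nil) .nil)) .nil) .nil) .nil) .nil) .nil)) .nil) .nil)) (.cons (nat_lit 774) (.cons (nat_lit 33539) (.cons (nat_lit 772) (.cons (nat_lit 902) (.cons (nat_lit 900) (.cons (nat_lit 1025) (.cons (nat_lit 1028) (.cons (nat_lit 1158) (.cons (nat_lit 42115) (.cons (nat_lit 1156) (.cons (nat_lit 1286) (.cons (nat_lit 1283) (.cons (nat_lit 58627) (.cons (nat_lit 5) .nil .nil) .nil) (.cons (nat_lit 58635) (.cons (nat_lit 1292) (.cons (nat_lit 1417) Uxp0n301 (.cons (nat_lit 1418) Uxp0n38 .nil)) .nil) .nil)) .nil) .nil) .nil) .nil) .nil) (.cons (nat_lit 1034) Uxp0n110 .nil)) .nil) .nil) .nil) (.cons (nat_lit 772) (.cons (nat_lit 897) (.cons (nat_lit 899) Uxp0n119 (.cons (nat_lit 908) (.cons (nat_lit 1034) (.cons (nat_lit 1028) (.cons (nat_lit 1153) (.cons (nat_lit 1155) (.cons (nat_lit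 772) (.cons (nat_lit 1286) (.cons (nat_lit 1284) (.cons (nat_lit 1414) (.cons (nat_lit 34179) (.cons (nat_lit 1412) (.cons (nat_lit 1542) (.cons (nat_lit 42499) (.cons (nat_lit 83459) (.cons (nat_lit 5) .nil .nil) .nil) .nil) .nil) .nil) .nil) .nil) .nil) .nil) .nil) .nil) .nil) .nil) .nil) .nil)) (.cons (nat_lit 906) (.cons (nat_lit 899) Uxp0n119 .nil) .nil)) .nil)) (.cons (nat_lit 778) Uxp0n102 .nil))) .nil) .nil))) .nil) .nil))
def Uxp0n368 : PT := (.cons (nat_lit 644) (.cons (nat_lit 774) (.cons (nat_lit 25347) (.cons (nat_lit 772) (.cons (nat_lit 897) (.cons (nat_lit 899) (.cons (nat_lit 5) .nil .nil) .nil) .nil) .nil) .nil) .nil) .nil)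
def Uxp0n376 : PT := (.cons (nat_lit 42115) (.cons (nat_lit 1028) (.cons (nat_lit 1286) (.cons (nat_lit 58627) (.cons (nat_lit 1284) (.cons (nat_lit 1414) (.cons (nat_lit 1411) (.cons (nat_lit 25987) (.cons (nat_lit 5) .nil .nil) .nil) .nil) .nil) .nil) .nil) .nil) .nil) .nil)
def Uxp0n385 : PT := (.cons (nat_lit 646) (.cons (nat_lit 644) (.cons (nat_lit 769) (.cons (nat_lit 772) (.cons (nat_lit 902) (.cons (nat_lit 900) (.cons (nat_lit 1030) (.cons (nat_lit 1028) (.cons (nat_lit 1153) Uxp0n376 .nil) .nil) .nil) .nil) .nil) .nil) .nil) .nil) .nil)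
def Uxp0n388 : PT := (.cons (nat_lit 1548) (.cons (nat_lit 1674) (.cons (nat_lit 1667) (.cons (nat_lit 5) .nil .nil) .nil) .nil) .nil)
def Uxp0n432 : PT := (.cons (nat_lit 1156) (.cons (nat_lit 1286) (.cons (nat_lit 66819) (.cons (nat_lit 1284) (.cons (nat_lit 1409) (.cons (nat_lit 50563) (.cons (nat_lit 5) .nil .nil) .nil) .nil) .nil) .nil) .nil) .nil)
def Uxp0n441 : PT := (.cons (nat_lit 644) (.cons (nat_lit 774) (.cons (nat_lit 772) (.cons (nat_lit 897) (.cons (nat_lit 900) (.cons (nat_lit 1030) (.cons (nat_lit 1028) (.cons (nat_lit 1158) (.cons (nat_lit 25731) Uxp0n432 .nil) .nil) .nil) .nil) .nil) .nil) .nil) .nil) .nil)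
def Uxp0n444 : PT := (.cons (nat_lit 516) (.cons (nat_lit 641) (.cons (nat_lit 644) (.cons (nat_lit 774) (.cons (nat_lit 772) (.cons (nat_lit 897) (.cons (nat_lit 900) (.cons (nat_lit 1030) (.cons (nat_lit 1028) (.cons (nat_lit 1158) (.cons (nat_lit 25731) (.cons (nat_lit 1156) (.cons (nat_lit 1286) (.cons (nat_lit 66819) (.cons (nat_lit 1284) (.cons (nat_lit 1409) (.cons (nat_lit 50563) (.cons (nat_lit 5) .nil .nil) .nil) (.cons (nat_lit 1418) (.cons (nat_lit 50563) (.cons (nat_lit 5) .nil .nil) .nil) .nil)) .nil) .nil) .nil) .nil) .nil) .nil) .nil) .nil) .nil) .nil) .nil) .nil) .nil) (.cons (nat_lit 650) Uxp0n441 .nil)) .nil)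
def Uxp0n460 : PT := (.cons (nat_lit 1156) (.cons (nat_lit 1281) (.cons (nat_lit 1283) (.cons (nat_lit 5) .nil .nil) .nil) (.cons (nat_lit 1290) (.cons (nat_lit 1283) (.cons (nat_lit 5) .nil .nil) .nil) .nil)) .nil)
def Uxp0n480 : PT := (.cons (nat_lit 1156) (.cons (nat_lit 1281) (.cons (nat_lit 1283) (.cons (nat_lit 5) .nil .nil) .nil) .nil) .nil)
def Uxp0n500 : PT := (.cons (nat_lit 644) (.cons (nat_lit 774) (.cons (nat_lit 772) (.cons (nat_lit 902) (.cons (nat_lit 25475) (.cons (nat_lit 900) (.cons (nat_lit 1030) (.cons (nat_lit 33795) (.cons (nat_lit 50179) (.cons (nat_lit 5) .nil .nil) .nil) .nil) .nil) .nil) .nil) .nil) .nil) .nil) .nil)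
def Uxp0n509 : PT := (.cons (nat_lit 899) (.cons (nat_lit 644) (.cons (nat_lit 1030) (.cons (nat_lit 1028) (.cons (nat_lit 1158) (.cons (nat_lit 25731) (.cons (nat_lit 1156) (.cons (nat_lit 1286) (.cons (nat_lit 34051) (.cons (nat_lit 66819) (.cons (nat_lit 5) .nil .nil) .nil) .nil) .nil) .nil) .nil) .nil) .nil) .nil) .nil) .nil)
def Uxp0n550 : PT := (.cons (nat_lit 643) (.cons (nat_lit 17027) (.cons (nat_lit 5) .nil .nil) .nil) (.cons (nat_lit 17035) (.cons (nat_lit 652) (.cons (nat_lit 777) (.cons (nat_lit 780) (.cons (nat_lit 906) (.cons (nat_lit 899) (.cons (nat_lit 5) .nil .nil) .nil) .nil) .nil) .nil) .nil) .nil))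
def Uxp0n554 : PT := (.cons (nat_lit 772) (.cons (nat_lit 902) (.cons (nat_lit 899) (.cons (nat_lit 17283) (.cons (nat_lit 5) .nil .nil) .nil) .nil) .nil) .nil)
def Uxp0n573 : PT := (.cons (nat_lit 33795) (.cons (nat_lit 900) (.cons (nat_lit 1158) (.cons (nat_lit 50307) (.cons (nat_lit 1156) (.cons (nat_lit 1286) (.cons (nat_lit 17667) (.cons (nat_lit 1284) (.cons (nat_lit 1409) (.cons (nat_lit 1411) (.cons (nat_lit 5) .nil .nil) .nil) (.cons (nat_lit 1418) (.cons (nat_lit 1411) (.cons (nat_lit 5) .nil .nil) .nil) .nil)) .nil) .nil) .nil) .nil) .nil) .nil) .nil) .nil)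
def Uxp0n575 : PT := (.cons (nat_lit 1411) (.cons (nat_lit 5) .nil .nil) (.cons (nat_lit 1420) (.cons (nat_lit 1545) Uxp0n388 .nil) .nil))
def Uxp0n604 : PT := (.cons (nat_lit 1034) (.cons (nat_lit 33795) (.cons (nat_lit 900) (.cons (nat_lit 1158) (.cons (nat_lit 50307) (.cons (nat_lit 1156) (.cons (nat_lit 1286) (.cons (nat_lit 17667) (.cons (nat_lit 1284) (.cons (nat_lit 1409) (.cons (nat_lit 1411) (.cons (nat_lit 5) .nil .nil) .nil) .nil) .nil) .nil) .nil) .nil) .nil) .nil) .nil) .nil) .nil)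
def Uxp0n620 : PT := (.cons (nat_lit 516) (.cons (nat_lit 646) (.cons (nat_lit 643) (.cons (nat_lit 17027) (.cons (nat_lit 5) .nil .nil) .nil) .nil) .nil) .nil)
def Uxp0n654 : PT := (.cons (nat_lit 1164) (.cons (nat_lit 1290) (.cons (nat_lit 1283) (.cons (nat_lit 5) .nil .nil) .nil) .nil) .nil)
def Uxp0n657 : PT := (.cons (nat_lit 1036) (.cons (nat_lit 1161) (.cons (nat_lit 1164) (.cons (nat_lit 1290) (.cons (nat_lit 1283) (.cons (nat_lit 5) .nil .nil) (.cons (nat_lit 1292) (.cons (nat_lit 1417) Uxp0n301 .nil) .nil)) .nil) .nil) (.cons (nat_lit 1170) Uxp0n654 .nil)) .nil)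
def Uxp0n698 : PT := (.cons (nat_lit 900) (.cons (nat_lit 1030) (.cons (nat_lit 25603) (.cons (nat_lit 50179) (.cons (nat_lit 5) .nil .nil) .nil) .nil) .nil) .nil)
def Uxp0n737 : PT := (.cons (nat_lit 516) (.cons (nat_lit 774) (.cons (nat_lit 772) (.cons (nat_lit 902) (.cons (nat_lit 17283) Uxp0n698 .nil) .nil) .nil) .nil) .nil)
def Uxp0n748 : PT := (.cons (nat_lit 780) (.cons (nat_lit 906) (.cons (nat_lit 899) (.cons (nat_lit 516) (.cons (nat_lit 1030) (.cons (nat_lit 1028) (.cons (nat_lit 1158) (.cons (nat_lit 17539) (.cons (nat_lit 1156) (.cons (nat_lit 1286) (.cons (nat_lit 25859) (.cons (nat_lit 66819) (.cons (nat_lit 5) .nil .nil) .nil) .nil) .nil) .nil) .nil) .nil) .nil) .nil) .nil) .nil) .nil) .nil)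
def Uxp0n764 : PT := (.cons (nat_lit 393) (.cons (nat_lit 396) (.cons (nat_lit 522) (.cons (nat_lit 516) (.cons (nat_lit 646) Uxp0n550 (.cons (nat_lit 649) (.cons (nat_lit 652) (.cons (nat_lit 778) Uxp0n554 .nil) .nil) (.cons (nat_lit 650) (.cons (nat_lit 644) (.cons (nat_lit 769) Uxp0n554 .nil) .nil) .nil))) .nil) (.cons (nat_lit 526) (.cons (nat_lit 524) (.cons (nat_lit 649) (.cons (nat_lit 652) (.cons (nat_lit 782) (.cons (nat_lit 780) (.cons (nat_lit 910) (.cons (nat_lit 908) (.cons (nat_lit 1034) Uxp0n573 (.cons (nat_lit 1033) (.cons (nat_lit 33803) (.cons (nat_lit 908) (.cons (nat_lit 1166) (.cons (nat_lit 50315) (.cons (nat_lit 1164) (.cons (nat_lit 1294) (.cons (nat_lit 17675) (.cons (nat_lit 1292) (.cons (nat_lit 1418) Uxp0n575 (.cons (nat_lit 1425) (.cons (nat_lit 1428) (.cons (nat_lit 1554) Uxp0n388 .nil) .nil) .nil)) .nil) .nil) .nil) .nil) .nil) .nil) .nil) .nil) .nil)) .nil) .nil) .nil) .nil) .nil) (.cons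 (nat_lit 658) (.cons (nat_lit 652) (.cons (nat_lit 782) (.cons (nat_lit 780) (.cons (nat_lit 910) (.cons (nat_lit 908) Uxp0n604 .nil) .nil) .nil) .nil) .nil) .nil)) .nil) .nil)) .nil) (.cons (nat_lit 394) (.cons (nat_lit 388) (.cons (nat_lit 513) (.cons (nat_lit 516) (.cons (nat_lit 646) Uxp0n550 (.cons (nat_lit 650) (.cons (nat_lit 644) (.cons (nat_lit 769) Uxp0n554 .nil) .nil) .nil)) .nil) (.cons (nat_lit 522) Uxp0n620 (.cons (nat_lit 518) (.cons (nat_lit 516) (.cons (nat_lit 641) (.cons (nat_lit 644) (.cons (nat_lit 774) (.cons (nat_lit 772) (.cons (nat_lit 902) (.cons (nat_lit 900) (.cons (nat_lit 1025) Uxp0n573 Uxp0n604) .nil) .nil) .nil) .nil) .nil) .nil) .nil) .nil))) .nil) (.cons (nat_lit 398) (.cons (nat_lit 396) (.cons (nat_lit 521) (.cons (nat_lit 524) (.cons (nat_lit 654) (.cons (nat_lit 652) (.cons (nat_lit 777) (.cons (nat_lit 780) (.cons (nat_lit 910) (.cons (nat_lit 908) (.cons (nat_lit 1038) (.cons (nat_lit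 17419) (.cons (nat_lit 1036) (.cons (nat_lit 1166) (.cons (nat_lit 58507) (.cons (nat_lit 1164) (.cons (nat_lit 1289) (.cons (nat_lit 42251) (.cons (nat_lit 396) (.cons (nat_lit 1418) Uxp0n575 .nil) .nil) .nil) (.cons (nat_lit 1298) (.cons (nat_lit 42251) (.cons (nat_lit 396) (.cons (nat_lit 1418) (.cons (nat_lit 1411) (.cons (nat_lit 5) .nil .nil) .nil) .nil) .nil) .nil) .nil)) .nil) .nil) .nil) .nil) .nil) .nil) .nil) .nil) .nil) .nil) (.cons (nat_lit 17035) (.cons (nat_lit 652) (.cons (nat_lit 782) (.cons (nat_lit 780) (.cons (nat_lit 910) (.cons (nat_lit 25483) (.cons (nat_lit 908) (.cons (nat_lit 1038) (.cons (nat_lit 50187) Uxp0n657 .nil) .nil) .nil) .nil) .nil) .nil) .nil) .nil) .nil)) (.cons (nat_lit 658) (.cons (nat_lit 652) (.cons (nat_lit 778) (.cons (nat_lit 771) (.cons (nat_lit 388) (.cons (nat_lit 897) (.cons (nat_lit 900) (.cons (nat_lit 1030) (.cons (nat_lit 1028) (.cons (nat_lit 1153) (.cons (nat_lit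 1156) (.cons (nat_lit 1286) (.cons (nat_lit 1284) (.cons (nat_lit 1414) (.cons (nat_lit 17795) Uxp0n24 .nil) .nil) .nil) .nil) .nil) .nil) .nil) .nil) .nil) .nil) .nil) .nil) .nil) .nil) .nil)) .nil) (.cons (nat_lit 522) (.cons (nat_lit 523) (.cons (nat_lit 396) (.cons (nat_lit 650) (.cons (nat_lit 644) (.cons (nat_lit 774) (.cons (nat_lit 772) (.cons (nat_lit 897) (.cons (nat_lit 900) (.cons (nat_lit 1030) (.cons (nat_lit 1028) (.cons (nat_lit 1158) (.cons (nat_lit 17539) Uxp0n432 .nil) .nil) .nil) .nil) .nil) .nil) .nil) .nil) .nil) .nil) .nil) (.cons (nat_lit 516) (.cons (nat_lit 646) (.cons (nat_lit 17027) (.cons (nat_lit 644) (.cons (nat_lit 774) (.cons (nat_lit 772) (.cons (nat_lit 902) (.cons (nat_lit 899) Uxp0n698 (.cons (nat_lit 25483) (.cons (nat_lit 908) (.cons (nat_lit 1038) (.cons (nat_lit 50187) (.cons (nat_lit 1036) (.cons (nat_lit 1161) Uxp0n654 .nil) .nil) .nil) .nil) .nil) .nil)) .nil) .nil) .nil) .nil)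 .nil) .nil) .nil)) (.cons (nat_lit 526) (.cons (nat_lit 16907) (.cons (nat_lit 524) (.cons (nat_lit 654) (.cons (nat_lit 652) (.cons (nat_lit 778) (.cons (nat_lit 772) (.cons (nat_lit 902) (.cons (nat_lit 25475) (.cons (nat_lit 900) (.cons (nat_lit 1030) (.cons (nat_lit 1027) (.cons (nat_lit 41987) (.cons (nat_lit 5) .nil .nil) .nil) (.cons (nat_lit 41995) (.cons (nat_lit 1036) (.cons (nat_lit 1161) Uxp0n654 .nil) .nil) .nil)) .nil) .nil) .nil) .nil) .nil) (.cons (nat_lit 777) (.cons (nat_lit 780) (.cons (nat_lit 910) (.cons (nat_lit 25483) (.cons (nat_lit 908) (.cons (nat_lit 1038) (.cons (nat_lit 41995) Uxp0n657 .nil) .nil) .nil) .nil) .nil) .nil) .nil)) .nil) .nil) .nil) (.cons (nat_lit 524) (.cons (nat_lit 650) (.cons (nat_lit 643) Uxp0n737 (.cons (nat_lit 652) (.cons (nat_lit 777) Uxp0n748 .nil) .nil)) (.cons (nat_lit 657) (.cons (nat_lit 660) (.cons (nat_lit 786) Uxp0n748 .nil) .nil) .nil)) .nil)) .nil))) .nil)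 .nil)))
def Uxp0n785 : PT := (.cons (nat_lit 518) (.cons (nat_lit 516) (.cons (nat_lit 646) (.cons (nat_lit 644) (.cons (nat_lit 769) Uxp0n102 (.cons (nat_lit 774) (.cons (nat_lit 33539) Uxp0n114 .nil) .nil)) .nil) .nil) .nil) .nil)
def Uxp0n817 : PT := (.cons (nat_lit 772) (.cons (nat_lit 902) (.cons (nat_lit 25475) (.cons (nat_lit 900) (.cons (nat_lit 1030) (.cons (nat_lit 1027) (.cons (nat_lit 41987) (.cons (nat_lit 5) .nil .nil) .nil) .nil) .nil) .nil) .nil) .nil) .nil)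
def Uxp0n834 : PT := (.cons (nat_lit 516) (.cons (nat_lit 646) (.cons (nat_lit 17027) (.cons (nat_lit 644) (.cons (nat_lit 774) (.cons (nat_lit 772) (.cons (nat_lit 902) (.cons (nat_lit 899) Uxp0n698 .nil) .nil) .nil) .nil) .nil) .nil) .nil) .nil)
def Uxp0n924 : PT := (.cons (nat_lit 1284) (.cons (nat_lit 1414) (.cons (nat_lit 1412) (.cons (nat_lit 1542) (.cons (nat_lit 67075) (.cons (nat_lit 1540) (.cons (nat_lit 1670) (.cons (nat_lit 75395) (.cons (nat_lit 91779) (.cons (nat_lit 5) .nil .nil) .nil) .nil) .nil) .nil) .nil) .nil) .nil) .nil) .nil)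
def Uxp0n935 : PT := (.cons (nat_lit 772) (.cons (nat_lit 902) (.cons (nat_lit 899) (.cons (nat_lit 25475) (.cons (nat_lit 5) .nil .nil) (.cons (nat_lit 900) (.cons (nat_lit 1030) (.cons (nat_lit 1028) (.cons (nat_lit 1158) (.cons (nat_lit 1156) (.cons (nat_lit 1286) (.cons (nat_lit 25859) Uxp0n924 .nil) .nil) .nil) .nil) .nil) .nil) .nil)) .nil) .nil) .nil)
def Uxp0n969 : PT := (.cons (nat_lit 900) (.cons (nat_lit 1030) (.cons (nat_lit 1028) (.cons (nat_lit 1158) (.cons (nat_lit 1156) (.cons (nat_lit 1286) (.cons (nat_lit 25859) (.cons (nat_lit 1284) (.cons (nat_lit 1414) (.cons (nat_lit 1412) (.cons (nat_lit 1542) (.cons (nat_lit 67075) (.cons (nat_lit 1540) (.cons (nat_lit 1670) (.cons (nat_lit 75395) (.cons (nat_lit 91779) (.cons (nat_lit 644) (.cons (nat_lit 1798) (.cons (nat_lit 1796) (.cons (nat_lit 1926) (.cons (nat_lit 1924) (.cons (nat_lit 2054) (.cons (nat_lit 10243) (.cons (nat_lit 2052) (.cons (nat_lit 2182)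 (.cons (nat_lit 2180) (.cons (nat_lit 2310) (.cons (nat_lit 116995) (.cons (nat_lit 2308) (.cons (nat_lit 2438) (.cons (nat_lit 125315) (.cons (nat_lit 141699) (.cons (nat_lit 5) .nil .nil) .nil) .nil) .nil) .nil) .nil) .nil) .nil) .nil) .nil) .nil) .nil) .nil) .nil) .nil) .nil) .nil) .nil) .nil) .nil) .nil) .nil) .nil) .nil) .nil) .nil) .nil) .nil) .nil) .nil) .nil) .nil) .nil)
def Uxp0n980 : PT := (.cons (nat_lit 25475) (.cons (nat_lit 772) (.cons (nat_lit 1030) (.cons (nat_lit 41987) (.cons (nat_lit 1028) (.cons (nat_lit 1158) (.cons (nat_lit 1155) (.cons (nat_lit 9347) (.cons (nat_lit 5) .nil .nil) .nil) .nil) .nil) .nil) .nil) .nil) .nil) .nil)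
def Uxp0n988 : PT := (.cons (nat_lit 50187) (.cons (nat_lit 1036) (.cons (nat_lit 1162) (.cons (nat_lit 9347) (.cons (nat_lit 5) .nil .nil) .nil) .nil) .nil) .nil)
def Uxp0n996 : PT := (.cons (nat_lit 25227) (.cons (nat_lit 652) (.cons (nat_lit 782) (.cons (nat_lit 780) (.cons (nat_lit 910) (.cons (nat_lit 907) (.cons (nat_lit 908) (.cons (nat_lit 1038) Uxp0n988 .nil) .nil) .nil) .nil) .nil) .nil) .nil) .nil)
def Uxp0n1016 : PT := (.cons (nat_lit 772) (.cons (nat_lit 902) (.cons (nat_lit 899) (.cons (nat_lit 25475) (.cons (nat_lit 644) (.cons (nat_lit 1030) (.cons (nat_lit 1028) (.cons (nat_lit 1158) (.cons (nat_lit 1156) (.cons (nat_lit 1286) (.cons (nat_lit 9475) Uxp0n924 .nil) .nil) .nil) .nil) .nil) .nil) .nil) Uxp0n969) .nil) .nil) .nil)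
def Uxp0n1066 : PT := (.cons (nat_lit 772) (.cons (nat_lit 902) (.cons (nat_lit 25475) (.cons (nat_lit 900) (.cons (nat_lit 1030) (.cons (nat_lit 1028) (.cons (nat_lit 1158) (.cons (nat_lit 1155) (.cons (nat_lit 1156) (.cons (nat_lit 1286) (.cons (nat_lit 66819) (.cons (nat_lit 1284) (.cons (nat_lit 1409) (.cons (nat_lit 9603) (.cons (nat_lit 5) .nil .nil) .nil) .nil) .nil) .nil) .nil) .nil) .nil) .nil) .nil) .nil) .nil) .nil) .nil) .nil)
def Uxp0n1121 : PT := (.cons (nat_lit 1164) (.cons (nat_lit 1290) (.cons (nat_lit 1284) (.cons (nat_lit 1414) (.cons (nat_lit 1411) (.cons (nat_lit 58755) (.cons (nat_lit 5) .nil .nil) .nil) .nil) .nil) .nil) .nil) .nil)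
def Uxp0n1161 : PT := (.cons (nat_lit 780) (.cons (nat_lit 910) (.cons (nat_lit 907) (.cons (nat_lit 908) (.cons (nat_lit 1034) (.cons (nat_lit 1028) (.cons (nat_lit 1158) (.cons (nat_lit 33923) (.cons (nat_lit 42115) (.cons (nat_lit 5) .nil .nil) .nil) .nil) .nil) .nil) .nil) .nil) .nil) .nil) .nil)
def Uxp0n1170 : PT := (.cons (nat_lit 396) (.cons (nat_lit 521) (.cons (nat_lit 524) (.cons (nat_lit 654) (.cons (nat_lit 8843) (.cons (nat_lit 652) (.cons (nat_lit 778) Uxp0n935 .nil) .nil) (.cons (nat_lit 652) (.cons (nat_lit 778) Uxp0n1016 (.cons (nat_lit 782) (.cons (nat_lit 780) (.cons (nat_lit 906) Uxp0n980 .nil) .nil) .nil)) Uxp0n996)) (.cons (nat_lit 650) (.cons (nat_lit 644) (.cons (nat_lit 769) (.cons (nat_lit 772) (.cons (nat_lit 902) (.cons (nat_lit 25475) (.cons (nat_lit 900) (.cons (nat_lit 1030) (.cons (nat_lit 1028) (.cons (nat_lit 1158) (.cons (nat_lit 1155) (.cons (nat_lit 1156) (.cons (nat_lit 1286) (.cons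 (nat_lit 66819) (.cons (nat_lit 1284) (.cons (nat_lit 1409) (.cons (nat_lit 9603) (.cons (nat_lit 5) .nil .nil) .nil) (.cons (nat_lit 1418) (.cons (nat_lit 9603) (.cons (nat_lit 5) .nil .nil) .nil) .nil)) .nil) .nil) .nil) .nil) .nil) .nil) .nil) .nil) .nil) .nil) (.cons (nat_lit 906) (.cons (nat_lit 900) (.cons (nat_lit 1025) (.cons (nat_lit 1028) (.cons (nat_lit 1158) (.cons (nat_lit 25731) (.cons (nat_lit 1156) (.cons (nat_lit 1286) (.cons (nat_lit 1284) (.cons (nat_lit 1414) (.cons (nat_lit 1411) (.cons (nat_lit 1412) (.cons (nat_lit 1542) (.cons (nat_lit 83459) (.cons (nat_lit 1540) (.cons (nat_lit 1665) (.cons (nat_lit 9859) (.cons (nat_lit 5) .nil .nil) .nil) .nil) .nil) .nil) .nil) .nil) .nil) .nil) .nil) .nil) .nil) .nil) .nil) .nil) .nil) .nil) .nil)) .nil) (.cons (nat_lit 778) Uxp0n1066 .nil)) .nil) .nil)) .nil) (.cons (nat_lit 522) (.cons (nat_lit 516) (.cons (nat_lit 646) (.cons (nat_lit 8835) (.cons (nat_lit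 644) (.cons (nat_lit 769) Uxp0n935 (.cons (nat_lit 778) Uxp0n935 .nil)) .nil) (.cons (nat_lit 644) (.cons (nat_lit 778) Uxp0n1016 (.cons (nat_lit 769) (.cons (nat_lit 772) (.cons (nat_lit 902) (.cons (nat_lit 899) Uxp0n969 .nil) .nil) .nil) (.cons (nat_lit 782) (.cons (nat_lit 780) (.cons (nat_lit 906) Uxp0n980 .nil) .nil) .nil))) (.cons (nat_lit 25219) (.cons (nat_lit 644) (.cons (nat_lit 774) (.cons (nat_lit 772) (.cons (nat_lit 902) (.cons (nat_lit 899) (.cons (nat_lit 900) (.cons (nat_lit 1030) (.cons (nat_lit 50179) (.cons (nat_lit 1028) (.cons (nat_lit 1153) (.cons (nat_lit 9347) (.cons (nat_lit 5) .nil .nil) .nil) (.cons (nat_lit 1162) (.cons (nat_lit 9347) (.cons (nat_lit 5) .nil .nil) .nil) .nil)) .nil) .nil) .nil) .nil) .nil) .nil) .nil) .nil) .nil) .nil))) (.cons (nat_lit 649) (.cons (nat_lit 652) (.cons (nat_lit 778) Uxp0n1066 .nil) .nil) (.cons (nat_lit 650) (.cons (nat_lit 644) (.cons (nat_lit 769) Uxp0n1066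 .nil) .nil) .nil))) .nil) (.cons (nat_lit 526) (.cons (nat_lit 523) (.cons (nat_lit 524) (.cons (nat_lit 654) (.cons (nat_lit 25227) (.cons (nat_lit 652) (.cons (nat_lit 782) (.cons (nat_lit 780) (.cons (nat_lit 905) (.cons (nat_lit 908) (.cons (nat_lit 1038) Uxp0n988 (.cons (nat_lit 1042) (.cons (nat_lit 1036) (.cons (nat_lit 1161) (.cons (nat_lit 1164) (.cons (nat_lit 1294) (.cons (nat_lit 50443) (.cons (nat_lit 1292) (.cons (nat_lit 1418) (.cons (nat_lit 9603) (.cons (nat_lit 5) .nil .nil) .nil) .nil) .nil) .nil) .nil) .nil) .nil) .nil) .nil)) .nil) (.cons (nat_lit 914) (.cons (nat_lit 908) (.cons (nat_lit 1038) Uxp0n988 .nil) .nil) .nil)) .nil) .nil) .nil) .nil) .nil) .nil) (.cons (nat_lit 524) (.cons (nat_lit 649) (.cons (nat_lit 8843) (.cons (nat_lit 524) (.cons (nat_lit 782) (.cons (nat_lit 25355) (.cons (nat_lit 780) (.cons (nat_lit 910) (.cons (nat_lit 908) (.cons (nat_lit 1034) (.cons (nat_lit 1028) (.cons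 (nat_lit 1158) (.cons (nat_lit 1155) (.cons (nat_lit 58499) (.cons (nat_lit 5) .nil .nil) .nil) .nil) (.cons (nat_lit 1161) Uxp0n1121 .nil)) .nil) (.cons (nat_lit 1041) (.cons (nat_lit 1044) (.cons (nat_lit 1170) Uxp0n1121 .nil) .nil) .nil)) .nil) .nil) .nil) .nil) .nil) .nil) .nil) (.cons (nat_lit 658) (.cons (nat_lit 8843) (.cons (nat_lit 524) (.cons (nat_lit 782) (.cons (nat_lit 25355) (.cons (nat_lit 780) (.cons (nat_lit 910) (.cons (nat_lit 908) (.cons (nat_lit 1034) (.cons (nat_lit 1028) (.cons (nat_lit 1158) (.cons (nat_lit 1155) (.cons (nat_lit 58499) (.cons (nat_lit 5) .nil .nil) .nil) .nil) .nil) .nil) .nil) .nil) .nil) .nil) .nil) .nil) .nil) .nil) .nil)) .nil)) .nil))) (.cons (nat_lit 8587) (.cons (nat_lit 396) (.cons (nat_lit 526) (.cons (nat_lit 524) (.cons (nat_lit 654) (.cons (nat_lit 652) (.cons (nat_lit 777) Uxp0n1161 (.cons (nat_lit 786) Uxp0n1161 .nil)) .nil) .nil) .nil) .nil) .nil) .nil))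
def Uxp0n1173 : PT := (.cons (nat_lit 1284) (.cons (nat_lit 1414) (.cons (nat_lit 50563) (.cons (nat_lit 58755) (.cons (nat_lit 5) .nil .nil) .nil) .nil) .nil) .nil)
def Uxp0n1239 : PT := (.cons (nat_lit 644) (.cons (nat_lit 774) (.cons (nat_lit 8963) (.cons (nat_lit 772) (.cons (nat_lit 902) (.cons (nat_lit 41859) (.cons (nat_lit 900) (.cons (nat_lit 1030) (.cons (nat_lit 1027) (.cons (nat_lit 17411) (.cons (nat_lit 5) .nil .nil) .nil) .nil) .nil) .nil) .nil) .nil) .nil) .nil) .nil) .nil)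
def Uxp0n1251 : PT := (.cons (nat_lit 772) (.cons (nat_lit 902) (.cons (nat_lit 900) (.cons (nat_lit 1030) (.cons (nat_lit 9219) (.cons (nat_lit 1028) (.cons (nat_lit 1158) (.cons (nat_lit 58499) (.cons (nat_lit 1156) (.cons (nat_lit 1286) (.cons (nat_lit 1283) (.cons (nat_lit 17667) (.cons (nat_lit 5) .nil .nil) .nil) .nil) .nil) .nil) .nil) .nil) .nil) .nil) .nil) .nil) .nil) .nil)
def Uxp0n1277 : PT := (.cons (nat_lit 138) (.cons (nat_lit 132) (.cons (nat_lit 266) (.cons (nat_lit 259) (.cons (nat_lit 5) .nil .nil) (.cons (nat_lit 260) (.cons (nat_lit 390) (.cons (nat_lit 388) (.cons (nat_lit 518) (.cons (nat_lit 515) (.cons (nat_lit 516) (.cons (nat_lit 641) Uxp0n441 .nil) .nil) (.cons (nat_lit 516) (.cons (nat_lit 646) (.cons (nat_lit 643) Uxp0n500 .nil) .nil) .nil)) (.cons (nat_lit 513) (.cons (nat_lit 516) Uxp0n385 .nil) .nil)) .nil) (.cons (nat_lit 385) (.cons (nat_lit 388) Uxp0n785 .nil) .nil)) .nil)) (.cons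 (nat_lit 262) (.cons (nat_lit 260) (.cons (nat_lit 394) (.cons (nat_lit 388) (.cons (nat_lit 513) Uxp0n620 .nil) .nil) (.cons (nat_lit 393) (.cons (nat_lit 396) (.cons (nat_lit 522) Uxp0n620 (.cons (nat_lit 526) (.cons (nat_lit 524) (.cons (nat_lit 649) (.cons (nat_lit 652) (.cons (nat_lit 782) (.cons (nat_lit 780) (.cons (nat_lit 910) (.cons (nat_lit 908) (.cons (nat_lit 1033) (.cons (nat_lit 33803) (.cons (nat_lit 908) (.cons (nat_lit 1166) (.cons (nat_lit 50315) (.cons (nat_lit 1164) (.cons (nat_lit 1294) (.cons (nat_lit 17675) (.cons (nat_lit 1292) (.cons (nat_lit 1418) (.cons (nat_lit 1411) (.cons (nat_lit 5) .nil .nil) .nil) .nil) .nil) .nil) .nil) .nil) .nil) .nil) .nil) .nil) .nil) .nil) .nil) .nil) .nil) .nil) .nil) .nil) .nil)) .nil) (.cons (nat_lit 390) (.cons (nat_lit 388) (.cons (nat_lit 518) (.cons (nat_lit 16899) (.cons (nat_lit 516) (.cons (nat_lit 646) (.cons (nat_lit 644) (.cons (nat_lit 769) Uxp0n817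 (.cons (nat_lit 778) Uxp0n817 .nil)) .nil) .nil) .nil) (.cons (nat_lit 524) (.cons (nat_lit 650) (.cons (nat_lit 643) Uxp0n737 .nil) .nil) .nil)) (.cons (nat_lit 513) Uxp0n834 (.cons (nat_lit 522) Uxp0n834 .nil))) .nil) .nil))) .nil) (.cons (nat_lit 257) (.cons (nat_lit 260) (.cons (nat_lit 390) (.cons (nat_lit 388) (.cons (nat_lit 513) (.cons (nat_lit 516) (.cons (nat_lit 646) (.cons (nat_lit 644) (.cons (nat_lit 769) (.cons (nat_lit 772) (.cons (nat_lit 902) (.cons (nat_lit 900) (.cons (nat_lit 1030) (.cons (nat_lit 1028) (.cons (nat_lit 1153) (.cons (nat_lit 42115) (.cons (nat_lit 1028) (.cons (nat_lit 1286) (.cons (nat_lit 58627) (.cons (nat_lit 1284) (.cons (nat_lit 1414) (.cons (nat_lit 1411) (.cons (nat_lit 25987) (.cons (nat_lit 5) .nil .nil) .nil) (.cons (nat_lit 25995) (.cons (nat_lit 1420) (.cons (nat_lit 1545) Uxp0n388 .nil) .nil) .nil)) .nil) .nil) .nil) .nil) .nil) .nil) (.cons (nat_lit 1162) Uxp0n376 .nil))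 .nil) .nil) .nil) .nil) .nil) .nil) .nil) .nil) .nil) (.cons (nat_lit 518) (.cons (nat_lit 515) Uxp0n444 (.cons (nat_lit 516) (.cons (nat_lit 649) (.cons (nat_lit 652) (.cons (nat_lit 782) (.cons (nat_lit 25355) (.cons (nat_lit 780) (.cons (nat_lit 910) (.cons (nat_lit 908) (.cons (nat_lit 1038) (.cons (nat_lit 33803) (.cons (nat_lit 1036) (.cons (nat_lit 1166) (.cons (nat_lit 58507) Uxp0n654 .nil) .nil) .nil) .nil) .nil) .nil) .nil) .nil) .nil) .nil) .nil) (.cons (nat_lit 646) (.cons (nat_lit 25227) (.cons (nat_lit 652) (.cons (nat_lit 782) (.cons (nat_lit 780) (.cons (nat_lit 905) (.cons (nat_lit 908) (.cons (nat_lit 1038) (.cons (nat_lit 33803) (.cons (nat_lit 1036) (.cons (nat_lit 1166) (.cons (nat_lit 50315) Uxp0n654 .nil) .nil) .nil) .nil) .nil) .nil) .nil) .nil) .nil) .nil) (.cons (nat_lit 643) Uxp0n500 (.cons (nat_lit 652) (.cons (nat_lit 777) (.cons (nat_lit 780) (.cons (nat_lit 906) Uxp0n509 .nil) .nil) .nil)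 .nil))) .nil)) .nil)) (.cons (nat_lit 522) (.cons (nat_lit 516) Uxp0n385 .nil) .nil))) .nil) (.cons (nat_lit 394) (.cons (nat_lit 388) (.cons (nat_lit 513) (.cons (nat_lit 516) (.cons (nat_lit 646) (.cons (nat_lit 644) (.cons (nat_lit 769) Uxp0n18 (.cons (nat_lit 774) (.cons (nat_lit 771) Uxp0n35 (.cons (nat_lit 772) (.cons (nat_lit 902) Uxp0n58 .nil) .nil)) .nil)) .nil) .nil) .nil) Uxp0n785) .nil) .nil)) .nil) .nil))) .nil) (.cons (nat_lit 142) (.cons (nat_lit 140) (.cons (nat_lit 266) (.cons (nat_lit 260) (.cons (nat_lit 390) (.cons (nat_lit 388) (.cons (nat_lit 518) (.cons (nat_lit 515) (.cons (nat_lit 516) (.cons (nat_lit 646) (.cons (nat_lit 8835) (.cons (nat_lit 25219) (.cons (nat_lit 5) .nil .nil) .nil) .nil) .nil) .nil) .nil) (.cons (nat_lit 513) (.cons (nat_lit 516) (.cons (nat_lit 646) (.cons (nat_lit 8843) (.cons (nat_lit 652) (.cons (nat_lit 778) Uxp0n935 .nil) .nil) (.cons (nat_lit 644) (.cons (nat_lit 778)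 (.cons (nat_lit 772) (.cons (nat_lit 902) (.cons (nat_lit 899) Uxp0n969 .nil) .nil) .nil) (.cons (nat_lit 774) (.cons (nat_lit 772) (.cons (nat_lit 897) Uxp0n980 (.cons (nat_lit 906) Uxp0n980 .nil)) .nil) .nil)) Uxp0n996)) .nil) .nil) .nil)) .nil) .nil) .nil) (.cons (nat_lit 265) (.cons (nat_lit 268) (.cons (nat_lit 398) Uxp0n1170 (.cons (nat_lit 394) (.cons (nat_lit 388) (.cons (nat_lit 513) (.cons (nat_lit 516) (.cons (nat_lit 646) (.cons (nat_lit 8835) (.cons (nat_lit 644) (.cons (nat_lit 774) (.cons (nat_lit 772) (.cons (nat_lit 902) (.cons (nat_lit 900) (.cons (nat_lit 1025) (.cons (nat_lit 1028) (.cons (nat_lit 1158) (.cons (nat_lit 1155) (.cons (nat_lit 1156) (.cons (nat_lit 1281) Uxp0n1173 (.cons (nat_lit 1290) Uxp0n1173 .nil)) .nil) .nil) .nil) .nil) .nil) .nil) .nil) .nil) .nil) .nil) .nil) (.cons (nat_lit 650) (.cons (nat_lit 644) (.cons (nat_lit 769) (.cons (nat_lit 772) (.cons (nat_lit 902) (.cons (nat_lit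 9091) (.cons (nat_lit 900) (.cons (nat_lit 1030) (.cons (nat_lit 1028) (.cons (nat_lit 1158) (.cons (nat_lit 1156) (.cons (nat_lit 1281) (.cons (nat_lit 1284) (.cons (nat_lit 1414) (.cons (nat_lit 1411) (.cons (nat_lit 1412) (.cons (nat_lit 1537) (.cons (nat_lit 1540) (.cons (nat_lit 1670) (.cons (nat_lit 67203) (.cons (nat_lit 75395) (.cons (nat_lit 5) .nil .nil) .nil) .nil) .nil) .nil) .nil) .nil) .nil) .nil) .nil) .nil) .nil) .nil) .nil) .nil) .nil) .nil) .nil) .nil) .nil) .nil) .nil)) .nil) (.cons (nat_lit 522) (.cons (nat_lit 516) (.cons (nat_lit 646) (.cons (nat_lit 8835) (.cons (nat_lit 644) (.cons (nat_lit 774) (.cons (nat_lit 772) (.cons (nat_lit 902) (.cons (nat_lit 900) (.cons (nat_lit 1025) (.cons (nat_lit 1028) (.cons (nat_lit 1158) (.cons (nat_lit 1155) (.cons (nat_lit 1156) (.cons (nat_lit 1281) Uxp0n1173 .nil) .nil) .nil) .nil) .nil) .nil) .nil) .nil) .nil) .nil) .nil) .nil) .nil) .nil) .nil)) .nil) .nil))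 .nil) (.cons (nat_lit 270) (.cons (nat_lit 268) (.cons (nat_lit 393) (.cons (nat_lit 396) (.cons (nat_lit 522) (.cons (nat_lit 516) (.cons (nat_lit 646) Uxp0n1239 (.cons (nat_lit 649) (.cons (nat_lit 652) (.cons (nat_lit 778) Uxp0n1251 .nil) .nil) (.cons (nat_lit 650) (.cons (nat_lit 644) (.cons (nat_lit 769) Uxp0n1251 .nil) .nil) .nil))) .nil) .nil) .nil) (.cons (nat_lit 394) (.cons (nat_lit 388) (.cons (nat_lit 513) (.cons (nat_lit 516) (.cons (nat_lit 646) Uxp0n1239 (.cons (nat_lit 650) (.cons (nat_lit 644) (.cons (nat_lit 769) Uxp0n1251 .nil) .nil) .nil)) .nil) (.cons (nat_lit 522) (.cons (nat_lit 516) (.cons (nat_lit 646) Uxp0n1239 .nil) .nil) .nil)) .nil) .nil)) .nil) .nil))) .nil) .nil))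
def Uxt0 : PT := (.cons (nat_lit 12) (.cons (nat_lit 137) (.cons (nat_lit 140) (.cons (nat_lit 266) (.cons (nat_lit 259) (.cons (nat_lit 5) .nil .nil) (.cons (nat_lit 260) (.cons (nat_lit 394) (.cons (nat_lit 388) (.cons (nat_lit 513) (.cons (nat_lit 515) (.cons (nat_lit 5) .nil .nil) (.cons (nat_lit 516) (.cons (nat_lit 646) (.cons (nat_lit 644) (.cons (nat_lit 769) Uxp0n18 (.cons (nat_lit 774) Uxp0n74 .nil)) .nil) .nil) .nil)) (.cons (nat_lit 518) (.cons (nat_lit 516) (.cons (nat_lit 646) (.cons (nat_lit 644) (.cons (nat_lit 769) (.cons (nat_lit 771) (.cons (nat_lit 644) (.cons (nat_lit 897) Uxp0n89 .nil) .nil) Uxp0n102) (.cons (nat_lit 774) (.cons (nat_lit 33539) Uxp0n114 (.cons (nat_lit 772) (.cons (nat_lit 897) (.cons (nat_lit 899) Uxp0n119 .nil) .nil) .nil)) .nil)) .nil) (.cons (nat_lit 641) (.cons (nat_lit 644) Uxp0n145 .nil) .nil)) .nil) .nil)) .nil) (.cons (nat_lit 385) (.cons (nat_lit 388) Uxp0n361 .nil) (.cons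 (nat_lit 390) (.cons (nat_lit 388) (.cons (nat_lit 522) (.cons (nat_lit 516) (.cons (nat_lit 641) Uxp0n368 Uxp0n385) .nil) (.cons (nat_lit 513) (.cons (nat_lit 516) (.cons (nat_lit 650) Uxp0n368 (.cons (nat_lit 646) (.cons (nat_lit 644) (.cons (nat_lit 769) (.cons (nat_lit 772) (.cons (nat_lit 902) (.cons (nat_lit 900) (.cons (nat_lit 1030) (.cons (nat_lit 1028) (.cons (nat_lit 1153) (.cons (nat_lit 42115) (.cons (nat_lit 1028) (.cons (nat_lit 1286) (.cons (nat_lit 58627) (.cons (nat_lit 1284) (.cons (nat_lit 1414) (.cons (nat_lit 1411) (.cons (nat_lit 25987) (.cons (nat_lit 5) .nil .nil) .nil) (.cons (nat_lit 25995) (.cons (nat_lit 1420) (.cons (nat_lit 1546) Uxp0n129 (.cons (nat_lit 1545) Uxp0n388 .nil)) .nil) .nil)) .nil) .nil) .nil) .nil) .nil) .nil) (.cons (nat_lit 1162) Uxp0n376 .nil)) .nil) .nil) .nil) .nil) .nil) .nil) .nil) .nil)) .nil) (.cons (nat_lit 518) (.cons (nat_lit 515) Uxp0n444 (.cons (nat_lit 516)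 (.cons (nat_lit 641) (.cons (nat_lit 644) (.cons (nat_lit 778) (.cons (nat_lit 771) (.cons (nat_lit 516) (.cons (nat_lit 897) (.cons (nat_lit 900) (.cons (nat_lit 1030) (.cons (nat_lit 1028) (.cons (nat_lit 1153) (.cons (nat_lit 1156) (.cons (nat_lit 1286) (.cons (nat_lit 1284) (.cons (nat_lit 1414) (.cons (nat_lit 25987) Uxp0n24 .nil) .nil) .nil) .nil) .nil) .nil) .nil) .nil) .nil) .nil) .nil) .nil) (.cons (nat_lit 774) (.cons (nat_lit 25347) (.cons (nat_lit 772) (.cons (nat_lit 902) (.cons (nat_lit 900) (.cons (nat_lit 1030) (.cons (nat_lit 33795) (.cons (nat_lit 1028) (.cons (nat_lit 1158) (.cons (nat_lit 58499) Uxp0n460 .nil) .nil) .nil) .nil) .nil) .nil) .nil) .nil) .nil) .nil)) .nil) (.cons (nat_lit 646) (.cons (nat_lit 25219) (.cons (nat_lit 644) (.cons (nat_lit 774) (.cons (nat_lit 772) (.cons (nat_lit 897) (.cons (nat_lit 900) (.cons (nat_lit 1030) (.cons (nat_lit 33795) (.cons (nat_lit 1028) (.cons (nat_lit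 1158) (.cons (nat_lit 50307) Uxp0n460 .nil) .nil) .nil) .nil) .nil) .nil) (.cons (nat_lit 906) (.cons (nat_lit 900) (.cons (nat_lit 1030) (.cons (nat_lit 33795) (.cons (nat_lit 1028) (.cons (nat_lit 1158) (.cons (nat_lit 50307) Uxp0n480 .nil) .nil) .nil) .nil) .nil) .nil) .nil)) .nil) .nil) .nil) (.cons (nat_lit 643) Uxp0n500 (.cons (nat_lit 652) (.cons (nat_lit 777) (.cons (nat_lit 780) (.cons (nat_lit 906) Uxp0n509 .nil) .nil) (.cons (nat_lit 778) (.cons (nat_lit 772) (.cons (nat_lit 897) Uxp0n509 .nil) .nil) .nil)) .nil))) (.cons (nat_lit 650) (.cons (nat_lit 644) (.cons (nat_lit 774) (.cons (nat_lit 25347) (.cons (nat_lit 772) (.cons (nat_lit 902) (.cons (nat_lit 900) (.cons (nat_lit 1030) (.cons (nat_lit 33795) (.cons (nat_lit 1028) (.cons (nat_lit 1158) (.cons (nat_lit 58499) Uxp0n480 .nil) .nil) .nil) .nil) .nil) .nil) .nil) .nil) .nil) .nil) .nil) .nil))) .nil)) .nil))) .nil) .nil))) .nil)) (.cons (nat_lit 270)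 (.cons (nat_lit 268) Uxp0n764 .nil) .nil)) .nil) Uxp0n1277) .nil)
def Uxp0 : Prog := ⟨1, 3, 1, 0, Uxt0, 0, dt0⟩

end Pool.Agent.Hom2.UC
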