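import Pool.Agent.Lib.MP_7e4769_co.Hc.UDb

set_option autoImplicit false
set_option maxRecDepth 100000

namespace Pool.Agent.Hom2.UC

def Uxp1n24 : PT := (.cons (nat_lit 772) (.cons (nat_lit 902) (.cons (nat_lit 899) (.cons (nat_lit 33667) (.cons (nat_lit 5) .nil .nil) .nil) .nil) .nil) .nil)
def Uxp1n34 : PT := (.cons (nat_lit 50435) (.cons (nat_lit 1156) (.cons (nat_lit 1414) (.cons (nat_lit 66947) (.cons (nat_lit 1412) (.cons (nat_lit 1542) (.cons (nat_lit 34307) (.cons (nat_lit 1540) (.cons (nat_lit 1665) (.cons (nat_lit 1667) (.cons (nat_lit 5) .nil .nil) .nil) .nil) .nil) .nil) .nil) .nil) .nil) .nil) .nil) .nil)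
def Uxp1n129 : PT := (.cons (nat_lit 644) (.cons (nat_lit 774) (.cons (nat_lit 25347) (.cons (nat_lit 772) (.cons (nat_lit 897) (.cons (nat_lit 899) (.cons (nat_lit 5) .nil .nil) .nil) .nil) .nil) .nil) .nil) .nil)
def Uxp1n137 : PT := (.cons (nat_lit 42115) (.cons (nat_lit 1028) (.cons (nat_lit 1286) (.cons (nat_lit 58627) (.cons (nat_lit 1284) (.cons (nat_lit 1414) (.cons (nat_lit 1411) (.cons (nat_lit 25987) (.cons (nat_lit 5) .nil .nil) .nil) .nil) .nil) .nil) .nil) .nil) .nil) .nil)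
def Uxp1n146 : PT := (.cons (nat_lit 646) (.cons (nat_lit 644) (.cons (nat_lit 769) (.cons (nat_lit 772) (.cons (nat_lit 902) (.cons (nat_lit 900) (.cons (nat_lit 1030) (.cons (nat_lit 1028) (.cons (nat_lit 1153) Uxp1n137 .nil) .nil) .nil) .nil) .nil) .nil) .nil) .nil) .nil)
def Uxp1n157 : PT := (.cons (nat_lit 654) (.cons (nat_lit 652) (.cons (nat_lit 777) (.cons (nat_lit 780) (.cons (nat_lit 910) (.cons (nat_lit 908) (.cons (nat_lit 1038) (.cons (nat_lit 1036) (.cons (nat_lit 1162) Uxp1n137 .nil) .nil) .nil) .nil) .nil) .nil) .nil) .nil) .nil)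
def Uxp1n179 : PT := (.cons (nat_lit 1156) (.cons (nat_lit 1286) (.cons (nat_lit 66819) (.cons (nat_lit 1284) (.cons (nat_lit 1409) (.cons (nat_lit 50563) (.cons (nat_lit 5) .nil .nil) .nil) .nil) .nil) .nil) .nil) .nil)
def Uxp1n191 : PT := (.cons (nat_lit 524) (.cons (nat_lit 649) (.cons (nat_lit 652) (.cons (nat_lit 782) (.cons (nat_lit 780) (.cons (nat_lit 905) (.cons (nat_lit 908) (.cons (nat_lit 1038) (.cons (nat_lit 1036) (.cons (nat_lit 1166) (.cons (nat_lit 25739) (.cons (nat_lit 1164) (.cons (nat_lit 1294) (.cons (nat_lit 66827) (.cons (nat_lit 1292) (.cons (nat_lit 1418) (.cons (nat_lit 50563) (.cons (nat_lit 5) .nil .nil) .nil) .nil) .nil) .nil) .nil) .nil) .nil) .nil) .nil) .nil) .nil) .nil) .nil) .nil) .nil) (.cons (nat_lit 650) (.cons (nat_lit 644) (.cons (nat_lit 774) (.cons (nat_lit 772) (.cons (nat_lit 897) (.cons (nat_lit 900) (.cons (nat_lit 1030) (.cons (nat_lit 1028) (.cons (nat_lit 1158) (.cons (nat_lit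 25731) Uxp1n179 .nil) .nil) .nil) .nil) .nil) .nil) .nil) .nil) .nil) .nil)) .nil)
def Uxp1n194 : PT := (.cons (nat_lit 1156) (.cons (nat_lit 1281) (.cons (nat_lit 1283) (.cons (nat_lit 5) .nil .nil) .nil) .nil) .nil)
def Uxp1n239 : PT := (.cons (nat_lit 393) (.cons (nat_lit 396) (.cons (nat_lit 522) (.cons (nat_lit 515) (.cons (nat_lit 5) .nil .nil) (.cons (nat_lit 516) (.cons (nat_lit 646) (.cons (nat_lit 644) (.cons (nat_lit 774) (.cons (nat_lit 772) (.cons (nat_lit 902) (.cons (nat_lit 899) (.cons (nat_lit 900) (.cons (nat_lit 1030) (.cons (nat_lit 1028) (.cons (nat_lit 1158) (.cons (nat_lit 42115) (.cons (nat_lit 1156) (.cons (nat_lit 1286) (.cons (nat_lit 50435) (.cons (nat_lit 66819) (.cons (nat_lit 5) .nil .nil) .nil) .nil) .nil) .nil) .nil) .nil) .nil) .nil) .nil) .nil) .nil) .nil) .nil) .nil) .nil) .nil)) (.cons (nat_lit 526) (.cons (nat_lit 524) (.cons (nat_lit 649) (.cons (nat_lit 652) (.cons (nat_lit 778) Uxp1n24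 (.cons (nat_lit 782) (.cons (nat_lit 780) (.cons (nat_lit 905) (.cons (nat_lit 908) (.cons (nat_lit 1038) (.cons (nat_lit 1036) (.cons (nat_lit 1166) (.cons (nat_lit 1164) (.cons (nat_lit 1290) Uxp1n34 .nil) .nil) .nil) .nil) .nil) .nil) .nil) .nil) .nil)) .nil) (.cons (nat_lit 650) (.cons (nat_lit 644) (.cons (nat_lit 769) Uxp1n24 (.cons (nat_lit 774) (.cons (nat_lit 772) (.cons (nat_lit 897) (.cons (nat_lit 900) (.cons (nat_lit 1030) (.cons (nat_lit 1028) (.cons (nat_lit 1158) (.cons (nat_lit 1156) (.cons (nat_lit 1281) Uxp1n34 .nil) .nil) .nil) .nil) .nil) .nil) .nil) .nil) .nil)) .nil) (.cons (nat_lit 654) (.cons (nat_lit 652) (.cons (nat_lit 777) (.cons (nat_lit 779) (.cons (nat_lit 652) (.cons (nat_lit 905) (.cons (nat_lit 908) (.cons (nat_lit 1038) (.cons (nat_lit 1036) (.cons (nat_lit 1161) (.cons (nat_lit 1164) (.cons (nat_lit 1294) (.cons (nat_lit 1292) (.cons (nat_lit 1422) (.cons (nat_lit 34187) (.cons (nat_lit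 1420) (.cons (nat_lit 1550) (.cons (nat_lit 83467) (.cons (nat_lit 1548) (.cons (nat_lit 1674) (.cons (nat_lit 67203) (.cons (nat_lit 5) .nil .nil) .nil) .nil) .nil) .nil) .nil) .nil) .nil) .nil) .nil) .nil) .nil) .nil) .nil) .nil) .nil) (.cons (nat_lit 906) (.cons (nat_lit 900) (.cons (nat_lit 1030) (.cons (nat_lit 1028) (.cons (nat_lit 1153) (.cons (nat_lit 1156) (.cons (nat_lit 1286) (.cons (nat_lit 1284) (.cons (nat_lit 1414) (.cons (nat_lit 34179) (.cons (nat_lit 1412) (.cons (nat_lit 1542) (.cons (nat_lit 83459) (.cons (nat_lit 1540) (.cons (nat_lit 1665) (.cons (nat_lit 67203) (.cons (nat_lit 5) .nil .nil) .nil) .nil) .nil) .nil) .nil) .nil) .nil) .nil) .nil) .nil) .nil) .nil) .nil) .nil) .nil) .nil)) .nil) .nil) (.cons (nat_lit 778) (.cons (nat_lit 772) (.cons (nat_lit 902) (.cons (nat_lit 33667) (.cons (nat_lit 900) (.cons (nat_lit 1030) (.cons (nat_lit 1028) (.cons (nat_lit 1158) (.cons (nat_lit 1155) (.cons (nat_lit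 1156) (.cons (nat_lit 1286) (.cons (nat_lit 42243) (.cons (nat_lit 66819) (.cons (nat_lit 5) .nil .nil) .nil) .nil) .nil) .nil) .nil) .nil) .nil) .nil) .nil) .nil) .nil) .nil) (.cons (nat_lit 782) (.cons (nat_lit 33547) (.cons (nat_lit 780) (.cons (nat_lit 910) (.cons (nat_lit 908) (.cons (nat_lit 1034) (.cons (nat_lit 1028) (.cons (nat_lit 1158) (.cons (nat_lit 42115) (.cons (nat_lit 1156) (.cons (nat_lit 1286) (.cons (nat_lit 1283) (.cons (nat_lit 58627) (.cons (nat_lit 5) .nil .nil) .nil) .nil) .nil) .nil) .nil) .nil) .nil) .nil) .nil) .nil) .nil) .nil) .nil))) .nil) .nil))) .nil) .nil)) .nil) (.cons (nat_lit 398) (.cons (nat_lit 396) (.cons (nat_lit 522) (.cons (nat_lit 516) (.cons (nat_lit 641) Uxp1n129 Uxp1n146) .nil) (.cons (nat_lit 521) (.cons (nat_lit 524) (.cons (nat_lit 650) Uxp1n129 Uxp1n157) .nil) (.cons (nat_lit 526) (.cons (nat_lit 523) Uxp1n191 (.cons (nat_lit 524) (.cons (nat_lit 654) (.cons (nat_lit 25227)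 (.cons (nat_lit 652) (.cons (nat_lit 782) (.cons (nat_lit 780) (.cons (nat_lit 906) (.cons (nat_lit 900) (.cons (nat_lit 1030) (.cons (nat_lit 33795) (.cons (nat_lit 1028) (.cons (nat_lit 1158) (.cons (nat_lit 50307) Uxp1n194 .nil) .nil) .nil) .nil) .nil) .nil) .nil) .nil) .nil) .nil) (.cons (nat_lit 652) (.cons (nat_lit 778) (.cons (nat_lit 772) (.cons (nat_lit 897) (.cons (nat_lit 899) (.cons (nat_lit 644) (.cons (nat_lit 1030) (.cons (nat_lit 1028) (.cons (nat_lit 1158) (.cons (nat_lit 25731) (.cons (nat_lit 1156) (.cons (nat_lit 1286) (.cons (nat_lit 34051) (.cons (nat_lit 66819) (.cons (nat_lit 5) .nil .nil) .nil) .nil) .nil) .nil) .nil) .nil) .nil) .nil) .nil) .nil) .nil) .nil) .nil) .nil)) (.cons (nat_lit 650) (.cons (nat_lit 644) (.cons (nat_lit 774) (.cons (nat_lit 25347) (.cons (nat_lit 772) (.cons (nat_lit 902) (.cons (nat_lit 900) (.cons (nat_lit 1030) (.cons (nat_lit 33795) (.cons (nat_lit 1028) (.cons (nat_lit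 1158) (.cons (nat_lit 58499) Uxp1n194 .nil) .nil) .nil) .nil) .nil) .nil) .nil) .nil) .nil) .nil) .nil) .nil)) .nil)) .nil))) .nil) .nil))
def Uxp1n246 : PT := (.cons (nat_lit 516) (.cons (nat_lit 646) (.cons (nat_lit 643) (.cons (nat_lit 17027) (.cons (nat_lit 5) .nil .nil) .nil) .nil) .nil) .nil)
def Uxp1n251 : PT := (.cons (nat_lit 17035) (.cons (nat_lit 652) (.cons (nat_lit 777) (.cons (nat_lit 780) (.cons (nat_lit 906) (.cons (nat_lit 899) (.cons (nat_lit 5) .nil .nil) .nil) .nil) .nil) .nil) .nil) .nil)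
def Uxp1n255 : PT := (.cons (nat_lit 772) (.cons (nat_lit 902) (.cons (nat_lit 899) (.cons (nat_lit 17283) (.cons (nat_lit 5) .nil .nil) .nil) .nil) .nil) .nil)
def Uxp1n270 : PT := (.cons (nat_lit 33795) (.cons (nat_lit 900) (.cons (nat_lit 1158) (.cons (nat_lit 50307) (.cons (nat_lit 1156) (.cons (nat_lit 1286) (.cons (nat_lit 17667) (.cons (nat_lit 1284) (.cons (nat_lit 1409) (.cons (nat_lit 1411) (.cons (nat_lit 5) .nil .nil) .nil) .nil) .nil) .nil) .nil) .nil) .nil) .nil) .nil) .nil)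
def Uxp1n279 : PT := (.cons (nat_lit 33803) (.cons (nat_lit 908) (.cons (nat_lit 1166) (.cons (nat_lit 50315) (.cons (nat_lit 1164) (.cons (nat_lit 1294) (.cons (nat_lit 17675) (.cons (nat_lit 1292) (.cons (nat_lit 1418) (.cons (nat_lit 1411) (.cons (nat_lit 5) .nil .nil) .nil) .nil) .nil) .nil) .nil) .nil) .nil) .nil) .nil) .nil)
def Uxp1n347 : PT := (.cons (nat_lit 1036) (.cons (nat_lit 1161) (.cons (nat_lit 1164) (.cons (nat_lit 1290) (.cons (nat_lit 1283) (.cons (nat_lit 5) .nil .nil) .nil) .nil) .nil) .nil) .nil)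
def Uxp1n416 : PT := (.cons (nat_lit 900) (.cons (nat_lit 1030) (.cons (nat_lit 25603) (.cons (nat_lit 50179) (.cons (nat_lit 5) .nil .nil) .nil) .nil) .nil) .nil)
def Uxp1n467 : PT := (.cons (nat_lit 1284) (.cons (nat_lit 1414) (.cons (nat_lit 1412) (.cons (nat_lit 1542) (.cons (nat_lit 67075) (.cons (nat_lit 1540) (.cons (nat_lit 1670) (.cons (nat_lit 75395) (.cons (nat_lit 91779) (.cons (nat_lit 5) .nil .nil) .nil) .nil) .nil) .nil) .nil) .nil) .nil) .nil) .nil)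
def Uxp1n480 : PT := (.cons (nat_lit 652) (.cons (nat_lit 778) (.cons (nat_lit 772) (.cons (nat_lit 902) (.cons (nat_lit 899) (.cons (nat_lit 25475) (.cons (nat_lit 5) .nil .nil) (.cons (nat_lit 900) (.cons (nat_lit 1030) (.cons (nat_lit 1028) (.cons (nat_lit 1158) (.cons (nat_lit 1156) (.cons (nat_lit 1286) (.cons (nat_lit 25859) Uxp1n467 .nil) .nil) .nil) .nil) .nil) .nil) .nil)) .nil) .nil) .nil) .nil) .nil)
def Uxp1n512 : PT := (.cons (nat_lit 900) (.cons (nat_lit 1030) (.cons (nat_lit 1028) (.cons (nat_lit 1158) (.cons (nat_lit 1156) (.cons (nat_lit 1286) (.cons (nat_lit 25859) (.cons (nat_lit 1284) (.cons (nat_lit 1414) (.cons (nat_lit 1412) (.cons (nat_lit 1542) (.cons (nat_lit 67075) (.cons (nat_lit 1540) (.cons (nat_lit 1670) (.cons (nat_lit 75395) (.cons (nat_lit 91779) (.cons (nat_lit 644) (.cons (nat_lit 1798) (.cons (nat_lit 1796) (.cons (nat_lit 1926) (.cons (nat_lit 1924) (.cons (nat_lit 2054) (.cons (nat_lit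 10243) (.cons (nat_lit 2052) (.cons (nat_lit 2182) (.cons (nat_lit 2180) (.cons (nat_lit 2310) (.cons (nat_lit 116995) (.cons (nat_lit 2308) (.cons (nat_lit 2438) (.cons (nat_lit 125315) (.cons (nat_lit 141699) (.cons (nat_lit 5) .nil .nil) .nil) .nil) .nil) .nil) .nil) .nil) .nil) .nil) .nil) .nil) .nil) .nil) .nil) .nil) .nil) .nil) .nil) .nil) .nil) .nil) .nil) .nil) .nil) .nil) .nil) .nil) .nil) .nil) .nil) .nil) .nil) .nil)
def Uxp1n526 : PT := (.cons (nat_lit 782) (.cons (nat_lit 780) (.cons (nat_lit 906) (.cons (nat_lit 25475) (.cons (nat_lit 772) (.cons (nat_lit 1030) (.cons (nat_lit 41987) (.cons (nat_lit 1028) (.cons (nat_lit 1158) (.cons (nat_lit 1155) (.cons (nat_lit 9347) (.cons (nat_lit 5) .nil .nil) .nil) .nil) .nil) .nil) .nil) .nil) .nil) .nil) .nil) .nil) .nil)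
def Uxp1n532 : PT := (.cons (nat_lit 908) (.cons (nat_lit 1038) (.cons (nat_lit 50187) (.cons (nat_lit 1036) (.cons (nat_lit 1162) (.cons (nat_lit 9347) (.cons (nat_lit 5) .nil .nil) .nil) .nil) .nil) .nil) .nil) .nil)
def Uxp1n538 : PT := (.cons (nat_lit 25227) (.cons (nat_lit 652) (.cons (nat_lit 782) (.cons (nat_lit 780) (.cons (nat_lit 910) (.cons (nat_lit 907) Uxp1n532 .nil) .nil) .nil) .nil) .nil) .nil)
def Uxp1n575 : PT := (.cons (nat_lit 772) (.cons (nat_lit 902) (.cons (nat_lit 25475) (.cons (nat_lit 900) (.cons (nat_lit 1030) (.cons (nat_lit 1028) (.cons (nat_lit 1158) (.cons (nat_lit 1155) (.cons (nat_lit 1156) (.cons (nat_lit 1286) (.cons (nat_lit 66819) (.cons (nat_lit 1284) (.cons (nat_lit 1409) (.cons (nat_lit 9603) (.cons (nat_lit 5) .nil .nil) .nil) .nil) .nil) .nil) .nil) .nil) .nil) .nil) .nil) .nil) .nil) .nil) .nil) .nil)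
def Uxp1n601 : PT := (.cons (nat_lit 1164) (.cons (nat_lit 1290) (.cons (nat_lit 1284) (.cons (nat_lit 1414) (.cons (nat_lit 1411) (.cons (nat_lit 58755) (.cons (nat_lit 5) .nil .nil) .nil) .nil) .nil) .nil) .nil) .nil)
def Uxp1n618 : PT := (.cons (nat_lit 1292) (.cons (nat_lit 1418) (.cons (nat_lit 9603) (.cons (nat_lit 5) .nil .nil) .nil) .nil) .nil)
def Uxp1n690 : PT := (.cons (nat_lit 1284) (.cons (nat_lit 1414) (.cons (nat_lit 50563) (.cons (nat_lit 58755) (.cons (nat_lit 5) .nil .nil) .nil) .nil) .nil) .nil)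
def Uxp1n744 : PT := (.cons (nat_lit 406) (.cons (nat_lit 404) (.cons (nat_lit 530) (.cons (nat_lit 524) (.cons (nat_lit 654) (.cons (nat_lit 8843) Uxp1n480 (.cons (nat_lit 652) (.cons (nat_lit 778) (.cons (nat_lit 772) (.cons (nat_lit 902) (.cons (nat_lit 899) (.cons (nat_lit 25475) (.cons (nat_lit 644) (.cons (nat_lit 1030) (.cons (nat_lit 1028) (.cons (nat_lit 1158) (.cons (nat_lit 1156) (.cons (nat_lit 1286) (.cons (nat_lit 9475) Uxp1n467 .nil) .nil) .nil) .nil) .nil) .nil) .nil) Uxp1n512) .nil) .nil) .nil) Uxp1n526) Uxp1n538)) (.cons (nat_lit 649) (.cons (nat_lit 652) (.cons (nat_lit 778) Uxp1n575 .nil) .nil) (.cons (nat_lit 650) (.cons (nat_lit 644) (.cons (nat_lit 769) Uxp1n575 .nil) .nil) .nil))) .nil) (.cons (nat_lit 534) (.cons (nat_lit 532) (.cons (nat_lit 658) (.cons (nat_lit 8843) (.cons (nat_lit 524) (.cons (nat_lit 782) (.cons (nat_lit 25355) (.cons (nat_lit 780) (.cons (nat_lit 910) (.cons (nat_lit 908) (.cons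 (nat_lit 1034) (.cons (nat_lit 1028) (.cons (nat_lit 1158) (.cons (nat_lit 1155) (.cons (nat_lit 58499) (.cons (nat_lit 5) .nil .nil) .nil) .nil) .nil) .nil) .nil) .nil) .nil) .nil) .nil) .nil) .nil) .nil) (.cons (nat_lit 657) (.cons (nat_lit 8851) (.cons (nat_lit 532) (.cons (nat_lit 790) (.cons (nat_lit 25363) (.cons (nat_lit 788) (.cons (nat_lit 918) (.cons (nat_lit 916) (.cons (nat_lit 1042) (.cons (nat_lit 1036) (.cons (nat_lit 1161) Uxp1n601 .nil) .nil) (.cons (nat_lit 1041) (.cons (nat_lit 1044) (.cons (nat_lit 1170) Uxp1n601 .nil) .nil) .nil)) .nil) .nil) .nil) .nil) .nil) .nil) .nil) .nil)) (.cons (nat_lit 531) (.cons (nat_lit 532) (.cons (nat_lit 662) (.cons (nat_lit 25235) (.cons (nat_lit 660) (.cons (nat_lit 790) (.cons (nat_lit 788) (.cons (nat_lit 914) Uxp1n532 (.cons (nat_lit 913) (.cons (nat_lit 916) (.cons (nat_lit 1042) (.cons (nat_lit 1036) (.cons (nat_lit 1161) (.cons (nat_lit 1164) (.cons (nat_lit 1294)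 (.cons (nat_lit 50443) Uxp1n618 .nil) .nil) .nil) .nil) .nil) .nil) .nil) .nil)) .nil) .nil) .nil) .nil) .nil) .nil) .nil)) (.cons (nat_lit 529) (.cons (nat_lit 532) (.cons (nat_lit 658) (.cons (nat_lit 652) (.cons (nat_lit 777) (.cons (nat_lit 780) (.cons (nat_lit 910) (.cons (nat_lit 25483) (.cons (nat_lit 908) (.cons (nat_lit 1038) (.cons (nat_lit 1036) (.cons (nat_lit 1166) (.cons (nat_lit 1163) (.cons (nat_lit 1164) (.cons (nat_lit 1294) (.cons (nat_lit 66827) Uxp1n618 .nil) .nil) .nil) .nil) .nil) .nil) .nil) .nil) .nil) (.cons (nat_lit 906) (.cons (nat_lit 900) (.cons (nat_lit 1025) (.cons (nat_lit 1028) (.cons (nat_lit 1158) (.cons (nat_lit 25731) (.cons (nat_lit 1156) (.cons (nat_lit 1286) (.cons (nat_lit 1284) (.cons (nat_lit 1414) (.cons (nat_lit 1411) (.cons (nat_lit 1412) (.cons (nat_lit 1542) (.cons (nat_lit 83459) (.cons (nat_lit 1540) (.cons (nat_lit 1665) (.cons (nat_lit 9859) (.cons (nat_lit 5) .nil .nil)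 .nil) .nil) .nil) .nil) .nil) .nil) .nil) .nil) .nil) .nil) .nil) .nil) .nil) .nil) .nil) .nil) .nil)) .nil) (.cons (nat_lit 778) Uxp1n575 .nil)) .nil) .nil) .nil) .nil))) (.cons (nat_lit 8595) (.cons (nat_lit 404) (.cons (nat_lit 534) (.cons (nat_lit 532) (.cons (nat_lit 662) (.cons (nat_lit 660) (.cons (nat_lit 786) (.cons (nat_lit 780) (.cons (nat_lit 910) (.cons (nat_lit 907) (.cons (nat_lit 908) (.cons (nat_lit 1034) (.cons (nat_lit 1028) (.cons (nat_lit 1158) (.cons (nat_lit 33923) (.cons (nat_lit 42115) (.cons (nat_lit 5) .nil .nil) .nil) .nil) .nil) .nil) .nil) .nil) .nil) .nil) .nil) .nil) .nil) .nil) .nil) .nil) .nil) .nil)) (.cons (nat_lit 402) (.cons (nat_lit 396) (.cons (nat_lit 521) (.cons (nat_lit 524) (.cons (nat_lit 654) (.cons (nat_lit 8843) (.cons (nat_lit 652) (.cons (nat_lit 782) (.cons (nat_lit 780) (.cons (nat_lit 910) (.cons (nat_lit 908) (.cons (nat_lit 1033) (.cons (nat_lit 1036) (.cons (nat_lit 1166)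 (.cons (nat_lit 1163) (.cons (nat_lit 1164) (.cons (nat_lit 1290) Uxp1n690 .nil) .nil) .nil) .nil) .nil) .nil) .nil) .nil) .nil) .nil) .nil) .nil) (.cons (nat_lit 650) (.cons (nat_lit 644) (.cons (nat_lit 769) (.cons (nat_lit 772) (.cons (nat_lit 902) (.cons (nat_lit 9091) (.cons (nat_lit 900) (.cons (nat_lit 1030) (.cons (nat_lit 1028) (.cons (nat_lit 1158) (.cons (nat_lit 1156) (.cons (nat_lit 1281) (.cons (nat_lit 1284) (.cons (nat_lit 1414) (.cons (nat_lit 1411) (.cons (nat_lit 1412) (.cons (nat_lit 1537) (.cons (nat_lit 1540) (.cons (nat_lit 1670) (.cons (nat_lit 67203) (.cons (nat_lit 75395) (.cons (nat_lit 5) .nil .nil) .nil) .nil) .nil) .nil) .nil) .nil) .nil) .nil) .nil) .nil) .nil) .nil) .nil) .nil) .nil) .nil) .nil) .nil) .nil) .nil) .nil)) .nil) (.cons (nat_lit 522) (.cons (nat_lit 516) (.cons (nat_lit 646) (.cons (nat_lit 8835) (.cons (nat_lit 644) (.cons (nat_lit 774) (.cons (nat_lit 772) (.cons (nat_lit 902)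 (.cons (nat_lit 900) (.cons (nat_lit 1025) (.cons (nat_lit 1028) (.cons (nat_lit 1158) (.cons (nat_lit 1155) (.cons (nat_lit 1156) (.cons (nat_lit 1281) Uxp1n690 .nil) .nil) .nil) .nil) .nil) .nil) .nil) .nil) .nil) .nil) .nil) .nil) .nil) .nil) .nil)) .nil) .nil))
def Uxp1n769 : PT := (.cons (nat_lit 772) (.cons (nat_lit 902) (.cons (nat_lit 900) (.cons (nat_lit 1030) (.cons (nat_lit 9219) (.cons (nat_lit 1028) (.cons (nat_lit 1158) (.cons (nat_lit 58499) (.cons (nat_lit 1156) (.cons (nat_lit 1286) (.cons (nat_lit 1283) (.cons (nat_lit 17667) (.cons (nat_lit 5) .nil .nil) .nil) .nil) .nil) .nil) .nil) .nil) .nil) .nil) .nil) .nil) .nil) .nil)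
def Uxp1n792 : PT := (.cons (nat_lit 137) (.cons (nat_lit 140) (.cons (nat_lit 266) (.cons (nat_lit 259) (.cons (nat_lit 5) .nil .nil) (.cons (nat_lit 268) (.cons (nat_lit 394) (.cons (nat_lit 388) (.cons (nat_lit 513) (.cons (nat_lit 515) (.cons (nat_lit 5) .nil .nil) .nil) .nil) .nil) Uxp1n239) .nil)) (.cons (nat_lit 278) (.cons (nat_lit 276) (.cons (nat_lit 402) (.cons (nat_lit 396) (.cons (nat_lit 522) Uxp1n246 (.cons (nat_lit 521) (.cons (nat_lit 524) (.cons (nat_lit 654) Uxp1n251 (.cons (nat_lit 650) (.cons (nat_lit 644) (.cons (nat_lit 769) Uxp1n255 .nil) .nil) .nil)) .nil) (.cons (nat_lit 526) (.cons (nat_lit 524) (.cons (nat_lit 649) (.cons (nat_lit 652) (.cons (nat_lit 782) (.cons (nat_lit 780) (.cons (nat_lit 910) (.cons (nat_lit 908) (.cons (nat_lit 1034) Uxp1n270 (.cons (nat_lit 1033) Uxp1n279 .nil)) .nil) .nil) .nil) .nil) .nil) .nil) .nil) .nil))) .nil) (.cons (nat_lit 401) (.cons (nat_lit 404) (.cons (nat_lit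 530) (.cons (nat_lit 524) (.cons (nat_lit 649) (.cons (nat_lit 652) (.cons (nat_lit 778) Uxp1n255 .nil) .nil) (.cons (nat_lit 650) (.cons (nat_lit 644) (.cons (nat_lit 769) Uxp1n255 .nil) .nil) (.cons (nat_lit 654) Uxp1n251 .nil))) .nil) (.cons (nat_lit 534) (.cons (nat_lit 532) (.cons (nat_lit 658) (.cons (nat_lit 652) (.cons (nat_lit 782) (.cons (nat_lit 780) (.cons (nat_lit 910) (.cons (nat_lit 908) (.cons (nat_lit 1034) Uxp1n270 .nil) .nil) .nil) .nil) .nil) .nil) (.cons (nat_lit 657) (.cons (nat_lit 660) (.cons (nat_lit 790) (.cons (nat_lit 788) (.cons (nat_lit 918) (.cons (nat_lit 916) (.cons (nat_lit 1042) Uxp1n279 .nil) .nil) .nil) .nil) .nil) .nil) .nil)) .nil) .nil)) .nil) (.cons (nat_lit 406) (.cons (nat_lit 404) (.cons (nat_lit 529) (.cons (nat_lit 532) (.cons (nat_lit 662) (.cons (nat_lit 660) (.cons (nat_lit 785) (.cons (nat_lit 788) (.cons (nat_lit 918) (.cons (nat_lit 916) (.cons (nat_lit 1046) (.cons (nat_lit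 17427) (.cons (nat_lit 1044) (.cons (nat_lit 1174) (.cons (nat_lit 58515) (.cons (nat_lit 1172) (.cons (nat_lit 1298) (.cons (nat_lit 42251) (.cons (nat_lit 396) (.cons (nat_lit 1418) (.cons (nat_lit 1411) (.cons (nat_lit 5) .nil .nil) .nil) .nil) .nil) .nil) .nil) .nil) .nil) .nil) .nil) .nil) .nil) .nil) .nil) .nil) .nil) .nil) .nil) .nil) (.cons (nat_lit 530) (.cons (nat_lit 523) (.cons (nat_lit 396) (.cons (nat_lit 650) (.cons (nat_lit 644) (.cons (nat_lit 774) (.cons (nat_lit 772) (.cons (nat_lit 897) (.cons (nat_lit 900) (.cons (nat_lit 1030) (.cons (nat_lit 1028) (.cons (nat_lit 1158) (.cons (nat_lit 17539) Uxp1n179 .nil) .nil) .nil) .nil) .nil) .nil) .nil) .nil) .nil) .nil) .nil) (.cons (nat_lit 524) (.cons (nat_lit 654) (.cons (nat_lit 17035) (.cons (nat_lit 652) (.cons (nat_lit 782) (.cons (nat_lit 780) (.cons (nat_lit 910) (.cons (nat_lit 25483) (.cons (nat_lit 908) (.cons (nat_lit 1038) (.cons (nat_lit 50187) Uxp1n347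 .nil) .nil) .nil) .nil) .nil) .nil) .nil) .nil) .nil) .nil) .nil)) (.cons (nat_lit 534) (.cons (nat_lit 16915) (.cons (nat_lit 532) (.cons (nat_lit 662) (.cons (nat_lit 660) (.cons (nat_lit 786) (.cons (nat_lit 780) (.cons (nat_lit 910) (.cons (nat_lit 25483) (.cons (nat_lit 908) (.cons (nat_lit 1038) (.cons (nat_lit 41995) Uxp1n347 .nil) .nil) .nil) .nil) .nil) .nil) .nil) .nil) .nil) .nil) .nil) .nil))) .nil) .nil))) .nil) .nil)) .nil) (.cons (nat_lit 146) (.cons (nat_lit 140) (.cons (nat_lit 266) (.cons (nat_lit 259) (.cons (nat_lit 5) .nil .nil) (.cons (nat_lit 260) (.cons (nat_lit 390) (.cons (nat_lit 388) (.cons (nat_lit 518) (.cons (nat_lit 516) (.cons (nat_lit 646) (.cons (nat_lit 643) (.cons (nat_lit 644) (.cons (nat_lit 774) (.cons (nat_lit 772) (.cons (nat_lit 902) (.cons (nat_lit 25475) (.cons (nat_lit 900) (.cons (nat_lit 1030) (.cons (nat_lit 33795) (.cons (nat_lit 50179) (.cons (nat_lit 5) .nil .nil) .nil) .nil)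 .nil) .nil) .nil) .nil) .nil) .nil) .nil) .nil) .nil) .nil) .nil) .nil) .nil) .nil)) (.cons (nat_lit 270) (.cons (nat_lit 268) (.cons (nat_lit 394) (.cons (nat_lit 388) (.cons (nat_lit 513) Uxp1n246 .nil) .nil) (.cons (nat_lit 393) (.cons (nat_lit 396) (.cons (nat_lit 522) Uxp1n246 .nil) .nil) (.cons (nat_lit 398) (.cons (nat_lit 396) (.cons (nat_lit 526) (.cons (nat_lit 16907) (.cons (nat_lit 524) (.cons (nat_lit 654) (.cons (nat_lit 652) (.cons (nat_lit 778) (.cons (nat_lit 772) (.cons (nat_lit 902) (.cons (nat_lit 25475) (.cons (nat_lit 900) (.cons (nat_lit 1030) (.cons (nat_lit 1027) (.cons (nat_lit 41987) (.cons (nat_lit 5) .nil .nil) .nil) .nil) .nil) .nil) .nil) .nil) .nil) .nil) .nil) .nil) .nil) (.cons (nat_lit 524) (.cons (nat_lit 650) (.cons (nat_lit 643) (.cons (nat_lit 516) (.cons (nat_lit 774) (.cons (nat_lit 772) (.cons (nat_lit 902) (.cons (nat_lit 17283) Uxp1n416 .nil) .nil) .nil) .nil) .nil) .nil) .nil) .nil))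 (.cons (nat_lit 522) (.cons (nat_lit 516) (.cons (nat_lit 646) (.cons (nat_lit 17027) (.cons (nat_lit 644) (.cons (nat_lit 774) (.cons (nat_lit 772) (.cons (nat_lit 902) (.cons (nat_lit 899) Uxp1n416 .nil) .nil) .nil) .nil) .nil) .nil) .nil) .nil) .nil)) .nil) .nil))) .nil) (.cons (nat_lit 265) (.cons (nat_lit 268) (.cons (nat_lit 398) (.cons (nat_lit 396) (.cons (nat_lit 521) (.cons (nat_lit 524) Uxp1n157 .nil) (.cons (nat_lit 526) (.cons (nat_lit 523) Uxp1n191 .nil) (.cons (nat_lit 522) (.cons (nat_lit 516) Uxp1n146 .nil) .nil))) .nil) .nil) .nil) .nil))) .nil) (.cons (nat_lit 142) (.cons (nat_lit 140) (.cons (nat_lit 266) (.cons (nat_lit 260) (.cons (nat_lit 390) (.cons (nat_lit 388) (.cons (nat_lit 518) (.cons (nat_lit 515) (.cons (nat_lit 516) (.cons (nat_lit 646) (.cons (nat_lit 8835) (.cons (nat_lit 25219) (.cons (nat_lit 5) .nil .nil) .nil) .nil) .nil) .nil) .nil) (.cons (nat_lit 521) (.cons (nat_lit 524) (.cons (nat_lit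 654) (.cons (nat_lit 8843) Uxp1n480 (.cons (nat_lit 652) (.cons (nat_lit 778) (.cons (nat_lit 772) (.cons (nat_lit 902) (.cons (nat_lit 899) Uxp1n512 .nil) .nil) .nil) Uxp1n526) Uxp1n538)) .nil) .nil) .nil)) .nil) .nil) .nil) (.cons (nat_lit 273) (.cons (nat_lit 276) Uxp1n744 .nil) (.cons (nat_lit 278) (.cons (nat_lit 276) (.cons (nat_lit 402) (.cons (nat_lit 396) (.cons (nat_lit 522) (.cons (nat_lit 516) (.cons (nat_lit 646) (.cons (nat_lit 644) (.cons (nat_lit 774) (.cons (nat_lit 8963) (.cons (nat_lit 772) (.cons (nat_lit 902) (.cons (nat_lit 41859) (.cons (nat_lit 900) (.cons (nat_lit 1030) (.cons (nat_lit 1027) (.cons (nat_lit 17411) (.cons (nat_lit 5) .nil .nil) .nil) .nil) .nil) .nil) .nil) .nil) .nil) .nil) .nil) .nil) .nil) .nil) (.cons (nat_lit 521) (.cons (nat_lit 524) (.cons (nat_lit 650) (.cons (nat_lit 644) (.cons (nat_lit 769) Uxp1n769 .nil) .nil) .nil) .nil) .nil)) .nil) (.cons (nat_lit 401) (.cons (nat_lit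 404) (.cons (nat_lit 530) (.cons (nat_lit 524) (.cons (nat_lit 649) (.cons (nat_lit 652) (.cons (nat_lit 778) Uxp1n769 .nil) .nil) (.cons (nat_lit 650) (.cons (nat_lit 644) (.cons (nat_lit 769) Uxp1n769 .nil) .nil) .nil)) .nil) .nil) .nil) .nil)) .nil) .nil))) .nil) .nil)))
def Uxt1 : PT := (.cons (nat_lit 12) Uxp1n792 .nil)
def Uxp1 : Prog := ⟨26, 3, 1, 0, Uxt1, 0, dt0⟩

end Pool.Agent.Hom2.UC
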