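import Pool.Agent.Lib.MP_7e4769_co.Hc.UDb

set_option autoImplicit false
set_option maxRecDepth 100000

namespace Pool.Agent.Hom2.UC

def Uxp10n4 : PT := (.cons (nat_lit 772) (.cons (nat_lit 902) (.cons (nat_lit 899) (.cons (nat_lit 33667) (.cons (nat_lit 5) .nil .nil) .nil) .nil) .nil) .nil)
def Uxp10n12 : PT := (.cons (nat_lit 526) (.cons (nat_lit 524) (.cons (nat_lit 649) (.cons (nat_lit 652) (.cons (nat_lit 778) Uxp10n4 .nil) .nil) (.cons (nat_lit 650) (.cons (nat_lit 644) (.cons (nat_lit 769) Uxp10n4 .nil) .nil) .nil)) .nil) .nil)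
def Uxp10n22 : PT := (.cons (nat_lit 780) (.cons (nat_lit 906) (.cons (nat_lit 899) (.cons (nat_lit 5) .nil .nil) .nil) .nil) .nil)
def Uxp10n39 : PT := (.cons (nat_lit 780) (.cons (nat_lit 910) (.cons (nat_lit 908) (.cons (nat_lit 1038) (.cons (nat_lit 1036) (.cons (nat_lit 1162) (.cons (nat_lit 42115) (.cons (nat_lit 1028) (.cons (nat_lit 1286) (.cons (nat_lit 58627) (.cons (nat_lit 1284) (.cons (nat_lit 1414) (.cons (nat_lit 1411) (.cons (nat_lit 25987) (.cons (nat_lit 5) .nil .nil) .nil) .nil) .nil) .nil) .nil) .nil) .nil) .nil) .nil) .nil) .nil) .nil) .nil) .nil)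
def Uxp10n55 : PT := (.cons (nat_lit 1164) (.cons (nat_lit 1294) (.cons (nat_lit 66827) (.cons (nat_lit 1292) (.cons (nat_lit 1418) (.cons (nat_lit 50563) (.cons (nat_lit 5) .nil .nil) .nil) .nil) .nil) .nil) .nil) .nil)
def Uxp10n60 : PT := (.cons (nat_lit 908) (.cons (nat_lit 1038) (.cons (nat_lit 1036) (.cons (nat_lit 1166) (.cons (nat_lit 25739) Uxp10n55 .nil) .nil) .nil) .nil) .nil)
def Uxp10n73 : PT := (.cons (nat_lit 534) (.cons (nat_lit 531) (.cons (nat_lit 532) (.cons (nat_lit 657) (.cons (nat_lit 660) (.cons (nat_lit 790) (.cons (nat_lit 788) (.cons (nat_lit 914) Uxp10n60 .nil) .nil) .nil) .nil) (.cons (nat_lit 658) (.cons (nat_lit 652) (.cons (nat_lit 782) (.cons (nat_lit 780) (.cons (nat_lit 905) Uxp10n60 .nil) .nil) .nil) .nil) .nil)) .nil) .nil) .nil)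
def Uxp10n94 : PT := (.cons (nat_lit 1028) (.cons (nat_lit 1153) (.cons (nat_lit 1155) (.cons (nat_lit 5) .nil .nil) .nil) .nil) .nil)
def Uxp10n105 : PT := (.cons (nat_lit 654) (.cons (nat_lit 652) (.cons (nat_lit 778) (.cons (nat_lit 772) (.cons (nat_lit 897) (.cons (nat_lit 900) (.cons (nat_lit 1030) (.cons (nat_lit 41987) Uxp10n94 .nil) .nil) .nil) .nil) .nil) (.cons (nat_lit 777) (.cons (nat_lit 780) (.cons (nat_lit 906) (.cons (nat_lit 900) (.cons (nat_lit 1030) (.cons (nat_lit 41987) Uxp10n94 .nil) .nil) .nil) .nil) .nil) .nil)) .nil) .nil)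
def Uxp10n121 : PT := (.cons (nat_lit 1028) (.cons (nat_lit 1158) (.cons (nat_lit 1155) (.cons (nat_lit 50307) (.cons (nat_lit 5) .nil .nil) .nil) .nil) .nil) .nil)
def Uxp10n137 : PT := (.cons (nat_lit 1036) (.cons (nat_lit 1162) (.cons (nat_lit 1155) (.cons (nat_lit 5) .nil .nil) .nil) .nil) .nil)
def Uxp10n145 : PT := (.cons (nat_lit 1028) (.cons (nat_lit 1158) (.cons (nat_lit 1155) (.cons (nat_lit 33923) (.cons (nat_lit 5) .nil .nil) .nil) .nil) .nil) .nil)
def Uxp10n169 : PT := (.cons (nat_lit 908) (.cons (nat_lit 1038) (.cons (nat_lit 1036) (.cons (nat_lit 1166) (.cons (nat_lit 1164) (.cons (nat_lit 1290) (.cons (nat_lit 50435) (.cons (nat_lit 1156) (.cons (nat_lit 1414) (.cons (nat_lit 66947) (.cons (nat_lit 1412) (.cons (nat_lit 1542) (.cons (nat_lit 34307) (.cons (nat_lit 1540) (.cons (nat_lit 1665) (.cons (nat_lit 1667) (.cons (nat_lit 5) .nil .nil) .nil) .nil) .nil) .nil) .nil) .nil) .nil) .nil) .nil) .nil) .nil)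 .nil) .nil) .nil) .nil) .nil)
def Uxp10n196 : PT := (.cons (nat_lit 1164) (.cons (nat_lit 1294) (.cons (nat_lit 1292) (.cons (nat_lit 1422) (.cons (nat_lit 34187) (.cons (nat_lit 1420) (.cons (nat_lit 1550) (.cons (nat_lit 83467) (.cons (nat_lit 1548) (.cons (nat_lit 1674) (.cons (nat_lit 67203) (.cons (nat_lit 5) .nil .nil) .nil) .nil) .nil) .nil) .nil) .nil) .nil) .nil) .nil) .nil) .nil)
def Uxp10n222 : PT := (.cons (nat_lit 772) (.cons (nat_lit 897) (.cons (nat_lit 900) (.cons (nat_lit 1030) (.cons (nat_lit 25603) Uxp10n94 .nil) .nil) .nil) .nil) .nil)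
def Uxp10n246 : PT := (.cons (nat_lit 772) (.cons (nat_lit 902) (.cons (nat_lit 899) (.cons (nat_lit 17283) (.cons (nat_lit 5) .nil .nil) .nil) .nil) .nil) .nil)
def Uxp10n250 : PT := (.cons (nat_lit 1028) (.cons (nat_lit 1158) (.cons (nat_lit 1155) (.cons (nat_lit 17539) (.cons (nat_lit 5) .nil .nil) .nil) .nil) .nil) .nil)
def Uxp10n256 : PT := (.cons (nat_lit 906) (.cons (nat_lit 900) (.cons (nat_lit 1025) Uxp10n250 .nil) .nil) (.cons (nat_lit 910) (.cons (nat_lit 17291) (.cons (nat_lit 908) (.cons (nat_lit 1033) Uxp10n137 .nil) .nil) .nil) .nil))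
def Uxp10n260 : PT := (.cons (nat_lit 652) (.cons (nat_lit 778) Uxp10n246 (.cons (nat_lit 777) (.cons (nat_lit 780) Uxp10n256 .nil) .nil)) .nil)
def Uxp10n266 : PT := (.cons (nat_lit 17043) (.cons (nat_lit 660) (.cons (nat_lit 786) Uxp10n22 (.cons (nat_lit 785) (.cons (nat_lit 788) (.cons (nat_lit 914) (.cons (nat_lit 908) (.cons (nat_lit 1033) Uxp10n137 .nil) .nil) .nil) .nil) .nil)) .nil) .nil)
def Uxp10n292 : PT := (.cons (nat_lit 660) (.cons (nat_lit 790) (.cons (nat_lit 788) (.cons (nat_lit 918) (.cons (nat_lit 916) (.cons (nat_lit 1042) (.cons (nat_lit 33803) (.cons (nat_lit 908) (.cons (nat_lit 1166) (.cons (nat_lit 50315) (.cons (nat_lit 1164) (.cons (nat_lit 1294) (.cons (nat_lit 17675) (.cons (nat_lit 1292) (.cons (nat_lit 1418) (.cons (nat_lit 1411) (.cons (nat_lit 5) .nil .nil) .nil) .nil) .nil) .nil) .nil) .nil) .nil) .nil) .nil) .nil) .nil) .nil) .nil) .nil) .nil) .nil)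
def Uxp10n366 : PT := (.cons (nat_lit 274) (.cons (nat_lit 268) (.cons (nat_lit 394) (.cons (nat_lit 388) (.cons (nat_lit 513) (.cons (nat_lit 515) (.cons (nat_lit 5) .nil .nil) (.cons (nat_lit 524) Uxp10n105 .nil)) (.cons (nat_lit 522) (.cons (nat_lit 515) (.cons (nat_lit 5) .nil .nil) .nil) (.cons (nat_lit 526) (.cons (nat_lit 524) (.cons (nat_lit 650) (.cons (nat_lit 644) (.cons (nat_lit 769) Uxp10n4 .nil) .nil) (.cons (nat_lit 649) (.cons (nat_lit 652) (.cons (nat_lit 778) Uxp10n4 .nil) .nil) .nil)) .nil) .nil))) .nil) (.cons (nat_lit 393) (.cons (nat_lit 396) (.cons (nat_lit 522) (.cons (nat_lit 515) (.cons (nat_lit 5) .nil .nil) (.cons (nat_lit 524) (.cons (nat_lit 650) (.cons (nat_lit 644) (.cons (nat_lit 769) (.cons (nat_lit 771) (.cons (nat_lit 5) .nil .nil) .nil) .nil) .nil) (.cons (nat_lit 649) (.cons (nat_lit 652) (.cons (nat_lit 778) (.cons (nat_lit 771) (.cons (nat_lit 5) .nil .nil) .nil) (.cons (nat_lit 782)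 (.cons (nat_lit 780) (.cons (nat_lit 905) (.cons (nat_lit 908) (.cons (nat_lit 1034) Uxp10n121 .nil) .nil) (.cons (nat_lit 906) (.cons (nat_lit 900) (.cons (nat_lit 1025) Uxp10n121 .nil) .nil) .nil)) .nil) .nil)) .nil) Uxp10n105)) .nil)) (.cons (nat_lit 534) (.cons (nat_lit 532) (.cons (nat_lit 657) (.cons (nat_lit 660) (.cons (nat_lit 786) (.cons (nat_lit 780) (.cons (nat_lit 910) (.cons (nat_lit 33675) (.cons (nat_lit 908) (.cons (nat_lit 1034) Uxp10n94 (.cons (nat_lit 1033) Uxp10n137 .nil)) .nil) .nil) (.cons (nat_lit 905) (.cons (nat_lit 908) (.cons (nat_lit 1034) Uxp10n145 .nil) .nil) (.cons (nat_lit 906) (.cons (nat_lit 900) (.cons (nat_lit 1025) Uxp10n145 .nil) .nil) .nil))) .nil) (.cons (nat_lit 790) (.cons (nat_lit 788) (.cons (nat_lit 914) Uxp10n169 .nil) .nil) .nil)) .nil) (.cons (nat_lit 658) (.cons (nat_lit 652) (.cons (nat_lit 777) (.cons (nat_lit 780) (.cons (nat_lit 910) (.cons (nat_lit 33675) (.cons (nat_lit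 908) (.cons (nat_lit 1033) Uxp10n137 (.cons (nat_lit 1034) Uxp10n94 .nil)) .nil) .nil) (.cons (nat_lit 906) (.cons (nat_lit 900) (.cons (nat_lit 1025) Uxp10n145 .nil) .nil) .nil)) .nil) (.cons (nat_lit 782) (.cons (nat_lit 780) (.cons (nat_lit 905) Uxp10n169 .nil) .nil) .nil)) .nil) (.cons (nat_lit 662) (.cons (nat_lit 660) (.cons (nat_lit 785) (.cons (nat_lit 787) (.cons (nat_lit 660) (.cons (nat_lit 913) (.cons (nat_lit 916) (.cons (nat_lit 1046) (.cons (nat_lit 1044) (.cons (nat_lit 1170) Uxp10n196 .nil) .nil) .nil) .nil) (.cons (nat_lit 914) (.cons (nat_lit 908) (.cons (nat_lit 1038) (.cons (nat_lit 1036) (.cons (nat_lit 1161) Uxp10n196 .nil) .nil) .nil) .nil) .nil)) .nil) .nil) .nil) .nil) .nil))) .nil) .nil)) .nil) (.cons (nat_lit 406) (.cons (nat_lit 404) (.cons (nat_lit 529) (.cons (nat_lit 532) (.cons (nat_lit 658) (.cons (nat_lit 652) (.cons (nat_lit 782) (.cons (nat_lit 25355) Uxp10n22 .nil) (.cons (nat_lit 778)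 Uxp10n222 (.cons (nat_lit 777) (.cons (nat_lit 780) (.cons (nat_lit 906) (.cons (nat_lit 900) (.cons (nat_lit 1030) (.cons (nat_lit 25603) Uxp10n94 .nil) .nil) .nil) .nil) .nil) .nil))) .nil) (.cons (nat_lit 662) (.cons (nat_lit 660) (.cons (nat_lit 786) Uxp10n39 .nil) .nil) .nil)) .nil) (.cons (nat_lit 530) (.cons (nat_lit 524) (.cons (nat_lit 649) (.cons (nat_lit 652) (.cons (nat_lit 782) (.cons (nat_lit 25355) Uxp10n22 .nil) (.cons (nat_lit 778) Uxp10n222 .nil)) .nil) (.cons (nat_lit 654) (.cons (nat_lit 652) (.cons (nat_lit 777) Uxp10n39 .nil) .nil) .nil)) .nil) Uxp10n73)) .nil) .nil))) .nil) (.cons (nat_lit 286) (.cons (nat_lit 284) (.cons (nat_lit 409) (.cons (nat_lit 412) (.cons (nat_lit 538) (.cons (nat_lit 532) (.cons (nat_lit 658) Uxp10n260 (.cons (nat_lit 662) Uxp10n266 (.cons (nat_lit 657) (.cons (nat_lit 660) (.cons (nat_lit 786) (.cons (nat_lit 780) (.cons (nat_lit 905) (.cons (nat_lit 908) (.cons (nat_lit 1034)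 Uxp10n250 .nil) .nil) Uxp10n256) .nil) .nil) .nil) .nil))) .nil) (.cons (nat_lit 542) (.cons (nat_lit 540) (.cons (nat_lit 666) Uxp10n292 .nil) .nil) .nil)) .nil) (.cons (nat_lit 410) (.cons (nat_lit 404) (.cons (nat_lit 529) (.cons (nat_lit 532) (.cons (nat_lit 658) Uxp10n260 (.cons (nat_lit 662) Uxp10n266 .nil)) .nil) (.cons (nat_lit 530) (.cons (nat_lit 524) (.cons (nat_lit 649) (.cons (nat_lit 652) (.cons (nat_lit 778) Uxp10n246 .nil) .nil) (.cons (nat_lit 650) (.cons (nat_lit 644) (.cons (nat_lit 769) Uxp10n246 .nil) .nil) .nil)) .nil) (.cons (nat_lit 534) (.cons (nat_lit 532) (.cons (nat_lit 658) (.cons (nat_lit 652) (.cons (nat_lit 782) (.cons (nat_lit 780) (.cons (nat_lit 910) (.cons (nat_lit 908) (.cons (nat_lit 1034) (.cons (nat_lit 33795) (.cons (nat_lit 900) (.cons (nat_lit 1158) (.cons (nat_lit 50307) (.cons (nat_lit 1156) (.cons (nat_lit 1286) (.cons (nat_lit 17667) (.cons (nat_lit 1284) (.cons (nat_lit 1409)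 (.cons (nat_lit 1411) (.cons (nat_lit 5) .nil .nil) .nil) .nil) .nil) .nil) .nil) .nil) .nil) .nil) .nil) .nil) .nil) .nil) .nil) .nil) .nil) .nil) (.cons (nat_lit 657) Uxp10n292 .nil)) .nil) .nil))) .nil) (.cons (nat_lit 414) (.cons (nat_lit 412) (.cons (nat_lit 537) (.cons (nat_lit 540) (.cons (nat_lit 670) (.cons (nat_lit 668) (.cons (nat_lit 794) (.cons (nat_lit 788) (.cons (nat_lit 918) (.cons (nat_lit 916) (.cons (nat_lit 1046) (.cons (nat_lit 17427) (.cons (nat_lit 1044) (.cons (nat_lit 1174) (.cons (nat_lit 58515) (.cons (nat_lit 1172) (.cons (nat_lit 1298) (.cons (nat_lit 42251) (.cons (nat_lit 396) (.cons (nat_lit 1418) (.cons (nat_lit 1411) (.cons (nat_lit 5) .nil .nil) .nil) .nil) .nil) .nil) .nil) .nil) .nil) .nil) .nil) .nil) .nil) .nil) .nil) .nil) .nil) .nil) .nil) .nil) (.cons (nat_lit 538) (.cons (nat_lit 531) (.cons (nat_lit 404) (.cons (nat_lit 658) (.cons (nat_lit 652) (.cons (nat_lit 782) (.cons (nat_lit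 780) (.cons (nat_lit 905) (.cons (nat_lit 908) (.cons (nat_lit 1038) (.cons (nat_lit 1036) (.cons (nat_lit 1166) (.cons (nat_lit 17547) Uxp10n55 .nil) .nil) .nil) .nil) .nil) .nil) .nil) .nil) .nil) .nil) .nil) .nil) .nil)) .nil) .nil))) .nil) .nil))
def Uxp10n402 : PT := (.cons (nat_lit 1292) (.cons (nat_lit 1418) (.cons (nat_lit 9603) (.cons (nat_lit 5) .nil .nil) .nil) .nil) .nil)
def Uxp10n413 : PT := (.cons (nat_lit 780) (.cons (nat_lit 910) (.cons (nat_lit 25483) (.cons (nat_lit 908) (.cons (nat_lit 1038) (.cons (nat_lit 1036) (.cons (nat_lit 1166) (.cons (nat_lit 1163) (.cons (nat_lit 1164) (.cons (nat_lit 1294) (.cons (nat_lit 66827) Uxp10n402 .nil) .nil) .nil) .nil) .nil) .nil) .nil) .nil) .nil) .nil) .nil)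
def Uxp10n441 : PT := (.cons (nat_lit 1548) (.cons (nat_lit 1674) (.cons (nat_lit 9859) (.cons (nat_lit 5) .nil .nil) .nil) .nil) .nil)
def Uxp10n501 : PT := (.cons (nat_lit 1164) (.cons (nat_lit 1290) (.cons (nat_lit 1284) (.cons (nat_lit 1414) (.cons (nat_lit 1411) (.cons (nat_lit 58755) (.cons (nat_lit 5) .nil .nil) .nil) .nil) .nil) .nil) .nil) .nil)
def Uxp10n529 : PT := (.cons (nat_lit 1036) (.cons (nat_lit 1166) (.cons (nat_lit 1163) (.cons (nat_lit 1164) (.cons (nat_lit 1290) (.cons (nat_lit 1284) (.cons (nat_lit 1414) (.cons (nat_lit 50563) (.cons (nat_lit 58755) (.cons (nat_lit 5) .nil .nil) .nil) .nil) .nil) .nil) .nil) .nil) .nil) .nil) .nil)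
def Uxp10n576 : PT := (.cons (nat_lit 282) (.cons (nat_lit 276) (.cons (nat_lit 406) (.cons (nat_lit 404) (.cons (nat_lit 530) (.cons (nat_lit 524) (.cons (nat_lit 654) (.cons (nat_lit 8843) (.cons (nat_lit 652) (.cons (nat_lit 778) (.cons (nat_lit 772) (.cons (nat_lit 902) (.cons (nat_lit 899) (.cons (nat_lit 25475) (.cons (nat_lit 5) .nil .nil) .nil) .nil) .nil) .nil) .nil) .nil) (.cons (nat_lit 652) (.cons (nat_lit 782) (.cons (nat_lit 780) (.cons (nat_lit 906) (.cons (nat_lit 25475) (.cons (nat_lit 772) (.cons (nat_lit 1030) (.cons (nat_lit 41987) (.cons (nat_lit 1028) (.cons (nat_lit 1158) (.cons (nat_lit 1155) (.cons (nat_lit 9347) (.cons (nat_lit 5) .nil .nil) .nil) .nil) .nil) .nil) .nil) .nil) .nil) .nil) .nil) .nil) .nil) (.cons (nat_lit 25227) (.cons (nat_lit 652) (.cons (nat_lit 782) (.cons (nat_lit 780) (.cons (nat_lit 910) (.cons (nat_lit 907) (.cons (nat_lit 908) (.cons (nat_lit 1038) (.cons (nat_lit 50187)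 (.cons (nat_lit 1036) (.cons (nat_lit 1162) (.cons (nat_lit 9347) (.cons (nat_lit 5) .nil .nil) .nil) .nil) .nil) .nil) .nil) .nil) .nil) .nil) .nil) .nil) .nil) .nil))) .nil) .nil) (.cons (nat_lit 529) (.cons (nat_lit 532) (.cons (nat_lit 658) (.cons (nat_lit 652) (.cons (nat_lit 777) Uxp10n413 .nil) .nil) .nil) .nil) .nil)) (.cons (nat_lit 8595) (.cons (nat_lit 404) (.cons (nat_lit 534) (.cons (nat_lit 532) (.cons (nat_lit 662) (.cons (nat_lit 660) (.cons (nat_lit 786) (.cons (nat_lit 780) (.cons (nat_lit 910) (.cons (nat_lit 907) (.cons (nat_lit 908) (.cons (nat_lit 1034) (.cons (nat_lit 1028) (.cons (nat_lit 1158) (.cons (nat_lit 33923) (.cons (nat_lit 42115) (.cons (nat_lit 5) .nil .nil) .nil) .nil) .nil) .nil) .nil) .nil) .nil) .nil) .nil) .nil) .nil) .nil) .nil) .nil) .nil) .nil)) .nil) .nil) (.cons (nat_lit 281) (.cons (nat_lit 284) (.cons (nat_lit 414) (.cons (nat_lit 412) (.cons (nat_lit 537) (.cons (nat_lit 540)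 (.cons (nat_lit 666) (.cons (nat_lit 660) (.cons (nat_lit 786) Uxp10n413 (.cons (nat_lit 785) (.cons (nat_lit 788) (.cons (nat_lit 914) (.cons (nat_lit 908) (.cons (nat_lit 1033) (.cons (nat_lit 1036) (.cons (nat_lit 1166) (.cons (nat_lit 25739) (.cons (nat_lit 1164) (.cons (nat_lit 1294) (.cons (nat_lit 1292) (.cons (nat_lit 1422) (.cons (nat_lit 1419) (.cons (nat_lit 1420) (.cons (nat_lit 1550) (.cons (nat_lit 83467) Uxp10n441 .nil) .nil) .nil) .nil) .nil) .nil) .nil) .nil) .nil) .nil) .nil) .nil) .nil) .nil) .nil) .nil)) .nil) .nil) .nil) (.cons (nat_lit 538) (.cons (nat_lit 532) (.cons (nat_lit 657) (.cons (nat_lit 660) (.cons (nat_lit 786) Uxp10n413 .nil) .nil) (.cons (nat_lit 658) (.cons (nat_lit 652) (.cons (nat_lit 777) Uxp10n413 .nil) .nil) .nil)) .nil) (.cons (nat_lit 542) (.cons (nat_lit 539) (.cons (nat_lit 540) (.cons (nat_lit 670) (.cons (nat_lit 25243) (.cons (nat_lit 668) (.cons (nat_lit 798) (.cons (nat_lit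 796) (.cons (nat_lit 922) (.cons (nat_lit 916) (.cons (nat_lit 1042) (.cons (nat_lit 1036) (.cons (nat_lit 1161) (.cons (nat_lit 1164) (.cons (nat_lit 1294) (.cons (nat_lit 50443) Uxp10n402 .nil) .nil) .nil) .nil) .nil) (.cons (nat_lit 1041) (.cons (nat_lit 1044) (.cons (nat_lit 1170) (.cons (nat_lit 1164) (.cons (nat_lit 1294) (.cons (nat_lit 50443) Uxp10n402 .nil) .nil) .nil) .nil) .nil) .nil)) .nil) (.cons (nat_lit 921) (.cons (nat_lit 924) (.cons (nat_lit 1050) (.cons (nat_lit 1044) (.cons (nat_lit 1170) (.cons (nat_lit 1164) (.cons (nat_lit 1294) (.cons (nat_lit 50443) Uxp10n402 .nil) .nil) .nil) (.cons (nat_lit 1169) (.cons (nat_lit 1172) (.cons (nat_lit 1298) (.cons (nat_lit 1292) (.cons (nat_lit 1417) (.cons (nat_lit 1420) (.cons (nat_lit 1550) (.cons (nat_lit 50699) Uxp10n441 .nil) .nil) .nil) .nil) .nil) .nil) .nil) .nil)) .nil) .nil) .nil) .nil)) .nil) .nil) .nil) .nil) .nil) .nil) (.cons (nat_lit 540) (.cons (nat_lit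 666) (.cons (nat_lit 8851) (.cons (nat_lit 532) (.cons (nat_lit 790) (.cons (nat_lit 25363) (.cons (nat_lit 788) (.cons (nat_lit 918) (.cons (nat_lit 916) (.cons (nat_lit 1042) (.cons (nat_lit 1036) (.cons (nat_lit 1161) Uxp10n501 .nil) .nil) (.cons (nat_lit 1041) (.cons (nat_lit 1044) (.cons (nat_lit 1170) Uxp10n501 .nil) .nil) .nil)) .nil) .nil) .nil) .nil) .nil) .nil) .nil) .nil) .nil)) .nil))) .nil) (.cons (nat_lit 410) (.cons (nat_lit 404) (.cons (nat_lit 529) (.cons (nat_lit 532) (.cons (nat_lit 662) (.cons (nat_lit 8851) (.cons (nat_lit 660) (.cons (nat_lit 790) (.cons (nat_lit 788) (.cons (nat_lit 918) (.cons (nat_lit 916) (.cons (nat_lit 1042) Uxp10n529 .nil) .nil) .nil) .nil) .nil) .nil) .nil) (.cons (nat_lit 658) (.cons (nat_lit 652) (.cons (nat_lit 777) (.cons (nat_lit 780) (.cons (nat_lit 910) (.cons (nat_lit 9099) (.cons (nat_lit 908) (.cons (nat_lit 1038) (.cons (nat_lit 1036) (.cons (nat_lit 1166) (.cons (nat_lit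 1164) (.cons (nat_lit 1289) (.cons (nat_lit 1292) (.cons (nat_lit 1422) (.cons (nat_lit 1419) (.cons (nat_lit 1420) (.cons (nat_lit 1546) (.cons (nat_lit 1540) (.cons (nat_lit 1670) (.cons (nat_lit 67203) (.cons (nat_lit 75395) (.cons (nat_lit 5) .nil .nil) .nil) .nil) .nil) .nil) .nil) .nil) .nil) .nil) .nil) .nil) .nil) .nil) .nil) .nil) .nil) .nil) .nil) .nil) .nil) .nil) .nil)) .nil) (.cons (nat_lit 530) (.cons (nat_lit 524) (.cons (nat_lit 654) (.cons (nat_lit 8843) (.cons (nat_lit 652) (.cons (nat_lit 782) (.cons (nat_lit 780) (.cons (nat_lit 910) (.cons (nat_lit 908) (.cons (nat_lit 1033) Uxp10n529 .nil) .nil) .nil) .nil) .nil) .nil) .nil) .nil) .nil) .nil)) .nil) .nil)) .nil) .nil))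
def Uxt10 : PT := (.cons (nat_lit 20) (.cons (nat_lit 146) (.cons (nat_lit 140) (.cons (nat_lit 266) (.cons (nat_lit 259) (.cons (nat_lit 5) .nil .nil) (.cons (nat_lit 268) (.cons (nat_lit 393) (.cons (nat_lit 396) Uxp10n12 .nil) .nil) .nil)) (.cons (nat_lit 273) (.cons (nat_lit 276) (.cons (nat_lit 402) (.cons (nat_lit 396) (.cons (nat_lit 522) (.cons (nat_lit 515) (.cons (nat_lit 5) .nil .nil) .nil) Uxp10n12) .nil) (.cons (nat_lit 406) (.cons (nat_lit 404) (.cons (nat_lit 529) (.cons (nat_lit 532) (.cons (nat_lit 658) (.cons (nat_lit 652) (.cons (nat_lit 782) (.cons (nat_lit 25355) Uxp10n22 .nil) .nil) .nil) (.cons (nat_lit 662) (.cons (nat_lit 660) (.cons (nat_lit 786) Uxp10n39 .nil) .nil) .nil)) .nil) (.cons (nat_lit 530) (.cons (nat_lit 524) (.cons (nat_lit 649) (.cons (nat_lit 652) (.cons (nat_lit 782) (.cons (nat_lit 25355) Uxp10n22 .nil) .nil) .nil) (.cons (nat_lit 654) (.cons (nat_lit 652) (.cons (nat_lit 777) Uxp10n39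 .nil) .nil) .nil)) .nil) Uxp10n73)) .nil) .nil)) .nil) (.cons (nat_lit 278) (.cons (nat_lit 276) (.cons (nat_lit 402) (.cons (nat_lit 396) (.cons (nat_lit 522) (.cons (nat_lit 516) (.cons (nat_lit 646) (.cons (nat_lit 643) (.cons (nat_lit 17027) (.cons (nat_lit 5) .nil .nil) .nil) .nil) .nil) .nil) .nil) .nil) .nil) .nil) .nil))) .nil) (.cons (nat_lit 145) (.cons (nat_lit 148) Uxp10n366 .nil) (.cons (nat_lit 158) (.cons (nat_lit 156) Uxp10n576 .nil) .nil))) .nil)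
def Uxp10 : Prog := ⟨906, 4, 2, 0, Uxt10, 0, dt0⟩

end Pool.Agent.Hom2.UC
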