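import Pool.Agent.Lib.MP_7e4769_co.Hc.UDb

set_option autoImplicit false
set_option maxRecDepth 100000

namespace Pool.Agent.Hom2.UC

def Uxp11n5 : PT := (.cons (nat_lit 1028) (.cons (nat_lit 1158) (.cons (nat_lit 1155) (.cons (nat_lit 50307) (.cons (nat_lit 5) .nil .nil) .nil) .nil) .nil) .nil)
def Uxp11n18 : PT := (.cons (nat_lit 1036) (.cons (nat_lit 1162) (.cons (nat_lit 1155) (.cons (nat_lit 5) .nil .nil) .nil) .nil) .nil)
def Uxp11n35 : PT := (.cons (nat_lit 1036) (.cons (nat_lit 1166) (.cons (nat_lit 1164) (.cons (nat_lit 1294) (.cons (nat_lit 1292) (.cons (nat_lit 1418) (.cons (nat_lit 58755) (.cons (nat_lit 1284) (.cons (nat_lit 1542) (.cons (nat_lit 75267) (.cons (nat_lit 1540) (.cons (nat_lit 1670) (.cons (nat_lit 1667) (.cons (nat_lit 42627) (.cons (nat_lit 5) .nil .nil) .nil) .nil) .nil) .nil) .nil) .nil) .nil) .nil) .nil) .nil) .nil) .nil) .nil) .nil)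
def Uxp11n51 : PT := (.cons (nat_lit 1420) (.cons (nat_lit 1550) (.cons (nat_lit 83467) (.cons (nat_lit 1548) (.cons (nat_lit 1674) (.cons (nat_lit 67203) (.cons (nat_lit 5) .nil .nil) .nil) .nil) .nil) .nil) .nil) .nil)
def Uxp11n56 : PT := (.cons (nat_lit 1164) (.cons (nat_lit 1294) (.cons (nat_lit 1292) (.cons (nat_lit 1422) (.cons (nat_lit 42379) Uxp11n51 .nil) .nil) .nil) .nil) .nil)
def Uxp11n60 : PT := (.cons (nat_lit 916) (.cons (nat_lit 1046) (.cons (nat_lit 1044) (.cons (nat_lit 1170) Uxp11n56 .nil) .nil) .nil) .nil)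
def Uxp11n86 : PT := (.cons (nat_lit 899) (.cons (nat_lit 33667) (.cons (nat_lit 5) .nil .nil) .nil) (.cons (nat_lit 33683) (.cons (nat_lit 916) (.cons (nat_lit 1042) Uxp11n18 .nil) .nil) .nil))
def Uxp11n90 : PT := (.cons (nat_lit 1028) (.cons (nat_lit 1158) (.cons (nat_lit 1155) (.cons (nat_lit 33923) (.cons (nat_lit 5) .nil .nil) .nil) .nil) .nil) .nil)
def Uxp11n94 : PT := (.cons (nat_lit 1284) (.cons (nat_lit 1414) (.cons (nat_lit 1411) (.cons (nat_lit 34179) (.cons (nat_lit 5) .nil .nil) .nil) .nil) .nil) .nil)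
def Uxp11n116 : PT := (.cons (nat_lit 1548) (.cons (nat_lit 1674) (.cons (nat_lit 1667) (.cons (nat_lit 5) .nil .nil) .nil) .nil) .nil)
def Uxp11n129 : PT := (.cons (nat_lit 916) (.cons (nat_lit 1046) (.cons (nat_lit 1044) (.cons (nat_lit 1174) (.cons (nat_lit 1172) (.cons (nat_lit 1298) (.cons (nat_lit 50443) (.cons (nat_lit 1164) (.cons (nat_lit 1422) (.cons (nat_lit 66955) (.cons (nat_lit 1420) (.cons (nat_lit 1550) (.cons (nat_lit 34315) Uxp11n116 .nil) .nil) .nil) .nil) .nil) .nil) .nil) .nil) .nil) .nil) .nil) .nil) .nil)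
def Uxp11n139 : PT := (.cons (nat_lit 900) (.cons (nat_lit 1025) (.cons (nat_lit 1028) (.cons (nat_lit 1158) (.cons (nat_lit 1155) (.cons (nat_lit 33923) (.cons (nat_lit 5) .nil .nil) .nil) .nil) (.cons (nat_lit 1162) (.cons (nat_lit 1156) (.cons (nat_lit 1281) Uxp11n94 .nil) .nil) .nil)) .nil) (.cons (nat_lit 1034) Uxp11n90 .nil)) .nil)
def Uxp11n142 : PT := (.cons (nat_lit 1161) (.cons (nat_lit 1164) (.cons (nat_lit 1290) Uxp11n94 .nil) .nil) (.cons (nat_lit 1162) (.cons (nat_lit 1156) (.cons (nat_lit 1281) Uxp11n94 .nil) .nil) .nil))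
def Uxp11n168 : PT := (.cons (nat_lit 924) (.cons (nat_lit 1050) (.cons (nat_lit 1044) (.cons (nat_lit 1174) (.cons (nat_lit 1172) (.cons (nat_lit 1302) (.cons (nat_lit 34067) (.cons (nat_lit 1300) (.cons (nat_lit 1430) (.cons (nat_lit 75155) (.cons (nat_lit 1428) (.cons (nat_lit 1554) (.cons (nat_lit 58891) (.cons (nat_lit 652) (.cons (nat_lit 1674) (.cons (nat_lit 1667) (.cons (nat_lit 5) .nil .nil) .nil) .nil) .nil) .nil) .nil) .nil) .nil) .nil) .nil) .nil) .nil) .nil) .nil) .nil) .nil) .nil)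
def Uxp11n175 : PT := (.cons (nat_lit 1164) (.cons (nat_lit 1294) (.cons (nat_lit 1292) (.cons (nat_lit 1422) (.cons (nat_lit 34187) Uxp11n51 .nil) .nil) .nil) .nil) .nil)
def Uxp11n193 : PT := (.cons (nat_lit 1284) (.cons (nat_lit 1414) (.cons (nat_lit 1411) (.cons (nat_lit 50563) (.cons (nat_lit 5) .nil .nil) .nil) .nil) .nil) .nil)
def Uxp11n200 : PT := (.cons (nat_lit 908) (.cons (nat_lit 1034) (.cons (nat_lit 1028) (.cons (nat_lit 1158) (.cons (nat_lit 1155) (.cons (nat_lit 50307) (.cons (nat_lit 5) .nil .nil) .nil) .nil) (.cons (nat_lit 1162) (.cons (nat_lit 1156) (.cons (nat_lit 1281) Uxp11n193 .nil) .nil) .nil)) .nil) .nil) .nil)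
def Uxp11n205 : PT := (.cons (nat_lit 780) (.cons (nat_lit 905) Uxp11n200 (.cons (nat_lit 906) (.cons (nat_lit 900) (.cons (nat_lit 1025) Uxp11n5 (.cons (nat_lit 1034) Uxp11n5 .nil)) .nil) .nil)) .nil)
def Uxp11n209 : PT := (.cons (nat_lit 1284) (.cons (nat_lit 1414) (.cons (nat_lit 1411) (.cons (nat_lit 66947) (.cons (nat_lit 5) .nil .nil) .nil) .nil) .nil) .nil)
def Uxp11n217 : PT := (.cons (nat_lit 1038) (.cons (nat_lit 1036) (.cons (nat_lit 1161) (.cons (nat_lit 1164) (.cons (nat_lit 1290) Uxp11n209 .nil) .nil) (.cons (nat_lit 1162) (.cons (nat_lit 1156) (.cons (nat_lit 1281) Uxp11n209 .nil) .nil) .nil)) .nil) .nil)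
def Uxp11n222 : PT := (.cons (nat_lit 1796) (.cons (nat_lit 1926) (.cons (nat_lit 1923) (.cons (nat_lit 59267) (.cons (nat_lit 5) .nil .nil) .nil) .nil) .nil) .nil)
def Uxp11n232 : PT := (.cons (nat_lit 1292) (.cons (nat_lit 1422) (.cons (nat_lit 1420) (.cons (nat_lit 1550) (.cons (nat_lit 1548) (.cons (nat_lit 1674) (.cons (nat_lit 75395) (.cons (nat_lit 1540) (.cons (nat_lit 1798) (.cons (nat_lit 91907) Uxp11n222 .nil) .nil) .nil) .nil) .nil) .nil) .nil) .nil) .nil) .nil)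
def Uxp11n236 : PT := (.cons (nat_lit 1044) (.cons (nat_lit 1174) (.cons (nat_lit 1172) (.cons (nat_lit 1298) Uxp11n232 .nil) .nil) .nil) .nil)
def Uxp11n242 : PT := (.cons (nat_lit 1676) (.cons (nat_lit 1806) (.cons (nat_lit 100107) (.cons (nat_lit 1804) (.cons (nat_lit 1930) (.cons (nat_lit 83843) (.cons (nat_lit 5) .nil .nil) .nil) .nil) .nil) .nil) .nil) .nil)
def Uxp11n247 : PT := (.cons (nat_lit 1420) (.cons (nat_lit 1550) (.cons (nat_lit 1548) (.cons (nat_lit 1678) (.cons (nat_lit 59019) Uxp11n242 .nil) .nil) .nil) .nil) .nil)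
def Uxp11n251 : PT := (.cons (nat_lit 1172) (.cons (nat_lit 1302) (.cons (nat_lit 1300) (.cons (nat_lit 1426) Uxp11n247 .nil) .nil) .nil) .nil)
def Uxp11n259 : PT := (.cons (nat_lit 1043) (.cons (nat_lit 1044) (.cons (nat_lit 1169) Uxp11n251 (.cons (nat_lit 1170) (.cons (nat_lit 1164) (.cons (nat_lit 1294) (.cons (nat_lit 1292) (.cons (nat_lit 1417) Uxp11n247 .nil) .nil) .nil) .nil) .nil)) .nil) .nil)
def Uxp11n268 : PT := (.cons (nat_lit 918) (.cons (nat_lit 916) (.cons (nat_lit 1041) Uxp11n236 (.cons (nat_lit 1046) Uxp11n259 (.cons (nat_lit 1042) (.cons (nat_lit 1036) (.cons (nat_lit 1166) (.cons (nat_lit 1164) (.cons (nat_lit 1289) Uxp11n232 .nil) .nil) .nil) .nil) .nil))) .nil) .nil)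
def Uxp11n277 : PT := (.cons (nat_lit 914) (.cons (nat_lit 908) (.cons (nat_lit 1038) (.cons (nat_lit 41995) Uxp11n18 .nil) .nil) .nil) (.cons (nat_lit 910) (.cons (nat_lit 908) (.cons (nat_lit 1033) Uxp11n35 (.cons (nat_lit 1042) Uxp11n35 .nil)) .nil) .nil))
def Uxp11n286 : PT := (.cons (nat_lit 788) (.cons (nat_lit 913) Uxp11n60 (.cons (nat_lit 914) (.cons (nat_lit 908) (.cons (nat_lit 1038) (.cons (nat_lit 1036) (.cons (nat_lit 1161) Uxp11n56 (.cons (nat_lit 1170) Uxp11n56 .nil)) .nil) .nil) .nil) .nil)) .nil)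
def Uxp11n301 : PT := (.cons (nat_lit 908) (.cons (nat_lit 1034) (.cons (nat_lit 1027) (.cons (nat_lit 5) .nil .nil) .nil) Uxp11n217) .nil)
def Uxp11n310 : PT := (.cons (nat_lit 1292) (.cons (nat_lit 1418) (.cons (nat_lit 1411) (.cons (nat_lit 5) .nil .nil) .nil) .nil) .nil)
def Uxp11n315 : PT := (.cons (nat_lit 1044) (.cons (nat_lit 1170) (.cons (nat_lit 1164) (.cons (nat_lit 1294) (.cons (nat_lit 58635) Uxp11n310 .nil) .nil) .nil) (.cons (nat_lit 1174) (.cons (nat_lit 1172) (.cons (nat_lit 1298) Uxp11n232 .nil) .nil) .nil)) .nil)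
def Uxp11n321 : PT := (.cons (nat_lit 916) (.cons (nat_lit 1041) Uxp11n315 (.cons (nat_lit 1042) (.cons (nat_lit 1036) (.cons (nat_lit 1161) (.cons (nat_lit 1164) (.cons (nat_lit 1294) (.cons (nat_lit 58635) Uxp11n310 .nil) .nil) .nil) (.cons (nat_lit 1166) (.cons (nat_lit 1164) (.cons (nat_lit 1289) Uxp11n232 .nil) .nil) .nil)) .nil) (.cons (nat_lit 1046) Uxp11n259 .nil))) .nil)
def Uxp11n324 : PT := (.cons (nat_lit 1046) (.cons (nat_lit 1044) (.cons (nat_lit 1170) (.cons (nat_lit 1164) (.cons (nat_lit 1290) Uxp11n209 .nil) .nil) .nil) .nil) .nil)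
def Uxp11n333 : PT := (.cons (nat_lit 1162) (.cons (nat_lit 1156) (.cons (nat_lit 1281) Uxp11n193 .nil) .nil) (.cons (nat_lit 1161) (.cons (nat_lit 1164) (.cons (nat_lit 1290) Uxp11n193 .nil) .nil) .nil))
def Uxp11n339 : PT := (.cons (nat_lit 1540) (.cons (nat_lit 1670) (.cons (nat_lit 1667) (.cons (nat_lit 50819) (.cons (nat_lit 5) .nil .nil) .nil) .nil) .nil) .nil)
def Uxp11n346 : PT := (.cons (nat_lit 1164) (.cons (nat_lit 1290) Uxp11n193 (.cons (nat_lit 1289) (.cons (nat_lit 1292) (.cons (nat_lit 1418) (.cons (nat_lit 1412) (.cons (nat_lit 1537) Uxp11n339 .nil) .nil) .nil) .nil) .nil)) .nil)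
def Uxp11n351 : PT := (.cons (nat_lit 1804) (.cons (nat_lit 1930) (.cons (nat_lit 1923) (.cons (nat_lit 5) .nil .nil) .nil) .nil) .nil)
def Uxp11n364 : PT := (.cons (nat_lit 1172) (.cons (nat_lit 1302) (.cons (nat_lit 1300) (.cons (nat_lit 1430) (.cons (nat_lit 1428) (.cons (nat_lit 1554) (.cons (nat_lit 67083) (.cons (nat_lit 1420) (.cons (nat_lit 1678) (.cons (nat_lit 83595) (.cons (nat_lit 1676) (.cons (nat_lit 1806) (.cons (nat_lit 50955) Uxp11n351 .nil) .nil) .nil) .nil) .nil) .nil) .nil) .nil) .nil) .nil) .nil) .nil) .nil)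
def Uxp11n368 : PT := (.cons (nat_lit 1041) (.cons (nat_lit 1044) (.cons (nat_lit 1170) Uxp11n346 .nil) .nil) (.cons (nat_lit 1046) (.cons (nat_lit 1044) (.cons (nat_lit 1169) Uxp11n364 .nil) .nil) .nil))
def Uxp11n373 : PT := (.cons (nat_lit 1417) (.cons (nat_lit 1420) (.cons (nat_lit 1546) Uxp11n339 .nil) .nil) (.cons (nat_lit 1418) (.cons (nat_lit 1412) (.cons (nat_lit 1537) Uxp11n339 .nil) .nil) .nil))
def Uxp11n377 : PT := (.cons (nat_lit 1169) (.cons (nat_lit 1172) (.cons (nat_lit 1298) (.cons (nat_lit 1292) Uxp11n373 .nil) .nil) .nil) .nil)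
def Uxp11n398 : PT := (.cons (nat_lit 1180) (.cons (nat_lit 1306) (.cons (nat_lit 1300) (.cons (nat_lit 1430) (.cons (nat_lit 1428) (.cons (nat_lit 1558) (.cons (nat_lit 50707) (.cons (nat_lit 1556) (.cons (nat_lit 1686) (.cons (nat_lit 91795) (.cons (nat_lit 1684) (.cons (nat_lit 1810) (.cons (nat_lit 75531) (.cons (nat_lit 908) (.cons (nat_lit 1930) (.cons (nat_lit 1923) (.cons (nat_lit 5) .nil .nil) .nil) .nil) .nil) .nil) .nil) .nil) .nil) .nil) .nil) .nil) .nil) .nil) .nil) .nil) .nil) .nil)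
def Uxp11n405 : PT := (.cons (nat_lit 1420) (.cons (nat_lit 1550) (.cons (nat_lit 1548) (.cons (nat_lit 1678) (.cons (nat_lit 50827) Uxp11n242 .nil) .nil) .nil) .nil) .nil)
def Uxp11n410 : PT := (.cons (nat_lit 1170) (.cons (nat_lit 1164) (.cons (nat_lit 1294) (.cons (nat_lit 1292) (.cons (nat_lit 1417) Uxp11n405 .nil) .nil) .nil) .nil) .nil)
def Uxp11n416 : PT := (.cons (nat_lit 926) (.cons (nat_lit 924) (.cons (nat_lit 1049) (.cons (nat_lit 1052) (.cons (nat_lit 1182) Uxp11n398 .nil) .nil) (.cons (nat_lit 1050) (.cons (nat_lit 1043) (.cons (nat_lit 916) Uxp11n410 .nil) .nil) .nil)) .nil) .nil)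
def Uxp11n417 : PT := (.cons (nat_lit 921) (.cons (nat_lit 924) (.cons (nat_lit 1050) (.cons (nat_lit 1044) (.cons (nat_lit 1170) Uxp11n346 Uxp11n377) .nil) (.cons (nat_lit 1054) (.cons (nat_lit 1052) (.cons (nat_lit 1178) Uxp11n364 .nil) .nil) .nil)) .nil) Uxp11n416)
def Uxp11n427 : PT := (.cons (nat_lit 1036) (.cons (nat_lit 1161) (.cons (nat_lit 1164) (.cons (nat_lit 1294) (.cons (nat_lit 42251) Uxp11n310 .nil) .nil) .nil) .nil) .nil)
def Uxp11n443 : PT := (.cons (nat_lit 1028) (.cons (nat_lit 1158) (.cons (nat_lit 1155) (.cons (nat_lit 33923) (.cons (nat_lit 5) .nil .nil) .nil) .nil) Uxp11n142) .nil)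
def Uxp11n453 : PT := (.cons (nat_lit 1540) (.cons (nat_lit 1670) (.cons (nat_lit 1667) (.cons (nat_lit 34435) (.cons (nat_lit 5) .nil .nil) .nil) .nil) .nil) .nil)
def Uxp11n461 : PT := (.cons (nat_lit 1162) (.cons (nat_lit 1156) (.cons (nat_lit 1281) (.cons (nat_lit 1284) (.cons (nat_lit 1414) (.cons (nat_lit 1411) (.cons (nat_lit 34179) (.cons (nat_lit 5) .nil .nil) .nil) .nil) (.cons (nat_lit 1418) (.cons (nat_lit 1412) (.cons (nat_lit 1537) Uxp11n453 .nil) .nil) .nil)) .nil) (.cons (nat_lit 1290) Uxp11n94 .nil)) .nil) .nil)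
def Uxp11n465 : PT := (.cons (nat_lit 908) (.cons (nat_lit 1034) Uxp11n443 (.cons (nat_lit 1033) (.cons (nat_lit 1036) Uxp11n461 .nil) .nil)) .nil)
def Uxp11n472 : PT := (.cons (nat_lit 1548) (.cons (nat_lit 1674) (.cons (nat_lit 1667) (.cons (nat_lit 5) .nil .nil) .nil) (.cons (nat_lit 1681) (.cons (nat_lit 1684) (.cons (nat_lit 1810) Uxp11n351 .nil) .nil) .nil)) .nil)
def Uxp11n485 : PT := (.cons (nat_lit 916) (.cons (nat_lit 1046) (.cons (nat_lit 1044) (.cons (nat_lit 1174) (.cons (nat_lit 1172) (.cons (nat_lit 1298) (.cons (nat_lit 50443) (.cons (nat_lit 1164) (.cons (nat_lit 1422) (.cons (nat_lit 66955) (.cons (nat_lit 1420) (.cons (nat_lit 1550) (.cons (nat_lit 34315) Uxp11n472 .nil) .nil) .nil) .nil) .nil) .nil) .nil) .nil) .nil) .nil) .nil) .nil) .nil)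
def Uxp11n494 : PT := (.cons (nat_lit 1417) (.cons (nat_lit 1420) (.cons (nat_lit 1546) Uxp11n453 .nil) .nil) (.cons (nat_lit 1418) (.cons (nat_lit 1412) (.cons (nat_lit 1537) Uxp11n453 .nil) .nil) .nil))
def Uxp11n516 : PT := (.cons (nat_lit 914) (.cons (nat_lit 908) (.cons (nat_lit 1038) (.cons (nat_lit 1036) (.cons (nat_lit 1161) Uxp11n175 (.cons (nat_lit 1170) Uxp11n175 .nil)) .nil) .nil) .nil) .nil)
def Uxp11n532 : PT := (.cons (nat_lit 25355) (.cons (nat_lit 780) (.cons (nat_lit 906) (.cons (nat_lit 899) (.cons (nat_lit 5) .nil .nil) .nil) .nil) .nil) .nil)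
def Uxp11n541 : PT := (.cons (nat_lit 1042) (.cons (nat_lit 1036) (.cons (nat_lit 1161) (.cons (nat_lit 1164) (.cons (nat_lit 1294) (.cons (nat_lit 25867) Uxp11n310 .nil) .nil) .nil) .nil) .nil) .nil)
def Uxp11n551 : PT := (.cons (nat_lit 914) (.cons (nat_lit 908) (.cons (nat_lit 1038) (.cons (nat_lit 25611) Uxp11n18 .nil) .nil) .nil) .nil)
def Uxp11n573 : PT := (.cons (nat_lit 780) (.cons (nat_lit 910) (.cons (nat_lit 908) (.cons (nat_lit 1038) (.cons (nat_lit 1036) (.cons (nat_lit 1162) (.cons (nat_lit 42115) (.cons (nat_lit 1028) (.cons (nat_lit 1286) (.cons (nat_lit 58627) (.cons (nat_lit 1284) (.cons (nat_lit 1414) (.cons (nat_lit 1411) (.cons (nat_lit 25987) (.cons (nat_lit 5) .nil .nil) .nil) (.cons (nat_lit 26003) (.cons (nat_lit 1428) (.cons (nat_lit 1554) Uxp11n116 .nil) .nil) .nil)) .nil) .nil) .nil) .nil) .nil) .nil) .nil) .nil) .nil) .nil) .nil) .nil)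
def Uxp11n598 : PT := (.cons (nat_lit 1170) (.cons (nat_lit 1164) (.cons (nat_lit 1294) (.cons (nat_lit 25867) Uxp11n310 .nil) .nil) .nil) .nil)
def Uxp11n617 : PT := (.cons (nat_lit 1164) (.cons (nat_lit 1294) (.cons (nat_lit 66827) (.cons (nat_lit 1292) (.cons (nat_lit 1418) (.cons (nat_lit 50563) (.cons (nat_lit 5) .nil .nil) .nil) .nil) .nil) .nil) .nil) .nil)
def Uxp11n622 : PT := (.cons (nat_lit 908) (.cons (nat_lit 1038) (.cons (nat_lit 1036) (.cons (nat_lit 1166) (.cons (nat_lit 25739) Uxp11n617 .nil) .nil) .nil) .nil) .nil)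
def Uxp11n631 : PT := (.cons (nat_lit 658) (.cons (nat_lit 652) (.cons (nat_lit 782) (.cons (nat_lit 780) (.cons (nat_lit 905) Uxp11n622 (.cons (nat_lit 914) Uxp11n622 .nil)) .nil) .nil) .nil) .nil)
def Uxp11n640 : PT := (.cons (nat_lit 401) (.cons (nat_lit 404) (.cons (nat_lit 538) (.cons (nat_lit 532) (.cons (nat_lit 658) (.cons (nat_lit 652) (.cons (nat_lit 778) (.cons (nat_lit 771) (.cons (nat_lit 5) .nil .nil) .nil) (.cons (nat_lit 785) (.cons (nat_lit 788) (.cons (nat_lit 914) Uxp11n301 Uxp11n268) .nil) (.cons (nat_lit 782) Uxp11n205 .nil))) .nil) (.cons (nat_lit 657) (.cons (nat_lit 660) (.cons (nat_lit 794) (.cons (nat_lit 788) (.cons (nat_lit 914) Uxp11n301 (.cons (nat_lit 918) Uxp11n321 (.cons (nat_lit 913) (.cons (nat_lit 916) Uxp11n324 .nil) .nil))) .nil) (.cons (nat_lit 790) (.cons (nat_lit 788) (.cons (nat_lit 914) (.cons (nat_lit 908) (.cons (nat_lit 1034) (.cons (nat_lit 1028) (.cons (nat_lit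 1158) (.cons (nat_lit 1155) (.cons (nat_lit 50307) (.cons (nat_lit 5) .nil .nil) .nil) .nil) Uxp11n333) .nil) Uxp11n368) .nil) Uxp11n417) .nil) .nil)) .nil) (.cons (nat_lit 662) (.cons (nat_lit 660) (.cons (nat_lit 785) (.cons (nat_lit 788) (.cons (nat_lit 914) (.cons (nat_lit 908) (.cons (nat_lit 1038) (.cons (nat_lit 41995) Uxp11n18 .nil) (.cons (nat_lit 1042) Uxp11n427 .nil)) .nil) (.cons (nat_lit 918) (.cons (nat_lit 916) (.cons (nat_lit 1042) Uxp11n35 .nil) .nil) .nil)) .nil) (.cons (nat_lit 786) (.cons (nat_lit 780) (.cons (nat_lit 905) (.cons (nat_lit 908) (.cons (nat_lit 1038) (.cons (nat_lit 41995) Uxp11n18 .nil) .nil) .nil) Uxp11n277) .nil) (.cons (nat_lit 790) (.cons (nat_lit 787) Uxp11n286 .nil) .nil))) .nil) .nil))) .nil) (.cons (nat_lit 534) (.cons (nat_lit 532) (.cons (nat_lit 658) (.cons (nat_lit 652) (.cons (nat_lit 778) (.cons (nat_lit 772) (.cons (nat_lit 902) Uxp11n86 (.cons (nat_lit 905)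 (.cons (nat_lit 908) (.cons (nat_lit 1034) Uxp11n443 .nil) .nil) (.cons (nat_lit 906) Uxp11n139 .nil))) .nil) (.cons (nat_lit 785) (.cons (nat_lit 788) (.cons (nat_lit 914) Uxp11n465 .nil) .nil) (.cons (nat_lit 790) (.cons (nat_lit 788) (.cons (nat_lit 913) Uxp11n485 (.cons (nat_lit 922) Uxp11n129 .nil)) .nil) .nil))) .nil) (.cons (nat_lit 665) (.cons (nat_lit 668) (.cons (nat_lit 794) (.cons (nat_lit 788) (.cons (nat_lit 914) Uxp11n465 (.cons (nat_lit 913) (.cons (nat_lit 916) (.cons (nat_lit 1042) (.cons (nat_lit 1036) (.cons (nat_lit 1161) (.cons (nat_lit 1164) (.cons (nat_lit 1290) (.cons (nat_lit 1284) (.cons (nat_lit 1414) (.cons (nat_lit 1411) (.cons (nat_lit 34179) (.cons (nat_lit 5) .nil .nil) .nil) .nil) Uxp11n494) .nil) .nil) .nil) Uxp11n461) .nil) .nil) .nil) .nil)) .nil) (.cons (nat_lit 798) (.cons (nat_lit 796) (.cons (nat_lit 922) Uxp11n485 .nil) .nil) .nil)) .nil) (.cons (nat_lit 670) (.cons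 (nat_lit 668) (.cons (nat_lit 793) (.cons (nat_lit 796) (.cons (nat_lit 926) Uxp11n168 .nil) .nil) (.cons (nat_lit 794) (.cons (nat_lit 787) (.cons (nat_lit 660) Uxp11n516 .nil) .nil) .nil)) .nil) .nil))) .nil) .nil)) .nil) (.cons (nat_lit 406) (.cons (nat_lit 404) (.cons (nat_lit 530) (.cons (nat_lit 524) (.cons (nat_lit 649) (.cons (nat_lit 652) (.cons (nat_lit 782) Uxp11n532 (.cons (nat_lit 794) (.cons (nat_lit 788) (.cons (nat_lit 914) (.cons (nat_lit 908) (.cons (nat_lit 1038) (.cons (nat_lit 25611) Uxp11n18 .nil) .nil) .nil) (.cons (nat_lit 913) (.cons (nat_lit 916) Uxp11n541 .nil) .nil)) .nil) .nil)) .nil) (.cons (nat_lit 658) (.cons (nat_lit 652) (.cons (nat_lit 782) Uxp11n532 (.cons (nat_lit 786) (.cons (nat_lit 780) (.cons (nat_lit 905) (.cons (nat_lit 908) (.cons (nat_lit 1038) (.cons (nat_lit 25611) Uxp11n18 .nil) .nil) .nil) .nil) .nil) (.cons (nat_lit 785) (.cons (nat_lit 788) Uxp11n551 .nil) .nil)))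 .nil) (.cons (nat_lit 654) (.cons (nat_lit 652) (.cons (nat_lit 777) Uxp11n573 (.cons (nat_lit 786) (.cons (nat_lit 780) (.cons (nat_lit 910) (.cons (nat_lit 908) (.cons (nat_lit 1038) (.cons (nat_lit 1036) (.cons (nat_lit 1162) (.cons (nat_lit 42115) (.cons (nat_lit 1028) (.cons (nat_lit 1286) (.cons (nat_lit 58627) (.cons (nat_lit 1284) (.cons (nat_lit 1414) (.cons (nat_lit 1411) (.cons (nat_lit 25987) (.cons (nat_lit 5) .nil .nil) .nil) .nil) .nil) .nil) .nil) .nil) .nil) .nil) .nil) .nil) .nil) .nil) .nil) .nil) .nil)) .nil) .nil))) .nil) (.cons (nat_lit 529) (.cons (nat_lit 532) (.cons (nat_lit 658) (.cons (nat_lit 652) (.cons (nat_lit 782) Uxp11n532 (.cons (nat_lit 786) (.cons (nat_lit 780) (.cons (nat_lit 905) (.cons (nat_lit 908) (.cons (nat_lit 1038) (.cons (nat_lit 25611) Uxp11n18 .nil) Uxp11n541) .nil) Uxp11n551) .nil) (.cons (nat_lit 793) (.cons (nat_lit 796) (.cons (nat_lit 922) (.cons (nat_lit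 916) (.cons (nat_lit 1041) (.cons (nat_lit 1044) Uxp11n598 .nil) Uxp11n541) .nil) .nil) .nil) .nil))) .nil) (.cons (nat_lit 662) (.cons (nat_lit 660) (.cons (nat_lit 786) Uxp11n573 .nil) .nil) .nil)) .nil) (.cons (nat_lit 534) (.cons (nat_lit 531) (.cons (nat_lit 532) (.cons (nat_lit 657) (.cons (nat_lit 660) (.cons (nat_lit 790) (.cons (nat_lit 788) (.cons (nat_lit 914) Uxp11n622 .nil) .nil) .nil) .nil) Uxp11n631) .nil) .nil) .nil))) .nil) .nil))
def Uxp11n648 : PT := (.cons (nat_lit 1034) (.cons (nat_lit 1027) (.cons (nat_lit 5) .nil .nil) .nil) (.cons (nat_lit 1038) (.cons (nat_lit 1036) (.cons (nat_lit 1162) (.cons (nat_lit 1156) (.cons (nat_lit 1281) Uxp11n209 .nil) .nil) (.cons (nat_lit 1161) (.cons (nat_lit 1164) (.cons (nat_lit 1290) Uxp11n209 .nil) .nil) .nil)) .nil) .nil))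
def Uxp11n658 : PT := (.cons (nat_lit 1028) (.cons (nat_lit 1158) (.cons (nat_lit 1155) (.cons (nat_lit 50307) (.cons (nat_lit 5) .nil .nil) .nil) (.cons (nat_lit 50315) (.cons (nat_lit 1164) (.cons (nat_lit 1289) Uxp11n310 .nil) .nil) .nil)) Uxp11n333) .nil)
def Uxp11n668 : PT := (.cons (nat_lit 905) (.cons (nat_lit 908) (.cons (nat_lit 1034) (.cons (nat_lit 1027) (.cons (nat_lit 5) .nil .nil) .nil) .nil) .nil) .nil)
def Uxp11n678 : PT := (.cons (nat_lit 1155) (.cons (nat_lit 5) .nil .nil) (.cons (nat_lit 1164) (.cons (nat_lit 1289) Uxp11n310 .nil) .nil))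
def Uxp11n699 : PT := (.cons (nat_lit 1036) (.cons (nat_lit 1166) (.cons (nat_lit 1164) (.cons (nat_lit 1294) (.cons (nat_lit 1292) (.cons (nat_lit 1418) (.cons (nat_lit 58755) (.cons (nat_lit 1284) (.cons (nat_lit 1542) (.cons (nat_lit 75267) (.cons (nat_lit 1540) (.cons (nat_lit 1670) (.cons (nat_lit 1667) (.cons (nat_lit 42627) (.cons (nat_lit 5) .nil .nil) .nil) (.cons (nat_lit 42635) (.cons (nat_lit 1676) (.cons (nat_lit 1801) Uxp11n351 .nil) .nil) .nil)) .nil) .nil) .nil) .nil) .nil) .nil) .nil) .nil) .nil) .nil) .nil) .nil)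
def Uxp11n717 : PT := (.cons (nat_lit 1420) (.cons (nat_lit 1550) (.cons (nat_lit 1548) (.cons (nat_lit 1678) (.cons (nat_lit 42635) Uxp11n242 .nil) .nil) .nil) .nil) .nil)
def Uxp11n721 : PT := (.cons (nat_lit 1172) (.cons (nat_lit 1302) (.cons (nat_lit 1300) (.cons (nat_lit 1426) Uxp11n717 .nil) .nil) .nil) .nil)
def Uxp11n726 : PT := (.cons (nat_lit 1170) (.cons (nat_lit 1164) (.cons (nat_lit 1294) (.cons (nat_lit 1292) (.cons (nat_lit 1417) Uxp11n717 .nil) .nil) .nil) .nil) .nil)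
def Uxp11n747 : PT := (.cons (nat_lit 1161) (.cons (nat_lit 1164) (.cons (nat_lit 1290) (.cons (nat_lit 1283) (.cons (nat_lit 5) .nil .nil) .nil) .nil) .nil) .nil)
def Uxp11n760 : PT := (.cons (nat_lit 1540) (.cons (nat_lit 1670) (.cons (nat_lit 1667) (.cons (nat_lit 83587) (.cons (nat_lit 5) .nil .nil) .nil) .nil) .nil) .nil)
def Uxp11n770 : PT := (.cons (nat_lit 1164) (.cons (nat_lit 1290) (.cons (nat_lit 1283) (.cons (nat_lit 5) .nil .nil) .nil) (.cons (nat_lit 1294) (.cons (nat_lit 1292) (.cons (nat_lit 1417) (.cons (nat_lit 1420) (.cons (nat_lit 1546) Uxp11n760 .nil) .nil) (.cons (nat_lit 1418) (.cons (nat_lit 1412) (.cons (nat_lit 1537) Uxp11n760 .nil) .nil) .nil)) .nil) .nil)) .nil)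
def Uxp11n784 : PT := (.cons (nat_lit 1548) (.cons (nat_lit 1678) (.cons (nat_lit 1676) (.cons (nat_lit 1806) (.cons (nat_lit 1804) (.cons (nat_lit 1930) (.cons (nat_lit 92035) (.cons (nat_lit 1796) (.cons (nat_lit 2054) (.cons (nat_lit 108547) (.cons (nat_lit 2052) (.cons (nat_lit 2182) (.cons (nat_lit 2179) (.cons (nat_lit 75907) (.cons (nat_lit 5) .nil .nil) .nil) .nil) .nil) .nil) .nil) .nil) .nil) .nil) .nil) .nil) .nil) .nil) .nil) .nil)
def Uxp11n788 : PT := (.cons (nat_lit 1300) (.cons (nat_lit 1430) (.cons (nat_lit 1428) (.cons (nat_lit 1554) Uxp11n784 .nil) .nil) .nil) .nil)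
def Uxp11n794 : PT := (.cons (nat_lit 1932) (.cons (nat_lit 2062) (.cons (nat_lit 116747) (.cons (nat_lit 2060) (.cons (nat_lit 2186) (.cons (nat_lit 100483) (.cons (nat_lit 5) .nil .nil) .nil) .nil) .nil) .nil) .nil) .nil)
def Uxp11n799 : PT := (.cons (nat_lit 1676) (.cons (nat_lit 1806) (.cons (nat_lit 1804) (.cons (nat_lit 1934) (.cons (nat_lit 75659) Uxp11n794 .nil) .nil) .nil) .nil) .nil)
def Uxp11n811 : PT := (.cons (nat_lit 1299) (.cons (nat_lit 1300) (.cons (nat_lit 1425) (.cons (nat_lit 1428) (.cons (nat_lit 1558) (.cons (nat_lit 1556) (.cons (nat_lit 1682) Uxp11n799 .nil) .nil) .nil) .nil) (.cons (nat_lit 1426) (.cons (nat_lit 1420) (.cons (nat_lit 1550) (.cons (nat_lit 1548) (.cons (nat_lit 1673) Uxp11n799 .nil) .nil) .nil) .nil) .nil)) .nil) .nil)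
def Uxp11n825 : PT := (.cons (nat_lit 1540) (.cons (nat_lit 1670) (.cons (nat_lit 1667) (.cons (nat_lit 67203) (.cons (nat_lit 5) .nil .nil) .nil) .nil) .nil) .nil)
def Uxp11n844 : PT := (.cons (nat_lit 2060) (.cons (nat_lit 2186) (.cons (nat_lit 2179) (.cons (nat_lit 5) .nil .nil) .nil) .nil) .nil)
def Uxp11n860 : PT := (.cons (nat_lit 1292) (.cons (nat_lit 1422) (.cons (nat_lit 1420) (.cons (nat_lit 1550) (.cons (nat_lit 1548) (.cons (nat_lit 1674) (.cons (nat_lit 75395) (.cons (nat_lit 1540) (.cons (nat_lit 1798) (.cons (nat_lit 91907) (.cons (nat_lit 1796) (.cons (nat_lit 1926) (.cons (nat_lit 1923) (.cons (nat_lit 59267) (.cons (nat_lit 5) .nil .nil) .nil) (.cons (nat_lit 59275) (.cons (nat_lit 1932) (.cons (nat_lit 2057) Uxp11n844 .nil) .nil) .nil)) .nil) .nil) .nil) .nil) .nil) .nil) .nil) .nil) .nil) .nil) .nil) .nil)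
def Uxp11n876 : PT := (.cons (nat_lit 1044) (.cons (nat_lit 1169) Uxp11n251 (.cons (nat_lit 1170) (.cons (nat_lit 1164) (.cons (nat_lit 1294) (.cons (nat_lit 1292) (.cons (nat_lit 1417) Uxp11n247 (.cons (nat_lit 1426) Uxp11n247 .nil)) .nil) .nil) .nil) .nil)) .nil)
def Uxp11n881 : PT := (.cons (nat_lit 1676) (.cons (nat_lit 1806) (.cons (nat_lit 1804) (.cons (nat_lit 1934) (.cons (nat_lit 59275) Uxp11n794 .nil) .nil) .nil) .nil) .nil)
def Uxp11n890 : PT := (.cons (nat_lit 1426) (.cons (nat_lit 1420) (.cons (nat_lit 1550) (.cons (nat_lit 1548) (.cons (nat_lit 1673) Uxp11n881 .nil) .nil) .nil) .nil) .nil)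
def Uxp11n893 : PT := (.cons (nat_lit 1299) (.cons (nat_lit 1044) (.cons (nat_lit 1425) (.cons (nat_lit 1428) (.cons (nat_lit 1558) (.cons (nat_lit 1556) (.cons (nat_lit 1682) Uxp11n881 .nil) .nil) .nil) .nil) Uxp11n890) .nil) .nil)
def Uxp11n909 : PT := (.cons (nat_lit 1155) (.cons (nat_lit 50307) (.cons (nat_lit 5) .nil .nil) .nil) (.cons (nat_lit 50323) (.cons (nat_lit 1172) (.cons (nat_lit 1298) Uxp11n310 .nil) .nil) .nil))
def Uxp11n933 : PT := (.cons (nat_lit 1036) (.cons (nat_lit 1162) Uxp11n678 (.cons (nat_lit 1169) (.cons (nat_lit 1172) (.cons (nat_lit 1298) Uxp11n310 .nil) .nil) .nil)) .nil)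
def Uxp11n946 : PT := (.cons (nat_lit 1298) (.cons (nat_lit 1292) (.cons (nat_lit 1417) (.cons (nat_lit 1420) (.cons (nat_lit 1550) (.cons (nat_lit 42507) Uxp11n116 .nil) .nil) .nil) .nil) .nil) .nil)
def Uxp11n950 : PT := (.cons (nat_lit 1044) (.cons (nat_lit 1170) (.cons (nat_lit 1164) (.cons (nat_lit 1294) (.cons (nat_lit 42251) Uxp11n310 .nil) .nil) .nil) (.cons (nat_lit 1169) (.cons (nat_lit 1172) Uxp11n946 .nil) .nil)) .nil)
def Uxp11n953 : PT := (.cons (nat_lit 1923) (.cons (nat_lit 5) .nil .nil) (.cons (nat_lit 1932) (.cons (nat_lit 2057) Uxp11n844 .nil) .nil))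
def Uxp11n957 : PT := (.cons (nat_lit 1676) (.cons (nat_lit 1801) (.cons (nat_lit 1804) (.cons (nat_lit 1930) Uxp11n953 .nil) .nil) (.cons (nat_lit 1810) Uxp11n351 .nil)) .nil)
def Uxp11n971 : PT := (.cons (nat_lit 1036) (.cons (nat_lit 1166) (.cons (nat_lit 1164) (.cons (nat_lit 1294) (.cons (nat_lit 1292) (.cons (nat_lit 1418) (.cons (nat_lit 58755) (.cons (nat_lit 1284) (.cons (nat_lit 1542) (.cons (nat_lit 75267) (.cons (nat_lit 1540) (.cons (nat_lit 1670) (.cons (nat_lit 1667) (.cons (nat_lit 42627) (.cons (nat_lit 5) .nil .nil) .nil) (.cons (nat_lit 42635) Uxp11n957 .nil)) .nil) .nil) .nil) .nil) .nil) .nil) .nil) .nil) .nil) .nil) .nil) .nil)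
def Uxp11n996 : PT := (.cons (nat_lit 1170) (.cons (nat_lit 1164) (.cons (nat_lit 1294) (.cons (nat_lit 1292) (.cons (nat_lit 1417) Uxp11n717 (.cons (nat_lit 1426) Uxp11n717 .nil)) .nil) .nil) .nil) .nil)
def Uxp11n1030 : PT := (.cons (nat_lit 658) (.cons (nat_lit 652) (.cons (nat_lit 778) (.cons (nat_lit 771) (.cons (nat_lit 5) .nil .nil) (.cons (nat_lit 780) (.cons (nat_lit 905) (.cons (nat_lit 908) (.cons (nat_lit 1034) (.cons (nat_lit 1027) (.cons (nat_lit 5) .nil .nil) (.cons (nat_lit 1036) Uxp11n747 .nil)) Uxp11n324) .nil) (.cons (nat_lit 914) (.cons (nat_lit 908) Uxp11n648 .nil) (.cons (nat_lit 918) Uxp11n321 .nil))) .nil)) (.cons (nat_lit 785) (.cons (nat_lit 788) (.cons (nat_lit 914) (.cons (nat_lit 908) (.cons (nat_lit 1034) (.cons (nat_lit 1027) (.cons (nat_lit 5) .nil .nil) (.cons (nat_lit 1036) Uxp11n747 .nil)) (.cons (nat_lit 1041) (.cons (nat_lit 1044) (.cons (nat_lit 1170) Uxp11n770 (.cons (nat_lit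 1174) (.cons (nat_lit 1172) (.cons (nat_lit 1297) Uxp11n788 (.cons (nat_lit 1302) Uxp11n811 (.cons (nat_lit 1298) (.cons (nat_lit 1292) (.cons (nat_lit 1422) (.cons (nat_lit 1420) (.cons (nat_lit 1545) Uxp11n784 .nil) .nil) .nil) .nil) .nil))) .nil) .nil)) .nil) (.cons (nat_lit 1038) (.cons (nat_lit 1036) (.cons (nat_lit 1161) (.cons (nat_lit 1164) (.cons (nat_lit 1290) (.cons (nat_lit 1284) (.cons (nat_lit 1414) (.cons (nat_lit 1411) (.cons (nat_lit 66947) (.cons (nat_lit 5) .nil .nil) .nil) .nil) (.cons (nat_lit 1418) (.cons (nat_lit 1412) (.cons (nat_lit 1537) Uxp11n825 .nil) .nil) .nil)) .nil) .nil) .nil) (.cons (nat_lit 1162) (.cons (nat_lit 1156) (.cons (nat_lit 1281) Uxp11n209 (.cons (nat_lit 1290) Uxp11n209 .nil)) .nil) .nil)) .nil) .nil))) .nil) (.cons (nat_lit 918) (.cons (nat_lit 916) (.cons (nat_lit 1042) (.cons (nat_lit 1036) (.cons (nat_lit 1170) (.cons (nat_lit 1164) (.cons (nat_lit 1294) (.cons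 (nat_lit 58635) Uxp11n310 .nil) .nil) .nil) (.cons (nat_lit 1166) (.cons (nat_lit 1164) (.cons (nat_lit 1289) Uxp11n860 (.cons (nat_lit 1298) Uxp11n232 .nil)) .nil) .nil)) .nil) (.cons (nat_lit 1041) (.cons (nat_lit 1044) (.cons (nat_lit 1174) (.cons (nat_lit 1172) (.cons (nat_lit 1298) Uxp11n860 .nil) .nil) .nil) .nil) (.cons (nat_lit 1046) (.cons (nat_lit 1043) Uxp11n876 (.cons (nat_lit 1052) (.cons (nat_lit 1177) (.cons (nat_lit 1180) (.cons (nat_lit 1306) Uxp11n893 .nil) .nil) .nil) .nil)) .nil))) .nil) .nil)) .nil) (.cons (nat_lit 782) (.cons (nat_lit 780) (.cons (nat_lit 905) (.cons (nat_lit 908) (.cons (nat_lit 1034) (.cons (nat_lit 1028) (.cons (nat_lit 1158) Uxp11n909 (.cons (nat_lit 1162) (.cons (nat_lit 1156) (.cons (nat_lit 1281) (.cons (nat_lit 1284) (.cons (nat_lit 1414) (.cons (nat_lit 1411) (.cons (nat_lit 50563) (.cons (nat_lit 5) .nil .nil) .nil) .nil) (.cons (nat_lit 1418) (.cons (nat_lit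 1412) (.cons (nat_lit 1537) Uxp11n339 .nil) .nil) .nil)) .nil) (.cons (nat_lit 1290) Uxp11n193 .nil)) .nil) Uxp11n377)) .nil) (.cons (nat_lit 1054) (.cons (nat_lit 1052) (.cons (nat_lit 1178) Uxp11n364 .nil) .nil) .nil)) .nil) (.cons (nat_lit 906) (.cons (nat_lit 900) (.cons (nat_lit 1025) (.cons (nat_lit 1028) (.cons (nat_lit 1158) Uxp11n909 (.cons (nat_lit 1170) Uxp11n346 .nil)) .nil) (.cons (nat_lit 1034) Uxp11n658 (.cons (nat_lit 1046) (.cons (nat_lit 1044) (.cons (nat_lit 1169) Uxp11n364 .nil) .nil) .nil))) .nil) Uxp11n416)) .nil) .nil))) .nil) (.cons (nat_lit 662) (.cons (nat_lit 660) (.cons (nat_lit 786) (.cons (nat_lit 780) (.cons (nat_lit 914) (.cons (nat_lit 908) (.cons (nat_lit 1038) (.cons (nat_lit 41995) Uxp11n933 .nil) (.cons (nat_lit 1042) Uxp11n427 (.cons (nat_lit 1041) (.cons (nat_lit 1044) (.cons (nat_lit 1170) (.cons (nat_lit 1164) (.cons (nat_lit 1294) (.cons (nat_lit 42251) Uxp11n310 .nil)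 .nil) .nil) .nil) .nil) .nil))) .nil) (.cons (nat_lit 921) (.cons (nat_lit 924) (.cons (nat_lit 1050) Uxp11n950 .nil) .nil) (.cons (nat_lit 910) (.cons (nat_lit 908) (.cons (nat_lit 1033) Uxp11n971 (.cons (nat_lit 1042) Uxp11n699 .nil)) .nil) .nil))) .nil) (.cons (nat_lit 785) (.cons (nat_lit 788) (.cons (nat_lit 930) (.cons (nat_lit 924) (.cons (nat_lit 1050) Uxp11n950 (.cons (nat_lit 1049) (.cons (nat_lit 1052) (.cons (nat_lit 1178) (.cons (nat_lit 1172) (.cons (nat_lit 1297) (.cons (nat_lit 1300) (.cons (nat_lit 1426) (.cons (nat_lit 1420) (.cons (nat_lit 1550) (.cons (nat_lit 42507) Uxp11n116 .nil) .nil) .nil) .nil) .nil) Uxp11n946) .nil) .nil) .nil) .nil)) .nil) (.cons (nat_lit 918) (.cons (nat_lit 916) (.cons (nat_lit 1042) Uxp11n971 .nil) .nil) .nil)) .nil) (.cons (nat_lit 790) (.cons (nat_lit 787) Uxp11n286 (.cons (nat_lit 796) (.cons (nat_lit 921) (.cons (nat_lit 924) (.cons (nat_lit 1050) (.cons (nat_lit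 1043) (.cons (nat_lit 788) (.cons (nat_lit 1169) Uxp11n721 Uxp11n996) .nil) .nil) (.cons (nat_lit 1062) (.cons (nat_lit 1060) (.cons (nat_lit 1186) (.cons (nat_lit 1180) (.cons (nat_lit 1310) (.cons (nat_lit 1308) (.cons (nat_lit 1438) (.cons (nat_lit 42395) (.cons (nat_lit 1436) (.cons (nat_lit 1566) (.cons (nat_lit 83483) (.cons (nat_lit 1564) (.cons (nat_lit 1690) (.cons (nat_lit 67219) (.cons (nat_lit 788) (.cons (nat_lit 1810) Uxp11n351 .nil) .nil) .nil) .nil) .nil) .nil) .nil) .nil) .nil) .nil) .nil) .nil) .nil) .nil) .nil) .nil)) .nil) (.cons (nat_lit 930) (.cons (nat_lit 924) (.cons (nat_lit 1050) (.cons (nat_lit 1043) (.cons (nat_lit 788) Uxp11n726 .nil) .nil) .nil) .nil) .nil)) .nil)) .nil))) .nil) .nil))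
def Uxp11n1033 : PT := (.cons (nat_lit 1036) (.cons (nat_lit 1162) (.cons (nat_lit 1155) (.cons (nat_lit 5) .nil .nil) .nil) (.cons (nat_lit 1169) (.cons (nat_lit 1172) (.cons (nat_lit 1298) Uxp11n310 .nil) .nil) .nil)) .nil)
def Uxp11n1037 : PT := (.cons (nat_lit 899) (.cons (nat_lit 33667) (.cons (nat_lit 5) .nil .nil) .nil) (.cons (nat_lit 33683) (.cons (nat_lit 916) (.cons (nat_lit 1042) Uxp11n1033 .nil) .nil) .nil))
def Uxp11n1043 : PT := (.cons (nat_lit 1411) (.cons (nat_lit 34179) (.cons (nat_lit 5) .nil .nil) .nil) (.cons (nat_lit 34187) (.cons (nat_lit 1420) (.cons (nat_lit 1545) Uxp11n116 .nil) .nil) .nil))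
def Uxp11n1048 : PT := (.cons (nat_lit 1162) (.cons (nat_lit 1156) (.cons (nat_lit 1281) (.cons (nat_lit 1284) (.cons (nat_lit 1414) Uxp11n1043 (.cons (nat_lit 1418) (.cons (nat_lit 1412) (.cons (nat_lit 1537) Uxp11n453 .nil) .nil) .nil)) .nil) (.cons (nat_lit 1290) Uxp11n94 .nil)) .nil) .nil)
def Uxp11n1052 : PT := (.cons (nat_lit 1155) (.cons (nat_lit 33923) (.cons (nat_lit 5) .nil .nil) .nil) (.cons (nat_lit 33931) (.cons (nat_lit 1164) (.cons (nat_lit 1289) Uxp11n310 .nil) .nil) .nil))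
def Uxp11n1070 : PT := (.cons (nat_lit 1667) (.cons (nat_lit 5) .nil .nil) (.cons (nat_lit 1676) (.cons (nat_lit 1801) Uxp11n351 .nil) .nil))
def Uxp11n1072 : PT := (.cons (nat_lit 1548) (.cons (nat_lit 1674) Uxp11n1070 (.cons (nat_lit 1681) (.cons (nat_lit 1684) (.cons (nat_lit 1810) Uxp11n351 .nil) .nil) .nil)) .nil)
def Uxp11n1085 : PT := (.cons (nat_lit 916) (.cons (nat_lit 1046) (.cons (nat_lit 1044) (.cons (nat_lit 1174) (.cons (nat_lit 1172) (.cons (nat_lit 1298) (.cons (nat_lit 50443) (.cons (nat_lit 1164) (.cons (nat_lit 1422) (.cons (nat_lit 66955) (.cons (nat_lit 1420) (.cons (nat_lit 1550) (.cons (nat_lit 34315) Uxp11n1072 .nil) .nil) .nil) .nil) .nil) .nil) .nil) .nil) .nil) .nil) .nil) .nil) .nil)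
def Uxp11n1121 : PT := (.cons (nat_lit 1420) (.cons (nat_lit 1550) (.cons (nat_lit 1548) (.cons (nat_lit 1678) (.cons (nat_lit 34443) Uxp11n242 .nil) .nil) .nil) .nil) .nil)
def Uxp11n1125 : PT := (.cons (nat_lit 1172) (.cons (nat_lit 1302) (.cons (nat_lit 1300) (.cons (nat_lit 1426) Uxp11n1121 .nil) .nil) .nil) .nil)
def Uxp11n1130 : PT := (.cons (nat_lit 1170) (.cons (nat_lit 1164) (.cons (nat_lit 1294) (.cons (nat_lit 1292) (.cons (nat_lit 1417) Uxp11n1121 .nil) .nil) .nil) .nil) .nil)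
def Uxp11n1136 : PT := (.cons (nat_lit 930) (.cons (nat_lit 924) (.cons (nat_lit 1050) (.cons (nat_lit 1043) (.cons (nat_lit 660) (.cons (nat_lit 1169) Uxp11n1125 Uxp11n1130) .nil) .nil) .nil) .nil) .nil)
def Uxp11n1147 : PT := (.cons (nat_lit 522) (.cons (nat_lit 515) (.cons (nat_lit 5) .nil .nil) (.cons (nat_lit 524) (.cons (nat_lit 649) (.cons (nat_lit 652) (.cons (nat_lit 778) (.cons (nat_lit 771) (.cons (nat_lit 5) .nil .nil) (.cons (nat_lit 788) (.cons (nat_lit 914) (.cons (nat_lit 908) Uxp11n648 .nil) (.cons (nat_lit 918) Uxp11n321 (.cons (nat_lit 913) (.cons (nat_lit 916) Uxp11n324 .nil) .nil))) .nil)) (.cons (nat_lit 790) (.cons (nat_lit 788) (.cons (nat_lit 914) (.cons (nat_lit 908) (.cons (nat_lit 1034) Uxp11n658 Uxp11n368) .nil) Uxp11n417) .nil) .nil)) .nil) (.cons (nat_lit 658) (.cons (nat_lit 652) (.cons (nat_lit 778) (.cons (nat_lit 771) (.cons (nat_lit 5) .nil .nil) (.cons (nat_lit 780) Uxp11n668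 .nil)) (.cons (nat_lit 785) (.cons (nat_lit 788) (.cons (nat_lit 914) Uxp11n301 Uxp11n268) .nil) (.cons (nat_lit 782) (.cons (nat_lit 780) (.cons (nat_lit 906) (.cons (nat_lit 900) (.cons (nat_lit 1025) Uxp11n5 (.cons (nat_lit 1034) Uxp11n5 .nil)) .nil) (.cons (nat_lit 905) Uxp11n200 .nil)) .nil) .nil))) .nil) (.cons (nat_lit 662) (.cons (nat_lit 660) (.cons (nat_lit 785) (.cons (nat_lit 788) (.cons (nat_lit 914) (.cons (nat_lit 908) (.cons (nat_lit 1038) (.cons (nat_lit 41995) (.cons (nat_lit 1036) (.cons (nat_lit 1162) Uxp11n678 .nil) .nil) .nil) (.cons (nat_lit 1042) Uxp11n427 .nil)) .nil) (.cons (nat_lit 918) (.cons (nat_lit 916) (.cons (nat_lit 1042) Uxp11n699 .nil) .nil) .nil)) .nil) (.cons (nat_lit 786) (.cons (nat_lit 780) (.cons (nat_lit 905) (.cons (nat_lit 908) (.cons (nat_lit 1038) (.cons (nat_lit 41995) (.cons (nat_lit 1036) (.cons (nat_lit 1162) Uxp11n678 .nil) .nil) .nil) .nil) .nil) (.cons (nat_lit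 914) (.cons (nat_lit 908) (.cons (nat_lit 1038) (.cons (nat_lit 41995) Uxp11n18 .nil) .nil) .nil) (.cons (nat_lit 910) (.cons (nat_lit 908) (.cons (nat_lit 1033) Uxp11n699 (.cons (nat_lit 1042) Uxp11n35 .nil)) .nil) .nil))) .nil) (.cons (nat_lit 790) (.cons (nat_lit 787) Uxp11n286 (.cons (nat_lit 796) (.cons (nat_lit 921) (.cons (nat_lit 924) (.cons (nat_lit 1050) (.cons (nat_lit 1043) (.cons (nat_lit 788) (.cons (nat_lit 1169) Uxp11n721 Uxp11n726) .nil) .nil) .nil) .nil) .nil) .nil)) .nil))) .nil) .nil))) .nil)) (.cons (nat_lit 529) (.cons (nat_lit 532) Uxp11n1030 .nil) (.cons (nat_lit 526) (.cons (nat_lit 524) (.cons (nat_lit 649) (.cons (nat_lit 652) (.cons (nat_lit 778) (.cons (nat_lit 772) (.cons (nat_lit 902) Uxp11n1037 (.cons (nat_lit 906) (.cons (nat_lit 900) (.cons (nat_lit 1025) (.cons (nat_lit 1028) (.cons (nat_lit 1158) (.cons (nat_lit 1155) (.cons (nat_lit 33923) (.cons (nat_lit 5) .nil .nil) .nil)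 (.cons (nat_lit 33939) (.cons (nat_lit 1172) (.cons (nat_lit 1298) Uxp11n310 .nil) .nil) .nil)) Uxp11n1048) .nil) (.cons (nat_lit 1034) (.cons (nat_lit 1028) (.cons (nat_lit 1158) Uxp11n1052 Uxp11n142) .nil) .nil)) .nil) (.cons (nat_lit 913) (.cons (nat_lit 916) (.cons (nat_lit 1042) (.cons (nat_lit 1036) (.cons (nat_lit 1161) (.cons (nat_lit 1164) (.cons (nat_lit 1290) (.cons (nat_lit 1284) (.cons (nat_lit 1414) Uxp11n1043 Uxp11n494) .nil) .nil) .nil) Uxp11n1048) .nil) .nil) .nil) .nil))) .nil) (.cons (nat_lit 798) (.cons (nat_lit 796) (.cons (nat_lit 922) Uxp11n1085 .nil) .nil) .nil)) .nil) (.cons (nat_lit 650) (.cons (nat_lit 644) (.cons (nat_lit 769) (.cons (nat_lit 772) (.cons (nat_lit 902) Uxp11n1037 (.cons (nat_lit 914) (.cons (nat_lit 908) (.cons (nat_lit 1034) (.cons (nat_lit 1028) (.cons (nat_lit 1158) Uxp11n1052 Uxp11n142) .nil) (.cons (nat_lit 1033) (.cons (nat_lit 1036) Uxp11n1048 .nil) .nil)) .nil)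 .nil)) .nil) (.cons (nat_lit 778) (.cons (nat_lit 772) (.cons (nat_lit 902) (.cons (nat_lit 899) (.cons (nat_lit 33667) (.cons (nat_lit 5) .nil .nil) .nil) (.cons (nat_lit 33675) (.cons (nat_lit 908) (.cons (nat_lit 1033) Uxp11n18 (.cons (nat_lit 1042) Uxp11n18 .nil)) .nil) .nil)) (.cons (nat_lit 906) (.cons (nat_lit 900) (.cons (nat_lit 1025) (.cons (nat_lit 1028) (.cons (nat_lit 1158) Uxp11n1052 (.cons (nat_lit 1162) (.cons (nat_lit 1156) (.cons (nat_lit 1281) Uxp11n94 .nil) .nil) .nil)) .nil) (.cons (nat_lit 1034) Uxp11n90 .nil)) .nil) (.cons (nat_lit 905) (.cons (nat_lit 908) (.cons (nat_lit 1034) (.cons (nat_lit 1028) (.cons (nat_lit 1158) Uxp11n1052 Uxp11n142) .nil) .nil) .nil) .nil))) .nil) (.cons (nat_lit 790) (.cons (nat_lit 788) (.cons (nat_lit 913) Uxp11n1085 (.cons (nat_lit 922) Uxp11n129 .nil)) .nil) .nil))) .nil) (.cons (nat_lit 670) (.cons (nat_lit 668) (.cons (nat_lit 793) (.cons (nat_lit 796)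 (.cons (nat_lit 926) Uxp11n168 Uxp11n1136) .nil) (.cons (nat_lit 794) (.cons (nat_lit 787) (.cons (nat_lit 660) Uxp11n516 .nil) .nil) .nil)) .nil) .nil))) .nil) .nil)))
def Uxp11n1156 : PT := (.cons (nat_lit 908) (.cons (nat_lit 1038) (.cons (nat_lit 25611) Uxp11n1033 .nil) (.cons (nat_lit 1041) (.cons (nat_lit 1044) Uxp11n598 .nil) Uxp11n541)) .nil)
def Uxp11n1170 : PT := (.cons (nat_lit 25867) (.cons (nat_lit 1292) (.cons (nat_lit 1418) (.cons (nat_lit 1411) (.cons (nat_lit 5) .nil .nil) .nil) (.cons (nat_lit 1425) (.cons (nat_lit 1428) (.cons (nat_lit 1554) Uxp11n116 .nil) .nil) .nil)) .nil) .nil)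
def Uxp11n1176 : PT := (.cons (nat_lit 1298) (.cons (nat_lit 1292) (.cons (nat_lit 1417) (.cons (nat_lit 1420) (.cons (nat_lit 1550) (.cons (nat_lit 26123) Uxp11n116 .nil) .nil) .nil) .nil) .nil) .nil)
def Uxp11n1181 : PT := (.cons (nat_lit 1042) (.cons (nat_lit 1036) (.cons (nat_lit 1161) (.cons (nat_lit 1164) (.cons (nat_lit 1294) Uxp11n1170 Uxp11n1176) .nil) Uxp11n598) .nil) .nil)
def Uxp11n1185 : PT := (.cons (nat_lit 788) (.cons (nat_lit 914) Uxp11n1156 (.cons (nat_lit 913) (.cons (nat_lit 916) Uxp11n1181 .nil) .nil)) .nil)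
def Uxp11n1188 : PT := (.cons (nat_lit 1667) (.cons (nat_lit 5) .nil .nil) (.cons (nat_lit 1684) (.cons (nat_lit 1810) Uxp11n351 .nil) .nil))
def Uxp11n1207 : PT := (.cons (nat_lit 780) (.cons (nat_lit 910) (.cons (nat_lit 908) (.cons (nat_lit 1038) (.cons (nat_lit 1036) (.cons (nat_lit 1162) (.cons (nat_lit 42115) (.cons (nat_lit 1028) (.cons (nat_lit 1286) (.cons (nat_lit 58627) (.cons (nat_lit 1284) (.cons (nat_lit 1414) (.cons (nat_lit 1411) (.cons (nat_lit 25987) (.cons (nat_lit 5) .nil .nil) .nil) (.cons (nat_lit 25995) (.cons (nat_lit 1420) (.cons (nat_lit 1545) (.cons (nat_lit 1548) (.cons (nat_lit 1674) Uxp11n1188 .nil) .nil) (.cons (nat_lit 1554) Uxp11n472 .nil)) .nil) .nil)) .nil) .nil) .nil) .nil) .nil) .nil) .nil) .nil) .nil) .nil) .nil) .nil)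
def Uxp11n1233 : PT := (.cons (nat_lit 1297) (.cons (nat_lit 1300) (.cons (nat_lit 1426) (.cons (nat_lit 1420) (.cons (nat_lit 1550) (.cons (nat_lit 26123) Uxp11n116 .nil) .nil) .nil) .nil) .nil) Uxp11n1176)
def Uxp11n1269 : PT := (.cons (nat_lit 1420) (.cons (nat_lit 1550) (.cons (nat_lit 1548) (.cons (nat_lit 1678) (.cons (nat_lit 26251) Uxp11n242 .nil) .nil) .nil) .nil) .nil)
def Uxp11n1273 : PT := (.cons (nat_lit 1172) (.cons (nat_lit 1302) (.cons (nat_lit 1300) (.cons (nat_lit 1426) Uxp11n1269 .nil) .nil) .nil) .nil)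
def Uxp11n1278 : PT := (.cons (nat_lit 1170) (.cons (nat_lit 1164) (.cons (nat_lit 1294) (.cons (nat_lit 1292) (.cons (nat_lit 1417) Uxp11n1269 .nil) .nil) .nil) .nil) .nil)
def Uxp11n1284 : PT := (.cons (nat_lit 930) (.cons (nat_lit 924) (.cons (nat_lit 1050) (.cons (nat_lit 1043) (.cons (nat_lit 532) (.cons (nat_lit 1169) Uxp11n1273 Uxp11n1278) .nil) .nil) .nil) .nil) .nil)
def Uxp11n1293 : PT := (.cons (nat_lit 1164) (.cons (nat_lit 1294) (.cons (nat_lit 1292) (.cons (nat_lit 1422) (.cons (nat_lit 25995) Uxp11n51 .nil) .nil) .nil) .nil) .nil)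
def Uxp11n1299 : PT := (.cons (nat_lit 914) (.cons (nat_lit 908) (.cons (nat_lit 1038) (.cons (nat_lit 1036) (.cons (nat_lit 1161) Uxp11n1293 (.cons (nat_lit 1170) Uxp11n1293 .nil)) .nil) .nil) .nil) .nil)
def Uxp11n1305 : PT := (.cons (nat_lit 924) (.cons (nat_lit 1050) (.cons (nat_lit 1043) (.cons (nat_lit 532) Uxp11n1278 .nil) .nil) .nil) .nil)
def Uxp11n1331 : PT := (.cons (nat_lit 1284) (.cons (nat_lit 1414) (.cons (nat_lit 1411) (.cons (nat_lit 17795) (.cons (nat_lit 5) .nil .nil) .nil) .nil) .nil) .nil)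
def Uxp11n1338 : PT := (.cons (nat_lit 1028) (.cons (nat_lit 1158) (.cons (nat_lit 1155) (.cons (nat_lit 17539) (.cons (nat_lit 5) .nil .nil) .nil) .nil) .nil) .nil)
def Uxp11n1341 : PT := (.cons (nat_lit 900) (.cons (nat_lit 1025) (.cons (nat_lit 1028) (.cons (nat_lit 1158) (.cons (nat_lit 1155) (.cons (nat_lit 17539) (.cons (nat_lit 5) .nil .nil) .nil) .nil) (.cons (nat_lit 1162) (.cons (nat_lit 1156) (.cons (nat_lit 1281) Uxp11n1331 .nil) .nil) .nil)) .nil) (.cons (nat_lit 1034) Uxp11n1338 .nil)) .nil)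
def Uxp11n1361 : PT := (.cons (nat_lit 1034) (.cons (nat_lit 1028) (.cons (nat_lit 1158) (.cons (nat_lit 1155) (.cons (nat_lit 17539) (.cons (nat_lit 5) .nil .nil) .nil) .nil) (.cons (nat_lit 1162) (.cons (nat_lit 1156) (.cons (nat_lit 1281) Uxp11n1331 .nil) .nil) (.cons (nat_lit 1161) (.cons (nat_lit 1164) (.cons (nat_lit 1290) Uxp11n1331 .nil) .nil) .nil))) .nil) .nil)
def Uxp11n1366 : PT := (.cons (nat_lit 772) (.cons (nat_lit 902) (.cons (nat_lit 899) (.cons (nat_lit 17283) (.cons (nat_lit 5) .nil .nil) .nil) .nil) (.cons (nat_lit 906) Uxp11n1341 (.cons (nat_lit 905) (.cons (nat_lit 908) Uxp11n1361 .nil) .nil))) .nil)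
def Uxp11n1376 : PT := (.cons (nat_lit 1540) (.cons (nat_lit 1670) (.cons (nat_lit 1667) (.cons (nat_lit 18051) (.cons (nat_lit 5) .nil .nil) .nil) .nil) .nil) .nil)
def Uxp11n1384 : PT := (.cons (nat_lit 1162) (.cons (nat_lit 1156) (.cons (nat_lit 1281) (.cons (nat_lit 1284) (.cons (nat_lit 1414) (.cons (nat_lit 1411) (.cons (nat_lit 17795) (.cons (nat_lit 5) .nil .nil) .nil) .nil) (.cons (nat_lit 1418) (.cons (nat_lit 1412) (.cons (nat_lit 1537) Uxp11n1376 .nil) .nil) .nil)) .nil) (.cons (nat_lit 1290) Uxp11n1331 .nil)) .nil) .nil)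
def Uxp11n1386 : PT := (.cons (nat_lit 1028) (.cons (nat_lit 1158) (.cons (nat_lit 1155) (.cons (nat_lit 17539) (.cons (nat_lit 5) .nil .nil) .nil) .nil) Uxp11n1384) .nil)
def Uxp11n1408 : PT := (.cons (nat_lit 660) (.cons (nat_lit 790) (.cons (nat_lit 788) (.cons (nat_lit 918) (.cons (nat_lit 916) (.cons (nat_lit 1042) (.cons (nat_lit 33803) (.cons (nat_lit 908) (.cons (nat_lit 1166) (.cons (nat_lit 50315) (.cons (nat_lit 1164) (.cons (nat_lit 1294) (.cons (nat_lit 17675) Uxp11n310 .nil) .nil) .nil) .nil) .nil) .nil) .nil) .nil) .nil) .nil) .nil) .nil) .nil)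
def Uxp11n1425 : PT := (.cons (nat_lit 906) (.cons (nat_lit 900) (.cons (nat_lit 1025) Uxp11n1386 (.cons (nat_lit 1034) (.cons (nat_lit 1028) (.cons (nat_lit 1158) (.cons (nat_lit 1155) (.cons (nat_lit 17539) (.cons (nat_lit 5) .nil .nil) .nil) .nil) (.cons (nat_lit 1161) (.cons (nat_lit 1164) (.cons (nat_lit 1290) Uxp11n1331 .nil) .nil) (.cons (nat_lit 1162) (.cons (nat_lit 1156) (.cons (nat_lit 1281) Uxp11n1331 .nil) .nil) .nil))) .nil) .nil)) .nil) .nil)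
def Uxp11n1457 : PT := (.cons (nat_lit 273) (.cons (nat_lit 276) (.cons (nat_lit 402) (.cons (nat_lit 396) Uxp11n1147 .nil) (.cons (nat_lit 406) (.cons (nat_lit 404) (.cons (nat_lit 530) (.cons (nat_lit 524) (.cons (nat_lit 658) (.cons (nat_lit 652) (.cons (nat_lit 782) (.cons (nat_lit 25355) (.cons (nat_lit 780) (.cons (nat_lit 906) (.cons (nat_lit 899) (.cons (nat_lit 5) .nil .nil) (.cons (nat_lit 916) (.cons (nat_lit 1042) Uxp11n18 .nil) .nil)) (.cons (nat_lit 913) (.cons (nat_lit 916) (.cons (nat_lit 1042) Uxp11n1033 .nil) .nil) .nil)) .nil) .nil) (.cons (nat_lit 785) (.cons (nat_lit 788) (.cons (nat_lit 914) Uxp11n1156 .nil) .nil) (.cons (nat_lit 786) (.cons (nat_lit 780) (.cons (nat_lit 905) (.cons (nat_lit 908) (.cons (nat_lit 1038) (.cons (nat_lit 25611) Uxp11n1033 .nil) Uxp11n541) .nil) Uxp11n551) .nil) .nil))) .nil) (.cons (nat_lit 665) (.cons (nat_lit 668) (.cons (nat_lit 794) Uxp11n1185 .nil) .nil)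 (.cons (nat_lit 654) (.cons (nat_lit 652) (.cons (nat_lit 777) Uxp11n1207 (.cons (nat_lit 786) (.cons (nat_lit 780) (.cons (nat_lit 910) (.cons (nat_lit 908) (.cons (nat_lit 1038) (.cons (nat_lit 1036) (.cons (nat_lit 1162) (.cons (nat_lit 42115) (.cons (nat_lit 1028) (.cons (nat_lit 1286) (.cons (nat_lit 58627) (.cons (nat_lit 1284) (.cons (nat_lit 1414) (.cons (nat_lit 1411) (.cons (nat_lit 25987) (.cons (nat_lit 5) .nil .nil) .nil) (.cons (nat_lit 25995) (.cons (nat_lit 1420) (.cons (nat_lit 1545) Uxp11n116 (.cons (nat_lit 1554) Uxp11n116 .nil)) .nil) .nil)) .nil) .nil) .nil) .nil) .nil) .nil) .nil) .nil) .nil) .nil) .nil) .nil) .nil)) .nil) .nil))) .nil) (.cons (nat_lit 529) (.cons (nat_lit 532) (.cons (nat_lit 674) (.cons (nat_lit 668) (.cons (nat_lit 794) Uxp11n1185 (.cons (nat_lit 793) (.cons (nat_lit 796) (.cons (nat_lit 922) (.cons (nat_lit 916) (.cons (nat_lit 1041) (.cons (nat_lit 1044) (.cons (nat_lit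 1170) (.cons (nat_lit 1164) (.cons (nat_lit 1294) Uxp11n1170 Uxp11n1233) .nil) .nil) .nil) Uxp11n1181) .nil) .nil) .nil) .nil)) .nil) (.cons (nat_lit 662) (.cons (nat_lit 660) (.cons (nat_lit 786) Uxp11n1207 .nil) .nil) .nil)) .nil) (.cons (nat_lit 534) (.cons (nat_lit 531) (.cons (nat_lit 532) Uxp11n631 .nil) (.cons (nat_lit 548) (.cons (nat_lit 673) (.cons (nat_lit 676) (.cons (nat_lit 806) (.cons (nat_lit 804) (.cons (nat_lit 930) (.cons (nat_lit 924) (.cons (nat_lit 1054) (.cons (nat_lit 1052) (.cons (nat_lit 1182) (.cons (nat_lit 25755) (.cons (nat_lit 1180) (.cons (nat_lit 1310) (.cons (nat_lit 66843) (.cons (nat_lit 1308) (.cons (nat_lit 1434) (.cons (nat_lit 50579) (.cons (nat_lit 532) (.cons (nat_lit 1554) Uxp11n472 .nil) .nil) .nil) .nil) .nil) .nil) .nil) .nil) .nil) .nil) .nil) .nil) .nil) .nil) .nil) (.cons (nat_lit 810) (.cons (nat_lit 804) Uxp11n1284 .nil) .nil)) .nil) (.cons (nat_lit 674) (.cons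 (nat_lit 668) (.cons (nat_lit 794) (.cons (nat_lit 787) (.cons (nat_lit 532) Uxp11n1299 .nil) .nil) (.cons (nat_lit 801) (.cons (nat_lit 804) (.cons (nat_lit 930) Uxp11n1305 .nil) .nil) .nil)) .nil) .nil)) .nil)) .nil))) .nil) .nil)) .nil) (.cons (nat_lit 278) (.cons (nat_lit 276) (.cons (nat_lit 402) (.cons (nat_lit 396) (.cons (nat_lit 522) (.cons (nat_lit 516) (.cons (nat_lit 646) (.cons (nat_lit 643) (.cons (nat_lit 17027) (.cons (nat_lit 5) .nil .nil) .nil) .nil) (.cons (nat_lit 650) (.cons (nat_lit 644) (.cons (nat_lit 769) (.cons (nat_lit 772) (.cons (nat_lit 902) (.cons (nat_lit 899) (.cons (nat_lit 17283) (.cons (nat_lit 5) .nil .nil) .nil) .nil) (.cons (nat_lit 906) Uxp11n1341 .nil)) .nil) (.cons (nat_lit 778) (.cons (nat_lit 772) (.cons (nat_lit 902) (.cons (nat_lit 899) (.cons (nat_lit 17283) (.cons (nat_lit 5) .nil .nil) .nil) .nil) (.cons (nat_lit 906) (.cons (nat_lit 900) (.cons (nat_lit 1025)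 Uxp11n1338 .nil) .nil) (.cons (nat_lit 905) (.cons (nat_lit 908) (.cons (nat_lit 1034) Uxp11n1338 .nil) .nil) .nil))) .nil) .nil)) .nil) (.cons (nat_lit 649) (.cons (nat_lit 652) (.cons (nat_lit 778) Uxp11n1366 .nil) .nil) .nil))) .nil) (.cons (nat_lit 529) (.cons (nat_lit 532) (.cons (nat_lit 658) (.cons (nat_lit 652) (.cons (nat_lit 778) Uxp11n1366 (.cons (nat_lit 777) (.cons (nat_lit 780) (.cons (nat_lit 906) (.cons (nat_lit 900) (.cons (nat_lit 1025) Uxp11n1386 Uxp11n1361) .nil) .nil) .nil) .nil)) .nil) .nil) .nil) (.cons (nat_lit 534) (.cons (nat_lit 532) (.cons (nat_lit 657) Uxp11n1408 (.cons (nat_lit 666) Uxp11n1408 .nil)) .nil) .nil))) .nil) (.cons (nat_lit 409) (.cons (nat_lit 412) (.cons (nat_lit 538) (.cons (nat_lit 532) (.cons (nat_lit 658) (.cons (nat_lit 652) (.cons (nat_lit 778) (.cons (nat_lit 772) (.cons (nat_lit 902) (.cons (nat_lit 899) (.cons (nat_lit 17283) (.cons (nat_lit 5) .nil .nil)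 .nil) .nil) (.cons (nat_lit 905) (.cons (nat_lit 908) Uxp11n1361 .nil) (.cons (nat_lit 906) Uxp11n1341 .nil))) .nil) (.cons (nat_lit 777) (.cons (nat_lit 780) Uxp11n1425 .nil) .nil)) .nil) (.cons (nat_lit 657) (.cons (nat_lit 660) (.cons (nat_lit 786) (.cons (nat_lit 780) (.cons (nat_lit 905) (.cons (nat_lit 908) (.cons (nat_lit 1034) (.cons (nat_lit 1028) (.cons (nat_lit 1158) (.cons (nat_lit 1155) (.cons (nat_lit 17539) (.cons (nat_lit 5) .nil .nil) .nil) .nil) (.cons (nat_lit 1161) (.cons (nat_lit 1164) (.cons (nat_lit 1290) (.cons (nat_lit 1284) (.cons (nat_lit 1414) (.cons (nat_lit 1411) (.cons (nat_lit 17795) (.cons (nat_lit 5) .nil .nil) .nil) .nil) (.cons (nat_lit 1417) (.cons (nat_lit 1420) (.cons (nat_lit 1546) Uxp11n1376 .nil) .nil) (.cons (nat_lit 1418) (.cons (nat_lit 1412) (.cons (nat_lit 1537) Uxp11n1376 .nil) .nil) .nil))) .nil) .nil) .nil) Uxp11n1384)) .nil) .nil) .nil) Uxp11n1425) .nil) .nil)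 .nil) .nil)) .nil) (.cons (nat_lit 542) (.cons (nat_lit 540) (.cons (nat_lit 666) Uxp11n1408 .nil) .nil) .nil)) .nil) .nil)) .nil) .nil))
def Uxp11n1463 : PT := (.cons (nat_lit 1156) (.cons (nat_lit 1281) (.cons (nat_lit 1283) (.cons (nat_lit 5) .nil .nil) .nil) .nil) .nil)
def Uxp11n1466 : PT := (.cons (nat_lit 1027) (.cons (nat_lit 5) .nil .nil) (.cons (nat_lit 1036) (.cons (nat_lit 1162) Uxp11n1463 Uxp11n747) .nil))
def Uxp11n1468 : PT := (.cons (nat_lit 2052) (.cons (nat_lit 2177) (.cons (nat_lit 2179) (.cons (nat_lit 5) .nil .nil) .nil) .nil) .nil)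
def Uxp11n1481 : PT := (.cons (nat_lit 1420) (.cons (nat_lit 1550) (.cons (nat_lit 1548) (.cons (nat_lit 1678) (.cons (nat_lit 1676) (.cons (nat_lit 1802) (.cons (nat_lit 83715) (.cons (nat_lit 1668) (.cons (nat_lit 1926) (.cons (nat_lit 100227) (.cons (nat_lit 1924) (.cons (nat_lit 2054) (.cons (nat_lit 67587) Uxp11n1468 .nil) .nil) .nil) .nil) .nil) .nil) .nil) .nil) .nil) .nil) .nil) .nil) .nil)
def Uxp11n1485 : PT := (.cons (nat_lit 1290) Uxp11n209 (.cons (nat_lit 1294) (.cons (nat_lit 1292) (.cons (nat_lit 1417) Uxp11n1481 .nil) .nil) .nil))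
def Uxp11n1491 : PT := (.cons (nat_lit 1676) (.cons (nat_lit 1806) (.cons (nat_lit 1804) (.cons (nat_lit 1934) (.cons (nat_lit 67467) Uxp11n794 .nil) .nil) .nil) .nil) .nil)
def Uxp11n1495 : PT := (.cons (nat_lit 1428) (.cons (nat_lit 1558) (.cons (nat_lit 1556) (.cons (nat_lit 1682) Uxp11n1491 .nil) .nil) .nil) .nil)
def Uxp11n1500 : PT := (.cons (nat_lit 1426) (.cons (nat_lit 1420) (.cons (nat_lit 1550) (.cons (nat_lit 1548) (.cons (nat_lit 1673) Uxp11n1491 .nil) .nil) .nil) .nil) .nil)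
def Uxp11n1505 : PT := (.cons (nat_lit 1172) (.cons (nat_lit 1297) (.cons (nat_lit 1299) (.cons (nat_lit 1172) (.cons (nat_lit 1425) Uxp11n1495 Uxp11n1500) .nil) .nil) .nil) .nil)
def Uxp11n1514 : PT := (.cons (nat_lit 1046) (.cons (nat_lit 1044) (.cons (nat_lit 1170) (.cons (nat_lit 1164) Uxp11n1485 .nil) (.cons (nat_lit 1174) Uxp11n1505 (.cons (nat_lit 1169) (.cons (nat_lit 1172) (.cons (nat_lit 1302) (.cons (nat_lit 1300) (.cons (nat_lit 1426) Uxp11n1481 .nil) .nil) .nil) .nil) .nil))) .nil) .nil)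
def Uxp11n1518 : PT := (.cons (nat_lit 1284) (.cons (nat_lit 1409) (.cons (nat_lit 1411) (.cons (nat_lit 5) .nil .nil) .nil) .nil) .nil)
def Uxp11n1522 : PT := (.cons (nat_lit 1162) (.cons (nat_lit 1156) (.cons (nat_lit 1286) (.cons (nat_lit 58627) Uxp11n1518 .nil) .nil) .nil) (.cons (nat_lit 1166) (.cons (nat_lit 1164) (.cons (nat_lit 1289) Uxp11n232 .nil) .nil) .nil))
def Uxp11n1524 : PT := (.cons (nat_lit 1036) (.cons (nat_lit 1161) (.cons (nat_lit 1164) (.cons (nat_lit 1294) (.cons (nat_lit 58635) Uxp11n310 .nil) .nil) .nil) Uxp11n1522) .nil)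
def Uxp11n1529 : PT := (.cons (nat_lit 905) (.cons (nat_lit 908) (.cons (nat_lit 1034) Uxp11n1466 Uxp11n1514) .nil) (.cons (nat_lit 918) (.cons (nat_lit 916) (.cons (nat_lit 1042) Uxp11n1524 (.cons (nat_lit 1041) Uxp11n315 (.cons (nat_lit 1046) Uxp11n259 .nil))) .nil) .nil))
def Uxp11n1534 : PT := (.cons (nat_lit 1540) (.cons (nat_lit 1665) (.cons (nat_lit 1667) (.cons (nat_lit 5) .nil .nil) .nil) .nil) .nil)
def Uxp11n1538 : PT := (.cons (nat_lit 1418) (.cons (nat_lit 1412) (.cons (nat_lit 1542) (.cons (nat_lit 75267) Uxp11n1534 .nil) .nil) .nil) (.cons (nat_lit 1422) (.cons (nat_lit 1420) (.cons (nat_lit 1545) Uxp11n784 .nil) .nil) .nil))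
def Uxp11n1544 : PT := (.cons (nat_lit 1174) (.cons (nat_lit 1172) (.cons (nat_lit 1298) (.cons (nat_lit 1292) Uxp11n1538 .nil) (.cons (nat_lit 1297) Uxp11n788 (.cons (nat_lit 1302) Uxp11n811 .nil))) .nil) .nil)
def Uxp11n1550 : PT := (.cons (nat_lit 1411) (.cons (nat_lit 66947) (.cons (nat_lit 5) .nil .nil) .nil) (.cons (nat_lit 66955) (.cons (nat_lit 1420) (.cons (nat_lit 1546) Uxp11n1534 .nil) .nil) .nil))
def Uxp11n1554 : PT := (.cons (nat_lit 1164) (.cons (nat_lit 1290) (.cons (nat_lit 1284) (.cons (nat_lit 1414) Uxp11n1550 (.cons (nat_lit 1418) (.cons (nat_lit 1412) (.cons (nat_lit 1537) Uxp11n825 .nil) .nil) .nil)) .nil) (.cons (nat_lit 1302) (.cons (nat_lit 1300) (.cons (nat_lit 1426) Uxp11n1481 .nil) .nil) .nil)) .nil)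
def Uxp11n1558 : PT := (.cons (nat_lit 1156) (.cons (nat_lit 1281) (.cons (nat_lit 1284) (.cons (nat_lit 1414) Uxp11n1550 .nil) .nil) Uxp11n1485) .nil)
def Uxp11n1568 : PT := (.cons (nat_lit 1284) (.cons (nat_lit 1409) (.cons (nat_lit 1411) (.cons (nat_lit 5) .nil .nil) .nil) (.cons (nat_lit 1418) (.cons (nat_lit 1411) (.cons (nat_lit 5) .nil .nil) .nil) .nil)) .nil)
def Uxp11n1575 : PT := (.cons (nat_lit 1418) (.cons (nat_lit 1412) (.cons (nat_lit 1542) (.cons (nat_lit 58883) Uxp11n1534 .nil) .nil) .nil) .nil)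
def Uxp11n1578 : PT := (.cons (nat_lit 1290) (.cons (nat_lit 1284) (.cons (nat_lit 1409) (.cons (nat_lit 1412) (.cons (nat_lit 1542) (.cons (nat_lit 58883) Uxp11n1534 .nil) .nil) .nil) .nil) .nil) (.cons (nat_lit 1289) (.cons (nat_lit 1292) Uxp11n1575 .nil) .nil))
def Uxp11n1582 : PT := (.cons (nat_lit 1796) (.cons (nat_lit 1921) (.cons (nat_lit 1923) (.cons (nat_lit 5) .nil .nil) .nil) .nil) .nil)
def Uxp11n1588 : PT := (.cons (nat_lit 1546) (.cons (nat_lit 1540) (.cons (nat_lit 1665) (.cons (nat_lit 1668) (.cons (nat_lit 1798) (.cons (nat_lit 59139) Uxp11n1582 .nil) .nil) .nil) .nil) .nil) .nil)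
def Uxp11n1592 : PT := (.cons (nat_lit 1292) (.cons (nat_lit 1418) (.cons (nat_lit 1412) (.cons (nat_lit 1542) (.cons (nat_lit 58883) Uxp11n1534 .nil) .nil) .nil) (.cons (nat_lit 1417) (.cons (nat_lit 1420) Uxp11n1588 .nil) .nil)) .nil)
def Uxp11n1610 : PT := (.cons (nat_lit 1292) (.cons (nat_lit 1422) (.cons (nat_lit 1420) (.cons (nat_lit 1550) (.cons (nat_lit 1548) (.cons (nat_lit 1674) (.cons (nat_lit 75395) (.cons (nat_lit 1540) (.cons (nat_lit 1798) (.cons (nat_lit 91907) (.cons (nat_lit 1796) (.cons (nat_lit 1926) (.cons (nat_lit 1923) (.cons (nat_lit 59267) (.cons (nat_lit 5) .nil .nil) .nil) (.cons (nat_lit 59275) (.cons (nat_lit 1932) (.cons (nat_lit 2058) Uxp11n1468 (.cons (nat_lit 2057) Uxp11n844 .nil)) .nil) .nil)) .nil) .nil) .nil) .nil) .nil) .nil) .nil) .nil) .nil) .nil) .nil) .nil)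
def Uxp11n1613 : PT := (.cons (nat_lit 1166) (.cons (nat_lit 1164) (.cons (nat_lit 1289) Uxp11n1610 (.cons (nat_lit 1298) Uxp11n232 .nil)) .nil) .nil)
def Uxp11n1623 : PT := (.cons (nat_lit 1297) (.cons (nat_lit 1300) (.cons (nat_lit 1426) (.cons (nat_lit 1420) (.cons (nat_lit 1545) (.cons (nat_lit 1548) (.cons (nat_lit 1674) (.cons (nat_lit 1668) (.cons (nat_lit 1798) (.cons (nat_lit 59139) Uxp11n1582 .nil) .nil) .nil) .nil) .nil) Uxp11n1588) .nil) .nil) .nil) .nil)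
def Uxp11n1657 : PT := (.cons (nat_lit 1046) (.cons (nat_lit 1043) Uxp11n876 (.cons (nat_lit 1052) (.cons (nat_lit 1177) (.cons (nat_lit 1180) (.cons (nat_lit 1306) Uxp11n893 (.cons (nat_lit 1310) (.cons (nat_lit 1308) (.cons (nat_lit 1434) (.cons (nat_lit 1428) (.cons (nat_lit 1558) (.cons (nat_lit 1556) (.cons (nat_lit 1686) (.cons (nat_lit 59027) (.cons (nat_lit 1684) (.cons (nat_lit 1814) (.cons (nat_lit 100115) (.cons (nat_lit 1812) (.cons (nat_lit 1938) (.cons (nat_lit 83851) (.cons (nat_lit 1036) (.cons (nat_lit 2058) Uxp11n1468 .nil) .nil) .nil) .nil) .nil) .nil) .nil) .nil) .nil) .nil) .nil) .nil) .nil) .nil) .nil) .nil)) .nil) (.cons (nat_lit 1178) (.cons (nat_lit 1172) (.cons (nat_lit 1297) (.cons (nat_lit 1299) (.cons (nat_lit 1044) Uxp11n890 .nil) .nil) .nil) .nil) .nil)) .nil)) .nil)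
def Uxp11n1658 : PT := (.cons (nat_lit 1041) (.cons (nat_lit 1044) (.cons (nat_lit 1178) (.cons (nat_lit 1172) (.cons (nat_lit 1298) Uxp11n1592 Uxp11n1623) .nil) (.cons (nat_lit 1174) (.cons (nat_lit 1172) (.cons (nat_lit 1298) Uxp11n1610 .nil) .nil) .nil)) .nil) Uxp11n1657)
def Uxp11n1667 : PT := (.cons (nat_lit 1155) (.cons (nat_lit 50307) (.cons (nat_lit 5) .nil .nil) .nil) (.cons (nat_lit 50315) (.cons (nat_lit 1164) (.cons (nat_lit 1290) Uxp11n1568 .nil) .nil) .nil))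
def Uxp11n1676 : PT := (.cons (nat_lit 1028) (.cons (nat_lit 1158) (.cons (nat_lit 1155) (.cons (nat_lit 50307) (.cons (nat_lit 5) .nil .nil) .nil) (.cons (nat_lit 50315) (.cons (nat_lit 1164) (.cons (nat_lit 1289) Uxp11n310 (.cons (nat_lit 1290) Uxp11n1518 .nil)) .nil) .nil)) Uxp11n333) .nil)
def Uxp11n1678 : PT := (.cons (nat_lit 1796) (.cons (nat_lit 1921) (.cons (nat_lit 1923) (.cons (nat_lit 5) .nil .nil) .nil) (.cons (nat_lit 1930) (.cons (nat_lit 1923) (.cons (nat_lit 5) .nil .nil) .nil) .nil)) .nil)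
def Uxp11n1691 : PT := (.cons (nat_lit 1164) (.cons (nat_lit 1294) (.cons (nat_lit 1292) (.cons (nat_lit 1422) (.cons (nat_lit 1420) (.cons (nat_lit 1546) (.cons (nat_lit 67075) (.cons (nat_lit 1412) (.cons (nat_lit 1670) (.cons (nat_lit 83587) (.cons (nat_lit 1668) (.cons (nat_lit 1798) (.cons (nat_lit 50947) Uxp11n1678 .nil) .nil) .nil) .nil) .nil) .nil) .nil) .nil) .nil) .nil) .nil) .nil) .nil)
def Uxp11n1704 : PT := (.cons (nat_lit 1164) (.cons (nat_lit 1294) (.cons (nat_lit 1292) (.cons (nat_lit 1422) (.cons (nat_lit 1420) (.cons (nat_lit 1546) (.cons (nat_lit 67075) (.cons (nat_lit 1412) (.cons (nat_lit 1670) (.cons (nat_lit 83587) (.cons (nat_lit 1668) (.cons (nat_lit 1798) (.cons (nat_lit 50947) Uxp11n1582 .nil) .nil) .nil) .nil) .nil) .nil) .nil) .nil) .nil) .nil) .nil) .nil) .nil)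
def Uxp11n1708 : PT := (.cons (nat_lit 1038) (.cons (nat_lit 1036) (.cons (nat_lit 1161) Uxp11n1691 (.cons (nat_lit 1170) Uxp11n1704 .nil)) .nil) .nil)
def Uxp11n1718 : PT := (.cons (nat_lit 1162) (.cons (nat_lit 1156) (.cons (nat_lit 1281) (.cons (nat_lit 1284) (.cons (nat_lit 1414) (.cons (nat_lit 1411) (.cons (nat_lit 50563) (.cons (nat_lit 5) .nil .nil) .nil) (.cons (nat_lit 50571) (.cons (nat_lit 1420) (.cons (nat_lit 1546) Uxp11n1534 .nil) .nil) .nil)) (.cons (nat_lit 1418) (.cons (nat_lit 1412) (.cons (nat_lit 1537) Uxp11n339 .nil) .nil) .nil)) .nil) (.cons (nat_lit 1290) Uxp11n193 .nil)) .nil) Uxp11n377)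
def Uxp11n1729 : PT := (.cons (nat_lit 1172) (.cons (nat_lit 1302) (.cons (nat_lit 1300) (.cons (nat_lit 1426) Uxp11n405 .nil) .nil) .nil) .nil)
def Uxp11n1734 : PT := (.cons (nat_lit 1170) (.cons (nat_lit 1164) (.cons (nat_lit 1294) (.cons (nat_lit 1292) (.cons (nat_lit 1417) Uxp11n405 (.cons (nat_lit 1426) Uxp11n405 .nil)) .nil) .nil) .nil) .nil)
def Uxp11n1740 : PT := (.cons (nat_lit 918) (.cons (nat_lit 916) (.cons (nat_lit 1041) (.cons (nat_lit 1043) (.cons (nat_lit 916) (.cons (nat_lit 1169) Uxp11n1729 Uxp11n1734) .nil) (.cons (nat_lit 1052) (.cons (nat_lit 1182) Uxp11n398 .nil) .nil)) (.cons (nat_lit 1050) (.cons (nat_lit 1043) (.cons (nat_lit 916) Uxp11n410 .nil) .nil) .nil)) .nil) .nil)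
def Uxp11n1748 : PT := (.cons (nat_lit 1155) (.cons (nat_lit 5) .nil .nil) (.cons (nat_lit 1172) (.cons (nat_lit 1298) Uxp11n310 .nil) .nil))
def Uxp11n1752 : PT := (.cons (nat_lit 1162) (.cons (nat_lit 1155) (.cons (nat_lit 5) .nil .nil) (.cons (nat_lit 1164) (.cons (nat_lit 1290) Uxp11n1518 (.cons (nat_lit 1289) Uxp11n310 .nil)) .nil)) .nil)
def Uxp11n1761 : PT := (.cons (nat_lit 1284) (.cons (nat_lit 1409) (.cons (nat_lit 1412) (.cons (nat_lit 1542) (.cons (nat_lit 42499) Uxp11n1534 .nil) .nil) .nil) .nil) .nil)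
def Uxp11n1768 : PT := (.cons (nat_lit 1162) (.cons (nat_lit 1156) (.cons (nat_lit 1286) (.cons (nat_lit 42243) Uxp11n1518 .nil) .nil) .nil) .nil)
def Uxp11n1771 : PT := (.cons (nat_lit 1418) (.cons (nat_lit 1412) (.cons (nat_lit 1542) (.cons (nat_lit 42499) Uxp11n1534 .nil) .nil) .nil) .nil)
def Uxp11n1776 : PT := (.cons (nat_lit 1156) (.cons (nat_lit 1286) (.cons (nat_lit 42243) Uxp11n1568 .nil) (.cons (nat_lit 1290) Uxp11n1761 (.cons (nat_lit 1289) (.cons (nat_lit 1292) Uxp11n1771 .nil) .nil))) .nil)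
def Uxp11n1784 : PT := (.cons (nat_lit 1540) (.cons (nat_lit 1665) (.cons (nat_lit 1667) (.cons (nat_lit 5) .nil .nil) .nil) (.cons (nat_lit 1674) (.cons (nat_lit 1667) (.cons (nat_lit 5) .nil .nil) .nil) .nil)) .nil)
def Uxp11n1790 : PT := (.cons (nat_lit 1540) (.cons (nat_lit 1665) (.cons (nat_lit 1668) (.cons (nat_lit 1798) (.cons (nat_lit 42755) Uxp11n1582 .nil) .nil) .nil) .nil) .nil)
def Uxp11n1796 : PT := (.cons (nat_lit 1290) (.cons (nat_lit 1284) (.cons (nat_lit 1409) (.cons (nat_lit 1412) (.cons (nat_lit 1542) (.cons (nat_lit 42499) Uxp11n1784 .nil) (.cons (nat_lit 1546) Uxp11n1790 .nil)) .nil) Uxp11n1771) .nil) .nil)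
def Uxp11n1800 : PT := (.cons (nat_lit 1036) (.cons (nat_lit 1162) Uxp11n1776 (.cons (nat_lit 1161) (.cons (nat_lit 1164) Uxp11n1796 .nil) .nil)) .nil)
def Uxp11n1804 : PT := (.cons (nat_lit 1930) (.cons (nat_lit 1923) (.cons (nat_lit 5) .nil .nil) (.cons (nat_lit 1932) (.cons (nat_lit 2058) Uxp11n1468 (.cons (nat_lit 2057) Uxp11n844 .nil)) .nil)) .nil)
def Uxp11n1808 : PT := (.cons (nat_lit 1676) (.cons (nat_lit 1802) Uxp11n1678 (.cons (nat_lit 1801) (.cons (nat_lit 1804) Uxp11n1804 .nil) .nil)) .nil)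
def Uxp11n1822 : PT := (.cons (nat_lit 1036) (.cons (nat_lit 1166) (.cons (nat_lit 1164) (.cons (nat_lit 1294) (.cons (nat_lit 1292) (.cons (nat_lit 1418) (.cons (nat_lit 58755) (.cons (nat_lit 1284) (.cons (nat_lit 1542) (.cons (nat_lit 75267) (.cons (nat_lit 1540) (.cons (nat_lit 1670) (.cons (nat_lit 1667) (.cons (nat_lit 42627) (.cons (nat_lit 5) .nil .nil) .nil) (.cons (nat_lit 42635) Uxp11n1808 .nil)) .nil) .nil) .nil) .nil) .nil) .nil) .nil) .nil) .nil) .nil) .nil) .nil)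
def Uxp11n1838 : PT := (.cons (nat_lit 1036) (.cons (nat_lit 1166) (.cons (nat_lit 1164) (.cons (nat_lit 1294) (.cons (nat_lit 1292) (.cons (nat_lit 1418) (.cons (nat_lit 58755) (.cons (nat_lit 1284) (.cons (nat_lit 1542) (.cons (nat_lit 75267) (.cons (nat_lit 1540) (.cons (nat_lit 1670) (.cons (nat_lit 1667) (.cons (nat_lit 42627) (.cons (nat_lit 5) .nil .nil) .nil) (.cons (nat_lit 42635) (.cons (nat_lit 1676) (.cons (nat_lit 1802) Uxp11n1582 (.cons (nat_lit 1801) Uxp11n351 .nil)) .nil) .nil)) .nil) .nil) .nil) .nil) .nil) .nil) .nil) .nil) .nil) .nil) .nil) .nil)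
def Uxp11n1849 : PT := (.cons (nat_lit 1546) Uxp11n1790 (.cons (nat_lit 1545) (.cons (nat_lit 1548) (.cons (nat_lit 1674) (.cons (nat_lit 1668) (.cons (nat_lit 1798) (.cons (nat_lit 42755) Uxp11n1582 .nil) .nil) .nil) .nil) .nil) .nil))
def Uxp11n1870 : PT := (.cons (nat_lit 1676) (.cons (nat_lit 1806) (.cons (nat_lit 1804) (.cons (nat_lit 1934) (.cons (nat_lit 42891) Uxp11n794 .nil) .nil) .nil) .nil) .nil)
def Uxp11n1882 : PT := (.cons (nat_lit 1299) (.cons (nat_lit 788) (.cons (nat_lit 1425) (.cons (nat_lit 1428) (.cons (nat_lit 1558) (.cons (nat_lit 1556) (.cons (nat_lit 1682) Uxp11n1870 .nil) .nil) .nil) .nil) (.cons (nat_lit 1426) (.cons (nat_lit 1420) (.cons (nat_lit 1550) (.cons (nat_lit 1548) (.cons (nat_lit 1673) Uxp11n1870 .nil) .nil) .nil) .nil) .nil)) .nil) .nil)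
def Uxp11n1903 : PT := (.cons (nat_lit 1054) (.cons (nat_lit 1052) (.cons (nat_lit 1178) (.cons (nat_lit 1172) (.cons (nat_lit 1302) (.cons (nat_lit 1300) (.cons (nat_lit 1430) (.cons (nat_lit 42387) (.cons (nat_lit 1428) (.cons (nat_lit 1558) (.cons (nat_lit 83475) (.cons (nat_lit 1556) (.cons (nat_lit 1682) (.cons (nat_lit 67211) (.cons (nat_lit 780) (.cons (nat_lit 1802) Uxp11n1678 .nil) .nil) .nil) .nil) .nil) .nil) .nil) .nil) .nil) .nil) .nil) .nil) .nil) .nil) .nil) .nil)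
def Uxp11n1910 : PT := (.cons (nat_lit 922) (.cons (nat_lit 916) (.cons (nat_lit 1041) (.cons (nat_lit 1043) (.cons (nat_lit 788) Uxp11n996 .nil) .nil) (.cons (nat_lit 1050) (.cons (nat_lit 1043) (.cons (nat_lit 788) Uxp11n726 .nil) .nil) .nil)) .nil) .nil)
def Uxp11n1937 : PT := (.cons (nat_lit 1155) (.cons (nat_lit 50307) (.cons (nat_lit 5) .nil .nil) .nil) (.cons (nat_lit 50315) (.cons (nat_lit 1164) (.cons (nat_lit 1290) Uxp11n1518 .nil) .nil) .nil))
def Uxp11n1998 : PT := (.cons (nat_lit 1028) (.cons (nat_lit 1153) (.cons (nat_lit 1155) (.cons (nat_lit 5) .nil .nil) .nil) (.cons (nat_lit 1162) (.cons (nat_lit 1155) (.cons (nat_lit 5) .nil .nil) .nil) .nil)) .nil)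
def Uxp11n2061 : PT := (.cons (nat_lit 650) (.cons (nat_lit 644) (.cons (nat_lit 769) (.cons (nat_lit 771) (.cons (nat_lit 5) .nil .nil) (.cons (nat_lit 788) (.cons (nat_lit 914) (.cons (nat_lit 908) Uxp11n648 .nil) (.cons (nat_lit 918) (.cons (nat_lit 916) (.cons (nat_lit 1042) (.cons (nat_lit 1036) Uxp11n1522 .nil) (.cons (nat_lit 1041) Uxp11n236 (.cons (nat_lit 1046) Uxp11n259 .nil))) .nil) .nil)) .nil)) (.cons (nat_lit 778) (.cons (nat_lit 771) (.cons (nat_lit 5) .nil .nil) (.cons (nat_lit 780) (.cons (nat_lit 906) (.cons (nat_lit 900) (.cons (nat_lit 1025) (.cons (nat_lit 1027) (.cons (nat_lit 5) .nil .nil) .nil) .nil) .nil) Uxp11n668) .nil)) (.cons (nat_lit 782) (.cons (nat_lit 780) (.cons (nat_lit 906) (.cons (nat_lit 900) (.cons (nat_lit 1025) (.cons (nat_lit 1028) (.cons (nat_lit 1158) Uxp11n1937 .nil) .nil) (.cons (nat_lit 1034) Uxp11n5 (.cons (nat_lit 1038) (.cons (nat_lit 1036) (.cons (nat_lit 1161)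 Uxp11n1704 .nil) .nil) .nil))) .nil) (.cons (nat_lit 905) (.cons (nat_lit 908) (.cons (nat_lit 1034) (.cons (nat_lit 1028) (.cons (nat_lit 1158) Uxp11n1937 (.cons (nat_lit 1162) (.cons (nat_lit 1156) (.cons (nat_lit 1281) Uxp11n193 .nil) .nil) .nil)) .nil) (.cons (nat_lit 1046) (.cons (nat_lit 1044) (.cons (nat_lit 1170) Uxp11n1704 .nil) .nil) .nil)) .nil) (.cons (nat_lit 918) (.cons (nat_lit 916) (.cons (nat_lit 1041) (.cons (nat_lit 1043) (.cons (nat_lit 916) (.cons (nat_lit 1169) Uxp11n1729 Uxp11n410) .nil) .nil) .nil) .nil) .nil))) .nil) .nil))) .nil) (.cons (nat_lit 649) (.cons (nat_lit 652) (.cons (nat_lit 778) (.cons (nat_lit 771) (.cons (nat_lit 5) .nil .nil) (.cons (nat_lit 780) (.cons (nat_lit 905) (.cons (nat_lit 908) (.cons (nat_lit 1034) (.cons (nat_lit 1027) (.cons (nat_lit 5) .nil .nil) (.cons (nat_lit 1036) Uxp11n747 .nil)) Uxp11n1514) .nil) (.cons (nat_lit 914) (.cons (nat_lit 908) Uxp11n648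 .nil) (.cons (nat_lit 918) (.cons (nat_lit 916) (.cons (nat_lit 1041) Uxp11n315 (.cons (nat_lit 1042) Uxp11n1524 (.cons (nat_lit 1046) Uxp11n259 .nil))) .nil) .nil))) .nil)) (.cons (nat_lit 790) (.cons (nat_lit 788) (.cons (nat_lit 914) (.cons (nat_lit 908) (.cons (nat_lit 1034) Uxp11n1676 (.cons (nat_lit 1041) (.cons (nat_lit 1044) (.cons (nat_lit 1170) Uxp11n346 .nil) .nil) Uxp11n1708)) .nil) (.cons (nat_lit 913) (.cons (nat_lit 916) (.cons (nat_lit 1050) (.cons (nat_lit 1044) (.cons (nat_lit 1170) Uxp11n346 Uxp11n377) .nil) (.cons (nat_lit 1046) (.cons (nat_lit 1044) (.cons (nat_lit 1170) Uxp11n1691 .nil) .nil) .nil)) .nil) Uxp11n1740)) .nil) .nil)) .nil) (.cons (nat_lit 662) (.cons (nat_lit 660) (.cons (nat_lit 786) (.cons (nat_lit 780) (.cons (nat_lit 905) (.cons (nat_lit 908) (.cons (nat_lit 1038) (.cons (nat_lit 41995) (.cons (nat_lit 1036) (.cons (nat_lit 1162) (.cons (nat_lit 1155) (.cons (nat_lit 5)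 .nil .nil) (.cons (nat_lit 1164) (.cons (nat_lit 1289) Uxp11n310 (.cons (nat_lit 1290) Uxp11n1518 .nil)) .nil)) .nil) .nil) .nil) (.cons (nat_lit 1042) (.cons (nat_lit 1036) (.cons (nat_lit 1162) (.cons (nat_lit 1156) (.cons (nat_lit 1286) (.cons (nat_lit 42243) Uxp11n1518 .nil) .nil) .nil) (.cons (nat_lit 1161) (.cons (nat_lit 1164) (.cons (nat_lit 1290) Uxp11n1761 .nil) .nil) .nil)) .nil) .nil)) .nil) (.cons (nat_lit 906) (.cons (nat_lit 900) (.cons (nat_lit 1030) (.cons (nat_lit 41987) Uxp11n1998 .nil) (.cons (nat_lit 1034) (.cons (nat_lit 1028) (.cons (nat_lit 1153) (.cons (nat_lit 1156) (.cons (nat_lit 1286) (.cons (nat_lit 42243) Uxp11n1518 .nil) .nil) .nil) .nil) .nil) (.cons (nat_lit 1033) (.cons (nat_lit 1036) Uxp11n1768 .nil) .nil))) .nil) (.cons (nat_lit 910) (.cons (nat_lit 908) (.cons (nat_lit 1033) Uxp11n1838 (.cons (nat_lit 1042) Uxp11n35 .nil)) .nil) .nil))) .nil) (.cons (nat_lit 785) (.cons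 (nat_lit 788) (.cons (nat_lit 914) (.cons (nat_lit 908) (.cons (nat_lit 1038) (.cons (nat_lit 41995) (.cons (nat_lit 1036) Uxp11n1752 .nil) .nil) (.cons (nat_lit 1042) (.cons (nat_lit 1036) (.cons (nat_lit 1161) (.cons (nat_lit 1164) (.cons (nat_lit 1294) (.cons (nat_lit 42251) Uxp11n310 .nil) (.cons (nat_lit 1290) Uxp11n1761 .nil)) .nil) Uxp11n1768) .nil) (.cons (nat_lit 1041) (.cons (nat_lit 1044) (.cons (nat_lit 1170) (.cons (nat_lit 1164) (.cons (nat_lit 1289) (.cons (nat_lit 1292) Uxp11n1771 .nil) (.cons (nat_lit 1290) Uxp11n1761 .nil)) .nil) .nil) .nil) .nil))) .nil) (.cons (nat_lit 918) (.cons (nat_lit 916) (.cons (nat_lit 1042) Uxp11n1838 .nil) .nil) .nil)) .nil) (.cons (nat_lit 790) (.cons (nat_lit 787) Uxp11n286 (.cons (nat_lit 796) (.cons (nat_lit 921) (.cons (nat_lit 924) (.cons (nat_lit 1050) (.cons (nat_lit 1043) (.cons (nat_lit 788) (.cons (nat_lit 1169) Uxp11n721 Uxp11n726) .nil) .nil) (.cons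 (nat_lit 1054) (.cons (nat_lit 1052) (.cons (nat_lit 1178) (.cons (nat_lit 1172) (.cons (nat_lit 1302) (.cons (nat_lit 1300) (.cons (nat_lit 1430) (.cons (nat_lit 42387) (.cons (nat_lit 1428) (.cons (nat_lit 1558) (.cons (nat_lit 83475) (.cons (nat_lit 1556) (.cons (nat_lit 1682) (.cons (nat_lit 67211) (.cons (nat_lit 780) (.cons (nat_lit 1802) Uxp11n1582 .nil) .nil) .nil) .nil) .nil) .nil) .nil) .nil) .nil) .nil) .nil) .nil) .nil) .nil) .nil) .nil)) .nil) (.cons (nat_lit 922) (.cons (nat_lit 916) (.cons (nat_lit 1041) (.cons (nat_lit 1043) (.cons (nat_lit 788) Uxp11n726 .nil) .nil) .nil) .nil) .nil)) .nil)) .nil))) .nil) .nil)))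
def Uxp11n2069 : PT := (.cons (nat_lit 899) (.cons (nat_lit 33667) (.cons (nat_lit 5) .nil .nil) .nil) (.cons (nat_lit 33675) (.cons (nat_lit 908) (.cons (nat_lit 1034) (.cons (nat_lit 1028) (.cons (nat_lit 1153) Uxp11n1748 (.cons (nat_lit 1162) Uxp11n678 .nil)) .nil) .nil) .nil) .nil))
def Uxp11n2070 : PT := (.cons (nat_lit 33931) (.cons (nat_lit 1164) (.cons (nat_lit 1290) Uxp11n1518 (.cons (nat_lit 1289) Uxp11n310 .nil)) .nil) .nil)
def Uxp11n2073 : PT := (.cons (nat_lit 1162) (.cons (nat_lit 1156) (.cons (nat_lit 1281) Uxp11n94 .nil) .nil) (.cons (nat_lit 1161) (.cons (nat_lit 1164) (.cons (nat_lit 1290) Uxp11n94 .nil) .nil) .nil))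
def Uxp11n2075 : PT := (.cons (nat_lit 1028) (.cons (nat_lit 1158) (.cons (nat_lit 1155) (.cons (nat_lit 33923) (.cons (nat_lit 5) .nil .nil) .nil) Uxp11n2070) Uxp11n2073) .nil)
def Uxp11n2084 : PT := (.cons (nat_lit 1162) (.cons (nat_lit 1156) (.cons (nat_lit 1281) (.cons (nat_lit 1284) (.cons (nat_lit 1414) (.cons (nat_lit 1411) (.cons (nat_lit 34179) (.cons (nat_lit 5) .nil .nil) .nil) (.cons (nat_lit 34187) (.cons (nat_lit 1420) (.cons (nat_lit 1545) Uxp11n116 (.cons (nat_lit 1546) Uxp11n1534 .nil)) .nil) .nil)) (.cons (nat_lit 1418) (.cons (nat_lit 1412) (.cons (nat_lit 1537) Uxp11n453 .nil) .nil) .nil)) .nil) (.cons (nat_lit 1290) Uxp11n94 .nil)) .nil) .nil)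
def Uxp11n2098 : PT := (.cons (nat_lit 1155) (.cons (nat_lit 33923) (.cons (nat_lit 5) .nil .nil) .nil) (.cons (nat_lit 33931) (.cons (nat_lit 1164) (.cons (nat_lit 1289) Uxp11n310 (.cons (nat_lit 1290) Uxp11n1518 .nil)) .nil) .nil))
def Uxp11n2111 : PT := (.cons (nat_lit 1667) (.cons (nat_lit 5) .nil .nil) (.cons (nat_lit 1676) (.cons (nat_lit 1802) Uxp11n1582 (.cons (nat_lit 1801) Uxp11n351 .nil)) .nil))
def Uxp11n2127 : PT := (.cons (nat_lit 908) (.cons (nat_lit 1038) (.cons (nat_lit 1036) (.cons (nat_lit 1166) (.cons (nat_lit 1164) (.cons (nat_lit 1290) (.cons (nat_lit 50435) (.cons (nat_lit 1156) (.cons (nat_lit 1414) (.cons (nat_lit 66947) (.cons (nat_lit 1412) (.cons (nat_lit 1542) (.cons (nat_lit 34307) (.cons (nat_lit 1540) (.cons (nat_lit 1665) Uxp11n1188 (.cons (nat_lit 1674) Uxp11n2111 .nil)) .nil) .nil) .nil) .nil) .nil) .nil) .nil) .nil) .nil) .nil) .nil) .nil) .nil) .nil)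
def Uxp11n2157 : PT := (.cons (nat_lit 34187) (.cons (nat_lit 1420) (.cons (nat_lit 1546) Uxp11n1534 (.cons (nat_lit 1545) Uxp11n116 .nil)) .nil) .nil)
def Uxp11n2222 : PT := (.cons (nat_lit 513) (.cons (nat_lit 515) (.cons (nat_lit 5) .nil .nil) (.cons (nat_lit 532) (.cons (nat_lit 658) (.cons (nat_lit 652) (.cons (nat_lit 778) (.cons (nat_lit 771) (.cons (nat_lit 5) .nil .nil) (.cons (nat_lit 780) (.cons (nat_lit 906) (.cons (nat_lit 900) (.cons (nat_lit 1025) (.cons (nat_lit 1027) (.cons (nat_lit 5) .nil .nil) .nil) Uxp11n648) .nil) Uxp11n1529) .nil)) (.cons (nat_lit 785) (.cons (nat_lit 788) (.cons (nat_lit 914) (.cons (nat_lit 908) (.cons (nat_lit 1034) Uxp11n1466 (.cons (nat_lit 1041) (.cons (nat_lit 1044) (.cons (nat_lit 1170) Uxp11n770 Uxp11n1544) .nil) (.cons (nat_lit 1038) (.cons (nat_lit 1036) (.cons (nat_lit 1161) Uxp11n1554 (.cons (nat_lit 1162) Uxp11n1558 (.cons (nat_lit 1174) Uxp11n1505 .nil)))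 .nil) .nil))) .nil) (.cons (nat_lit 918) (.cons (nat_lit 916) (.cons (nat_lit 1042) (.cons (nat_lit 1036) (.cons (nat_lit 1162) (.cons (nat_lit 1156) (.cons (nat_lit 1286) (.cons (nat_lit 58627) Uxp11n1568 .nil) Uxp11n1578) .nil) (.cons (nat_lit 1169) (.cons (nat_lit 1172) (.cons (nat_lit 1298) Uxp11n1592 .nil) .nil) Uxp11n1613)) .nil) Uxp11n1658) .nil) .nil)) .nil) (.cons (nat_lit 782) (.cons (nat_lit 780) (.cons (nat_lit 906) (.cons (nat_lit 900) (.cons (nat_lit 1025) (.cons (nat_lit 1028) (.cons (nat_lit 1158) Uxp11n1667 (.cons (nat_lit 1170) Uxp11n346 .nil)) .nil) (.cons (nat_lit 1034) Uxp11n1676 Uxp11n1708)) .nil) (.cons (nat_lit 905) (.cons (nat_lit 908) (.cons (nat_lit 1034) (.cons (nat_lit 1028) (.cons (nat_lit 1158) Uxp11n1667 Uxp11n1718) .nil) (.cons (nat_lit 1046) (.cons (nat_lit 1044) (.cons (nat_lit 1170) Uxp11n1691 .nil) .nil) .nil)) .nil) Uxp11n1740)) .nil) .nil))) .nil) (.cons (nat_lit 662) (.cons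 (nat_lit 660) (.cons (nat_lit 786) (.cons (nat_lit 780) (.cons (nat_lit 906) (.cons (nat_lit 900) (.cons (nat_lit 1030) (.cons (nat_lit 41987) (.cons (nat_lit 1028) (.cons (nat_lit 1153) Uxp11n1748 Uxp11n1752) .nil) .nil) (.cons (nat_lit 1034) (.cons (nat_lit 1028) (.cons (nat_lit 1153) (.cons (nat_lit 1156) (.cons (nat_lit 1286) (.cons (nat_lit 42243) Uxp11n1568 .nil) (.cons (nat_lit 1290) Uxp11n1761 .nil)) .nil) Uxp11n1768) .nil) (.cons (nat_lit 1033) (.cons (nat_lit 1036) (.cons (nat_lit 1162) Uxp11n1776 .nil) .nil) .nil))) .nil) (.cons (nat_lit 913) (.cons (nat_lit 916) (.cons (nat_lit 1042) Uxp11n1800 .nil) .nil) (.cons (nat_lit 910) (.cons (nat_lit 908) (.cons (nat_lit 1033) Uxp11n1822 (.cons (nat_lit 1042) Uxp11n1838 .nil)) .nil) .nil))) .nil) (.cons (nat_lit 785) (.cons (nat_lit 788) (.cons (nat_lit 922) (.cons (nat_lit 916) (.cons (nat_lit 1042) Uxp11n1800 (.cons (nat_lit 1041) (.cons (nat_lit 1044)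 (.cons (nat_lit 1170) (.cons (nat_lit 1164) (.cons (nat_lit 1289) (.cons (nat_lit 1292) (.cons (nat_lit 1418) (.cons (nat_lit 1412) (.cons (nat_lit 1542) (.cons (nat_lit 42499) Uxp11n1784 .nil) Uxp11n1849) .nil) .nil) .nil) Uxp11n1796) .nil) .nil) .nil) .nil)) .nil) (.cons (nat_lit 918) (.cons (nat_lit 916) (.cons (nat_lit 1042) Uxp11n1822 .nil) .nil) .nil)) .nil) (.cons (nat_lit 790) (.cons (nat_lit 787) Uxp11n286 (.cons (nat_lit 796) (.cons (nat_lit 921) (.cons (nat_lit 924) (.cons (nat_lit 1050) (.cons (nat_lit 1043) (.cons (nat_lit 788) (.cons (nat_lit 1169) Uxp11n721 Uxp11n996) .nil) (.cons (nat_lit 1052) (.cons (nat_lit 1177) (.cons (nat_lit 1180) (.cons (nat_lit 1306) Uxp11n1882 .nil) .nil) .nil) .nil)) Uxp11n1903) .nil) Uxp11n1910) .nil)) .nil))) .nil) .nil)) .nil)) (.cons (nat_lit 522) (.cons (nat_lit 515) (.cons (nat_lit 5) .nil .nil) (.cons (nat_lit 524) Uxp11n2061 .nil)) (.cons (nat_lit 526) (.cons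 (nat_lit 524) (.cons (nat_lit 650) (.cons (nat_lit 644) (.cons (nat_lit 769) (.cons (nat_lit 772) (.cons (nat_lit 902) Uxp11n2069 (.cons (nat_lit 914) (.cons (nat_lit 908) (.cons (nat_lit 1034) Uxp11n2075 (.cons (nat_lit 1033) (.cons (nat_lit 1036) Uxp11n2084 .nil) .nil)) .nil) .nil)) .nil) (.cons (nat_lit 778) (.cons (nat_lit 772) (.cons (nat_lit 902) (.cons (nat_lit 899) (.cons (nat_lit 33667) (.cons (nat_lit 5) .nil .nil) .nil) (.cons (nat_lit 33675) (.cons (nat_lit 908) (.cons (nat_lit 1033) (.cons (nat_lit 1036) (.cons (nat_lit 1162) Uxp11n678 .nil) .nil) (.cons (nat_lit 1034) Uxp11n1998 .nil)) .nil) .nil)) (.cons (nat_lit 906) (.cons (nat_lit 900) (.cons (nat_lit 1025) (.cons (nat_lit 1028) (.cons (nat_lit 1158) Uxp11n2098 (.cons (nat_lit 1162) (.cons (nat_lit 1156) (.cons (nat_lit 1281) Uxp11n94 .nil) .nil) .nil)) .nil) (.cons (nat_lit 1034) Uxp11n90 .nil)) .nil) (.cons (nat_lit 905) (.cons (nat_lit 908)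 (.cons (nat_lit 1034) (.cons (nat_lit 1028) (.cons (nat_lit 1158) Uxp11n2098 Uxp11n2073) .nil) .nil) .nil) .nil))) .nil) (.cons (nat_lit 782) (.cons (nat_lit 780) (.cons (nat_lit 905) Uxp11n2127 (.cons (nat_lit 914) (.cons (nat_lit 908) (.cons (nat_lit 1038) (.cons (nat_lit 1036) (.cons (nat_lit 1166) (.cons (nat_lit 1164) (.cons (nat_lit 1290) (.cons (nat_lit 50435) (.cons (nat_lit 1156) (.cons (nat_lit 1414) (.cons (nat_lit 66947) (.cons (nat_lit 1412) (.cons (nat_lit 1542) (.cons (nat_lit 34307) Uxp11n1784 .nil) .nil) .nil) .nil) .nil) .nil) .nil) .nil) .nil) .nil) .nil) .nil) .nil) .nil)) .nil) .nil))) .nil) (.cons (nat_lit 649) (.cons (nat_lit 652) (.cons (nat_lit 778) (.cons (nat_lit 772) (.cons (nat_lit 902) Uxp11n2069 (.cons (nat_lit 906) (.cons (nat_lit 900) (.cons (nat_lit 1025) (.cons (nat_lit 1028) (.cons (nat_lit 1158) (.cons (nat_lit 1155) (.cons (nat_lit 33923) (.cons (nat_lit 5) .nil .nil) .nil)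 (.cons (nat_lit 33931) (.cons (nat_lit 1164) (.cons (nat_lit 1290) Uxp11n1568 .nil) .nil) .nil)) Uxp11n2084) .nil) (.cons (nat_lit 1034) Uxp11n2075 .nil)) .nil) (.cons (nat_lit 913) (.cons (nat_lit 916) (.cons (nat_lit 1042) (.cons (nat_lit 1036) (.cons (nat_lit 1162) (.cons (nat_lit 1156) (.cons (nat_lit 1281) (.cons (nat_lit 1284) (.cons (nat_lit 1414) (.cons (nat_lit 1411) (.cons (nat_lit 34179) (.cons (nat_lit 5) .nil .nil) .nil) Uxp11n2157) (.cons (nat_lit 1418) (.cons (nat_lit 1412) (.cons (nat_lit 1537) Uxp11n453 .nil) .nil) .nil)) .nil) (.cons (nat_lit 1290) Uxp11n94 .nil)) .nil) (.cons (nat_lit 1161) (.cons (nat_lit 1164) (.cons (nat_lit 1290) (.cons (nat_lit 1284) (.cons (nat_lit 1414) (.cons (nat_lit 1411) (.cons (nat_lit 34179) (.cons (nat_lit 5) .nil .nil) .nil) Uxp11n2157) (.cons (nat_lit 1418) (.cons (nat_lit 1412) (.cons (nat_lit 1537) Uxp11n453 .nil) .nil) (.cons (nat_lit 1417) (.cons (nat_lit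 1420) (.cons (nat_lit 1546) Uxp11n453 .nil) .nil) .nil))) .nil) .nil) .nil) .nil)) .nil) .nil) .nil) .nil))) .nil) (.cons (nat_lit 790) (.cons (nat_lit 788) (.cons (nat_lit 914) Uxp11n2127 .nil) .nil) .nil)) .nil) (.cons (nat_lit 662) (.cons (nat_lit 660) (.cons (nat_lit 785) (.cons (nat_lit 787) (.cons (nat_lit 660) (.cons (nat_lit 913) (.cons (nat_lit 916) (.cons (nat_lit 1046) (.cons (nat_lit 1044) (.cons (nat_lit 1170) Uxp11n175 .nil) .nil) .nil) .nil) Uxp11n516) .nil) (.cons (nat_lit 796) (.cons (nat_lit 926) (.cons (nat_lit 924) (.cons (nat_lit 1050) (.cons (nat_lit 1044) (.cons (nat_lit 1174) (.cons (nat_lit 1172) (.cons (nat_lit 1302) (.cons (nat_lit 34067) (.cons (nat_lit 1300) (.cons (nat_lit 1430) (.cons (nat_lit 75155) (.cons (nat_lit 1428) (.cons (nat_lit 1554) (.cons (nat_lit 58891) (.cons (nat_lit 652) (.cons (nat_lit 1674) Uxp11n1070 .nil) .nil) .nil) .nil) .nil) .nil) .nil) .nil) .nil) .nil)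 .nil) .nil) .nil) .nil) .nil) Uxp11n1136) .nil)) (.cons (nat_lit 794) (.cons (nat_lit 787) (.cons (nat_lit 660) Uxp11n516 .nil) (.cons (nat_lit 796) (.cons (nat_lit 921) (.cons (nat_lit 924) (.cons (nat_lit 1050) (.cons (nat_lit 1043) (.cons (nat_lit 660) Uxp11n1130 .nil) .nil) .nil) .nil) .nil) .nil)) .nil)) .nil) .nil))) .nil) .nil)))
def Uxp11n2236 : PT := (.cons (nat_lit 1290) (.cons (nat_lit 1283) (.cons (nat_lit 5) .nil .nil) .nil) (.cons (nat_lit 1294) (.cons (nat_lit 1292) (.cons (nat_lit 1418) (.cons (nat_lit 1412) (.cons (nat_lit 1537) Uxp11n760 .nil) .nil) (.cons (nat_lit 1417) (.cons (nat_lit 1420) (.cons (nat_lit 1546) Uxp11n760 .nil) .nil) .nil)) .nil) .nil))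
def Uxp11n2245 : PT := (.cons (nat_lit 1034) Uxp11n1466 (.cons (nat_lit 1038) (.cons (nat_lit 1036) (.cons (nat_lit 1162) Uxp11n1558 (.cons (nat_lit 1161) Uxp11n1554 (.cons (nat_lit 1174) Uxp11n1505 .nil))) .nil) .nil))
def Uxp11n2250 : PT := (.cons (nat_lit 1284) (.cons (nat_lit 1409) (.cons (nat_lit 1411) (.cons (nat_lit 5) .nil .nil) (.cons (nat_lit 1420) (.cons (nat_lit 1546) Uxp11n1534 .nil) .nil)) (.cons (nat_lit 1418) (.cons (nat_lit 1411) (.cons (nat_lit 5) .nil .nil) .nil) .nil)) .nil)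
def Uxp11n2264 : PT := (.cons (nat_lit 1155) (.cons (nat_lit 50307) (.cons (nat_lit 5) .nil .nil) .nil) (.cons (nat_lit 50315) (.cons (nat_lit 1164) (.cons (nat_lit 1290) Uxp11n2250 .nil) .nil) .nil))
def Uxp11n2270 : PT := (.cons (nat_lit 1796) (.cons (nat_lit 1921) (.cons (nat_lit 1923) (.cons (nat_lit 5) .nil .nil) (.cons (nat_lit 1932) (.cons (nat_lit 2058) Uxp11n1468 .nil) .nil)) (.cons (nat_lit 1930) (.cons (nat_lit 1923) (.cons (nat_lit 5) .nil .nil) .nil) .nil)) .nil)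
def Uxp11n2283 : PT := (.cons (nat_lit 1164) (.cons (nat_lit 1294) (.cons (nat_lit 1292) (.cons (nat_lit 1422) (.cons (nat_lit 1420) (.cons (nat_lit 1546) (.cons (nat_lit 67075) (.cons (nat_lit 1412) (.cons (nat_lit 1670) (.cons (nat_lit 83587) (.cons (nat_lit 1668) (.cons (nat_lit 1798) (.cons (nat_lit 50947) Uxp11n2270 .nil) .nil) .nil) .nil) .nil) .nil) .nil) .nil) .nil) .nil) .nil) .nil) .nil)
def Uxp11n2301 : PT := (.cons (nat_lit 1676) (.cons (nat_lit 1806) (.cons (nat_lit 1804) (.cons (nat_lit 1934) (.cons (nat_lit 51083) Uxp11n794 .nil) .nil) .nil) .nil) .nil)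
def Uxp11n2305 : PT := (.cons (nat_lit 1428) (.cons (nat_lit 1558) (.cons (nat_lit 1556) (.cons (nat_lit 1682) Uxp11n2301 .nil) .nil) .nil) .nil)
def Uxp11n2310 : PT := (.cons (nat_lit 1426) (.cons (nat_lit 1420) (.cons (nat_lit 1550) (.cons (nat_lit 1548) (.cons (nat_lit 1673) Uxp11n2301 .nil) .nil) .nil) .nil) .nil)
def Uxp11n2332 : PT := (.cons (nat_lit 1412) (.cons (nat_lit 1537) (.cons (nat_lit 1539) (.cons (nat_lit 5) .nil .nil) .nil) .nil) .nil)
def Uxp11n2337 : PT := (.cons (nat_lit 1156) (.cons (nat_lit 1281) (.cons (nat_lit 1283) (.cons (nat_lit 5) .nil .nil) (.cons (nat_lit 1292) (.cons (nat_lit 1418) Uxp11n2332 .nil) .nil)) Uxp11n2236) .nil)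
def Uxp11n2351 : PT := (.cons (nat_lit 2308) (.cons (nat_lit 2433) (.cons (nat_lit 2435) (.cons (nat_lit 5) .nil .nil) .nil) .nil) .nil)
def Uxp11n2364 : PT := (.cons (nat_lit 1676) (.cons (nat_lit 1806) (.cons (nat_lit 1804) (.cons (nat_lit 1934) (.cons (nat_lit 1932) (.cons (nat_lit 2058) (.cons (nat_lit 100355) (.cons (nat_lit 1924) (.cons (nat_lit 2182) (.cons (nat_lit 116867) (.cons (nat_lit 2180) (.cons (nat_lit 2310) (.cons (nat_lit 84227) Uxp11n2351 .nil) .nil) .nil) .nil) .nil) .nil) .nil) .nil) .nil) .nil) .nil) .nil) .nil)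
def Uxp11n2375 : PT := (.cons (nat_lit 2188) (.cons (nat_lit 2318) (.cons (nat_lit 133387) (.cons (nat_lit 2316) (.cons (nat_lit 2442) (.cons (nat_lit 117123) (.cons (nat_lit 5) .nil .nil) .nil) .nil) .nil) .nil) .nil) .nil)
def Uxp11n2380 : PT := (.cons (nat_lit 1932) (.cons (nat_lit 2062) (.cons (nat_lit 2060) (.cons (nat_lit 2190) (.cons (nat_lit 84107) Uxp11n2375 .nil) .nil) .nil) .nil) .nil)
def Uxp11n2432 : PT := (.cons (nat_lit 1796) (.cons (nat_lit 1926) (.cons (nat_lit 1923) (.cons (nat_lit 67459) (.cons (nat_lit 5) .nil .nil) .nil) .nil) .nil) .nil)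
def Uxp11n2439 : PT := (.cons (nat_lit 1420) (.cons (nat_lit 1546) Uxp11n825 (.cons (nat_lit 1545) (.cons (nat_lit 1548) (.cons (nat_lit 1674) (.cons (nat_lit 1668) (.cons (nat_lit 1793) Uxp11n2432 .nil) .nil) .nil) .nil) .nil)) .nil)
def Uxp11n2446 : PT := (.cons (nat_lit 2052) (.cons (nat_lit 2177) (.cons (nat_lit 2179) (.cons (nat_lit 5) .nil .nil) (.cons (nat_lit 2188) (.cons (nat_lit 2314) Uxp11n2351 .nil) .nil)) (.cons (nat_lit 2186) (.cons (nat_lit 2179) (.cons (nat_lit 5) .nil .nil) .nil) .nil)) .nil)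
def Uxp11n2459 : PT := (.cons (nat_lit 1420) (.cons (nat_lit 1550) (.cons (nat_lit 1548) (.cons (nat_lit 1678) (.cons (nat_lit 1676) (.cons (nat_lit 1802) (.cons (nat_lit 83715) (.cons (nat_lit 1668) (.cons (nat_lit 1926) (.cons (nat_lit 100227) (.cons (nat_lit 1924) (.cons (nat_lit 2054) (.cons (nat_lit 67587) Uxp11n2446 .nil) .nil) .nil) .nil) .nil) .nil) .nil) .nil) .nil) .nil) .nil) .nil) .nil)
def Uxp11n2505 : PT := (.cons (nat_lit 1932) (.cons (nat_lit 2062) (.cons (nat_lit 2060) (.cons (nat_lit 2190) (.cons (nat_lit 67723) Uxp11n2375 .nil) .nil) .nil) .nil) .nil)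
def Uxp11n2534 : PT := (.cons (nat_lit 1034) (.cons (nat_lit 1027) (.cons (nat_lit 5) .nil .nil) (.cons (nat_lit 1036) (.cons (nat_lit 1162) Uxp11n2337 (.cons (nat_lit 1161) (.cons (nat_lit 1164) (.cons (nat_lit 1290) (.cons (nat_lit 1283) (.cons (nat_lit 5) .nil .nil) (.cons (nat_lit 1292) (.cons (nat_lit 1418) Uxp11n2332 (.cons (nat_lit 1417) (.cons (nat_lit 1420) (.cons (nat_lit 1546) (.cons (nat_lit 1539) (.cons (nat_lit 5) .nil .nil) .nil) .nil) .nil) .nil)) .nil)) (.cons (nat_lit 1302) (.cons (nat_lit 1300) (.cons (nat_lit 1426) (.cons (nat_lit 1420) (.cons (nat_lit 1546) Uxp11n760 (.cons (nat_lit 1550) (.cons (nat_lit 1548) (.cons (nat_lit 1673) Uxp11n2364 .nil) .nil) .nil)) .nil) (.cons (nat_lit 1430) (.cons (nat_lit 1428) (.cons (nat_lit 1553) (.cons (nat_lit 1555) (.cons (nat_lit 1428) (.cons (nat_lit 1681) (.cons (nat_lit 1684) (.cons (nat_lit 1814) (.cons (nat_lit 1812) (.cons (nat_lit 1938) Uxp11n2380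 .nil) .nil) .nil) .nil) (.cons (nat_lit 1682) (.cons (nat_lit 1676) (.cons (nat_lit 1806) (.cons (nat_lit 1804) (.cons (nat_lit 1929) Uxp11n2380 .nil) .nil) .nil) .nil) .nil)) .nil) .nil) .nil) .nil) (.cons (nat_lit 1425) (.cons (nat_lit 1428) (.cons (nat_lit 1558) (.cons (nat_lit 1556) (.cons (nat_lit 1682) Uxp11n2364 .nil) .nil) .nil) .nil) .nil))) .nil) .nil)) .nil) (.cons (nat_lit 1174) (.cons (nat_lit 1172) (.cons (nat_lit 1297) (.cons (nat_lit 1300) (.cons (nat_lit 1426) (.cons (nat_lit 1420) (.cons (nat_lit 1550) (.cons (nat_lit 75275) Uxp11n116 .nil) .nil) .nil) (.cons (nat_lit 1430) (.cons (nat_lit 1428) (.cons (nat_lit 1554) Uxp11n784 .nil) .nil) .nil)) .nil) (.cons (nat_lit 1298) (.cons (nat_lit 1292) (.cons (nat_lit 1417) (.cons (nat_lit 1420) (.cons (nat_lit 1550) (.cons (nat_lit 75275) Uxp11n116 .nil) .nil) .nil) Uxp11n1538) .nil) (.cons (nat_lit 1302) Uxp11n811 .nil))) .nil) .nil))) .nil)) (.cons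 (nat_lit 1046) (.cons (nat_lit 1044) (.cons (nat_lit 1170) (.cons (nat_lit 1164) (.cons (nat_lit 1290) (.cons (nat_lit 1284) (.cons (nat_lit 1414) (.cons (nat_lit 1411) (.cons (nat_lit 66947) (.cons (nat_lit 5) .nil .nil) .nil) (.cons (nat_lit 66955) (.cons (nat_lit 1420) (.cons (nat_lit 1546) Uxp11n1534 (.cons (nat_lit 1545) Uxp11n116 .nil)) .nil) .nil)) (.cons (nat_lit 1418) (.cons (nat_lit 1412) (.cons (nat_lit 1537) Uxp11n825 .nil) .nil) (.cons (nat_lit 1417) (.cons (nat_lit 1420) (.cons (nat_lit 1546) Uxp11n825 .nil) .nil) .nil))) .nil) (.cons (nat_lit 1297) (.cons (nat_lit 1300) (.cons (nat_lit 1426) Uxp11n2439 .nil) .nil) (.cons (nat_lit 1294) (.cons (nat_lit 1292) (.cons (nat_lit 1417) Uxp11n2459 (.cons (nat_lit 1426) Uxp11n1481 .nil)) .nil) .nil))) .nil) (.cons (nat_lit 1169) (.cons (nat_lit 1172) (.cons (nat_lit 1306) (.cons (nat_lit 1300) (.cons (nat_lit 1426) Uxp11n2439 (.cons (nat_lit 1425) (.cons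 (nat_lit 1428) (.cons (nat_lit 1554) (.cons (nat_lit 1548) (.cons (nat_lit 1673) (.cons (nat_lit 1676) (.cons (nat_lit 1802) Uxp11n2432 .nil) .nil) (.cons (nat_lit 1674) (.cons (nat_lit 1668) (.cons (nat_lit 1793) Uxp11n2432 .nil) .nil) .nil)) .nil) .nil) .nil) .nil)) .nil) (.cons (nat_lit 1302) (.cons (nat_lit 1300) (.cons (nat_lit 1426) Uxp11n2459 .nil) .nil) .nil)) .nil) (.cons (nat_lit 1174) (.cons (nat_lit 1172) (.cons (nat_lit 1297) (.cons (nat_lit 1299) (.cons (nat_lit 1172) (.cons (nat_lit 1425) Uxp11n1495 (.cons (nat_lit 1426) (.cons (nat_lit 1420) (.cons (nat_lit 1550) (.cons (nat_lit 1548) (.cons (nat_lit 1673) Uxp11n1491 (.cons (nat_lit 1682) Uxp11n1491 .nil)) .nil) .nil) .nil) .nil)) .nil) (.cons (nat_lit 1308) (.cons (nat_lit 1438) (.cons (nat_lit 1436) (.cons (nat_lit 1562) (.cons (nat_lit 1556) (.cons (nat_lit 1686) (.cons (nat_lit 1684) (.cons (nat_lit 1814) (.cons (nat_lit 67347) (.cons (nat_lit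 1812) (.cons (nat_lit 1942) (.cons (nat_lit 108435) (.cons (nat_lit 1940) (.cons (nat_lit 2066) (.cons (nat_lit 92171) (.cons (nat_lit 1164) (.cons (nat_lit 2186) (.cons (nat_lit 2179) (.cons (nat_lit 5) .nil .nil) .nil) .nil) .nil) .nil) .nil) .nil) .nil) .nil) .nil) .nil) .nil) .nil) .nil) .nil) .nil) .nil) (.cons (nat_lit 1434) (.cons (nat_lit 1428) (.cons (nat_lit 1553) (.cons (nat_lit 1555) (.cons (nat_lit 1172) (.cons (nat_lit 1681) (.cons (nat_lit 1684) (.cons (nat_lit 1814) (.cons (nat_lit 1812) (.cons (nat_lit 1938) Uxp11n2505 .nil) .nil) .nil) .nil) (.cons (nat_lit 1682) (.cons (nat_lit 1676) (.cons (nat_lit 1806) (.cons (nat_lit 1804) (.cons (nat_lit 1929) Uxp11n2505 .nil) .nil) .nil) .nil) .nil)) .nil) .nil) .nil) .nil) .nil)) .nil)) (.cons (nat_lit 1306) (.cons (nat_lit 1299) (.cons (nat_lit 1172) Uxp11n1500 .nil) .nil) .nil)) .nil) .nil))) .nil) .nil))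
def Uxp11n2538 : PT := (.cons (nat_lit 1292) (.cons (nat_lit 1418) (.cons (nat_lit 1411) (.cons (nat_lit 5) .nil .nil) (.cons (nat_lit 1420) (.cons (nat_lit 1546) Uxp11n1534 (.cons (nat_lit 1545) Uxp11n116 .nil)) .nil)) .nil) .nil)
def Uxp11n2552 : PT := (.cons (nat_lit 1292) (.cons (nat_lit 1418) (.cons (nat_lit 1411) (.cons (nat_lit 5) .nil .nil) (.cons (nat_lit 1420) (.cons (nat_lit 1545) Uxp11n116 (.cons (nat_lit 1546) Uxp11n1534 .nil)) .nil)) .nil) .nil)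
def Uxp11n2572 : PT := (.cons (nat_lit 1411) (.cons (nat_lit 50563) (.cons (nat_lit 5) .nil .nil) .nil) (.cons (nat_lit 50571) (.cons (nat_lit 1420) (.cons (nat_lit 1545) Uxp11n116 (.cons (nat_lit 1546) Uxp11n1534 .nil)) .nil) .nil))
def Uxp11n2596 : PT := (.cons (nat_lit 1796) (.cons (nat_lit 1926) (.cons (nat_lit 1923) (.cons (nat_lit 51075) (.cons (nat_lit 5) .nil .nil) .nil) .nil) .nil) .nil)
def Uxp11n2608 : PT := (.cons (nat_lit 1164) (.cons (nat_lit 1290) (.cons (nat_lit 1284) (.cons (nat_lit 1414) (.cons (nat_lit 1411) (.cons (nat_lit 50563) (.cons (nat_lit 5) .nil .nil) .nil) (.cons (nat_lit 50571) (.cons (nat_lit 1420) (.cons (nat_lit 1546) Uxp11n1534 (.cons (nat_lit 1545) Uxp11n116 .nil)) .nil) .nil)) Uxp11n373) .nil) (.cons (nat_lit 1289) (.cons (nat_lit 1292) (.cons (nat_lit 1418) (.cons (nat_lit 1412) (.cons (nat_lit 1537) (.cons (nat_lit 1540) (.cons (nat_lit 1670) (.cons (nat_lit 1667) (.cons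 (nat_lit 50819) (.cons (nat_lit 5) .nil .nil) .nil) (.cons (nat_lit 50827) (.cons (nat_lit 1676) (.cons (nat_lit 1801) Uxp11n351 (.cons (nat_lit 1802) Uxp11n1582 .nil)) .nil) .nil)) (.cons (nat_lit 1674) (.cons (nat_lit 1668) (.cons (nat_lit 1793) Uxp11n2596 .nil) .nil) .nil)) .nil) (.cons (nat_lit 1546) Uxp11n339 .nil)) .nil) .nil) .nil) .nil)) .nil)
def Uxp11n2628 : PT := (.cons (nat_lit 1164) (.cons (nat_lit 1294) (.cons (nat_lit 1292) (.cons (nat_lit 1422) (.cons (nat_lit 1420) (.cons (nat_lit 1546) (.cons (nat_lit 67075) (.cons (nat_lit 1412) (.cons (nat_lit 1670) (.cons (nat_lit 83587) (.cons (nat_lit 1668) (.cons (nat_lit 1798) (.cons (nat_lit 50947) (.cons (nat_lit 1796) (.cons (nat_lit 1921) (.cons (nat_lit 1923) (.cons (nat_lit 5) .nil .nil) (.cons (nat_lit 1932) (.cons (nat_lit 2058) Uxp11n2446 .nil) .nil)) Uxp11n1804) .nil) .nil) .nil) .nil) .nil) .nil) .nil) .nil) .nil) .nil) .nil) .nil) .nil) .nil)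
def Uxp11n2636 : PT := (.cons (nat_lit 1667) (.cons (nat_lit 50819) (.cons (nat_lit 5) .nil .nil) .nil) (.cons (nat_lit 50827) (.cons (nat_lit 1676) (.cons (nat_lit 1802) Uxp11n1582 (.cons (nat_lit 1801) Uxp11n351 .nil)) .nil) .nil))
def Uxp11n2664 : PT := (.cons (nat_lit 1930) (.cons (nat_lit 1923) (.cons (nat_lit 5) .nil .nil) (.cons (nat_lit 1932) (.cons (nat_lit 2057) Uxp11n844 (.cons (nat_lit 2058) Uxp11n1468 .nil)) .nil)) .nil)
def Uxp11n2713 : PT := (.cons (nat_lit 786) (.cons (nat_lit 780) (.cons (nat_lit 906) (.cons (nat_lit 900) (.cons (nat_lit 1025) (.cons (nat_lit 1027) (.cons (nat_lit 5) .nil .nil) (.cons (nat_lit 1036) (.cons (nat_lit 1162) Uxp11n2337 Uxp11n1544) .nil)) Uxp11n2245) .nil) (.cons (nat_lit 905) (.cons (nat_lit 908) Uxp11n2534 .nil) (.cons (nat_lit 918) (.cons (nat_lit 916) (.cons (nat_lit 1041) (.cons (nat_lit 1044) (.cons (nat_lit 1170) (.cons (nat_lit 1164) (.cons (nat_lit 1294)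 (.cons (nat_lit 58635) Uxp11n2538 .nil) (.cons (nat_lit 1298) (.cons (nat_lit 1292) (.cons (nat_lit 1417) (.cons (nat_lit 1420) (.cons (nat_lit 1550) (.cons (nat_lit 58891) Uxp11n116 .nil) Uxp11n1588) .nil) Uxp11n1575) .nil) Uxp11n1623)) .nil) (.cons (nat_lit 1174) (.cons (nat_lit 1172) (.cons (nat_lit 1298) Uxp11n1610 .nil) .nil) .nil)) .nil) (.cons (nat_lit 1042) (.cons (nat_lit 1036) (.cons (nat_lit 1161) (.cons (nat_lit 1164) (.cons (nat_lit 1294) (.cons (nat_lit 58635) Uxp11n2552 .nil) (.cons (nat_lit 1298) Uxp11n1592 .nil)) .nil) (.cons (nat_lit 1162) (.cons (nat_lit 1156) (.cons (nat_lit 1286) (.cons (nat_lit 58627) Uxp11n2250 .nil) Uxp11n1578) .nil) Uxp11n1613)) .nil) Uxp11n1657)) .nil) .nil))) .nil) (.cons (nat_lit 790) (.cons (nat_lit 788) (.cons (nat_lit 914) (.cons (nat_lit 908) (.cons (nat_lit 1034) (.cons (nat_lit 1028) (.cons (nat_lit 1158) (.cons (nat_lit 1155) (.cons (nat_lit 50307) (.cons (nat_lit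 5) .nil .nil) .nil) (.cons (nat_lit 50315) (.cons (nat_lit 1164) (.cons (nat_lit 1290) Uxp11n2250 (.cons (nat_lit 1289) Uxp11n2538 .nil)) .nil) .nil)) (.cons (nat_lit 1162) (.cons (nat_lit 1156) (.cons (nat_lit 1281) (.cons (nat_lit 1284) (.cons (nat_lit 1414) Uxp11n2572 (.cons (nat_lit 1418) (.cons (nat_lit 1412) (.cons (nat_lit 1537) Uxp11n339 .nil) .nil) .nil)) .nil) (.cons (nat_lit 1290) Uxp11n193 .nil)) .nil) (.cons (nat_lit 1161) (.cons (nat_lit 1164) (.cons (nat_lit 1290) (.cons (nat_lit 1284) (.cons (nat_lit 1414) Uxp11n2572 Uxp11n373) .nil) .nil) .nil) .nil))) .nil) (.cons (nat_lit 1041) (.cons (nat_lit 1044) (.cons (nat_lit 1170) Uxp11n2608 .nil) .nil) (.cons (nat_lit 1038) (.cons (nat_lit 1036) (.cons (nat_lit 1161) Uxp11n2628 (.cons (nat_lit 1170) Uxp11n2283 .nil)) .nil) .nil))) .nil) (.cons (nat_lit 913) (.cons (nat_lit 916) (.cons (nat_lit 1050) (.cons (nat_lit 1044) (.cons (nat_lit 1170) Uxp11n2608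 (.cons (nat_lit 1169) (.cons (nat_lit 1172) (.cons (nat_lit 1298) (.cons (nat_lit 1292) (.cons (nat_lit 1417) (.cons (nat_lit 1420) (.cons (nat_lit 1546) (.cons (nat_lit 1540) (.cons (nat_lit 1670) Uxp11n2636 (.cons (nat_lit 1673) (.cons (nat_lit 1676) (.cons (nat_lit 1802) Uxp11n2596 .nil) .nil) (.cons (nat_lit 1674) (.cons (nat_lit 1668) (.cons (nat_lit 1793) Uxp11n2596 .nil) .nil) .nil))) .nil) .nil) .nil) (.cons (nat_lit 1418) (.cons (nat_lit 1412) (.cons (nat_lit 1537) (.cons (nat_lit 1540) (.cons (nat_lit 1670) Uxp11n2636 (.cons (nat_lit 1674) (.cons (nat_lit 1668) (.cons (nat_lit 1793) Uxp11n2596 .nil) .nil) .nil)) .nil) (.cons (nat_lit 1546) Uxp11n339 .nil)) .nil) .nil)) .nil) .nil) .nil) .nil)) .nil) (.cons (nat_lit 1046) (.cons (nat_lit 1044) (.cons (nat_lit 1170) Uxp11n2628 .nil) .nil) .nil)) .nil) (.cons (nat_lit 918) (.cons (nat_lit 916) (.cons (nat_lit 1041) (.cons (nat_lit 1043) (.cons (nat_lit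 916) (.cons (nat_lit 1169) Uxp11n1729 Uxp11n1734) .nil) (.cons (nat_lit 1052) (.cons (nat_lit 1182) (.cons (nat_lit 1180) (.cons (nat_lit 1306) (.cons (nat_lit 1300) (.cons (nat_lit 1430) (.cons (nat_lit 1428) (.cons (nat_lit 1558) (.cons (nat_lit 50707) (.cons (nat_lit 1556) (.cons (nat_lit 1686) (.cons (nat_lit 91795) (.cons (nat_lit 1684) (.cons (nat_lit 1810) (.cons (nat_lit 75531) (.cons (nat_lit 908) Uxp11n2664 .nil) .nil) .nil) .nil) .nil) .nil) .nil) .nil) .nil) .nil) .nil) .nil) .nil) .nil) (.cons (nat_lit 1178) (.cons (nat_lit 1172) (.cons (nat_lit 1297) (.cons (nat_lit 1299) (.cons (nat_lit 916) (.cons (nat_lit 1425) Uxp11n2305 (.cons (nat_lit 1426) (.cons (nat_lit 1420) (.cons (nat_lit 1550) (.cons (nat_lit 1548) (.cons (nat_lit 1673) Uxp11n2301 (.cons (nat_lit 1682) Uxp11n2301 .nil)) .nil) .nil) .nil) .nil)) .nil) .nil) (.cons (nat_lit 1306) (.cons (nat_lit 1299) (.cons (nat_lit 916) (.cons (nat_lit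 1425) Uxp11n2305 Uxp11n2310) .nil) .nil) .nil)) .nil) .nil)) .nil)) (.cons (nat_lit 1050) (.cons (nat_lit 1043) (.cons (nat_lit 916) Uxp11n1734 .nil) (.cons (nat_lit 1052) (.cons (nat_lit 1177) (.cons (nat_lit 1180) (.cons (nat_lit 1306) (.cons (nat_lit 1299) (.cons (nat_lit 916) Uxp11n2310 .nil) .nil) .nil) .nil) (.cons (nat_lit 1178) (.cons (nat_lit 1172) (.cons (nat_lit 1297) (.cons (nat_lit 1299) (.cons (nat_lit 916) Uxp11n2310 .nil) .nil) .nil) .nil) .nil)) .nil)) .nil)) .nil) .nil))) .nil) .nil))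
def Uxp11n2719 : PT := (.cons (nat_lit 1036) (.cons (nat_lit 1162) (.cons (nat_lit 1155) (.cons (nat_lit 5) .nil .nil) (.cons (nat_lit 1164) (.cons (nat_lit 1290) Uxp11n1568 (.cons (nat_lit 1289) Uxp11n2538 .nil)) .nil)) .nil) .nil)
def Uxp11n2726 : PT := (.cons (nat_lit 42499) (.cons (nat_lit 1540) (.cons (nat_lit 1665) (.cons (nat_lit 1667) (.cons (nat_lit 5) .nil .nil) (.cons (nat_lit 1676) (.cons (nat_lit 1802) Uxp11n1582 .nil) .nil)) (.cons (nat_lit 1674) (.cons (nat_lit 1667) (.cons (nat_lit 5) .nil .nil) .nil) .nil)) .nil) .nil)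
def Uxp11n2730 : PT := (.cons (nat_lit 1284) (.cons (nat_lit 1409) (.cons (nat_lit 1412) (.cons (nat_lit 1542) Uxp11n2726 (.cons (nat_lit 1546) Uxp11n1790 .nil)) .nil) Uxp11n1771) .nil)
def Uxp11n2736 : PT := (.cons (nat_lit 1156) (.cons (nat_lit 1286) (.cons (nat_lit 42243) Uxp11n2250 .nil) (.cons (nat_lit 1290) Uxp11n1761 (.cons (nat_lit 1289) (.cons (nat_lit 1292) Uxp11n1771 .nil) .nil))) .nil)
def Uxp11n2768 : PT := (.cons (nat_lit 1036) (.cons (nat_lit 1166) (.cons (nat_lit 1164) (.cons (nat_lit 1294) (.cons (nat_lit 1292) (.cons (nat_lit 1418) (.cons (nat_lit 58755) (.cons (nat_lit 1284) (.cons (nat_lit 1542) (.cons (nat_lit 75267) (.cons (nat_lit 1540) (.cons (nat_lit 1670) (.cons (nat_lit 1667) (.cons (nat_lit 42627) (.cons (nat_lit 5) .nil .nil) .nil) (.cons (nat_lit 42635) (.cons (nat_lit 1676) (.cons (nat_lit 1802) Uxp11n2270 (.cons (nat_lit 1801) (.cons (nat_lit 1804) Uxp11n1804 .nil) .nil)) .nil)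 .nil)) .nil) .nil) .nil) .nil) .nil) .nil) .nil) .nil) .nil) .nil) .nil) .nil)
def Uxp11n2823 : PT := (.cons (nat_lit 658) (.cons (nat_lit 652) (.cons (nat_lit 778) (.cons (nat_lit 771) (.cons (nat_lit 5) .nil .nil) (.cons (nat_lit 780) (.cons (nat_lit 906) (.cons (nat_lit 900) (.cons (nat_lit 1025) (.cons (nat_lit 1027) (.cons (nat_lit 5) .nil .nil) (.cons (nat_lit 1036) (.cons (nat_lit 1162) Uxp11n1463 .nil) .nil)) Uxp11n648) .nil) Uxp11n1529) .nil)) (.cons (nat_lit 777) (.cons (nat_lit 780) (.cons (nat_lit 906) (.cons (nat_lit 900) (.cons (nat_lit 1025) (.cons (nat_lit 1027) (.cons (nat_lit 5) .nil .nil) (.cons (nat_lit 1044) (.cons (nat_lit 1170) (.cons (nat_lit 1164) Uxp11n2236 .nil) Uxp11n1544) .nil)) Uxp11n2245) .nil) (.cons (nat_lit 918) (.cons (nat_lit 916) (.cons (nat_lit 1042) (.cons (nat_lit 1036) (.cons (nat_lit 1162) (.cons (nat_lit 1156) (.cons (nat_lit 1286) (.cons (nat_lit 58627) Uxp11n2250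 .nil) Uxp11n1578) .nil) (.cons (nat_lit 1169) (.cons (nat_lit 1172) (.cons (nat_lit 1298) Uxp11n1592 .nil) .nil) Uxp11n1613)) .nil) Uxp11n1658) .nil) .nil)) .nil) (.cons (nat_lit 782) (.cons (nat_lit 780) (.cons (nat_lit 906) (.cons (nat_lit 900) (.cons (nat_lit 1025) (.cons (nat_lit 1028) (.cons (nat_lit 1158) Uxp11n2264 (.cons (nat_lit 1170) Uxp11n346 .nil)) .nil) (.cons (nat_lit 1034) Uxp11n1676 (.cons (nat_lit 1038) (.cons (nat_lit 1036) (.cons (nat_lit 1161) Uxp11n2283 (.cons (nat_lit 1170) Uxp11n1704 .nil)) .nil) .nil))) .nil) (.cons (nat_lit 905) (.cons (nat_lit 908) (.cons (nat_lit 1034) (.cons (nat_lit 1028) (.cons (nat_lit 1158) Uxp11n2264 Uxp11n1718) .nil) (.cons (nat_lit 1046) (.cons (nat_lit 1044) (.cons (nat_lit 1170) Uxp11n2283 .nil) .nil) .nil)) .nil) (.cons (nat_lit 918) (.cons (nat_lit 916) (.cons (nat_lit 1041) (.cons (nat_lit 1043) (.cons (nat_lit 916) (.cons (nat_lit 1169) Uxp11n1729 Uxp11n1734)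 .nil) (.cons (nat_lit 1052) (.cons (nat_lit 1182) Uxp11n398 (.cons (nat_lit 1178) (.cons (nat_lit 1172) (.cons (nat_lit 1297) (.cons (nat_lit 1299) (.cons (nat_lit 916) (.cons (nat_lit 1425) Uxp11n2305 Uxp11n2310) .nil) .nil) .nil) .nil) .nil)) .nil)) (.cons (nat_lit 1050) (.cons (nat_lit 1043) (.cons (nat_lit 916) Uxp11n410 .nil) .nil) .nil)) .nil) .nil))) .nil) .nil))) .nil) (.cons (nat_lit 657) (.cons (nat_lit 660) Uxp11n2713 .nil) (.cons (nat_lit 662) (.cons (nat_lit 660) (.cons (nat_lit 785) (.cons (nat_lit 788) (.cons (nat_lit 914) (.cons (nat_lit 908) (.cons (nat_lit 1038) (.cons (nat_lit 41995) Uxp11n2719 .nil) (.cons (nat_lit 1042) (.cons (nat_lit 1036) (.cons (nat_lit 1161) (.cons (nat_lit 1164) (.cons (nat_lit 1294) (.cons (nat_lit 42251) Uxp11n2538 .nil) (.cons (nat_lit 1290) Uxp11n2730 .nil)) .nil) (.cons (nat_lit 1162) Uxp11n2736 .nil)) .nil) (.cons (nat_lit 1041) (.cons (nat_lit 1044) (.cons (nat_lit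 1170) (.cons (nat_lit 1164) (.cons (nat_lit 1290) Uxp11n2730 (.cons (nat_lit 1289) (.cons (nat_lit 1292) (.cons (nat_lit 1418) (.cons (nat_lit 1412) (.cons (nat_lit 1542) Uxp11n2726 Uxp11n1849) .nil) .nil) .nil) .nil)) .nil) .nil) .nil) .nil))) .nil) (.cons (nat_lit 918) (.cons (nat_lit 916) (.cons (nat_lit 1042) Uxp11n2768 .nil) .nil) .nil)) .nil) (.cons (nat_lit 786) (.cons (nat_lit 780) (.cons (nat_lit 905) (.cons (nat_lit 908) (.cons (nat_lit 1038) (.cons (nat_lit 41995) (.cons (nat_lit 1036) (.cons (nat_lit 1162) (.cons (nat_lit 1155) (.cons (nat_lit 5) .nil .nil) (.cons (nat_lit 1164) (.cons (nat_lit 1289) Uxp11n2552 (.cons (nat_lit 1290) Uxp11n1568 .nil)) .nil)) .nil) .nil) .nil) (.cons (nat_lit 1042) (.cons (nat_lit 1036) (.cons (nat_lit 1162) Uxp11n2736 (.cons (nat_lit 1161) (.cons (nat_lit 1164) (.cons (nat_lit 1290) Uxp11n2730 .nil) .nil) .nil)) .nil) .nil)) .nil) (.cons (nat_lit 906) (.cons (nat_lit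 900) (.cons (nat_lit 1030) (.cons (nat_lit 41987) (.cons (nat_lit 1028) (.cons (nat_lit 1153) (.cons (nat_lit 1155) (.cons (nat_lit 5) .nil .nil) (.cons (nat_lit 1164) (.cons (nat_lit 1290) Uxp11n1568 .nil) .nil)) Uxp11n1752) .nil) .nil) (.cons (nat_lit 1034) (.cons (nat_lit 1028) (.cons (nat_lit 1153) (.cons (nat_lit 1156) (.cons (nat_lit 1286) (.cons (nat_lit 42243) Uxp11n2250 .nil) (.cons (nat_lit 1290) Uxp11n1761 .nil)) .nil) Uxp11n1768) .nil) (.cons (nat_lit 1033) (.cons (nat_lit 1036) (.cons (nat_lit 1162) Uxp11n2736 .nil) .nil) .nil))) .nil) (.cons (nat_lit 910) (.cons (nat_lit 908) (.cons (nat_lit 1033) Uxp11n2768 (.cons (nat_lit 1042) Uxp11n1838 .nil)) .nil) .nil))) .nil) (.cons (nat_lit 790) (.cons (nat_lit 787) Uxp11n286 (.cons (nat_lit 796) (.cons (nat_lit 921) (.cons (nat_lit 924) (.cons (nat_lit 1050) (.cons (nat_lit 1043) (.cons (nat_lit 788) (.cons (nat_lit 1169) Uxp11n721 Uxp11n996) .nil) (.cons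 (nat_lit 1052) (.cons (nat_lit 1177) (.cons (nat_lit 1180) (.cons (nat_lit 1306) Uxp11n1882 .nil) .nil) (.cons (nat_lit 1178) (.cons (nat_lit 1172) (.cons (nat_lit 1297) Uxp11n1882 .nil) .nil) .nil)) .nil)) Uxp11n1903) .nil) Uxp11n1910) .nil)) .nil))) .nil) .nil)))
def Uxp11n2830 : PT := (.cons (nat_lit 33931) (.cons (nat_lit 1164) (.cons (nat_lit 1289) Uxp11n2552 (.cons (nat_lit 1290) Uxp11n1568 .nil)) .nil) .nil)
def Uxp11n2835 : PT := (.cons (nat_lit 1170) (.cons (nat_lit 1164) (.cons (nat_lit 1289) (.cons (nat_lit 1292) (.cons (nat_lit 1422) Uxp11n2157 .nil) .nil) .nil) .nil) .nil)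
def Uxp11n2845 : PT := (.cons (nat_lit 1169) (.cons (nat_lit 1172) (.cons (nat_lit 1298) (.cons (nat_lit 1292) (.cons (nat_lit 1422) Uxp11n2157 .nil) .nil) .nil) .nil) Uxp11n2835)
def Uxp11n2856 : PT := (.cons (nat_lit 1036) (.cons (nat_lit 1166) (.cons (nat_lit 33931) (.cons (nat_lit 1164) (.cons (nat_lit 1290) Uxp11n1568 (.cons (nat_lit 1289) Uxp11n2538 .nil)) .nil) .nil) Uxp11n2845) .nil)
def Uxp11n2859 : PT := (.cons (nat_lit 1548) (.cons (nat_lit 1674) (.cons (nat_lit 1667) (.cons (nat_lit 5) .nil .nil) (.cons (nat_lit 1676) (.cons (nat_lit 1801) Uxp11n351 (.cons (nat_lit 1802) Uxp11n1582 .nil)) .nil)) .nil) .nil)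
def Uxp11n2866 : PT := (.cons (nat_lit 1548) (.cons (nat_lit 1678) (.cons (nat_lit 34443) (.cons (nat_lit 1676) (.cons (nat_lit 1802) Uxp11n1582 (.cons (nat_lit 1801) Uxp11n351 .nil)) .nil) .nil) .nil) .nil)
def Uxp11n2904 : PT := (.cons (nat_lit 916) (.cons (nat_lit 1046) (.cons (nat_lit 1044) (.cons (nat_lit 1174) (.cons (nat_lit 1172) (.cons (nat_lit 1298) (.cons (nat_lit 50443) (.cons (nat_lit 1164) (.cons (nat_lit 1422) (.cons (nat_lit 66955) (.cons (nat_lit 1420) (.cons (nat_lit 1550) (.cons (nat_lit 34315) (.cons (nat_lit 1548) (.cons (nat_lit 1674) (.cons (nat_lit 1667) (.cons (nat_lit 5) .nil .nil) Uxp11n1808) (.cons (nat_lit 1673) (.cons (nat_lit 1676) (.cons (nat_lit 1802) (.cons (nat_lit 1796) (.cons (nat_lit 1921) (.cons (nat_lit 1923) (.cons (nat_lit 5) .nil .nil) (.cons (nat_lit 1940) (.cons (nat_lit 2066) Uxp11n844 .nil) .nil)) Uxp11n1804) .nil) .nil) .nil) .nil)) .nil) .nil) .nil) .nil) .nil)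 .nil) .nil) .nil) .nil) .nil) .nil) .nil) .nil) .nil)
def Uxp11n2946 : PT := (.cons (nat_lit 34187) (.cons (nat_lit 1420) (.cons (nat_lit 1546) Uxp11n1784 (.cons (nat_lit 1545) (.cons (nat_lit 1548) (.cons (nat_lit 1674) Uxp11n2111 .nil) .nil) .nil)) .nil) .nil)
def Uxp11n2994 : PT := (.cons (nat_lit 1170) (.cons (nat_lit 1164) (.cons (nat_lit 1294) (.cons (nat_lit 1292) (.cons (nat_lit 1417) Uxp11n1121 (.cons (nat_lit 1426) Uxp11n1121 .nil)) .nil) .nil) .nil) .nil)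
def Uxp11n3001 : PT := (.cons (nat_lit 1676) (.cons (nat_lit 1806) (.cons (nat_lit 1804) (.cons (nat_lit 1934) (.cons (nat_lit 34699) Uxp11n794 .nil) .nil) .nil) .nil) .nil)
def Uxp11n3010 : PT := (.cons (nat_lit 1426) (.cons (nat_lit 1420) (.cons (nat_lit 1550) (.cons (nat_lit 1548) (.cons (nat_lit 1673) Uxp11n3001 .nil) .nil) .nil) .nil) .nil)
def Uxp11n3013 : PT := (.cons (nat_lit 1299) (.cons (nat_lit 660) (.cons (nat_lit 1425) (.cons (nat_lit 1428) (.cons (nat_lit 1558) (.cons (nat_lit 1556) (.cons (nat_lit 1682) Uxp11n3001 .nil) .nil) .nil) .nil) Uxp11n3010) .nil) .nil)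
def Uxp11n3055 : PT := (.cons (nat_lit 666) (.cons (nat_lit 660) (.cons (nat_lit 786) (.cons (nat_lit 780) (.cons (nat_lit 910) (.cons (nat_lit 33675) (.cons (nat_lit 908) (.cons (nat_lit 1034) (.cons (nat_lit 1028) (.cons (nat_lit 1153) Uxp11n1748 Uxp11n1752) .nil) (.cons (nat_lit 1033) Uxp11n2719 .nil)) .nil) .nil) (.cons (nat_lit 914) (.cons (nat_lit 908) (.cons (nat_lit 1033) (.cons (nat_lit 1036) (.cons (nat_lit 1166) Uxp11n2830 Uxp11n2835) .nil) (.cons (nat_lit 1042) (.cons (nat_lit 1036) (.cons (nat_lit 1166) Uxp11n2070 .nil) .nil) .nil)) .nil) (.cons (nat_lit 913) (.cons (nat_lit 916) (.cons (nat_lit 1042) (.cons (nat_lit 1036) (.cons (nat_lit 1166) Uxp11n2830 Uxp11n2845) .nil) .nil) .nil) .nil))) .nil) (.cons (nat_lit 793) (.cons (nat_lit 796) (.cons (nat_lit 922) (.cons (nat_lit 916) (.cons (nat_lit 1042) Uxp11n2856 (.cons (nat_lit 1041) (.cons (nat_lit 1044) (.cons (nat_lit 1170) (.cons (nat_lit 1164)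 (.cons (nat_lit 1289) (.cons (nat_lit 1292) (.cons (nat_lit 1422) (.cons (nat_lit 34187) (.cons (nat_lit 1420) (.cons (nat_lit 1545) Uxp11n2859 (.cons (nat_lit 1546) Uxp11n1784 .nil)) .nil) .nil) (.cons (nat_lit 1426) (.cons (nat_lit 1420) (.cons (nat_lit 1545) Uxp11n2866 .nil) .nil) .nil)) .nil) (.cons (nat_lit 1298) (.cons (nat_lit 1292) (.cons (nat_lit 1422) Uxp11n2157 .nil) .nil) .nil)) .nil) .nil) .nil) .nil)) .nil) .nil) .nil) (.cons (nat_lit 790) (.cons (nat_lit 788) (.cons (nat_lit 913) Uxp11n2904 (.cons (nat_lit 922) (.cons (nat_lit 916) (.cons (nat_lit 1046) (.cons (nat_lit 1044) (.cons (nat_lit 1174) (.cons (nat_lit 1172) (.cons (nat_lit 1298) (.cons (nat_lit 50443) (.cons (nat_lit 1164) (.cons (nat_lit 1422) (.cons (nat_lit 66955) (.cons (nat_lit 1420) (.cons (nat_lit 1550) (.cons (nat_lit 34315) (.cons (nat_lit 1548) (.cons (nat_lit 1674) Uxp11n2111 (.cons (nat_lit 1673) (.cons (nat_lit 1676) (.cons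 (nat_lit 1802) Uxp11n1678 .nil) .nil) .nil)) .nil) .nil) .nil) .nil) .nil) .nil) .nil) .nil) .nil) .nil) .nil) .nil) .nil) .nil) .nil)) .nil) .nil))) .nil) (.cons (nat_lit 665) (.cons (nat_lit 668) (.cons (nat_lit 802) (.cons (nat_lit 796) (.cons (nat_lit 922) (.cons (nat_lit 916) (.cons (nat_lit 1042) Uxp11n2856 (.cons (nat_lit 1041) (.cons (nat_lit 1044) (.cons (nat_lit 1170) (.cons (nat_lit 1164) (.cons (nat_lit 1289) (.cons (nat_lit 1292) (.cons (nat_lit 1422) (.cons (nat_lit 34187) (.cons (nat_lit 1420) (.cons (nat_lit 1546) Uxp11n1784 (.cons (nat_lit 1545) Uxp11n2859 .nil)) .nil) .nil) (.cons (nat_lit 1426) (.cons (nat_lit 1420) (.cons (nat_lit 1545) Uxp11n2866 .nil) .nil) .nil)) .nil) (.cons (nat_lit 1298) (.cons (nat_lit 1292) (.cons (nat_lit 1422) Uxp11n2157 .nil) .nil) .nil)) .nil) .nil) .nil) .nil)) .nil) (.cons (nat_lit 921) (.cons (nat_lit 924) (.cons (nat_lit 1050) (.cons (nat_lit 1044) (.cons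 (nat_lit 1169) (.cons (nat_lit 1172) (.cons (nat_lit 1298) (.cons (nat_lit 1292) (.cons (nat_lit 1422) Uxp11n2946 (.cons (nat_lit 1425) (.cons (nat_lit 1428) (.cons (nat_lit 1554) Uxp11n2866 .nil) .nil) (.cons (nat_lit 1426) (.cons (nat_lit 1420) (.cons (nat_lit 1545) Uxp11n2866 .nil) .nil) .nil))) .nil) .nil) .nil) (.cons (nat_lit 1170) (.cons (nat_lit 1164) (.cons (nat_lit 1289) (.cons (nat_lit 1292) (.cons (nat_lit 1422) Uxp11n2946 (.cons (nat_lit 1426) (.cons (nat_lit 1420) (.cons (nat_lit 1545) Uxp11n2866 .nil) .nil) .nil)) .nil) (.cons (nat_lit 1298) (.cons (nat_lit 1292) (.cons (nat_lit 1422) Uxp11n2157 .nil) .nil) .nil)) .nil) .nil)) .nil) .nil) .nil) .nil)) .nil) (.cons (nat_lit 798) (.cons (nat_lit 796) (.cons (nat_lit 922) Uxp11n2904 .nil) .nil) .nil)) .nil) (.cons (nat_lit 670) (.cons (nat_lit 668) (.cons (nat_lit 793) (.cons (nat_lit 796) (.cons (nat_lit 926) (.cons (nat_lit 924) (.cons (nat_lit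 1050) (.cons (nat_lit 1044) (.cons (nat_lit 1174) (.cons (nat_lit 1172) (.cons (nat_lit 1302) (.cons (nat_lit 34067) (.cons (nat_lit 1300) (.cons (nat_lit 1430) (.cons (nat_lit 75155) (.cons (nat_lit 1428) (.cons (nat_lit 1554) (.cons (nat_lit 58891) (.cons (nat_lit 652) (.cons (nat_lit 1674) (.cons (nat_lit 1667) (.cons (nat_lit 5) .nil .nil) (.cons (nat_lit 1676) (.cons (nat_lit 1801) (.cons (nat_lit 1804) Uxp11n2664 .nil) (.cons (nat_lit 1802) Uxp11n1678 .nil)) .nil)) .nil) .nil) .nil) .nil) .nil) .nil) .nil) .nil) .nil) .nil) .nil) .nil) .nil) .nil) .nil) (.cons (nat_lit 930) (.cons (nat_lit 924) (.cons (nat_lit 1050) (.cons (nat_lit 1043) (.cons (nat_lit 660) (.cons (nat_lit 1169) Uxp11n1125 Uxp11n2994) .nil) (.cons (nat_lit 1052) (.cons (nat_lit 1177) (.cons (nat_lit 1180) (.cons (nat_lit 1306) Uxp11n3013 .nil) .nil) (.cons (nat_lit 1178) (.cons (nat_lit 1172) (.cons (nat_lit 1297) Uxp11n3013 .nil) .nil)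 .nil)) .nil)) (.cons (nat_lit 1057) (.cons (nat_lit 1060) (.cons (nat_lit 1186) (.cons (nat_lit 1180) (.cons (nat_lit 1306) Uxp11n3013 .nil) .nil) .nil) .nil) .nil)) .nil) .nil)) .nil) (.cons (nat_lit 794) (.cons (nat_lit 787) (.cons (nat_lit 660) Uxp11n516 .nil) (.cons (nat_lit 796) (.cons (nat_lit 921) (.cons (nat_lit 924) (.cons (nat_lit 1050) (.cons (nat_lit 1043) (.cons (nat_lit 660) Uxp11n2994 .nil) (.cons (nat_lit 1052) (.cons (nat_lit 1177) (.cons (nat_lit 1180) (.cons (nat_lit 1306) (.cons (nat_lit 1299) (.cons (nat_lit 660) Uxp11n3010 .nil) .nil) .nil) .nil) (.cons (nat_lit 1178) (.cons (nat_lit 1172) (.cons (nat_lit 1297) (.cons (nat_lit 1299) (.cons (nat_lit 660) Uxp11n3010 .nil) .nil) .nil) .nil) .nil)) .nil)) .nil) .nil) (.cons (nat_lit 922) (.cons (nat_lit 916) (.cons (nat_lit 1041) (.cons (nat_lit 1043) (.cons (nat_lit 660) Uxp11n2994 .nil) .nil) (.cons (nat_lit 1050) (.cons (nat_lit 1043) (.cons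 (nat_lit 660) Uxp11n1130 .nil) .nil) .nil)) .nil) .nil)) .nil)) .nil)) .nil) .nil)))
def Uxp11n3060 : PT := (.cons (nat_lit 1411) (.cons (nat_lit 5) .nil .nil) (.cons (nat_lit 1420) (.cons (nat_lit 1545) Uxp11n116 .nil) .nil))
def Uxp11n3064 : PT := (.cons (nat_lit 1164) (.cons (nat_lit 1289) (.cons (nat_lit 1292) (.cons (nat_lit 1418) Uxp11n3060 .nil) .nil) (.cons (nat_lit 1298) Uxp11n310 .nil)) .nil)
def Uxp11n3067 : PT := (.cons (nat_lit 1036) (.cons (nat_lit 1162) (.cons (nat_lit 1155) (.cons (nat_lit 5) .nil .nil) Uxp11n3064) .nil) .nil)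
def Uxp11n3074 : PT := (.cons (nat_lit 25355) (.cons (nat_lit 780) (.cons (nat_lit 906) (.cons (nat_lit 899) (.cons (nat_lit 5) .nil .nil) (.cons (nat_lit 908) (.cons (nat_lit 1033) Uxp11n3067 (.cons (nat_lit 1042) Uxp11n933 .nil)) .nil)) .nil) .nil) .nil)
def Uxp11n3077 : PT := (.cons (nat_lit 1292) (.cons (nat_lit 1418) Uxp11n3060 (.cons (nat_lit 1425) (.cons (nat_lit 1428) (.cons (nat_lit 1554) Uxp11n116 .nil) .nil) .nil)) .nil)
def Uxp11n3083 : PT := (.cons (nat_lit 1042) (.cons (nat_lit 1036) (.cons (nat_lit 1161) (.cons (nat_lit 1164) (.cons (nat_lit 1294) (.cons (nat_lit 25867) Uxp11n3077 .nil) Uxp11n1176) .nil) Uxp11n598) .nil) .nil)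
def Uxp11n3088 : PT := (.cons (nat_lit 908) (.cons (nat_lit 1038) (.cons (nat_lit 25611) Uxp11n933 .nil) (.cons (nat_lit 1041) (.cons (nat_lit 1044) Uxp11n598 .nil) Uxp11n541)) .nil)
def Uxp11n3108 : PT := (.cons (nat_lit 1548) (.cons (nat_lit 1674) (.cons (nat_lit 1667) (.cons (nat_lit 5) .nil .nil) Uxp11n957) .nil) .nil)
def Uxp11n3112 : PT := (.cons (nat_lit 25995) (.cons (nat_lit 1420) (.cons (nat_lit 1546) (.cons (nat_lit 1540) (.cons (nat_lit 1665) Uxp11n1188 (.cons (nat_lit 1674) Uxp11n1070 .nil)) .nil) (.cons (nat_lit 1545) Uxp11n3108 .nil)) .nil) .nil)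
def Uxp11n3138 : PT := (.cons (nat_lit 908) (.cons (nat_lit 1033) (.cons (nat_lit 1036) (.cons (nat_lit 1162) Uxp11n678 .nil) .nil) (.cons (nat_lit 1042) Uxp11n18 .nil)) .nil)
def Uxp11n3143 : PT := (.cons (nat_lit 780) (.cons (nat_lit 906) (.cons (nat_lit 899) (.cons (nat_lit 5) .nil .nil) Uxp11n3138) (.cons (nat_lit 913) (.cons (nat_lit 916) (.cons (nat_lit 1042) Uxp11n933 .nil) .nil) .nil)) .nil)
def Uxp11n3208 : PT := (.cons (nat_lit 1676) (.cons (nat_lit 1806) (.cons (nat_lit 1804) (.cons (nat_lit 1934) (.cons (nat_lit 26507) Uxp11n794 .nil) .nil) .nil) .nil) .nil)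
def Uxp11n3260 : PT := (.cons (nat_lit 529) (.cons (nat_lit 532) (.cons (nat_lit 658) (.cons (nat_lit 652) (.cons (nat_lit 782) Uxp11n3074 (.cons (nat_lit 786) (.cons (nat_lit 780) (.cons (nat_lit 905) (.cons (nat_lit 908) (.cons (nat_lit 1038) (.cons (nat_lit 25611) Uxp11n3067 .nil) Uxp11n3083) .nil) (.cons (nat_lit 914) Uxp11n3088 .nil)) .nil) (.cons (nat_lit 793) (.cons (nat_lit 796) (.cons (nat_lit 922) (.cons (nat_lit 916) (.cons (nat_lit 1041) (.cons (nat_lit 1044) (.cons (nat_lit 1170) (.cons (nat_lit 1164) (.cons (nat_lit 1294) (.cons (nat_lit 25867) Uxp11n3077 .nil) Uxp11n1233) .nil) .nil) .nil) Uxp11n3083) .nil) .nil) .nil) .nil))) .nil) (.cons (nat_lit 670) (.cons (nat_lit 668) (.cons (nat_lit 794) (.cons (nat_lit 788) (.cons (nat_lit 918) (.cons (nat_lit 916) (.cons (nat_lit 1046) (.cons (nat_lit 1044) (.cons (nat_lit 1170) (.cons (nat_lit 42123) (.cons (nat_lit 1036) (.cons (nat_lit 1294) (.cons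 (nat_lit 58635) (.cons (nat_lit 1292) (.cons (nat_lit 1422) Uxp11n3112 .nil) .nil) .nil) .nil) .nil) .nil) .nil) .nil) .nil) .nil) .nil) .nil) .nil) .nil) .nil)) .nil) (.cons (nat_lit 530) (.cons (nat_lit 524) (.cons (nat_lit 649) (.cons (nat_lit 652) (.cons (nat_lit 782) Uxp11n3074 (.cons (nat_lit 794) (.cons (nat_lit 788) (.cons (nat_lit 914) Uxp11n3088 (.cons (nat_lit 913) (.cons (nat_lit 916) Uxp11n3083 .nil) .nil)) .nil) .nil)) .nil) (.cons (nat_lit 658) (.cons (nat_lit 652) (.cons (nat_lit 782) (.cons (nat_lit 25355) Uxp11n3143 .nil) (.cons (nat_lit 786) (.cons (nat_lit 780) (.cons (nat_lit 905) (.cons (nat_lit 908) (.cons (nat_lit 1038) (.cons (nat_lit 25611) Uxp11n933 .nil) Uxp11n541) .nil) Uxp11n551) .nil) (.cons (nat_lit 785) (.cons (nat_lit 788) (.cons (nat_lit 914) Uxp11n3088 .nil) .nil) .nil))) .nil) (.cons (nat_lit 654) (.cons (nat_lit 652) (.cons (nat_lit 777) (.cons (nat_lit 780) (.cons (nat_lit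 910) (.cons (nat_lit 908) (.cons (nat_lit 1038) (.cons (nat_lit 1036) (.cons (nat_lit 1162) (.cons (nat_lit 42115) (.cons (nat_lit 1028) (.cons (nat_lit 1286) (.cons (nat_lit 58627) (.cons (nat_lit 1284) (.cons (nat_lit 1414) (.cons (nat_lit 1411) (.cons (nat_lit 25987) (.cons (nat_lit 5) .nil .nil) .nil) Uxp11n3112) .nil) .nil) .nil) .nil) .nil) .nil) .nil) .nil) .nil) .nil) .nil) .nil) (.cons (nat_lit 786) (.cons (nat_lit 780) (.cons (nat_lit 910) (.cons (nat_lit 908) (.cons (nat_lit 1038) (.cons (nat_lit 1036) (.cons (nat_lit 1162) (.cons (nat_lit 42115) (.cons (nat_lit 1028) (.cons (nat_lit 1286) (.cons (nat_lit 58627) (.cons (nat_lit 1284) (.cons (nat_lit 1414) (.cons (nat_lit 1411) (.cons (nat_lit 25987) (.cons (nat_lit 5) .nil .nil) .nil) (.cons (nat_lit 25995) (.cons (nat_lit 1420) (.cons (nat_lit 1546) Uxp11n1784 (.cons (nat_lit 1545) (.cons (nat_lit 1548) (.cons (nat_lit 1674) Uxp11n1070 .nil) .nil)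 .nil)) .nil) .nil)) .nil) .nil) .nil) .nil) .nil) .nil) .nil) .nil) .nil) .nil) .nil) .nil) .nil)) .nil) .nil))) .nil) (.cons (nat_lit 534) (.cons (nat_lit 531) (.cons (nat_lit 532) Uxp11n631 .nil) (.cons (nat_lit 540) (.cons (nat_lit 665) (.cons (nat_lit 668) (.cons (nat_lit 794) (.cons (nat_lit 787) (.cons (nat_lit 532) (.cons (nat_lit 913) (.cons (nat_lit 916) (.cons (nat_lit 1046) (.cons (nat_lit 1044) (.cons (nat_lit 1170) Uxp11n1293 .nil) .nil) .nil) .nil) Uxp11n1299) .nil) (.cons (nat_lit 796) (.cons (nat_lit 921) (.cons (nat_lit 924) (.cons (nat_lit 1050) (.cons (nat_lit 1043) (.cons (nat_lit 532) (.cons (nat_lit 1169) Uxp11n1273 (.cons (nat_lit 1170) (.cons (nat_lit 1164) (.cons (nat_lit 1294) (.cons (nat_lit 1292) (.cons (nat_lit 1417) Uxp11n1269 (.cons (nat_lit 1426) Uxp11n1269 .nil)) .nil) .nil) .nil) .nil)) .nil) (.cons (nat_lit 1052) (.cons (nat_lit 1177) (.cons (nat_lit 1180) (.cons (nat_lit 1306)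 (.cons (nat_lit 1299) (.cons (nat_lit 532) (.cons (nat_lit 1425) (.cons (nat_lit 1428) (.cons (nat_lit 1558) (.cons (nat_lit 1556) (.cons (nat_lit 1682) Uxp11n3208 .nil) .nil) .nil) .nil) (.cons (nat_lit 1426) (.cons (nat_lit 1420) (.cons (nat_lit 1550) (.cons (nat_lit 1548) (.cons (nat_lit 1673) Uxp11n3208 .nil) .nil) .nil) .nil) .nil)) .nil) .nil) .nil) .nil) .nil) .nil)) .nil) .nil) Uxp11n1284) .nil)) (.cons (nat_lit 806) (.cons (nat_lit 804) (.cons (nat_lit 930) (.cons (nat_lit 924) (.cons (nat_lit 1054) (.cons (nat_lit 1052) (.cons (nat_lit 1182) (.cons (nat_lit 25755) (.cons (nat_lit 1180) (.cons (nat_lit 1310) (.cons (nat_lit 66843) (.cons (nat_lit 1308) (.cons (nat_lit 1434) (.cons (nat_lit 50579) (.cons (nat_lit 532) (.cons (nat_lit 1554) Uxp11n1072 .nil) .nil) .nil) .nil) .nil) .nil) .nil) .nil) .nil) .nil) .nil) .nil) .nil) .nil) .nil) .nil)) .nil) (.cons (nat_lit 674) (.cons (nat_lit 668) (.cons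 (nat_lit 794) (.cons (nat_lit 787) (.cons (nat_lit 532) Uxp11n1299 .nil) (.cons (nat_lit 796) (.cons (nat_lit 921) Uxp11n1305 .nil) .nil)) (.cons (nat_lit 801) (.cons (nat_lit 804) (.cons (nat_lit 930) Uxp11n1305 .nil) .nil) .nil)) .nil) .nil)) .nil)) .nil)))
def Uxp11n3274 : PT := (.cons (nat_lit 1284) (.cons (nat_lit 1414) (.cons (nat_lit 1411) (.cons (nat_lit 17795) (.cons (nat_lit 5) .nil .nil) .nil) (.cons (nat_lit 17803) (.cons (nat_lit 1420) (.cons (nat_lit 1545) Uxp11n116 .nil) .nil) .nil)) (.cons (nat_lit 1417) (.cons (nat_lit 1420) (.cons (nat_lit 1546) Uxp11n1376 .nil) .nil) .nil)) .nil)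
def Uxp11n3280 : PT := (.cons (nat_lit 1028) (.cons (nat_lit 1158) (.cons (nat_lit 1155) (.cons (nat_lit 17539) (.cons (nat_lit 5) .nil .nil) .nil) (.cons (nat_lit 17547) Uxp11n3064 .nil)) (.cons (nat_lit 1161) (.cons (nat_lit 1164) (.cons (nat_lit 1290) Uxp11n3274 .nil) .nil) (.cons (nat_lit 1170) (.cons (nat_lit 1164) (.cons (nat_lit 1290) Uxp11n1331 .nil) .nil) .nil))) .nil)
def Uxp11n3286 : PT := (.cons (nat_lit 1028) (.cons (nat_lit 1158) (.cons (nat_lit 1155) (.cons (nat_lit 17539) (.cons (nat_lit 5) .nil .nil) .nil) (.cons (nat_lit 17547) (.cons (nat_lit 1164) (.cons (nat_lit 1289) Uxp11n310 .nil) .nil) .nil)) (.cons (nat_lit 1161) (.cons (nat_lit 1164) (.cons (nat_lit 1290) Uxp11n1331 .nil) .nil) .nil)) .nil)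
def Uxp11n3293 : PT := (.cons (nat_lit 1174) (.cons (nat_lit 17555) (.cons (nat_lit 1172) (.cons (nat_lit 1298) Uxp11n310 (.cons (nat_lit 1297) (.cons (nat_lit 1300) (.cons (nat_lit 1426) (.cons (nat_lit 1420) (.cons (nat_lit 1545) Uxp11n116 .nil) .nil) .nil) .nil) .nil)) .nil) .nil) .nil)
def Uxp11n3298 : PT := (.cons (nat_lit 908) (.cons (nat_lit 1034) Uxp11n3286 (.cons (nat_lit 1041) (.cons (nat_lit 1044) (.cons (nat_lit 1170) (.cons (nat_lit 1164) (.cons (nat_lit 1290) Uxp11n1331 .nil) .nil) Uxp11n3293) .nil) .nil)) .nil)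
def Uxp11n3302 : PT := (.cons (nat_lit 772) (.cons (nat_lit 902) (.cons (nat_lit 899) (.cons (nat_lit 17283) (.cons (nat_lit 5) .nil .nil) .nil) (.cons (nat_lit 17291) (.cons (nat_lit 908) (.cons (nat_lit 1033) Uxp11n3067 (.cons (nat_lit 1042) Uxp11n933 .nil)) .nil) .nil)) (.cons (nat_lit 905) (.cons (nat_lit 908) (.cons (nat_lit 1034) Uxp11n3280 .nil) .nil) (.cons (nat_lit 914) Uxp11n3298 .nil))) .nil)
def Uxp11n3309 : PT := (.cons (nat_lit 1430) (.cons (nat_lit 17811) (.cons (nat_lit 1428) (.cons (nat_lit 1554) Uxp11n116 (.cons (nat_lit 1553) (.cons (nat_lit 1556) (.cons (nat_lit 1682) (.cons (nat_lit 1676) (.cons (nat_lit 1801) Uxp11n351 .nil) .nil) .nil) .nil) .nil)) .nil) .nil) .nil)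
def Uxp11n3316 : PT := (.cons (nat_lit 1420) (.cons (nat_lit 1545) (.cons (nat_lit 1548) (.cons (nat_lit 1674) Uxp11n1070 .nil) .nil) (.cons (nat_lit 1554) Uxp11n116 .nil)) .nil)
def Uxp11n3322 : PT := (.cons (nat_lit 17555) (.cons (nat_lit 1172) (.cons (nat_lit 1298) Uxp11n3077 (.cons (nat_lit 1297) (.cons (nat_lit 1300) (.cons (nat_lit 1426) Uxp11n3316 .nil) .nil) .nil)) .nil) .nil)
def Uxp11n3351 : PT := (.cons (nat_lit 17299) (.cons (nat_lit 916) (.cons (nat_lit 1042) Uxp11n933 (.cons (nat_lit 1041) (.cons (nat_lit 1044) (.cons (nat_lit 1170) Uxp11n3064 .nil) .nil) .nil)) .nil) .nil)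
def Uxp11n3415 : PT := (.cons (nat_lit 660) (.cons (nat_lit 790) (.cons (nat_lit 788) (.cons (nat_lit 918) (.cons (nat_lit 916) (.cons (nat_lit 1042) (.cons (nat_lit 33803) (.cons (nat_lit 908) (.cons (nat_lit 1166) (.cons (nat_lit 50315) (.cons (nat_lit 1164) (.cons (nat_lit 1294) (.cons (nat_lit 17675) (.cons (nat_lit 1292) (.cons (nat_lit 1418) (.cons (nat_lit 1411) (.cons (nat_lit 5) .nil .nil) (.cons (nat_lit 1420) (.cons (nat_lit 1545) Uxp11n3108 (.cons (nat_lit 1554) Uxp11n1072 .nil)) .nil)) (.cons (nat_lit 1425) (.cons (nat_lit 1428) (.cons (nat_lit 1554) (.cons (nat_lit 1548) (.cons (nat_lit 1674) (.cons (nat_lit 1667) (.cons (nat_lit 5) .nil .nil) Uxp11n957) (.cons (nat_lit 1681) (.cons (nat_lit 1684) (.cons (nat_lit 1810) (.cons (nat_lit 1804) (.cons (nat_lit 1930) Uxp11n953 (.cons (nat_lit 1937) (.cons (nat_lit 1940) (.cons (nat_lit 2066) Uxp11n844 .nil) .nil) .nil)) .nil) .nil) .nil) .nil)) .nil)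 .nil) .nil) .nil)) .nil) .nil) .nil) .nil) .nil) .nil) .nil) .nil) .nil) .nil) .nil) .nil) .nil) .nil)
def Uxp11n3435 : PT := (.cons (nat_lit 1178) (.cons (nat_lit 1172) (.cons (nat_lit 1297) (.cons (nat_lit 1300) Uxp11n3309 .nil) .nil) .nil) .nil)
def Uxp11n3440 : PT := (.cons (nat_lit 922) (.cons (nat_lit 916) (.cons (nat_lit 1041) (.cons (nat_lit 1044) (.cons (nat_lit 1174) Uxp11n3322 Uxp11n3435) .nil) (.cons (nat_lit 1050) (.cons (nat_lit 1044) Uxp11n3293 .nil) .nil)) .nil) .nil)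
def Uxp11n3468 : PT := (.cons (nat_lit 908) (.cons (nat_lit 1038) (.cons (nat_lit 1036) (.cons (nat_lit 1166) (.cons (nat_lit 17547) Uxp11n617 .nil) .nil) .nil) .nil) .nil)
def Uxp11n3480 : PT := (.cons (nat_lit 1164) (.cons (nat_lit 1294) (.cons (nat_lit 1292) (.cons (nat_lit 1422) (.cons (nat_lit 17803) Uxp11n51 .nil) .nil) .nil) .nil) .nil)
def Uxp11n3486 : PT := (.cons (nat_lit 914) (.cons (nat_lit 908) (.cons (nat_lit 1038) (.cons (nat_lit 1036) (.cons (nat_lit 1161) Uxp11n3480 (.cons (nat_lit 1170) Uxp11n3480 .nil)) .nil) .nil) .nil) .nil)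
def Uxp11n3492 : PT := (.cons (nat_lit 1420) (.cons (nat_lit 1550) (.cons (nat_lit 1548) (.cons (nat_lit 1678) (.cons (nat_lit 18059) Uxp11n242 .nil) .nil) .nil) .nil) .nil)
def Uxp11n3498 : PT := (.cons (nat_lit 1170) (.cons (nat_lit 1164) (.cons (nat_lit 1294) (.cons (nat_lit 1292) (.cons (nat_lit 1417) Uxp11n3492 (.cons (nat_lit 1426) Uxp11n3492 .nil)) .nil) .nil) .nil) .nil)
def Uxp11n3504 : PT := (.cons (nat_lit 1676) (.cons (nat_lit 1806) (.cons (nat_lit 1804) (.cons (nat_lit 1934) (.cons (nat_lit 18315) Uxp11n794 .nil) .nil) .nil) .nil) .nil)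
def Uxp11n3509 : PT := (.cons (nat_lit 1426) (.cons (nat_lit 1420) (.cons (nat_lit 1550) (.cons (nat_lit 1548) (.cons (nat_lit 1673) Uxp11n3504 .nil) .nil) .nil) .nil) .nil)
def Uxp11n3523 : PT := (.cons (nat_lit 1170) (.cons (nat_lit 1164) (.cons (nat_lit 1294) (.cons (nat_lit 1292) (.cons (nat_lit 1417) Uxp11n3492 .nil) .nil) .nil) .nil) .nil)
def Uxp11n3527 : PT := (.cons (nat_lit 924) (.cons (nat_lit 1050) (.cons (nat_lit 1043) (.cons (nat_lit 404) Uxp11n3523 .nil) .nil) .nil) .nil)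
def Uxp11n3552 : PT := (.cons (nat_lit 1172) (.cons (nat_lit 1302) (.cons (nat_lit 1300) (.cons (nat_lit 1426) Uxp11n3492 .nil) .nil) .nil) .nil)
def Uxp11n3563 : PT := (.cons (nat_lit 1180) (.cons (nat_lit 1306) (.cons (nat_lit 1299) (.cons (nat_lit 404) (.cons (nat_lit 1425) (.cons (nat_lit 1428) (.cons (nat_lit 1558) (.cons (nat_lit 1556) (.cons (nat_lit 1682) Uxp11n3504 .nil) .nil) .nil) .nil) Uxp11n3509) .nil) .nil) .nil) .nil)
def Uxp11n3566 : PT := (.cons (nat_lit 1043) (.cons (nat_lit 404) (.cons (nat_lit 1169) Uxp11n3552 Uxp11n3498) .nil) (.cons (nat_lit 1052) (.cons (nat_lit 1177) Uxp11n3563 .nil) .nil))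
def Uxp11n3611 : PT := (.cons (nat_lit 410) (.cons (nat_lit 404) (.cons (nat_lit 529) (.cons (nat_lit 532) (.cons (nat_lit 658) (.cons (nat_lit 652) (.cons (nat_lit 778) Uxp11n3302 (.cons (nat_lit 785) (.cons (nat_lit 788) (.cons (nat_lit 914) (.cons (nat_lit 908) (.cons (nat_lit 1034) Uxp11n3280 (.cons (nat_lit 1041) (.cons (nat_lit 1044) (.cons (nat_lit 1170) (.cons (nat_lit 1164) (.cons (nat_lit 1290) Uxp11n3274 (.cons (nat_lit 1297) (.cons (nat_lit 1300) (.cons (nat_lit 1426) (.cons (nat_lit 1420) (.cons (nat_lit 1546) Uxp11n1376 .nil) .nil) Uxp11n3309) .nil) .nil)) .nil) (.cons (nat_lit 1174) Uxp11n3322 .nil)) .nil) .nil)) .nil) .nil) .nil) .nil)) .nil) .nil) .nil) (.cons (nat_lit 530) (.cons (nat_lit 524) (.cons (nat_lit 649) (.cons (nat_lit 652) (.cons (nat_lit 778) Uxp11n3302 .nil) .nil) (.cons (nat_lit 658) (.cons (nat_lit 652) (.cons (nat_lit 778) (.cons (nat_lit 772) (.cons (nat_lit 902) (.cons (nat_lit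 899) (.cons (nat_lit 17283) (.cons (nat_lit 5) .nil .nil) .nil) (.cons (nat_lit 17291) Uxp11n3138 .nil)) (.cons (nat_lit 905) (.cons (nat_lit 908) (.cons (nat_lit 1034) Uxp11n3286 .nil) .nil) (.cons (nat_lit 914) (.cons (nat_lit 908) (.cons (nat_lit 1034) Uxp11n1338 .nil) .nil) .nil))) .nil) (.cons (nat_lit 785) (.cons (nat_lit 788) (.cons (nat_lit 914) Uxp11n3298 (.cons (nat_lit 918) Uxp11n3351 .nil)) .nil) .nil)) .nil) (.cons (nat_lit 662) (.cons (nat_lit 17043) (.cons (nat_lit 660) (.cons (nat_lit 786) Uxp11n3143 (.cons (nat_lit 785) (.cons (nat_lit 788) (.cons (nat_lit 914) (.cons (nat_lit 908) (.cons (nat_lit 1033) Uxp11n3067 (.cons (nat_lit 1042) Uxp11n933 .nil)) .nil) .nil) .nil) .nil)) .nil) .nil) .nil))) .nil) (.cons (nat_lit 534) (.cons (nat_lit 532) (.cons (nat_lit 658) (.cons (nat_lit 652) (.cons (nat_lit 782) (.cons (nat_lit 780) (.cons (nat_lit 910) (.cons (nat_lit 908) (.cons (nat_lit 1034) (.cons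 (nat_lit 33795) (.cons (nat_lit 900) (.cons (nat_lit 1158) (.cons (nat_lit 50307) (.cons (nat_lit 1156) (.cons (nat_lit 1286) (.cons (nat_lit 17667) (.cons (nat_lit 1284) (.cons (nat_lit 1409) (.cons (nat_lit 1411) (.cons (nat_lit 5) .nil .nil) (.cons (nat_lit 1428) (.cons (nat_lit 1554) Uxp11n1072 .nil) .nil)) (.cons (nat_lit 1418) (.cons (nat_lit 1411) (.cons (nat_lit 5) .nil .nil) Uxp11n3316) .nil)) .nil) .nil) .nil) .nil) .nil) .nil) .nil) .nil) .nil) .nil) .nil) .nil) .nil) .nil) (.cons (nat_lit 657) Uxp11n3415 .nil)) .nil) .nil))) .nil) (.cons (nat_lit 409) (.cons (nat_lit 412) (.cons (nat_lit 554) (.cons (nat_lit 548) (.cons (nat_lit 674) (.cons (nat_lit 668) (.cons (nat_lit 794) (.cons (nat_lit 788) (.cons (nat_lit 918) Uxp11n3351 (.cons (nat_lit 921) (.cons (nat_lit 924) (.cons (nat_lit 1050) (.cons (nat_lit 1044) Uxp11n3293 .nil) .nil) .nil) (.cons (nat_lit 922) (.cons (nat_lit 916) (.cons (nat_lit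 1041) (.cons (nat_lit 1044) Uxp11n3293 .nil) .nil) .nil) .nil))) .nil) (.cons (nat_lit 793) (.cons (nat_lit 796) Uxp11n3440 .nil) .nil)) .nil) (.cons (nat_lit 673) (.cons (nat_lit 676) (.cons (nat_lit 802) (.cons (nat_lit 796) (.cons (nat_lit 921) (.cons (nat_lit 924) (.cons (nat_lit 1050) (.cons (nat_lit 1044) (.cons (nat_lit 1174) Uxp11n3322 (.cons (nat_lit 1177) (.cons (nat_lit 1180) (.cons (nat_lit 1306) (.cons (nat_lit 1300) Uxp11n3309 .nil) .nil) .nil) Uxp11n3435)) .nil) .nil) .nil) Uxp11n3440) .nil) .nil) .nil) .nil)) .nil) (.cons (nat_lit 542) (.cons (nat_lit 540) (.cons (nat_lit 666) Uxp11n3415 .nil) .nil) .nil)) .nil) (.cons (nat_lit 414) (.cons (nat_lit 412) (.cons (nat_lit 538) (.cons (nat_lit 531) (.cons (nat_lit 404) (.cons (nat_lit 658) (.cons (nat_lit 652) (.cons (nat_lit 782) (.cons (nat_lit 780) (.cons (nat_lit 905) Uxp11n3468 (.cons (nat_lit 914) Uxp11n3468 .nil)) .nil) .nil) .nil) .nil) .nil)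 (.cons (nat_lit 540) (.cons (nat_lit 665) (.cons (nat_lit 668) (.cons (nat_lit 794) (.cons (nat_lit 787) (.cons (nat_lit 404) Uxp11n3486 .nil) (.cons (nat_lit 796) (.cons (nat_lit 921) (.cons (nat_lit 924) (.cons (nat_lit 1050) (.cons (nat_lit 1043) (.cons (nat_lit 404) Uxp11n3498 .nil) (.cons (nat_lit 1052) (.cons (nat_lit 1177) (.cons (nat_lit 1180) (.cons (nat_lit 1306) (.cons (nat_lit 1299) (.cons (nat_lit 404) Uxp11n3509 .nil) .nil) .nil) .nil) .nil) .nil)) .nil) .nil) (.cons (nat_lit 930) Uxp11n3527 .nil)) .nil)) .nil) .nil) (.cons (nat_lit 674) (.cons (nat_lit 668) (.cons (nat_lit 794) (.cons (nat_lit 787) (.cons (nat_lit 404) Uxp11n3486 .nil) (.cons (nat_lit 796) (.cons (nat_lit 921) Uxp11n3527 .nil) .nil)) (.cons (nat_lit 801) (.cons (nat_lit 804) (.cons (nat_lit 930) Uxp11n3527 .nil) .nil) .nil)) .nil) .nil)) .nil)) (.cons (nat_lit 545) (.cons (nat_lit 548) (.cons (nat_lit 674) (.cons (nat_lit 668)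 (.cons (nat_lit 794) (.cons (nat_lit 787) (.cons (nat_lit 404) (.cons (nat_lit 913) (.cons (nat_lit 916) (.cons (nat_lit 1046) (.cons (nat_lit 1044) (.cons (nat_lit 1170) Uxp11n3480 .nil) .nil) .nil) .nil) Uxp11n3486) .nil) (.cons (nat_lit 796) (.cons (nat_lit 921) (.cons (nat_lit 924) (.cons (nat_lit 1050) Uxp11n3566 .nil) .nil) (.cons (nat_lit 930) (.cons (nat_lit 924) (.cons (nat_lit 1050) (.cons (nat_lit 1043) (.cons (nat_lit 404) (.cons (nat_lit 1169) Uxp11n3552 Uxp11n3523) .nil) .nil) .nil) .nil) .nil)) .nil)) (.cons (nat_lit 801) (.cons (nat_lit 804) (.cons (nat_lit 930) (.cons (nat_lit 924) (.cons (nat_lit 1050) Uxp11n3566 (.cons (nat_lit 1057) (.cons (nat_lit 1060) (.cons (nat_lit 1186) Uxp11n3563 .nil) .nil) .nil)) .nil) .nil) .nil) .nil)) .nil) (.cons (nat_lit 678) (.cons (nat_lit 676) (.cons (nat_lit 802) (.cons (nat_lit 796) (.cons (nat_lit 926) (.cons (nat_lit 924) (.cons (nat_lit 1054) (.cons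 (nat_lit 17435) (.cons (nat_lit 1052) (.cons (nat_lit 1182) (.cons (nat_lit 58523) (.cons (nat_lit 1180) (.cons (nat_lit 1306) (.cons (nat_lit 42259) (.cons (nat_lit 404) (.cons (nat_lit 1426) (.cons (nat_lit 1420) (.cons (nat_lit 1545) Uxp11n3108 (.cons (nat_lit 1554) Uxp11n1072 .nil)) .nil) .nil) .nil) .nil) .nil) .nil) .nil) .nil) .nil) .nil) .nil) .nil) .nil) .nil) .nil) .nil) .nil)) .nil) .nil)) .nil) .nil)))
def Uxp11n3656 : PT := (.cons (nat_lit 1292) (.cons (nat_lit 1418) (.cons (nat_lit 9603) (.cons (nat_lit 5) .nil .nil) .nil) .nil) .nil)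
def Uxp11n3665 : PT := (.cons (nat_lit 25483) (.cons (nat_lit 908) (.cons (nat_lit 1038) (.cons (nat_lit 1036) (.cons (nat_lit 1166) (.cons (nat_lit 1163) (.cons (nat_lit 1164) (.cons (nat_lit 1294) (.cons (nat_lit 66827) Uxp11n3656 .nil) .nil) .nil) .nil) .nil) .nil) .nil) .nil) .nil)
def Uxp11n3668 : PT := (.cons (nat_lit 1548) (.cons (nat_lit 1674) (.cons (nat_lit 9859) (.cons (nat_lit 5) .nil .nil) .nil) .nil) .nil)
def Uxp11n3677 : PT := (.cons (nat_lit 25739) (.cons (nat_lit 1164) (.cons (nat_lit 1294) (.cons (nat_lit 1292) (.cons (nat_lit 1422) (.cons (nat_lit 1419) (.cons (nat_lit 1420) (.cons (nat_lit 1550) (.cons (nat_lit 83467) Uxp11n3668 .nil) .nil) .nil) .nil) .nil) .nil) .nil) .nil) .nil)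
def Uxp11n3680 : PT := (.cons (nat_lit 1804) (.cons (nat_lit 1930) (.cons (nat_lit 10115) (.cons (nat_lit 5) .nil .nil) .nil) .nil) .nil)
def Uxp11n3689 : PT := (.cons (nat_lit 25995) (.cons (nat_lit 1420) (.cons (nat_lit 1550) (.cons (nat_lit 1548) (.cons (nat_lit 1678) (.cons (nat_lit 1675) (.cons (nat_lit 1676) (.cons (nat_lit 1806) (.cons (nat_lit 100107) Uxp11n3680 .nil) .nil) .nil) .nil) .nil) .nil) .nil) .nil) .nil)
def Uxp11n3696 : PT := (.cons (nat_lit 1170) (.cons (nat_lit 1164) (.cons (nat_lit 1289) (.cons (nat_lit 1292) (.cons (nat_lit 1422) Uxp11n3689 .nil) .nil) .nil) .nil) .nil)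
def Uxp11n3699 : PT := (.cons (nat_lit 1036) (.cons (nat_lit 1166) Uxp11n3677 (.cons (nat_lit 1169) (.cons (nat_lit 1172) (.cons (nat_lit 1298) (.cons (nat_lit 1292) (.cons (nat_lit 1422) Uxp11n3689 .nil) .nil) .nil) .nil) Uxp11n3696)) .nil)
def Uxp11n3709 : PT := (.cons (nat_lit 914) (.cons (nat_lit 908) (.cons (nat_lit 1033) (.cons (nat_lit 1036) (.cons (nat_lit 1166) Uxp11n3677 Uxp11n3696) .nil) (.cons (nat_lit 1042) (.cons (nat_lit 1036) (.cons (nat_lit 1166) Uxp11n3677 .nil) .nil) .nil)) .nil) .nil)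
def Uxp11n3712 : PT := (.cons (nat_lit 780) (.cons (nat_lit 910) Uxp11n3665 (.cons (nat_lit 913) (.cons (nat_lit 916) (.cons (nat_lit 1042) Uxp11n3699 .nil) .nil) Uxp11n3709)) .nil)
def Uxp11n3733 : PT := (.cons (nat_lit 2060) (.cons (nat_lit 2186) (.cons (nat_lit 10371) (.cons (nat_lit 5) .nil .nil) .nil) .nil) .nil)
def Uxp11n3742 : PT := (.cons (nat_lit 26251) (.cons (nat_lit 1676) (.cons (nat_lit 1806) (.cons (nat_lit 1804) (.cons (nat_lit 1934) (.cons (nat_lit 1931) (.cons (nat_lit 1932) (.cons (nat_lit 2062) (.cons (nat_lit 116747) Uxp11n3733 .nil) .nil) .nil) .nil) .nil) .nil) .nil) .nil) .nil)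
def Uxp11n3747 : PT := (.cons (nat_lit 1426) (.cons (nat_lit 1420) (.cons (nat_lit 1545) (.cons (nat_lit 1548) (.cons (nat_lit 1678) Uxp11n3742 .nil) .nil) .nil) .nil) .nil)
def Uxp11n3752 : PT := (.cons (nat_lit 1170) (.cons (nat_lit 1164) (.cons (nat_lit 1289) (.cons (nat_lit 1292) (.cons (nat_lit 1422) Uxp11n3689 Uxp11n3747) .nil) (.cons (nat_lit 1298) (.cons (nat_lit 1292) (.cons (nat_lit 1422) Uxp11n3689 .nil) .nil) .nil)) .nil) .nil)
def Uxp11n3776 : PT := (.cons (nat_lit 1036) (.cons (nat_lit 1166) (.cons (nat_lit 1163) (.cons (nat_lit 1164) (.cons (nat_lit 1290) (.cons (nat_lit 1284) (.cons (nat_lit 1414) (.cons (nat_lit 50563) (.cons (nat_lit 58755) (.cons (nat_lit 5) .nil .nil) .nil) .nil) .nil) .nil) .nil) .nil) .nil) .nil) .nil)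
def Uxp11n3783 : PT := (.cons (nat_lit 8851) (.cons (nat_lit 660) (.cons (nat_lit 790) (.cons (nat_lit 788) (.cons (nat_lit 918) (.cons (nat_lit 916) (.cons (nat_lit 1042) Uxp11n3776 .nil) .nil) .nil) .nil) .nil) .nil) .nil)
def Uxp11n3792 : PT := (.cons (nat_lit 1292) (.cons (nat_lit 1422) (.cons (nat_lit 1419) (.cons (nat_lit 1420) (.cons (nat_lit 1546) (.cons (nat_lit 1540) (.cons (nat_lit 1670) (.cons (nat_lit 67203) (.cons (nat_lit 75395) (.cons (nat_lit 5) .nil .nil) .nil) .nil) .nil) .nil) .nil) .nil) .nil) .nil) .nil)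
def Uxp11n3799 : PT := (.cons (nat_lit 9107) (.cons (nat_lit 916) (.cons (nat_lit 1046) (.cons (nat_lit 1044) (.cons (nat_lit 1174) (.cons (nat_lit 1172) (.cons (nat_lit 1298) Uxp11n3792 .nil) .nil) .nil) .nil) .nil) .nil) .nil)
def Uxp11n3808 : PT := (.cons (nat_lit 1548) (.cons (nat_lit 1678) (.cons (nat_lit 1675) (.cons (nat_lit 1676) (.cons (nat_lit 1802) (.cons (nat_lit 1796) (.cons (nat_lit 1926) (.cons (nat_lit 83843) (.cons (nat_lit 92035) (.cons (nat_lit 5) .nil .nil) .nil) .nil) .nil) .nil) .nil) .nil) .nil) .nil) .nil)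
def Uxp11n3817 : PT := (.cons (nat_lit 1044) (.cons (nat_lit 1174) (.cons (nat_lit 9363) (.cons (nat_lit 1172) (.cons (nat_lit 1302) (.cons (nat_lit 1300) (.cons (nat_lit 1430) (.cons (nat_lit 1428) (.cons (nat_lit 1554) Uxp11n3808 .nil) .nil) .nil) .nil) .nil) .nil) .nil) .nil) .nil)
def Uxp11n3835 : PT := (.cons (nat_lit 666) (.cons (nat_lit 660) (.cons (nat_lit 785) (.cons (nat_lit 788) (.cons (nat_lit 918) Uxp11n3799 (.cons (nat_lit 922) (.cons (nat_lit 916) (.cons (nat_lit 1041) Uxp11n3817 .nil) .nil) .nil)) .nil) (.cons (nat_lit 794) (.cons (nat_lit 788) (.cons (nat_lit 918) Uxp11n3799 .nil) .nil) .nil)) .nil) .nil)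
def Uxp11n3862 : PT := (.cons (nat_lit 1298) (.cons (nat_lit 1292) (.cons (nat_lit 1422) Uxp11n3689 (.cons (nat_lit 1425) (.cons (nat_lit 1428) (.cons (nat_lit 1554) (.cons (nat_lit 1548) (.cons (nat_lit 1678) Uxp11n3742 .nil) .nil) .nil) .nil) Uxp11n3747)) .nil) .nil)
def Uxp11n3866 : PT := (.cons (nat_lit 1036) (.cons (nat_lit 1166) Uxp11n3677 (.cons (nat_lit 1169) (.cons (nat_lit 1172) Uxp11n3862 .nil) Uxp11n3752)) .nil)
def Uxp11n3873 : PT := (.cons (nat_lit 914) (.cons (nat_lit 908) (.cons (nat_lit 1033) (.cons (nat_lit 1036) (.cons (nat_lit 1166) Uxp11n3677 Uxp11n3752) .nil) (.cons (nat_lit 1042) Uxp11n3699 .nil)) .nil) .nil)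
def Uxp11n3879 : PT := (.cons (nat_lit 2316) (.cons (nat_lit 2442) (.cons (nat_lit 10627) (.cons (nat_lit 5) .nil .nil) .nil) .nil) .nil)
def Uxp11n3932 : PT := (.cons (nat_lit 1804) (.cons (nat_lit 1929) (.cons (nat_lit 1932) (.cons (nat_lit 2062) (.cons (nat_lit 51211) Uxp11n3733 .nil) .nil) .nil) .nil) .nil)
def Uxp11n3938 : PT := (.cons (nat_lit 1682) (.cons (nat_lit 1676) (.cons (nat_lit 1806) (.cons (nat_lit 50955) Uxp11n3680 .nil) .nil) .nil) .nil)
def Uxp11n3940 : PT := (.cons (nat_lit 1548) (.cons (nat_lit 1673) (.cons (nat_lit 1676) (.cons (nat_lit 1806) (.cons (nat_lit 50955) Uxp11n3680 .nil) (.cons (nat_lit 1810) Uxp11n3932 .nil)) .nil) Uxp11n3938) .nil)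
def Uxp11n3945 : PT := (.cons (nat_lit 1548) (.cons (nat_lit 1673) (.cons (nat_lit 1676) (.cons (nat_lit 1806) (.cons (nat_lit 50955) Uxp11n3680 .nil) .nil) .nil) .nil) .nil)
def Uxp11n3951 : PT := (.cons (nat_lit 1426) (.cons (nat_lit 1420) (.cons (nat_lit 1550) (.cons (nat_lit 50699) Uxp11n3668 .nil) (.cons (nat_lit 1554) Uxp11n3945 (.cons (nat_lit 1553) (.cons (nat_lit 1556) Uxp11n3938 .nil) .nil))) .nil) .nil)
def Uxp11n3953 : PT := (.cons (nat_lit 1292) (.cons (nat_lit 1417) (.cons (nat_lit 1420) (.cons (nat_lit 1550) (.cons (nat_lit 50699) Uxp11n3668 .nil) (.cons (nat_lit 1554) Uxp11n3940 .nil)) .nil) Uxp11n3951) .nil)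
def Uxp11n3973 : PT := (.cons (nat_lit 1938) (.cons (nat_lit 1932) (.cons (nat_lit 2062) (.cons (nat_lit 51211) Uxp11n3733 .nil) .nil) .nil) .nil)
def Uxp11n3979 : PT := (.cons (nat_lit 1682) (.cons (nat_lit 1676) (.cons (nat_lit 1806) (.cons (nat_lit 50955) Uxp11n3680 .nil) (.cons (nat_lit 1810) Uxp11n3932 (.cons (nat_lit 1809) (.cons (nat_lit 1812) Uxp11n3973 .nil) .nil))) .nil) .nil)
def Uxp11n3984 : PT := (.cons (nat_lit 1420) (.cons (nat_lit 1550) (.cons (nat_lit 50699) Uxp11n3668 .nil) (.cons (nat_lit 1554) Uxp11n3940 (.cons (nat_lit 1553) (.cons (nat_lit 1556) Uxp11n3979 .nil) .nil))) .nil)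
def Uxp11n3990 : PT := (.cons (nat_lit 1164) (.cons (nat_lit 1294) (.cons (nat_lit 50443) Uxp11n3656 .nil) (.cons (nat_lit 1298) Uxp11n3953 (.cons (nat_lit 1297) (.cons (nat_lit 1300) (.cons (nat_lit 1426) Uxp11n3984 .nil) .nil) .nil))) .nil)
def Uxp11n4039 : PT := (.cons (nat_lit 1932) (.cons (nat_lit 2058) (.cons (nat_lit 2052) (.cons (nat_lit 2182) (.cons (nat_lit 2179) (.cons (nat_lit 59523) (.cons (nat_lit 5) .nil .nil) .nil) .nil) .nil) .nil) .nil) .nil)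
def Uxp11n4042 : PT := (.cons (nat_lit 1796) (.cons (nat_lit 1926) (.cons (nat_lit 1923) (.cons (nat_lit 59267) (.cons (nat_lit 5) .nil .nil) .nil) .nil) (.cons (nat_lit 1929) Uxp11n4039 .nil)) .nil)
def Uxp11n4050 : PT := (.cons (nat_lit 1540) (.cons (nat_lit 1670) (.cons (nat_lit 1667) (.cons (nat_lit 59011) (.cons (nat_lit 5) .nil .nil) .nil) .nil) (.cons (nat_lit 1673) (.cons (nat_lit 1676) (.cons (nat_lit 1802) Uxp11n4042 .nil) .nil) (.cons (nat_lit 1682) (.cons (nat_lit 1676) (.cons (nat_lit 1802) Uxp11n222 .nil) .nil) .nil))) .nil)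
def Uxp11n4055 : PT := (.cons (nat_lit 1540) (.cons (nat_lit 1670) (.cons (nat_lit 1667) (.cons (nat_lit 59011) (.cons (nat_lit 5) .nil .nil) .nil) .nil) (.cons (nat_lit 1673) (.cons (nat_lit 1676) (.cons (nat_lit 1802) Uxp11n222 .nil) .nil) .nil)) .nil)
def Uxp11n4060 : PT := (.cons (nat_lit 1426) (.cons (nat_lit 1420) (.cons (nat_lit 1546) Uxp11n4055 (.cons (nat_lit 1553) (.cons (nat_lit 1556) (.cons (nat_lit 1682) (.cons (nat_lit 1676) (.cons (nat_lit 1802) Uxp11n222 .nil) .nil) .nil) .nil) .nil)) .nil) .nil)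
def Uxp11n4063 : PT := (.cons (nat_lit 1284) (.cons (nat_lit 1414) (.cons (nat_lit 1411) (.cons (nat_lit 58755) (.cons (nat_lit 5) .nil .nil) .nil) .nil) (.cons (nat_lit 1417) (.cons (nat_lit 1420) (.cons (nat_lit 1546) Uxp11n4050 .nil) .nil) Uxp11n4060)) .nil)
def Uxp11n4114 : PT := (.cons (nat_lit 537) (.cons (nat_lit 540) (.cons (nat_lit 666) (.cons (nat_lit 660) (.cons (nat_lit 786) (.cons (nat_lit 780) (.cons (nat_lit 910) Uxp11n3665 (.cons (nat_lit 913) (.cons (nat_lit 916) (.cons (nat_lit 1042) Uxp11n3866 .nil) .nil) Uxp11n3873)) .nil) (.cons (nat_lit 793) (.cons (nat_lit 796) (.cons (nat_lit 922) (.cons (nat_lit 916) (.cons (nat_lit 1042) Uxp11n3866 (.cons (nat_lit 1041) (.cons (nat_lit 1044) (.cons (nat_lit 1170) (.cons (nat_lit 1164) (.cons (nat_lit 1289) (.cons (nat_lit 1292) (.cons (nat_lit 1422) Uxp11n3689 (.cons (nat_lit 1426) (.cons (nat_lit 1420) (.cons (nat_lit 1545) (.cons (nat_lit 1548) (.cons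 (nat_lit 1678) Uxp11n3742 (.cons (nat_lit 1682) (.cons (nat_lit 1676) (.cons (nat_lit 1801) (.cons (nat_lit 1804) (.cons (nat_lit 1934) (.cons (nat_lit 26507) (.cons (nat_lit 1932) (.cons (nat_lit 2062) (.cons (nat_lit 2060) (.cons (nat_lit 2190) (.cons (nat_lit 2187) (.cons (nat_lit 2188) (.cons (nat_lit 2318) (.cons (nat_lit 133387) Uxp11n3879 .nil) .nil) .nil) .nil) .nil) .nil) .nil) .nil) .nil) .nil) .nil) .nil) .nil) .nil)) .nil) (.cons (nat_lit 1554) (.cons (nat_lit 1548) (.cons (nat_lit 1678) Uxp11n3742 .nil) .nil) .nil)) .nil) .nil)) .nil) Uxp11n3862) .nil) .nil) .nil) .nil)) .nil) .nil) .nil) .nil)) .nil) .nil) .nil) (.cons (nat_lit 546) (.cons (nat_lit 540) (.cons (nat_lit 666) (.cons (nat_lit 660) (.cons (nat_lit 786) Uxp11n3712 (.cons (nat_lit 785) (.cons (nat_lit 788) Uxp11n3873 .nil) .nil)) .nil) (.cons (nat_lit 665) (.cons (nat_lit 668) (.cons (nat_lit 794) (.cons (nat_lit 788) (.cons (nat_lit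 913) (.cons (nat_lit 916) (.cons (nat_lit 1042) Uxp11n3866 .nil) .nil) Uxp11n3873) .nil) .nil) .nil) .nil)) .nil) (.cons (nat_lit 542) (.cons (nat_lit 539) (.cons (nat_lit 540) (.cons (nat_lit 670) (.cons (nat_lit 25243) (.cons (nat_lit 668) (.cons (nat_lit 798) (.cons (nat_lit 796) (.cons (nat_lit 922) (.cons (nat_lit 916) (.cons (nat_lit 1042) (.cons (nat_lit 1036) (.cons (nat_lit 1161) (.cons (nat_lit 1164) (.cons (nat_lit 1294) (.cons (nat_lit 50443) Uxp11n3656 .nil) (.cons (nat_lit 1298) Uxp11n3953 .nil)) .nil) (.cons (nat_lit 1170) (.cons (nat_lit 1164) (.cons (nat_lit 1294) (.cons (nat_lit 50443) Uxp11n3656 .nil) (.cons (nat_lit 1298) (.cons (nat_lit 1292) (.cons (nat_lit 1417) (.cons (nat_lit 1420) (.cons (nat_lit 1550) (.cons (nat_lit 50699) Uxp11n3668 .nil) (.cons (nat_lit 1554) Uxp11n3945 .nil)) .nil) (.cons (nat_lit 1426) (.cons (nat_lit 1420) (.cons (nat_lit 1550) (.cons (nat_lit 50699) Uxp11n3668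 .nil) .nil) .nil) .nil)) .nil) (.cons (nat_lit 1297) (.cons (nat_lit 1300) Uxp11n3951 .nil) .nil))) .nil) .nil)) .nil) (.cons (nat_lit 1041) (.cons (nat_lit 1044) (.cons (nat_lit 1170) Uxp11n3990 .nil) .nil) .nil)) .nil) (.cons (nat_lit 921) (.cons (nat_lit 924) (.cons (nat_lit 1050) (.cons (nat_lit 1044) (.cons (nat_lit 1170) Uxp11n3990 (.cons (nat_lit 1177) (.cons (nat_lit 1180) (.cons (nat_lit 1306) (.cons (nat_lit 1300) (.cons (nat_lit 1426) Uxp11n3984 (.cons (nat_lit 1425) (.cons (nat_lit 1428) (.cons (nat_lit 1554) (.cons (nat_lit 1548) (.cons (nat_lit 1673) (.cons (nat_lit 1676) (.cons (nat_lit 1806) (.cons (nat_lit 50955) Uxp11n3680 .nil) (.cons (nat_lit 1810) (.cons (nat_lit 1804) (.cons (nat_lit 1929) (.cons (nat_lit 1932) (.cons (nat_lit 2062) (.cons (nat_lit 51211) Uxp11n3733 .nil) (.cons (nat_lit 2066) (.cons (nat_lit 2060) (.cons (nat_lit 2185) (.cons (nat_lit 2188) (.cons (nat_lit 2318) (.cons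 (nat_lit 51467) Uxp11n3879 .nil) .nil) .nil) .nil) .nil) .nil)) .nil) Uxp11n3973) .nil) .nil)) .nil) Uxp11n3979) .nil) .nil) .nil) .nil)) .nil) .nil) .nil) .nil)) .nil) .nil) .nil) .nil)) .nil) .nil) .nil) .nil) .nil) .nil) (.cons (nat_lit 540) (.cons (nat_lit 666) (.cons (nat_lit 8851) (.cons (nat_lit 532) (.cons (nat_lit 790) (.cons (nat_lit 25363) (.cons (nat_lit 788) (.cons (nat_lit 918) (.cons (nat_lit 916) (.cons (nat_lit 1042) (.cons (nat_lit 1036) (.cons (nat_lit 1161) (.cons (nat_lit 1164) (.cons (nat_lit 1290) Uxp11n4063 .nil) .nil) (.cons (nat_lit 1170) (.cons (nat_lit 1164) (.cons (nat_lit 1290) (.cons (nat_lit 1284) (.cons (nat_lit 1414) (.cons (nat_lit 1411) (.cons (nat_lit 58755) (.cons (nat_lit 5) .nil .nil) .nil) .nil) (.cons (nat_lit 1417) (.cons (nat_lit 1420) (.cons (nat_lit 1546) Uxp11n4055 .nil) .nil) (.cons (nat_lit 1426) (.cons (nat_lit 1420) (.cons (nat_lit 1546) (.cons (nat_lit 1540)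 (.cons (nat_lit 1670) (.cons (nat_lit 1667) (.cons (nat_lit 59011) (.cons (nat_lit 5) .nil .nil) .nil) .nil) .nil) .nil) .nil) .nil) .nil))) .nil) (.cons (nat_lit 1297) (.cons (nat_lit 1300) Uxp11n4060 .nil) .nil)) .nil) .nil)) .nil) (.cons (nat_lit 1041) (.cons (nat_lit 1044) (.cons (nat_lit 1170) (.cons (nat_lit 1164) (.cons (nat_lit 1290) Uxp11n4063 (.cons (nat_lit 1297) (.cons (nat_lit 1300) (.cons (nat_lit 1426) (.cons (nat_lit 1420) (.cons (nat_lit 1546) Uxp11n4050 (.cons (nat_lit 1553) (.cons (nat_lit 1556) (.cons (nat_lit 1682) (.cons (nat_lit 1676) (.cons (nat_lit 1802) Uxp11n4042 (.cons (nat_lit 1809) (.cons (nat_lit 1812) (.cons (nat_lit 1938) Uxp11n4039 .nil) .nil) .nil)) .nil) .nil) .nil) .nil)) .nil) .nil) .nil) .nil)) .nil) .nil) .nil) .nil)) .nil) .nil) .nil) .nil) .nil) .nil) .nil) .nil) .nil)) .nil)))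
def Uxp11n4122 : PT := (.cons (nat_lit 9099) (.cons (nat_lit 908) (.cons (nat_lit 1038) (.cons (nat_lit 1036) (.cons (nat_lit 1166) (.cons (nat_lit 1164) (.cons (nat_lit 1289) Uxp11n3792 (.cons (nat_lit 1298) Uxp11n3792 .nil)) .nil) .nil) .nil) .nil) .nil) .nil)
def Uxp11n4129 : PT := (.cons (nat_lit 9355) (.cons (nat_lit 1164) (.cons (nat_lit 1294) (.cons (nat_lit 1292) (.cons (nat_lit 1422) (.cons (nat_lit 1420) (.cons (nat_lit 1545) Uxp11n3808 (.cons (nat_lit 1554) Uxp11n3808 .nil)) .nil) .nil) .nil) .nil) .nil) .nil)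
def Uxp11n4138 : PT := (.cons (nat_lit 1804) (.cons (nat_lit 1934) (.cons (nat_lit 1931) (.cons (nat_lit 1932) (.cons (nat_lit 2058) (.cons (nat_lit 2052) (.cons (nat_lit 2182) (.cons (nat_lit 100483) (.cons (nat_lit 108675) (.cons (nat_lit 5) .nil .nil) .nil) .nil) .nil) .nil) .nil) .nil) .nil) .nil) .nil)
def Uxp11n4147 : PT := (.cons (nat_lit 1292) (.cons (nat_lit 1422) (.cons (nat_lit 9611) (.cons (nat_lit 1420) (.cons (nat_lit 1550) (.cons (nat_lit 1548) (.cons (nat_lit 1678) (.cons (nat_lit 1676) (.cons (nat_lit 1801) Uxp11n4138 .nil) .nil) .nil) .nil) .nil) .nil) .nil) .nil) .nil)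
def Uxp11n4156 : PT := (.cons (nat_lit 1042) (.cons (nat_lit 1036) (.cons (nat_lit 1166) Uxp11n4129 (.cons (nat_lit 1169) (.cons (nat_lit 1172) (.cons (nat_lit 1298) Uxp11n4147 .nil) .nil) (.cons (nat_lit 1170) (.cons (nat_lit 1164) (.cons (nat_lit 1289) Uxp11n4147 .nil) .nil) .nil))) .nil) .nil)
def Uxp11n4168 : PT := (.cons (nat_lit 1036) (.cons (nat_lit 1166) (.cons (nat_lit 9355) (.cons (nat_lit 1164) (.cons (nat_lit 1294) (.cons (nat_lit 1292) (.cons (nat_lit 1422) (.cons (nat_lit 1420) (.cons (nat_lit 1545) Uxp11n3808 .nil) .nil) .nil) .nil) .nil) .nil) .nil) .nil) .nil)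
def Uxp11n4172 : PT := (.cons (nat_lit 914) (.cons (nat_lit 908) (.cons (nat_lit 1033) (.cons (nat_lit 1036) (.cons (nat_lit 1166) Uxp11n4129 (.cons (nat_lit 1170) (.cons (nat_lit 1164) (.cons (nat_lit 1289) Uxp11n4147 .nil) .nil) .nil)) .nil) (.cons (nat_lit 1042) Uxp11n4168 .nil)) .nil) .nil)
def Uxp11n4175 : PT := (.cons (nat_lit 780) (.cons (nat_lit 910) Uxp11n4122 (.cons (nat_lit 913) (.cons (nat_lit 916) Uxp11n4156 .nil) Uxp11n4172)) .nil)
def Uxp11n4254 : PT := (.cons (nat_lit 282) (.cons (nat_lit 276) (.cons (nat_lit 406) (.cons (nat_lit 8595) (.cons (nat_lit 404) (.cons (nat_lit 534) (.cons (nat_lit 532) (.cons (nat_lit 662) (.cons (nat_lit 660) (.cons (nat_lit 786) (.cons (nat_lit 780) (.cons (nat_lit 910) (.cons (nat_lit 907) (.cons (nat_lit 908) (.cons (nat_lit 1034) (.cons (nat_lit 1028) (.cons (nat_lit 1158) (.cons (nat_lit 33923) (.cons (nat_lit 42115) (.cons (nat_lit 5) .nil .nil) .nil) .nil)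 .nil) .nil) .nil) .nil) .nil) .nil) .nil) .nil) .nil) .nil) .nil) .nil) .nil) (.cons (nat_lit 404) (.cons (nat_lit 530) (.cons (nat_lit 524) (.cons (nat_lit 654) (.cons (nat_lit 652) (.cons (nat_lit 782) (.cons (nat_lit 780) (.cons (nat_lit 906) (.cons (nat_lit 25475) (.cons (nat_lit 772) (.cons (nat_lit 1030) (.cons (nat_lit 41987) (.cons (nat_lit 1028) (.cons (nat_lit 1158) (.cons (nat_lit 1155) (.cons (nat_lit 9347) (.cons (nat_lit 5) .nil .nil) .nil) .nil) .nil) .nil) .nil) .nil) .nil) .nil) .nil) .nil) .nil) (.cons (nat_lit 25227) (.cons (nat_lit 652) (.cons (nat_lit 782) (.cons (nat_lit 780) (.cons (nat_lit 910) (.cons (nat_lit 907) (.cons (nat_lit 908) (.cons (nat_lit 1038) (.cons (nat_lit 50187) (.cons (nat_lit 1036) (.cons (nat_lit 1162) (.cons (nat_lit 9347) (.cons (nat_lit 5) .nil .nil) .nil) .nil) .nil) .nil) .nil) .nil) .nil) .nil) .nil) .nil) .nil) .nil)) (.cons (nat_lit 657) (.cons (nat_lit 660)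 (.cons (nat_lit 786) Uxp11n3712 .nil) .nil) (.cons (nat_lit 658) (.cons (nat_lit 652) (.cons (nat_lit 777) (.cons (nat_lit 780) (.cons (nat_lit 910) Uxp11n3665 Uxp11n3709) .nil) (.cons (nat_lit 786) (.cons (nat_lit 780) (.cons (nat_lit 910) Uxp11n3665 (.cons (nat_lit 913) (.cons (nat_lit 916) (.cons (nat_lit 1042) (.cons (nat_lit 1036) (.cons (nat_lit 1166) Uxp11n3677 .nil) .nil) .nil) .nil) (.cons (nat_lit 914) (.cons (nat_lit 908) (.cons (nat_lit 1033) (.cons (nat_lit 1036) (.cons (nat_lit 1166) Uxp11n3677 .nil) .nil) .nil) .nil) .nil))) .nil) .nil)) .nil) .nil))) .nil) (.cons (nat_lit 529) (.cons (nat_lit 532) (.cons (nat_lit 658) (.cons (nat_lit 652) (.cons (nat_lit 777) (.cons (nat_lit 780) (.cons (nat_lit 910) Uxp11n3665 (.cons (nat_lit 922) (.cons (nat_lit 916) (.cons (nat_lit 1042) Uxp11n3699 (.cons (nat_lit 1041) (.cons (nat_lit 1044) Uxp11n3752 .nil) .nil)) .nil) .nil)) .nil) (.cons (nat_lit 786) Uxp11n3712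 .nil)) .nil) .nil) .nil) .nil)) .nil)) (.cons (nat_lit 409) (.cons (nat_lit 412) (.cons (nat_lit 538) (.cons (nat_lit 532) (.cons (nat_lit 662) Uxp11n3783 (.cons (nat_lit 665) (.cons (nat_lit 668) (.cons (nat_lit 794) (.cons (nat_lit 788) (.cons (nat_lit 918) Uxp11n3799 (.cons (nat_lit 921) (.cons (nat_lit 924) (.cons (nat_lit 1050) Uxp11n3817 .nil) .nil) (.cons (nat_lit 922) (.cons (nat_lit 916) (.cons (nat_lit 1041) Uxp11n3817 .nil) .nil) .nil))) .nil) .nil) .nil) Uxp11n3835)) .nil) .nil) .nil) (.cons (nat_lit 410) (.cons (nat_lit 404) (.cons (nat_lit 529) (.cons (nat_lit 532) (.cons (nat_lit 662) Uxp11n3783 Uxp11n3835) .nil) (.cons (nat_lit 538) (.cons (nat_lit 532) (.cons (nat_lit 662) Uxp11n3783 (.cons (nat_lit 665) (.cons (nat_lit 668) (.cons (nat_lit 794) (.cons (nat_lit 788) (.cons (nat_lit 918) Uxp11n3799 .nil) .nil) .nil) .nil) (.cons (nat_lit 666) (.cons (nat_lit 660) (.cons (nat_lit 785) (.cons (nat_lit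 788) (.cons (nat_lit 918) Uxp11n3799 .nil) .nil) .nil) .nil) .nil))) .nil) .nil)) .nil) .nil))) .nil) (.cons (nat_lit 281) (.cons (nat_lit 284) (.cons (nat_lit 414) (.cons (nat_lit 412) Uxp11n4114 .nil) (.cons (nat_lit 410) (.cons (nat_lit 404) (.cons (nat_lit 529) (.cons (nat_lit 532) (.cons (nat_lit 662) Uxp11n3783 (.cons (nat_lit 666) (.cons (nat_lit 660) (.cons (nat_lit 786) Uxp11n4175 (.cons (nat_lit 785) (.cons (nat_lit 788) (.cons (nat_lit 914) (.cons (nat_lit 908) (.cons (nat_lit 1033) (.cons (nat_lit 1036) (.cons (nat_lit 1166) Uxp11n4129 (.cons (nat_lit 1170) (.cons (nat_lit 1164) (.cons (nat_lit 1289) (.cons (nat_lit 1292) (.cons (nat_lit 1422) (.cons (nat_lit 9611) (.cons (nat_lit 1420) (.cons (nat_lit 1550) (.cons (nat_lit 1548) (.cons (nat_lit 1678) (.cons (nat_lit 1676) (.cons (nat_lit 1801) Uxp11n4138 (.cons (nat_lit 1810) Uxp11n4138 .nil)) .nil) .nil) .nil) .nil) .nil) .nil) (.cons (nat_lit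 1426) (.cons (nat_lit 1420) (.cons (nat_lit 1545) (.cons (nat_lit 1548) (.cons (nat_lit 1678) (.cons (nat_lit 9867) (.cons (nat_lit 1676) (.cons (nat_lit 1806) (.cons (nat_lit 1804) (.cons (nat_lit 1934) (.cons (nat_lit 1932) (.cons (nat_lit 2057) (.cons (nat_lit 2060) (.cons (nat_lit 2190) (.cons (nat_lit 2187) (.cons (nat_lit 2188) (.cons (nat_lit 2314) (.cons (nat_lit 2308) (.cons (nat_lit 2438) (.cons (nat_lit 117123) (.cons (nat_lit 125315) (.cons (nat_lit 5) .nil .nil) .nil) .nil) .nil) .nil) .nil) .nil) .nil) .nil) .nil) .nil) .nil) .nil) .nil) .nil) .nil) .nil) .nil) .nil) .nil) .nil) .nil)) .nil) (.cons (nat_lit 1298) Uxp11n4147 .nil)) .nil) .nil)) .nil) Uxp11n4156) .nil) .nil) .nil) .nil)) .nil) .nil)) .nil) (.cons (nat_lit 530) (.cons (nat_lit 524) (.cons (nat_lit 654) (.cons (nat_lit 8843) (.cons (nat_lit 652) (.cons (nat_lit 782) (.cons (nat_lit 780) (.cons (nat_lit 910) (.cons (nat_lit 908) (.cons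 (nat_lit 1033) Uxp11n3776 (.cons (nat_lit 1042) Uxp11n3776 .nil)) .nil) .nil) .nil) .nil) .nil) .nil) (.cons (nat_lit 657) (.cons (nat_lit 660) (.cons (nat_lit 786) Uxp11n4175 .nil) .nil) (.cons (nat_lit 658) (.cons (nat_lit 652) (.cons (nat_lit 777) (.cons (nat_lit 780) (.cons (nat_lit 910) Uxp11n4122 Uxp11n4172) .nil) (.cons (nat_lit 786) (.cons (nat_lit 780) (.cons (nat_lit 910) Uxp11n4122 (.cons (nat_lit 913) (.cons (nat_lit 916) (.cons (nat_lit 1042) Uxp11n4168 .nil) .nil) (.cons (nat_lit 914) (.cons (nat_lit 908) (.cons (nat_lit 1033) Uxp11n4168 .nil) .nil) .nil))) .nil) .nil)) .nil) .nil))) .nil) .nil)) .nil) .nil)) .nil) .nil))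
def Uxp11n4258 : PT := (.cons (nat_lit 146) (.cons (nat_lit 140) (.cons (nat_lit 266) (.cons (nat_lit 259) (.cons (nat_lit 5) .nil .nil) (.cons (nat_lit 276) (.cons (nat_lit 402) (.cons (nat_lit 396) (.cons (nat_lit 522) (.cons (nat_lit 515) (.cons (nat_lit 5) .nil .nil) (.cons (nat_lit 532) (.cons (nat_lit 658) (.cons (nat_lit 652) (.cons (nat_lit 778) (.cons (nat_lit 771) (.cons (nat_lit 5) .nil .nil) .nil) (.cons (nat_lit 782) (.cons (nat_lit 780) (.cons (nat_lit 906) (.cons (nat_lit 900) (.cons (nat_lit 1025) Uxp11n5 .nil) .nil) (.cons (nat_lit 905) (.cons (nat_lit 908) (.cons (nat_lit 1034) Uxp11n5 .nil) .nil) .nil)) .nil) .nil)) .nil) (.cons (nat_lit 662) (.cons (nat_lit 660) (.cons (nat_lit 786) (.cons (nat_lit 780) (.cons (nat_lit 905) (.cons (nat_lit 908) (.cons (nat_lit 1038) (.cons (nat_lit 41995) Uxp11n18 .nil) .nil) .nil) (.cons (nat_lit 910) (.cons (nat_lit 908) (.cons (nat_lit 1033) Uxp11n35 .nil)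 .nil) .nil)) .nil) (.cons (nat_lit 785) (.cons (nat_lit 788) (.cons (nat_lit 914) (.cons (nat_lit 908) (.cons (nat_lit 1038) (.cons (nat_lit 41995) Uxp11n18 .nil) .nil) .nil) (.cons (nat_lit 918) (.cons (nat_lit 916) (.cons (nat_lit 1042) Uxp11n35 .nil) .nil) .nil)) .nil) (.cons (nat_lit 790) (.cons (nat_lit 787) (.cons (nat_lit 788) (.cons (nat_lit 913) Uxp11n60 (.cons (nat_lit 914) (.cons (nat_lit 908) (.cons (nat_lit 1038) (.cons (nat_lit 1036) (.cons (nat_lit 1161) Uxp11n56 .nil) .nil) .nil) .nil) .nil)) .nil) .nil) .nil))) .nil) (.cons (nat_lit 657) (.cons (nat_lit 660) (.cons (nat_lit 790) (.cons (nat_lit 788) (.cons (nat_lit 914) (.cons (nat_lit 908) (.cons (nat_lit 1034) Uxp11n5 .nil) .nil) .nil) .nil) .nil) .nil) .nil))) .nil)) (.cons (nat_lit 526) (.cons (nat_lit 524) (.cons (nat_lit 650) (.cons (nat_lit 644) (.cons (nat_lit 769) (.cons (nat_lit 772) (.cons (nat_lit 902) Uxp11n86 (.cons (nat_lit 914)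 (.cons (nat_lit 908) (.cons (nat_lit 1034) Uxp11n90 (.cons (nat_lit 1033) (.cons (nat_lit 1036) (.cons (nat_lit 1162) (.cons (nat_lit 1156) (.cons (nat_lit 1281) Uxp11n94 .nil) .nil) .nil) .nil) .nil)) .nil) .nil)) .nil) (.cons (nat_lit 778) (.cons (nat_lit 772) (.cons (nat_lit 902) (.cons (nat_lit 899) (.cons (nat_lit 33667) (.cons (nat_lit 5) .nil .nil) .nil) .nil) (.cons (nat_lit 906) (.cons (nat_lit 900) (.cons (nat_lit 1025) Uxp11n90 .nil) .nil) (.cons (nat_lit 905) (.cons (nat_lit 908) (.cons (nat_lit 1034) Uxp11n90 .nil) .nil) .nil))) .nil) (.cons (nat_lit 790) (.cons (nat_lit 788) (.cons (nat_lit 913) Uxp11n129 .nil) .nil) .nil))) .nil) (.cons (nat_lit 649) (.cons (nat_lit 652) (.cons (nat_lit 778) (.cons (nat_lit 772) (.cons (nat_lit 902) Uxp11n86 (.cons (nat_lit 906) Uxp11n139 (.cons (nat_lit 913) (.cons (nat_lit 916) (.cons (nat_lit 1042) (.cons (nat_lit 1036) Uxp11n142 .nil) .nil) .nil) .nil))) .nil)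 (.cons (nat_lit 798) (.cons (nat_lit 796) (.cons (nat_lit 922) Uxp11n129 .nil) .nil) .nil)) .nil) (.cons (nat_lit 670) (.cons (nat_lit 668) (.cons (nat_lit 793) (.cons (nat_lit 796) (.cons (nat_lit 926) Uxp11n168 .nil) .nil) (.cons (nat_lit 794) (.cons (nat_lit 787) (.cons (nat_lit 660) (.cons (nat_lit 914) (.cons (nat_lit 908) (.cons (nat_lit 1038) (.cons (nat_lit 1036) (.cons (nat_lit 1161) Uxp11n175 .nil) .nil) .nil) .nil) .nil) .nil) .nil) .nil)) .nil) .nil))) .nil) (.cons (nat_lit 529) (.cons (nat_lit 532) (.cons (nat_lit 658) (.cons (nat_lit 652) (.cons (nat_lit 782) Uxp11n205 (.cons (nat_lit 785) (.cons (nat_lit 788) (.cons (nat_lit 914) (.cons (nat_lit 908) Uxp11n217 .nil) Uxp11n268) .nil) .nil)) .nil) (.cons (nat_lit 662) (.cons (nat_lit 660) (.cons (nat_lit 786) (.cons (nat_lit 780) Uxp11n277 .nil) (.cons (nat_lit 785) (.cons (nat_lit 788) (.cons (nat_lit 918) (.cons (nat_lit 916) (.cons (nat_lit 1042)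 Uxp11n35 .nil) .nil) .nil) .nil) (.cons (nat_lit 790) (.cons (nat_lit 787) Uxp11n286 .nil) .nil))) .nil) .nil)) .nil) .nil))) .nil) Uxp11n640) .nil)) Uxp11n1457) .nil) (.cons (nat_lit 145) (.cons (nat_lit 148) (.cons (nat_lit 274) (.cons (nat_lit 268) (.cons (nat_lit 394) (.cons (nat_lit 388) Uxp11n2222 .nil) (.cons (nat_lit 393) (.cons (nat_lit 396) (.cons (nat_lit 522) (.cons (nat_lit 515) (.cons (nat_lit 5) .nil .nil) (.cons (nat_lit 532) Uxp11n2823 .nil)) (.cons (nat_lit 542) (.cons (nat_lit 540) Uxp11n3055 .nil) .nil)) .nil) (.cons (nat_lit 406) (.cons (nat_lit 404) Uxp11n3260 .nil) .nil))) .nil) (.cons (nat_lit 286) (.cons (nat_lit 284) Uxp11n3611 .nil) .nil)) .nil) (.cons (nat_lit 158) (.cons (nat_lit 156) Uxp11n4254 .nil) .nil)))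
def Uxt11 : PT := (.cons (nat_lit 20) Uxp11n4258 .nil)
def Uxp11 : Prog := ⟨955, 7, 2, 0, Uxt11, 0, dt0⟩

end Pool.Agent.Hom2.UC
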