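import Pool.Agent.Lib.MP_7e4769_co.Hc.UDb

set_option autoImplicit false
set_option maxRecDepth 100000

namespace Pool.Agent.Hom2.UC

def Uxp12n5 : PT := (.cons (nat_lit 1028) (.cons (nat_lit 1158) (.cons (nat_lit 1155) (.cons (nat_lit 50307) (.cons (nat_lit 5) .nil .nil) .nil) .nil) .nil) .nil)
def Uxp12n18 : PT := (.cons (nat_lit 1036) (.cons (nat_lit 1162) (.cons (nat_lit 1155) (.cons (nat_lit 5) .nil .nil) .nil) .nil) .nil)
def Uxp12n35 : PT := (.cons (nat_lit 1036) (.cons (nat_lit 1166) (.cons (nat_lit 1164) (.cons (nat_lit 1294) (.cons (nat_lit 1292) (.cons (nat_lit 1418) (.cons (nat_lit 58755) (.cons (nat_lit 1284) (.cons (nat_lit 1542) (.cons (nat_lit 75267) (.cons (nat_lit 1540) (.cons (nat_lit 1670) (.cons (nat_lit 1667) (.cons (nat_lit 42627) (.cons (nat_lit 5) .nil .nil) .nil) .nil) .nil) .nil) .nil) .nil) .nil) .nil) .nil) .nil) .nil) .nil) .nil) .nil)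
def Uxp12n51 : PT := (.cons (nat_lit 1420) (.cons (nat_lit 1550) (.cons (nat_lit 83467) (.cons (nat_lit 1548) (.cons (nat_lit 1674) (.cons (nat_lit 67203) (.cons (nat_lit 5) .nil .nil) .nil) .nil) .nil) .nil) .nil) .nil)
def Uxp12n56 : PT := (.cons (nat_lit 1164) (.cons (nat_lit 1294) (.cons (nat_lit 1292) (.cons (nat_lit 1422) (.cons (nat_lit 42379) Uxp12n51 .nil) .nil) .nil) .nil) .nil)
def Uxp12n60 : PT := (.cons (nat_lit 916) (.cons (nat_lit 1046) (.cons (nat_lit 1044) (.cons (nat_lit 1170) Uxp12n56 .nil) .nil) .nil) .nil)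
def Uxp12n86 : PT := (.cons (nat_lit 899) (.cons (nat_lit 33667) (.cons (nat_lit 5) .nil .nil) .nil) (.cons (nat_lit 33683) (.cons (nat_lit 916) (.cons (nat_lit 1042) Uxp12n18 .nil) .nil) .nil))
def Uxp12n90 : PT := (.cons (nat_lit 1028) (.cons (nat_lit 1158) (.cons (nat_lit 1155) (.cons (nat_lit 33923) (.cons (nat_lit 5) .nil .nil) .nil) .nil) .nil) .nil)
def Uxp12n94 : PT := (.cons (nat_lit 1284) (.cons (nat_lit 1414) (.cons (nat_lit 1411) (.cons (nat_lit 34179) (.cons (nat_lit 5) .nil .nil) .nil) .nil) .nil) .nil)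
def Uxp12n116 : PT := (.cons (nat_lit 1548) (.cons (nat_lit 1674) (.cons (nat_lit 1667) (.cons (nat_lit 5) .nil .nil) .nil) .nil) .nil)
def Uxp12n129 : PT := (.cons (nat_lit 916) (.cons (nat_lit 1046) (.cons (nat_lit 1044) (.cons (nat_lit 1174) (.cons (nat_lit 1172) (.cons (nat_lit 1298) (.cons (nat_lit 50443) (.cons (nat_lit 1164) (.cons (nat_lit 1422) (.cons (nat_lit 66955) (.cons (nat_lit 1420) (.cons (nat_lit 1550) (.cons (nat_lit 34315) Uxp12n116 .nil) .nil) .nil) .nil) .nil) .nil) .nil) .nil) .nil) .nil) .nil) .nil) .nil)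
def Uxp12n139 : PT := (.cons (nat_lit 900) (.cons (nat_lit 1025) (.cons (nat_lit 1028) (.cons (nat_lit 1158) (.cons (nat_lit 1155) (.cons (nat_lit 33923) (.cons (nat_lit 5) .nil .nil) .nil) .nil) (.cons (nat_lit 1162) (.cons (nat_lit 1156) (.cons (nat_lit 1281) Uxp12n94 .nil) .nil) .nil)) .nil) (.cons (nat_lit 1034) Uxp12n90 .nil)) .nil)
def Uxp12n142 : PT := (.cons (nat_lit 1161) (.cons (nat_lit 1164) (.cons (nat_lit 1290) Uxp12n94 .nil) .nil) (.cons (nat_lit 1162) (.cons (nat_lit 1156) (.cons (nat_lit 1281) Uxp12n94 .nil) .nil) .nil))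
def Uxp12n168 : PT := (.cons (nat_lit 924) (.cons (nat_lit 1050) (.cons (nat_lit 1044) (.cons (nat_lit 1174) (.cons (nat_lit 1172) (.cons (nat_lit 1302) (.cons (nat_lit 34067) (.cons (nat_lit 1300) (.cons (nat_lit 1430) (.cons (nat_lit 75155) (.cons (nat_lit 1428) (.cons (nat_lit 1554) (.cons (nat_lit 58891) (.cons (nat_lit 652) (.cons (nat_lit 1674) (.cons (nat_lit 1667) (.cons (nat_lit 5) .nil .nil) .nil) .nil) .nil) .nil) .nil) .nil) .nil) .nil) .nil) .nil) .nil) .nil) .nil) .nil) .nil) .nil)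
def Uxp12n175 : PT := (.cons (nat_lit 1164) (.cons (nat_lit 1294) (.cons (nat_lit 1292) (.cons (nat_lit 1422) (.cons (nat_lit 34187) Uxp12n51 .nil) .nil) .nil) .nil) .nil)
def Uxp12n193 : PT := (.cons (nat_lit 1284) (.cons (nat_lit 1414) (.cons (nat_lit 1411) (.cons (nat_lit 50563) (.cons (nat_lit 5) .nil .nil) .nil) .nil) .nil) .nil)
def Uxp12n200 : PT := (.cons (nat_lit 908) (.cons (nat_lit 1034) (.cons (nat_lit 1028) (.cons (nat_lit 1158) (.cons (nat_lit 1155) (.cons (nat_lit 50307) (.cons (nat_lit 5) .nil .nil) .nil) .nil) (.cons (nat_lit 1162) (.cons (nat_lit 1156) (.cons (nat_lit 1281) Uxp12n193 .nil) .nil) .nil)) .nil) .nil) .nil)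
def Uxp12n205 : PT := (.cons (nat_lit 780) (.cons (nat_lit 905) Uxp12n200 (.cons (nat_lit 906) (.cons (nat_lit 900) (.cons (nat_lit 1025) Uxp12n5 (.cons (nat_lit 1034) Uxp12n5 .nil)) .nil) .nil)) .nil)
def Uxp12n209 : PT := (.cons (nat_lit 1284) (.cons (nat_lit 1414) (.cons (nat_lit 1411) (.cons (nat_lit 66947) (.cons (nat_lit 5) .nil .nil) .nil) .nil) .nil) .nil)
def Uxp12n217 : PT := (.cons (nat_lit 1038) (.cons (nat_lit 1036) (.cons (nat_lit 1161) (.cons (nat_lit 1164) (.cons (nat_lit 1290) Uxp12n209 .nil) .nil) (.cons (nat_lit 1162) (.cons (nat_lit 1156) (.cons (nat_lit 1281) Uxp12n209 .nil) .nil) .nil)) .nil) .nil)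
def Uxp12n222 : PT := (.cons (nat_lit 1796) (.cons (nat_lit 1926) (.cons (nat_lit 1923) (.cons (nat_lit 59267) (.cons (nat_lit 5) .nil .nil) .nil) .nil) .nil) .nil)
def Uxp12n232 : PT := (.cons (nat_lit 1292) (.cons (nat_lit 1422) (.cons (nat_lit 1420) (.cons (nat_lit 1550) (.cons (nat_lit 1548) (.cons (nat_lit 1674) (.cons (nat_lit 75395) (.cons (nat_lit 1540) (.cons (nat_lit 1798) (.cons (nat_lit 91907) Uxp12n222 .nil) .nil) .nil) .nil) .nil) .nil) .nil) .nil) .nil) .nil)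
def Uxp12n236 : PT := (.cons (nat_lit 1044) (.cons (nat_lit 1174) (.cons (nat_lit 1172) (.cons (nat_lit 1298) Uxp12n232 .nil) .nil) .nil) .nil)
def Uxp12n242 : PT := (.cons (nat_lit 1676) (.cons (nat_lit 1806) (.cons (nat_lit 100107) (.cons (nat_lit 1804) (.cons (nat_lit 1930) (.cons (nat_lit 83843) (.cons (nat_lit 5) .nil .nil) .nil) .nil) .nil) .nil) .nil) .nil)
def Uxp12n247 : PT := (.cons (nat_lit 1420) (.cons (nat_lit 1550) (.cons (nat_lit 1548) (.cons (nat_lit 1678) (.cons (nat_lit 59019) Uxp12n242 .nil) .nil) .nil) .nil) .nil)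
def Uxp12n251 : PT := (.cons (nat_lit 1172) (.cons (nat_lit 1302) (.cons (nat_lit 1300) (.cons (nat_lit 1426) Uxp12n247 .nil) .nil) .nil) .nil)
def Uxp12n259 : PT := (.cons (nat_lit 1043) (.cons (nat_lit 1044) (.cons (nat_lit 1169) Uxp12n251 (.cons (nat_lit 1170) (.cons (nat_lit 1164) (.cons (nat_lit 1294) (.cons (nat_lit 1292) (.cons (nat_lit 1417) Uxp12n247 .nil) .nil) .nil) .nil) .nil)) .nil) .nil)
def Uxp12n268 : PT := (.cons (nat_lit 918) (.cons (nat_lit 916) (.cons (nat_lit 1041) Uxp12n236 (.cons (nat_lit 1046) Uxp12n259 (.cons (nat_lit 1042) (.cons (nat_lit 1036) (.cons (nat_lit 1166) (.cons (nat_lit 1164) (.cons (nat_lit 1289) Uxp12n232 .nil) .nil) .nil) .nil) .nil))) .nil) .nil)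
def Uxp12n277 : PT := (.cons (nat_lit 914) (.cons (nat_lit 908) (.cons (nat_lit 1038) (.cons (nat_lit 41995) Uxp12n18 .nil) .nil) .nil) (.cons (nat_lit 910) (.cons (nat_lit 908) (.cons (nat_lit 1033) Uxp12n35 (.cons (nat_lit 1042) Uxp12n35 .nil)) .nil) .nil))
def Uxp12n286 : PT := (.cons (nat_lit 788) (.cons (nat_lit 913) Uxp12n60 (.cons (nat_lit 914) (.cons (nat_lit 908) (.cons (nat_lit 1038) (.cons (nat_lit 1036) (.cons (nat_lit 1161) Uxp12n56 (.cons (nat_lit 1170) Uxp12n56 .nil)) .nil) .nil) .nil) .nil)) .nil)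
def Uxp12n301 : PT := (.cons (nat_lit 908) (.cons (nat_lit 1034) (.cons (nat_lit 1027) (.cons (nat_lit 5) .nil .nil) .nil) Uxp12n217) .nil)
def Uxp12n310 : PT := (.cons (nat_lit 1292) (.cons (nat_lit 1418) (.cons (nat_lit 1411) (.cons (nat_lit 5) .nil .nil) .nil) .nil) .nil)
def Uxp12n315 : PT := (.cons (nat_lit 1044) (.cons (nat_lit 1170) (.cons (nat_lit 1164) (.cons (nat_lit 1294) (.cons (nat_lit 58635) Uxp12n310 .nil) .nil) .nil) (.cons (nat_lit 1174) (.cons (nat_lit 1172) (.cons (nat_lit 1298) Uxp12n232 .nil) .nil) .nil)) .nil)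
def Uxp12n321 : PT := (.cons (nat_lit 916) (.cons (nat_lit 1041) Uxp12n315 (.cons (nat_lit 1042) (.cons (nat_lit 1036) (.cons (nat_lit 1161) (.cons (nat_lit 1164) (.cons (nat_lit 1294) (.cons (nat_lit 58635) Uxp12n310 .nil) .nil) .nil) (.cons (nat_lit 1166) (.cons (nat_lit 1164) (.cons (nat_lit 1289) Uxp12n232 .nil) .nil) .nil)) .nil) (.cons (nat_lit 1046) Uxp12n259 .nil))) .nil)
def Uxp12n324 : PT := (.cons (nat_lit 1046) (.cons (nat_lit 1044) (.cons (nat_lit 1170) (.cons (nat_lit 1164) (.cons (nat_lit 1290) Uxp12n209 .nil) .nil) .nil) .nil) .nil)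
def Uxp12n333 : PT := (.cons (nat_lit 1162) (.cons (nat_lit 1156) (.cons (nat_lit 1281) Uxp12n193 .nil) .nil) (.cons (nat_lit 1161) (.cons (nat_lit 1164) (.cons (nat_lit 1290) Uxp12n193 .nil) .nil) .nil))
def Uxp12n339 : PT := (.cons (nat_lit 1540) (.cons (nat_lit 1670) (.cons (nat_lit 1667) (.cons (nat_lit 50819) (.cons (nat_lit 5) .nil .nil) .nil) .nil) .nil) .nil)
def Uxp12n346 : PT := (.cons (nat_lit 1164) (.cons (nat_lit 1290) Uxp12n193 (.cons (nat_lit 1289) (.cons (nat_lit 1292) (.cons (nat_lit 1418) (.cons (nat_lit 1412) (.cons (nat_lit 1537) Uxp12n339 .nil) .nil) .nil) .nil) .nil)) .nil)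
def Uxp12n351 : PT := (.cons (nat_lit 1804) (.cons (nat_lit 1930) (.cons (nat_lit 1923) (.cons (nat_lit 5) .nil .nil) .nil) .nil) .nil)
def Uxp12n364 : PT := (.cons (nat_lit 1172) (.cons (nat_lit 1302) (.cons (nat_lit 1300) (.cons (nat_lit 1430) (.cons (nat_lit 1428) (.cons (nat_lit 1554) (.cons (nat_lit 67083) (.cons (nat_lit 1420) (.cons (nat_lit 1678) (.cons (nat_lit 83595) (.cons (nat_lit 1676) (.cons (nat_lit 1806) (.cons (nat_lit 50955) Uxp12n351 .nil) .nil) .nil) .nil) .nil) .nil) .nil) .nil) .nil) .nil) .nil) .nil) .nil)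
def Uxp12n368 : PT := (.cons (nat_lit 1041) (.cons (nat_lit 1044) (.cons (nat_lit 1170) Uxp12n346 .nil) .nil) (.cons (nat_lit 1046) (.cons (nat_lit 1044) (.cons (nat_lit 1169) Uxp12n364 .nil) .nil) .nil))
def Uxp12n373 : PT := (.cons (nat_lit 1417) (.cons (nat_lit 1420) (.cons (nat_lit 1546) Uxp12n339 .nil) .nil) (.cons (nat_lit 1418) (.cons (nat_lit 1412) (.cons (nat_lit 1537) Uxp12n339 .nil) .nil) .nil))
def Uxp12n377 : PT := (.cons (nat_lit 1169) (.cons (nat_lit 1172) (.cons (nat_lit 1298) (.cons (nat_lit 1292) Uxp12n373 .nil) .nil) .nil) .nil)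
def Uxp12n398 : PT := (.cons (nat_lit 1180) (.cons (nat_lit 1306) (.cons (nat_lit 1300) (.cons (nat_lit 1430) (.cons (nat_lit 1428) (.cons (nat_lit 1558) (.cons (nat_lit 50707) (.cons (nat_lit 1556) (.cons (nat_lit 1686) (.cons (nat_lit 91795) (.cons (nat_lit 1684) (.cons (nat_lit 1810) (.cons (nat_lit 75531) (.cons (nat_lit 908) (.cons (nat_lit 1930) (.cons (nat_lit 1923) (.cons (nat_lit 5) .nil .nil) .nil) .nil) .nil) .nil) .nil) .nil) .nil) .nil) .nil) .nil) .nil) .nil) .nil) .nil) .nil) .nil)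
def Uxp12n405 : PT := (.cons (nat_lit 1420) (.cons (nat_lit 1550) (.cons (nat_lit 1548) (.cons (nat_lit 1678) (.cons (nat_lit 50827) Uxp12n242 .nil) .nil) .nil) .nil) .nil)
def Uxp12n410 : PT := (.cons (nat_lit 1170) (.cons (nat_lit 1164) (.cons (nat_lit 1294) (.cons (nat_lit 1292) (.cons (nat_lit 1417) Uxp12n405 .nil) .nil) .nil) .nil) .nil)
def Uxp12n416 : PT := (.cons (nat_lit 926) (.cons (nat_lit 924) (.cons (nat_lit 1049) (.cons (nat_lit 1052) (.cons (nat_lit 1182) Uxp12n398 .nil) .nil) (.cons (nat_lit 1050) (.cons (nat_lit 1043) (.cons (nat_lit 916) Uxp12n410 .nil) .nil) .nil)) .nil) .nil)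
def Uxp12n417 : PT := (.cons (nat_lit 921) (.cons (nat_lit 924) (.cons (nat_lit 1050) (.cons (nat_lit 1044) (.cons (nat_lit 1170) Uxp12n346 Uxp12n377) .nil) (.cons (nat_lit 1054) (.cons (nat_lit 1052) (.cons (nat_lit 1178) Uxp12n364 .nil) .nil) .nil)) .nil) Uxp12n416)
def Uxp12n427 : PT := (.cons (nat_lit 1036) (.cons (nat_lit 1161) (.cons (nat_lit 1164) (.cons (nat_lit 1294) (.cons (nat_lit 42251) Uxp12n310 .nil) .nil) .nil) .nil) .nil)
def Uxp12n443 : PT := (.cons (nat_lit 1028) (.cons (nat_lit 1158) (.cons (nat_lit 1155) (.cons (nat_lit 33923) (.cons (nat_lit 5) .nil .nil) .nil) .nil) Uxp12n142) .nil)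
def Uxp12n453 : PT := (.cons (nat_lit 1540) (.cons (nat_lit 1670) (.cons (nat_lit 1667) (.cons (nat_lit 34435) (.cons (nat_lit 5) .nil .nil) .nil) .nil) .nil) .nil)
def Uxp12n461 : PT := (.cons (nat_lit 1162) (.cons (nat_lit 1156) (.cons (nat_lit 1281) (.cons (nat_lit 1284) (.cons (nat_lit 1414) (.cons (nat_lit 1411) (.cons (nat_lit 34179) (.cons (nat_lit 5) .nil .nil) .nil) .nil) (.cons (nat_lit 1418) (.cons (nat_lit 1412) (.cons (nat_lit 1537) Uxp12n453 .nil) .nil) .nil)) .nil) (.cons (nat_lit 1290) Uxp12n94 .nil)) .nil) .nil)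
def Uxp12n465 : PT := (.cons (nat_lit 908) (.cons (nat_lit 1034) Uxp12n443 (.cons (nat_lit 1033) (.cons (nat_lit 1036) Uxp12n461 .nil) .nil)) .nil)
def Uxp12n472 : PT := (.cons (nat_lit 1548) (.cons (nat_lit 1674) (.cons (nat_lit 1667) (.cons (nat_lit 5) .nil .nil) .nil) (.cons (nat_lit 1681) (.cons (nat_lit 1684) (.cons (nat_lit 1810) Uxp12n351 .nil) .nil) .nil)) .nil)
def Uxp12n485 : PT := (.cons (nat_lit 916) (.cons (nat_lit 1046) (.cons (nat_lit 1044) (.cons (nat_lit 1174) (.cons (nat_lit 1172) (.cons (nat_lit 1298) (.cons (nat_lit 50443) (.cons (nat_lit 1164) (.cons (nat_lit 1422) (.cons (nat_lit 66955) (.cons (nat_lit 1420) (.cons (nat_lit 1550) (.cons (nat_lit 34315) Uxp12n472 .nil) .nil) .nil) .nil) .nil) .nil) .nil) .nil) .nil) .nil) .nil) .nil) .nil)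
def Uxp12n494 : PT := (.cons (nat_lit 1417) (.cons (nat_lit 1420) (.cons (nat_lit 1546) Uxp12n453 .nil) .nil) (.cons (nat_lit 1418) (.cons (nat_lit 1412) (.cons (nat_lit 1537) Uxp12n453 .nil) .nil) .nil))
def Uxp12n516 : PT := (.cons (nat_lit 914) (.cons (nat_lit 908) (.cons (nat_lit 1038) (.cons (nat_lit 1036) (.cons (nat_lit 1161) Uxp12n175 (.cons (nat_lit 1170) Uxp12n175 .nil)) .nil) .nil) .nil) .nil)
def Uxp12n532 : PT := (.cons (nat_lit 25355) (.cons (nat_lit 780) (.cons (nat_lit 906) (.cons (nat_lit 899) (.cons (nat_lit 5) .nil .nil) .nil) .nil) .nil) .nil)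
def Uxp12n541 : PT := (.cons (nat_lit 1042) (.cons (nat_lit 1036) (.cons (nat_lit 1161) (.cons (nat_lit 1164) (.cons (nat_lit 1294) (.cons (nat_lit 25867) Uxp12n310 .nil) .nil) .nil) .nil) .nil) .nil)
def Uxp12n551 : PT := (.cons (nat_lit 914) (.cons (nat_lit 908) (.cons (nat_lit 1038) (.cons (nat_lit 25611) Uxp12n18 .nil) .nil) .nil) .nil)
def Uxp12n573 : PT := (.cons (nat_lit 780) (.cons (nat_lit 910) (.cons (nat_lit 908) (.cons (nat_lit 1038) (.cons (nat_lit 1036) (.cons (nat_lit 1162) (.cons (nat_lit 42115) (.cons (nat_lit 1028) (.cons (nat_lit 1286) (.cons (nat_lit 58627) (.cons (nat_lit 1284) (.cons (nat_lit 1414) (.cons (nat_lit 1411) (.cons (nat_lit 25987) (.cons (nat_lit 5) .nil .nil) .nil) (.cons (nat_lit 26003) (.cons (nat_lit 1428) (.cons (nat_lit 1554) Uxp12n116 .nil) .nil) .nil)) .nil) .nil) .nil) .nil) .nil) .nil) .nil) .nil) .nil) .nil) .nil) .nil)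
def Uxp12n598 : PT := (.cons (nat_lit 1170) (.cons (nat_lit 1164) (.cons (nat_lit 1294) (.cons (nat_lit 25867) Uxp12n310 .nil) .nil) .nil) .nil)
def Uxp12n617 : PT := (.cons (nat_lit 1164) (.cons (nat_lit 1294) (.cons (nat_lit 66827) (.cons (nat_lit 1292) (.cons (nat_lit 1418) (.cons (nat_lit 50563) (.cons (nat_lit 5) .nil .nil) .nil) .nil) .nil) .nil) .nil) .nil)
def Uxp12n622 : PT := (.cons (nat_lit 908) (.cons (nat_lit 1038) (.cons (nat_lit 1036) (.cons (nat_lit 1166) (.cons (nat_lit 25739) Uxp12n617 .nil) .nil) .nil) .nil) .nil)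
def Uxp12n631 : PT := (.cons (nat_lit 658) (.cons (nat_lit 652) (.cons (nat_lit 782) (.cons (nat_lit 780) (.cons (nat_lit 905) Uxp12n622 (.cons (nat_lit 914) Uxp12n622 .nil)) .nil) .nil) .nil) .nil)
def Uxp12n640 : PT := (.cons (nat_lit 401) (.cons (nat_lit 404) (.cons (nat_lit 538) (.cons (nat_lit 532) (.cons (nat_lit 658) (.cons (nat_lit 652) (.cons (nat_lit 778) (.cons (nat_lit 771) (.cons (nat_lit 5) .nil .nil) .nil) (.cons (nat_lit 785) (.cons (nat_lit 788) (.cons (nat_lit 914) Uxp12n301 Uxp12n268) .nil) (.cons (nat_lit 782) Uxp12n205 .nil))) .nil) (.cons (nat_lit 657) (.cons (nat_lit 660) (.cons (nat_lit 794) (.cons (nat_lit 788) (.cons (nat_lit 914) Uxp12n301 (.cons (nat_lit 918) Uxp12n321 (.cons (nat_lit 913) (.cons (nat_lit 916) Uxp12n324 .nil) .nil))) .nil) (.cons (nat_lit 790) (.cons (nat_lit 788) (.cons (nat_lit 914) (.cons (nat_lit 908) (.cons (nat_lit 1034) (.cons (nat_lit 1028) (.cons (nat_lit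 1158) (.cons (nat_lit 1155) (.cons (nat_lit 50307) (.cons (nat_lit 5) .nil .nil) .nil) .nil) Uxp12n333) .nil) Uxp12n368) .nil) Uxp12n417) .nil) .nil)) .nil) (.cons (nat_lit 662) (.cons (nat_lit 660) (.cons (nat_lit 785) (.cons (nat_lit 788) (.cons (nat_lit 914) (.cons (nat_lit 908) (.cons (nat_lit 1038) (.cons (nat_lit 41995) Uxp12n18 .nil) (.cons (nat_lit 1042) Uxp12n427 .nil)) .nil) (.cons (nat_lit 918) (.cons (nat_lit 916) (.cons (nat_lit 1042) Uxp12n35 .nil) .nil) .nil)) .nil) (.cons (nat_lit 786) (.cons (nat_lit 780) (.cons (nat_lit 905) (.cons (nat_lit 908) (.cons (nat_lit 1038) (.cons (nat_lit 41995) Uxp12n18 .nil) .nil) .nil) Uxp12n277) .nil) (.cons (nat_lit 790) (.cons (nat_lit 787) Uxp12n286 .nil) .nil))) .nil) .nil))) .nil) (.cons (nat_lit 534) (.cons (nat_lit 532) (.cons (nat_lit 658) (.cons (nat_lit 652) (.cons (nat_lit 778) (.cons (nat_lit 772) (.cons (nat_lit 902) Uxp12n86 (.cons (nat_lit 905)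 (.cons (nat_lit 908) (.cons (nat_lit 1034) Uxp12n443 .nil) .nil) (.cons (nat_lit 906) Uxp12n139 .nil))) .nil) (.cons (nat_lit 785) (.cons (nat_lit 788) (.cons (nat_lit 914) Uxp12n465 .nil) .nil) (.cons (nat_lit 790) (.cons (nat_lit 788) (.cons (nat_lit 913) Uxp12n485 (.cons (nat_lit 922) Uxp12n129 .nil)) .nil) .nil))) .nil) (.cons (nat_lit 665) (.cons (nat_lit 668) (.cons (nat_lit 794) (.cons (nat_lit 788) (.cons (nat_lit 914) Uxp12n465 (.cons (nat_lit 913) (.cons (nat_lit 916) (.cons (nat_lit 1042) (.cons (nat_lit 1036) (.cons (nat_lit 1161) (.cons (nat_lit 1164) (.cons (nat_lit 1290) (.cons (nat_lit 1284) (.cons (nat_lit 1414) (.cons (nat_lit 1411) (.cons (nat_lit 34179) (.cons (nat_lit 5) .nil .nil) .nil) .nil) Uxp12n494) .nil) .nil) .nil) Uxp12n461) .nil) .nil) .nil) .nil)) .nil) (.cons (nat_lit 798) (.cons (nat_lit 796) (.cons (nat_lit 922) Uxp12n485 .nil) .nil) .nil)) .nil) (.cons (nat_lit 670) (.cons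 (nat_lit 668) (.cons (nat_lit 793) (.cons (nat_lit 796) (.cons (nat_lit 926) Uxp12n168 .nil) .nil) (.cons (nat_lit 794) (.cons (nat_lit 787) (.cons (nat_lit 660) Uxp12n516 .nil) .nil) .nil)) .nil) .nil))) .nil) .nil)) .nil) (.cons (nat_lit 406) (.cons (nat_lit 404) (.cons (nat_lit 530) (.cons (nat_lit 524) (.cons (nat_lit 649) (.cons (nat_lit 652) (.cons (nat_lit 782) Uxp12n532 (.cons (nat_lit 794) (.cons (nat_lit 788) (.cons (nat_lit 914) (.cons (nat_lit 908) (.cons (nat_lit 1038) (.cons (nat_lit 25611) Uxp12n18 .nil) .nil) .nil) (.cons (nat_lit 913) (.cons (nat_lit 916) Uxp12n541 .nil) .nil)) .nil) .nil)) .nil) (.cons (nat_lit 658) (.cons (nat_lit 652) (.cons (nat_lit 782) Uxp12n532 (.cons (nat_lit 786) (.cons (nat_lit 780) (.cons (nat_lit 905) (.cons (nat_lit 908) (.cons (nat_lit 1038) (.cons (nat_lit 25611) Uxp12n18 .nil) .nil) .nil) .nil) .nil) (.cons (nat_lit 785) (.cons (nat_lit 788) Uxp12n551 .nil) .nil)))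 .nil) (.cons (nat_lit 654) (.cons (nat_lit 652) (.cons (nat_lit 777) Uxp12n573 (.cons (nat_lit 786) (.cons (nat_lit 780) (.cons (nat_lit 910) (.cons (nat_lit 908) (.cons (nat_lit 1038) (.cons (nat_lit 1036) (.cons (nat_lit 1162) (.cons (nat_lit 42115) (.cons (nat_lit 1028) (.cons (nat_lit 1286) (.cons (nat_lit 58627) (.cons (nat_lit 1284) (.cons (nat_lit 1414) (.cons (nat_lit 1411) (.cons (nat_lit 25987) (.cons (nat_lit 5) .nil .nil) .nil) .nil) .nil) .nil) .nil) .nil) .nil) .nil) .nil) .nil) .nil) .nil) .nil) .nil) .nil)) .nil) .nil))) .nil) (.cons (nat_lit 529) (.cons (nat_lit 532) (.cons (nat_lit 658) (.cons (nat_lit 652) (.cons (nat_lit 782) Uxp12n532 (.cons (nat_lit 786) (.cons (nat_lit 780) (.cons (nat_lit 905) (.cons (nat_lit 908) (.cons (nat_lit 1038) (.cons (nat_lit 25611) Uxp12n18 .nil) Uxp12n541) .nil) Uxp12n551) .nil) (.cons (nat_lit 793) (.cons (nat_lit 796) (.cons (nat_lit 922) (.cons (nat_lit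 916) (.cons (nat_lit 1041) (.cons (nat_lit 1044) Uxp12n598 .nil) Uxp12n541) .nil) .nil) .nil) .nil))) .nil) (.cons (nat_lit 662) (.cons (nat_lit 660) (.cons (nat_lit 786) Uxp12n573 .nil) .nil) .nil)) .nil) (.cons (nat_lit 534) (.cons (nat_lit 531) (.cons (nat_lit 532) (.cons (nat_lit 657) (.cons (nat_lit 660) (.cons (nat_lit 790) (.cons (nat_lit 788) (.cons (nat_lit 914) Uxp12n622 .nil) .nil) .nil) .nil) Uxp12n631) .nil) .nil) .nil))) .nil) .nil))
def Uxp12n648 : PT := (.cons (nat_lit 1034) (.cons (nat_lit 1027) (.cons (nat_lit 5) .nil .nil) .nil) (.cons (nat_lit 1038) (.cons (nat_lit 1036) (.cons (nat_lit 1162) (.cons (nat_lit 1156) (.cons (nat_lit 1281) Uxp12n209 .nil) .nil) (.cons (nat_lit 1161) (.cons (nat_lit 1164) (.cons (nat_lit 1290) Uxp12n209 .nil) .nil) .nil)) .nil) .nil))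
def Uxp12n658 : PT := (.cons (nat_lit 1028) (.cons (nat_lit 1158) (.cons (nat_lit 1155) (.cons (nat_lit 50307) (.cons (nat_lit 5) .nil .nil) .nil) (.cons (nat_lit 50315) (.cons (nat_lit 1164) (.cons (nat_lit 1289) Uxp12n310 .nil) .nil) .nil)) Uxp12n333) .nil)
def Uxp12n668 : PT := (.cons (nat_lit 905) (.cons (nat_lit 908) (.cons (nat_lit 1034) (.cons (nat_lit 1027) (.cons (nat_lit 5) .nil .nil) .nil) .nil) .nil) .nil)
def Uxp12n678 : PT := (.cons (nat_lit 1155) (.cons (nat_lit 5) .nil .nil) (.cons (nat_lit 1164) (.cons (nat_lit 1289) Uxp12n310 .nil) .nil))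
def Uxp12n699 : PT := (.cons (nat_lit 1036) (.cons (nat_lit 1166) (.cons (nat_lit 1164) (.cons (nat_lit 1294) (.cons (nat_lit 1292) (.cons (nat_lit 1418) (.cons (nat_lit 58755) (.cons (nat_lit 1284) (.cons (nat_lit 1542) (.cons (nat_lit 75267) (.cons (nat_lit 1540) (.cons (nat_lit 1670) (.cons (nat_lit 1667) (.cons (nat_lit 42627) (.cons (nat_lit 5) .nil .nil) .nil) (.cons (nat_lit 42635) (.cons (nat_lit 1676) (.cons (nat_lit 1801) Uxp12n351 .nil) .nil) .nil)) .nil) .nil) .nil) .nil) .nil) .nil) .nil) .nil) .nil) .nil) .nil) .nil)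
def Uxp12n717 : PT := (.cons (nat_lit 1420) (.cons (nat_lit 1550) (.cons (nat_lit 1548) (.cons (nat_lit 1678) (.cons (nat_lit 42635) Uxp12n242 .nil) .nil) .nil) .nil) .nil)
def Uxp12n721 : PT := (.cons (nat_lit 1172) (.cons (nat_lit 1302) (.cons (nat_lit 1300) (.cons (nat_lit 1426) Uxp12n717 .nil) .nil) .nil) .nil)
def Uxp12n726 : PT := (.cons (nat_lit 1170) (.cons (nat_lit 1164) (.cons (nat_lit 1294) (.cons (nat_lit 1292) (.cons (nat_lit 1417) Uxp12n717 .nil) .nil) .nil) .nil) .nil)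
def Uxp12n747 : PT := (.cons (nat_lit 1161) (.cons (nat_lit 1164) (.cons (nat_lit 1290) (.cons (nat_lit 1283) (.cons (nat_lit 5) .nil .nil) .nil) .nil) .nil) .nil)
def Uxp12n760 : PT := (.cons (nat_lit 1540) (.cons (nat_lit 1670) (.cons (nat_lit 1667) (.cons (nat_lit 83587) (.cons (nat_lit 5) .nil .nil) .nil) .nil) .nil) .nil)
def Uxp12n770 : PT := (.cons (nat_lit 1164) (.cons (nat_lit 1290) (.cons (nat_lit 1283) (.cons (nat_lit 5) .nil .nil) .nil) (.cons (nat_lit 1294) (.cons (nat_lit 1292) (.cons (nat_lit 1417) (.cons (nat_lit 1420) (.cons (nat_lit 1546) Uxp12n760 .nil) .nil) (.cons (nat_lit 1418) (.cons (nat_lit 1412) (.cons (nat_lit 1537) Uxp12n760 .nil) .nil) .nil)) .nil) .nil)) .nil)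
def Uxp12n784 : PT := (.cons (nat_lit 1548) (.cons (nat_lit 1678) (.cons (nat_lit 1676) (.cons (nat_lit 1806) (.cons (nat_lit 1804) (.cons (nat_lit 1930) (.cons (nat_lit 92035) (.cons (nat_lit 1796) (.cons (nat_lit 2054) (.cons (nat_lit 108547) (.cons (nat_lit 2052) (.cons (nat_lit 2182) (.cons (nat_lit 2179) (.cons (nat_lit 75907) (.cons (nat_lit 5) .nil .nil) .nil) .nil) .nil) .nil) .nil) .nil) .nil) .nil) .nil) .nil) .nil) .nil) .nil) .nil)
def Uxp12n788 : PT := (.cons (nat_lit 1300) (.cons (nat_lit 1430) (.cons (nat_lit 1428) (.cons (nat_lit 1554) Uxp12n784 .nil) .nil) .nil) .nil)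
def Uxp12n794 : PT := (.cons (nat_lit 1932) (.cons (nat_lit 2062) (.cons (nat_lit 116747) (.cons (nat_lit 2060) (.cons (nat_lit 2186) (.cons (nat_lit 100483) (.cons (nat_lit 5) .nil .nil) .nil) .nil) .nil) .nil) .nil) .nil)
def Uxp12n799 : PT := (.cons (nat_lit 1676) (.cons (nat_lit 1806) (.cons (nat_lit 1804) (.cons (nat_lit 1934) (.cons (nat_lit 75659) Uxp12n794 .nil) .nil) .nil) .nil) .nil)
def Uxp12n811 : PT := (.cons (nat_lit 1299) (.cons (nat_lit 1300) (.cons (nat_lit 1425) (.cons (nat_lit 1428) (.cons (nat_lit 1558) (.cons (nat_lit 1556) (.cons (nat_lit 1682) Uxp12n799 .nil) .nil) .nil) .nil) (.cons (nat_lit 1426) (.cons (nat_lit 1420) (.cons (nat_lit 1550) (.cons (nat_lit 1548) (.cons (nat_lit 1673) Uxp12n799 .nil) .nil) .nil) .nil) .nil)) .nil) .nil)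
def Uxp12n825 : PT := (.cons (nat_lit 1540) (.cons (nat_lit 1670) (.cons (nat_lit 1667) (.cons (nat_lit 67203) (.cons (nat_lit 5) .nil .nil) .nil) .nil) .nil) .nil)
def Uxp12n844 : PT := (.cons (nat_lit 2060) (.cons (nat_lit 2186) (.cons (nat_lit 2179) (.cons (nat_lit 5) .nil .nil) .nil) .nil) .nil)
def Uxp12n860 : PT := (.cons (nat_lit 1292) (.cons (nat_lit 1422) (.cons (nat_lit 1420) (.cons (nat_lit 1550) (.cons (nat_lit 1548) (.cons (nat_lit 1674) (.cons (nat_lit 75395) (.cons (nat_lit 1540) (.cons (nat_lit 1798) (.cons (nat_lit 91907) (.cons (nat_lit 1796) (.cons (nat_lit 1926) (.cons (nat_lit 1923) (.cons (nat_lit 59267) (.cons (nat_lit 5) .nil .nil) .nil) (.cons (nat_lit 59275) (.cons (nat_lit 1932) (.cons (nat_lit 2057) Uxp12n844 .nil) .nil) .nil)) .nil) .nil) .nil) .nil) .nil) .nil) .nil) .nil) .nil) .nil) .nil) .nil)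
def Uxp12n876 : PT := (.cons (nat_lit 1044) (.cons (nat_lit 1169) Uxp12n251 (.cons (nat_lit 1170) (.cons (nat_lit 1164) (.cons (nat_lit 1294) (.cons (nat_lit 1292) (.cons (nat_lit 1417) Uxp12n247 (.cons (nat_lit 1426) Uxp12n247 .nil)) .nil) .nil) .nil) .nil)) .nil)
def Uxp12n881 : PT := (.cons (nat_lit 1676) (.cons (nat_lit 1806) (.cons (nat_lit 1804) (.cons (nat_lit 1934) (.cons (nat_lit 59275) Uxp12n794 .nil) .nil) .nil) .nil) .nil)
def Uxp12n890 : PT := (.cons (nat_lit 1426) (.cons (nat_lit 1420) (.cons (nat_lit 1550) (.cons (nat_lit 1548) (.cons (nat_lit 1673) Uxp12n881 .nil) .nil) .nil) .nil) .nil)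
def Uxp12n893 : PT := (.cons (nat_lit 1299) (.cons (nat_lit 1044) (.cons (nat_lit 1425) (.cons (nat_lit 1428) (.cons (nat_lit 1558) (.cons (nat_lit 1556) (.cons (nat_lit 1682) Uxp12n881 .nil) .nil) .nil) .nil) Uxp12n890) .nil) .nil)
def Uxp12n909 : PT := (.cons (nat_lit 1155) (.cons (nat_lit 50307) (.cons (nat_lit 5) .nil .nil) .nil) (.cons (nat_lit 50323) (.cons (nat_lit 1172) (.cons (nat_lit 1298) Uxp12n310 .nil) .nil) .nil))
def Uxp12n933 : PT := (.cons (nat_lit 1036) (.cons (nat_lit 1162) Uxp12n678 (.cons (nat_lit 1169) (.cons (nat_lit 1172) (.cons (nat_lit 1298) Uxp12n310 .nil) .nil) .nil)) .nil)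
def Uxp12n946 : PT := (.cons (nat_lit 1298) (.cons (nat_lit 1292) (.cons (nat_lit 1417) (.cons (nat_lit 1420) (.cons (nat_lit 1550) (.cons (nat_lit 42507) Uxp12n116 .nil) .nil) .nil) .nil) .nil) .nil)
def Uxp12n950 : PT := (.cons (nat_lit 1044) (.cons (nat_lit 1170) (.cons (nat_lit 1164) (.cons (nat_lit 1294) (.cons (nat_lit 42251) Uxp12n310 .nil) .nil) .nil) (.cons (nat_lit 1169) (.cons (nat_lit 1172) Uxp12n946 .nil) .nil)) .nil)
def Uxp12n953 : PT := (.cons (nat_lit 1923) (.cons (nat_lit 5) .nil .nil) (.cons (nat_lit 1932) (.cons (nat_lit 2057) Uxp12n844 .nil) .nil))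
def Uxp12n957 : PT := (.cons (nat_lit 1676) (.cons (nat_lit 1801) (.cons (nat_lit 1804) (.cons (nat_lit 1930) Uxp12n953 .nil) .nil) (.cons (nat_lit 1810) Uxp12n351 .nil)) .nil)
def Uxp12n971 : PT := (.cons (nat_lit 1036) (.cons (nat_lit 1166) (.cons (nat_lit 1164) (.cons (nat_lit 1294) (.cons (nat_lit 1292) (.cons (nat_lit 1418) (.cons (nat_lit 58755) (.cons (nat_lit 1284) (.cons (nat_lit 1542) (.cons (nat_lit 75267) (.cons (nat_lit 1540) (.cons (nat_lit 1670) (.cons (nat_lit 1667) (.cons (nat_lit 42627) (.cons (nat_lit 5) .nil .nil) .nil) (.cons (nat_lit 42635) Uxp12n957 .nil)) .nil) .nil) .nil) .nil) .nil) .nil) .nil) .nil) .nil) .nil) .nil) .nil)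
def Uxp12n996 : PT := (.cons (nat_lit 1170) (.cons (nat_lit 1164) (.cons (nat_lit 1294) (.cons (nat_lit 1292) (.cons (nat_lit 1417) Uxp12n717 (.cons (nat_lit 1426) Uxp12n717 .nil)) .nil) .nil) .nil) .nil)
def Uxp12n1030 : PT := (.cons (nat_lit 658) (.cons (nat_lit 652) (.cons (nat_lit 778) (.cons (nat_lit 771) (.cons (nat_lit 5) .nil .nil) (.cons (nat_lit 780) (.cons (nat_lit 905) (.cons (nat_lit 908) (.cons (nat_lit 1034) (.cons (nat_lit 1027) (.cons (nat_lit 5) .nil .nil) (.cons (nat_lit 1036) Uxp12n747 .nil)) Uxp12n324) .nil) (.cons (nat_lit 914) (.cons (nat_lit 908) Uxp12n648 .nil) (.cons (nat_lit 918) Uxp12n321 .nil))) .nil)) (.cons (nat_lit 785) (.cons (nat_lit 788) (.cons (nat_lit 914) (.cons (nat_lit 908) (.cons (nat_lit 1034) (.cons (nat_lit 1027) (.cons (nat_lit 5) .nil .nil) (.cons (nat_lit 1036) Uxp12n747 .nil)) (.cons (nat_lit 1041) (.cons (nat_lit 1044) (.cons (nat_lit 1170) Uxp12n770 (.cons (nat_lit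 1174) (.cons (nat_lit 1172) (.cons (nat_lit 1297) Uxp12n788 (.cons (nat_lit 1302) Uxp12n811 (.cons (nat_lit 1298) (.cons (nat_lit 1292) (.cons (nat_lit 1422) (.cons (nat_lit 1420) (.cons (nat_lit 1545) Uxp12n784 .nil) .nil) .nil) .nil) .nil))) .nil) .nil)) .nil) (.cons (nat_lit 1038) (.cons (nat_lit 1036) (.cons (nat_lit 1161) (.cons (nat_lit 1164) (.cons (nat_lit 1290) (.cons (nat_lit 1284) (.cons (nat_lit 1414) (.cons (nat_lit 1411) (.cons (nat_lit 66947) (.cons (nat_lit 5) .nil .nil) .nil) .nil) (.cons (nat_lit 1418) (.cons (nat_lit 1412) (.cons (nat_lit 1537) Uxp12n825 .nil) .nil) .nil)) .nil) .nil) .nil) (.cons (nat_lit 1162) (.cons (nat_lit 1156) (.cons (nat_lit 1281) Uxp12n209 (.cons (nat_lit 1290) Uxp12n209 .nil)) .nil) .nil)) .nil) .nil))) .nil) (.cons (nat_lit 918) (.cons (nat_lit 916) (.cons (nat_lit 1042) (.cons (nat_lit 1036) (.cons (nat_lit 1170) (.cons (nat_lit 1164) (.cons (nat_lit 1294) (.cons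 (nat_lit 58635) Uxp12n310 .nil) .nil) .nil) (.cons (nat_lit 1166) (.cons (nat_lit 1164) (.cons (nat_lit 1289) Uxp12n860 (.cons (nat_lit 1298) Uxp12n232 .nil)) .nil) .nil)) .nil) (.cons (nat_lit 1041) (.cons (nat_lit 1044) (.cons (nat_lit 1174) (.cons (nat_lit 1172) (.cons (nat_lit 1298) Uxp12n860 .nil) .nil) .nil) .nil) (.cons (nat_lit 1046) (.cons (nat_lit 1043) Uxp12n876 (.cons (nat_lit 1052) (.cons (nat_lit 1177) (.cons (nat_lit 1180) (.cons (nat_lit 1306) Uxp12n893 .nil) .nil) .nil) .nil)) .nil))) .nil) .nil)) .nil) (.cons (nat_lit 782) (.cons (nat_lit 780) (.cons (nat_lit 905) (.cons (nat_lit 908) (.cons (nat_lit 1034) (.cons (nat_lit 1028) (.cons (nat_lit 1158) Uxp12n909 (.cons (nat_lit 1162) (.cons (nat_lit 1156) (.cons (nat_lit 1281) (.cons (nat_lit 1284) (.cons (nat_lit 1414) (.cons (nat_lit 1411) (.cons (nat_lit 50563) (.cons (nat_lit 5) .nil .nil) .nil) .nil) (.cons (nat_lit 1418) (.cons (nat_lit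 1412) (.cons (nat_lit 1537) Uxp12n339 .nil) .nil) .nil)) .nil) (.cons (nat_lit 1290) Uxp12n193 .nil)) .nil) Uxp12n377)) .nil) (.cons (nat_lit 1054) (.cons (nat_lit 1052) (.cons (nat_lit 1178) Uxp12n364 .nil) .nil) .nil)) .nil) (.cons (nat_lit 906) (.cons (nat_lit 900) (.cons (nat_lit 1025) (.cons (nat_lit 1028) (.cons (nat_lit 1158) Uxp12n909 (.cons (nat_lit 1170) Uxp12n346 .nil)) .nil) (.cons (nat_lit 1034) Uxp12n658 (.cons (nat_lit 1046) (.cons (nat_lit 1044) (.cons (nat_lit 1169) Uxp12n364 .nil) .nil) .nil))) .nil) Uxp12n416)) .nil) .nil))) .nil) (.cons (nat_lit 662) (.cons (nat_lit 660) (.cons (nat_lit 786) (.cons (nat_lit 780) (.cons (nat_lit 914) (.cons (nat_lit 908) (.cons (nat_lit 1038) (.cons (nat_lit 41995) Uxp12n933 .nil) (.cons (nat_lit 1042) Uxp12n427 (.cons (nat_lit 1041) (.cons (nat_lit 1044) (.cons (nat_lit 1170) (.cons (nat_lit 1164) (.cons (nat_lit 1294) (.cons (nat_lit 42251) Uxp12n310 .nil)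 .nil) .nil) .nil) .nil) .nil))) .nil) (.cons (nat_lit 921) (.cons (nat_lit 924) (.cons (nat_lit 1050) Uxp12n950 .nil) .nil) (.cons (nat_lit 910) (.cons (nat_lit 908) (.cons (nat_lit 1033) Uxp12n971 (.cons (nat_lit 1042) Uxp12n699 .nil)) .nil) .nil))) .nil) (.cons (nat_lit 785) (.cons (nat_lit 788) (.cons (nat_lit 930) (.cons (nat_lit 924) (.cons (nat_lit 1050) Uxp12n950 (.cons (nat_lit 1049) (.cons (nat_lit 1052) (.cons (nat_lit 1178) (.cons (nat_lit 1172) (.cons (nat_lit 1297) (.cons (nat_lit 1300) (.cons (nat_lit 1426) (.cons (nat_lit 1420) (.cons (nat_lit 1550) (.cons (nat_lit 42507) Uxp12n116 .nil) .nil) .nil) .nil) .nil) Uxp12n946) .nil) .nil) .nil) .nil)) .nil) (.cons (nat_lit 918) (.cons (nat_lit 916) (.cons (nat_lit 1042) Uxp12n971 .nil) .nil) .nil)) .nil) (.cons (nat_lit 790) (.cons (nat_lit 787) Uxp12n286 (.cons (nat_lit 796) (.cons (nat_lit 921) (.cons (nat_lit 924) (.cons (nat_lit 1050) (.cons (nat_lit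 1043) (.cons (nat_lit 788) (.cons (nat_lit 1169) Uxp12n721 Uxp12n996) .nil) .nil) (.cons (nat_lit 1062) (.cons (nat_lit 1060) (.cons (nat_lit 1186) (.cons (nat_lit 1180) (.cons (nat_lit 1310) (.cons (nat_lit 1308) (.cons (nat_lit 1438) (.cons (nat_lit 42395) (.cons (nat_lit 1436) (.cons (nat_lit 1566) (.cons (nat_lit 83483) (.cons (nat_lit 1564) (.cons (nat_lit 1690) (.cons (nat_lit 67219) (.cons (nat_lit 788) (.cons (nat_lit 1810) Uxp12n351 .nil) .nil) .nil) .nil) .nil) .nil) .nil) .nil) .nil) .nil) .nil) .nil) .nil) .nil) .nil) .nil)) .nil) (.cons (nat_lit 930) (.cons (nat_lit 924) (.cons (nat_lit 1050) (.cons (nat_lit 1043) (.cons (nat_lit 788) Uxp12n726 .nil) .nil) .nil) .nil) .nil)) .nil)) .nil))) .nil) .nil))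
def Uxp12n1033 : PT := (.cons (nat_lit 1036) (.cons (nat_lit 1162) (.cons (nat_lit 1155) (.cons (nat_lit 5) .nil .nil) .nil) (.cons (nat_lit 1169) (.cons (nat_lit 1172) (.cons (nat_lit 1298) Uxp12n310 .nil) .nil) .nil)) .nil)
def Uxp12n1037 : PT := (.cons (nat_lit 899) (.cons (nat_lit 33667) (.cons (nat_lit 5) .nil .nil) .nil) (.cons (nat_lit 33683) (.cons (nat_lit 916) (.cons (nat_lit 1042) Uxp12n1033 .nil) .nil) .nil))
def Uxp12n1043 : PT := (.cons (nat_lit 1411) (.cons (nat_lit 34179) (.cons (nat_lit 5) .nil .nil) .nil) (.cons (nat_lit 34187) (.cons (nat_lit 1420) (.cons (nat_lit 1545) Uxp12n116 .nil) .nil) .nil))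
def Uxp12n1048 : PT := (.cons (nat_lit 1162) (.cons (nat_lit 1156) (.cons (nat_lit 1281) (.cons (nat_lit 1284) (.cons (nat_lit 1414) Uxp12n1043 (.cons (nat_lit 1418) (.cons (nat_lit 1412) (.cons (nat_lit 1537) Uxp12n453 .nil) .nil) .nil)) .nil) (.cons (nat_lit 1290) Uxp12n94 .nil)) .nil) .nil)
def Uxp12n1052 : PT := (.cons (nat_lit 1155) (.cons (nat_lit 33923) (.cons (nat_lit 5) .nil .nil) .nil) (.cons (nat_lit 33931) (.cons (nat_lit 1164) (.cons (nat_lit 1289) Uxp12n310 .nil) .nil) .nil))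
def Uxp12n1070 : PT := (.cons (nat_lit 1667) (.cons (nat_lit 5) .nil .nil) (.cons (nat_lit 1676) (.cons (nat_lit 1801) Uxp12n351 .nil) .nil))
def Uxp12n1072 : PT := (.cons (nat_lit 1548) (.cons (nat_lit 1674) Uxp12n1070 (.cons (nat_lit 1681) (.cons (nat_lit 1684) (.cons (nat_lit 1810) Uxp12n351 .nil) .nil) .nil)) .nil)
def Uxp12n1085 : PT := (.cons (nat_lit 916) (.cons (nat_lit 1046) (.cons (nat_lit 1044) (.cons (nat_lit 1174) (.cons (nat_lit 1172) (.cons (nat_lit 1298) (.cons (nat_lit 50443) (.cons (nat_lit 1164) (.cons (nat_lit 1422) (.cons (nat_lit 66955) (.cons (nat_lit 1420) (.cons (nat_lit 1550) (.cons (nat_lit 34315) Uxp12n1072 .nil) .nil) .nil) .nil) .nil) .nil) .nil) .nil) .nil) .nil) .nil) .nil) .nil)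
def Uxp12n1121 : PT := (.cons (nat_lit 1420) (.cons (nat_lit 1550) (.cons (nat_lit 1548) (.cons (nat_lit 1678) (.cons (nat_lit 34443) Uxp12n242 .nil) .nil) .nil) .nil) .nil)
def Uxp12n1125 : PT := (.cons (nat_lit 1172) (.cons (nat_lit 1302) (.cons (nat_lit 1300) (.cons (nat_lit 1426) Uxp12n1121 .nil) .nil) .nil) .nil)
def Uxp12n1130 : PT := (.cons (nat_lit 1170) (.cons (nat_lit 1164) (.cons (nat_lit 1294) (.cons (nat_lit 1292) (.cons (nat_lit 1417) Uxp12n1121 .nil) .nil) .nil) .nil) .nil)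
def Uxp12n1136 : PT := (.cons (nat_lit 930) (.cons (nat_lit 924) (.cons (nat_lit 1050) (.cons (nat_lit 1043) (.cons (nat_lit 660) (.cons (nat_lit 1169) Uxp12n1125 Uxp12n1130) .nil) .nil) .nil) .nil) .nil)
def Uxp12n1147 : PT := (.cons (nat_lit 522) (.cons (nat_lit 515) (.cons (nat_lit 5) .nil .nil) (.cons (nat_lit 524) (.cons (nat_lit 649) (.cons (nat_lit 652) (.cons (nat_lit 778) (.cons (nat_lit 771) (.cons (nat_lit 5) .nil .nil) (.cons (nat_lit 788) (.cons (nat_lit 914) (.cons (nat_lit 908) Uxp12n648 .nil) (.cons (nat_lit 918) Uxp12n321 (.cons (nat_lit 913) (.cons (nat_lit 916) Uxp12n324 .nil) .nil))) .nil)) (.cons (nat_lit 790) (.cons (nat_lit 788) (.cons (nat_lit 914) (.cons (nat_lit 908) (.cons (nat_lit 1034) Uxp12n658 Uxp12n368) .nil) Uxp12n417) .nil) .nil)) .nil) (.cons (nat_lit 658) (.cons (nat_lit 652) (.cons (nat_lit 778) (.cons (nat_lit 771) (.cons (nat_lit 5) .nil .nil) (.cons (nat_lit 780) Uxp12n668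 .nil)) (.cons (nat_lit 785) (.cons (nat_lit 788) (.cons (nat_lit 914) Uxp12n301 Uxp12n268) .nil) (.cons (nat_lit 782) (.cons (nat_lit 780) (.cons (nat_lit 906) (.cons (nat_lit 900) (.cons (nat_lit 1025) Uxp12n5 (.cons (nat_lit 1034) Uxp12n5 .nil)) .nil) (.cons (nat_lit 905) Uxp12n200 .nil)) .nil) .nil))) .nil) (.cons (nat_lit 662) (.cons (nat_lit 660) (.cons (nat_lit 785) (.cons (nat_lit 788) (.cons (nat_lit 914) (.cons (nat_lit 908) (.cons (nat_lit 1038) (.cons (nat_lit 41995) (.cons (nat_lit 1036) (.cons (nat_lit 1162) Uxp12n678 .nil) .nil) .nil) (.cons (nat_lit 1042) Uxp12n427 .nil)) .nil) (.cons (nat_lit 918) (.cons (nat_lit 916) (.cons (nat_lit 1042) Uxp12n699 .nil) .nil) .nil)) .nil) (.cons (nat_lit 786) (.cons (nat_lit 780) (.cons (nat_lit 905) (.cons (nat_lit 908) (.cons (nat_lit 1038) (.cons (nat_lit 41995) (.cons (nat_lit 1036) (.cons (nat_lit 1162) Uxp12n678 .nil) .nil) .nil) .nil) .nil) (.cons (nat_lit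 914) (.cons (nat_lit 908) (.cons (nat_lit 1038) (.cons (nat_lit 41995) Uxp12n18 .nil) .nil) .nil) (.cons (nat_lit 910) (.cons (nat_lit 908) (.cons (nat_lit 1033) Uxp12n699 (.cons (nat_lit 1042) Uxp12n35 .nil)) .nil) .nil))) .nil) (.cons (nat_lit 790) (.cons (nat_lit 787) Uxp12n286 (.cons (nat_lit 796) (.cons (nat_lit 921) (.cons (nat_lit 924) (.cons (nat_lit 1050) (.cons (nat_lit 1043) (.cons (nat_lit 788) (.cons (nat_lit 1169) Uxp12n721 Uxp12n726) .nil) .nil) .nil) .nil) .nil) .nil)) .nil))) .nil) .nil))) .nil)) (.cons (nat_lit 529) (.cons (nat_lit 532) Uxp12n1030 .nil) (.cons (nat_lit 526) (.cons (nat_lit 524) (.cons (nat_lit 649) (.cons (nat_lit 652) (.cons (nat_lit 778) (.cons (nat_lit 772) (.cons (nat_lit 902) Uxp12n1037 (.cons (nat_lit 906) (.cons (nat_lit 900) (.cons (nat_lit 1025) (.cons (nat_lit 1028) (.cons (nat_lit 1158) (.cons (nat_lit 1155) (.cons (nat_lit 33923) (.cons (nat_lit 5) .nil .nil) .nil)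 (.cons (nat_lit 33939) (.cons (nat_lit 1172) (.cons (nat_lit 1298) Uxp12n310 .nil) .nil) .nil)) Uxp12n1048) .nil) (.cons (nat_lit 1034) (.cons (nat_lit 1028) (.cons (nat_lit 1158) Uxp12n1052 Uxp12n142) .nil) .nil)) .nil) (.cons (nat_lit 913) (.cons (nat_lit 916) (.cons (nat_lit 1042) (.cons (nat_lit 1036) (.cons (nat_lit 1161) (.cons (nat_lit 1164) (.cons (nat_lit 1290) (.cons (nat_lit 1284) (.cons (nat_lit 1414) Uxp12n1043 Uxp12n494) .nil) .nil) .nil) Uxp12n1048) .nil) .nil) .nil) .nil))) .nil) (.cons (nat_lit 798) (.cons (nat_lit 796) (.cons (nat_lit 922) Uxp12n1085 .nil) .nil) .nil)) .nil) (.cons (nat_lit 650) (.cons (nat_lit 644) (.cons (nat_lit 769) (.cons (nat_lit 772) (.cons (nat_lit 902) Uxp12n1037 (.cons (nat_lit 914) (.cons (nat_lit 908) (.cons (nat_lit 1034) (.cons (nat_lit 1028) (.cons (nat_lit 1158) Uxp12n1052 Uxp12n142) .nil) (.cons (nat_lit 1033) (.cons (nat_lit 1036) Uxp12n1048 .nil) .nil)) .nil)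 .nil)) .nil) (.cons (nat_lit 778) (.cons (nat_lit 772) (.cons (nat_lit 902) (.cons (nat_lit 899) (.cons (nat_lit 33667) (.cons (nat_lit 5) .nil .nil) .nil) (.cons (nat_lit 33675) (.cons (nat_lit 908) (.cons (nat_lit 1033) Uxp12n18 (.cons (nat_lit 1042) Uxp12n18 .nil)) .nil) .nil)) (.cons (nat_lit 906) (.cons (nat_lit 900) (.cons (nat_lit 1025) (.cons (nat_lit 1028) (.cons (nat_lit 1158) Uxp12n1052 (.cons (nat_lit 1162) (.cons (nat_lit 1156) (.cons (nat_lit 1281) Uxp12n94 .nil) .nil) .nil)) .nil) (.cons (nat_lit 1034) Uxp12n90 .nil)) .nil) (.cons (nat_lit 905) (.cons (nat_lit 908) (.cons (nat_lit 1034) (.cons (nat_lit 1028) (.cons (nat_lit 1158) Uxp12n1052 Uxp12n142) .nil) .nil) .nil) .nil))) .nil) (.cons (nat_lit 790) (.cons (nat_lit 788) (.cons (nat_lit 913) Uxp12n1085 (.cons (nat_lit 922) Uxp12n129 .nil)) .nil) .nil))) .nil) (.cons (nat_lit 670) (.cons (nat_lit 668) (.cons (nat_lit 793) (.cons (nat_lit 796)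 (.cons (nat_lit 926) Uxp12n168 Uxp12n1136) .nil) (.cons (nat_lit 794) (.cons (nat_lit 787) (.cons (nat_lit 660) Uxp12n516 .nil) .nil) .nil)) .nil) .nil))) .nil) .nil)))
def Uxp12n1156 : PT := (.cons (nat_lit 908) (.cons (nat_lit 1038) (.cons (nat_lit 25611) Uxp12n1033 .nil) (.cons (nat_lit 1041) (.cons (nat_lit 1044) Uxp12n598 .nil) Uxp12n541)) .nil)
def Uxp12n1170 : PT := (.cons (nat_lit 25867) (.cons (nat_lit 1292) (.cons (nat_lit 1418) (.cons (nat_lit 1411) (.cons (nat_lit 5) .nil .nil) .nil) (.cons (nat_lit 1425) (.cons (nat_lit 1428) (.cons (nat_lit 1554) Uxp12n116 .nil) .nil) .nil)) .nil) .nil)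
def Uxp12n1176 : PT := (.cons (nat_lit 1298) (.cons (nat_lit 1292) (.cons (nat_lit 1417) (.cons (nat_lit 1420) (.cons (nat_lit 1550) (.cons (nat_lit 26123) Uxp12n116 .nil) .nil) .nil) .nil) .nil) .nil)
def Uxp12n1181 : PT := (.cons (nat_lit 1042) (.cons (nat_lit 1036) (.cons (nat_lit 1161) (.cons (nat_lit 1164) (.cons (nat_lit 1294) Uxp12n1170 Uxp12n1176) .nil) Uxp12n598) .nil) .nil)
def Uxp12n1185 : PT := (.cons (nat_lit 788) (.cons (nat_lit 914) Uxp12n1156 (.cons (nat_lit 913) (.cons (nat_lit 916) Uxp12n1181 .nil) .nil)) .nil)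
def Uxp12n1188 : PT := (.cons (nat_lit 1667) (.cons (nat_lit 5) .nil .nil) (.cons (nat_lit 1684) (.cons (nat_lit 1810) Uxp12n351 .nil) .nil))
def Uxp12n1207 : PT := (.cons (nat_lit 780) (.cons (nat_lit 910) (.cons (nat_lit 908) (.cons (nat_lit 1038) (.cons (nat_lit 1036) (.cons (nat_lit 1162) (.cons (nat_lit 42115) (.cons (nat_lit 1028) (.cons (nat_lit 1286) (.cons (nat_lit 58627) (.cons (nat_lit 1284) (.cons (nat_lit 1414) (.cons (nat_lit 1411) (.cons (nat_lit 25987) (.cons (nat_lit 5) .nil .nil) .nil) (.cons (nat_lit 25995) (.cons (nat_lit 1420) (.cons (nat_lit 1545) (.cons (nat_lit 1548) (.cons (nat_lit 1674) Uxp12n1188 .nil) .nil) (.cons (nat_lit 1554) Uxp12n472 .nil)) .nil) .nil)) .nil) .nil) .nil) .nil) .nil) .nil) .nil) .nil) .nil) .nil) .nil) .nil)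
def Uxp12n1233 : PT := (.cons (nat_lit 1297) (.cons (nat_lit 1300) (.cons (nat_lit 1426) (.cons (nat_lit 1420) (.cons (nat_lit 1550) (.cons (nat_lit 26123) Uxp12n116 .nil) .nil) .nil) .nil) .nil) Uxp12n1176)
def Uxp12n1269 : PT := (.cons (nat_lit 1420) (.cons (nat_lit 1550) (.cons (nat_lit 1548) (.cons (nat_lit 1678) (.cons (nat_lit 26251) Uxp12n242 .nil) .nil) .nil) .nil) .nil)
def Uxp12n1273 : PT := (.cons (nat_lit 1172) (.cons (nat_lit 1302) (.cons (nat_lit 1300) (.cons (nat_lit 1426) Uxp12n1269 .nil) .nil) .nil) .nil)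
def Uxp12n1278 : PT := (.cons (nat_lit 1170) (.cons (nat_lit 1164) (.cons (nat_lit 1294) (.cons (nat_lit 1292) (.cons (nat_lit 1417) Uxp12n1269 .nil) .nil) .nil) .nil) .nil)
def Uxp12n1284 : PT := (.cons (nat_lit 930) (.cons (nat_lit 924) (.cons (nat_lit 1050) (.cons (nat_lit 1043) (.cons (nat_lit 532) (.cons (nat_lit 1169) Uxp12n1273 Uxp12n1278) .nil) .nil) .nil) .nil) .nil)
def Uxp12n1293 : PT := (.cons (nat_lit 1164) (.cons (nat_lit 1294) (.cons (nat_lit 1292) (.cons (nat_lit 1422) (.cons (nat_lit 25995) Uxp12n51 .nil) .nil) .nil) .nil) .nil)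
def Uxp12n1299 : PT := (.cons (nat_lit 914) (.cons (nat_lit 908) (.cons (nat_lit 1038) (.cons (nat_lit 1036) (.cons (nat_lit 1161) Uxp12n1293 (.cons (nat_lit 1170) Uxp12n1293 .nil)) .nil) .nil) .nil) .nil)
def Uxp12n1305 : PT := (.cons (nat_lit 924) (.cons (nat_lit 1050) (.cons (nat_lit 1043) (.cons (nat_lit 532) Uxp12n1278 .nil) .nil) .nil) .nil)
def Uxp12n1331 : PT := (.cons (nat_lit 1284) (.cons (nat_lit 1414) (.cons (nat_lit 1411) (.cons (nat_lit 17795) (.cons (nat_lit 5) .nil .nil) .nil) .nil) .nil) .nil)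
def Uxp12n1338 : PT := (.cons (nat_lit 1028) (.cons (nat_lit 1158) (.cons (nat_lit 1155) (.cons (nat_lit 17539) (.cons (nat_lit 5) .nil .nil) .nil) .nil) .nil) .nil)
def Uxp12n1341 : PT := (.cons (nat_lit 900) (.cons (nat_lit 1025) (.cons (nat_lit 1028) (.cons (nat_lit 1158) (.cons (nat_lit 1155) (.cons (nat_lit 17539) (.cons (nat_lit 5) .nil .nil) .nil) .nil) (.cons (nat_lit 1162) (.cons (nat_lit 1156) (.cons (nat_lit 1281) Uxp12n1331 .nil) .nil) .nil)) .nil) (.cons (nat_lit 1034) Uxp12n1338 .nil)) .nil)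
def Uxp12n1361 : PT := (.cons (nat_lit 1034) (.cons (nat_lit 1028) (.cons (nat_lit 1158) (.cons (nat_lit 1155) (.cons (nat_lit 17539) (.cons (nat_lit 5) .nil .nil) .nil) .nil) (.cons (nat_lit 1162) (.cons (nat_lit 1156) (.cons (nat_lit 1281) Uxp12n1331 .nil) .nil) (.cons (nat_lit 1161) (.cons (nat_lit 1164) (.cons (nat_lit 1290) Uxp12n1331 .nil) .nil) .nil))) .nil) .nil)
def Uxp12n1366 : PT := (.cons (nat_lit 772) (.cons (nat_lit 902) (.cons (nat_lit 899) (.cons (nat_lit 17283) (.cons (nat_lit 5) .nil .nil) .nil) .nil) (.cons (nat_lit 906) Uxp12n1341 (.cons (nat_lit 905) (.cons (nat_lit 908) Uxp12n1361 .nil) .nil))) .nil)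
def Uxp12n1376 : PT := (.cons (nat_lit 1540) (.cons (nat_lit 1670) (.cons (nat_lit 1667) (.cons (nat_lit 18051) (.cons (nat_lit 5) .nil .nil) .nil) .nil) .nil) .nil)
def Uxp12n1384 : PT := (.cons (nat_lit 1162) (.cons (nat_lit 1156) (.cons (nat_lit 1281) (.cons (nat_lit 1284) (.cons (nat_lit 1414) (.cons (nat_lit 1411) (.cons (nat_lit 17795) (.cons (nat_lit 5) .nil .nil) .nil) .nil) (.cons (nat_lit 1418) (.cons (nat_lit 1412) (.cons (nat_lit 1537) Uxp12n1376 .nil) .nil) .nil)) .nil) (.cons (nat_lit 1290) Uxp12n1331 .nil)) .nil) .nil)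
def Uxp12n1386 : PT := (.cons (nat_lit 1028) (.cons (nat_lit 1158) (.cons (nat_lit 1155) (.cons (nat_lit 17539) (.cons (nat_lit 5) .nil .nil) .nil) .nil) Uxp12n1384) .nil)
def Uxp12n1408 : PT := (.cons (nat_lit 660) (.cons (nat_lit 790) (.cons (nat_lit 788) (.cons (nat_lit 918) (.cons (nat_lit 916) (.cons (nat_lit 1042) (.cons (nat_lit 33803) (.cons (nat_lit 908) (.cons (nat_lit 1166) (.cons (nat_lit 50315) (.cons (nat_lit 1164) (.cons (nat_lit 1294) (.cons (nat_lit 17675) Uxp12n310 .nil) .nil) .nil) .nil) .nil) .nil) .nil) .nil) .nil) .nil) .nil) .nil) .nil)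
def Uxp12n1425 : PT := (.cons (nat_lit 906) (.cons (nat_lit 900) (.cons (nat_lit 1025) Uxp12n1386 (.cons (nat_lit 1034) (.cons (nat_lit 1028) (.cons (nat_lit 1158) (.cons (nat_lit 1155) (.cons (nat_lit 17539) (.cons (nat_lit 5) .nil .nil) .nil) .nil) (.cons (nat_lit 1161) (.cons (nat_lit 1164) (.cons (nat_lit 1290) Uxp12n1331 .nil) .nil) (.cons (nat_lit 1162) (.cons (nat_lit 1156) (.cons (nat_lit 1281) Uxp12n1331 .nil) .nil) .nil))) .nil) .nil)) .nil) .nil)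
def Uxp12n1457 : PT := (.cons (nat_lit 273) (.cons (nat_lit 276) (.cons (nat_lit 402) (.cons (nat_lit 396) Uxp12n1147 .nil) (.cons (nat_lit 406) (.cons (nat_lit 404) (.cons (nat_lit 530) (.cons (nat_lit 524) (.cons (nat_lit 658) (.cons (nat_lit 652) (.cons (nat_lit 782) (.cons (nat_lit 25355) (.cons (nat_lit 780) (.cons (nat_lit 906) (.cons (nat_lit 899) (.cons (nat_lit 5) .nil .nil) (.cons (nat_lit 916) (.cons (nat_lit 1042) Uxp12n18 .nil) .nil)) (.cons (nat_lit 913) (.cons (nat_lit 916) (.cons (nat_lit 1042) Uxp12n1033 .nil) .nil) .nil)) .nil) .nil) (.cons (nat_lit 785) (.cons (nat_lit 788) (.cons (nat_lit 914) Uxp12n1156 .nil) .nil) (.cons (nat_lit 786) (.cons (nat_lit 780) (.cons (nat_lit 905) (.cons (nat_lit 908) (.cons (nat_lit 1038) (.cons (nat_lit 25611) Uxp12n1033 .nil) Uxp12n541) .nil) Uxp12n551) .nil) .nil))) .nil) (.cons (nat_lit 665) (.cons (nat_lit 668) (.cons (nat_lit 794) Uxp12n1185 .nil) .nil)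 (.cons (nat_lit 654) (.cons (nat_lit 652) (.cons (nat_lit 777) Uxp12n1207 (.cons (nat_lit 786) (.cons (nat_lit 780) (.cons (nat_lit 910) (.cons (nat_lit 908) (.cons (nat_lit 1038) (.cons (nat_lit 1036) (.cons (nat_lit 1162) (.cons (nat_lit 42115) (.cons (nat_lit 1028) (.cons (nat_lit 1286) (.cons (nat_lit 58627) (.cons (nat_lit 1284) (.cons (nat_lit 1414) (.cons (nat_lit 1411) (.cons (nat_lit 25987) (.cons (nat_lit 5) .nil .nil) .nil) (.cons (nat_lit 25995) (.cons (nat_lit 1420) (.cons (nat_lit 1545) Uxp12n116 (.cons (nat_lit 1554) Uxp12n116 .nil)) .nil) .nil)) .nil) .nil) .nil) .nil) .nil) .nil) .nil) .nil) .nil) .nil) .nil) .nil) .nil)) .nil) .nil))) .nil) (.cons (nat_lit 529) (.cons (nat_lit 532) (.cons (nat_lit 674) (.cons (nat_lit 668) (.cons (nat_lit 794) Uxp12n1185 (.cons (nat_lit 793) (.cons (nat_lit 796) (.cons (nat_lit 922) (.cons (nat_lit 916) (.cons (nat_lit 1041) (.cons (nat_lit 1044) (.cons (nat_lit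 1170) (.cons (nat_lit 1164) (.cons (nat_lit 1294) Uxp12n1170 Uxp12n1233) .nil) .nil) .nil) Uxp12n1181) .nil) .nil) .nil) .nil)) .nil) (.cons (nat_lit 662) (.cons (nat_lit 660) (.cons (nat_lit 786) Uxp12n1207 .nil) .nil) .nil)) .nil) (.cons (nat_lit 534) (.cons (nat_lit 531) (.cons (nat_lit 532) Uxp12n631 .nil) (.cons (nat_lit 548) (.cons (nat_lit 673) (.cons (nat_lit 676) (.cons (nat_lit 806) (.cons (nat_lit 804) (.cons (nat_lit 930) (.cons (nat_lit 924) (.cons (nat_lit 1054) (.cons (nat_lit 1052) (.cons (nat_lit 1182) (.cons (nat_lit 25755) (.cons (nat_lit 1180) (.cons (nat_lit 1310) (.cons (nat_lit 66843) (.cons (nat_lit 1308) (.cons (nat_lit 1434) (.cons (nat_lit 50579) (.cons (nat_lit 532) (.cons (nat_lit 1554) Uxp12n472 .nil) .nil) .nil) .nil) .nil) .nil) .nil) .nil) .nil) .nil) .nil) .nil) .nil) .nil) .nil) (.cons (nat_lit 810) (.cons (nat_lit 804) Uxp12n1284 .nil) .nil)) .nil) (.cons (nat_lit 674) (.cons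 (nat_lit 668) (.cons (nat_lit 794) (.cons (nat_lit 787) (.cons (nat_lit 532) Uxp12n1299 .nil) .nil) (.cons (nat_lit 801) (.cons (nat_lit 804) (.cons (nat_lit 930) Uxp12n1305 .nil) .nil) .nil)) .nil) .nil)) .nil)) .nil))) .nil) .nil)) .nil) (.cons (nat_lit 278) (.cons (nat_lit 276) (.cons (nat_lit 402) (.cons (nat_lit 396) (.cons (nat_lit 522) (.cons (nat_lit 516) (.cons (nat_lit 646) (.cons (nat_lit 643) (.cons (nat_lit 17027) (.cons (nat_lit 5) .nil .nil) .nil) .nil) (.cons (nat_lit 650) (.cons (nat_lit 644) (.cons (nat_lit 769) (.cons (nat_lit 772) (.cons (nat_lit 902) (.cons (nat_lit 899) (.cons (nat_lit 17283) (.cons (nat_lit 5) .nil .nil) .nil) .nil) (.cons (nat_lit 906) Uxp12n1341 .nil)) .nil) (.cons (nat_lit 778) (.cons (nat_lit 772) (.cons (nat_lit 902) (.cons (nat_lit 899) (.cons (nat_lit 17283) (.cons (nat_lit 5) .nil .nil) .nil) .nil) (.cons (nat_lit 906) (.cons (nat_lit 900) (.cons (nat_lit 1025)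 Uxp12n1338 .nil) .nil) (.cons (nat_lit 905) (.cons (nat_lit 908) (.cons (nat_lit 1034) Uxp12n1338 .nil) .nil) .nil))) .nil) .nil)) .nil) (.cons (nat_lit 649) (.cons (nat_lit 652) (.cons (nat_lit 778) Uxp12n1366 .nil) .nil) .nil))) .nil) (.cons (nat_lit 529) (.cons (nat_lit 532) (.cons (nat_lit 658) (.cons (nat_lit 652) (.cons (nat_lit 778) Uxp12n1366 (.cons (nat_lit 777) (.cons (nat_lit 780) (.cons (nat_lit 906) (.cons (nat_lit 900) (.cons (nat_lit 1025) Uxp12n1386 Uxp12n1361) .nil) .nil) .nil) .nil)) .nil) .nil) .nil) (.cons (nat_lit 534) (.cons (nat_lit 532) (.cons (nat_lit 657) Uxp12n1408 (.cons (nat_lit 666) Uxp12n1408 .nil)) .nil) .nil))) .nil) (.cons (nat_lit 409) (.cons (nat_lit 412) (.cons (nat_lit 538) (.cons (nat_lit 532) (.cons (nat_lit 658) (.cons (nat_lit 652) (.cons (nat_lit 778) (.cons (nat_lit 772) (.cons (nat_lit 902) (.cons (nat_lit 899) (.cons (nat_lit 17283) (.cons (nat_lit 5) .nil .nil)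 .nil) .nil) (.cons (nat_lit 905) (.cons (nat_lit 908) Uxp12n1361 .nil) (.cons (nat_lit 906) Uxp12n1341 .nil))) .nil) (.cons (nat_lit 777) (.cons (nat_lit 780) Uxp12n1425 .nil) .nil)) .nil) (.cons (nat_lit 657) (.cons (nat_lit 660) (.cons (nat_lit 786) (.cons (nat_lit 780) (.cons (nat_lit 905) (.cons (nat_lit 908) (.cons (nat_lit 1034) (.cons (nat_lit 1028) (.cons (nat_lit 1158) (.cons (nat_lit 1155) (.cons (nat_lit 17539) (.cons (nat_lit 5) .nil .nil) .nil) .nil) (.cons (nat_lit 1161) (.cons (nat_lit 1164) (.cons (nat_lit 1290) (.cons (nat_lit 1284) (.cons (nat_lit 1414) (.cons (nat_lit 1411) (.cons (nat_lit 17795) (.cons (nat_lit 5) .nil .nil) .nil) .nil) (.cons (nat_lit 1417) (.cons (nat_lit 1420) (.cons (nat_lit 1546) Uxp12n1376 .nil) .nil) (.cons (nat_lit 1418) (.cons (nat_lit 1412) (.cons (nat_lit 1537) Uxp12n1376 .nil) .nil) .nil))) .nil) .nil) .nil) Uxp12n1384)) .nil) .nil) .nil) Uxp12n1425) .nil) .nil)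 .nil) .nil)) .nil) (.cons (nat_lit 542) (.cons (nat_lit 540) (.cons (nat_lit 666) Uxp12n1408 .nil) .nil) .nil)) .nil) .nil)) .nil) .nil))
def Uxp12n1461 : PT := (.cons (nat_lit 1284) (.cons (nat_lit 1409) (.cons (nat_lit 1411) (.cons (nat_lit 5) .nil .nil) .nil) .nil) .nil)
def Uxp12n1465 : PT := (.cons (nat_lit 1162) (.cons (nat_lit 1156) (.cons (nat_lit 1286) (.cons (nat_lit 58627) Uxp12n1461 .nil) .nil) .nil) (.cons (nat_lit 1166) (.cons (nat_lit 1164) (.cons (nat_lit 1289) Uxp12n232 .nil) .nil) .nil))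
def Uxp12n1482 : PT := (.cons (nat_lit 1155) (.cons (nat_lit 50307) (.cons (nat_lit 5) .nil .nil) .nil) (.cons (nat_lit 50315) (.cons (nat_lit 1164) (.cons (nat_lit 1290) Uxp12n1461 .nil) .nil) .nil))
def Uxp12n1486 : PT := (.cons (nat_lit 1796) (.cons (nat_lit 1921) (.cons (nat_lit 1923) (.cons (nat_lit 5) .nil .nil) .nil) .nil) .nil)
def Uxp12n1499 : PT := (.cons (nat_lit 1164) (.cons (nat_lit 1294) (.cons (nat_lit 1292) (.cons (nat_lit 1422) (.cons (nat_lit 1420) (.cons (nat_lit 1546) (.cons (nat_lit 67075) (.cons (nat_lit 1412) (.cons (nat_lit 1670) (.cons (nat_lit 83587) (.cons (nat_lit 1668) (.cons (nat_lit 1798) (.cons (nat_lit 50947) Uxp12n1486 .nil) .nil) .nil) .nil) .nil) .nil) .nil) .nil) .nil) .nil) .nil) .nil) .nil)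
def Uxp12n1516 : PT := (.cons (nat_lit 1172) (.cons (nat_lit 1302) (.cons (nat_lit 1300) (.cons (nat_lit 1426) Uxp12n405 .nil) .nil) .nil) .nil)
def Uxp12n1531 : PT := (.cons (nat_lit 2052) (.cons (nat_lit 2177) (.cons (nat_lit 2179) (.cons (nat_lit 5) .nil .nil) .nil) .nil) .nil)
def Uxp12n1544 : PT := (.cons (nat_lit 1420) (.cons (nat_lit 1550) (.cons (nat_lit 1548) (.cons (nat_lit 1678) (.cons (nat_lit 1676) (.cons (nat_lit 1802) (.cons (nat_lit 83715) (.cons (nat_lit 1668) (.cons (nat_lit 1926) (.cons (nat_lit 100227) (.cons (nat_lit 1924) (.cons (nat_lit 2054) (.cons (nat_lit 67587) Uxp12n1531 .nil) .nil) .nil) .nil) .nil) .nil) .nil) .nil) .nil) .nil) .nil) .nil) .nil)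
def Uxp12n1548 : PT := (.cons (nat_lit 1290) Uxp12n209 (.cons (nat_lit 1294) (.cons (nat_lit 1292) (.cons (nat_lit 1417) Uxp12n1544 .nil) .nil) .nil))
def Uxp12n1554 : PT := (.cons (nat_lit 1676) (.cons (nat_lit 1806) (.cons (nat_lit 1804) (.cons (nat_lit 1934) (.cons (nat_lit 67467) Uxp12n794 .nil) .nil) .nil) .nil) .nil)
def Uxp12n1558 : PT := (.cons (nat_lit 1428) (.cons (nat_lit 1558) (.cons (nat_lit 1556) (.cons (nat_lit 1682) Uxp12n1554 .nil) .nil) .nil) .nil)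
def Uxp12n1563 : PT := (.cons (nat_lit 1426) (.cons (nat_lit 1420) (.cons (nat_lit 1550) (.cons (nat_lit 1548) (.cons (nat_lit 1673) Uxp12n1554 .nil) .nil) .nil) .nil) .nil)
def Uxp12n1568 : PT := (.cons (nat_lit 1172) (.cons (nat_lit 1297) (.cons (nat_lit 1299) (.cons (nat_lit 1172) (.cons (nat_lit 1425) Uxp12n1558 Uxp12n1563) .nil) .nil) .nil) .nil)
def Uxp12n1577 : PT := (.cons (nat_lit 1046) (.cons (nat_lit 1044) (.cons (nat_lit 1170) (.cons (nat_lit 1164) Uxp12n1548 .nil) (.cons (nat_lit 1174) Uxp12n1568 (.cons (nat_lit 1169) (.cons (nat_lit 1172) (.cons (nat_lit 1302) (.cons (nat_lit 1300) (.cons (nat_lit 1426) Uxp12n1544 .nil) .nil) .nil) .nil) .nil))) .nil) .nil)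
def Uxp12n1581 : PT := (.cons (nat_lit 1036) (.cons (nat_lit 1161) (.cons (nat_lit 1164) (.cons (nat_lit 1294) (.cons (nat_lit 58635) Uxp12n310 .nil) .nil) .nil) Uxp12n1465) .nil)
def Uxp12n1595 : PT := (.cons (nat_lit 1028) (.cons (nat_lit 1158) (.cons (nat_lit 1155) (.cons (nat_lit 50307) (.cons (nat_lit 5) .nil .nil) .nil) (.cons (nat_lit 50315) (.cons (nat_lit 1164) (.cons (nat_lit 1289) Uxp12n310 (.cons (nat_lit 1290) Uxp12n1461 .nil)) .nil) .nil)) Uxp12n333) .nil)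
def Uxp12n1597 : PT := (.cons (nat_lit 1796) (.cons (nat_lit 1921) (.cons (nat_lit 1923) (.cons (nat_lit 5) .nil .nil) .nil) (.cons (nat_lit 1930) (.cons (nat_lit 1923) (.cons (nat_lit 5) .nil .nil) .nil) .nil)) .nil)
def Uxp12n1610 : PT := (.cons (nat_lit 1164) (.cons (nat_lit 1294) (.cons (nat_lit 1292) (.cons (nat_lit 1422) (.cons (nat_lit 1420) (.cons (nat_lit 1546) (.cons (nat_lit 67075) (.cons (nat_lit 1412) (.cons (nat_lit 1670) (.cons (nat_lit 83587) (.cons (nat_lit 1668) (.cons (nat_lit 1798) (.cons (nat_lit 50947) Uxp12n1597 .nil) .nil) .nil) .nil) .nil) .nil) .nil) .nil) .nil) .nil) .nil) .nil) .nil)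
def Uxp12n1613 : PT := (.cons (nat_lit 1038) (.cons (nat_lit 1036) (.cons (nat_lit 1161) Uxp12n1610 (.cons (nat_lit 1170) Uxp12n1499 .nil)) .nil) .nil)
def Uxp12n1626 : PT := (.cons (nat_lit 1170) (.cons (nat_lit 1164) (.cons (nat_lit 1294) (.cons (nat_lit 1292) (.cons (nat_lit 1417) Uxp12n405 (.cons (nat_lit 1426) Uxp12n405 .nil)) .nil) .nil) .nil) .nil)
def Uxp12n1632 : PT := (.cons (nat_lit 918) (.cons (nat_lit 916) (.cons (nat_lit 1041) (.cons (nat_lit 1043) (.cons (nat_lit 916) (.cons (nat_lit 1169) Uxp12n1516 Uxp12n1626) .nil) (.cons (nat_lit 1052) (.cons (nat_lit 1182) Uxp12n398 .nil) .nil)) (.cons (nat_lit 1050) (.cons (nat_lit 1043) (.cons (nat_lit 916) Uxp12n410 .nil) .nil) .nil)) .nil) .nil)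
def Uxp12n1647 : PT := (.cons (nat_lit 1540) (.cons (nat_lit 1665) (.cons (nat_lit 1667) (.cons (nat_lit 5) .nil .nil) .nil) .nil) .nil)
def Uxp12n1652 : PT := (.cons (nat_lit 1284) (.cons (nat_lit 1409) (.cons (nat_lit 1412) (.cons (nat_lit 1542) (.cons (nat_lit 42499) Uxp12n1647 .nil) .nil) .nil) .nil) .nil)
def Uxp12n1662 : PT := (.cons (nat_lit 1028) (.cons (nat_lit 1153) (.cons (nat_lit 1155) (.cons (nat_lit 5) .nil .nil) .nil) (.cons (nat_lit 1162) (.cons (nat_lit 1155) (.cons (nat_lit 5) .nil .nil) .nil) .nil)) .nil)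
def Uxp12n1666 : PT := (.cons (nat_lit 1162) (.cons (nat_lit 1156) (.cons (nat_lit 1286) (.cons (nat_lit 42243) Uxp12n1461 .nil) .nil) .nil) .nil)
def Uxp12n1687 : PT := (.cons (nat_lit 1036) (.cons (nat_lit 1166) (.cons (nat_lit 1164) (.cons (nat_lit 1294) (.cons (nat_lit 1292) (.cons (nat_lit 1418) (.cons (nat_lit 58755) (.cons (nat_lit 1284) (.cons (nat_lit 1542) (.cons (nat_lit 75267) (.cons (nat_lit 1540) (.cons (nat_lit 1670) (.cons (nat_lit 1667) (.cons (nat_lit 42627) (.cons (nat_lit 5) .nil .nil) .nil) (.cons (nat_lit 42635) (.cons (nat_lit 1676) (.cons (nat_lit 1802) Uxp12n1486 (.cons (nat_lit 1801) Uxp12n351 .nil)) .nil) .nil)) .nil) .nil) .nil) .nil) .nil) .nil) .nil) .nil) .nil) .nil) .nil) .nil)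
def Uxp12n1697 : PT := (.cons (nat_lit 1162) (.cons (nat_lit 1155) (.cons (nat_lit 5) .nil .nil) (.cons (nat_lit 1164) (.cons (nat_lit 1290) Uxp12n1461 (.cons (nat_lit 1289) Uxp12n310 .nil)) .nil)) .nil)
def Uxp12n1704 : PT := (.cons (nat_lit 1418) (.cons (nat_lit 1412) (.cons (nat_lit 1542) (.cons (nat_lit 42499) Uxp12n1647 .nil) .nil) .nil) .nil)
def Uxp12n1749 : PT := (.cons (nat_lit 650) (.cons (nat_lit 644) (.cons (nat_lit 769) (.cons (nat_lit 771) (.cons (nat_lit 5) .nil .nil) (.cons (nat_lit 788) (.cons (nat_lit 914) (.cons (nat_lit 908) Uxp12n648 .nil) (.cons (nat_lit 918) (.cons (nat_lit 916) (.cons (nat_lit 1042) (.cons (nat_lit 1036) Uxp12n1465 .nil) (.cons (nat_lit 1041) Uxp12n236 (.cons (nat_lit 1046) Uxp12n259 .nil))) .nil) .nil)) .nil)) (.cons (nat_lit 778) (.cons (nat_lit 771) (.cons (nat_lit 5) .nil .nil) (.cons (nat_lit 780) (.cons (nat_lit 906) (.cons (nat_lit 900) (.cons (nat_lit 1025) (.cons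 (nat_lit 1027) (.cons (nat_lit 5) .nil .nil) .nil) .nil) .nil) Uxp12n668) .nil)) (.cons (nat_lit 782) (.cons (nat_lit 780) (.cons (nat_lit 906) (.cons (nat_lit 900) (.cons (nat_lit 1025) (.cons (nat_lit 1028) (.cons (nat_lit 1158) Uxp12n1482 .nil) .nil) (.cons (nat_lit 1034) Uxp12n5 (.cons (nat_lit 1038) (.cons (nat_lit 1036) (.cons (nat_lit 1161) Uxp12n1499 .nil) .nil) .nil))) .nil) (.cons (nat_lit 905) (.cons (nat_lit 908) (.cons (nat_lit 1034) (.cons (nat_lit 1028) (.cons (nat_lit 1158) Uxp12n1482 (.cons (nat_lit 1162) (.cons (nat_lit 1156) (.cons (nat_lit 1281) Uxp12n193 .nil) .nil) .nil)) .nil) (.cons (nat_lit 1046) (.cons (nat_lit 1044) (.cons (nat_lit 1170) Uxp12n1499 .nil) .nil) .nil)) .nil) (.cons (nat_lit 918) (.cons (nat_lit 916) (.cons (nat_lit 1041) (.cons (nat_lit 1043) (.cons (nat_lit 916) (.cons (nat_lit 1169) Uxp12n1516 Uxp12n410) .nil) .nil) .nil) .nil) .nil))) .nil) .nil))) .nil) (.cons (nat_lit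 649) (.cons (nat_lit 652) (.cons (nat_lit 778) (.cons (nat_lit 771) (.cons (nat_lit 5) .nil .nil) (.cons (nat_lit 780) (.cons (nat_lit 905) (.cons (nat_lit 908) (.cons (nat_lit 1034) (.cons (nat_lit 1027) (.cons (nat_lit 5) .nil .nil) (.cons (nat_lit 1036) Uxp12n747 .nil)) Uxp12n1577) .nil) (.cons (nat_lit 914) (.cons (nat_lit 908) Uxp12n648 .nil) (.cons (nat_lit 918) (.cons (nat_lit 916) (.cons (nat_lit 1041) Uxp12n315 (.cons (nat_lit 1042) Uxp12n1581 (.cons (nat_lit 1046) Uxp12n259 .nil))) .nil) .nil))) .nil)) (.cons (nat_lit 790) (.cons (nat_lit 788) (.cons (nat_lit 914) (.cons (nat_lit 908) (.cons (nat_lit 1034) Uxp12n1595 (.cons (nat_lit 1041) (.cons (nat_lit 1044) (.cons (nat_lit 1170) Uxp12n346 .nil) .nil) Uxp12n1613)) .nil) (.cons (nat_lit 913) (.cons (nat_lit 916) (.cons (nat_lit 1050) (.cons (nat_lit 1044) (.cons (nat_lit 1170) Uxp12n346 Uxp12n377) .nil) (.cons (nat_lit 1046) (.cons (nat_lit 1044)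 (.cons (nat_lit 1170) Uxp12n1610 .nil) .nil) .nil)) .nil) Uxp12n1632)) .nil) .nil)) .nil) (.cons (nat_lit 662) (.cons (nat_lit 660) (.cons (nat_lit 786) (.cons (nat_lit 780) (.cons (nat_lit 905) (.cons (nat_lit 908) (.cons (nat_lit 1038) (.cons (nat_lit 41995) (.cons (nat_lit 1036) (.cons (nat_lit 1162) (.cons (nat_lit 1155) (.cons (nat_lit 5) .nil .nil) (.cons (nat_lit 1164) (.cons (nat_lit 1289) Uxp12n310 (.cons (nat_lit 1290) Uxp12n1461 .nil)) .nil)) .nil) .nil) .nil) (.cons (nat_lit 1042) (.cons (nat_lit 1036) (.cons (nat_lit 1162) (.cons (nat_lit 1156) (.cons (nat_lit 1286) (.cons (nat_lit 42243) Uxp12n1461 .nil) .nil) .nil) (.cons (nat_lit 1161) (.cons (nat_lit 1164) (.cons (nat_lit 1290) Uxp12n1652 .nil) .nil) .nil)) .nil) .nil)) .nil) (.cons (nat_lit 906) (.cons (nat_lit 900) (.cons (nat_lit 1030) (.cons (nat_lit 41987) Uxp12n1662 .nil) (.cons (nat_lit 1034) (.cons (nat_lit 1028) (.cons (nat_lit 1153)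 (.cons (nat_lit 1156) (.cons (nat_lit 1286) (.cons (nat_lit 42243) Uxp12n1461 .nil) .nil) .nil) .nil) .nil) (.cons (nat_lit 1033) (.cons (nat_lit 1036) Uxp12n1666 .nil) .nil))) .nil) (.cons (nat_lit 910) (.cons (nat_lit 908) (.cons (nat_lit 1033) Uxp12n1687 (.cons (nat_lit 1042) Uxp12n35 .nil)) .nil) .nil))) .nil) (.cons (nat_lit 785) (.cons (nat_lit 788) (.cons (nat_lit 914) (.cons (nat_lit 908) (.cons (nat_lit 1038) (.cons (nat_lit 41995) (.cons (nat_lit 1036) Uxp12n1697 .nil) .nil) (.cons (nat_lit 1042) (.cons (nat_lit 1036) (.cons (nat_lit 1161) (.cons (nat_lit 1164) (.cons (nat_lit 1294) (.cons (nat_lit 42251) Uxp12n310 .nil) (.cons (nat_lit 1290) Uxp12n1652 .nil)) .nil) Uxp12n1666) .nil) (.cons (nat_lit 1041) (.cons (nat_lit 1044) (.cons (nat_lit 1170) (.cons (nat_lit 1164) (.cons (nat_lit 1289) (.cons (nat_lit 1292) Uxp12n1704 .nil) (.cons (nat_lit 1290) Uxp12n1652 .nil)) .nil) .nil) .nil) .nil))) .nil)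 (.cons (nat_lit 918) (.cons (nat_lit 916) (.cons (nat_lit 1042) Uxp12n1687 .nil) .nil) .nil)) .nil) (.cons (nat_lit 790) (.cons (nat_lit 787) Uxp12n286 (.cons (nat_lit 796) (.cons (nat_lit 921) (.cons (nat_lit 924) (.cons (nat_lit 1050) (.cons (nat_lit 1043) (.cons (nat_lit 788) (.cons (nat_lit 1169) Uxp12n721 Uxp12n726) .nil) .nil) (.cons (nat_lit 1054) (.cons (nat_lit 1052) (.cons (nat_lit 1178) (.cons (nat_lit 1172) (.cons (nat_lit 1302) (.cons (nat_lit 1300) (.cons (nat_lit 1430) (.cons (nat_lit 42387) (.cons (nat_lit 1428) (.cons (nat_lit 1558) (.cons (nat_lit 83475) (.cons (nat_lit 1556) (.cons (nat_lit 1682) (.cons (nat_lit 67211) (.cons (nat_lit 780) (.cons (nat_lit 1802) Uxp12n1486 .nil) .nil) .nil) .nil) .nil) .nil) .nil) .nil) .nil) .nil) .nil) .nil) .nil) .nil) .nil) .nil)) .nil) (.cons (nat_lit 922) (.cons (nat_lit 916) (.cons (nat_lit 1041) (.cons (nat_lit 1043) (.cons (nat_lit 788) Uxp12n726 .nil)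 .nil) .nil) .nil) .nil)) .nil)) .nil))) .nil) .nil)))
def Uxp12n1755 : PT := (.cons (nat_lit 1156) (.cons (nat_lit 1281) (.cons (nat_lit 1283) (.cons (nat_lit 5) .nil .nil) .nil) .nil) .nil)
def Uxp12n1758 : PT := (.cons (nat_lit 1027) (.cons (nat_lit 5) .nil .nil) (.cons (nat_lit 1036) (.cons (nat_lit 1162) Uxp12n1755 Uxp12n747) .nil))
def Uxp12n1765 : PT := (.cons (nat_lit 905) (.cons (nat_lit 908) (.cons (nat_lit 1034) Uxp12n1758 Uxp12n1577) .nil) (.cons (nat_lit 918) (.cons (nat_lit 916) (.cons (nat_lit 1042) Uxp12n1581 (.cons (nat_lit 1041) Uxp12n315 (.cons (nat_lit 1046) Uxp12n259 .nil))) .nil) .nil))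
def Uxp12n1772 : PT := (.cons (nat_lit 1418) (.cons (nat_lit 1412) (.cons (nat_lit 1542) (.cons (nat_lit 75267) Uxp12n1647 .nil) .nil) .nil) (.cons (nat_lit 1422) (.cons (nat_lit 1420) (.cons (nat_lit 1545) Uxp12n784 .nil) .nil) .nil))
def Uxp12n1778 : PT := (.cons (nat_lit 1174) (.cons (nat_lit 1172) (.cons (nat_lit 1298) (.cons (nat_lit 1292) Uxp12n1772 .nil) (.cons (nat_lit 1297) Uxp12n788 (.cons (nat_lit 1302) Uxp12n811 .nil))) .nil) .nil)
def Uxp12n1784 : PT := (.cons (nat_lit 1411) (.cons (nat_lit 66947) (.cons (nat_lit 5) .nil .nil) .nil) (.cons (nat_lit 66955) (.cons (nat_lit 1420) (.cons (nat_lit 1546) Uxp12n1647 .nil) .nil) .nil))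
def Uxp12n1788 : PT := (.cons (nat_lit 1164) (.cons (nat_lit 1290) (.cons (nat_lit 1284) (.cons (nat_lit 1414) Uxp12n1784 (.cons (nat_lit 1418) (.cons (nat_lit 1412) (.cons (nat_lit 1537) Uxp12n825 .nil) .nil) .nil)) .nil) (.cons (nat_lit 1302) (.cons (nat_lit 1300) (.cons (nat_lit 1426) Uxp12n1544 .nil) .nil) .nil)) .nil)
def Uxp12n1792 : PT := (.cons (nat_lit 1156) (.cons (nat_lit 1281) (.cons (nat_lit 1284) (.cons (nat_lit 1414) Uxp12n1784 .nil) .nil) Uxp12n1548) .nil)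
def Uxp12n1802 : PT := (.cons (nat_lit 1284) (.cons (nat_lit 1409) (.cons (nat_lit 1411) (.cons (nat_lit 5) .nil .nil) .nil) (.cons (nat_lit 1418) (.cons (nat_lit 1411) (.cons (nat_lit 5) .nil .nil) .nil) .nil)) .nil)
def Uxp12n1809 : PT := (.cons (nat_lit 1418) (.cons (nat_lit 1412) (.cons (nat_lit 1542) (.cons (nat_lit 58883) Uxp12n1647 .nil) .nil) .nil) .nil)
def Uxp12n1812 : PT := (.cons (nat_lit 1290) (.cons (nat_lit 1284) (.cons (nat_lit 1409) (.cons (nat_lit 1412) (.cons (nat_lit 1542) (.cons (nat_lit 58883) Uxp12n1647 .nil) .nil) .nil) .nil) .nil) (.cons (nat_lit 1289) (.cons (nat_lit 1292) Uxp12n1809 .nil) .nil))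
def Uxp12n1820 : PT := (.cons (nat_lit 1546) (.cons (nat_lit 1540) (.cons (nat_lit 1665) (.cons (nat_lit 1668) (.cons (nat_lit 1798) (.cons (nat_lit 59139) Uxp12n1486 .nil) .nil) .nil) .nil) .nil) .nil)
def Uxp12n1824 : PT := (.cons (nat_lit 1292) (.cons (nat_lit 1418) (.cons (nat_lit 1412) (.cons (nat_lit 1542) (.cons (nat_lit 58883) Uxp12n1647 .nil) .nil) .nil) (.cons (nat_lit 1417) (.cons (nat_lit 1420) Uxp12n1820 .nil) .nil)) .nil)
def Uxp12n1842 : PT := (.cons (nat_lit 1292) (.cons (nat_lit 1422) (.cons (nat_lit 1420) (.cons (nat_lit 1550) (.cons (nat_lit 1548) (.cons (nat_lit 1674) (.cons (nat_lit 75395) (.cons (nat_lit 1540) (.cons (nat_lit 1798) (.cons (nat_lit 91907) (.cons (nat_lit 1796) (.cons (nat_lit 1926) (.cons (nat_lit 1923) (.cons (nat_lit 59267) (.cons (nat_lit 5) .nil .nil) .nil) (.cons (nat_lit 59275) (.cons (nat_lit 1932) (.cons (nat_lit 2058) Uxp12n1531 (.cons (nat_lit 2057) Uxp12n844 .nil))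 .nil) .nil)) .nil) .nil) .nil) .nil) .nil) .nil) .nil) .nil) .nil) .nil) .nil) .nil)
def Uxp12n1845 : PT := (.cons (nat_lit 1166) (.cons (nat_lit 1164) (.cons (nat_lit 1289) Uxp12n1842 (.cons (nat_lit 1298) Uxp12n232 .nil)) .nil) .nil)
def Uxp12n1855 : PT := (.cons (nat_lit 1297) (.cons (nat_lit 1300) (.cons (nat_lit 1426) (.cons (nat_lit 1420) (.cons (nat_lit 1545) (.cons (nat_lit 1548) (.cons (nat_lit 1674) (.cons (nat_lit 1668) (.cons (nat_lit 1798) (.cons (nat_lit 59139) Uxp12n1486 .nil) .nil) .nil) .nil) .nil) Uxp12n1820) .nil) .nil) .nil) .nil)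
def Uxp12n1889 : PT := (.cons (nat_lit 1046) (.cons (nat_lit 1043) Uxp12n876 (.cons (nat_lit 1052) (.cons (nat_lit 1177) (.cons (nat_lit 1180) (.cons (nat_lit 1306) Uxp12n893 (.cons (nat_lit 1310) (.cons (nat_lit 1308) (.cons (nat_lit 1434) (.cons (nat_lit 1428) (.cons (nat_lit 1558) (.cons (nat_lit 1556) (.cons (nat_lit 1686) (.cons (nat_lit 59027) (.cons (nat_lit 1684) (.cons (nat_lit 1814) (.cons (nat_lit 100115) (.cons (nat_lit 1812) (.cons (nat_lit 1938) (.cons (nat_lit 83851) (.cons (nat_lit 1036) (.cons (nat_lit 2058) Uxp12n1531 .nil) .nil) .nil) .nil) .nil) .nil) .nil) .nil) .nil) .nil) .nil) .nil) .nil) .nil) .nil) .nil)) .nil) (.cons (nat_lit 1178) (.cons (nat_lit 1172) (.cons (nat_lit 1297) (.cons (nat_lit 1299) (.cons (nat_lit 1044) Uxp12n890 .nil) .nil) .nil) .nil) .nil)) .nil)) .nil)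
def Uxp12n1890 : PT := (.cons (nat_lit 1041) (.cons (nat_lit 1044) (.cons (nat_lit 1178) (.cons (nat_lit 1172) (.cons (nat_lit 1298) Uxp12n1824 Uxp12n1855) .nil) (.cons (nat_lit 1174) (.cons (nat_lit 1172) (.cons (nat_lit 1298) Uxp12n1842 .nil) .nil) .nil)) .nil) Uxp12n1889)
def Uxp12n1899 : PT := (.cons (nat_lit 1155) (.cons (nat_lit 50307) (.cons (nat_lit 5) .nil .nil) .nil) (.cons (nat_lit 50315) (.cons (nat_lit 1164) (.cons (nat_lit 1290) Uxp12n1802 .nil) .nil) .nil))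
def Uxp12n1911 : PT := (.cons (nat_lit 1162) (.cons (nat_lit 1156) (.cons (nat_lit 1281) (.cons (nat_lit 1284) (.cons (nat_lit 1414) (.cons (nat_lit 1411) (.cons (nat_lit 50563) (.cons (nat_lit 5) .nil .nil) .nil) (.cons (nat_lit 50571) (.cons (nat_lit 1420) (.cons (nat_lit 1546) Uxp12n1647 .nil) .nil) .nil)) (.cons (nat_lit 1418) (.cons (nat_lit 1412) (.cons (nat_lit 1537) Uxp12n339 .nil) .nil) .nil)) .nil) (.cons (nat_lit 1290) Uxp12n193 .nil)) .nil) Uxp12n377)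
def Uxp12n1923 : PT := (.cons (nat_lit 1155) (.cons (nat_lit 5) .nil .nil) (.cons (nat_lit 1172) (.cons (nat_lit 1298) Uxp12n310 .nil) .nil))
def Uxp12n1935 : PT := (.cons (nat_lit 1156) (.cons (nat_lit 1286) (.cons (nat_lit 42243) Uxp12n1802 .nil) (.cons (nat_lit 1290) Uxp12n1652 (.cons (nat_lit 1289) (.cons (nat_lit 1292) Uxp12n1704 .nil) .nil))) .nil)
def Uxp12n1943 : PT := (.cons (nat_lit 1540) (.cons (nat_lit 1665) (.cons (nat_lit 1667) (.cons (nat_lit 5) .nil .nil) .nil) (.cons (nat_lit 1674) (.cons (nat_lit 1667) (.cons (nat_lit 5) .nil .nil) .nil) .nil)) .nil)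
def Uxp12n1949 : PT := (.cons (nat_lit 1540) (.cons (nat_lit 1665) (.cons (nat_lit 1668) (.cons (nat_lit 1798) (.cons (nat_lit 42755) Uxp12n1486 .nil) .nil) .nil) .nil) .nil)
def Uxp12n1955 : PT := (.cons (nat_lit 1290) (.cons (nat_lit 1284) (.cons (nat_lit 1409) (.cons (nat_lit 1412) (.cons (nat_lit 1542) (.cons (nat_lit 42499) Uxp12n1943 .nil) (.cons (nat_lit 1546) Uxp12n1949 .nil)) .nil) Uxp12n1704) .nil) .nil)
def Uxp12n1959 : PT := (.cons (nat_lit 1036) (.cons (nat_lit 1162) Uxp12n1935 (.cons (nat_lit 1161) (.cons (nat_lit 1164) Uxp12n1955 .nil) .nil)) .nil)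
def Uxp12n1963 : PT := (.cons (nat_lit 1930) (.cons (nat_lit 1923) (.cons (nat_lit 5) .nil .nil) (.cons (nat_lit 1932) (.cons (nat_lit 2058) Uxp12n1531 (.cons (nat_lit 2057) Uxp12n844 .nil)) .nil)) .nil)
def Uxp12n1967 : PT := (.cons (nat_lit 1676) (.cons (nat_lit 1802) Uxp12n1597 (.cons (nat_lit 1801) (.cons (nat_lit 1804) Uxp12n1963 .nil) .nil)) .nil)
def Uxp12n1981 : PT := (.cons (nat_lit 1036) (.cons (nat_lit 1166) (.cons (nat_lit 1164) (.cons (nat_lit 1294) (.cons (nat_lit 1292) (.cons (nat_lit 1418) (.cons (nat_lit 58755) (.cons (nat_lit 1284) (.cons (nat_lit 1542) (.cons (nat_lit 75267) (.cons (nat_lit 1540) (.cons (nat_lit 1670) (.cons (nat_lit 1667) (.cons (nat_lit 42627) (.cons (nat_lit 5) .nil .nil) .nil) (.cons (nat_lit 42635) Uxp12n1967 .nil)) .nil) .nil) .nil) .nil) .nil) .nil) .nil) .nil) .nil) .nil) .nil) .nil)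
def Uxp12n1991 : PT := (.cons (nat_lit 1546) Uxp12n1949 (.cons (nat_lit 1545) (.cons (nat_lit 1548) (.cons (nat_lit 1674) (.cons (nat_lit 1668) (.cons (nat_lit 1798) (.cons (nat_lit 42755) Uxp12n1486 .nil) .nil) .nil) .nil) .nil) .nil))
def Uxp12n2012 : PT := (.cons (nat_lit 1676) (.cons (nat_lit 1806) (.cons (nat_lit 1804) (.cons (nat_lit 1934) (.cons (nat_lit 42891) Uxp12n794 .nil) .nil) .nil) .nil) .nil)
def Uxp12n2024 : PT := (.cons (nat_lit 1299) (.cons (nat_lit 788) (.cons (nat_lit 1425) (.cons (nat_lit 1428) (.cons (nat_lit 1558) (.cons (nat_lit 1556) (.cons (nat_lit 1682) Uxp12n2012 .nil) .nil) .nil) .nil) (.cons (nat_lit 1426) (.cons (nat_lit 1420) (.cons (nat_lit 1550) (.cons (nat_lit 1548) (.cons (nat_lit 1673) Uxp12n2012 .nil) .nil) .nil) .nil) .nil)) .nil) .nil)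
def Uxp12n2045 : PT := (.cons (nat_lit 1054) (.cons (nat_lit 1052) (.cons (nat_lit 1178) (.cons (nat_lit 1172) (.cons (nat_lit 1302) (.cons (nat_lit 1300) (.cons (nat_lit 1430) (.cons (nat_lit 42387) (.cons (nat_lit 1428) (.cons (nat_lit 1558) (.cons (nat_lit 83475) (.cons (nat_lit 1556) (.cons (nat_lit 1682) (.cons (nat_lit 67211) (.cons (nat_lit 780) (.cons (nat_lit 1802) Uxp12n1597 .nil) .nil) .nil) .nil) .nil) .nil) .nil) .nil) .nil) .nil) .nil) .nil) .nil) .nil) .nil) .nil)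
def Uxp12n2052 : PT := (.cons (nat_lit 922) (.cons (nat_lit 916) (.cons (nat_lit 1041) (.cons (nat_lit 1043) (.cons (nat_lit 788) Uxp12n996 .nil) .nil) (.cons (nat_lit 1050) (.cons (nat_lit 1043) (.cons (nat_lit 788) Uxp12n726 .nil) .nil) .nil)) .nil) .nil)
def Uxp12n2068 : PT := (.cons (nat_lit 899) (.cons (nat_lit 33667) (.cons (nat_lit 5) .nil .nil) .nil) (.cons (nat_lit 33675) (.cons (nat_lit 908) (.cons (nat_lit 1034) (.cons (nat_lit 1028) (.cons (nat_lit 1153) Uxp12n1923 (.cons (nat_lit 1162) Uxp12n678 .nil)) .nil) .nil) .nil) .nil))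
def Uxp12n2069 : PT := (.cons (nat_lit 33931) (.cons (nat_lit 1164) (.cons (nat_lit 1290) Uxp12n1461 (.cons (nat_lit 1289) Uxp12n310 .nil)) .nil) .nil)
def Uxp12n2072 : PT := (.cons (nat_lit 1162) (.cons (nat_lit 1156) (.cons (nat_lit 1281) Uxp12n94 .nil) .nil) (.cons (nat_lit 1161) (.cons (nat_lit 1164) (.cons (nat_lit 1290) Uxp12n94 .nil) .nil) .nil))
def Uxp12n2074 : PT := (.cons (nat_lit 1028) (.cons (nat_lit 1158) (.cons (nat_lit 1155) (.cons (nat_lit 33923) (.cons (nat_lit 5) .nil .nil) .nil) Uxp12n2069) Uxp12n2072) .nil)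
def Uxp12n2083 : PT := (.cons (nat_lit 1162) (.cons (nat_lit 1156) (.cons (nat_lit 1281) (.cons (nat_lit 1284) (.cons (nat_lit 1414) (.cons (nat_lit 1411) (.cons (nat_lit 34179) (.cons (nat_lit 5) .nil .nil) .nil) (.cons (nat_lit 34187) (.cons (nat_lit 1420) (.cons (nat_lit 1545) Uxp12n116 (.cons (nat_lit 1546) Uxp12n1647 .nil)) .nil) .nil)) (.cons (nat_lit 1418) (.cons (nat_lit 1412) (.cons (nat_lit 1537) Uxp12n453 .nil) .nil) .nil)) .nil) (.cons (nat_lit 1290) Uxp12n94 .nil)) .nil) .nil)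
def Uxp12n2097 : PT := (.cons (nat_lit 1155) (.cons (nat_lit 33923) (.cons (nat_lit 5) .nil .nil) .nil) (.cons (nat_lit 33931) (.cons (nat_lit 1164) (.cons (nat_lit 1289) Uxp12n310 (.cons (nat_lit 1290) Uxp12n1461 .nil)) .nil) .nil))
def Uxp12n2110 : PT := (.cons (nat_lit 1667) (.cons (nat_lit 5) .nil .nil) (.cons (nat_lit 1676) (.cons (nat_lit 1802) Uxp12n1486 (.cons (nat_lit 1801) Uxp12n351 .nil)) .nil))
def Uxp12n2126 : PT := (.cons (nat_lit 908) (.cons (nat_lit 1038) (.cons (nat_lit 1036) (.cons (nat_lit 1166) (.cons (nat_lit 1164) (.cons (nat_lit 1290) (.cons (nat_lit 50435) (.cons (nat_lit 1156) (.cons (nat_lit 1414) (.cons (nat_lit 66947) (.cons (nat_lit 1412) (.cons (nat_lit 1542) (.cons (nat_lit 34307) (.cons (nat_lit 1540) (.cons (nat_lit 1665) Uxp12n1188 (.cons (nat_lit 1674) Uxp12n2110 .nil)) .nil) .nil) .nil) .nil) .nil) .nil) .nil) .nil) .nil) .nil) .nil) .nil) .nil) .nil)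
def Uxp12n2156 : PT := (.cons (nat_lit 34187) (.cons (nat_lit 1420) (.cons (nat_lit 1546) Uxp12n1647 (.cons (nat_lit 1545) Uxp12n116 .nil)) .nil) .nil)
def Uxp12n2220 : PT := (.cons (nat_lit 529) (.cons (nat_lit 532) (.cons (nat_lit 658) (.cons (nat_lit 652) (.cons (nat_lit 778) (.cons (nat_lit 771) (.cons (nat_lit 5) .nil .nil) (.cons (nat_lit 780) (.cons (nat_lit 906) (.cons (nat_lit 900) (.cons (nat_lit 1025) (.cons (nat_lit 1027) (.cons (nat_lit 5) .nil .nil) .nil) Uxp12n648) .nil) Uxp12n1765) .nil)) (.cons (nat_lit 785) (.cons (nat_lit 788) (.cons (nat_lit 914) (.cons (nat_lit 908) (.cons (nat_lit 1034) Uxp12n1758 (.cons (nat_lit 1041) (.cons (nat_lit 1044) (.cons (nat_lit 1170) Uxp12n770 Uxp12n1778) .nil) (.cons (nat_lit 1038) (.cons (nat_lit 1036) (.cons (nat_lit 1161) Uxp12n1788 (.cons (nat_lit 1162) Uxp12n1792 (.cons (nat_lit 1174) Uxp12n1568 .nil))) .nil) .nil))) .nil) (.cons (nat_lit 918) (.cons (nat_lit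 916) (.cons (nat_lit 1042) (.cons (nat_lit 1036) (.cons (nat_lit 1162) (.cons (nat_lit 1156) (.cons (nat_lit 1286) (.cons (nat_lit 58627) Uxp12n1802 .nil) Uxp12n1812) .nil) (.cons (nat_lit 1169) (.cons (nat_lit 1172) (.cons (nat_lit 1298) Uxp12n1824 .nil) .nil) Uxp12n1845)) .nil) Uxp12n1890) .nil) .nil)) .nil) (.cons (nat_lit 782) (.cons (nat_lit 780) (.cons (nat_lit 906) (.cons (nat_lit 900) (.cons (nat_lit 1025) (.cons (nat_lit 1028) (.cons (nat_lit 1158) Uxp12n1899 (.cons (nat_lit 1170) Uxp12n346 .nil)) .nil) (.cons (nat_lit 1034) Uxp12n1595 Uxp12n1613)) .nil) (.cons (nat_lit 905) (.cons (nat_lit 908) (.cons (nat_lit 1034) (.cons (nat_lit 1028) (.cons (nat_lit 1158) Uxp12n1899 Uxp12n1911) .nil) (.cons (nat_lit 1046) (.cons (nat_lit 1044) (.cons (nat_lit 1170) Uxp12n1610 .nil) .nil) .nil)) .nil) Uxp12n1632)) .nil) .nil))) .nil) (.cons (nat_lit 662) (.cons (nat_lit 660) (.cons (nat_lit 786) (.cons (nat_lit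 780) (.cons (nat_lit 906) (.cons (nat_lit 900) (.cons (nat_lit 1030) (.cons (nat_lit 41987) (.cons (nat_lit 1028) (.cons (nat_lit 1153) Uxp12n1923 Uxp12n1697) .nil) .nil) (.cons (nat_lit 1034) (.cons (nat_lit 1028) (.cons (nat_lit 1153) (.cons (nat_lit 1156) (.cons (nat_lit 1286) (.cons (nat_lit 42243) Uxp12n1802 .nil) (.cons (nat_lit 1290) Uxp12n1652 .nil)) .nil) Uxp12n1666) .nil) (.cons (nat_lit 1033) (.cons (nat_lit 1036) (.cons (nat_lit 1162) Uxp12n1935 .nil) .nil) .nil))) .nil) (.cons (nat_lit 913) (.cons (nat_lit 916) (.cons (nat_lit 1042) Uxp12n1959 .nil) .nil) (.cons (nat_lit 910) (.cons (nat_lit 908) (.cons (nat_lit 1033) Uxp12n1981 (.cons (nat_lit 1042) Uxp12n1687 .nil)) .nil) .nil))) .nil) (.cons (nat_lit 785) (.cons (nat_lit 788) (.cons (nat_lit 922) (.cons (nat_lit 916) (.cons (nat_lit 1042) Uxp12n1959 (.cons (nat_lit 1041) (.cons (nat_lit 1044) (.cons (nat_lit 1170) (.cons (nat_lit 1164) (.cons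 (nat_lit 1289) (.cons (nat_lit 1292) (.cons (nat_lit 1418) (.cons (nat_lit 1412) (.cons (nat_lit 1542) (.cons (nat_lit 42499) Uxp12n1943 .nil) Uxp12n1991) .nil) .nil) .nil) Uxp12n1955) .nil) .nil) .nil) .nil)) .nil) (.cons (nat_lit 918) (.cons (nat_lit 916) (.cons (nat_lit 1042) Uxp12n1981 .nil) .nil) .nil)) .nil) (.cons (nat_lit 790) (.cons (nat_lit 787) Uxp12n286 (.cons (nat_lit 796) (.cons (nat_lit 921) (.cons (nat_lit 924) (.cons (nat_lit 1050) (.cons (nat_lit 1043) (.cons (nat_lit 788) (.cons (nat_lit 1169) Uxp12n721 Uxp12n996) .nil) (.cons (nat_lit 1052) (.cons (nat_lit 1177) (.cons (nat_lit 1180) (.cons (nat_lit 1306) Uxp12n2024 .nil) .nil) .nil) .nil)) Uxp12n2045) .nil) Uxp12n2052) .nil)) .nil))) .nil) .nil)) .nil) (.cons (nat_lit 526) (.cons (nat_lit 524) (.cons (nat_lit 650) (.cons (nat_lit 644) (.cons (nat_lit 769) (.cons (nat_lit 772) (.cons (nat_lit 902) Uxp12n2068 (.cons (nat_lit 914) (.cons (nat_lit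 908) (.cons (nat_lit 1034) Uxp12n2074 (.cons (nat_lit 1033) (.cons (nat_lit 1036) Uxp12n2083 .nil) .nil)) .nil) .nil)) .nil) (.cons (nat_lit 778) (.cons (nat_lit 772) (.cons (nat_lit 902) (.cons (nat_lit 899) (.cons (nat_lit 33667) (.cons (nat_lit 5) .nil .nil) .nil) (.cons (nat_lit 33675) (.cons (nat_lit 908) (.cons (nat_lit 1033) (.cons (nat_lit 1036) (.cons (nat_lit 1162) Uxp12n678 .nil) .nil) (.cons (nat_lit 1034) Uxp12n1662 .nil)) .nil) .nil)) (.cons (nat_lit 906) (.cons (nat_lit 900) (.cons (nat_lit 1025) (.cons (nat_lit 1028) (.cons (nat_lit 1158) Uxp12n2097 (.cons (nat_lit 1162) (.cons (nat_lit 1156) (.cons (nat_lit 1281) Uxp12n94 .nil) .nil) .nil)) .nil) (.cons (nat_lit 1034) Uxp12n90 .nil)) .nil) (.cons (nat_lit 905) (.cons (nat_lit 908) (.cons (nat_lit 1034) (.cons (nat_lit 1028) (.cons (nat_lit 1158) Uxp12n2097 Uxp12n2072) .nil) .nil) .nil) .nil))) .nil) (.cons (nat_lit 782) (.cons (nat_lit 780)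 (.cons (nat_lit 905) Uxp12n2126 (.cons (nat_lit 914) (.cons (nat_lit 908) (.cons (nat_lit 1038) (.cons (nat_lit 1036) (.cons (nat_lit 1166) (.cons (nat_lit 1164) (.cons (nat_lit 1290) (.cons (nat_lit 50435) (.cons (nat_lit 1156) (.cons (nat_lit 1414) (.cons (nat_lit 66947) (.cons (nat_lit 1412) (.cons (nat_lit 1542) (.cons (nat_lit 34307) Uxp12n1943 .nil) .nil) .nil) .nil) .nil) .nil) .nil) .nil) .nil) .nil) .nil) .nil) .nil) .nil)) .nil) .nil))) .nil) (.cons (nat_lit 649) (.cons (nat_lit 652) (.cons (nat_lit 778) (.cons (nat_lit 772) (.cons (nat_lit 902) Uxp12n2068 (.cons (nat_lit 906) (.cons (nat_lit 900) (.cons (nat_lit 1025) (.cons (nat_lit 1028) (.cons (nat_lit 1158) (.cons (nat_lit 1155) (.cons (nat_lit 33923) (.cons (nat_lit 5) .nil .nil) .nil) (.cons (nat_lit 33931) (.cons (nat_lit 1164) (.cons (nat_lit 1290) Uxp12n1802 .nil) .nil) .nil)) Uxp12n2083) .nil) (.cons (nat_lit 1034) Uxp12n2074 .nil)) .nil)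 (.cons (nat_lit 913) (.cons (nat_lit 916) (.cons (nat_lit 1042) (.cons (nat_lit 1036) (.cons (nat_lit 1162) (.cons (nat_lit 1156) (.cons (nat_lit 1281) (.cons (nat_lit 1284) (.cons (nat_lit 1414) (.cons (nat_lit 1411) (.cons (nat_lit 34179) (.cons (nat_lit 5) .nil .nil) .nil) Uxp12n2156) (.cons (nat_lit 1418) (.cons (nat_lit 1412) (.cons (nat_lit 1537) Uxp12n453 .nil) .nil) .nil)) .nil) (.cons (nat_lit 1290) Uxp12n94 .nil)) .nil) (.cons (nat_lit 1161) (.cons (nat_lit 1164) (.cons (nat_lit 1290) (.cons (nat_lit 1284) (.cons (nat_lit 1414) (.cons (nat_lit 1411) (.cons (nat_lit 34179) (.cons (nat_lit 5) .nil .nil) .nil) Uxp12n2156) (.cons (nat_lit 1418) (.cons (nat_lit 1412) (.cons (nat_lit 1537) Uxp12n453 .nil) .nil) (.cons (nat_lit 1417) (.cons (nat_lit 1420) (.cons (nat_lit 1546) Uxp12n453 .nil) .nil) .nil))) .nil) .nil) .nil) .nil)) .nil) .nil) .nil) .nil))) .nil) (.cons (nat_lit 790) (.cons (nat_lit 788) (.cons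 (nat_lit 914) Uxp12n2126 .nil) .nil) .nil)) .nil) (.cons (nat_lit 662) (.cons (nat_lit 660) (.cons (nat_lit 785) (.cons (nat_lit 787) (.cons (nat_lit 660) (.cons (nat_lit 913) (.cons (nat_lit 916) (.cons (nat_lit 1046) (.cons (nat_lit 1044) (.cons (nat_lit 1170) Uxp12n175 .nil) .nil) .nil) .nil) Uxp12n516) .nil) (.cons (nat_lit 796) (.cons (nat_lit 926) (.cons (nat_lit 924) (.cons (nat_lit 1050) (.cons (nat_lit 1044) (.cons (nat_lit 1174) (.cons (nat_lit 1172) (.cons (nat_lit 1302) (.cons (nat_lit 34067) (.cons (nat_lit 1300) (.cons (nat_lit 1430) (.cons (nat_lit 75155) (.cons (nat_lit 1428) (.cons (nat_lit 1554) (.cons (nat_lit 58891) (.cons (nat_lit 652) (.cons (nat_lit 1674) Uxp12n1070 .nil) .nil) .nil) .nil) .nil) .nil) .nil) .nil) .nil) .nil) .nil) .nil) .nil) .nil) .nil) Uxp12n1136) .nil)) (.cons (nat_lit 794) (.cons (nat_lit 787) (.cons (nat_lit 660) Uxp12n516 .nil) (.cons (nat_lit 796) (.cons (nat_lit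 921) (.cons (nat_lit 924) (.cons (nat_lit 1050) (.cons (nat_lit 1043) (.cons (nat_lit 660) Uxp12n1130 .nil) .nil) .nil) .nil) .nil) .nil)) .nil)) .nil) .nil))) .nil) .nil))
def Uxp12n2235 : PT := (.cons (nat_lit 1290) (.cons (nat_lit 1283) (.cons (nat_lit 5) .nil .nil) .nil) (.cons (nat_lit 1294) (.cons (nat_lit 1292) (.cons (nat_lit 1418) (.cons (nat_lit 1412) (.cons (nat_lit 1537) Uxp12n760 .nil) .nil) (.cons (nat_lit 1417) (.cons (nat_lit 1420) (.cons (nat_lit 1546) Uxp12n760 .nil) .nil) .nil)) .nil) .nil))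
def Uxp12n2244 : PT := (.cons (nat_lit 1034) Uxp12n1758 (.cons (nat_lit 1038) (.cons (nat_lit 1036) (.cons (nat_lit 1162) Uxp12n1792 (.cons (nat_lit 1161) Uxp12n1788 (.cons (nat_lit 1174) Uxp12n1568 .nil))) .nil) .nil))
def Uxp12n2249 : PT := (.cons (nat_lit 1284) (.cons (nat_lit 1409) (.cons (nat_lit 1411) (.cons (nat_lit 5) .nil .nil) (.cons (nat_lit 1420) (.cons (nat_lit 1546) Uxp12n1647 .nil) .nil)) (.cons (nat_lit 1418) (.cons (nat_lit 1411) (.cons (nat_lit 5) .nil .nil) .nil) .nil)) .nil)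
def Uxp12n2263 : PT := (.cons (nat_lit 1155) (.cons (nat_lit 50307) (.cons (nat_lit 5) .nil .nil) .nil) (.cons (nat_lit 50315) (.cons (nat_lit 1164) (.cons (nat_lit 1290) Uxp12n2249 .nil) .nil) .nil))
def Uxp12n2269 : PT := (.cons (nat_lit 1796) (.cons (nat_lit 1921) (.cons (nat_lit 1923) (.cons (nat_lit 5) .nil .nil) (.cons (nat_lit 1932) (.cons (nat_lit 2058) Uxp12n1531 .nil) .nil)) (.cons (nat_lit 1930) (.cons (nat_lit 1923) (.cons (nat_lit 5) .nil .nil) .nil) .nil)) .nil)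
def Uxp12n2282 : PT := (.cons (nat_lit 1164) (.cons (nat_lit 1294) (.cons (nat_lit 1292) (.cons (nat_lit 1422) (.cons (nat_lit 1420) (.cons (nat_lit 1546) (.cons (nat_lit 67075) (.cons (nat_lit 1412) (.cons (nat_lit 1670) (.cons (nat_lit 83587) (.cons (nat_lit 1668) (.cons (nat_lit 1798) (.cons (nat_lit 50947) Uxp12n2269 .nil) .nil) .nil) .nil) .nil) .nil) .nil) .nil) .nil) .nil) .nil) .nil) .nil)
def Uxp12n2300 : PT := (.cons (nat_lit 1676) (.cons (nat_lit 1806) (.cons (nat_lit 1804) (.cons (nat_lit 1934) (.cons (nat_lit 51083) Uxp12n794 .nil) .nil) .nil) .nil) .nil)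
def Uxp12n2304 : PT := (.cons (nat_lit 1428) (.cons (nat_lit 1558) (.cons (nat_lit 1556) (.cons (nat_lit 1682) Uxp12n2300 .nil) .nil) .nil) .nil)
def Uxp12n2309 : PT := (.cons (nat_lit 1426) (.cons (nat_lit 1420) (.cons (nat_lit 1550) (.cons (nat_lit 1548) (.cons (nat_lit 1673) Uxp12n2300 .nil) .nil) .nil) .nil) .nil)
def Uxp12n2331 : PT := (.cons (nat_lit 1412) (.cons (nat_lit 1537) (.cons (nat_lit 1539) (.cons (nat_lit 5) .nil .nil) .nil) .nil) .nil)
def Uxp12n2336 : PT := (.cons (nat_lit 1156) (.cons (nat_lit 1281) (.cons (nat_lit 1283) (.cons (nat_lit 5) .nil .nil) (.cons (nat_lit 1292) (.cons (nat_lit 1418) Uxp12n2331 .nil) .nil)) Uxp12n2235) .nil)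
def Uxp12n2350 : PT := (.cons (nat_lit 2308) (.cons (nat_lit 2433) (.cons (nat_lit 2435) (.cons (nat_lit 5) .nil .nil) .nil) .nil) .nil)
def Uxp12n2363 : PT := (.cons (nat_lit 1676) (.cons (nat_lit 1806) (.cons (nat_lit 1804) (.cons (nat_lit 1934) (.cons (nat_lit 1932) (.cons (nat_lit 2058) (.cons (nat_lit 100355) (.cons (nat_lit 1924) (.cons (nat_lit 2182) (.cons (nat_lit 116867) (.cons (nat_lit 2180) (.cons (nat_lit 2310) (.cons (nat_lit 84227) Uxp12n2350 .nil) .nil) .nil) .nil) .nil) .nil) .nil) .nil) .nil) .nil) .nil) .nil) .nil)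
def Uxp12n2374 : PT := (.cons (nat_lit 2188) (.cons (nat_lit 2318) (.cons (nat_lit 133387) (.cons (nat_lit 2316) (.cons (nat_lit 2442) (.cons (nat_lit 117123) (.cons (nat_lit 5) .nil .nil) .nil) .nil) .nil) .nil) .nil) .nil)
def Uxp12n2379 : PT := (.cons (nat_lit 1932) (.cons (nat_lit 2062) (.cons (nat_lit 2060) (.cons (nat_lit 2190) (.cons (nat_lit 84107) Uxp12n2374 .nil) .nil) .nil) .nil) .nil)
def Uxp12n2431 : PT := (.cons (nat_lit 1796) (.cons (nat_lit 1926) (.cons (nat_lit 1923) (.cons (nat_lit 67459) (.cons (nat_lit 5) .nil .nil) .nil) .nil) .nil) .nil)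
def Uxp12n2438 : PT := (.cons (nat_lit 1420) (.cons (nat_lit 1546) Uxp12n825 (.cons (nat_lit 1545) (.cons (nat_lit 1548) (.cons (nat_lit 1674) (.cons (nat_lit 1668) (.cons (nat_lit 1793) Uxp12n2431 .nil) .nil) .nil) .nil) .nil)) .nil)
def Uxp12n2445 : PT := (.cons (nat_lit 2052) (.cons (nat_lit 2177) (.cons (nat_lit 2179) (.cons (nat_lit 5) .nil .nil) (.cons (nat_lit 2188) (.cons (nat_lit 2314) Uxp12n2350 .nil) .nil)) (.cons (nat_lit 2186) (.cons (nat_lit 2179) (.cons (nat_lit 5) .nil .nil) .nil) .nil)) .nil)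
def Uxp12n2458 : PT := (.cons (nat_lit 1420) (.cons (nat_lit 1550) (.cons (nat_lit 1548) (.cons (nat_lit 1678) (.cons (nat_lit 1676) (.cons (nat_lit 1802) (.cons (nat_lit 83715) (.cons (nat_lit 1668) (.cons (nat_lit 1926) (.cons (nat_lit 100227) (.cons (nat_lit 1924) (.cons (nat_lit 2054) (.cons (nat_lit 67587) Uxp12n2445 .nil) .nil) .nil) .nil) .nil) .nil) .nil) .nil) .nil) .nil) .nil) .nil) .nil)
def Uxp12n2504 : PT := (.cons (nat_lit 1932) (.cons (nat_lit 2062) (.cons (nat_lit 2060) (.cons (nat_lit 2190) (.cons (nat_lit 67723) Uxp12n2374 .nil) .nil) .nil) .nil) .nil)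
def Uxp12n2533 : PT := (.cons (nat_lit 1034) (.cons (nat_lit 1027) (.cons (nat_lit 5) .nil .nil) (.cons (nat_lit 1036) (.cons (nat_lit 1162) Uxp12n2336 (.cons (nat_lit 1161) (.cons (nat_lit 1164) (.cons (nat_lit 1290) (.cons (nat_lit 1283) (.cons (nat_lit 5) .nil .nil) (.cons (nat_lit 1292) (.cons (nat_lit 1418) Uxp12n2331 (.cons (nat_lit 1417) (.cons (nat_lit 1420) (.cons (nat_lit 1546) (.cons (nat_lit 1539) (.cons (nat_lit 5) .nil .nil) .nil) .nil) .nil) .nil)) .nil)) (.cons (nat_lit 1302) (.cons (nat_lit 1300) (.cons (nat_lit 1426) (.cons (nat_lit 1420) (.cons (nat_lit 1546) Uxp12n760 (.cons (nat_lit 1550) (.cons (nat_lit 1548) (.cons (nat_lit 1673) Uxp12n2363 .nil) .nil) .nil)) .nil) (.cons (nat_lit 1430) (.cons (nat_lit 1428) (.cons (nat_lit 1553) (.cons (nat_lit 1555) (.cons (nat_lit 1428) (.cons (nat_lit 1681) (.cons (nat_lit 1684) (.cons (nat_lit 1814) (.cons (nat_lit 1812) (.cons (nat_lit 1938) Uxp12n2379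 .nil) .nil) .nil) .nil) (.cons (nat_lit 1682) (.cons (nat_lit 1676) (.cons (nat_lit 1806) (.cons (nat_lit 1804) (.cons (nat_lit 1929) Uxp12n2379 .nil) .nil) .nil) .nil) .nil)) .nil) .nil) .nil) .nil) (.cons (nat_lit 1425) (.cons (nat_lit 1428) (.cons (nat_lit 1558) (.cons (nat_lit 1556) (.cons (nat_lit 1682) Uxp12n2363 .nil) .nil) .nil) .nil) .nil))) .nil) .nil)) .nil) (.cons (nat_lit 1174) (.cons (nat_lit 1172) (.cons (nat_lit 1297) (.cons (nat_lit 1300) (.cons (nat_lit 1426) (.cons (nat_lit 1420) (.cons (nat_lit 1550) (.cons (nat_lit 75275) Uxp12n116 .nil) .nil) .nil) (.cons (nat_lit 1430) (.cons (nat_lit 1428) (.cons (nat_lit 1554) Uxp12n784 .nil) .nil) .nil)) .nil) (.cons (nat_lit 1298) (.cons (nat_lit 1292) (.cons (nat_lit 1417) (.cons (nat_lit 1420) (.cons (nat_lit 1550) (.cons (nat_lit 75275) Uxp12n116 .nil) .nil) .nil) Uxp12n1772) .nil) (.cons (nat_lit 1302) Uxp12n811 .nil))) .nil) .nil))) .nil)) (.cons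 (nat_lit 1046) (.cons (nat_lit 1044) (.cons (nat_lit 1170) (.cons (nat_lit 1164) (.cons (nat_lit 1290) (.cons (nat_lit 1284) (.cons (nat_lit 1414) (.cons (nat_lit 1411) (.cons (nat_lit 66947) (.cons (nat_lit 5) .nil .nil) .nil) (.cons (nat_lit 66955) (.cons (nat_lit 1420) (.cons (nat_lit 1546) Uxp12n1647 (.cons (nat_lit 1545) Uxp12n116 .nil)) .nil) .nil)) (.cons (nat_lit 1418) (.cons (nat_lit 1412) (.cons (nat_lit 1537) Uxp12n825 .nil) .nil) (.cons (nat_lit 1417) (.cons (nat_lit 1420) (.cons (nat_lit 1546) Uxp12n825 .nil) .nil) .nil))) .nil) (.cons (nat_lit 1297) (.cons (nat_lit 1300) (.cons (nat_lit 1426) Uxp12n2438 .nil) .nil) (.cons (nat_lit 1294) (.cons (nat_lit 1292) (.cons (nat_lit 1417) Uxp12n2458 (.cons (nat_lit 1426) Uxp12n1544 .nil)) .nil) .nil))) .nil) (.cons (nat_lit 1169) (.cons (nat_lit 1172) (.cons (nat_lit 1306) (.cons (nat_lit 1300) (.cons (nat_lit 1426) Uxp12n2438 (.cons (nat_lit 1425) (.cons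 (nat_lit 1428) (.cons (nat_lit 1554) (.cons (nat_lit 1548) (.cons (nat_lit 1673) (.cons (nat_lit 1676) (.cons (nat_lit 1802) Uxp12n2431 .nil) .nil) (.cons (nat_lit 1674) (.cons (nat_lit 1668) (.cons (nat_lit 1793) Uxp12n2431 .nil) .nil) .nil)) .nil) .nil) .nil) .nil)) .nil) (.cons (nat_lit 1302) (.cons (nat_lit 1300) (.cons (nat_lit 1426) Uxp12n2458 .nil) .nil) .nil)) .nil) (.cons (nat_lit 1174) (.cons (nat_lit 1172) (.cons (nat_lit 1297) (.cons (nat_lit 1299) (.cons (nat_lit 1172) (.cons (nat_lit 1425) Uxp12n1558 (.cons (nat_lit 1426) (.cons (nat_lit 1420) (.cons (nat_lit 1550) (.cons (nat_lit 1548) (.cons (nat_lit 1673) Uxp12n1554 (.cons (nat_lit 1682) Uxp12n1554 .nil)) .nil) .nil) .nil) .nil)) .nil) (.cons (nat_lit 1308) (.cons (nat_lit 1438) (.cons (nat_lit 1436) (.cons (nat_lit 1562) (.cons (nat_lit 1556) (.cons (nat_lit 1686) (.cons (nat_lit 1684) (.cons (nat_lit 1814) (.cons (nat_lit 67347) (.cons (nat_lit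 1812) (.cons (nat_lit 1942) (.cons (nat_lit 108435) (.cons (nat_lit 1940) (.cons (nat_lit 2066) (.cons (nat_lit 92171) (.cons (nat_lit 1164) (.cons (nat_lit 2186) (.cons (nat_lit 2179) (.cons (nat_lit 5) .nil .nil) .nil) .nil) .nil) .nil) .nil) .nil) .nil) .nil) .nil) .nil) .nil) .nil) .nil) .nil) .nil) .nil) (.cons (nat_lit 1434) (.cons (nat_lit 1428) (.cons (nat_lit 1553) (.cons (nat_lit 1555) (.cons (nat_lit 1172) (.cons (nat_lit 1681) (.cons (nat_lit 1684) (.cons (nat_lit 1814) (.cons (nat_lit 1812) (.cons (nat_lit 1938) Uxp12n2504 .nil) .nil) .nil) .nil) (.cons (nat_lit 1682) (.cons (nat_lit 1676) (.cons (nat_lit 1806) (.cons (nat_lit 1804) (.cons (nat_lit 1929) Uxp12n2504 .nil) .nil) .nil) .nil) .nil)) .nil) .nil) .nil) .nil) .nil)) .nil)) (.cons (nat_lit 1306) (.cons (nat_lit 1299) (.cons (nat_lit 1172) Uxp12n1563 .nil) .nil) .nil)) .nil) .nil))) .nil) .nil))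
def Uxp12n2537 : PT := (.cons (nat_lit 1292) (.cons (nat_lit 1418) (.cons (nat_lit 1411) (.cons (nat_lit 5) .nil .nil) (.cons (nat_lit 1420) (.cons (nat_lit 1546) Uxp12n1647 (.cons (nat_lit 1545) Uxp12n116 .nil)) .nil)) .nil) .nil)
def Uxp12n2551 : PT := (.cons (nat_lit 1292) (.cons (nat_lit 1418) (.cons (nat_lit 1411) (.cons (nat_lit 5) .nil .nil) (.cons (nat_lit 1420) (.cons (nat_lit 1545) Uxp12n116 (.cons (nat_lit 1546) Uxp12n1647 .nil)) .nil)) .nil) .nil)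
def Uxp12n2571 : PT := (.cons (nat_lit 1411) (.cons (nat_lit 50563) (.cons (nat_lit 5) .nil .nil) .nil) (.cons (nat_lit 50571) (.cons (nat_lit 1420) (.cons (nat_lit 1545) Uxp12n116 (.cons (nat_lit 1546) Uxp12n1647 .nil)) .nil) .nil))
def Uxp12n2595 : PT := (.cons (nat_lit 1796) (.cons (nat_lit 1926) (.cons (nat_lit 1923) (.cons (nat_lit 51075) (.cons (nat_lit 5) .nil .nil) .nil) .nil) .nil) .nil)
def Uxp12n2607 : PT := (.cons (nat_lit 1164) (.cons (nat_lit 1290) (.cons (nat_lit 1284) (.cons (nat_lit 1414) (.cons (nat_lit 1411) (.cons (nat_lit 50563) (.cons (nat_lit 5) .nil .nil) .nil) (.cons (nat_lit 50571) (.cons (nat_lit 1420) (.cons (nat_lit 1546) Uxp12n1647 (.cons (nat_lit 1545) Uxp12n116 .nil)) .nil) .nil)) Uxp12n373) .nil) (.cons (nat_lit 1289) (.cons (nat_lit 1292) (.cons (nat_lit 1418) (.cons (nat_lit 1412) (.cons (nat_lit 1537) (.cons (nat_lit 1540) (.cons (nat_lit 1670) (.cons (nat_lit 1667) (.cons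 (nat_lit 50819) (.cons (nat_lit 5) .nil .nil) .nil) (.cons (nat_lit 50827) (.cons (nat_lit 1676) (.cons (nat_lit 1801) Uxp12n351 (.cons (nat_lit 1802) Uxp12n1486 .nil)) .nil) .nil)) (.cons (nat_lit 1674) (.cons (nat_lit 1668) (.cons (nat_lit 1793) Uxp12n2595 .nil) .nil) .nil)) .nil) (.cons (nat_lit 1546) Uxp12n339 .nil)) .nil) .nil) .nil) .nil)) .nil)
def Uxp12n2627 : PT := (.cons (nat_lit 1164) (.cons (nat_lit 1294) (.cons (nat_lit 1292) (.cons (nat_lit 1422) (.cons (nat_lit 1420) (.cons (nat_lit 1546) (.cons (nat_lit 67075) (.cons (nat_lit 1412) (.cons (nat_lit 1670) (.cons (nat_lit 83587) (.cons (nat_lit 1668) (.cons (nat_lit 1798) (.cons (nat_lit 50947) (.cons (nat_lit 1796) (.cons (nat_lit 1921) (.cons (nat_lit 1923) (.cons (nat_lit 5) .nil .nil) (.cons (nat_lit 1932) (.cons (nat_lit 2058) Uxp12n2445 .nil) .nil)) Uxp12n1963) .nil) .nil) .nil) .nil) .nil) .nil) .nil) .nil) .nil) .nil) .nil) .nil) .nil) .nil)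
def Uxp12n2635 : PT := (.cons (nat_lit 1667) (.cons (nat_lit 50819) (.cons (nat_lit 5) .nil .nil) .nil) (.cons (nat_lit 50827) (.cons (nat_lit 1676) (.cons (nat_lit 1802) Uxp12n1486 (.cons (nat_lit 1801) Uxp12n351 .nil)) .nil) .nil))
def Uxp12n2663 : PT := (.cons (nat_lit 1930) (.cons (nat_lit 1923) (.cons (nat_lit 5) .nil .nil) (.cons (nat_lit 1932) (.cons (nat_lit 2057) Uxp12n844 (.cons (nat_lit 2058) Uxp12n1531 .nil)) .nil)) .nil)
def Uxp12n2712 : PT := (.cons (nat_lit 786) (.cons (nat_lit 780) (.cons (nat_lit 906) (.cons (nat_lit 900) (.cons (nat_lit 1025) (.cons (nat_lit 1027) (.cons (nat_lit 5) .nil .nil) (.cons (nat_lit 1036) (.cons (nat_lit 1162) Uxp12n2336 Uxp12n1778) .nil)) Uxp12n2244) .nil) (.cons (nat_lit 905) (.cons (nat_lit 908) Uxp12n2533 .nil) (.cons (nat_lit 918) (.cons (nat_lit 916) (.cons (nat_lit 1041) (.cons (nat_lit 1044) (.cons (nat_lit 1170) (.cons (nat_lit 1164) (.cons (nat_lit 1294)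 (.cons (nat_lit 58635) Uxp12n2537 .nil) (.cons (nat_lit 1298) (.cons (nat_lit 1292) (.cons (nat_lit 1417) (.cons (nat_lit 1420) (.cons (nat_lit 1550) (.cons (nat_lit 58891) Uxp12n116 .nil) Uxp12n1820) .nil) Uxp12n1809) .nil) Uxp12n1855)) .nil) (.cons (nat_lit 1174) (.cons (nat_lit 1172) (.cons (nat_lit 1298) Uxp12n1842 .nil) .nil) .nil)) .nil) (.cons (nat_lit 1042) (.cons (nat_lit 1036) (.cons (nat_lit 1161) (.cons (nat_lit 1164) (.cons (nat_lit 1294) (.cons (nat_lit 58635) Uxp12n2551 .nil) (.cons (nat_lit 1298) Uxp12n1824 .nil)) .nil) (.cons (nat_lit 1162) (.cons (nat_lit 1156) (.cons (nat_lit 1286) (.cons (nat_lit 58627) Uxp12n2249 .nil) Uxp12n1812) .nil) Uxp12n1845)) .nil) Uxp12n1889)) .nil) .nil))) .nil) (.cons (nat_lit 790) (.cons (nat_lit 788) (.cons (nat_lit 914) (.cons (nat_lit 908) (.cons (nat_lit 1034) (.cons (nat_lit 1028) (.cons (nat_lit 1158) (.cons (nat_lit 1155) (.cons (nat_lit 50307) (.cons (nat_lit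 5) .nil .nil) .nil) (.cons (nat_lit 50315) (.cons (nat_lit 1164) (.cons (nat_lit 1290) Uxp12n2249 (.cons (nat_lit 1289) Uxp12n2537 .nil)) .nil) .nil)) (.cons (nat_lit 1162) (.cons (nat_lit 1156) (.cons (nat_lit 1281) (.cons (nat_lit 1284) (.cons (nat_lit 1414) Uxp12n2571 (.cons (nat_lit 1418) (.cons (nat_lit 1412) (.cons (nat_lit 1537) Uxp12n339 .nil) .nil) .nil)) .nil) (.cons (nat_lit 1290) Uxp12n193 .nil)) .nil) (.cons (nat_lit 1161) (.cons (nat_lit 1164) (.cons (nat_lit 1290) (.cons (nat_lit 1284) (.cons (nat_lit 1414) Uxp12n2571 Uxp12n373) .nil) .nil) .nil) .nil))) .nil) (.cons (nat_lit 1041) (.cons (nat_lit 1044) (.cons (nat_lit 1170) Uxp12n2607 .nil) .nil) (.cons (nat_lit 1038) (.cons (nat_lit 1036) (.cons (nat_lit 1161) Uxp12n2627 (.cons (nat_lit 1170) Uxp12n2282 .nil)) .nil) .nil))) .nil) (.cons (nat_lit 913) (.cons (nat_lit 916) (.cons (nat_lit 1050) (.cons (nat_lit 1044) (.cons (nat_lit 1170) Uxp12n2607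 (.cons (nat_lit 1169) (.cons (nat_lit 1172) (.cons (nat_lit 1298) (.cons (nat_lit 1292) (.cons (nat_lit 1417) (.cons (nat_lit 1420) (.cons (nat_lit 1546) (.cons (nat_lit 1540) (.cons (nat_lit 1670) Uxp12n2635 (.cons (nat_lit 1673) (.cons (nat_lit 1676) (.cons (nat_lit 1802) Uxp12n2595 .nil) .nil) (.cons (nat_lit 1674) (.cons (nat_lit 1668) (.cons (nat_lit 1793) Uxp12n2595 .nil) .nil) .nil))) .nil) .nil) .nil) (.cons (nat_lit 1418) (.cons (nat_lit 1412) (.cons (nat_lit 1537) (.cons (nat_lit 1540) (.cons (nat_lit 1670) Uxp12n2635 (.cons (nat_lit 1674) (.cons (nat_lit 1668) (.cons (nat_lit 1793) Uxp12n2595 .nil) .nil) .nil)) .nil) (.cons (nat_lit 1546) Uxp12n339 .nil)) .nil) .nil)) .nil) .nil) .nil) .nil)) .nil) (.cons (nat_lit 1046) (.cons (nat_lit 1044) (.cons (nat_lit 1170) Uxp12n2627 .nil) .nil) .nil)) .nil) (.cons (nat_lit 918) (.cons (nat_lit 916) (.cons (nat_lit 1041) (.cons (nat_lit 1043) (.cons (nat_lit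 916) (.cons (nat_lit 1169) Uxp12n1516 Uxp12n1626) .nil) (.cons (nat_lit 1052) (.cons (nat_lit 1182) (.cons (nat_lit 1180) (.cons (nat_lit 1306) (.cons (nat_lit 1300) (.cons (nat_lit 1430) (.cons (nat_lit 1428) (.cons (nat_lit 1558) (.cons (nat_lit 50707) (.cons (nat_lit 1556) (.cons (nat_lit 1686) (.cons (nat_lit 91795) (.cons (nat_lit 1684) (.cons (nat_lit 1810) (.cons (nat_lit 75531) (.cons (nat_lit 908) Uxp12n2663 .nil) .nil) .nil) .nil) .nil) .nil) .nil) .nil) .nil) .nil) .nil) .nil) .nil) .nil) (.cons (nat_lit 1178) (.cons (nat_lit 1172) (.cons (nat_lit 1297) (.cons (nat_lit 1299) (.cons (nat_lit 916) (.cons (nat_lit 1425) Uxp12n2304 (.cons (nat_lit 1426) (.cons (nat_lit 1420) (.cons (nat_lit 1550) (.cons (nat_lit 1548) (.cons (nat_lit 1673) Uxp12n2300 (.cons (nat_lit 1682) Uxp12n2300 .nil)) .nil) .nil) .nil) .nil)) .nil) .nil) (.cons (nat_lit 1306) (.cons (nat_lit 1299) (.cons (nat_lit 916) (.cons (nat_lit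 1425) Uxp12n2304 Uxp12n2309) .nil) .nil) .nil)) .nil) .nil)) .nil)) (.cons (nat_lit 1050) (.cons (nat_lit 1043) (.cons (nat_lit 916) Uxp12n1626 .nil) (.cons (nat_lit 1052) (.cons (nat_lit 1177) (.cons (nat_lit 1180) (.cons (nat_lit 1306) (.cons (nat_lit 1299) (.cons (nat_lit 916) Uxp12n2309 .nil) .nil) .nil) .nil) (.cons (nat_lit 1178) (.cons (nat_lit 1172) (.cons (nat_lit 1297) (.cons (nat_lit 1299) (.cons (nat_lit 916) Uxp12n2309 .nil) .nil) .nil) .nil) .nil)) .nil)) .nil)) .nil) .nil))) .nil) .nil))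
def Uxp12n2718 : PT := (.cons (nat_lit 1036) (.cons (nat_lit 1162) (.cons (nat_lit 1155) (.cons (nat_lit 5) .nil .nil) (.cons (nat_lit 1164) (.cons (nat_lit 1290) Uxp12n1802 (.cons (nat_lit 1289) Uxp12n2537 .nil)) .nil)) .nil) .nil)
def Uxp12n2725 : PT := (.cons (nat_lit 42499) (.cons (nat_lit 1540) (.cons (nat_lit 1665) (.cons (nat_lit 1667) (.cons (nat_lit 5) .nil .nil) (.cons (nat_lit 1676) (.cons (nat_lit 1802) Uxp12n1486 .nil) .nil)) (.cons (nat_lit 1674) (.cons (nat_lit 1667) (.cons (nat_lit 5) .nil .nil) .nil) .nil)) .nil) .nil)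
def Uxp12n2729 : PT := (.cons (nat_lit 1284) (.cons (nat_lit 1409) (.cons (nat_lit 1412) (.cons (nat_lit 1542) Uxp12n2725 (.cons (nat_lit 1546) Uxp12n1949 .nil)) .nil) Uxp12n1704) .nil)
def Uxp12n2735 : PT := (.cons (nat_lit 1156) (.cons (nat_lit 1286) (.cons (nat_lit 42243) Uxp12n2249 .nil) (.cons (nat_lit 1290) Uxp12n1652 (.cons (nat_lit 1289) (.cons (nat_lit 1292) Uxp12n1704 .nil) .nil))) .nil)
def Uxp12n2767 : PT := (.cons (nat_lit 1036) (.cons (nat_lit 1166) (.cons (nat_lit 1164) (.cons (nat_lit 1294) (.cons (nat_lit 1292) (.cons (nat_lit 1418) (.cons (nat_lit 58755) (.cons (nat_lit 1284) (.cons (nat_lit 1542) (.cons (nat_lit 75267) (.cons (nat_lit 1540) (.cons (nat_lit 1670) (.cons (nat_lit 1667) (.cons (nat_lit 42627) (.cons (nat_lit 5) .nil .nil) .nil) (.cons (nat_lit 42635) (.cons (nat_lit 1676) (.cons (nat_lit 1802) Uxp12n2269 (.cons (nat_lit 1801) (.cons (nat_lit 1804) Uxp12n1963 .nil) .nil)) .nil)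 .nil)) .nil) .nil) .nil) .nil) .nil) .nil) .nil) .nil) .nil) .nil) .nil) .nil)
def Uxp12n2822 : PT := (.cons (nat_lit 658) (.cons (nat_lit 652) (.cons (nat_lit 778) (.cons (nat_lit 771) (.cons (nat_lit 5) .nil .nil) (.cons (nat_lit 780) (.cons (nat_lit 906) (.cons (nat_lit 900) (.cons (nat_lit 1025) (.cons (nat_lit 1027) (.cons (nat_lit 5) .nil .nil) (.cons (nat_lit 1036) (.cons (nat_lit 1162) Uxp12n1755 .nil) .nil)) Uxp12n648) .nil) Uxp12n1765) .nil)) (.cons (nat_lit 777) (.cons (nat_lit 780) (.cons (nat_lit 906) (.cons (nat_lit 900) (.cons (nat_lit 1025) (.cons (nat_lit 1027) (.cons (nat_lit 5) .nil .nil) (.cons (nat_lit 1044) (.cons (nat_lit 1170) (.cons (nat_lit 1164) Uxp12n2235 .nil) Uxp12n1778) .nil)) Uxp12n2244) .nil) (.cons (nat_lit 918) (.cons (nat_lit 916) (.cons (nat_lit 1042) (.cons (nat_lit 1036) (.cons (nat_lit 1162) (.cons (nat_lit 1156) (.cons (nat_lit 1286) (.cons (nat_lit 58627) Uxp12n2249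 .nil) Uxp12n1812) .nil) (.cons (nat_lit 1169) (.cons (nat_lit 1172) (.cons (nat_lit 1298) Uxp12n1824 .nil) .nil) Uxp12n1845)) .nil) Uxp12n1890) .nil) .nil)) .nil) (.cons (nat_lit 782) (.cons (nat_lit 780) (.cons (nat_lit 906) (.cons (nat_lit 900) (.cons (nat_lit 1025) (.cons (nat_lit 1028) (.cons (nat_lit 1158) Uxp12n2263 (.cons (nat_lit 1170) Uxp12n346 .nil)) .nil) (.cons (nat_lit 1034) Uxp12n1595 (.cons (nat_lit 1038) (.cons (nat_lit 1036) (.cons (nat_lit 1161) Uxp12n2282 (.cons (nat_lit 1170) Uxp12n1499 .nil)) .nil) .nil))) .nil) (.cons (nat_lit 905) (.cons (nat_lit 908) (.cons (nat_lit 1034) (.cons (nat_lit 1028) (.cons (nat_lit 1158) Uxp12n2263 Uxp12n1911) .nil) (.cons (nat_lit 1046) (.cons (nat_lit 1044) (.cons (nat_lit 1170) Uxp12n2282 .nil) .nil) .nil)) .nil) (.cons (nat_lit 918) (.cons (nat_lit 916) (.cons (nat_lit 1041) (.cons (nat_lit 1043) (.cons (nat_lit 916) (.cons (nat_lit 1169) Uxp12n1516 Uxp12n1626)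 .nil) (.cons (nat_lit 1052) (.cons (nat_lit 1182) Uxp12n398 (.cons (nat_lit 1178) (.cons (nat_lit 1172) (.cons (nat_lit 1297) (.cons (nat_lit 1299) (.cons (nat_lit 916) (.cons (nat_lit 1425) Uxp12n2304 Uxp12n2309) .nil) .nil) .nil) .nil) .nil)) .nil)) (.cons (nat_lit 1050) (.cons (nat_lit 1043) (.cons (nat_lit 916) Uxp12n410 .nil) .nil) .nil)) .nil) .nil))) .nil) .nil))) .nil) (.cons (nat_lit 657) (.cons (nat_lit 660) Uxp12n2712 .nil) (.cons (nat_lit 662) (.cons (nat_lit 660) (.cons (nat_lit 785) (.cons (nat_lit 788) (.cons (nat_lit 914) (.cons (nat_lit 908) (.cons (nat_lit 1038) (.cons (nat_lit 41995) Uxp12n2718 .nil) (.cons (nat_lit 1042) (.cons (nat_lit 1036) (.cons (nat_lit 1161) (.cons (nat_lit 1164) (.cons (nat_lit 1294) (.cons (nat_lit 42251) Uxp12n2537 .nil) (.cons (nat_lit 1290) Uxp12n2729 .nil)) .nil) (.cons (nat_lit 1162) Uxp12n2735 .nil)) .nil) (.cons (nat_lit 1041) (.cons (nat_lit 1044) (.cons (nat_lit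 1170) (.cons (nat_lit 1164) (.cons (nat_lit 1290) Uxp12n2729 (.cons (nat_lit 1289) (.cons (nat_lit 1292) (.cons (nat_lit 1418) (.cons (nat_lit 1412) (.cons (nat_lit 1542) Uxp12n2725 Uxp12n1991) .nil) .nil) .nil) .nil)) .nil) .nil) .nil) .nil))) .nil) (.cons (nat_lit 918) (.cons (nat_lit 916) (.cons (nat_lit 1042) Uxp12n2767 .nil) .nil) .nil)) .nil) (.cons (nat_lit 786) (.cons (nat_lit 780) (.cons (nat_lit 905) (.cons (nat_lit 908) (.cons (nat_lit 1038) (.cons (nat_lit 41995) (.cons (nat_lit 1036) (.cons (nat_lit 1162) (.cons (nat_lit 1155) (.cons (nat_lit 5) .nil .nil) (.cons (nat_lit 1164) (.cons (nat_lit 1289) Uxp12n2551 (.cons (nat_lit 1290) Uxp12n1802 .nil)) .nil)) .nil) .nil) .nil) (.cons (nat_lit 1042) (.cons (nat_lit 1036) (.cons (nat_lit 1162) Uxp12n2735 (.cons (nat_lit 1161) (.cons (nat_lit 1164) (.cons (nat_lit 1290) Uxp12n2729 .nil) .nil) .nil)) .nil) .nil)) .nil) (.cons (nat_lit 906) (.cons (nat_lit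 900) (.cons (nat_lit 1030) (.cons (nat_lit 41987) (.cons (nat_lit 1028) (.cons (nat_lit 1153) (.cons (nat_lit 1155) (.cons (nat_lit 5) .nil .nil) (.cons (nat_lit 1164) (.cons (nat_lit 1290) Uxp12n1802 .nil) .nil)) Uxp12n1697) .nil) .nil) (.cons (nat_lit 1034) (.cons (nat_lit 1028) (.cons (nat_lit 1153) (.cons (nat_lit 1156) (.cons (nat_lit 1286) (.cons (nat_lit 42243) Uxp12n2249 .nil) (.cons (nat_lit 1290) Uxp12n1652 .nil)) .nil) Uxp12n1666) .nil) (.cons (nat_lit 1033) (.cons (nat_lit 1036) (.cons (nat_lit 1162) Uxp12n2735 .nil) .nil) .nil))) .nil) (.cons (nat_lit 910) (.cons (nat_lit 908) (.cons (nat_lit 1033) Uxp12n2767 (.cons (nat_lit 1042) Uxp12n1687 .nil)) .nil) .nil))) .nil) (.cons (nat_lit 790) (.cons (nat_lit 787) Uxp12n286 (.cons (nat_lit 796) (.cons (nat_lit 921) (.cons (nat_lit 924) (.cons (nat_lit 1050) (.cons (nat_lit 1043) (.cons (nat_lit 788) (.cons (nat_lit 1169) Uxp12n721 Uxp12n996) .nil) (.cons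 (nat_lit 1052) (.cons (nat_lit 1177) (.cons (nat_lit 1180) (.cons (nat_lit 1306) Uxp12n2024 .nil) .nil) (.cons (nat_lit 1178) (.cons (nat_lit 1172) (.cons (nat_lit 1297) Uxp12n2024 .nil) .nil) .nil)) .nil)) Uxp12n2045) .nil) Uxp12n2052) .nil)) .nil))) .nil) .nil)))
def Uxp12n2828 : PT := (.cons (nat_lit 33931) (.cons (nat_lit 1164) (.cons (nat_lit 1289) Uxp12n2551 (.cons (nat_lit 1290) Uxp12n1802 .nil)) .nil) .nil)
def Uxp12n2833 : PT := (.cons (nat_lit 1170) (.cons (nat_lit 1164) (.cons (nat_lit 1289) (.cons (nat_lit 1292) (.cons (nat_lit 1422) Uxp12n2156 .nil) .nil) .nil) .nil) .nil)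
def Uxp12n2843 : PT := (.cons (nat_lit 1169) (.cons (nat_lit 1172) (.cons (nat_lit 1298) (.cons (nat_lit 1292) (.cons (nat_lit 1422) Uxp12n2156 .nil) .nil) .nil) .nil) Uxp12n2833)
def Uxp12n2854 : PT := (.cons (nat_lit 1036) (.cons (nat_lit 1166) (.cons (nat_lit 33931) (.cons (nat_lit 1164) (.cons (nat_lit 1290) Uxp12n1802 (.cons (nat_lit 1289) Uxp12n2537 .nil)) .nil) .nil) Uxp12n2843) .nil)
def Uxp12n2857 : PT := (.cons (nat_lit 1548) (.cons (nat_lit 1674) (.cons (nat_lit 1667) (.cons (nat_lit 5) .nil .nil) (.cons (nat_lit 1676) (.cons (nat_lit 1801) Uxp12n351 (.cons (nat_lit 1802) Uxp12n1486 .nil)) .nil)) .nil) .nil)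
def Uxp12n2864 : PT := (.cons (nat_lit 1548) (.cons (nat_lit 1678) (.cons (nat_lit 34443) (.cons (nat_lit 1676) (.cons (nat_lit 1802) Uxp12n1486 (.cons (nat_lit 1801) Uxp12n351 .nil)) .nil) .nil) .nil) .nil)
def Uxp12n2902 : PT := (.cons (nat_lit 916) (.cons (nat_lit 1046) (.cons (nat_lit 1044) (.cons (nat_lit 1174) (.cons (nat_lit 1172) (.cons (nat_lit 1298) (.cons (nat_lit 50443) (.cons (nat_lit 1164) (.cons (nat_lit 1422) (.cons (nat_lit 66955) (.cons (nat_lit 1420) (.cons (nat_lit 1550) (.cons (nat_lit 34315) (.cons (nat_lit 1548) (.cons (nat_lit 1674) (.cons (nat_lit 1667) (.cons (nat_lit 5) .nil .nil) Uxp12n1967) (.cons (nat_lit 1673) (.cons (nat_lit 1676) (.cons (nat_lit 1802) (.cons (nat_lit 1796) (.cons (nat_lit 1921) (.cons (nat_lit 1923) (.cons (nat_lit 5) .nil .nil) (.cons (nat_lit 1940) (.cons (nat_lit 2066) Uxp12n844 .nil) .nil)) Uxp12n1963) .nil) .nil) .nil) .nil)) .nil) .nil) .nil) .nil) .nil)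 .nil) .nil) .nil) .nil) .nil) .nil) .nil) .nil) .nil)
def Uxp12n2944 : PT := (.cons (nat_lit 34187) (.cons (nat_lit 1420) (.cons (nat_lit 1546) Uxp12n1943 (.cons (nat_lit 1545) (.cons (nat_lit 1548) (.cons (nat_lit 1674) Uxp12n2110 .nil) .nil) .nil)) .nil) .nil)
def Uxp12n2992 : PT := (.cons (nat_lit 1170) (.cons (nat_lit 1164) (.cons (nat_lit 1294) (.cons (nat_lit 1292) (.cons (nat_lit 1417) Uxp12n1121 (.cons (nat_lit 1426) Uxp12n1121 .nil)) .nil) .nil) .nil) .nil)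
def Uxp12n2999 : PT := (.cons (nat_lit 1676) (.cons (nat_lit 1806) (.cons (nat_lit 1804) (.cons (nat_lit 1934) (.cons (nat_lit 34699) Uxp12n794 .nil) .nil) .nil) .nil) .nil)
def Uxp12n3008 : PT := (.cons (nat_lit 1426) (.cons (nat_lit 1420) (.cons (nat_lit 1550) (.cons (nat_lit 1548) (.cons (nat_lit 1673) Uxp12n2999 .nil) .nil) .nil) .nil) .nil)
def Uxp12n3011 : PT := (.cons (nat_lit 1299) (.cons (nat_lit 660) (.cons (nat_lit 1425) (.cons (nat_lit 1428) (.cons (nat_lit 1558) (.cons (nat_lit 1556) (.cons (nat_lit 1682) Uxp12n2999 .nil) .nil) .nil) .nil) Uxp12n3008) .nil) .nil)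
def Uxp12n3053 : PT := (.cons (nat_lit 666) (.cons (nat_lit 660) (.cons (nat_lit 786) (.cons (nat_lit 780) (.cons (nat_lit 910) (.cons (nat_lit 33675) (.cons (nat_lit 908) (.cons (nat_lit 1034) (.cons (nat_lit 1028) (.cons (nat_lit 1153) Uxp12n1923 Uxp12n1697) .nil) (.cons (nat_lit 1033) Uxp12n2718 .nil)) .nil) .nil) (.cons (nat_lit 914) (.cons (nat_lit 908) (.cons (nat_lit 1033) (.cons (nat_lit 1036) (.cons (nat_lit 1166) Uxp12n2828 Uxp12n2833) .nil) (.cons (nat_lit 1042) (.cons (nat_lit 1036) (.cons (nat_lit 1166) Uxp12n2069 .nil) .nil) .nil)) .nil) (.cons (nat_lit 913) (.cons (nat_lit 916) (.cons (nat_lit 1042) (.cons (nat_lit 1036) (.cons (nat_lit 1166) Uxp12n2828 Uxp12n2843) .nil) .nil) .nil) .nil))) .nil) (.cons (nat_lit 793) (.cons (nat_lit 796) (.cons (nat_lit 922) (.cons (nat_lit 916) (.cons (nat_lit 1042) Uxp12n2854 (.cons (nat_lit 1041) (.cons (nat_lit 1044) (.cons (nat_lit 1170) (.cons (nat_lit 1164)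 (.cons (nat_lit 1289) (.cons (nat_lit 1292) (.cons (nat_lit 1422) (.cons (nat_lit 34187) (.cons (nat_lit 1420) (.cons (nat_lit 1545) Uxp12n2857 (.cons (nat_lit 1546) Uxp12n1943 .nil)) .nil) .nil) (.cons (nat_lit 1426) (.cons (nat_lit 1420) (.cons (nat_lit 1545) Uxp12n2864 .nil) .nil) .nil)) .nil) (.cons (nat_lit 1298) (.cons (nat_lit 1292) (.cons (nat_lit 1422) Uxp12n2156 .nil) .nil) .nil)) .nil) .nil) .nil) .nil)) .nil) .nil) .nil) (.cons (nat_lit 790) (.cons (nat_lit 788) (.cons (nat_lit 913) Uxp12n2902 (.cons (nat_lit 922) (.cons (nat_lit 916) (.cons (nat_lit 1046) (.cons (nat_lit 1044) (.cons (nat_lit 1174) (.cons (nat_lit 1172) (.cons (nat_lit 1298) (.cons (nat_lit 50443) (.cons (nat_lit 1164) (.cons (nat_lit 1422) (.cons (nat_lit 66955) (.cons (nat_lit 1420) (.cons (nat_lit 1550) (.cons (nat_lit 34315) (.cons (nat_lit 1548) (.cons (nat_lit 1674) Uxp12n2110 (.cons (nat_lit 1673) (.cons (nat_lit 1676) (.cons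 (nat_lit 1802) Uxp12n1597 .nil) .nil) .nil)) .nil) .nil) .nil) .nil) .nil) .nil) .nil) .nil) .nil) .nil) .nil) .nil) .nil) .nil) .nil)) .nil) .nil))) .nil) (.cons (nat_lit 665) (.cons (nat_lit 668) (.cons (nat_lit 802) (.cons (nat_lit 796) (.cons (nat_lit 922) (.cons (nat_lit 916) (.cons (nat_lit 1042) Uxp12n2854 (.cons (nat_lit 1041) (.cons (nat_lit 1044) (.cons (nat_lit 1170) (.cons (nat_lit 1164) (.cons (nat_lit 1289) (.cons (nat_lit 1292) (.cons (nat_lit 1422) (.cons (nat_lit 34187) (.cons (nat_lit 1420) (.cons (nat_lit 1546) Uxp12n1943 (.cons (nat_lit 1545) Uxp12n2857 .nil)) .nil) .nil) (.cons (nat_lit 1426) (.cons (nat_lit 1420) (.cons (nat_lit 1545) Uxp12n2864 .nil) .nil) .nil)) .nil) (.cons (nat_lit 1298) (.cons (nat_lit 1292) (.cons (nat_lit 1422) Uxp12n2156 .nil) .nil) .nil)) .nil) .nil) .nil) .nil)) .nil) (.cons (nat_lit 921) (.cons (nat_lit 924) (.cons (nat_lit 1050) (.cons (nat_lit 1044) (.cons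 (nat_lit 1169) (.cons (nat_lit 1172) (.cons (nat_lit 1298) (.cons (nat_lit 1292) (.cons (nat_lit 1422) Uxp12n2944 (.cons (nat_lit 1425) (.cons (nat_lit 1428) (.cons (nat_lit 1554) Uxp12n2864 .nil) .nil) (.cons (nat_lit 1426) (.cons (nat_lit 1420) (.cons (nat_lit 1545) Uxp12n2864 .nil) .nil) .nil))) .nil) .nil) .nil) (.cons (nat_lit 1170) (.cons (nat_lit 1164) (.cons (nat_lit 1289) (.cons (nat_lit 1292) (.cons (nat_lit 1422) Uxp12n2944 (.cons (nat_lit 1426) (.cons (nat_lit 1420) (.cons (nat_lit 1545) Uxp12n2864 .nil) .nil) .nil)) .nil) (.cons (nat_lit 1298) (.cons (nat_lit 1292) (.cons (nat_lit 1422) Uxp12n2156 .nil) .nil) .nil)) .nil) .nil)) .nil) .nil) .nil) .nil)) .nil) (.cons (nat_lit 798) (.cons (nat_lit 796) (.cons (nat_lit 922) Uxp12n2902 .nil) .nil) .nil)) .nil) (.cons (nat_lit 670) (.cons (nat_lit 668) (.cons (nat_lit 793) (.cons (nat_lit 796) (.cons (nat_lit 926) (.cons (nat_lit 924) (.cons (nat_lit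 1050) (.cons (nat_lit 1044) (.cons (nat_lit 1174) (.cons (nat_lit 1172) (.cons (nat_lit 1302) (.cons (nat_lit 34067) (.cons (nat_lit 1300) (.cons (nat_lit 1430) (.cons (nat_lit 75155) (.cons (nat_lit 1428) (.cons (nat_lit 1554) (.cons (nat_lit 58891) (.cons (nat_lit 652) (.cons (nat_lit 1674) (.cons (nat_lit 1667) (.cons (nat_lit 5) .nil .nil) (.cons (nat_lit 1676) (.cons (nat_lit 1801) (.cons (nat_lit 1804) Uxp12n2663 .nil) (.cons (nat_lit 1802) Uxp12n1597 .nil)) .nil)) .nil) .nil) .nil) .nil) .nil) .nil) .nil) .nil) .nil) .nil) .nil) .nil) .nil) .nil) .nil) (.cons (nat_lit 930) (.cons (nat_lit 924) (.cons (nat_lit 1050) (.cons (nat_lit 1043) (.cons (nat_lit 660) (.cons (nat_lit 1169) Uxp12n1125 Uxp12n2992) .nil) (.cons (nat_lit 1052) (.cons (nat_lit 1177) (.cons (nat_lit 1180) (.cons (nat_lit 1306) Uxp12n3011 .nil) .nil) (.cons (nat_lit 1178) (.cons (nat_lit 1172) (.cons (nat_lit 1297) Uxp12n3011 .nil) .nil)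 .nil)) .nil)) (.cons (nat_lit 1057) (.cons (nat_lit 1060) (.cons (nat_lit 1186) (.cons (nat_lit 1180) (.cons (nat_lit 1306) Uxp12n3011 .nil) .nil) .nil) .nil) .nil)) .nil) .nil)) .nil) (.cons (nat_lit 794) (.cons (nat_lit 787) (.cons (nat_lit 660) Uxp12n516 .nil) (.cons (nat_lit 796) (.cons (nat_lit 921) (.cons (nat_lit 924) (.cons (nat_lit 1050) (.cons (nat_lit 1043) (.cons (nat_lit 660) Uxp12n2992 .nil) (.cons (nat_lit 1052) (.cons (nat_lit 1177) (.cons (nat_lit 1180) (.cons (nat_lit 1306) (.cons (nat_lit 1299) (.cons (nat_lit 660) Uxp12n3008 .nil) .nil) .nil) .nil) (.cons (nat_lit 1178) (.cons (nat_lit 1172) (.cons (nat_lit 1297) (.cons (nat_lit 1299) (.cons (nat_lit 660) Uxp12n3008 .nil) .nil) .nil) .nil) .nil)) .nil)) .nil) .nil) (.cons (nat_lit 922) (.cons (nat_lit 916) (.cons (nat_lit 1041) (.cons (nat_lit 1043) (.cons (nat_lit 660) Uxp12n2992 .nil) .nil) (.cons (nat_lit 1050) (.cons (nat_lit 1043) (.cons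 (nat_lit 660) Uxp12n1130 .nil) .nil) .nil)) .nil) .nil)) .nil)) .nil)) .nil) .nil)))
def Uxp12n3058 : PT := (.cons (nat_lit 1411) (.cons (nat_lit 5) .nil .nil) (.cons (nat_lit 1420) (.cons (nat_lit 1545) Uxp12n116 .nil) .nil))
def Uxp12n3062 : PT := (.cons (nat_lit 1164) (.cons (nat_lit 1289) (.cons (nat_lit 1292) (.cons (nat_lit 1418) Uxp12n3058 .nil) .nil) (.cons (nat_lit 1298) Uxp12n310 .nil)) .nil)
def Uxp12n3065 : PT := (.cons (nat_lit 1036) (.cons (nat_lit 1162) (.cons (nat_lit 1155) (.cons (nat_lit 5) .nil .nil) Uxp12n3062) .nil) .nil)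
def Uxp12n3072 : PT := (.cons (nat_lit 25355) (.cons (nat_lit 780) (.cons (nat_lit 906) (.cons (nat_lit 899) (.cons (nat_lit 5) .nil .nil) (.cons (nat_lit 908) (.cons (nat_lit 1033) Uxp12n3065 (.cons (nat_lit 1042) Uxp12n933 .nil)) .nil)) .nil) .nil) .nil)
def Uxp12n3075 : PT := (.cons (nat_lit 1292) (.cons (nat_lit 1418) Uxp12n3058 (.cons (nat_lit 1425) (.cons (nat_lit 1428) (.cons (nat_lit 1554) Uxp12n116 .nil) .nil) .nil)) .nil)
def Uxp12n3081 : PT := (.cons (nat_lit 1042) (.cons (nat_lit 1036) (.cons (nat_lit 1161) (.cons (nat_lit 1164) (.cons (nat_lit 1294) (.cons (nat_lit 25867) Uxp12n3075 .nil) Uxp12n1176) .nil) Uxp12n598) .nil) .nil)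
def Uxp12n3086 : PT := (.cons (nat_lit 908) (.cons (nat_lit 1038) (.cons (nat_lit 25611) Uxp12n933 .nil) (.cons (nat_lit 1041) (.cons (nat_lit 1044) Uxp12n598 .nil) Uxp12n541)) .nil)
def Uxp12n3106 : PT := (.cons (nat_lit 1548) (.cons (nat_lit 1674) (.cons (nat_lit 1667) (.cons (nat_lit 5) .nil .nil) Uxp12n957) .nil) .nil)
def Uxp12n3110 : PT := (.cons (nat_lit 25995) (.cons (nat_lit 1420) (.cons (nat_lit 1546) (.cons (nat_lit 1540) (.cons (nat_lit 1665) Uxp12n1188 (.cons (nat_lit 1674) Uxp12n1070 .nil)) .nil) (.cons (nat_lit 1545) Uxp12n3106 .nil)) .nil) .nil)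
def Uxp12n3136 : PT := (.cons (nat_lit 908) (.cons (nat_lit 1033) (.cons (nat_lit 1036) (.cons (nat_lit 1162) Uxp12n678 .nil) .nil) (.cons (nat_lit 1042) Uxp12n18 .nil)) .nil)
def Uxp12n3141 : PT := (.cons (nat_lit 780) (.cons (nat_lit 906) (.cons (nat_lit 899) (.cons (nat_lit 5) .nil .nil) Uxp12n3136) (.cons (nat_lit 913) (.cons (nat_lit 916) (.cons (nat_lit 1042) Uxp12n933 .nil) .nil) .nil)) .nil)
def Uxp12n3206 : PT := (.cons (nat_lit 1676) (.cons (nat_lit 1806) (.cons (nat_lit 1804) (.cons (nat_lit 1934) (.cons (nat_lit 26507) Uxp12n794 .nil) .nil) .nil) .nil) .nil)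
def Uxp12n3258 : PT := (.cons (nat_lit 529) (.cons (nat_lit 532) (.cons (nat_lit 658) (.cons (nat_lit 652) (.cons (nat_lit 782) Uxp12n3072 (.cons (nat_lit 786) (.cons (nat_lit 780) (.cons (nat_lit 905) (.cons (nat_lit 908) (.cons (nat_lit 1038) (.cons (nat_lit 25611) Uxp12n3065 .nil) Uxp12n3081) .nil) (.cons (nat_lit 914) Uxp12n3086 .nil)) .nil) (.cons (nat_lit 793) (.cons (nat_lit 796) (.cons (nat_lit 922) (.cons (nat_lit 916) (.cons (nat_lit 1041) (.cons (nat_lit 1044) (.cons (nat_lit 1170) (.cons (nat_lit 1164) (.cons (nat_lit 1294) (.cons (nat_lit 25867) Uxp12n3075 .nil) Uxp12n1233) .nil) .nil) .nil) Uxp12n3081) .nil) .nil) .nil) .nil))) .nil) (.cons (nat_lit 670) (.cons (nat_lit 668) (.cons (nat_lit 794) (.cons (nat_lit 788) (.cons (nat_lit 918) (.cons (nat_lit 916) (.cons (nat_lit 1046) (.cons (nat_lit 1044) (.cons (nat_lit 1170) (.cons (nat_lit 42123) (.cons (nat_lit 1036) (.cons (nat_lit 1294) (.cons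 (nat_lit 58635) (.cons (nat_lit 1292) (.cons (nat_lit 1422) Uxp12n3110 .nil) .nil) .nil) .nil) .nil) .nil) .nil) .nil) .nil) .nil) .nil) .nil) .nil) .nil) .nil)) .nil) (.cons (nat_lit 530) (.cons (nat_lit 524) (.cons (nat_lit 649) (.cons (nat_lit 652) (.cons (nat_lit 782) Uxp12n3072 (.cons (nat_lit 794) (.cons (nat_lit 788) (.cons (nat_lit 914) Uxp12n3086 (.cons (nat_lit 913) (.cons (nat_lit 916) Uxp12n3081 .nil) .nil)) .nil) .nil)) .nil) (.cons (nat_lit 658) (.cons (nat_lit 652) (.cons (nat_lit 782) (.cons (nat_lit 25355) Uxp12n3141 .nil) (.cons (nat_lit 786) (.cons (nat_lit 780) (.cons (nat_lit 905) (.cons (nat_lit 908) (.cons (nat_lit 1038) (.cons (nat_lit 25611) Uxp12n933 .nil) Uxp12n541) .nil) Uxp12n551) .nil) (.cons (nat_lit 785) (.cons (nat_lit 788) (.cons (nat_lit 914) Uxp12n3086 .nil) .nil) .nil))) .nil) (.cons (nat_lit 654) (.cons (nat_lit 652) (.cons (nat_lit 777) (.cons (nat_lit 780) (.cons (nat_lit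 910) (.cons (nat_lit 908) (.cons (nat_lit 1038) (.cons (nat_lit 1036) (.cons (nat_lit 1162) (.cons (nat_lit 42115) (.cons (nat_lit 1028) (.cons (nat_lit 1286) (.cons (nat_lit 58627) (.cons (nat_lit 1284) (.cons (nat_lit 1414) (.cons (nat_lit 1411) (.cons (nat_lit 25987) (.cons (nat_lit 5) .nil .nil) .nil) Uxp12n3110) .nil) .nil) .nil) .nil) .nil) .nil) .nil) .nil) .nil) .nil) .nil) .nil) (.cons (nat_lit 786) (.cons (nat_lit 780) (.cons (nat_lit 910) (.cons (nat_lit 908) (.cons (nat_lit 1038) (.cons (nat_lit 1036) (.cons (nat_lit 1162) (.cons (nat_lit 42115) (.cons (nat_lit 1028) (.cons (nat_lit 1286) (.cons (nat_lit 58627) (.cons (nat_lit 1284) (.cons (nat_lit 1414) (.cons (nat_lit 1411) (.cons (nat_lit 25987) (.cons (nat_lit 5) .nil .nil) .nil) (.cons (nat_lit 25995) (.cons (nat_lit 1420) (.cons (nat_lit 1546) Uxp12n1943 (.cons (nat_lit 1545) (.cons (nat_lit 1548) (.cons (nat_lit 1674) Uxp12n1070 .nil) .nil)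 .nil)) .nil) .nil)) .nil) .nil) .nil) .nil) .nil) .nil) .nil) .nil) .nil) .nil) .nil) .nil) .nil)) .nil) .nil))) .nil) (.cons (nat_lit 534) (.cons (nat_lit 531) (.cons (nat_lit 532) Uxp12n631 .nil) (.cons (nat_lit 540) (.cons (nat_lit 665) (.cons (nat_lit 668) (.cons (nat_lit 794) (.cons (nat_lit 787) (.cons (nat_lit 532) (.cons (nat_lit 913) (.cons (nat_lit 916) (.cons (nat_lit 1046) (.cons (nat_lit 1044) (.cons (nat_lit 1170) Uxp12n1293 .nil) .nil) .nil) .nil) Uxp12n1299) .nil) (.cons (nat_lit 796) (.cons (nat_lit 921) (.cons (nat_lit 924) (.cons (nat_lit 1050) (.cons (nat_lit 1043) (.cons (nat_lit 532) (.cons (nat_lit 1169) Uxp12n1273 (.cons (nat_lit 1170) (.cons (nat_lit 1164) (.cons (nat_lit 1294) (.cons (nat_lit 1292) (.cons (nat_lit 1417) Uxp12n1269 (.cons (nat_lit 1426) Uxp12n1269 .nil)) .nil) .nil) .nil) .nil)) .nil) (.cons (nat_lit 1052) (.cons (nat_lit 1177) (.cons (nat_lit 1180) (.cons (nat_lit 1306)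 (.cons (nat_lit 1299) (.cons (nat_lit 532) (.cons (nat_lit 1425) (.cons (nat_lit 1428) (.cons (nat_lit 1558) (.cons (nat_lit 1556) (.cons (nat_lit 1682) Uxp12n3206 .nil) .nil) .nil) .nil) (.cons (nat_lit 1426) (.cons (nat_lit 1420) (.cons (nat_lit 1550) (.cons (nat_lit 1548) (.cons (nat_lit 1673) Uxp12n3206 .nil) .nil) .nil) .nil) .nil)) .nil) .nil) .nil) .nil) .nil) .nil)) .nil) .nil) Uxp12n1284) .nil)) (.cons (nat_lit 806) (.cons (nat_lit 804) (.cons (nat_lit 930) (.cons (nat_lit 924) (.cons (nat_lit 1054) (.cons (nat_lit 1052) (.cons (nat_lit 1182) (.cons (nat_lit 25755) (.cons (nat_lit 1180) (.cons (nat_lit 1310) (.cons (nat_lit 66843) (.cons (nat_lit 1308) (.cons (nat_lit 1434) (.cons (nat_lit 50579) (.cons (nat_lit 532) (.cons (nat_lit 1554) Uxp12n1072 .nil) .nil) .nil) .nil) .nil) .nil) .nil) .nil) .nil) .nil) .nil) .nil) .nil) .nil) .nil) .nil)) .nil) (.cons (nat_lit 674) (.cons (nat_lit 668) (.cons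 (nat_lit 794) (.cons (nat_lit 787) (.cons (nat_lit 532) Uxp12n1299 .nil) (.cons (nat_lit 796) (.cons (nat_lit 921) Uxp12n1305 .nil) .nil)) (.cons (nat_lit 801) (.cons (nat_lit 804) (.cons (nat_lit 930) Uxp12n1305 .nil) .nil) .nil)) .nil) .nil)) .nil)) .nil)))
def Uxp12n3272 : PT := (.cons (nat_lit 1284) (.cons (nat_lit 1414) (.cons (nat_lit 1411) (.cons (nat_lit 17795) (.cons (nat_lit 5) .nil .nil) .nil) (.cons (nat_lit 17803) (.cons (nat_lit 1420) (.cons (nat_lit 1545) Uxp12n116 .nil) .nil) .nil)) (.cons (nat_lit 1417) (.cons (nat_lit 1420) (.cons (nat_lit 1546) Uxp12n1376 .nil) .nil) .nil)) .nil)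
def Uxp12n3278 : PT := (.cons (nat_lit 1028) (.cons (nat_lit 1158) (.cons (nat_lit 1155) (.cons (nat_lit 17539) (.cons (nat_lit 5) .nil .nil) .nil) (.cons (nat_lit 17547) Uxp12n3062 .nil)) (.cons (nat_lit 1161) (.cons (nat_lit 1164) (.cons (nat_lit 1290) Uxp12n3272 .nil) .nil) (.cons (nat_lit 1170) (.cons (nat_lit 1164) (.cons (nat_lit 1290) Uxp12n1331 .nil) .nil) .nil))) .nil)
def Uxp12n3284 : PT := (.cons (nat_lit 1028) (.cons (nat_lit 1158) (.cons (nat_lit 1155) (.cons (nat_lit 17539) (.cons (nat_lit 5) .nil .nil) .nil) (.cons (nat_lit 17547) (.cons (nat_lit 1164) (.cons (nat_lit 1289) Uxp12n310 .nil) .nil) .nil)) (.cons (nat_lit 1161) (.cons (nat_lit 1164) (.cons (nat_lit 1290) Uxp12n1331 .nil) .nil) .nil)) .nil)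
def Uxp12n3291 : PT := (.cons (nat_lit 1174) (.cons (nat_lit 17555) (.cons (nat_lit 1172) (.cons (nat_lit 1298) Uxp12n310 (.cons (nat_lit 1297) (.cons (nat_lit 1300) (.cons (nat_lit 1426) (.cons (nat_lit 1420) (.cons (nat_lit 1545) Uxp12n116 .nil) .nil) .nil) .nil) .nil)) .nil) .nil) .nil)
def Uxp12n3296 : PT := (.cons (nat_lit 908) (.cons (nat_lit 1034) Uxp12n3284 (.cons (nat_lit 1041) (.cons (nat_lit 1044) (.cons (nat_lit 1170) (.cons (nat_lit 1164) (.cons (nat_lit 1290) Uxp12n1331 .nil) .nil) Uxp12n3291) .nil) .nil)) .nil)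
def Uxp12n3300 : PT := (.cons (nat_lit 772) (.cons (nat_lit 902) (.cons (nat_lit 899) (.cons (nat_lit 17283) (.cons (nat_lit 5) .nil .nil) .nil) (.cons (nat_lit 17291) (.cons (nat_lit 908) (.cons (nat_lit 1033) Uxp12n3065 (.cons (nat_lit 1042) Uxp12n933 .nil)) .nil) .nil)) (.cons (nat_lit 905) (.cons (nat_lit 908) (.cons (nat_lit 1034) Uxp12n3278 .nil) .nil) (.cons (nat_lit 914) Uxp12n3296 .nil))) .nil)
def Uxp12n3307 : PT := (.cons (nat_lit 1430) (.cons (nat_lit 17811) (.cons (nat_lit 1428) (.cons (nat_lit 1554) Uxp12n116 (.cons (nat_lit 1553) (.cons (nat_lit 1556) (.cons (nat_lit 1682) (.cons (nat_lit 1676) (.cons (nat_lit 1801) Uxp12n351 .nil) .nil) .nil) .nil) .nil)) .nil) .nil) .nil)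
def Uxp12n3314 : PT := (.cons (nat_lit 1420) (.cons (nat_lit 1545) (.cons (nat_lit 1548) (.cons (nat_lit 1674) Uxp12n1070 .nil) .nil) (.cons (nat_lit 1554) Uxp12n116 .nil)) .nil)
def Uxp12n3320 : PT := (.cons (nat_lit 17555) (.cons (nat_lit 1172) (.cons (nat_lit 1298) Uxp12n3075 (.cons (nat_lit 1297) (.cons (nat_lit 1300) (.cons (nat_lit 1426) Uxp12n3314 .nil) .nil) .nil)) .nil) .nil)
def Uxp12n3349 : PT := (.cons (nat_lit 17299) (.cons (nat_lit 916) (.cons (nat_lit 1042) Uxp12n933 (.cons (nat_lit 1041) (.cons (nat_lit 1044) (.cons (nat_lit 1170) Uxp12n3062 .nil) .nil) .nil)) .nil) .nil)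
def Uxp12n3394 : PT := (.cons (nat_lit 660) (.cons (nat_lit 790) (.cons (nat_lit 788) (.cons (nat_lit 918) (.cons (nat_lit 916) (.cons (nat_lit 1042) (.cons (nat_lit 33803) (.cons (nat_lit 908) (.cons (nat_lit 1166) (.cons (nat_lit 50315) (.cons (nat_lit 1164) (.cons (nat_lit 1294) (.cons (nat_lit 17675) (.cons (nat_lit 1292) (.cons (nat_lit 1418) (.cons (nat_lit 1411) (.cons (nat_lit 5) .nil .nil) (.cons (nat_lit 1420) (.cons (nat_lit 1545) Uxp12n3106 (.cons (nat_lit 1554) Uxp12n1072 .nil)) .nil)) (.cons (nat_lit 1425) (.cons (nat_lit 1428) (.cons (nat_lit 1554) (.cons (nat_lit 1548) (.cons (nat_lit 1674) (.cons (nat_lit 1667) (.cons (nat_lit 5) .nil .nil) Uxp12n957) (.cons (nat_lit 1681) (.cons (nat_lit 1684) (.cons (nat_lit 1810) (.cons (nat_lit 1804) (.cons (nat_lit 1930) Uxp12n953 (.cons (nat_lit 1937) (.cons (nat_lit 1940) (.cons (nat_lit 2066) Uxp12n844 .nil) .nil) .nil)) .nil) .nil) .nil) .nil)) .nil)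 .nil) .nil) .nil)) .nil) .nil) .nil) .nil) .nil) .nil) .nil) .nil) .nil) .nil) .nil) .nil) .nil) .nil)
def Uxp12n3432 : PT := (.cons (nat_lit 1178) (.cons (nat_lit 1172) (.cons (nat_lit 1297) (.cons (nat_lit 1300) Uxp12n3307 .nil) .nil) .nil) .nil)
def Uxp12n3437 : PT := (.cons (nat_lit 922) (.cons (nat_lit 916) (.cons (nat_lit 1041) (.cons (nat_lit 1044) (.cons (nat_lit 1174) Uxp12n3320 Uxp12n3432) .nil) (.cons (nat_lit 1050) (.cons (nat_lit 1044) Uxp12n3291 .nil) .nil)) .nil) .nil)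
def Uxp12n3465 : PT := (.cons (nat_lit 908) (.cons (nat_lit 1038) (.cons (nat_lit 1036) (.cons (nat_lit 1166) (.cons (nat_lit 17547) Uxp12n617 .nil) .nil) .nil) .nil) .nil)
def Uxp12n3477 : PT := (.cons (nat_lit 1164) (.cons (nat_lit 1294) (.cons (nat_lit 1292) (.cons (nat_lit 1422) (.cons (nat_lit 17803) Uxp12n51 .nil) .nil) .nil) .nil) .nil)
def Uxp12n3483 : PT := (.cons (nat_lit 914) (.cons (nat_lit 908) (.cons (nat_lit 1038) (.cons (nat_lit 1036) (.cons (nat_lit 1161) Uxp12n3477 (.cons (nat_lit 1170) Uxp12n3477 .nil)) .nil) .nil) .nil) .nil)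
def Uxp12n3489 : PT := (.cons (nat_lit 1420) (.cons (nat_lit 1550) (.cons (nat_lit 1548) (.cons (nat_lit 1678) (.cons (nat_lit 18059) Uxp12n242 .nil) .nil) .nil) .nil) .nil)
def Uxp12n3495 : PT := (.cons (nat_lit 1170) (.cons (nat_lit 1164) (.cons (nat_lit 1294) (.cons (nat_lit 1292) (.cons (nat_lit 1417) Uxp12n3489 (.cons (nat_lit 1426) Uxp12n3489 .nil)) .nil) .nil) .nil) .nil)
def Uxp12n3501 : PT := (.cons (nat_lit 1676) (.cons (nat_lit 1806) (.cons (nat_lit 1804) (.cons (nat_lit 1934) (.cons (nat_lit 18315) Uxp12n794 .nil) .nil) .nil) .nil) .nil)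
def Uxp12n3506 : PT := (.cons (nat_lit 1426) (.cons (nat_lit 1420) (.cons (nat_lit 1550) (.cons (nat_lit 1548) (.cons (nat_lit 1673) Uxp12n3501 .nil) .nil) .nil) .nil) .nil)
def Uxp12n3520 : PT := (.cons (nat_lit 1170) (.cons (nat_lit 1164) (.cons (nat_lit 1294) (.cons (nat_lit 1292) (.cons (nat_lit 1417) Uxp12n3489 .nil) .nil) .nil) .nil) .nil)
def Uxp12n3524 : PT := (.cons (nat_lit 924) (.cons (nat_lit 1050) (.cons (nat_lit 1043) (.cons (nat_lit 404) Uxp12n3520 .nil) .nil) .nil) .nil)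
def Uxp12n3549 : PT := (.cons (nat_lit 1172) (.cons (nat_lit 1302) (.cons (nat_lit 1300) (.cons (nat_lit 1426) Uxp12n3489 .nil) .nil) .nil) .nil)
def Uxp12n3560 : PT := (.cons (nat_lit 1180) (.cons (nat_lit 1306) (.cons (nat_lit 1299) (.cons (nat_lit 404) (.cons (nat_lit 1425) (.cons (nat_lit 1428) (.cons (nat_lit 1558) (.cons (nat_lit 1556) (.cons (nat_lit 1682) Uxp12n3501 .nil) .nil) .nil) .nil) Uxp12n3506) .nil) .nil) .nil) .nil)
def Uxp12n3563 : PT := (.cons (nat_lit 1043) (.cons (nat_lit 404) (.cons (nat_lit 1169) Uxp12n3549 Uxp12n3495) .nil) (.cons (nat_lit 1052) (.cons (nat_lit 1177) Uxp12n3560 .nil) .nil))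
def Uxp12n3608 : PT := (.cons (nat_lit 410) (.cons (nat_lit 404) (.cons (nat_lit 529) (.cons (nat_lit 532) (.cons (nat_lit 658) (.cons (nat_lit 652) (.cons (nat_lit 778) Uxp12n3300 (.cons (nat_lit 785) (.cons (nat_lit 788) (.cons (nat_lit 914) (.cons (nat_lit 908) (.cons (nat_lit 1034) Uxp12n3278 (.cons (nat_lit 1041) (.cons (nat_lit 1044) (.cons (nat_lit 1170) (.cons (nat_lit 1164) (.cons (nat_lit 1290) Uxp12n3272 (.cons (nat_lit 1297) (.cons (nat_lit 1300) (.cons (nat_lit 1426) (.cons (nat_lit 1420) (.cons (nat_lit 1546) Uxp12n1376 .nil) .nil) Uxp12n3307) .nil) .nil)) .nil) (.cons (nat_lit 1174) Uxp12n3320 .nil)) .nil) .nil)) .nil) .nil) .nil) .nil)) .nil) .nil) .nil) (.cons (nat_lit 530) (.cons (nat_lit 524) (.cons (nat_lit 649) (.cons (nat_lit 652) (.cons (nat_lit 778) Uxp12n3300 .nil) .nil) (.cons (nat_lit 658) (.cons (nat_lit 652) (.cons (nat_lit 778) (.cons (nat_lit 772) (.cons (nat_lit 902) (.cons (nat_lit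 899) (.cons (nat_lit 17283) (.cons (nat_lit 5) .nil .nil) .nil) (.cons (nat_lit 17291) Uxp12n3136 .nil)) (.cons (nat_lit 905) (.cons (nat_lit 908) (.cons (nat_lit 1034) Uxp12n3284 .nil) .nil) (.cons (nat_lit 914) (.cons (nat_lit 908) (.cons (nat_lit 1034) Uxp12n1338 .nil) .nil) .nil))) .nil) (.cons (nat_lit 785) (.cons (nat_lit 788) (.cons (nat_lit 914) Uxp12n3296 (.cons (nat_lit 918) Uxp12n3349 .nil)) .nil) .nil)) .nil) (.cons (nat_lit 662) (.cons (nat_lit 17043) (.cons (nat_lit 660) (.cons (nat_lit 786) Uxp12n3141 (.cons (nat_lit 785) (.cons (nat_lit 788) (.cons (nat_lit 914) (.cons (nat_lit 908) (.cons (nat_lit 1033) Uxp12n3065 (.cons (nat_lit 1042) Uxp12n933 .nil)) .nil) .nil) .nil) .nil)) .nil) .nil) .nil))) .nil) (.cons (nat_lit 534) (.cons (nat_lit 532) (.cons (nat_lit 657) Uxp12n3394 (.cons (nat_lit 666) (.cons (nat_lit 660) (.cons (nat_lit 790) (.cons (nat_lit 788) (.cons (nat_lit 918) (.cons (nat_lit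 916) (.cons (nat_lit 1042) (.cons (nat_lit 33803) (.cons (nat_lit 908) (.cons (nat_lit 1166) (.cons (nat_lit 50315) (.cons (nat_lit 1164) (.cons (nat_lit 1294) (.cons (nat_lit 17675) (.cons (nat_lit 1292) (.cons (nat_lit 1418) (.cons (nat_lit 1411) (.cons (nat_lit 5) .nil .nil) Uxp12n3314) (.cons (nat_lit 1425) (.cons (nat_lit 1428) (.cons (nat_lit 1554) Uxp12n1072 .nil) .nil) .nil)) .nil) .nil) .nil) .nil) .nil) .nil) .nil) .nil) .nil) .nil) .nil) .nil) .nil) .nil) .nil)) .nil) .nil))) .nil) (.cons (nat_lit 409) (.cons (nat_lit 412) (.cons (nat_lit 554) (.cons (nat_lit 548) (.cons (nat_lit 674) (.cons (nat_lit 668) (.cons (nat_lit 794) (.cons (nat_lit 788) (.cons (nat_lit 918) Uxp12n3349 (.cons (nat_lit 921) (.cons (nat_lit 924) (.cons (nat_lit 1050) (.cons (nat_lit 1044) Uxp12n3291 .nil) .nil) .nil) (.cons (nat_lit 922) (.cons (nat_lit 916) (.cons (nat_lit 1041) (.cons (nat_lit 1044) Uxp12n3291 .nil) .nil)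 .nil) .nil))) .nil) (.cons (nat_lit 793) (.cons (nat_lit 796) Uxp12n3437 .nil) .nil)) .nil) (.cons (nat_lit 673) (.cons (nat_lit 676) (.cons (nat_lit 802) (.cons (nat_lit 796) (.cons (nat_lit 921) (.cons (nat_lit 924) (.cons (nat_lit 1050) (.cons (nat_lit 1044) (.cons (nat_lit 1174) Uxp12n3320 (.cons (nat_lit 1177) (.cons (nat_lit 1180) (.cons (nat_lit 1306) (.cons (nat_lit 1300) Uxp12n3307 .nil) .nil) .nil) Uxp12n3432)) .nil) .nil) .nil) Uxp12n3437) .nil) .nil) .nil) .nil)) .nil) (.cons (nat_lit 542) (.cons (nat_lit 540) (.cons (nat_lit 666) Uxp12n3394 .nil) .nil) .nil)) .nil) (.cons (nat_lit 414) (.cons (nat_lit 412) (.cons (nat_lit 538) (.cons (nat_lit 531) (.cons (nat_lit 404) (.cons (nat_lit 658) (.cons (nat_lit 652) (.cons (nat_lit 782) (.cons (nat_lit 780) (.cons (nat_lit 905) Uxp12n3465 (.cons (nat_lit 914) Uxp12n3465 .nil)) .nil) .nil) .nil) .nil) .nil) (.cons (nat_lit 540) (.cons (nat_lit 665) (.cons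 (nat_lit 668) (.cons (nat_lit 794) (.cons (nat_lit 787) (.cons (nat_lit 404) Uxp12n3483 .nil) (.cons (nat_lit 796) (.cons (nat_lit 921) (.cons (nat_lit 924) (.cons (nat_lit 1050) (.cons (nat_lit 1043) (.cons (nat_lit 404) Uxp12n3495 .nil) (.cons (nat_lit 1052) (.cons (nat_lit 1177) (.cons (nat_lit 1180) (.cons (nat_lit 1306) (.cons (nat_lit 1299) (.cons (nat_lit 404) Uxp12n3506 .nil) .nil) .nil) .nil) .nil) .nil)) .nil) .nil) (.cons (nat_lit 930) Uxp12n3524 .nil)) .nil)) .nil) .nil) (.cons (nat_lit 674) (.cons (nat_lit 668) (.cons (nat_lit 794) (.cons (nat_lit 787) (.cons (nat_lit 404) Uxp12n3483 .nil) (.cons (nat_lit 796) (.cons (nat_lit 921) Uxp12n3524 .nil) .nil)) (.cons (nat_lit 801) (.cons (nat_lit 804) (.cons (nat_lit 930) Uxp12n3524 .nil) .nil) .nil)) .nil) .nil)) .nil)) (.cons (nat_lit 545) (.cons (nat_lit 548) (.cons (nat_lit 674) (.cons (nat_lit 668) (.cons (nat_lit 794) (.cons (nat_lit 787) (.cons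 (nat_lit 404) (.cons (nat_lit 913) (.cons (nat_lit 916) (.cons (nat_lit 1046) (.cons (nat_lit 1044) (.cons (nat_lit 1170) Uxp12n3477 .nil) .nil) .nil) .nil) Uxp12n3483) .nil) (.cons (nat_lit 796) (.cons (nat_lit 921) (.cons (nat_lit 924) (.cons (nat_lit 1050) Uxp12n3563 .nil) .nil) (.cons (nat_lit 930) (.cons (nat_lit 924) (.cons (nat_lit 1050) (.cons (nat_lit 1043) (.cons (nat_lit 404) (.cons (nat_lit 1169) Uxp12n3549 Uxp12n3520) .nil) .nil) .nil) .nil) .nil)) .nil)) (.cons (nat_lit 801) (.cons (nat_lit 804) (.cons (nat_lit 930) (.cons (nat_lit 924) (.cons (nat_lit 1050) Uxp12n3563 (.cons (nat_lit 1057) (.cons (nat_lit 1060) (.cons (nat_lit 1186) Uxp12n3560 .nil) .nil) .nil)) .nil) .nil) .nil) .nil)) .nil) (.cons (nat_lit 678) (.cons (nat_lit 676) (.cons (nat_lit 802) (.cons (nat_lit 796) (.cons (nat_lit 926) (.cons (nat_lit 924) (.cons (nat_lit 1054) (.cons (nat_lit 17435) (.cons (nat_lit 1052) (.cons (nat_lit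 1182) (.cons (nat_lit 58523) (.cons (nat_lit 1180) (.cons (nat_lit 1306) (.cons (nat_lit 42259) (.cons (nat_lit 404) (.cons (nat_lit 1426) (.cons (nat_lit 1420) (.cons (nat_lit 1545) Uxp12n3106 (.cons (nat_lit 1554) Uxp12n1072 .nil)) .nil) .nil) .nil) .nil) .nil) .nil) .nil) .nil) .nil) .nil) .nil) .nil) .nil) .nil) .nil) .nil) .nil)) .nil) .nil)) .nil) .nil)))
def Uxp12n3653 : PT := (.cons (nat_lit 1292) (.cons (nat_lit 1418) (.cons (nat_lit 9603) (.cons (nat_lit 5) .nil .nil) .nil) .nil) .nil)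
def Uxp12n3662 : PT := (.cons (nat_lit 25483) (.cons (nat_lit 908) (.cons (nat_lit 1038) (.cons (nat_lit 1036) (.cons (nat_lit 1166) (.cons (nat_lit 1163) (.cons (nat_lit 1164) (.cons (nat_lit 1294) (.cons (nat_lit 66827) Uxp12n3653 .nil) .nil) .nil) .nil) .nil) .nil) .nil) .nil) .nil)
def Uxp12n3665 : PT := (.cons (nat_lit 1548) (.cons (nat_lit 1674) (.cons (nat_lit 9859) (.cons (nat_lit 5) .nil .nil) .nil) .nil) .nil)
def Uxp12n3674 : PT := (.cons (nat_lit 25739) (.cons (nat_lit 1164) (.cons (nat_lit 1294) (.cons (nat_lit 1292) (.cons (nat_lit 1422) (.cons (nat_lit 1419) (.cons (nat_lit 1420) (.cons (nat_lit 1550) (.cons (nat_lit 83467) Uxp12n3665 .nil) .nil) .nil) .nil) .nil) .nil) .nil) .nil) .nil)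
def Uxp12n3677 : PT := (.cons (nat_lit 1804) (.cons (nat_lit 1930) (.cons (nat_lit 10115) (.cons (nat_lit 5) .nil .nil) .nil) .nil) .nil)
def Uxp12n3686 : PT := (.cons (nat_lit 25995) (.cons (nat_lit 1420) (.cons (nat_lit 1550) (.cons (nat_lit 1548) (.cons (nat_lit 1678) (.cons (nat_lit 1675) (.cons (nat_lit 1676) (.cons (nat_lit 1806) (.cons (nat_lit 100107) Uxp12n3677 .nil) .nil) .nil) .nil) .nil) .nil) .nil) .nil) .nil)
def Uxp12n3693 : PT := (.cons (nat_lit 1170) (.cons (nat_lit 1164) (.cons (nat_lit 1289) (.cons (nat_lit 1292) (.cons (nat_lit 1422) Uxp12n3686 .nil) .nil) .nil) .nil) .nil)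
def Uxp12n3696 : PT := (.cons (nat_lit 1036) (.cons (nat_lit 1166) Uxp12n3674 (.cons (nat_lit 1169) (.cons (nat_lit 1172) (.cons (nat_lit 1298) (.cons (nat_lit 1292) (.cons (nat_lit 1422) Uxp12n3686 .nil) .nil) .nil) .nil) Uxp12n3693)) .nil)
def Uxp12n3706 : PT := (.cons (nat_lit 914) (.cons (nat_lit 908) (.cons (nat_lit 1033) (.cons (nat_lit 1036) (.cons (nat_lit 1166) Uxp12n3674 Uxp12n3693) .nil) (.cons (nat_lit 1042) (.cons (nat_lit 1036) (.cons (nat_lit 1166) Uxp12n3674 .nil) .nil) .nil)) .nil) .nil)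
def Uxp12n3709 : PT := (.cons (nat_lit 780) (.cons (nat_lit 910) Uxp12n3662 (.cons (nat_lit 913) (.cons (nat_lit 916) (.cons (nat_lit 1042) Uxp12n3696 .nil) .nil) Uxp12n3706)) .nil)
def Uxp12n3730 : PT := (.cons (nat_lit 2060) (.cons (nat_lit 2186) (.cons (nat_lit 10371) (.cons (nat_lit 5) .nil .nil) .nil) .nil) .nil)
def Uxp12n3739 : PT := (.cons (nat_lit 26251) (.cons (nat_lit 1676) (.cons (nat_lit 1806) (.cons (nat_lit 1804) (.cons (nat_lit 1934) (.cons (nat_lit 1931) (.cons (nat_lit 1932) (.cons (nat_lit 2062) (.cons (nat_lit 116747) Uxp12n3730 .nil) .nil) .nil) .nil) .nil) .nil) .nil) .nil) .nil)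
def Uxp12n3744 : PT := (.cons (nat_lit 1426) (.cons (nat_lit 1420) (.cons (nat_lit 1545) (.cons (nat_lit 1548) (.cons (nat_lit 1678) Uxp12n3739 .nil) .nil) .nil) .nil) .nil)
def Uxp12n3749 : PT := (.cons (nat_lit 1170) (.cons (nat_lit 1164) (.cons (nat_lit 1289) (.cons (nat_lit 1292) (.cons (nat_lit 1422) Uxp12n3686 Uxp12n3744) .nil) (.cons (nat_lit 1298) (.cons (nat_lit 1292) (.cons (nat_lit 1422) Uxp12n3686 .nil) .nil) .nil)) .nil) .nil)
def Uxp12n3773 : PT := (.cons (nat_lit 1036) (.cons (nat_lit 1166) (.cons (nat_lit 1163) (.cons (nat_lit 1164) (.cons (nat_lit 1290) (.cons (nat_lit 1284) (.cons (nat_lit 1414) (.cons (nat_lit 50563) (.cons (nat_lit 58755) (.cons (nat_lit 5) .nil .nil) .nil) .nil) .nil) .nil) .nil) .nil) .nil) .nil) .nil)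
def Uxp12n3780 : PT := (.cons (nat_lit 8851) (.cons (nat_lit 660) (.cons (nat_lit 790) (.cons (nat_lit 788) (.cons (nat_lit 918) (.cons (nat_lit 916) (.cons (nat_lit 1042) Uxp12n3773 .nil) .nil) .nil) .nil) .nil) .nil) .nil)
def Uxp12n3789 : PT := (.cons (nat_lit 1292) (.cons (nat_lit 1422) (.cons (nat_lit 1419) (.cons (nat_lit 1420) (.cons (nat_lit 1546) (.cons (nat_lit 1540) (.cons (nat_lit 1670) (.cons (nat_lit 67203) (.cons (nat_lit 75395) (.cons (nat_lit 5) .nil .nil) .nil) .nil) .nil) .nil) .nil) .nil) .nil) .nil) .nil)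
def Uxp12n3796 : PT := (.cons (nat_lit 9107) (.cons (nat_lit 916) (.cons (nat_lit 1046) (.cons (nat_lit 1044) (.cons (nat_lit 1174) (.cons (nat_lit 1172) (.cons (nat_lit 1298) Uxp12n3789 .nil) .nil) .nil) .nil) .nil) .nil) .nil)
def Uxp12n3805 : PT := (.cons (nat_lit 1548) (.cons (nat_lit 1678) (.cons (nat_lit 1675) (.cons (nat_lit 1676) (.cons (nat_lit 1802) (.cons (nat_lit 1796) (.cons (nat_lit 1926) (.cons (nat_lit 83843) (.cons (nat_lit 92035) (.cons (nat_lit 5) .nil .nil) .nil) .nil) .nil) .nil) .nil) .nil) .nil) .nil) .nil)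
def Uxp12n3814 : PT := (.cons (nat_lit 1044) (.cons (nat_lit 1174) (.cons (nat_lit 9363) (.cons (nat_lit 1172) (.cons (nat_lit 1302) (.cons (nat_lit 1300) (.cons (nat_lit 1430) (.cons (nat_lit 1428) (.cons (nat_lit 1554) Uxp12n3805 .nil) .nil) .nil) .nil) .nil) .nil) .nil) .nil) .nil)
def Uxp12n3832 : PT := (.cons (nat_lit 666) (.cons (nat_lit 660) (.cons (nat_lit 785) (.cons (nat_lit 788) (.cons (nat_lit 918) Uxp12n3796 (.cons (nat_lit 922) (.cons (nat_lit 916) (.cons (nat_lit 1041) Uxp12n3814 .nil) .nil) .nil)) .nil) (.cons (nat_lit 794) (.cons (nat_lit 788) (.cons (nat_lit 918) Uxp12n3796 .nil) .nil) .nil)) .nil) .nil)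
def Uxp12n3859 : PT := (.cons (nat_lit 1298) (.cons (nat_lit 1292) (.cons (nat_lit 1422) Uxp12n3686 (.cons (nat_lit 1425) (.cons (nat_lit 1428) (.cons (nat_lit 1554) (.cons (nat_lit 1548) (.cons (nat_lit 1678) Uxp12n3739 .nil) .nil) .nil) .nil) Uxp12n3744)) .nil) .nil)
def Uxp12n3863 : PT := (.cons (nat_lit 1036) (.cons (nat_lit 1166) Uxp12n3674 (.cons (nat_lit 1169) (.cons (nat_lit 1172) Uxp12n3859 .nil) Uxp12n3749)) .nil)
def Uxp12n3870 : PT := (.cons (nat_lit 914) (.cons (nat_lit 908) (.cons (nat_lit 1033) (.cons (nat_lit 1036) (.cons (nat_lit 1166) Uxp12n3674 Uxp12n3749) .nil) (.cons (nat_lit 1042) Uxp12n3696 .nil)) .nil) .nil)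
def Uxp12n3876 : PT := (.cons (nat_lit 2316) (.cons (nat_lit 2442) (.cons (nat_lit 10627) (.cons (nat_lit 5) .nil .nil) .nil) .nil) .nil)
def Uxp12n3929 : PT := (.cons (nat_lit 1804) (.cons (nat_lit 1929) (.cons (nat_lit 1932) (.cons (nat_lit 2062) (.cons (nat_lit 51211) Uxp12n3730 .nil) .nil) .nil) .nil) .nil)
def Uxp12n3935 : PT := (.cons (nat_lit 1682) (.cons (nat_lit 1676) (.cons (nat_lit 1806) (.cons (nat_lit 50955) Uxp12n3677 .nil) .nil) .nil) .nil)
def Uxp12n3937 : PT := (.cons (nat_lit 1548) (.cons (nat_lit 1673) (.cons (nat_lit 1676) (.cons (nat_lit 1806) (.cons (nat_lit 50955) Uxp12n3677 .nil) (.cons (nat_lit 1810) Uxp12n3929 .nil)) .nil) Uxp12n3935) .nil)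
def Uxp12n3942 : PT := (.cons (nat_lit 1548) (.cons (nat_lit 1673) (.cons (nat_lit 1676) (.cons (nat_lit 1806) (.cons (nat_lit 50955) Uxp12n3677 .nil) .nil) .nil) .nil) .nil)
def Uxp12n3948 : PT := (.cons (nat_lit 1426) (.cons (nat_lit 1420) (.cons (nat_lit 1550) (.cons (nat_lit 50699) Uxp12n3665 .nil) (.cons (nat_lit 1554) Uxp12n3942 (.cons (nat_lit 1553) (.cons (nat_lit 1556) Uxp12n3935 .nil) .nil))) .nil) .nil)
def Uxp12n3950 : PT := (.cons (nat_lit 1292) (.cons (nat_lit 1417) (.cons (nat_lit 1420) (.cons (nat_lit 1550) (.cons (nat_lit 50699) Uxp12n3665 .nil) (.cons (nat_lit 1554) Uxp12n3937 .nil)) .nil) Uxp12n3948) .nil)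
def Uxp12n3970 : PT := (.cons (nat_lit 1938) (.cons (nat_lit 1932) (.cons (nat_lit 2062) (.cons (nat_lit 51211) Uxp12n3730 .nil) .nil) .nil) .nil)
def Uxp12n3976 : PT := (.cons (nat_lit 1682) (.cons (nat_lit 1676) (.cons (nat_lit 1806) (.cons (nat_lit 50955) Uxp12n3677 .nil) (.cons (nat_lit 1810) Uxp12n3929 (.cons (nat_lit 1809) (.cons (nat_lit 1812) Uxp12n3970 .nil) .nil))) .nil) .nil)
def Uxp12n3981 : PT := (.cons (nat_lit 1420) (.cons (nat_lit 1550) (.cons (nat_lit 50699) Uxp12n3665 .nil) (.cons (nat_lit 1554) Uxp12n3937 (.cons (nat_lit 1553) (.cons (nat_lit 1556) Uxp12n3976 .nil) .nil))) .nil)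
def Uxp12n3987 : PT := (.cons (nat_lit 1164) (.cons (nat_lit 1294) (.cons (nat_lit 50443) Uxp12n3653 .nil) (.cons (nat_lit 1298) Uxp12n3950 (.cons (nat_lit 1297) (.cons (nat_lit 1300) (.cons (nat_lit 1426) Uxp12n3981 .nil) .nil) .nil))) .nil)
def Uxp12n4036 : PT := (.cons (nat_lit 1932) (.cons (nat_lit 2058) (.cons (nat_lit 2052) (.cons (nat_lit 2182) (.cons (nat_lit 2179) (.cons (nat_lit 59523) (.cons (nat_lit 5) .nil .nil) .nil) .nil) .nil) .nil) .nil) .nil)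
def Uxp12n4039 : PT := (.cons (nat_lit 1796) (.cons (nat_lit 1926) (.cons (nat_lit 1923) (.cons (nat_lit 59267) (.cons (nat_lit 5) .nil .nil) .nil) .nil) (.cons (nat_lit 1929) Uxp12n4036 .nil)) .nil)
def Uxp12n4047 : PT := (.cons (nat_lit 1540) (.cons (nat_lit 1670) (.cons (nat_lit 1667) (.cons (nat_lit 59011) (.cons (nat_lit 5) .nil .nil) .nil) .nil) (.cons (nat_lit 1673) (.cons (nat_lit 1676) (.cons (nat_lit 1802) Uxp12n4039 .nil) .nil) (.cons (nat_lit 1682) (.cons (nat_lit 1676) (.cons (nat_lit 1802) Uxp12n222 .nil) .nil) .nil))) .nil)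
def Uxp12n4052 : PT := (.cons (nat_lit 1540) (.cons (nat_lit 1670) (.cons (nat_lit 1667) (.cons (nat_lit 59011) (.cons (nat_lit 5) .nil .nil) .nil) .nil) (.cons (nat_lit 1673) (.cons (nat_lit 1676) (.cons (nat_lit 1802) Uxp12n222 .nil) .nil) .nil)) .nil)
def Uxp12n4057 : PT := (.cons (nat_lit 1426) (.cons (nat_lit 1420) (.cons (nat_lit 1546) Uxp12n4052 (.cons (nat_lit 1553) (.cons (nat_lit 1556) (.cons (nat_lit 1682) (.cons (nat_lit 1676) (.cons (nat_lit 1802) Uxp12n222 .nil) .nil) .nil) .nil) .nil)) .nil) .nil)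
def Uxp12n4060 : PT := (.cons (nat_lit 1284) (.cons (nat_lit 1414) (.cons (nat_lit 1411) (.cons (nat_lit 58755) (.cons (nat_lit 5) .nil .nil) .nil) .nil) (.cons (nat_lit 1417) (.cons (nat_lit 1420) (.cons (nat_lit 1546) Uxp12n4047 .nil) .nil) Uxp12n4057)) .nil)
def Uxp12n4111 : PT := (.cons (nat_lit 537) (.cons (nat_lit 540) (.cons (nat_lit 666) (.cons (nat_lit 660) (.cons (nat_lit 786) (.cons (nat_lit 780) (.cons (nat_lit 910) Uxp12n3662 (.cons (nat_lit 913) (.cons (nat_lit 916) (.cons (nat_lit 1042) Uxp12n3863 .nil) .nil) Uxp12n3870)) .nil) (.cons (nat_lit 793) (.cons (nat_lit 796) (.cons (nat_lit 922) (.cons (nat_lit 916) (.cons (nat_lit 1042) Uxp12n3863 (.cons (nat_lit 1041) (.cons (nat_lit 1044) (.cons (nat_lit 1170) (.cons (nat_lit 1164) (.cons (nat_lit 1289) (.cons (nat_lit 1292) (.cons (nat_lit 1422) Uxp12n3686 (.cons (nat_lit 1426) (.cons (nat_lit 1420) (.cons (nat_lit 1545) (.cons (nat_lit 1548) (.cons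 (nat_lit 1678) Uxp12n3739 (.cons (nat_lit 1682) (.cons (nat_lit 1676) (.cons (nat_lit 1801) (.cons (nat_lit 1804) (.cons (nat_lit 1934) (.cons (nat_lit 26507) (.cons (nat_lit 1932) (.cons (nat_lit 2062) (.cons (nat_lit 2060) (.cons (nat_lit 2190) (.cons (nat_lit 2187) (.cons (nat_lit 2188) (.cons (nat_lit 2318) (.cons (nat_lit 133387) Uxp12n3876 .nil) .nil) .nil) .nil) .nil) .nil) .nil) .nil) .nil) .nil) .nil) .nil) .nil) .nil)) .nil) (.cons (nat_lit 1554) (.cons (nat_lit 1548) (.cons (nat_lit 1678) Uxp12n3739 .nil) .nil) .nil)) .nil) .nil)) .nil) Uxp12n3859) .nil) .nil) .nil) .nil)) .nil) .nil) .nil) .nil)) .nil) .nil) .nil) (.cons (nat_lit 546) (.cons (nat_lit 540) (.cons (nat_lit 666) (.cons (nat_lit 660) (.cons (nat_lit 786) Uxp12n3709 (.cons (nat_lit 785) (.cons (nat_lit 788) Uxp12n3870 .nil) .nil)) .nil) (.cons (nat_lit 665) (.cons (nat_lit 668) (.cons (nat_lit 794) (.cons (nat_lit 788) (.cons (nat_lit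 913) (.cons (nat_lit 916) (.cons (nat_lit 1042) Uxp12n3863 .nil) .nil) Uxp12n3870) .nil) .nil) .nil) .nil)) .nil) (.cons (nat_lit 542) (.cons (nat_lit 539) (.cons (nat_lit 540) (.cons (nat_lit 670) (.cons (nat_lit 25243) (.cons (nat_lit 668) (.cons (nat_lit 798) (.cons (nat_lit 796) (.cons (nat_lit 922) (.cons (nat_lit 916) (.cons (nat_lit 1042) (.cons (nat_lit 1036) (.cons (nat_lit 1161) (.cons (nat_lit 1164) (.cons (nat_lit 1294) (.cons (nat_lit 50443) Uxp12n3653 .nil) (.cons (nat_lit 1298) Uxp12n3950 .nil)) .nil) (.cons (nat_lit 1170) (.cons (nat_lit 1164) (.cons (nat_lit 1294) (.cons (nat_lit 50443) Uxp12n3653 .nil) (.cons (nat_lit 1298) (.cons (nat_lit 1292) (.cons (nat_lit 1417) (.cons (nat_lit 1420) (.cons (nat_lit 1550) (.cons (nat_lit 50699) Uxp12n3665 .nil) (.cons (nat_lit 1554) Uxp12n3942 .nil)) .nil) (.cons (nat_lit 1426) (.cons (nat_lit 1420) (.cons (nat_lit 1550) (.cons (nat_lit 50699) Uxp12n3665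 .nil) .nil) .nil) .nil)) .nil) (.cons (nat_lit 1297) (.cons (nat_lit 1300) Uxp12n3948 .nil) .nil))) .nil) .nil)) .nil) (.cons (nat_lit 1041) (.cons (nat_lit 1044) (.cons (nat_lit 1170) Uxp12n3987 .nil) .nil) .nil)) .nil) (.cons (nat_lit 921) (.cons (nat_lit 924) (.cons (nat_lit 1050) (.cons (nat_lit 1044) (.cons (nat_lit 1170) Uxp12n3987 (.cons (nat_lit 1177) (.cons (nat_lit 1180) (.cons (nat_lit 1306) (.cons (nat_lit 1300) (.cons (nat_lit 1426) Uxp12n3981 (.cons (nat_lit 1425) (.cons (nat_lit 1428) (.cons (nat_lit 1554) (.cons (nat_lit 1548) (.cons (nat_lit 1673) (.cons (nat_lit 1676) (.cons (nat_lit 1806) (.cons (nat_lit 50955) Uxp12n3677 .nil) (.cons (nat_lit 1810) (.cons (nat_lit 1804) (.cons (nat_lit 1929) (.cons (nat_lit 1932) (.cons (nat_lit 2062) (.cons (nat_lit 51211) Uxp12n3730 .nil) (.cons (nat_lit 2066) (.cons (nat_lit 2060) (.cons (nat_lit 2185) (.cons (nat_lit 2188) (.cons (nat_lit 2318) (.cons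 (nat_lit 51467) Uxp12n3876 .nil) .nil) .nil) .nil) .nil) .nil)) .nil) Uxp12n3970) .nil) .nil)) .nil) Uxp12n3976) .nil) .nil) .nil) .nil)) .nil) .nil) .nil) .nil)) .nil) .nil) .nil) .nil)) .nil) .nil) .nil) .nil) .nil) .nil) (.cons (nat_lit 540) (.cons (nat_lit 666) (.cons (nat_lit 8851) (.cons (nat_lit 532) (.cons (nat_lit 790) (.cons (nat_lit 25363) (.cons (nat_lit 788) (.cons (nat_lit 918) (.cons (nat_lit 916) (.cons (nat_lit 1042) (.cons (nat_lit 1036) (.cons (nat_lit 1161) (.cons (nat_lit 1164) (.cons (nat_lit 1290) Uxp12n4060 .nil) .nil) (.cons (nat_lit 1170) (.cons (nat_lit 1164) (.cons (nat_lit 1290) (.cons (nat_lit 1284) (.cons (nat_lit 1414) (.cons (nat_lit 1411) (.cons (nat_lit 58755) (.cons (nat_lit 5) .nil .nil) .nil) .nil) (.cons (nat_lit 1417) (.cons (nat_lit 1420) (.cons (nat_lit 1546) Uxp12n4052 .nil) .nil) (.cons (nat_lit 1426) (.cons (nat_lit 1420) (.cons (nat_lit 1546) (.cons (nat_lit 1540)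 (.cons (nat_lit 1670) (.cons (nat_lit 1667) (.cons (nat_lit 59011) (.cons (nat_lit 5) .nil .nil) .nil) .nil) .nil) .nil) .nil) .nil) .nil))) .nil) (.cons (nat_lit 1297) (.cons (nat_lit 1300) Uxp12n4057 .nil) .nil)) .nil) .nil)) .nil) (.cons (nat_lit 1041) (.cons (nat_lit 1044) (.cons (nat_lit 1170) (.cons (nat_lit 1164) (.cons (nat_lit 1290) Uxp12n4060 (.cons (nat_lit 1297) (.cons (nat_lit 1300) (.cons (nat_lit 1426) (.cons (nat_lit 1420) (.cons (nat_lit 1546) Uxp12n4047 (.cons (nat_lit 1553) (.cons (nat_lit 1556) (.cons (nat_lit 1682) (.cons (nat_lit 1676) (.cons (nat_lit 1802) Uxp12n4039 (.cons (nat_lit 1809) (.cons (nat_lit 1812) (.cons (nat_lit 1938) Uxp12n4036 .nil) .nil) .nil)) .nil) .nil) .nil) .nil)) .nil) .nil) .nil) .nil)) .nil) .nil) .nil) .nil)) .nil) .nil) .nil) .nil) .nil) .nil) .nil) .nil) .nil)) .nil)))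
def Uxp12n4126 : PT := (.cons (nat_lit 9099) (.cons (nat_lit 908) (.cons (nat_lit 1038) (.cons (nat_lit 1036) (.cons (nat_lit 1166) (.cons (nat_lit 1164) (.cons (nat_lit 1289) Uxp12n3789 (.cons (nat_lit 1298) Uxp12n3789 .nil)) .nil) .nil) .nil) .nil) .nil) .nil)
def Uxp12n4133 : PT := (.cons (nat_lit 9355) (.cons (nat_lit 1164) (.cons (nat_lit 1294) (.cons (nat_lit 1292) (.cons (nat_lit 1422) (.cons (nat_lit 1420) (.cons (nat_lit 1545) Uxp12n3805 (.cons (nat_lit 1554) Uxp12n3805 .nil)) .nil) .nil) .nil) .nil) .nil) .nil)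
def Uxp12n4142 : PT := (.cons (nat_lit 1804) (.cons (nat_lit 1934) (.cons (nat_lit 1931) (.cons (nat_lit 1932) (.cons (nat_lit 2058) (.cons (nat_lit 2052) (.cons (nat_lit 2182) (.cons (nat_lit 100483) (.cons (nat_lit 108675) (.cons (nat_lit 5) .nil .nil) .nil) .nil) .nil) .nil) .nil) .nil) .nil) .nil) .nil)
def Uxp12n4151 : PT := (.cons (nat_lit 1292) (.cons (nat_lit 1422) (.cons (nat_lit 9611) (.cons (nat_lit 1420) (.cons (nat_lit 1550) (.cons (nat_lit 1548) (.cons (nat_lit 1678) (.cons (nat_lit 1676) (.cons (nat_lit 1801) Uxp12n4142 .nil) .nil) .nil) .nil) .nil) .nil) .nil) .nil) .nil)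
def Uxp12n4160 : PT := (.cons (nat_lit 1042) (.cons (nat_lit 1036) (.cons (nat_lit 1166) Uxp12n4133 (.cons (nat_lit 1169) (.cons (nat_lit 1172) (.cons (nat_lit 1298) Uxp12n4151 .nil) .nil) (.cons (nat_lit 1170) (.cons (nat_lit 1164) (.cons (nat_lit 1289) Uxp12n4151 .nil) .nil) .nil))) .nil) .nil)
def Uxp12n4172 : PT := (.cons (nat_lit 1036) (.cons (nat_lit 1166) (.cons (nat_lit 9355) (.cons (nat_lit 1164) (.cons (nat_lit 1294) (.cons (nat_lit 1292) (.cons (nat_lit 1422) (.cons (nat_lit 1420) (.cons (nat_lit 1545) Uxp12n3805 .nil) .nil) .nil) .nil) .nil) .nil) .nil) .nil) .nil)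
def Uxp12n4176 : PT := (.cons (nat_lit 914) (.cons (nat_lit 908) (.cons (nat_lit 1033) (.cons (nat_lit 1036) (.cons (nat_lit 1166) Uxp12n4133 (.cons (nat_lit 1170) (.cons (nat_lit 1164) (.cons (nat_lit 1289) Uxp12n4151 .nil) .nil) .nil)) .nil) (.cons (nat_lit 1042) Uxp12n4172 .nil)) .nil) .nil)
def Uxp12n4179 : PT := (.cons (nat_lit 780) (.cons (nat_lit 910) Uxp12n4126 (.cons (nat_lit 913) (.cons (nat_lit 916) Uxp12n4160 .nil) Uxp12n4176)) .nil)
def Uxp12n4250 : PT := (.cons (nat_lit 282) (.cons (nat_lit 276) (.cons (nat_lit 406) (.cons (nat_lit 8595) (.cons (nat_lit 404) (.cons (nat_lit 534) (.cons (nat_lit 532) (.cons (nat_lit 662) (.cons (nat_lit 660) (.cons (nat_lit 786) (.cons (nat_lit 780) (.cons (nat_lit 910) (.cons (nat_lit 907) (.cons (nat_lit 908) (.cons (nat_lit 1034) (.cons (nat_lit 1028) (.cons (nat_lit 1158) (.cons (nat_lit 33923) (.cons (nat_lit 42115) (.cons (nat_lit 5) .nil .nil) .nil) .nil)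 .nil) .nil) .nil) .nil) .nil) .nil) .nil) .nil) .nil) .nil) .nil) .nil) .nil) (.cons (nat_lit 404) (.cons (nat_lit 530) (.cons (nat_lit 524) (.cons (nat_lit 654) (.cons (nat_lit 652) (.cons (nat_lit 782) (.cons (nat_lit 780) (.cons (nat_lit 906) (.cons (nat_lit 25475) (.cons (nat_lit 772) (.cons (nat_lit 1030) (.cons (nat_lit 41987) (.cons (nat_lit 1028) (.cons (nat_lit 1158) (.cons (nat_lit 1155) (.cons (nat_lit 9347) (.cons (nat_lit 5) .nil .nil) .nil) .nil) .nil) .nil) .nil) .nil) .nil) .nil) .nil) .nil) .nil) (.cons (nat_lit 25227) (.cons (nat_lit 652) (.cons (nat_lit 782) (.cons (nat_lit 780) (.cons (nat_lit 910) (.cons (nat_lit 907) (.cons (nat_lit 908) (.cons (nat_lit 1038) (.cons (nat_lit 50187) (.cons (nat_lit 1036) (.cons (nat_lit 1162) (.cons (nat_lit 9347) (.cons (nat_lit 5) .nil .nil) .nil) .nil) .nil) .nil) .nil) .nil) .nil) .nil) .nil) .nil) .nil) .nil)) (.cons (nat_lit 657) (.cons (nat_lit 660)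 (.cons (nat_lit 786) Uxp12n3709 .nil) .nil) (.cons (nat_lit 658) (.cons (nat_lit 652) (.cons (nat_lit 777) (.cons (nat_lit 780) (.cons (nat_lit 910) Uxp12n3662 Uxp12n3706) .nil) (.cons (nat_lit 786) (.cons (nat_lit 780) (.cons (nat_lit 910) Uxp12n3662 (.cons (nat_lit 913) (.cons (nat_lit 916) (.cons (nat_lit 1042) (.cons (nat_lit 1036) (.cons (nat_lit 1166) Uxp12n3674 .nil) .nil) .nil) .nil) (.cons (nat_lit 914) (.cons (nat_lit 908) (.cons (nat_lit 1033) (.cons (nat_lit 1036) (.cons (nat_lit 1166) Uxp12n3674 .nil) .nil) .nil) .nil) .nil))) .nil) .nil)) .nil) .nil))) .nil) (.cons (nat_lit 537) (.cons (nat_lit 540) (.cons (nat_lit 666) (.cons (nat_lit 660) (.cons (nat_lit 786) Uxp12n3709 (.cons (nat_lit 793) (.cons (nat_lit 796) (.cons (nat_lit 922) (.cons (nat_lit 916) (.cons (nat_lit 1042) Uxp12n3696 (.cons (nat_lit 1041) (.cons (nat_lit 1044) Uxp12n3749 .nil) .nil)) .nil) .nil) .nil) .nil)) .nil) .nil) .nil)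 .nil)) .nil)) (.cons (nat_lit 409) (.cons (nat_lit 412) (.cons (nat_lit 538) (.cons (nat_lit 532) (.cons (nat_lit 662) Uxp12n3780 (.cons (nat_lit 665) (.cons (nat_lit 668) (.cons (nat_lit 794) (.cons (nat_lit 788) (.cons (nat_lit 918) Uxp12n3796 (.cons (nat_lit 921) (.cons (nat_lit 924) (.cons (nat_lit 1050) Uxp12n3814 .nil) .nil) (.cons (nat_lit 922) (.cons (nat_lit 916) (.cons (nat_lit 1041) Uxp12n3814 .nil) .nil) .nil))) .nil) .nil) .nil) Uxp12n3832)) .nil) .nil) .nil) (.cons (nat_lit 410) (.cons (nat_lit 404) (.cons (nat_lit 529) (.cons (nat_lit 532) (.cons (nat_lit 662) Uxp12n3780 Uxp12n3832) .nil) (.cons (nat_lit 538) (.cons (nat_lit 532) (.cons (nat_lit 662) Uxp12n3780 (.cons (nat_lit 665) (.cons (nat_lit 668) (.cons (nat_lit 794) (.cons (nat_lit 788) (.cons (nat_lit 918) Uxp12n3796 .nil) .nil) .nil) .nil) (.cons (nat_lit 666) (.cons (nat_lit 660) (.cons (nat_lit 785) (.cons (nat_lit 788) (.cons (nat_lit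 918) Uxp12n3796 .nil) .nil) .nil) .nil) .nil))) .nil) .nil)) .nil) .nil))) .nil) (.cons (nat_lit 281) (.cons (nat_lit 284) (.cons (nat_lit 414) (.cons (nat_lit 412) Uxp12n4111 .nil) (.cons (nat_lit 410) (.cons (nat_lit 404) (.cons (nat_lit 530) (.cons (nat_lit 524) (.cons (nat_lit 654) (.cons (nat_lit 8843) (.cons (nat_lit 652) (.cons (nat_lit 782) (.cons (nat_lit 780) (.cons (nat_lit 910) (.cons (nat_lit 908) (.cons (nat_lit 1033) Uxp12n3773 (.cons (nat_lit 1042) Uxp12n3773 .nil)) .nil) .nil) .nil) .nil) .nil) .nil) (.cons (nat_lit 657) (.cons (nat_lit 660) (.cons (nat_lit 786) Uxp12n4179 .nil) .nil) (.cons (nat_lit 658) (.cons (nat_lit 652) (.cons (nat_lit 777) (.cons (nat_lit 780) (.cons (nat_lit 910) Uxp12n4126 Uxp12n4176) .nil) (.cons (nat_lit 786) (.cons (nat_lit 780) (.cons (nat_lit 910) Uxp12n4126 (.cons (nat_lit 913) (.cons (nat_lit 916) (.cons (nat_lit 1042) Uxp12n4172 .nil) .nil) (.cons (nat_lit 914)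 (.cons (nat_lit 908) (.cons (nat_lit 1033) Uxp12n4172 .nil) .nil) .nil))) .nil) .nil)) .nil) .nil))) .nil) (.cons (nat_lit 537) (.cons (nat_lit 540) (.cons (nat_lit 666) (.cons (nat_lit 660) (.cons (nat_lit 786) Uxp12n4179 (.cons (nat_lit 785) (.cons (nat_lit 788) (.cons (nat_lit 914) (.cons (nat_lit 908) (.cons (nat_lit 1033) (.cons (nat_lit 1036) (.cons (nat_lit 1166) Uxp12n4133 (.cons (nat_lit 1170) (.cons (nat_lit 1164) (.cons (nat_lit 1289) (.cons (nat_lit 1292) (.cons (nat_lit 1422) (.cons (nat_lit 9611) (.cons (nat_lit 1420) (.cons (nat_lit 1550) (.cons (nat_lit 1548) (.cons (nat_lit 1678) (.cons (nat_lit 1676) (.cons (nat_lit 1801) Uxp12n4142 (.cons (nat_lit 1810) Uxp12n4142 .nil)) .nil) .nil) .nil) .nil) .nil) .nil) (.cons (nat_lit 1426) (.cons (nat_lit 1420) (.cons (nat_lit 1545) (.cons (nat_lit 1548) (.cons (nat_lit 1678) (.cons (nat_lit 9867) (.cons (nat_lit 1676) (.cons (nat_lit 1806) (.cons (nat_lit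 1804) (.cons (nat_lit 1934) (.cons (nat_lit 1932) (.cons (nat_lit 2057) (.cons (nat_lit 2060) (.cons (nat_lit 2190) (.cons (nat_lit 2187) (.cons (nat_lit 2188) (.cons (nat_lit 2314) (.cons (nat_lit 2308) (.cons (nat_lit 2438) (.cons (nat_lit 117123) (.cons (nat_lit 125315) (.cons (nat_lit 5) .nil .nil) .nil) .nil) .nil) .nil) .nil) .nil) .nil) .nil) .nil) .nil) .nil) .nil) .nil) .nil) .nil) .nil) .nil) .nil) .nil) .nil) .nil)) .nil) (.cons (nat_lit 1298) Uxp12n4151 .nil)) .nil) .nil)) .nil) Uxp12n4160) .nil) .nil) .nil) .nil)) .nil) .nil) .nil) .nil)) .nil) .nil)) .nil) .nil))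
def Uxp12n4254 : PT := (.cons (nat_lit 146) (.cons (nat_lit 140) (.cons (nat_lit 266) (.cons (nat_lit 259) (.cons (nat_lit 5) .nil .nil) (.cons (nat_lit 276) (.cons (nat_lit 402) (.cons (nat_lit 396) (.cons (nat_lit 522) (.cons (nat_lit 515) (.cons (nat_lit 5) .nil .nil) (.cons (nat_lit 532) (.cons (nat_lit 658) (.cons (nat_lit 652) (.cons (nat_lit 778) (.cons (nat_lit 771) (.cons (nat_lit 5) .nil .nil) .nil) (.cons (nat_lit 782) (.cons (nat_lit 780) (.cons (nat_lit 906) (.cons (nat_lit 900) (.cons (nat_lit 1025) Uxp12n5 .nil) .nil) (.cons (nat_lit 905) (.cons (nat_lit 908) (.cons (nat_lit 1034) Uxp12n5 .nil) .nil) .nil)) .nil) .nil)) .nil) (.cons (nat_lit 662) (.cons (nat_lit 660) (.cons (nat_lit 786) (.cons (nat_lit 780) (.cons (nat_lit 905) (.cons (nat_lit 908) (.cons (nat_lit 1038) (.cons (nat_lit 41995) Uxp12n18 .nil) .nil) .nil) (.cons (nat_lit 910) (.cons (nat_lit 908) (.cons (nat_lit 1033) Uxp12n35 .nil)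 .nil) .nil)) .nil) (.cons (nat_lit 785) (.cons (nat_lit 788) (.cons (nat_lit 914) (.cons (nat_lit 908) (.cons (nat_lit 1038) (.cons (nat_lit 41995) Uxp12n18 .nil) .nil) .nil) (.cons (nat_lit 918) (.cons (nat_lit 916) (.cons (nat_lit 1042) Uxp12n35 .nil) .nil) .nil)) .nil) (.cons (nat_lit 790) (.cons (nat_lit 787) (.cons (nat_lit 788) (.cons (nat_lit 913) Uxp12n60 (.cons (nat_lit 914) (.cons (nat_lit 908) (.cons (nat_lit 1038) (.cons (nat_lit 1036) (.cons (nat_lit 1161) Uxp12n56 .nil) .nil) .nil) .nil) .nil)) .nil) .nil) .nil))) .nil) (.cons (nat_lit 657) (.cons (nat_lit 660) (.cons (nat_lit 790) (.cons (nat_lit 788) (.cons (nat_lit 914) (.cons (nat_lit 908) (.cons (nat_lit 1034) Uxp12n5 .nil) .nil) .nil) .nil) .nil) .nil) .nil))) .nil)) (.cons (nat_lit 526) (.cons (nat_lit 524) (.cons (nat_lit 650) (.cons (nat_lit 644) (.cons (nat_lit 769) (.cons (nat_lit 772) (.cons (nat_lit 902) Uxp12n86 (.cons (nat_lit 914)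 (.cons (nat_lit 908) (.cons (nat_lit 1034) Uxp12n90 (.cons (nat_lit 1033) (.cons (nat_lit 1036) (.cons (nat_lit 1162) (.cons (nat_lit 1156) (.cons (nat_lit 1281) Uxp12n94 .nil) .nil) .nil) .nil) .nil)) .nil) .nil)) .nil) (.cons (nat_lit 778) (.cons (nat_lit 772) (.cons (nat_lit 902) (.cons (nat_lit 899) (.cons (nat_lit 33667) (.cons (nat_lit 5) .nil .nil) .nil) .nil) (.cons (nat_lit 906) (.cons (nat_lit 900) (.cons (nat_lit 1025) Uxp12n90 .nil) .nil) (.cons (nat_lit 905) (.cons (nat_lit 908) (.cons (nat_lit 1034) Uxp12n90 .nil) .nil) .nil))) .nil) (.cons (nat_lit 790) (.cons (nat_lit 788) (.cons (nat_lit 913) Uxp12n129 .nil) .nil) .nil))) .nil) (.cons (nat_lit 649) (.cons (nat_lit 652) (.cons (nat_lit 778) (.cons (nat_lit 772) (.cons (nat_lit 902) Uxp12n86 (.cons (nat_lit 906) Uxp12n139 (.cons (nat_lit 913) (.cons (nat_lit 916) (.cons (nat_lit 1042) (.cons (nat_lit 1036) Uxp12n142 .nil) .nil) .nil) .nil))) .nil)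 (.cons (nat_lit 798) (.cons (nat_lit 796) (.cons (nat_lit 922) Uxp12n129 .nil) .nil) .nil)) .nil) (.cons (nat_lit 670) (.cons (nat_lit 668) (.cons (nat_lit 793) (.cons (nat_lit 796) (.cons (nat_lit 926) Uxp12n168 .nil) .nil) (.cons (nat_lit 794) (.cons (nat_lit 787) (.cons (nat_lit 660) (.cons (nat_lit 914) (.cons (nat_lit 908) (.cons (nat_lit 1038) (.cons (nat_lit 1036) (.cons (nat_lit 1161) Uxp12n175 .nil) .nil) .nil) .nil) .nil) .nil) .nil) .nil)) .nil) .nil))) .nil) (.cons (nat_lit 529) (.cons (nat_lit 532) (.cons (nat_lit 658) (.cons (nat_lit 652) (.cons (nat_lit 782) Uxp12n205 (.cons (nat_lit 785) (.cons (nat_lit 788) (.cons (nat_lit 914) (.cons (nat_lit 908) Uxp12n217 .nil) Uxp12n268) .nil) .nil)) .nil) (.cons (nat_lit 662) (.cons (nat_lit 660) (.cons (nat_lit 786) (.cons (nat_lit 780) Uxp12n277 .nil) (.cons (nat_lit 785) (.cons (nat_lit 788) (.cons (nat_lit 918) (.cons (nat_lit 916) (.cons (nat_lit 1042)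 Uxp12n35 .nil) .nil) .nil) .nil) (.cons (nat_lit 790) (.cons (nat_lit 787) Uxp12n286 .nil) .nil))) .nil) .nil)) .nil) .nil))) .nil) Uxp12n640) .nil)) Uxp12n1457) .nil) (.cons (nat_lit 153) (.cons (nat_lit 156) (.cons (nat_lit 282) (.cons (nat_lit 276) (.cons (nat_lit 402) (.cons (nat_lit 396) (.cons (nat_lit 522) (.cons (nat_lit 515) (.cons (nat_lit 5) .nil .nil) (.cons (nat_lit 524) Uxp12n1749 .nil)) Uxp12n2220) .nil) (.cons (nat_lit 409) (.cons (nat_lit 412) (.cons (nat_lit 538) (.cons (nat_lit 532) Uxp12n2822 .nil) (.cons (nat_lit 542) (.cons (nat_lit 540) Uxp12n3053 .nil) .nil)) .nil) (.cons (nat_lit 406) (.cons (nat_lit 404) Uxp12n3258 .nil) .nil))) .nil) (.cons (nat_lit 286) (.cons (nat_lit 284) Uxp12n3608 .nil) .nil)) .nil) (.cons (nat_lit 158) (.cons (nat_lit 156) Uxp12n4250 .nil) .nil)))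
def Uxt12 : PT := (.cons (nat_lit 20) Uxp12n4254 .nil)
def Uxp12 : Prog := ⟨1073, 7, 2, 0, Uxt12, 0, dt0⟩

end Pool.Agent.Hom2.UC
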