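import Pool.Agent.Lib.MP_7e4769_co.Hc.UDb

set_option autoImplicit false
set_option maxRecDepth 100000

namespace Pool.Agent.Hom2.UC

def Uxp15n9 : PT := (.cons (nat_lit 908) (.cons (nat_lit 1034) (.cons (nat_lit 1028) (.cons (nat_lit 1158) (.cons (nat_lit 1155) (.cons (nat_lit 50307) (.cons (nat_lit 5) .nil .nil) .nil) .nil) .nil) .nil) .nil) .nil)
def Uxp15n19 : PT := (.cons (nat_lit 1420) (.cons (nat_lit 1550) (.cons (nat_lit 83467) (.cons (nat_lit 1548) (.cons (nat_lit 1674) (.cons (nat_lit 67203) (.cons (nat_lit 5) .nil .nil) .nil) .nil) .nil) .nil) .nil) .nil)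
def Uxp15n28 : PT := (.cons (nat_lit 916) (.cons (nat_lit 1046) (.cons (nat_lit 1044) (.cons (nat_lit 1170) (.cons (nat_lit 1164) (.cons (nat_lit 1294) (.cons (nat_lit 1292) (.cons (nat_lit 1422) (.cons (nat_lit 42379) Uxp15n19 .nil) .nil) .nil) .nil) .nil) .nil) .nil) .nil) .nil)
def Uxp15n48 : PT := (.cons (nat_lit 918) (.cons (nat_lit 916) (.cons (nat_lit 1042) (.cons (nat_lit 1036) (.cons (nat_lit 1166) (.cons (nat_lit 1164) (.cons (nat_lit 1294) (.cons (nat_lit 1292) (.cons (nat_lit 1418) (.cons (nat_lit 58755) (.cons (nat_lit 1284) (.cons (nat_lit 1542) (.cons (nat_lit 75267) (.cons (nat_lit 1540) (.cons (nat_lit 1670) (.cons (nat_lit 1667) (.cons (nat_lit 42627) (.cons (nat_lit 5) .nil .nil) .nil) .nil) .nil) .nil) .nil) .nil) .nil) .nil) .nil) .nil) .nil) .nil) .nil) .nil) .nil) .nil) .nil)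
def Uxp15n63 : PT := (.cons (nat_lit 1028) (.cons (nat_lit 1158) (.cons (nat_lit 1155) (.cons (nat_lit 33923) (.cons (nat_lit 5) .nil .nil) .nil) .nil) .nil) .nil)
def Uxp15n75 : PT := (.cons (nat_lit 1284) (.cons (nat_lit 1414) (.cons (nat_lit 1411) (.cons (nat_lit 34179) (.cons (nat_lit 5) .nil .nil) .nil) .nil) .nil) .nil)
def Uxp15n91 : PT := (.cons (nat_lit 900) (.cons (nat_lit 1025) (.cons (nat_lit 1028) (.cons (nat_lit 1158) (.cons (nat_lit 1155) (.cons (nat_lit 33923) (.cons (nat_lit 5) .nil .nil) .nil) .nil) (.cons (nat_lit 1162) (.cons (nat_lit 1156) (.cons (nat_lit 1281) Uxp15n75 .nil) .nil) .nil)) .nil) (.cons (nat_lit 1034) Uxp15n63 .nil)) .nil)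
def Uxp15n94 : PT := (.cons (nat_lit 1161) (.cons (nat_lit 1164) (.cons (nat_lit 1290) Uxp15n75 .nil) .nil) (.cons (nat_lit 1162) (.cons (nat_lit 1156) (.cons (nat_lit 1281) Uxp15n75 .nil) .nil) .nil))
def Uxp15n103 : PT := (.cons (nat_lit 1548) (.cons (nat_lit 1674) (.cons (nat_lit 1667) (.cons (nat_lit 5) .nil .nil) .nil) .nil) .nil)
def Uxp15n119 : PT := (.cons (nat_lit 798) (.cons (nat_lit 796) (.cons (nat_lit 922) (.cons (nat_lit 916) (.cons (nat_lit 1046) (.cons (nat_lit 1044) (.cons (nat_lit 1174) (.cons (nat_lit 1172) (.cons (nat_lit 1298) (.cons (nat_lit 50443) (.cons (nat_lit 1164) (.cons (nat_lit 1422) (.cons (nat_lit 66955) (.cons (nat_lit 1420) (.cons (nat_lit 1550) (.cons (nat_lit 34315) Uxp15n103 .nil) .nil) .nil) .nil) .nil) .nil) .nil) .nil) .nil) .nil) .nil) .nil) .nil) .nil) .nil) .nil)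
def Uxp15n135 : PT := (.cons (nat_lit 924) (.cons (nat_lit 1050) (.cons (nat_lit 1044) (.cons (nat_lit 1174) (.cons (nat_lit 1172) (.cons (nat_lit 1302) (.cons (nat_lit 34067) (.cons (nat_lit 1300) (.cons (nat_lit 1430) (.cons (nat_lit 75155) (.cons (nat_lit 1428) (.cons (nat_lit 1554) (.cons (nat_lit 58891) (.cons (nat_lit 652) (.cons (nat_lit 1674) (.cons (nat_lit 1667) (.cons (nat_lit 5) .nil .nil) .nil) .nil) .nil) .nil) .nil) .nil) .nil) .nil) .nil) .nil) .nil) .nil) .nil) .nil) .nil) .nil)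
def Uxp15n146 : PT := (.cons (nat_lit 1036) (.cons (nat_lit 1162) (.cons (nat_lit 1155) (.cons (nat_lit 5) .nil .nil) .nil) .nil) .nil)
def Uxp15n151 : PT := (.cons (nat_lit 788) (.cons (nat_lit 914) (.cons (nat_lit 908) (.cons (nat_lit 1038) (.cons (nat_lit 41995) Uxp15n146 .nil) .nil) .nil) Uxp15n48) .nil)
def Uxp15n162 : PT := (.cons (nat_lit 1284) (.cons (nat_lit 1414) (.cons (nat_lit 1411) (.cons (nat_lit 50563) (.cons (nat_lit 5) .nil .nil) .nil) .nil) .nil) .nil)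
def Uxp15n168 : PT := (.cons (nat_lit 916) (.cons (nat_lit 1042) (.cons (nat_lit 1036) (.cons (nat_lit 1162) (.cons (nat_lit 1156) (.cons (nat_lit 1281) Uxp15n162 .nil) .nil) .nil) .nil) .nil) .nil)
def Uxp15n188 : PT := (.cons (nat_lit 1174) (.cons (nat_lit 1172) (.cons (nat_lit 1298) (.cons (nat_lit 1292) (.cons (nat_lit 1422) (.cons (nat_lit 1420) (.cons (nat_lit 1550) (.cons (nat_lit 1548) (.cons (nat_lit 1674) (.cons (nat_lit 75395) (.cons (nat_lit 1540) (.cons (nat_lit 1798) (.cons (nat_lit 91907) (.cons (nat_lit 1796) (.cons (nat_lit 1926) (.cons (nat_lit 1923) (.cons (nat_lit 59267) (.cons (nat_lit 5) .nil .nil) .nil) .nil) .nil) .nil) .nil) .nil) .nil) .nil) .nil) .nil) .nil) .nil) .nil) .nil) .nil) .nil) .nil)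
def Uxp15n192 : PT := (.cons (nat_lit 918) (.cons (nat_lit 916) (.cons (nat_lit 1041) (.cons (nat_lit 1044) Uxp15n188 .nil) .nil) .nil) .nil)
def Uxp15n206 : PT := (.cons (nat_lit 908) (.cons (nat_lit 1034) (.cons (nat_lit 1027) (.cons (nat_lit 5) .nil .nil) .nil) .nil) .nil)
def Uxp15n210 : PT := (.cons (nat_lit 785) (.cons (nat_lit 788) (.cons (nat_lit 914) Uxp15n206 Uxp15n192) .nil) (.cons (nat_lit 790) (.cons (nat_lit 788) (.cons (nat_lit 914) Uxp15n9 (.cons (nat_lit 913) Uxp15n168 .nil)) .nil) .nil))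
def Uxp15n218 : PT := (.cons (nat_lit 1164) (.cons (nat_lit 1290) (.cons (nat_lit 1284) (.cons (nat_lit 1414) (.cons (nat_lit 1411) (.cons (nat_lit 66947) (.cons (nat_lit 5) .nil .nil) .nil) .nil) .nil) .nil) .nil) .nil)
def Uxp15n228 : PT := (.cons (nat_lit 1676) (.cons (nat_lit 1806) (.cons (nat_lit 100107) (.cons (nat_lit 1804) (.cons (nat_lit 1930) (.cons (nat_lit 83843) (.cons (nat_lit 5) .nil .nil) .nil) .nil) .nil) .nil) .nil) .nil)
def Uxp15n237 : PT := (.cons (nat_lit 1172) (.cons (nat_lit 1302) (.cons (nat_lit 1300) (.cons (nat_lit 1426) (.cons (nat_lit 1420) (.cons (nat_lit 1550) (.cons (nat_lit 1548) (.cons (nat_lit 1678) (.cons (nat_lit 59019) Uxp15n228 .nil) .nil) .nil) .nil) .nil) .nil) .nil) .nil) .nil)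
def Uxp15n247 : PT := (.cons (nat_lit 788) (.cons (nat_lit 914) Uxp15n206 (.cons (nat_lit 913) (.cons (nat_lit 916) (.cons (nat_lit 1046) (.cons (nat_lit 1044) (.cons (nat_lit 1170) Uxp15n218 .nil) .nil) .nil) .nil) (.cons (nat_lit 918) (.cons (nat_lit 916) (.cons (nat_lit 1041) (.cons (nat_lit 1044) Uxp15n188 .nil) (.cons (nat_lit 1046) (.cons (nat_lit 1043) (.cons (nat_lit 1044) (.cons (nat_lit 1169) Uxp15n237 .nil) .nil) .nil) .nil)) .nil) .nil))) .nil)
def Uxp15n251 : PT := (.cons (nat_lit 1162) (.cons (nat_lit 1156) (.cons (nat_lit 1281) Uxp15n162 .nil) .nil) (.cons (nat_lit 1161) (.cons (nat_lit 1164) (.cons (nat_lit 1290) Uxp15n162 .nil) .nil) .nil))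
def Uxp15n257 : PT := (.cons (nat_lit 1540) (.cons (nat_lit 1670) (.cons (nat_lit 1667) (.cons (nat_lit 50819) (.cons (nat_lit 5) .nil .nil) .nil) .nil) .nil) .nil)
def Uxp15n264 : PT := (.cons (nat_lit 1164) (.cons (nat_lit 1290) Uxp15n162 (.cons (nat_lit 1289) (.cons (nat_lit 1292) (.cons (nat_lit 1418) (.cons (nat_lit 1412) (.cons (nat_lit 1537) Uxp15n257 .nil) .nil) .nil) .nil) .nil)) .nil)
def Uxp15n272 : PT := (.cons (nat_lit 1417) (.cons (nat_lit 1420) (.cons (nat_lit 1546) Uxp15n257 .nil) .nil) (.cons (nat_lit 1418) (.cons (nat_lit 1412) (.cons (nat_lit 1537) Uxp15n257 .nil) .nil) .nil))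
def Uxp15n276 : PT := (.cons (nat_lit 1169) (.cons (nat_lit 1172) (.cons (nat_lit 1298) (.cons (nat_lit 1292) Uxp15n272 .nil) .nil) .nil) .nil)
def Uxp15n281 : PT := (.cons (nat_lit 1804) (.cons (nat_lit 1930) (.cons (nat_lit 1923) (.cons (nat_lit 5) .nil .nil) .nil) .nil) .nil)
def Uxp15n297 : PT := (.cons (nat_lit 1054) (.cons (nat_lit 1052) (.cons (nat_lit 1178) (.cons (nat_lit 1172) (.cons (nat_lit 1302) (.cons (nat_lit 1300) (.cons (nat_lit 1430) (.cons (nat_lit 1428) (.cons (nat_lit 1554) (.cons (nat_lit 67083) (.cons (nat_lit 1420) (.cons (nat_lit 1678) (.cons (nat_lit 83595) (.cons (nat_lit 1676) (.cons (nat_lit 1806) (.cons (nat_lit 50955) Uxp15n281 .nil) .nil) .nil) .nil) .nil) .nil) .nil) .nil) .nil) .nil) .nil) .nil) .nil) .nil) .nil) .nil)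
def Uxp15n299 : PT := (.cons (nat_lit 924) (.cons (nat_lit 1050) (.cons (nat_lit 1044) (.cons (nat_lit 1170) Uxp15n264 Uxp15n276) .nil) Uxp15n297) .nil)
def Uxp15n308 : PT := (.cons (nat_lit 1292) (.cons (nat_lit 1418) (.cons (nat_lit 1411) (.cons (nat_lit 5) .nil .nil) .nil) .nil) .nil)
def Uxp15n313 : PT := (.cons (nat_lit 1036) (.cons (nat_lit 1161) (.cons (nat_lit 1164) (.cons (nat_lit 1294) (.cons (nat_lit 42251) Uxp15n308 .nil) .nil) .nil) .nil) .nil)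
def Uxp15n317 : PT := (.cons (nat_lit 788) (.cons (nat_lit 922) (.cons (nat_lit 916) (.cons (nat_lit 1042) Uxp15n313 .nil) .nil) Uxp15n48) .nil)
def Uxp15n334 : PT := (.cons (nat_lit 1028) (.cons (nat_lit 1158) (.cons (nat_lit 1155) (.cons (nat_lit 33923) (.cons (nat_lit 5) .nil .nil) .nil) .nil) Uxp15n94) .nil)
def Uxp15n344 : PT := (.cons (nat_lit 1540) (.cons (nat_lit 1670) (.cons (nat_lit 1667) (.cons (nat_lit 34435) (.cons (nat_lit 5) .nil .nil) .nil) .nil) .nil) .nil)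
def Uxp15n352 : PT := (.cons (nat_lit 1162) (.cons (nat_lit 1156) (.cons (nat_lit 1281) (.cons (nat_lit 1284) (.cons (nat_lit 1414) (.cons (nat_lit 1411) (.cons (nat_lit 34179) (.cons (nat_lit 5) .nil .nil) .nil) .nil) (.cons (nat_lit 1418) (.cons (nat_lit 1412) (.cons (nat_lit 1537) Uxp15n344 .nil) .nil) .nil)) .nil) (.cons (nat_lit 1290) Uxp15n75 .nil)) .nil) .nil)
def Uxp15n356 : PT := (.cons (nat_lit 908) (.cons (nat_lit 1034) Uxp15n334 (.cons (nat_lit 1033) (.cons (nat_lit 1036) Uxp15n352 .nil) .nil)) .nil)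
def Uxp15n364 : PT := (.cons (nat_lit 1417) (.cons (nat_lit 1420) (.cons (nat_lit 1546) Uxp15n344 .nil) .nil) (.cons (nat_lit 1418) (.cons (nat_lit 1412) (.cons (nat_lit 1537) Uxp15n344 .nil) .nil) .nil))
def Uxp15n386 : PT := (.cons (nat_lit 916) (.cons (nat_lit 1046) (.cons (nat_lit 1044) (.cons (nat_lit 1170) (.cons (nat_lit 1164) (.cons (nat_lit 1294) (.cons (nat_lit 1292) (.cons (nat_lit 1422) (.cons (nat_lit 34187) Uxp15n19 .nil) .nil) .nil) .nil) .nil) .nil) .nil) .nil) .nil)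
def Uxp15n390 : PT := (.cons (nat_lit 802) (.cons (nat_lit 795) (.cons (nat_lit 668) (.cons (nat_lit 922) Uxp15n386 .nil) .nil) .nil) .nil)
def Uxp15n408 : PT := (.cons (nat_lit 914) (.cons (nat_lit 908) (.cons (nat_lit 1038) (.cons (nat_lit 25611) Uxp15n146 .nil) .nil) .nil) .nil)
def Uxp15n419 : PT := (.cons (nat_lit 1042) (.cons (nat_lit 1036) (.cons (nat_lit 1161) (.cons (nat_lit 1164) (.cons (nat_lit 1294) (.cons (nat_lit 25867) Uxp15n308 .nil) .nil) .nil) .nil) .nil) .nil)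
def Uxp15n450 : PT := (.cons (nat_lit 1170) (.cons (nat_lit 1164) (.cons (nat_lit 1294) (.cons (nat_lit 25867) Uxp15n308 .nil) .nil) .nil) .nil)
def Uxp15n484 : PT := (.cons (nat_lit 1164) (.cons (nat_lit 1294) (.cons (nat_lit 66827) (.cons (nat_lit 1292) (.cons (nat_lit 1418) (.cons (nat_lit 50563) (.cons (nat_lit 5) .nil .nil) .nil) .nil) .nil) .nil) .nil) .nil)
def Uxp15n493 : PT := (.cons (nat_lit 660) (.cons (nat_lit 790) (.cons (nat_lit 788) (.cons (nat_lit 914) (.cons (nat_lit 908) (.cons (nat_lit 1038) (.cons (nat_lit 1036) (.cons (nat_lit 1166) (.cons (nat_lit 25739) Uxp15n484 .nil) .nil) .nil) .nil) .nil) .nil) .nil) .nil) .nil)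
def Uxp15n503 : PT := (.cons (nat_lit 401) (.cons (nat_lit 404) (.cons (nat_lit 538) (.cons (nat_lit 532) (.cons (nat_lit 658) (.cons (nat_lit 652) (.cons (nat_lit 778) (.cons (nat_lit 771) (.cons (nat_lit 5) .nil .nil) .nil) Uxp15n210) .nil) (.cons (nat_lit 657) (.cons (nat_lit 660) (.cons (nat_lit 794) Uxp15n247 (.cons (nat_lit 790) (.cons (nat_lit 788) (.cons (nat_lit 914) (.cons (nat_lit 908) (.cons (nat_lit 1034) (.cons (nat_lit 1028) (.cons (nat_lit 1158) (.cons (nat_lit 1155) (.cons (nat_lit 50307) (.cons (nat_lit 5) .nil .nil) .nil) .nil) Uxp15n251) .nil) (.cons (nat_lit 1041) (.cons (nat_lit 1044) (.cons (nat_lit 1170) Uxp15n264 .nil) .nil) .nil)) .nil) (.cons (nat_lit 921) Uxp15n299 .nil)) .nil) .nil)) .nil) (.cons (nat_lit 662) (.cons (nat_lit 660) (.cons (nat_lit 794) Uxp15n151 (.cons (nat_lit 785) Uxp15n317 (.cons (nat_lit 790) (.cons (nat_lit 787) (.cons (nat_lit 788) (.cons (nat_lit 913) Uxp15n28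 (.cons (nat_lit 922) Uxp15n28 .nil)) .nil) .nil) .nil))) .nil) .nil))) .nil) (.cons (nat_lit 534) (.cons (nat_lit 532) (.cons (nat_lit 658) (.cons (nat_lit 652) (.cons (nat_lit 778) (.cons (nat_lit 772) (.cons (nat_lit 902) (.cons (nat_lit 899) (.cons (nat_lit 33667) (.cons (nat_lit 5) .nil .nil) .nil) (.cons (nat_lit 33683) (.cons (nat_lit 916) (.cons (nat_lit 1042) Uxp15n146 .nil) .nil) .nil)) (.cons (nat_lit 905) (.cons (nat_lit 908) (.cons (nat_lit 1034) Uxp15n334 .nil) .nil) (.cons (nat_lit 906) Uxp15n91 .nil))) .nil) (.cons (nat_lit 785) (.cons (nat_lit 788) (.cons (nat_lit 914) Uxp15n356 .nil) .nil) Uxp15n119)) .nil) (.cons (nat_lit 665) (.cons (nat_lit 668) (.cons (nat_lit 794) (.cons (nat_lit 788) (.cons (nat_lit 914) Uxp15n356 (.cons (nat_lit 913) (.cons (nat_lit 916) (.cons (nat_lit 1042) (.cons (nat_lit 1036) (.cons (nat_lit 1161) (.cons (nat_lit 1164) (.cons (nat_lit 1290) (.cons (nat_lit 1284) (.cons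 (nat_lit 1414) (.cons (nat_lit 1411) (.cons (nat_lit 34179) (.cons (nat_lit 5) .nil .nil) .nil) .nil) Uxp15n364) .nil) .nil) .nil) Uxp15n352) .nil) .nil) .nil) .nil)) .nil) Uxp15n119) .nil) (.cons (nat_lit 678) (.cons (nat_lit 676) Uxp15n390 .nil) .nil))) .nil) .nil)) .nil) (.cons (nat_lit 406) (.cons (nat_lit 404) (.cons (nat_lit 538) (.cons (nat_lit 532) (.cons (nat_lit 658) (.cons (nat_lit 652) (.cons (nat_lit 782) (.cons (nat_lit 25355) (.cons (nat_lit 780) (.cons (nat_lit 906) (.cons (nat_lit 899) (.cons (nat_lit 5) .nil .nil) .nil) .nil) .nil) .nil) (.cons (nat_lit 786) (.cons (nat_lit 780) (.cons (nat_lit 905) (.cons (nat_lit 908) (.cons (nat_lit 1038) (.cons (nat_lit 25611) Uxp15n146 .nil) .nil) .nil) .nil) .nil) (.cons (nat_lit 785) (.cons (nat_lit 788) Uxp15n408 .nil) .nil))) .nil) (.cons (nat_lit 665) (.cons (nat_lit 668) (.cons (nat_lit 794) (.cons (nat_lit 788) (.cons (nat_lit 914) (.cons (nat_lit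 908) (.cons (nat_lit 1038) (.cons (nat_lit 25611) Uxp15n146 .nil) .nil) .nil) (.cons (nat_lit 913) (.cons (nat_lit 916) Uxp15n419 .nil) .nil)) .nil) .nil) .nil) (.cons (nat_lit 662) (.cons (nat_lit 660) (.cons (nat_lit 786) (.cons (nat_lit 780) (.cons (nat_lit 910) (.cons (nat_lit 908) (.cons (nat_lit 1038) (.cons (nat_lit 1036) (.cons (nat_lit 1162) (.cons (nat_lit 42115) (.cons (nat_lit 1028) (.cons (nat_lit 1286) (.cons (nat_lit 58627) (.cons (nat_lit 1284) (.cons (nat_lit 1414) (.cons (nat_lit 1411) (.cons (nat_lit 25987) (.cons (nat_lit 5) .nil .nil) .nil) .nil) .nil) .nil) .nil) .nil) .nil) .nil) .nil) .nil) .nil) .nil) .nil) .nil) .nil) .nil) .nil))) .nil) (.cons (nat_lit 529) (.cons (nat_lit 532) (.cons (nat_lit 666) (.cons (nat_lit 660) (.cons (nat_lit 786) (.cons (nat_lit 780) (.cons (nat_lit 905) (.cons (nat_lit 908) (.cons (nat_lit 1038) (.cons (nat_lit 25611) Uxp15n146 .nil) Uxp15n419) .nil) Uxp15n408)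 .nil) (.cons (nat_lit 793) (.cons (nat_lit 796) (.cons (nat_lit 922) (.cons (nat_lit 916) (.cons (nat_lit 1041) (.cons (nat_lit 1044) Uxp15n450 .nil) Uxp15n419) .nil) .nil) .nil) .nil)) .nil) (.cons (nat_lit 662) (.cons (nat_lit 660) (.cons (nat_lit 786) (.cons (nat_lit 780) (.cons (nat_lit 910) (.cons (nat_lit 908) (.cons (nat_lit 1038) (.cons (nat_lit 1036) (.cons (nat_lit 1162) (.cons (nat_lit 42115) (.cons (nat_lit 1028) (.cons (nat_lit 1286) (.cons (nat_lit 58627) (.cons (nat_lit 1284) (.cons (nat_lit 1414) (.cons (nat_lit 1411) (.cons (nat_lit 25987) (.cons (nat_lit 5) .nil .nil) .nil) (.cons (nat_lit 26003) (.cons (nat_lit 1428) (.cons (nat_lit 1554) Uxp15n103 .nil) .nil) .nil)) .nil) .nil) .nil) .nil) .nil) .nil) .nil) .nil) .nil) .nil) .nil) .nil) .nil) .nil) .nil)) .nil) (.cons (nat_lit 534) (.cons (nat_lit 531) (.cons (nat_lit 532) (.cons (nat_lit 657) Uxp15n493 (.cons (nat_lit 666) Uxp15n493 .nil))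 .nil) .nil) .nil))) .nil) .nil))
def Uxp15n515 : PT := (.cons (nat_lit 908) (.cons (nat_lit 1034) (.cons (nat_lit 1028) (.cons (nat_lit 1158) (.cons (nat_lit 1155) (.cons (nat_lit 50307) (.cons (nat_lit 5) .nil .nil) .nil) (.cons (nat_lit 50315) (.cons (nat_lit 1164) (.cons (nat_lit 1289) Uxp15n308 .nil) .nil) .nil)) Uxp15n251) .nil) (.cons (nat_lit 1041) (.cons (nat_lit 1044) (.cons (nat_lit 1170) Uxp15n264 .nil) .nil) .nil)) .nil)
def Uxp15n534 : PT := (.cons (nat_lit 1172) (.cons (nat_lit 1302) (.cons (nat_lit 1300) (.cons (nat_lit 1426) (.cons (nat_lit 1420) (.cons (nat_lit 1550) (.cons (nat_lit 1548) (.cons (nat_lit 1678) (.cons (nat_lit 42635) Uxp15n228 .nil) .nil) .nil) .nil) .nil) .nil) .nil) .nil) .nil)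
def Uxp15n554 : PT := (.cons (nat_lit 1164) (.cons (nat_lit 1290) (.cons (nat_lit 1283) (.cons (nat_lit 5) .nil .nil) .nil) .nil) .nil)
def Uxp15n557 : PT := (.cons (nat_lit 1027) (.cons (nat_lit 5) .nil .nil) (.cons (nat_lit 1036) (.cons (nat_lit 1161) Uxp15n554 .nil) .nil))
def Uxp15n559 : PT := (.cons (nat_lit 908) (.cons (nat_lit 1034) Uxp15n557 (.cons (nat_lit 1046) (.cons (nat_lit 1044) (.cons (nat_lit 1170) Uxp15n218 .nil) .nil) .nil)) .nil)
def Uxp15n560 : PT := (.cons (nat_lit 1046) (.cons (nat_lit 1043) (.cons (nat_lit 1044) (.cons (nat_lit 1169) Uxp15n237 .nil) .nil) .nil) (.cons (nat_lit 1041) (.cons (nat_lit 1044) Uxp15n188 .nil) .nil))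
def Uxp15n585 : PT := (.cons (nat_lit 1297) (.cons (nat_lit 1300) (.cons (nat_lit 1430) (.cons (nat_lit 1428) (.cons (nat_lit 1554) (.cons (nat_lit 1548) (.cons (nat_lit 1678) (.cons (nat_lit 1676) (.cons (nat_lit 1806) (.cons (nat_lit 1804) (.cons (nat_lit 1930) (.cons (nat_lit 92035) (.cons (nat_lit 1796) (.cons (nat_lit 2054) (.cons (nat_lit 108547) (.cons (nat_lit 2052) (.cons (nat_lit 2182) (.cons (nat_lit 2179) (.cons (nat_lit 75907) (.cons (nat_lit 5) .nil .nil) .nil) .nil) .nil) .nil) .nil) .nil) .nil) .nil) .nil) .nil) .nil) .nil) .nil) .nil) .nil) .nil) .nil) .nil) .nil)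
def Uxp15n592 : PT := (.cons (nat_lit 1540) (.cons (nat_lit 1670) (.cons (nat_lit 1667) (.cons (nat_lit 67203) (.cons (nat_lit 5) .nil .nil) .nil) .nil) .nil) .nil)
def Uxp15n598 : PT := (.cons (nat_lit 1172) (.cons (nat_lit 1298) (.cons (nat_lit 1292) (.cons (nat_lit 1418) (.cons (nat_lit 1412) (.cons (nat_lit 1537) Uxp15n592 .nil) .nil) .nil) .nil) .nil) .nil)
def Uxp15n614 : PT := (.cons (nat_lit 1054) (.cons (nat_lit 1051) (.cons (nat_lit 1052) (.cons (nat_lit 1178) Uxp15n237 .nil) .nil) .nil) .nil)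
def Uxp15n642 : PT := (.cons (nat_lit 1180) (.cons (nat_lit 1306) (.cons (nat_lit 1300) (.cons (nat_lit 1430) (.cons (nat_lit 1428) (.cons (nat_lit 1558) (.cons (nat_lit 50707) (.cons (nat_lit 1556) (.cons (nat_lit 1686) (.cons (nat_lit 91795) (.cons (nat_lit 1684) (.cons (nat_lit 1810) (.cons (nat_lit 75531) (.cons (nat_lit 908) (.cons (nat_lit 1930) (.cons (nat_lit 1923) (.cons (nat_lit 5) .nil .nil) .nil) .nil) .nil) .nil) .nil) .nil) .nil) .nil) .nil) .nil) .nil) .nil) .nil) .nil) .nil) .nil)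
def Uxp15n655 : PT := (.cons (nat_lit 1155) (.cons (nat_lit 5) .nil .nil) (.cons (nat_lit 1164) (.cons (nat_lit 1289) Uxp15n308 .nil) .nil))
def Uxp15n660 : PT := (.cons (nat_lit 1036) (.cons (nat_lit 1162) Uxp15n655 (.cons (nat_lit 1169) (.cons (nat_lit 1172) (.cons (nat_lit 1298) Uxp15n308 .nil) .nil) .nil)) .nil)
def Uxp15n673 : PT := (.cons (nat_lit 1298) (.cons (nat_lit 1292) (.cons (nat_lit 1417) (.cons (nat_lit 1420) (.cons (nat_lit 1550) (.cons (nat_lit 42507) Uxp15n103 .nil) .nil) .nil) .nil) .nil) .nil)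
def Uxp15n677 : PT := (.cons (nat_lit 1044) (.cons (nat_lit 1170) (.cons (nat_lit 1164) (.cons (nat_lit 1294) (.cons (nat_lit 42251) Uxp15n308 .nil) .nil) .nil) (.cons (nat_lit 1169) (.cons (nat_lit 1172) Uxp15n673 .nil) .nil)) .nil)
def Uxp15n736 : PT := (.cons (nat_lit 932) (.cons (nat_lit 1058) (.cons (nat_lit 1051) (.cons (nat_lit 796) (.cons (nat_lit 1178) Uxp15n534 .nil) .nil) .nil) .nil) .nil)
def Uxp15n752 : PT := (.cons (nat_lit 1155) (.cons (nat_lit 33923) (.cons (nat_lit 5) .nil .nil) .nil) (.cons (nat_lit 33931) (.cons (nat_lit 1164) (.cons (nat_lit 1289) Uxp15n308 .nil) .nil) .nil))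
def Uxp15n768 : PT := (.cons (nat_lit 1411) (.cons (nat_lit 34179) (.cons (nat_lit 5) .nil .nil) .nil) (.cons (nat_lit 34187) (.cons (nat_lit 1420) (.cons (nat_lit 1545) Uxp15n103 .nil) .nil) .nil))
def Uxp15n773 : PT := (.cons (nat_lit 1162) (.cons (nat_lit 1156) (.cons (nat_lit 1281) (.cons (nat_lit 1284) (.cons (nat_lit 1414) Uxp15n768 (.cons (nat_lit 1418) (.cons (nat_lit 1412) (.cons (nat_lit 1537) Uxp15n344 .nil) .nil) .nil)) .nil) (.cons (nat_lit 1290) Uxp15n75 .nil)) .nil) .nil)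
def Uxp15n800 : PT := (.cons (nat_lit 1667) (.cons (nat_lit 5) .nil .nil) (.cons (nat_lit 1676) (.cons (nat_lit 1801) Uxp15n281 .nil) .nil))
def Uxp15n829 : PT := (.cons (nat_lit 1172) (.cons (nat_lit 1302) (.cons (nat_lit 1300) (.cons (nat_lit 1426) (.cons (nat_lit 1420) (.cons (nat_lit 1550) (.cons (nat_lit 1548) (.cons (nat_lit 1678) (.cons (nat_lit 34443) Uxp15n228 .nil) .nil) .nil) .nil) .nil) .nil) .nil) .nil) .nil)
def Uxp15n835 : PT := (.cons (nat_lit 930) (.cons (nat_lit 924) (.cons (nat_lit 1050) (.cons (nat_lit 1043) (.cons (nat_lit 660) (.cons (nat_lit 1169) Uxp15n829 .nil) .nil) .nil) .nil) .nil) .nil)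
def Uxp15n845 : PT := (.cons (nat_lit 529) (.cons (nat_lit 532) (.cons (nat_lit 658) (.cons (nat_lit 652) (.cons (nat_lit 778) (.cons (nat_lit 771) (.cons (nat_lit 5) .nil .nil) (.cons (nat_lit 780) (.cons (nat_lit 905) Uxp15n559 (.cons (nat_lit 914) Uxp15n206 (.cons (nat_lit 918) (.cons (nat_lit 916) Uxp15n560 .nil) .nil))) .nil)) (.cons (nat_lit 785) (.cons (nat_lit 788) (.cons (nat_lit 914) (.cons (nat_lit 908) (.cons (nat_lit 1034) Uxp15n557 (.cons (nat_lit 1041) (.cons (nat_lit 1044) (.cons (nat_lit 1170) Uxp15n554 (.cons (nat_lit 1174) (.cons (nat_lit 1172) Uxp15n585 .nil) .nil)) .nil) (.cons (nat_lit 1046) (.cons (nat_lit 1044) (.cons (nat_lit 1170) Uxp15n218 (.cons (nat_lit 1169) Uxp15n598 .nil)) .nil) .nil))) .nil) (.cons (nat_lit 918) (.cons (nat_lit 916) (.cons (nat_lit 1050) (.cons (nat_lit 1044) (.cons (nat_lit 1170) (.cons (nat_lit 1164) (.cons (nat_lit 1294) (.cons (nat_lit 58635) Uxp15n308 .nil)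 .nil) .nil) Uxp15n188) .nil) (.cons (nat_lit 1041) (.cons (nat_lit 1044) Uxp15n188 .nil) Uxp15n614)) .nil) .nil)) .nil) (.cons (nat_lit 790) (.cons (nat_lit 788) (.cons (nat_lit 914) Uxp15n515 (.cons (nat_lit 913) (.cons (nat_lit 916) (.cons (nat_lit 1042) (.cons (nat_lit 1036) (.cons (nat_lit 1162) (.cons (nat_lit 1156) (.cons (nat_lit 1281) (.cons (nat_lit 1284) (.cons (nat_lit 1414) (.cons (nat_lit 1411) (.cons (nat_lit 50563) (.cons (nat_lit 5) .nil .nil) .nil) .nil) (.cons (nat_lit 1418) (.cons (nat_lit 1412) (.cons (nat_lit 1537) Uxp15n257 .nil) .nil) .nil)) .nil) (.cons (nat_lit 1290) Uxp15n162 .nil)) .nil) Uxp15n276) .nil) Uxp15n297) .nil) (.cons (nat_lit 926) (.cons (nat_lit 924) (.cons (nat_lit 1049) (.cons (nat_lit 1052) (.cons (nat_lit 1182) Uxp15n642 .nil) .nil) .nil) .nil) .nil))) .nil) .nil))) .nil) (.cons (nat_lit 662) (.cons (nat_lit 660) (.cons (nat_lit 794) (.cons (nat_lit 788) (.cons (nat_lit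 914) (.cons (nat_lit 908) (.cons (nat_lit 1038) (.cons (nat_lit 41995) Uxp15n660 .nil) (.cons (nat_lit 1042) Uxp15n313 (.cons (nat_lit 1041) (.cons (nat_lit 1044) (.cons (nat_lit 1170) (.cons (nat_lit 1164) (.cons (nat_lit 1294) (.cons (nat_lit 42251) Uxp15n308 .nil) .nil) .nil) .nil) .nil) .nil))) .nil) (.cons (nat_lit 921) (.cons (nat_lit 924) (.cons (nat_lit 1050) Uxp15n677 .nil) .nil) (.cons (nat_lit 918) (.cons (nat_lit 916) (.cons (nat_lit 1042) (.cons (nat_lit 1036) (.cons (nat_lit 1166) (.cons (nat_lit 1164) (.cons (nat_lit 1294) (.cons (nat_lit 1292) (.cons (nat_lit 1418) (.cons (nat_lit 58755) (.cons (nat_lit 1284) (.cons (nat_lit 1542) (.cons (nat_lit 75267) (.cons (nat_lit 1540) (.cons (nat_lit 1670) (.cons (nat_lit 1667) (.cons (nat_lit 42627) (.cons (nat_lit 5) .nil .nil) .nil) (.cons (nat_lit 42635) (.cons (nat_lit 1676) (.cons (nat_lit 1801) Uxp15n281 .nil) .nil) .nil)) .nil) .nil) .nil) .nil) .nil)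 .nil) .nil) .nil) .nil) .nil) .nil) .nil) .nil) .nil) .nil))) .nil) (.cons (nat_lit 785) (.cons (nat_lit 788) (.cons (nat_lit 930) (.cons (nat_lit 924) (.cons (nat_lit 1050) Uxp15n677 (.cons (nat_lit 1049) (.cons (nat_lit 1052) (.cons (nat_lit 1178) (.cons (nat_lit 1172) (.cons (nat_lit 1297) (.cons (nat_lit 1300) (.cons (nat_lit 1426) (.cons (nat_lit 1420) (.cons (nat_lit 1550) (.cons (nat_lit 42507) Uxp15n103 .nil) .nil) .nil) .nil) .nil) Uxp15n673) .nil) .nil) .nil) .nil)) .nil) (.cons (nat_lit 918) (.cons (nat_lit 916) (.cons (nat_lit 1042) (.cons (nat_lit 1036) (.cons (nat_lit 1166) (.cons (nat_lit 1164) (.cons (nat_lit 1294) (.cons (nat_lit 1292) (.cons (nat_lit 1418) (.cons (nat_lit 58755) (.cons (nat_lit 1284) (.cons (nat_lit 1542) (.cons (nat_lit 75267) (.cons (nat_lit 1540) (.cons (nat_lit 1670) (.cons (nat_lit 1667) (.cons (nat_lit 42627) (.cons (nat_lit 5) .nil .nil) .nil) (.cons (nat_lit 42643) (.cons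 (nat_lit 1684) (.cons (nat_lit 1810) Uxp15n281 .nil) .nil) .nil)) .nil) .nil) .nil) .nil) .nil) .nil) .nil) .nil) .nil) .nil) .nil) .nil) .nil) .nil) .nil)) .nil) (.cons (nat_lit 798) (.cons (nat_lit 795) (.cons (nat_lit 796) (.cons (nat_lit 922) Uxp15n28 .nil) .nil) (.cons (nat_lit 804) (.cons (nat_lit 929) Uxp15n736 .nil) .nil)) .nil))) .nil) .nil)) .nil) (.cons (nat_lit 534) (.cons (nat_lit 532) (.cons (nat_lit 658) (.cons (nat_lit 652) (.cons (nat_lit 778) (.cons (nat_lit 772) (.cons (nat_lit 902) (.cons (nat_lit 899) (.cons (nat_lit 33667) (.cons (nat_lit 5) .nil .nil) .nil) (.cons (nat_lit 33675) (.cons (nat_lit 908) (.cons (nat_lit 1033) Uxp15n146 (.cons (nat_lit 1042) Uxp15n146 .nil)) .nil) .nil)) (.cons (nat_lit 906) (.cons (nat_lit 900) (.cons (nat_lit 1025) (.cons (nat_lit 1028) (.cons (nat_lit 1158) Uxp15n752 (.cons (nat_lit 1162) (.cons (nat_lit 1156) (.cons (nat_lit 1281) Uxp15n75 .nil) .nil) .nil))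 .nil) (.cons (nat_lit 1034) Uxp15n63 .nil)) .nil) (.cons (nat_lit 905) (.cons (nat_lit 908) (.cons (nat_lit 1034) (.cons (nat_lit 1028) (.cons (nat_lit 1158) Uxp15n752 Uxp15n94) .nil) .nil) .nil) .nil))) .nil) (.cons (nat_lit 785) (.cons (nat_lit 788) (.cons (nat_lit 914) (.cons (nat_lit 908) (.cons (nat_lit 1034) (.cons (nat_lit 1028) (.cons (nat_lit 1158) Uxp15n752 Uxp15n94) .nil) (.cons (nat_lit 1033) (.cons (nat_lit 1036) Uxp15n773 .nil) .nil)) .nil) .nil) .nil) Uxp15n119)) .nil) (.cons (nat_lit 657) (.cons (nat_lit 660) (.cons (nat_lit 786) (.cons (nat_lit 780) (.cons (nat_lit 906) (.cons (nat_lit 900) (.cons (nat_lit 1025) (.cons (nat_lit 1028) (.cons (nat_lit 1158) (.cons (nat_lit 1155) (.cons (nat_lit 33923) (.cons (nat_lit 5) .nil .nil) .nil) (.cons (nat_lit 33939) (.cons (nat_lit 1172) (.cons (nat_lit 1298) Uxp15n308 .nil) .nil) .nil)) Uxp15n773) .nil) (.cons (nat_lit 1034) (.cons (nat_lit 1028) (.cons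 (nat_lit 1158) Uxp15n752 Uxp15n94) .nil) .nil)) .nil) (.cons (nat_lit 913) (.cons (nat_lit 916) (.cons (nat_lit 1042) (.cons (nat_lit 1036) (.cons (nat_lit 1161) (.cons (nat_lit 1164) (.cons (nat_lit 1290) (.cons (nat_lit 1284) (.cons (nat_lit 1414) Uxp15n768 Uxp15n364) .nil) .nil) .nil) Uxp15n773) .nil) .nil) .nil) .nil)) .nil) (.cons (nat_lit 798) (.cons (nat_lit 796) (.cons (nat_lit 922) (.cons (nat_lit 916) (.cons (nat_lit 1046) (.cons (nat_lit 1044) (.cons (nat_lit 1174) (.cons (nat_lit 1172) (.cons (nat_lit 1298) (.cons (nat_lit 50443) (.cons (nat_lit 1164) (.cons (nat_lit 1422) (.cons (nat_lit 66955) (.cons (nat_lit 1420) (.cons (nat_lit 1550) (.cons (nat_lit 34315) (.cons (nat_lit 1548) (.cons (nat_lit 1674) Uxp15n800 .nil) .nil) .nil) .nil) .nil) .nil) .nil) .nil) .nil) .nil) .nil) .nil) .nil) .nil) .nil) .nil) .nil) .nil)) .nil) (.cons (nat_lit 670) (.cons (nat_lit 668) (.cons (nat_lit 793) (.cons (nat_lit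 796) (.cons (nat_lit 926) Uxp15n135 Uxp15n835) .nil) Uxp15n390) .nil) .nil))) .nil) .nil))
def Uxp15n850 : PT := (.cons (nat_lit 1036) (.cons (nat_lit 1162) (.cons (nat_lit 1155) (.cons (nat_lit 5) .nil .nil) .nil) (.cons (nat_lit 1169) (.cons (nat_lit 1172) (.cons (nat_lit 1298) Uxp15n308 .nil) .nil) .nil)) .nil)
def Uxp15n859 : PT := (.cons (nat_lit 908) (.cons (nat_lit 1038) (.cons (nat_lit 25611) Uxp15n850 .nil) (.cons (nat_lit 1041) (.cons (nat_lit 1044) Uxp15n450 .nil) Uxp15n419)) .nil)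
def Uxp15n873 : PT := (.cons (nat_lit 25867) (.cons (nat_lit 1292) (.cons (nat_lit 1418) (.cons (nat_lit 1411) (.cons (nat_lit 5) .nil .nil) .nil) (.cons (nat_lit 1425) (.cons (nat_lit 1428) (.cons (nat_lit 1554) Uxp15n103 .nil) .nil) .nil)) .nil) .nil)
def Uxp15n879 : PT := (.cons (nat_lit 1298) (.cons (nat_lit 1292) (.cons (nat_lit 1417) (.cons (nat_lit 1420) (.cons (nat_lit 1550) (.cons (nat_lit 26123) Uxp15n103 .nil) .nil) .nil) .nil) .nil) .nil)
def Uxp15n884 : PT := (.cons (nat_lit 1042) (.cons (nat_lit 1036) (.cons (nat_lit 1161) (.cons (nat_lit 1164) (.cons (nat_lit 1294) Uxp15n873 Uxp15n879) .nil) Uxp15n450) .nil) .nil)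
def Uxp15n888 : PT := (.cons (nat_lit 788) (.cons (nat_lit 914) Uxp15n859 (.cons (nat_lit 913) (.cons (nat_lit 916) Uxp15n884 .nil) .nil)) .nil)
def Uxp15n915 : PT := (.cons (nat_lit 1297) (.cons (nat_lit 1300) (.cons (nat_lit 1426) (.cons (nat_lit 1420) (.cons (nat_lit 1550) (.cons (nat_lit 26123) Uxp15n103 .nil) .nil) .nil) .nil) .nil) Uxp15n879)
def Uxp15n960 : PT := (.cons (nat_lit 916) (.cons (nat_lit 1046) (.cons (nat_lit 1044) (.cons (nat_lit 1170) (.cons (nat_lit 1164) (.cons (nat_lit 1294) (.cons (nat_lit 1292) (.cons (nat_lit 1422) (.cons (nat_lit 25995) Uxp15n19 .nil) .nil) .nil) .nil) .nil) .nil) .nil) .nil) .nil)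
def Uxp15n966 : PT := (.cons (nat_lit 682) (.cons (nat_lit 676) (.cons (nat_lit 802) (.cons (nat_lit 795) (.cons (nat_lit 540) (.cons (nat_lit 922) Uxp15n960 .nil) .nil) .nil) .nil) .nil) .nil)
def Uxp15n985 : PT := (.cons (nat_lit 1284) (.cons (nat_lit 1414) (.cons (nat_lit 1411) (.cons (nat_lit 17795) (.cons (nat_lit 5) .nil .nil) .nil) .nil) .nil) .nil)
def Uxp15n992 : PT := (.cons (nat_lit 1028) (.cons (nat_lit 1158) (.cons (nat_lit 1155) (.cons (nat_lit 17539) (.cons (nat_lit 5) .nil .nil) .nil) .nil) .nil) .nil)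
def Uxp15n995 : PT := (.cons (nat_lit 900) (.cons (nat_lit 1025) (.cons (nat_lit 1028) (.cons (nat_lit 1158) (.cons (nat_lit 1155) (.cons (nat_lit 17539) (.cons (nat_lit 5) .nil .nil) .nil) .nil) (.cons (nat_lit 1162) (.cons (nat_lit 1156) (.cons (nat_lit 1281) Uxp15n985 .nil) .nil) .nil)) .nil) (.cons (nat_lit 1034) Uxp15n992 .nil)) .nil)
def Uxp15n1015 : PT := (.cons (nat_lit 1034) (.cons (nat_lit 1028) (.cons (nat_lit 1158) (.cons (nat_lit 1155) (.cons (nat_lit 17539) (.cons (nat_lit 5) .nil .nil) .nil) .nil) (.cons (nat_lit 1162) (.cons (nat_lit 1156) (.cons (nat_lit 1281) Uxp15n985 .nil) .nil) (.cons (nat_lit 1161) (.cons (nat_lit 1164) (.cons (nat_lit 1290) Uxp15n985 .nil) .nil) .nil))) .nil) .nil)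
def Uxp15n1020 : PT := (.cons (nat_lit 772) (.cons (nat_lit 902) (.cons (nat_lit 899) (.cons (nat_lit 17283) (.cons (nat_lit 5) .nil .nil) .nil) .nil) (.cons (nat_lit 906) Uxp15n995 (.cons (nat_lit 905) (.cons (nat_lit 908) Uxp15n1015 .nil) .nil))) .nil)
def Uxp15n1030 : PT := (.cons (nat_lit 1540) (.cons (nat_lit 1670) (.cons (nat_lit 1667) (.cons (nat_lit 18051) (.cons (nat_lit 5) .nil .nil) .nil) .nil) .nil) .nil)
def Uxp15n1038 : PT := (.cons (nat_lit 1162) (.cons (nat_lit 1156) (.cons (nat_lit 1281) (.cons (nat_lit 1284) (.cons (nat_lit 1414) (.cons (nat_lit 1411) (.cons (nat_lit 17795) (.cons (nat_lit 5) .nil .nil) .nil) .nil) (.cons (nat_lit 1418) (.cons (nat_lit 1412) (.cons (nat_lit 1537) Uxp15n1030 .nil) .nil) .nil)) .nil) (.cons (nat_lit 1290) Uxp15n985 .nil)) .nil) .nil)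
def Uxp15n1040 : PT := (.cons (nat_lit 1028) (.cons (nat_lit 1158) (.cons (nat_lit 1155) (.cons (nat_lit 17539) (.cons (nat_lit 5) .nil .nil) .nil) .nil) Uxp15n1038) .nil)
def Uxp15n1065 : PT := (.cons (nat_lit 542) (.cons (nat_lit 540) (.cons (nat_lit 666) (.cons (nat_lit 660) (.cons (nat_lit 790) (.cons (nat_lit 788) (.cons (nat_lit 918) (.cons (nat_lit 916) (.cons (nat_lit 1042) (.cons (nat_lit 33803) (.cons (nat_lit 908) (.cons (nat_lit 1166) (.cons (nat_lit 50315) (.cons (nat_lit 1164) (.cons (nat_lit 1294) (.cons (nat_lit 17675) Uxp15n308 .nil) .nil) .nil) .nil) .nil) .nil) .nil) .nil) .nil) .nil) .nil) .nil) .nil) .nil) .nil) .nil)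
def Uxp15n1078 : PT := (.cons (nat_lit 906) (.cons (nat_lit 900) (.cons (nat_lit 1025) Uxp15n1040 (.cons (nat_lit 1034) (.cons (nat_lit 1028) (.cons (nat_lit 1158) (.cons (nat_lit 1155) (.cons (nat_lit 17539) (.cons (nat_lit 5) .nil .nil) .nil) .nil) (.cons (nat_lit 1161) (.cons (nat_lit 1164) (.cons (nat_lit 1290) Uxp15n985 .nil) .nil) (.cons (nat_lit 1162) (.cons (nat_lit 1156) (.cons (nat_lit 1281) Uxp15n985 .nil) .nil) .nil))) .nil) .nil)) .nil) .nil)
def Uxp15n1108 : PT := (.cons (nat_lit 273) (.cons (nat_lit 276) (.cons (nat_lit 402) (.cons (nat_lit 396) (.cons (nat_lit 522) (.cons (nat_lit 515) (.cons (nat_lit 5) .nil .nil) (.cons (nat_lit 524) (.cons (nat_lit 649) (.cons (nat_lit 652) (.cons (nat_lit 778) (.cons (nat_lit 771) (.cons (nat_lit 5) .nil .nil) Uxp15n247) (.cons (nat_lit 790) (.cons (nat_lit 788) (.cons (nat_lit 914) Uxp15n515 (.cons (nat_lit 921) Uxp15n299 .nil)) .nil) .nil)) .nil) (.cons (nat_lit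 658) (.cons (nat_lit 652) (.cons (nat_lit 778) (.cons (nat_lit 771) (.cons (nat_lit 5) .nil .nil) (.cons (nat_lit 780) (.cons (nat_lit 905) Uxp15n206 .nil) .nil)) Uxp15n210) .nil) (.cons (nat_lit 662) (.cons (nat_lit 660) (.cons (nat_lit 794) Uxp15n151 (.cons (nat_lit 785) Uxp15n317 (.cons (nat_lit 790) (.cons (nat_lit 787) (.cons (nat_lit 788) (.cons (nat_lit 913) Uxp15n28 (.cons (nat_lit 922) Uxp15n28 .nil)) .nil) (.cons (nat_lit 796) (.cons (nat_lit 921) (.cons (nat_lit 924) (.cons (nat_lit 1050) (.cons (nat_lit 1043) (.cons (nat_lit 788) (.cons (nat_lit 1169) Uxp15n534 .nil) .nil) .nil) .nil) .nil) .nil) .nil)) .nil))) .nil) .nil))) .nil)) Uxp15n845) .nil) (.cons (nat_lit 406) (.cons (nat_lit 404) (.cons (nat_lit 538) (.cons (nat_lit 532) (.cons (nat_lit 658) (.cons (nat_lit 652) (.cons (nat_lit 782) (.cons (nat_lit 25355) (.cons (nat_lit 780) (.cons (nat_lit 906) (.cons (nat_lit 899) (.cons (nat_lit 5) .nil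 .nil) (.cons (nat_lit 916) (.cons (nat_lit 1042) Uxp15n146 .nil) .nil)) (.cons (nat_lit 913) (.cons (nat_lit 916) (.cons (nat_lit 1042) Uxp15n850 .nil) .nil) .nil)) .nil) .nil) (.cons (nat_lit 785) (.cons (nat_lit 788) (.cons (nat_lit 914) Uxp15n859 .nil) .nil) (.cons (nat_lit 786) (.cons (nat_lit 780) (.cons (nat_lit 905) (.cons (nat_lit 908) (.cons (nat_lit 1038) (.cons (nat_lit 25611) Uxp15n850 .nil) Uxp15n419) .nil) Uxp15n408) .nil) .nil))) .nil) (.cons (nat_lit 665) (.cons (nat_lit 668) (.cons (nat_lit 794) Uxp15n888 .nil) .nil) (.cons (nat_lit 662) (.cons (nat_lit 660) (.cons (nat_lit 786) (.cons (nat_lit 780) (.cons (nat_lit 910) (.cons (nat_lit 908) (.cons (nat_lit 1038) (.cons (nat_lit 1036) (.cons (nat_lit 1162) (.cons (nat_lit 42115) (.cons (nat_lit 1028) (.cons (nat_lit 1286) (.cons (nat_lit 58627) (.cons (nat_lit 1284) (.cons (nat_lit 1414) (.cons (nat_lit 1411) (.cons (nat_lit 25987) (.cons (nat_lit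 5) .nil .nil) .nil) (.cons (nat_lit 25995) (.cons (nat_lit 1420) (.cons (nat_lit 1545) Uxp15n103 (.cons (nat_lit 1554) Uxp15n103 .nil)) .nil) .nil)) .nil) .nil) .nil) .nil) .nil) .nil) .nil) .nil) .nil) .nil) .nil) .nil) .nil) .nil) .nil))) .nil) (.cons (nat_lit 529) (.cons (nat_lit 532) (.cons (nat_lit 674) (.cons (nat_lit 668) (.cons (nat_lit 794) Uxp15n888 (.cons (nat_lit 793) (.cons (nat_lit 796) (.cons (nat_lit 922) (.cons (nat_lit 916) (.cons (nat_lit 1041) (.cons (nat_lit 1044) (.cons (nat_lit 1170) (.cons (nat_lit 1164) (.cons (nat_lit 1294) Uxp15n873 Uxp15n915) .nil) .nil) .nil) Uxp15n884) .nil) .nil) .nil) .nil)) .nil) (.cons (nat_lit 662) (.cons (nat_lit 660) (.cons (nat_lit 786) (.cons (nat_lit 780) (.cons (nat_lit 910) (.cons (nat_lit 908) (.cons (nat_lit 1038) (.cons (nat_lit 1036) (.cons (nat_lit 1162) (.cons (nat_lit 42115) (.cons (nat_lit 1028) (.cons (nat_lit 1286) (.cons (nat_lit 58627) (.cons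 (nat_lit 1284) (.cons (nat_lit 1414) (.cons (nat_lit 1411) (.cons (nat_lit 25987) (.cons (nat_lit 5) .nil .nil) .nil) (.cons (nat_lit 26003) (.cons (nat_lit 1428) (.cons (nat_lit 1554) (.cons (nat_lit 1548) (.cons (nat_lit 1674) (.cons (nat_lit 1667) (.cons (nat_lit 5) .nil .nil) .nil) (.cons (nat_lit 1681) (.cons (nat_lit 1684) (.cons (nat_lit 1810) Uxp15n281 .nil) .nil) .nil)) .nil) .nil) .nil) .nil)) .nil) .nil) .nil) .nil) .nil) .nil) .nil) .nil) .nil) .nil) .nil) .nil) .nil) .nil) .nil)) .nil) (.cons (nat_lit 542) (.cons (nat_lit 539) (.cons (nat_lit 540) (.cons (nat_lit 666) Uxp15n493 .nil) .nil) (.cons (nat_lit 556) Uxp15n966 .nil)) .nil))) .nil) .nil)) .nil) (.cons (nat_lit 278) (.cons (nat_lit 276) (.cons (nat_lit 402) (.cons (nat_lit 396) (.cons (nat_lit 522) (.cons (nat_lit 516) (.cons (nat_lit 646) (.cons (nat_lit 643) (.cons (nat_lit 17027) (.cons (nat_lit 5) .nil .nil) .nil) .nil) (.cons (nat_lit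 650) (.cons (nat_lit 644) (.cons (nat_lit 769) (.cons (nat_lit 772) (.cons (nat_lit 902) (.cons (nat_lit 899) (.cons (nat_lit 17283) (.cons (nat_lit 5) .nil .nil) .nil) .nil) (.cons (nat_lit 906) Uxp15n995 .nil)) .nil) (.cons (nat_lit 778) (.cons (nat_lit 772) (.cons (nat_lit 902) (.cons (nat_lit 899) (.cons (nat_lit 17283) (.cons (nat_lit 5) .nil .nil) .nil) .nil) (.cons (nat_lit 906) (.cons (nat_lit 900) (.cons (nat_lit 1025) Uxp15n992 .nil) .nil) (.cons (nat_lit 905) (.cons (nat_lit 908) (.cons (nat_lit 1034) Uxp15n992 .nil) .nil) .nil))) .nil) .nil)) .nil) (.cons (nat_lit 649) (.cons (nat_lit 652) (.cons (nat_lit 778) Uxp15n1020 .nil) .nil) .nil))) .nil) (.cons (nat_lit 529) (.cons (nat_lit 532) (.cons (nat_lit 658) (.cons (nat_lit 652) (.cons (nat_lit 778) Uxp15n1020 (.cons (nat_lit 777) (.cons (nat_lit 780) (.cons (nat_lit 906) (.cons (nat_lit 900) (.cons (nat_lit 1025) Uxp15n1040 Uxp15n1015) .nil) .nil)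 .nil) .nil)) .nil) .nil) .nil) Uxp15n1065)) .nil) (.cons (nat_lit 409) (.cons (nat_lit 412) (.cons (nat_lit 538) (.cons (nat_lit 532) (.cons (nat_lit 658) (.cons (nat_lit 652) (.cons (nat_lit 778) (.cons (nat_lit 772) (.cons (nat_lit 902) (.cons (nat_lit 899) (.cons (nat_lit 17283) (.cons (nat_lit 5) .nil .nil) .nil) .nil) (.cons (nat_lit 905) (.cons (nat_lit 908) Uxp15n1015 .nil) (.cons (nat_lit 906) Uxp15n995 .nil))) .nil) (.cons (nat_lit 777) (.cons (nat_lit 780) Uxp15n1078 .nil) .nil)) .nil) (.cons (nat_lit 657) (.cons (nat_lit 660) (.cons (nat_lit 786) (.cons (nat_lit 780) (.cons (nat_lit 905) (.cons (nat_lit 908) (.cons (nat_lit 1034) (.cons (nat_lit 1028) (.cons (nat_lit 1158) (.cons (nat_lit 1155) (.cons (nat_lit 17539) (.cons (nat_lit 5) .nil .nil) .nil) .nil) (.cons (nat_lit 1161) (.cons (nat_lit 1164) (.cons (nat_lit 1290) (.cons (nat_lit 1284) (.cons (nat_lit 1414) (.cons (nat_lit 1411) (.cons (nat_lit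 17795) (.cons (nat_lit 5) .nil .nil) .nil) .nil) (.cons (nat_lit 1417) (.cons (nat_lit 1420) (.cons (nat_lit 1546) Uxp15n1030 .nil) .nil) (.cons (nat_lit 1418) (.cons (nat_lit 1412) (.cons (nat_lit 1537) Uxp15n1030 .nil) .nil) .nil))) .nil) .nil) .nil) Uxp15n1038)) .nil) .nil) .nil) Uxp15n1078) .nil) .nil) .nil) .nil)) .nil) Uxp15n1065) .nil) .nil)) .nil) .nil))
def Uxp15n1112 : PT := (.cons (nat_lit 1284) (.cons (nat_lit 1409) (.cons (nat_lit 1411) (.cons (nat_lit 5) .nil .nil) .nil) .nil) .nil)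
def Uxp15n1117 : PT := (.cons (nat_lit 1036) (.cons (nat_lit 1162) (.cons (nat_lit 1156) (.cons (nat_lit 1286) (.cons (nat_lit 58627) Uxp15n1112 .nil) .nil) .nil) .nil) .nil)
def Uxp15n1137 : PT := (.cons (nat_lit 1172) (.cons (nat_lit 1302) (.cons (nat_lit 1300) (.cons (nat_lit 1426) (.cons (nat_lit 1420) (.cons (nat_lit 1550) (.cons (nat_lit 1548) (.cons (nat_lit 1678) (.cons (nat_lit 50827) Uxp15n228 .nil) .nil) .nil) .nil) .nil) .nil) .nil) .nil) .nil)
def Uxp15n1166 : PT := (.cons (nat_lit 1796) (.cons (nat_lit 1921) (.cons (nat_lit 1923) (.cons (nat_lit 5) .nil .nil) .nil) .nil) .nil)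
def Uxp15n1185 : PT := (.cons (nat_lit 908) (.cons (nat_lit 1034) (.cons (nat_lit 1028) (.cons (nat_lit 1158) (.cons (nat_lit 1155) (.cons (nat_lit 50307) (.cons (nat_lit 5) .nil .nil) .nil) (.cons (nat_lit 50315) (.cons (nat_lit 1164) (.cons (nat_lit 1289) Uxp15n308 (.cons (nat_lit 1290) Uxp15n1112 .nil)) .nil) .nil)) Uxp15n251) .nil) (.cons (nat_lit 1041) (.cons (nat_lit 1044) (.cons (nat_lit 1170) Uxp15n264 .nil) .nil) (.cons (nat_lit 1046) (.cons (nat_lit 1044) (.cons (nat_lit 1170) (.cons (nat_lit 1164) (.cons (nat_lit 1294) (.cons (nat_lit 1292) (.cons (nat_lit 1422) (.cons (nat_lit 1420) (.cons (nat_lit 1546) (.cons (nat_lit 67075) (.cons (nat_lit 1412) (.cons (nat_lit 1670) (.cons (nat_lit 83587) (.cons (nat_lit 1668) (.cons (nat_lit 1798) (.cons (nat_lit 50947) Uxp15n1166 .nil) .nil) .nil) .nil) .nil) .nil) .nil) .nil) .nil) .nil) .nil) .nil) .nil) .nil) .nil) .nil))) .nil)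
def Uxp15n1199 : PT := (.cons (nat_lit 1028) (.cons (nat_lit 1153) (.cons (nat_lit 1155) (.cons (nat_lit 5) .nil .nil) .nil) (.cons (nat_lit 1162) (.cons (nat_lit 1155) (.cons (nat_lit 5) .nil .nil) .nil) .nil)) .nil)
def Uxp15n1206 : PT := (.cons (nat_lit 1162) (.cons (nat_lit 1156) (.cons (nat_lit 1286) (.cons (nat_lit 42243) Uxp15n1112 .nil) .nil) .nil) .nil)
def Uxp15n1213 : PT := (.cons (nat_lit 1540) (.cons (nat_lit 1665) (.cons (nat_lit 1667) (.cons (nat_lit 5) .nil .nil) .nil) .nil) .nil)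
def Uxp15n1218 : PT := (.cons (nat_lit 1284) (.cons (nat_lit 1409) (.cons (nat_lit 1412) (.cons (nat_lit 1542) (.cons (nat_lit 42499) Uxp15n1213 .nil) .nil) .nil) .nil) .nil)
def Uxp15n1233 : PT := (.cons (nat_lit 1418) (.cons (nat_lit 1412) (.cons (nat_lit 1542) (.cons (nat_lit 42499) Uxp15n1213 .nil) .nil) .nil) .nil)
def Uxp15n1291 : PT := (.cons (nat_lit 515) (.cons (nat_lit 5) .nil .nil) (.cons (nat_lit 524) (.cons (nat_lit 650) (.cons (nat_lit 644) (.cons (nat_lit 769) (.cons (nat_lit 771) (.cons (nat_lit 5) .nil .nil) (.cons (nat_lit 788) (.cons (nat_lit 914) Uxp15n206 (.cons (nat_lit 918) (.cons (nat_lit 916) (.cons (nat_lit 1042) Uxp15n1117 (.cons (nat_lit 1041) (.cons (nat_lit 1044) Uxp15n188 .nil) .nil)) .nil) .nil)) .nil)) (.cons (nat_lit 778) (.cons (nat_lit 771) (.cons (nat_lit 5) .nil .nil) (.cons (nat_lit 780) (.cons (nat_lit 906) (.cons (nat_lit 900) (.cons (nat_lit 1025) (.cons (nat_lit 1027)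 (.cons (nat_lit 5) .nil .nil) .nil) .nil) .nil) (.cons (nat_lit 905) Uxp15n206 .nil)) .nil)) (.cons (nat_lit 790) (.cons (nat_lit 788) (.cons (nat_lit 914) Uxp15n9 (.cons (nat_lit 913) Uxp15n168 (.cons (nat_lit 918) (.cons (nat_lit 916) (.cons (nat_lit 1041) (.cons (nat_lit 1043) (.cons (nat_lit 916) (.cons (nat_lit 1169) Uxp15n1137 .nil) .nil) .nil) .nil) .nil) .nil))) .nil) .nil))) .nil) (.cons (nat_lit 649) (.cons (nat_lit 652) (.cons (nat_lit 778) (.cons (nat_lit 771) (.cons (nat_lit 5) .nil .nil) (.cons (nat_lit 780) (.cons (nat_lit 905) Uxp15n559 (.cons (nat_lit 914) Uxp15n206 (.cons (nat_lit 918) (.cons (nat_lit 916) (.cons (nat_lit 1042) Uxp15n1117 Uxp15n560) .nil) .nil))) .nil)) (.cons (nat_lit 790) (.cons (nat_lit 788) (.cons (nat_lit 914) Uxp15n1185 (.cons (nat_lit 921) Uxp15n299 (.cons (nat_lit 926) (.cons (nat_lit 924) (.cons (nat_lit 1049) (.cons (nat_lit 1051) (.cons (nat_lit 924) (.cons (nat_lit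 1178) Uxp15n1137 .nil) .nil) .nil) .nil) .nil) .nil))) .nil) .nil)) .nil) (.cons (nat_lit 662) (.cons (nat_lit 660) (.cons (nat_lit 786) (.cons (nat_lit 780) (.cons (nat_lit 906) (.cons (nat_lit 900) (.cons (nat_lit 1030) (.cons (nat_lit 41987) Uxp15n1199 .nil) (.cons (nat_lit 1034) (.cons (nat_lit 1028) (.cons (nat_lit 1153) (.cons (nat_lit 1156) (.cons (nat_lit 1286) (.cons (nat_lit 42243) Uxp15n1112 .nil) .nil) .nil) .nil) .nil) (.cons (nat_lit 1033) (.cons (nat_lit 1036) Uxp15n1206 .nil) .nil))) .nil) (.cons (nat_lit 913) (.cons (nat_lit 916) (.cons (nat_lit 1042) (.cons (nat_lit 1036) (.cons (nat_lit 1162) (.cons (nat_lit 1156) (.cons (nat_lit 1286) (.cons (nat_lit 42243) Uxp15n1112 .nil) .nil) .nil) (.cons (nat_lit 1161) (.cons (nat_lit 1164) (.cons (nat_lit 1290) Uxp15n1218 .nil) .nil) .nil)) .nil) .nil) .nil) Uxp15n48)) .nil) (.cons (nat_lit 785) (.cons (nat_lit 788) (.cons (nat_lit 922) (.cons (nat_lit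 916) (.cons (nat_lit 1042) (.cons (nat_lit 1036) (.cons (nat_lit 1161) (.cons (nat_lit 1164) (.cons (nat_lit 1294) (.cons (nat_lit 42251) Uxp15n308 .nil) (.cons (nat_lit 1290) Uxp15n1218 .nil)) .nil) Uxp15n1206) .nil) (.cons (nat_lit 1041) (.cons (nat_lit 1044) (.cons (nat_lit 1170) (.cons (nat_lit 1164) (.cons (nat_lit 1289) (.cons (nat_lit 1292) Uxp15n1233 .nil) (.cons (nat_lit 1290) Uxp15n1218 .nil)) .nil) .nil) .nil) .nil)) .nil) (.cons (nat_lit 918) (.cons (nat_lit 916) (.cons (nat_lit 1042) (.cons (nat_lit 1036) (.cons (nat_lit 1166) (.cons (nat_lit 1164) (.cons (nat_lit 1294) (.cons (nat_lit 1292) (.cons (nat_lit 1418) (.cons (nat_lit 58755) (.cons (nat_lit 1284) (.cons (nat_lit 1542) (.cons (nat_lit 75267) (.cons (nat_lit 1540) (.cons (nat_lit 1670) (.cons (nat_lit 1667) (.cons (nat_lit 42627) (.cons (nat_lit 5) .nil .nil) .nil) (.cons (nat_lit 42635) (.cons (nat_lit 1676) (.cons (nat_lit 1802) Uxp15n1166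 .nil) .nil) .nil)) .nil) .nil) .nil) .nil) .nil) .nil) .nil) .nil) .nil) .nil) .nil) .nil) .nil) .nil) .nil)) .nil) (.cons (nat_lit 790) (.cons (nat_lit 787) (.cons (nat_lit 788) (.cons (nat_lit 913) Uxp15n28 (.cons (nat_lit 922) Uxp15n28 .nil)) .nil) (.cons (nat_lit 796) (.cons (nat_lit 921) (.cons (nat_lit 924) (.cons (nat_lit 1050) (.cons (nat_lit 1043) (.cons (nat_lit 788) (.cons (nat_lit 1169) Uxp15n534 .nil) .nil) .nil) (.cons (nat_lit 1054) (.cons (nat_lit 1052) (.cons (nat_lit 1178) (.cons (nat_lit 1172) (.cons (nat_lit 1302) (.cons (nat_lit 1300) (.cons (nat_lit 1430) (.cons (nat_lit 42387) (.cons (nat_lit 1428) (.cons (nat_lit 1558) (.cons (nat_lit 83475) (.cons (nat_lit 1556) (.cons (nat_lit 1682) (.cons (nat_lit 67211) (.cons (nat_lit 780) (.cons (nat_lit 1802) Uxp15n1166 .nil) .nil) .nil) .nil) .nil) .nil) .nil) .nil) .nil) .nil) .nil) .nil) .nil) .nil) .nil) .nil)) .nil) .nil) .nil)) .nil))) .nil)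 .nil))) .nil))
def Uxp15n1295 : PT := (.cons (nat_lit 1156) (.cons (nat_lit 1281) (.cons (nat_lit 1283) (.cons (nat_lit 5) .nil .nil) .nil) .nil) .nil)
def Uxp15n1298 : PT := (.cons (nat_lit 1027) (.cons (nat_lit 5) .nil .nil) (.cons (nat_lit 1036) (.cons (nat_lit 1162) Uxp15n1295 (.cons (nat_lit 1161) Uxp15n554 .nil)) .nil))
def Uxp15n1301 : PT := (.cons (nat_lit 905) (.cons (nat_lit 908) (.cons (nat_lit 1034) Uxp15n1298 (.cons (nat_lit 1046) (.cons (nat_lit 1044) (.cons (nat_lit 1170) Uxp15n218 .nil) .nil) .nil)) .nil) (.cons (nat_lit 918) (.cons (nat_lit 916) (.cons (nat_lit 1042) Uxp15n1117 Uxp15n560) .nil) .nil))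
def Uxp15n1309 : PT := (.cons (nat_lit 1292) (.cons (nat_lit 1418) (.cons (nat_lit 1412) (.cons (nat_lit 1542) (.cons (nat_lit 75267) Uxp15n1213 .nil) .nil) .nil) .nil) .nil)
def Uxp15n1314 : PT := (.cons (nat_lit 1044) (.cons (nat_lit 1170) Uxp15n554 (.cons (nat_lit 1174) (.cons (nat_lit 1172) (.cons (nat_lit 1298) Uxp15n1309 Uxp15n585) .nil) .nil)) .nil)
def Uxp15n1320 : PT := (.cons (nat_lit 1932) (.cons (nat_lit 2062) (.cons (nat_lit 116747) (.cons (nat_lit 2060) (.cons (nat_lit 2186) (.cons (nat_lit 100483) (.cons (nat_lit 5) .nil .nil) .nil) .nil) .nil) .nil) .nil) .nil)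
def Uxp15n1329 : PT := (.cons (nat_lit 1428) (.cons (nat_lit 1558) (.cons (nat_lit 1556) (.cons (nat_lit 1682) (.cons (nat_lit 1676) (.cons (nat_lit 1806) (.cons (nat_lit 1804) (.cons (nat_lit 1934) (.cons (nat_lit 67467) Uxp15n1320 .nil) .nil) .nil) .nil) .nil) .nil) .nil) .nil) .nil)
def Uxp15n1339 : PT := (.cons (nat_lit 1046) (.cons (nat_lit 1044) (.cons (nat_lit 1170) Uxp15n218 (.cons (nat_lit 1169) Uxp15n598 (.cons (nat_lit 1174) (.cons (nat_lit 1172) (.cons (nat_lit 1297) (.cons (nat_lit 1299) (.cons (nat_lit 1172) (.cons (nat_lit 1425) Uxp15n1329 .nil) .nil) .nil) .nil) .nil) .nil))) .nil) .nil)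
def Uxp15n1344 : PT := (.cons (nat_lit 1284) (.cons (nat_lit 1409) (.cons (nat_lit 1411) (.cons (nat_lit 5) .nil .nil) .nil) (.cons (nat_lit 1418) (.cons (nat_lit 1411) (.cons (nat_lit 5) .nil .nil) .nil) .nil)) .nil)
def Uxp15n1351 : PT := (.cons (nat_lit 1418) (.cons (nat_lit 1412) (.cons (nat_lit 1542) (.cons (nat_lit 58883) Uxp15n1213 .nil) .nil) .nil) .nil)
def Uxp15n1354 : PT := (.cons (nat_lit 1290) (.cons (nat_lit 1284) (.cons (nat_lit 1409) (.cons (nat_lit 1412) (.cons (nat_lit 1542) (.cons (nat_lit 58883) Uxp15n1213 .nil) .nil) .nil) .nil) .nil) (.cons (nat_lit 1289) (.cons (nat_lit 1292) Uxp15n1351 .nil) .nil))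
def Uxp15n1362 : PT := (.cons (nat_lit 1546) (.cons (nat_lit 1540) (.cons (nat_lit 1665) (.cons (nat_lit 1668) (.cons (nat_lit 1798) (.cons (nat_lit 59139) Uxp15n1166 .nil) .nil) .nil) .nil) .nil) .nil)
def Uxp15n1366 : PT := (.cons (nat_lit 1292) (.cons (nat_lit 1418) (.cons (nat_lit 1412) (.cons (nat_lit 1542) (.cons (nat_lit 58883) Uxp15n1213 .nil) .nil) .nil) (.cons (nat_lit 1417) (.cons (nat_lit 1420) Uxp15n1362 .nil) .nil)) .nil)
def Uxp15n1378 : PT := (.cons (nat_lit 1297) (.cons (nat_lit 1300) (.cons (nat_lit 1426) (.cons (nat_lit 1420) (.cons (nat_lit 1545) (.cons (nat_lit 1548) (.cons (nat_lit 1674) (.cons (nat_lit 1668) (.cons (nat_lit 1798) (.cons (nat_lit 59139) Uxp15n1166 .nil) .nil) .nil) .nil) .nil) Uxp15n1362) .nil) .nil) .nil) .nil)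
def Uxp15n1383 : PT := (.cons (nat_lit 2052) (.cons (nat_lit 2177) (.cons (nat_lit 2179) (.cons (nat_lit 5) .nil .nil) .nil) .nil) .nil)
def Uxp15n1402 : PT := (.cons (nat_lit 1174) (.cons (nat_lit 1172) (.cons (nat_lit 1298) (.cons (nat_lit 1292) (.cons (nat_lit 1422) (.cons (nat_lit 1420) (.cons (nat_lit 1550) (.cons (nat_lit 1548) (.cons (nat_lit 1674) (.cons (nat_lit 75395) (.cons (nat_lit 1540) (.cons (nat_lit 1798) (.cons (nat_lit 91907) (.cons (nat_lit 1796) (.cons (nat_lit 1926) (.cons (nat_lit 1923) (.cons (nat_lit 59267) (.cons (nat_lit 5) .nil .nil) .nil) (.cons (nat_lit 59275) (.cons (nat_lit 1932) (.cons (nat_lit 2058) Uxp15n1383 .nil) .nil) .nil)) .nil) .nil) .nil) .nil) .nil) .nil) .nil) .nil) .nil) .nil) .nil) .nil) .nil) .nil) .nil)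
def Uxp15n1405 : PT := (.cons (nat_lit 1041) (.cons (nat_lit 1044) (.cons (nat_lit 1178) (.cons (nat_lit 1172) (.cons (nat_lit 1298) Uxp15n1366 Uxp15n1378) .nil) Uxp15n1402) .nil) Uxp15n614)
def Uxp15n1422 : PT := (.cons (nat_lit 916) (.cons (nat_lit 1042) (.cons (nat_lit 1036) (.cons (nat_lit 1162) (.cons (nat_lit 1156) (.cons (nat_lit 1281) (.cons (nat_lit 1284) (.cons (nat_lit 1414) (.cons (nat_lit 1411) (.cons (nat_lit 50563) (.cons (nat_lit 5) .nil .nil) .nil) (.cons (nat_lit 50571) (.cons (nat_lit 1420) (.cons (nat_lit 1546) Uxp15n1213 .nil) .nil) .nil)) (.cons (nat_lit 1418) (.cons (nat_lit 1412) (.cons (nat_lit 1537) Uxp15n257 .nil) .nil) .nil)) .nil) (.cons (nat_lit 1290) Uxp15n162 .nil)) .nil) Uxp15n276) .nil) Uxp15n297) .nil)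
def Uxp15n1440 : PT := (.cons (nat_lit 1162) (.cons (nat_lit 1155) (.cons (nat_lit 5) .nil .nil) (.cons (nat_lit 1164) (.cons (nat_lit 1290) Uxp15n1112 (.cons (nat_lit 1289) Uxp15n308 .nil)) .nil)) .nil)
def Uxp15n1442 : PT := (.cons (nat_lit 1028) (.cons (nat_lit 1153) (.cons (nat_lit 1155) (.cons (nat_lit 5) .nil .nil) (.cons (nat_lit 1172) (.cons (nat_lit 1298) Uxp15n308 .nil) .nil)) Uxp15n1440) .nil)
def Uxp15n1452 : PT := (.cons (nat_lit 1156) (.cons (nat_lit 1286) (.cons (nat_lit 42243) Uxp15n1344 .nil) (.cons (nat_lit 1290) Uxp15n1218 (.cons (nat_lit 1289) (.cons (nat_lit 1292) Uxp15n1233 .nil) .nil))) .nil)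
def Uxp15n1460 : PT := (.cons (nat_lit 1540) (.cons (nat_lit 1665) (.cons (nat_lit 1667) (.cons (nat_lit 5) .nil .nil) .nil) (.cons (nat_lit 1674) (.cons (nat_lit 1667) (.cons (nat_lit 5) .nil .nil) .nil) .nil)) .nil)
def Uxp15n1466 : PT := (.cons (nat_lit 1540) (.cons (nat_lit 1665) (.cons (nat_lit 1668) (.cons (nat_lit 1798) (.cons (nat_lit 42755) Uxp15n1166 .nil) .nil) .nil) .nil) .nil)
def Uxp15n1472 : PT := (.cons (nat_lit 1290) (.cons (nat_lit 1284) (.cons (nat_lit 1409) (.cons (nat_lit 1412) (.cons (nat_lit 1542) (.cons (nat_lit 42499) Uxp15n1460 .nil) (.cons (nat_lit 1546) Uxp15n1466 .nil)) .nil) Uxp15n1233) .nil) .nil)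
def Uxp15n1476 : PT := (.cons (nat_lit 1036) (.cons (nat_lit 1162) Uxp15n1452 (.cons (nat_lit 1161) (.cons (nat_lit 1164) Uxp15n1472 .nil) .nil)) .nil)
def Uxp15n1497 : PT := (.cons (nat_lit 918) (.cons (nat_lit 916) (.cons (nat_lit 1042) (.cons (nat_lit 1036) (.cons (nat_lit 1166) (.cons (nat_lit 1164) (.cons (nat_lit 1294) (.cons (nat_lit 1292) (.cons (nat_lit 1418) (.cons (nat_lit 58755) (.cons (nat_lit 1284) (.cons (nat_lit 1542) (.cons (nat_lit 75267) (.cons (nat_lit 1540) (.cons (nat_lit 1670) (.cons (nat_lit 1667) (.cons (nat_lit 42627) (.cons (nat_lit 5) .nil .nil) .nil) (.cons (nat_lit 42635) (.cons (nat_lit 1676) (.cons (nat_lit 1802) Uxp15n1166 (.cons (nat_lit 1801) Uxp15n281 .nil)) .nil) .nil)) .nil) .nil) .nil) .nil) .nil) .nil) .nil) .nil) .nil) .nil) .nil) .nil) .nil) .nil) .nil)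
def Uxp15n1504 : PT := (.cons (nat_lit 1546) Uxp15n1466 (.cons (nat_lit 1545) (.cons (nat_lit 1548) (.cons (nat_lit 1674) (.cons (nat_lit 1668) (.cons (nat_lit 1798) (.cons (nat_lit 42755) Uxp15n1166 .nil) .nil) .nil) .nil) .nil) .nil))
def Uxp15n1517 : PT := (.cons (nat_lit 1796) (.cons (nat_lit 1921) (.cons (nat_lit 1923) (.cons (nat_lit 5) .nil .nil) .nil) (.cons (nat_lit 1930) (.cons (nat_lit 1923) (.cons (nat_lit 5) .nil .nil) .nil) .nil)) .nil)
def Uxp15n1541 : PT := (.cons (nat_lit 930) (.cons (nat_lit 924) (.cons (nat_lit 1049) (.cons (nat_lit 1051) (.cons (nat_lit 796) (.cons (nat_lit 1178) Uxp15n534 .nil) .nil) .nil) .nil) .nil) .nil)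
def Uxp15n1560 : PT := (.cons (nat_lit 1155) (.cons (nat_lit 33923) (.cons (nat_lit 5) .nil .nil) .nil) (.cons (nat_lit 33931) (.cons (nat_lit 1164) (.cons (nat_lit 1289) Uxp15n308 (.cons (nat_lit 1290) Uxp15n1112 .nil)) .nil) .nil))
def Uxp15n1566 : PT := (.cons (nat_lit 1162) (.cons (nat_lit 1156) (.cons (nat_lit 1281) Uxp15n75 .nil) .nil) (.cons (nat_lit 1161) (.cons (nat_lit 1164) (.cons (nat_lit 1290) Uxp15n75 .nil) .nil) .nil))
def Uxp15n1575 : PT := (.cons (nat_lit 33931) (.cons (nat_lit 1164) (.cons (nat_lit 1290) Uxp15n1112 (.cons (nat_lit 1289) Uxp15n308 .nil)) .nil) .nil)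
def Uxp15n1578 : PT := (.cons (nat_lit 1028) (.cons (nat_lit 1158) (.cons (nat_lit 1155) (.cons (nat_lit 33923) (.cons (nat_lit 5) .nil .nil) .nil) Uxp15n1575) Uxp15n1566) .nil)
def Uxp15n1587 : PT := (.cons (nat_lit 1162) (.cons (nat_lit 1156) (.cons (nat_lit 1281) (.cons (nat_lit 1284) (.cons (nat_lit 1414) (.cons (nat_lit 1411) (.cons (nat_lit 34179) (.cons (nat_lit 5) .nil .nil) .nil) (.cons (nat_lit 34187) (.cons (nat_lit 1420) (.cons (nat_lit 1545) Uxp15n103 (.cons (nat_lit 1546) Uxp15n1213 .nil)) .nil) .nil)) (.cons (nat_lit 1418) (.cons (nat_lit 1412) (.cons (nat_lit 1537) Uxp15n344 .nil) .nil) .nil)) .nil) (.cons (nat_lit 1290) Uxp15n75 .nil)) .nil) .nil)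
def Uxp15n1624 : PT := (.cons (nat_lit 34187) (.cons (nat_lit 1420) (.cons (nat_lit 1546) Uxp15n1213 (.cons (nat_lit 1545) Uxp15n103 .nil)) .nil) .nil)
def Uxp15n1644 : PT := (.cons (nat_lit 1667) (.cons (nat_lit 5) .nil .nil) (.cons (nat_lit 1676) (.cons (nat_lit 1802) Uxp15n1166 (.cons (nat_lit 1801) Uxp15n281 .nil)) .nil))
def Uxp15n1691 : PT := (.cons (nat_lit 529) (.cons (nat_lit 532) (.cons (nat_lit 658) (.cons (nat_lit 652) (.cons (nat_lit 778) (.cons (nat_lit 771) (.cons (nat_lit 5) .nil .nil) (.cons (nat_lit 780) (.cons (nat_lit 906) (.cons (nat_lit 900) (.cons (nat_lit 1025) (.cons (nat_lit 1027) (.cons (nat_lit 5) .nil .nil) .nil) (.cons (nat_lit 1034) (.cons (nat_lit 1027) (.cons (nat_lit 5) .nil .nil) .nil) .nil)) .nil) Uxp15n1301) .nil)) (.cons (nat_lit 785) (.cons (nat_lit 788) (.cons (nat_lit 914) (.cons (nat_lit 908) (.cons (nat_lit 1034) Uxp15n1298 (.cons (nat_lit 1041) Uxp15n1314 Uxp15n1339))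 .nil) (.cons (nat_lit 918) (.cons (nat_lit 916) (.cons (nat_lit 1042) (.cons (nat_lit 1036) (.cons (nat_lit 1162) (.cons (nat_lit 1156) (.cons (nat_lit 1286) (.cons (nat_lit 58627) Uxp15n1344 .nil) Uxp15n1354) .nil) (.cons (nat_lit 1169) (.cons (nat_lit 1172) (.cons (nat_lit 1298) Uxp15n1366 .nil) .nil) Uxp15n188)) .nil) Uxp15n1405) .nil) .nil)) .nil) (.cons (nat_lit 790) (.cons (nat_lit 788) (.cons (nat_lit 914) Uxp15n1185 (.cons (nat_lit 913) Uxp15n1422 (.cons (nat_lit 918) (.cons (nat_lit 916) (.cons (nat_lit 1041) (.cons (nat_lit 1043) (.cons (nat_lit 916) (.cons (nat_lit 1169) Uxp15n1137 (.cons (nat_lit 1178) Uxp15n1137 .nil)) .nil) (.cons (nat_lit 1052) (.cons (nat_lit 1182) Uxp15n642 .nil) .nil)) .nil) .nil) .nil))) .nil) .nil))) .nil) (.cons (nat_lit 662) (.cons (nat_lit 660) (.cons (nat_lit 786) (.cons (nat_lit 780) (.cons (nat_lit 906) (.cons (nat_lit 900) (.cons (nat_lit 1030) (.cons (nat_lit 41987)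 Uxp15n1442 .nil) (.cons (nat_lit 1034) (.cons (nat_lit 1028) (.cons (nat_lit 1153) (.cons (nat_lit 1156) (.cons (nat_lit 1286) (.cons (nat_lit 42243) Uxp15n1344 .nil) (.cons (nat_lit 1290) Uxp15n1218 .nil)) .nil) Uxp15n1206) .nil) (.cons (nat_lit 1033) (.cons (nat_lit 1036) (.cons (nat_lit 1162) Uxp15n1452 .nil) .nil) .nil))) .nil) (.cons (nat_lit 913) (.cons (nat_lit 916) (.cons (nat_lit 1042) Uxp15n1476 .nil) .nil) Uxp15n1497)) .nil) (.cons (nat_lit 785) (.cons (nat_lit 788) (.cons (nat_lit 922) (.cons (nat_lit 916) (.cons (nat_lit 1042) Uxp15n1476 (.cons (nat_lit 1041) (.cons (nat_lit 1044) (.cons (nat_lit 1170) (.cons (nat_lit 1164) (.cons (nat_lit 1289) (.cons (nat_lit 1292) (.cons (nat_lit 1418) (.cons (nat_lit 1412) (.cons (nat_lit 1542) (.cons (nat_lit 42499) Uxp15n1460 .nil) Uxp15n1504) .nil) .nil) .nil) Uxp15n1472) .nil) .nil) .nil) .nil)) .nil) (.cons (nat_lit 918) (.cons (nat_lit 916) (.cons (nat_lit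 1042) (.cons (nat_lit 1036) (.cons (nat_lit 1166) (.cons (nat_lit 1164) (.cons (nat_lit 1294) (.cons (nat_lit 1292) (.cons (nat_lit 1418) (.cons (nat_lit 58755) (.cons (nat_lit 1284) (.cons (nat_lit 1542) (.cons (nat_lit 75267) (.cons (nat_lit 1540) (.cons (nat_lit 1670) (.cons (nat_lit 1667) (.cons (nat_lit 42627) (.cons (nat_lit 5) .nil .nil) .nil) (.cons (nat_lit 42635) (.cons (nat_lit 1676) (.cons (nat_lit 1802) Uxp15n1517 .nil) .nil) .nil)) .nil) .nil) .nil) .nil) .nil) .nil) .nil) .nil) .nil) .nil) .nil) .nil) .nil) .nil) .nil)) .nil) (.cons (nat_lit 798) (.cons (nat_lit 795) (.cons (nat_lit 796) (.cons (nat_lit 922) Uxp15n28 .nil) .nil) (.cons (nat_lit 804) (.cons (nat_lit 929) Uxp15n736 Uxp15n1541) .nil)) .nil))) .nil) .nil)) .nil) (.cons (nat_lit 534) (.cons (nat_lit 532) (.cons (nat_lit 658) (.cons (nat_lit 652) (.cons (nat_lit 778) (.cons (nat_lit 772) (.cons (nat_lit 902) (.cons (nat_lit 899) (.cons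 (nat_lit 33667) (.cons (nat_lit 5) .nil .nil) .nil) (.cons (nat_lit 33675) (.cons (nat_lit 908) (.cons (nat_lit 1033) (.cons (nat_lit 1036) (.cons (nat_lit 1162) Uxp15n655 .nil) .nil) (.cons (nat_lit 1034) Uxp15n1199 .nil)) .nil) .nil)) (.cons (nat_lit 906) (.cons (nat_lit 900) (.cons (nat_lit 1025) (.cons (nat_lit 1028) (.cons (nat_lit 1158) Uxp15n1560 (.cons (nat_lit 1162) (.cons (nat_lit 1156) (.cons (nat_lit 1281) Uxp15n75 .nil) .nil) .nil)) .nil) (.cons (nat_lit 1034) Uxp15n63 .nil)) .nil) (.cons (nat_lit 905) (.cons (nat_lit 908) (.cons (nat_lit 1034) (.cons (nat_lit 1028) (.cons (nat_lit 1158) Uxp15n1560 Uxp15n1566) .nil) .nil) .nil) .nil))) .nil) (.cons (nat_lit 785) (.cons (nat_lit 788) (.cons (nat_lit 914) (.cons (nat_lit 908) (.cons (nat_lit 1034) Uxp15n1578 (.cons (nat_lit 1033) (.cons (nat_lit 1036) Uxp15n1587 .nil) .nil)) .nil) .nil) .nil) (.cons (nat_lit 790) (.cons (nat_lit 788) (.cons (nat_lit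 914) (.cons (nat_lit 908) (.cons (nat_lit 1038) (.cons (nat_lit 1036) (.cons (nat_lit 1166) (.cons (nat_lit 1164) (.cons (nat_lit 1290) (.cons (nat_lit 50435) (.cons (nat_lit 1156) (.cons (nat_lit 1414) (.cons (nat_lit 66947) (.cons (nat_lit 1412) (.cons (nat_lit 1542) (.cons (nat_lit 34307) Uxp15n1460 .nil) .nil) .nil) .nil) .nil) .nil) .nil) .nil) .nil) .nil) .nil) .nil) .nil) .nil) .nil) .nil))) .nil) (.cons (nat_lit 657) (.cons (nat_lit 660) (.cons (nat_lit 786) (.cons (nat_lit 780) (.cons (nat_lit 906) (.cons (nat_lit 900) (.cons (nat_lit 1025) (.cons (nat_lit 1028) (.cons (nat_lit 1158) (.cons (nat_lit 1155) (.cons (nat_lit 33923) (.cons (nat_lit 5) .nil .nil) .nil) (.cons (nat_lit 33931) (.cons (nat_lit 1164) (.cons (nat_lit 1290) Uxp15n1344 .nil) .nil) .nil)) Uxp15n1587) .nil) (.cons (nat_lit 1034) Uxp15n1578 .nil)) .nil) (.cons (nat_lit 913) (.cons (nat_lit 916) (.cons (nat_lit 1042) (.cons (nat_lit 1036)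 (.cons (nat_lit 1162) (.cons (nat_lit 1156) (.cons (nat_lit 1281) (.cons (nat_lit 1284) (.cons (nat_lit 1414) (.cons (nat_lit 1411) (.cons (nat_lit 34179) (.cons (nat_lit 5) .nil .nil) .nil) Uxp15n1624) (.cons (nat_lit 1418) (.cons (nat_lit 1412) (.cons (nat_lit 1537) Uxp15n344 .nil) .nil) .nil)) .nil) (.cons (nat_lit 1290) Uxp15n75 .nil)) .nil) (.cons (nat_lit 1161) (.cons (nat_lit 1164) (.cons (nat_lit 1290) (.cons (nat_lit 1284) (.cons (nat_lit 1414) (.cons (nat_lit 1411) (.cons (nat_lit 34179) (.cons (nat_lit 5) .nil .nil) .nil) Uxp15n1624) (.cons (nat_lit 1418) (.cons (nat_lit 1412) (.cons (nat_lit 1537) Uxp15n344 .nil) .nil) (.cons (nat_lit 1417) (.cons (nat_lit 1420) (.cons (nat_lit 1546) Uxp15n344 .nil) .nil) .nil))) .nil) .nil) .nil) .nil)) .nil) .nil) .nil) .nil)) .nil) (.cons (nat_lit 798) (.cons (nat_lit 796) (.cons (nat_lit 922) (.cons (nat_lit 916) (.cons (nat_lit 1046) (.cons (nat_lit 1044) (.cons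 (nat_lit 1174) (.cons (nat_lit 1172) (.cons (nat_lit 1298) (.cons (nat_lit 50443) (.cons (nat_lit 1164) (.cons (nat_lit 1422) (.cons (nat_lit 66955) (.cons (nat_lit 1420) (.cons (nat_lit 1550) (.cons (nat_lit 34315) (.cons (nat_lit 1548) (.cons (nat_lit 1674) Uxp15n1644 .nil) .nil) .nil) .nil) .nil) .nil) .nil) .nil) .nil) .nil) .nil) .nil) .nil) .nil) .nil) .nil) .nil) .nil)) .nil) (.cons (nat_lit 662) (.cons (nat_lit 660) (.cons (nat_lit 785) (.cons (nat_lit 787) (.cons (nat_lit 660) (.cons (nat_lit 913) Uxp15n386 (.cons (nat_lit 922) Uxp15n386 .nil)) .nil) (.cons (nat_lit 796) (.cons (nat_lit 926) (.cons (nat_lit 924) (.cons (nat_lit 1050) (.cons (nat_lit 1044) (.cons (nat_lit 1174) (.cons (nat_lit 1172) (.cons (nat_lit 1302) (.cons (nat_lit 34067) (.cons (nat_lit 1300) (.cons (nat_lit 1430) (.cons (nat_lit 75155) (.cons (nat_lit 1428) (.cons (nat_lit 1554) (.cons (nat_lit 58891) (.cons (nat_lit 652) (.cons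 (nat_lit 1674) Uxp15n800 .nil) .nil) .nil) .nil) .nil) .nil) .nil) .nil) .nil) .nil) .nil) .nil) .nil) .nil) .nil) Uxp15n835) .nil)) Uxp15n390) .nil) .nil))) .nil) .nil))
def Uxp15n1708 : PT := (.cons (nat_lit 1284) (.cons (nat_lit 1409) (.cons (nat_lit 1411) (.cons (nat_lit 5) .nil .nil) (.cons (nat_lit 1420) (.cons (nat_lit 1546) Uxp15n1213 .nil) .nil)) (.cons (nat_lit 1418) (.cons (nat_lit 1411) (.cons (nat_lit 5) .nil .nil) .nil) .nil)) .nil)
def Uxp15n1713 : PT := (.cons (nat_lit 1036) (.cons (nat_lit 1162) (.cons (nat_lit 1156) (.cons (nat_lit 1286) (.cons (nat_lit 58627) Uxp15n1708 .nil) Uxp15n1354) .nil) (.cons (nat_lit 1169) (.cons (nat_lit 1172) (.cons (nat_lit 1298) Uxp15n1366 .nil) .nil) Uxp15n188)) .nil)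
def Uxp15n1727 : PT := (.cons (nat_lit 1428) (.cons (nat_lit 1558) (.cons (nat_lit 1556) (.cons (nat_lit 1682) (.cons (nat_lit 1676) (.cons (nat_lit 1806) (.cons (nat_lit 1804) (.cons (nat_lit 1934) (.cons (nat_lit 51083) Uxp15n1320 .nil) .nil) .nil) .nil) .nil) .nil) .nil) .nil) .nil)
def Uxp15n1749 : PT := (.cons (nat_lit 1412) (.cons (nat_lit 1537) (.cons (nat_lit 1539) (.cons (nat_lit 5) .nil .nil) .nil) .nil) .nil)
def Uxp15n1754 : PT := (.cons (nat_lit 1156) (.cons (nat_lit 1281) (.cons (nat_lit 1283) (.cons (nat_lit 5) .nil .nil) (.cons (nat_lit 1292) (.cons (nat_lit 1418) Uxp15n1749 .nil) .nil)) (.cons (nat_lit 1290) (.cons (nat_lit 1283) (.cons (nat_lit 5) .nil .nil) .nil) .nil)) .nil)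
def Uxp15n1808 : PT := (.cons (nat_lit 1796) (.cons (nat_lit 1926) (.cons (nat_lit 1923) (.cons (nat_lit 67459) (.cons (nat_lit 5) .nil .nil) .nil) .nil) .nil) .nil)
def Uxp15n1815 : PT := (.cons (nat_lit 1420) (.cons (nat_lit 1546) Uxp15n592 (.cons (nat_lit 1545) (.cons (nat_lit 1548) (.cons (nat_lit 1674) (.cons (nat_lit 1668) (.cons (nat_lit 1793) Uxp15n1808 .nil) .nil) .nil) .nil) .nil)) .nil)
def Uxp15n1847 : PT := (.cons (nat_lit 2060) (.cons (nat_lit 2186) (.cons (nat_lit 2179) (.cons (nat_lit 5) .nil .nil) .nil) .nil) .nil)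
def Uxp15n1926 : PT := (.cons (nat_lit 905) (.cons (nat_lit 908) (.cons (nat_lit 1034) (.cons (nat_lit 1027) (.cons (nat_lit 5) .nil .nil) (.cons (nat_lit 1036) (.cons (nat_lit 1162) Uxp15n1754 (.cons (nat_lit 1161) (.cons (nat_lit 1164) (.cons (nat_lit 1290) (.cons (nat_lit 1283) (.cons (nat_lit 5) .nil .nil) (.cons (nat_lit 1292) (.cons (nat_lit 1418) Uxp15n1749 (.cons (nat_lit 1417) (.cons (nat_lit 1420) (.cons (nat_lit 1546) (.cons (nat_lit 1539) (.cons (nat_lit 5) .nil .nil) .nil) .nil) .nil) .nil)) .nil)) (.cons (nat_lit 1302) (.cons (nat_lit 1300) (.cons (nat_lit 1426) (.cons (nat_lit 1420) (.cons (nat_lit 1546) (.cons (nat_lit 1540) (.cons (nat_lit 1670) (.cons (nat_lit 1667) (.cons (nat_lit 83587) (.cons (nat_lit 5) .nil .nil) .nil) .nil) .nil) .nil) .nil) .nil) .nil) .nil) .nil)) .nil) (.cons (nat_lit 1174) (.cons (nat_lit 1172) (.cons (nat_lit 1298) Uxp15n1309 (.cons (nat_lit 1302) (.cons (nat_lit 1299)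 (.cons (nat_lit 1300) (.cons (nat_lit 1425) (.cons (nat_lit 1428) (.cons (nat_lit 1558) (.cons (nat_lit 1556) (.cons (nat_lit 1682) (.cons (nat_lit 1676) (.cons (nat_lit 1806) (.cons (nat_lit 1804) (.cons (nat_lit 1934) (.cons (nat_lit 75659) Uxp15n1320 .nil) .nil) .nil) .nil) .nil) .nil) .nil) .nil) .nil) .nil) .nil) .nil) Uxp15n585)) .nil) .nil))) .nil)) (.cons (nat_lit 1046) (.cons (nat_lit 1044) (.cons (nat_lit 1170) (.cons (nat_lit 1164) (.cons (nat_lit 1290) (.cons (nat_lit 1284) (.cons (nat_lit 1414) (.cons (nat_lit 1411) (.cons (nat_lit 66947) (.cons (nat_lit 5) .nil .nil) .nil) (.cons (nat_lit 66955) (.cons (nat_lit 1420) (.cons (nat_lit 1546) Uxp15n1213 (.cons (nat_lit 1545) Uxp15n103 .nil)) .nil) .nil)) (.cons (nat_lit 1418) (.cons (nat_lit 1412) (.cons (nat_lit 1537) Uxp15n592 .nil) .nil) (.cons (nat_lit 1417) (.cons (nat_lit 1420) (.cons (nat_lit 1546) Uxp15n592 .nil) .nil) .nil))) .nil) (.cons (nat_lit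 1297) (.cons (nat_lit 1300) (.cons (nat_lit 1426) Uxp15n1815 .nil) .nil) (.cons (nat_lit 1302) (.cons (nat_lit 1300) (.cons (nat_lit 1426) (.cons (nat_lit 1420) (.cons (nat_lit 1550) (.cons (nat_lit 1548) (.cons (nat_lit 1678) (.cons (nat_lit 1676) (.cons (nat_lit 1802) (.cons (nat_lit 83715) (.cons (nat_lit 1668) (.cons (nat_lit 1926) (.cons (nat_lit 100227) (.cons (nat_lit 1924) (.cons (nat_lit 2054) (.cons (nat_lit 67587) Uxp15n1383 .nil) .nil) .nil) .nil) .nil) .nil) .nil) .nil) .nil) .nil) .nil) .nil) .nil) .nil) .nil) .nil))) .nil) (.cons (nat_lit 1177) (.cons (nat_lit 1180) (.cons (nat_lit 1306) (.cons (nat_lit 1300) (.cons (nat_lit 1426) Uxp15n1815 (.cons (nat_lit 1425) (.cons (nat_lit 1428) (.cons (nat_lit 1554) (.cons (nat_lit 1548) (.cons (nat_lit 1673) (.cons (nat_lit 1676) (.cons (nat_lit 1802) Uxp15n1808 .nil) .nil) (.cons (nat_lit 1674) (.cons (nat_lit 1668) (.cons (nat_lit 1793) Uxp15n1808 .nil)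 .nil) .nil)) .nil) .nil) .nil) .nil)) .nil) (.cons (nat_lit 1310) (.cons (nat_lit 1308) (.cons (nat_lit 1434) (.cons (nat_lit 1428) (.cons (nat_lit 1558) (.cons (nat_lit 1556) (.cons (nat_lit 1686) (.cons (nat_lit 1684) (.cons (nat_lit 1810) (.cons (nat_lit 83723) (.cons (nat_lit 1676) (.cons (nat_lit 1934) (.cons (nat_lit 100235) (.cons (nat_lit 1932) (.cons (nat_lit 2062) (.cons (nat_lit 67595) Uxp15n1847 .nil) .nil) .nil) .nil) .nil) .nil) .nil) .nil) .nil) .nil) .nil) .nil) .nil) .nil) .nil) .nil)) .nil) (.cons (nat_lit 1182) (.cons (nat_lit 1180) (.cons (nat_lit 1305) (.cons (nat_lit 1307) (.cons (nat_lit 1180) (.cons (nat_lit 1434) Uxp15n1329 .nil) .nil) .nil) .nil) .nil) .nil))) .nil) .nil)) .nil) (.cons (nat_lit 918) (.cons (nat_lit 916) (.cons (nat_lit 1042) Uxp15n1713 (.cons (nat_lit 1041) (.cons (nat_lit 1044) (.cons (nat_lit 1178) (.cons (nat_lit 1172) (.cons (nat_lit 1298) (.cons (nat_lit 1292) (.cons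 (nat_lit 1417) (.cons (nat_lit 1420) (.cons (nat_lit 1550) (.cons (nat_lit 58891) Uxp15n103 .nil) Uxp15n1362) .nil) Uxp15n1351) .nil) Uxp15n1378) .nil) Uxp15n1402) .nil) (.cons (nat_lit 1046) (.cons (nat_lit 1043) (.cons (nat_lit 1044) (.cons (nat_lit 1169) Uxp15n237 (.cons (nat_lit 1178) Uxp15n237 .nil)) .nil) (.cons (nat_lit 1052) (.cons (nat_lit 1177) (.cons (nat_lit 1180) (.cons (nat_lit 1306) (.cons (nat_lit 1299) (.cons (nat_lit 1044) (.cons (nat_lit 1425) (.cons (nat_lit 1428) (.cons (nat_lit 1558) (.cons (nat_lit 1556) (.cons (nat_lit 1682) (.cons (nat_lit 1676) (.cons (nat_lit 1806) (.cons (nat_lit 1804) (.cons (nat_lit 1934) (.cons (nat_lit 59275) Uxp15n1320 .nil) .nil) .nil) .nil) .nil) .nil) .nil) .nil) .nil) .nil) .nil) .nil) (.cons (nat_lit 1310) (.cons (nat_lit 1308) (.cons (nat_lit 1434) (.cons (nat_lit 1428) (.cons (nat_lit 1558) (.cons (nat_lit 1556) (.cons (nat_lit 1686) (.cons (nat_lit 59027)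 (.cons (nat_lit 1684) (.cons (nat_lit 1814) (.cons (nat_lit 100115) (.cons (nat_lit 1812) (.cons (nat_lit 1938) (.cons (nat_lit 83851) (.cons (nat_lit 1036) (.cons (nat_lit 2058) Uxp15n1383 .nil) .nil) .nil) .nil) .nil) .nil) .nil) .nil) .nil) .nil) .nil) .nil) .nil) .nil) .nil) .nil)) .nil) .nil) .nil)) .nil))) .nil) .nil))
def Uxp15n1931 : PT := (.cons (nat_lit 1292) (.cons (nat_lit 1418) (.cons (nat_lit 1411) (.cons (nat_lit 5) .nil .nil) (.cons (nat_lit 1420) (.cons (nat_lit 1546) Uxp15n1213 (.cons (nat_lit 1545) Uxp15n103 .nil)) .nil)) .nil) .nil)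
def Uxp15n1938 : PT := (.cons (nat_lit 1411) (.cons (nat_lit 50563) (.cons (nat_lit 5) .nil .nil) .nil) (.cons (nat_lit 50571) (.cons (nat_lit 1420) (.cons (nat_lit 1545) Uxp15n103 (.cons (nat_lit 1546) Uxp15n1213 .nil)) .nil) .nil))
def Uxp15n1962 : PT := (.cons (nat_lit 1796) (.cons (nat_lit 1926) (.cons (nat_lit 1923) (.cons (nat_lit 51075) (.cons (nat_lit 5) .nil .nil) .nil) .nil) .nil) .nil)
def Uxp15n1974 : PT := (.cons (nat_lit 1164) (.cons (nat_lit 1290) (.cons (nat_lit 1284) (.cons (nat_lit 1414) (.cons (nat_lit 1411) (.cons (nat_lit 50563) (.cons (nat_lit 5) .nil .nil) .nil) (.cons (nat_lit 50571) (.cons (nat_lit 1420) (.cons (nat_lit 1546) Uxp15n1213 (.cons (nat_lit 1545) Uxp15n103 .nil)) .nil) .nil)) Uxp15n272) .nil) (.cons (nat_lit 1289) (.cons (nat_lit 1292) (.cons (nat_lit 1418) (.cons (nat_lit 1412) (.cons (nat_lit 1537) (.cons (nat_lit 1540) (.cons (nat_lit 1670) (.cons (nat_lit 1667) (.cons (nat_lit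 50819) (.cons (nat_lit 5) .nil .nil) .nil) (.cons (nat_lit 50827) (.cons (nat_lit 1676) (.cons (nat_lit 1801) Uxp15n281 (.cons (nat_lit 1802) Uxp15n1166 .nil)) .nil) .nil)) (.cons (nat_lit 1674) (.cons (nat_lit 1668) (.cons (nat_lit 1793) Uxp15n1962 .nil) .nil) .nil)) .nil) (.cons (nat_lit 1546) Uxp15n257 .nil)) .nil) .nil) .nil) .nil)) .nil)
def Uxp15n1979 : PT := (.cons (nat_lit 1796) (.cons (nat_lit 1921) (.cons (nat_lit 1923) (.cons (nat_lit 5) .nil .nil) (.cons (nat_lit 1932) (.cons (nat_lit 2058) Uxp15n1383 .nil) .nil)) (.cons (nat_lit 1930) (.cons (nat_lit 1923) (.cons (nat_lit 5) .nil .nil) .nil) .nil)) .nil)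
def Uxp15n2000 : PT := (.cons (nat_lit 1667) (.cons (nat_lit 50819) (.cons (nat_lit 5) .nil .nil) .nil) (.cons (nat_lit 50827) (.cons (nat_lit 1676) (.cons (nat_lit 1802) Uxp15n1166 (.cons (nat_lit 1801) Uxp15n281 .nil)) .nil) .nil))
def Uxp15n2025 : PT := (.cons (nat_lit 1804) (.cons (nat_lit 1930) (.cons (nat_lit 1923) (.cons (nat_lit 5) .nil .nil) (.cons (nat_lit 1932) (.cons (nat_lit 2058) Uxp15n1383 (.cons (nat_lit 2057) Uxp15n1847 .nil)) .nil)) .nil) .nil)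
def Uxp15n2072 : PT := (.cons (nat_lit 1156) (.cons (nat_lit 1286) (.cons (nat_lit 42243) Uxp15n1708 .nil) (.cons (nat_lit 1290) Uxp15n1218 (.cons (nat_lit 1289) (.cons (nat_lit 1292) Uxp15n1233 .nil) .nil))) .nil)
def Uxp15n2082 : PT := (.cons (nat_lit 42499) (.cons (nat_lit 1540) (.cons (nat_lit 1665) (.cons (nat_lit 1667) (.cons (nat_lit 5) .nil .nil) (.cons (nat_lit 1676) (.cons (nat_lit 1802) Uxp15n1166 .nil) .nil)) (.cons (nat_lit 1674) (.cons (nat_lit 1667) (.cons (nat_lit 5) .nil .nil) .nil) .nil)) .nil) .nil)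
def Uxp15n2086 : PT := (.cons (nat_lit 1284) (.cons (nat_lit 1409) (.cons (nat_lit 1412) (.cons (nat_lit 1542) Uxp15n2082 (.cons (nat_lit 1546) Uxp15n1466 .nil)) .nil) Uxp15n1233) .nil)
def Uxp15n2148 : PT := (.cons (nat_lit 1299) (.cons (nat_lit 788) (.cons (nat_lit 1425) (.cons (nat_lit 1428) (.cons (nat_lit 1558) (.cons (nat_lit 1556) (.cons (nat_lit 1682) (.cons (nat_lit 1676) (.cons (nat_lit 1806) (.cons (nat_lit 1804) (.cons (nat_lit 1934) (.cons (nat_lit 42891) Uxp15n1320 .nil) .nil) .nil) .nil) .nil) .nil) .nil) .nil) .nil) .nil) .nil) .nil)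
def Uxp15n2182 : PT := (.cons (nat_lit 657) (.cons (nat_lit 660) (.cons (nat_lit 786) (.cons (nat_lit 780) (.cons (nat_lit 906) (.cons (nat_lit 900) (.cons (nat_lit 1025) (.cons (nat_lit 1027) (.cons (nat_lit 5) .nil .nil) (.cons (nat_lit 1036) (.cons (nat_lit 1162) Uxp15n1754 (.cons (nat_lit 1174) (.cons (nat_lit 1172) (.cons (nat_lit 1298) Uxp15n1309 Uxp15n585) .nil) .nil)) .nil)) (.cons (nat_lit 1034) Uxp15n1298 Uxp15n1339)) .nil) Uxp15n1926) .nil) (.cons (nat_lit 790) (.cons (nat_lit 788) (.cons (nat_lit 914) (.cons (nat_lit 908) (.cons (nat_lit 1034) (.cons (nat_lit 1028) (.cons (nat_lit 1158) (.cons (nat_lit 1155) (.cons (nat_lit 50307) (.cons (nat_lit 5) .nil .nil) .nil) (.cons (nat_lit 50315) (.cons (nat_lit 1164) (.cons (nat_lit 1290) Uxp15n1708 (.cons (nat_lit 1289) Uxp15n1931 .nil)) .nil) .nil)) (.cons (nat_lit 1162) (.cons (nat_lit 1156) (.cons (nat_lit 1281) (.cons (nat_lit 1284) (.cons (nat_lit 1414)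 Uxp15n1938 (.cons (nat_lit 1418) (.cons (nat_lit 1412) (.cons (nat_lit 1537) Uxp15n257 .nil) .nil) .nil)) .nil) (.cons (nat_lit 1290) Uxp15n162 .nil)) .nil) (.cons (nat_lit 1161) (.cons (nat_lit 1164) (.cons (nat_lit 1290) (.cons (nat_lit 1284) (.cons (nat_lit 1414) Uxp15n1938 Uxp15n272) .nil) .nil) .nil) .nil))) .nil) (.cons (nat_lit 1041) (.cons (nat_lit 1044) (.cons (nat_lit 1170) Uxp15n1974 .nil) .nil) (.cons (nat_lit 1046) (.cons (nat_lit 1044) (.cons (nat_lit 1170) (.cons (nat_lit 1164) (.cons (nat_lit 1294) (.cons (nat_lit 1292) (.cons (nat_lit 1422) (.cons (nat_lit 1420) (.cons (nat_lit 1546) (.cons (nat_lit 67075) (.cons (nat_lit 1412) (.cons (nat_lit 1670) (.cons (nat_lit 83587) (.cons (nat_lit 1668) (.cons (nat_lit 1798) (.cons (nat_lit 50947) Uxp15n1979 .nil) .nil) .nil) .nil) .nil) .nil) .nil) .nil) .nil) .nil) .nil) .nil) .nil) .nil) .nil) .nil))) .nil) (.cons (nat_lit 921) (.cons (nat_lit 924) (.cons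 (nat_lit 1050) (.cons (nat_lit 1044) (.cons (nat_lit 1170) Uxp15n1974 (.cons (nat_lit 1169) (.cons (nat_lit 1172) (.cons (nat_lit 1298) (.cons (nat_lit 1292) (.cons (nat_lit 1417) (.cons (nat_lit 1420) (.cons (nat_lit 1546) (.cons (nat_lit 1540) (.cons (nat_lit 1670) Uxp15n2000 (.cons (nat_lit 1673) (.cons (nat_lit 1676) (.cons (nat_lit 1802) Uxp15n1962 .nil) .nil) (.cons (nat_lit 1674) (.cons (nat_lit 1668) (.cons (nat_lit 1793) Uxp15n1962 .nil) .nil) .nil))) .nil) .nil) .nil) (.cons (nat_lit 1418) (.cons (nat_lit 1412) (.cons (nat_lit 1537) (.cons (nat_lit 1540) (.cons (nat_lit 1670) Uxp15n2000 (.cons (nat_lit 1674) (.cons (nat_lit 1668) (.cons (nat_lit 1793) Uxp15n1962 .nil) .nil) .nil)) .nil) (.cons (nat_lit 1546) Uxp15n257 .nil)) .nil) .nil)) .nil) .nil) .nil) .nil)) .nil) (.cons (nat_lit 1054) (.cons (nat_lit 1052) (.cons (nat_lit 1178) (.cons (nat_lit 1172) (.cons (nat_lit 1302) (.cons (nat_lit 1300) (.cons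 (nat_lit 1430) (.cons (nat_lit 1428) (.cons (nat_lit 1554) (.cons (nat_lit 67083) (.cons (nat_lit 1420) (.cons (nat_lit 1678) (.cons (nat_lit 83595) (.cons (nat_lit 1676) (.cons (nat_lit 1806) (.cons (nat_lit 50955) Uxp15n2025 .nil) .nil) .nil) .nil) .nil) .nil) .nil) .nil) .nil) .nil) .nil) .nil) .nil) .nil) .nil) .nil)) .nil) (.cons (nat_lit 926) (.cons (nat_lit 924) (.cons (nat_lit 1049) (.cons (nat_lit 1051) (.cons (nat_lit 924) (.cons (nat_lit 1178) Uxp15n1137 .nil) .nil) (.cons (nat_lit 1060) (.cons (nat_lit 1186) (.cons (nat_lit 1180) (.cons (nat_lit 1305) (.cons (nat_lit 1307) (.cons (nat_lit 924) (.cons (nat_lit 1434) Uxp15n1727 .nil) .nil) .nil) .nil) .nil) .nil) .nil)) (.cons (nat_lit 1058) (.cons (nat_lit 1051) (.cons (nat_lit 924) (.cons (nat_lit 1178) Uxp15n1137 .nil) .nil) .nil) .nil)) .nil) .nil))) .nil) .nil)) .nil) (.cons (nat_lit 662) (.cons (nat_lit 660) (.cons (nat_lit 786) (.cons (nat_lit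 780) (.cons (nat_lit 906) (.cons (nat_lit 900) (.cons (nat_lit 1030) (.cons (nat_lit 41987) (.cons (nat_lit 1028) (.cons (nat_lit 1153) (.cons (nat_lit 1155) (.cons (nat_lit 5) .nil .nil) (.cons (nat_lit 1164) (.cons (nat_lit 1290) Uxp15n1344 .nil) .nil)) Uxp15n1440) .nil) .nil) (.cons (nat_lit 1034) (.cons (nat_lit 1028) (.cons (nat_lit 1153) (.cons (nat_lit 1156) (.cons (nat_lit 1286) (.cons (nat_lit 42243) Uxp15n1708 .nil) (.cons (nat_lit 1290) Uxp15n1218 .nil)) .nil) Uxp15n1206) .nil) (.cons (nat_lit 1033) (.cons (nat_lit 1036) (.cons (nat_lit 1162) Uxp15n2072 .nil) .nil) .nil))) .nil) (.cons (nat_lit 913) (.cons (nat_lit 916) (.cons (nat_lit 1042) (.cons (nat_lit 1036) (.cons (nat_lit 1162) Uxp15n2072 (.cons (nat_lit 1161) (.cons (nat_lit 1164) (.cons (nat_lit 1290) Uxp15n2086 .nil) .nil) .nil)) .nil) .nil) .nil) Uxp15n1497)) .nil) (.cons (nat_lit 785) (.cons (nat_lit 788) (.cons (nat_lit 922) (.cons (nat_lit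 916) (.cons (nat_lit 1042) (.cons (nat_lit 1036) (.cons (nat_lit 1161) (.cons (nat_lit 1164) (.cons (nat_lit 1294) (.cons (nat_lit 42251) Uxp15n1931 .nil) (.cons (nat_lit 1290) Uxp15n2086 .nil)) .nil) (.cons (nat_lit 1162) Uxp15n2072 .nil)) .nil) (.cons (nat_lit 1041) (.cons (nat_lit 1044) (.cons (nat_lit 1170) (.cons (nat_lit 1164) (.cons (nat_lit 1290) Uxp15n2086 (.cons (nat_lit 1289) (.cons (nat_lit 1292) (.cons (nat_lit 1418) (.cons (nat_lit 1412) (.cons (nat_lit 1542) Uxp15n2082 Uxp15n1504) .nil) .nil) .nil) .nil)) .nil) .nil) .nil) .nil)) .nil) (.cons (nat_lit 918) (.cons (nat_lit 916) (.cons (nat_lit 1042) (.cons (nat_lit 1036) (.cons (nat_lit 1166) (.cons (nat_lit 1164) (.cons (nat_lit 1294) (.cons (nat_lit 1292) (.cons (nat_lit 1418) (.cons (nat_lit 58755) (.cons (nat_lit 1284) (.cons (nat_lit 1542) (.cons (nat_lit 75267) (.cons (nat_lit 1540) (.cons (nat_lit 1670) (.cons (nat_lit 1667) (.cons (nat_lit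 42627) (.cons (nat_lit 5) .nil .nil) .nil) (.cons (nat_lit 42635) (.cons (nat_lit 1676) (.cons (nat_lit 1802) Uxp15n1979 .nil) .nil) .nil)) .nil) .nil) .nil) .nil) .nil) .nil) .nil) .nil) .nil) .nil) .nil) .nil) .nil) .nil) .nil)) .nil) (.cons (nat_lit 790) (.cons (nat_lit 787) (.cons (nat_lit 788) (.cons (nat_lit 913) Uxp15n28 (.cons (nat_lit 922) Uxp15n28 .nil)) .nil) (.cons (nat_lit 796) (.cons (nat_lit 921) (.cons (nat_lit 924) (.cons (nat_lit 1050) (.cons (nat_lit 1043) (.cons (nat_lit 788) (.cons (nat_lit 1169) Uxp15n534 (.cons (nat_lit 1178) Uxp15n534 .nil)) .nil) (.cons (nat_lit 1052) (.cons (nat_lit 1177) (.cons (nat_lit 1180) (.cons (nat_lit 1306) Uxp15n2148 .nil) .nil) (.cons (nat_lit 1178) (.cons (nat_lit 1172) (.cons (nat_lit 1297) Uxp15n2148 .nil) .nil) .nil)) .nil)) (.cons (nat_lit 1054) (.cons (nat_lit 1052) (.cons (nat_lit 1178) (.cons (nat_lit 1172) (.cons (nat_lit 1302) (.cons (nat_lit 1300)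 (.cons (nat_lit 1430) (.cons (nat_lit 42387) (.cons (nat_lit 1428) (.cons (nat_lit 1558) (.cons (nat_lit 83475) (.cons (nat_lit 1556) (.cons (nat_lit 1682) (.cons (nat_lit 67211) (.cons (nat_lit 780) (.cons (nat_lit 1802) Uxp15n1517 .nil) .nil) .nil) .nil) .nil) .nil) .nil) .nil) .nil) .nil) .nil) .nil) .nil) .nil) .nil) .nil)) .nil) Uxp15n1541) .nil)) .nil))) .nil) .nil))
def Uxp15n2199 : PT := (.cons (nat_lit 33931) (.cons (nat_lit 1164) (.cons (nat_lit 1289) (.cons (nat_lit 1292) (.cons (nat_lit 1418) (.cons (nat_lit 1411) (.cons (nat_lit 5) .nil .nil) (.cons (nat_lit 1420) (.cons (nat_lit 1545) Uxp15n103 (.cons (nat_lit 1546) Uxp15n1213 .nil)) .nil)) .nil) .nil) (.cons (nat_lit 1290) Uxp15n1344 .nil)) .nil) .nil)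
def Uxp15n2204 : PT := (.cons (nat_lit 1170) (.cons (nat_lit 1164) (.cons (nat_lit 1289) (.cons (nat_lit 1292) (.cons (nat_lit 1422) Uxp15n1624 .nil) .nil) .nil) .nil) .nil)
def Uxp15n2214 : PT := (.cons (nat_lit 1169) (.cons (nat_lit 1172) (.cons (nat_lit 1298) (.cons (nat_lit 1292) (.cons (nat_lit 1422) Uxp15n1624 .nil) .nil) .nil) .nil) Uxp15n2204)
def Uxp15n2225 : PT := (.cons (nat_lit 1036) (.cons (nat_lit 1166) (.cons (nat_lit 33931) (.cons (nat_lit 1164) (.cons (nat_lit 1290) Uxp15n1344 (.cons (nat_lit 1289) Uxp15n1931 .nil)) .nil) .nil) Uxp15n2214) .nil)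
def Uxp15n2228 : PT := (.cons (nat_lit 1548) (.cons (nat_lit 1674) (.cons (nat_lit 1667) (.cons (nat_lit 5) .nil .nil) (.cons (nat_lit 1676) (.cons (nat_lit 1801) Uxp15n281 (.cons (nat_lit 1802) Uxp15n1166 .nil)) .nil)) .nil) .nil)
def Uxp15n2235 : PT := (.cons (nat_lit 1548) (.cons (nat_lit 1678) (.cons (nat_lit 34443) (.cons (nat_lit 1676) (.cons (nat_lit 1802) Uxp15n1166 (.cons (nat_lit 1801) Uxp15n281 .nil)) .nil) .nil) .nil) .nil)
def Uxp15n2288 : PT := (.cons (nat_lit 34187) (.cons (nat_lit 1420) (.cons (nat_lit 1546) Uxp15n1460 (.cons (nat_lit 1545) (.cons (nat_lit 1548) (.cons (nat_lit 1674) Uxp15n1644 .nil) .nil) .nil)) .nil) .nil)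
def Uxp15n2336 : PT := (.cons (nat_lit 932) (.cons (nat_lit 1058) (.cons (nat_lit 1051) (.cons (nat_lit 668) (.cons (nat_lit 1178) Uxp15n829 .nil) .nil) .nil) .nil) .nil)
def Uxp15n2350 : PT := (.cons (nat_lit 666) (.cons (nat_lit 660) (.cons (nat_lit 786) (.cons (nat_lit 780) (.cons (nat_lit 910) (.cons (nat_lit 33675) (.cons (nat_lit 908) (.cons (nat_lit 1034) Uxp15n1442 (.cons (nat_lit 1033) (.cons (nat_lit 1036) (.cons (nat_lit 1162) (.cons (nat_lit 1155) (.cons (nat_lit 5) .nil .nil) (.cons (nat_lit 1164) (.cons (nat_lit 1290) Uxp15n1344 (.cons (nat_lit 1289) Uxp15n1931 .nil)) .nil)) .nil) .nil) .nil)) .nil) .nil) (.cons (nat_lit 914) (.cons (nat_lit 908) (.cons (nat_lit 1033) (.cons (nat_lit 1036) (.cons (nat_lit 1166) Uxp15n2199 Uxp15n2204) .nil) (.cons (nat_lit 1042) (.cons (nat_lit 1036) (.cons (nat_lit 1166) Uxp15n1575 .nil) .nil) .nil)) .nil) (.cons (nat_lit 913) (.cons (nat_lit 916) (.cons (nat_lit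 1042) (.cons (nat_lit 1036) (.cons (nat_lit 1166) Uxp15n2199 Uxp15n2214) .nil) .nil) .nil) .nil))) .nil) (.cons (nat_lit 793) (.cons (nat_lit 796) (.cons (nat_lit 922) (.cons (nat_lit 916) (.cons (nat_lit 1042) Uxp15n2225 (.cons (nat_lit 1041) (.cons (nat_lit 1044) (.cons (nat_lit 1170) (.cons (nat_lit 1164) (.cons (nat_lit 1289) (.cons (nat_lit 1292) (.cons (nat_lit 1422) (.cons (nat_lit 34187) (.cons (nat_lit 1420) (.cons (nat_lit 1545) Uxp15n2228 (.cons (nat_lit 1546) Uxp15n1460 .nil)) .nil) .nil) (.cons (nat_lit 1426) (.cons (nat_lit 1420) (.cons (nat_lit 1545) Uxp15n2235 .nil) .nil) .nil)) .nil) (.cons (nat_lit 1298) (.cons (nat_lit 1292) (.cons (nat_lit 1422) Uxp15n1624 .nil) .nil) .nil)) .nil) .nil) .nil) .nil)) .nil) .nil) .nil) (.cons (nat_lit 798) (.cons (nat_lit 796) (.cons (nat_lit 922) (.cons (nat_lit 916) (.cons (nat_lit 1046) (.cons (nat_lit 1044) (.cons (nat_lit 1174) (.cons (nat_lit 1172) (.cons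 (nat_lit 1298) (.cons (nat_lit 50443) (.cons (nat_lit 1164) (.cons (nat_lit 1422) (.cons (nat_lit 66955) (.cons (nat_lit 1420) (.cons (nat_lit 1550) (.cons (nat_lit 34315) (.cons (nat_lit 1548) (.cons (nat_lit 1674) Uxp15n1644 (.cons (nat_lit 1673) (.cons (nat_lit 1676) (.cons (nat_lit 1802) Uxp15n1517 .nil) .nil) .nil)) .nil) .nil) .nil) .nil) .nil) .nil) .nil) .nil) .nil) .nil) .nil) .nil) .nil) .nil) .nil) .nil) .nil))) .nil) (.cons (nat_lit 665) (.cons (nat_lit 668) (.cons (nat_lit 802) (.cons (nat_lit 796) (.cons (nat_lit 922) (.cons (nat_lit 916) (.cons (nat_lit 1042) Uxp15n2225 (.cons (nat_lit 1041) (.cons (nat_lit 1044) (.cons (nat_lit 1170) (.cons (nat_lit 1164) (.cons (nat_lit 1289) (.cons (nat_lit 1292) (.cons (nat_lit 1422) (.cons (nat_lit 34187) (.cons (nat_lit 1420) (.cons (nat_lit 1546) Uxp15n1460 (.cons (nat_lit 1545) Uxp15n2228 .nil)) .nil) .nil) (.cons (nat_lit 1426) (.cons (nat_lit 1420) (.cons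 (nat_lit 1545) Uxp15n2235 .nil) .nil) .nil)) .nil) (.cons (nat_lit 1298) (.cons (nat_lit 1292) (.cons (nat_lit 1422) Uxp15n1624 .nil) .nil) .nil)) .nil) .nil) .nil) .nil)) .nil) (.cons (nat_lit 921) (.cons (nat_lit 924) (.cons (nat_lit 1050) (.cons (nat_lit 1044) (.cons (nat_lit 1169) (.cons (nat_lit 1172) (.cons (nat_lit 1298) (.cons (nat_lit 1292) (.cons (nat_lit 1422) Uxp15n2288 (.cons (nat_lit 1425) (.cons (nat_lit 1428) (.cons (nat_lit 1554) Uxp15n2235 .nil) .nil) (.cons (nat_lit 1426) (.cons (nat_lit 1420) (.cons (nat_lit 1545) Uxp15n2235 .nil) .nil) .nil))) .nil) .nil) .nil) (.cons (nat_lit 1170) (.cons (nat_lit 1164) (.cons (nat_lit 1289) (.cons (nat_lit 1292) (.cons (nat_lit 1422) Uxp15n2288 (.cons (nat_lit 1426) (.cons (nat_lit 1420) (.cons (nat_lit 1545) Uxp15n2235 .nil) .nil) .nil)) .nil) (.cons (nat_lit 1298) (.cons (nat_lit 1292) (.cons (nat_lit 1422) Uxp15n1624 .nil) .nil) .nil)) .nil) .nil)) .nil)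 .nil) .nil) .nil)) .nil) (.cons (nat_lit 798) (.cons (nat_lit 796) (.cons (nat_lit 922) (.cons (nat_lit 916) (.cons (nat_lit 1046) (.cons (nat_lit 1044) (.cons (nat_lit 1174) (.cons (nat_lit 1172) (.cons (nat_lit 1298) (.cons (nat_lit 50443) (.cons (nat_lit 1164) (.cons (nat_lit 1422) (.cons (nat_lit 66955) (.cons (nat_lit 1420) (.cons (nat_lit 1550) (.cons (nat_lit 34315) (.cons (nat_lit 1548) (.cons (nat_lit 1674) (.cons (nat_lit 1667) (.cons (nat_lit 5) .nil .nil) (.cons (nat_lit 1676) (.cons (nat_lit 1802) Uxp15n1517 (.cons (nat_lit 1801) Uxp15n2025 .nil)) .nil)) .nil) .nil) .nil) .nil) .nil) .nil) .nil) .nil) .nil) .nil) .nil) .nil) .nil) .nil) .nil) .nil) .nil) .nil)) .nil) (.cons (nat_lit 678) (.cons (nat_lit 676) (.cons (nat_lit 802) (.cons (nat_lit 795) (.cons (nat_lit 668) (.cons (nat_lit 922) Uxp15n386 .nil) .nil) (.cons (nat_lit 804) (.cons (nat_lit 929) Uxp15n2336 (.cons (nat_lit 930) (.cons (nat_lit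 924) (.cons (nat_lit 1049) (.cons (nat_lit 1051) (.cons (nat_lit 668) (.cons (nat_lit 1178) Uxp15n829 .nil) .nil) .nil) .nil) .nil) .nil)) .nil)) (.cons (nat_lit 809) (.cons (nat_lit 812) (.cons (nat_lit 938) Uxp15n2336 .nil) .nil) .nil)) .nil) .nil)))
def Uxp15n2356 : PT := (.cons (nat_lit 908) (.cons (nat_lit 1033) (.cons (nat_lit 1036) (.cons (nat_lit 1162) Uxp15n655 .nil) .nil) (.cons (nat_lit 1042) Uxp15n146 .nil)) .nil)
def Uxp15n2362 : PT := (.cons (nat_lit 780) (.cons (nat_lit 906) (.cons (nat_lit 899) (.cons (nat_lit 5) .nil .nil) Uxp15n2356) (.cons (nat_lit 913) (.cons (nat_lit 916) (.cons (nat_lit 1042) Uxp15n660 .nil) .nil) .nil)) .nil)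
def Uxp15n2370 : PT := (.cons (nat_lit 908) (.cons (nat_lit 1038) (.cons (nat_lit 25611) Uxp15n660 .nil) (.cons (nat_lit 1041) (.cons (nat_lit 1044) Uxp15n450 .nil) Uxp15n419)) .nil)
def Uxp15n2377 : PT := (.cons (nat_lit 1411) (.cons (nat_lit 5) .nil .nil) (.cons (nat_lit 1420) (.cons (nat_lit 1545) Uxp15n103 .nil) .nil))
def Uxp15n2379 : PT := (.cons (nat_lit 1292) (.cons (nat_lit 1418) Uxp15n2377 (.cons (nat_lit 1425) (.cons (nat_lit 1428) (.cons (nat_lit 1554) Uxp15n103 .nil) .nil) .nil)) .nil)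
def Uxp15n2385 : PT := (.cons (nat_lit 1042) (.cons (nat_lit 1036) (.cons (nat_lit 1161) (.cons (nat_lit 1164) (.cons (nat_lit 1294) (.cons (nat_lit 25867) Uxp15n2379 .nil) Uxp15n879) .nil) Uxp15n450) .nil) .nil)
def Uxp15n2418 : PT := (.cons (nat_lit 1164) (.cons (nat_lit 1289) (.cons (nat_lit 1292) (.cons (nat_lit 1418) Uxp15n2377 .nil) .nil) (.cons (nat_lit 1298) Uxp15n308 .nil)) .nil)
def Uxp15n2421 : PT := (.cons (nat_lit 1036) (.cons (nat_lit 1162) (.cons (nat_lit 1155) (.cons (nat_lit 5) .nil .nil) Uxp15n2418) .nil) .nil)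
def Uxp15n2471 : PT := (.cons (nat_lit 1172) (.cons (nat_lit 1302) (.cons (nat_lit 1300) (.cons (nat_lit 1426) (.cons (nat_lit 1420) (.cons (nat_lit 1550) (.cons (nat_lit 1548) (.cons (nat_lit 1678) (.cons (nat_lit 26251) Uxp15n228 .nil) .nil) .nil) .nil) .nil) .nil) .nil) .nil) .nil)
def Uxp15n2505 : PT := (.cons (nat_lit 1554) (.cons (nat_lit 1548) (.cons (nat_lit 1674) Uxp15n800 (.cons (nat_lit 1681) (.cons (nat_lit 1684) (.cons (nat_lit 1810) Uxp15n281 .nil) .nil) .nil)) .nil) .nil)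
def Uxp15n2529 : PT := (.cons (nat_lit 412) (.cons (nat_lit 538) (.cons (nat_lit 532) (.cons (nat_lit 658) (.cons (nat_lit 652) (.cons (nat_lit 782) (.cons (nat_lit 25355) Uxp15n2362 .nil) (.cons (nat_lit 786) (.cons (nat_lit 780) (.cons (nat_lit 905) (.cons (nat_lit 908) (.cons (nat_lit 1038) (.cons (nat_lit 25611) Uxp15n660 .nil) Uxp15n419) .nil) Uxp15n408) .nil) (.cons (nat_lit 785) (.cons (nat_lit 788) (.cons (nat_lit 914) Uxp15n2370 .nil) .nil) .nil))) .nil) (.cons (nat_lit 665) (.cons (nat_lit 668) (.cons (nat_lit 794) (.cons (nat_lit 788) (.cons (nat_lit 914) Uxp15n2370 (.cons (nat_lit 913) (.cons (nat_lit 916) Uxp15n2385 .nil) .nil)) .nil) .nil) .nil) (.cons (nat_lit 662) (.cons (nat_lit 660) (.cons (nat_lit 786) (.cons (nat_lit 780) (.cons (nat_lit 910) (.cons (nat_lit 908) (.cons (nat_lit 1038) (.cons (nat_lit 1036) (.cons (nat_lit 1162) (.cons (nat_lit 42115) (.cons (nat_lit 1028) (.cons (nat_lit 1286)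 (.cons (nat_lit 58627) (.cons (nat_lit 1284) (.cons (nat_lit 1414) (.cons (nat_lit 1411) (.cons (nat_lit 25987) (.cons (nat_lit 5) .nil .nil) .nil) (.cons (nat_lit 25995) (.cons (nat_lit 1420) (.cons (nat_lit 1546) Uxp15n1460 (.cons (nat_lit 1545) (.cons (nat_lit 1548) (.cons (nat_lit 1674) Uxp15n800 .nil) .nil) .nil)) .nil) .nil)) .nil) .nil) .nil) .nil) .nil) .nil) .nil) .nil) .nil) .nil) .nil) .nil) .nil) .nil) .nil))) .nil) (.cons (nat_lit 537) (.cons (nat_lit 540) (.cons (nat_lit 666) (.cons (nat_lit 660) (.cons (nat_lit 786) (.cons (nat_lit 780) (.cons (nat_lit 905) (.cons (nat_lit 908) (.cons (nat_lit 1038) (.cons (nat_lit 25611) Uxp15n2421 .nil) Uxp15n2385) .nil) (.cons (nat_lit 914) Uxp15n2370 .nil)) .nil) (.cons (nat_lit 793) (.cons (nat_lit 796) (.cons (nat_lit 922) (.cons (nat_lit 916) (.cons (nat_lit 1041) (.cons (nat_lit 1044) (.cons (nat_lit 1170) (.cons (nat_lit 1164) (.cons (nat_lit 1294) (.cons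 (nat_lit 25867) Uxp15n2379 .nil) Uxp15n915) .nil) .nil) .nil) Uxp15n2385) .nil) .nil) .nil) .nil)) .nil) (.cons (nat_lit 670) (.cons (nat_lit 668) (.cons (nat_lit 794) (.cons (nat_lit 788) (.cons (nat_lit 918) (.cons (nat_lit 916) (.cons (nat_lit 1046) (.cons (nat_lit 1044) (.cons (nat_lit 1170) (.cons (nat_lit 42123) (.cons (nat_lit 1036) (.cons (nat_lit 1294) (.cons (nat_lit 58635) (.cons (nat_lit 1292) (.cons (nat_lit 1422) (.cons (nat_lit 25995) (.cons (nat_lit 1420) (.cons (nat_lit 1546) (.cons (nat_lit 1540) (.cons (nat_lit 1665) (.cons (nat_lit 1667) (.cons (nat_lit 5) .nil .nil) (.cons (nat_lit 1684) (.cons (nat_lit 1810) Uxp15n281 .nil) .nil)) (.cons (nat_lit 1674) Uxp15n800 .nil)) .nil) .nil) .nil) .nil) .nil) .nil) .nil) .nil) .nil) .nil) .nil) .nil) .nil) .nil) .nil) .nil) .nil) .nil) .nil)) .nil) (.cons (nat_lit 542) (.cons (nat_lit 539) (.cons (nat_lit 540) (.cons (nat_lit 666) Uxp15n493 .nil) .nil)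 (.cons (nat_lit 540) (.cons (nat_lit 665) (.cons (nat_lit 668) (.cons (nat_lit 794) (.cons (nat_lit 787) (.cons (nat_lit 532) (.cons (nat_lit 913) Uxp15n960 (.cons (nat_lit 922) Uxp15n960 .nil)) .nil) (.cons (nat_lit 796) (.cons (nat_lit 921) (.cons (nat_lit 924) (.cons (nat_lit 1050) (.cons (nat_lit 1043) (.cons (nat_lit 532) (.cons (nat_lit 1169) Uxp15n2471 (.cons (nat_lit 1178) Uxp15n2471 .nil)) .nil) (.cons (nat_lit 1052) (.cons (nat_lit 1177) (.cons (nat_lit 1180) (.cons (nat_lit 1306) (.cons (nat_lit 1299) (.cons (nat_lit 532) (.cons (nat_lit 1425) (.cons (nat_lit 1428) (.cons (nat_lit 1558) (.cons (nat_lit 1556) (.cons (nat_lit 1682) (.cons (nat_lit 1676) (.cons (nat_lit 1806) (.cons (nat_lit 1804) (.cons (nat_lit 1934) (.cons (nat_lit 26507) Uxp15n1320 .nil) .nil) .nil) .nil) .nil) .nil) .nil) .nil) .nil) .nil) .nil) .nil) .nil) .nil) .nil) .nil)) .nil) .nil) (.cons (nat_lit 930) (.cons (nat_lit 924) (.cons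 (nat_lit 1050) (.cons (nat_lit 1043) (.cons (nat_lit 532) (.cons (nat_lit 1169) Uxp15n2471 .nil) .nil) .nil) .nil) .nil) .nil)) .nil)) (.cons (nat_lit 806) (.cons (nat_lit 804) (.cons (nat_lit 930) (.cons (nat_lit 924) (.cons (nat_lit 1054) (.cons (nat_lit 1052) (.cons (nat_lit 1182) (.cons (nat_lit 25755) (.cons (nat_lit 1180) (.cons (nat_lit 1310) (.cons (nat_lit 66843) (.cons (nat_lit 1308) (.cons (nat_lit 1434) (.cons (nat_lit 50579) (.cons (nat_lit 532) Uxp15n2505 .nil) .nil) .nil) .nil) .nil) .nil) .nil) .nil) .nil) .nil) .nil) .nil) .nil) .nil) .nil)) .nil) Uxp15n966) .nil)) .nil))) .nil)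
def Uxp15n2546 : PT := (.cons (nat_lit 1292) (.cons (nat_lit 1422) (.cons (nat_lit 17803) (.cons (nat_lit 1420) (.cons (nat_lit 1545) Uxp15n103 .nil) .nil) .nil) .nil) .nil)
def Uxp15n2551 : PT := (.cons (nat_lit 1036) (.cons (nat_lit 1166) (.cons (nat_lit 17547) Uxp15n2418 .nil) (.cons (nat_lit 1169) (.cons (nat_lit 1172) (.cons (nat_lit 1298) Uxp15n2546 .nil) .nil) .nil)) .nil)
def Uxp15n2556 : PT := (.cons (nat_lit 1036) (.cons (nat_lit 1166) (.cons (nat_lit 17547) (.cons (nat_lit 1164) (.cons (nat_lit 1289) Uxp15n308 .nil) .nil) .nil) .nil) .nil)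
def Uxp15n2564 : PT := (.cons (nat_lit 1044) (.cons (nat_lit 1174) (.cons (nat_lit 17555) (.cons (nat_lit 1172) (.cons (nat_lit 1298) Uxp15n308 (.cons (nat_lit 1297) (.cons (nat_lit 1300) (.cons (nat_lit 1426) (.cons (nat_lit 1420) (.cons (nat_lit 1545) Uxp15n103 .nil) .nil) .nil) .nil) .nil)) .nil) .nil) .nil) .nil)
def Uxp15n2568 : PT := (.cons (nat_lit 922) (.cons (nat_lit 916) (.cons (nat_lit 1042) Uxp15n2556 (.cons (nat_lit 1041) Uxp15n2564 .nil)) .nil) .nil)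
def Uxp15n2571 : PT := (.cons (nat_lit 780) (.cons (nat_lit 910) (.cons (nat_lit 17291) (.cons (nat_lit 908) (.cons (nat_lit 1033) Uxp15n2421 (.cons (nat_lit 1042) Uxp15n660 .nil)) .nil) .nil) (.cons (nat_lit 913) (.cons (nat_lit 916) (.cons (nat_lit 1042) Uxp15n2551 .nil) .nil) Uxp15n2568)) .nil)
def Uxp15n2585 : PT := (.cons (nat_lit 17299) (.cons (nat_lit 916) (.cons (nat_lit 1042) Uxp15n660 (.cons (nat_lit 1041) (.cons (nat_lit 1044) (.cons (nat_lit 1170) Uxp15n2418 .nil) .nil) .nil)) .nil) .nil)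
def Uxp15n2596 : PT := (.cons (nat_lit 1420) (.cons (nat_lit 1545) (.cons (nat_lit 1548) (.cons (nat_lit 1674) Uxp15n800 .nil) .nil) (.cons (nat_lit 1554) Uxp15n103 .nil)) .nil)
def Uxp15n2602 : PT := (.cons (nat_lit 17555) (.cons (nat_lit 1172) (.cons (nat_lit 1298) Uxp15n2379 (.cons (nat_lit 1297) (.cons (nat_lit 1300) (.cons (nat_lit 1426) Uxp15n2596 .nil) .nil) .nil)) .nil) .nil)
def Uxp15n2610 : PT := (.cons (nat_lit 1300) (.cons (nat_lit 1430) (.cons (nat_lit 17811) (.cons (nat_lit 1428) (.cons (nat_lit 1554) Uxp15n103 (.cons (nat_lit 1553) (.cons (nat_lit 1556) (.cons (nat_lit 1682) (.cons (nat_lit 1676) (.cons (nat_lit 1801) Uxp15n281 .nil) .nil) .nil) .nil) .nil)) .nil) .nil) .nil) .nil)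
def Uxp15n2664 : PT := (.cons (nat_lit 922) (.cons (nat_lit 916) (.cons (nat_lit 1041) (.cons (nat_lit 1044) (.cons (nat_lit 1174) Uxp15n2602 (.cons (nat_lit 1178) (.cons (nat_lit 1172) (.cons (nat_lit 1297) Uxp15n2610 .nil) .nil) .nil)) .nil) (.cons (nat_lit 1050) Uxp15n2564 .nil)) .nil) .nil)
def Uxp15n2736 : PT := (.cons (nat_lit 412) (.cons (nat_lit 922) (.cons (nat_lit 916) (.cons (nat_lit 1046) (.cons (nat_lit 1044) (.cons (nat_lit 1170) (.cons (nat_lit 1164) (.cons (nat_lit 1294) (.cons (nat_lit 1292) (.cons (nat_lit 1422) (.cons (nat_lit 17803) Uxp15n19 .nil) .nil) .nil) .nil) .nil) .nil) .nil) .nil) .nil) .nil) .nil)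
def Uxp15n2750 : PT := (.cons (nat_lit 932) (.cons (nat_lit 1058) (.cons (nat_lit 1051) (.cons (nat_lit 412) (.cons (nat_lit 1178) (.cons (nat_lit 1172) (.cons (nat_lit 1302) (.cons (nat_lit 1300) (.cons (nat_lit 1426) (.cons (nat_lit 1420) (.cons (nat_lit 1550) (.cons (nat_lit 1548) (.cons (nat_lit 1678) (.cons (nat_lit 18059) Uxp15n228 .nil) .nil) .nil) .nil) .nil) .nil) .nil) .nil) .nil) .nil) .nil) .nil) .nil) .nil)
def Uxp15n2775 : PT := (.cons (nat_lit 418) (.cons (nat_lit 412) (.cons (nat_lit 538) (.cons (nat_lit 532) (.cons (nat_lit 662) (.cons (nat_lit 17043) (.cons (nat_lit 660) (.cons (nat_lit 786) Uxp15n2362 (.cons (nat_lit 785) (.cons (nat_lit 788) (.cons (nat_lit 914) (.cons (nat_lit 908) (.cons (nat_lit 1033) Uxp15n2421 (.cons (nat_lit 1042) Uxp15n660 .nil)) .nil) .nil) .nil) .nil)) .nil) .nil) (.cons (nat_lit 657) (.cons (nat_lit 660) (.cons (nat_lit 786) Uxp15n2571 .nil) .nil) (.cons (nat_lit 666)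 (.cons (nat_lit 660) (.cons (nat_lit 786) (.cons (nat_lit 780) (.cons (nat_lit 910) (.cons (nat_lit 17291) Uxp15n2356 .nil) (.cons (nat_lit 913) (.cons (nat_lit 916) (.cons (nat_lit 1042) Uxp15n2556 .nil) .nil) .nil)) .nil) (.cons (nat_lit 785) (.cons (nat_lit 788) (.cons (nat_lit 918) Uxp15n2585 Uxp15n2568) .nil) .nil)) .nil) .nil))) .nil) (.cons (nat_lit 537) (.cons (nat_lit 540) (.cons (nat_lit 666) (.cons (nat_lit 660) (.cons (nat_lit 786) Uxp15n2571 (.cons (nat_lit 793) (.cons (nat_lit 796) (.cons (nat_lit 922) (.cons (nat_lit 916) (.cons (nat_lit 1042) Uxp15n2551 (.cons (nat_lit 1041) (.cons (nat_lit 1044) (.cons (nat_lit 1174) Uxp15n2602 (.cons (nat_lit 1178) (.cons (nat_lit 1172) (.cons (nat_lit 1298) Uxp15n2546 (.cons (nat_lit 1297) Uxp15n2610 .nil)) .nil) .nil)) .nil) .nil)) .nil) .nil) .nil) .nil)) .nil) .nil) .nil) (.cons (nat_lit 542) (.cons (nat_lit 540) (.cons (nat_lit 666) (.cons (nat_lit 660) (.cons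 (nat_lit 790) (.cons (nat_lit 788) (.cons (nat_lit 918) (.cons (nat_lit 916) (.cons (nat_lit 1042) (.cons (nat_lit 33803) (.cons (nat_lit 908) (.cons (nat_lit 1166) (.cons (nat_lit 50315) (.cons (nat_lit 1164) (.cons (nat_lit 1294) (.cons (nat_lit 17675) (.cons (nat_lit 1292) (.cons (nat_lit 1418) (.cons (nat_lit 1411) (.cons (nat_lit 5) .nil .nil) Uxp15n2596) (.cons (nat_lit 1425) (.cons (nat_lit 1428) Uxp15n2505 .nil) .nil)) .nil) .nil) .nil) .nil) .nil) .nil) .nil) .nil) .nil) .nil) .nil) .nil) .nil) .nil) .nil) .nil) .nil))) .nil) (.cons (nat_lit 409) (.cons (nat_lit 412) (.cons (nat_lit 554) (.cons (nat_lit 548) (.cons (nat_lit 674) (.cons (nat_lit 668) (.cons (nat_lit 794) (.cons (nat_lit 788) (.cons (nat_lit 918) Uxp15n2585 (.cons (nat_lit 921) (.cons (nat_lit 924) (.cons (nat_lit 1050) Uxp15n2564 .nil) .nil) (.cons (nat_lit 922) (.cons (nat_lit 916) (.cons (nat_lit 1041) Uxp15n2564 .nil) .nil) .nil))) .nil)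 (.cons (nat_lit 793) (.cons (nat_lit 796) Uxp15n2664 .nil) .nil)) .nil) (.cons (nat_lit 673) (.cons (nat_lit 676) (.cons (nat_lit 802) (.cons (nat_lit 796) (.cons (nat_lit 921) (.cons (nat_lit 924) (.cons (nat_lit 1050) (.cons (nat_lit 1044) (.cons (nat_lit 1174) Uxp15n2602 (.cons (nat_lit 1177) (.cons (nat_lit 1180) (.cons (nat_lit 1306) Uxp15n2610 .nil) .nil) (.cons (nat_lit 1178) (.cons (nat_lit 1172) (.cons (nat_lit 1297) Uxp15n2610 .nil) .nil) .nil))) .nil) .nil) .nil) Uxp15n2664) .nil) .nil) .nil) .nil)) .nil) (.cons (nat_lit 542) (.cons (nat_lit 540) (.cons (nat_lit 666) (.cons (nat_lit 660) (.cons (nat_lit 790) (.cons (nat_lit 788) (.cons (nat_lit 918) (.cons (nat_lit 916) (.cons (nat_lit 1042) (.cons (nat_lit 33803) (.cons (nat_lit 908) (.cons (nat_lit 1166) (.cons (nat_lit 50315) (.cons (nat_lit 1164) (.cons (nat_lit 1294) (.cons (nat_lit 17675) (.cons (nat_lit 1292) (.cons (nat_lit 1418) (.cons (nat_lit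 1411) (.cons (nat_lit 5) .nil .nil) (.cons (nat_lit 1420) (.cons (nat_lit 1545) (.cons (nat_lit 1548) (.cons (nat_lit 1674) (.cons (nat_lit 1667) (.cons (nat_lit 5) .nil .nil) (.cons (nat_lit 1676) (.cons (nat_lit 1801) (.cons (nat_lit 1804) (.cons (nat_lit 1930) (.cons (nat_lit 1923) (.cons (nat_lit 5) .nil .nil) (.cons (nat_lit 1932) (.cons (nat_lit 2057) Uxp15n1847 .nil) .nil)) .nil) .nil) (.cons (nat_lit 1810) Uxp15n281 .nil)) .nil)) .nil) .nil) Uxp15n2505) .nil)) .nil) .nil) .nil) .nil) .nil) .nil) .nil) .nil) .nil) .nil) .nil) .nil) .nil) .nil) .nil) .nil) .nil) .nil)) .nil) (.cons (nat_lit 422) (.cons (nat_lit 420) (.cons (nat_lit 546) (.cons (nat_lit 539) (.cons (nat_lit 412) (.cons (nat_lit 666) (.cons (nat_lit 660) (.cons (nat_lit 790) (.cons (nat_lit 788) (.cons (nat_lit 914) (.cons (nat_lit 908) (.cons (nat_lit 1038) (.cons (nat_lit 1036) (.cons (nat_lit 1166) (.cons (nat_lit 17547) Uxp15n484 .nil)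 .nil) .nil) .nil) .nil) .nil) .nil) .nil) .nil) .nil) .nil) (.cons (nat_lit 548) (.cons (nat_lit 673) (.cons (nat_lit 676) (.cons (nat_lit 802) (.cons (nat_lit 795) Uxp15n2736 (.cons (nat_lit 804) (.cons (nat_lit 929) Uxp15n2750 .nil) .nil)) .nil) .nil) (.cons (nat_lit 682) (.cons (nat_lit 676) (.cons (nat_lit 802) (.cons (nat_lit 795) Uxp15n2736 .nil) .nil) .nil) .nil)) .nil)) (.cons (nat_lit 553) (.cons (nat_lit 556) (.cons (nat_lit 682) (.cons (nat_lit 676) (.cons (nat_lit 802) (.cons (nat_lit 795) Uxp15n2736 (.cons (nat_lit 804) (.cons (nat_lit 929) Uxp15n2750 .nil) .nil)) (.cons (nat_lit 809) (.cons (nat_lit 812) (.cons (nat_lit 938) Uxp15n2750 .nil) .nil) .nil)) .nil) .nil) .nil) .nil)) .nil) .nil)))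
def Uxp15n2829 : PT := (.cons (nat_lit 25483) (.cons (nat_lit 908) (.cons (nat_lit 1038) (.cons (nat_lit 1036) (.cons (nat_lit 1166) (.cons (nat_lit 1163) (.cons (nat_lit 1164) (.cons (nat_lit 1294) (.cons (nat_lit 66827) (.cons (nat_lit 1292) (.cons (nat_lit 1418) (.cons (nat_lit 9603) (.cons (nat_lit 5) .nil .nil) .nil) .nil) .nil) .nil) .nil) .nil) .nil) .nil) .nil) .nil) .nil) .nil)
def Uxp15n2841 : PT := (.cons (nat_lit 25739) (.cons (nat_lit 1164) (.cons (nat_lit 1294) (.cons (nat_lit 1292) (.cons (nat_lit 1422) (.cons (nat_lit 1419) (.cons (nat_lit 1420) (.cons (nat_lit 1550) (.cons (nat_lit 83467) (.cons (nat_lit 1548) (.cons (nat_lit 1674) (.cons (nat_lit 9859) (.cons (nat_lit 5) .nil .nil) .nil) .nil) .nil) .nil) .nil) .nil) .nil) .nil) .nil) .nil) .nil) .nil)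
def Uxp15n2853 : PT := (.cons (nat_lit 25995) (.cons (nat_lit 1420) (.cons (nat_lit 1550) (.cons (nat_lit 1548) (.cons (nat_lit 1678) (.cons (nat_lit 1675) (.cons (nat_lit 1676) (.cons (nat_lit 1806) (.cons (nat_lit 100107) (.cons (nat_lit 1804) (.cons (nat_lit 1930) (.cons (nat_lit 10115) (.cons (nat_lit 5) .nil .nil) .nil) .nil) .nil) .nil) .nil) .nil) .nil) .nil) .nil) .nil) .nil) .nil)
def Uxp15n2857 : PT := (.cons (nat_lit 1172) (.cons (nat_lit 1298) (.cons (nat_lit 1292) (.cons (nat_lit 1422) Uxp15n2853 .nil) .nil) .nil) .nil)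
def Uxp15n2860 : PT := (.cons (nat_lit 1170) (.cons (nat_lit 1164) (.cons (nat_lit 1289) (.cons (nat_lit 1292) (.cons (nat_lit 1422) Uxp15n2853 .nil) .nil) .nil) .nil) .nil)
def Uxp15n2873 : PT := (.cons (nat_lit 914) (.cons (nat_lit 908) (.cons (nat_lit 1033) (.cons (nat_lit 1036) (.cons (nat_lit 1166) Uxp15n2841 Uxp15n2860) .nil) (.cons (nat_lit 1042) (.cons (nat_lit 1036) (.cons (nat_lit 1166) Uxp15n2841 .nil) .nil) .nil)) .nil) .nil)
def Uxp15n2876 : PT := (.cons (nat_lit 780) (.cons (nat_lit 910) Uxp15n2829 (.cons (nat_lit 913) (.cons (nat_lit 916) (.cons (nat_lit 1042) (.cons (nat_lit 1036) (.cons (nat_lit 1166) Uxp15n2841 (.cons (nat_lit 1169) Uxp15n2857 Uxp15n2860)) .nil) .nil) .nil) Uxp15n2873)) .nil)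
def Uxp15n2881 : PT := (.cons (nat_lit 916) (.cons (nat_lit 1042) (.cons (nat_lit 1036) (.cons (nat_lit 1166) Uxp15n2841 .nil) .nil) .nil) .nil)
def Uxp15n2908 : PT := (.cons (nat_lit 1548) (.cons (nat_lit 1678) (.cons (nat_lit 26251) (.cons (nat_lit 1676) (.cons (nat_lit 1806) (.cons (nat_lit 1804) (.cons (nat_lit 1934) (.cons (nat_lit 1931) (.cons (nat_lit 1932) (.cons (nat_lit 2062) (.cons (nat_lit 116747) (.cons (nat_lit 2060) (.cons (nat_lit 2186) (.cons (nat_lit 10371) (.cons (nat_lit 5) .nil .nil) .nil) .nil) .nil) .nil) .nil) .nil) .nil) .nil) .nil) .nil) .nil) .nil) .nil) .nil)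
def Uxp15n2947 : PT := (.cons (nat_lit 8851) (.cons (nat_lit 660) (.cons (nat_lit 790) (.cons (nat_lit 788) (.cons (nat_lit 918) (.cons (nat_lit 916) (.cons (nat_lit 1042) (.cons (nat_lit 1036) (.cons (nat_lit 1166) (.cons (nat_lit 1163) (.cons (nat_lit 1164) (.cons (nat_lit 1290) (.cons (nat_lit 1284) (.cons (nat_lit 1414) (.cons (nat_lit 50563) (.cons (nat_lit 58755) (.cons (nat_lit 5) .nil .nil) .nil) .nil) .nil) .nil) .nil) .nil) .nil) .nil) .nil) .nil) .nil) .nil) .nil) .nil) .nil) .nil)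
def Uxp15n2963 : PT := (.cons (nat_lit 9107) (.cons (nat_lit 916) (.cons (nat_lit 1046) (.cons (nat_lit 1044) (.cons (nat_lit 1174) (.cons (nat_lit 1172) (.cons (nat_lit 1298) (.cons (nat_lit 1292) (.cons (nat_lit 1422) (.cons (nat_lit 1419) (.cons (nat_lit 1420) (.cons (nat_lit 1546) (.cons (nat_lit 1540) (.cons (nat_lit 1670) (.cons (nat_lit 67203) (.cons (nat_lit 75395) (.cons (nat_lit 5) .nil .nil) .nil) .nil) .nil) .nil) .nil) .nil) .nil) .nil) .nil) .nil) .nil) .nil) .nil) .nil) .nil) .nil)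
def Uxp15n2979 : PT := (.cons (nat_lit 9363) (.cons (nat_lit 1172) (.cons (nat_lit 1302) (.cons (nat_lit 1300) (.cons (nat_lit 1430) (.cons (nat_lit 1428) (.cons (nat_lit 1554) (.cons (nat_lit 1548) (.cons (nat_lit 1678) (.cons (nat_lit 1675) (.cons (nat_lit 1676) (.cons (nat_lit 1802) (.cons (nat_lit 1796) (.cons (nat_lit 1926) (.cons (nat_lit 83843) (.cons (nat_lit 92035) (.cons (nat_lit 5) .nil .nil) .nil) .nil) .nil) .nil) .nil) .nil) .nil) .nil) .nil) .nil) .nil) .nil) .nil) .nil) .nil) .nil)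
def Uxp15n2986 : PT := (.cons (nat_lit 922) (.cons (nat_lit 916) (.cons (nat_lit 1041) (.cons (nat_lit 1044) (.cons (nat_lit 1174) Uxp15n2979 .nil) .nil) .nil) .nil) .nil)
def Uxp15n2989 : PT := (.cons (nat_lit 788) (.cons (nat_lit 918) Uxp15n2963 (.cons (nat_lit 921) (.cons (nat_lit 924) (.cons (nat_lit 1050) (.cons (nat_lit 1044) (.cons (nat_lit 1174) Uxp15n2979 .nil) .nil) .nil) .nil) Uxp15n2986)) .nil)
def Uxp15n2999 : PT := (.cons (nat_lit 666) (.cons (nat_lit 660) (.cons (nat_lit 785) (.cons (nat_lit 788) (.cons (nat_lit 918) Uxp15n2963 Uxp15n2986) .nil) (.cons (nat_lit 794) (.cons (nat_lit 788) (.cons (nat_lit 918) Uxp15n2963 .nil) .nil) .nil)) .nil) .nil)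
def Uxp15n3002 : PT := (.cons (nat_lit 532) (.cons (nat_lit 662) Uxp15n2947 (.cons (nat_lit 665) (.cons (nat_lit 668) (.cons (nat_lit 794) Uxp15n2989 .nil) .nil) Uxp15n2999)) .nil)
def Uxp15n3025 : PT := (.cons (nat_lit 1292) (.cons (nat_lit 1422) Uxp15n2853 (.cons (nat_lit 1425) (.cons (nat_lit 1428) (.cons (nat_lit 1554) Uxp15n2908 .nil) .nil) .nil)) .nil)
def Uxp15n3031 : PT := (.cons (nat_lit 1036) (.cons (nat_lit 1166) Uxp15n2841 (.cons (nat_lit 1169) (.cons (nat_lit 1172) (.cons (nat_lit 1298) Uxp15n3025 .nil) .nil) (.cons (nat_lit 1178) Uxp15n2857 .nil))) .nil)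
def Uxp15n3041 : PT := (.cons (nat_lit 922) (.cons (nat_lit 916) (.cons (nat_lit 1042) (.cons (nat_lit 1036) (.cons (nat_lit 1166) Uxp15n2841 (.cons (nat_lit 1169) Uxp15n2857 .nil)) .nil) (.cons (nat_lit 1049) (.cons (nat_lit 1052) (.cons (nat_lit 1178) Uxp15n2857 .nil) .nil) .nil)) .nil) .nil)
def Uxp15n3120 : PT := (.cons (nat_lit 282) (.cons (nat_lit 276) (.cons (nat_lit 406) (.cons (nat_lit 8595) (.cons (nat_lit 404) (.cons (nat_lit 534) (.cons (nat_lit 532) (.cons (nat_lit 662) (.cons (nat_lit 660) (.cons (nat_lit 786) (.cons (nat_lit 780) (.cons (nat_lit 910) (.cons (nat_lit 907) (.cons (nat_lit 908) (.cons (nat_lit 1034) (.cons (nat_lit 1028) (.cons (nat_lit 1158) (.cons (nat_lit 33923) (.cons (nat_lit 42115) (.cons (nat_lit 5) .nil .nil) .nil) .nil) .nil) .nil) .nil) .nil) .nil) .nil) .nil) .nil) .nil) .nil) .nil) .nil) .nil) (.cons (nat_lit 404) (.cons (nat_lit 530) (.cons (nat_lit 524) (.cons (nat_lit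 654) (.cons (nat_lit 652) (.cons (nat_lit 782) (.cons (nat_lit 780) (.cons (nat_lit 906) (.cons (nat_lit 25475) (.cons (nat_lit 772) (.cons (nat_lit 1030) (.cons (nat_lit 41987) (.cons (nat_lit 1028) (.cons (nat_lit 1158) (.cons (nat_lit 1155) (.cons (nat_lit 9347) (.cons (nat_lit 5) .nil .nil) .nil) .nil) .nil) .nil) .nil) .nil) .nil) .nil) .nil) .nil) .nil) (.cons (nat_lit 25227) (.cons (nat_lit 652) (.cons (nat_lit 782) (.cons (nat_lit 780) (.cons (nat_lit 910) (.cons (nat_lit 907) (.cons (nat_lit 908) (.cons (nat_lit 1038) (.cons (nat_lit 50187) (.cons (nat_lit 1036) (.cons (nat_lit 1162) (.cons (nat_lit 9347) (.cons (nat_lit 5) .nil .nil) .nil) .nil) .nil) .nil) .nil) .nil) .nil) .nil) .nil) .nil) .nil) .nil)) (.cons (nat_lit 657) (.cons (nat_lit 660) (.cons (nat_lit 786) Uxp15n2876 .nil) .nil) (.cons (nat_lit 658) (.cons (nat_lit 652) (.cons (nat_lit 777) (.cons (nat_lit 780) (.cons (nat_lit 910) Uxp15n2829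 Uxp15n2873) .nil) (.cons (nat_lit 786) (.cons (nat_lit 780) (.cons (nat_lit 910) Uxp15n2829 (.cons (nat_lit 913) Uxp15n2881 (.cons (nat_lit 914) (.cons (nat_lit 908) (.cons (nat_lit 1033) (.cons (nat_lit 1036) (.cons (nat_lit 1166) Uxp15n2841 .nil) .nil) .nil) .nil) .nil))) .nil) .nil)) .nil) .nil))) .nil) (.cons (nat_lit 537) (.cons (nat_lit 540) (.cons (nat_lit 666) (.cons (nat_lit 660) (.cons (nat_lit 786) Uxp15n2876 (.cons (nat_lit 793) (.cons (nat_lit 796) (.cons (nat_lit 922) (.cons (nat_lit 916) (.cons (nat_lit 1042) (.cons (nat_lit 1036) (.cons (nat_lit 1166) Uxp15n2841 (.cons (nat_lit 1169) Uxp15n2857 Uxp15n2860)) .nil) (.cons (nat_lit 1041) (.cons (nat_lit 1044) (.cons (nat_lit 1170) (.cons (nat_lit 1164) (.cons (nat_lit 1289) (.cons (nat_lit 1292) (.cons (nat_lit 1422) Uxp15n2853 (.cons (nat_lit 1426) (.cons (nat_lit 1420) (.cons (nat_lit 1545) Uxp15n2908 .nil) .nil) .nil)) .nil) (.cons (nat_lit 1298)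 (.cons (nat_lit 1292) (.cons (nat_lit 1422) Uxp15n2853 .nil) .nil) .nil)) .nil) .nil) .nil) .nil)) .nil) .nil) .nil) .nil)) .nil) .nil) .nil) .nil)) .nil)) (.cons (nat_lit 409) (.cons (nat_lit 412) (.cons (nat_lit 538) Uxp15n3002 .nil) .nil) (.cons (nat_lit 410) (.cons (nat_lit 404) (.cons (nat_lit 529) (.cons (nat_lit 532) (.cons (nat_lit 662) Uxp15n2947 Uxp15n2999) .nil) (.cons (nat_lit 538) (.cons (nat_lit 532) (.cons (nat_lit 662) Uxp15n2947 (.cons (nat_lit 665) (.cons (nat_lit 668) (.cons (nat_lit 794) (.cons (nat_lit 788) (.cons (nat_lit 918) Uxp15n2963 .nil) .nil) .nil) .nil) (.cons (nat_lit 666) (.cons (nat_lit 660) (.cons (nat_lit 785) (.cons (nat_lit 788) (.cons (nat_lit 918) Uxp15n2963 .nil) .nil) .nil) .nil) .nil))) .nil) .nil)) .nil) .nil))) .nil) (.cons (nat_lit 281) (.cons (nat_lit 284) (.cons (nat_lit 414) (.cons (nat_lit 412) (.cons (nat_lit 537) (.cons (nat_lit 540) (.cons (nat_lit 666) (.cons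 (nat_lit 660) (.cons (nat_lit 786) (.cons (nat_lit 780) (.cons (nat_lit 910) Uxp15n2829 (.cons (nat_lit 913) (.cons (nat_lit 916) (.cons (nat_lit 1042) Uxp15n3031 .nil) .nil) Uxp15n3041)) .nil) (.cons (nat_lit 793) (.cons (nat_lit 796) (.cons (nat_lit 922) (.cons (nat_lit 916) (.cons (nat_lit 1042) Uxp15n3031 (.cons (nat_lit 1049) (.cons (nat_lit 1052) (.cons (nat_lit 1178) (.cons (nat_lit 1172) (.cons (nat_lit 1298) Uxp15n3025 (.cons (nat_lit 1305) (.cons (nat_lit 1308) (.cons (nat_lit 1434) (.cons (nat_lit 1428) (.cons (nat_lit 1554) Uxp15n2908 .nil) .nil) .nil) .nil) .nil)) .nil) .nil) .nil) .nil)) .nil) .nil) .nil) .nil)) .nil) .nil) .nil) (.cons (nat_lit 546) (.cons (nat_lit 540) (.cons (nat_lit 666) (.cons (nat_lit 660) (.cons (nat_lit 786) (.cons (nat_lit 780) (.cons (nat_lit 910) Uxp15n2829 (.cons (nat_lit 913) (.cons (nat_lit 916) (.cons (nat_lit 1042) (.cons (nat_lit 1036) (.cons (nat_lit 1166) Uxp15n2841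 (.cons (nat_lit 1169) Uxp15n2857 .nil)) .nil) .nil) .nil) (.cons (nat_lit 922) Uxp15n2881 .nil))) .nil) (.cons (nat_lit 793) (.cons (nat_lit 796) Uxp15n3041 .nil) .nil)) .nil) (.cons (nat_lit 665) (.cons (nat_lit 668) (.cons (nat_lit 794) (.cons (nat_lit 788) (.cons (nat_lit 913) (.cons (nat_lit 916) (.cons (nat_lit 1042) Uxp15n3031 .nil) .nil) Uxp15n3041) .nil) .nil) .nil) .nil)) .nil) .nil)) .nil) (.cons (nat_lit 418) (.cons (nat_lit 412) (.cons (nat_lit 538) Uxp15n3002 (.cons (nat_lit 545) (.cons (nat_lit 548) (.cons (nat_lit 674) (.cons (nat_lit 668) (.cons (nat_lit 794) Uxp15n2989 (.cons (nat_lit 793) (.cons (nat_lit 796) (.cons (nat_lit 922) (.cons (nat_lit 916) (.cons (nat_lit 1041) (.cons (nat_lit 1044) (.cons (nat_lit 1174) Uxp15n2979 (.cons (nat_lit 1178) (.cons (nat_lit 1172) (.cons (nat_lit 1297) (.cons (nat_lit 1300) (.cons (nat_lit 1430) (.cons (nat_lit 9619) (.cons (nat_lit 1428) (.cons (nat_lit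 1558) (.cons (nat_lit 1556) (.cons (nat_lit 1686) (.cons (nat_lit 1684) (.cons (nat_lit 1810) (.cons (nat_lit 1804) (.cons (nat_lit 1934) (.cons (nat_lit 1931) (.cons (nat_lit 1932) (.cons (nat_lit 2058) (.cons (nat_lit 2052) (.cons (nat_lit 2182) (.cons (nat_lit 100483) (.cons (nat_lit 108675) (.cons (nat_lit 5) .nil .nil) .nil) .nil) .nil) .nil) .nil) .nil) .nil) .nil) .nil) .nil) .nil) .nil) .nil) .nil) .nil) .nil) .nil) .nil) .nil) .nil) .nil)) .nil) (.cons (nat_lit 1050) (.cons (nat_lit 1044) (.cons (nat_lit 1174) Uxp15n2979 .nil) .nil) .nil)) .nil) .nil) .nil) .nil)) .nil) .nil) .nil) .nil)) .nil) .nil)) .nil) .nil))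
def Uxp15n3124 : PT := (.cons (nat_lit 146) (.cons (nat_lit 140) (.cons (nat_lit 266) (.cons (nat_lit 259) (.cons (nat_lit 5) .nil .nil) (.cons (nat_lit 276) (.cons (nat_lit 402) (.cons (nat_lit 396) (.cons (nat_lit 522) (.cons (nat_lit 515) (.cons (nat_lit 5) .nil .nil) (.cons (nat_lit 532) (.cons (nat_lit 658) (.cons (nat_lit 652) (.cons (nat_lit 778) (.cons (nat_lit 771) (.cons (nat_lit 5) .nil .nil) .nil) .nil) .nil) (.cons (nat_lit 657) (.cons (nat_lit 660) (.cons (nat_lit 790) (.cons (nat_lit 788) (.cons (nat_lit 914) Uxp15n9 .nil) .nil) .nil) .nil) (.cons (nat_lit 662) (.cons (nat_lit 660) (.cons (nat_lit 790) (.cons (nat_lit 787) (.cons (nat_lit 788) (.cons (nat_lit 913) Uxp15n28 .nil) .nil) .nil) (.cons (nat_lit 785) (.cons (nat_lit 788) Uxp15n48 .nil) .nil)) .nil) .nil))) .nil)) (.cons (nat_lit 534) (.cons (nat_lit 532) (.cons (nat_lit 658) (.cons (nat_lit 652) (.cons (nat_lit 778) (.cons (nat_lit 772)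 (.cons (nat_lit 902) (.cons (nat_lit 899) (.cons (nat_lit 33667) (.cons (nat_lit 5) .nil .nil) .nil) .nil) (.cons (nat_lit 906) (.cons (nat_lit 900) (.cons (nat_lit 1025) Uxp15n63 .nil) .nil) (.cons (nat_lit 905) (.cons (nat_lit 908) (.cons (nat_lit 1034) Uxp15n63 .nil) .nil) .nil))) .nil) (.cons (nat_lit 785) (.cons (nat_lit 788) (.cons (nat_lit 914) (.cons (nat_lit 908) (.cons (nat_lit 1034) Uxp15n63 (.cons (nat_lit 1033) (.cons (nat_lit 1036) (.cons (nat_lit 1162) (.cons (nat_lit 1156) (.cons (nat_lit 1281) Uxp15n75 .nil) .nil) .nil) .nil) .nil)) .nil) .nil) .nil) .nil)) .nil) (.cons (nat_lit 657) (.cons (nat_lit 660) (.cons (nat_lit 786) (.cons (nat_lit 780) (.cons (nat_lit 906) Uxp15n91 (.cons (nat_lit 913) (.cons (nat_lit 916) (.cons (nat_lit 1042) (.cons (nat_lit 1036) Uxp15n94 .nil) .nil) .nil) .nil)) .nil) Uxp15n119) .nil) (.cons (nat_lit 670) (.cons (nat_lit 668) (.cons (nat_lit 793) (.cons (nat_lit 796)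 (.cons (nat_lit 926) Uxp15n135 .nil) .nil) .nil) .nil) .nil))) .nil) (.cons (nat_lit 529) (.cons (nat_lit 532) (.cons (nat_lit 662) (.cons (nat_lit 660) (.cons (nat_lit 794) Uxp15n151 (.cons (nat_lit 785) (.cons (nat_lit 788) Uxp15n48 .nil) (.cons (nat_lit 798) (.cons (nat_lit 795) (.cons (nat_lit 796) (.cons (nat_lit 922) Uxp15n28 .nil) .nil) .nil) .nil))) .nil) (.cons (nat_lit 666) (.cons (nat_lit 660) (.cons (nat_lit 790) (.cons (nat_lit 788) (.cons (nat_lit 914) Uxp15n9 (.cons (nat_lit 913) Uxp15n168 .nil)) .nil) (.cons (nat_lit 785) (.cons (nat_lit 788) Uxp15n192 .nil) .nil)) .nil) .nil)) .nil) .nil))) .nil) Uxp15n503) .nil)) Uxp15n1108) .nil) (.cons (nat_lit 153) (.cons (nat_lit 156) (.cons (nat_lit 282) (.cons (nat_lit 276) (.cons (nat_lit 402) (.cons (nat_lit 396) (.cons (nat_lit 522) Uxp15n1291 Uxp15n1691) .nil) (.cons (nat_lit 409) (.cons (nat_lit 412) (.cons (nat_lit 538) (.cons (nat_lit 532) (.cons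 (nat_lit 658) (.cons (nat_lit 652) (.cons (nat_lit 778) (.cons (nat_lit 771) (.cons (nat_lit 5) .nil .nil) (.cons (nat_lit 780) (.cons (nat_lit 906) (.cons (nat_lit 900) (.cons (nat_lit 1025) (.cons (nat_lit 1027) (.cons (nat_lit 5) .nil .nil) (.cons (nat_lit 1036) (.cons (nat_lit 1162) Uxp15n1295 .nil) .nil)) (.cons (nat_lit 1034) (.cons (nat_lit 1027) (.cons (nat_lit 5) .nil .nil) .nil) .nil)) .nil) Uxp15n1301) .nil)) (.cons (nat_lit 777) (.cons (nat_lit 780) (.cons (nat_lit 906) (.cons (nat_lit 900) (.cons (nat_lit 1025) (.cons (nat_lit 1027) (.cons (nat_lit 5) .nil .nil) Uxp15n1314) (.cons (nat_lit 1034) Uxp15n1298 Uxp15n1339)) .nil) (.cons (nat_lit 918) (.cons (nat_lit 916) (.cons (nat_lit 1042) Uxp15n1713 Uxp15n1405) .nil) .nil)) .nil) (.cons (nat_lit 790) (.cons (nat_lit 788) (.cons (nat_lit 914) Uxp15n1185 (.cons (nat_lit 913) Uxp15n1422 (.cons (nat_lit 918) (.cons (nat_lit 916) (.cons (nat_lit 1041) (.cons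 (nat_lit 1043) (.cons (nat_lit 916) (.cons (nat_lit 1169) Uxp15n1137 (.cons (nat_lit 1178) Uxp15n1137 .nil)) .nil) (.cons (nat_lit 1052) (.cons (nat_lit 1182) Uxp15n642 (.cons (nat_lit 1178) (.cons (nat_lit 1172) (.cons (nat_lit 1297) (.cons (nat_lit 1299) (.cons (nat_lit 916) (.cons (nat_lit 1425) Uxp15n1727 .nil) .nil) .nil) .nil) .nil) .nil)) .nil)) .nil) .nil) .nil))) .nil) .nil))) .nil) Uxp15n2182) .nil) (.cons (nat_lit 542) (.cons (nat_lit 540) Uxp15n2350 .nil) .nil)) .nil) (.cons (nat_lit 414) Uxp15n2529 .nil))) .nil) (.cons (nat_lit 286) (.cons (nat_lit 284) Uxp15n2775 .nil) .nil)) .nil) (.cons (nat_lit 158) (.cons (nat_lit 156) Uxp15n3120 .nil) .nil)))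
def Uxt15 : PT := (.cons (nat_lit 20) Uxp15n3124 .nil)
def Uxp15 : Prog := ⟨1635, 7, 2, 0, Uxt15, 0, dt0⟩

end Pool.Agent.Hom2.UC
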