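import Pool.Agent.Lib.MP_7e4769_co.Hc.UDb

set_option autoImplicit false
set_option maxRecDepth 100000

namespace Pool.Agent.Hom2.UC

def Uxp19n9 : PT := (.cons (nat_lit 908) (.cons (nat_lit 1034) (.cons (nat_lit 1028) (.cons (nat_lit 1158) (.cons (nat_lit 1155) (.cons (nat_lit 50307) (.cons (nat_lit 5) .nil .nil) .nil) .nil) .nil) .nil) .nil) .nil)
def Uxp19n19 : PT := (.cons (nat_lit 1420) (.cons (nat_lit 1550) (.cons (nat_lit 83467) (.cons (nat_lit 1548) (.cons (nat_lit 1674) (.cons (nat_lit 67203) (.cons (nat_lit 5) .nil .nil) .nil) .nil) .nil) .nil) .nil) .nil)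
def Uxp19n28 : PT := (.cons (nat_lit 916) (.cons (nat_lit 1046) (.cons (nat_lit 1044) (.cons (nat_lit 1170) (.cons (nat_lit 1164) (.cons (nat_lit 1294) (.cons (nat_lit 1292) (.cons (nat_lit 1422) (.cons (nat_lit 42379) Uxp19n19 .nil) .nil) .nil) .nil) .nil) .nil) .nil) .nil) .nil)
def Uxp19n48 : PT := (.cons (nat_lit 918) (.cons (nat_lit 916) (.cons (nat_lit 1042) (.cons (nat_lit 1036) (.cons (nat_lit 1166) (.cons (nat_lit 1164) (.cons (nat_lit 1294) (.cons (nat_lit 1292) (.cons (nat_lit 1418) (.cons (nat_lit 58755) (.cons (nat_lit 1284) (.cons (nat_lit 1542) (.cons (nat_lit 75267) (.cons (nat_lit 1540) (.cons (nat_lit 1670) (.cons (nat_lit 1667) (.cons (nat_lit 42627) (.cons (nat_lit 5) .nil .nil) .nil) .nil) .nil) .nil) .nil) .nil) .nil) .nil) .nil) .nil) .nil) .nil) .nil) .nil) .nil) .nil) .nil)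
def Uxp19n63 : PT := (.cons (nat_lit 1028) (.cons (nat_lit 1158) (.cons (nat_lit 1155) (.cons (nat_lit 33923) (.cons (nat_lit 5) .nil .nil) .nil) .nil) .nil) .nil)
def Uxp19n75 : PT := (.cons (nat_lit 1284) (.cons (nat_lit 1414) (.cons (nat_lit 1411) (.cons (nat_lit 34179) (.cons (nat_lit 5) .nil .nil) .nil) .nil) .nil) .nil)
def Uxp19n91 : PT := (.cons (nat_lit 900) (.cons (nat_lit 1025) (.cons (nat_lit 1028) (.cons (nat_lit 1158) (.cons (nat_lit 1155) (.cons (nat_lit 33923) (.cons (nat_lit 5) .nil .nil) .nil) .nil) (.cons (nat_lit 1162) (.cons (nat_lit 1156) (.cons (nat_lit 1281) Uxp19n75 .nil) .nil) .nil)) .nil) (.cons (nat_lit 1034) Uxp19n63 .nil)) .nil)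
def Uxp19n94 : PT := (.cons (nat_lit 1161) (.cons (nat_lit 1164) (.cons (nat_lit 1290) Uxp19n75 .nil) .nil) (.cons (nat_lit 1162) (.cons (nat_lit 1156) (.cons (nat_lit 1281) Uxp19n75 .nil) .nil) .nil))
def Uxp19n103 : PT := (.cons (nat_lit 1548) (.cons (nat_lit 1674) (.cons (nat_lit 1667) (.cons (nat_lit 5) .nil .nil) .nil) .nil) .nil)
def Uxp19n119 : PT := (.cons (nat_lit 798) (.cons (nat_lit 796) (.cons (nat_lit 922) (.cons (nat_lit 916) (.cons (nat_lit 1046) (.cons (nat_lit 1044) (.cons (nat_lit 1174) (.cons (nat_lit 1172) (.cons (nat_lit 1298) (.cons (nat_lit 50443) (.cons (nat_lit 1164) (.cons (nat_lit 1422) (.cons (nat_lit 66955) (.cons (nat_lit 1420) (.cons (nat_lit 1550) (.cons (nat_lit 34315) Uxp19n103 .nil) .nil) .nil) .nil) .nil) .nil) .nil) .nil) .nil) .nil) .nil) .nil) .nil) .nil) .nil) .nil)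
def Uxp19n135 : PT := (.cons (nat_lit 924) (.cons (nat_lit 1050) (.cons (nat_lit 1044) (.cons (nat_lit 1174) (.cons (nat_lit 1172) (.cons (nat_lit 1302) (.cons (nat_lit 34067) (.cons (nat_lit 1300) (.cons (nat_lit 1430) (.cons (nat_lit 75155) (.cons (nat_lit 1428) (.cons (nat_lit 1554) (.cons (nat_lit 58891) (.cons (nat_lit 652) (.cons (nat_lit 1674) (.cons (nat_lit 1667) (.cons (nat_lit 5) .nil .nil) .nil) .nil) .nil) .nil) .nil) .nil) .nil) .nil) .nil) .nil) .nil) .nil) .nil) .nil) .nil) .nil)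
def Uxp19n146 : PT := (.cons (nat_lit 1036) (.cons (nat_lit 1162) (.cons (nat_lit 1155) (.cons (nat_lit 5) .nil .nil) .nil) .nil) .nil)
def Uxp19n151 : PT := (.cons (nat_lit 788) (.cons (nat_lit 914) (.cons (nat_lit 908) (.cons (nat_lit 1038) (.cons (nat_lit 41995) Uxp19n146 .nil) .nil) .nil) Uxp19n48) .nil)
def Uxp19n162 : PT := (.cons (nat_lit 1284) (.cons (nat_lit 1414) (.cons (nat_lit 1411) (.cons (nat_lit 50563) (.cons (nat_lit 5) .nil .nil) .nil) .nil) .nil) .nil)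
def Uxp19n168 : PT := (.cons (nat_lit 916) (.cons (nat_lit 1042) (.cons (nat_lit 1036) (.cons (nat_lit 1162) (.cons (nat_lit 1156) (.cons (nat_lit 1281) Uxp19n162 .nil) .nil) .nil) .nil) .nil) .nil)
def Uxp19n188 : PT := (.cons (nat_lit 1174) (.cons (nat_lit 1172) (.cons (nat_lit 1298) (.cons (nat_lit 1292) (.cons (nat_lit 1422) (.cons (nat_lit 1420) (.cons (nat_lit 1550) (.cons (nat_lit 1548) (.cons (nat_lit 1674) (.cons (nat_lit 75395) (.cons (nat_lit 1540) (.cons (nat_lit 1798) (.cons (nat_lit 91907) (.cons (nat_lit 1796) (.cons (nat_lit 1926) (.cons (nat_lit 1923) (.cons (nat_lit 59267) (.cons (nat_lit 5) .nil .nil) .nil) .nil) .nil) .nil) .nil) .nil) .nil) .nil) .nil) .nil) .nil) .nil) .nil) .nil) .nil) .nil) .nil)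
def Uxp19n192 : PT := (.cons (nat_lit 918) (.cons (nat_lit 916) (.cons (nat_lit 1041) (.cons (nat_lit 1044) Uxp19n188 .nil) .nil) .nil) .nil)
def Uxp19n206 : PT := (.cons (nat_lit 908) (.cons (nat_lit 1034) (.cons (nat_lit 1027) (.cons (nat_lit 5) .nil .nil) .nil) .nil) .nil)
def Uxp19n210 : PT := (.cons (nat_lit 785) (.cons (nat_lit 788) (.cons (nat_lit 914) Uxp19n206 Uxp19n192) .nil) (.cons (nat_lit 790) (.cons (nat_lit 788) (.cons (nat_lit 914) Uxp19n9 (.cons (nat_lit 913) Uxp19n168 .nil)) .nil) .nil))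
def Uxp19n218 : PT := (.cons (nat_lit 1164) (.cons (nat_lit 1290) (.cons (nat_lit 1284) (.cons (nat_lit 1414) (.cons (nat_lit 1411) (.cons (nat_lit 66947) (.cons (nat_lit 5) .nil .nil) .nil) .nil) .nil) .nil) .nil) .nil)
def Uxp19n228 : PT := (.cons (nat_lit 1676) (.cons (nat_lit 1806) (.cons (nat_lit 100107) (.cons (nat_lit 1804) (.cons (nat_lit 1930) (.cons (nat_lit 83843) (.cons (nat_lit 5) .nil .nil) .nil) .nil) .nil) .nil) .nil) .nil)
def Uxp19n237 : PT := (.cons (nat_lit 1172) (.cons (nat_lit 1302) (.cons (nat_lit 1300) (.cons (nat_lit 1426) (.cons (nat_lit 1420) (.cons (nat_lit 1550) (.cons (nat_lit 1548) (.cons (nat_lit 1678) (.cons (nat_lit 59019) Uxp19n228 .nil) .nil) .nil) .nil) .nil) .nil) .nil) .nil) .nil)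
def Uxp19n247 : PT := (.cons (nat_lit 788) (.cons (nat_lit 914) Uxp19n206 (.cons (nat_lit 913) (.cons (nat_lit 916) (.cons (nat_lit 1046) (.cons (nat_lit 1044) (.cons (nat_lit 1170) Uxp19n218 .nil) .nil) .nil) .nil) (.cons (nat_lit 918) (.cons (nat_lit 916) (.cons (nat_lit 1041) (.cons (nat_lit 1044) Uxp19n188 .nil) (.cons (nat_lit 1046) (.cons (nat_lit 1043) (.cons (nat_lit 1044) (.cons (nat_lit 1169) Uxp19n237 .nil) .nil) .nil) .nil)) .nil) .nil))) .nil)
def Uxp19n251 : PT := (.cons (nat_lit 1162) (.cons (nat_lit 1156) (.cons (nat_lit 1281) Uxp19n162 .nil) .nil) (.cons (nat_lit 1161) (.cons (nat_lit 1164) (.cons (nat_lit 1290) Uxp19n162 .nil) .nil) .nil))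
def Uxp19n257 : PT := (.cons (nat_lit 1540) (.cons (nat_lit 1670) (.cons (nat_lit 1667) (.cons (nat_lit 50819) (.cons (nat_lit 5) .nil .nil) .nil) .nil) .nil) .nil)
def Uxp19n264 : PT := (.cons (nat_lit 1164) (.cons (nat_lit 1290) Uxp19n162 (.cons (nat_lit 1289) (.cons (nat_lit 1292) (.cons (nat_lit 1418) (.cons (nat_lit 1412) (.cons (nat_lit 1537) Uxp19n257 .nil) .nil) .nil) .nil) .nil)) .nil)
def Uxp19n272 : PT := (.cons (nat_lit 1417) (.cons (nat_lit 1420) (.cons (nat_lit 1546) Uxp19n257 .nil) .nil) (.cons (nat_lit 1418) (.cons (nat_lit 1412) (.cons (nat_lit 1537) Uxp19n257 .nil) .nil) .nil))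
def Uxp19n276 : PT := (.cons (nat_lit 1169) (.cons (nat_lit 1172) (.cons (nat_lit 1298) (.cons (nat_lit 1292) Uxp19n272 .nil) .nil) .nil) .nil)
def Uxp19n281 : PT := (.cons (nat_lit 1804) (.cons (nat_lit 1930) (.cons (nat_lit 1923) (.cons (nat_lit 5) .nil .nil) .nil) .nil) .nil)
def Uxp19n297 : PT := (.cons (nat_lit 1054) (.cons (nat_lit 1052) (.cons (nat_lit 1178) (.cons (nat_lit 1172) (.cons (nat_lit 1302) (.cons (nat_lit 1300) (.cons (nat_lit 1430) (.cons (nat_lit 1428) (.cons (nat_lit 1554) (.cons (nat_lit 67083) (.cons (nat_lit 1420) (.cons (nat_lit 1678) (.cons (nat_lit 83595) (.cons (nat_lit 1676) (.cons (nat_lit 1806) (.cons (nat_lit 50955) Uxp19n281 .nil) .nil) .nil) .nil) .nil) .nil) .nil) .nil) .nil) .nil) .nil) .nil) .nil) .nil) .nil) .nil)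
def Uxp19n299 : PT := (.cons (nat_lit 924) (.cons (nat_lit 1050) (.cons (nat_lit 1044) (.cons (nat_lit 1170) Uxp19n264 Uxp19n276) .nil) Uxp19n297) .nil)
def Uxp19n308 : PT := (.cons (nat_lit 1292) (.cons (nat_lit 1418) (.cons (nat_lit 1411) (.cons (nat_lit 5) .nil .nil) .nil) .nil) .nil)
def Uxp19n313 : PT := (.cons (nat_lit 1036) (.cons (nat_lit 1161) (.cons (nat_lit 1164) (.cons (nat_lit 1294) (.cons (nat_lit 42251) Uxp19n308 .nil) .nil) .nil) .nil) .nil)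
def Uxp19n317 : PT := (.cons (nat_lit 788) (.cons (nat_lit 922) (.cons (nat_lit 916) (.cons (nat_lit 1042) Uxp19n313 .nil) .nil) Uxp19n48) .nil)
def Uxp19n334 : PT := (.cons (nat_lit 1028) (.cons (nat_lit 1158) (.cons (nat_lit 1155) (.cons (nat_lit 33923) (.cons (nat_lit 5) .nil .nil) .nil) .nil) Uxp19n94) .nil)
def Uxp19n344 : PT := (.cons (nat_lit 1540) (.cons (nat_lit 1670) (.cons (nat_lit 1667) (.cons (nat_lit 34435) (.cons (nat_lit 5) .nil .nil) .nil) .nil) .nil) .nil)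
def Uxp19n352 : PT := (.cons (nat_lit 1162) (.cons (nat_lit 1156) (.cons (nat_lit 1281) (.cons (nat_lit 1284) (.cons (nat_lit 1414) (.cons (nat_lit 1411) (.cons (nat_lit 34179) (.cons (nat_lit 5) .nil .nil) .nil) .nil) (.cons (nat_lit 1418) (.cons (nat_lit 1412) (.cons (nat_lit 1537) Uxp19n344 .nil) .nil) .nil)) .nil) (.cons (nat_lit 1290) Uxp19n75 .nil)) .nil) .nil)
def Uxp19n356 : PT := (.cons (nat_lit 908) (.cons (nat_lit 1034) Uxp19n334 (.cons (nat_lit 1033) (.cons (nat_lit 1036) Uxp19n352 .nil) .nil)) .nil)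
def Uxp19n364 : PT := (.cons (nat_lit 1417) (.cons (nat_lit 1420) (.cons (nat_lit 1546) Uxp19n344 .nil) .nil) (.cons (nat_lit 1418) (.cons (nat_lit 1412) (.cons (nat_lit 1537) Uxp19n344 .nil) .nil) .nil))
def Uxp19n386 : PT := (.cons (nat_lit 916) (.cons (nat_lit 1046) (.cons (nat_lit 1044) (.cons (nat_lit 1170) (.cons (nat_lit 1164) (.cons (nat_lit 1294) (.cons (nat_lit 1292) (.cons (nat_lit 1422) (.cons (nat_lit 34187) Uxp19n19 .nil) .nil) .nil) .nil) .nil) .nil) .nil) .nil) .nil)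
def Uxp19n390 : PT := (.cons (nat_lit 802) (.cons (nat_lit 795) (.cons (nat_lit 668) (.cons (nat_lit 922) Uxp19n386 .nil) .nil) .nil) .nil)
def Uxp19n408 : PT := (.cons (nat_lit 914) (.cons (nat_lit 908) (.cons (nat_lit 1038) (.cons (nat_lit 25611) Uxp19n146 .nil) .nil) .nil) .nil)
def Uxp19n419 : PT := (.cons (nat_lit 1042) (.cons (nat_lit 1036) (.cons (nat_lit 1161) (.cons (nat_lit 1164) (.cons (nat_lit 1294) (.cons (nat_lit 25867) Uxp19n308 .nil) .nil) .nil) .nil) .nil) .nil)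
def Uxp19n450 : PT := (.cons (nat_lit 1170) (.cons (nat_lit 1164) (.cons (nat_lit 1294) (.cons (nat_lit 25867) Uxp19n308 .nil) .nil) .nil) .nil)
def Uxp19n493 : PT := (.cons (nat_lit 660) (.cons (nat_lit 790) (.cons (nat_lit 788) (.cons (nat_lit 914) (.cons (nat_lit 908) (.cons (nat_lit 1038) (.cons (nat_lit 1036) (.cons (nat_lit 1166) (.cons (nat_lit 25739) (.cons (nat_lit 1164) (.cons (nat_lit 1294) (.cons (nat_lit 66827) (.cons (nat_lit 1292) (.cons (nat_lit 1418) (.cons (nat_lit 50563) (.cons (nat_lit 5) .nil .nil) .nil) .nil) .nil) .nil) .nil) .nil) .nil) .nil) .nil) .nil) .nil) .nil) .nil) .nil) .nil)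
def Uxp19n503 : PT := (.cons (nat_lit 401) (.cons (nat_lit 404) (.cons (nat_lit 538) (.cons (nat_lit 532) (.cons (nat_lit 658) (.cons (nat_lit 652) (.cons (nat_lit 778) (.cons (nat_lit 771) (.cons (nat_lit 5) .nil .nil) .nil) Uxp19n210) .nil) (.cons (nat_lit 657) (.cons (nat_lit 660) (.cons (nat_lit 794) Uxp19n247 (.cons (nat_lit 790) (.cons (nat_lit 788) (.cons (nat_lit 914) (.cons (nat_lit 908) (.cons (nat_lit 1034) (.cons (nat_lit 1028) (.cons (nat_lit 1158) (.cons (nat_lit 1155) (.cons (nat_lit 50307) (.cons (nat_lit 5) .nil .nil) .nil) .nil) Uxp19n251) .nil) (.cons (nat_lit 1041) (.cons (nat_lit 1044) (.cons (nat_lit 1170) Uxp19n264 .nil) .nil) .nil)) .nil) (.cons (nat_lit 921) Uxp19n299 .nil)) .nil) .nil)) .nil) (.cons (nat_lit 662) (.cons (nat_lit 660) (.cons (nat_lit 794) Uxp19n151 (.cons (nat_lit 785) Uxp19n317 (.cons (nat_lit 790) (.cons (nat_lit 787) (.cons (nat_lit 788) (.cons (nat_lit 913) Uxp19n28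 (.cons (nat_lit 922) Uxp19n28 .nil)) .nil) .nil) .nil))) .nil) .nil))) .nil) (.cons (nat_lit 534) (.cons (nat_lit 532) (.cons (nat_lit 658) (.cons (nat_lit 652) (.cons (nat_lit 778) (.cons (nat_lit 772) (.cons (nat_lit 902) (.cons (nat_lit 899) (.cons (nat_lit 33667) (.cons (nat_lit 5) .nil .nil) .nil) (.cons (nat_lit 33683) (.cons (nat_lit 916) (.cons (nat_lit 1042) Uxp19n146 .nil) .nil) .nil)) (.cons (nat_lit 905) (.cons (nat_lit 908) (.cons (nat_lit 1034) Uxp19n334 .nil) .nil) (.cons (nat_lit 906) Uxp19n91 .nil))) .nil) (.cons (nat_lit 785) (.cons (nat_lit 788) (.cons (nat_lit 914) Uxp19n356 .nil) .nil) Uxp19n119)) .nil) (.cons (nat_lit 665) (.cons (nat_lit 668) (.cons (nat_lit 794) (.cons (nat_lit 788) (.cons (nat_lit 914) Uxp19n356 (.cons (nat_lit 913) (.cons (nat_lit 916) (.cons (nat_lit 1042) (.cons (nat_lit 1036) (.cons (nat_lit 1161) (.cons (nat_lit 1164) (.cons (nat_lit 1290) (.cons (nat_lit 1284) (.cons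 (nat_lit 1414) (.cons (nat_lit 1411) (.cons (nat_lit 34179) (.cons (nat_lit 5) .nil .nil) .nil) .nil) Uxp19n364) .nil) .nil) .nil) Uxp19n352) .nil) .nil) .nil) .nil)) .nil) Uxp19n119) .nil) (.cons (nat_lit 678) (.cons (nat_lit 676) Uxp19n390 .nil) .nil))) .nil) .nil)) .nil) (.cons (nat_lit 406) (.cons (nat_lit 404) (.cons (nat_lit 538) (.cons (nat_lit 532) (.cons (nat_lit 658) (.cons (nat_lit 652) (.cons (nat_lit 782) (.cons (nat_lit 25355) (.cons (nat_lit 780) (.cons (nat_lit 906) (.cons (nat_lit 899) (.cons (nat_lit 5) .nil .nil) .nil) .nil) .nil) .nil) (.cons (nat_lit 786) (.cons (nat_lit 780) (.cons (nat_lit 905) (.cons (nat_lit 908) (.cons (nat_lit 1038) (.cons (nat_lit 25611) Uxp19n146 .nil) .nil) .nil) .nil) .nil) (.cons (nat_lit 785) (.cons (nat_lit 788) Uxp19n408 .nil) .nil))) .nil) (.cons (nat_lit 665) (.cons (nat_lit 668) (.cons (nat_lit 794) (.cons (nat_lit 788) (.cons (nat_lit 914) (.cons (nat_lit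 908) (.cons (nat_lit 1038) (.cons (nat_lit 25611) Uxp19n146 .nil) .nil) .nil) (.cons (nat_lit 913) (.cons (nat_lit 916) Uxp19n419 .nil) .nil)) .nil) .nil) .nil) (.cons (nat_lit 662) (.cons (nat_lit 660) (.cons (nat_lit 786) (.cons (nat_lit 780) (.cons (nat_lit 910) (.cons (nat_lit 908) (.cons (nat_lit 1038) (.cons (nat_lit 1036) (.cons (nat_lit 1162) (.cons (nat_lit 42115) (.cons (nat_lit 1028) (.cons (nat_lit 1286) (.cons (nat_lit 58627) (.cons (nat_lit 1284) (.cons (nat_lit 1414) (.cons (nat_lit 1411) (.cons (nat_lit 25987) (.cons (nat_lit 5) .nil .nil) .nil) .nil) .nil) .nil) .nil) .nil) .nil) .nil) .nil) .nil) .nil) .nil) .nil) .nil) .nil) .nil) .nil))) .nil) (.cons (nat_lit 529) (.cons (nat_lit 532) (.cons (nat_lit 666) (.cons (nat_lit 660) (.cons (nat_lit 786) (.cons (nat_lit 780) (.cons (nat_lit 905) (.cons (nat_lit 908) (.cons (nat_lit 1038) (.cons (nat_lit 25611) Uxp19n146 .nil) Uxp19n419) .nil) Uxp19n408)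 .nil) (.cons (nat_lit 793) (.cons (nat_lit 796) (.cons (nat_lit 922) (.cons (nat_lit 916) (.cons (nat_lit 1041) (.cons (nat_lit 1044) Uxp19n450 .nil) Uxp19n419) .nil) .nil) .nil) .nil)) .nil) (.cons (nat_lit 662) (.cons (nat_lit 660) (.cons (nat_lit 786) (.cons (nat_lit 780) (.cons (nat_lit 910) (.cons (nat_lit 908) (.cons (nat_lit 1038) (.cons (nat_lit 1036) (.cons (nat_lit 1162) (.cons (nat_lit 42115) (.cons (nat_lit 1028) (.cons (nat_lit 1286) (.cons (nat_lit 58627) (.cons (nat_lit 1284) (.cons (nat_lit 1414) (.cons (nat_lit 1411) (.cons (nat_lit 25987) (.cons (nat_lit 5) .nil .nil) .nil) (.cons (nat_lit 26003) (.cons (nat_lit 1428) (.cons (nat_lit 1554) Uxp19n103 .nil) .nil) .nil)) .nil) .nil) .nil) .nil) .nil) .nil) .nil) .nil) .nil) .nil) .nil) .nil) .nil) .nil) .nil)) .nil) (.cons (nat_lit 534) (.cons (nat_lit 531) (.cons (nat_lit 532) (.cons (nat_lit 657) Uxp19n493 (.cons (nat_lit 666) Uxp19n493 .nil))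 .nil) .nil) .nil))) .nil) .nil))
def Uxp19n509 : PT := (.cons (nat_lit 1164) (.cons (nat_lit 1290) (.cons (nat_lit 1283) (.cons (nat_lit 5) .nil .nil) .nil) .nil) .nil)
def Uxp19n512 : PT := (.cons (nat_lit 1027) (.cons (nat_lit 5) .nil .nil) (.cons (nat_lit 1036) (.cons (nat_lit 1161) Uxp19n509 .nil) .nil))
def Uxp19n514 : PT := (.cons (nat_lit 908) (.cons (nat_lit 1034) Uxp19n512 (.cons (nat_lit 1046) (.cons (nat_lit 1044) (.cons (nat_lit 1170) Uxp19n218 .nil) .nil) .nil)) .nil)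
def Uxp19n515 : PT := (.cons (nat_lit 1046) (.cons (nat_lit 1043) (.cons (nat_lit 1044) (.cons (nat_lit 1169) Uxp19n237 .nil) .nil) .nil) (.cons (nat_lit 1041) (.cons (nat_lit 1044) Uxp19n188 .nil) .nil))
def Uxp19n540 : PT := (.cons (nat_lit 1297) (.cons (nat_lit 1300) (.cons (nat_lit 1430) (.cons (nat_lit 1428) (.cons (nat_lit 1554) (.cons (nat_lit 1548) (.cons (nat_lit 1678) (.cons (nat_lit 1676) (.cons (nat_lit 1806) (.cons (nat_lit 1804) (.cons (nat_lit 1930) (.cons (nat_lit 92035) (.cons (nat_lit 1796) (.cons (nat_lit 2054) (.cons (nat_lit 108547) (.cons (nat_lit 2052) (.cons (nat_lit 2182) (.cons (nat_lit 2179) (.cons (nat_lit 75907) (.cons (nat_lit 5) .nil .nil) .nil) .nil) .nil) .nil) .nil) .nil) .nil) .nil) .nil) .nil) .nil) .nil) .nil) .nil) .nil) .nil) .nil) .nil) .nil)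
def Uxp19n547 : PT := (.cons (nat_lit 1540) (.cons (nat_lit 1670) (.cons (nat_lit 1667) (.cons (nat_lit 67203) (.cons (nat_lit 5) .nil .nil) .nil) .nil) .nil) .nil)
def Uxp19n553 : PT := (.cons (nat_lit 1172) (.cons (nat_lit 1298) (.cons (nat_lit 1292) (.cons (nat_lit 1418) (.cons (nat_lit 1412) (.cons (nat_lit 1537) Uxp19n547 .nil) .nil) .nil) .nil) .nil) .nil)
def Uxp19n569 : PT := (.cons (nat_lit 1054) (.cons (nat_lit 1051) (.cons (nat_lit 1052) (.cons (nat_lit 1178) Uxp19n237 .nil) .nil) .nil) .nil)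
def Uxp19n583 : PT := (.cons (nat_lit 908) (.cons (nat_lit 1034) (.cons (nat_lit 1028) (.cons (nat_lit 1158) (.cons (nat_lit 1155) (.cons (nat_lit 50307) (.cons (nat_lit 5) .nil .nil) .nil) (.cons (nat_lit 50315) (.cons (nat_lit 1164) (.cons (nat_lit 1289) Uxp19n308 .nil) .nil) .nil)) Uxp19n251) .nil) (.cons (nat_lit 1041) (.cons (nat_lit 1044) (.cons (nat_lit 1170) Uxp19n264 .nil) .nil) .nil)) .nil)
def Uxp19n605 : PT := (.cons (nat_lit 1180) (.cons (nat_lit 1306) (.cons (nat_lit 1300) (.cons (nat_lit 1430) (.cons (nat_lit 1428) (.cons (nat_lit 1558) (.cons (nat_lit 50707) (.cons (nat_lit 1556) (.cons (nat_lit 1686) (.cons (nat_lit 91795) (.cons (nat_lit 1684) (.cons (nat_lit 1810) (.cons (nat_lit 75531) (.cons (nat_lit 908) (.cons (nat_lit 1930) (.cons (nat_lit 1923) (.cons (nat_lit 5) .nil .nil) .nil) .nil) .nil) .nil) .nil) .nil) .nil) .nil) .nil) .nil) .nil) .nil) .nil) .nil) .nil) .nil)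
def Uxp19n618 : PT := (.cons (nat_lit 1155) (.cons (nat_lit 5) .nil .nil) (.cons (nat_lit 1164) (.cons (nat_lit 1289) Uxp19n308 .nil) .nil))
def Uxp19n623 : PT := (.cons (nat_lit 1036) (.cons (nat_lit 1162) Uxp19n618 (.cons (nat_lit 1169) (.cons (nat_lit 1172) (.cons (nat_lit 1298) Uxp19n308 .nil) .nil) .nil)) .nil)
def Uxp19n636 : PT := (.cons (nat_lit 1298) (.cons (nat_lit 1292) (.cons (nat_lit 1417) (.cons (nat_lit 1420) (.cons (nat_lit 1550) (.cons (nat_lit 42507) Uxp19n103 .nil) .nil) .nil) .nil) .nil) .nil)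
def Uxp19n640 : PT := (.cons (nat_lit 1044) (.cons (nat_lit 1170) (.cons (nat_lit 1164) (.cons (nat_lit 1294) (.cons (nat_lit 42251) Uxp19n308 .nil) .nil) .nil) (.cons (nat_lit 1169) (.cons (nat_lit 1172) Uxp19n636 .nil) .nil)) .nil)
def Uxp19n703 : PT := (.cons (nat_lit 1172) (.cons (nat_lit 1302) (.cons (nat_lit 1300) (.cons (nat_lit 1426) (.cons (nat_lit 1420) (.cons (nat_lit 1550) (.cons (nat_lit 1548) (.cons (nat_lit 1678) (.cons (nat_lit 42635) Uxp19n228 .nil) .nil) .nil) .nil) .nil) .nil) .nil) .nil) .nil)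
def Uxp19n708 : PT := (.cons (nat_lit 932) (.cons (nat_lit 1058) (.cons (nat_lit 1051) (.cons (nat_lit 796) (.cons (nat_lit 1178) Uxp19n703 .nil) .nil) .nil) .nil) .nil)
def Uxp19n751 : PT := (.cons (nat_lit 1155) (.cons (nat_lit 33923) (.cons (nat_lit 5) .nil .nil) .nil) (.cons (nat_lit 33931) (.cons (nat_lit 1164) (.cons (nat_lit 1289) Uxp19n308 .nil) .nil) .nil))
def Uxp19n767 : PT := (.cons (nat_lit 1411) (.cons (nat_lit 34179) (.cons (nat_lit 5) .nil .nil) .nil) (.cons (nat_lit 34187) (.cons (nat_lit 1420) (.cons (nat_lit 1545) Uxp19n103 .nil) .nil) .nil))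
def Uxp19n772 : PT := (.cons (nat_lit 1162) (.cons (nat_lit 1156) (.cons (nat_lit 1281) (.cons (nat_lit 1284) (.cons (nat_lit 1414) Uxp19n767 (.cons (nat_lit 1418) (.cons (nat_lit 1412) (.cons (nat_lit 1537) Uxp19n344 .nil) .nil) .nil)) .nil) (.cons (nat_lit 1290) Uxp19n75 .nil)) .nil) .nil)
def Uxp19n799 : PT := (.cons (nat_lit 1667) (.cons (nat_lit 5) .nil .nil) (.cons (nat_lit 1676) (.cons (nat_lit 1801) Uxp19n281 .nil) .nil))
def Uxp19n828 : PT := (.cons (nat_lit 1172) (.cons (nat_lit 1302) (.cons (nat_lit 1300) (.cons (nat_lit 1426) (.cons (nat_lit 1420) (.cons (nat_lit 1550) (.cons (nat_lit 1548) (.cons (nat_lit 1678) (.cons (nat_lit 34443) Uxp19n228 .nil) .nil) .nil) .nil) .nil) .nil) .nil) .nil) .nil)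
def Uxp19n834 : PT := (.cons (nat_lit 930) (.cons (nat_lit 924) (.cons (nat_lit 1050) (.cons (nat_lit 1043) (.cons (nat_lit 660) (.cons (nat_lit 1169) Uxp19n828 .nil) .nil) .nil) .nil) .nil) .nil)
def Uxp19n845 : PT := (.cons (nat_lit 529) (.cons (nat_lit 532) (.cons (nat_lit 658) (.cons (nat_lit 652) (.cons (nat_lit 778) (.cons (nat_lit 771) (.cons (nat_lit 5) .nil .nil) (.cons (nat_lit 780) (.cons (nat_lit 905) Uxp19n514 (.cons (nat_lit 914) Uxp19n206 (.cons (nat_lit 918) (.cons (nat_lit 916) Uxp19n515 .nil) .nil))) .nil)) (.cons (nat_lit 785) (.cons (nat_lit 788) (.cons (nat_lit 914) (.cons (nat_lit 908) (.cons (nat_lit 1034) Uxp19n512 (.cons (nat_lit 1041) (.cons (nat_lit 1044) (.cons (nat_lit 1170) Uxp19n509 (.cons (nat_lit 1174) (.cons (nat_lit 1172) Uxp19n540 .nil) .nil)) .nil) (.cons (nat_lit 1046) (.cons (nat_lit 1044) (.cons (nat_lit 1170) Uxp19n218 (.cons (nat_lit 1169) Uxp19n553 .nil)) .nil) .nil)))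 .nil) (.cons (nat_lit 918) (.cons (nat_lit 916) (.cons (nat_lit 1050) (.cons (nat_lit 1044) (.cons (nat_lit 1170) (.cons (nat_lit 1164) (.cons (nat_lit 1294) (.cons (nat_lit 58635) Uxp19n308 .nil) .nil) .nil) Uxp19n188) .nil) (.cons (nat_lit 1041) (.cons (nat_lit 1044) Uxp19n188 .nil) Uxp19n569)) .nil) .nil)) .nil) (.cons (nat_lit 790) (.cons (nat_lit 788) (.cons (nat_lit 914) Uxp19n583 (.cons (nat_lit 913) (.cons (nat_lit 916) (.cons (nat_lit 1042) (.cons (nat_lit 1036) (.cons (nat_lit 1162) (.cons (nat_lit 1156) (.cons (nat_lit 1281) (.cons (nat_lit 1284) (.cons (nat_lit 1414) (.cons (nat_lit 1411) (.cons (nat_lit 50563) (.cons (nat_lit 5) .nil .nil) .nil) .nil) (.cons (nat_lit 1418) (.cons (nat_lit 1412) (.cons (nat_lit 1537) Uxp19n257 .nil) .nil) .nil)) .nil) (.cons (nat_lit 1290) Uxp19n162 .nil)) .nil) Uxp19n276) .nil) Uxp19n297) .nil) (.cons (nat_lit 926) (.cons (nat_lit 924) (.cons (nat_lit 1049) (.cons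 (nat_lit 1052) (.cons (nat_lit 1182) Uxp19n605 .nil) .nil) .nil) .nil) .nil))) .nil) .nil))) .nil) (.cons (nat_lit 662) (.cons (nat_lit 660) (.cons (nat_lit 794) (.cons (nat_lit 788) (.cons (nat_lit 914) (.cons (nat_lit 908) (.cons (nat_lit 1038) (.cons (nat_lit 41995) Uxp19n623 .nil) (.cons (nat_lit 1042) Uxp19n313 (.cons (nat_lit 1041) (.cons (nat_lit 1044) (.cons (nat_lit 1170) (.cons (nat_lit 1164) (.cons (nat_lit 1294) (.cons (nat_lit 42251) Uxp19n308 .nil) .nil) .nil) .nil) .nil) .nil))) .nil) (.cons (nat_lit 921) (.cons (nat_lit 924) (.cons (nat_lit 1050) Uxp19n640 .nil) .nil) (.cons (nat_lit 918) (.cons (nat_lit 916) (.cons (nat_lit 1042) (.cons (nat_lit 1036) (.cons (nat_lit 1166) (.cons (nat_lit 1164) (.cons (nat_lit 1294) (.cons (nat_lit 1292) (.cons (nat_lit 1418) (.cons (nat_lit 58755) (.cons (nat_lit 1284) (.cons (nat_lit 1542) (.cons (nat_lit 75267) (.cons (nat_lit 1540) (.cons (nat_lit 1670) (.cons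 (nat_lit 1667) (.cons (nat_lit 42627) (.cons (nat_lit 5) .nil .nil) .nil) (.cons (nat_lit 42635) (.cons (nat_lit 1676) (.cons (nat_lit 1801) Uxp19n281 .nil) .nil) .nil)) .nil) .nil) .nil) .nil) .nil) .nil) .nil) .nil) .nil) .nil) .nil) .nil) .nil) .nil) .nil))) .nil) (.cons (nat_lit 785) (.cons (nat_lit 788) (.cons (nat_lit 930) (.cons (nat_lit 924) (.cons (nat_lit 1050) Uxp19n640 (.cons (nat_lit 1049) (.cons (nat_lit 1052) (.cons (nat_lit 1178) (.cons (nat_lit 1172) (.cons (nat_lit 1297) (.cons (nat_lit 1300) (.cons (nat_lit 1426) (.cons (nat_lit 1420) (.cons (nat_lit 1550) (.cons (nat_lit 42507) Uxp19n103 .nil) .nil) .nil) .nil) .nil) Uxp19n636) .nil) .nil) .nil) .nil)) .nil) (.cons (nat_lit 918) (.cons (nat_lit 916) (.cons (nat_lit 1042) (.cons (nat_lit 1036) (.cons (nat_lit 1166) (.cons (nat_lit 1164) (.cons (nat_lit 1294) (.cons (nat_lit 1292) (.cons (nat_lit 1418) (.cons (nat_lit 58755) (.cons (nat_lit 1284)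 (.cons (nat_lit 1542) (.cons (nat_lit 75267) (.cons (nat_lit 1540) (.cons (nat_lit 1670) (.cons (nat_lit 1667) (.cons (nat_lit 42627) (.cons (nat_lit 5) .nil .nil) .nil) (.cons (nat_lit 42643) (.cons (nat_lit 1684) (.cons (nat_lit 1810) Uxp19n281 .nil) .nil) .nil)) .nil) .nil) .nil) .nil) .nil) .nil) .nil) .nil) .nil) .nil) .nil) .nil) .nil) .nil) .nil)) .nil) (.cons (nat_lit 798) (.cons (nat_lit 795) (.cons (nat_lit 796) (.cons (nat_lit 922) Uxp19n28 .nil) .nil) (.cons (nat_lit 804) (.cons (nat_lit 929) Uxp19n708 .nil) .nil)) .nil))) .nil) .nil)) .nil) (.cons (nat_lit 530) (.cons (nat_lit 524) (.cons (nat_lit 649) (.cons (nat_lit 652) (.cons (nat_lit 778) (.cons (nat_lit 771) (.cons (nat_lit 5) .nil .nil) Uxp19n247) (.cons (nat_lit 790) (.cons (nat_lit 788) (.cons (nat_lit 914) Uxp19n583 (.cons (nat_lit 921) Uxp19n299 .nil)) .nil) .nil)) .nil) (.cons (nat_lit 658) (.cons (nat_lit 652) (.cons (nat_lit 778) (.cons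 (nat_lit 771) (.cons (nat_lit 5) .nil .nil) (.cons (nat_lit 780) (.cons (nat_lit 905) Uxp19n206 .nil) .nil)) Uxp19n210) .nil) (.cons (nat_lit 662) (.cons (nat_lit 660) (.cons (nat_lit 794) Uxp19n151 (.cons (nat_lit 785) Uxp19n317 (.cons (nat_lit 790) (.cons (nat_lit 787) (.cons (nat_lit 788) (.cons (nat_lit 913) Uxp19n28 (.cons (nat_lit 922) Uxp19n28 .nil)) .nil) (.cons (nat_lit 796) (.cons (nat_lit 921) (.cons (nat_lit 924) (.cons (nat_lit 1050) (.cons (nat_lit 1043) (.cons (nat_lit 788) (.cons (nat_lit 1169) Uxp19n703 .nil) .nil) .nil) .nil) .nil) .nil) .nil)) .nil))) .nil) .nil))) .nil) (.cons (nat_lit 534) (.cons (nat_lit 532) (.cons (nat_lit 658) (.cons (nat_lit 652) (.cons (nat_lit 778) (.cons (nat_lit 772) (.cons (nat_lit 902) (.cons (nat_lit 899) (.cons (nat_lit 33667) (.cons (nat_lit 5) .nil .nil) .nil) (.cons (nat_lit 33675) (.cons (nat_lit 908) (.cons (nat_lit 1033) Uxp19n146 (.cons (nat_lit 1042) Uxp19n146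 .nil)) .nil) .nil)) (.cons (nat_lit 906) (.cons (nat_lit 900) (.cons (nat_lit 1025) (.cons (nat_lit 1028) (.cons (nat_lit 1158) Uxp19n751 (.cons (nat_lit 1162) (.cons (nat_lit 1156) (.cons (nat_lit 1281) Uxp19n75 .nil) .nil) .nil)) .nil) (.cons (nat_lit 1034) Uxp19n63 .nil)) .nil) (.cons (nat_lit 905) (.cons (nat_lit 908) (.cons (nat_lit 1034) (.cons (nat_lit 1028) (.cons (nat_lit 1158) Uxp19n751 Uxp19n94) .nil) .nil) .nil) .nil))) .nil) (.cons (nat_lit 785) (.cons (nat_lit 788) (.cons (nat_lit 914) (.cons (nat_lit 908) (.cons (nat_lit 1034) (.cons (nat_lit 1028) (.cons (nat_lit 1158) Uxp19n751 Uxp19n94) .nil) (.cons (nat_lit 1033) (.cons (nat_lit 1036) Uxp19n772 .nil) .nil)) .nil) .nil) .nil) Uxp19n119)) .nil) (.cons (nat_lit 657) (.cons (nat_lit 660) (.cons (nat_lit 786) (.cons (nat_lit 780) (.cons (nat_lit 906) (.cons (nat_lit 900) (.cons (nat_lit 1025) (.cons (nat_lit 1028) (.cons (nat_lit 1158) (.cons (nat_lit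 1155) (.cons (nat_lit 33923) (.cons (nat_lit 5) .nil .nil) .nil) (.cons (nat_lit 33939) (.cons (nat_lit 1172) (.cons (nat_lit 1298) Uxp19n308 .nil) .nil) .nil)) Uxp19n772) .nil) (.cons (nat_lit 1034) (.cons (nat_lit 1028) (.cons (nat_lit 1158) Uxp19n751 Uxp19n94) .nil) .nil)) .nil) (.cons (nat_lit 913) (.cons (nat_lit 916) (.cons (nat_lit 1042) (.cons (nat_lit 1036) (.cons (nat_lit 1161) (.cons (nat_lit 1164) (.cons (nat_lit 1290) (.cons (nat_lit 1284) (.cons (nat_lit 1414) Uxp19n767 Uxp19n364) .nil) .nil) .nil) Uxp19n772) .nil) .nil) .nil) .nil)) .nil) (.cons (nat_lit 798) (.cons (nat_lit 796) (.cons (nat_lit 922) (.cons (nat_lit 916) (.cons (nat_lit 1046) (.cons (nat_lit 1044) (.cons (nat_lit 1174) (.cons (nat_lit 1172) (.cons (nat_lit 1298) (.cons (nat_lit 50443) (.cons (nat_lit 1164) (.cons (nat_lit 1422) (.cons (nat_lit 66955) (.cons (nat_lit 1420) (.cons (nat_lit 1550) (.cons (nat_lit 34315) (.cons (nat_lit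 1548) (.cons (nat_lit 1674) Uxp19n799 .nil) .nil) .nil) .nil) .nil) .nil) .nil) .nil) .nil) .nil) .nil) .nil) .nil) .nil) .nil) .nil) .nil) .nil)) .nil) (.cons (nat_lit 670) (.cons (nat_lit 668) (.cons (nat_lit 793) (.cons (nat_lit 796) (.cons (nat_lit 926) Uxp19n135 Uxp19n834) .nil) Uxp19n390) .nil) .nil))) .nil) .nil)))
def Uxp19n849 : PT := (.cons (nat_lit 1036) (.cons (nat_lit 1162) (.cons (nat_lit 1155) (.cons (nat_lit 5) .nil .nil) .nil) (.cons (nat_lit 1169) (.cons (nat_lit 1172) (.cons (nat_lit 1298) Uxp19n308 .nil) .nil) .nil)) .nil)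
def Uxp19n858 : PT := (.cons (nat_lit 908) (.cons (nat_lit 1038) (.cons (nat_lit 25611) Uxp19n849 .nil) (.cons (nat_lit 1041) (.cons (nat_lit 1044) Uxp19n450 .nil) Uxp19n419)) .nil)
def Uxp19n872 : PT := (.cons (nat_lit 25867) (.cons (nat_lit 1292) (.cons (nat_lit 1418) (.cons (nat_lit 1411) (.cons (nat_lit 5) .nil .nil) .nil) (.cons (nat_lit 1425) (.cons (nat_lit 1428) (.cons (nat_lit 1554) Uxp19n103 .nil) .nil) .nil)) .nil) .nil)
def Uxp19n878 : PT := (.cons (nat_lit 1298) (.cons (nat_lit 1292) (.cons (nat_lit 1417) (.cons (nat_lit 1420) (.cons (nat_lit 1550) (.cons (nat_lit 26123) Uxp19n103 .nil) .nil) .nil) .nil) .nil) .nil)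
def Uxp19n883 : PT := (.cons (nat_lit 1042) (.cons (nat_lit 1036) (.cons (nat_lit 1161) (.cons (nat_lit 1164) (.cons (nat_lit 1294) Uxp19n872 Uxp19n878) .nil) Uxp19n450) .nil) .nil)
def Uxp19n887 : PT := (.cons (nat_lit 788) (.cons (nat_lit 914) Uxp19n858 (.cons (nat_lit 913) (.cons (nat_lit 916) Uxp19n883 .nil) .nil)) .nil)
def Uxp19n913 : PT := (.cons (nat_lit 1297) (.cons (nat_lit 1300) (.cons (nat_lit 1426) (.cons (nat_lit 1420) (.cons (nat_lit 1550) (.cons (nat_lit 26123) Uxp19n103 .nil) .nil) .nil) .nil) .nil) Uxp19n878)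
def Uxp19n956 : PT := (.cons (nat_lit 916) (.cons (nat_lit 1046) (.cons (nat_lit 1044) (.cons (nat_lit 1170) (.cons (nat_lit 1164) (.cons (nat_lit 1294) (.cons (nat_lit 1292) (.cons (nat_lit 1422) (.cons (nat_lit 25995) Uxp19n19 .nil) .nil) .nil) .nil) .nil) .nil) .nil) .nil) .nil)
def Uxp19n962 : PT := (.cons (nat_lit 682) (.cons (nat_lit 676) (.cons (nat_lit 802) (.cons (nat_lit 795) (.cons (nat_lit 540) (.cons (nat_lit 922) Uxp19n956 .nil) .nil) .nil) .nil) .nil) .nil)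
def Uxp19n980 : PT := (.cons (nat_lit 1284) (.cons (nat_lit 1414) (.cons (nat_lit 1411) (.cons (nat_lit 17795) (.cons (nat_lit 5) .nil .nil) .nil) .nil) .nil) .nil)
def Uxp19n987 : PT := (.cons (nat_lit 1028) (.cons (nat_lit 1158) (.cons (nat_lit 1155) (.cons (nat_lit 17539) (.cons (nat_lit 5) .nil .nil) .nil) .nil) .nil) .nil)
def Uxp19n990 : PT := (.cons (nat_lit 900) (.cons (nat_lit 1025) (.cons (nat_lit 1028) (.cons (nat_lit 1158) (.cons (nat_lit 1155) (.cons (nat_lit 17539) (.cons (nat_lit 5) .nil .nil) .nil) .nil) (.cons (nat_lit 1162) (.cons (nat_lit 1156) (.cons (nat_lit 1281) Uxp19n980 .nil) .nil) .nil)) .nil) (.cons (nat_lit 1034) Uxp19n987 .nil)) .nil)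
def Uxp19n1010 : PT := (.cons (nat_lit 1034) (.cons (nat_lit 1028) (.cons (nat_lit 1158) (.cons (nat_lit 1155) (.cons (nat_lit 17539) (.cons (nat_lit 5) .nil .nil) .nil) .nil) (.cons (nat_lit 1162) (.cons (nat_lit 1156) (.cons (nat_lit 1281) Uxp19n980 .nil) .nil) (.cons (nat_lit 1161) (.cons (nat_lit 1164) (.cons (nat_lit 1290) Uxp19n980 .nil) .nil) .nil))) .nil) .nil)
def Uxp19n1015 : PT := (.cons (nat_lit 772) (.cons (nat_lit 902) (.cons (nat_lit 899) (.cons (nat_lit 17283) (.cons (nat_lit 5) .nil .nil) .nil) .nil) (.cons (nat_lit 906) Uxp19n990 (.cons (nat_lit 905) (.cons (nat_lit 908) Uxp19n1010 .nil) .nil))) .nil)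
def Uxp19n1025 : PT := (.cons (nat_lit 1540) (.cons (nat_lit 1670) (.cons (nat_lit 1667) (.cons (nat_lit 18051) (.cons (nat_lit 5) .nil .nil) .nil) .nil) .nil) .nil)
def Uxp19n1033 : PT := (.cons (nat_lit 1162) (.cons (nat_lit 1156) (.cons (nat_lit 1281) (.cons (nat_lit 1284) (.cons (nat_lit 1414) (.cons (nat_lit 1411) (.cons (nat_lit 17795) (.cons (nat_lit 5) .nil .nil) .nil) .nil) (.cons (nat_lit 1418) (.cons (nat_lit 1412) (.cons (nat_lit 1537) Uxp19n1025 .nil) .nil) .nil)) .nil) (.cons (nat_lit 1290) Uxp19n980 .nil)) .nil) .nil)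
def Uxp19n1035 : PT := (.cons (nat_lit 1028) (.cons (nat_lit 1158) (.cons (nat_lit 1155) (.cons (nat_lit 17539) (.cons (nat_lit 5) .nil .nil) .nil) .nil) Uxp19n1033) .nil)
def Uxp19n1060 : PT := (.cons (nat_lit 542) (.cons (nat_lit 540) (.cons (nat_lit 666) (.cons (nat_lit 660) (.cons (nat_lit 790) (.cons (nat_lit 788) (.cons (nat_lit 918) (.cons (nat_lit 916) (.cons (nat_lit 1042) (.cons (nat_lit 33803) (.cons (nat_lit 908) (.cons (nat_lit 1166) (.cons (nat_lit 50315) (.cons (nat_lit 1164) (.cons (nat_lit 1294) (.cons (nat_lit 17675) Uxp19n308 .nil) .nil) .nil) .nil) .nil) .nil) .nil) .nil) .nil) .nil) .nil) .nil) .nil) .nil) .nil) .nil)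
def Uxp19n1073 : PT := (.cons (nat_lit 906) (.cons (nat_lit 900) (.cons (nat_lit 1025) Uxp19n1035 (.cons (nat_lit 1034) (.cons (nat_lit 1028) (.cons (nat_lit 1158) (.cons (nat_lit 1155) (.cons (nat_lit 17539) (.cons (nat_lit 5) .nil .nil) .nil) .nil) (.cons (nat_lit 1161) (.cons (nat_lit 1164) (.cons (nat_lit 1290) Uxp19n980 .nil) .nil) (.cons (nat_lit 1162) (.cons (nat_lit 1156) (.cons (nat_lit 1281) Uxp19n980 .nil) .nil) .nil))) .nil) .nil)) .nil) .nil)
def Uxp19n1103 : PT := (.cons (nat_lit 281) (.cons (nat_lit 284) (.cons (nat_lit 410) (.cons (nat_lit 404) Uxp19n845 .nil) (.cons (nat_lit 414) (.cons (nat_lit 412) (.cons (nat_lit 538) (.cons (nat_lit 532) (.cons (nat_lit 658) (.cons (nat_lit 652) (.cons (nat_lit 782) (.cons (nat_lit 25355) (.cons (nat_lit 780) (.cons (nat_lit 906) (.cons (nat_lit 899) (.cons (nat_lit 5) .nil .nil) (.cons (nat_lit 916) (.cons (nat_lit 1042) Uxp19n146 .nil) .nil)) (.cons (nat_lit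 913) (.cons (nat_lit 916) (.cons (nat_lit 1042) Uxp19n849 .nil) .nil) .nil)) .nil) .nil) (.cons (nat_lit 785) (.cons (nat_lit 788) (.cons (nat_lit 914) Uxp19n858 .nil) .nil) (.cons (nat_lit 786) (.cons (nat_lit 780) (.cons (nat_lit 905) (.cons (nat_lit 908) (.cons (nat_lit 1038) (.cons (nat_lit 25611) Uxp19n849 .nil) Uxp19n419) .nil) Uxp19n408) .nil) .nil))) .nil) (.cons (nat_lit 665) (.cons (nat_lit 668) (.cons (nat_lit 794) Uxp19n887 .nil) .nil) (.cons (nat_lit 670) (.cons (nat_lit 668) (.cons (nat_lit 794) (.cons (nat_lit 788) (.cons (nat_lit 918) (.cons (nat_lit 916) (.cons (nat_lit 1046) (.cons (nat_lit 1044) (.cons (nat_lit 1170) (.cons (nat_lit 42123) (.cons (nat_lit 1036) (.cons (nat_lit 1294) (.cons (nat_lit 58635) (.cons (nat_lit 1292) (.cons (nat_lit 1422) (.cons (nat_lit 25995) (.cons (nat_lit 1420) (.cons (nat_lit 1545) Uxp19n103 (.cons (nat_lit 1554) Uxp19n103 .nil)) .nil) .nil) .nil) .nil) .nil)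 .nil) .nil) .nil) .nil) .nil) .nil) .nil) .nil) .nil) .nil) .nil) .nil))) .nil) (.cons (nat_lit 545) (.cons (nat_lit 548) (.cons (nat_lit 674) (.cons (nat_lit 668) (.cons (nat_lit 794) Uxp19n887 (.cons (nat_lit 793) (.cons (nat_lit 796) (.cons (nat_lit 922) (.cons (nat_lit 916) (.cons (nat_lit 1041) (.cons (nat_lit 1044) (.cons (nat_lit 1170) (.cons (nat_lit 1164) (.cons (nat_lit 1294) Uxp19n872 Uxp19n913) .nil) .nil) .nil) Uxp19n883) .nil) .nil) .nil) .nil)) .nil) (.cons (nat_lit 678) (.cons (nat_lit 676) (.cons (nat_lit 802) (.cons (nat_lit 796) (.cons (nat_lit 926) (.cons (nat_lit 924) (.cons (nat_lit 1054) (.cons (nat_lit 1052) (.cons (nat_lit 1178) (.cons (nat_lit 42131) (.cons (nat_lit 1044) (.cons (nat_lit 1302) (.cons (nat_lit 58643) (.cons (nat_lit 1300) (.cons (nat_lit 1430) (.cons (nat_lit 26003) (.cons (nat_lit 1428) (.cons (nat_lit 1554) (.cons (nat_lit 1548) (.cons (nat_lit 1674) (.cons (nat_lit 1667)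 (.cons (nat_lit 5) .nil .nil) .nil) (.cons (nat_lit 1681) (.cons (nat_lit 1684) (.cons (nat_lit 1810) Uxp19n281 .nil) .nil) .nil)) .nil) .nil) .nil) .nil) .nil) .nil) .nil) .nil) .nil) .nil) .nil) .nil) .nil) .nil) .nil) .nil) .nil) .nil) .nil)) .nil) (.cons (nat_lit 558) (.cons (nat_lit 556) Uxp19n962 .nil) .nil))) .nil) .nil)) .nil) (.cons (nat_lit 278) (.cons (nat_lit 276) (.cons (nat_lit 402) (.cons (nat_lit 396) (.cons (nat_lit 522) (.cons (nat_lit 516) (.cons (nat_lit 646) (.cons (nat_lit 643) (.cons (nat_lit 17027) (.cons (nat_lit 5) .nil .nil) .nil) .nil) (.cons (nat_lit 650) (.cons (nat_lit 644) (.cons (nat_lit 769) (.cons (nat_lit 772) (.cons (nat_lit 902) (.cons (nat_lit 899) (.cons (nat_lit 17283) (.cons (nat_lit 5) .nil .nil) .nil) .nil) (.cons (nat_lit 906) Uxp19n990 .nil)) .nil) (.cons (nat_lit 778) (.cons (nat_lit 772) (.cons (nat_lit 902) (.cons (nat_lit 899) (.cons (nat_lit 17283) (.cons (nat_lit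 5) .nil .nil) .nil) .nil) (.cons (nat_lit 906) (.cons (nat_lit 900) (.cons (nat_lit 1025) Uxp19n987 .nil) .nil) (.cons (nat_lit 905) (.cons (nat_lit 908) (.cons (nat_lit 1034) Uxp19n987 .nil) .nil) .nil))) .nil) .nil)) .nil) (.cons (nat_lit 649) (.cons (nat_lit 652) (.cons (nat_lit 778) Uxp19n1015 .nil) .nil) .nil))) .nil) (.cons (nat_lit 529) (.cons (nat_lit 532) (.cons (nat_lit 658) (.cons (nat_lit 652) (.cons (nat_lit 778) Uxp19n1015 (.cons (nat_lit 777) (.cons (nat_lit 780) (.cons (nat_lit 906) (.cons (nat_lit 900) (.cons (nat_lit 1025) Uxp19n1035 Uxp19n1010) .nil) .nil) .nil) .nil)) .nil) .nil) .nil) Uxp19n1060)) .nil) (.cons (nat_lit 409) (.cons (nat_lit 412) (.cons (nat_lit 538) (.cons (nat_lit 532) (.cons (nat_lit 658) (.cons (nat_lit 652) (.cons (nat_lit 778) (.cons (nat_lit 772) (.cons (nat_lit 902) (.cons (nat_lit 899) (.cons (nat_lit 17283) (.cons (nat_lit 5) .nil .nil) .nil) .nil) (.cons (nat_lit 905)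 (.cons (nat_lit 908) Uxp19n1010 .nil) (.cons (nat_lit 906) Uxp19n990 .nil))) .nil) (.cons (nat_lit 777) (.cons (nat_lit 780) Uxp19n1073 .nil) .nil)) .nil) (.cons (nat_lit 657) (.cons (nat_lit 660) (.cons (nat_lit 786) (.cons (nat_lit 780) (.cons (nat_lit 905) (.cons (nat_lit 908) (.cons (nat_lit 1034) (.cons (nat_lit 1028) (.cons (nat_lit 1158) (.cons (nat_lit 1155) (.cons (nat_lit 17539) (.cons (nat_lit 5) .nil .nil) .nil) .nil) (.cons (nat_lit 1161) (.cons (nat_lit 1164) (.cons (nat_lit 1290) (.cons (nat_lit 1284) (.cons (nat_lit 1414) (.cons (nat_lit 1411) (.cons (nat_lit 17795) (.cons (nat_lit 5) .nil .nil) .nil) .nil) (.cons (nat_lit 1417) (.cons (nat_lit 1420) (.cons (nat_lit 1546) Uxp19n1025 .nil) .nil) (.cons (nat_lit 1418) (.cons (nat_lit 1412) (.cons (nat_lit 1537) Uxp19n1025 .nil) .nil) .nil))) .nil) .nil) .nil) Uxp19n1033)) .nil) .nil) .nil) Uxp19n1073) .nil) .nil) .nil) .nil)) .nil) Uxp19n1060) .nil)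 .nil)) .nil) .nil))
def Uxp19n1107 : PT := (.cons (nat_lit 1284) (.cons (nat_lit 1409) (.cons (nat_lit 1411) (.cons (nat_lit 5) .nil .nil) .nil) .nil) .nil)
def Uxp19n1112 : PT := (.cons (nat_lit 1036) (.cons (nat_lit 1162) (.cons (nat_lit 1156) (.cons (nat_lit 1286) (.cons (nat_lit 58627) Uxp19n1107 .nil) .nil) .nil) .nil) .nil)
def Uxp19n1132 : PT := (.cons (nat_lit 1172) (.cons (nat_lit 1302) (.cons (nat_lit 1300) (.cons (nat_lit 1426) (.cons (nat_lit 1420) (.cons (nat_lit 1550) (.cons (nat_lit 1548) (.cons (nat_lit 1678) (.cons (nat_lit 50827) Uxp19n228 .nil) .nil) .nil) .nil) .nil) .nil) .nil) .nil) .nil)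
def Uxp19n1161 : PT := (.cons (nat_lit 1796) (.cons (nat_lit 1921) (.cons (nat_lit 1923) (.cons (nat_lit 5) .nil .nil) .nil) .nil) .nil)
def Uxp19n1180 : PT := (.cons (nat_lit 908) (.cons (nat_lit 1034) (.cons (nat_lit 1028) (.cons (nat_lit 1158) (.cons (nat_lit 1155) (.cons (nat_lit 50307) (.cons (nat_lit 5) .nil .nil) .nil) (.cons (nat_lit 50315) (.cons (nat_lit 1164) (.cons (nat_lit 1289) Uxp19n308 (.cons (nat_lit 1290) Uxp19n1107 .nil)) .nil) .nil)) Uxp19n251) .nil) (.cons (nat_lit 1041) (.cons (nat_lit 1044) (.cons (nat_lit 1170) Uxp19n264 .nil) .nil) (.cons (nat_lit 1046) (.cons (nat_lit 1044) (.cons (nat_lit 1170) (.cons (nat_lit 1164) (.cons (nat_lit 1294) (.cons (nat_lit 1292) (.cons (nat_lit 1422) (.cons (nat_lit 1420) (.cons (nat_lit 1546) (.cons (nat_lit 67075) (.cons (nat_lit 1412) (.cons (nat_lit 1670) (.cons (nat_lit 83587) (.cons (nat_lit 1668) (.cons (nat_lit 1798) (.cons (nat_lit 50947) Uxp19n1161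 .nil) .nil) .nil) .nil) .nil) .nil) .nil) .nil) .nil) .nil) .nil) .nil) .nil) .nil) .nil) .nil))) .nil)
def Uxp19n1194 : PT := (.cons (nat_lit 1028) (.cons (nat_lit 1153) (.cons (nat_lit 1155) (.cons (nat_lit 5) .nil .nil) .nil) (.cons (nat_lit 1162) (.cons (nat_lit 1155) (.cons (nat_lit 5) .nil .nil) .nil) .nil)) .nil)
def Uxp19n1201 : PT := (.cons (nat_lit 1162) (.cons (nat_lit 1156) (.cons (nat_lit 1286) (.cons (nat_lit 42243) Uxp19n1107 .nil) .nil) .nil) .nil)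
def Uxp19n1208 : PT := (.cons (nat_lit 1540) (.cons (nat_lit 1665) (.cons (nat_lit 1667) (.cons (nat_lit 5) .nil .nil) .nil) .nil) .nil)
def Uxp19n1213 : PT := (.cons (nat_lit 1284) (.cons (nat_lit 1409) (.cons (nat_lit 1412) (.cons (nat_lit 1542) (.cons (nat_lit 42499) Uxp19n1208 .nil) .nil) .nil) .nil) .nil)
def Uxp19n1228 : PT := (.cons (nat_lit 1418) (.cons (nat_lit 1412) (.cons (nat_lit 1542) (.cons (nat_lit 42499) Uxp19n1208 .nil) .nil) .nil) .nil)
def Uxp19n1289 : PT := (.cons (nat_lit 1156) (.cons (nat_lit 1281) (.cons (nat_lit 1283) (.cons (nat_lit 5) .nil .nil) .nil) .nil) .nil)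
def Uxp19n1292 : PT := (.cons (nat_lit 1027) (.cons (nat_lit 5) .nil .nil) (.cons (nat_lit 1036) (.cons (nat_lit 1162) Uxp19n1289 (.cons (nat_lit 1161) Uxp19n509 .nil)) .nil))
def Uxp19n1295 : PT := (.cons (nat_lit 905) (.cons (nat_lit 908) (.cons (nat_lit 1034) Uxp19n1292 (.cons (nat_lit 1046) (.cons (nat_lit 1044) (.cons (nat_lit 1170) Uxp19n218 .nil) .nil) .nil)) .nil) (.cons (nat_lit 918) (.cons (nat_lit 916) (.cons (nat_lit 1042) Uxp19n1112 Uxp19n515) .nil) .nil))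
def Uxp19n1303 : PT := (.cons (nat_lit 1292) (.cons (nat_lit 1418) (.cons (nat_lit 1412) (.cons (nat_lit 1542) (.cons (nat_lit 75267) Uxp19n1208 .nil) .nil) .nil) .nil) .nil)
def Uxp19n1308 : PT := (.cons (nat_lit 1044) (.cons (nat_lit 1170) Uxp19n509 (.cons (nat_lit 1174) (.cons (nat_lit 1172) (.cons (nat_lit 1298) Uxp19n1303 Uxp19n540) .nil) .nil)) .nil)
def Uxp19n1314 : PT := (.cons (nat_lit 1932) (.cons (nat_lit 2062) (.cons (nat_lit 116747) (.cons (nat_lit 2060) (.cons (nat_lit 2186) (.cons (nat_lit 100483) (.cons (nat_lit 5) .nil .nil) .nil) .nil) .nil) .nil) .nil) .nil)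
def Uxp19n1323 : PT := (.cons (nat_lit 1428) (.cons (nat_lit 1558) (.cons (nat_lit 1556) (.cons (nat_lit 1682) (.cons (nat_lit 1676) (.cons (nat_lit 1806) (.cons (nat_lit 1804) (.cons (nat_lit 1934) (.cons (nat_lit 67467) Uxp19n1314 .nil) .nil) .nil) .nil) .nil) .nil) .nil) .nil) .nil)
def Uxp19n1333 : PT := (.cons (nat_lit 1046) (.cons (nat_lit 1044) (.cons (nat_lit 1170) Uxp19n218 (.cons (nat_lit 1169) Uxp19n553 (.cons (nat_lit 1174) (.cons (nat_lit 1172) (.cons (nat_lit 1297) (.cons (nat_lit 1299) (.cons (nat_lit 1172) (.cons (nat_lit 1425) Uxp19n1323 .nil) .nil) .nil) .nil) .nil) .nil))) .nil) .nil)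
def Uxp19n1338 : PT := (.cons (nat_lit 1284) (.cons (nat_lit 1409) (.cons (nat_lit 1411) (.cons (nat_lit 5) .nil .nil) .nil) (.cons (nat_lit 1418) (.cons (nat_lit 1411) (.cons (nat_lit 5) .nil .nil) .nil) .nil)) .nil)
def Uxp19n1345 : PT := (.cons (nat_lit 1418) (.cons (nat_lit 1412) (.cons (nat_lit 1542) (.cons (nat_lit 58883) Uxp19n1208 .nil) .nil) .nil) .nil)
def Uxp19n1348 : PT := (.cons (nat_lit 1290) (.cons (nat_lit 1284) (.cons (nat_lit 1409) (.cons (nat_lit 1412) (.cons (nat_lit 1542) (.cons (nat_lit 58883) Uxp19n1208 .nil) .nil) .nil) .nil) .nil) (.cons (nat_lit 1289) (.cons (nat_lit 1292) Uxp19n1345 .nil) .nil))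
def Uxp19n1356 : PT := (.cons (nat_lit 1546) (.cons (nat_lit 1540) (.cons (nat_lit 1665) (.cons (nat_lit 1668) (.cons (nat_lit 1798) (.cons (nat_lit 59139) Uxp19n1161 .nil) .nil) .nil) .nil) .nil) .nil)
def Uxp19n1360 : PT := (.cons (nat_lit 1292) (.cons (nat_lit 1418) (.cons (nat_lit 1412) (.cons (nat_lit 1542) (.cons (nat_lit 58883) Uxp19n1208 .nil) .nil) .nil) (.cons (nat_lit 1417) (.cons (nat_lit 1420) Uxp19n1356 .nil) .nil)) .nil)
def Uxp19n1372 : PT := (.cons (nat_lit 1297) (.cons (nat_lit 1300) (.cons (nat_lit 1426) (.cons (nat_lit 1420) (.cons (nat_lit 1545) (.cons (nat_lit 1548) (.cons (nat_lit 1674) (.cons (nat_lit 1668) (.cons (nat_lit 1798) (.cons (nat_lit 59139) Uxp19n1161 .nil) .nil) .nil) .nil) .nil) Uxp19n1356) .nil) .nil) .nil) .nil)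
def Uxp19n1377 : PT := (.cons (nat_lit 2052) (.cons (nat_lit 2177) (.cons (nat_lit 2179) (.cons (nat_lit 5) .nil .nil) .nil) .nil) .nil)
def Uxp19n1396 : PT := (.cons (nat_lit 1174) (.cons (nat_lit 1172) (.cons (nat_lit 1298) (.cons (nat_lit 1292) (.cons (nat_lit 1422) (.cons (nat_lit 1420) (.cons (nat_lit 1550) (.cons (nat_lit 1548) (.cons (nat_lit 1674) (.cons (nat_lit 75395) (.cons (nat_lit 1540) (.cons (nat_lit 1798) (.cons (nat_lit 91907) (.cons (nat_lit 1796) (.cons (nat_lit 1926) (.cons (nat_lit 1923) (.cons (nat_lit 59267) (.cons (nat_lit 5) .nil .nil) .nil) (.cons (nat_lit 59275) (.cons (nat_lit 1932) (.cons (nat_lit 2058) Uxp19n1377 .nil) .nil) .nil)) .nil) .nil) .nil) .nil) .nil) .nil) .nil) .nil) .nil) .nil) .nil) .nil) .nil) .nil) .nil)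
def Uxp19n1399 : PT := (.cons (nat_lit 1041) (.cons (nat_lit 1044) (.cons (nat_lit 1178) (.cons (nat_lit 1172) (.cons (nat_lit 1298) Uxp19n1360 Uxp19n1372) .nil) Uxp19n1396) .nil) Uxp19n569)
def Uxp19n1416 : PT := (.cons (nat_lit 916) (.cons (nat_lit 1042) (.cons (nat_lit 1036) (.cons (nat_lit 1162) (.cons (nat_lit 1156) (.cons (nat_lit 1281) (.cons (nat_lit 1284) (.cons (nat_lit 1414) (.cons (nat_lit 1411) (.cons (nat_lit 50563) (.cons (nat_lit 5) .nil .nil) .nil) (.cons (nat_lit 50571) (.cons (nat_lit 1420) (.cons (nat_lit 1546) Uxp19n1208 .nil) .nil) .nil)) (.cons (nat_lit 1418) (.cons (nat_lit 1412) (.cons (nat_lit 1537) Uxp19n257 .nil) .nil) .nil)) .nil) (.cons (nat_lit 1290) Uxp19n162 .nil)) .nil) Uxp19n276) .nil) Uxp19n297) .nil)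
def Uxp19n1434 : PT := (.cons (nat_lit 1162) (.cons (nat_lit 1155) (.cons (nat_lit 5) .nil .nil) (.cons (nat_lit 1164) (.cons (nat_lit 1290) Uxp19n1107 (.cons (nat_lit 1289) Uxp19n308 .nil)) .nil)) .nil)
def Uxp19n1436 : PT := (.cons (nat_lit 1028) (.cons (nat_lit 1153) (.cons (nat_lit 1155) (.cons (nat_lit 5) .nil .nil) (.cons (nat_lit 1172) (.cons (nat_lit 1298) Uxp19n308 .nil) .nil)) Uxp19n1434) .nil)
def Uxp19n1446 : PT := (.cons (nat_lit 1156) (.cons (nat_lit 1286) (.cons (nat_lit 42243) Uxp19n1338 .nil) (.cons (nat_lit 1290) Uxp19n1213 (.cons (nat_lit 1289) (.cons (nat_lit 1292) Uxp19n1228 .nil) .nil))) .nil)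
def Uxp19n1454 : PT := (.cons (nat_lit 1540) (.cons (nat_lit 1665) (.cons (nat_lit 1667) (.cons (nat_lit 5) .nil .nil) .nil) (.cons (nat_lit 1674) (.cons (nat_lit 1667) (.cons (nat_lit 5) .nil .nil) .nil) .nil)) .nil)
def Uxp19n1460 : PT := (.cons (nat_lit 1540) (.cons (nat_lit 1665) (.cons (nat_lit 1668) (.cons (nat_lit 1798) (.cons (nat_lit 42755) Uxp19n1161 .nil) .nil) .nil) .nil) .nil)
def Uxp19n1466 : PT := (.cons (nat_lit 1290) (.cons (nat_lit 1284) (.cons (nat_lit 1409) (.cons (nat_lit 1412) (.cons (nat_lit 1542) (.cons (nat_lit 42499) Uxp19n1454 .nil) (.cons (nat_lit 1546) Uxp19n1460 .nil)) .nil) Uxp19n1228) .nil) .nil)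
def Uxp19n1470 : PT := (.cons (nat_lit 1036) (.cons (nat_lit 1162) Uxp19n1446 (.cons (nat_lit 1161) (.cons (nat_lit 1164) Uxp19n1466 .nil) .nil)) .nil)
def Uxp19n1491 : PT := (.cons (nat_lit 918) (.cons (nat_lit 916) (.cons (nat_lit 1042) (.cons (nat_lit 1036) (.cons (nat_lit 1166) (.cons (nat_lit 1164) (.cons (nat_lit 1294) (.cons (nat_lit 1292) (.cons (nat_lit 1418) (.cons (nat_lit 58755) (.cons (nat_lit 1284) (.cons (nat_lit 1542) (.cons (nat_lit 75267) (.cons (nat_lit 1540) (.cons (nat_lit 1670) (.cons (nat_lit 1667) (.cons (nat_lit 42627) (.cons (nat_lit 5) .nil .nil) .nil) (.cons (nat_lit 42635) (.cons (nat_lit 1676) (.cons (nat_lit 1802) Uxp19n1161 (.cons (nat_lit 1801) Uxp19n281 .nil)) .nil) .nil)) .nil) .nil) .nil) .nil) .nil) .nil) .nil) .nil) .nil) .nil) .nil) .nil) .nil) .nil) .nil)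
def Uxp19n1498 : PT := (.cons (nat_lit 1546) Uxp19n1460 (.cons (nat_lit 1545) (.cons (nat_lit 1548) (.cons (nat_lit 1674) (.cons (nat_lit 1668) (.cons (nat_lit 1798) (.cons (nat_lit 42755) Uxp19n1161 .nil) .nil) .nil) .nil) .nil) .nil))
def Uxp19n1511 : PT := (.cons (nat_lit 1796) (.cons (nat_lit 1921) (.cons (nat_lit 1923) (.cons (nat_lit 5) .nil .nil) .nil) (.cons (nat_lit 1930) (.cons (nat_lit 1923) (.cons (nat_lit 5) .nil .nil) .nil) .nil)) .nil)
def Uxp19n1535 : PT := (.cons (nat_lit 930) (.cons (nat_lit 924) (.cons (nat_lit 1049) (.cons (nat_lit 1051) (.cons (nat_lit 796) (.cons (nat_lit 1178) Uxp19n703 .nil) .nil) .nil) .nil) .nil) .nil)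
def Uxp19n1554 : PT := (.cons (nat_lit 1155) (.cons (nat_lit 33923) (.cons (nat_lit 5) .nil .nil) .nil) (.cons (nat_lit 33931) (.cons (nat_lit 1164) (.cons (nat_lit 1289) Uxp19n308 (.cons (nat_lit 1290) Uxp19n1107 .nil)) .nil) .nil))
def Uxp19n1560 : PT := (.cons (nat_lit 1162) (.cons (nat_lit 1156) (.cons (nat_lit 1281) Uxp19n75 .nil) .nil) (.cons (nat_lit 1161) (.cons (nat_lit 1164) (.cons (nat_lit 1290) Uxp19n75 .nil) .nil) .nil))
def Uxp19n1569 : PT := (.cons (nat_lit 33931) (.cons (nat_lit 1164) (.cons (nat_lit 1290) Uxp19n1107 (.cons (nat_lit 1289) Uxp19n308 .nil)) .nil) .nil)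
def Uxp19n1572 : PT := (.cons (nat_lit 1028) (.cons (nat_lit 1158) (.cons (nat_lit 1155) (.cons (nat_lit 33923) (.cons (nat_lit 5) .nil .nil) .nil) Uxp19n1569) Uxp19n1560) .nil)
def Uxp19n1581 : PT := (.cons (nat_lit 1162) (.cons (nat_lit 1156) (.cons (nat_lit 1281) (.cons (nat_lit 1284) (.cons (nat_lit 1414) (.cons (nat_lit 1411) (.cons (nat_lit 34179) (.cons (nat_lit 5) .nil .nil) .nil) (.cons (nat_lit 34187) (.cons (nat_lit 1420) (.cons (nat_lit 1545) Uxp19n103 (.cons (nat_lit 1546) Uxp19n1208 .nil)) .nil) .nil)) (.cons (nat_lit 1418) (.cons (nat_lit 1412) (.cons (nat_lit 1537) Uxp19n344 .nil) .nil) .nil)) .nil) (.cons (nat_lit 1290) Uxp19n75 .nil)) .nil) .nil)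
def Uxp19n1618 : PT := (.cons (nat_lit 34187) (.cons (nat_lit 1420) (.cons (nat_lit 1546) Uxp19n1208 (.cons (nat_lit 1545) Uxp19n103 .nil)) .nil) .nil)
def Uxp19n1638 : PT := (.cons (nat_lit 1667) (.cons (nat_lit 5) .nil .nil) (.cons (nat_lit 1676) (.cons (nat_lit 1802) Uxp19n1161 (.cons (nat_lit 1801) Uxp19n281 .nil)) .nil))
def Uxp19n1685 : PT := (.cons (nat_lit 529) (.cons (nat_lit 532) (.cons (nat_lit 658) (.cons (nat_lit 652) (.cons (nat_lit 778) (.cons (nat_lit 771) (.cons (nat_lit 5) .nil .nil) (.cons (nat_lit 780) (.cons (nat_lit 906) (.cons (nat_lit 900) (.cons (nat_lit 1025) (.cons (nat_lit 1027) (.cons (nat_lit 5) .nil .nil) .nil) (.cons (nat_lit 1034) (.cons (nat_lit 1027) (.cons (nat_lit 5) .nil .nil) .nil) .nil)) .nil) Uxp19n1295) .nil)) (.cons (nat_lit 785) (.cons (nat_lit 788) (.cons (nat_lit 914) (.cons (nat_lit 908) (.cons (nat_lit 1034) Uxp19n1292 (.cons (nat_lit 1041) Uxp19n1308 Uxp19n1333))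 .nil) (.cons (nat_lit 918) (.cons (nat_lit 916) (.cons (nat_lit 1042) (.cons (nat_lit 1036) (.cons (nat_lit 1162) (.cons (nat_lit 1156) (.cons (nat_lit 1286) (.cons (nat_lit 58627) Uxp19n1338 .nil) Uxp19n1348) .nil) (.cons (nat_lit 1169) (.cons (nat_lit 1172) (.cons (nat_lit 1298) Uxp19n1360 .nil) .nil) Uxp19n188)) .nil) Uxp19n1399) .nil) .nil)) .nil) (.cons (nat_lit 790) (.cons (nat_lit 788) (.cons (nat_lit 914) Uxp19n1180 (.cons (nat_lit 913) Uxp19n1416 (.cons (nat_lit 918) (.cons (nat_lit 916) (.cons (nat_lit 1041) (.cons (nat_lit 1043) (.cons (nat_lit 916) (.cons (nat_lit 1169) Uxp19n1132 (.cons (nat_lit 1178) Uxp19n1132 .nil)) .nil) (.cons (nat_lit 1052) (.cons (nat_lit 1182) Uxp19n605 .nil) .nil)) .nil) .nil) .nil))) .nil) .nil))) .nil) (.cons (nat_lit 662) (.cons (nat_lit 660) (.cons (nat_lit 786) (.cons (nat_lit 780) (.cons (nat_lit 906) (.cons (nat_lit 900) (.cons (nat_lit 1030) (.cons (nat_lit 41987)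 Uxp19n1436 .nil) (.cons (nat_lit 1034) (.cons (nat_lit 1028) (.cons (nat_lit 1153) (.cons (nat_lit 1156) (.cons (nat_lit 1286) (.cons (nat_lit 42243) Uxp19n1338 .nil) (.cons (nat_lit 1290) Uxp19n1213 .nil)) .nil) Uxp19n1201) .nil) (.cons (nat_lit 1033) (.cons (nat_lit 1036) (.cons (nat_lit 1162) Uxp19n1446 .nil) .nil) .nil))) .nil) (.cons (nat_lit 913) (.cons (nat_lit 916) (.cons (nat_lit 1042) Uxp19n1470 .nil) .nil) Uxp19n1491)) .nil) (.cons (nat_lit 785) (.cons (nat_lit 788) (.cons (nat_lit 922) (.cons (nat_lit 916) (.cons (nat_lit 1042) Uxp19n1470 (.cons (nat_lit 1041) (.cons (nat_lit 1044) (.cons (nat_lit 1170) (.cons (nat_lit 1164) (.cons (nat_lit 1289) (.cons (nat_lit 1292) (.cons (nat_lit 1418) (.cons (nat_lit 1412) (.cons (nat_lit 1542) (.cons (nat_lit 42499) Uxp19n1454 .nil) Uxp19n1498) .nil) .nil) .nil) Uxp19n1466) .nil) .nil) .nil) .nil)) .nil) (.cons (nat_lit 918) (.cons (nat_lit 916) (.cons (nat_lit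 1042) (.cons (nat_lit 1036) (.cons (nat_lit 1166) (.cons (nat_lit 1164) (.cons (nat_lit 1294) (.cons (nat_lit 1292) (.cons (nat_lit 1418) (.cons (nat_lit 58755) (.cons (nat_lit 1284) (.cons (nat_lit 1542) (.cons (nat_lit 75267) (.cons (nat_lit 1540) (.cons (nat_lit 1670) (.cons (nat_lit 1667) (.cons (nat_lit 42627) (.cons (nat_lit 5) .nil .nil) .nil) (.cons (nat_lit 42635) (.cons (nat_lit 1676) (.cons (nat_lit 1802) Uxp19n1511 .nil) .nil) .nil)) .nil) .nil) .nil) .nil) .nil) .nil) .nil) .nil) .nil) .nil) .nil) .nil) .nil) .nil) .nil)) .nil) (.cons (nat_lit 798) (.cons (nat_lit 795) (.cons (nat_lit 796) (.cons (nat_lit 922) Uxp19n28 .nil) .nil) (.cons (nat_lit 804) (.cons (nat_lit 929) Uxp19n708 Uxp19n1535) .nil)) .nil))) .nil) .nil)) .nil) (.cons (nat_lit 534) (.cons (nat_lit 532) (.cons (nat_lit 658) (.cons (nat_lit 652) (.cons (nat_lit 778) (.cons (nat_lit 772) (.cons (nat_lit 902) (.cons (nat_lit 899) (.cons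 (nat_lit 33667) (.cons (nat_lit 5) .nil .nil) .nil) (.cons (nat_lit 33675) (.cons (nat_lit 908) (.cons (nat_lit 1033) (.cons (nat_lit 1036) (.cons (nat_lit 1162) Uxp19n618 .nil) .nil) (.cons (nat_lit 1034) Uxp19n1194 .nil)) .nil) .nil)) (.cons (nat_lit 906) (.cons (nat_lit 900) (.cons (nat_lit 1025) (.cons (nat_lit 1028) (.cons (nat_lit 1158) Uxp19n1554 (.cons (nat_lit 1162) (.cons (nat_lit 1156) (.cons (nat_lit 1281) Uxp19n75 .nil) .nil) .nil)) .nil) (.cons (nat_lit 1034) Uxp19n63 .nil)) .nil) (.cons (nat_lit 905) (.cons (nat_lit 908) (.cons (nat_lit 1034) (.cons (nat_lit 1028) (.cons (nat_lit 1158) Uxp19n1554 Uxp19n1560) .nil) .nil) .nil) .nil))) .nil) (.cons (nat_lit 785) (.cons (nat_lit 788) (.cons (nat_lit 914) (.cons (nat_lit 908) (.cons (nat_lit 1034) Uxp19n1572 (.cons (nat_lit 1033) (.cons (nat_lit 1036) Uxp19n1581 .nil) .nil)) .nil) .nil) .nil) (.cons (nat_lit 790) (.cons (nat_lit 788) (.cons (nat_lit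 914) (.cons (nat_lit 908) (.cons (nat_lit 1038) (.cons (nat_lit 1036) (.cons (nat_lit 1166) (.cons (nat_lit 1164) (.cons (nat_lit 1290) (.cons (nat_lit 50435) (.cons (nat_lit 1156) (.cons (nat_lit 1414) (.cons (nat_lit 66947) (.cons (nat_lit 1412) (.cons (nat_lit 1542) (.cons (nat_lit 34307) Uxp19n1454 .nil) .nil) .nil) .nil) .nil) .nil) .nil) .nil) .nil) .nil) .nil) .nil) .nil) .nil) .nil) .nil))) .nil) (.cons (nat_lit 657) (.cons (nat_lit 660) (.cons (nat_lit 786) (.cons (nat_lit 780) (.cons (nat_lit 906) (.cons (nat_lit 900) (.cons (nat_lit 1025) (.cons (nat_lit 1028) (.cons (nat_lit 1158) (.cons (nat_lit 1155) (.cons (nat_lit 33923) (.cons (nat_lit 5) .nil .nil) .nil) (.cons (nat_lit 33931) (.cons (nat_lit 1164) (.cons (nat_lit 1290) Uxp19n1338 .nil) .nil) .nil)) Uxp19n1581) .nil) (.cons (nat_lit 1034) Uxp19n1572 .nil)) .nil) (.cons (nat_lit 913) (.cons (nat_lit 916) (.cons (nat_lit 1042) (.cons (nat_lit 1036)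 (.cons (nat_lit 1162) (.cons (nat_lit 1156) (.cons (nat_lit 1281) (.cons (nat_lit 1284) (.cons (nat_lit 1414) (.cons (nat_lit 1411) (.cons (nat_lit 34179) (.cons (nat_lit 5) .nil .nil) .nil) Uxp19n1618) (.cons (nat_lit 1418) (.cons (nat_lit 1412) (.cons (nat_lit 1537) Uxp19n344 .nil) .nil) .nil)) .nil) (.cons (nat_lit 1290) Uxp19n75 .nil)) .nil) (.cons (nat_lit 1161) (.cons (nat_lit 1164) (.cons (nat_lit 1290) (.cons (nat_lit 1284) (.cons (nat_lit 1414) (.cons (nat_lit 1411) (.cons (nat_lit 34179) (.cons (nat_lit 5) .nil .nil) .nil) Uxp19n1618) (.cons (nat_lit 1418) (.cons (nat_lit 1412) (.cons (nat_lit 1537) Uxp19n344 .nil) .nil) (.cons (nat_lit 1417) (.cons (nat_lit 1420) (.cons (nat_lit 1546) Uxp19n344 .nil) .nil) .nil))) .nil) .nil) .nil) .nil)) .nil) .nil) .nil) .nil)) .nil) (.cons (nat_lit 798) (.cons (nat_lit 796) (.cons (nat_lit 922) (.cons (nat_lit 916) (.cons (nat_lit 1046) (.cons (nat_lit 1044) (.cons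 (nat_lit 1174) (.cons (nat_lit 1172) (.cons (nat_lit 1298) (.cons (nat_lit 50443) (.cons (nat_lit 1164) (.cons (nat_lit 1422) (.cons (nat_lit 66955) (.cons (nat_lit 1420) (.cons (nat_lit 1550) (.cons (nat_lit 34315) (.cons (nat_lit 1548) (.cons (nat_lit 1674) Uxp19n1638 .nil) .nil) .nil) .nil) .nil) .nil) .nil) .nil) .nil) .nil) .nil) .nil) .nil) .nil) .nil) .nil) .nil) .nil)) .nil) (.cons (nat_lit 662) (.cons (nat_lit 660) (.cons (nat_lit 785) (.cons (nat_lit 787) (.cons (nat_lit 660) (.cons (nat_lit 913) Uxp19n386 (.cons (nat_lit 922) Uxp19n386 .nil)) .nil) (.cons (nat_lit 796) (.cons (nat_lit 926) (.cons (nat_lit 924) (.cons (nat_lit 1050) (.cons (nat_lit 1044) (.cons (nat_lit 1174) (.cons (nat_lit 1172) (.cons (nat_lit 1302) (.cons (nat_lit 34067) (.cons (nat_lit 1300) (.cons (nat_lit 1430) (.cons (nat_lit 75155) (.cons (nat_lit 1428) (.cons (nat_lit 1554) (.cons (nat_lit 58891) (.cons (nat_lit 652) (.cons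 (nat_lit 1674) Uxp19n799 .nil) .nil) .nil) .nil) .nil) .nil) .nil) .nil) .nil) .nil) .nil) .nil) .nil) .nil) .nil) Uxp19n834) .nil)) Uxp19n390) .nil) .nil))) .nil) .nil))
def Uxp19n1687 : PT := (.cons (nat_lit 404) (.cons (nat_lit 530) (.cons (nat_lit 524) (.cons (nat_lit 650) (.cons (nat_lit 644) (.cons (nat_lit 769) (.cons (nat_lit 771) (.cons (nat_lit 5) .nil .nil) (.cons (nat_lit 788) (.cons (nat_lit 914) Uxp19n206 (.cons (nat_lit 918) (.cons (nat_lit 916) (.cons (nat_lit 1042) Uxp19n1112 (.cons (nat_lit 1041) (.cons (nat_lit 1044) Uxp19n188 .nil) .nil)) .nil) .nil)) .nil)) (.cons (nat_lit 778) (.cons (nat_lit 771) (.cons (nat_lit 5) .nil .nil) (.cons (nat_lit 780) (.cons (nat_lit 906) (.cons (nat_lit 900) (.cons (nat_lit 1025) (.cons (nat_lit 1027) (.cons (nat_lit 5) .nil .nil) .nil) .nil) .nil) (.cons (nat_lit 905) Uxp19n206 .nil)) .nil)) (.cons (nat_lit 790) (.cons (nat_lit 788) (.cons (nat_lit 914) Uxp19n9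 (.cons (nat_lit 913) Uxp19n168 (.cons (nat_lit 918) (.cons (nat_lit 916) (.cons (nat_lit 1041) (.cons (nat_lit 1043) (.cons (nat_lit 916) (.cons (nat_lit 1169) Uxp19n1132 .nil) .nil) .nil) .nil) .nil) .nil))) .nil) .nil))) .nil) (.cons (nat_lit 649) (.cons (nat_lit 652) (.cons (nat_lit 778) (.cons (nat_lit 771) (.cons (nat_lit 5) .nil .nil) (.cons (nat_lit 780) (.cons (nat_lit 905) Uxp19n514 (.cons (nat_lit 914) Uxp19n206 (.cons (nat_lit 918) (.cons (nat_lit 916) (.cons (nat_lit 1042) Uxp19n1112 Uxp19n515) .nil) .nil))) .nil)) (.cons (nat_lit 790) (.cons (nat_lit 788) (.cons (nat_lit 914) Uxp19n1180 (.cons (nat_lit 921) Uxp19n299 (.cons (nat_lit 926) (.cons (nat_lit 924) (.cons (nat_lit 1049) (.cons (nat_lit 1051) (.cons (nat_lit 924) (.cons (nat_lit 1178) Uxp19n1132 .nil) .nil) .nil) .nil) .nil) .nil))) .nil) .nil)) .nil) (.cons (nat_lit 662) (.cons (nat_lit 660) (.cons (nat_lit 786) (.cons (nat_lit 780) (.cons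 (nat_lit 906) (.cons (nat_lit 900) (.cons (nat_lit 1030) (.cons (nat_lit 41987) Uxp19n1194 .nil) (.cons (nat_lit 1034) (.cons (nat_lit 1028) (.cons (nat_lit 1153) (.cons (nat_lit 1156) (.cons (nat_lit 1286) (.cons (nat_lit 42243) Uxp19n1107 .nil) .nil) .nil) .nil) .nil) (.cons (nat_lit 1033) (.cons (nat_lit 1036) Uxp19n1201 .nil) .nil))) .nil) (.cons (nat_lit 913) (.cons (nat_lit 916) (.cons (nat_lit 1042) (.cons (nat_lit 1036) (.cons (nat_lit 1162) (.cons (nat_lit 1156) (.cons (nat_lit 1286) (.cons (nat_lit 42243) Uxp19n1107 .nil) .nil) .nil) (.cons (nat_lit 1161) (.cons (nat_lit 1164) (.cons (nat_lit 1290) Uxp19n1213 .nil) .nil) .nil)) .nil) .nil) .nil) Uxp19n48)) .nil) (.cons (nat_lit 785) (.cons (nat_lit 788) (.cons (nat_lit 922) (.cons (nat_lit 916) (.cons (nat_lit 1042) (.cons (nat_lit 1036) (.cons (nat_lit 1161) (.cons (nat_lit 1164) (.cons (nat_lit 1294) (.cons (nat_lit 42251) Uxp19n308 .nil) (.cons (nat_lit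 1290) Uxp19n1213 .nil)) .nil) Uxp19n1201) .nil) (.cons (nat_lit 1041) (.cons (nat_lit 1044) (.cons (nat_lit 1170) (.cons (nat_lit 1164) (.cons (nat_lit 1289) (.cons (nat_lit 1292) Uxp19n1228 .nil) (.cons (nat_lit 1290) Uxp19n1213 .nil)) .nil) .nil) .nil) .nil)) .nil) (.cons (nat_lit 918) (.cons (nat_lit 916) (.cons (nat_lit 1042) (.cons (nat_lit 1036) (.cons (nat_lit 1166) (.cons (nat_lit 1164) (.cons (nat_lit 1294) (.cons (nat_lit 1292) (.cons (nat_lit 1418) (.cons (nat_lit 58755) (.cons (nat_lit 1284) (.cons (nat_lit 1542) (.cons (nat_lit 75267) (.cons (nat_lit 1540) (.cons (nat_lit 1670) (.cons (nat_lit 1667) (.cons (nat_lit 42627) (.cons (nat_lit 5) .nil .nil) .nil) (.cons (nat_lit 42635) (.cons (nat_lit 1676) (.cons (nat_lit 1802) Uxp19n1161 .nil) .nil) .nil)) .nil) .nil) .nil) .nil) .nil) .nil) .nil) .nil) .nil) .nil) .nil) .nil) .nil) .nil) .nil)) .nil) (.cons (nat_lit 790) (.cons (nat_lit 787) (.cons (nat_lit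 788) (.cons (nat_lit 913) Uxp19n28 (.cons (nat_lit 922) Uxp19n28 .nil)) .nil) (.cons (nat_lit 796) (.cons (nat_lit 921) (.cons (nat_lit 924) (.cons (nat_lit 1050) (.cons (nat_lit 1043) (.cons (nat_lit 788) (.cons (nat_lit 1169) Uxp19n703 .nil) .nil) .nil) (.cons (nat_lit 1054) (.cons (nat_lit 1052) (.cons (nat_lit 1178) (.cons (nat_lit 1172) (.cons (nat_lit 1302) (.cons (nat_lit 1300) (.cons (nat_lit 1430) (.cons (nat_lit 42387) (.cons (nat_lit 1428) (.cons (nat_lit 1558) (.cons (nat_lit 83475) (.cons (nat_lit 1556) (.cons (nat_lit 1682) (.cons (nat_lit 67211) (.cons (nat_lit 780) (.cons (nat_lit 1802) Uxp19n1161 .nil) .nil) .nil) .nil) .nil) .nil) .nil) .nil) .nil) .nil) .nil) .nil) .nil) .nil) .nil) .nil)) .nil) .nil) .nil)) .nil))) .nil) .nil))) .nil) Uxp19n1685) .nil)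
def Uxp19n1702 : PT := (.cons (nat_lit 1284) (.cons (nat_lit 1409) (.cons (nat_lit 1411) (.cons (nat_lit 5) .nil .nil) (.cons (nat_lit 1420) (.cons (nat_lit 1546) Uxp19n1208 .nil) .nil)) (.cons (nat_lit 1418) (.cons (nat_lit 1411) (.cons (nat_lit 5) .nil .nil) .nil) .nil)) .nil)
def Uxp19n1707 : PT := (.cons (nat_lit 1036) (.cons (nat_lit 1162) (.cons (nat_lit 1156) (.cons (nat_lit 1286) (.cons (nat_lit 58627) Uxp19n1702 .nil) Uxp19n1348) .nil) (.cons (nat_lit 1169) (.cons (nat_lit 1172) (.cons (nat_lit 1298) Uxp19n1360 .nil) .nil) Uxp19n188)) .nil)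
def Uxp19n1721 : PT := (.cons (nat_lit 1428) (.cons (nat_lit 1558) (.cons (nat_lit 1556) (.cons (nat_lit 1682) (.cons (nat_lit 1676) (.cons (nat_lit 1806) (.cons (nat_lit 1804) (.cons (nat_lit 1934) (.cons (nat_lit 51083) Uxp19n1314 .nil) .nil) .nil) .nil) .nil) .nil) .nil) .nil) .nil)
def Uxp19n1743 : PT := (.cons (nat_lit 1412) (.cons (nat_lit 1537) (.cons (nat_lit 1539) (.cons (nat_lit 5) .nil .nil) .nil) .nil) .nil)
def Uxp19n1748 : PT := (.cons (nat_lit 1156) (.cons (nat_lit 1281) (.cons (nat_lit 1283) (.cons (nat_lit 5) .nil .nil) (.cons (nat_lit 1292) (.cons (nat_lit 1418) Uxp19n1743 .nil) .nil)) (.cons (nat_lit 1290) (.cons (nat_lit 1283) (.cons (nat_lit 5) .nil .nil) .nil) .nil)) .nil)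
def Uxp19n1802 : PT := (.cons (nat_lit 1796) (.cons (nat_lit 1926) (.cons (nat_lit 1923) (.cons (nat_lit 67459) (.cons (nat_lit 5) .nil .nil) .nil) .nil) .nil) .nil)
def Uxp19n1809 : PT := (.cons (nat_lit 1420) (.cons (nat_lit 1546) Uxp19n547 (.cons (nat_lit 1545) (.cons (nat_lit 1548) (.cons (nat_lit 1674) (.cons (nat_lit 1668) (.cons (nat_lit 1793) Uxp19n1802 .nil) .nil) .nil) .nil) .nil)) .nil)
def Uxp19n1841 : PT := (.cons (nat_lit 2060) (.cons (nat_lit 2186) (.cons (nat_lit 2179) (.cons (nat_lit 5) .nil .nil) .nil) .nil) .nil)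
def Uxp19n1920 : PT := (.cons (nat_lit 905) (.cons (nat_lit 908) (.cons (nat_lit 1034) (.cons (nat_lit 1027) (.cons (nat_lit 5) .nil .nil) (.cons (nat_lit 1036) (.cons (nat_lit 1162) Uxp19n1748 (.cons (nat_lit 1161) (.cons (nat_lit 1164) (.cons (nat_lit 1290) (.cons (nat_lit 1283) (.cons (nat_lit 5) .nil .nil) (.cons (nat_lit 1292) (.cons (nat_lit 1418) Uxp19n1743 (.cons (nat_lit 1417) (.cons (nat_lit 1420) (.cons (nat_lit 1546) (.cons (nat_lit 1539) (.cons (nat_lit 5) .nil .nil) .nil) .nil) .nil) .nil)) .nil)) (.cons (nat_lit 1302) (.cons (nat_lit 1300) (.cons (nat_lit 1426) (.cons (nat_lit 1420) (.cons (nat_lit 1546) (.cons (nat_lit 1540) (.cons (nat_lit 1670) (.cons (nat_lit 1667) (.cons (nat_lit 83587) (.cons (nat_lit 5) .nil .nil) .nil) .nil) .nil) .nil) .nil) .nil) .nil) .nil) .nil)) .nil) (.cons (nat_lit 1174) (.cons (nat_lit 1172) (.cons (nat_lit 1298) Uxp19n1303 (.cons (nat_lit 1302) (.cons (nat_lit 1299)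 (.cons (nat_lit 1300) (.cons (nat_lit 1425) (.cons (nat_lit 1428) (.cons (nat_lit 1558) (.cons (nat_lit 1556) (.cons (nat_lit 1682) (.cons (nat_lit 1676) (.cons (nat_lit 1806) (.cons (nat_lit 1804) (.cons (nat_lit 1934) (.cons (nat_lit 75659) Uxp19n1314 .nil) .nil) .nil) .nil) .nil) .nil) .nil) .nil) .nil) .nil) .nil) .nil) Uxp19n540)) .nil) .nil))) .nil)) (.cons (nat_lit 1046) (.cons (nat_lit 1044) (.cons (nat_lit 1170) (.cons (nat_lit 1164) (.cons (nat_lit 1290) (.cons (nat_lit 1284) (.cons (nat_lit 1414) (.cons (nat_lit 1411) (.cons (nat_lit 66947) (.cons (nat_lit 5) .nil .nil) .nil) (.cons (nat_lit 66955) (.cons (nat_lit 1420) (.cons (nat_lit 1546) Uxp19n1208 (.cons (nat_lit 1545) Uxp19n103 .nil)) .nil) .nil)) (.cons (nat_lit 1418) (.cons (nat_lit 1412) (.cons (nat_lit 1537) Uxp19n547 .nil) .nil) (.cons (nat_lit 1417) (.cons (nat_lit 1420) (.cons (nat_lit 1546) Uxp19n547 .nil) .nil) .nil))) .nil) (.cons (nat_lit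 1297) (.cons (nat_lit 1300) (.cons (nat_lit 1426) Uxp19n1809 .nil) .nil) (.cons (nat_lit 1302) (.cons (nat_lit 1300) (.cons (nat_lit 1426) (.cons (nat_lit 1420) (.cons (nat_lit 1550) (.cons (nat_lit 1548) (.cons (nat_lit 1678) (.cons (nat_lit 1676) (.cons (nat_lit 1802) (.cons (nat_lit 83715) (.cons (nat_lit 1668) (.cons (nat_lit 1926) (.cons (nat_lit 100227) (.cons (nat_lit 1924) (.cons (nat_lit 2054) (.cons (nat_lit 67587) Uxp19n1377 .nil) .nil) .nil) .nil) .nil) .nil) .nil) .nil) .nil) .nil) .nil) .nil) .nil) .nil) .nil) .nil))) .nil) (.cons (nat_lit 1177) (.cons (nat_lit 1180) (.cons (nat_lit 1306) (.cons (nat_lit 1300) (.cons (nat_lit 1426) Uxp19n1809 (.cons (nat_lit 1425) (.cons (nat_lit 1428) (.cons (nat_lit 1554) (.cons (nat_lit 1548) (.cons (nat_lit 1673) (.cons (nat_lit 1676) (.cons (nat_lit 1802) Uxp19n1802 .nil) .nil) (.cons (nat_lit 1674) (.cons (nat_lit 1668) (.cons (nat_lit 1793) Uxp19n1802 .nil)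 .nil) .nil)) .nil) .nil) .nil) .nil)) .nil) (.cons (nat_lit 1310) (.cons (nat_lit 1308) (.cons (nat_lit 1434) (.cons (nat_lit 1428) (.cons (nat_lit 1558) (.cons (nat_lit 1556) (.cons (nat_lit 1686) (.cons (nat_lit 1684) (.cons (nat_lit 1810) (.cons (nat_lit 83723) (.cons (nat_lit 1676) (.cons (nat_lit 1934) (.cons (nat_lit 100235) (.cons (nat_lit 1932) (.cons (nat_lit 2062) (.cons (nat_lit 67595) Uxp19n1841 .nil) .nil) .nil) .nil) .nil) .nil) .nil) .nil) .nil) .nil) .nil) .nil) .nil) .nil) .nil) .nil)) .nil) (.cons (nat_lit 1182) (.cons (nat_lit 1180) (.cons (nat_lit 1305) (.cons (nat_lit 1307) (.cons (nat_lit 1180) (.cons (nat_lit 1434) Uxp19n1323 .nil) .nil) .nil) .nil) .nil) .nil))) .nil) .nil)) .nil) (.cons (nat_lit 918) (.cons (nat_lit 916) (.cons (nat_lit 1042) Uxp19n1707 (.cons (nat_lit 1041) (.cons (nat_lit 1044) (.cons (nat_lit 1178) (.cons (nat_lit 1172) (.cons (nat_lit 1298) (.cons (nat_lit 1292) (.cons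 (nat_lit 1417) (.cons (nat_lit 1420) (.cons (nat_lit 1550) (.cons (nat_lit 58891) Uxp19n103 .nil) Uxp19n1356) .nil) Uxp19n1345) .nil) Uxp19n1372) .nil) Uxp19n1396) .nil) (.cons (nat_lit 1046) (.cons (nat_lit 1043) (.cons (nat_lit 1044) (.cons (nat_lit 1169) Uxp19n237 (.cons (nat_lit 1178) Uxp19n237 .nil)) .nil) (.cons (nat_lit 1052) (.cons (nat_lit 1177) (.cons (nat_lit 1180) (.cons (nat_lit 1306) (.cons (nat_lit 1299) (.cons (nat_lit 1044) (.cons (nat_lit 1425) (.cons (nat_lit 1428) (.cons (nat_lit 1558) (.cons (nat_lit 1556) (.cons (nat_lit 1682) (.cons (nat_lit 1676) (.cons (nat_lit 1806) (.cons (nat_lit 1804) (.cons (nat_lit 1934) (.cons (nat_lit 59275) Uxp19n1314 .nil) .nil) .nil) .nil) .nil) .nil) .nil) .nil) .nil) .nil) .nil) .nil) (.cons (nat_lit 1310) (.cons (nat_lit 1308) (.cons (nat_lit 1434) (.cons (nat_lit 1428) (.cons (nat_lit 1558) (.cons (nat_lit 1556) (.cons (nat_lit 1686) (.cons (nat_lit 59027)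 (.cons (nat_lit 1684) (.cons (nat_lit 1814) (.cons (nat_lit 100115) (.cons (nat_lit 1812) (.cons (nat_lit 1938) (.cons (nat_lit 83851) (.cons (nat_lit 1036) (.cons (nat_lit 2058) Uxp19n1377 .nil) .nil) .nil) .nil) .nil) .nil) .nil) .nil) .nil) .nil) .nil) .nil) .nil) .nil) .nil) .nil)) .nil) .nil) .nil)) .nil))) .nil) .nil))
def Uxp19n1925 : PT := (.cons (nat_lit 1292) (.cons (nat_lit 1418) (.cons (nat_lit 1411) (.cons (nat_lit 5) .nil .nil) (.cons (nat_lit 1420) (.cons (nat_lit 1546) Uxp19n1208 (.cons (nat_lit 1545) Uxp19n103 .nil)) .nil)) .nil) .nil)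
def Uxp19n1932 : PT := (.cons (nat_lit 1411) (.cons (nat_lit 50563) (.cons (nat_lit 5) .nil .nil) .nil) (.cons (nat_lit 50571) (.cons (nat_lit 1420) (.cons (nat_lit 1545) Uxp19n103 (.cons (nat_lit 1546) Uxp19n1208 .nil)) .nil) .nil))
def Uxp19n1956 : PT := (.cons (nat_lit 1796) (.cons (nat_lit 1926) (.cons (nat_lit 1923) (.cons (nat_lit 51075) (.cons (nat_lit 5) .nil .nil) .nil) .nil) .nil) .nil)
def Uxp19n1968 : PT := (.cons (nat_lit 1164) (.cons (nat_lit 1290) (.cons (nat_lit 1284) (.cons (nat_lit 1414) (.cons (nat_lit 1411) (.cons (nat_lit 50563) (.cons (nat_lit 5) .nil .nil) .nil) (.cons (nat_lit 50571) (.cons (nat_lit 1420) (.cons (nat_lit 1546) Uxp19n1208 (.cons (nat_lit 1545) Uxp19n103 .nil)) .nil) .nil)) Uxp19n272) .nil) (.cons (nat_lit 1289) (.cons (nat_lit 1292) (.cons (nat_lit 1418) (.cons (nat_lit 1412) (.cons (nat_lit 1537) (.cons (nat_lit 1540) (.cons (nat_lit 1670) (.cons (nat_lit 1667) (.cons (nat_lit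 50819) (.cons (nat_lit 5) .nil .nil) .nil) (.cons (nat_lit 50827) (.cons (nat_lit 1676) (.cons (nat_lit 1801) Uxp19n281 (.cons (nat_lit 1802) Uxp19n1161 .nil)) .nil) .nil)) (.cons (nat_lit 1674) (.cons (nat_lit 1668) (.cons (nat_lit 1793) Uxp19n1956 .nil) .nil) .nil)) .nil) (.cons (nat_lit 1546) Uxp19n257 .nil)) .nil) .nil) .nil) .nil)) .nil)
def Uxp19n1973 : PT := (.cons (nat_lit 1796) (.cons (nat_lit 1921) (.cons (nat_lit 1923) (.cons (nat_lit 5) .nil .nil) (.cons (nat_lit 1932) (.cons (nat_lit 2058) Uxp19n1377 .nil) .nil)) (.cons (nat_lit 1930) (.cons (nat_lit 1923) (.cons (nat_lit 5) .nil .nil) .nil) .nil)) .nil)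
def Uxp19n1994 : PT := (.cons (nat_lit 1667) (.cons (nat_lit 50819) (.cons (nat_lit 5) .nil .nil) .nil) (.cons (nat_lit 50827) (.cons (nat_lit 1676) (.cons (nat_lit 1802) Uxp19n1161 (.cons (nat_lit 1801) Uxp19n281 .nil)) .nil) .nil))
def Uxp19n2019 : PT := (.cons (nat_lit 1804) (.cons (nat_lit 1930) (.cons (nat_lit 1923) (.cons (nat_lit 5) .nil .nil) (.cons (nat_lit 1932) (.cons (nat_lit 2058) Uxp19n1377 (.cons (nat_lit 2057) Uxp19n1841 .nil)) .nil)) .nil) .nil)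
def Uxp19n2066 : PT := (.cons (nat_lit 1156) (.cons (nat_lit 1286) (.cons (nat_lit 42243) Uxp19n1702 .nil) (.cons (nat_lit 1290) Uxp19n1213 (.cons (nat_lit 1289) (.cons (nat_lit 1292) Uxp19n1228 .nil) .nil))) .nil)
def Uxp19n2076 : PT := (.cons (nat_lit 42499) (.cons (nat_lit 1540) (.cons (nat_lit 1665) (.cons (nat_lit 1667) (.cons (nat_lit 5) .nil .nil) (.cons (nat_lit 1676) (.cons (nat_lit 1802) Uxp19n1161 .nil) .nil)) (.cons (nat_lit 1674) (.cons (nat_lit 1667) (.cons (nat_lit 5) .nil .nil) .nil) .nil)) .nil) .nil)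
def Uxp19n2080 : PT := (.cons (nat_lit 1284) (.cons (nat_lit 1409) (.cons (nat_lit 1412) (.cons (nat_lit 1542) Uxp19n2076 (.cons (nat_lit 1546) Uxp19n1460 .nil)) .nil) Uxp19n1228) .nil)
def Uxp19n2142 : PT := (.cons (nat_lit 1299) (.cons (nat_lit 788) (.cons (nat_lit 1425) (.cons (nat_lit 1428) (.cons (nat_lit 1558) (.cons (nat_lit 1556) (.cons (nat_lit 1682) (.cons (nat_lit 1676) (.cons (nat_lit 1806) (.cons (nat_lit 1804) (.cons (nat_lit 1934) (.cons (nat_lit 42891) Uxp19n1314 .nil) .nil) .nil) .nil) .nil) .nil) .nil) .nil) .nil) .nil) .nil) .nil)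
def Uxp19n2176 : PT := (.cons (nat_lit 657) (.cons (nat_lit 660) (.cons (nat_lit 786) (.cons (nat_lit 780) (.cons (nat_lit 906) (.cons (nat_lit 900) (.cons (nat_lit 1025) (.cons (nat_lit 1027) (.cons (nat_lit 5) .nil .nil) (.cons (nat_lit 1036) (.cons (nat_lit 1162) Uxp19n1748 (.cons (nat_lit 1174) (.cons (nat_lit 1172) (.cons (nat_lit 1298) Uxp19n1303 Uxp19n540) .nil) .nil)) .nil)) (.cons (nat_lit 1034) Uxp19n1292 Uxp19n1333)) .nil) Uxp19n1920) .nil) (.cons (nat_lit 790) (.cons (nat_lit 788) (.cons (nat_lit 914) (.cons (nat_lit 908) (.cons (nat_lit 1034) (.cons (nat_lit 1028) (.cons (nat_lit 1158) (.cons (nat_lit 1155) (.cons (nat_lit 50307) (.cons (nat_lit 5) .nil .nil) .nil) (.cons (nat_lit 50315) (.cons (nat_lit 1164) (.cons (nat_lit 1290) Uxp19n1702 (.cons (nat_lit 1289) Uxp19n1925 .nil)) .nil) .nil)) (.cons (nat_lit 1162) (.cons (nat_lit 1156) (.cons (nat_lit 1281) (.cons (nat_lit 1284) (.cons (nat_lit 1414)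 Uxp19n1932 (.cons (nat_lit 1418) (.cons (nat_lit 1412) (.cons (nat_lit 1537) Uxp19n257 .nil) .nil) .nil)) .nil) (.cons (nat_lit 1290) Uxp19n162 .nil)) .nil) (.cons (nat_lit 1161) (.cons (nat_lit 1164) (.cons (nat_lit 1290) (.cons (nat_lit 1284) (.cons (nat_lit 1414) Uxp19n1932 Uxp19n272) .nil) .nil) .nil) .nil))) .nil) (.cons (nat_lit 1041) (.cons (nat_lit 1044) (.cons (nat_lit 1170) Uxp19n1968 .nil) .nil) (.cons (nat_lit 1046) (.cons (nat_lit 1044) (.cons (nat_lit 1170) (.cons (nat_lit 1164) (.cons (nat_lit 1294) (.cons (nat_lit 1292) (.cons (nat_lit 1422) (.cons (nat_lit 1420) (.cons (nat_lit 1546) (.cons (nat_lit 67075) (.cons (nat_lit 1412) (.cons (nat_lit 1670) (.cons (nat_lit 83587) (.cons (nat_lit 1668) (.cons (nat_lit 1798) (.cons (nat_lit 50947) Uxp19n1973 .nil) .nil) .nil) .nil) .nil) .nil) .nil) .nil) .nil) .nil) .nil) .nil) .nil) .nil) .nil) .nil))) .nil) (.cons (nat_lit 921) (.cons (nat_lit 924) (.cons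 (nat_lit 1050) (.cons (nat_lit 1044) (.cons (nat_lit 1170) Uxp19n1968 (.cons (nat_lit 1169) (.cons (nat_lit 1172) (.cons (nat_lit 1298) (.cons (nat_lit 1292) (.cons (nat_lit 1417) (.cons (nat_lit 1420) (.cons (nat_lit 1546) (.cons (nat_lit 1540) (.cons (nat_lit 1670) Uxp19n1994 (.cons (nat_lit 1673) (.cons (nat_lit 1676) (.cons (nat_lit 1802) Uxp19n1956 .nil) .nil) (.cons (nat_lit 1674) (.cons (nat_lit 1668) (.cons (nat_lit 1793) Uxp19n1956 .nil) .nil) .nil))) .nil) .nil) .nil) (.cons (nat_lit 1418) (.cons (nat_lit 1412) (.cons (nat_lit 1537) (.cons (nat_lit 1540) (.cons (nat_lit 1670) Uxp19n1994 (.cons (nat_lit 1674) (.cons (nat_lit 1668) (.cons (nat_lit 1793) Uxp19n1956 .nil) .nil) .nil)) .nil) (.cons (nat_lit 1546) Uxp19n257 .nil)) .nil) .nil)) .nil) .nil) .nil) .nil)) .nil) (.cons (nat_lit 1054) (.cons (nat_lit 1052) (.cons (nat_lit 1178) (.cons (nat_lit 1172) (.cons (nat_lit 1302) (.cons (nat_lit 1300) (.cons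 (nat_lit 1430) (.cons (nat_lit 1428) (.cons (nat_lit 1554) (.cons (nat_lit 67083) (.cons (nat_lit 1420) (.cons (nat_lit 1678) (.cons (nat_lit 83595) (.cons (nat_lit 1676) (.cons (nat_lit 1806) (.cons (nat_lit 50955) Uxp19n2019 .nil) .nil) .nil) .nil) .nil) .nil) .nil) .nil) .nil) .nil) .nil) .nil) .nil) .nil) .nil) .nil)) .nil) (.cons (nat_lit 926) (.cons (nat_lit 924) (.cons (nat_lit 1049) (.cons (nat_lit 1051) (.cons (nat_lit 924) (.cons (nat_lit 1178) Uxp19n1132 .nil) .nil) (.cons (nat_lit 1060) (.cons (nat_lit 1186) (.cons (nat_lit 1180) (.cons (nat_lit 1305) (.cons (nat_lit 1307) (.cons (nat_lit 924) (.cons (nat_lit 1434) Uxp19n1721 .nil) .nil) .nil) .nil) .nil) .nil) .nil)) (.cons (nat_lit 1058) (.cons (nat_lit 1051) (.cons (nat_lit 924) (.cons (nat_lit 1178) Uxp19n1132 .nil) .nil) .nil) .nil)) .nil) .nil))) .nil) .nil)) .nil) (.cons (nat_lit 662) (.cons (nat_lit 660) (.cons (nat_lit 786) (.cons (nat_lit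 780) (.cons (nat_lit 906) (.cons (nat_lit 900) (.cons (nat_lit 1030) (.cons (nat_lit 41987) (.cons (nat_lit 1028) (.cons (nat_lit 1153) (.cons (nat_lit 1155) (.cons (nat_lit 5) .nil .nil) (.cons (nat_lit 1164) (.cons (nat_lit 1290) Uxp19n1338 .nil) .nil)) Uxp19n1434) .nil) .nil) (.cons (nat_lit 1034) (.cons (nat_lit 1028) (.cons (nat_lit 1153) (.cons (nat_lit 1156) (.cons (nat_lit 1286) (.cons (nat_lit 42243) Uxp19n1702 .nil) (.cons (nat_lit 1290) Uxp19n1213 .nil)) .nil) Uxp19n1201) .nil) (.cons (nat_lit 1033) (.cons (nat_lit 1036) (.cons (nat_lit 1162) Uxp19n2066 .nil) .nil) .nil))) .nil) (.cons (nat_lit 913) (.cons (nat_lit 916) (.cons (nat_lit 1042) (.cons (nat_lit 1036) (.cons (nat_lit 1162) Uxp19n2066 (.cons (nat_lit 1161) (.cons (nat_lit 1164) (.cons (nat_lit 1290) Uxp19n2080 .nil) .nil) .nil)) .nil) .nil) .nil) Uxp19n1491)) .nil) (.cons (nat_lit 785) (.cons (nat_lit 788) (.cons (nat_lit 922) (.cons (nat_lit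 916) (.cons (nat_lit 1042) (.cons (nat_lit 1036) (.cons (nat_lit 1161) (.cons (nat_lit 1164) (.cons (nat_lit 1294) (.cons (nat_lit 42251) Uxp19n1925 .nil) (.cons (nat_lit 1290) Uxp19n2080 .nil)) .nil) (.cons (nat_lit 1162) Uxp19n2066 .nil)) .nil) (.cons (nat_lit 1041) (.cons (nat_lit 1044) (.cons (nat_lit 1170) (.cons (nat_lit 1164) (.cons (nat_lit 1290) Uxp19n2080 (.cons (nat_lit 1289) (.cons (nat_lit 1292) (.cons (nat_lit 1418) (.cons (nat_lit 1412) (.cons (nat_lit 1542) Uxp19n2076 Uxp19n1498) .nil) .nil) .nil) .nil)) .nil) .nil) .nil) .nil)) .nil) (.cons (nat_lit 918) (.cons (nat_lit 916) (.cons (nat_lit 1042) (.cons (nat_lit 1036) (.cons (nat_lit 1166) (.cons (nat_lit 1164) (.cons (nat_lit 1294) (.cons (nat_lit 1292) (.cons (nat_lit 1418) (.cons (nat_lit 58755) (.cons (nat_lit 1284) (.cons (nat_lit 1542) (.cons (nat_lit 75267) (.cons (nat_lit 1540) (.cons (nat_lit 1670) (.cons (nat_lit 1667) (.cons (nat_lit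 42627) (.cons (nat_lit 5) .nil .nil) .nil) (.cons (nat_lit 42635) (.cons (nat_lit 1676) (.cons (nat_lit 1802) Uxp19n1973 .nil) .nil) .nil)) .nil) .nil) .nil) .nil) .nil) .nil) .nil) .nil) .nil) .nil) .nil) .nil) .nil) .nil) .nil)) .nil) (.cons (nat_lit 790) (.cons (nat_lit 787) (.cons (nat_lit 788) (.cons (nat_lit 913) Uxp19n28 (.cons (nat_lit 922) Uxp19n28 .nil)) .nil) (.cons (nat_lit 796) (.cons (nat_lit 921) (.cons (nat_lit 924) (.cons (nat_lit 1050) (.cons (nat_lit 1043) (.cons (nat_lit 788) (.cons (nat_lit 1169) Uxp19n703 (.cons (nat_lit 1178) Uxp19n703 .nil)) .nil) (.cons (nat_lit 1052) (.cons (nat_lit 1177) (.cons (nat_lit 1180) (.cons (nat_lit 1306) Uxp19n2142 .nil) .nil) (.cons (nat_lit 1178) (.cons (nat_lit 1172) (.cons (nat_lit 1297) Uxp19n2142 .nil) .nil) .nil)) .nil)) (.cons (nat_lit 1054) (.cons (nat_lit 1052) (.cons (nat_lit 1178) (.cons (nat_lit 1172) (.cons (nat_lit 1302) (.cons (nat_lit 1300)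 (.cons (nat_lit 1430) (.cons (nat_lit 42387) (.cons (nat_lit 1428) (.cons (nat_lit 1558) (.cons (nat_lit 83475) (.cons (nat_lit 1556) (.cons (nat_lit 1682) (.cons (nat_lit 67211) (.cons (nat_lit 780) (.cons (nat_lit 1802) Uxp19n1511 .nil) .nil) .nil) .nil) .nil) .nil) .nil) .nil) .nil) .nil) .nil) .nil) .nil) .nil) .nil) .nil)) .nil) Uxp19n1535) .nil)) .nil))) .nil) .nil))
def Uxp19n2193 : PT := (.cons (nat_lit 33931) (.cons (nat_lit 1164) (.cons (nat_lit 1289) (.cons (nat_lit 1292) (.cons (nat_lit 1418) (.cons (nat_lit 1411) (.cons (nat_lit 5) .nil .nil) (.cons (nat_lit 1420) (.cons (nat_lit 1545) Uxp19n103 (.cons (nat_lit 1546) Uxp19n1208 .nil)) .nil)) .nil) .nil) (.cons (nat_lit 1290) Uxp19n1338 .nil)) .nil) .nil)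
def Uxp19n2198 : PT := (.cons (nat_lit 1170) (.cons (nat_lit 1164) (.cons (nat_lit 1289) (.cons (nat_lit 1292) (.cons (nat_lit 1422) Uxp19n1618 .nil) .nil) .nil) .nil) .nil)
def Uxp19n2208 : PT := (.cons (nat_lit 1169) (.cons (nat_lit 1172) (.cons (nat_lit 1298) (.cons (nat_lit 1292) (.cons (nat_lit 1422) Uxp19n1618 .nil) .nil) .nil) .nil) Uxp19n2198)
def Uxp19n2219 : PT := (.cons (nat_lit 1036) (.cons (nat_lit 1166) (.cons (nat_lit 33931) (.cons (nat_lit 1164) (.cons (nat_lit 1290) Uxp19n1338 (.cons (nat_lit 1289) Uxp19n1925 .nil)) .nil) .nil) Uxp19n2208) .nil)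
def Uxp19n2222 : PT := (.cons (nat_lit 1548) (.cons (nat_lit 1674) (.cons (nat_lit 1667) (.cons (nat_lit 5) .nil .nil) (.cons (nat_lit 1676) (.cons (nat_lit 1801) Uxp19n281 (.cons (nat_lit 1802) Uxp19n1161 .nil)) .nil)) .nil) .nil)
def Uxp19n2229 : PT := (.cons (nat_lit 1548) (.cons (nat_lit 1678) (.cons (nat_lit 34443) (.cons (nat_lit 1676) (.cons (nat_lit 1802) Uxp19n1161 (.cons (nat_lit 1801) Uxp19n281 .nil)) .nil) .nil) .nil) .nil)
def Uxp19n2282 : PT := (.cons (nat_lit 34187) (.cons (nat_lit 1420) (.cons (nat_lit 1546) Uxp19n1454 (.cons (nat_lit 1545) (.cons (nat_lit 1548) (.cons (nat_lit 1674) Uxp19n1638 .nil) .nil) .nil)) .nil) .nil)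
def Uxp19n2330 : PT := (.cons (nat_lit 932) (.cons (nat_lit 1058) (.cons (nat_lit 1051) (.cons (nat_lit 668) (.cons (nat_lit 1178) Uxp19n828 .nil) .nil) .nil) .nil) .nil)
def Uxp19n2344 : PT := (.cons (nat_lit 666) (.cons (nat_lit 660) (.cons (nat_lit 786) (.cons (nat_lit 780) (.cons (nat_lit 910) (.cons (nat_lit 33675) (.cons (nat_lit 908) (.cons (nat_lit 1034) Uxp19n1436 (.cons (nat_lit 1033) (.cons (nat_lit 1036) (.cons (nat_lit 1162) (.cons (nat_lit 1155) (.cons (nat_lit 5) .nil .nil) (.cons (nat_lit 1164) (.cons (nat_lit 1290) Uxp19n1338 (.cons (nat_lit 1289) Uxp19n1925 .nil)) .nil)) .nil) .nil) .nil)) .nil) .nil) (.cons (nat_lit 914) (.cons (nat_lit 908) (.cons (nat_lit 1033) (.cons (nat_lit 1036) (.cons (nat_lit 1166) Uxp19n2193 Uxp19n2198) .nil) (.cons (nat_lit 1042) (.cons (nat_lit 1036) (.cons (nat_lit 1166) Uxp19n1569 .nil) .nil) .nil)) .nil) (.cons (nat_lit 913) (.cons (nat_lit 916) (.cons (nat_lit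 1042) (.cons (nat_lit 1036) (.cons (nat_lit 1166) Uxp19n2193 Uxp19n2208) .nil) .nil) .nil) .nil))) .nil) (.cons (nat_lit 793) (.cons (nat_lit 796) (.cons (nat_lit 922) (.cons (nat_lit 916) (.cons (nat_lit 1042) Uxp19n2219 (.cons (nat_lit 1041) (.cons (nat_lit 1044) (.cons (nat_lit 1170) (.cons (nat_lit 1164) (.cons (nat_lit 1289) (.cons (nat_lit 1292) (.cons (nat_lit 1422) (.cons (nat_lit 34187) (.cons (nat_lit 1420) (.cons (nat_lit 1545) Uxp19n2222 (.cons (nat_lit 1546) Uxp19n1454 .nil)) .nil) .nil) (.cons (nat_lit 1426) (.cons (nat_lit 1420) (.cons (nat_lit 1545) Uxp19n2229 .nil) .nil) .nil)) .nil) (.cons (nat_lit 1298) (.cons (nat_lit 1292) (.cons (nat_lit 1422) Uxp19n1618 .nil) .nil) .nil)) .nil) .nil) .nil) .nil)) .nil) .nil) .nil) (.cons (nat_lit 798) (.cons (nat_lit 796) (.cons (nat_lit 922) (.cons (nat_lit 916) (.cons (nat_lit 1046) (.cons (nat_lit 1044) (.cons (nat_lit 1174) (.cons (nat_lit 1172) (.cons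 (nat_lit 1298) (.cons (nat_lit 50443) (.cons (nat_lit 1164) (.cons (nat_lit 1422) (.cons (nat_lit 66955) (.cons (nat_lit 1420) (.cons (nat_lit 1550) (.cons (nat_lit 34315) (.cons (nat_lit 1548) (.cons (nat_lit 1674) Uxp19n1638 (.cons (nat_lit 1673) (.cons (nat_lit 1676) (.cons (nat_lit 1802) Uxp19n1511 .nil) .nil) .nil)) .nil) .nil) .nil) .nil) .nil) .nil) .nil) .nil) .nil) .nil) .nil) .nil) .nil) .nil) .nil) .nil) .nil))) .nil) (.cons (nat_lit 665) (.cons (nat_lit 668) (.cons (nat_lit 802) (.cons (nat_lit 796) (.cons (nat_lit 922) (.cons (nat_lit 916) (.cons (nat_lit 1042) Uxp19n2219 (.cons (nat_lit 1041) (.cons (nat_lit 1044) (.cons (nat_lit 1170) (.cons (nat_lit 1164) (.cons (nat_lit 1289) (.cons (nat_lit 1292) (.cons (nat_lit 1422) (.cons (nat_lit 34187) (.cons (nat_lit 1420) (.cons (nat_lit 1546) Uxp19n1454 (.cons (nat_lit 1545) Uxp19n2222 .nil)) .nil) .nil) (.cons (nat_lit 1426) (.cons (nat_lit 1420) (.cons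 (nat_lit 1545) Uxp19n2229 .nil) .nil) .nil)) .nil) (.cons (nat_lit 1298) (.cons (nat_lit 1292) (.cons (nat_lit 1422) Uxp19n1618 .nil) .nil) .nil)) .nil) .nil) .nil) .nil)) .nil) (.cons (nat_lit 921) (.cons (nat_lit 924) (.cons (nat_lit 1050) (.cons (nat_lit 1044) (.cons (nat_lit 1169) (.cons (nat_lit 1172) (.cons (nat_lit 1298) (.cons (nat_lit 1292) (.cons (nat_lit 1422) Uxp19n2282 (.cons (nat_lit 1425) (.cons (nat_lit 1428) (.cons (nat_lit 1554) Uxp19n2229 .nil) .nil) (.cons (nat_lit 1426) (.cons (nat_lit 1420) (.cons (nat_lit 1545) Uxp19n2229 .nil) .nil) .nil))) .nil) .nil) .nil) (.cons (nat_lit 1170) (.cons (nat_lit 1164) (.cons (nat_lit 1289) (.cons (nat_lit 1292) (.cons (nat_lit 1422) Uxp19n2282 (.cons (nat_lit 1426) (.cons (nat_lit 1420) (.cons (nat_lit 1545) Uxp19n2229 .nil) .nil) .nil)) .nil) (.cons (nat_lit 1298) (.cons (nat_lit 1292) (.cons (nat_lit 1422) Uxp19n1618 .nil) .nil) .nil)) .nil) .nil)) .nil)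 .nil) .nil) .nil)) .nil) (.cons (nat_lit 798) (.cons (nat_lit 796) (.cons (nat_lit 922) (.cons (nat_lit 916) (.cons (nat_lit 1046) (.cons (nat_lit 1044) (.cons (nat_lit 1174) (.cons (nat_lit 1172) (.cons (nat_lit 1298) (.cons (nat_lit 50443) (.cons (nat_lit 1164) (.cons (nat_lit 1422) (.cons (nat_lit 66955) (.cons (nat_lit 1420) (.cons (nat_lit 1550) (.cons (nat_lit 34315) (.cons (nat_lit 1548) (.cons (nat_lit 1674) (.cons (nat_lit 1667) (.cons (nat_lit 5) .nil .nil) (.cons (nat_lit 1676) (.cons (nat_lit 1802) Uxp19n1511 (.cons (nat_lit 1801) Uxp19n2019 .nil)) .nil)) .nil) .nil) .nil) .nil) .nil) .nil) .nil) .nil) .nil) .nil) .nil) .nil) .nil) .nil) .nil) .nil) .nil) .nil)) .nil) (.cons (nat_lit 678) (.cons (nat_lit 676) (.cons (nat_lit 802) (.cons (nat_lit 795) (.cons (nat_lit 668) (.cons (nat_lit 922) Uxp19n386 .nil) .nil) (.cons (nat_lit 804) (.cons (nat_lit 929) Uxp19n2330 (.cons (nat_lit 930) (.cons (nat_lit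 924) (.cons (nat_lit 1049) (.cons (nat_lit 1051) (.cons (nat_lit 668) (.cons (nat_lit 1178) Uxp19n828 .nil) .nil) .nil) .nil) .nil) .nil)) .nil)) (.cons (nat_lit 809) (.cons (nat_lit 812) (.cons (nat_lit 938) Uxp19n2330 .nil) .nil) .nil)) .nil) .nil)))
def Uxp19n2350 : PT := (.cons (nat_lit 908) (.cons (nat_lit 1033) (.cons (nat_lit 1036) (.cons (nat_lit 1162) Uxp19n618 .nil) .nil) (.cons (nat_lit 1042) Uxp19n146 .nil)) .nil)
def Uxp19n2356 : PT := (.cons (nat_lit 780) (.cons (nat_lit 906) (.cons (nat_lit 899) (.cons (nat_lit 5) .nil .nil) Uxp19n2350) (.cons (nat_lit 913) (.cons (nat_lit 916) (.cons (nat_lit 1042) Uxp19n623 .nil) .nil) .nil)) .nil)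
def Uxp19n2364 : PT := (.cons (nat_lit 908) (.cons (nat_lit 1038) (.cons (nat_lit 25611) Uxp19n623 .nil) (.cons (nat_lit 1041) (.cons (nat_lit 1044) Uxp19n450 .nil) Uxp19n419)) .nil)
def Uxp19n2371 : PT := (.cons (nat_lit 1411) (.cons (nat_lit 5) .nil .nil) (.cons (nat_lit 1420) (.cons (nat_lit 1545) Uxp19n103 .nil) .nil))
def Uxp19n2373 : PT := (.cons (nat_lit 1292) (.cons (nat_lit 1418) Uxp19n2371 (.cons (nat_lit 1425) (.cons (nat_lit 1428) (.cons (nat_lit 1554) Uxp19n103 .nil) .nil) .nil)) .nil)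
def Uxp19n2379 : PT := (.cons (nat_lit 1042) (.cons (nat_lit 1036) (.cons (nat_lit 1161) (.cons (nat_lit 1164) (.cons (nat_lit 1294) (.cons (nat_lit 25867) Uxp19n2373 .nil) Uxp19n878) .nil) Uxp19n450) .nil) .nil)
def Uxp19n2411 : PT := (.cons (nat_lit 1164) (.cons (nat_lit 1289) (.cons (nat_lit 1292) (.cons (nat_lit 1418) Uxp19n2371 .nil) .nil) (.cons (nat_lit 1298) Uxp19n308 .nil)) .nil)
def Uxp19n2414 : PT := (.cons (nat_lit 1036) (.cons (nat_lit 1162) (.cons (nat_lit 1155) (.cons (nat_lit 5) .nil .nil) Uxp19n2411) .nil) .nil)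
def Uxp19n2464 : PT := (.cons (nat_lit 1172) (.cons (nat_lit 1302) (.cons (nat_lit 1300) (.cons (nat_lit 1426) (.cons (nat_lit 1420) (.cons (nat_lit 1550) (.cons (nat_lit 1548) (.cons (nat_lit 1678) (.cons (nat_lit 26251) Uxp19n228 .nil) .nil) .nil) .nil) .nil) .nil) .nil) .nil) .nil)
def Uxp19n2498 : PT := (.cons (nat_lit 1554) (.cons (nat_lit 1548) (.cons (nat_lit 1674) Uxp19n799 (.cons (nat_lit 1681) (.cons (nat_lit 1684) (.cons (nat_lit 1810) Uxp19n281 .nil) .nil) .nil)) .nil) .nil)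
def Uxp19n2523 : PT := (.cons (nat_lit 409) (.cons (nat_lit 412) (.cons (nat_lit 538) (.cons (nat_lit 532) (.cons (nat_lit 658) (.cons (nat_lit 652) (.cons (nat_lit 778) (.cons (nat_lit 771) (.cons (nat_lit 5) .nil .nil) (.cons (nat_lit 780) (.cons (nat_lit 906) (.cons (nat_lit 900) (.cons (nat_lit 1025) (.cons (nat_lit 1027) (.cons (nat_lit 5) .nil .nil) (.cons (nat_lit 1036) (.cons (nat_lit 1162) Uxp19n1289 .nil) .nil)) (.cons (nat_lit 1034) (.cons (nat_lit 1027) (.cons (nat_lit 5) .nil .nil) .nil) .nil)) .nil) Uxp19n1295) .nil)) (.cons (nat_lit 777) (.cons (nat_lit 780) (.cons (nat_lit 906) (.cons (nat_lit 900) (.cons (nat_lit 1025) (.cons (nat_lit 1027) (.cons (nat_lit 5) .nil .nil) Uxp19n1308) (.cons (nat_lit 1034) Uxp19n1292 Uxp19n1333)) .nil) (.cons (nat_lit 918) (.cons (nat_lit 916) (.cons (nat_lit 1042) Uxp19n1707 Uxp19n1399) .nil) .nil)) .nil) (.cons (nat_lit 790) (.cons (nat_lit 788) (.cons (nat_lit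 914) Uxp19n1180 (.cons (nat_lit 913) Uxp19n1416 (.cons (nat_lit 918) (.cons (nat_lit 916) (.cons (nat_lit 1041) (.cons (nat_lit 1043) (.cons (nat_lit 916) (.cons (nat_lit 1169) Uxp19n1132 (.cons (nat_lit 1178) Uxp19n1132 .nil)) .nil) (.cons (nat_lit 1052) (.cons (nat_lit 1182) Uxp19n605 (.cons (nat_lit 1178) (.cons (nat_lit 1172) (.cons (nat_lit 1297) (.cons (nat_lit 1299) (.cons (nat_lit 916) (.cons (nat_lit 1425) Uxp19n1721 .nil) .nil) .nil) .nil) .nil) .nil)) .nil)) .nil) .nil) .nil))) .nil) .nil))) .nil) Uxp19n2176) .nil) (.cons (nat_lit 542) (.cons (nat_lit 540) Uxp19n2344 .nil) .nil)) .nil) (.cons (nat_lit 414) (.cons (nat_lit 412) (.cons (nat_lit 538) (.cons (nat_lit 532) (.cons (nat_lit 658) (.cons (nat_lit 652) (.cons (nat_lit 782) (.cons (nat_lit 25355) Uxp19n2356 .nil) (.cons (nat_lit 786) (.cons (nat_lit 780) (.cons (nat_lit 905) (.cons (nat_lit 908) (.cons (nat_lit 1038) (.cons (nat_lit 25611) Uxp19n623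 .nil) Uxp19n419) .nil) Uxp19n408) .nil) (.cons (nat_lit 785) (.cons (nat_lit 788) (.cons (nat_lit 914) Uxp19n2364 .nil) .nil) .nil))) .nil) (.cons (nat_lit 665) (.cons (nat_lit 668) (.cons (nat_lit 794) (.cons (nat_lit 788) (.cons (nat_lit 914) Uxp19n2364 (.cons (nat_lit 913) (.cons (nat_lit 916) Uxp19n2379 .nil) .nil)) .nil) .nil) .nil) (.cons (nat_lit 670) (.cons (nat_lit 668) (.cons (nat_lit 794) (.cons (nat_lit 788) (.cons (nat_lit 918) (.cons (nat_lit 916) (.cons (nat_lit 1046) (.cons (nat_lit 1044) (.cons (nat_lit 1170) (.cons (nat_lit 42123) (.cons (nat_lit 1036) (.cons (nat_lit 1294) (.cons (nat_lit 58635) (.cons (nat_lit 1292) (.cons (nat_lit 1422) (.cons (nat_lit 25995) (.cons (nat_lit 1420) (.cons (nat_lit 1546) Uxp19n1454 (.cons (nat_lit 1545) (.cons (nat_lit 1548) (.cons (nat_lit 1674) Uxp19n799 .nil) .nil) .nil)) .nil) .nil) .nil) .nil) .nil) .nil) .nil) .nil) .nil) .nil) .nil) .nil) .nil) .nil) .nil)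 .nil) .nil))) .nil) (.cons (nat_lit 537) (.cons (nat_lit 540) (.cons (nat_lit 666) (.cons (nat_lit 660) (.cons (nat_lit 786) (.cons (nat_lit 780) (.cons (nat_lit 905) (.cons (nat_lit 908) (.cons (nat_lit 1038) (.cons (nat_lit 25611) Uxp19n2414 .nil) Uxp19n2379) .nil) (.cons (nat_lit 914) Uxp19n2364 .nil)) .nil) (.cons (nat_lit 793) (.cons (nat_lit 796) (.cons (nat_lit 922) (.cons (nat_lit 916) (.cons (nat_lit 1041) (.cons (nat_lit 1044) (.cons (nat_lit 1170) (.cons (nat_lit 1164) (.cons (nat_lit 1294) (.cons (nat_lit 25867) Uxp19n2373 .nil) Uxp19n913) .nil) .nil) .nil) Uxp19n2379) .nil) .nil) .nil) .nil)) .nil) (.cons (nat_lit 670) (.cons (nat_lit 668) (.cons (nat_lit 794) (.cons (nat_lit 788) (.cons (nat_lit 918) (.cons (nat_lit 916) (.cons (nat_lit 1046) (.cons (nat_lit 1044) (.cons (nat_lit 1170) (.cons (nat_lit 42123) (.cons (nat_lit 1036) (.cons (nat_lit 1294) (.cons (nat_lit 58635) (.cons (nat_lit 1292) (.cons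 (nat_lit 1422) (.cons (nat_lit 25995) (.cons (nat_lit 1420) (.cons (nat_lit 1546) (.cons (nat_lit 1540) (.cons (nat_lit 1665) (.cons (nat_lit 1667) (.cons (nat_lit 5) .nil .nil) (.cons (nat_lit 1684) (.cons (nat_lit 1810) Uxp19n281 .nil) .nil)) (.cons (nat_lit 1674) Uxp19n799 .nil)) .nil) .nil) .nil) .nil) .nil) .nil) .nil) .nil) .nil) .nil) .nil) .nil) .nil) .nil) .nil) .nil) .nil) .nil) .nil)) .nil) (.cons (nat_lit 542) (.cons (nat_lit 540) (.cons (nat_lit 665) (.cons (nat_lit 668) (.cons (nat_lit 794) (.cons (nat_lit 787) (.cons (nat_lit 532) (.cons (nat_lit 913) Uxp19n956 (.cons (nat_lit 922) Uxp19n956 .nil)) .nil) (.cons (nat_lit 796) (.cons (nat_lit 921) (.cons (nat_lit 924) (.cons (nat_lit 1050) (.cons (nat_lit 1043) (.cons (nat_lit 532) (.cons (nat_lit 1169) Uxp19n2464 (.cons (nat_lit 1178) Uxp19n2464 .nil)) .nil) (.cons (nat_lit 1052) (.cons (nat_lit 1177) (.cons (nat_lit 1180) (.cons (nat_lit 1306) (.cons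 (nat_lit 1299) (.cons (nat_lit 532) (.cons (nat_lit 1425) (.cons (nat_lit 1428) (.cons (nat_lit 1558) (.cons (nat_lit 1556) (.cons (nat_lit 1682) (.cons (nat_lit 1676) (.cons (nat_lit 1806) (.cons (nat_lit 1804) (.cons (nat_lit 1934) (.cons (nat_lit 26507) Uxp19n1314 .nil) .nil) .nil) .nil) .nil) .nil) .nil) .nil) .nil) .nil) .nil) .nil) .nil) .nil) .nil) .nil)) .nil) .nil) (.cons (nat_lit 930) (.cons (nat_lit 924) (.cons (nat_lit 1050) (.cons (nat_lit 1043) (.cons (nat_lit 532) (.cons (nat_lit 1169) Uxp19n2464 .nil) .nil) .nil) .nil) .nil) .nil)) .nil)) (.cons (nat_lit 806) (.cons (nat_lit 804) (.cons (nat_lit 930) (.cons (nat_lit 924) (.cons (nat_lit 1054) (.cons (nat_lit 1052) (.cons (nat_lit 1182) (.cons (nat_lit 25755) (.cons (nat_lit 1180) (.cons (nat_lit 1310) (.cons (nat_lit 66843) (.cons (nat_lit 1308) (.cons (nat_lit 1434) (.cons (nat_lit 50579) (.cons (nat_lit 532) Uxp19n2498 .nil) .nil) .nil) .nil)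 .nil) .nil) .nil) .nil) .nil) .nil) .nil) .nil) .nil) .nil) .nil)) .nil) Uxp19n962) .nil) .nil))) .nil) .nil))
def Uxp19n2538 : PT := (.cons (nat_lit 1292) (.cons (nat_lit 1422) (.cons (nat_lit 17803) (.cons (nat_lit 1420) (.cons (nat_lit 1545) Uxp19n103 .nil) .nil) .nil) .nil) .nil)
def Uxp19n2543 : PT := (.cons (nat_lit 1036) (.cons (nat_lit 1166) (.cons (nat_lit 17547) Uxp19n2411 .nil) (.cons (nat_lit 1169) (.cons (nat_lit 1172) (.cons (nat_lit 1298) Uxp19n2538 .nil) .nil) .nil)) .nil)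
def Uxp19n2548 : PT := (.cons (nat_lit 1036) (.cons (nat_lit 1166) (.cons (nat_lit 17547) (.cons (nat_lit 1164) (.cons (nat_lit 1289) Uxp19n308 .nil) .nil) .nil) .nil) .nil)
def Uxp19n2556 : PT := (.cons (nat_lit 1044) (.cons (nat_lit 1174) (.cons (nat_lit 17555) (.cons (nat_lit 1172) (.cons (nat_lit 1298) Uxp19n308 (.cons (nat_lit 1297) (.cons (nat_lit 1300) (.cons (nat_lit 1426) (.cons (nat_lit 1420) (.cons (nat_lit 1545) Uxp19n103 .nil) .nil) .nil) .nil) .nil)) .nil) .nil) .nil) .nil)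
def Uxp19n2560 : PT := (.cons (nat_lit 922) (.cons (nat_lit 916) (.cons (nat_lit 1042) Uxp19n2548 (.cons (nat_lit 1041) Uxp19n2556 .nil)) .nil) .nil)
def Uxp19n2563 : PT := (.cons (nat_lit 780) (.cons (nat_lit 910) (.cons (nat_lit 17291) (.cons (nat_lit 908) (.cons (nat_lit 1033) Uxp19n2414 (.cons (nat_lit 1042) Uxp19n623 .nil)) .nil) .nil) (.cons (nat_lit 913) (.cons (nat_lit 916) (.cons (nat_lit 1042) Uxp19n2543 .nil) .nil) Uxp19n2560)) .nil)
def Uxp19n2577 : PT := (.cons (nat_lit 17299) (.cons (nat_lit 916) (.cons (nat_lit 1042) Uxp19n623 (.cons (nat_lit 1041) (.cons (nat_lit 1044) (.cons (nat_lit 1170) Uxp19n2411 .nil) .nil) .nil)) .nil) .nil)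
def Uxp19n2588 : PT := (.cons (nat_lit 1420) (.cons (nat_lit 1545) (.cons (nat_lit 1548) (.cons (nat_lit 1674) Uxp19n799 .nil) .nil) (.cons (nat_lit 1554) Uxp19n103 .nil)) .nil)
def Uxp19n2594 : PT := (.cons (nat_lit 17555) (.cons (nat_lit 1172) (.cons (nat_lit 1298) Uxp19n2373 (.cons (nat_lit 1297) (.cons (nat_lit 1300) (.cons (nat_lit 1426) Uxp19n2588 .nil) .nil) .nil)) .nil) .nil)
def Uxp19n2602 : PT := (.cons (nat_lit 1300) (.cons (nat_lit 1430) (.cons (nat_lit 17811) (.cons (nat_lit 1428) (.cons (nat_lit 1554) Uxp19n103 (.cons (nat_lit 1553) (.cons (nat_lit 1556) (.cons (nat_lit 1682) (.cons (nat_lit 1676) (.cons (nat_lit 1801) Uxp19n281 .nil) .nil) .nil) .nil) .nil)) .nil) .nil) .nil) .nil)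
def Uxp19n2655 : PT := (.cons (nat_lit 922) (.cons (nat_lit 916) (.cons (nat_lit 1041) (.cons (nat_lit 1044) (.cons (nat_lit 1174) Uxp19n2594 (.cons (nat_lit 1178) (.cons (nat_lit 1172) (.cons (nat_lit 1297) Uxp19n2602 .nil) .nil) .nil)) .nil) (.cons (nat_lit 1050) Uxp19n2556 .nil)) .nil) .nil)
def Uxp19n2715 : PT := (.cons (nat_lit 412) (.cons (nat_lit 922) (.cons (nat_lit 916) (.cons (nat_lit 1046) (.cons (nat_lit 1044) (.cons (nat_lit 1170) (.cons (nat_lit 1164) (.cons (nat_lit 1294) (.cons (nat_lit 1292) (.cons (nat_lit 1422) (.cons (nat_lit 17803) Uxp19n19 .nil) .nil) .nil) .nil) .nil) .nil) .nil) .nil) .nil) .nil) .nil)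
def Uxp19n2729 : PT := (.cons (nat_lit 932) (.cons (nat_lit 1058) (.cons (nat_lit 1051) (.cons (nat_lit 412) (.cons (nat_lit 1178) (.cons (nat_lit 1172) (.cons (nat_lit 1302) (.cons (nat_lit 1300) (.cons (nat_lit 1426) (.cons (nat_lit 1420) (.cons (nat_lit 1550) (.cons (nat_lit 1548) (.cons (nat_lit 1678) (.cons (nat_lit 18059) Uxp19n228 .nil) .nil) .nil) .nil) .nil) .nil) .nil) .nil) .nil) .nil) .nil) .nil) .nil) .nil)
def Uxp19n2753 : PT := (.cons (nat_lit 418) (.cons (nat_lit 412) (.cons (nat_lit 538) (.cons (nat_lit 532) (.cons (nat_lit 662) (.cons (nat_lit 17043) (.cons (nat_lit 660) (.cons (nat_lit 786) Uxp19n2356 (.cons (nat_lit 785) (.cons (nat_lit 788) (.cons (nat_lit 914) (.cons (nat_lit 908) (.cons (nat_lit 1033) Uxp19n2414 (.cons (nat_lit 1042) Uxp19n623 .nil)) .nil) .nil) .nil) .nil)) .nil) .nil) (.cons (nat_lit 657) (.cons (nat_lit 660) (.cons (nat_lit 786) Uxp19n2563 .nil) .nil) (.cons (nat_lit 666)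 (.cons (nat_lit 660) (.cons (nat_lit 786) (.cons (nat_lit 780) (.cons (nat_lit 910) (.cons (nat_lit 17291) Uxp19n2350 .nil) (.cons (nat_lit 913) (.cons (nat_lit 916) (.cons (nat_lit 1042) Uxp19n2548 .nil) .nil) .nil)) .nil) (.cons (nat_lit 785) (.cons (nat_lit 788) (.cons (nat_lit 918) Uxp19n2577 Uxp19n2560) .nil) .nil)) .nil) .nil))) .nil) (.cons (nat_lit 537) (.cons (nat_lit 540) (.cons (nat_lit 666) (.cons (nat_lit 660) (.cons (nat_lit 786) Uxp19n2563 (.cons (nat_lit 793) (.cons (nat_lit 796) (.cons (nat_lit 922) (.cons (nat_lit 916) (.cons (nat_lit 1042) Uxp19n2543 (.cons (nat_lit 1041) (.cons (nat_lit 1044) (.cons (nat_lit 1174) Uxp19n2594 (.cons (nat_lit 1178) (.cons (nat_lit 1172) (.cons (nat_lit 1298) Uxp19n2538 (.cons (nat_lit 1297) Uxp19n2602 .nil)) .nil) .nil)) .nil) .nil)) .nil) .nil) .nil) .nil)) .nil) .nil) .nil) (.cons (nat_lit 550) (.cons (nat_lit 548) (.cons (nat_lit 674) (.cons (nat_lit 668) (.cons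 (nat_lit 798) (.cons (nat_lit 796) (.cons (nat_lit 926) (.cons (nat_lit 924) (.cons (nat_lit 1050) (.cons (nat_lit 33811) (.cons (nat_lit 916) (.cons (nat_lit 1174) (.cons (nat_lit 50323) (.cons (nat_lit 1172) (.cons (nat_lit 1302) (.cons (nat_lit 17683) (.cons (nat_lit 1300) (.cons (nat_lit 1426) Uxp19n2588 (.cons (nat_lit 1425) (.cons (nat_lit 1428) Uxp19n2498 .nil) .nil)) .nil) .nil) .nil) .nil) .nil) .nil) .nil) .nil) .nil) .nil) .nil) .nil) .nil) .nil) .nil) .nil) .nil))) .nil) (.cons (nat_lit 417) (.cons (nat_lit 420) (.cons (nat_lit 554) (.cons (nat_lit 548) (.cons (nat_lit 674) (.cons (nat_lit 668) (.cons (nat_lit 794) (.cons (nat_lit 788) (.cons (nat_lit 918) Uxp19n2577 (.cons (nat_lit 921) (.cons (nat_lit 924) (.cons (nat_lit 1050) Uxp19n2556 .nil) .nil) (.cons (nat_lit 922) (.cons (nat_lit 916) (.cons (nat_lit 1041) Uxp19n2556 .nil) .nil) .nil))) .nil) (.cons (nat_lit 793) (.cons (nat_lit 796) Uxp19n2655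 .nil) .nil)) .nil) (.cons (nat_lit 673) (.cons (nat_lit 676) (.cons (nat_lit 802) (.cons (nat_lit 796) (.cons (nat_lit 921) (.cons (nat_lit 924) (.cons (nat_lit 1050) (.cons (nat_lit 1044) (.cons (nat_lit 1174) Uxp19n2594 (.cons (nat_lit 1177) (.cons (nat_lit 1180) (.cons (nat_lit 1306) Uxp19n2602 .nil) .nil) (.cons (nat_lit 1178) (.cons (nat_lit 1172) (.cons (nat_lit 1297) Uxp19n2602 .nil) .nil) .nil))) .nil) .nil) .nil) Uxp19n2655) .nil) .nil) .nil) .nil)) .nil) (.cons (nat_lit 550) (.cons (nat_lit 548) (.cons (nat_lit 674) (.cons (nat_lit 668) (.cons (nat_lit 798) (.cons (nat_lit 796) (.cons (nat_lit 926) (.cons (nat_lit 924) (.cons (nat_lit 1050) (.cons (nat_lit 33811) (.cons (nat_lit 916) (.cons (nat_lit 1174) (.cons (nat_lit 50323) (.cons (nat_lit 1172) (.cons (nat_lit 1302) (.cons (nat_lit 17683) (.cons (nat_lit 1300) (.cons (nat_lit 1426) (.cons (nat_lit 1420) (.cons (nat_lit 1545) (.cons (nat_lit 1548)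 (.cons (nat_lit 1674) (.cons (nat_lit 1667) (.cons (nat_lit 5) .nil .nil) (.cons (nat_lit 1676) (.cons (nat_lit 1801) (.cons (nat_lit 1804) (.cons (nat_lit 1930) (.cons (nat_lit 1923) (.cons (nat_lit 5) .nil .nil) (.cons (nat_lit 1932) (.cons (nat_lit 2057) Uxp19n1841 .nil) .nil)) .nil) .nil) (.cons (nat_lit 1810) Uxp19n281 .nil)) .nil)) .nil) .nil) Uxp19n2498) .nil) .nil) .nil) .nil) .nil) .nil) .nil) .nil) .nil) .nil) .nil) .nil) .nil) .nil) .nil) .nil) .nil) .nil) .nil)) .nil) (.cons (nat_lit 430) (.cons (nat_lit 428) (.cons (nat_lit 553) (.cons (nat_lit 556) (.cons (nat_lit 682) (.cons (nat_lit 676) (.cons (nat_lit 802) (.cons (nat_lit 795) Uxp19n2715 (.cons (nat_lit 804) (.cons (nat_lit 929) Uxp19n2729 .nil) .nil)) (.cons (nat_lit 809) (.cons (nat_lit 812) (.cons (nat_lit 938) Uxp19n2729 .nil) .nil) .nil)) .nil) .nil) .nil) (.cons (nat_lit 554) (.cons (nat_lit 548) (.cons (nat_lit 673) (.cons (nat_lit 676)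 (.cons (nat_lit 802) (.cons (nat_lit 795) Uxp19n2715 (.cons (nat_lit 804) (.cons (nat_lit 929) Uxp19n2729 .nil) .nil)) .nil) .nil) (.cons (nat_lit 682) (.cons (nat_lit 676) (.cons (nat_lit 802) (.cons (nat_lit 795) Uxp19n2715 .nil) .nil) .nil) .nil)) .nil) .nil)) .nil) .nil)))
def Uxp19n2807 : PT := (.cons (nat_lit 25483) (.cons (nat_lit 908) (.cons (nat_lit 1038) (.cons (nat_lit 1036) (.cons (nat_lit 1166) (.cons (nat_lit 1163) (.cons (nat_lit 1164) (.cons (nat_lit 1294) (.cons (nat_lit 66827) (.cons (nat_lit 1292) (.cons (nat_lit 1418) (.cons (nat_lit 9603) (.cons (nat_lit 5) .nil .nil) .nil) .nil) .nil) .nil) .nil) .nil) .nil) .nil) .nil) .nil) .nil) .nil)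
def Uxp19n2819 : PT := (.cons (nat_lit 25739) (.cons (nat_lit 1164) (.cons (nat_lit 1294) (.cons (nat_lit 1292) (.cons (nat_lit 1422) (.cons (nat_lit 1419) (.cons (nat_lit 1420) (.cons (nat_lit 1550) (.cons (nat_lit 83467) (.cons (nat_lit 1548) (.cons (nat_lit 1674) (.cons (nat_lit 9859) (.cons (nat_lit 5) .nil .nil) .nil) .nil) .nil) .nil) .nil) .nil) .nil) .nil) .nil) .nil) .nil) .nil)
def Uxp19n2823 : PT := (.cons (nat_lit 916) (.cons (nat_lit 1042) (.cons (nat_lit 1036) (.cons (nat_lit 1166) Uxp19n2819 .nil) .nil) .nil) .nil)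
def Uxp19n2841 : PT := (.cons (nat_lit 25995) (.cons (nat_lit 1420) (.cons (nat_lit 1550) (.cons (nat_lit 1548) (.cons (nat_lit 1678) (.cons (nat_lit 1675) (.cons (nat_lit 1676) (.cons (nat_lit 1806) (.cons (nat_lit 100107) (.cons (nat_lit 1804) (.cons (nat_lit 1930) (.cons (nat_lit 10115) (.cons (nat_lit 5) .nil .nil) .nil) .nil) .nil) .nil) .nil) .nil) .nil) .nil) .nil) .nil) .nil) .nil)
def Uxp19n2846 : PT := (.cons (nat_lit 1170) (.cons (nat_lit 1164) (.cons (nat_lit 1289) (.cons (nat_lit 1292) (.cons (nat_lit 1422) Uxp19n2841 .nil) .nil) .nil) .nil) .nil)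
def Uxp19n2851 : PT := (.cons (nat_lit 914) (.cons (nat_lit 908) (.cons (nat_lit 1033) (.cons (nat_lit 1036) (.cons (nat_lit 1166) Uxp19n2819 Uxp19n2846) .nil) (.cons (nat_lit 1042) (.cons (nat_lit 1036) (.cons (nat_lit 1166) Uxp19n2819 .nil) .nil) .nil)) .nil) .nil)
def Uxp19n2857 : PT := (.cons (nat_lit 1172) (.cons (nat_lit 1298) (.cons (nat_lit 1292) (.cons (nat_lit 1422) Uxp19n2841 .nil) .nil) .nil) .nil)
def Uxp19n2865 : PT := (.cons (nat_lit 794) (.cons (nat_lit 788) (.cons (nat_lit 913) (.cons (nat_lit 916) (.cons (nat_lit 1042) (.cons (nat_lit 1036) (.cons (nat_lit 1166) Uxp19n2819 (.cons (nat_lit 1169) Uxp19n2857 Uxp19n2846)) .nil) .nil) .nil) Uxp19n2851) .nil) .nil)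
def Uxp19n2884 : PT := (.cons (nat_lit 1548) (.cons (nat_lit 1678) (.cons (nat_lit 26251) (.cons (nat_lit 1676) (.cons (nat_lit 1806) (.cons (nat_lit 1804) (.cons (nat_lit 1934) (.cons (nat_lit 1931) (.cons (nat_lit 1932) (.cons (nat_lit 2062) (.cons (nat_lit 116747) (.cons (nat_lit 2060) (.cons (nat_lit 2186) (.cons (nat_lit 10371) (.cons (nat_lit 5) .nil .nil) .nil) .nil) .nil) .nil) .nil) .nil) .nil) .nil) .nil) .nil) .nil) .nil) .nil) .nil)
def Uxp19n2938 : PT := (.cons (nat_lit 9107) (.cons (nat_lit 916) (.cons (nat_lit 1046) (.cons (nat_lit 1044) (.cons (nat_lit 1174) (.cons (nat_lit 1172) (.cons (nat_lit 1298) (.cons (nat_lit 1292) (.cons (nat_lit 1422) (.cons (nat_lit 1419) (.cons (nat_lit 1420) (.cons (nat_lit 1546) (.cons (nat_lit 1540) (.cons (nat_lit 1670) (.cons (nat_lit 67203) (.cons (nat_lit 75395) (.cons (nat_lit 5) .nil .nil) .nil) .nil) .nil) .nil) .nil) .nil) .nil) .nil) .nil) .nil) .nil) .nil)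 .nil) .nil) .nil) .nil)
def Uxp19n2964 : PT := (.cons (nat_lit 9363) (.cons (nat_lit 1172) (.cons (nat_lit 1302) (.cons (nat_lit 1300) (.cons (nat_lit 1430) (.cons (nat_lit 1428) (.cons (nat_lit 1554) (.cons (nat_lit 1548) (.cons (nat_lit 1678) (.cons (nat_lit 1675) (.cons (nat_lit 1676) (.cons (nat_lit 1802) (.cons (nat_lit 1796) (.cons (nat_lit 1926) (.cons (nat_lit 83843) (.cons (nat_lit 92035) (.cons (nat_lit 5) .nil .nil) .nil) .nil) .nil) .nil) .nil) .nil) .nil) .nil) .nil) .nil) .nil) .nil) .nil) .nil) .nil) .nil)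
def Uxp19n2969 : PT := (.cons (nat_lit 922) (.cons (nat_lit 916) (.cons (nat_lit 1041) (.cons (nat_lit 1044) (.cons (nat_lit 1174) Uxp19n2964 .nil) .nil) .nil) .nil) .nil)
def Uxp19n2974 : PT := (.cons (nat_lit 666) (.cons (nat_lit 660) (.cons (nat_lit 785) (.cons (nat_lit 788) (.cons (nat_lit 918) Uxp19n2938 Uxp19n2969) .nil) (.cons (nat_lit 794) (.cons (nat_lit 788) (.cons (nat_lit 918) Uxp19n2938 .nil) .nil) .nil)) .nil) .nil)
def Uxp19n2983 : PT := (.cons (nat_lit 788) (.cons (nat_lit 918) Uxp19n2938 (.cons (nat_lit 921) (.cons (nat_lit 924) (.cons (nat_lit 1050) (.cons (nat_lit 1044) (.cons (nat_lit 1174) Uxp19n2964 .nil) .nil) .nil) .nil) Uxp19n2969)) .nil)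
def Uxp19n2988 : PT := (.cons (nat_lit 546) (.cons (nat_lit 540) (.cons (nat_lit 665) (.cons (nat_lit 668) (.cons (nat_lit 794) Uxp19n2983 .nil) .nil) Uxp19n2974) .nil) .nil)
def Uxp19n3008 : PT := (.cons (nat_lit 922) (.cons (nat_lit 916) (.cons (nat_lit 1042) (.cons (nat_lit 1036) (.cons (nat_lit 1166) Uxp19n2819 (.cons (nat_lit 1169) Uxp19n2857 .nil)) .nil) (.cons (nat_lit 1049) (.cons (nat_lit 1052) (.cons (nat_lit 1178) Uxp19n2857 .nil) .nil) .nil)) .nil) .nil)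
def Uxp19n3017 : PT := (.cons (nat_lit 1292) (.cons (nat_lit 1422) Uxp19n2841 (.cons (nat_lit 1425) (.cons (nat_lit 1428) (.cons (nat_lit 1554) Uxp19n2884 .nil) .nil) .nil)) .nil)
def Uxp19n3022 : PT := (.cons (nat_lit 1036) (.cons (nat_lit 1166) Uxp19n2819 (.cons (nat_lit 1169) (.cons (nat_lit 1172) (.cons (nat_lit 1298) Uxp19n3017 .nil) .nil) (.cons (nat_lit 1178) Uxp19n2857 .nil))) .nil)
def Uxp19n3027 : PT := (.cons (nat_lit 794) (.cons (nat_lit 788) (.cons (nat_lit 913) (.cons (nat_lit 916) (.cons (nat_lit 1042) Uxp19n3022 .nil) .nil) Uxp19n3008) .nil) .nil)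
def Uxp19n3089 : PT := (.cons (nat_lit 282) (.cons (nat_lit 276) (.cons (nat_lit 406) (.cons (nat_lit 8595) (.cons (nat_lit 404) (.cons (nat_lit 534) (.cons (nat_lit 532) (.cons (nat_lit 662) (.cons (nat_lit 660) (.cons (nat_lit 786) (.cons (nat_lit 780) (.cons (nat_lit 910) (.cons (nat_lit 907) (.cons (nat_lit 908) (.cons (nat_lit 1034) (.cons (nat_lit 1028) (.cons (nat_lit 1158) (.cons (nat_lit 33923) (.cons (nat_lit 42115) (.cons (nat_lit 5) .nil .nil) .nil) .nil) .nil) .nil) .nil) .nil) .nil) .nil) .nil) .nil) .nil) .nil) .nil) .nil) .nil) (.cons (nat_lit 404) (.cons (nat_lit 530) (.cons (nat_lit 524) (.cons (nat_lit 654) (.cons (nat_lit 652) (.cons (nat_lit 782) (.cons (nat_lit 780) (.cons (nat_lit 906) (.cons (nat_lit 25475) (.cons (nat_lit 772) (.cons (nat_lit 1030) (.cons (nat_lit 41987) (.cons (nat_lit 1028) (.cons (nat_lit 1158) (.cons (nat_lit 1155) (.cons (nat_lit 9347) (.cons (nat_lit 5) .nil .nil)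 .nil) .nil) .nil) .nil) .nil) .nil) .nil) .nil) .nil) .nil) .nil) (.cons (nat_lit 25227) (.cons (nat_lit 652) (.cons (nat_lit 782) (.cons (nat_lit 780) (.cons (nat_lit 910) (.cons (nat_lit 907) (.cons (nat_lit 908) (.cons (nat_lit 1038) (.cons (nat_lit 50187) (.cons (nat_lit 1036) (.cons (nat_lit 1162) (.cons (nat_lit 9347) (.cons (nat_lit 5) .nil .nil) .nil) .nil) .nil) .nil) .nil) .nil) .nil) .nil) .nil) .nil) .nil) .nil)) (.cons (nat_lit 666) (.cons (nat_lit 660) (.cons (nat_lit 786) (.cons (nat_lit 780) (.cons (nat_lit 910) Uxp19n2807 (.cons (nat_lit 913) Uxp19n2823 (.cons (nat_lit 914) (.cons (nat_lit 908) (.cons (nat_lit 1033) (.cons (nat_lit 1036) (.cons (nat_lit 1166) Uxp19n2819 .nil) .nil) .nil) .nil) .nil))) .nil) (.cons (nat_lit 785) (.cons (nat_lit 788) Uxp19n2851 .nil) .nil)) .nil) (.cons (nat_lit 665) (.cons (nat_lit 668) Uxp19n2865 .nil) .nil))) .nil) (.cons (nat_lit 545) (.cons (nat_lit 548) (.cons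 (nat_lit 674) (.cons (nat_lit 668) (.cons (nat_lit 793) (.cons (nat_lit 796) (.cons (nat_lit 922) (.cons (nat_lit 916) (.cons (nat_lit 1042) (.cons (nat_lit 1036) (.cons (nat_lit 1166) Uxp19n2819 (.cons (nat_lit 1169) Uxp19n2857 Uxp19n2846)) .nil) (.cons (nat_lit 1041) (.cons (nat_lit 1044) (.cons (nat_lit 1170) (.cons (nat_lit 1164) (.cons (nat_lit 1289) (.cons (nat_lit 1292) (.cons (nat_lit 1422) Uxp19n2841 (.cons (nat_lit 1426) (.cons (nat_lit 1420) (.cons (nat_lit 1545) Uxp19n2884 .nil) .nil) .nil)) .nil) (.cons (nat_lit 1298) (.cons (nat_lit 1292) (.cons (nat_lit 1422) Uxp19n2841 .nil) .nil) .nil)) .nil) .nil) .nil) .nil)) .nil) .nil) .nil) Uxp19n2865) .nil) .nil) .nil) .nil)) .nil)) (.cons (nat_lit 418) (.cons (nat_lit 412) (.cons (nat_lit 538) (.cons (nat_lit 532) (.cons (nat_lit 662) (.cons (nat_lit 8851) (.cons (nat_lit 660) (.cons (nat_lit 790) (.cons (nat_lit 788) (.cons (nat_lit 918) (.cons (nat_lit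 916) (.cons (nat_lit 1042) (.cons (nat_lit 1036) (.cons (nat_lit 1166) (.cons (nat_lit 1163) (.cons (nat_lit 1164) (.cons (nat_lit 1290) (.cons (nat_lit 1284) (.cons (nat_lit 1414) (.cons (nat_lit 50563) (.cons (nat_lit 58755) (.cons (nat_lit 5) .nil .nil) .nil) .nil) .nil) .nil) .nil) .nil) .nil) .nil) .nil) .nil) .nil) .nil) .nil) .nil) .nil) .nil) (.cons (nat_lit 665) (.cons (nat_lit 668) (.cons (nat_lit 794) (.cons (nat_lit 788) (.cons (nat_lit 918) Uxp19n2938 .nil) .nil) .nil) .nil) (.cons (nat_lit 666) (.cons (nat_lit 660) (.cons (nat_lit 785) (.cons (nat_lit 788) (.cons (nat_lit 918) Uxp19n2938 .nil) .nil) .nil) .nil) .nil))) .nil) (.cons (nat_lit 537) (.cons (nat_lit 540) Uxp19n2974 .nil) .nil)) .nil) (.cons (nat_lit 417) (.cons (nat_lit 420) Uxp19n2988 .nil) .nil))) .nil) (.cons (nat_lit 289) (.cons (nat_lit 292) (.cons (nat_lit 422) (.cons (nat_lit 420) (.cons (nat_lit 546) (.cons (nat_lit 540) (.cons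 (nat_lit 666) (.cons (nat_lit 660) (.cons (nat_lit 786) (.cons (nat_lit 780) (.cons (nat_lit 910) Uxp19n2807 (.cons (nat_lit 913) (.cons (nat_lit 916) (.cons (nat_lit 1042) (.cons (nat_lit 1036) (.cons (nat_lit 1166) Uxp19n2819 (.cons (nat_lit 1169) Uxp19n2857 .nil)) .nil) .nil) .nil) (.cons (nat_lit 922) Uxp19n2823 .nil))) .nil) (.cons (nat_lit 793) (.cons (nat_lit 796) Uxp19n3008 .nil) .nil)) .nil) (.cons (nat_lit 665) (.cons (nat_lit 668) Uxp19n3027 .nil) .nil)) .nil) (.cons (nat_lit 545) (.cons (nat_lit 548) (.cons (nat_lit 674) (.cons (nat_lit 668) (.cons (nat_lit 793) (.cons (nat_lit 796) (.cons (nat_lit 922) (.cons (nat_lit 916) (.cons (nat_lit 1042) Uxp19n3022 (.cons (nat_lit 1049) (.cons (nat_lit 1052) (.cons (nat_lit 1178) (.cons (nat_lit 1172) (.cons (nat_lit 1298) Uxp19n3017 (.cons (nat_lit 1305) (.cons (nat_lit 1308) (.cons (nat_lit 1434) (.cons (nat_lit 1428) (.cons (nat_lit 1554) Uxp19n2884 .nil)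 .nil) .nil) .nil) .nil)) .nil) .nil) .nil) .nil)) .nil) .nil) .nil) Uxp19n3027) .nil) .nil) .nil) .nil)) .nil) (.cons (nat_lit 426) (.cons (nat_lit 420) (.cons (nat_lit 545) (.cons (nat_lit 548) (.cons (nat_lit 674) (.cons (nat_lit 668) (.cons (nat_lit 794) Uxp19n2983 (.cons (nat_lit 793) (.cons (nat_lit 796) (.cons (nat_lit 922) (.cons (nat_lit 916) (.cons (nat_lit 1041) (.cons (nat_lit 1044) (.cons (nat_lit 1174) Uxp19n2964 (.cons (nat_lit 1178) (.cons (nat_lit 1172) (.cons (nat_lit 1297) (.cons (nat_lit 1300) (.cons (nat_lit 1430) (.cons (nat_lit 9619) (.cons (nat_lit 1428) (.cons (nat_lit 1558) (.cons (nat_lit 1556) (.cons (nat_lit 1686) (.cons (nat_lit 1684) (.cons (nat_lit 1810) (.cons (nat_lit 1804) (.cons (nat_lit 1934) (.cons (nat_lit 1931) (.cons (nat_lit 1932) (.cons (nat_lit 2058) (.cons (nat_lit 2052) (.cons (nat_lit 2182) (.cons (nat_lit 100483) (.cons (nat_lit 108675) (.cons (nat_lit 5) .nil .nil)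 .nil) .nil) .nil) .nil) .nil) .nil) .nil) .nil) .nil) .nil) .nil) .nil) .nil) .nil) .nil) .nil) .nil) .nil) .nil) .nil) .nil)) .nil) (.cons (nat_lit 1050) (.cons (nat_lit 1044) (.cons (nat_lit 1174) Uxp19n2964 .nil) .nil) .nil)) .nil) .nil) .nil) .nil)) .nil) .nil) .nil) Uxp19n2988) .nil) .nil)) .nil) .nil))
def Uxt19 : PT := (.cons (nat_lit 20) (.cons (nat_lit 146) (.cons (nat_lit 140) (.cons (nat_lit 266) (.cons (nat_lit 259) (.cons (nat_lit 5) .nil .nil) (.cons (nat_lit 276) (.cons (nat_lit 402) (.cons (nat_lit 396) (.cons (nat_lit 522) (.cons (nat_lit 515) (.cons (nat_lit 5) .nil .nil) (.cons (nat_lit 532) (.cons (nat_lit 658) (.cons (nat_lit 652) (.cons (nat_lit 778) (.cons (nat_lit 771) (.cons (nat_lit 5) .nil .nil) .nil) .nil) .nil) (.cons (nat_lit 657) (.cons (nat_lit 660) (.cons (nat_lit 790) (.cons (nat_lit 788) (.cons (nat_lit 914) Uxp19n9 .nil) .nil) .nil) .nil) (.cons (nat_lit 662) (.cons (nat_lit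 660) (.cons (nat_lit 790) (.cons (nat_lit 787) (.cons (nat_lit 788) (.cons (nat_lit 913) Uxp19n28 .nil) .nil) .nil) (.cons (nat_lit 785) (.cons (nat_lit 788) Uxp19n48 .nil) .nil)) .nil) .nil))) .nil)) (.cons (nat_lit 534) (.cons (nat_lit 532) (.cons (nat_lit 658) (.cons (nat_lit 652) (.cons (nat_lit 778) (.cons (nat_lit 772) (.cons (nat_lit 902) (.cons (nat_lit 899) (.cons (nat_lit 33667) (.cons (nat_lit 5) .nil .nil) .nil) .nil) (.cons (nat_lit 906) (.cons (nat_lit 900) (.cons (nat_lit 1025) Uxp19n63 .nil) .nil) (.cons (nat_lit 905) (.cons (nat_lit 908) (.cons (nat_lit 1034) Uxp19n63 .nil) .nil) .nil))) .nil) (.cons (nat_lit 785) (.cons (nat_lit 788) (.cons (nat_lit 914) (.cons (nat_lit 908) (.cons (nat_lit 1034) Uxp19n63 (.cons (nat_lit 1033) (.cons (nat_lit 1036) (.cons (nat_lit 1162) (.cons (nat_lit 1156) (.cons (nat_lit 1281) Uxp19n75 .nil) .nil) .nil) .nil) .nil)) .nil) .nil) .nil) .nil)) .nil) (.cons (nat_lit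 657) (.cons (nat_lit 660) (.cons (nat_lit 786) (.cons (nat_lit 780) (.cons (nat_lit 906) Uxp19n91 (.cons (nat_lit 913) (.cons (nat_lit 916) (.cons (nat_lit 1042) (.cons (nat_lit 1036) Uxp19n94 .nil) .nil) .nil) .nil)) .nil) Uxp19n119) .nil) (.cons (nat_lit 670) (.cons (nat_lit 668) (.cons (nat_lit 793) (.cons (nat_lit 796) (.cons (nat_lit 926) Uxp19n135 .nil) .nil) .nil) .nil) .nil))) .nil) (.cons (nat_lit 529) (.cons (nat_lit 532) (.cons (nat_lit 662) (.cons (nat_lit 660) (.cons (nat_lit 794) Uxp19n151 (.cons (nat_lit 785) (.cons (nat_lit 788) Uxp19n48 .nil) (.cons (nat_lit 798) (.cons (nat_lit 795) (.cons (nat_lit 796) (.cons (nat_lit 922) Uxp19n28 .nil) .nil) .nil) .nil))) .nil) (.cons (nat_lit 666) (.cons (nat_lit 660) (.cons (nat_lit 790) (.cons (nat_lit 788) (.cons (nat_lit 914) Uxp19n9 (.cons (nat_lit 913) Uxp19n168 .nil)) .nil) (.cons (nat_lit 785) (.cons (nat_lit 788) Uxp19n192 .nil) .nil)) .nil) .nil))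 .nil) .nil))) .nil) Uxp19n503) .nil)) Uxp19n1103) .nil) (.cons (nat_lit 161) (.cons (nat_lit 164) (.cons (nat_lit 290) (.cons (nat_lit 284) (.cons (nat_lit 410) Uxp19n1687 Uxp19n2523) .nil) (.cons (nat_lit 294) (.cons (nat_lit 292) Uxp19n2753 .nil) .nil)) .nil) (.cons (nat_lit 158) (.cons (nat_lit 156) Uxp19n3089 .nil) .nil))) .nil)
def Uxp19 : Prog := ⟨2920, 7, 2, 0, Uxt19, 0, dt0⟩

end Pool.Agent.Hom2.UC
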