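import Pool.Agent.Lib.MP_7e4769_co.Hc.UDb

set_option autoImplicit false
set_option maxRecDepth 100000

namespace Pool.Agent.Hom2.UC

def Uxp21n9 : PT := (.cons (nat_lit 1420) (.cons (nat_lit 1550) (.cons (nat_lit 83467) (.cons (nat_lit 1548) (.cons (nat_lit 1674) (.cons (nat_lit 67203) (.cons (nat_lit 5) .nil .nil) .nil) .nil) .nil) .nil) .nil) .nil)
def Uxp21n18 : PT := (.cons (nat_lit 916) (.cons (nat_lit 1046) (.cons (nat_lit 1044) (.cons (nat_lit 1170) (.cons (nat_lit 1164) (.cons (nat_lit 1294) (.cons (nat_lit 1292) (.cons (nat_lit 1422) (.cons (nat_lit 42379) Uxp21n9 .nil) .nil) .nil) .nil) .nil) .nil) .nil) .nil) .nil)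
def Uxp21n38 : PT := (.cons (nat_lit 918) (.cons (nat_lit 916) (.cons (nat_lit 1042) (.cons (nat_lit 1036) (.cons (nat_lit 1166) (.cons (nat_lit 1164) (.cons (nat_lit 1294) (.cons (nat_lit 1292) (.cons (nat_lit 1418) (.cons (nat_lit 58755) (.cons (nat_lit 1284) (.cons (nat_lit 1542) (.cons (nat_lit 75267) (.cons (nat_lit 1540) (.cons (nat_lit 1670) (.cons (nat_lit 1667) (.cons (nat_lit 42627) (.cons (nat_lit 5) .nil .nil) .nil) .nil) .nil) .nil) .nil) .nil) .nil) .nil) .nil) .nil) .nil) .nil) .nil) .nil) .nil) .nil) .nil)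
def Uxp21n52 : PT := (.cons (nat_lit 1028) (.cons (nat_lit 1158) (.cons (nat_lit 1155) (.cons (nat_lit 33923) (.cons (nat_lit 5) .nil .nil) .nil) .nil) .nil) .nil)
def Uxp21n64 : PT := (.cons (nat_lit 1284) (.cons (nat_lit 1414) (.cons (nat_lit 1411) (.cons (nat_lit 34179) (.cons (nat_lit 5) .nil .nil) .nil) .nil) .nil) .nil)
def Uxp21n80 : PT := (.cons (nat_lit 900) (.cons (nat_lit 1025) (.cons (nat_lit 1028) (.cons (nat_lit 1158) (.cons (nat_lit 1155) (.cons (nat_lit 33923) (.cons (nat_lit 5) .nil .nil) .nil) .nil) (.cons (nat_lit 1162) (.cons (nat_lit 1156) (.cons (nat_lit 1281) Uxp21n64 .nil) .nil) .nil)) .nil) (.cons (nat_lit 1034) Uxp21n52 .nil)) .nil)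
def Uxp21n83 : PT := (.cons (nat_lit 1161) (.cons (nat_lit 1164) (.cons (nat_lit 1290) Uxp21n64 .nil) .nil) (.cons (nat_lit 1162) (.cons (nat_lit 1156) (.cons (nat_lit 1281) Uxp21n64 .nil) .nil) .nil))
def Uxp21n92 : PT := (.cons (nat_lit 1548) (.cons (nat_lit 1674) (.cons (nat_lit 1667) (.cons (nat_lit 5) .nil .nil) .nil) .nil) .nil)
def Uxp21n108 : PT := (.cons (nat_lit 798) (.cons (nat_lit 796) (.cons (nat_lit 922) (.cons (nat_lit 916) (.cons (nat_lit 1046) (.cons (nat_lit 1044) (.cons (nat_lit 1174) (.cons (nat_lit 1172) (.cons (nat_lit 1298) (.cons (nat_lit 50443) (.cons (nat_lit 1164) (.cons (nat_lit 1422) (.cons (nat_lit 66955) (.cons (nat_lit 1420) (.cons (nat_lit 1550) (.cons (nat_lit 34315) Uxp21n92 .nil) .nil) .nil) .nil) .nil) .nil) .nil) .nil) .nil) .nil) .nil) .nil) .nil) .nil) .nil) .nil)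
def Uxp21n124 : PT := (.cons (nat_lit 924) (.cons (nat_lit 1050) (.cons (nat_lit 1044) (.cons (nat_lit 1174) (.cons (nat_lit 1172) (.cons (nat_lit 1302) (.cons (nat_lit 34067) (.cons (nat_lit 1300) (.cons (nat_lit 1430) (.cons (nat_lit 75155) (.cons (nat_lit 1428) (.cons (nat_lit 1554) (.cons (nat_lit 58891) (.cons (nat_lit 652) (.cons (nat_lit 1674) (.cons (nat_lit 1667) (.cons (nat_lit 5) .nil .nil) .nil) .nil) .nil) .nil) .nil) .nil) .nil) .nil) .nil) .nil) .nil) .nil) .nil) .nil) .nil) .nil)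
def Uxp21n138 : PT := (.cons (nat_lit 908) (.cons (nat_lit 1034) (.cons (nat_lit 1028) (.cons (nat_lit 1158) (.cons (nat_lit 1155) (.cons (nat_lit 50307) (.cons (nat_lit 5) .nil .nil) .nil) .nil) .nil) .nil) .nil) .nil)
def Uxp21n142 : PT := (.cons (nat_lit 1284) (.cons (nat_lit 1414) (.cons (nat_lit 1411) (.cons (nat_lit 50563) (.cons (nat_lit 5) .nil .nil) .nil) .nil) .nil) .nil)
def Uxp21n148 : PT := (.cons (nat_lit 916) (.cons (nat_lit 1042) (.cons (nat_lit 1036) (.cons (nat_lit 1162) (.cons (nat_lit 1156) (.cons (nat_lit 1281) Uxp21n142 .nil) .nil) .nil) .nil) .nil) .nil)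
def Uxp21n168 : PT := (.cons (nat_lit 1174) (.cons (nat_lit 1172) (.cons (nat_lit 1298) (.cons (nat_lit 1292) (.cons (nat_lit 1422) (.cons (nat_lit 1420) (.cons (nat_lit 1550) (.cons (nat_lit 1548) (.cons (nat_lit 1674) (.cons (nat_lit 75395) (.cons (nat_lit 1540) (.cons (nat_lit 1798) (.cons (nat_lit 91907) (.cons (nat_lit 1796) (.cons (nat_lit 1926) (.cons (nat_lit 1923) (.cons (nat_lit 59267) (.cons (nat_lit 5) .nil .nil) .nil) .nil) .nil) .nil) .nil) .nil) .nil) .nil) .nil) .nil) .nil) .nil) .nil) .nil) .nil) .nil) .nil)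
def Uxp21n172 : PT := (.cons (nat_lit 918) (.cons (nat_lit 916) (.cons (nat_lit 1041) (.cons (nat_lit 1044) Uxp21n168 .nil) .nil) .nil) .nil)
def Uxp21n193 : PT := (.cons (nat_lit 908) (.cons (nat_lit 1034) (.cons (nat_lit 1027) (.cons (nat_lit 5) .nil .nil) .nil) .nil) .nil)
def Uxp21n197 : PT := (.cons (nat_lit 785) (.cons (nat_lit 788) (.cons (nat_lit 914) Uxp21n193 Uxp21n172) .nil) (.cons (nat_lit 790) (.cons (nat_lit 788) (.cons (nat_lit 914) Uxp21n138 (.cons (nat_lit 913) Uxp21n148 .nil)) .nil) .nil))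
def Uxp21n205 : PT := (.cons (nat_lit 1676) (.cons (nat_lit 1806) (.cons (nat_lit 100107) (.cons (nat_lit 1804) (.cons (nat_lit 1930) (.cons (nat_lit 83843) (.cons (nat_lit 5) .nil .nil) .nil) .nil) .nil) .nil) .nil) .nil)
def Uxp21n214 : PT := (.cons (nat_lit 1172) (.cons (nat_lit 1302) (.cons (nat_lit 1300) (.cons (nat_lit 1426) (.cons (nat_lit 1420) (.cons (nat_lit 1550) (.cons (nat_lit 1548) (.cons (nat_lit 1678) (.cons (nat_lit 59019) Uxp21n205 .nil) .nil) .nil) .nil) .nil) .nil) .nil) .nil) .nil)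
def Uxp21n223 : PT := (.cons (nat_lit 788) (.cons (nat_lit 914) Uxp21n193 (.cons (nat_lit 918) (.cons (nat_lit 916) (.cons (nat_lit 1041) (.cons (nat_lit 1044) Uxp21n168 .nil) (.cons (nat_lit 1046) (.cons (nat_lit 1043) (.cons (nat_lit 1044) (.cons (nat_lit 1169) Uxp21n214 .nil) .nil) .nil) .nil)) .nil) .nil)) .nil)
def Uxp21n227 : PT := (.cons (nat_lit 1540) (.cons (nat_lit 1670) (.cons (nat_lit 1667) (.cons (nat_lit 50819) (.cons (nat_lit 5) .nil .nil) .nil) .nil) .nil) .nil)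
def Uxp21n234 : PT := (.cons (nat_lit 1164) (.cons (nat_lit 1290) Uxp21n142 (.cons (nat_lit 1289) (.cons (nat_lit 1292) (.cons (nat_lit 1418) (.cons (nat_lit 1412) (.cons (nat_lit 1537) Uxp21n227 .nil) .nil) .nil) .nil) .nil)) .nil)
def Uxp21n237 : PT := (.cons (nat_lit 1417) (.cons (nat_lit 1420) (.cons (nat_lit 1546) Uxp21n227 .nil) .nil) (.cons (nat_lit 1418) (.cons (nat_lit 1412) (.cons (nat_lit 1537) Uxp21n227 .nil) .nil) .nil))
def Uxp21n241 : PT := (.cons (nat_lit 1169) (.cons (nat_lit 1172) (.cons (nat_lit 1298) (.cons (nat_lit 1292) Uxp21n237 .nil) .nil) .nil) .nil)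
def Uxp21n246 : PT := (.cons (nat_lit 1804) (.cons (nat_lit 1930) (.cons (nat_lit 1923) (.cons (nat_lit 5) .nil .nil) .nil) .nil) .nil)
def Uxp21n262 : PT := (.cons (nat_lit 1054) (.cons (nat_lit 1052) (.cons (nat_lit 1178) (.cons (nat_lit 1172) (.cons (nat_lit 1302) (.cons (nat_lit 1300) (.cons (nat_lit 1430) (.cons (nat_lit 1428) (.cons (nat_lit 1554) (.cons (nat_lit 67083) (.cons (nat_lit 1420) (.cons (nat_lit 1678) (.cons (nat_lit 83595) (.cons (nat_lit 1676) (.cons (nat_lit 1806) (.cons (nat_lit 50955) Uxp21n246 .nil) .nil) .nil) .nil) .nil) .nil) .nil) .nil) .nil) .nil) .nil) .nil) .nil) .nil) .nil) .nil)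
def Uxp21n264 : PT := (.cons (nat_lit 924) (.cons (nat_lit 1050) (.cons (nat_lit 1044) (.cons (nat_lit 1170) Uxp21n234 Uxp21n241) .nil) Uxp21n262) .nil)
def Uxp21n268 : PT := (.cons (nat_lit 1162) (.cons (nat_lit 1156) (.cons (nat_lit 1281) Uxp21n142 .nil) .nil) (.cons (nat_lit 1161) (.cons (nat_lit 1164) (.cons (nat_lit 1290) Uxp21n142 .nil) .nil) .nil))
def Uxp21n278 : PT := (.cons (nat_lit 798) (.cons (nat_lit 796) (.cons (nat_lit 921) Uxp21n264 (.cons (nat_lit 922) (.cons (nat_lit 916) (.cons (nat_lit 1042) (.cons (nat_lit 1036) Uxp21n268 .nil) (.cons (nat_lit 1041) (.cons (nat_lit 1044) (.cons (nat_lit 1170) Uxp21n234 .nil) .nil) .nil)) .nil) .nil)) .nil) .nil)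
def Uxp21n283 : PT := (.cons (nat_lit 1036) (.cons (nat_lit 1162) (.cons (nat_lit 1155) (.cons (nat_lit 5) .nil .nil) .nil) .nil) .nil)
def Uxp21n288 : PT := (.cons (nat_lit 788) (.cons (nat_lit 914) (.cons (nat_lit 908) (.cons (nat_lit 1038) (.cons (nat_lit 41995) Uxp21n283 .nil) .nil) .nil) Uxp21n38) .nil)
def Uxp21n291 : PT := (.cons (nat_lit 1292) (.cons (nat_lit 1418) (.cons (nat_lit 1411) (.cons (nat_lit 5) .nil .nil) .nil) .nil) .nil)
def Uxp21n296 : PT := (.cons (nat_lit 1036) (.cons (nat_lit 1161) (.cons (nat_lit 1164) (.cons (nat_lit 1294) (.cons (nat_lit 42251) Uxp21n291 .nil) .nil) .nil) .nil) .nil)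
def Uxp21n300 : PT := (.cons (nat_lit 788) (.cons (nat_lit 922) (.cons (nat_lit 916) (.cons (nat_lit 1042) Uxp21n296 .nil) .nil) Uxp21n38) .nil)
def Uxp21n313 : PT := (.cons (nat_lit 1028) (.cons (nat_lit 1158) (.cons (nat_lit 1155) (.cons (nat_lit 33923) (.cons (nat_lit 5) .nil .nil) .nil) .nil) Uxp21n83) .nil)
def Uxp21n317 : PT := (.cons (nat_lit 1540) (.cons (nat_lit 1670) (.cons (nat_lit 1667) (.cons (nat_lit 34435) (.cons (nat_lit 5) .nil .nil) .nil) .nil) .nil) .nil)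
def Uxp21n325 : PT := (.cons (nat_lit 1162) (.cons (nat_lit 1156) (.cons (nat_lit 1281) (.cons (nat_lit 1284) (.cons (nat_lit 1414) (.cons (nat_lit 1411) (.cons (nat_lit 34179) (.cons (nat_lit 5) .nil .nil) .nil) .nil) (.cons (nat_lit 1418) (.cons (nat_lit 1412) (.cons (nat_lit 1537) Uxp21n317 .nil) .nil) .nil)) .nil) (.cons (nat_lit 1290) Uxp21n64 .nil)) .nil) .nil)
def Uxp21n329 : PT := (.cons (nat_lit 908) (.cons (nat_lit 1034) Uxp21n313 (.cons (nat_lit 1033) (.cons (nat_lit 1036) Uxp21n325 .nil) .nil)) .nil)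
def Uxp21n332 : PT := (.cons (nat_lit 1417) (.cons (nat_lit 1420) (.cons (nat_lit 1546) Uxp21n317 .nil) .nil) (.cons (nat_lit 1418) (.cons (nat_lit 1412) (.cons (nat_lit 1537) Uxp21n317 .nil) .nil) .nil))
def Uxp21n364 : PT := (.cons (nat_lit 916) (.cons (nat_lit 1046) (.cons (nat_lit 1044) (.cons (nat_lit 1170) (.cons (nat_lit 1164) (.cons (nat_lit 1294) (.cons (nat_lit 1292) (.cons (nat_lit 1422) (.cons (nat_lit 34187) Uxp21n9 .nil) .nil) .nil) .nil) .nil) .nil) .nil) .nil) .nil)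
def Uxp21n368 : PT := (.cons (nat_lit 802) (.cons (nat_lit 795) (.cons (nat_lit 668) (.cons (nat_lit 922) Uxp21n364 .nil) .nil) .nil) .nil)
def Uxp21n386 : PT := (.cons (nat_lit 914) (.cons (nat_lit 908) (.cons (nat_lit 1038) (.cons (nat_lit 25611) Uxp21n283 .nil) .nil) .nil) .nil)
def Uxp21n397 : PT := (.cons (nat_lit 1042) (.cons (nat_lit 1036) (.cons (nat_lit 1161) (.cons (nat_lit 1164) (.cons (nat_lit 1294) (.cons (nat_lit 25867) Uxp21n291 .nil) .nil) .nil) .nil) .nil) .nil)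
def Uxp21n428 : PT := (.cons (nat_lit 1170) (.cons (nat_lit 1164) (.cons (nat_lit 1294) (.cons (nat_lit 25867) Uxp21n291 .nil) .nil) .nil) .nil)
def Uxp21n471 : PT := (.cons (nat_lit 660) (.cons (nat_lit 790) (.cons (nat_lit 788) (.cons (nat_lit 914) (.cons (nat_lit 908) (.cons (nat_lit 1038) (.cons (nat_lit 1036) (.cons (nat_lit 1166) (.cons (nat_lit 25739) (.cons (nat_lit 1164) (.cons (nat_lit 1294) (.cons (nat_lit 66827) (.cons (nat_lit 1292) (.cons (nat_lit 1418) (.cons (nat_lit 50563) (.cons (nat_lit 5) .nil .nil) .nil) .nil) .nil) .nil) .nil) .nil) .nil) .nil) .nil) .nil) .nil) .nil) .nil) .nil) .nil)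
def Uxp21n482 : PT := (.cons (nat_lit 402) (.cons (nat_lit 396) (.cons (nat_lit 522) (.cons (nat_lit 515) (.cons (nat_lit 5) .nil .nil) (.cons (nat_lit 532) (.cons (nat_lit 658) (.cons (nat_lit 652) (.cons (nat_lit 778) (.cons (nat_lit 771) (.cons (nat_lit 5) .nil .nil) .nil) .nil) .nil) (.cons (nat_lit 662) (.cons (nat_lit 660) (.cons (nat_lit 790) (.cons (nat_lit 787) (.cons (nat_lit 788) (.cons (nat_lit 913) Uxp21n18 .nil) .nil) .nil) (.cons (nat_lit 785) (.cons (nat_lit 788) Uxp21n38 .nil) .nil)) .nil) .nil)) .nil)) (.cons (nat_lit 534) (.cons (nat_lit 532) (.cons (nat_lit 658) (.cons (nat_lit 652) (.cons (nat_lit 778) (.cons (nat_lit 772) (.cons (nat_lit 902) (.cons (nat_lit 899) (.cons (nat_lit 33667) (.cons (nat_lit 5) .nil .nil) .nil) .nil) (.cons (nat_lit 906) (.cons (nat_lit 900) (.cons (nat_lit 1025) Uxp21n52 .nil) .nil) (.cons (nat_lit 905) (.cons (nat_lit 908) (.cons (nat_lit 1034) Uxp21n52 .nil) .nil)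 .nil))) .nil) (.cons (nat_lit 785) (.cons (nat_lit 788) (.cons (nat_lit 914) (.cons (nat_lit 908) (.cons (nat_lit 1034) Uxp21n52 (.cons (nat_lit 1033) (.cons (nat_lit 1036) (.cons (nat_lit 1162) (.cons (nat_lit 1156) (.cons (nat_lit 1281) Uxp21n64 .nil) .nil) .nil) .nil) .nil)) .nil) .nil) .nil) .nil)) .nil) (.cons (nat_lit 657) (.cons (nat_lit 660) (.cons (nat_lit 786) (.cons (nat_lit 780) (.cons (nat_lit 906) Uxp21n80 (.cons (nat_lit 913) (.cons (nat_lit 916) (.cons (nat_lit 1042) (.cons (nat_lit 1036) Uxp21n83 .nil) .nil) .nil) .nil)) .nil) Uxp21n108) .nil) (.cons (nat_lit 670) (.cons (nat_lit 668) (.cons (nat_lit 793) (.cons (nat_lit 796) (.cons (nat_lit 926) Uxp21n124 .nil) .nil) .nil) .nil) .nil))) .nil) (.cons (nat_lit 529) (.cons (nat_lit 532) (.cons (nat_lit 666) (.cons (nat_lit 660) (.cons (nat_lit 790) (.cons (nat_lit 788) (.cons (nat_lit 914) Uxp21n138 (.cons (nat_lit 913) Uxp21n148 .nil)) .nil) (.cons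 (nat_lit 785) (.cons (nat_lit 788) Uxp21n172 .nil) .nil)) .nil) (.cons (nat_lit 662) (.cons (nat_lit 660) (.cons (nat_lit 785) (.cons (nat_lit 788) Uxp21n38 .nil) (.cons (nat_lit 794) (.cons (nat_lit 788) Uxp21n38 .nil) (.cons (nat_lit 798) (.cons (nat_lit 795) (.cons (nat_lit 796) (.cons (nat_lit 922) Uxp21n18 .nil) .nil) .nil) .nil))) .nil) .nil)) .nil) .nil))) .nil) (.cons (nat_lit 409) (.cons (nat_lit 412) (.cons (nat_lit 538) (.cons (nat_lit 532) (.cons (nat_lit 658) (.cons (nat_lit 652) (.cons (nat_lit 778) (.cons (nat_lit 771) (.cons (nat_lit 5) .nil .nil) .nil) Uxp21n197) .nil) (.cons (nat_lit 665) (.cons (nat_lit 668) (.cons (nat_lit 794) Uxp21n223 Uxp21n278) .nil) (.cons (nat_lit 662) (.cons (nat_lit 660) (.cons (nat_lit 794) Uxp21n288 (.cons (nat_lit 785) Uxp21n300 (.cons (nat_lit 790) (.cons (nat_lit 787) (.cons (nat_lit 788) (.cons (nat_lit 913) Uxp21n18 (.cons (nat_lit 922) Uxp21n18 .nil)) .nil) .nil)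 .nil))) .nil) .nil))) .nil) (.cons (nat_lit 542) (.cons (nat_lit 540) (.cons (nat_lit 665) (.cons (nat_lit 668) (.cons (nat_lit 794) (.cons (nat_lit 788) (.cons (nat_lit 914) Uxp21n329 (.cons (nat_lit 913) (.cons (nat_lit 916) (.cons (nat_lit 1042) (.cons (nat_lit 1036) (.cons (nat_lit 1161) (.cons (nat_lit 1164) (.cons (nat_lit 1290) (.cons (nat_lit 1284) (.cons (nat_lit 1414) (.cons (nat_lit 1411) (.cons (nat_lit 34179) (.cons (nat_lit 5) .nil .nil) .nil) .nil) Uxp21n332) .nil) .nil) .nil) Uxp21n325) .nil) .nil) .nil) .nil)) .nil) Uxp21n108) .nil) (.cons (nat_lit 666) (.cons (nat_lit 660) (.cons (nat_lit 785) (.cons (nat_lit 788) (.cons (nat_lit 914) Uxp21n329 .nil) .nil) (.cons (nat_lit 786) (.cons (nat_lit 780) (.cons (nat_lit 905) (.cons (nat_lit 908) (.cons (nat_lit 1034) Uxp21n313 .nil) .nil) (.cons (nat_lit 906) Uxp21n80 .nil)) .nil) Uxp21n108)) .nil) (.cons (nat_lit 678) (.cons (nat_lit 676) Uxp21n368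 .nil) .nil))) .nil) .nil)) .nil) (.cons (nat_lit 406) (.cons (nat_lit 404) (.cons (nat_lit 538) (.cons (nat_lit 532) (.cons (nat_lit 658) (.cons (nat_lit 652) (.cons (nat_lit 782) (.cons (nat_lit 25355) (.cons (nat_lit 780) (.cons (nat_lit 906) (.cons (nat_lit 899) (.cons (nat_lit 5) .nil .nil) .nil) .nil) .nil) .nil) (.cons (nat_lit 786) (.cons (nat_lit 780) (.cons (nat_lit 905) (.cons (nat_lit 908) (.cons (nat_lit 1038) (.cons (nat_lit 25611) Uxp21n283 .nil) .nil) .nil) .nil) .nil) (.cons (nat_lit 785) (.cons (nat_lit 788) Uxp21n386 .nil) .nil))) .nil) (.cons (nat_lit 665) (.cons (nat_lit 668) (.cons (nat_lit 794) (.cons (nat_lit 788) (.cons (nat_lit 914) (.cons (nat_lit 908) (.cons (nat_lit 1038) (.cons (nat_lit 25611) Uxp21n283 .nil) .nil) .nil) (.cons (nat_lit 913) (.cons (nat_lit 916) Uxp21n397 .nil) .nil)) .nil) .nil) .nil) (.cons (nat_lit 662) (.cons (nat_lit 660) (.cons (nat_lit 786) (.cons (nat_lit 780)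 (.cons (nat_lit 910) (.cons (nat_lit 908) (.cons (nat_lit 1038) (.cons (nat_lit 1036) (.cons (nat_lit 1162) (.cons (nat_lit 42115) (.cons (nat_lit 1028) (.cons (nat_lit 1286) (.cons (nat_lit 58627) (.cons (nat_lit 1284) (.cons (nat_lit 1414) (.cons (nat_lit 1411) (.cons (nat_lit 25987) (.cons (nat_lit 5) .nil .nil) .nil) .nil) .nil) .nil) .nil) .nil) .nil) .nil) .nil) .nil) .nil) .nil) .nil) .nil) .nil) .nil) .nil))) .nil) (.cons (nat_lit 529) (.cons (nat_lit 532) (.cons (nat_lit 666) (.cons (nat_lit 660) (.cons (nat_lit 786) (.cons (nat_lit 780) (.cons (nat_lit 905) (.cons (nat_lit 908) (.cons (nat_lit 1038) (.cons (nat_lit 25611) Uxp21n283 .nil) Uxp21n397) .nil) Uxp21n386) .nil) (.cons (nat_lit 793) (.cons (nat_lit 796) (.cons (nat_lit 922) (.cons (nat_lit 916) (.cons (nat_lit 1041) (.cons (nat_lit 1044) Uxp21n428 .nil) Uxp21n397) .nil) .nil) .nil) .nil)) .nil) (.cons (nat_lit 662) (.cons (nat_lit 660) (.cons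 (nat_lit 786) (.cons (nat_lit 780) (.cons (nat_lit 910) (.cons (nat_lit 908) (.cons (nat_lit 1038) (.cons (nat_lit 1036) (.cons (nat_lit 1162) (.cons (nat_lit 42115) (.cons (nat_lit 1028) (.cons (nat_lit 1286) (.cons (nat_lit 58627) (.cons (nat_lit 1284) (.cons (nat_lit 1414) (.cons (nat_lit 1411) (.cons (nat_lit 25987) (.cons (nat_lit 5) .nil .nil) .nil) (.cons (nat_lit 26003) (.cons (nat_lit 1428) (.cons (nat_lit 1554) Uxp21n92 .nil) .nil) .nil)) .nil) .nil) .nil) .nil) .nil) .nil) .nil) .nil) .nil) .nil) .nil) .nil) .nil) .nil) .nil)) .nil) (.cons (nat_lit 534) (.cons (nat_lit 531) (.cons (nat_lit 532) (.cons (nat_lit 657) Uxp21n471 (.cons (nat_lit 666) Uxp21n471 .nil)) .nil) .nil) .nil))) .nil) .nil)))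
def Uxp21n487 : PT := (.cons (nat_lit 1164) (.cons (nat_lit 1290) (.cons (nat_lit 1283) (.cons (nat_lit 5) .nil .nil) .nil) .nil) .nil)
def Uxp21n490 : PT := (.cons (nat_lit 1027) (.cons (nat_lit 5) .nil .nil) (.cons (nat_lit 1036) (.cons (nat_lit 1161) Uxp21n487 .nil) .nil))
def Uxp21n495 : PT := (.cons (nat_lit 918) (.cons (nat_lit 916) (.cons (nat_lit 1046) (.cons (nat_lit 1043) (.cons (nat_lit 1044) (.cons (nat_lit 1169) Uxp21n214 .nil) .nil) .nil) (.cons (nat_lit 1041) (.cons (nat_lit 1044) Uxp21n168 .nil) .nil)) .nil) .nil)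
def Uxp21n499 : PT := (.cons (nat_lit 771) (.cons (nat_lit 5) .nil .nil) (.cons (nat_lit 780) (.cons (nat_lit 905) (.cons (nat_lit 908) (.cons (nat_lit 1034) Uxp21n490 .nil) .nil) (.cons (nat_lit 914) Uxp21n193 Uxp21n495)) .nil))
def Uxp21n518 : PT := (.cons (nat_lit 1297) (.cons (nat_lit 1300) (.cons (nat_lit 1430) (.cons (nat_lit 1428) (.cons (nat_lit 1554) (.cons (nat_lit 1548) (.cons (nat_lit 1678) (.cons (nat_lit 1676) (.cons (nat_lit 1806) (.cons (nat_lit 1804) (.cons (nat_lit 1930) (.cons (nat_lit 92035) (.cons (nat_lit 1796) (.cons (nat_lit 2054) (.cons (nat_lit 108547) (.cons (nat_lit 2052) (.cons (nat_lit 2182) (.cons (nat_lit 2179) (.cons (nat_lit 75907) (.cons (nat_lit 5) .nil .nil) .nil) .nil) .nil) .nil) .nil) .nil) .nil) .nil) .nil) .nil) .nil) .nil) .nil) .nil) .nil) .nil) .nil) .nil) .nil)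
def Uxp21n522 : PT := (.cons (nat_lit 1044) (.cons (nat_lit 1170) Uxp21n487 (.cons (nat_lit 1174) (.cons (nat_lit 1172) Uxp21n518 .nil) .nil)) .nil)
def Uxp21n528 : PT := (.cons (nat_lit 1164) (.cons (nat_lit 1290) (.cons (nat_lit 1284) (.cons (nat_lit 1414) (.cons (nat_lit 1411) (.cons (nat_lit 66947) (.cons (nat_lit 5) .nil .nil) .nil) .nil) .nil) .nil) .nil) .nil)
def Uxp21n531 : PT := (.cons (nat_lit 1540) (.cons (nat_lit 1670) (.cons (nat_lit 1667) (.cons (nat_lit 67203) (.cons (nat_lit 5) .nil .nil) .nil) .nil) .nil) .nil)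
def Uxp21n537 : PT := (.cons (nat_lit 1172) (.cons (nat_lit 1298) (.cons (nat_lit 1292) (.cons (nat_lit 1418) (.cons (nat_lit 1412) (.cons (nat_lit 1537) Uxp21n531 .nil) .nil) .nil) .nil) .nil) .nil)
def Uxp21n548 : PT := (.cons (nat_lit 1054) (.cons (nat_lit 1051) (.cons (nat_lit 1052) (.cons (nat_lit 1178) Uxp21n214 .nil) .nil) .nil) .nil)
def Uxp21n580 : PT := (.cons (nat_lit 1180) (.cons (nat_lit 1306) (.cons (nat_lit 1300) (.cons (nat_lit 1430) (.cons (nat_lit 1428) (.cons (nat_lit 1558) (.cons (nat_lit 50707) (.cons (nat_lit 1556) (.cons (nat_lit 1686) (.cons (nat_lit 91795) (.cons (nat_lit 1684) (.cons (nat_lit 1810) (.cons (nat_lit 75531) (.cons (nat_lit 908) (.cons (nat_lit 1930) (.cons (nat_lit 1923) (.cons (nat_lit 5) .nil .nil) .nil) .nil) .nil) .nil) .nil) .nil) .nil) .nil) .nil) .nil) .nil) .nil) .nil) .nil) .nil) .nil)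
def Uxp21n598 : PT := (.cons (nat_lit 1298) (.cons (nat_lit 1292) (.cons (nat_lit 1417) (.cons (nat_lit 1420) (.cons (nat_lit 1550) (.cons (nat_lit 42507) Uxp21n92 .nil) .nil) .nil) .nil) .nil) .nil)
def Uxp21n602 : PT := (.cons (nat_lit 1044) (.cons (nat_lit 1170) (.cons (nat_lit 1164) (.cons (nat_lit 1294) (.cons (nat_lit 42251) Uxp21n291 .nil) .nil) .nil) (.cons (nat_lit 1169) (.cons (nat_lit 1172) Uxp21n598 .nil) .nil)) .nil)
def Uxp21n670 : PT := (.cons (nat_lit 1172) (.cons (nat_lit 1302) (.cons (nat_lit 1300) (.cons (nat_lit 1426) (.cons (nat_lit 1420) (.cons (nat_lit 1550) (.cons (nat_lit 1548) (.cons (nat_lit 1678) (.cons (nat_lit 42635) Uxp21n205 .nil) .nil) .nil) .nil) .nil) .nil) .nil) .nil) .nil)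
def Uxp21n675 : PT := (.cons (nat_lit 932) (.cons (nat_lit 1058) (.cons (nat_lit 1051) (.cons (nat_lit 796) (.cons (nat_lit 1178) Uxp21n670 .nil) .nil) .nil) .nil) .nil)
def Uxp21n717 : PT := (.cons (nat_lit 1155) (.cons (nat_lit 33923) (.cons (nat_lit 5) .nil .nil) .nil) (.cons (nat_lit 33931) (.cons (nat_lit 1164) (.cons (nat_lit 1289) Uxp21n291 .nil) .nil) .nil))
def Uxp21n733 : PT := (.cons (nat_lit 1411) (.cons (nat_lit 34179) (.cons (nat_lit 5) .nil .nil) .nil) (.cons (nat_lit 34187) (.cons (nat_lit 1420) (.cons (nat_lit 1545) Uxp21n92 .nil) .nil) .nil))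
def Uxp21n738 : PT := (.cons (nat_lit 1162) (.cons (nat_lit 1156) (.cons (nat_lit 1281) (.cons (nat_lit 1284) (.cons (nat_lit 1414) Uxp21n733 (.cons (nat_lit 1418) (.cons (nat_lit 1412) (.cons (nat_lit 1537) Uxp21n317 .nil) .nil) .nil)) .nil) (.cons (nat_lit 1290) Uxp21n64 .nil)) .nil) .nil)
def Uxp21n767 : PT := (.cons (nat_lit 1667) (.cons (nat_lit 5) .nil .nil) (.cons (nat_lit 1676) (.cons (nat_lit 1801) Uxp21n246 .nil) .nil))
def Uxp21n796 : PT := (.cons (nat_lit 1172) (.cons (nat_lit 1302) (.cons (nat_lit 1300) (.cons (nat_lit 1426) (.cons (nat_lit 1420) (.cons (nat_lit 1550) (.cons (nat_lit 1548) (.cons (nat_lit 1678) (.cons (nat_lit 34443) Uxp21n205 .nil) .nil) .nil) .nil) .nil) .nil) .nil) .nil) .nil)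
def Uxp21n802 : PT := (.cons (nat_lit 930) (.cons (nat_lit 924) (.cons (nat_lit 1050) (.cons (nat_lit 1043) (.cons (nat_lit 660) (.cons (nat_lit 1169) Uxp21n796 .nil) .nil) .nil) .nil) .nil) .nil)
def Uxp21n813 : PT := (.cons (nat_lit 529) (.cons (nat_lit 532) (.cons (nat_lit 658) (.cons (nat_lit 652) (.cons (nat_lit 778) Uxp21n499 (.cons (nat_lit 785) (.cons (nat_lit 788) (.cons (nat_lit 914) (.cons (nat_lit 908) (.cons (nat_lit 1034) Uxp21n490 (.cons (nat_lit 1041) Uxp21n522 (.cons (nat_lit 1046) (.cons (nat_lit 1044) (.cons (nat_lit 1170) Uxp21n528 (.cons (nat_lit 1169) Uxp21n537 .nil)) .nil) .nil))) .nil) (.cons (nat_lit 918) (.cons (nat_lit 916) (.cons (nat_lit 1041) (.cons (nat_lit 1044) Uxp21n168 .nil) (.cons (nat_lit 1050) (.cons (nat_lit 1044) Uxp21n168 .nil) Uxp21n548)) .nil) .nil)) .nil) (.cons (nat_lit 790) (.cons (nat_lit 788) (.cons (nat_lit 914) (.cons (nat_lit 908) (.cons (nat_lit 1034) (.cons (nat_lit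 1028) (.cons (nat_lit 1158) (.cons (nat_lit 1155) (.cons (nat_lit 50307) (.cons (nat_lit 5) .nil .nil) .nil) .nil) Uxp21n268) .nil) (.cons (nat_lit 1041) (.cons (nat_lit 1044) (.cons (nat_lit 1170) Uxp21n234 .nil) .nil) .nil)) .nil) (.cons (nat_lit 913) (.cons (nat_lit 916) (.cons (nat_lit 1042) (.cons (nat_lit 1036) (.cons (nat_lit 1162) (.cons (nat_lit 1156) (.cons (nat_lit 1281) (.cons (nat_lit 1284) (.cons (nat_lit 1414) (.cons (nat_lit 1411) (.cons (nat_lit 50563) (.cons (nat_lit 5) .nil .nil) .nil) .nil) (.cons (nat_lit 1418) (.cons (nat_lit 1412) (.cons (nat_lit 1537) Uxp21n227 .nil) .nil) .nil)) .nil) (.cons (nat_lit 1290) Uxp21n142 .nil)) .nil) Uxp21n241) .nil) Uxp21n262) .nil) (.cons (nat_lit 926) (.cons (nat_lit 924) (.cons (nat_lit 1049) (.cons (nat_lit 1052) (.cons (nat_lit 1182) Uxp21n580 .nil) .nil) .nil) .nil) .nil))) .nil) .nil))) .nil) (.cons (nat_lit 662) (.cons (nat_lit 660) (.cons (nat_lit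 785) (.cons (nat_lit 788) (.cons (nat_lit 930) (.cons (nat_lit 924) (.cons (nat_lit 1050) Uxp21n602 (.cons (nat_lit 1049) (.cons (nat_lit 1052) (.cons (nat_lit 1178) (.cons (nat_lit 1172) (.cons (nat_lit 1297) (.cons (nat_lit 1300) (.cons (nat_lit 1426) (.cons (nat_lit 1420) (.cons (nat_lit 1550) (.cons (nat_lit 42507) Uxp21n92 .nil) .nil) .nil) .nil) .nil) Uxp21n598) .nil) .nil) .nil) .nil)) .nil) (.cons (nat_lit 918) (.cons (nat_lit 916) (.cons (nat_lit 1042) (.cons (nat_lit 1036) (.cons (nat_lit 1166) (.cons (nat_lit 1164) (.cons (nat_lit 1294) (.cons (nat_lit 1292) (.cons (nat_lit 1418) (.cons (nat_lit 58755) (.cons (nat_lit 1284) (.cons (nat_lit 1542) (.cons (nat_lit 75267) (.cons (nat_lit 1540) (.cons (nat_lit 1670) (.cons (nat_lit 1667) (.cons (nat_lit 42627) (.cons (nat_lit 5) .nil .nil) .nil) (.cons (nat_lit 42643) (.cons (nat_lit 1684) (.cons (nat_lit 1810) Uxp21n246 .nil) .nil) .nil)) .nil) .nil) .nil)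 .nil) .nil) .nil) .nil) .nil) .nil) .nil) .nil) .nil) .nil) .nil) .nil)) .nil) (.cons (nat_lit 794) (.cons (nat_lit 788) (.cons (nat_lit 922) (.cons (nat_lit 916) (.cons (nat_lit 1042) Uxp21n296 (.cons (nat_lit 1041) (.cons (nat_lit 1044) (.cons (nat_lit 1170) (.cons (nat_lit 1164) (.cons (nat_lit 1294) (.cons (nat_lit 42251) Uxp21n291 .nil) .nil) .nil) .nil) .nil) .nil)) .nil) (.cons (nat_lit 921) (.cons (nat_lit 924) (.cons (nat_lit 1050) Uxp21n602 .nil) .nil) (.cons (nat_lit 918) (.cons (nat_lit 916) (.cons (nat_lit 1042) (.cons (nat_lit 1036) (.cons (nat_lit 1166) (.cons (nat_lit 1164) (.cons (nat_lit 1294) (.cons (nat_lit 1292) (.cons (nat_lit 1418) (.cons (nat_lit 58755) (.cons (nat_lit 1284) (.cons (nat_lit 1542) (.cons (nat_lit 75267) (.cons (nat_lit 1540) (.cons (nat_lit 1670) (.cons (nat_lit 1667) (.cons (nat_lit 42627) (.cons (nat_lit 5) .nil .nil) .nil) (.cons (nat_lit 42635) (.cons (nat_lit 1676) (.cons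 (nat_lit 1801) Uxp21n246 .nil) .nil) .nil)) .nil) .nil) .nil) .nil) .nil) .nil) .nil) .nil) .nil) .nil) .nil) .nil) .nil) .nil) .nil))) .nil) (.cons (nat_lit 798) (.cons (nat_lit 795) (.cons (nat_lit 796) (.cons (nat_lit 922) Uxp21n18 .nil) .nil) (.cons (nat_lit 804) (.cons (nat_lit 929) Uxp21n675 .nil) .nil)) .nil))) .nil) .nil)) .nil) (.cons (nat_lit 530) (.cons (nat_lit 524) (.cons (nat_lit 649) (.cons (nat_lit 652) (.cons (nat_lit 778) (.cons (nat_lit 771) (.cons (nat_lit 5) .nil .nil) Uxp21n223) Uxp21n278) .nil) (.cons (nat_lit 658) (.cons (nat_lit 652) (.cons (nat_lit 778) (.cons (nat_lit 771) (.cons (nat_lit 5) .nil .nil) (.cons (nat_lit 780) (.cons (nat_lit 905) Uxp21n193 .nil) .nil)) Uxp21n197) .nil) (.cons (nat_lit 662) (.cons (nat_lit 660) (.cons (nat_lit 794) Uxp21n288 (.cons (nat_lit 785) Uxp21n300 (.cons (nat_lit 790) (.cons (nat_lit 787) (.cons (nat_lit 788) (.cons (nat_lit 913) Uxp21n18 (.cons (nat_lit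 922) Uxp21n18 .nil)) .nil) (.cons (nat_lit 796) (.cons (nat_lit 921) (.cons (nat_lit 924) (.cons (nat_lit 1050) (.cons (nat_lit 1043) (.cons (nat_lit 788) (.cons (nat_lit 1169) Uxp21n670 .nil) .nil) .nil) .nil) .nil) .nil) .nil)) .nil))) .nil) .nil))) .nil) (.cons (nat_lit 534) (.cons (nat_lit 532) (.cons (nat_lit 658) (.cons (nat_lit 652) (.cons (nat_lit 778) (.cons (nat_lit 772) (.cons (nat_lit 902) (.cons (nat_lit 899) (.cons (nat_lit 33667) (.cons (nat_lit 5) .nil .nil) .nil) (.cons (nat_lit 33683) (.cons (nat_lit 916) (.cons (nat_lit 1042) Uxp21n283 .nil) .nil) .nil)) (.cons (nat_lit 906) (.cons (nat_lit 900) (.cons (nat_lit 1025) (.cons (nat_lit 1028) (.cons (nat_lit 1158) Uxp21n717 (.cons (nat_lit 1162) (.cons (nat_lit 1156) (.cons (nat_lit 1281) Uxp21n64 .nil) .nil) .nil)) .nil) (.cons (nat_lit 1034) Uxp21n52 .nil)) .nil) (.cons (nat_lit 905) (.cons (nat_lit 908) (.cons (nat_lit 1034) (.cons (nat_lit 1028)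 (.cons (nat_lit 1158) Uxp21n717 Uxp21n83) .nil) .nil) .nil) .nil))) .nil) (.cons (nat_lit 785) (.cons (nat_lit 788) (.cons (nat_lit 914) (.cons (nat_lit 908) (.cons (nat_lit 1034) (.cons (nat_lit 1028) (.cons (nat_lit 1158) Uxp21n717 Uxp21n83) .nil) (.cons (nat_lit 1033) (.cons (nat_lit 1036) Uxp21n738 .nil) .nil)) .nil) .nil) .nil) Uxp21n108)) .nil) (.cons (nat_lit 657) (.cons (nat_lit 660) (.cons (nat_lit 786) (.cons (nat_lit 780) (.cons (nat_lit 906) (.cons (nat_lit 900) (.cons (nat_lit 1025) (.cons (nat_lit 1028) (.cons (nat_lit 1158) (.cons (nat_lit 1155) (.cons (nat_lit 33923) (.cons (nat_lit 5) .nil .nil) .nil) (.cons (nat_lit 33939) (.cons (nat_lit 1172) (.cons (nat_lit 1298) Uxp21n291 .nil) .nil) .nil)) Uxp21n738) .nil) (.cons (nat_lit 1034) (.cons (nat_lit 1028) (.cons (nat_lit 1158) Uxp21n717 Uxp21n83) .nil) .nil)) .nil) (.cons (nat_lit 913) (.cons (nat_lit 916) (.cons (nat_lit 1042) (.cons (nat_lit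 1036) (.cons (nat_lit 1161) (.cons (nat_lit 1164) (.cons (nat_lit 1290) (.cons (nat_lit 1284) (.cons (nat_lit 1414) Uxp21n733 Uxp21n332) .nil) .nil) .nil) Uxp21n738) .nil) .nil) .nil) .nil)) .nil) (.cons (nat_lit 798) (.cons (nat_lit 796) (.cons (nat_lit 922) (.cons (nat_lit 916) (.cons (nat_lit 1046) (.cons (nat_lit 1044) (.cons (nat_lit 1174) (.cons (nat_lit 1172) (.cons (nat_lit 1298) (.cons (nat_lit 50443) (.cons (nat_lit 1164) (.cons (nat_lit 1422) (.cons (nat_lit 66955) (.cons (nat_lit 1420) (.cons (nat_lit 1550) (.cons (nat_lit 34315) (.cons (nat_lit 1548) (.cons (nat_lit 1674) Uxp21n767 .nil) .nil) .nil) .nil) .nil) .nil) .nil) .nil) .nil) .nil) .nil) .nil) .nil) .nil) .nil) .nil) .nil) .nil)) .nil) (.cons (nat_lit 670) (.cons (nat_lit 668) (.cons (nat_lit 793) (.cons (nat_lit 796) (.cons (nat_lit 926) Uxp21n124 Uxp21n802) .nil) Uxp21n368) .nil) .nil))) .nil) .nil)))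
def Uxp21n818 : PT := (.cons (nat_lit 25611) (.cons (nat_lit 1036) (.cons (nat_lit 1162) (.cons (nat_lit 1155) (.cons (nat_lit 5) .nil .nil) .nil) (.cons (nat_lit 1169) (.cons (nat_lit 1172) (.cons (nat_lit 1298) Uxp21n291 .nil) .nil) .nil)) .nil) .nil)
def Uxp21n820 : PT := (.cons (nat_lit 908) (.cons (nat_lit 1038) Uxp21n818 (.cons (nat_lit 1041) (.cons (nat_lit 1044) Uxp21n428 .nil) Uxp21n397)) .nil)
def Uxp21n824 : PT := (.cons (nat_lit 25867) (.cons (nat_lit 1292) (.cons (nat_lit 1418) (.cons (nat_lit 1411) (.cons (nat_lit 5) .nil .nil) .nil) (.cons (nat_lit 1425) (.cons (nat_lit 1428) (.cons (nat_lit 1554) Uxp21n92 .nil) .nil) .nil)) .nil) .nil)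
def Uxp21n830 : PT := (.cons (nat_lit 1298) (.cons (nat_lit 1292) (.cons (nat_lit 1417) (.cons (nat_lit 1420) (.cons (nat_lit 1550) (.cons (nat_lit 26123) Uxp21n92 .nil) .nil) .nil) .nil) .nil) .nil)
def Uxp21n835 : PT := (.cons (nat_lit 1042) (.cons (nat_lit 1036) (.cons (nat_lit 1161) (.cons (nat_lit 1164) (.cons (nat_lit 1294) Uxp21n824 Uxp21n830) .nil) Uxp21n428) .nil) .nil)
def Uxp21n839 : PT := (.cons (nat_lit 788) (.cons (nat_lit 914) Uxp21n820 (.cons (nat_lit 913) (.cons (nat_lit 916) Uxp21n835 .nil) .nil)) .nil)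
def Uxp21n842 : PT := (.cons (nat_lit 1297) (.cons (nat_lit 1300) (.cons (nat_lit 1426) (.cons (nat_lit 1420) (.cons (nat_lit 1550) (.cons (nat_lit 26123) Uxp21n92 .nil) .nil) .nil) .nil) .nil) Uxp21n830)
def Uxp21n917 : PT := (.cons (nat_lit 916) (.cons (nat_lit 1046) (.cons (nat_lit 1044) (.cons (nat_lit 1170) (.cons (nat_lit 1164) (.cons (nat_lit 1294) (.cons (nat_lit 1292) (.cons (nat_lit 1422) (.cons (nat_lit 25995) Uxp21n9 .nil) .nil) .nil) .nil) .nil) .nil) .nil) .nil) .nil)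
def Uxp21n923 : PT := (.cons (nat_lit 682) (.cons (nat_lit 676) (.cons (nat_lit 802) (.cons (nat_lit 795) (.cons (nat_lit 540) (.cons (nat_lit 922) Uxp21n917 .nil) .nil) .nil) .nil) .nil) .nil)
def Uxp21n943 : PT := (.cons (nat_lit 1164) (.cons (nat_lit 1290) (.cons (nat_lit 1284) (.cons (nat_lit 1414) (.cons (nat_lit 1411) (.cons (nat_lit 17795) (.cons (nat_lit 5) .nil .nil) .nil) .nil) .nil) .nil) .nil) .nil)
def Uxp21n946 : PT := (.cons (nat_lit 1028) (.cons (nat_lit 1158) (.cons (nat_lit 1155) (.cons (nat_lit 17539) (.cons (nat_lit 5) .nil .nil) .nil) .nil) (.cons (nat_lit 1161) Uxp21n943 .nil)) .nil)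
def Uxp21n952 : PT := (.cons (nat_lit 908) (.cons (nat_lit 1034) (.cons (nat_lit 1028) (.cons (nat_lit 1158) (.cons (nat_lit 1155) (.cons (nat_lit 17539) (.cons (nat_lit 5) .nil .nil) .nil) .nil) .nil) .nil) .nil) .nil)
def Uxp21n956 : PT := (.cons (nat_lit 772) (.cons (nat_lit 902) (.cons (nat_lit 899) (.cons (nat_lit 17283) (.cons (nat_lit 5) .nil .nil) .nil) .nil) (.cons (nat_lit 905) (.cons (nat_lit 908) (.cons (nat_lit 1034) Uxp21n946 .nil) .nil) (.cons (nat_lit 914) Uxp21n952 .nil))) .nil)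
def Uxp21n997 : PT := (.cons (nat_lit 542) (.cons (nat_lit 540) (.cons (nat_lit 666) (.cons (nat_lit 660) (.cons (nat_lit 790) (.cons (nat_lit 788) (.cons (nat_lit 918) (.cons (nat_lit 916) (.cons (nat_lit 1042) (.cons (nat_lit 33803) (.cons (nat_lit 908) (.cons (nat_lit 1166) (.cons (nat_lit 50315) (.cons (nat_lit 1164) (.cons (nat_lit 1294) (.cons (nat_lit 17675) Uxp21n291 .nil) .nil) .nil) .nil) .nil) .nil) .nil) .nil) .nil) .nil) .nil) .nil) .nil) .nil) .nil) .nil)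
def Uxp21n1023 : PT := (.cons (nat_lit 1172) (.cons (nat_lit 1302) (.cons (nat_lit 1300) (.cons (nat_lit 1426) (.cons (nat_lit 1420) (.cons (nat_lit 1550) (.cons (nat_lit 1548) (.cons (nat_lit 1678) (.cons (nat_lit 50827) Uxp21n205 .nil) .nil) .nil) .nil) .nil) .nil) .nil) .nil) .nil)
def Uxp21n1038 : PT := (.cons (nat_lit 1796) (.cons (nat_lit 1921) (.cons (nat_lit 1923) (.cons (nat_lit 5) .nil .nil) .nil) .nil) .nil)
def Uxp21n1055 : PT := (.cons (nat_lit 1041) (.cons (nat_lit 1044) (.cons (nat_lit 1170) Uxp21n234 .nil) .nil) (.cons (nat_lit 1046) (.cons (nat_lit 1044) (.cons (nat_lit 1170) (.cons (nat_lit 1164) (.cons (nat_lit 1294) (.cons (nat_lit 1292) (.cons (nat_lit 1422) (.cons (nat_lit 1420) (.cons (nat_lit 1546) (.cons (nat_lit 67075) (.cons (nat_lit 1412) (.cons (nat_lit 1670) (.cons (nat_lit 83587) (.cons (nat_lit 1668) (.cons (nat_lit 1798) (.cons (nat_lit 50947) Uxp21n1038 .nil) .nil) .nil) .nil)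 .nil) .nil) .nil) .nil) .nil) .nil) .nil) .nil) .nil) .nil) .nil) .nil))
def Uxp21n1071 : PT := (.cons (nat_lit 1284) (.cons (nat_lit 1409) (.cons (nat_lit 1411) (.cons (nat_lit 5) .nil .nil) .nil) .nil) .nil)
def Uxp21n1077 : PT := (.cons (nat_lit 1162) (.cons (nat_lit 1156) (.cons (nat_lit 1286) (.cons (nat_lit 42243) Uxp21n1071 .nil) .nil) .nil) .nil)
def Uxp21n1084 : PT := (.cons (nat_lit 1540) (.cons (nat_lit 1665) (.cons (nat_lit 1667) (.cons (nat_lit 5) .nil .nil) .nil) .nil) .nil)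
def Uxp21n1089 : PT := (.cons (nat_lit 1284) (.cons (nat_lit 1409) (.cons (nat_lit 1412) (.cons (nat_lit 1542) (.cons (nat_lit 42499) Uxp21n1084 .nil) .nil) .nil) .nil) .nil)
def Uxp21n1104 : PT := (.cons (nat_lit 1418) (.cons (nat_lit 1412) (.cons (nat_lit 1542) (.cons (nat_lit 42499) Uxp21n1084 .nil) .nil) .nil) .nil)
def Uxp21n1165 : PT := (.cons (nat_lit 1156) (.cons (nat_lit 1281) (.cons (nat_lit 1283) (.cons (nat_lit 5) .nil .nil) .nil) .nil) .nil)
def Uxp21n1168 : PT := (.cons (nat_lit 1027) (.cons (nat_lit 5) .nil .nil) (.cons (nat_lit 1036) (.cons (nat_lit 1162) Uxp21n1165 (.cons (nat_lit 1161) Uxp21n487 .nil)) .nil))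
def Uxp21n1180 : PT := (.cons (nat_lit 1932) (.cons (nat_lit 2062) (.cons (nat_lit 116747) (.cons (nat_lit 2060) (.cons (nat_lit 2186) (.cons (nat_lit 100483) (.cons (nat_lit 5) .nil .nil) .nil) .nil) .nil) .nil) .nil) .nil)
def Uxp21n1189 : PT := (.cons (nat_lit 1428) (.cons (nat_lit 1558) (.cons (nat_lit 1556) (.cons (nat_lit 1682) (.cons (nat_lit 1676) (.cons (nat_lit 1806) (.cons (nat_lit 1804) (.cons (nat_lit 1934) (.cons (nat_lit 67467) Uxp21n1180 .nil) .nil) .nil) .nil) .nil) .nil) .nil) .nil) .nil)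
def Uxp21n1199 : PT := (.cons (nat_lit 1046) (.cons (nat_lit 1044) (.cons (nat_lit 1170) Uxp21n528 (.cons (nat_lit 1169) Uxp21n537 (.cons (nat_lit 1174) (.cons (nat_lit 1172) (.cons (nat_lit 1297) (.cons (nat_lit 1299) (.cons (nat_lit 1172) (.cons (nat_lit 1425) Uxp21n1189 .nil) .nil) .nil) .nil) .nil) .nil))) .nil) .nil)
def Uxp21n1208 : PT := (.cons (nat_lit 1418) (.cons (nat_lit 1412) (.cons (nat_lit 1542) (.cons (nat_lit 58883) Uxp21n1084 .nil) .nil) .nil) .nil)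
def Uxp21n1211 : PT := (.cons (nat_lit 1290) (.cons (nat_lit 1284) (.cons (nat_lit 1409) (.cons (nat_lit 1412) (.cons (nat_lit 1542) (.cons (nat_lit 58883) Uxp21n1084 .nil) .nil) .nil) .nil) .nil) (.cons (nat_lit 1289) (.cons (nat_lit 1292) Uxp21n1208 .nil) .nil))
def Uxp21n1218 : PT := (.cons (nat_lit 1546) (.cons (nat_lit 1540) (.cons (nat_lit 1665) (.cons (nat_lit 1668) (.cons (nat_lit 1798) (.cons (nat_lit 59139) Uxp21n1038 .nil) .nil) .nil) .nil) .nil) .nil)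
def Uxp21n1222 : PT := (.cons (nat_lit 1292) (.cons (nat_lit 1418) (.cons (nat_lit 1412) (.cons (nat_lit 1542) (.cons (nat_lit 58883) Uxp21n1084 .nil) .nil) .nil) (.cons (nat_lit 1417) (.cons (nat_lit 1420) Uxp21n1218 .nil) .nil)) .nil)
def Uxp21n1234 : PT := (.cons (nat_lit 1297) (.cons (nat_lit 1300) (.cons (nat_lit 1426) (.cons (nat_lit 1420) (.cons (nat_lit 1545) (.cons (nat_lit 1548) (.cons (nat_lit 1674) (.cons (nat_lit 1668) (.cons (nat_lit 1798) (.cons (nat_lit 59139) Uxp21n1038 .nil) .nil) .nil) .nil) .nil) Uxp21n1218) .nil) .nil) .nil) .nil)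
def Uxp21n1239 : PT := (.cons (nat_lit 2052) (.cons (nat_lit 2177) (.cons (nat_lit 2179) (.cons (nat_lit 5) .nil .nil) .nil) .nil) .nil)
def Uxp21n1258 : PT := (.cons (nat_lit 1174) (.cons (nat_lit 1172) (.cons (nat_lit 1298) (.cons (nat_lit 1292) (.cons (nat_lit 1422) (.cons (nat_lit 1420) (.cons (nat_lit 1550) (.cons (nat_lit 1548) (.cons (nat_lit 1674) (.cons (nat_lit 75395) (.cons (nat_lit 1540) (.cons (nat_lit 1798) (.cons (nat_lit 91907) (.cons (nat_lit 1796) (.cons (nat_lit 1926) (.cons (nat_lit 1923) (.cons (nat_lit 59267) (.cons (nat_lit 5) .nil .nil) .nil) (.cons (nat_lit 59275) (.cons (nat_lit 1932) (.cons (nat_lit 2058) Uxp21n1239 .nil) .nil) .nil)) .nil) .nil) .nil) .nil) .nil) .nil) .nil) .nil) .nil) .nil) .nil) .nil) .nil) .nil) .nil)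
def Uxp21n1264 : PT := (.cons (nat_lit 918) (.cons (nat_lit 916) (.cons (nat_lit 1050) (.cons (nat_lit 1044) (.cons (nat_lit 1170) (.cons (nat_lit 1164) Uxp21n1211 .nil) (.cons (nat_lit 1169) (.cons (nat_lit 1172) (.cons (nat_lit 1298) Uxp21n1222 .nil) .nil) Uxp21n168)) .nil) (.cons (nat_lit 1041) (.cons (nat_lit 1044) (.cons (nat_lit 1178) (.cons (nat_lit 1172) (.cons (nat_lit 1298) Uxp21n1222 Uxp21n1234) .nil) Uxp21n1258) .nil) Uxp21n548)) .nil) .nil)
def Uxp21n1274 : PT := (.cons (nat_lit 908) (.cons (nat_lit 1034) (.cons (nat_lit 1028) (.cons (nat_lit 1158) (.cons (nat_lit 1155) (.cons (nat_lit 50307) (.cons (nat_lit 5) .nil .nil) .nil) (.cons (nat_lit 50315) (.cons (nat_lit 1164) (.cons (nat_lit 1290) Uxp21n1071 .nil) .nil) .nil)) Uxp21n268) .nil) Uxp21n1055) .nil)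
def Uxp21n1286 : PT := (.cons (nat_lit 916) (.cons (nat_lit 1042) (.cons (nat_lit 1036) (.cons (nat_lit 1162) (.cons (nat_lit 1156) (.cons (nat_lit 1281) (.cons (nat_lit 1284) (.cons (nat_lit 1414) (.cons (nat_lit 1411) (.cons (nat_lit 50563) (.cons (nat_lit 5) .nil .nil) .nil) (.cons (nat_lit 50571) (.cons (nat_lit 1420) (.cons (nat_lit 1546) Uxp21n1084 .nil) .nil) .nil)) (.cons (nat_lit 1418) (.cons (nat_lit 1412) (.cons (nat_lit 1537) Uxp21n227 .nil) .nil) .nil)) .nil) (.cons (nat_lit 1290) Uxp21n142 .nil)) .nil) Uxp21n241) .nil) Uxp21n262) .nil)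
def Uxp21n1301 : PT := (.cons (nat_lit 1284) (.cons (nat_lit 1409) (.cons (nat_lit 1411) (.cons (nat_lit 5) .nil .nil) .nil) (.cons (nat_lit 1418) (.cons (nat_lit 1411) (.cons (nat_lit 5) .nil .nil) .nil) .nil)) .nil)
def Uxp21n1310 : PT := (.cons (nat_lit 1156) (.cons (nat_lit 1286) (.cons (nat_lit 42243) Uxp21n1301 .nil) (.cons (nat_lit 1290) Uxp21n1089 (.cons (nat_lit 1289) (.cons (nat_lit 1292) Uxp21n1104 .nil) .nil))) .nil)
def Uxp21n1317 : PT := (.cons (nat_lit 1540) (.cons (nat_lit 1665) (.cons (nat_lit 1667) (.cons (nat_lit 5) .nil .nil) .nil) (.cons (nat_lit 1674) (.cons (nat_lit 1667) (.cons (nat_lit 5) .nil .nil) .nil) .nil)) .nil)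
def Uxp21n1323 : PT := (.cons (nat_lit 1540) (.cons (nat_lit 1665) (.cons (nat_lit 1668) (.cons (nat_lit 1798) (.cons (nat_lit 42755) Uxp21n1038 .nil) .nil) .nil) .nil) .nil)
def Uxp21n1329 : PT := (.cons (nat_lit 1290) (.cons (nat_lit 1284) (.cons (nat_lit 1409) (.cons (nat_lit 1412) (.cons (nat_lit 1542) (.cons (nat_lit 42499) Uxp21n1317 .nil) (.cons (nat_lit 1546) Uxp21n1323 .nil)) .nil) Uxp21n1104) .nil) .nil)
def Uxp21n1333 : PT := (.cons (nat_lit 1036) (.cons (nat_lit 1162) Uxp21n1310 (.cons (nat_lit 1161) (.cons (nat_lit 1164) Uxp21n1329 .nil) .nil)) .nil)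
def Uxp21n1354 : PT := (.cons (nat_lit 918) (.cons (nat_lit 916) (.cons (nat_lit 1042) (.cons (nat_lit 1036) (.cons (nat_lit 1166) (.cons (nat_lit 1164) (.cons (nat_lit 1294) (.cons (nat_lit 1292) (.cons (nat_lit 1418) (.cons (nat_lit 58755) (.cons (nat_lit 1284) (.cons (nat_lit 1542) (.cons (nat_lit 75267) (.cons (nat_lit 1540) (.cons (nat_lit 1670) (.cons (nat_lit 1667) (.cons (nat_lit 42627) (.cons (nat_lit 5) .nil .nil) .nil) (.cons (nat_lit 42635) (.cons (nat_lit 1676) (.cons (nat_lit 1802) Uxp21n1038 (.cons (nat_lit 1801) Uxp21n246 .nil)) .nil) .nil)) .nil) .nil) .nil) .nil) .nil) .nil) .nil) .nil) .nil) .nil) .nil) .nil) .nil) .nil) .nil)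
def Uxp21n1361 : PT := (.cons (nat_lit 1546) Uxp21n1323 (.cons (nat_lit 1545) (.cons (nat_lit 1548) (.cons (nat_lit 1674) (.cons (nat_lit 1668) (.cons (nat_lit 1798) (.cons (nat_lit 42755) Uxp21n1038 .nil) .nil) .nil) .nil) .nil) .nil))
def Uxp21n1374 : PT := (.cons (nat_lit 1796) (.cons (nat_lit 1921) (.cons (nat_lit 1923) (.cons (nat_lit 5) .nil .nil) .nil) (.cons (nat_lit 1930) (.cons (nat_lit 1923) (.cons (nat_lit 5) .nil .nil) .nil) .nil)) .nil)
def Uxp21n1398 : PT := (.cons (nat_lit 930) (.cons (nat_lit 924) (.cons (nat_lit 1049) (.cons (nat_lit 1051) (.cons (nat_lit 796) (.cons (nat_lit 1178) Uxp21n670 .nil) .nil) .nil) .nil) .nil) .nil)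
def Uxp21n1418 : PT := (.cons (nat_lit 1155) (.cons (nat_lit 33923) (.cons (nat_lit 5) .nil .nil) .nil) (.cons (nat_lit 33931) (.cons (nat_lit 1164) (.cons (nat_lit 1289) Uxp21n291 (.cons (nat_lit 1290) Uxp21n1071 .nil)) .nil) .nil))
def Uxp21n1424 : PT := (.cons (nat_lit 1162) (.cons (nat_lit 1156) (.cons (nat_lit 1281) Uxp21n64 .nil) .nil) (.cons (nat_lit 1161) (.cons (nat_lit 1164) (.cons (nat_lit 1290) Uxp21n64 .nil) .nil) .nil))
def Uxp21n1435 : PT := (.cons (nat_lit 33931) (.cons (nat_lit 1164) (.cons (nat_lit 1290) Uxp21n1071 (.cons (nat_lit 1289) Uxp21n291 .nil)) .nil) .nil)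
def Uxp21n1438 : PT := (.cons (nat_lit 1028) (.cons (nat_lit 1158) (.cons (nat_lit 1155) (.cons (nat_lit 33923) (.cons (nat_lit 5) .nil .nil) .nil) Uxp21n1435) Uxp21n1424) .nil)
def Uxp21n1447 : PT := (.cons (nat_lit 1162) (.cons (nat_lit 1156) (.cons (nat_lit 1281) (.cons (nat_lit 1284) (.cons (nat_lit 1414) (.cons (nat_lit 1411) (.cons (nat_lit 34179) (.cons (nat_lit 5) .nil .nil) .nil) (.cons (nat_lit 34187) (.cons (nat_lit 1420) (.cons (nat_lit 1545) Uxp21n92 (.cons (nat_lit 1546) Uxp21n1084 .nil)) .nil) .nil)) (.cons (nat_lit 1418) (.cons (nat_lit 1412) (.cons (nat_lit 1537) Uxp21n317 .nil) .nil) .nil)) .nil) (.cons (nat_lit 1290) Uxp21n64 .nil)) .nil) .nil)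
def Uxp21n1484 : PT := (.cons (nat_lit 34187) (.cons (nat_lit 1420) (.cons (nat_lit 1546) Uxp21n1084 (.cons (nat_lit 1545) Uxp21n92 .nil)) .nil) .nil)
def Uxp21n1504 : PT := (.cons (nat_lit 1667) (.cons (nat_lit 5) .nil .nil) (.cons (nat_lit 1676) (.cons (nat_lit 1802) Uxp21n1038 (.cons (nat_lit 1801) Uxp21n246 .nil)) .nil))
def Uxp21n1551 : PT := (.cons (nat_lit 529) (.cons (nat_lit 532) (.cons (nat_lit 658) (.cons (nat_lit 652) (.cons (nat_lit 778) (.cons (nat_lit 771) (.cons (nat_lit 5) .nil .nil) (.cons (nat_lit 780) (.cons (nat_lit 906) (.cons (nat_lit 900) (.cons (nat_lit 1025) (.cons (nat_lit 1027) (.cons (nat_lit 5) .nil .nil) .nil) (.cons (nat_lit 1034) (.cons (nat_lit 1027) (.cons (nat_lit 5) .nil .nil) .nil) .nil)) .nil) (.cons (nat_lit 905) (.cons (nat_lit 908) (.cons (nat_lit 1034) Uxp21n1168 .nil) .nil) Uxp21n495)) .nil)) (.cons (nat_lit 785) (.cons (nat_lit 788) (.cons (nat_lit 914) (.cons (nat_lit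 908) (.cons (nat_lit 1034) Uxp21n1168 (.cons (nat_lit 1041) Uxp21n522 Uxp21n1199)) .nil) Uxp21n1264) .nil) (.cons (nat_lit 790) (.cons (nat_lit 788) (.cons (nat_lit 914) Uxp21n1274 (.cons (nat_lit 913) Uxp21n1286 (.cons (nat_lit 918) (.cons (nat_lit 916) (.cons (nat_lit 1041) (.cons (nat_lit 1043) (.cons (nat_lit 916) (.cons (nat_lit 1169) Uxp21n1023 (.cons (nat_lit 1178) Uxp21n1023 .nil)) .nil) (.cons (nat_lit 1052) (.cons (nat_lit 1182) Uxp21n580 .nil) .nil)) .nil) .nil) .nil))) .nil) .nil))) .nil) (.cons (nat_lit 662) (.cons (nat_lit 660) (.cons (nat_lit 794) (.cons (nat_lit 788) (.cons (nat_lit 914) (.cons (nat_lit 908) (.cons (nat_lit 1034) (.cons (nat_lit 1028) (.cons (nat_lit 1153) (.cons (nat_lit 1156) (.cons (nat_lit 1286) (.cons (nat_lit 42243) Uxp21n1301 .nil) (.cons (nat_lit 1290) Uxp21n1089 .nil)) .nil) Uxp21n1077) .nil) (.cons (nat_lit 1033) (.cons (nat_lit 1036) (.cons (nat_lit 1162) Uxp21n1310 .nil)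 .nil) .nil)) .nil) (.cons (nat_lit 913) (.cons (nat_lit 916) (.cons (nat_lit 1042) Uxp21n1333 .nil) .nil) Uxp21n1354)) .nil) (.cons (nat_lit 785) (.cons (nat_lit 788) (.cons (nat_lit 922) (.cons (nat_lit 916) (.cons (nat_lit 1042) Uxp21n1333 (.cons (nat_lit 1041) (.cons (nat_lit 1044) (.cons (nat_lit 1170) (.cons (nat_lit 1164) (.cons (nat_lit 1289) (.cons (nat_lit 1292) (.cons (nat_lit 1418) (.cons (nat_lit 1412) (.cons (nat_lit 1542) (.cons (nat_lit 42499) Uxp21n1317 .nil) Uxp21n1361) .nil) .nil) .nil) Uxp21n1329) .nil) .nil) .nil) .nil)) .nil) (.cons (nat_lit 918) (.cons (nat_lit 916) (.cons (nat_lit 1042) (.cons (nat_lit 1036) (.cons (nat_lit 1166) (.cons (nat_lit 1164) (.cons (nat_lit 1294) (.cons (nat_lit 1292) (.cons (nat_lit 1418) (.cons (nat_lit 58755) (.cons (nat_lit 1284) (.cons (nat_lit 1542) (.cons (nat_lit 75267) (.cons (nat_lit 1540) (.cons (nat_lit 1670) (.cons (nat_lit 1667) (.cons (nat_lit 42627)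 (.cons (nat_lit 5) .nil .nil) .nil) (.cons (nat_lit 42635) (.cons (nat_lit 1676) (.cons (nat_lit 1802) Uxp21n1374 .nil) .nil) .nil)) .nil) .nil) .nil) .nil) .nil) .nil) .nil) .nil) .nil) .nil) .nil) .nil) .nil) .nil) .nil)) .nil) (.cons (nat_lit 798) (.cons (nat_lit 795) (.cons (nat_lit 796) (.cons (nat_lit 922) Uxp21n18 .nil) .nil) (.cons (nat_lit 804) (.cons (nat_lit 929) Uxp21n675 Uxp21n1398) .nil)) .nil))) .nil) .nil)) .nil) (.cons (nat_lit 534) (.cons (nat_lit 532) (.cons (nat_lit 658) (.cons (nat_lit 652) (.cons (nat_lit 778) (.cons (nat_lit 772) (.cons (nat_lit 902) (.cons (nat_lit 899) (.cons (nat_lit 33667) (.cons (nat_lit 5) .nil .nil) .nil) (.cons (nat_lit 33675) (.cons (nat_lit 908) (.cons (nat_lit 1034) (.cons (nat_lit 1028) (.cons (nat_lit 1153) (.cons (nat_lit 1155) (.cons (nat_lit 5) .nil .nil) .nil) (.cons (nat_lit 1162) (.cons (nat_lit 1155) (.cons (nat_lit 5) .nil .nil) .nil) .nil)) .nil) .nil)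 .nil) .nil)) (.cons (nat_lit 906) (.cons (nat_lit 900) (.cons (nat_lit 1025) (.cons (nat_lit 1028) (.cons (nat_lit 1158) Uxp21n1418 (.cons (nat_lit 1162) (.cons (nat_lit 1156) (.cons (nat_lit 1281) Uxp21n64 .nil) .nil) .nil)) .nil) (.cons (nat_lit 1034) Uxp21n52 .nil)) .nil) (.cons (nat_lit 905) (.cons (nat_lit 908) (.cons (nat_lit 1034) (.cons (nat_lit 1028) (.cons (nat_lit 1158) Uxp21n1418 Uxp21n1424) .nil) .nil) .nil) .nil))) .nil) (.cons (nat_lit 785) (.cons (nat_lit 788) (.cons (nat_lit 914) (.cons (nat_lit 908) (.cons (nat_lit 1034) Uxp21n1438 (.cons (nat_lit 1033) (.cons (nat_lit 1036) Uxp21n1447 .nil) .nil)) .nil) .nil) .nil) (.cons (nat_lit 790) (.cons (nat_lit 788) (.cons (nat_lit 914) (.cons (nat_lit 908) (.cons (nat_lit 1038) (.cons (nat_lit 1036) (.cons (nat_lit 1166) (.cons (nat_lit 1164) (.cons (nat_lit 1290) (.cons (nat_lit 50435) (.cons (nat_lit 1156) (.cons (nat_lit 1414) (.cons (nat_lit 66947)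 (.cons (nat_lit 1412) (.cons (nat_lit 1542) (.cons (nat_lit 34307) Uxp21n1317 .nil) .nil) .nil) .nil) .nil) .nil) .nil) .nil) .nil) .nil) .nil) .nil) .nil) .nil) .nil) .nil))) .nil) (.cons (nat_lit 657) (.cons (nat_lit 660) (.cons (nat_lit 786) (.cons (nat_lit 780) (.cons (nat_lit 906) (.cons (nat_lit 900) (.cons (nat_lit 1025) (.cons (nat_lit 1028) (.cons (nat_lit 1158) (.cons (nat_lit 1155) (.cons (nat_lit 33923) (.cons (nat_lit 5) .nil .nil) .nil) (.cons (nat_lit 33931) (.cons (nat_lit 1164) (.cons (nat_lit 1290) Uxp21n1301 .nil) .nil) .nil)) Uxp21n1447) .nil) (.cons (nat_lit 1034) Uxp21n1438 .nil)) .nil) (.cons (nat_lit 913) (.cons (nat_lit 916) (.cons (nat_lit 1042) (.cons (nat_lit 1036) (.cons (nat_lit 1162) (.cons (nat_lit 1156) (.cons (nat_lit 1281) (.cons (nat_lit 1284) (.cons (nat_lit 1414) (.cons (nat_lit 1411) (.cons (nat_lit 34179) (.cons (nat_lit 5) .nil .nil) .nil) Uxp21n1484) (.cons (nat_lit 1418)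 (.cons (nat_lit 1412) (.cons (nat_lit 1537) Uxp21n317 .nil) .nil) .nil)) .nil) (.cons (nat_lit 1290) Uxp21n64 .nil)) .nil) (.cons (nat_lit 1161) (.cons (nat_lit 1164) (.cons (nat_lit 1290) (.cons (nat_lit 1284) (.cons (nat_lit 1414) (.cons (nat_lit 1411) (.cons (nat_lit 34179) (.cons (nat_lit 5) .nil .nil) .nil) Uxp21n1484) (.cons (nat_lit 1418) (.cons (nat_lit 1412) (.cons (nat_lit 1537) Uxp21n317 .nil) .nil) (.cons (nat_lit 1417) (.cons (nat_lit 1420) (.cons (nat_lit 1546) Uxp21n317 .nil) .nil) .nil))) .nil) .nil) .nil) .nil)) .nil) .nil) .nil) .nil)) .nil) (.cons (nat_lit 798) (.cons (nat_lit 796) (.cons (nat_lit 922) (.cons (nat_lit 916) (.cons (nat_lit 1046) (.cons (nat_lit 1044) (.cons (nat_lit 1174) (.cons (nat_lit 1172) (.cons (nat_lit 1298) (.cons (nat_lit 50443) (.cons (nat_lit 1164) (.cons (nat_lit 1422) (.cons (nat_lit 66955) (.cons (nat_lit 1420) (.cons (nat_lit 1550) (.cons (nat_lit 34315) (.cons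 (nat_lit 1548) (.cons (nat_lit 1674) Uxp21n1504 .nil) .nil) .nil) .nil) .nil) .nil) .nil) .nil) .nil) .nil) .nil) .nil) .nil) .nil) .nil) .nil) .nil) .nil)) .nil) (.cons (nat_lit 662) (.cons (nat_lit 660) (.cons (nat_lit 785) (.cons (nat_lit 787) (.cons (nat_lit 660) (.cons (nat_lit 913) Uxp21n364 (.cons (nat_lit 922) Uxp21n364 .nil)) .nil) (.cons (nat_lit 796) (.cons (nat_lit 926) (.cons (nat_lit 924) (.cons (nat_lit 1050) (.cons (nat_lit 1044) (.cons (nat_lit 1174) (.cons (nat_lit 1172) (.cons (nat_lit 1302) (.cons (nat_lit 34067) (.cons (nat_lit 1300) (.cons (nat_lit 1430) (.cons (nat_lit 75155) (.cons (nat_lit 1428) (.cons (nat_lit 1554) (.cons (nat_lit 58891) (.cons (nat_lit 652) (.cons (nat_lit 1674) Uxp21n767 .nil) .nil) .nil) .nil) .nil) .nil) .nil) .nil) .nil) .nil) .nil) .nil) .nil) .nil) .nil) Uxp21n802) .nil)) Uxp21n368) .nil) .nil))) .nil) .nil))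
def Uxp21n1576 : PT := (.cons (nat_lit 1428) (.cons (nat_lit 1558) (.cons (nat_lit 1556) (.cons (nat_lit 1682) (.cons (nat_lit 1676) (.cons (nat_lit 1806) (.cons (nat_lit 1804) (.cons (nat_lit 1934) (.cons (nat_lit 51083) Uxp21n1180 .nil) .nil) .nil) .nil) .nil) .nil) .nil) .nil) .nil)
def Uxp21n1598 : PT := (.cons (nat_lit 1412) (.cons (nat_lit 1537) (.cons (nat_lit 1539) (.cons (nat_lit 5) .nil .nil) .nil) .nil) .nil)
def Uxp21n1603 : PT := (.cons (nat_lit 1156) (.cons (nat_lit 1281) (.cons (nat_lit 1283) (.cons (nat_lit 5) .nil .nil) (.cons (nat_lit 1292) (.cons (nat_lit 1418) Uxp21n1598 .nil) .nil)) (.cons (nat_lit 1290) (.cons (nat_lit 1283) (.cons (nat_lit 5) .nil .nil) .nil) .nil)) .nil)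
def Uxp21n1639 : PT := (.cons (nat_lit 1796) (.cons (nat_lit 1926) (.cons (nat_lit 1923) (.cons (nat_lit 67459) (.cons (nat_lit 5) .nil .nil) .nil) .nil) .nil) .nil)
def Uxp21n1646 : PT := (.cons (nat_lit 1420) (.cons (nat_lit 1546) Uxp21n531 (.cons (nat_lit 1545) (.cons (nat_lit 1548) (.cons (nat_lit 1674) (.cons (nat_lit 1668) (.cons (nat_lit 1793) Uxp21n1639 .nil) .nil) .nil) .nil) .nil)) .nil)
def Uxp21n1657 : PT := (.cons (nat_lit 2060) (.cons (nat_lit 2186) (.cons (nat_lit 2179) (.cons (nat_lit 5) .nil .nil) .nil) .nil) .nil)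
def Uxp21n1767 : PT := (.cons (nat_lit 905) (.cons (nat_lit 908) (.cons (nat_lit 1034) (.cons (nat_lit 1027) (.cons (nat_lit 5) .nil .nil) (.cons (nat_lit 1036) (.cons (nat_lit 1162) Uxp21n1603 (.cons (nat_lit 1161) (.cons (nat_lit 1164) (.cons (nat_lit 1290) (.cons (nat_lit 1283) (.cons (nat_lit 5) .nil .nil) (.cons (nat_lit 1292) (.cons (nat_lit 1418) Uxp21n1598 (.cons (nat_lit 1417) (.cons (nat_lit 1420) (.cons (nat_lit 1546) (.cons (nat_lit 1539) (.cons (nat_lit 5) .nil .nil) .nil) .nil) .nil) .nil)) .nil)) .nil) .nil) (.cons (nat_lit 1174) (.cons (nat_lit 1172) (.cons (nat_lit 1302) (.cons (nat_lit 1299) (.cons (nat_lit 1300) (.cons (nat_lit 1425) (.cons (nat_lit 1428) (.cons (nat_lit 1558) (.cons (nat_lit 1556) (.cons (nat_lit 1682) (.cons (nat_lit 1676) (.cons (nat_lit 1806) (.cons (nat_lit 1804) (.cons (nat_lit 1934) (.cons (nat_lit 75659) Uxp21n1180 .nil) .nil) .nil) .nil) .nil) .nil) .nil) .nil) .nil)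 .nil) .nil) .nil) Uxp21n518) .nil) .nil))) .nil)) (.cons (nat_lit 1054) (.cons (nat_lit 1052) (.cons (nat_lit 1177) (.cons (nat_lit 1180) (.cons (nat_lit 1306) (.cons (nat_lit 1300) (.cons (nat_lit 1426) Uxp21n1646 (.cons (nat_lit 1425) (.cons (nat_lit 1428) (.cons (nat_lit 1554) (.cons (nat_lit 1548) (.cons (nat_lit 1673) (.cons (nat_lit 1676) (.cons (nat_lit 1802) Uxp21n1639 .nil) .nil) (.cons (nat_lit 1674) (.cons (nat_lit 1668) (.cons (nat_lit 1793) Uxp21n1639 .nil) .nil) .nil)) .nil) .nil) .nil) .nil)) .nil) (.cons (nat_lit 1310) (.cons (nat_lit 1308) (.cons (nat_lit 1434) (.cons (nat_lit 1428) (.cons (nat_lit 1558) (.cons (nat_lit 1556) (.cons (nat_lit 1686) (.cons (nat_lit 1684) (.cons (nat_lit 1810) (.cons (nat_lit 83723) (.cons (nat_lit 1676) (.cons (nat_lit 1934) (.cons (nat_lit 100235) (.cons (nat_lit 1932) (.cons (nat_lit 2062) (.cons (nat_lit 67595) Uxp21n1657 .nil) .nil) .nil) .nil) .nil) .nil) .nil)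 .nil) .nil) .nil) .nil) .nil) .nil) .nil) .nil) .nil)) .nil) (.cons (nat_lit 1178) (.cons (nat_lit 1172) (.cons (nat_lit 1298) (.cons (nat_lit 1292) (.cons (nat_lit 1418) (.cons (nat_lit 1412) (.cons (nat_lit 1537) Uxp21n531 .nil) .nil) (.cons (nat_lit 1417) (.cons (nat_lit 1420) (.cons (nat_lit 1546) Uxp21n531 .nil) .nil) .nil)) .nil) (.cons (nat_lit 1297) (.cons (nat_lit 1300) (.cons (nat_lit 1426) Uxp21n1646 .nil) .nil) (.cons (nat_lit 1302) (.cons (nat_lit 1300) (.cons (nat_lit 1426) (.cons (nat_lit 1420) (.cons (nat_lit 1550) (.cons (nat_lit 1548) (.cons (nat_lit 1678) (.cons (nat_lit 1676) (.cons (nat_lit 1802) (.cons (nat_lit 83715) (.cons (nat_lit 1668) (.cons (nat_lit 1926) (.cons (nat_lit 100227) (.cons (nat_lit 1924) (.cons (nat_lit 2054) (.cons (nat_lit 67587) Uxp21n1239 .nil) .nil) .nil) .nil) .nil) .nil) .nil) .nil) .nil) .nil) .nil) .nil) .nil) .nil) .nil) .nil))) .nil) (.cons (nat_lit 1182) (.cons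 (nat_lit 1180) (.cons (nat_lit 1305) (.cons (nat_lit 1307) (.cons (nat_lit 1180) (.cons (nat_lit 1434) Uxp21n1189 .nil) .nil) .nil) .nil) .nil) .nil))) .nil) .nil)) .nil) (.cons (nat_lit 918) (.cons (nat_lit 916) (.cons (nat_lit 1050) (.cons (nat_lit 1044) (.cons (nat_lit 1170) (.cons (nat_lit 1164) (.cons (nat_lit 1294) (.cons (nat_lit 58635) Uxp21n291 .nil) Uxp21n1211) .nil) (.cons (nat_lit 1169) (.cons (nat_lit 1172) (.cons (nat_lit 1298) Uxp21n1222 .nil) .nil) Uxp21n168)) .nil) (.cons (nat_lit 1041) (.cons (nat_lit 1044) (.cons (nat_lit 1178) (.cons (nat_lit 1172) (.cons (nat_lit 1298) (.cons (nat_lit 1292) (.cons (nat_lit 1417) (.cons (nat_lit 1420) (.cons (nat_lit 1550) (.cons (nat_lit 58891) Uxp21n92 .nil) Uxp21n1218) .nil) Uxp21n1208) .nil) Uxp21n1234) .nil) Uxp21n1258) .nil) (.cons (nat_lit 1046) (.cons (nat_lit 1043) (.cons (nat_lit 1044) (.cons (nat_lit 1169) Uxp21n214 (.cons (nat_lit 1178) Uxp21n214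 .nil)) .nil) (.cons (nat_lit 1052) (.cons (nat_lit 1177) (.cons (nat_lit 1180) (.cons (nat_lit 1306) (.cons (nat_lit 1299) (.cons (nat_lit 1044) (.cons (nat_lit 1425) (.cons (nat_lit 1428) (.cons (nat_lit 1558) (.cons (nat_lit 1556) (.cons (nat_lit 1682) (.cons (nat_lit 1676) (.cons (nat_lit 1806) (.cons (nat_lit 1804) (.cons (nat_lit 1934) (.cons (nat_lit 59275) Uxp21n1180 .nil) .nil) .nil) .nil) .nil) .nil) .nil) .nil) .nil) .nil) .nil) .nil) (.cons (nat_lit 1310) (.cons (nat_lit 1308) (.cons (nat_lit 1434) (.cons (nat_lit 1428) (.cons (nat_lit 1558) (.cons (nat_lit 1556) (.cons (nat_lit 1686) (.cons (nat_lit 59027) (.cons (nat_lit 1684) (.cons (nat_lit 1814) (.cons (nat_lit 100115) (.cons (nat_lit 1812) (.cons (nat_lit 1938) (.cons (nat_lit 83851) (.cons (nat_lit 1036) (.cons (nat_lit 2058) Uxp21n1239 .nil) .nil) .nil) .nil) .nil) .nil) .nil) .nil) .nil) .nil) .nil) .nil) .nil) .nil) .nil) .nil)) .nil) .nil)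 .nil)) .nil))) .nil) .nil))
def Uxp21n1781 : PT := (.cons (nat_lit 1796) (.cons (nat_lit 1926) (.cons (nat_lit 1923) (.cons (nat_lit 51075) (.cons (nat_lit 5) .nil .nil) .nil) .nil) .nil) .nil)
def Uxp21n1793 : PT := (.cons (nat_lit 1164) (.cons (nat_lit 1290) (.cons (nat_lit 1284) (.cons (nat_lit 1414) (.cons (nat_lit 1411) (.cons (nat_lit 50563) (.cons (nat_lit 5) .nil .nil) .nil) (.cons (nat_lit 50571) (.cons (nat_lit 1420) (.cons (nat_lit 1546) Uxp21n1084 (.cons (nat_lit 1545) Uxp21n92 .nil)) .nil) .nil)) Uxp21n237) .nil) (.cons (nat_lit 1289) (.cons (nat_lit 1292) (.cons (nat_lit 1418) (.cons (nat_lit 1412) (.cons (nat_lit 1537) (.cons (nat_lit 1540) (.cons (nat_lit 1670) (.cons (nat_lit 1667) (.cons (nat_lit 50819) (.cons (nat_lit 5) .nil .nil) .nil) (.cons (nat_lit 50827) (.cons (nat_lit 1676) (.cons (nat_lit 1801) Uxp21n246 (.cons (nat_lit 1802) Uxp21n1038 .nil)) .nil) .nil)) (.cons (nat_lit 1674) (.cons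 (nat_lit 1668) (.cons (nat_lit 1793) Uxp21n1781 .nil) .nil) .nil)) .nil) (.cons (nat_lit 1546) Uxp21n227 .nil)) .nil) .nil) .nil) .nil)) .nil)
def Uxp21n1795 : PT := (.cons (nat_lit 1667) (.cons (nat_lit 50819) (.cons (nat_lit 5) .nil .nil) .nil) (.cons (nat_lit 50827) (.cons (nat_lit 1676) (.cons (nat_lit 1802) Uxp21n1038 (.cons (nat_lit 1801) Uxp21n246 .nil)) .nil) .nil))
def Uxp21n1820 : PT := (.cons (nat_lit 1804) (.cons (nat_lit 1930) (.cons (nat_lit 1923) (.cons (nat_lit 5) .nil .nil) (.cons (nat_lit 1932) (.cons (nat_lit 2058) Uxp21n1239 (.cons (nat_lit 2057) Uxp21n1657 .nil)) .nil)) .nil) .nil)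
def Uxp21n1840 : PT := (.cons (nat_lit 1411) (.cons (nat_lit 50563) (.cons (nat_lit 5) .nil .nil) .nil) (.cons (nat_lit 50571) (.cons (nat_lit 1420) (.cons (nat_lit 1545) Uxp21n92 (.cons (nat_lit 1546) Uxp21n1084 .nil)) .nil) .nil))
def Uxp21n1856 : PT := (.cons (nat_lit 1796) (.cons (nat_lit 1921) (.cons (nat_lit 1923) (.cons (nat_lit 5) .nil .nil) (.cons (nat_lit 1932) (.cons (nat_lit 2058) Uxp21n1239 .nil) .nil)) (.cons (nat_lit 1930) (.cons (nat_lit 1923) (.cons (nat_lit 5) .nil .nil) .nil) .nil)) .nil)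
def Uxp21n1901 : PT := (.cons (nat_lit 42243) (.cons (nat_lit 1284) (.cons (nat_lit 1409) (.cons (nat_lit 1411) (.cons (nat_lit 5) .nil .nil) (.cons (nat_lit 1420) (.cons (nat_lit 1546) Uxp21n1084 .nil) .nil)) (.cons (nat_lit 1418) (.cons (nat_lit 1411) (.cons (nat_lit 5) .nil .nil) .nil) .nil)) .nil) .nil)
def Uxp21n1907 : PT := (.cons (nat_lit 1156) (.cons (nat_lit 1286) Uxp21n1901 (.cons (nat_lit 1290) Uxp21n1089 (.cons (nat_lit 1289) (.cons (nat_lit 1292) Uxp21n1104 .nil) .nil))) .nil)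
def Uxp21n1917 : PT := (.cons (nat_lit 42499) (.cons (nat_lit 1540) (.cons (nat_lit 1665) (.cons (nat_lit 1667) (.cons (nat_lit 5) .nil .nil) (.cons (nat_lit 1676) (.cons (nat_lit 1802) Uxp21n1038 .nil) .nil)) (.cons (nat_lit 1674) (.cons (nat_lit 1667) (.cons (nat_lit 5) .nil .nil) .nil) .nil)) .nil) .nil)
def Uxp21n1921 : PT := (.cons (nat_lit 1284) (.cons (nat_lit 1409) (.cons (nat_lit 1412) (.cons (nat_lit 1542) Uxp21n1917 (.cons (nat_lit 1546) Uxp21n1323 .nil)) .nil) Uxp21n1104) .nil)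
def Uxp21n1934 : PT := (.cons (nat_lit 1292) (.cons (nat_lit 1418) (.cons (nat_lit 1411) (.cons (nat_lit 5) .nil .nil) (.cons (nat_lit 1420) (.cons (nat_lit 1546) Uxp21n1084 (.cons (nat_lit 1545) Uxp21n92 .nil)) .nil)) .nil) .nil)
def Uxp21n1986 : PT := (.cons (nat_lit 1299) (.cons (nat_lit 788) (.cons (nat_lit 1425) (.cons (nat_lit 1428) (.cons (nat_lit 1558) (.cons (nat_lit 1556) (.cons (nat_lit 1682) (.cons (nat_lit 1676) (.cons (nat_lit 1806) (.cons (nat_lit 1804) (.cons (nat_lit 1934) (.cons (nat_lit 42891) Uxp21n1180 .nil) .nil) .nil) .nil) .nil) .nil) .nil) .nil) .nil) .nil) .nil) .nil)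
def Uxp21n2020 : PT := (.cons (nat_lit 657) (.cons (nat_lit 660) (.cons (nat_lit 786) (.cons (nat_lit 780) (.cons (nat_lit 906) (.cons (nat_lit 900) (.cons (nat_lit 1025) (.cons (nat_lit 1027) (.cons (nat_lit 5) .nil .nil) (.cons (nat_lit 1036) (.cons (nat_lit 1162) Uxp21n1603 (.cons (nat_lit 1174) (.cons (nat_lit 1172) Uxp21n518 .nil) .nil)) .nil)) (.cons (nat_lit 1034) Uxp21n1168 Uxp21n1199)) .nil) Uxp21n1767) .nil) (.cons (nat_lit 798) (.cons (nat_lit 796) (.cons (nat_lit 921) (.cons (nat_lit 924) (.cons (nat_lit 1050) (.cons (nat_lit 1044) (.cons (nat_lit 1170) Uxp21n1793 (.cons (nat_lit 1169) (.cons (nat_lit 1172) (.cons (nat_lit 1298) (.cons (nat_lit 1292) (.cons (nat_lit 1417) (.cons (nat_lit 1420) (.cons (nat_lit 1546) (.cons (nat_lit 1540) (.cons (nat_lit 1670) Uxp21n1795 (.cons (nat_lit 1673) (.cons (nat_lit 1676) (.cons (nat_lit 1802) Uxp21n1781 .nil) .nil) (.cons (nat_lit 1674) (.cons (nat_lit 1668)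 (.cons (nat_lit 1793) Uxp21n1781 .nil) .nil) .nil))) .nil) .nil) .nil) (.cons (nat_lit 1418) (.cons (nat_lit 1412) (.cons (nat_lit 1537) (.cons (nat_lit 1540) (.cons (nat_lit 1670) Uxp21n1795 (.cons (nat_lit 1674) (.cons (nat_lit 1668) (.cons (nat_lit 1793) Uxp21n1781 .nil) .nil) .nil)) .nil) (.cons (nat_lit 1546) Uxp21n227 .nil)) .nil) .nil)) .nil) .nil) .nil) .nil)) .nil) (.cons (nat_lit 1054) (.cons (nat_lit 1052) (.cons (nat_lit 1178) (.cons (nat_lit 1172) (.cons (nat_lit 1302) (.cons (nat_lit 1300) (.cons (nat_lit 1430) (.cons (nat_lit 1428) (.cons (nat_lit 1554) (.cons (nat_lit 67083) (.cons (nat_lit 1420) (.cons (nat_lit 1678) (.cons (nat_lit 83595) (.cons (nat_lit 1676) (.cons (nat_lit 1806) (.cons (nat_lit 50955) Uxp21n1820 .nil) .nil) .nil) .nil) .nil) .nil) .nil) .nil) .nil) .nil) .nil) .nil) .nil) .nil) .nil) .nil)) .nil) (.cons (nat_lit 922) (.cons (nat_lit 916) (.cons (nat_lit 1042) (.cons (nat_lit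 1036) (.cons (nat_lit 1162) (.cons (nat_lit 1156) (.cons (nat_lit 1281) (.cons (nat_lit 1284) (.cons (nat_lit 1414) Uxp21n1840 (.cons (nat_lit 1418) (.cons (nat_lit 1412) (.cons (nat_lit 1537) Uxp21n227 .nil) .nil) .nil)) .nil) (.cons (nat_lit 1290) Uxp21n142 .nil)) .nil) (.cons (nat_lit 1161) (.cons (nat_lit 1164) (.cons (nat_lit 1290) (.cons (nat_lit 1284) (.cons (nat_lit 1414) Uxp21n1840 Uxp21n237) .nil) .nil) .nil) .nil)) .nil) (.cons (nat_lit 1041) (.cons (nat_lit 1044) (.cons (nat_lit 1170) Uxp21n1793 .nil) .nil) (.cons (nat_lit 1046) (.cons (nat_lit 1044) (.cons (nat_lit 1170) (.cons (nat_lit 1164) (.cons (nat_lit 1294) (.cons (nat_lit 1292) (.cons (nat_lit 1422) (.cons (nat_lit 1420) (.cons (nat_lit 1546) (.cons (nat_lit 67075) (.cons (nat_lit 1412) (.cons (nat_lit 1670) (.cons (nat_lit 83587) (.cons (nat_lit 1668) (.cons (nat_lit 1798) (.cons (nat_lit 50947) Uxp21n1856 .nil) .nil) .nil) .nil) .nil) .nil)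 .nil) .nil) .nil) .nil) .nil) .nil) .nil) .nil) .nil) .nil))) .nil) (.cons (nat_lit 926) (.cons (nat_lit 924) (.cons (nat_lit 1049) (.cons (nat_lit 1051) (.cons (nat_lit 924) (.cons (nat_lit 1178) Uxp21n1023 .nil) .nil) (.cons (nat_lit 1060) (.cons (nat_lit 1186) (.cons (nat_lit 1180) (.cons (nat_lit 1305) (.cons (nat_lit 1307) (.cons (nat_lit 924) (.cons (nat_lit 1434) Uxp21n1576 .nil) .nil) .nil) .nil) .nil) .nil) .nil)) (.cons (nat_lit 1058) (.cons (nat_lit 1051) (.cons (nat_lit 924) (.cons (nat_lit 1178) Uxp21n1023 .nil) .nil) .nil) .nil)) .nil) .nil))) .nil) .nil)) .nil) (.cons (nat_lit 662) (.cons (nat_lit 660) (.cons (nat_lit 794) (.cons (nat_lit 788) (.cons (nat_lit 914) (.cons (nat_lit 908) (.cons (nat_lit 1038) (.cons (nat_lit 41995) (.cons (nat_lit 1036) (.cons (nat_lit 1162) (.cons (nat_lit 1155) (.cons (nat_lit 5) .nil .nil) (.cons (nat_lit 1164) (.cons (nat_lit 1290) Uxp21n1071 (.cons (nat_lit 1289)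 Uxp21n291 .nil)) .nil)) .nil) .nil) .nil) (.cons (nat_lit 1034) (.cons (nat_lit 1028) (.cons (nat_lit 1153) (.cons (nat_lit 1156) (.cons (nat_lit 1286) Uxp21n1901 (.cons (nat_lit 1290) Uxp21n1089 .nil)) .nil) Uxp21n1077) .nil) (.cons (nat_lit 1033) (.cons (nat_lit 1036) (.cons (nat_lit 1162) Uxp21n1907 .nil) .nil) .nil))) .nil) (.cons (nat_lit 913) (.cons (nat_lit 916) (.cons (nat_lit 1042) (.cons (nat_lit 1036) (.cons (nat_lit 1162) Uxp21n1907 (.cons (nat_lit 1161) (.cons (nat_lit 1164) (.cons (nat_lit 1290) Uxp21n1921 .nil) .nil) .nil)) .nil) .nil) .nil) Uxp21n1354)) .nil) (.cons (nat_lit 785) (.cons (nat_lit 788) (.cons (nat_lit 922) (.cons (nat_lit 916) (.cons (nat_lit 1042) (.cons (nat_lit 1036) (.cons (nat_lit 1161) (.cons (nat_lit 1164) (.cons (nat_lit 1294) (.cons (nat_lit 42251) Uxp21n1934 .nil) (.cons (nat_lit 1290) Uxp21n1921 .nil)) .nil) (.cons (nat_lit 1162) Uxp21n1907 .nil)) .nil) (.cons (nat_lit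 1041) (.cons (nat_lit 1044) (.cons (nat_lit 1170) (.cons (nat_lit 1164) (.cons (nat_lit 1290) Uxp21n1921 (.cons (nat_lit 1289) (.cons (nat_lit 1292) (.cons (nat_lit 1418) (.cons (nat_lit 1412) (.cons (nat_lit 1542) Uxp21n1917 Uxp21n1361) .nil) .nil) .nil) .nil)) .nil) .nil) .nil) .nil)) .nil) (.cons (nat_lit 918) (.cons (nat_lit 916) (.cons (nat_lit 1042) (.cons (nat_lit 1036) (.cons (nat_lit 1166) (.cons (nat_lit 1164) (.cons (nat_lit 1294) (.cons (nat_lit 1292) (.cons (nat_lit 1418) (.cons (nat_lit 58755) (.cons (nat_lit 1284) (.cons (nat_lit 1542) (.cons (nat_lit 75267) (.cons (nat_lit 1540) (.cons (nat_lit 1670) (.cons (nat_lit 1667) (.cons (nat_lit 42627) (.cons (nat_lit 5) .nil .nil) .nil) (.cons (nat_lit 42635) (.cons (nat_lit 1676) (.cons (nat_lit 1802) Uxp21n1856 .nil) .nil) .nil)) .nil) .nil) .nil) .nil) .nil) .nil) .nil) .nil) .nil) .nil) .nil) .nil) .nil) .nil) .nil)) .nil) (.cons (nat_lit 790) (.cons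 (nat_lit 787) (.cons (nat_lit 788) (.cons (nat_lit 913) Uxp21n18 (.cons (nat_lit 922) Uxp21n18 .nil)) .nil) (.cons (nat_lit 796) (.cons (nat_lit 921) (.cons (nat_lit 924) (.cons (nat_lit 1050) (.cons (nat_lit 1043) (.cons (nat_lit 788) (.cons (nat_lit 1169) Uxp21n670 (.cons (nat_lit 1178) Uxp21n670 .nil)) .nil) (.cons (nat_lit 1052) (.cons (nat_lit 1177) (.cons (nat_lit 1180) (.cons (nat_lit 1306) Uxp21n1986 .nil) .nil) (.cons (nat_lit 1178) (.cons (nat_lit 1172) (.cons (nat_lit 1297) Uxp21n1986 .nil) .nil) .nil)) .nil)) (.cons (nat_lit 1054) (.cons (nat_lit 1052) (.cons (nat_lit 1178) (.cons (nat_lit 1172) (.cons (nat_lit 1302) (.cons (nat_lit 1300) (.cons (nat_lit 1430) (.cons (nat_lit 42387) (.cons (nat_lit 1428) (.cons (nat_lit 1558) (.cons (nat_lit 83475) (.cons (nat_lit 1556) (.cons (nat_lit 1682) (.cons (nat_lit 67211) (.cons (nat_lit 780) (.cons (nat_lit 1802) Uxp21n1374 .nil) .nil) .nil) .nil) .nil) .nil)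 .nil) .nil) .nil) .nil) .nil) .nil) .nil) .nil) .nil) .nil)) .nil) Uxp21n1398) .nil)) .nil))) .nil) .nil))
def Uxp21n2033 : PT := (.cons (nat_lit 1170) (.cons (nat_lit 1164) (.cons (nat_lit 1289) (.cons (nat_lit 1292) (.cons (nat_lit 1422) Uxp21n1484 .nil) .nil) .nil) .nil) .nil)
def Uxp21n2034 : PT := (.cons (nat_lit 1169) (.cons (nat_lit 1172) (.cons (nat_lit 1298) (.cons (nat_lit 1292) (.cons (nat_lit 1422) Uxp21n1484 .nil) .nil) .nil) .nil) Uxp21n2033)
def Uxp21n2036 : PT := (.cons (nat_lit 1036) (.cons (nat_lit 1166) (.cons (nat_lit 33931) (.cons (nat_lit 1164) (.cons (nat_lit 1290) Uxp21n1301 (.cons (nat_lit 1289) Uxp21n1934 .nil)) .nil) .nil) Uxp21n2034) .nil)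
def Uxp21n2039 : PT := (.cons (nat_lit 1548) (.cons (nat_lit 1674) (.cons (nat_lit 1667) (.cons (nat_lit 5) .nil .nil) (.cons (nat_lit 1676) (.cons (nat_lit 1801) Uxp21n246 (.cons (nat_lit 1802) Uxp21n1038 .nil)) .nil)) .nil) .nil)
def Uxp21n2046 : PT := (.cons (nat_lit 1548) (.cons (nat_lit 1678) (.cons (nat_lit 34443) (.cons (nat_lit 1676) (.cons (nat_lit 1802) Uxp21n1038 (.cons (nat_lit 1801) Uxp21n246 .nil)) .nil) .nil) .nil) .nil)
def Uxp21n2062 : PT := (.cons (nat_lit 34187) (.cons (nat_lit 1420) (.cons (nat_lit 1546) Uxp21n1317 (.cons (nat_lit 1545) (.cons (nat_lit 1548) (.cons (nat_lit 1674) Uxp21n1504 .nil) .nil) .nil)) .nil) .nil)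
def Uxp21n2111 : PT := (.cons (nat_lit 33931) (.cons (nat_lit 1164) (.cons (nat_lit 1289) (.cons (nat_lit 1292) (.cons (nat_lit 1418) (.cons (nat_lit 1411) (.cons (nat_lit 5) .nil .nil) (.cons (nat_lit 1420) (.cons (nat_lit 1545) Uxp21n92 (.cons (nat_lit 1546) Uxp21n1084 .nil)) .nil)) .nil) .nil) (.cons (nat_lit 1290) Uxp21n1301 .nil)) .nil) .nil)
def Uxp21n2167 : PT := (.cons (nat_lit 932) (.cons (nat_lit 1058) (.cons (nat_lit 1051) (.cons (nat_lit 668) (.cons (nat_lit 1178) Uxp21n796 .nil) .nil) .nil) .nil) .nil)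
def Uxp21n2181 : PT := (.cons (nat_lit 665) (.cons (nat_lit 668) (.cons (nat_lit 802) (.cons (nat_lit 796) (.cons (nat_lit 922) (.cons (nat_lit 916) (.cons (nat_lit 1042) Uxp21n2036 (.cons (nat_lit 1041) (.cons (nat_lit 1044) (.cons (nat_lit 1170) (.cons (nat_lit 1164) (.cons (nat_lit 1289) (.cons (nat_lit 1292) (.cons (nat_lit 1422) (.cons (nat_lit 34187) (.cons (nat_lit 1420) (.cons (nat_lit 1546) Uxp21n1317 (.cons (nat_lit 1545) Uxp21n2039 .nil)) .nil) .nil) (.cons (nat_lit 1426) (.cons (nat_lit 1420) (.cons (nat_lit 1545) Uxp21n2046 .nil) .nil) .nil)) .nil) (.cons (nat_lit 1298) (.cons (nat_lit 1292) (.cons (nat_lit 1422) Uxp21n1484 .nil) .nil) .nil)) .nil) .nil) .nil) .nil)) .nil) (.cons (nat_lit 921) (.cons (nat_lit 924) (.cons (nat_lit 1050) (.cons (nat_lit 1044) (.cons (nat_lit 1169) (.cons (nat_lit 1172) (.cons (nat_lit 1298) (.cons (nat_lit 1292) (.cons (nat_lit 1422) Uxp21n2062 (.cons (nat_lit 1425)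 (.cons (nat_lit 1428) (.cons (nat_lit 1554) Uxp21n2046 .nil) .nil) (.cons (nat_lit 1426) (.cons (nat_lit 1420) (.cons (nat_lit 1545) Uxp21n2046 .nil) .nil) .nil))) .nil) .nil) .nil) (.cons (nat_lit 1170) (.cons (nat_lit 1164) (.cons (nat_lit 1289) (.cons (nat_lit 1292) (.cons (nat_lit 1422) Uxp21n2062 (.cons (nat_lit 1426) (.cons (nat_lit 1420) (.cons (nat_lit 1545) Uxp21n2046 .nil) .nil) .nil)) .nil) (.cons (nat_lit 1298) (.cons (nat_lit 1292) (.cons (nat_lit 1422) Uxp21n1484 .nil) .nil) .nil)) .nil) .nil)) .nil) .nil) .nil) .nil)) .nil) (.cons (nat_lit 798) (.cons (nat_lit 796) (.cons (nat_lit 922) (.cons (nat_lit 916) (.cons (nat_lit 1046) (.cons (nat_lit 1044) (.cons (nat_lit 1174) (.cons (nat_lit 1172) (.cons (nat_lit 1298) (.cons (nat_lit 50443) (.cons (nat_lit 1164) (.cons (nat_lit 1422) (.cons (nat_lit 66955) (.cons (nat_lit 1420) (.cons (nat_lit 1550) (.cons (nat_lit 34315) (.cons (nat_lit 1548) (.cons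 (nat_lit 1674) (.cons (nat_lit 1667) (.cons (nat_lit 5) .nil .nil) (.cons (nat_lit 1676) (.cons (nat_lit 1802) Uxp21n1374 (.cons (nat_lit 1801) Uxp21n1820 .nil)) .nil)) .nil) .nil) .nil) .nil) .nil) .nil) .nil) .nil) .nil) .nil) .nil) .nil) .nil) .nil) .nil) .nil) .nil) .nil)) .nil) (.cons (nat_lit 674) (.cons (nat_lit 668) (.cons (nat_lit 794) (.cons (nat_lit 788) (.cons (nat_lit 914) (.cons (nat_lit 908) (.cons (nat_lit 1033) (.cons (nat_lit 1036) (.cons (nat_lit 1166) Uxp21n2111 Uxp21n2033) .nil) (.cons (nat_lit 1042) (.cons (nat_lit 1036) (.cons (nat_lit 1166) Uxp21n1435 .nil) .nil) .nil)) .nil) (.cons (nat_lit 913) (.cons (nat_lit 916) (.cons (nat_lit 1042) (.cons (nat_lit 1036) (.cons (nat_lit 1166) Uxp21n2111 Uxp21n2034) .nil) .nil) .nil) .nil)) .nil) (.cons (nat_lit 793) (.cons (nat_lit 796) (.cons (nat_lit 922) (.cons (nat_lit 916) (.cons (nat_lit 1042) Uxp21n2036 (.cons (nat_lit 1041) (.cons (nat_lit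 1044) (.cons (nat_lit 1170) (.cons (nat_lit 1164) (.cons (nat_lit 1289) (.cons (nat_lit 1292) (.cons (nat_lit 1422) (.cons (nat_lit 34187) (.cons (nat_lit 1420) (.cons (nat_lit 1545) Uxp21n2039 (.cons (nat_lit 1546) Uxp21n1317 .nil)) .nil) .nil) (.cons (nat_lit 1426) (.cons (nat_lit 1420) (.cons (nat_lit 1545) Uxp21n2046 .nil) .nil) .nil)) .nil) (.cons (nat_lit 1298) (.cons (nat_lit 1292) (.cons (nat_lit 1422) Uxp21n1484 .nil) .nil) .nil)) .nil) .nil) .nil) .nil)) .nil) .nil) .nil) (.cons (nat_lit 798) (.cons (nat_lit 796) (.cons (nat_lit 922) (.cons (nat_lit 916) (.cons (nat_lit 1046) (.cons (nat_lit 1044) (.cons (nat_lit 1174) (.cons (nat_lit 1172) (.cons (nat_lit 1298) (.cons (nat_lit 50443) (.cons (nat_lit 1164) (.cons (nat_lit 1422) (.cons (nat_lit 66955) (.cons (nat_lit 1420) (.cons (nat_lit 1550) (.cons (nat_lit 34315) (.cons (nat_lit 1548) (.cons (nat_lit 1674) Uxp21n1504 (.cons (nat_lit 1673) (.cons (nat_lit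 1676) (.cons (nat_lit 1802) Uxp21n1374 .nil) .nil) .nil)) .nil) .nil) .nil) .nil) .nil) .nil) .nil) .nil) .nil) .nil) .nil) .nil) .nil) .nil) .nil) .nil) .nil))) .nil) (.cons (nat_lit 678) (.cons (nat_lit 676) (.cons (nat_lit 802) (.cons (nat_lit 795) (.cons (nat_lit 668) (.cons (nat_lit 922) Uxp21n364 .nil) .nil) (.cons (nat_lit 804) (.cons (nat_lit 929) Uxp21n2167 (.cons (nat_lit 930) (.cons (nat_lit 924) (.cons (nat_lit 1049) (.cons (nat_lit 1051) (.cons (nat_lit 668) (.cons (nat_lit 1178) Uxp21n796 .nil) .nil) .nil) .nil) .nil) .nil)) .nil)) (.cons (nat_lit 809) (.cons (nat_lit 812) (.cons (nat_lit 938) Uxp21n2167 .nil) .nil) .nil)) .nil) .nil)))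
def Uxp21n2186 : PT := (.cons (nat_lit 1155) (.cons (nat_lit 5) .nil .nil) (.cons (nat_lit 1164) (.cons (nat_lit 1289) Uxp21n291 .nil) .nil))
def Uxp21n2190 : PT := (.cons (nat_lit 908) (.cons (nat_lit 1033) (.cons (nat_lit 1036) (.cons (nat_lit 1162) Uxp21n2186 .nil) .nil) (.cons (nat_lit 1042) Uxp21n283 .nil)) .nil)
def Uxp21n2196 : PT := (.cons (nat_lit 1036) (.cons (nat_lit 1162) Uxp21n2186 (.cons (nat_lit 1169) (.cons (nat_lit 1172) (.cons (nat_lit 1298) Uxp21n291 .nil) .nil) .nil)) .nil)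
def Uxp21n2203 : PT := (.cons (nat_lit 908) (.cons (nat_lit 1038) (.cons (nat_lit 25611) Uxp21n2196 .nil) (.cons (nat_lit 1041) (.cons (nat_lit 1044) Uxp21n428 .nil) Uxp21n397)) .nil)
def Uxp21n2210 : PT := (.cons (nat_lit 1411) (.cons (nat_lit 5) .nil .nil) (.cons (nat_lit 1420) (.cons (nat_lit 1545) Uxp21n92 .nil) .nil))
def Uxp21n2212 : PT := (.cons (nat_lit 1292) (.cons (nat_lit 1418) Uxp21n2210 (.cons (nat_lit 1425) (.cons (nat_lit 1428) (.cons (nat_lit 1554) Uxp21n92 .nil) .nil) .nil)) .nil)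
def Uxp21n2218 : PT := (.cons (nat_lit 1042) (.cons (nat_lit 1036) (.cons (nat_lit 1161) (.cons (nat_lit 1164) (.cons (nat_lit 1294) (.cons (nat_lit 25867) Uxp21n2212 .nil) Uxp21n830) .nil) Uxp21n428) .nil) .nil)
def Uxp21n2250 : PT := (.cons (nat_lit 1164) (.cons (nat_lit 1289) (.cons (nat_lit 1292) (.cons (nat_lit 1418) Uxp21n2210 .nil) .nil) (.cons (nat_lit 1298) Uxp21n291 .nil)) .nil)
def Uxp21n2253 : PT := (.cons (nat_lit 1036) (.cons (nat_lit 1162) (.cons (nat_lit 1155) (.cons (nat_lit 5) .nil .nil) Uxp21n2250) .nil) .nil)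
def Uxp21n2303 : PT := (.cons (nat_lit 1172) (.cons (nat_lit 1302) (.cons (nat_lit 1300) (.cons (nat_lit 1426) (.cons (nat_lit 1420) (.cons (nat_lit 1550) (.cons (nat_lit 1548) (.cons (nat_lit 1678) (.cons (nat_lit 26251) Uxp21n205 .nil) .nil) .nil) .nil) .nil) .nil) .nil) .nil) .nil)
def Uxp21n2337 : PT := (.cons (nat_lit 1554) (.cons (nat_lit 1548) (.cons (nat_lit 1674) Uxp21n767 (.cons (nat_lit 1681) (.cons (nat_lit 1684) (.cons (nat_lit 1810) Uxp21n246 .nil) .nil) .nil)) .nil) .nil)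
def Uxp21n2362 : PT := (.cons (nat_lit 409) (.cons (nat_lit 412) (.cons (nat_lit 538) (.cons (nat_lit 532) (.cons (nat_lit 658) (.cons (nat_lit 652) (.cons (nat_lit 778) (.cons (nat_lit 771) (.cons (nat_lit 5) .nil .nil) (.cons (nat_lit 780) (.cons (nat_lit 906) (.cons (nat_lit 900) (.cons (nat_lit 1025) (.cons (nat_lit 1027) (.cons (nat_lit 5) .nil .nil) (.cons (nat_lit 1036) (.cons (nat_lit 1162) Uxp21n1165 .nil) .nil)) (.cons (nat_lit 1034) (.cons (nat_lit 1027) (.cons (nat_lit 5) .nil .nil) .nil) .nil)) .nil) (.cons (nat_lit 905) (.cons (nat_lit 908) (.cons (nat_lit 1034) Uxp21n1168 .nil) .nil) Uxp21n495)) .nil)) (.cons (nat_lit 777) (.cons (nat_lit 780) (.cons (nat_lit 906) (.cons (nat_lit 900) (.cons (nat_lit 1025) (.cons (nat_lit 1027) (.cons (nat_lit 5) .nil .nil) Uxp21n522) (.cons (nat_lit 1034) Uxp21n1168 Uxp21n1199)) .nil) Uxp21n1264) .nil) (.cons (nat_lit 790) (.cons (nat_lit 788) (.cons (nat_lit 914)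 Uxp21n1274 (.cons (nat_lit 913) Uxp21n1286 (.cons (nat_lit 918) (.cons (nat_lit 916) (.cons (nat_lit 1041) (.cons (nat_lit 1043) (.cons (nat_lit 916) (.cons (nat_lit 1169) Uxp21n1023 (.cons (nat_lit 1178) Uxp21n1023 .nil)) .nil) (.cons (nat_lit 1052) (.cons (nat_lit 1182) Uxp21n580 (.cons (nat_lit 1178) (.cons (nat_lit 1172) (.cons (nat_lit 1297) (.cons (nat_lit 1299) (.cons (nat_lit 916) (.cons (nat_lit 1425) Uxp21n1576 .nil) .nil) .nil) .nil) .nil) .nil)) .nil)) .nil) .nil) .nil))) .nil) .nil))) .nil) Uxp21n2020) .nil) (.cons (nat_lit 542) (.cons (nat_lit 540) Uxp21n2181 .nil) .nil)) .nil) (.cons (nat_lit 414) (.cons (nat_lit 412) (.cons (nat_lit 538) (.cons (nat_lit 532) (.cons (nat_lit 658) (.cons (nat_lit 652) (.cons (nat_lit 782) (.cons (nat_lit 25355) (.cons (nat_lit 780) (.cons (nat_lit 906) (.cons (nat_lit 899) (.cons (nat_lit 5) .nil .nil) Uxp21n2190) .nil) .nil) .nil) (.cons (nat_lit 786) (.cons (nat_lit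 780) (.cons (nat_lit 905) (.cons (nat_lit 908) (.cons (nat_lit 1038) (.cons (nat_lit 25611) Uxp21n2196 .nil) Uxp21n397) .nil) Uxp21n386) .nil) (.cons (nat_lit 785) (.cons (nat_lit 788) (.cons (nat_lit 914) Uxp21n2203 .nil) .nil) .nil))) .nil) (.cons (nat_lit 665) (.cons (nat_lit 668) (.cons (nat_lit 794) (.cons (nat_lit 788) (.cons (nat_lit 914) Uxp21n2203 (.cons (nat_lit 913) (.cons (nat_lit 916) Uxp21n2218 .nil) .nil)) .nil) .nil) .nil) (.cons (nat_lit 670) (.cons (nat_lit 668) (.cons (nat_lit 794) (.cons (nat_lit 788) (.cons (nat_lit 918) (.cons (nat_lit 916) (.cons (nat_lit 1046) (.cons (nat_lit 1044) (.cons (nat_lit 1170) (.cons (nat_lit 42123) (.cons (nat_lit 1036) (.cons (nat_lit 1294) (.cons (nat_lit 58635) (.cons (nat_lit 1292) (.cons (nat_lit 1422) (.cons (nat_lit 25995) (.cons (nat_lit 1420) (.cons (nat_lit 1546) Uxp21n1317 (.cons (nat_lit 1545) (.cons (nat_lit 1548) (.cons (nat_lit 1674) Uxp21n767 .nil)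 .nil) .nil)) .nil) .nil) .nil) .nil) .nil) .nil) .nil) .nil) .nil) .nil) .nil) .nil) .nil) .nil) .nil) .nil) .nil))) .nil) (.cons (nat_lit 537) (.cons (nat_lit 540) (.cons (nat_lit 666) (.cons (nat_lit 660) (.cons (nat_lit 786) (.cons (nat_lit 780) (.cons (nat_lit 905) (.cons (nat_lit 908) (.cons (nat_lit 1038) (.cons (nat_lit 25611) Uxp21n2253 .nil) Uxp21n2218) .nil) (.cons (nat_lit 914) Uxp21n2203 .nil)) .nil) (.cons (nat_lit 793) (.cons (nat_lit 796) (.cons (nat_lit 922) (.cons (nat_lit 916) (.cons (nat_lit 1041) (.cons (nat_lit 1044) (.cons (nat_lit 1170) (.cons (nat_lit 1164) (.cons (nat_lit 1294) (.cons (nat_lit 25867) Uxp21n2212 .nil) Uxp21n842) .nil) .nil) .nil) Uxp21n2218) .nil) .nil) .nil) .nil)) .nil) (.cons (nat_lit 670) (.cons (nat_lit 668) (.cons (nat_lit 794) (.cons (nat_lit 788) (.cons (nat_lit 918) (.cons (nat_lit 916) (.cons (nat_lit 1046) (.cons (nat_lit 1044) (.cons (nat_lit 1170) (.cons (nat_lit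 42123) (.cons (nat_lit 1036) (.cons (nat_lit 1294) (.cons (nat_lit 58635) (.cons (nat_lit 1292) (.cons (nat_lit 1422) (.cons (nat_lit 25995) (.cons (nat_lit 1420) (.cons (nat_lit 1546) (.cons (nat_lit 1540) (.cons (nat_lit 1665) (.cons (nat_lit 1667) (.cons (nat_lit 5) .nil .nil) (.cons (nat_lit 1684) (.cons (nat_lit 1810) Uxp21n246 .nil) .nil)) (.cons (nat_lit 1674) Uxp21n767 .nil)) .nil) .nil) .nil) .nil) .nil) .nil) .nil) .nil) .nil) .nil) .nil) .nil) .nil) .nil) .nil) .nil) .nil) .nil) .nil)) .nil) (.cons (nat_lit 542) (.cons (nat_lit 540) (.cons (nat_lit 665) (.cons (nat_lit 668) (.cons (nat_lit 794) (.cons (nat_lit 787) (.cons (nat_lit 532) (.cons (nat_lit 913) Uxp21n917 (.cons (nat_lit 922) Uxp21n917 .nil)) .nil) (.cons (nat_lit 796) (.cons (nat_lit 921) (.cons (nat_lit 924) (.cons (nat_lit 1050) (.cons (nat_lit 1043) (.cons (nat_lit 532) (.cons (nat_lit 1169) Uxp21n2303 (.cons (nat_lit 1178) Uxp21n2303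 .nil)) .nil) (.cons (nat_lit 1052) (.cons (nat_lit 1177) (.cons (nat_lit 1180) (.cons (nat_lit 1306) (.cons (nat_lit 1299) (.cons (nat_lit 532) (.cons (nat_lit 1425) (.cons (nat_lit 1428) (.cons (nat_lit 1558) (.cons (nat_lit 1556) (.cons (nat_lit 1682) (.cons (nat_lit 1676) (.cons (nat_lit 1806) (.cons (nat_lit 1804) (.cons (nat_lit 1934) (.cons (nat_lit 26507) Uxp21n1180 .nil) .nil) .nil) .nil) .nil) .nil) .nil) .nil) .nil) .nil) .nil) .nil) .nil) .nil) .nil) .nil)) .nil) .nil) (.cons (nat_lit 930) (.cons (nat_lit 924) (.cons (nat_lit 1050) (.cons (nat_lit 1043) (.cons (nat_lit 532) (.cons (nat_lit 1169) Uxp21n2303 .nil) .nil) .nil) .nil) .nil) .nil)) .nil)) (.cons (nat_lit 806) (.cons (nat_lit 804) (.cons (nat_lit 930) (.cons (nat_lit 924) (.cons (nat_lit 1054) (.cons (nat_lit 1052) (.cons (nat_lit 1182) (.cons (nat_lit 25755) (.cons (nat_lit 1180) (.cons (nat_lit 1310) (.cons (nat_lit 66843) (.cons (nat_lit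 1308) (.cons (nat_lit 1434) (.cons (nat_lit 50579) (.cons (nat_lit 532) Uxp21n2337 .nil) .nil) .nil) .nil) .nil) .nil) .nil) .nil) .nil) .nil) .nil) .nil) .nil) .nil) .nil)) .nil) Uxp21n923) .nil) .nil))) .nil) .nil))
def Uxp21n2372 : PT := (.cons (nat_lit 1292) (.cons (nat_lit 1422) (.cons (nat_lit 17803) (.cons (nat_lit 1420) (.cons (nat_lit 1545) Uxp21n92 .nil) .nil) .nil) .nil) .nil)
def Uxp21n2377 : PT := (.cons (nat_lit 1036) (.cons (nat_lit 1166) (.cons (nat_lit 17547) Uxp21n2250 .nil) (.cons (nat_lit 1169) (.cons (nat_lit 1172) (.cons (nat_lit 1298) Uxp21n2372 .nil) .nil) .nil)) .nil)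
def Uxp21n2382 : PT := (.cons (nat_lit 1036) (.cons (nat_lit 1166) (.cons (nat_lit 17547) (.cons (nat_lit 1164) (.cons (nat_lit 1289) Uxp21n291 .nil) .nil) .nil) .nil) .nil)
def Uxp21n2390 : PT := (.cons (nat_lit 1044) (.cons (nat_lit 1174) (.cons (nat_lit 17555) (.cons (nat_lit 1172) (.cons (nat_lit 1298) Uxp21n291 (.cons (nat_lit 1297) (.cons (nat_lit 1300) (.cons (nat_lit 1426) (.cons (nat_lit 1420) (.cons (nat_lit 1545) Uxp21n92 .nil) .nil) .nil) .nil) .nil)) .nil) .nil) .nil) .nil)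
def Uxp21n2394 : PT := (.cons (nat_lit 922) (.cons (nat_lit 916) (.cons (nat_lit 1042) Uxp21n2382 (.cons (nat_lit 1041) Uxp21n2390 .nil)) .nil) .nil)
def Uxp21n2397 : PT := (.cons (nat_lit 780) (.cons (nat_lit 910) (.cons (nat_lit 17291) (.cons (nat_lit 908) (.cons (nat_lit 1033) Uxp21n2253 (.cons (nat_lit 1042) Uxp21n2196 .nil)) .nil) .nil) (.cons (nat_lit 913) (.cons (nat_lit 916) (.cons (nat_lit 1042) Uxp21n2377 .nil) .nil) Uxp21n2394)) .nil)
def Uxp21n2399 : PT := (.cons (nat_lit 1420) (.cons (nat_lit 1545) (.cons (nat_lit 1548) (.cons (nat_lit 1674) Uxp21n767 .nil) .nil) (.cons (nat_lit 1554) Uxp21n92 .nil)) .nil)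
def Uxp21n2405 : PT := (.cons (nat_lit 17555) (.cons (nat_lit 1172) (.cons (nat_lit 1298) Uxp21n2212 (.cons (nat_lit 1297) (.cons (nat_lit 1300) (.cons (nat_lit 1426) Uxp21n2399 .nil) .nil) .nil)) .nil) .nil)
def Uxp21n2413 : PT := (.cons (nat_lit 1300) (.cons (nat_lit 1430) (.cons (nat_lit 17811) (.cons (nat_lit 1428) (.cons (nat_lit 1554) Uxp21n92 (.cons (nat_lit 1553) (.cons (nat_lit 1556) (.cons (nat_lit 1682) (.cons (nat_lit 1676) (.cons (nat_lit 1801) Uxp21n246 .nil) .nil) .nil) .nil) .nil)) .nil) .nil) .nil) .nil)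
def Uxp21n2443 : PT := (.cons (nat_lit 17299) (.cons (nat_lit 916) (.cons (nat_lit 1042) Uxp21n2196 (.cons (nat_lit 1041) (.cons (nat_lit 1044) (.cons (nat_lit 1170) Uxp21n2250 .nil) .nil) .nil)) .nil) .nil)
def Uxp21n2488 : PT := (.cons (nat_lit 922) (.cons (nat_lit 916) (.cons (nat_lit 1041) (.cons (nat_lit 1044) (.cons (nat_lit 1174) Uxp21n2405 (.cons (nat_lit 1178) (.cons (nat_lit 1172) (.cons (nat_lit 1297) Uxp21n2413 .nil) .nil) .nil)) .nil) (.cons (nat_lit 1050) Uxp21n2390 .nil)) .nil) .nil)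
def Uxp21n2548 : PT := (.cons (nat_lit 412) (.cons (nat_lit 922) (.cons (nat_lit 916) (.cons (nat_lit 1046) (.cons (nat_lit 1044) (.cons (nat_lit 1170) (.cons (nat_lit 1164) (.cons (nat_lit 1294) (.cons (nat_lit 1292) (.cons (nat_lit 1422) (.cons (nat_lit 17803) Uxp21n9 .nil) .nil) .nil) .nil) .nil) .nil) .nil) .nil) .nil) .nil) .nil)
def Uxp21n2562 : PT := (.cons (nat_lit 932) (.cons (nat_lit 1058) (.cons (nat_lit 1051) (.cons (nat_lit 412) (.cons (nat_lit 1178) (.cons (nat_lit 1172) (.cons (nat_lit 1302) (.cons (nat_lit 1300) (.cons (nat_lit 1426) (.cons (nat_lit 1420) (.cons (nat_lit 1550) (.cons (nat_lit 1548) (.cons (nat_lit 1678) (.cons (nat_lit 18059) Uxp21n205 .nil) .nil) .nil) .nil) .nil) .nil) .nil) .nil) .nil) .nil) .nil) .nil) .nil) .nil)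
def Uxp21n2589 : PT := (.cons (nat_lit 290) (.cons (nat_lit 284) (.cons (nat_lit 410) (.cons (nat_lit 404) (.cons (nat_lit 530) (.cons (nat_lit 524) (.cons (nat_lit 650) (.cons (nat_lit 644) (.cons (nat_lit 769) (.cons (nat_lit 771) (.cons (nat_lit 5) .nil .nil) (.cons (nat_lit 788) (.cons (nat_lit 914) Uxp21n193 Uxp21n172) .nil)) (.cons (nat_lit 778) (.cons (nat_lit 771) (.cons (nat_lit 5) .nil .nil) (.cons (nat_lit 780) (.cons (nat_lit 906) (.cons (nat_lit 900) (.cons (nat_lit 1025) (.cons (nat_lit 1027) (.cons (nat_lit 5) .nil .nil) .nil) .nil) .nil) (.cons (nat_lit 905) Uxp21n193 .nil)) .nil)) (.cons (nat_lit 790) (.cons (nat_lit 788) (.cons (nat_lit 914) Uxp21n138 (.cons (nat_lit 913) Uxp21n148 (.cons (nat_lit 918) (.cons (nat_lit 916) (.cons (nat_lit 1041) (.cons (nat_lit 1043) (.cons (nat_lit 916) (.cons (nat_lit 1169) Uxp21n1023 .nil) .nil) .nil) .nil) .nil) .nil))) .nil) .nil))) .nil) (.cons (nat_lit 649)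 (.cons (nat_lit 652) (.cons (nat_lit 778) Uxp21n499 (.cons (nat_lit 798) (.cons (nat_lit 796) (.cons (nat_lit 921) Uxp21n264 (.cons (nat_lit 922) (.cons (nat_lit 916) (.cons (nat_lit 1042) (.cons (nat_lit 1036) Uxp21n268 .nil) Uxp21n1055) .nil) (.cons (nat_lit 926) (.cons (nat_lit 924) (.cons (nat_lit 1049) (.cons (nat_lit 1051) (.cons (nat_lit 924) (.cons (nat_lit 1178) Uxp21n1023 .nil) .nil) .nil) .nil) .nil) .nil))) .nil) .nil)) .nil) (.cons (nat_lit 662) (.cons (nat_lit 660) (.cons (nat_lit 794) (.cons (nat_lit 788) (.cons (nat_lit 914) (.cons (nat_lit 908) (.cons (nat_lit 1038) (.cons (nat_lit 41995) Uxp21n283 .nil) (.cons (nat_lit 1034) (.cons (nat_lit 1028) (.cons (nat_lit 1153) (.cons (nat_lit 1156) (.cons (nat_lit 1286) (.cons (nat_lit 42243) Uxp21n1071 .nil) .nil) .nil) .nil) .nil) (.cons (nat_lit 1033) (.cons (nat_lit 1036) Uxp21n1077 .nil) .nil))) .nil) (.cons (nat_lit 913) (.cons (nat_lit 916) (.cons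 (nat_lit 1042) (.cons (nat_lit 1036) (.cons (nat_lit 1162) (.cons (nat_lit 1156) (.cons (nat_lit 1286) (.cons (nat_lit 42243) Uxp21n1071 .nil) .nil) .nil) (.cons (nat_lit 1161) (.cons (nat_lit 1164) (.cons (nat_lit 1290) Uxp21n1089 .nil) .nil) .nil)) .nil) .nil) .nil) Uxp21n38)) .nil) (.cons (nat_lit 785) (.cons (nat_lit 788) (.cons (nat_lit 922) (.cons (nat_lit 916) (.cons (nat_lit 1042) (.cons (nat_lit 1036) (.cons (nat_lit 1161) (.cons (nat_lit 1164) (.cons (nat_lit 1294) (.cons (nat_lit 42251) Uxp21n291 .nil) (.cons (nat_lit 1290) Uxp21n1089 .nil)) .nil) Uxp21n1077) .nil) (.cons (nat_lit 1041) (.cons (nat_lit 1044) (.cons (nat_lit 1170) (.cons (nat_lit 1164) (.cons (nat_lit 1289) (.cons (nat_lit 1292) Uxp21n1104 .nil) (.cons (nat_lit 1290) Uxp21n1089 .nil)) .nil) .nil) .nil) .nil)) .nil) (.cons (nat_lit 918) (.cons (nat_lit 916) (.cons (nat_lit 1042) (.cons (nat_lit 1036) (.cons (nat_lit 1166) (.cons (nat_lit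 1164) (.cons (nat_lit 1294) (.cons (nat_lit 1292) (.cons (nat_lit 1418) (.cons (nat_lit 58755) (.cons (nat_lit 1284) (.cons (nat_lit 1542) (.cons (nat_lit 75267) (.cons (nat_lit 1540) (.cons (nat_lit 1670) (.cons (nat_lit 1667) (.cons (nat_lit 42627) (.cons (nat_lit 5) .nil .nil) .nil) (.cons (nat_lit 42635) (.cons (nat_lit 1676) (.cons (nat_lit 1802) Uxp21n1038 .nil) .nil) .nil)) .nil) .nil) .nil) .nil) .nil) .nil) .nil) .nil) .nil) .nil) .nil) .nil) .nil) .nil) .nil)) .nil) (.cons (nat_lit 790) (.cons (nat_lit 787) (.cons (nat_lit 788) (.cons (nat_lit 913) Uxp21n18 (.cons (nat_lit 922) Uxp21n18 .nil)) .nil) (.cons (nat_lit 796) (.cons (nat_lit 921) (.cons (nat_lit 924) (.cons (nat_lit 1050) (.cons (nat_lit 1043) (.cons (nat_lit 788) (.cons (nat_lit 1169) Uxp21n670 .nil) .nil) .nil) (.cons (nat_lit 1054) (.cons (nat_lit 1052) (.cons (nat_lit 1178) (.cons (nat_lit 1172) (.cons (nat_lit 1302) (.cons (nat_lit 1300)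 (.cons (nat_lit 1430) (.cons (nat_lit 42387) (.cons (nat_lit 1428) (.cons (nat_lit 1558) (.cons (nat_lit 83475) (.cons (nat_lit 1556) (.cons (nat_lit 1682) (.cons (nat_lit 67211) (.cons (nat_lit 780) (.cons (nat_lit 1802) Uxp21n1038 .nil) .nil) .nil) .nil) .nil) .nil) .nil) .nil) .nil) .nil) .nil) .nil) .nil) .nil) .nil) .nil)) .nil) .nil) .nil)) .nil))) .nil) .nil))) .nil) Uxp21n1551) .nil) Uxp21n2362) .nil) (.cons (nat_lit 294) (.cons (nat_lit 292) (.cons (nat_lit 418) (.cons (nat_lit 412) (.cons (nat_lit 537) (.cons (nat_lit 540) (.cons (nat_lit 666) (.cons (nat_lit 660) (.cons (nat_lit 786) Uxp21n2397 (.cons (nat_lit 793) (.cons (nat_lit 796) (.cons (nat_lit 922) (.cons (nat_lit 916) (.cons (nat_lit 1042) Uxp21n2377 (.cons (nat_lit 1041) (.cons (nat_lit 1044) (.cons (nat_lit 1174) Uxp21n2405 (.cons (nat_lit 1178) (.cons (nat_lit 1172) (.cons (nat_lit 1298) Uxp21n2372 (.cons (nat_lit 1297) Uxp21n2413 .nil))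 .nil) .nil)) .nil) .nil)) .nil) .nil) .nil) .nil)) .nil) .nil) .nil) (.cons (nat_lit 538) (.cons (nat_lit 532) (.cons (nat_lit 657) (.cons (nat_lit 660) (.cons (nat_lit 786) Uxp21n2397 .nil) .nil) (.cons (nat_lit 666) (.cons (nat_lit 660) (.cons (nat_lit 786) (.cons (nat_lit 780) (.cons (nat_lit 910) (.cons (nat_lit 17291) Uxp21n2190 .nil) (.cons (nat_lit 913) (.cons (nat_lit 916) (.cons (nat_lit 1042) Uxp21n2382 .nil) .nil) .nil)) .nil) (.cons (nat_lit 785) (.cons (nat_lit 788) (.cons (nat_lit 918) Uxp21n2443 Uxp21n2394) .nil) .nil)) .nil) .nil)) .nil) (.cons (nat_lit 550) (.cons (nat_lit 548) (.cons (nat_lit 674) (.cons (nat_lit 668) (.cons (nat_lit 798) (.cons (nat_lit 796) (.cons (nat_lit 926) (.cons (nat_lit 924) (.cons (nat_lit 1050) (.cons (nat_lit 33811) (.cons (nat_lit 916) (.cons (nat_lit 1174) (.cons (nat_lit 50323) (.cons (nat_lit 1172) (.cons (nat_lit 1302) (.cons (nat_lit 17683) (.cons (nat_lit 1300)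 (.cons (nat_lit 1426) Uxp21n2399 (.cons (nat_lit 1425) (.cons (nat_lit 1428) Uxp21n2337 .nil) .nil)) .nil) .nil) .nil) .nil) .nil) .nil) .nil) .nil) .nil) .nil) .nil) .nil) .nil) .nil) .nil) .nil) .nil))) .nil) (.cons (nat_lit 417) (.cons (nat_lit 420) (.cons (nat_lit 554) (.cons (nat_lit 548) (.cons (nat_lit 674) (.cons (nat_lit 668) (.cons (nat_lit 794) (.cons (nat_lit 788) (.cons (nat_lit 918) Uxp21n2443 (.cons (nat_lit 921) (.cons (nat_lit 924) (.cons (nat_lit 1050) Uxp21n2390 .nil) .nil) (.cons (nat_lit 922) (.cons (nat_lit 916) (.cons (nat_lit 1041) Uxp21n2390 .nil) .nil) .nil))) .nil) (.cons (nat_lit 793) (.cons (nat_lit 796) Uxp21n2488 .nil) .nil)) .nil) (.cons (nat_lit 673) (.cons (nat_lit 676) (.cons (nat_lit 802) (.cons (nat_lit 796) (.cons (nat_lit 921) (.cons (nat_lit 924) (.cons (nat_lit 1050) (.cons (nat_lit 1044) (.cons (nat_lit 1174) Uxp21n2405 (.cons (nat_lit 1177) (.cons (nat_lit 1180) (.cons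 (nat_lit 1306) Uxp21n2413 .nil) .nil) (.cons (nat_lit 1178) (.cons (nat_lit 1172) (.cons (nat_lit 1297) Uxp21n2413 .nil) .nil) .nil))) .nil) .nil) .nil) Uxp21n2488) .nil) .nil) .nil) .nil)) .nil) (.cons (nat_lit 550) (.cons (nat_lit 548) (.cons (nat_lit 674) (.cons (nat_lit 668) (.cons (nat_lit 798) (.cons (nat_lit 796) (.cons (nat_lit 926) (.cons (nat_lit 924) (.cons (nat_lit 1050) (.cons (nat_lit 33811) (.cons (nat_lit 916) (.cons (nat_lit 1174) (.cons (nat_lit 50323) (.cons (nat_lit 1172) (.cons (nat_lit 1302) (.cons (nat_lit 17683) (.cons (nat_lit 1300) (.cons (nat_lit 1426) (.cons (nat_lit 1420) (.cons (nat_lit 1545) (.cons (nat_lit 1548) (.cons (nat_lit 1674) (.cons (nat_lit 1667) (.cons (nat_lit 5) .nil .nil) (.cons (nat_lit 1676) (.cons (nat_lit 1801) (.cons (nat_lit 1804) (.cons (nat_lit 1930) (.cons (nat_lit 1923) (.cons (nat_lit 5) .nil .nil) (.cons (nat_lit 1932) (.cons (nat_lit 2057) Uxp21n1657 .nil)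 .nil)) .nil) .nil) (.cons (nat_lit 1810) Uxp21n246 .nil)) .nil)) .nil) .nil) Uxp21n2337) .nil) .nil) .nil) .nil) .nil) .nil) .nil) .nil) .nil) .nil) .nil) .nil) .nil) .nil) .nil) .nil) .nil) .nil) .nil)) .nil) (.cons (nat_lit 430) (.cons (nat_lit 428) (.cons (nat_lit 553) (.cons (nat_lit 556) (.cons (nat_lit 682) (.cons (nat_lit 676) (.cons (nat_lit 802) (.cons (nat_lit 795) Uxp21n2548 (.cons (nat_lit 804) (.cons (nat_lit 929) Uxp21n2562 .nil) .nil)) (.cons (nat_lit 809) (.cons (nat_lit 812) (.cons (nat_lit 938) Uxp21n2562 .nil) .nil) .nil)) .nil) .nil) .nil) (.cons (nat_lit 554) (.cons (nat_lit 548) (.cons (nat_lit 673) (.cons (nat_lit 676) (.cons (nat_lit 802) (.cons (nat_lit 795) Uxp21n2548 (.cons (nat_lit 804) (.cons (nat_lit 929) Uxp21n2562 .nil) .nil)) .nil) .nil) (.cons (nat_lit 682) (.cons (nat_lit 676) (.cons (nat_lit 802) (.cons (nat_lit 795) Uxp21n2548 .nil) .nil) .nil) .nil)) .nil) .nil)) .nil) .nil)))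 .nil) .nil))
def Uxp21n2640 : PT := (.cons (nat_lit 25483) (.cons (nat_lit 908) (.cons (nat_lit 1038) (.cons (nat_lit 1036) (.cons (nat_lit 1166) (.cons (nat_lit 1163) (.cons (nat_lit 1164) (.cons (nat_lit 1294) (.cons (nat_lit 66827) (.cons (nat_lit 1292) (.cons (nat_lit 1418) (.cons (nat_lit 9603) (.cons (nat_lit 5) .nil .nil) .nil) .nil) .nil) .nil) .nil) .nil) .nil) .nil) .nil) .nil) .nil) .nil)
def Uxp21n2652 : PT := (.cons (nat_lit 25739) (.cons (nat_lit 1164) (.cons (nat_lit 1294) (.cons (nat_lit 1292) (.cons (nat_lit 1422) (.cons (nat_lit 1419) (.cons (nat_lit 1420) (.cons (nat_lit 1550) (.cons (nat_lit 83467) (.cons (nat_lit 1548) (.cons (nat_lit 1674) (.cons (nat_lit 9859) (.cons (nat_lit 5) .nil .nil) .nil) .nil) .nil) .nil) .nil) .nil) .nil) .nil) .nil) .nil) .nil) .nil)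
def Uxp21n2656 : PT := (.cons (nat_lit 916) (.cons (nat_lit 1042) (.cons (nat_lit 1036) (.cons (nat_lit 1166) Uxp21n2652 .nil) .nil) .nil) .nil)
def Uxp21n2674 : PT := (.cons (nat_lit 25995) (.cons (nat_lit 1420) (.cons (nat_lit 1550) (.cons (nat_lit 1548) (.cons (nat_lit 1678) (.cons (nat_lit 1675) (.cons (nat_lit 1676) (.cons (nat_lit 1806) (.cons (nat_lit 100107) (.cons (nat_lit 1804) (.cons (nat_lit 1930) (.cons (nat_lit 10115) (.cons (nat_lit 5) .nil .nil) .nil) .nil) .nil) .nil) .nil) .nil) .nil) .nil) .nil) .nil) .nil) .nil)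
def Uxp21n2679 : PT := (.cons (nat_lit 1170) (.cons (nat_lit 1164) (.cons (nat_lit 1289) (.cons (nat_lit 1292) (.cons (nat_lit 1422) Uxp21n2674 .nil) .nil) .nil) .nil) .nil)
def Uxp21n2684 : PT := (.cons (nat_lit 914) (.cons (nat_lit 908) (.cons (nat_lit 1033) (.cons (nat_lit 1036) (.cons (nat_lit 1166) Uxp21n2652 Uxp21n2679) .nil) (.cons (nat_lit 1042) (.cons (nat_lit 1036) (.cons (nat_lit 1166) Uxp21n2652 .nil) .nil) .nil)) .nil) .nil)
def Uxp21n2690 : PT := (.cons (nat_lit 1172) (.cons (nat_lit 1298) (.cons (nat_lit 1292) (.cons (nat_lit 1422) Uxp21n2674 .nil) .nil) .nil) .nil)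
def Uxp21n2698 : PT := (.cons (nat_lit 794) (.cons (nat_lit 788) (.cons (nat_lit 913) (.cons (nat_lit 916) (.cons (nat_lit 1042) (.cons (nat_lit 1036) (.cons (nat_lit 1166) Uxp21n2652 (.cons (nat_lit 1169) Uxp21n2690 Uxp21n2679)) .nil) .nil) .nil) Uxp21n2684) .nil) .nil)
def Uxp21n2717 : PT := (.cons (nat_lit 1548) (.cons (nat_lit 1678) (.cons (nat_lit 26251) (.cons (nat_lit 1676) (.cons (nat_lit 1806) (.cons (nat_lit 1804) (.cons (nat_lit 1934) (.cons (nat_lit 1931) (.cons (nat_lit 1932) (.cons (nat_lit 2062) (.cons (nat_lit 116747) (.cons (nat_lit 2060) (.cons (nat_lit 2186) (.cons (nat_lit 10371) (.cons (nat_lit 5) .nil .nil) .nil) .nil) .nil) .nil) .nil) .nil) .nil) .nil) .nil) .nil) .nil) .nil) .nil) .nil)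
def Uxp21n2771 : PT := (.cons (nat_lit 9107) (.cons (nat_lit 916) (.cons (nat_lit 1046) (.cons (nat_lit 1044) (.cons (nat_lit 1174) (.cons (nat_lit 1172) (.cons (nat_lit 1298) (.cons (nat_lit 1292) (.cons (nat_lit 1422) (.cons (nat_lit 1419) (.cons (nat_lit 1420) (.cons (nat_lit 1546) (.cons (nat_lit 1540) (.cons (nat_lit 1670) (.cons (nat_lit 67203) (.cons (nat_lit 75395) (.cons (nat_lit 5) .nil .nil) .nil) .nil) .nil) .nil) .nil) .nil) .nil) .nil) .nil) .nil) .nil) .nil) .nil) .nil) .nil) .nil)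
def Uxp21n2797 : PT := (.cons (nat_lit 9363) (.cons (nat_lit 1172) (.cons (nat_lit 1302) (.cons (nat_lit 1300) (.cons (nat_lit 1430) (.cons (nat_lit 1428) (.cons (nat_lit 1554) (.cons (nat_lit 1548) (.cons (nat_lit 1678) (.cons (nat_lit 1675) (.cons (nat_lit 1676) (.cons (nat_lit 1802) (.cons (nat_lit 1796) (.cons (nat_lit 1926) (.cons (nat_lit 83843) (.cons (nat_lit 92035) (.cons (nat_lit 5) .nil .nil) .nil) .nil) .nil) .nil) .nil) .nil) .nil) .nil) .nil) .nil) .nil) .nil) .nil) .nil) .nil) .nil)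
def Uxp21n2802 : PT := (.cons (nat_lit 922) (.cons (nat_lit 916) (.cons (nat_lit 1041) (.cons (nat_lit 1044) (.cons (nat_lit 1174) Uxp21n2797 .nil) .nil) .nil) .nil) .nil)
def Uxp21n2807 : PT := (.cons (nat_lit 666) (.cons (nat_lit 660) (.cons (nat_lit 785) (.cons (nat_lit 788) (.cons (nat_lit 918) Uxp21n2771 Uxp21n2802) .nil) (.cons (nat_lit 794) (.cons (nat_lit 788) (.cons (nat_lit 918) Uxp21n2771 .nil) .nil) .nil)) .nil) .nil)
def Uxp21n2816 : PT := (.cons (nat_lit 788) (.cons (nat_lit 918) Uxp21n2771 (.cons (nat_lit 921) (.cons (nat_lit 924) (.cons (nat_lit 1050) (.cons (nat_lit 1044) (.cons (nat_lit 1174) Uxp21n2797 .nil) .nil) .nil) .nil) Uxp21n2802)) .nil)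
def Uxp21n2821 : PT := (.cons (nat_lit 546) (.cons (nat_lit 540) (.cons (nat_lit 665) (.cons (nat_lit 668) (.cons (nat_lit 794) Uxp21n2816 .nil) .nil) Uxp21n2807) .nil) .nil)
def Uxp21n2841 : PT := (.cons (nat_lit 922) (.cons (nat_lit 916) (.cons (nat_lit 1042) (.cons (nat_lit 1036) (.cons (nat_lit 1166) Uxp21n2652 (.cons (nat_lit 1169) Uxp21n2690 .nil)) .nil) (.cons (nat_lit 1049) (.cons (nat_lit 1052) (.cons (nat_lit 1178) Uxp21n2690 .nil) .nil) .nil)) .nil) .nil)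
def Uxp21n2850 : PT := (.cons (nat_lit 1292) (.cons (nat_lit 1422) Uxp21n2674 (.cons (nat_lit 1425) (.cons (nat_lit 1428) (.cons (nat_lit 1554) Uxp21n2717 .nil) .nil) .nil)) .nil)
def Uxp21n2855 : PT := (.cons (nat_lit 1036) (.cons (nat_lit 1166) Uxp21n2652 (.cons (nat_lit 1169) (.cons (nat_lit 1172) (.cons (nat_lit 1298) Uxp21n2850 .nil) .nil) (.cons (nat_lit 1178) Uxp21n2690 .nil))) .nil)
def Uxp21n2860 : PT := (.cons (nat_lit 794) (.cons (nat_lit 788) (.cons (nat_lit 913) (.cons (nat_lit 916) (.cons (nat_lit 1042) Uxp21n2855 .nil) .nil) Uxp21n2841) .nil) .nil)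
def Uxp21n2922 : PT := (.cons (nat_lit 282) (.cons (nat_lit 276) (.cons (nat_lit 406) (.cons (nat_lit 8595) (.cons (nat_lit 404) (.cons (nat_lit 534) (.cons (nat_lit 532) (.cons (nat_lit 662) (.cons (nat_lit 660) (.cons (nat_lit 786) (.cons (nat_lit 780) (.cons (nat_lit 910) (.cons (nat_lit 907) (.cons (nat_lit 908) (.cons (nat_lit 1034) (.cons (nat_lit 1028) (.cons (nat_lit 1158) (.cons (nat_lit 33923) (.cons (nat_lit 42115) (.cons (nat_lit 5) .nil .nil) .nil) .nil) .nil) .nil) .nil) .nil) .nil) .nil) .nil) .nil) .nil) .nil) .nil) .nil) .nil) (.cons (nat_lit 404) (.cons (nat_lit 530) (.cons (nat_lit 524) (.cons (nat_lit 654) (.cons (nat_lit 652) (.cons (nat_lit 782) (.cons (nat_lit 780) (.cons (nat_lit 906) (.cons (nat_lit 25475) (.cons (nat_lit 772) (.cons (nat_lit 1030) (.cons (nat_lit 41987) (.cons (nat_lit 1028) (.cons (nat_lit 1158) (.cons (nat_lit 1155) (.cons (nat_lit 9347) (.cons (nat_lit 5) .nil .nil)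 .nil) .nil) .nil) .nil) .nil) .nil) .nil) .nil) .nil) .nil) .nil) (.cons (nat_lit 25227) (.cons (nat_lit 652) (.cons (nat_lit 782) (.cons (nat_lit 780) (.cons (nat_lit 910) (.cons (nat_lit 907) (.cons (nat_lit 908) (.cons (nat_lit 1038) (.cons (nat_lit 50187) (.cons (nat_lit 1036) (.cons (nat_lit 1162) (.cons (nat_lit 9347) (.cons (nat_lit 5) .nil .nil) .nil) .nil) .nil) .nil) .nil) .nil) .nil) .nil) .nil) .nil) .nil) .nil)) (.cons (nat_lit 666) (.cons (nat_lit 660) (.cons (nat_lit 786) (.cons (nat_lit 780) (.cons (nat_lit 910) Uxp21n2640 (.cons (nat_lit 913) Uxp21n2656 (.cons (nat_lit 914) (.cons (nat_lit 908) (.cons (nat_lit 1033) (.cons (nat_lit 1036) (.cons (nat_lit 1166) Uxp21n2652 .nil) .nil) .nil) .nil) .nil))) .nil) (.cons (nat_lit 785) (.cons (nat_lit 788) Uxp21n2684 .nil) .nil)) .nil) (.cons (nat_lit 665) (.cons (nat_lit 668) Uxp21n2698 .nil) .nil))) .nil) (.cons (nat_lit 545) (.cons (nat_lit 548) (.cons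 (nat_lit 674) (.cons (nat_lit 668) (.cons (nat_lit 793) (.cons (nat_lit 796) (.cons (nat_lit 922) (.cons (nat_lit 916) (.cons (nat_lit 1042) (.cons (nat_lit 1036) (.cons (nat_lit 1166) Uxp21n2652 (.cons (nat_lit 1169) Uxp21n2690 Uxp21n2679)) .nil) (.cons (nat_lit 1041) (.cons (nat_lit 1044) (.cons (nat_lit 1170) (.cons (nat_lit 1164) (.cons (nat_lit 1289) (.cons (nat_lit 1292) (.cons (nat_lit 1422) Uxp21n2674 (.cons (nat_lit 1426) (.cons (nat_lit 1420) (.cons (nat_lit 1545) Uxp21n2717 .nil) .nil) .nil)) .nil) (.cons (nat_lit 1298) (.cons (nat_lit 1292) (.cons (nat_lit 1422) Uxp21n2674 .nil) .nil) .nil)) .nil) .nil) .nil) .nil)) .nil) .nil) .nil) Uxp21n2698) .nil) .nil) .nil) .nil)) .nil)) (.cons (nat_lit 418) (.cons (nat_lit 412) (.cons (nat_lit 538) (.cons (nat_lit 532) (.cons (nat_lit 662) (.cons (nat_lit 8851) (.cons (nat_lit 660) (.cons (nat_lit 790) (.cons (nat_lit 788) (.cons (nat_lit 918) (.cons (nat_lit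 916) (.cons (nat_lit 1042) (.cons (nat_lit 1036) (.cons (nat_lit 1166) (.cons (nat_lit 1163) (.cons (nat_lit 1164) (.cons (nat_lit 1290) (.cons (nat_lit 1284) (.cons (nat_lit 1414) (.cons (nat_lit 50563) (.cons (nat_lit 58755) (.cons (nat_lit 5) .nil .nil) .nil) .nil) .nil) .nil) .nil) .nil) .nil) .nil) .nil) .nil) .nil) .nil) .nil) .nil) .nil) .nil) (.cons (nat_lit 665) (.cons (nat_lit 668) (.cons (nat_lit 794) (.cons (nat_lit 788) (.cons (nat_lit 918) Uxp21n2771 .nil) .nil) .nil) .nil) (.cons (nat_lit 666) (.cons (nat_lit 660) (.cons (nat_lit 785) (.cons (nat_lit 788) (.cons (nat_lit 918) Uxp21n2771 .nil) .nil) .nil) .nil) .nil))) .nil) (.cons (nat_lit 537) (.cons (nat_lit 540) Uxp21n2807 .nil) .nil)) .nil) (.cons (nat_lit 417) (.cons (nat_lit 420) Uxp21n2821 .nil) .nil))) .nil) (.cons (nat_lit 289) (.cons (nat_lit 292) (.cons (nat_lit 422) (.cons (nat_lit 420) (.cons (nat_lit 546) (.cons (nat_lit 540) (.cons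 (nat_lit 666) (.cons (nat_lit 660) (.cons (nat_lit 786) (.cons (nat_lit 780) (.cons (nat_lit 910) Uxp21n2640 (.cons (nat_lit 913) (.cons (nat_lit 916) (.cons (nat_lit 1042) (.cons (nat_lit 1036) (.cons (nat_lit 1166) Uxp21n2652 (.cons (nat_lit 1169) Uxp21n2690 .nil)) .nil) .nil) .nil) (.cons (nat_lit 922) Uxp21n2656 .nil))) .nil) (.cons (nat_lit 793) (.cons (nat_lit 796) Uxp21n2841 .nil) .nil)) .nil) (.cons (nat_lit 665) (.cons (nat_lit 668) Uxp21n2860 .nil) .nil)) .nil) (.cons (nat_lit 545) (.cons (nat_lit 548) (.cons (nat_lit 674) (.cons (nat_lit 668) (.cons (nat_lit 793) (.cons (nat_lit 796) (.cons (nat_lit 922) (.cons (nat_lit 916) (.cons (nat_lit 1042) Uxp21n2855 (.cons (nat_lit 1049) (.cons (nat_lit 1052) (.cons (nat_lit 1178) (.cons (nat_lit 1172) (.cons (nat_lit 1298) Uxp21n2850 (.cons (nat_lit 1305) (.cons (nat_lit 1308) (.cons (nat_lit 1434) (.cons (nat_lit 1428) (.cons (nat_lit 1554) Uxp21n2717 .nil)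 .nil) .nil) .nil) .nil)) .nil) .nil) .nil) .nil)) .nil) .nil) .nil) Uxp21n2860) .nil) .nil) .nil) .nil)) .nil) (.cons (nat_lit 426) (.cons (nat_lit 420) (.cons (nat_lit 545) (.cons (nat_lit 548) (.cons (nat_lit 674) (.cons (nat_lit 668) (.cons (nat_lit 794) Uxp21n2816 (.cons (nat_lit 793) (.cons (nat_lit 796) (.cons (nat_lit 922) (.cons (nat_lit 916) (.cons (nat_lit 1041) (.cons (nat_lit 1044) (.cons (nat_lit 1174) Uxp21n2797 (.cons (nat_lit 1178) (.cons (nat_lit 1172) (.cons (nat_lit 1297) (.cons (nat_lit 1300) (.cons (nat_lit 1430) (.cons (nat_lit 9619) (.cons (nat_lit 1428) (.cons (nat_lit 1558) (.cons (nat_lit 1556) (.cons (nat_lit 1686) (.cons (nat_lit 1684) (.cons (nat_lit 1810) (.cons (nat_lit 1804) (.cons (nat_lit 1934) (.cons (nat_lit 1931) (.cons (nat_lit 1932) (.cons (nat_lit 2058) (.cons (nat_lit 2052) (.cons (nat_lit 2182) (.cons (nat_lit 100483) (.cons (nat_lit 108675) (.cons (nat_lit 5) .nil .nil)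 .nil) .nil) .nil) .nil) .nil) .nil) .nil) .nil) .nil) .nil) .nil) .nil) .nil) .nil) .nil) .nil) .nil) .nil) .nil) .nil) .nil)) .nil) (.cons (nat_lit 1050) (.cons (nat_lit 1044) (.cons (nat_lit 1174) Uxp21n2797 .nil) .nil) .nil)) .nil) .nil) .nil) .nil)) .nil) .nil) .nil) Uxp21n2821) .nil) .nil)) .nil) .nil))
def Uxt21 : PT := (.cons (nat_lit 20) (.cons (nat_lit 146) (.cons (nat_lit 140) (.cons (nat_lit 266) (.cons (nat_lit 259) (.cons (nat_lit 5) .nil .nil) (.cons (nat_lit 276) Uxp21n482 .nil)) (.cons (nat_lit 281) (.cons (nat_lit 284) (.cons (nat_lit 410) (.cons (nat_lit 404) Uxp21n813 .nil) (.cons (nat_lit 422) (.cons (nat_lit 420) (.cons (nat_lit 545) (.cons (nat_lit 548) (.cons (nat_lit 674) (.cons (nat_lit 668) (.cons (nat_lit 794) Uxp21n839 (.cons (nat_lit 793) (.cons (nat_lit 796) (.cons (nat_lit 922) (.cons (nat_lit 916) (.cons (nat_lit 1041) (.cons (nat_lit 1044) (.cons (nat_lit 1170) (.cons (nat_lit 1164)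 (.cons (nat_lit 1294) Uxp21n824 Uxp21n842) .nil) .nil) .nil) Uxp21n835) .nil) .nil) .nil) .nil)) .nil) (.cons (nat_lit 678) (.cons (nat_lit 676) (.cons (nat_lit 802) (.cons (nat_lit 796) (.cons (nat_lit 926) (.cons (nat_lit 924) (.cons (nat_lit 1054) (.cons (nat_lit 1052) (.cons (nat_lit 1178) (.cons (nat_lit 42131) (.cons (nat_lit 1044) (.cons (nat_lit 1302) (.cons (nat_lit 58643) (.cons (nat_lit 1300) (.cons (nat_lit 1430) (.cons (nat_lit 26003) (.cons (nat_lit 1428) (.cons (nat_lit 1554) (.cons (nat_lit 1548) (.cons (nat_lit 1674) (.cons (nat_lit 1667) (.cons (nat_lit 5) .nil .nil) .nil) (.cons (nat_lit 1681) (.cons (nat_lit 1684) (.cons (nat_lit 1810) Uxp21n246 .nil) .nil) .nil)) .nil) .nil) .nil) .nil) .nil) .nil) .nil) .nil) .nil) .nil) .nil) .nil) .nil) .nil) .nil) .nil) .nil) .nil) .nil)) .nil) (.cons (nat_lit 546) (.cons (nat_lit 540) (.cons (nat_lit 665) (.cons (nat_lit 668) (.cons (nat_lit 794) Uxp21n839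 .nil) .nil) (.cons (nat_lit 666) (.cons (nat_lit 660) (.cons (nat_lit 785) (.cons (nat_lit 788) (.cons (nat_lit 914) Uxp21n820 .nil) .nil) (.cons (nat_lit 786) (.cons (nat_lit 780) (.cons (nat_lit 905) (.cons (nat_lit 908) (.cons (nat_lit 1038) Uxp21n818 Uxp21n397) .nil) Uxp21n386) .nil) .nil)) .nil) (.cons (nat_lit 670) (.cons (nat_lit 668) (.cons (nat_lit 794) (.cons (nat_lit 788) (.cons (nat_lit 918) (.cons (nat_lit 916) (.cons (nat_lit 1046) (.cons (nat_lit 1044) (.cons (nat_lit 1170) (.cons (nat_lit 42123) (.cons (nat_lit 1036) (.cons (nat_lit 1294) (.cons (nat_lit 58635) (.cons (nat_lit 1292) (.cons (nat_lit 1422) (.cons (nat_lit 25995) (.cons (nat_lit 1420) (.cons (nat_lit 1545) Uxp21n92 (.cons (nat_lit 1554) Uxp21n92 .nil)) .nil) .nil) .nil) .nil) .nil) .nil) .nil) .nil) .nil) .nil) .nil) .nil) .nil) .nil) .nil) .nil) .nil))) .nil) (.cons (nat_lit 558) (.cons (nat_lit 556) Uxp21n923 .nil) .nil))) .nil)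 .nil)) .nil) (.cons (nat_lit 278) (.cons (nat_lit 276) (.cons (nat_lit 402) (.cons (nat_lit 396) (.cons (nat_lit 522) (.cons (nat_lit 516) (.cons (nat_lit 646) (.cons (nat_lit 643) (.cons (nat_lit 17027) (.cons (nat_lit 5) .nil .nil) .nil) .nil) (.cons (nat_lit 649) (.cons (nat_lit 652) (.cons (nat_lit 778) Uxp21n956 .nil) .nil) (.cons (nat_lit 658) (.cons (nat_lit 652) (.cons (nat_lit 778) (.cons (nat_lit 772) (.cons (nat_lit 902) (.cons (nat_lit 899) (.cons (nat_lit 17283) (.cons (nat_lit 5) .nil .nil) .nil) .nil) (.cons (nat_lit 905) Uxp21n952 .nil)) .nil) (.cons (nat_lit 785) (.cons (nat_lit 788) (.cons (nat_lit 914) Uxp21n952 .nil) .nil) .nil)) .nil) .nil))) .nil) (.cons (nat_lit 529) (.cons (nat_lit 532) (.cons (nat_lit 658) (.cons (nat_lit 652) (.cons (nat_lit 778) Uxp21n956 (.cons (nat_lit 785) (.cons (nat_lit 788) (.cons (nat_lit 914) (.cons (nat_lit 908) (.cons (nat_lit 1034) Uxp21n946 (.cons (nat_lit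 1041) (.cons (nat_lit 1044) (.cons (nat_lit 1170) Uxp21n943 .nil) .nil) .nil)) .nil) .nil) .nil) .nil)) .nil) .nil) .nil) Uxp21n997)) .nil) (.cons (nat_lit 409) (.cons (nat_lit 412) Uxp21n997 .nil) .nil)) .nil) .nil))) .nil) (.cons (nat_lit 161) (.cons (nat_lit 164) Uxp21n2589 .nil) (.cons (nat_lit 158) (.cons (nat_lit 156) Uxp21n2922 .nil) .nil))) .nil)
def Uxp21 : Prog := ⟨3197, 7, 2, 0, Uxt21, 0, dt0⟩

end Pool.Agent.Hom2.UC
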