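import Pool.Agent.Lib.MP_7e4769_co.Hc.UDb

set_option autoImplicit false
set_option maxRecDepth 100000

namespace Pool.Agent.Hom2.UC

def Uxt34 : PT := .nil
def Uxp34 : Prog := ⟨11084, 4, 15, 16512, Uxt34, 0, dt0⟩

end Pool.Agent.Hom2.UC
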