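import Pool.Agent.Lib.MP_7e4769_co.Hc.UDb

set_option autoImplicit false
set_option maxRecDepth 100000

namespace Pool.Agent.Hom2.UC

def Uxp7n5 : PT := (.cons (nat_lit 516) (.cons (nat_lit 646) (.cons (nat_lit 643) (.cons (nat_lit 17027) (.cons (nat_lit 5) .nil .nil) .nil) .nil) .nil) .nil)
def Uxp7n48 : PT := (.cons (nat_lit 42115) (.cons (nat_lit 1028) (.cons (nat_lit 1286) (.cons (nat_lit 58627) (.cons (nat_lit 1284) (.cons (nat_lit 1414) (.cons (nat_lit 1411) (.cons (nat_lit 25987) (.cons (nat_lit 5) .nil .nil) .nil) .nil) .nil) .nil) .nil) .nil) .nil) .nil)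
def Uxp7n57 : PT := (.cons (nat_lit 654) (.cons (nat_lit 652) (.cons (nat_lit 777) (.cons (nat_lit 780) (.cons (nat_lit 910) (.cons (nat_lit 908) (.cons (nat_lit 1038) (.cons (nat_lit 1036) (.cons (nat_lit 1162) Uxp7n48 .nil) .nil) .nil) .nil) .nil) .nil) .nil) .nil) .nil)
def Uxp7n64 : PT := (.cons (nat_lit 1156) (.cons (nat_lit 1286) (.cons (nat_lit 66819) (.cons (nat_lit 1284) (.cons (nat_lit 1409) (.cons (nat_lit 50563) (.cons (nat_lit 5) .nil .nil) .nil) .nil) .nil) .nil) .nil) .nil)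
def Uxp7n74 : PT := (.cons (nat_lit 650) (.cons (nat_lit 644) (.cons (nat_lit 774) (.cons (nat_lit 772) (.cons (nat_lit 897) (.cons (nat_lit 900) (.cons (nat_lit 1030) (.cons (nat_lit 1028) (.cons (nat_lit 1158) (.cons (nat_lit 25731) Uxp7n64 .nil) .nil) .nil) .nil) .nil) .nil) .nil) .nil) .nil) .nil)
def Uxp7n92 : PT := (.cons (nat_lit 772) (.cons (nat_lit 902) (.cons (nat_lit 899) (.cons (nat_lit 33667) (.cons (nat_lit 5) .nil .nil) .nil) .nil) .nil) .nil)
def Uxp7n123 : PT := (.cons (nat_lit 644) (.cons (nat_lit 774) (.cons (nat_lit 25347) (.cons (nat_lit 772) (.cons (nat_lit 897) (.cons (nat_lit 899) (.cons (nat_lit 5) .nil .nil) .nil) .nil) .nil) .nil) .nil) .nil)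
def Uxp7n182 : PT := (.cons (nat_lit 17035) (.cons (nat_lit 652) (.cons (nat_lit 777) (.cons (nat_lit 780) (.cons (nat_lit 906) (.cons (nat_lit 899) (.cons (nat_lit 5) .nil .nil) .nil) .nil) .nil) .nil) .nil) .nil)
def Uxp7n186 : PT := (.cons (nat_lit 772) (.cons (nat_lit 902) (.cons (nat_lit 899) (.cons (nat_lit 17283) (.cons (nat_lit 5) .nil .nil) .nil) .nil) .nil) .nil)
def Uxp7n207 : PT := (.cons (nat_lit 652) (.cons (nat_lit 782) (.cons (nat_lit 780) (.cons (nat_lit 910) (.cons (nat_lit 908) (.cons (nat_lit 1034) (.cons (nat_lit 33795) (.cons (nat_lit 900) (.cons (nat_lit 1158) (.cons (nat_lit 50307) (.cons (nat_lit 1156) (.cons (nat_lit 1286) (.cons (nat_lit 17667) (.cons (nat_lit 1284) (.cons (nat_lit 1409) (.cons (nat_lit 1411) (.cons (nat_lit 5) .nil .nil) .nil) .nil) .nil) .nil) .nil) .nil) .nil) .nil) .nil) .nil) .nil) .nil) .nil) .nil) .nil) .nil)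
def Uxp7n260 : PT := (.cons (nat_lit 274) (.cons (nat_lit 268) (.cons (nat_lit 394) (.cons (nat_lit 388) (.cons (nat_lit 513) (.cons (nat_lit 515) (.cons (nat_lit 5) .nil .nil) .nil) .nil) .nil) (.cons (nat_lit 393) (.cons (nat_lit 396) (.cons (nat_lit 522) (.cons (nat_lit 515) (.cons (nat_lit 5) .nil .nil) .nil) (.cons (nat_lit 526) (.cons (nat_lit 524) (.cons (nat_lit 649) (.cons (nat_lit 652) (.cons (nat_lit 778) Uxp7n92 .nil) .nil) (.cons (nat_lit 650) (.cons (nat_lit 644) (.cons (nat_lit 769) Uxp7n92 .nil) .nil) (.cons (nat_lit 654) (.cons (nat_lit 652) (.cons (nat_lit 778) (.cons (nat_lit 772) (.cons (nat_lit 902) (.cons (nat_lit 33667) (.cons (nat_lit 900) (.cons (nat_lit 1030) (.cons (nat_lit 1028) (.cons (nat_lit 1158) (.cons (nat_lit 1155) (.cons (nat_lit 1156) (.cons (nat_lit 1286) (.cons (nat_lit 42243) (.cons (nat_lit 66819) (.cons (nat_lit 5) .nil .nil) .nil) .nil) .nil) .nil) .nil) .nil) .nil) .nil) .nil) .nil)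 .nil) .nil) .nil) .nil) .nil))) .nil) .nil)) .nil) (.cons (nat_lit 398) (.cons (nat_lit 396) (.cons (nat_lit 522) (.cons (nat_lit 516) (.cons (nat_lit 641) Uxp7n123 (.cons (nat_lit 646) (.cons (nat_lit 644) (.cons (nat_lit 769) (.cons (nat_lit 772) (.cons (nat_lit 902) (.cons (nat_lit 900) (.cons (nat_lit 1030) (.cons (nat_lit 1028) (.cons (nat_lit 1153) Uxp7n48 .nil) .nil) .nil) .nil) .nil) .nil) .nil) .nil) .nil)) .nil) (.cons (nat_lit 521) (.cons (nat_lit 524) (.cons (nat_lit 650) Uxp7n123 Uxp7n57) .nil) (.cons (nat_lit 526) (.cons (nat_lit 523) (.cons (nat_lit 524) (.cons (nat_lit 649) (.cons (nat_lit 652) (.cons (nat_lit 782) (.cons (nat_lit 780) (.cons (nat_lit 905) (.cons (nat_lit 908) (.cons (nat_lit 1038) (.cons (nat_lit 1036) (.cons (nat_lit 1166) (.cons (nat_lit 25739) (.cons (nat_lit 1164) (.cons (nat_lit 1294) (.cons (nat_lit 66827) (.cons (nat_lit 1292) (.cons (nat_lit 1418) (.cons (nat_lit 50563) (.cons (nat_lit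 5) .nil .nil) .nil) .nil) .nil) .nil) .nil) .nil) .nil) .nil) .nil) .nil) .nil) .nil) .nil) .nil) .nil) Uxp7n74) .nil) (.cons (nat_lit 524) (.cons (nat_lit 654) (.cons (nat_lit 25227) (.cons (nat_lit 652) (.cons (nat_lit 782) (.cons (nat_lit 780) (.cons (nat_lit 906) (.cons (nat_lit 900) (.cons (nat_lit 1030) (.cons (nat_lit 33795) (.cons (nat_lit 1028) (.cons (nat_lit 1158) (.cons (nat_lit 50307) (.cons (nat_lit 1156) (.cons (nat_lit 1281) (.cons (nat_lit 1283) (.cons (nat_lit 5) .nil .nil) .nil) .nil) .nil) .nil) .nil) .nil) .nil) .nil) .nil) .nil) .nil) .nil) .nil) .nil) .nil) .nil)) .nil))) .nil) .nil))) .nil) (.cons (nat_lit 278) (.cons (nat_lit 276) (.cons (nat_lit 402) (.cons (nat_lit 396) (.cons (nat_lit 522) Uxp7n5 (.cons (nat_lit 521) (.cons (nat_lit 524) (.cons (nat_lit 654) Uxp7n182 (.cons (nat_lit 650) (.cons (nat_lit 644) (.cons (nat_lit 769) Uxp7n186 .nil) .nil) .nil)) .nil) (.cons (nat_lit 526) (.cons (nat_lit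 524) (.cons (nat_lit 649) Uxp7n207 .nil) .nil) .nil))) .nil) (.cons (nat_lit 401) (.cons (nat_lit 404) (.cons (nat_lit 530) (.cons (nat_lit 524) (.cons (nat_lit 649) (.cons (nat_lit 652) (.cons (nat_lit 778) Uxp7n186 .nil) .nil) (.cons (nat_lit 650) (.cons (nat_lit 644) (.cons (nat_lit 769) Uxp7n186 .nil) .nil) (.cons (nat_lit 654) Uxp7n182 .nil))) .nil) (.cons (nat_lit 534) (.cons (nat_lit 532) (.cons (nat_lit 658) Uxp7n207 (.cons (nat_lit 657) (.cons (nat_lit 660) (.cons (nat_lit 790) (.cons (nat_lit 788) (.cons (nat_lit 918) (.cons (nat_lit 916) (.cons (nat_lit 1042) (.cons (nat_lit 33803) (.cons (nat_lit 908) (.cons (nat_lit 1166) (.cons (nat_lit 50315) (.cons (nat_lit 1164) (.cons (nat_lit 1294) (.cons (nat_lit 17675) (.cons (nat_lit 1292) (.cons (nat_lit 1418) (.cons (nat_lit 1411) (.cons (nat_lit 5) .nil .nil) .nil) .nil) .nil) .nil) .nil) .nil) .nil) .nil) .nil) .nil) .nil) .nil) .nil) .nil) .nil) .nil) .nil)) .nil)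 .nil)) .nil) (.cons (nat_lit 406) (.cons (nat_lit 404) (.cons (nat_lit 530) (.cons (nat_lit 523) (.cons (nat_lit 396) (.cons (nat_lit 650) (.cons (nat_lit 644) (.cons (nat_lit 774) (.cons (nat_lit 772) (.cons (nat_lit 897) (.cons (nat_lit 900) (.cons (nat_lit 1030) (.cons (nat_lit 1028) (.cons (nat_lit 1158) (.cons (nat_lit 17539) Uxp7n64 .nil) .nil) .nil) .nil) .nil) .nil) .nil) .nil) .nil) .nil) .nil) .nil) .nil) .nil) .nil))) .nil) .nil))
def Uxp7n267 : PT := (.cons (nat_lit 652) (.cons (nat_lit 778) (.cons (nat_lit 772) (.cons (nat_lit 902) (.cons (nat_lit 899) (.cons (nat_lit 25475) (.cons (nat_lit 5) .nil .nil) .nil) .nil) .nil) .nil) .nil) .nil)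
def Uxp7n278 : PT := (.cons (nat_lit 782) (.cons (nat_lit 780) (.cons (nat_lit 906) (.cons (nat_lit 25475) (.cons (nat_lit 772) (.cons (nat_lit 1030) (.cons (nat_lit 41987) (.cons (nat_lit 1028) (.cons (nat_lit 1158) (.cons (nat_lit 1155) (.cons (nat_lit 9347) (.cons (nat_lit 5) .nil .nil) .nil) .nil) .nil) .nil) .nil) .nil) .nil) .nil) .nil) .nil) .nil)
def Uxp7n283 : PT := (.cons (nat_lit 908) (.cons (nat_lit 1038) (.cons (nat_lit 50187) (.cons (nat_lit 1036) (.cons (nat_lit 1162) (.cons (nat_lit 9347) (.cons (nat_lit 5) .nil .nil) .nil) .nil) .nil) .nil) .nil) .nil)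
def Uxp7n306 : PT := (.cons (nat_lit 778) (.cons (nat_lit 772) (.cons (nat_lit 902) (.cons (nat_lit 25475) (.cons (nat_lit 900) (.cons (nat_lit 1030) (.cons (nat_lit 1028) (.cons (nat_lit 1158) (.cons (nat_lit 1155) (.cons (nat_lit 1156) (.cons (nat_lit 1286) (.cons (nat_lit 66819) (.cons (nat_lit 1284) (.cons (nat_lit 1409) (.cons (nat_lit 9603) (.cons (nat_lit 5) .nil .nil) .nil) .nil) .nil) .nil) .nil) .nil) .nil) .nil) .nil) .nil) .nil) .nil) .nil) .nil) .nil)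
def Uxp7n328 : PT := (.cons (nat_lit 1164) (.cons (nat_lit 1290) (.cons (nat_lit 1284) (.cons (nat_lit 1414) (.cons (nat_lit 1411) (.cons (nat_lit 58755) (.cons (nat_lit 5) .nil .nil) .nil) .nil) .nil) .nil) .nil) .nil)
def Uxp7n345 : PT := (.cons (nat_lit 1292) (.cons (nat_lit 1418) (.cons (nat_lit 9603) (.cons (nat_lit 5) .nil .nil) .nil) .nil) .nil)
def Uxp7n451 : PT := (.cons (nat_lit 150) (.cons (nat_lit 148) (.cons (nat_lit 273) (.cons (nat_lit 276) (.cons (nat_lit 406) (.cons (nat_lit 404) (.cons (nat_lit 530) (.cons (nat_lit 524) (.cons (nat_lit 654) (.cons (nat_lit 8843) Uxp7n267 (.cons (nat_lit 652) Uxp7n278 (.cons (nat_lit 25227) (.cons (nat_lit 652) (.cons (nat_lit 782) (.cons (nat_lit 780) (.cons (nat_lit 910) (.cons (nat_lit 907) Uxp7n283 .nil) .nil) .nil) .nil) .nil) .nil))) (.cons (nat_lit 649) (.cons (nat_lit 652) Uxp7n306 .nil) .nil)) .nil) (.cons (nat_lit 534) (.cons (nat_lit 532) (.cons (nat_lit 658) (.cons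 (nat_lit 8843) (.cons (nat_lit 524) (.cons (nat_lit 782) (.cons (nat_lit 25355) (.cons (nat_lit 780) (.cons (nat_lit 910) (.cons (nat_lit 908) (.cons (nat_lit 1034) (.cons (nat_lit 1028) (.cons (nat_lit 1158) (.cons (nat_lit 1155) (.cons (nat_lit 58499) (.cons (nat_lit 5) .nil .nil) .nil) .nil) .nil) .nil) .nil) .nil) .nil) .nil) .nil) .nil) .nil) .nil) (.cons (nat_lit 657) (.cons (nat_lit 8851) (.cons (nat_lit 532) (.cons (nat_lit 790) (.cons (nat_lit 25363) (.cons (nat_lit 788) (.cons (nat_lit 918) (.cons (nat_lit 916) (.cons (nat_lit 1042) (.cons (nat_lit 1036) (.cons (nat_lit 1161) Uxp7n328 .nil) .nil) (.cons (nat_lit 1041) (.cons (nat_lit 1044) (.cons (nat_lit 1170) Uxp7n328 .nil) .nil) .nil)) .nil) .nil) .nil) .nil) .nil) .nil) .nil) .nil)) (.cons (nat_lit 531) (.cons (nat_lit 532) (.cons (nat_lit 662) (.cons (nat_lit 25235) (.cons (nat_lit 660) (.cons (nat_lit 790) (.cons (nat_lit 788) (.cons (nat_lit 914) Uxp7n283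 (.cons (nat_lit 913) (.cons (nat_lit 916) (.cons (nat_lit 1042) (.cons (nat_lit 1036) (.cons (nat_lit 1161) (.cons (nat_lit 1164) (.cons (nat_lit 1294) (.cons (nat_lit 50443) Uxp7n345 .nil) .nil) .nil) .nil) .nil) .nil) .nil) .nil)) .nil) .nil) .nil) .nil) .nil) .nil) .nil)) (.cons (nat_lit 529) (.cons (nat_lit 532) (.cons (nat_lit 658) (.cons (nat_lit 652) (.cons (nat_lit 777) (.cons (nat_lit 780) (.cons (nat_lit 910) (.cons (nat_lit 25483) (.cons (nat_lit 908) (.cons (nat_lit 1038) (.cons (nat_lit 1036) (.cons (nat_lit 1166) (.cons (nat_lit 1163) (.cons (nat_lit 1164) (.cons (nat_lit 1294) (.cons (nat_lit 66827) Uxp7n345 .nil) .nil) .nil) .nil) .nil) .nil) .nil) .nil) .nil) .nil) .nil) Uxp7n306) .nil) .nil) .nil) .nil))) .nil) (.cons (nat_lit 402) (.cons (nat_lit 396) (.cons (nat_lit 521) (.cons (nat_lit 524) (.cons (nat_lit 654) (.cons (nat_lit 8843) (.cons (nat_lit 652) (.cons (nat_lit 782) (.cons (nat_lit 780) (.cons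 (nat_lit 910) (.cons (nat_lit 908) (.cons (nat_lit 1033) (.cons (nat_lit 1036) (.cons (nat_lit 1166) (.cons (nat_lit 1163) (.cons (nat_lit 1164) (.cons (nat_lit 1290) (.cons (nat_lit 1284) (.cons (nat_lit 1414) (.cons (nat_lit 50563) (.cons (nat_lit 58755) (.cons (nat_lit 5) .nil .nil) .nil) .nil) .nil) .nil) .nil) .nil) .nil) .nil) .nil) .nil) .nil) .nil) .nil) .nil) .nil) .nil) .nil) .nil) .nil) .nil) .nil)) .nil) (.cons (nat_lit 274) (.cons (nat_lit 268) (.cons (nat_lit 398) (.cons (nat_lit 396) (.cons (nat_lit 521) (.cons (nat_lit 524) (.cons (nat_lit 654) (.cons (nat_lit 8843) Uxp7n267 (.cons (nat_lit 652) Uxp7n278 .nil)) .nil) .nil) .nil) .nil) .nil) .nil) (.cons (nat_lit 278) (.cons (nat_lit 276) (.cons (nat_lit 402) (.cons (nat_lit 396) (.cons (nat_lit 522) (.cons (nat_lit 516) (.cons (nat_lit 646) (.cons (nat_lit 644) (.cons (nat_lit 774) (.cons (nat_lit 8963) (.cons (nat_lit 772) (.cons (nat_lit 902) (.cons (nat_lit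 41859) (.cons (nat_lit 900) (.cons (nat_lit 1030) (.cons (nat_lit 1027) (.cons (nat_lit 17411) (.cons (nat_lit 5) .nil .nil) .nil) .nil) .nil) .nil) .nil) .nil) .nil) .nil) .nil) .nil) .nil) .nil) .nil) .nil) (.cons (nat_lit 401) (.cons (nat_lit 404) (.cons (nat_lit 530) (.cons (nat_lit 524) (.cons (nat_lit 649) (.cons (nat_lit 652) (.cons (nat_lit 778) (.cons (nat_lit 772) (.cons (nat_lit 902) (.cons (nat_lit 900) (.cons (nat_lit 1030) (.cons (nat_lit 9219) (.cons (nat_lit 1028) (.cons (nat_lit 1158) (.cons (nat_lit 58499) (.cons (nat_lit 1156) (.cons (nat_lit 1286) (.cons (nat_lit 1283) (.cons (nat_lit 17667) (.cons (nat_lit 5) .nil .nil) .nil) .nil) .nil) .nil) .nil) .nil) .nil) .nil) .nil) .nil) .nil) .nil) .nil) .nil) .nil) .nil) .nil) .nil) .nil)) .nil) .nil))) .nil) .nil)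
def Uxt7 : PT := (.cons (nat_lit 20) (.cons (nat_lit 146) (.cons (nat_lit 140) (.cons (nat_lit 266) (.cons (nat_lit 259) (.cons (nat_lit 5) .nil .nil) .nil) (.cons (nat_lit 270) (.cons (nat_lit 268) (.cons (nat_lit 394) (.cons (nat_lit 388) (.cons (nat_lit 513) Uxp7n5 .nil) .nil) (.cons (nat_lit 393) (.cons (nat_lit 396) (.cons (nat_lit 522) Uxp7n5 .nil) .nil) (.cons (nat_lit 398) (.cons (nat_lit 396) (.cons (nat_lit 526) (.cons (nat_lit 16907) (.cons (nat_lit 524) (.cons (nat_lit 654) (.cons (nat_lit 652) (.cons (nat_lit 778) (.cons (nat_lit 772) (.cons (nat_lit 902) (.cons (nat_lit 25475) (.cons (nat_lit 900) (.cons (nat_lit 1030) (.cons (nat_lit 1027) (.cons (nat_lit 41987) (.cons (nat_lit 5) .nil .nil) .nil) .nil) .nil) .nil) .nil) .nil) .nil) .nil) .nil) .nil) .nil) .nil) (.cons (nat_lit 522) (.cons (nat_lit 516) (.cons (nat_lit 646) (.cons (nat_lit 17027) (.cons (nat_lit 644) (.cons (nat_lit 774) (.cons (nat_lit 772)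 (.cons (nat_lit 902) (.cons (nat_lit 899) (.cons (nat_lit 900) (.cons (nat_lit 1030) (.cons (nat_lit 25603) (.cons (nat_lit 50179) (.cons (nat_lit 5) .nil .nil) .nil) .nil) .nil) .nil) .nil) .nil) .nil) .nil) .nil) .nil) .nil) .nil) .nil)) .nil) .nil))) .nil) (.cons (nat_lit 265) (.cons (nat_lit 268) (.cons (nat_lit 398) (.cons (nat_lit 396) (.cons (nat_lit 521) (.cons (nat_lit 524) Uxp7n57 .nil) (.cons (nat_lit 526) (.cons (nat_lit 523) (.cons (nat_lit 524) Uxp7n74 .nil) .nil) .nil)) .nil) .nil) .nil) .nil))) .nil) (.cons (nat_lit 145) (.cons (nat_lit 148) Uxp7n260 .nil) Uxp7n451)) .nil)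
def Uxp7 : Prog := ⟨867, 3, 2, 0, Uxt7, 0, dt0⟩

end Pool.Agent.Hom2.UC
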