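import Pool.Agent.Lib.MP_7e4769_co.Hc.UDb

set_option autoImplicit false
set_option maxRecDepth 100000

namespace Pool.Agent.Hom2.UC

def Uxt8 : PT := (.cons (nat_lit 20) (.cons (nat_lit 146) (.cons (nat_lit 140) (.cons (nat_lit 266) (.cons (nat_lit 259) (.cons (nat_lit 5) .nil .nil) .nil) .nil) .nil) (.cons (nat_lit 145) (.cons (nat_lit 148) (.cons (nat_lit 274) (.cons (nat_lit 268) (.cons (nat_lit 394) (.cons (nat_lit 388) (.cons (nat_lit 513) (.cons (nat_lit 515) (.cons (nat_lit 5) .nil .nil) .nil) .nil) .nil) (.cons (nat_lit 393) (.cons (nat_lit 396) (.cons (nat_lit 522) (.cons (nat_lit 515) (.cons (nat_lit 5) .nil .nil) .nil) .nil) .nil) .nil)) .nil) .nil) .nil) .nil)) .nil)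
def Uxp8 : Prog := ⟨888, 3, 2, 0, Uxt8, 0, dt0⟩

end Pool.Agent.Hom2.UC
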