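import Pool.Agent.Lib.MP_7e4769_co.Hc.UxP0
import Pool.Agent.Lib.MP_7e4769_co.Hc.UxP1
import Pool.Agent.Lib.MP_7e4769_co.Hc.UxP7
import Pool.Agent.Lib.MP_7e4769_co.Hc.UxP8
import Pool.Agent.Lib.MP_7e4769_co.Hc.UxP9
import Pool.Agent.Lib.MP_7e4769_co.Hc.UxP10
import Pool.Agent.Lib.MP_7e4769_co.Hc.UxP11
import Pool.Agent.Lib.MP_7e4769_co.Hc.UxP12
import Pool.Agent.Lib.MP_7e4769_co.Hc.UxP15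
import Pool.Agent.Lib.MP_7e4769_co.Hc.UxP19
import Pool.Agent.Lib.MP_7e4769_co.Hc.UxP21
import Pool.Agent.Lib.MP_7e4769_co.Hc.UxP25
import Pool.Agent.Lib.MP_7e4769_co.Hc.UxP28
import Pool.Agent.Lib.MP_7e4769_co.Hc.UxP30
import Pool.Agent.Lib.MP_7e4769_co.Hc.UxP32
import Pool.Agent.Lib.MP_7e4769_co.Hc.UxP33
import Pool.Agent.Lib.MP_7e4769_co.Hc.UxP34
import Pool.Agent.Lib.MP_7e4769_co.Hc.UxQ0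
import Pool.Agent.Lib.MP_7e4769_co.Hc.UxQ1
import Pool.Agent.Lib.MP_7e4769_co.Hc.UxQ2
import Pool.Agent.Lib.MP_7e4769_co.Hc.UxQ3
import Pool.Agent.Lib.MP_7e4769_co.Hc.UxDb

set_option autoImplicit false
set_option maxRecDepth 100000

namespace Pool.Agent.Hom2.UC

noncomputable section

def Uxp2 : Prog := ⟨203, 3, 1, 0, Uxt1, 6, nth2 [Uxq2_0]⟩
def Uxp3 : Prog := ⟨393, 3, 1, 0, Uxt1, 6, nth2 [Uxq3_0]⟩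
def Uxp4 : Prog := ⟨628, 3, 1, 0, Uxt1, 6, nth2 [Uxq4_0]⟩
def Uxp5 : Prog := ⟨744, 3, 1, 0, Uxt1, 7, nth2 [Uxq5_0]⟩
def Uxp6 : Prog := ⟨866, 3, 1, 0, Uxt1, 6, nth2 [Uxq6_0]⟩
def Uxp13 : Prog := ⟨1216, 7, 2, 0, Uxt12, 11, nth2 [Uxq13_0]⟩
def Uxp14 : Prog := ⟨1634, 7, 2, 0, Uxt12, 34, nth2 [Uxq14_0]⟩
def Uxp16 : Prog := ⟨1949, 7, 2, 0, Uxt15, 19, nth2 [Uxq16_0]⟩
def Uxp17 : Prog := ⟨2258, 7, 2, 0, Uxt15, 13, nth2 [Uxq17_0]⟩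
def Uxp18 : Prog := ⟨2919, 7, 2, 0, Uxt15, 46, nth2 [Uxq18_0, Uxq18_1]⟩
def Uxp20 : Prog := ⟨3196, 7, 2, 0, Uxt19, 24, nth2 [Uxq20_0]⟩
def Uxp22 : Prog := ⟨3286, 7, 2, 0, Uxt21, 40, nth2 [Uxq22_0]⟩
def Uxp23 : Prog := ⟨3287, 7, 2, 0, Uxt21, 11, nth2 [Uxq23_0]⟩
def Uxp24 : Prog := ⟨3462, 7, 2, 0, Uxt21, 49, nth2 [Uxq24_0, Uxq24_1]⟩
def Uxp26 : Prog := ⟨7422, 7, 2, 0, Uxt25, 666, nth2 [Uxq26_0, Uxq26_1, Uxq26_2, Uxq26_3, Uxq26_4, Uxq26_5, Uxq26_6, Uxq26_7, Uxq26_8, Uxq26_9, Uxq26_10, Uxq26_11, Uxq26_12, Uxq26_13, Uxq26_14, Uxq26_15, Uxq26_16]⟩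
def Uxp27 : Prog := ⟨10580, 7, 2, 0, Uxt25, 365, nth2 [Uxq27_0, Uxq27_1, Uxq27_2, Uxq27_3, Uxq27_4, Uxq27_5, Uxq27_6, Uxq27_7, Uxq27_8, Uxq27_9]⟩
def Uxp29 : Prog := ⟨10988, 7, 2, 0, Uxt28, 34, nth2 [Uxq29_0]⟩
def Uxp31 : Prog := ⟨11065, 7, 2, 0, Uxt30, 12, nth2 [Uxq31_0]⟩
def Uxl : List Prog := [Uxp0, Uxp1, Uxp2, Uxp3, Uxp4, Uxp5, Uxp6, Uxp7, Uxp8, Uxp9, Uxp10, Uxp11, Uxp12, Uxp13, Uxp14, Uxp15, Uxp16, Uxp17, Uxp18, Uxp19, Uxp20, Uxp21, Uxp22, Uxp23, Uxp24, Uxp25, Uxp26, Uxp27, Uxp28, Uxp29, Uxp30, Uxp31, Uxp32, Uxp33, Uxp34]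
def Uxpg : ℕ → Prog := nthP Uxl

end

end Pool.Agent.Hom2.UC
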